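import Pool.Agent.Lib.MP_d61fbb_ag.MW.Top
import Pool.Agent.Lib.MP_d61fbb_ag.MT.AGal
import Pool.Agent.Lib.MP_0d42ed_ag.WT.D2

/-! The arithmetic package. -/

noncomputable section

namespace Pool.Agent.MT

variable [dm : Dim]

open Matrix Filter
open Pool.Agent.Lib.MP_696deb_nt.B2 (Qbar Gam Op jC)

/-- the normalised theta function as an abstract theta system -/
def ASYS : Prop := ∀ τ : Matrix (Fin gg) (Fin gg) ℂ, Sieg τ → ∀ η0, Th τ (hv η0) ≠ 0 →
  (∀ η, IsAlgebraic ℚ (Th τ (hv η) / Th τ (hv η0))) → ∃ S : TSys Qbar 0, S.Θ (hw η0) = 1 ∧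
    (∀ x, Th τ (hv η0) * jC (S.Θ x) = Theta τ x) ∧ (∀ a, jC (S.e a) = psi a) ∧
    (∃ C : ℝ, ∀ (φ : Qbar →+* ℂ) x, ‖φ (S.Θ x)‖ ≤ C) ∧
    ∃ D : ℕ, D ≠ 0 ∧ ∀ x, IsIntegral ℤ ((D : Qbar) * S.Θ x)

lemma afin_jC {z : ℂ} (hz : IsAlgebraic ℚ z) : ∃ x, jC x = z := by
  let _ : Algebra Qbar ℂ := jC.toAlgebra
  have : IsScalarTower ℚ Qbar ℂ := IsScalarTower.of_algebraMap_eq fun q => (map_ratCast jC q).symm
  exact minpoly.mem_range_of_degree_eq_one Qbar z (IsAlgClosed.degree_eq_one_of_irreducible Qbar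
    (minpoly.irreducible (hz.extendScalars (algebraMap ℚ Qbar).injective).isIntegral))

variable {K : IntermediateField ℚ ℂ}

lemma afin_res (K : IntermediateField ℚ ℂ) :
    ∃ res : (ℂ ≃ₐ[K] ℂ) →* Gam, ∀ σ x, jC (res σ x) = σ (jC x) := by
  let _ : Algebra Qbar ℂ := jC.toAlgebra
  have : IsScalarTower ℚ Qbar ℂ := IsScalarTower.of_algebraMap_eq fun q => (map_ratCast jC q).symm
  have h : ∀ (σ : ℂ ≃ₐ[K] ℂ) x, jC ((σ.restrictScalars ℚ).restrictNormal Qbar x) = σ (jC x) :=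
    fun σ => AlgEquiv.restrictNormal_commutes (σ.restrictScalars ℚ) Qbar
  exact ⟨.mk' (fun σ => (σ.restrictScalars ℚ).restrictNormal Qbar) fun σ σ' =>
    AlgEquiv.ext fun x => jC.injective (by simp only [AlgEquiv.mul_apply, h]), h⟩

lemma afin_surj [FiniteDimensional ℚ K] {res : (ℂ ≃ₐ[K] ℂ) →* Gam}
    (h : ∀ σ x, jC (res σ x) = σ (jC x)) (g : Gam) (hg : ∀ x, jC x ∈ K → g x = x) :
    g ∈ res.range := by
  have : Countable Qbar := Cardinal.mk_le_aleph0_iff.1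
    ((Algebra.IsAlgebraic.cardinalMk_le_max ℚ Qbar).trans (by simp))
  obtain ⟨e, he⟩ := WT.d2_inj jC (jC.comp g) jC.injective (jC.injective.comp g.injective)
  refine ⟨{ e with commutes' := fun k => ?_ }, AlgEquiv.ext fun x => jC.injective ((h _ x).trans (he x))⟩
  obtain ⟨x, hx⟩ := afin_jC (IntermediateField.isAlgebraic_iff.1 (Algebra.IsAlgebraic.isAlgebraic k))
  have := he x
  rw [RingHom.comp_apply, RingHom.coe_coe, hg x (hx ▸ k.2), hx] at this
  exact this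

lemma afin_open [FiniteDimensional ℚ K] {res : (ℂ ≃ₐ[K] ℂ) →* Gam}
    (h : ∀ σ x, jC (res σ x) = σ (jC x)) : Op res.range := by
  let b := Module.finBasis ℚ K
  choose x hx using fun i =>
    afin_jC (IntermediateField.isAlgebraic_iff.1 (Algebra.IsAlgebraic.isAlgebraic (b i)))
  refine Subgroup.isOpen_mono (H₁ := ⨅ i, MulAction.stabilizer Gam (x i)) (fun g hg =>
    afin_surj h g fun y hy => ?_) ?_
  · have e : y = ∑ i, b.repr ⟨_, hy⟩ i • x i := jC.injective (by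
      refine (congrArg K.val (b.sum_repr ⟨_, hy⟩).symm).trans ?_
      simp only [map_sum, Rat.smul_def, map_mul, map_ratCast, hx]
      rfl)
    rw [e, map_sum]
    exact Finset.sum_congr rfl fun i _ => by
      rw [Rat.smul_def, map_mul, map_ratCast, show g (x i) = x i from Subgroup.mem_iInf.1 hg i]
  · rw [Subgroup.coe_iInf]
    exact isOpen_iInter_of_finite fun i => stabilizer_isOpen_of_isIntegral _

lemma alg_of_fix [FiniteDimensional ℚ K] {z : ℂ} (h : ∀ σ : ℂ ≃ₐ[K] ℂ, σ z = z) :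
    IsAlgebraic ℚ z := by
  have : Countable K := Cardinal.mk_le_aleph0_iff.1
    ((Algebra.IsAlgebraic.cardinalMk_le_max ℚ K).trans (by simp))
  have : Countable K.toSubfield := this
  have h1 : IsAlgebraic K z := WT.isAlgebraic_of_finite K.toSubfield (Set.finite_singleton z)
    fun σ hσ => h { σ with commutes' := fun k => hσ k k.2 }
  exact h1.restrictScalars ℚ

lemma mA_mem (g : ∀ l : Pr, GL (I2 gg) ℤ_[l]) (i j : I2 gg) : mA g i j ∈ Zh :=
  fun l => ((g l).val i j).2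

lemma cp_mA (g : ∀ l : Pr, GL (I2 gg) ℤ_[l]) (x : W) (l : Pr) (i : I2 gg) :
    cp l ((mA g *ᵥ x) i) = ((g l).val.map (↑) *ᵥ cpv l x) i :=
  RingHom.map_mulVec (cp l).toRingHom (mA g) x i

theorem t_a_of (hS : ASYS) : T_A := fun inj τ hτ K _ h8 M => by
  have G := fun σ : ℂ ≃ₐ[K] ℂ => hτ.galoisA (σ : ℂ →+* ℂ) (σ.commutes ⟨_, h8⟩) (mA_mem (M.ρ σ))
    fun a b hab => M.alg σ a b fun l i => by
      have := mem_L0.1 hab i l
      rw [Pi.sub_apply, map_sub, cp_mA] at this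
      rwa [show cpv l (qv' a) = _ from funext fun j => qa_apply _ l,
        show cp l (qv' b i) = _ from qa_apply _ l] at this
  have z : ∀ η, UU 1 (hw η) (Theta τ) 0 = Th τ (hv η) := fun η => by
    simp [UU_apply, eps, Theta_qv, qc_hq, hw]
  obtain ⟨η0, h0⟩ := hτ.exists_ne 0
  rw [zero_add] at h0
  have G1 : ∀ (σ : ℂ ≃ₐ[K] ℂ) η x, σ (UU 1 (hw η) (Theta τ) x / Th τ (hv η0)) =
      UU 1 (hw η) (Theta τ) (mA (M.ρ σ) *ᵥ x) / Th τ (hv η0) := fun σ η x => by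
    obtain ⟨c, hc, h1⟩ := (G σ).1
    have h2 := h1 η0 0
    rw [mulVec_zero, ← hw, z] at h2
    rw [map_div₀, hw, show σ _ = _ from h1 η x, show σ _ = _ from h2, mul_div_mul_left _ _ hc]
  obtain ⟨S, h1, h2, h3, h4, h5⟩ := hS τ hτ η0 h0 fun η => alg_of_fix (K := K) fun σ => by
    simpa only [mulVec_zero, z] using G1 σ η 0
  obtain ⟨res, hr⟩ := afin_res K
  have h6 : ∀ η x, jC (S.th η x) = UU 1 (hw η) (Theta τ) x / Th τ (hv η0) := fun η x => by
    rw [TSys.th, Rt, map_mul, h3, UU_apply, ← h2, eps, Nat.cast_one]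
    field_simp
  have gal : ∀ σ η x, res σ (S.th η x) = S.th η (mA (M.ρ σ) *ᵥ x) := fun σ η x =>
    jC.injective (by rw [hr, h6, h6, G1])
  refine ⟨⟨S, η0, h1, _, h0, h2, h3, res, hr, afin_surj hr, afin_open hr, gal, fun σ x y =>
    jC.injective (by rw [hr, h3, h3]; exact (G σ).2 x y), fun N hN => ?_, h4, h5⟩⟩
  let x (j : I2 gg) : W := Pi.single j (qa (2 / N))
  refine ⟨⨅ p : (I2 gg → ZMod 2) × I2 gg, MulAction.stabilizer Gam (S.th p.1 (x p.2)), ?_,
    fun σ hσ l i j => ?_⟩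
  · rw [Op, Subgroup.coe_iInf]
    exact isOpen_iInter_of_finite fun i => stabilizer_isOpen_of_isIntegral _
  · have := (inj _ _ S (mA (M.ρ σ) *ᵥ x j) (x j) 1 fun η => by
      rw [← gal, one_mul]; exact Subgroup.mem_iInf.1 hσ (η, j)).1 i l l.2.ne_zero
    have h7 : (N : ℚ_[l]) ≠ 0 := by exact_mod_cast hN
    have e : cp l ((1 / 2 : ℚ) • (mA (M.ρ σ) *ᵥ x j - x j) i) =
        (((M.ρ σ l).val - 1) i j : ℤ_[l]) / (N : ℚ_[l]) := by
      have k : cp l (qa (2 / N)) = 2 / N := by simp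
      have k' : cp l (mA (M.ρ σ) i j) = (M.ρ σ l).val i j := rfl
      rw [map_smul, Pi.sub_apply, map_sub]
      simp only [x, mulVec_single, Pi.single_apply, Pi.smul_apply, MulOpposite.smul_eq_mul_unop,
        MulOpposite.unop_op, col_apply, map_mul, apply_ite (cp l), k, k', Matrix.sub_apply, one_apply,
        map_zero, Rat.smul_def]
      split_ifs <;> push_cast <;> ring
    rw [e, norm_div, div_le_one (norm_pos_iff.2 h7)] at this
    exact this

end Pool.Agent.MT
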