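import Pool.Agent.Lib.MP_d61fbb_ag.MW.I1

/-! The shape of the assembly: every line is proved by the owner in a file of its own. -/

set_option autoImplicit false

namespace Pool.Agent.MT

variable [dm : Dim]

def T_A : Prop := INJ → AStmt
def T_GH : Prop := GH
def T_B0 : Prop := IRR ∧ UNIQ ∧ GENP ∧ INJ
def T_VAN : Prop := IRR → UNIQ → GENP → INJ → VAN
def T_WEIL : Prop := IRR → UNIQ → GENP → INJ → VAN → WEIL
def T_ALPHA : Prop := IRR → UNIQ → GENP → INJ → VAN → ALPHA
def T_RED : Prop := IRR → UNIQ → GENP → INJ → GH → REDS ∧ LAT ∧ REDG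

end Pool.Agent.MT
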