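import Pool.Agent.Lib.MP_d61fbb_ag.MW.I1
import Pool.Agent.Lib.MP_d61fbb_ag.MT.BW0

/-! Ordinarity: linear algebra. -/

set_option autoImplicit false

noncomputable section

namespace Pool.Agent.MT.BO

variable [dm : Dim]

open Matrix Polynomial Sum

section alg
variable {p : ℕ} [Fact p.Prime]

theorem bo_zero_of_bdd {a : ℚ_[p]} (h : ∀ t : ℚ_[p], ‖t * a‖ ≤ 1) : a = 0 := by
  by_contra h0
  have := h ((p : ℚ_[p])⁻¹ / a)
  rw [div_mul_cancel₀ _ h0, norm_inv, Padic.norm_p, inv_inv] at this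
  exact absurd this (not_le.2 (by exact_mod_cast (Fact.out : p.Prime).one_lt))

theorem exists_poly_quot {K n : Type*} [Field K] [Fintype n] [DecidableEq n] (A : Matrix n n K)
    (V0 : Submodule K (n → K)) (h : ∀ x ∈ V0, A *ᵥ x ∈ V0) :
    ∃ Q : K[X], Q ≠ 0 ∧ Q.natDegree + Module.finrank K V0 = Fintype.card n ∧
      ∀ x, aeval A Q *ᵥ x ∈ V0 := by
  let f := V0.mapQ V0 (toLin' A) h
  refine ⟨f.charpoly, f.charpoly_monic.ne_zero, by
    rw [LinearMap.charpoly_natDegree, Submodule.finrank_quotient_add_finrank,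
      Module.finrank_fintype_fun_eq_card], fun x => ?_⟩
  have h1 : ∀ (k : ℕ) x, V0.mkQ (A ^ k *ᵥ x) = (f ^ k) (V0.mkQ x) := by
    intro k
    induction k with
    | zero => simp
    | succ k ih =>
      intro x
      rw [pow_succ', ← mulVec_mulVec, pow_succ', Module.End.mul_apply, ← ih]
      rfl
  have h2 : ∀ Q : K[X], V0.mkQ (aeval A Q *ᵥ x) = (aeval f Q) (V0.mkQ x) := by
    intro Q
    induction Q using Polynomial.induction_on' with
    | add a b ha hb => rw [map_add, map_add, add_mulVec, map_add, ha, hb, LinearMap.add_apply]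
    | monomial i a =>
      rw [aeval_monomial, aeval_monomial, ← Algebra.smul_def, ← Algebra.smul_def, smul_mulVec,
        map_smul, h1, LinearMap.smul_apply]
  rw [← Submodule.Quotient.mk_eq_zero, ← Submodule.mkQ_apply, h2, LinearMap.aeval_self_charpoly,
    LinearMap.zero_apply]

theorem Ef_single {K : Type*} [CommRing K] {g : ℕ} (x : I2 g → K) (i : Fin g) :
    Ef x (Pi.single (inr i) 1) = x (inl i) ∧ Ef x (Pi.single (inl i) 1) = -x (inr i) := by
  constructor <;> simp [Ef, dotProduct, Pi.single_apply]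

theorem eq_zero_of_Ef {K : Type*} [CommRing K] {g : ℕ} {x : I2 g → K} (h : ∀ y, Ef y x = 0) :
    x = 0 := by
  funext i
  rcases i with i | i
  · rw [← (Ef_single x i).1, Ef_swap, h, neg_zero]; rfl
  · have := (Ef_single x i).2
    rw [Ef_swap, h, neg_zero, eq_comm, neg_eq_zero] at this
    exact this

/-- a coisotropic subspace of at most half the dimension is Lagrangian -/
theorem lagr_of_coiso {K : Type*} [Field K] {g : ℕ} (V0 : Submodule K (I2 g → K))
    (hc : ∀ y, (∀ x ∈ V0, Ef x y = 0) → y ∈ V0) (hd : Module.finrank K V0 ≤ g) :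
    Module.finrank K V0 = g ∧ ∀ x ∈ V0, ∀ y ∈ V0, Ef x y = 0 := by
  let B : LinearMap.BilinForm K (I2 g → K) := LinearMap.mk₂ K Ef Ef_add_left
    (fun c x y => Ef_smul_left x y c) Ef_add_right fun c x y => Ef_smul_right x y c
  have hB : B.Nondegenerate :=
    ⟨fun x hx => eq_zero_of_Ef fun y => by rw [Ef_swap, show Ef x y = 0 from hx y, neg_zero],
      fun x hx => eq_zero_of_Ef hx⟩
  have h1 := LinearMap.BilinForm.finrank_orthogonal hB V0
  have h2 : B.orthogonal V0 ≤ V0 := fun y hy => hc y fun x hx => hy x hx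
  have h3 := Submodule.finrank_mono h2
  rw [Module.finrank_fintype_fun_eq_card, Fintype.card_sum, Fintype.card_fin] at h1
  have h4 : B.orthogonal V0 = V0 := Submodule.eq_of_le_of_finrank_le h2 (by omega)
  exact ⟨by omega, fun x hx y hy => (h4.ge hy) x hx⟩

end alg

section adel

theorem bo_ext {x y : AF} (h : ∀ l, cp l x = cp l y) : x = y := Subtype.ext (funext h)

theorem bo_cp_sg (l : Pr) (a : ℚ_[l]) : cp l (sg l a) = a :=
  Pi.single_eq_same (M := fun l : Pr => ℚ_[l]) l a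

theorem bo_cp_sg_ne {l l' : Pr} (h : l' ≠ l) (a : ℚ_[l]) : cp l' (sg l a) = 0 :=
  Pi.single_eq_of_ne (M := fun l : Pr => ℚ_[l]) h a

theorem cpv_sgv (l : Pr) (x : Vl l) : cpv l (sgv l x) = x := funext fun _ => bo_cp_sg l _

theorem cpv_sgv_ne {l l' : Pr} (h : l' ≠ l) (x : Vl l) : cpv l' (sgv l x) = 0 :=
  funext fun _ => bo_cp_sg_ne h _

theorem cpv_ext {x y : W} (h : ∀ l, cpv l x = cpv l y) : x = y :=
  funext fun i => bo_ext fun l => congrFun (h l) i

theorem cpv_sub (l : Pr) (x y : W) : cpv l (x - y) = cpv l x - cpv l y :=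
  funext fun _ => map_sub (cp l) _ _

theorem cpv_mulVec (l : Pr) (a : M8 AF) (x : W) : cpv l (a *ᵥ x) = a.map (cp l) *ᵥ cpv l x :=
  funext fun i => by simp [cpv, mulVec, dotProduct]

theorem mA_map (g : ∀ l : Pr, GL (I2 gg) ℤ_[l]) (l : Pr) :
    (mA g).map (cp l) = (g l).val.map (↑) := rfl

theorem mulVec_sgv (l : Pr) (a : M8 AF) (x : Vl l) :
    a *ᵥ sgv l x = sgv l (a.map (cp l) *ᵥ x) := cpv_ext fun l' => by
  by_cases h : l' = l
  · subst h; rw [cpv_mulVec, cpv_sgv, cpv_sgv]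
  · rw [cpv_mulVec, cpv_sgv_ne h, cpv_sgv_ne h, mulVec_zero]

theorem cp_Ef (l : Pr) (x y : W) : cp l (Ef x y) = Ef (cpv l x) (cpv l y) := Ef_map x y (cp l)

theorem Ef_sgv (l : Pr) (x y : Vl l) : Ef (sgv l x) (sgv l y) = sg l (Ef x y) := bo_ext fun l' => by
  by_cases h : l' = l
  · subst h; rw [cp_Ef, cpv_sgv, cpv_sgv, bo_cp_sg]
  · rw [cp_Ef, cpv_sgv_ne h, Ef_zero_left, bo_cp_sg_ne h]

theorem gl_surj {l : Pr} (g : GL (I2 gg) ℤ_[l]) (x : Vl l) :
    ∃ y, g.val.map ((↑) : ℤ_[l] → ℚ_[l]) *ᵥ y = x := by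
  refine ⟨(g⁻¹).val.map (↑) *ᵥ x, ?_⟩
  have := Matrix.map_mul (L := g.val) (M := (g⁻¹).val) (f := PadicInt.Coe.ringHom)
  rw [Units.mul_inv, Matrix.map_one _ (map_zero _) (map_one _)] at this
  rw [mulVec_mulVec]
  exact (congrArg (· *ᵥ x) this.symm).trans (one_mulVec x)

theorem mA_surj (g : ∀ l : Pr, GL (I2 gg) ℤ_[l]) (x : W) : ∃ y, mA g *ᵥ y = x := by
  refine ⟨mA g⁻¹ *ᵥ x, cpv_ext fun l => ?_⟩
  have := Matrix.map_mul (L := (g l).val) (M := ((g l)⁻¹).val) (f := PadicInt.Coe.ringHom)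
  rw [Units.mul_inv, Matrix.map_one _ (map_zero _) (map_one _)] at this
  rw [cpv_mulVec, cpv_mulVec, mA_map, mA_map, mulVec_mulVec]
  exact (congrArg (· *ᵥ cpv l x) this.symm).trans (one_mulVec _)

theorem hw_zero : hw 0 = 0 := by
  funext i
  simp [hw, hq, qv']

theorem th_zero {k : Type} [Field k] {q : ℕ} (S : TSys k q) : S.th 0 = S.Θ := by
  funext x
  simp [TSys.th, Rt, hw_zero]

theorem K0_frob {k : Type} [Field k] {p : Pr} (S : FSys k p) {d : Vl p}
    (hd : d ∈ S.K0 p) : (S.π p).val.map (↑) *ᵥ d ∈ S.K0 p := fun x => by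
  obtain ⟨y, rfl⟩ := mA_surj S.π x
  have h1 := S.frob 0
  rw [th_zero] at h1
  rw [← mA_map, ← mulVec_sgv, ← mulVec_add, h1, h1, hd y]

/-- the largest subspace inside a subgroup -/
def core {K V : Type*} [Field K] [AddCommGroup V] [Module K V] (H : AddSubgroup V) :
    Submodule K V where
  carrier := {x | ∀ t : K, t • x ∈ H}
  zero_mem' := fun t => by rw [smul_zero]; exact H.zero_mem
  add_mem' := fun ha hb t => by rw [smul_add]; exact H.add_mem (ha t) (hb t)
  smul_mem' := fun c x hx t => by rw [smul_smul]; exact hx _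

end adel

end Pool.Agent.MT.BO
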