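import Pool.Agent.Lib.MP_d61fbb_ag.MW.I1
import Pool.Agent.Lib.MP_d61fbb_ag.MW.T1

/-! Complements: pullbacks of theta functions by adelic matrices. -/

set_option autoImplicit false

noncomputable section

namespace Pool.Agent.MT

variable [dm : Dim]

open Matrix Polynomial

/-- vectors that are integral at `q` -/
def IntAt (q : ℕ) : AddSubgroup W where
  carrier := {y | ∀ i (l : Pr), (l : ℕ) = q → ‖cp l (y i)‖ ≤ 1}
  zero_mem' := fun i l _ => by simp
  add_mem' := fun {x y} hx hy i l h => by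
    rw [Pi.add_apply, map_add]
    exact (Padic.nonarchimedean _ _).trans (max_le (hx i l h) (hy i l h))
  neg_mem' := fun {x} hx i l h => by simpa using hx i l h

lemma IntAt_Wp {q : ℕ} {y : W} (h : y ∈ Wp q) : y ∈ IntAt q := fun i l e => by simp [h i l e]

lemma IntAt_L0 {q : ℕ} {y : W} (h : y ∈ L0) : y ∈ IntAt q := fun i l _ => mem_L0.1 h i l

lemma Wp_mulVec {q : ℕ} (a : M8 AF) {y : W} (h : y ∈ Wp q) : a *ᵥ y ∈ Wp q := fun i l e => by
  simp [mulVec, dotProduct, h _ l e]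

lemma mA_mul (g h : ∀ l : Pr, GL (I2 gg) ℤ_[l]) : mA (g * h) = mA g * mA h := by
  ext1 i j
  simp only [mA, of_apply, mul_apply, ← map_mul, ← map_sum]
  congr 1
  funext l
  rw [Finset.sum_apply]
  exact mul_apply

lemma mA_one : mA 1 = 1 := by
  ext1 i j
  by_cases h : i = j
  · subst h; simp only [mA, of_apply, Pi.one_apply, Units.val_one, one_apply_eq]; exact map_one zA
  · simp only [mA, of_apply, Pi.one_apply, Units.val_one, one_apply_ne h]; exact map_zero zA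

lemma mA_inv (g : ∀ l : Pr, GL (I2 gg) ℤ_[l]) (x : W) : mA g *ᵥ mA g⁻¹ *ᵥ x = x := by
  rw [mulVec_mulVec, ← mA_mul, mul_inv_cancel, mA_one, one_mulVec]

lemma mA_IntAt {q : ℕ} (g : ∀ l : Pr, GL (I2 gg) ℤ_[l]) {y : W} (h : y ∈ IntAt q) :
    mA g *ᵥ y ∈ IntAt q := fun i l e => by
  simp only [mulVec, dotProduct, map_sum, map_mul]
  refine IsUltrametricDist.norm_sum_le_of_forall_le_of_nonneg zero_le_one fun j _ => ?_
  rw [norm_mul]
  exact mul_le_one₀ (zA_mem _ l l.2.ne_zero) (norm_nonneg _) (h j l e)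

lemma hw_zero : hw 0 = 0 := by funext i; simp [hw, hq]

lemma Gs_pow {k : Type} [Field k] {e : AddChar AF k} {Θ : W → k} {q m : ℕ} {f : W → k}
    (hf : f ∈ Gs q e Θ m) (n : ℕ) : f ^ n ∈ Gs q e Θ (n * m) := by
  induction n with
  | zero =>
    exact Submodule.subset_span ⟨0, by simp [wt], fun i l _ => by simp [cl], by funext x; simp [gen]⟩
  | succ n ih => rw [pow_succ, Nat.succ_mul]; exact Gs_mul ih hf

lemma GENP.fin (hG : GENP) {k : Type} [Field k] {q : ℕ} (S : TSys k q) {ι : Type} [Finite ι]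
    (m : ι → ℕ) (f : ι → W → k) (z : ι → W) (hf : ∀ i, f i ∈ S.G (m i)) (h0 : ∀ i, f i ≠ 0) :
    ∃ x ∈ Wp q, ∀ i, f i (x + z i) ≠ 0 := by
  obtain ⟨n, ⟨φ⟩⟩ := Finite.exists_equiv_fin ι
  obtain ⟨x, hx, h⟩ := hG k q S n (m ∘ φ.symm) (f ∘ φ.symm) (z ∘ φ.symm) (fun i => hf _) fun i => h0 _
  exact ⟨x, hx, fun i => by simpa using h (φ i)⟩

namespace TSys
variable {k : Type} [Field k] {q : ℕ} (S : TSys k q)

include S in
lemma IntAt_half {y : W} (h : y ∈ IntAt q) : (1 / 2 : ℚ) • y ∈ IntAt q := fun i l e => by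
  have h2 := S.norm_cast (m := 2) (by exact_mod_cast S.two) l e
  rw [Pi.smul_apply, map_smul, Algebra.smul_def, norm_mul]
  simpa [show ‖(2 : ℚ_[l])‖ = 1 by exact_mod_cast h2] using h i l e

include S in
lemma IntAt_hw (η : I2 gg → ZMod 2) : hw η ∈ IntAt q := by
  rw [show hw η = (1 / 2 : ℚ) • (2 : ℤ) • hw η by module]
  exact S.IntAt_half (IntAt_L0 (hw_two η))

lemma Rt_iq {y : W} (h : y ∈ IntAt q) : Rt S.e 1 y S.Θ = Rt S.e 1 (iq q • y) S.Θ := by
  have h1 : ∀ (c : ℚ) (x : W), S.e (c • Ef (y - iq q • y) x) = 1 := fun c x => S.e_one (by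
    rw [show y - iq q • y = (1 - iq q) • y by module, Ef_smul_left, ← mul_smul_comm, ← mul_one (_ * _)]
    exact iq_sub_mem _ _ _)
  have h2 : sgn S.e (y - iq q • y) = 1 := S.e_one (by
    rw [show y - iq q • y = (1 - iq q) • y by module]
    simp only [Qf, Pi.smul_comp, smul_dotProduct, dotProduct_smul, smul_eq_mul]
    rw [← mul_smul_comm, mul_left_comm, ← mul_assoc]
    exact iq_sub_mem _ _ _)
  have h3 := Rt_Rt (e := S.e) 1 (iq q • y) (y - iq q • y) S.Θ
  rw [S.per _ (sub_iq h), h1, h2, one_smul, one_smul, add_sub_cancel] at h3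
  exact h3.symm

lemma riem (u v r s z : W) : 2 ^ gg * S.Θ z * S.Θ z *
      (Rt S.e 1 (r + s) S.Θ (u + v) * Rt S.e 1 (r - s) S.Θ (u - v)) =
    ∑ η, S.e ((2 : ℚ) • Qf (hw η) + Ef (hw η) (r + s)) *
      (Rt S.e 1 (r + z + hw η) S.Θ u * Rt S.e 1 (r - z + hw η) S.Θ u *
        (Rt S.e 1 (s + hw η) S.Θ v * Rt S.e 1 (s + hw η) S.Θ v)) := by
  have h := S.ri (u + v + (r + s)) (u - v + (r - s)) z z
  rw [show (1 / 2 : ℚ) • (u + v + (r + s) + (u - v + (r - s)) + z + z) = u + (r + z) by module,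
    show (1 / 2 : ℚ) • (u + v + (r + s) + (u - v + (r - s)) - z - z) = u + (r - z) by module,
    show (1 / 2 : ℚ) • (u + v + (r + s) - (u - v + (r - s)) + z - z) = v + s by module,
    show (1 / 2 : ℚ) • (u + v + (r + s) - (u - v + (r - s)) - z + z) = v + s by module] at h
  have h1 : S.e ((((1 : ℕ) : ℚ) / 2) • Ef (r + s) (u + v)) * S.e ((((1 : ℕ) : ℚ) / 2) • Ef (r - s) (u - v)) =
      S.e (Ef r u + Ef s v) := by
    rw [← AddChar.map_add_eq_mul]
    congr 1
    simp only [Ef_add_left, Ef_add_right, Ef_sub_left, Ef_sub_right]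
    push_cast
    module
  calc _ = S.e (Ef r u + Ef s v) * (2 ^ gg * (S.Θ (u + v + (r + s)) * S.Θ (u - v + (r - s)) * S.Θ z * S.Θ z)) := by
        rw [← h1]; simp only [Rt]; ring
    _ = _ := by
        rw [h, Finset.mul_sum]
        refine Finset.sum_congr rfl fun η _ => ?_
        simp only [Rt, add_assoc]
        have h2 : ∀ A B C D E F G H I J K : AF, A + B + C + D + E + E = G + H + I + J + J →
            ∀ a b c : k, S.e A * (S.e B * (S.e C * a * (S.e D * b) * (S.e E * c) * (S.e E * c))) =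
              S.e G * (S.e H * a * (S.e I * b) * (S.e J * c * (S.e J * c))) := by
          intro A B C D E F G H I J K h a b c
          have := congrArg S.e h
          simp only [AddChar.map_add_eq_mul] at this
          linear_combination a * b * c * c * this
        refine h2 _ _ _ _ _ 0 _ _ _ _ 0 ?_ _ _ _
        simp only [Ef_add_left, Ef_add_right, Ef_sub_left, Ef_sub_right]
        push_cast
        module

/-- the pullback by `a` of the translate of the theta function by `y` -/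
def br (a : M8 AF) (y : W) : W → k := fun x => Rt S.e 1 y S.Θ (a *ᵥ x)

/-- the complements of `a` in weight `N` -/
def Cs (a : M8 AF) (N : ℕ) : Submodule k (W → k) where
  carrier := {g | ∀ y ∈ Wp q, S.br a y * g ∈ S.G N}
  zero_mem' := fun y _ => by rw [mul_zero]; exact zero_mem _
  add_mem' := fun hf hg y hy => by rw [mul_add]; exact add_mem (hf y hy) (hg y hy)
  smul_mem' := fun c g hg y hy => by rw [mul_smul_comm]; exact Submodule.smul_mem _ _ (hg y hy)

/-- `a` has a nonzero complement of weight `N` -/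
def Cmp (a : M8 AF) (N : ℕ) : Prop := ∃ g ∈ S.Cs a N, g ≠ 0

variable {S} {a b : M8 AF} {N M : ℕ}

theorem Cs_int {g : W → k} (hg : g ∈ S.Cs a N) {y : W}
    (hy : ∀ i (l : Pr), (l : ℕ) = q → ‖cp l (y i)‖ ≤ 1) : S.br a y * g ∈ S.G N := by
  rw [show S.br a y = S.br a (iq q • y) from funext fun x => congrFun (S.Rt_iq hy) _]
  exact hg _ (iq_mem q y)

variable (S) in
/-- the translation of a complement -/
def tau (a : M8 AF) (N : ℕ) (t : W) (g : W → k) : W → k := fun x =>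
  S.e (((N : ℚ) / 2) • Ef t x - (1 / 2 : ℚ) • Ef (a *ᵥ t) (a *ᵥ x)) * g (x + t)

lemma Rt_br (y t : W) (g : W → k) : Rt S.e N t (S.br a y * g) =
    S.e ((1 / 2 : ℚ) • Ef y (a *ᵥ t)) • (S.br a (y + a *ᵥ t) * S.tau a N t g) := by
  funext x
  simp only [Rt, br, tau, Pi.mul_apply, Pi.smul_apply, smul_eq_mul, mulVec_add]
  rw [show a *ᵥ x + a *ᵥ t + y = a *ᵥ x + (y + a *ᵥ t) by abel]
  have h2 : ∀ A B C D E : AF, A + B = C + D + E → ∀ a b : k,
      S.e A * (S.e B * a * b) = S.e C * (S.e D * a * (S.e E * b)) := by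
    intro A B C D E h a b
    have := congrArg S.e h
    simp only [AddChar.map_add_eq_mul] at this
    linear_combination a * b * this
  refine h2 _ _ _ _ _ ?_ _ _
  simp only [Ef_add_left, Ef_add_right]
  push_cast
  module

lemma Cs_tau {g : W → k} (hg : g ∈ S.Cs a N) {t : W} (ht : t ∈ Wp q) : S.tau a N t g ∈ S.Cs a N :=
  fun y hy => by
    have h := Gs_Rt ht (hg _ (sub_mem hy (Wp_mulVec a ht)))
    rw [Rt_br, sub_add_cancel] at h
    exact (Submodule.smul_mem_iff _ (e_ne _ _)).1 h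

variable (S a) in
lemma br_ne {g : W → k} (h : g ≠ 0) : ∃ η, S.br a (hw η) * g ≠ 0 := by
  obtain ⟨x, hx⟩ := Function.ne_iff.1 h
  obtain ⟨η, hη⟩ := S.exists_th (a *ᵥ x)
  exact ⟨η, Function.ne_iff.2 ⟨x, mul_ne_zero hη hx⟩⟩

theorem Cmp.nz (hG : GENP) (h : S.Cmp a N) {ι : Type} [Finite ι] (z : ι → W) :
    ∃ g ∈ S.Cs a N, ∀ i, g (z i) ≠ 0 := by
  obtain ⟨g, hg, h0⟩ := h
  obtain ⟨η, hη⟩ := S.br_ne a h0
  obtain ⟨x, hx, h⟩ := hG.fin S (fun _ : ι => N) (fun _ => S.br a (hw η) * g) z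
    (fun _ => Cs_int hg (S.IntAt_hw η)) fun _ => hη
  refine ⟨_, Cs_tau hg hx, fun i => mul_ne_zero (e_ne _ _) ?_⟩
  rw [add_comm]
  exact right_ne_zero_of_mul (h i)

theorem cmp_int (c : ℤ) : S.Cmp (c : M8 AF) (c.natAbs ^ 2) := by
  refine ⟨1, fun y hy => Submodule.subset_span ⟨{(c, y)}, by simp [wt], fun i l h => ?_, ?_⟩,
    one_ne_zero⟩
  · simp [cl, hy i l h]
  · funext x
    simp only [gen, br, intCast_mulVec, Multiset.map_singleton, Multiset.prod_singleton, mul_one]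
    rw [Int.cast_smul_eq_zsmul AF c x]

theorem Cmp.mono (hG : GENP) (h : S.Cmp a N) (hle : N ≤ M) : S.Cmp a M := by
  induction hle with
  | refl => exact h
  | @step m _ ih =>
    obtain ⟨g, hg, h0⟩ := ih
    obtain ⟨x, hx⟩ := Function.ne_iff.1 h0
    obtain ⟨η, hη⟩ := S.exists_th x
    refine ⟨g * S.th η, fun y hy => ?_, Function.ne_iff.2 ⟨x, mul_ne_zero hx hη⟩⟩
    rw [← mul_assoc]
    exact Gs_mul (m := m) (n := 1) (hg y hy) (S.th_mem η)

theorem Cmp.neg (h : S.Cmp a N) : S.Cmp (-a) N := by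
  obtain ⟨g, hg, h0⟩ := h
  refine ⟨g, fun y hy => ?_, h0⟩
  have : S.br (-a) y = S.br a (-y) := funext fun x => by
    simp only [br, Rt]
    rw [neg_mulVec, Ef_neg_left, Ef_neg_right, ← S.ev (a *ᵥ x + -y), neg_add (a *ᵥ x), neg_neg]
  rw [this]
  exact hg _ (neg_mem hy)

theorem Cmp.add (hG : GENP) (h : S.Cmp a N) (h' : S.Cmp b M) : S.Cmp (a + b) (2 * N + 2 * M) := by
  obtain ⟨f, hf, f0⟩ := h.nz hG fun _ : Unit => 0
  obtain ⟨g, hg, g0⟩ := h'.nz hG fun _ : Unit => 0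
  obtain ⟨η, hη⟩ := S.exists_th 0
  obtain ⟨ζ, hζ⟩ := S.bpf 0
  rw [zero_add] at hζ
  refine ⟨S.br (a - b) (hw η) * (f * f * (g * g)), fun y hy => ?_, Function.ne_iff.2 ⟨0, ?_⟩⟩
  · have h16 : (2 ^ gg : k) * S.Θ (hw ζ) * S.Θ (hw ζ) ≠ 0 := mul_ne_zero (mul_ne_zero
      (pow_ne_zero _ S.two) hζ) hζ
    have hr := S.IntAt_half (add_mem (IntAt_Wp hy) (S.IntAt_hw η))
    have hs := S.IntAt_half (sub_mem (IntAt_Wp hy) (S.IntAt_hw η))
    generalize er : (1 / 2 : ℚ) • (y + hw η) = r at hr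
    generalize es : (1 / 2 : ℚ) • (y - hw η) = s at hs
    have e1 : y = r + s := by rw [← er, ← es]; module
    have e2 : hw η = r - s := by rw [← er, ← es]; module
    refine (Submodule.smul_mem_iff _ h16).1 ?_
    have : ((2 ^ gg : k) * S.Θ (hw ζ) * S.Θ (hw ζ)) •
        (S.br (a + b) y * (S.br (a - b) (hw η) * (f * f * (g * g)))) =
        ∑ η, S.e ((2 : ℚ) • Qf (hw η) + Ef (hw η) (r + s)) •
          (S.br a (r + hw ζ + hw η) * f * (S.br a (r - hw ζ + hw η) * f) *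
            (S.br b (s + hw η) * g * (S.br b (s + hw η) * g))) := by
      funext x
      have := S.riem (a *ᵥ x) (b *ᵥ x) r s (hw ζ)
      simp only [Finset.sum_apply, Pi.smul_apply, Pi.mul_apply, br, add_mulVec, sub_mulVec, smul_eq_mul]
      rw [← e2, ← e1] at this
      rw [← e1, ← mul_assoc (Rt _ _ _ _ _), ← mul_assoc, this, Finset.sum_mul]
      exact Finset.sum_congr rfl fun η _ => by ring
    rw [this, two_mul, two_mul]
    refine sum_mem fun η _ => Submodule.smul_mem _ _ (Gs_mul (Gs_mul ?_ ?_) (Gs_mul ?_ ?_))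
    · exact Cs_int hf (add_mem (add_mem hr (S.IntAt_hw _)) (S.IntAt_hw _))
    · exact Cs_int hf (add_mem (sub_mem hr (S.IntAt_hw _)) (S.IntAt_hw _))
    · exact Cs_int hg (add_mem hs (S.IntAt_hw _))
    · exact Cs_int hg (add_mem hs (S.IntAt_hw _))
  · refine mul_ne_zero ?_ (mul_ne_zero (mul_ne_zero (f0 ()) (f0 ())) (mul_ne_zero (g0 ()) (g0 ())))
    simpa [br, th] using hη

theorem Cmp.sub (hG : GENP) (h : S.Cmp a N) (h' : S.Cmp b M) : S.Cmp (a - b) (2 * N + 2 * M) := by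
  rw [sub_eq_add_neg]; exact h.add hG h'.neg

end TSys

namespace FSys
variable {k : Type} [Field k] {p : Pr} (S : FSys k p) {a : M8 AF} {N : ℕ}

lemma Rt_pi (y x : W) :
    Rt S.e 1 (mA S.π *ᵥ y) S.Θ (mA S.π *ᵥ x) = Rt S.e 1 y S.Θ x ^ (p : ℕ) := by
  have h := S.frob 0 (x + y)
  simp only [TSys.th, hw_zero, Rt_zero] at h
  simp only [Rt]
  rw [← mulVec_add, h, mul_pow, ← Ef_q_left, ← Ef_q_left, ← S.frobe, mulVec_smul]

theorem G_pi {f : W → k} (hf : f ∈ S.G N) : (fun x => f (mA S.π *ᵥ x)) ∈ S.G (p * N) := by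
  refine (Submodule.span_le (p := (S.G (p * N)).comap
    (LinearMap.funLeft k k fun x => mA S.π *ᵥ x))).2 ?_ hf
  rintro _ ⟨L, a, b, rfl⟩
  refine Submodule.subset_span ⟨(p : ℕ) • L.map fun c => (c.1, mA S.π⁻¹ *ᵥ c.2), ?_, ?_, ?_⟩
  · simp only [wt, Multiset.map_nsmul, Multiset.sum_nsmul, Multiset.map_map] at a ⊢
    simp [a]
  · have : cl ((p : ℕ) • L.map fun c => (c.1, mA S.π⁻¹ *ᵥ c.2)) = (p : ℕ) • mA S.π⁻¹ *ᵥ cl L := by
      simp only [cl, Multiset.map_nsmul, Multiset.sum_nsmul, Multiset.map_map]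
      congr 1
      rw [← mulVecLin_apply, map_multiset_sum, Multiset.map_map]
      simp only [Function.comp_def, map_zsmul, mulVecLin_apply]
    rw [this]
    exact nsmul_mem (mA_IntAt _ (show cl L ∈ IntAt p from b)) _
  · funext x
    simp only [gen, Multiset.map_nsmul, Multiset.prod_nsmul, Multiset.map_map, LinearMap.funLeft_apply,
      Function.comp_def, ← Multiset.prod_map_pow, ← S.Rt_pi, mA_inv]
    congr 2
    funext c
    rw [← mulVecLin_apply, ← mulVecLin_apply, map_zsmul]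

theorem cmp_pi (h : S.Cmp a N) : S.Cmp (a * mA S.π) (p * N) := by
  obtain ⟨g, hg, h0⟩ := h
  obtain ⟨x, hx⟩ := Function.ne_iff.1 h0
  refine ⟨fun x => g (mA S.π *ᵥ x), fun y hy => ?_, Function.ne_iff.2 ⟨mA S.π⁻¹ *ᵥ x, ?_⟩⟩
  · convert S.G_pi (hg y hy) using 1
    funext x
    simp only [TSys.br, Pi.mul_apply, mulVec_mulVec]
  · rwa [mA_inv]

theorem cmp_pi' (h : S.Cmp a N) : S.Cmp (mA S.π * a) (p * N) := by
  obtain ⟨g, hg, h0⟩ := h
  obtain ⟨x, hx⟩ := Function.ne_iff.1 h0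
  refine ⟨g ^ (p : ℕ), fun y hy => ?_, Function.ne_iff.2 ⟨x, pow_ne_zero _ hx⟩⟩
  convert Gs_pow (hg _ (Wp_mulVec (mA S.π⁻¹) hy)) p using 1
  funext x
  simp only [TSys.br, Pi.mul_apply, Pi.pow_apply, mul_pow, ← S.Rt_pi, mA_inv, ← mulVec_mulVec]

theorem cmp_poly (hG : GENP) (m H : ℕ) (F : ℤ[X]) (hm : F.natDegree ≤ m)
    (hH : ∀ i, (F.coeff i).natAbs ≤ H) :
    S.Cmp (aeval (mA S.π) F) ((2 * p + 2) ^ (m + 1) * H ^ 2) := by
  have hc : ∀ F : ℤ[X], (F.coeff 0).natAbs ≤ H → S.Cmp (aeval (mA S.π) (C (F.coeff 0))) (H ^ 2) :=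
    fun F h => by
      rw [aeval_C, eq_intCast]
      exact (TSys.cmp_int _).mono hG (Nat.pow_le_pow_left h 2)
  induction m generalizing F with
  | zero =>
    rw [eq_C_of_natDegree_le_zero hm]
    exact (hc F (hH 0)).mono hG (Nat.le_mul_of_pos_left _ (by positivity))
  | succ m ih =>
    have h1 := ih F.divX (by rw [natDegree_divX_eq_natDegree_tsub_one]; omega)
      fun i => by rw [coeff_divX]; exact hH _
    rw [← F.divX_mul_X_add, map_add, map_mul, aeval_X]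
    refine ((S.cmp_pi h1).add hG (hc F (hH 0))).mono hG ?_
    have : H ^ 2 ≤ (2 * p + 2) ^ (m + 1) * H ^ 2 := Nat.le_mul_of_pos_left _ (by positivity)
    rw [pow_succ _ (m + 1)]
    nlinarith

theorem cmp_ex (hG : GENP) (F : ℤ[X]) : ∃ N, N ≠ 0 ∧ S.Cmp (aeval (mA S.π) F) N := by
  refine ⟨_, Nat.succ_ne_zero _, (S.cmp_poly hG _ (F.support.sup fun i => (F.coeff i).natAbs) F le_rfl
    fun i => ?_).mono hG (Nat.le_succ _)⟩
  by_cases h : i ∈ F.support
  · exact Finset.le_sup (f := fun i => (F.coeff i).natAbs) h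
  · simp [notMem_support_iff.1 h]

theorem cp_aeval (l : Pr) (F : ℤ[X]) :
    (aeval (mA S.π) F).map (cp l) = (aeval (S.π l).val F).map (↑) := by
  have h1 := aeval_algHom_apply (cp l).toRingHom.mapMatrix.toIntAlgHom (mA S.π) F
  have h2 := aeval_algHom_apply (PadicInt.Coe.ringHom (p := l)).mapMatrix.toIntAlgHom (S.π l).val F
  exact h1.symm.trans h2

end FSys

end Pool.Agent.MT
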