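import Mathlib

/-! Balancing by units that are one modulo a given integer. -/

open NumberField NumberField.Units NumberField.Units.dirichletUnitTheorem InfinitePlace

namespace Pool.Agent.MT.MW

variable (K : Type*) [Field K] [NumberField K]

theorem unit_near : ∃ R : ℝ, 0 ≤ R ∧ ∀ v : InfinitePlace K → ℝ, ∑ w, (mult w : ℝ) * v w = 0 →
    ∃ u : (𝓞 K)ˣ, ∀ w : InfinitePlace K, |Real.log (w u) - v w| ≤ R := by
  classical
  let b := (basisUnitLattice K).ofZLatticeBasis ℝ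
  set R : ℝ := ∑ i, ‖b i‖
  have hR : 0 ≤ R := Finset.sum_nonneg fun _ _ => norm_nonneg _
  have hc : (1 : ℝ) ≤ Fintype.card (InfinitePlace K) := Nat.one_le_cast.2 Fintype.card_pos
  refine ⟨Fintype.card (InfinitePlace K) * R, by positivity, fun v hv => ?_⟩
  let x : logSpace K := fun w => mult w.1 * v w.1
  have h1 : (ZSpan.floor b x : logSpace K) ∈ unitLattice K := by
    rw [← (basisUnitLattice K).ofZLatticeBasis_span ℝ]; exact (ZSpan.floor b x).2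
  obtain ⟨u, -, hu⟩ := h1
  have h2 : ∀ w : {w : InfinitePlace K // w ≠ w₀},
      |(mult w.1 : ℝ) * (Real.log (w.1 (u.toMul : (𝓞 K)ˣ)) - v w.1)| ≤ R := fun w => by
    have h3 := (norm_le_pi_norm (ZSpan.fract b x) w).trans (ZSpan.norm_fract_le b x)
    rw [ZSpan.fract_apply, ← hu, Real.norm_eq_abs, Pi.sub_apply, abs_sub_comm] at h3
    rw [mul_sub]
    exact h3
  have tool : ∀ (w : InfinitePlace K) (y : ℝ), |y| ≤ |(mult w : ℝ) * y| := fun w y => by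
    rw [abs_mul, Nat.abs_cast]
    exact le_mul_of_one_le_left (abs_nonneg _) (Nat.one_le_cast.2 mult_pos)
  refine ⟨u.toMul, fun w => (tool w _).trans ?_⟩
  by_cases hw : w = w₀
  · have h4 : ∑ w : InfinitePlace K,
        (mult w : ℝ) * (Real.log (w (u.toMul : (𝓞 K)ˣ)) - v w) = 0 := by
      simp only [mul_sub, Finset.sum_sub_distrib, hv, sum_mult_mul_log, sub_zero]
    rw [Fintype.sum_eq_add_sum_subtype_ne _ w₀, add_eq_zero_iff_eq_neg] at h4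
    rw [hw, h4, abs_neg]
    refine (Finset.abs_sum_le_sum_abs _ _).trans
      ((Finset.sum_le_card_nsmul _ _ _ fun w _ => h2 w).trans ?_)
    rw [nsmul_eq_mul]
    refine mul_le_mul_of_nonneg_right (Nat.cast_le.2 ?_) hR
    exact Fintype.card_subtype_le _
  · exact (h2 ⟨w, hw⟩).trans (le_mul_of_one_le_left hR hc)

theorem unit_pow_one {m : ℕ} (hm : m ≠ 0) :
    ∃ k : ℕ, k ≠ 0 ∧ ∀ u : (𝓞 K)ˣ, (m : 𝓞 K) ∣ ((u ^ k : (𝓞 K)ˣ) : 𝓞 K) - 1 := by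
  have h0 : Ideal.span {(m : 𝓞 K)} ≠ ⊥ := by
    rw [Ne, Ideal.span_singleton_eq_bot]; exact Nat.cast_ne_zero.2 hm
  have : Finite (𝓞 K ⧸ Ideal.span {(m : 𝓞 K)}) := Ideal.finiteQuotientOfFreeOfNeBot _ h0
  refine ⟨Nat.card (𝓞 K ⧸ Ideal.span {(m : 𝓞 K)})ˣ, Nat.card_pos.ne', fun u => ?_⟩
  rw [← Ideal.mem_span_singleton, ← Ideal.Quotient.eq, map_one]
  have h1 := congrArg Units.val (pow_card_eq_one'
    (x := Units.map (Ideal.Quotient.mk (Ideal.span {(m : 𝓞 K)})).toMonoidHom u))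
  rw [Units.val_pow_eq_pow_val] at h1
  rw [Units.val_pow_eq_pow_val, map_pow]
  exact h1

/-- the places of `ν ε ^ 2` are comparable for a unit `ε` that is one modulo `m` -/
theorem bal_place {m : ℕ} (hm : m ≠ 0) : ∃ C : ℝ, 1 ≤ C ∧ ∀ ν : K, ν ≠ 0 →
    ∃ ε : (𝓞 K)ˣ, (m : 𝓞 K) ∣ (ε : 𝓞 K) - 1 ∧ (m : 𝓞 K) ∣ ((ε⁻¹ : (𝓞 K)ˣ) : 𝓞 K) - 1 ∧
      ∀ w w' : InfinitePlace K, w ν * w ε ^ 2 ≤ C * (w' ν * w' ε ^ 2) := by
  obtain ⟨R, hR, h⟩ := unit_near K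
  obtain ⟨k, hk, hk'⟩ := unit_pow_one K hm
  have hk0 : (0 : ℝ) < k := Nat.cast_pos.2 (Nat.pos_of_ne_zero hk)
  refine ⟨Real.exp (4 * k * R), Real.one_le_exp (by positivity), fun ν hν => ?_⟩
  set n : ℝ := ∑ w : InfinitePlace K, (mult w : ℝ) with hn
  have hn0 : 0 < n := Finset.sum_pos (fun w _ => Nat.cast_pos.2 mult_pos) Finset.univ_nonempty
  set A : ℝ := (∑ w : InfinitePlace K, (mult w : ℝ) * Real.log (w ν)) / n with hA
  obtain ⟨u, hu⟩ := h (fun w => (A - Real.log (w ν)) / (2 * k)) (by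
    simp only [← mul_div_assoc, ← Finset.sum_div, mul_sub, Finset.sum_sub_distrib,
      ← Finset.sum_mul]
    rw [← hn, hA, mul_div_cancel₀ _ hn0.ne', sub_self, zero_div])
  refine ⟨u ^ k, hk' u, inv_pow u k ▸ hk' u⁻¹, fun w w' => ?_⟩
  have key : ∀ w : InfinitePlace K, 0 < w ν * w (u ^ k : (𝓞 K)ˣ) ^ 2 ∧
      |Real.log (w ν * w (u ^ k : (𝓞 K)ˣ) ^ 2) - A| ≤ 2 * k * R := fun w => by
    have p1 : 0 < w ν := pos_iff.2 hν
    have p2 : 0 < w u := Units.pos_at_place u w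
    have e : w (u ^ k : (𝓞 K)ˣ) = w u ^ k := by rw [Units.coe_pow, map_pow]
    rw [e]
    refine ⟨by positivity, ?_⟩
    rw [Real.log_mul p1.ne' (by positivity), Real.log_pow, Real.log_pow]
    have e2 : Real.log (w ν) + (2 : ℕ) * (k * Real.log (w u)) - A =
        2 * k * (Real.log (w u) - (A - Real.log (w ν)) / (2 * k)) := by
      push_cast; field_simp; ring
    rw [e2, abs_mul, abs_of_pos (by positivity : (0 : ℝ) < 2 * k)]
    exact mul_le_mul_of_nonneg_left (hu w) (by positivity)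
  obtain ⟨a1, a2⟩ := key w
  obtain ⟨b1, b2⟩ := key w'
  rw [← Real.exp_log a1, ← Real.exp_log b1, ← Real.exp_add]
  refine Real.exp_le_exp.2 ?_
  linarith [(abs_le.1 a2).2, (abs_le.1 b2).1]

/-- the same with complex embeddings -/
theorem bal_emb {m : ℕ} (hm : m ≠ 0) : ∃ C : ℝ, 1 ≤ C ∧ ∀ ν : K, ν ≠ 0 →
    ∃ ε : (𝓞 K)ˣ, (m : 𝓞 K) ∣ (ε : 𝓞 K) - 1 ∧ (m : 𝓞 K) ∣ ((ε⁻¹ : (𝓞 K)ˣ) : 𝓞 K) - 1 ∧
      ∀ φ ψ : K →+* ℂ, ‖φ ν‖ * ‖φ ε‖ ^ 2 ≤ C * (‖ψ ν‖ * ‖ψ ε‖ ^ 2) := by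
  obtain ⟨C, hC, h⟩ := bal_place K hm
  refine ⟨C, hC, fun ν hν => ?_⟩
  obtain ⟨ε, h1, h2, h3⟩ := h ν hν
  exact ⟨ε, h1, h2, fun φ ψ => h3 (InfinitePlace.mk φ) (InfinitePlace.mk ψ)⟩

end Pool.Agent.MT.MW
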