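import Mathlib

/-! The type norm as an element of an algebra in which the Weil polynomial has a root. -/

set_option autoImplicit false

open Matrix Polynomial NumberField

namespace Pool.Agent.MT

theorem hom_aeval {S A B : Type*} [CommRing S] [Ring A] [Ring B] [Algebra S A] [Algebra S B]
    [Subsingleton (S →+* B)] (f : A →+* B) (x : A) (q : S[X]) :
    f (aeval x q) = aeval (f x) q := by
  rw [aeval_def, aeval_def, hom_eval₂, Subsingleton.elim (f.comp _) (algebraMap S B)]

theorem aeval_of_dvd {A : Type*} [Ring A] [Algebra ℚ A] {π : A} {Q g h : ℚ[X]}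
    (hπ : aeval π Q = 0) (hd : Q ∣ g - h) : aeval π g = aeval π h := by
  obtain ⟨r, hr⟩ := hd
  rw [← sub_eq_zero, ← map_sub, hr, map_mul, hπ, zero_mul]

theorem aeval_adj {n K : Type*} [Fintype n] [DecidableEq n] [CommRing K] [Algebra ℚ K]
    {x y J : Matrix n n K} (h : xᵀ * J = J * y) (g : ℚ[X]) :
    (aeval x g)ᵀ * J = J * aeval y g := by
  induction g using Polynomial.induction_on with
  | C a => simp [Algebra.algebraMap_eq_smul_one]
  | add p q hp hq => rw [map_add, map_add, transpose_add, add_mul, mul_add, hp, hq]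
  | monomial k a ih =>
    rw [pow_succ', mul_left_comm, map_mul, transpose_mul, aeval_X, Matrix.mul_assoc, h,
      ← Matrix.mul_assoc, ih, mul_comm X, map_mul _ _ X, aeval_X, Matrix.mul_assoc]

/-- Integer polynomials in integral matrices are integral. -/
theorem aeval_int_map {n R K : Type*} [Fintype n] [DecidableEq n] [CommRing R] [CommRing K]
    [Algebra ℚ K] (φ : R →+* K) (x : Matrix n n R) (G : ℤ[X]) :
    aeval (x.map φ) (G.map (Int.castRingHom ℚ)) = (aeval x G).map φ := by
  have e1 := hom_aeval φ.mapMatrix x G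
  change Matrix.map _ _ = aeval (Matrix.map _ _) G at e1
  rw [e1, ← algebraMap_int_eq, aeval_map_algebraMap]

/-- The Cayley-Hamilton theorem in the form used below. -/
theorem aeval_of_charpoly {n R K : Type*} [Fintype n] [DecidableEq n] [CommRing R] [CommRing K]
    [Algebra ℚ K] (φ : R →+* K) {x : Matrix n n R} {P : ℤ[X]}
    (h : x.charpoly = P.map (Int.castRingHom R)) :
    aeval (x.map φ) (P.map (Int.castRingHom ℚ)) = 0 := by
  rw [aeval_int_map, ← aeval_map_algebraMap R, algebraMap_int_eq, ← h, aeval_self_charpoly,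
    Matrix.map_zero _ (map_zero φ)]

end Pool.Agent.MT
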