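import Pool.Agent.Lib.MP_d61fbb_ag.MW.I1
import Pool.Agent.Lib.MP_d61fbb_ag.MT.A6
import Pool.Agent.Lib.MP_d61fbb_ag.MW.GL1
import Pool.Agent.Lib.MP_696deb_nt.B2.B2a

/-! The group of adelic similitudes, the Galois representation and the type norm in it. -/

set_option autoImplicit false

noncomputable section

namespace Pool.Agent.MT

variable [dm : Dim]

open Matrix Polynomial Sum NumberField
open Pool.Agent.Lib.MP_696deb_nt.B2 (Qbar Gam Plc Dec Ine IsFrob Op jC)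

section sim
variable {R : Type} [CommRing R]

theorem gn_Ef_base : Ef (Pi.single (inl 0) 1 : I2 gg → R) (Pi.single (inr 0) 1) = 1 := by
  simp [Ef, dotProduct, Pi.single_apply]

theorem gn_map_smul {S F m n : Type} [CommRing S] [FunLike F R S] [RingHomClass F R S] (φ : F)
    (μ : R) (g : Matrix m n R) : (μ • g).map φ = φ μ • g.map φ := by
  ext i j
  simp

/-- the group of symplectic similitudes -/
def GSp (R : Type) [CommRing R] : Subgroup (M8 R)ˣ where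
  carrier := {g | ∃ μ : Rˣ, GS (μ : R) g.val}
  one_mem' := ⟨1, gs_one⟩
  mul_mem' := by
    rintro g h ⟨μ, hμ⟩ ⟨ν, hν⟩
    exact ⟨μ * ν, hμ.mul hν⟩
  inv_mem' := by
    rintro g ⟨μ, hμ⟩
    refine ⟨μ⁻¹, fun x y => ?_⟩
    rw [Units.eq_inv_mul_iff_mul_eq, ← hμ, mulVec_mulVec, mulVec_mulVec, Units.mul_inv,
      one_mulVec, one_mulVec]

theorem mem_GSp {g : (M8 R)ˣ} {μ : R} (h : GS μ g.val) : g ∈ GSp R := by
  have := h ((g⁻¹).val *ᵥ Pi.single (inl 0) 1) ((g⁻¹).val *ᵥ Pi.single (inr 0) 1)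
  rw [mulVec_mulVec, mulVec_mulVec, Units.mul_inv, one_mulVec, one_mulVec, gn_Ef_base] at this
  exact ⟨Units.mkOfMulEqOne μ _ this.symm, h⟩

/-- the underlying matrix -/
def gm : GSp R →* M8 R := (Units.coeHom _).comp (GSp R).subtype

theorem gm_inj : Function.Injective (gm : GSp R → M8 R) := fun _ _ h => Subtype.ext (Units.ext h)

theorem gm_isUnit (g : GSp R) : IsUnit (gm g) := g.1.isUnit

theorem mult_uniq {g : M8 R} {μ ν : R} (h : GS μ g) (h' : GS ν g) : μ = ν := by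
  simpa [gn_Ef_base] using (h (Pi.single (inl 0) 1) (Pi.single (inr 0) 1)).symm.trans (h' _ _)

/-- the multiplier -/
def mulG : GSp R →* Rˣ := MonoidHom.mk' (fun g => g.2.choose) fun g h =>
  Units.ext (mult_uniq (g * h).2.choose_spec (g.2.choose_spec.mul h.2.choose_spec))

theorem mulG_spec (g : GSp R) : GS (mulG g : R) (gm g) := g.2.choose_spec

theorem mulG_eq {g : GSp R} {μ : R} (h : GS μ (gm g)) : (mulG g : R) = μ :=
  mult_uniq (mulG_spec g) h

end sim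

/-! ### Components -/

theorem gn_ext {x y : AF} (h : ∀ l, cp l x = cp l y) : x = y := Subtype.ext (funext h)

theorem gn_mat_ext {m n : Type} {x y : Matrix m n AF} (h : ∀ l, x.map (cp l) = y.map (cp l)) :
    x = y := by
  ext i j : 1
  exact gn_ext fun l => congrFun (congrFun (h l) i) j

theorem gn_cp_sg (l : Pr) (a : ℚ_[l]) : cp l (sg l a) = a := Pi.single_eq_same _ _

theorem gn_cp_sg_ne {l l' : Pr} (h : l' ≠ l) (a : ℚ_[l]) : cp l' (sg l a) = 0 :=
  Pi.single_eq_of_ne h _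

theorem gn_cp_zA (l : Pr) (x : ∀ l : Pr, ℤ_[l]) : cp l (zA x) = x l := rfl

theorem gn_cp_mA (l : Pr) (g : ∀ l : Pr, GL (I2 gg) ℤ_[l]) :
    (mA g).map (cp l) = (g l).val.map (↑) := rfl

/-- components of matrices -/
abbrev cpM (l : Pr) : M8 AF →+* M8 ℚ_[l] := (cp l).toRingHom.mapMatrix

/-- the adelic group -/
abbrev GG : Type := GSp AF

/-- the component of an element of the adelic group -/
def cpG (l : Pr) : GG →* M8 ℚ_[l] := (cpM l).toMonoidHom.comp gm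

theorem cpG_eq (l : Pr) (g : GG) : cpG l g = (gm g).map (cp l) := rfl

theorem GG_ext {g g' : GG} (h : ∀ l, cpG l g = cpG l g') : g = g' := gm_inj (gn_mat_ext h)

theorem cpG_sim (l : Pr) (g : GG) : GS (cp l (mulG g)) (cpG l g) :=
  (mulG_spec g).map (cp l).toRingHom

theorem gs_of_cp {g : M8 AF} {μ : AF} (h : ∀ l, GS (cp l μ) (g.map (cp l))) : GS μ g :=
  gs_iff.2 (gn_mat_ext fun l => by
    rw [Matrix.map_mul, Matrix.map_mul, transpose_map, gn_map_smul]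
    have e : (J (Fin gg) AF).map (cp l) = J (Fin gg) ℚ_[l] := map_J _ (cp l).toRingHom
    rw [e, gs_iff.1 (h l)])

theorem gn_mul_sg (l : Pr) (b : AF) (t : ℚ_[l]) : b * sg l t = sg l (cp l b * t) :=
  gn_ext fun l' => by
    by_cases h : l' = l
    · subst h; rw [map_mul, gn_cp_sg, gn_cp_sg]
    · rw [map_mul, gn_cp_sg_ne h, gn_cp_sg_ne h, mul_zero]

theorem gn_eq_zero {l : Pr} {b : ℚ_[l]} (h : ∀ t, ‖b * t‖ ≤ 1) : b = 0 := by
  by_contra hb
  have := h (b⁻¹ * ((l : ℕ) : ℚ_[l])⁻¹)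
  rw [mul_inv_cancel_left₀ hb, norm_inv, Padic.norm_p, inv_inv] at this
  exact absurd l.2.one_lt (not_lt.2 (by exact_mod_cast this))

namespace TSys
variable {k : Type} [Field k] {q : ℕ} (S : TSys k q)

theorem gn_e_sg {l : Pr} {t : ℚ_[l]} (h : ‖t‖ ≤ 1) : S.e (sg l t) = 1 :=
  (S.ker _).2 fun l' _ => by
    by_cases e : l' = l
    · subst e; rwa [gn_cp_sg]
    · rw [gn_cp_sg_ne e, norm_zero]; exact zero_le_one

theorem gn_e_pow (l : Pr) (t : ℚ_[l]) : ∃ n : ℕ, S.e (sg l t) ^ (l : ℕ) ^ n = 1 := by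
  obtain ⟨n, hn⟩ := pow_unbounded_of_one_lt ‖t‖
    (show (1 : ℝ) < (l : ℕ) by exact_mod_cast l.2.one_lt)
  refine ⟨n, ?_⟩
  rw [← AddChar.map_nsmul_eq_pow, ← map_nsmul]
  refine S.gn_e_sg ?_
  rw [nsmul_eq_mul, Nat.cast_pow, norm_mul, norm_pow, Padic.norm_p, inv_pow,
    inv_mul_le_iff₀ (by have := l.2.pos; positivity)]
  simpa using hn.le

theorem gn_cp_eq {a b : AF} {l : Pr} (hl : (l : ℕ) ≠ q)
    (h : ∀ t, S.e (a * sg l t) = S.e (b * sg l t)) : cp l a = cp l b := by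
  refine sub_eq_zero.1 (gn_eq_zero fun t => ?_)
  have h1 : S.e ((a - b) * sg l t) = 1 := by
    rw [sub_mul, AddChar.map_sub_eq_div, h, ← AddChar.map_sub_eq_div, sub_self,
      AddChar.map_zero_eq_one]
  have := (S.ker _).1 h1 l hl
  rwa [map_mul, gn_cp_sg, map_sub] at this

end TSys

/-! ### The Galois representation -/

/-- families of integral matrices as adelic matrices -/
def mAh : (∀ l : Pr, GL (I2 gg) ℤ_[l]) →* M8 AF where
  toFun := mA
  map_one' := gn_mat_ext fun l => by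
    rw [gn_cp_mA, Matrix.map_one _ (map_zero _) (map_one _)]
    exact Matrix.map_one _ rfl rfl
  map_mul' g h := gn_mat_ext fun l => by
    rw [Matrix.map_mul, gn_cp_mA, gn_cp_mA, gn_cp_mA]
    exact Matrix.map_mul (f := PadicInt.Coe.ringHom)

section
variable {τ : Matrix (Fin gg) (Fin gg) ℂ} {K : IntermediateField ℚ ℂ} {M : TRep τ K}
  (A : AR M)

theorem AR.sim (σ : ℂ ≃ₐ[K] ℂ) : ∃ μ : AF,
    GS μ (mA (M.ρ σ)) ∧ ∀ a, A.res σ (A.S.e a) = A.S.e (μ * a) := by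
  have h : ∀ t x y, A.res σ (A.S.e (t * Ef x y)) =
      A.S.e (t * Ef (mA (M.ρ σ) *ᵥ x) (mA (M.ρ σ) *ᵥ y)) := fun t x y => by
    rw [← Ef_smul_left, A.gale, mulVec_smul, Ef_smul_left]
  have h1 := fun t => h t (Pi.single (inl 0) 1) (Pi.single (inr 0) 1)
  simp only [gn_Ef_base, mul_one] at h1
  refine ⟨_, fun x y => gn_ext fun l => A.S.gn_cp_eq l.2.ne_zero fun t => ?_,
    fun a => (h1 a).trans (by rw [mul_comm])⟩
  rw [mul_comm, ← h, h1]
  congr 1
  ring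

/-- the Galois representation with values in the adelic group -/
def rhoG : (ℂ ≃ₐ[K] ℂ) →* GG :=
  (mAh.toHomUnits.comp M.ρ).codRestrict (GSp AF) fun σ => mem_GSp (A.sim σ).choose_spec.1

theorem gm_rhoG (σ : ℂ ≃ₐ[K] ℂ) : gm (rhoG A σ) = mA (M.ρ σ) := rfl

theorem cpG_rhoG (l : Pr) (σ : ℂ ≃ₐ[K] ℂ) : cpG l (rhoG A σ) = (M.ρ σ l).val.map (↑) := rfl

/-- the multiplier is the cyclotomic character -/
theorem res_e (σ : ℂ ≃ₐ[K] ℂ) (a : AF) : A.res σ (A.S.e a) = A.S.e (mulG (rhoG A σ) * a) := by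
  rw [mulG_eq (g := rhoG A σ) (A.sim σ).choose_spec.1]
  exact (A.sim σ).choose_spec.2 a

theorem mulG_rhoG_mem (σ : ℂ ≃ₐ[K] ℂ) : (mulG (rhoG A σ) : AF) ∈ Zh := fun l => by
  have h := res_e A σ (sg l 1)
  rw [A.S.gn_e_sg (by simp), map_one, gn_mul_sg, mul_one] at h
  have := (A.S.ker _).1 h.symm l l.2.ne_zero
  rwa [gn_cp_sg] at this

theorem norm_mulG_rhoG (σ : ℂ ≃ₐ[K] ℂ) (l : Pr) : ‖cp l (mulG (rhoG A σ))‖ = 1 := by
  have h1 : ‖cp l (mulG (rhoG A σ))‖ ≤ 1 := mulG_rhoG_mem A σ l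
  have h2 : ‖cp l (mulG (rhoG A σ⁻¹))‖ ≤ 1 := mulG_rhoG_mem A σ⁻¹ l
  have h3 : ‖cp l (mulG (rhoG A σ))‖ * ‖cp l (mulG (rhoG A σ⁻¹))‖ = 1 := by
    rw [← norm_mul, ← map_mul, ← Units.val_mul, ← map_mul, ← map_mul, mul_inv_cancel, map_one,
      map_one, Units.val_one, map_one, norm_one]
  exact le_antisymm h1 (h3.ge.trans (mul_le_of_le_one_right (norm_nonneg _) h2))

variable {A}

/-- the multiplier of the Frobenius element is `p` away from `p` -/
theorem Frb.mulG_eq (v : Frb A) {l : Pr} (hl : l ≠ v.p) :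
    cp l (mulG (rhoG A v.φ)) = ((v.p : ℕ) : ℚ_[l]) := by
  rw [← map_natCast (cp l)]
  refine A.S.gn_cp_eq l.2.ne_zero fun t => ?_
  have hp : ∀ n, ¬ v.w.p ∣ (l : ℕ) ^ n := fun n h => hl (Subtype.ext
    ((Nat.prime_dvd_prime_iff_eq v.w.prime l.2).1 (v.w.prime.dvd_of_dvd_pow h) ▸ v.hp))
  have h1 : ∀ s, v.w.V (A.S.e (sg l s)) = 1 := fun s =>
    (A.S.gn_e_pow l s).elim fun n h => v.w.V_root_of_unity (pow_ne_zero _ l.2.ne_zero) h
  have h2 := v.frob.2 _ (h1 t).le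
  rw [res_e, ← AddChar.map_nsmul_eq_pow, nsmul_eq_mul, gn_mul_sg, gn_mul_sg] at h2
  rw [gn_mul_sg, gn_mul_sg]
  generalize cp l (mulG (rhoG A v.φ)) * t = a at *
  generalize cp l ((v.p : ℕ) : AF) * t = b at *
  have e : A.S.e (sg l a) = A.S.e (sg l (a - b)) * A.S.e (sg l b) := by
    rw [← AddChar.map_add_eq_mul, ← map_add, sub_add_cancel]
  rw [e, ← sub_one_mul, map_mul, h1, mul_one] at h2
  obtain ⟨n, hn⟩ := A.S.gn_e_pow l (a - b)
  rw [e, v.w.eq_one_of_root (hp n) hn h2, one_mul]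

end

/-! ### The type norm -/

/-- A family of matrices with characteristic polynomial `P` and multiplier `p` away from `p`. -/
structure FrD (p : Pr) (π : ∀ l : Pr, GL (I2 gg) ℤ_[l]) (P : ℤ[X]) : Prop where
  ch : IsCh p π P
  sim : ∀ l ≠ p, GS ((p : ℕ) : ℚ_[l]) ((π l).val.map ((↑) : ℤ_[l] → ℚ_[l]))

theorem Frb.frD {τ : Matrix (Fin gg) (Fin gg) ℂ} {K : IntermediateField ℚ ℂ} {M : TRep τ K}
    {A : AR M} (v : Frb A) {P : ℤ[X]} (h : IsCh v.p (M.ρ v.φ) P) : FrD v.p (M.ρ v.φ) P :=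
  ⟨h, fun l hl => by rw [← v.mulG_eq hl]; exact cpG_sim l (rhoG A v.φ)⟩

section
variable {p : Pr} {π : ∀ l : Pr, GL (I2 gg) ℤ_[l]} {P : ℤ[X]} {E : Type} [Field E] [NumberField E]

theorem FrD.root (H : FrD p π P) {l : Pr} (hl : l ≠ p) :
    aeval ((π l).val.map ((↑) : ℤ_[l] → ℚ_[l])) (P.map (Int.castRingHom ℚ)) = 0 :=
  aeval_of_charpoly PadicInt.Coe.ringHom (H.ch l hl)

/-- the adele with component one at `p` that agrees with `b` elsewhere -/
def off (p : Pr) (b : AF) : AF := (1 - sg p 1) * b + sg p 1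

theorem cp_off_self (b : AF) : cp p (off p b) = 1 := by simp [off, gn_cp_sg]

theorem cp_off_ne {l : Pr} (h : l ≠ p) (b : AF) : cp l (off p b) = cp l b := by
  simp [off, gn_cp_sg_ne h]

/-- the matrix with component one at `p` that agrees with `g` elsewhere -/
def offM (p : Pr) (g : M8 AF) : M8 AF := (1 - sg p 1) • g + sg p 1 • (1 : M8 AF)

theorem cp_offM_self (g : M8 AF) : (offM p g).map (cp p) = 1 := by
  rw [offM, Matrix.map_add _ (map_add _), gn_map_smul, gn_map_smul, map_sub, map_one, gn_cp_sg,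
    sub_self, zero_smul, zero_add, one_smul, Matrix.map_one _ (map_zero _) (map_one _)]

theorem cp_offM_ne {l : Pr} (h : l ≠ p) (g : M8 AF) : (offM p g).map (cp l) = g.map (cp l) := by
  rw [offM, Matrix.map_add _ (map_add _), gn_map_smul, gn_map_smul, map_sub, map_one, gn_cp_sg_ne h,
    sub_zero, zero_smul, add_zero, one_smul]

end

end Pool.Agent.MT
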