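import Pool.Agent.Lib.MP_d61fbb_ag.MW.T1
import Pool.Agent.Lib.MP_d61fbb_ag.MW.GN1
import Pool.Agent.Lib.MP_d61fbb_ag.MW.GX1

/-! The bridge to block C: units at the primes that divide the modulus. -/

set_option autoImplicit false

noncomputable section

namespace Pool.Agent.MT

variable [dm : Dim]

open Matrix Polynomial Sum NumberField

section
variable {E : Type} [Field E] [NumberField E]

theorem cm_norm_cop {a : 𝓞 E} {f : ℕ} (h : IsCoprime a (f : 𝓞 E)) :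
    IsCoprime (Algebra.norm ℤ a) (f : ℤ) := by
  obtain ⟨u, w, e⟩ := h
  let b := RingOfIntegers.basis E
  have h1 : ((Algebra.norm ℤ (u * a) : ℤ) : ZMod f) = 1 := by
    rw [eq_sub_of_add_eq e, Algebra.norm_eq_matrix_det b, ← eq_intCast (Int.castRingHom (ZMod f)),
      RingHom.map_det, map_sub, map_mul, map_one, map_natCast, map_sub, map_mul, map_one,
      map_natCast, ← nsmul_one, ← Nat.cast_smul_eq_nsmul (ZMod f), ZMod.natCast_self, zero_smul,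
      mul_zero, sub_zero, det_one]
  rw [← Int.cast_one, ZMod.intCast_eq_intCast_iff_dvd_sub, map_mul] at h1
  obtain ⟨c, hc⟩ := h1
  exact ⟨Algebra.norm ℤ u, c, by linear_combination -hc⟩

theorem cm_int_unit {n : ℤ} {f : ℕ} (h : IsCoprime n (f : ℤ)) {l : Pr} (hl : (l : ℕ) ∣ f) :
    ‖(n : ℚ_[l])‖ = 1 := by
  refine le_antisymm (Padic.norm_int_le_one _) (not_lt.1 fun h' => ?_)
  have := h.isUnit_of_dvd' (Padic.norm_intCast_lt_one_iff.1 h') (Int.natCast_dvd_natCast.2 hl)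
  exact (Nat.prime_iff_prime_int.1 l.2).not_isUnit this

theorem cm_norm_unit {a : 𝓞 E} {f : ℕ} (h : IsCoprime a (f : 𝓞 E)) {l : Pr} (hl : (l : ℕ) ∣ f) :
    ‖((Algebra.norm ℚ (a : E) : ℚ) : ℚ_[l])‖ = 1 := by
  rw [← Algebra.coe_norm_int, Rat.cast_intCast]
  exact cm_int_unit (cm_norm_cop h) hl

omit [NumberField E] in
theorem cm_cop {a β f : 𝓞 E} (h : IsCoprime a f) (h' : f ∣ β - a) : IsCoprime β f := by
  obtain ⟨c, hc⟩ := h'
  rw [eq_add_of_sub_eq' hc]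
  exact h.add_mul_left_left c

theorem cm_r_unit {a β : 𝓞 E} {f N N' : ℕ} {r : ℚ} (h : IsCoprime a (f : 𝓞 E))
    (h' : (f : 𝓞 E) ∣ β - a) {l : Pr} (hl : (l : ℕ) ∣ f) (hN : ‖(N : ℚ_[l])‖ = 1)
    (hN' : ‖(N' : ℚ_[l])‖ = 1)
    (e : (N' : ℚ) * r ^ 2 * Algebra.norm ℚ (β : E) = N * Algebra.norm ℚ (a : E)) :
    ‖(r : ℚ_[l])‖ = 1 := by
  have := congrArg (fun x : ℚ => ‖(x : ℚ_[l])‖) e
  simp only [Rat.cast_mul, Rat.cast_pow, Rat.cast_natCast, norm_mul, norm_pow, hN, hN',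
    cm_norm_unit h hl, cm_norm_unit (cm_cop h h') hl, one_mul, mul_one] at this
  exact (pow_eq_one_iff_of_nonneg (norm_nonneg _) two_ne_zero).1 this

end

theorem cm_rat_unit {l : Pr} {r : ℚ} (h : ‖(r : ℚ_[l])‖ = 1) :
    ‖(r.num : ℚ_[l])‖ = 1 ∧ ‖(r.den : ℚ_[l])‖ = 1 := by
  have e : ‖(r.num : ℚ_[l])‖ = ‖(r.den : ℚ_[l])‖ := by
    rw [← one_mul ‖(r.den : ℚ_[l])‖, ← h, ← norm_mul, ← Rat.cast_natCast, ← Rat.cast_mul,
      Rat.mul_den_eq_num, Rat.cast_intCast]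
  refine (and_iff_right_of_imp fun h' => e.trans h').2
    (le_antisymm (IsUltrametricDist.norm_natCast_le_one _ _) (not_lt.1 fun h' => ?_))
  have h1 := Padic.norm_intCast_lt_one_iff.1 (e.trans_lt h')
  have h2 := Padic.norm_natCast_lt_one_iff.1 h'
  exact l.2.one_lt.ne' (Nat.eq_one_of_dvd_coprimes r.reduced (Int.natCast_dvd.1 h1) h2)

theorem cm_cp_mulVec (l : Pr) (h : M8 AF) (x : W) : cpv l (h *ᵥ x) = h.map (cp l) *ᵥ cpv l x :=
  funext fun i => RingHom.map_mulVec (cp l).toRingHom h x i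

theorem cm_cp_Ef (l : Pr) (x y : W) : cp l (Ef x y) = Ef (cpv l x) (cpv l y) := by
  simp [Ef, dotProduct, cpv]

theorem Pt.norm_N {N : ℕ} {h : M8 AF} (P : Pt N h) {p : Pr} (hs : StdAt p h) :
    ‖(N : ℚ_[p])‖ = 1 := by
  obtain ⟨u, hu⟩ := P.sim
  have h1 := congrArg (fun x => ‖cp p x‖) (hu (Pi.single (inl 0) 1) (Pi.single (inr 0) 1))
  have h2 : ∀ j i, ‖cpv p (h *ᵥ Pi.single j 1) i‖ ≤ 1 := fun j => by
    rw [cm_cp_mulVec]
    refine (hs _).2 fun i => ?_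
    by_cases e : i = j
    · subst e; simp [cpv]
    · simp [cpv, e]
  have h3 : ‖cp p (zA u)‖ = 1 := PadicInt.isUnit_iff.1 (u.isUnit.map (Pi.evalRingHom _ p))
  simp only [gn_Ef_base, mul_one, map_mul, map_natCast, norm_mul, h3, cm_cp_Ef] at h1
  refine le_antisymm (IsUltrametricDist.norm_natCast_le_one _ _) (h1.ge.trans ?_)
  exact mul_le_of_le_one_right (norm_nonneg _) (gx_Ef_mem (PadicInt.subring p) (h2 _) (h2 _))

theorem Pt.norm_two {N : ℕ} {h : M8 AF} (P : Pt N h) : ‖(N : ℚ_[p2])‖ = 1 := P.norm_N P.two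

end Pool.Agent.MT
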