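import Mathlib

/-! Clifford matrices: N integer, skew, anticommuting matrices of size 2^N with square -1. -/

open Matrix

namespace Pool.Agent.MT.MW

/-- a Clifford family -/
structure IsClif {N D : Type*} [Fintype D] [DecidableEq D] {A : Type*} [CommRing A]
    (G : N → Matrix D D A) : Prop where
  skew : ∀ i, (G i)ᵀ = -G i
  sq : ∀ i, G i * G i = -1
  anti : ∀ i j, i ≠ j → G i * G j = -(G j * G i)

theorem IsClif.reindex {N D D' : Type*} [Fintype D] [DecidableEq D] [Fintype D'] [DecidableEq D']
    {A : Type*} [CommRing A] {G : N → Matrix D D A} (h : IsClif G) (e : D' ≃ D) :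
    IsClif fun i => (G i).submatrix e e where
  skew i := by rw [transpose_submatrix, h.skew]; rfl
  sq i := by
    rw [submatrix_mul_equiv, h.sq, ← submatrix_one_equiv (α := A) e]; rfl
  anti i j hij := by
    rw [submatrix_mul_equiv, submatrix_mul_equiv, h.anti i j hij]; rfl

theorem IsClif.map {N D : Type*} [Fintype D] [DecidableEq D] {A B : Type*} [CommRing A]
    [CommRing B] {G : N → Matrix D D A} (h : IsClif G) (f : A →+* B) :
    IsClif fun i => (G i).map f where
  skew i := by
    rw [← transpose_map, h.skew]; ext a b; simp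
  sq i := by
    rw [← Matrix.map_mul, h.sq]
    exact (map_neg f.mapMatrix 1).trans (by rw [map_one])
  anti i j hij := by
    rw [← Matrix.map_mul, ← Matrix.map_mul, h.anti i j hij]
    exact map_neg f.mapMatrix _

theorem IsClif.double {n : ℕ} {D : Type*} [Fintype D] [DecidableEq D] {A : Type*} [CommRing A]
    {G : Fin n → Matrix D D A} (h : IsClif G) :
    IsClif (Fin.cons (α := fun _ => Matrix (D ⊕ D) (D ⊕ D) A) (fromBlocks 0 1 (-1) 0)
      fun i => fromBlocks (G i) 0 0 (-G i)) where
  skew i := by
    refine Fin.cases ?_ (fun i => ?_) i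
    · simp [fromBlocks_transpose, fromBlocks_neg]
    · simp [fromBlocks_transpose, fromBlocks_neg, h.skew]
  sq i := by
    refine Fin.cases ?_ (fun i => ?_) i
    · simp [fromBlocks_multiply, ← fromBlocks_one, fromBlocks_neg]
    · simp [fromBlocks_multiply, ← fromBlocks_one, fromBlocks_neg, h.sq]
  anti i j := by
    refine Fin.cases ?_ (fun i => ?_) i <;> refine Fin.cases ?_ (fun j => ?_) j <;> intro hij
    · exact absurd rfl hij
    · simp [fromBlocks_multiply, fromBlocks_neg]
    · simp [fromBlocks_multiply, fromBlocks_neg]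
    · have := h.anti i j fun e => hij (e ▸ rfl)
      simp [fromBlocks_multiply, fromBlocks_neg, this]

theorem clif (N : ℕ) : ∃ G : Fin N → Matrix (Fin (2 ^ N)) (Fin (2 ^ N)) ℤ, IsClif G := by
  induction N with
  | zero => exact ⟨Fin.elim0, ⟨fun i => i.elim0, fun i => i.elim0, fun i => i.elim0⟩⟩
  | succ n ih =>
    obtain ⟨G, h⟩ := ih
    exact ⟨_, h.double.reindex
      ((finCongr (by rw [pow_succ, mul_two])).trans finSumFinEquiv.symm)⟩

theorem IsClif.sum_sq {N D : Type*} [Fintype N] [Fintype D] [DecidableEq D] {A : Type*}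
    [CommRing A] {G : N → Matrix D D A} (h : IsClif G) (b : N → A) :
    (∑ i, b i • G i) * (∑ i, b i • G i) = -((∑ i, b i ^ 2) • (1 : Matrix D D A)) := by
  classical
  have key : ∀ s : Finset N,
      (∑ i ∈ s, b i • G i) * (∑ i ∈ s, b i • G i) = -((∑ i ∈ s, b i ^ 2) • (1 : Matrix D D A)) := by
    intro s
    induction s using Finset.induction_on with
    | empty => simp
    | insert a s ha ih =>
      have h1 : G a * (∑ i ∈ s, b i • G i) = -((∑ i ∈ s, b i • G i) * G a) := by
        rw [Finset.mul_sum, Finset.sum_mul, ← Finset.sum_neg_distrib]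
        refine Finset.sum_congr rfl fun i hi => ?_
        rw [Matrix.mul_smul, Matrix.smul_mul, h.anti a i (fun e => ha (e ▸ hi)), smul_neg]
      rw [Finset.sum_insert ha, Finset.sum_insert ha, add_mul, mul_add, mul_add, ih,
        Matrix.smul_mul, Matrix.smul_mul, Matrix.mul_smul, Matrix.mul_smul, h.sq, h1, smul_smul,
        add_smul, smul_neg, smul_neg, pow_two]
      abel
  exact key _

/-- the matrix t + sum b_i G_i -/
def clQ {N D : Type*} [Fintype N] [Fintype D] [DecidableEq D] {A : Type*} [CommRing A]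
    (G : N → Matrix D D A) (t : A) (b : N → A) : Matrix D D A :=
  t • (1 : Matrix D D A) + ∑ i, b i • G i

theorem IsClif.clQ_tr {N D : Type*} [Fintype N] [Fintype D] [DecidableEq D] {A : Type*}
    [CommRing A] {G : N → Matrix D D A} (h : IsClif G) (t : A) (b : N → A) :
    (clQ G t b)ᵀ = t • (1 : Matrix D D A) - ∑ i, b i • G i := by
  rw [clQ, transpose_add, transpose_smul, transpose_one, transpose_sum, sub_eq_add_neg,
    ← Finset.sum_neg_distrib]
  simp only [transpose_smul, h.skew, smul_neg]

theorem IsClif.tr_mul {N D : Type*} [Fintype N] [Fintype D] [DecidableEq D] {A : Type*}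
    [CommRing A] {G : N → Matrix D D A} (h : IsClif G) (t : A) (b : N → A) :
    (clQ G t b)ᵀ * clQ G t b = (t ^ 2 + ∑ i, b i ^ 2) • (1 : Matrix D D A) := by
  rw [h.clQ_tr, clQ, sub_mul, mul_add, mul_add, h.sum_sq, add_smul, pow_two t]
  simp only [Matrix.smul_mul, Matrix.mul_smul, one_mul, mul_one, smul_smul]
  abel

theorem IsClif.mul_tr {N D : Type*} [Fintype N] [Fintype D] [DecidableEq D] {A : Type*}
    [CommRing A] {G : N → Matrix D D A} (h : IsClif G) (t : A) (b : N → A) :
    clQ G t b * (clQ G t b)ᵀ = (t ^ 2 + ∑ i, b i ^ 2) • (1 : Matrix D D A) := by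
  rw [h.clQ_tr, clQ, mul_sub, add_mul, add_mul, h.sum_sq, add_smul, pow_two t]
  simp only [Matrix.smul_mul, Matrix.mul_smul, one_mul, mul_one, smul_smul]
  abel

end Pool.Agent.MT.MW
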