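import Pool.Agent.Lib.MP_d61fbb_ag.MW.Dim
import Pool.Agent.Lib.MP_d61fbb_ag.MT.A4

/-! Block F: statements. -/

namespace Pool.Agent.MT

variable [dm : Dim]

omit [Dim] in
/-- The form with coefficients `z` and characteristics `ch`, read at `θ`. -/
noncomputable def qv {ι A : Type} [Fintype ι] {D : ℕ} (z : ι → ℤ) (ch : ι → Fin D → A)
    (θ : A → ℂ) : ℂ :=
  ∑ i, (z i : ℂ) * ∏ k, θ (ch i k)

/-- The theta constants with characteristics of denominator `m`. -/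
noncomputable def Thm (m : ℕ) (τ : Matrix (Fin gg) (Fin gg) ℂ) (a : I2 gg → ℤ) : ℂ :=
  Th τ fun j => (a j : ℂ) / m

omit [Dim] in
/-- A family of at least `l ^ e * n e / c` monomials of logarithmic degree in variables indexed by
`A`, one set for each level `l ^ e`. -/
structure Fam (A : Type) (l : ℕ) (n : ℕ → ℕ) where
  c : ℕ
  e0 : ℕ
  D : ℕ → ℕ
  r : ℕ → ℕ
  ch : ∀ e, Fin (r e) → Fin (D e) → A
  hD : ∀ e, e0 ≤ e → D e ≤ c * e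
  lo : ∀ e, e0 ≤ e → l ^ e * n e ≤ c * r e
  hi : ∀ e, e0 ≤ e → r e ≤ (l ^ e) ^ c

omit [Dim] in
/-- The auxiliary form: it kills a Galois stable set of at most `X₀ ^ c * n e` points and its size
is quasi-polynomial. -/
def FOut : Prop :=
  ∀ (K : Subfield ℂ) [Module.Finite ℚ K] (A : Type) (l c : ℕ) (n : ℕ → ℕ) (F : Fam A l n), 2 ≤ l →
    (∀ e, 0 < n e) → ∃ c' : ℕ, ∀ X₀ : ℕ, 2 ≤ X₀ →
    ∃ e : ℕ, F.e0 ≤ e ∧ 1 ≤ e ∧ l ^ e ≤ X₀ ^ c' ∧ F.D e ≤ c' * Nat.log 2 X₀ ∧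
      ∀ (X : Type) [Finite X] (θ : X → A → ℂ),
        Nat.card X ≤ X₀ ^ c * n e → (∀ x a, IsIntegral ℤ (θ x a)) →
        (∀ (σ : ℂ ≃+* ℂ) x a, ‖σ (θ x a)‖ ≤ ((l ^ e * X₀ : ℕ) : ℝ) ^ c) →
        (∀ σ : ℂ ≃+* ℂ, (∀ y ∈ K, σ y = y) → ∀ x, ∃ (x' : X) (u : ℂ), ∀ a, σ (θ x a) = u * θ x' a) →
        ∃ z : Fin (F.r e) → ℤ, z ≠ 0 ∧ ∑ i, |z i| ≤ (X₀ : ℤ) ^ (c' * Nat.log 2 X₀) ∧
          ∀ x, qv z (F.ch e) (θ x) = 0

end Pool.Agent.MT
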