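import Pool.Agent.Lib.MP_d61fbb_ag.MW.I0
import Pool.Agent.Lib.MP_d61fbb_ag.MW.FDefs
import Pool.Agent.Lib.MP_d61fbb_ag.MT.GDefs

/-! Relations on a set of points at one prime: statements. -/

set_option autoImplicit false

noncomputable section

namespace Pool.Agent.MT

variable [dm : Dim]

open Matrix

/-- reduction of matrices -/
def redM (l : ℕ) [Fact l.Prime] (e : ℕ) : M8 ℤ_[l] →+* M8 (ZMod (l ^ e)) :=
  (PadicInt.toZModPow e).mapMatrix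

/-- the number of classes of `KK` modulo `l ^ (2 e)` -/
def cnt {l : ℕ} [Fact l.Prime] (KK : Subgroup (G.Sp gg ℤ_[l])) (e : ℕ) : ℕ :=
  Nat.card (Set.range fun k : KK => redM l (2 * e) k.1.1)

theorem cnt_pos {l : ℕ} [hl : Fact l.Prime] (KK : Subgroup (G.Sp gg ℤ_[l])) (e : ℕ) :
    0 < cnt KK e := by
  have : NeZero (l ^ (2 * e)) := ⟨pow_ne_zero _ hl.out.ne_zero⟩
  exact Nat.card_pos

/-- The form vanishes at the theta values of order `l ^ e` of all points given by `P`. -/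
def Kill (τ : Matrix (Fin gg) (Fin gg) ℂ) (l : Pr) (P : Set (M8 ℚ_[l])) (e : ℕ) {r D : ℕ}
    (z : Fin r → ℤ) (ch : Fin r → Fin D → I2 gg → ℤ) : Prop :=
  ∀ (h : M8 AF) (F : W → ℂ), (∀ l' ≠ l, h.map (cp l') = 1) → h.map (cp l) ∈ P →
    F ∈ HH τ 1 → (∀ t ∈ L0, UU 1 (h *ᵥ t) F = chi0 t • F) →
    qv z ch (fun a => ee (Qf (zc a) / 2) *
      F (h *ᵥ sgv l fun n => (a n : ℚ_[l]) / ((l : ℕ) : ℚ_[l]) ^ e)) = 0

/-- a relation on all points in every large family whose degrees are multiples of `m` -/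
def HasRel (τ : Matrix (Fin gg) (Fin gg) ℂ) (l : Pr) (KK : Subgroup (G.Sp gg ℤ_[l]))
    (P : Set (M8 ℚ_[l])) (m : ℕ) : Prop :=
  ∀ F : Fam (I2 gg → ℤ) l fun e => (l : ℕ) ^ e * cnt KK e, (∀ e, m ∣ F.D e) →
    ∃ (e : ℕ) (z : Fin (F.r e) → ℤ), F.e0 ≤ e ∧ z ≠ 0 ∧ Kill τ l P e z (F.ch e)

end Pool.Agent.MT
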