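import Pool.Agent.Lib.MP_d61fbb_ag.MW.S2
import Pool.Agent.Lib.MP_d61fbb_ag.MW.FK

/-! The count of points: local lemmas. -/

set_option autoImplicit false

noncomputable section

namespace Pool.Agent.MT

open Matrix Polynomial

theorem cn_sqrt {l : ℕ} [hl : Fact l.Prime] (h2 : l ≠ 2) {e : ℕ} (he : e ≠ 0) {u : ℤ_[l]}
    (h : (l : ℤ_[l]) ^ e ∣ u - 1) : ∃ s : ℤ_[l], (l : ℤ_[l]) ^ e ∣ s - 1 ∧ s ^ 2 = u := by
  have n2 : ‖(2 : ℤ_[l])‖ = 1 := by
    exact_mod_cast PadicInt.norm_natCast_eq_one_iff.2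
      ((Nat.coprime_primes hl.out Nat.prime_two).2 h2)
  have h1 : ‖(1 : ℤ_[l]) - u‖ < 1 := by
    rw [norm_sub_rev]
    exact (PadicInt.norm_lt_one_iff_dvd _).2 ((dvd_pow_self _ he).trans h)
  have d : (X ^ 2 - C u : ℤ_[l][X]).derivative.aeval (1 : ℤ_[l]) = 2 := by
    simp
    norm_num
  obtain ⟨s, s1, s2, -⟩ := hensels_lemma (F := (X ^ 2 - C u : ℤ_[l][X])) (a := (1 : ℤ_[l]))
    (by rw [d, n2]; simpa using h1)
  rw [d, n2] at s2
  have s3 : s ^ 2 = u := by simpa [sub_eq_zero] using s1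
  refine ⟨s, ?_, s3⟩
  have s4 : IsUnit (s + 1) := PadicInt.isUnit_iff.2 (by
    rw [show s + 1 = 2 + (s - 1) by ring, PadicInt.norm_add_eq_max_of_ne (by rw [n2]; exact s2.ne'),
      n2, max_eq_left s2.le])
  rwa [← s4.dvd_mul_right, show (s - 1) * (s + 1) = u - 1 by rw [← s3]; ring]

theorem cn_red {l : ℕ} [Fact l.Prime] {e : ℕ} {x y : ℤ_[l]} :
    PadicInt.toZModPow e x = PadicInt.toZModPow e y ↔ (l : ℤ_[l]) ^ e ∣ x - y := by
  rw [← sub_eq_zero, ← map_sub, ← Ideal.mem_span_singleton, ← PadicInt.ker_toZModPow,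
    RingHom.mem_ker]

/-- Lattices of rank two that contain `l ^ v R ^ 2`. -/
theorem cn_lat {l n : ℕ} [Fact l.Prime] {R : Type} [CommRing R] [Algebra ℤ_[l] R]
    (b : Module.Basis (Fin n) ℤ_[l] R) (v : ℕ) :
    ∃ cl : M2 R → Fin 2 × Fin 2 × Fin n → ZMod (l ^ v), ∀ g g' : M2 R, g.det ∣ (l : R) ^ v →
      g'.det ∣ (l : R) ^ v → cl g = cl g' → ∃ h : M2 R, IsUnit h.det ∧ g' = g * h := by
  refine ⟨fun g x => PadicInt.toZModPow v (b.repr (g x.1 x.2.1) x.2.2), ?_⟩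
  have key : ∀ g g' : M2 R, g.det ∣ (l : R) ^ v →
      (∀ x y i, PadicInt.toZModPow v (b.repr (g' x y) i) =
        PadicInt.toZModPow v (b.repr (g x y) i)) → ∃ h, g' = g * h := by
    rintro g g' ⟨w, hw⟩ e
    have h1 : ∀ x y, (l : R) ^ v ∣ (g' - g) x y := fun x y => by
      rw [← b.sum_repr ((g' - g) x y)]
      refine Finset.dvd_sum fun i _ => ?_
      obtain ⟨z, hz⟩ := cn_red.1 (e x y i)
      rw [Matrix.sub_apply, map_sub, Finsupp.sub_apply, hz, Algebra.smul_def, map_mul, map_pow,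
        map_natCast, mul_assoc]
      exact dvd_mul_right _ _
    choose y hy using h1
    refine ⟨1 + w • (g.adjugate * of y), ?_⟩
    rw [mul_add, mul_one, mul_smul_comm, ← mul_assoc, mul_adjugate, smul_mul_assoc, one_mul,
      smul_smul, mul_comm w, ← hw]
    ext x z
    rw [Matrix.add_apply, Matrix.smul_apply, of_apply, smul_eq_mul, ← hy, Matrix.sub_apply,
      add_sub_cancel]
  intro g g' h1 h2 e
  obtain ⟨h, e1⟩ := key g g' h1 fun x y i => (congrFun e (x, y, i)).symm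
  obtain ⟨h', e2⟩ := key g' g h2 fun x y i => congrFun e (x, y, i)
  refine ⟨h, IsUnit.of_mul_eq_one h'.det ?_, e1⟩
  obtain ⟨w, hw⟩ := h1
  have e3 : (l : R) ^ v * (h.det * h'.det - 1) = 0 := by
    have := congrArg det e2
    rw [e1, det_mul, det_mul] at this
    rw [hw]
    linear_combination (-w) * this
  rw [← sub_eq_zero]
  refine b.ext_elem fun i => ?_
  have := congrArg (fun z => b.repr z i) e3
  rw [← map_natCast (algebraMap ℤ_[l] R), ← map_pow, ← Algebra.smul_def] at this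
  simp only [map_smul, Finsupp.smul_apply, smul_eq_mul, map_zero, Finsupp.zero_apply] at this
  rw [(mul_eq_zero.1 this).resolve_left
    (pow_ne_zero _ (Nat.cast_ne_zero.2 (Fact.out : l.Prime).ne_zero)), map_zero,
    Finsupp.zero_apply]

variable [dm : Dim] {e k n l : ℕ} [hl : Fact l.Prime] {a : M8 ℤ} (D : Blk e k n l a)

namespace Blk

/-- A basis of the étale algebra. -/
def cnBas : Module.Basis (Fin n) ℤ_[l] D.R :=
  (AdjoinRoot.powerBasis' D.monic).basis.reindex (finCongr D.deg)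

theorem inN_smul {s : ℤ_[l]} (hs : IsUnit s) {x : M8 ℤ_[l]} (hx : D.InN x) : D.InN (s • x) := by
  obtain ⟨u, h, h1, h2, rfl⟩ := hx
  refine ⟨C s * u, h, ?_, h2, ?_⟩
  · rw [map_mul, aeval_C]
    exact (hs.map _).mul h1
  · rw [map_mul, aeval_C, mul_assoc, Algebra.smul_def]

/-- Similitudes modulo `l ^ (2 m)` up to scalars that are one modulo `l ^ m`. -/
theorem cn_lev (h2 : l ≠ 2) {m : ℕ} (hm : m ≠ 0) : ∃ (ι : Type) (_ : Finite ι)
    (cl : M8 ℤ_[l] → ι), Nat.card ι = l ^ m * cnt D.KK m ∧ ∀ (x y : M8 ℤ_[l]) (μ ν : ℤ_[l]),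
      D.InN x → D.InN y → IsUnit μ → IsUnit ν → GS μ x → GS ν y → cl x = cl y →
      ∃ s : ℤ_[l], (l : ℤ_[l]) ^ m ∣ s - 1 ∧ ∀ i j, (l : ℤ_[l]) ^ (2 * m) ∣ (y - s • x) i j := by
  classical
  have : NeZero (l ^ m) := ⟨pow_ne_zero _ hl.out.ne_zero⟩
  have : NeZero (l ^ (2 * m)) := ⟨pow_ne_zero _ hl.out.ne_zero⟩
  let Q : M8 ℤ_[l] → ZMod (l ^ m) → Prop := fun x c =>
    D.InN x ∧ ∃ μ, IsUnit μ ∧ GS μ x ∧ PadicInt.toZModPow m μ = c
  have h1 : ∀ c, ∃ z : M8 ℤ_[l], ∀ x, Q x c → ∃ (s : ℤ_[l]) (κ : D.KK),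
      (l : ℤ_[l]) ^ m ∣ s - 1 ∧ x = s • (z * κ.1.1) := fun c => by
    by_cases h : ∃ z, Q z c
    swap
    · exact ⟨1, fun x hx => absurd ⟨x, hx⟩ h⟩
    obtain ⟨z, z1, ν, z2, z3, z4⟩ := h
    refine ⟨z, fun x ⟨x1, μ, x2, x3, x4⟩ => ?_⟩
    obtain ⟨ν', hν⟩ := z2.exists_right_inv
    obtain ⟨s, s1, s2⟩ := cn_sqrt h2 hm (u := μ * ν') (by
      rw [← hν, ← sub_mul]
      exact (cn_red.1 (x4.trans z4.symm)).mul_right _)
    have s3 : IsUnit s := (isUnit_pow_iff two_ne_zero).1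
      (s2 ▸ x2.mul (IsUnit.of_mul_eq_one_right _ hν))
    obtain ⟨s', s4⟩ := s3.exists_right_inv
    have z5 : IsUnit z := by
      obtain ⟨u, g, a1, a2, rfl⟩ := z1
      refine a1.mul (IsUnit.of_mul_eq_one (D.Nm g⁻¹) ?_)
      rw [← D.Nm_mul, mul_nonsing_inv _ a2, D.Nm_one]
    obtain ⟨z', z6⟩ := z5.exists_right_inv
    have z7 : GS 1 (s' • (z' * x)) := fun p q => by
      have a1 := z3 ((s' • (z' * x)) *ᵥ p) ((s' • (z' * x)) *ᵥ q)
      rw [mulVec_mulVec, mulVec_mulVec, mul_smul_comm, ← mul_assoc, z6, one_mul,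
        x3.smul s'] at a1
      have a2 : s' ^ 2 * μ * ν' = 1 := by rw [mul_assoc, ← s2, ← mul_pow, mul_comm, s4, one_pow]
      linear_combination (-ν') * a1 + Ef p q * a2 -
        Ef ((s' • (z' * x)) *ᵥ p) ((s' • (z' * x)) *ᵥ q) * hν
    refine ⟨s, ⟨⟨_, gs_one_iff.1 z7⟩, D.inN_smul (IsUnit.of_mul_eq_one_right _ s4)
      ((z1.inv z6).mul x1)⟩, s1, ?_⟩
    change x = s • (z * (s' • (z' * x)))
    rw [mul_smul_comm, smul_smul, s4, one_smul, ← mul_assoc, z6, one_mul]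
  choose z hz using h1
  have h3 : ∀ x, ∃ (c : ZMod (l ^ m)) (κ : D.KK), (∃ c, Q x c) → ∃ s : ℤ_[l],
      (l : ℤ_[l]) ^ m ∣ s - 1 ∧ x = s • (z c * κ.1.1) := fun x => by
    by_cases h : ∃ c, Q x c
    · obtain ⟨c, hc⟩ := h
      obtain ⟨s, κ, a1, a2⟩ := hz c x hc
      exact ⟨c, κ, fun _ => ⟨s, a1, a2⟩⟩
    · exact ⟨0, 1, fun e => absurd e h⟩
  choose c κ hκ using h3
  refine ⟨ZMod (l ^ m) × Set.range fun k : D.KK => redM l (2 * m) k.1.1, inferInstance,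
    fun x => (c x, ⟨_, κ x, rfl⟩), by rw [Nat.card_prod, Nat.card_zmod, cnt],
    fun x y μ ν x1 y1 hμ hν x2 y2 h => ?_⟩
  obtain ⟨s, s1, s2⟩ := hκ x ⟨_, x1, μ, hμ, x2, rfl⟩
  obtain ⟨t, t1, t2⟩ := hκ y ⟨_, y1, ν, hν, y2, rfl⟩
  have e1 : c x = c y := congrArg Prod.fst h
  have e2 : redM l (2 * m) (κ x).1.1 = redM l (2 * m) (κ y).1.1 :=
    congrArg (fun z => z.2.1) h
  have s3 : IsUnit s := by
    by_contra e
    have a1 := (PadicInt.norm_lt_one_iff_dvd _).1 (PadicInt.not_isUnit_iff.1 e)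
    have a2 := dvd_sub a1 ((dvd_pow_self _ hm).trans s1)
    rw [sub_sub_cancel] at a2
    exact PadicInt.prime_p.not_dvd_one a2
  obtain ⟨s', s4⟩ := s3.exists_left_inv
  refine ⟨t * s', ?_, fun i j => ?_⟩
  · rw [← s4, mul_comm t, ← mul_sub, show t - s = t - 1 - (s - 1) by ring]
    exact (dvd_sub t1 s1).mul_left _
  · have e3 : y - (t * s') • x = t • (z (c y) * ((κ y).1.1 - (κ x).1.1)) := by
      conv_lhs => rw [s2, t2, e1, smul_smul, mul_assoc, s4, mul_one, ← smul_sub, ← mul_sub]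
    rw [e3, Matrix.smul_apply, smul_eq_mul, mul_apply]
    refine Dvd.dvd.mul_left (Finset.dvd_sum fun p _ => Dvd.dvd.mul_left ?_ _) _
    exact cn_red.1 (congrFun (congrFun e2 p) j).symm

end Blk

end Pool.Agent.MT
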