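import Mathlib

/-! The count of points: cosets and boxes. -/

set_option autoImplicit false

namespace Pool.Agent.MT

open Finset

theorem cn_coset {G ι : Type*} [Group G] [Finite ι] (U : Subgroup G) (S : G → Prop) (cl : G → ι)
    (h : ∀ g g', S g → S g' → cl g = cl g' → g⁻¹ * g' ∈ U) :
    ∃ T : Finset (G ⧸ U), T.card ≤ Nat.card ι ∧ ∀ g, S g → (g : G ⧸ U) ∈ T := by
  classical
  have := Fintype.ofFinite ι
  refine ⟨univ.image fun i => if e : ∃ g, S g ∧ cl g = i then (e.choose : G) else (1 : G),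
    card_image_le.trans (by simp), fun g hg => ?_⟩
  have e : ∃ g', S g' ∧ cl g' = cl g := ⟨g, hg, rfl⟩
  refine mem_image.2 ⟨cl g, mem_univ _, ?_⟩
  rw [dif_pos e]
  exact QuotientGroup.eq.2 (h _ _ e.choose_spec.1 hg e.choose_spec.2)

/-- A count in two steps: first modulo the relation `V`, then inside its classes. -/
theorem cn_two {G ι κ : Type*} [Group G] [Finite ι] [Finite κ] (U : Subgroup G) (S V : G → Prop)
    (cl : G → ι) (cl' : G → κ) (h : ∀ g g', S g → S g' → cl g = cl g' → V (g⁻¹ * g'))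
    (h' : ∀ u u', V u → V u' → cl' u = cl' u' → u⁻¹ * u' ∈ U) :
    ∃ T : Finset (G ⧸ U), T.card ≤ Nat.card ι * Nat.card κ ∧ ∀ g, S g → (g : G ⧸ U) ∈ T := by
  have h1 : ∀ i, ∃ b : G, ∀ g, S g → cl g = i → V (b⁻¹ * g) := fun i => by
    by_cases e : ∃ b, S b ∧ cl b = i
    · obtain ⟨b, b1, b2⟩ := e
      exact ⟨b, fun g g1 g2 => h b g b1 g1 (b2.trans g2.symm)⟩
    · exact ⟨1, fun g g1 g2 => absurd ⟨g, g1, g2⟩ e⟩
  choose b hb using h1
  rw [← Nat.card_prod]
  refine cn_coset U S (fun g => (cl g, cl' ((b (cl g))⁻¹ * g))) fun g g' g1 g2 e => ?_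
  obtain ⟨e1, e2⟩ := Prod.mk.inj e
  have := h' _ _ (hb _ g g1 rfl) (hb _ g' g2 rfl) e2
  rwa [e1, mul_inv_rev, inv_inv, mul_assoc, mul_inv_cancel_left] at this

theorem cn_pi {N : ℕ} (hN : N ≠ 0) (α : Type*) [Fintype α] :
    Nat.card (∀ l : N.primeFactors, α → ZMod ((l : ℕ) ^ N.factorization l)) =
      N ^ Fintype.card α := by
  rw [Nat.card_pi]
  simp only [Nat.card_fun, Nat.card_zmod, Nat.card_eq_fintype_card]
  rw [prod_pow, prod_coe_sort N.primeFactors fun l => l ^ N.factorization l]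
  congr 1
  exact Nat.prod_factorization_pow_eq_self hN

instance cn_pi_fin (N : ℕ) (α : Type*) [Finite α] :
    Finite (∀ l : N.primeFactors, α → ZMod ((l : ℕ) ^ N.factorization l)) :=
  have : ∀ l : N.primeFactors, NeZero ((l : ℕ) ^ N.factorization l) := fun l =>
    ⟨pow_ne_zero _ (Nat.prime_of_mem_primeFactors l.2).ne_zero⟩
  inferInstance

/-- Integer vectors in a box are determined by their residues. -/
theorem cn_box {α : Type*} {B : ℕ} {x y : α → ℤ} (hx : ∀ i, |x i| ≤ B) (hy : ∀ i, |y i| ≤ B)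
    (h : (fun i => (x i : ZMod (2 * B + 1))) = fun i => (y i : ZMod (2 * B + 1))) : x = y :=
  funext fun i => by
    have h1 := (ZMod.intCast_eq_intCast_iff_dvd_sub _ _ _).1 (congrFun h i)
    have h2 := abs_le.1 (hx i)
    have h3 := abs_le.1 (hy i)
    have := Int.eq_zero_of_abs_lt_dvd h1 (by rw [abs_lt]; push_cast; constructor <;> omega)
    omega

theorem cn_unit {l : ℕ} [hl : Fact l.Prime] {N : ℕ} (hN : N ≠ 0) :
    ∃ u : ℤ_[l], IsUnit u ∧ (N : ℤ_[l]) = (l : ℤ_[l]) ^ N.factorization l * u := by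
  refine ⟨((N / l ^ N.factorization l : ℕ) : ℤ_[l]), PadicInt.isUnit_iff.2
    (PadicInt.norm_natCast_eq_one_iff.2 (Nat.coprime_ordCompl hl.out hN)), ?_⟩
  exact_mod_cast congrArg (Nat.cast (R := ℤ_[l])) (Nat.ordProj_mul_ordCompl_eq_self N l).symm

theorem cn_dvd {l : ℕ} [Fact l.Prime] {R : Type*} [CommRing R] [Algebra ℤ_[l] R] {N : ℕ}
    (hN : N ≠ 0) {x : R} (h : x ∣ (N : R)) : x ∣ (l : R) ^ N.factorization l := by
  obtain ⟨u, hu, e⟩ := cn_unit (l := l) hN
  have := congrArg (algebraMap ℤ_[l] R) e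
  rw [map_natCast, map_mul, map_pow, map_natCast] at this
  rwa [this, (hu.map _).dvd_mul_right] at h

end Pool.Agent.MT
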