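import Mathlib

/-! The count of points: algebraic integers of bounded size. -/

set_option autoImplicit false

namespace Pool.Agent.MT

open NumberField Module Finset

variable {F : Type*} [Field F] [NumberField F]

theorem cn_prod (x : F) : ∏ φ : F →+* ℂ, ‖φ x‖ = |(Algebra.norm ℚ x : ℝ)| := by
  have e := congrArg norm (Algebra.norm_eq_prod_embeddings ℚ ℂ x)
  rw [norm_prod] at e
  rw [← Fintype.prod_equiv (RingHom.equivRatAlgHom F ℂ).symm (fun σ : F →ₐ[ℚ] ℂ => ‖σ x‖) _ fun _ => rfl,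
    ← e]
  simp

variable (F) in
/-- Integers with conjugates of size at most `B` are determined by their residues. -/
theorem cn_int (B : ℕ) : ∃ cl : F → Fin (finrank ℚ F) → ZMod (2 * B + 1), ∀ x y : F,
    IsIntegral ℤ x → IsIntegral ℤ y → (∀ φ : F →+* ℂ, ‖φ x‖ ≤ B) → (∀ φ : F →+* ℂ, ‖φ y‖ ≤ B) →
      cl x = cl y → x = y := by
  classical
  let b := (Module.finBasis ℤ (𝓞 F)).reindex (finCongr (RingOfIntegers.rank F))
  refine ⟨fun x i => if h : IsIntegral ℤ x then (b.repr ⟨x, h⟩ i : ℤ) else 0,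
    fun x y hx hy h1 h2 e => ?_⟩
  simp only [dif_pos hx, dif_pos hy] at e
  obtain ⟨z, hz⟩ : ((2 * B + 1 : ℕ) : 𝓞 F) ∣ (⟨y, hy⟩ - ⟨x, hx⟩ : 𝓞 F) := by
    rw [← b.sum_repr (⟨y, hy⟩ - ⟨x, hx⟩ : 𝓞 F)]
    refine dvd_sum fun i _ => ?_
    obtain ⟨w, hw⟩ := (ZMod.intCast_eq_intCast_iff_dvd_sub _ _ _).1 (congrFun e i)
    rw [map_sub, Finsupp.sub_apply, hw, zsmul_eq_mul, Int.cast_mul, Int.cast_natCast, mul_assoc]
    exact dvd_mul_right _ _
  have h3 : y - x = (2 * B + 1 : ℕ) * (z : F) := by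
    have := congrArg (algebraMap (𝓞 F) F) hz
    rw [map_sub, map_mul, map_natCast] at this
    exact this
  by_contra hne
  have h4 : z ≠ 0 := fun e => hne (by
    rw [e] at h3
    exact (sub_eq_zero.1 (h3.trans (mul_zero _))).symm)
  have h5 : (1 : ℝ) ≤ |(Algebra.norm ℚ (z : F) : ℝ)| := by
    rw [← Algebra.coe_norm_int]
    exact_mod_cast Int.one_le_abs (Algebra.norm_ne_zero_iff.2 h4)
  refine absurd h5 (not_le.2 ?_)
  rw [← cn_prod]
  have h6 : ∀ φ : F →+* ℂ, ‖φ z‖ < 1 := fun φ => by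
    have := norm_sub_le (φ y) (φ x)
    rw [← map_sub, h3, map_mul, norm_mul, map_natCast, Complex.norm_natCast] at this
    push_cast at this
    nlinarith [h1 φ, h2 φ, Nat.cast_nonneg (α := ℝ) B]
  obtain ⟨φ⟩ : Nonempty (F →+* ℂ) := inferInstance
  rw [← mul_prod_erase _ _ (mem_univ φ)]
  exact (mul_le_of_le_one_right (norm_nonneg _)
    (prod_le_one (fun _ _ => norm_nonneg _) fun ψ _ => (h6 ψ).le)).trans_lt (h6 φ)

/-- A balanced element is bounded by its norm. -/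
theorem cn_bal {x : F} {C Y : ℝ} (hC : 0 ≤ C) (h : ∀ φ ψ : F →+* ℂ, ‖φ x‖ ≤ C * ‖ψ x‖)
    (h1 : 1 ≤ Y) (hY : |(Algebra.norm ℚ x : ℝ)| ≤ Y) (φ : F →+* ℂ) : ‖φ x‖ ≤ C * Y := by
  classical
  obtain ⟨ψ, hψ⟩ : ∃ ψ : F →+* ℂ, ‖ψ x‖ ≤ Y := by
    by_contra hc
    have h2 : ∀ ψ : F →+* ℂ, Y < ‖ψ x‖ := fun ψ => not_le.1 fun e => hc ⟨ψ, e⟩
    rw [← cn_prod, ← mul_prod_erase _ _ (mem_univ φ)] at hY
    exact absurd hY (not_le.2 ((h2 φ).trans_le (le_mul_of_one_le_right (norm_nonneg _)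
      (one_le_prod fun ψ _ => h1.trans (h2 ψ).le))))
  exact (h φ ψ).trans (mul_le_mul_of_nonneg_left hψ hC)

end Pool.Agent.MT
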