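import Pool.Agent.Lib.MP_d61fbb_ag.MW.GD
import Pool.Agent.Lib.MP_d61fbb_ag.MW.Cn0
import Pool.Agent.Lib.MP_d61fbb_ag.MW.Cn1
import Pool.Agent.Lib.MP_d61fbb_ag.MW.Cn2

/-! The count of points: adelic lemmas. -/

set_option autoImplicit false

noncomputable section

namespace Pool.Agent.MT

open Matrix Polynomial NumberField

theorem cn_inv {F : Type} [Field F] [NumberField F] {x : F} (h0 : x ≠ 0) {B : ℝ}
    (h : ∀ φ ψ : F →+* ℂ, ‖φ x‖ ≤ B * ‖ψ x‖) {Y : ℕ} (hY : Y ≠ 0) (hi : IsIntegral ℤ ((Y : F) * x))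
    (φ : F →+* ℂ) : ‖φ x⁻¹‖ ≤ (⌈B⌉₊ * Y : ℕ) := by
  obtain ⟨ψ, hψ⟩ := exists_conjugate_one_le_norm (α := (⟨_, hi⟩ : 𝓞 F)) fun e =>
    mul_ne_zero (Nat.cast_ne_zero.2 hY) h0 (congrArg Subtype.val e)
  have h1 : 1 ≤ Y * ‖ψ x‖ := by
    have : ‖ψ ((Y : F) * x)‖ = Y * ‖ψ x‖ := by rw [map_mul, norm_mul, map_natCast, Complex.norm_natCast]
    exact hψ.trans this.le
  have h2 : 0 < ‖φ x‖ := norm_pos_iff.2 ((_root_.map_ne_zero φ).2 h0)
  rw [map_inv₀, norm_inv, inv_le_iff_one_le_mul₀ h2, Nat.cast_mul, mul_comm (⌈B⌉₊ : ℝ), mul_assoc]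
  exact h1.trans (mul_le_mul_of_nonneg_left ((h ψ φ).trans
    (mul_le_mul_of_nonneg_right (Nat.le_ceil B) h2.le)) Y.cast_nonneg)

section
variable {ι : Type} {l : ℕ} [Fact l.Prime]

/-- the integral matrix with the same entries -/
def cnZ (g : Matrix ι ι ℚ_[l]) : Matrix ι ι ℤ_[l] :=
  g.map fun x => if h : ‖x‖ ≤ 1 then ⟨x, h⟩ else 0

theorem cnZ_map (w : Matrix ι ι ℤ_[l]) : cnZ (w.map ((↑) : ℤ_[l] → ℚ_[l])) = w := by
  ext i j : 1
  exact dif_pos (w i j).2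

theorem cnZ_spec {g : Matrix ι ι ℚ_[l]} (h : ∀ i j, ‖g i j‖ ≤ 1) : (cnZ g).map (↑) = g := by
  ext i j
  exact congrArg Subtype.val (dif_pos (h i j))

theorem cn_map_mul [Fintype ι] (x y : Matrix ι ι ℤ_[l]) :
    (x * y).map ((↑) : ℤ_[l] → ℚ_[l]) = x.map (↑) * y.map (↑) :=
  Matrix.map_mul (f := PadicInt.Coe.ringHom)

theorem cn_map_one [DecidableEq ι] : (1 : Matrix ι ι ℤ_[l]).map ((↑) : ℤ_[l] → ℚ_[l]) = 1 :=
  Matrix.map_one _ rfl rfl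

theorem cn_map_inj {x y : Matrix ι ι ℤ_[l]} (h : x.map ((↑) : ℤ_[l] → ℚ_[l]) = y.map (↑)) : x = y :=
  Matrix.map_injective Subtype.val_injective h

end

variable [dm : Dim]

theorem cn_gs {R : Type} [Field R] {g t P : M8 R} {u u' : R} (hu : u ≠ 0)
    (h : gᵀ * J (Fin gg) R * P * g = u • J (Fin gg) R)
    (h' : (g * t)ᵀ * J (Fin gg) R * P * (g * t) = u' • J (Fin gg) R) : GS (u⁻¹ * u') t := by
  rw [gs_iff, mul_smul, ← h', eq_inv_smul_iff₀ hu, ← smul_mul_assoc, ← mul_smul_comm, ← h,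
    transpose_mul]
  simp only [Matrix.mul_assoc]

theorem cn_gs_int {l : ℕ} [Fact l.Prime] {w : M8 ℤ_[l]} {μ : ℤ_[l]}
    (h : GS (μ : ℚ_[l]) (w.map (↑))) : GS μ w := fun x y => PadicInt.ext (by
  have := h (fun i => x i) fun i => y i
  have e : ∀ x : I2 gg → ℤ_[l], (w.map (↑) *ᵥ fun i => (x i : ℚ_[l])) = fun i => ((w *ᵥ x) i : ℚ_[l]) :=
    fun x => funext fun i => (RingHom.map_mulVec PadicInt.Coe.ringHom w x i).symm
  rw [e, e] at this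
  exact (Ef_map _ _ PadicInt.Coe.ringHom).trans (this.trans
    (congrArg ((μ : ℚ_[l]) * ·) (Ef_map _ _ PadicInt.Coe.ringHom).symm)))

theorem cn_stdAt {l : Pr} {t t' : M8 AF} (e : t' * t = 1) (h : ∀ i j, ‖t.map (cp l) i j‖ ≤ 1)
    (h' : ∀ i j, ‖t'.map (cp l) i j‖ ≤ 1) : StdAt l t := fun x => by
  refine ⟨fun hx i => ?_, fun hx => cnZ_spec h ▸ gn_int_mulVec _ hx⟩
  have := gn_int_mulVec (cnZ (t'.map (cp l))) hx i
  rwa [cnZ_spec h', mulVec_mulVec, ← Matrix.map_mul, e, Matrix.map_one _ (map_zero _) (map_one _),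
    one_mulVec] at this

/-- Lattices between the standard lattice and its multiple by `N`. -/
theorem cn_std {N : ℕ} (hN : N ≠ 0) :
    ∃ cl : M8 AF → ∀ l : N.primeFactors, I2 gg × I2 gg → ZMod ((l : ℕ) ^ N.factorization l),
      ∀ g g' : (M8 AF)ˣ, (∀ (l : Pr) i j, ‖cp l (g.val i j)‖ ≤ 1) →
        (∀ (l : Pr) i j, ‖(N : ℚ_[l]) * cp l (g⁻¹.val i j)‖ ≤ 1) →
        (∀ (l : Pr) i j, ‖cp l (g'.val i j)‖ ≤ 1) →
        (∀ (l : Pr) i j, ‖(N : ℚ_[l]) * cp l (g'⁻¹.val i j)‖ ≤ 1) → cl g = cl g' →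
        ∀ l, StdAt l (g⁻¹ * g').val := by
  let P : N.primeFactors → Pr := fun l => ⟨l, Nat.prime_of_mem_primeFactors l.2⟩
  let cl : M8 AF → ∀ l : N.primeFactors, I2 gg × I2 gg → ZMod ((l : ℕ) ^ N.factorization l) :=
    fun g l x => PadicInt.toZModPow (p := P l) (N.factorization l) (cnZ (g.map (cp (P l))) x.1 x.2)
  have key : ∀ g g' : (M8 AF)ˣ, (∀ (l : Pr) i j, ‖cp l (g.val i j)‖ ≤ 1) →
      (∀ (l : Pr) i j, ‖(N : ℚ_[l]) * cp l (g⁻¹.val i j)‖ ≤ 1) →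
      (∀ (l : Pr) i j, ‖cp l (g'.val i j)‖ ≤ 1) → cl g = cl g' →
      ∀ (l : Pr) i j, ‖(g⁻¹ * g').val.map (cp l) i j‖ ≤ 1 := fun g g' h1 h2 h3 e l => by
    have h4 : ∀ i j, (N : ℤ_[l]) ∣ cnZ (g'.val.map (cp l)) i j - cnZ (g.val.map (cp l)) i j :=
      fun i j => by
        obtain ⟨u, hu, e'⟩ := cn_unit (l := l) hN
        rw [e', hu.mul_right_dvd]
        by_cases hl : (l : ℕ) ∈ N.primeFactors
        · exact cn_red.1 (congrFun (congrFun e ⟨l, hl⟩) (i, j)).symm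
        · rw [Finsupp.notMem_support_iff.1 hl, pow_zero]
          exact one_dvd _
    choose y hy using h4
    have h5 : g'.val.map (cp l) = g.val.map (cp l) + (N : ℚ_[l]) • (of y).map (↑) := by
      rw [← cnZ_spec (g := g'.val.map (cp l)) (h3 l), ← cnZ_spec (g := g.val.map (cp l)) (h1 l)]
      ext i j
      exact congrArg Subtype.val (sub_eq_iff_eq_add'.1 (hy i j))
    have h6 : (g⁻¹ * g').val.map (cp l) =
        (1 + cnZ ((N : ℚ_[l]) • g⁻¹.val.map (cp l)) * of y).map (↑) := by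
      rw [Units.val_mul, Matrix.map_mul, h5, mul_add, ← Matrix.map_mul, Units.inv_mul,
        Matrix.map_one _ (map_zero _) (map_one _), mul_smul_comm, ← smul_mul_assoc,
        Matrix.map_add _ PadicInt.coe_add, cn_map_mul, cnZ_spec (g := (N : ℚ_[l]) • g⁻¹.val.map (cp l)) (h2 l), cn_map_one]
    rw [h6]
    exact fun i j => PadicInt.norm_le_one _
  exact ⟨cl, fun g g' h1 h2 h3 h4 e l => cn_stdAt (t' := (g'⁻¹ * g).val)
    (by rw [← Units.val_mul, mul_assoc, mul_inv_cancel_left, inv_mul_cancel, Units.val_one])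
    (key g g' h1 h2 h3 e l) (key g' g h3 h4 h1 e.symm l)⟩

end Pool.Agent.MT
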