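import Pool.Agent.Lib.MP_d61fbb_ag.MW.DGd

/-! The fields generated by a stable set of numbers of absolute value one. -/

set_option autoImplicit false

open Finset Function Polynomial

namespace Pool.Agent.MW.Dd

open Pool.Agent.Lib.MP_696deb_nt.B2 (Qbar Gam jC cc jC_cc)

theorem exists_fld {ι : Type} [Fintype ι] [DecidableEq ι] {v : ι → Qbar} (hv : Injective v)
    (hs : ∀ (s : Gam) y, ∃ y', v y' = s (v y)) (h1 : ∀ y, ‖jC (v y)‖ = 1) :
    ∃ (κ : Type) (_ : Fintype κ) (E : κ → Type) (_ : ∀ i, Field (E i)) (_ : ∀ i, NumberField (E i))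
      (c : ∀ i, E i ≃ₐ[ℚ] E i) (U : ∀ i, E i) (g : (∀ i, E i) → ℚ[X]) (t : ι → κ)
      (ψ : ∀ y, E (t y) →+* Qbar), (∀ i, Module.finrank ℚ (E i) ≤ Fintype.card ι) ∧
      (∀ i (φ : E i →+* ℂ) a, φ (c i a) = (starRingEnd ℂ) (φ a)) ∧ (∀ i, c i (U i) = (U i)⁻¹) ∧
      (∀ y, ψ y (U _) = v y) ∧ (∀ a i, aeval (U i) (g a) = a i) ∧
      (∀ (L : Type) [Field L] [CharZero L] (j : Qbar →+* L) i (χ : E i →+* L),
        ∃ y, j (v y) = χ (U i)) ∧
      ∀ a (T : Subring Qbar), (∀ y, v y ∈ T) → (∀ y y', (v y - v y')⁻¹ ∈ T) →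
        (∀ y, ψ y (a _) ∈ T) → ∀ m, ((g a).coeff m : Qbar) ∈ T := by
  classical
  obtain ⟨G, hG⟩ := exists_ann hv hs
  have hi : ∀ y, IsIntegral ℚ (v y) := fun y => Algebra.IsIntegral.isIntegral _
  let κ := Set.range fun y => minpoly ℚ (v y)
  have hκ : ∀ i : κ, Irreducible i.1 ∧ i.1.Monic ∧ i.1 ∣ G := by
    rintro ⟨_, y, rfl⟩
    refine ⟨minpoly.irreducible (hi y), minpoly.monic (hi y), minpoly.dvd _ _ ?_⟩
    rw [← eval_map_algebraMap, hG, eval_prod]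
    exact prod_eq_zero (mem_univ y) (by simp)
  have : ∀ i : κ, Fact (Irreducible i.1) := fun i => ⟨(hκ i).1⟩
  let t : ι → κ := fun y => ⟨_, y, rfl⟩
  let U : ∀ i : κ, AdjoinRoot i.1 := fun i => AdjoinRoot.root _
  let ψ : ∀ y, AdjoinRoot (t y).1 →+* Qbar := fun y => AdjoinRoot.lift _ _ (minpoly.aeval ℚ (v y))
  have h2 : ∀ y, ψ y (U _) = v y := fun y => AdjoinRoot.lift_root _
  have h0 : ∀ i, aeval (U i) i.1 = 0 := fun i => (AdjoinRoot.aeval_eq _).trans AdjoinRoot.mk_self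
  have h3 : ∀ (L : Type) [Field L] [CharZero L] (j : Qbar →+* L) (i : κ) (χ : AdjoinRoot i.1 →+* L),
      ∃ y, j (v y) = χ (U i) := fun L _ _ j i χ => by
    have k1 : aeval (χ (U i)) G = 0 :=
      aeval_eq_zero_of_dvd_aeval_eq_zero (hκ i).2.2 (by rw [aeval_hom, h0, map_zero])
    rw [← eval_map_algebraMap, Subsingleton.elim (algebraMap ℚ L) (j.comp (algebraMap ℚ Qbar)),
      ← Polynomial.map_map, hG, Polynomial.map_prod, eval_prod, prod_eq_zero_iff] at k1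
    exact k1.imp fun y hy => (sub_eq_zero.1 (by simpa using hy)).symm
  have h4 : ∀ y, cc (v y) = (v y)⁻¹ := fun y =>
    jC.injective (by rw [jC_cc, map_inv₀, Complex.inv_eq_conj (h1 y)])
  have h5 : ∀ i, aeval (U i)⁻¹ i.1 = 0 := by
    rintro ⟨_, y, rfl⟩
    refine (ψ y).injective ?_
    rw [← aeval_hom, map_inv₀, h2, ← h4, map_zero]
    exact (aeval_hom (cc : Qbar →+* Qbar) _ _).trans (by rw [minpoly.aeval, map_zero])
  let c : ∀ i : κ, AdjoinRoot i.1 ≃ₐ[ℚ] AdjoinRoot i.1 := fun i => AlgEquiv.ofBijective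
    (AdjoinRoot.liftAlgHom _ (Algebra.ofId _ _) _ (h5 i)) (Algebra.IsAlgebraic.algHom_bijective _)
  have h6 : ∀ i, c i (U i) = (U i)⁻¹ := fun i => AdjoinRoot.lift_root (h5 i)
  choose q hq using fun (i : κ) (a : AdjoinRoot i.1) => AdjoinRoot.mk_surjective a
  have h7 : ∀ i a, aeval (U i) (q i a) = a := fun i a => (AdjoinRoot.aeval_eq _).trans (hq i a)
  choose g _ g1 g2 using fun a : ∀ i : κ, AdjoinRoot i.1 =>
    interp hv (fun y => aeval (v y) (q (t y) (a _))) fun s y => (hs s y).imp fun y' e => ⟨e, by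
      rw [show t y' = t y from Subtype.ext (by simp only [t, e, minpoly.algEquiv_eq]), e]
      exact aeval_hom (s : Qbar →+* Qbar) _ _⟩
  refine ⟨κ, Fintype.ofFinite _, fun i => AdjoinRoot i.1, inferInstance, inferInstance, c, U, g, t,
    ψ, fun i => ?_, fun i φ a => ?_, h6, h2, ?_, h3, fun a T k1 k2 k3 => g2 a T k1 fun y =>
      mul_mem ?_ (prod_mem fun y' _ => k2 y y')⟩
  · rw [(AdjoinRoot.powerBasis (hκ i).1.ne_zero).finrank, ← card_univ,
      ← natDegree_finsetProd_X_sub_C_eq_card univ v, ← hG, natDegree_map]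
    exact natDegree_le_of_dvd (hκ i).2.2 fun e => (monic_prod_of_monic univ (fun y => X - C (v y))
      fun _ _ => monic_X_sub_C _).ne_zero (by rw [← hG, e, Polynomial.map_zero])
  · obtain ⟨y, hy⟩ := h3 ℂ jC i φ
    rw [← h7 i a, ← aeval_algHom_apply, ← aeval_hom, ← aeval_hom, ← aeval_hom, h6, map_inv₀, ← hy,
      Complex.inv_eq_conj (h1 y)]
  · rintro a ⟨_, y, rfl⟩
    refine (ψ y).injective ?_
    rw [← aeval_hom, h2, g1, ← h2, aeval_hom, h7]
  · rw [← h2, aeval_hom, h7]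
    exact k3 y

end Pool.Agent.MW.Dd
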