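import Pool.Agent.Lib.MP_d61fbb_ag.MW.DF
import Pool.Agent.Lib.MP_d61fbb_ag.MW.DFld

/-! The type norm as a polynomial in the generator. -/

set_option autoImplicit false

open Finset Function Polynomial

namespace Pool.Agent.MW.Dd

open Pool.Agent.Lib.MP_696deb_nt.B2 (Qbar Gam jC cc jC_cc)

theorem prod_diff {ι : Type} (s : Finset ι) {a b : ι → Qbar} (ha : ∀ i, IsIntegral ℤ (a i))
    (hb : ∀ i, IsIntegral ℤ (b i)) (M : ℤ) :
    ∃ z : Qbar, IsIntegral ℤ z ∧ ∏ i ∈ s, (a i + M * b i) - ∏ i ∈ s, a i = M * z := by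
  classical
  induction s using Finset.induction_on with
  | empty => exact ⟨0, isIntegral_zero, by simp⟩
  | insert i s hi ih =>
    obtain ⟨z, h1, h2⟩ := ih
    refine ⟨_, ((ha i).mul h1).add ((hb i).mul (IsIntegral.prod (s := s) _ fun j _ =>
      (ha j).add ((isIntegral_intCast M).mul (hb j)))), ?_⟩
    rw [prod_insert hi, prod_insert hi]
    linear_combination a i * h2

theorem prod_norm {κ ι L : Type} [Fintype κ] [Fintype ι] [Field L] [CharZero L] [IsAlgClosed L]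
    {E : κ → Type} [∀ i, Field (E i)] [∀ i, NumberField (E i)] {t : ι → κ}
    (ψ : ∀ y, E (t y) →+* L) (U : ∀ i, E i) (h1 : Injective fun y => ψ y (U _))
    (h2 : ∀ i (χ : E i →+* L), ∃ y, ∀ a : ∀ i, E i, χ (a i) = ψ y (a _)) (a : ∀ i, E i) :
    ((∏ i, Algebra.norm ℚ (a i) : ℚ) : L) = ∏ y, ψ y (a _) := by
  classical
  choose w hw using fun x : Σ i, E i →ₐ[ℚ] L => h2 x.1 (x.2 : E x.1 →+* L)
  rw [← eq_ratCast (algebraMap ℚ L), map_prod]
  simp only [Algebra.norm_eq_prod_embeddings]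
  rw [← Fintype.prod_sigma' (f := fun i (σ : E i →ₐ[ℚ] L) => σ (a i))]
  refine Fintype.prod_bijective w ⟨?_, fun y => ⟨⟨_, (ψ y).toRatAlgHom⟩, h1 (hw _ U).symm⟩⟩ _ _
    fun x => hw x a
  rintro ⟨i, χ⟩ ⟨i', χ'⟩ e
  have k : ∀ b : ∀ i, E i, χ (b i) = χ' (b i') := fun b =>
    (hw ⟨i, χ⟩ b).trans (e ▸ (hw ⟨i', χ'⟩ b).symm)
  obtain rfl : i = i' := by_contra fun h => by simpa [h, Ne.symm h] using k (Pi.single i 1)
  rw [show χ = χ' from AlgHom.ext fun x => by simpa using k (Pi.single i x)]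

theorem d_alg : DAlg := by
  intro e k n A P Q r p π G
  obtain ⟨κ, _, E, _, _, c, U, g, t, ψ, hr, cj, cU, hψ, hg, al, co⟩ :=
    exists_fld G.v_inj (fun s => (G.gal s).1) G.norm_v
  have val : ∀ a y, aeval (π.v y) (g a) = ψ y (a _) := fun a y => by rw [← hψ, aeval_hom, hg]
  have nm : ∀ a x, π.nm (aeval · (g a)) x = ∏ j, ψ (π.io x.2 j, x.1 j) (a _) := fun a x =>
    prod_congr rfl fun j _ => val a _
  have dv : ∀ {h : ℚ[X]}, (∀ x, aeval (π.th r x) h = 0) → Q ∣ h := dvd_of_root G.th_inj G.fac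
  choose f _ f1 _ using fun a => interp G.th_inj (π.nm (aeval · (g a))) fun s x =>
    ((G.gal s).2 x).imp fun x' h => ⟨h.1, h.2.2.2 _⟩
  obtain ⟨Fa, -, a1, -⟩ := interp G.th_inj (fun x => π.al x.2) fun s x =>
    ((G.gal s).2 x).imp fun x' h => ⟨h.1, h.2.1⟩
  obtain ⟨Fi, -, i1, -⟩ := interp G.th_inj (fun x => (π.lam x)⁻¹) fun s x =>
    ((G.gal s).2 x).imp fun x' h => ⟨h.1, by rw [h.2.2.1, map_inv₀]⟩
  have hm : ∀ a : ∀ i, E i, ∃ m : ℚ[X], (∀ i, c i (a i) = a i) →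
      ∀ x, aeval (π.al x.2) m = π.nm (aeval · (g a)) x := fun a => by
    by_cases h : ∀ i, c i (a i) = a i
    · have k1 : ∀ x, π.nm (aeval · (g a)) (0, x.2) = π.nm (aeval · (g a)) x := fun x =>
        prod_congr rfl fun j _ => by
          rcases (by omega : x.1 j = 0 ∨ x.1 j = 1) with e | e <;> rw [e]
          · rfl
          · refine (congrArg (aeval · (g a)) (π.v_rev _ 1)).trans ?_
            simp only
            rw [val a (_, 1), ← hψ, ← map_inv₀, ← cU, aeval_hom, aeval_algHom_apply, hg, h]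
      obtain ⟨m, -, h1, -⟩ := interp π.al_inj (fun s => π.nm (aeval · (g a)) (0, s)) fun s x =>
        ((G.gal s).2 (0, x)).elim fun x' h => ⟨x'.2, h.2.1, (k1 x').trans (h.2.2.2 _)⟩
      exact ⟨m, fun _ x => (h1 _).trans (k1 x)⟩
    · exact ⟨0, fun h' => absurd h' h⟩
  choose mu m1 using hm
  obtain ⟨D₁, d1, d2⟩ := exists_den G.th_inj G.int_th
  obtain ⟨D₂, d3, d4⟩ := exists_mul (Sum.elim π.v fun y : _ × _ => (π.v y.1 - π.v y.2)⁻¹)
  have d5 : ∀ y, IsIntegral ℤ ((D₁ * D₂ : ℤ) * _ : Qbar) := fun y => by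
    rw [Int.cast_mul, mul_assoc]
    exact (isIntegral_intCast D₁).mul (d4 y)
  have den : ∀ h : ℚ[X], (∀ x, IsIntegral ℤ (aeval (π.th r x) h)) →
      ∃ g : ℤ[X], Q ∣ C ((D₁ * D₂ : ℤ) : ℚ) * h - g.map (Int.castRingHom ℚ) := fun h hh => by
    obtain ⟨q, hq⟩ := d2 _ hh fun s x => ((G.gal s).2 x).imp fun x' e =>
      ⟨e.1, by rw [e.1]; exact aeval_hom (s : Qbar →+* Qbar) _ _⟩
    refine ⟨C D₂ * q, dv fun x => ?_⟩
    rw [map_sub, ← algebraMap_int_eq, aeval_map_algebraMap, map_mul, map_mul, hq]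
    rw [aeval_C, aeval_C, map_intCast, eq_intCast, Int.cast_mul]
    ring
  have em : ∀ i, ∃ (φ : E i →+* ℂ) (y : _), jC (π.v y) = φ (U i) := fun i =>
    ⟨_, al ℂ jC i (Classical.arbitrary _)⟩
  have c2 : ∀ i a, c i (c i a) = a := fun i a => (em i).elim fun φ _ =>
    φ.injective (by rw [cj, cj, Complex.conj_conj])
  refine ⟨κ, _, E, _, _, ⟨{
    c := c, U := U, f := f, mu := mu, Fa := Fa, Fi := Fi, D := D₁ * D₂, cc := c2, cj := cj
    rank := fun i => (hr i).trans_eq (by simp [mul_comm])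
    cU := fun i => ?_
    intU := fun i => ?_
    D0 := mul_ne_zero d1 d3
    sep := G.sep
    Fa_eq := fun L _ _ _ x y hx hy h => ?_
    Fi_eq := dv fun x => ?_
    den := fun h hh => den h fun x => hh _ (G.root.2 ⟨x, rfl⟩)
    int := fun a b M ha hb => ?_
    f_rat := fun q => dv fun x => by simp [f1, nm]
    f_mul := fun a b => dv fun x => by simp [f1, nm, prod_mul_distrib]
    f_mu := fun a h => dv fun x => by rw [map_sub, aeval_comp, a1, m1 a h, f1, sub_self]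
    mu_eq := fun L _ _ _ z hz => ?_
    emb := fun L _ _ _ π' h => ?_ }⟩⟩
  · obtain ⟨φ, y, h⟩ := em i
    rw [cU, inv_mul_cancel₀]
    exact (map_ne_zero φ).1 (h ▸ norm_ne_zero_iff.1 ((G.norm_v y).trans_ne one_ne_zero))
  · obtain ⟨φ, y, h⟩ := em i
    refine (isIntegral_algHom_iff φ.toIntAlgHom φ.injective).1 ?_
    simpa [← h] using (G.int_v y).map jC.toIntAlgHom
  · let j : Qbar →+* L := (IsAlgClosed.lift : Qbar →ₐ[ℚ] L)
    obtain ⟨x, rfl⟩ := mem_rangeZ j G.mA hx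
    obtain ⟨y, rfl⟩ := mem_rangeZ j G.mP hy
    rw [aeval_homZ, map_eq_zero] at hx hy
    rw [← map_intCast j, ← map_mul, ← map_add, aeval_hom] at h ⊢
    obtain ⟨z, hz⟩ := G.root.1 ((map_eq_zero j).1 h)
    rw [← hz, a1, G.sepr _ _ _ _ (G.al _) hx (G.lam _) hy hz]
  · simp only [map_sub, map_mul, i1, a1, aeval_X]
    simp [Pre.th, π.lam_ne]
  · rcases eq_or_ne M 0 with rfl | hM
    · exact ⟨0, by simp⟩
    have M0 : (M : ℚ) ≠ 0 := Int.cast_ne_zero.2 hM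
    obtain ⟨q, hq⟩ := den (C (M : ℚ)⁻¹ * (f (a + M • b) - f a)) fun x => by
      obtain ⟨z, h1, h2⟩ := prod_diff univ
        (fun j => (ha _).map (ψ (π.io x.2 j, x.1 j)).toIntAlgHom)
        (fun j => (hb _).map (ψ (π.io x.2 j, x.1 j)).toIntAlgHom) M
      rwa [map_mul, aeval_C, map_inv₀, map_intCast,
        (inv_mul_eq_iff_eq_mul₀ (c := z) (Int.cast_ne_zero.2 hM)).2 (by simpa [f1, nm] using h2)]
    have := hq.mul_left (C (M : ℚ))
    rw [mul_sub, mul_left_comm, ← mul_assoc (C (M : ℚ)), ← C_mul, mul_inv_cancel₀ M0, C_1,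
      one_mul] at this
    exact ⟨q, this⟩
  · let j : Qbar →+* L := (IsAlgClosed.lift : Qbar →ₐ[ℚ] L)
    obtain ⟨z, rfl⟩ := mem_rangeZ j G.mA hz
    rw [aeval_homZ, map_eq_zero] at hz
    obtain ⟨s, rfl⟩ := G.surj z hz
    refine ⟨_, fun i => j.comp (ψ (π.io s i, 0)), fun a h => ?_⟩
    rw [aeval_hom, m1 a h (0, s), nm, map_prod]
    rfl
  · let j : Qbar →+* L := (IsAlgClosed.lift : Qbar →ₐ[ℚ] L)
    obtain ⟨π₀, rfl⟩ := Pre.pull j G.mA G.mP h.al h.lam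
    obtain ⟨⟨μ, μ1, μ2⟩, k1⟩ := G.agree ((Pre.of_map j).1 h)
    have k2 : ∀ y, (π₀.map j).v y = j (π.v (μ y)) := fun y => by rw [Pre.map_v, μ2]
    have k3 : Injective (π₀.map j).v := funext k2 ▸ j.injective.comp (G.v_inj.comp μ1.1)
    let χ : ∀ y : Fin n × Fin 2, E (t (μ (y.1, 1))) →+* L := fun y =>
      (j.comp (ψ _)).comp (if y.2 = 1 then RingHom.id _ else (c _).toRingEquiv.toRingHom)
    have k4 : ∀ y, χ y (U _) = (π₀.map j).v y := by
      rintro ⟨i, d⟩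
      fin_cases d
      · simpa [χ, cU, hψ, ← k2] using ((π₀.map j).v_rev i 1).symm
      · simp [χ, hψ, k2]
    have k5 : ∀ (a : ∀ i, E i) y, χ y (a _) = j (ψ (μ y) (a _)) := fun a y => by
      rw [← val, ← aeval_hom, ← k2, ← k4, aeval_hom, hg]
    have k6 : ∀ i (φ : E i →+* L), ∃ y, ∀ a : ∀ i, E i, φ (a i) = χ y (a _) := fun i φ => by
      obtain ⟨y, hy⟩ := al L j i φ
      obtain ⟨y, rfl⟩ := μ1.2 y
      exact ⟨y, fun a => by rw [k5, ← val, ← aeval_hom, hy, aeval_hom, hg]⟩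
    refine ⟨k3, fun y => ?_, fun y y' => ?_, fun i => t (μ (i, 1)), χ, k4, fun i d a => ?_,
      fun a x => ?_, k6, prod_norm χ U (funext k4 ▸ k3) k6, fun a => ⟨g a, hg a, fun T t1 t2 t3 m => ?_⟩⟩
    · simpa [k2] using (d5 (Sum.inl (μ y))).map j.toIntAlgHom
    · simpa [k2] using (d5 (Sum.inr (μ y, μ y'))).map j.toIntAlgHom
    · fin_cases d <;> simp [χ, c2, Fin.rev]
    · obtain ⟨x', h1, -, -, h2⟩ := k1 x
      rw [Pre.map_th, aeval_hom, ← h1, f1, h2, Pre.nm, map_prod]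
      exact prod_congr rfl fun i _ => by rw [k5, μ2, val]; rfl
    · refine map_ratCast j _ ▸ co a (T.comap j) (μ1.2.forall.2 fun y => ?_)
        (μ1.2.forall₂.2 fun y y' => ?_) (μ1.2.forall.2 fun y => ?_) m
      · simpa [k2] using t1 y
      · simpa [k2] using t2 y y'
      · simpa [k5] using t3 y

end Pool.Agent.MW.Dd
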