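import Pool.Agent.Lib.MP_23455a_nt.H3.CH

/-! Frobenius elements in a cyclic group that avoid finitely many subgroups of large index. -/

set_option autoImplicit false

open scoped NNReal Classical
open Filter Topology Finset NumberField Asymptotics

namespace Pool.Agent.MW.Dd

open Pool.Agent.Lib.MP_696deb_nt.B2
open Pool.Agent.Lib.MP_aed2da_nt.QC (pw w_nonneg pw_nonneg pw_le summable_pw P_bigO w_le_half)

/-- Few sets of primes of small upper density do not cover. -/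
theorem ch_an {K ι : Type} [Field K] [NumberField K] [Fintype ι] {m : ℕ}
    (hm : Fintype.card ι < m) (T : ι → Set (Ideal (𝓞 K))) (g : ι → ℝ → ℝ)
    (hg : ∀ i, (fun s => g i s + Real.log (s - 1)) =O[𝓝[>] 1] fun _ => (1 : ℝ))
    (h : ∀ i (s : ℝ), 1 < s → ∀ u : Finset (Ideal (𝓞 K)), (∀ P ∈ u, P ∈ T i) →
      m * ∑ P ∈ u, pw s P ≤ g i s) (B : Finset ℕ) :
    ∃ P : Ideal (𝓞 K), P.IsMaximal ∧ (Ideal.absNorm P).Prime ∧ Ideal.absNorm P ∉ B ∧
      ∀ i, P ∉ T i := by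
  by_contra hcon
  have hfin : {Q : Ideal (𝓞 K) | Ideal.absNorm Q ∈ B}.Finite :=
    (B.finite_toSet.biUnion fun n _ => Ideal.finite_setOfPred_absNorm_eq (S := 𝓞 K) n).subset
      fun Q hQ => Set.mem_biUnion hQ rfl
  obtain ⟨C, hC⟩ : ∃ C : ℝ, ∀ s : ℝ, 1 < s →
      m * ∑' P : Ideal (𝓞 K), pw s P ≤ m * C + ∑ i, g i s := by
    refine ⟨hfin.toFinset.card + Module.finrank ℤ (𝓞 K) * ∑' p : ℕ, 1 / (p : ℝ) ^ 2,
      fun s hs => ?_⟩
    rw [← tsum_mul_left]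
    refine ((summable_pw hs).mul_left _).tsum_le_of_sum_le fun u => ?_
    have h2 : ∀ Q ∈ u, pw s Q ≤ (if Q ∈ hfin.toFinset then 1 else 0) +
        (if Q.IsMaximal ∧ ¬ (Ideal.absNorm Q).Prime then Lib.MP_aed2da_nt.QC.w s Q else 0) +
        ∑ i, (if Q ∈ T i then pw s Q else 0) := by
      intro Q _
      have k0 := w_nonneg s Q
      have k0' := pw_nonneg s Q
      have k1 : (0 : ℝ) ≤ if Q ∈ hfin.toFinset then 1 else 0 := by positivity
      have k2 : 0 ≤ if Q.IsMaximal ∧ ¬ (Ideal.absNorm Q).Prime then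
        Lib.MP_aed2da_nt.QC.w s Q else 0 := by positivity
      have k3 : ∀ i ∈ (univ : Finset ι), 0 ≤ if Q ∈ T i then pw s Q else 0 :=
        fun i _ => by positivity
      have k4 := sum_nonneg k3
      by_cases hm : Q.IsMaximal
      · by_cases hp : (Ideal.absNorm Q).Prime
        · by_cases hB : Ideal.absNorm Q ∈ B
          · rw [if_pos (hfin.mem_toFinset.2 hB)]
            linarith [w_le_half hs.le hm, pw_le s Q]
          · obtain ⟨i, hi⟩ : ∃ i, Q ∈ T i := by_contra fun k =>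
              hcon ⟨Q, hm, hp, hB, not_exists.1 k⟩
            have := single_le_sum k3 (mem_univ i)
            rw [if_pos hi] at this
            linarith
        · rw [if_pos (⟨hm, hp⟩ : Q.IsMaximal ∧ ¬ (Ideal.absNorm Q).Prime)]
          linarith [pw_le s Q]
      · have k5 : pw s Q = 0 := if_neg hm
        linarith
    rw [← mul_sum]
    refine (mul_le_mul_of_nonneg_left (sum_le_sum h2) m.cast_nonneg).trans ?_
    rw [sum_add_distrib, sum_add_distrib, sum_comm, ← sum_filter, ← sum_filter, sum_const,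
      nsmul_eq_mul, mul_one, mul_add, mul_sum]
    refine add_le_add (mul_le_mul_of_nonneg_left (add_le_add (Nat.cast_le.2 (card_le_card
      fun Q hQ => (mem_filter.1 hQ).2)) (ch1_high hs _ fun Q hQ => (mem_filter.1 hQ).2))
      m.cast_nonneg) (sum_le_sum fun i _ => ?_)
    rw [← sum_filter]
    exact h i s hs _ fun P hP => (mem_filter.1 hP).2
  obtain ⟨c, hc⟩ := (P_bigO K).bound
  obtain ⟨d, hd⟩ := (IsBigO.sum fun i (_ : i ∈ (univ : Finset ι)) => hg i).bound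
  refine ch1_log (IsBigO.of_bound (m * C + m * c + d) ?_)
  filter_upwards [hc, hd, Ioo_mem_nhdsGT one_lt_two] with s k1 k2 hs
  have k4 := hC s hs.1
  have k5 : Real.log (s - 1) ≤ 0 := Real.log_nonpos (by linarith [hs.1]) (by linarith [hs.2])
  have k6 : (Fintype.card ι : ℝ) + 1 ≤ m := by exact_mod_cast hm
  rw [norm_one, mul_one, Real.norm_eq_abs] at k1 k2 ⊢
  rw [Finset.sum_apply, sum_add_distrib, sum_const, card_univ, nsmul_eq_mul] at k2
  rw [abs_of_nonpos k5]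
  nlinarith [(abs_le.1 k1).1, (abs_le.1 k2).2, mul_le_mul_of_nonneg_left (abs_le.1 k1).1 m.cast_nonneg]

/-- A Frobenius element that is a power of `r s` with an exponent outside of given subgroups. -/
theorem cheb {H : Subgroup Gam} {G ι : Type} [Group G] [Finite G] [Fintype ι] (r : H →* G)
    (hr : Op (r.ker.map H.subtype)) (s : H) (Z : ι → AddSubgroup ℤ)
    (h0 : ∀ i (n : ℤ), r s ^ n = 1 → n ∈ Z i)
    (h1 : ∀ i (d : ℕ), 0 < d → d ≤ Fintype.card ι → (d : ℤ) ∉ Z i) (B : Finset ℕ) :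
    ∃ (w : Plc) (φ : H) (a : ℕ), w.p ∉ B ∧ IsFrob w w.p φ ∧ r φ = r s ^ a ∧ ∀ i, (a : ℤ) ∉ Z i := by
  obtain ⟨J, hJ⟩ : ∃ J : AddSubgroup ℤ → Subgroup Gam, ∀ Y g, g ∈ J Y ↔
      ∃ h : g ∈ H, ∃ n ∈ Y, r s ^ n = r ⟨g, h⟩ := by
    refine ⟨fun Y => ((Y.toSubgroup.map (zpowersHom G (r s))).comap r).map H.subtype,
      fun Y g => ⟨?_, ?_⟩⟩
    · rintro ⟨x, ⟨n, hn, e⟩, rfl⟩
      exact ⟨x.2, n.toAdd, hn, e⟩
    · rintro ⟨h, n, hn, e⟩
      exact ⟨⟨g, h⟩, ⟨.ofAdd n, hn, e⟩, rfl⟩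
  have ho : ∀ Y, Op (J Y) := fun Y => Subgroup.isOpen_mono (by
    rintro _ ⟨x, hx, rfl⟩
    exact (hJ Y _).2 ⟨x.2, 0, zero_mem _, (zpow_zero _).trans (MonoidHom.mem_ker.1 hx).symm⟩) hr
  obtain ⟨K, _, _, j, hj⟩ := ch2_field (ho ⊤)
  obtain ⟨S, hS⟩ := ch2_fix j
  choose L _ _ T hT using fun i => H3.ch3_bound (ho (Z i)) (fun g hg => by
      obtain ⟨h, n, -, e⟩ := (hJ _ g).1 hg
      exact (hJ ⊤ g).2 ⟨h, n, trivial, e⟩) (fun g hg φ hφ => by
      obtain ⟨h, a, -, e⟩ := (hJ ⊤ g).1 hg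
      obtain ⟨h', n, hn, e'⟩ := (hJ _ φ).1 hφ
      refine (hJ _ _).2 ⟨mul_mem (mul_mem h h') (inv_mem h), n, hn, ?_⟩
      change _ = r (⟨g, h⟩ * ⟨φ, h'⟩ * (⟨g, h⟩ : H)⁻¹)
      rw [map_mul, map_mul, map_inv, ← e, ← e', zpow_mul_comm, mul_inv_cancel_right])
    (m := Fintype.card ι + 1) (fun k => (s : Gam) ^ (k : ℕ))
    (fun k => pow_mem ((hJ ⊤ s).2 ⟨s.2, 1, trivial, zpow_one _⟩) _) (H3.ch3_rep fun d d0 d1 e => by
      obtain ⟨h, n, hn, e⟩ := (hJ _ _).1 e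
      change _ = r (s ^ d) at e
      refine h1 i d d0 (by omega) ?_
      simpa using sub_mem hn (h0 i (n - d) (by rw [zpow_sub, e, map_pow, zpow_natCast, mul_inv_cancel])))
    j hj
  obtain ⟨P, a1, a2, a3, a4⟩ := ch_an (Nat.lt_succ_self _) _ _ (fun i => P_bigO (L i)) hT
    (B ∪ (S ∪ univ.biUnion T))
  obtain ⟨v, hv, rfl⟩ := ch2_plc j a1 a2
  obtain ⟨φ, hφ⟩ := exists_frob v
  rw [← hv, mem_union, mem_union, not_or, not_or] at a3
  obtain ⟨h, n, -, e⟩ := (hJ ⊤ φ).1 (mem_of_fx (ho ⊤).closed fun x hx => by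
    obtain ⟨y, rfl⟩ := (hj x).1 hx
    exact hS v φ a3.2.1 a1 hv hφ y)
  obtain ⟨a, ha⟩ := (mem_powers_iff_mem_zpowers.2 ⟨n, e⟩ : r ⟨φ, h⟩ ∈ Submonoid.powers (r s))
  refine ⟨v, ⟨φ, h⟩, a, a3.1, hφ, ha.symm, fun i k => a4 i ⟨v, φ, fun k => a3.2.2
    (mem_biUnion.2 ⟨i, mem_univ _, k⟩), rfl, hv, hφ, (hJ _ _).2 ⟨h, a, k, ?_⟩⟩⟩
  rw [zpow_natCast]
  exact ha

end Pool.Agent.MW.Dd
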