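import Mathlib

/-! Block D of MW: three independent lemmas. -/

set_option autoImplicit false

open Matrix Polynomial

namespace Pool.Agent.MW

/-- L1: a matrix that commutes with `b` is a polynomial in `b + r a` (work on eigenvectors of
`b + r a`: the eigenspaces are lines and span). -/
theorem com_eq {Ω ι : Type} [Field Ω] [IsAlgClosed Ω] [Fintype ι] [DecidableEq ι]
    {a b : Matrix ι ι Ω} (hab : Commute a b) (r : Ω) (hs : (b + r • a).charpoly.Separable)
    {A P F : Polynomial Ω} (hA : aeval a A = 0) (hP : aeval b P = 0)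
    (hF : ∀ x y, A.eval x = 0 → P.eval y = 0 → (b + r • a).charpoly.eval (y + r * x) = 0 →
      F.eval (y + r * x) = x) : aeval (b + r • a) F = a := by
  let e : Matrix ι ι Ω ≃ₐ[Ω] Module.End Ω (ι → Ω) := Matrix.toLinAlgEquiv'
  have hc : (e (b + r • a)).charpoly = (b + r • a).charpoly := Matrix.charpoly_toLin' _
  have hss : (e (b + r • a)).IsSemisimple :=
    Module.End.isSemisimple_of_squarefree_aeval_eq_zero (hc ▸ hs.squarefree)
      (LinearMap.aeval_self_charpoly _)
  have hcm : Commute (e a) (e (b + r • a)) :=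
    (hab.add_right ((Commute.refl a).smul_right r)).map e
  have ev : ∀ (m : Matrix ι ι Ω) (q : Polynomial Ω) (x : Ω) (v : ι → Ω), v ≠ 0 → e m v = x • v →
      e (aeval m q) v = q.eval x • v := fun m q x v hv h => by
    rw [← aeval_algHom_apply e m q]
    exact Module.End.aeval_apply_of_hasEigenvector ⟨Module.End.mem_eigenspace_iff.2 h, hv⟩
  apply e.injective
  refine LinearMap.ext fun v => ?_
  have hv : v ∈ ⨆ μ, (e (b + r • a)).eigenspace μ := hss.iSup_eigenspace_eq_top ▸ Submodule.mem_top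
  induction hv using Submodule.iSup_induction' with
  | zero => simp
  | add x y _ _ hx hy => rw [map_add, map_add, hx, hy]
  | mem μ v hv =>
    by_cases h0 : v = 0
    · simp [h0]
    have h1 : Module.finrank Ω ((e (b + r • a)).eigenspace μ) ≤ 1 :=
      (LinearMap.finrank_eigenspace_le _ μ).trans
        (rootMultiplicity_le_one_of_separable (hc ▸ hs) μ)
    have hv' := Module.End.mem_eigenspace_iff.1 hv
    have h2 : e a v ∈ (e (b + r • a)).eigenspace μ := by
      rw [Module.End.mem_eigenspace_iff, ← Module.End.mul_apply, ← hcm.eq, Module.End.mul_apply,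
        hv', map_smul]
    obtain ⟨u, hu⟩ := finrank_le_one_iff.1 h1
    obtain ⟨c1, e1⟩ := hu ⟨v, hv⟩
    obtain ⟨c2, e2⟩ := hu ⟨_, h2⟩
    have e1' : c1 • u.1 = v := congrArg Subtype.val e1
    have e2' : c2 • u.1 = e a v := congrArg Subtype.val e2
    have hc1 : c1 ≠ 0 := fun h => h0 (by rw [← e1', h, zero_smul])
    have ha : e a v = (c2 / c1) • v := by
      rw [← e2', ← e1', smul_smul, div_mul_cancel₀ _ hc1]
    set x := c2 / c1
    have hb : e b v = (μ - r * x) • v := by
      rw [map_add, map_smul, LinearMap.add_apply, LinearMap.smul_apply, ha, smul_smul] at hv'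
      rw [sub_smul, ← hv', add_sub_cancel_right]
    have z : ∀ (m : Matrix ι ι Ω) (q : Polynomial Ω) (x : Ω), e m v = x • v → aeval m q = 0 →
        q.eval x = 0 := fun m q x h hq => by
      have := ev m q x v h0 h
      rw [hq, map_zero, LinearMap.zero_apply] at this
      exact (smul_eq_zero.1 this.symm).resolve_right h0
    have hμ : μ - r * x + r * x = μ := sub_add_cancel _ _
    have := hF x (μ - r * x) (z a A x ha hA) (z b P _ hb hP)
      (by rw [hμ]; exact z _ _ μ hv' (Matrix.aeval_self_charpoly _))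
    rw [hμ] at this
    rw [ev _ F μ v h0 hv', this, ha]

section
variable {l : ℕ} [Fact l.Prime]

theorem dl_norm (x : ℤ_[l]) : ‖algebraMap ℤ_[l] (PadicAlgCl l) x‖ = ‖x‖ := by
  rw [IsScalarTower.algebraMap_apply ℤ_[l] ℚ_[l] (PadicAlgCl l), norm_algebraMap']
  rfl

theorem dl_l : ‖(l : PadicAlgCl l)‖ < 1 := by
  rw [← map_natCast (algebraMap ℤ_[l] _), dl_norm, PadicInt.norm_p]
  exact inv_lt_one_of_one_lt₀ (by exact_mod_cast (Fact.out : l.Prime).one_lt)

theorem dl_int {z : PadicAlgCl l} (h : IsIntegral ℤ_[l] z) : ‖z‖ ≤ 1 := by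
  obtain ⟨f, hf, h⟩ := h
  refine (Valuation.integer.integers (NormedField.valuation (K := PadicAlgCl l))).mem_of_integral
    ⟨f.map ((algebraMap ℤ_[l] (PadicAlgCl l)).codRestrict _ fun x =>
      (dl_norm x).trans_le x.2), hf.map _, ?_⟩
  rw [eval₂_map]
  exact h

end

/-- L2a: the roots of a polynomial that is separable modulo `l` are distinct modulo the maximal
ideal. -/
theorem root_far {l n : ℕ} [Fact l.Prime] {c : ℤ_[l][X]} (hc : c.Monic) (hn : c.natDegree = n)
    (hs : (c.map PadicInt.toZMod).Separable) {t : Fin n → PadicAlgCl l}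
    (ht : ∀ i, aeval (t i) c = 0) (hi : Function.Injective t) {i j : Fin n} (h : i ≠ j) :
    ‖t i - t j‖ = 1 := by
  have _ := hn
  have h1 : ∀ i (q : ℤ_[l][X]), ‖aeval (t i) q‖ ≤ 1 := fun i q =>
    dl_int (adjoin_le_integralClosure ⟨c, hc, ht i⟩ (aeval_mem_adjoin_singleton _ _))
  have h2 : t i ≠ t j := fun e => h (hi e)
  obtain ⟨a, b, hab⟩ := hs
  have hs : Function.Surjective (Polynomial.map (PadicInt.toZMod (p := l))) :=
    map_surjective _ (ZMod.ringHom_surjective _)
  obtain ⟨a, rfl⟩ := hs a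
  obtain ⟨b, rfl⟩ := hs b
  obtain ⟨s, e⟩ : C (l : ℤ_[l]) ∣ a * c + b * derivative c - 1 :=
    (C_dvd_iff_dvd_coeff _ _).2 fun k => by
      rw [← Ideal.mem_span_singleton, ← PadicInt.maximalIdeal_eq_span_p, ← PadicInt.ker_toZMod,
        RingHom.mem_ker, ← coeff_map, Polynomial.map_sub, Polynomial.map_add, Polynomial.map_mul,
        Polynomial.map_mul, ← derivative_map, hab, Polynomial.map_one, sub_self, coeff_zero]
  have h3 := congrArg (aeval (t i)) e
  simp only [map_sub, map_add, map_mul, ht, mul_zero, zero_add, map_one, map_natCast] at h3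
  have h4 : ‖aeval (t i) b‖ * ‖aeval (t i) (derivative c)‖ = 1 := by
    have h7 : ‖(l : PadicAlgCl l) * aeval (t i) s‖ < ‖(1 : PadicAlgCl l)‖ := by
      rw [norm_one, norm_mul]
      exact mul_lt_one_of_nonneg_of_lt_one_left (norm_nonneg _) dl_l (h1 i s)
    rw [← norm_mul, eq_add_of_sub_eq' h3,
      IsUltrametricDist.norm_add_eq_max_of_norm_ne_norm h7.ne', max_eq_left h7.le, norm_one]
  let y : Fin n → integralClosure ℤ_[l] (PadicAlgCl l) := fun i => ⟨t i, c, hc, ht i⟩
  obtain ⟨k', hk'⟩ := (c.map (algebraMap ℤ_[l] _)).binomExpansion (y i) (y j - y i)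
  rw [add_sub_cancel, derivative_map, eval_map_algebraMap, eval_map_algebraMap,
    eval_map_algebraMap] at hk'
  have h5 := congrArg (integralClosure ℤ_[l] (PadicAlgCl l)).val hk'
  simp only [map_add, map_mul, map_pow, map_sub, ← aeval_algHom_apply] at h5
  change aeval (t j) _ = aeval (t i) _ + aeval (t i) _ * (t j - t i) + k' * (t j - t i) ^ 2 at h5
  have h6 : aeval (t i) (derivative c) = k' * (t i - t j) :=
    mul_right_cancel₀ (sub_ne_zero.2 h2) (by linear_combination h5 - ht j + ht i)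
  refine le_antisymm (dl_int (y i - y j).2) (h4.ge.trans ?_)
  rw [h6, norm_mul]
  exact (mul_le_of_le_one_left (by positivity) (h1 i b)).trans
    (mul_le_of_le_one_left (norm_nonneg _) (dl_int k'.2))

/-- the degree count over a field of characteristic `l` -/
theorem dl_count {k : Type} [Field k] {l n M : ℕ} [CharP k l] (hl : n + n * M * (2 * M + 1) ^ n < l)
    {τ : Fin n → k} (hτ : Function.Injective τ) :
    ∃ x : ℕ, (∀ i, (x : k) + τ i ≠ 0) ∧ ∀ c : Fin n → ℤ, c ≠ 0 → (∀ i, |c i| ≤ M) →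
      ∏ i, ((x : k) + τ i) ^ (c i).toNat - ∏ i, ((x : k) + τ i) ^ (-c i).toNat ≠ 0 := by
  classical
  let S : Finset (Fin n → ℤ) := (Fintype.piFinset fun _ => Finset.Icc (-(M : ℤ)) M).erase 0
  let Pm : (Fin n → ℕ) → k[X] := fun d => ∏ i, (X + C (τ i)) ^ d i
  let Pc : (Fin n → ℤ) → k[X] := fun c => Pm (fun i => (c i).toNat) - Pm fun i => (-c i).toNat
  have hdm : ∀ d : Fin n → ℕ, (∀ i, d i ≤ M) → (Pm d).natDegree ≤ n * M := fun d hd => by
    refine (natDegree_prod_le _ _).trans ((Finset.sum_le_card_nsmul _ _ M fun i _ => ?_).trans ?_)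
    · exact natDegree_pow_le.trans (by rw [natDegree_X_add_C, mul_one]; exact hd i)
    · simp
  have hev : ∀ (d : Fin n → ℕ) (i : Fin n), (Pm d).eval (-τ i) = 0 ↔ d i ≠ 0 := fun d i => by
    simp only [Pm, eval_prod, eval_pow, eval_add, eval_X, eval_C, Finset.prod_eq_zero_iff,
      Finset.mem_univ, true_and, pow_eq_zero_iff', neg_add_eq_zero, hτ.eq_iff]
    exact ⟨fun ⟨j, h1, h2⟩ => h1 ▸ h2, fun h => ⟨i, rfl, h⟩⟩
  have hne : ∀ c ∈ S, Pc c ≠ 0 := fun c hc h => by
    obtain ⟨i, hi⟩ := Function.ne_iff.1 (Finset.ne_of_mem_erase hc)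
    have h1 := (hev (fun i => (c i).toNat) i).symm.trans
      ((sub_eq_zero.1 h ▸ Iff.rfl : (Pm fun i => (c i).toNat).eval (-τ i) = 0 ↔
        (Pm fun i => (-c i).toNat).eval (-τ i) = 0).trans (hev (fun i => (-c i).toNat) i))
    simp only [Pi.zero_apply] at hi
    omega
  have hdc : ∀ c ∈ S, (Pc c).natDegree ≤ n * M := fun c hc => by
    have h1 := fun i => Finset.mem_Icc.1 (Fintype.mem_piFinset.1 (Finset.mem_of_mem_erase hc) i)
    exact (natDegree_sub_le _ _).trans (max_le (hdm _ fun i => by have := h1 i; omega)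
      (hdm _ fun i => by have := h1 i; omega))
  have hS : S.card ≤ (2 * M + 1) ^ n := by
    refine Finset.card_erase_le.trans (le_of_eq ?_)
    rw [Fintype.card_piFinset, Finset.prod_const, Finset.card_univ, Fintype.card_fin, Int.card_Icc]
    exact congrArg (· ^ n) (by omega)
  let Q : k[X] := (∏ i, (X + C (τ i))) * ∏ c ∈ S, Pc c
  have hQ : Q ≠ 0 := mul_ne_zero (Finset.prod_ne_zero_iff.2 fun i _ => X_add_C_ne_zero _)
    (Finset.prod_ne_zero_iff.2 hne)
  have hd : Q.natDegree < l := by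
    refine lt_of_le_of_lt (natDegree_mul_le.trans (add_le_add ?_ ?_)) hl
    · refine (natDegree_prod_le _ _).trans (le_of_eq ?_)
      simp
    · refine (natDegree_prod_le _ _).trans ((Finset.sum_le_card_nsmul _ _ _ hdc).trans ?_)
      rw [smul_eq_mul, mul_comm]
      exact Nat.mul_le_mul_left _ hS
  obtain ⟨x, hx⟩ : ∃ x : Fin l, Q.eval ((x : ℕ) : k) ≠ 0 := by
    by_contra! h
    refine hQ (eq_zero_of_natDegree_lt_card_of_eval_eq_zero Q (f := fun x : Fin l => ((x : ℕ) : k))
      (fun x y e => Fin.ext (CharP.natCast_injOn_Iio k l x.2 y.2 e)) h (by simpa using hd))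
  rw [eval_mul, eval_prod, eval_prod, mul_ne_zero_iff, Finset.prod_ne_zero_iff,
    Finset.prod_ne_zero_iff] at hx
  refine ⟨x, fun i => by simpa using hx.1 i (Finset.mem_univ i), fun c hc hM => ?_⟩
  have := hx.2 c (Finset.mem_erase.2 ⟨hc, Fintype.mem_piFinset.2 fun i =>
    Finset.mem_Icc.2 (abs_le.1 (hM i))⟩)
  simpa only [Pc, Pm, eval_sub, eval_prod, eval_pow, eval_add, eval_X, eval_C] using this

/-- L2b: the degree count. In the residue field the equation
`prod (X + t i) ^ (c i)_+ = prod (X + t i) ^ (c i)_-` is not an identity and has degree at most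
`n M`; the numbers `0, ..., l - 1` are distinct there. -/
theorem exists_w {l n M : ℕ} [Fact l.Prime] (hl : n + n * M * (2 * M + 1) ^ n < l)
    {t : Fin n → PadicAlgCl l} (h1 : ∀ i, ‖t i‖ ≤ 1) (h2 : ∀ i j, i ≠ j → ‖t i - t j‖ = 1) :
    ∃ x : ℕ, (∀ i, ‖(x : PadicAlgCl l) + t i‖ = 1) ∧ ∀ c : Fin n → ℤ, c ≠ 0 → (∀ i, |c i| ≤ M) →
      ‖∏ i, ((x : PadicAlgCl l) + t i) ^ c i - 1‖ = 1 := by
  let v := NormedField.valuation (K := PadicAlgCl l)
  let res := IsLocalRing.residue v.integer
  have key : ∀ z : v.integer, res z ≠ 0 ↔ ‖(z : PadicAlgCl l)‖ = 1 := fun z => by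
    rw [IsLocalRing.residue_ne_zero_iff_isUnit,
      (Valuation.integer.integers v).isUnit_iff_valuation_eq_one]
    exact NNReal.coe_inj.symm
  let y : Fin n → v.integer := fun i => ⟨t i, h1 i⟩
  have hτ : Function.Injective fun i => res (y i) := fun i j e => by
    by_contra h
    exact (key (y i - y j)).2 (h2 i j h) (by rw [map_sub]; exact sub_eq_zero.2 e)
  have : CharP (IsLocalRing.ResidueField v.integer) l :=
    (CharP.charP_iff_prime_eq_zero Fact.out).2 (by
      by_contra h
      exact dl_l.ne ((key (l : v.integer)).1 (by rwa [map_natCast])))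
  obtain ⟨x, hx1, hx2⟩ := dl_count hl hτ
  have hu : ∀ i, ‖(x : PadicAlgCl l) + t i‖ = 1 := fun i =>
    (key ((x : v.integer) + y i)).1 (by rw [map_add, map_natCast]; exact hx1 i)
  refine ⟨x, hu, fun c hc hM => ?_⟩
  have h3 := (key (∏ i, ((x : v.integer) + y i) ^ (c i).toNat -
      ∏ i, ((x : v.integer) + y i) ^ (-c i).toNat)).1 (by
    simpa only [map_sub, map_prod, map_pow, map_add, map_natCast] using hx2 c hc hM)
  have h4 : ‖∏ i, ((x : PadicAlgCl l) + t i) ^ (c i).toNat -
      ∏ i, ((x : PadicAlgCl l) + t i) ^ (-c i).toNat‖ = 1 := by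
    simpa [y] using h3
  have h5 : ‖∏ i, ((x : PadicAlgCl l) + t i) ^ (-c i).toNat‖ = 1 := by
    simp [norm_prod, hu]
  have h6 : ∏ i, ((x : PadicAlgCl l) + t i) ^ (c i).toNat =
      (∏ i, ((x : PadicAlgCl l) + t i) ^ c i) *
        ∏ i, ((x : PadicAlgCl l) + t i) ^ (-c i).toNat := by
    rw [← Finset.prod_mul_distrib]
    refine Finset.prod_congr rfl fun i _ => ?_
    have h0 : (x : PadicAlgCl l) + t i ≠ 0 := fun h => by simpa [h] using hu i
    rw [← zpow_natCast, ← zpow_natCast, ← zpow_add₀ h0]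
    exact congrArg _ (by omega)
  rw [h6, ← sub_one_mul, norm_mul, h5, mul_one] at h4
  exact h4

end Pool.Agent.MW
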