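import Pool.Agent.Lib.MP_d61fbb_ag.MW.Top
import Pool.Agent.Lib.MP_d61fbb_ag.MT.A6
import Pool.Agent.Lib.MP_d61fbb_ag.MT.CIn

/-! Block D: the choice of the place. -/

set_option autoImplicit false

noncomputable section

open Matrix Polynomial

namespace Pool.Agent.MT

variable [dm : Dim]

open Pool.Agent.Lib.MP_696deb_nt.B2 (Qbar Gam Plc Dec Ine IsFrob Op jC finite_supp)

theorem dpl_cp_sg (l l' : Pr) (a : ℚ_[l]) :
    cp l' (sg l a) = Pi.single (M := fun l : Pr => ℚ_[l]) l a l' := rfl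

theorem dpl_cp_mA (l : Pr) (π : ∀ l : Pr, GL (I2 gg) ℤ_[l]) (x : W) :
    (fun i => cp l ((mA π *ᵥ x) i)) = (π l).val.map (algebraMap ℤ_[l] ℚ_[l]) *ᵥ cpv l x :=
  funext fun i => (cp l).toRingHom.map_mulVec (mA π) x i

/-- The multiplier of the Frobenius operator. -/
theorem FSys.gs {k : Type} [Field k] {p : Pr} (S : FSys k p) {l : Pr} (hl : l ≠ p) :
    GS ((p : ℕ) : ℤ_[l]) (S.π l).val := by
  have key : ∀ x y : Vl l, ‖Ef ((S.π l).val.map (algebraMap ℤ_[l] ℚ_[l]) *ᵥ x)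
      ((S.π l).val.map (algebraMap ℤ_[l] ℚ_[l]) *ᵥ y) - (p : ℕ) * Ef x y‖ ≤ 1 := fun x y => by
    have h1 := S.frobe (sgv l x) (sgv l y)
    have h2 : S.e (Ef (mA S.π *ᵥ sgv l x) (mA S.π *ᵥ sgv l y) -
        (p : ℕ) • Ef (sgv l x) (sgv l y)) = 1 := by
      rw [AddChar.map_sub_eq_div, AddChar.map_nsmul_eq_pow, h1, div_self]
      exact pow_ne_zero _ (S.e.val_isUnit _).ne_zero
    have h3 := (S.ker _).1 h2 l fun e => hl (Subtype.ext e)
    have h4 : ∀ x : Vl l, cpv l (sgv l x) = x := fun x => funext fun i => by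
      simp [cpv, sgv, dpl_cp_sg]
    rwa [map_sub, map_nsmul, Ef_map, Ef_map, dpl_cp_mA, dpl_cp_mA, h4, h4, nsmul_eq_mul,
      show (fun i => cp l (sgv l x i)) = x from h4 x,
      show (fun i => cp l (sgv l y i)) = y from h4 y] at h3
  intro x y
  refine FaithfulSMul.algebraMap_injective ℤ_[l] ℚ_[l] ?_
  rw [map_mul, map_natCast, Ef_map, Ef_map]
  simp only [RingHom.map_mulVec]
  by_contra h
  have h0 := sub_ne_zero.2 h
  obtain ⟨c, hc⟩ := NormedField.exists_lt_norm ℚ_[l] 1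
  refine not_le.2 hc ((congrArg norm (div_mul_cancel₀ c h0)).symm.trans_le ?_)
  generalize c / _ = s
  have h1 := key (s • ((algebraMap ℤ_[l] ℚ_[l]) ∘ x)) ((algebraMap ℤ_[l] ℚ_[l]) ∘ y)
  rw [mulVec_smul, Ef_smul_left, Ef_smul_left, mul_left_comm, ← mul_sub] at h1
  exact h1

theorem dpl_ine (K : IntermediateField ℚ ℂ) [FiniteDimensional ℚ K] : ∃ s : Finset ℕ,
    ∀ w : Plc, w.p ∉ s → ∀ g ∈ Ine w, ∀ x, jC x ∈ K → g x = x := by
  classical
  let b := Module.finBasis ℚ K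
  choose y hy using fun i => mem_range_of_alg jC (y := (b i : ℂ))
    ((Algebra.IsIntegral.isIntegral (b i)).map K.val)
  obtain ⟨s, hs⟩ := exists_ine_fix (Finset.univ.image y)
  refine ⟨s, fun w hw g hg x hx => ?_⟩
  have e : x = ∑ i, b.repr ⟨_, hx⟩ i • y i := jC.injective (by
    have := congrArg K.val (b.sum_repr ⟨_, hx⟩)
    simp only [map_sum, map_rat_smul, IntermediateField.coe_val] at this
    simp only [map_sum, map_rat_smul, hy, this])
  rw [e, map_sum]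
  exact Finset.sum_congr rfl fun i _ => by
    rw [map_rat_smul, hs w hw g hg _ (Finset.mem_image_of_mem _ (Finset.mem_univ i))]

end Pool.Agent.MT
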