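import Pool.Agent.Lib.MP_d61fbb_ag.MW.SIA

/-! Arithmetic in an étale algebra, read through its embeddings. -/

set_option autoImplicit false

noncomputable section

namespace Pool.Agent.MT

open Matrix Polynomial Finset

section
variable {l : ℕ} [Fact l.Prime]

/-- the integers of the algebraic closure -/
def etO (l : ℕ) [Fact l.Prime] : Subring (PadicAlgCl l) where
  carrier := {x | ‖x‖ ≤ 1}
  mul_mem' ha hb := (norm_mul_le _ _).trans (mul_le_one₀ ha (norm_nonneg _) hb)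
  one_mem' := norm_one.le
  add_mem' ha hb := (IsUltrametricDist.norm_add_le_max _ _).trans (max_le ha hb)
  zero_mem' := norm_zero.le.trans zero_le_one
  neg_mem' ha := (norm_neg _).le.trans ha

/-- the absolute Galois group -/
abbrev GalP (l : ℕ) [Fact l.Prime] : Type := PadicAlgCl l ≃ₐ[ℚ_[l]] PadicAlgCl l

theorem et_gal (t : GalP l) (x : PadicAlgCl l) : ‖t x‖ = ‖x‖ :=
  (spectralNorm_eq_of_equiv t x).symm

theorem et_fix {x : PadicAlgCl l} (hx : ‖x‖ ≤ 1) (h : ∀ t : GalP l, t x = x) :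
    ∃ y : ℤ_[l], algebraMap _ _ y = x := by
  obtain ⟨y, rfl⟩ := (InfiniteGalois.mem_range_algebraMap_iff_fixed x).2 h
  exact ⟨⟨y, (PadicAlgCl.norm_extends l y).ge.trans hx⟩, rfl⟩

theorem et_l : ‖(l : PadicAlgCl l)‖ = (l : ℝ)⁻¹ := by
  rw [← map_natCast (algebraMap ℤ_[l] _), MW.dl_norm, PadicInt.norm_p]

theorem et_int (m : ℤ) : ‖(m : PadicAlgCl l)‖ ≤ 1 := intCast_mem (etO l) m

theorem et_nat {m : ℕ} (h : ¬ l ∣ m) : ‖(m : PadicAlgCl l)‖ = 1 := by
  rw [← map_natCast (algebraMap ℤ_[l] _), MW.dl_norm]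
  exact PadicInt.norm_natCast_eq_one_iff.2 ((Nat.Prime.coprime_iff_not_dvd Fact.out).2 h)

/-- An equivariant integral function is an integral polynomial. -/
theorem et_interp {ι : Type} [Fintype ι] {z : ι → PadicAlgCl l} (h1 : ∀ i, ‖z i‖ ≤ 1)
    (h2 : ∀ i j, i ≠ j → ‖z i - z j‖ = 1) (N : ι → PadicAlgCl l) (hN : ∀ i, ‖N i‖ ≤ 1)
    (h : ∀ (t : GalP l) i, ∃ i', z i' = t (z i) ∧ N i' = t (N i)) :
    ∃ f : ℤ_[l][X], ∀ i, aeval (z i) f = N i := by
  classical
  have hz : Function.Injective z := fun i j e => by_contra fun h => by simpa [e] using h2 i j h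
  have hd := Lagrange.degree_interpolate_lt (s := univ) N hz.injOn
  have he := fun i => Lagrange.eval_interpolate_at_node N hz.injOn (mem_univ i)
  have h3 : ∀ t : GalP l, (Lagrange.interpolate univ z N).map (t : _ →+* _) =
      Lagrange.interpolate univ z N := fun s => by
    choose t h1 h2 using h s
    refine eq_of_degrees_lt_of_eval_index_eq univ hz.injOn (degree_map_le.trans_lt hd) hd
      fun i _ => ?_
    obtain ⟨j, rfl⟩ := Finite.surjective_of_injective (f := t)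
      (fun a b e => hz (s.injective (by rw [← h1, e, h1]))) i
    rw [he, h1, h2, ← he j]
    exact eval_map_apply (s : PadicAlgCl l →+* PadicAlgCl l) (z j)
  have h4 : Lagrange.interpolate univ z N ∈ lifts (etO l).subtype := by
    rw [Lagrange.interpolate_apply]
    refine sum_mem fun i _ => ?_
    simp only [Lagrange.basis, Lagrange.basisDivisor, prod_mul_distrib, ← map_prod C,
      ← mul_assoc, ← C_mul]
    refine mul_mem (C'_mem_lifts ⟨⟨_, mul_mem (hN i) (prod_mem fun j hj => ?_)⟩, rfl⟩)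
      (prod_mem fun j _ => (liftsRing _).sub_mem (X_mem_lifts _) (C'_mem_lifts ⟨⟨_, h1 j⟩, rfl⟩))
    change ‖_‖ ≤ 1
    rw [norm_inv, h2 i j (mem_erase.1 hj).1.symm, inv_one]
  obtain ⟨f, hf⟩ : Lagrange.interpolate univ z N ∈ lifts (algebraMap ℤ_[l] (PadicAlgCl l)) :=
    (lifts_iff_coeff_lifts _).2 fun m => by
      obtain ⟨y, hy⟩ := (lifts_iff_coeff_lifts _).1 h4 m
      refine et_fix (hy ▸ y.2) fun t => ?_
      nth_rw 2 [← h3 t]
      rw [coeff_map]
      rfl
  exact ⟨f, fun i => by rw [← eval_map_algebraMap, show f.map _ = _ from hf, he]⟩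

/-- all entries have norm at most `r` -/
def Bd (G : M2 (PadicAlgCl l)) (r : ℝ) : Prop := ∀ a b, ‖G a b‖ ≤ r

theorem Bd.mul {G H : M2 (PadicAlgCl l)} {r s : ℝ} (h : Bd G r) (h' : Bd H s) :
    Bd (G * H) (r * s) := fun a b => by
  rw [mul_apply, Fin.sum_univ_two]
  refine (IsUltrametricDist.norm_add_le_max _ _).trans (max_le ?_ ?_) <;> rw [norm_mul] <;>
    exact mul_le_mul (h _ _) (h' _ _) (norm_nonneg _) ((norm_nonneg _).trans (h 0 0))

theorem Bd.conj {G c c' : M2 (PadicAlgCl l)} {r : ℝ} (h : Bd G r) (hc : Bd c 1) (hc' : Bd c' 1) :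
    Bd (c * G * c') r := by simpa using (hc.mul h).mul hc'

theorem bd_diag {x y : PadicAlgCl l} {r : ℝ} : Bd (diagonal ![x, y]) r ↔ ‖x‖ ≤ r ∧ ‖y‖ ≤ r :=
  ⟨fun h => ⟨by simpa using h 0 0, by simpa using h 1 1⟩, fun h a b => by
    have := (norm_nonneg _).trans h.1
    fin_cases a <;> fin_cases b <;> simp [h.1, h.2, this]⟩

theorem Bd.det {G : M2 (PadicAlgCl l)} {r : ℝ} (h : Bd G r) : ‖G.det‖ ≤ r * r := by
  rw [det_fin_two, sub_eq_add_neg]
  refine (IsUltrametricDist.norm_add_le_max _ _).trans (max_le ?_ ?_)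
  · rw [norm_mul]
    exact mul_le_mul (h _ _) (h _ _) (norm_nonneg _) ((norm_nonneg _).trans (h 0 0))
  · rw [norm_neg, norm_mul]
    exact mul_le_mul (h _ _) (h _ _) (norm_nonneg _) ((norm_nonneg _).trans (h 0 0))

theorem Bd.adj {G : M2 (PadicAlgCl l)} {r : ℝ} (h : Bd G r) : Bd G.adjugate r := fun a b => by
  rw [adjugate_fin_two]
  fin_cases a <;> fin_cases b <;> simp [h _ _]

theorem Bd.mono {G : M2 (PadicAlgCl l)} {r s : ℝ} (h : Bd G r) (hs : r ≤ s) : Bd G s :=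
  fun a b => (h a b).trans hs

end

theorem et_smith0 {O : Type} [CommRing O] {g : M2 O} (h : ∀ i j, g 0 0 ∣ g i j) :
    ∃ (k k' : M2 O) (d d' : O), k.det = 1 ∧ k'.det = 1 ∧ d ∣ d' ∧
      g = k * diagonal ![d, d'] * k' := by
  obtain ⟨b, hb⟩ := h 0 1
  obtain ⟨c, hc⟩ := h 1 0
  refine ⟨!![1, 0; c, 1], !![1, b; 0, 1], g 0 0, g 1 1 - g 0 0 * b * c, by simp, by simp,
    dvd_sub (h 1 1) ⟨b * c, by ring⟩, ?_⟩
  ext i j
  fin_cases i <;> fin_cases j <;>
    simp [mul_apply, Fin.sum_univ_two, vecMul_diagonal, hb, hc] <;> ring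

variable [dm : Dim] {e k n l : ℕ} [Fact l.Prime] {a : M8 ℤ} (D : Blk e k n l a)

namespace Blk

theorem s_le (i : Fin n) (x : D.R) : ‖D.s i x‖ ≤ 1 := sia_le D i x

theorem s_ext {x y : D.R} (h : ∀ i, D.s i x = D.s i y) : x = y :=
  sub_eq_zero.1 (D.eq_zero fun i => by rw [map_sub, h, sub_self])

theorem m_ext {x y : M2 D.R} (h : ∀ i, x.map (D.s i) = y.map (D.s i)) : x = y := by
  ext a b : 2
  exact D.s_ext fun i => congrFun (congrFun (h i) a) b

theorem bd (i : Fin n) (x : M2 D.R) : Bd (x.map (D.s i)) 1 := fun _ _ => D.s_le i _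

theorem s_det (i : Fin n) (x : M2 D.R) : D.s i x.det = (x.map (D.s i)).det :=
  AlgHom.map_det (D.s i) x

theorem s_root (i : Fin n) : aeval (D.s i (AdjoinRoot.root D.c)) D.c = 0 := by
  rw [aeval_algHom_apply, AdjoinRoot.aeval_eq, AdjoinRoot.mk_self, map_zero]

theorem root_inj : Function.Injective fun i => D.s i (AdjoinRoot.root D.c) := fun _ _ h =>
  D.inj (AdjoinRoot.algHom_ext h)

theorem root_dist {i j : Fin n} (h : i ≠ j) :
    ‖D.s i (AdjoinRoot.root D.c) - D.s j (AdjoinRoot.root D.c)‖ = 1 :=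
  MW.root_far D.monic D.deg D.sep D.s_root D.root_inj h

/-- the Galois group permutes the embeddings -/
theorem perm (t : GalP l) (i : Fin n) : ∃ j, ∀ x, t (D.s i x) = D.s j x := by
  classical
  let s := t.toAlgHom.restrictScalars ℤ_[l]
  have h0 : D.c.map (algebraMap ℤ_[l] (PadicAlgCl l)) ≠ 0 := (D.monic.map _).ne_zero
  have h1 : univ.image (fun i => D.s i (AdjoinRoot.root D.c)) =
      (D.c.map (algebraMap ℤ_[l] (PadicAlgCl l))).roots.toFinset := by
    refine eq_of_subset_of_card_le (fun x hx => ?_) ?_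
    · obtain ⟨j, -, rfl⟩ := mem_image.1 hx
      rw [Multiset.mem_toFinset, mem_roots h0, IsRoot, eval_map_algebraMap, D.s_root]
    · rw [card_image_of_injective _ D.root_inj, card_univ, Fintype.card_fin]
      exact (Multiset.toFinset_card_le _).trans ((card_roots' _).trans
        ((D.monic.natDegree_map _).trans D.deg).le)
  have h2 : s (D.s i (AdjoinRoot.root D.c)) ∈ univ.image fun i => D.s i (AdjoinRoot.root D.c) := by
    rw [h1, Multiset.mem_toFinset, mem_roots h0, IsRoot, eval_map_algebraMap, aeval_algHom_apply,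
      D.s_root, map_zero]
  obtain ⟨j, -, hj⟩ := mem_image.1 h2
  exact ⟨j, DFunLike.congr_fun (AdjoinRoot.algHom_ext (g₁ := s.comp (D.s i)) hj.symm)⟩

/-- Galois descent -/
theorem lift (y : Fin n → PadicAlgCl l) (hy : ∀ i, ‖y i‖ ≤ 1)
    (h : ∀ (t : GalP l) i j, (∀ x, t (D.s i x) = D.s j x) → t (y i) = y j) :
    ∃ x, ∀ i, D.s i x = y i := by
  obtain ⟨f, hf⟩ := et_interp (fun i => D.s_le i (AdjoinRoot.root D.c)) (fun _ _ => D.root_dist)
    y hy fun t i => (D.perm t i).imp fun j hj => ⟨(hj _).symm, (h t i j hj).symm⟩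
  exact ⟨aeval (AdjoinRoot.root D.c) f, fun i => by rw [← aeval_algHom_apply, hf]⟩

theorem dvd_iff {x y : D.R} : x ∣ y ↔ ∀ i, ‖D.s i y‖ ≤ ‖D.s i x‖ := by
  refine ⟨?_, fun h => ?_⟩
  · rintro ⟨z, rfl⟩ i
    rw [map_mul, norm_mul]
    exact mul_le_of_le_one_right (norm_nonneg _) (D.s_le i z)
  · obtain ⟨z, hz⟩ := D.lift (fun i => D.s i y / D.s i x)
      (fun i => by rw [norm_div]; exact div_le_one_of_le₀ (h i) (norm_nonneg _))
      fun t i j e => by rw [map_div₀, e, e]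
    refine ⟨z, D.s_ext fun i => ?_⟩
    rw [map_mul, hz]
    by_cases h0 : D.s i x = 0
    · rw [h0, zero_mul]
      exact norm_le_zero_iff.1 (by simpa [h0] using h i)
    · rw [mul_div_cancel₀ _ h0]

theorem unit_iff {x : D.R} : IsUnit x ↔ ∀ i, ‖D.s i x‖ = 1 := by
  rw [isUnit_iff_dvd_one, D.dvd_iff]
  simp only [map_one, norm_one]
  exact forall_congr' fun i => ⟨le_antisymm (D.s_le i x), fun h => h.ge⟩

theorem assoc {x y : D.R} (h : ∀ i, ‖D.s i x‖ = ‖D.s i y‖) (h0 : ∀ i, D.s i x ≠ 0) :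
    ∃ u, IsUnit u ∧ y = x * u := by
  obtain ⟨u, rfl⟩ := D.dvd_iff.2 fun i => (h i).ge
  refine ⟨u, D.unit_iff.2 fun i => ?_, rfl⟩
  have := h i
  rw [map_mul, norm_mul] at this
  exact (mul_left_cancel₀ (norm_ne_zero_iff.2 (h0 i)) ((mul_one _).trans this)).symm

/-- patching along the places -/
theorem patch (F : Fin n → ℤ) (h : ∀ i j, (∀ x, ‖D.s i x‖ = ‖D.s j x‖) → F i = F j) :
    ∃ x, ∀ i, D.s i x = F i :=
  D.lift _ (fun _ => et_int _) fun t i j e => by
    rw [map_intCast, h i j fun x => by rw [← e, et_gal]]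

theorem red {y : D.R} {N : ℕ} (h : (l : D.R) ∣ y ^ N) : (l : D.R) ∣ y := by
  obtain ⟨q, rfl⟩ := AdjoinRoot.mk_surjective y
  obtain ⟨w, hw⟩ := h
  obtain ⟨w, rfl⟩ := AdjoinRoot.mk_surjective w
  rw [← map_pow, ← map_natCast (AdjoinRoot.mk D.c), ← map_mul, AdjoinRoot.mk_eq_mk] at hw
  have h1 := Polynomial.map_dvd PadicInt.toZMod hw
  rw [Polynomial.map_sub, Polynomial.map_mul, Polynomial.map_natCast, Polynomial.map_pow,
    ← map_natCast C, ZMod.natCast_self, map_zero, zero_mul, sub_zero] at h1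
  obtain ⟨b, hb⟩ := D.sep.squarefree.isRadical N _ h1
  obtain ⟨b, rfl⟩ := map_surjective _ (ZMod.ringHom_surjective PadicInt.toZMod) b
  obtain ⟨r, hr⟩ : C (l : ℤ_[l]) ∣ q - D.c * b := by
    refine (C_dvd_iff_dvd_coeff _ _).2 fun n => Ideal.mem_span_singleton.1 ?_
    rw [← PadicInt.maximalIdeal_eq_span_p, ← PadicInt.ker_toZMod, RingHom.mem_ker, ← coeff_map]
    simp [hb]
  refine ⟨AdjoinRoot.mk _ r, ?_⟩
  rw [← map_natCast (AdjoinRoot.mk D.c), ← map_mul, ← map_natCast C, ← hr, map_sub, map_mul,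
    AdjoinRoot.mk_self, zero_mul, sub_zero]

/-- the algebra is unramified -/
theorem unr {i : Fin n} {x : D.R} (h : ‖D.s i x‖ < 1) : ‖D.s i x‖ ≤ (l : ℝ)⁻¹ := by
  classical
  obtain ⟨u, hu⟩ := D.patch (fun j => if ‖D.s j x‖ < 1 then 1 else 0) fun i j e => by rw [e]
  have h1 : ∀ j, ‖D.s j (u * x)‖ < 1 := fun j => by
    rw [map_mul, hu]
    split_ifs with h <;> simp [h]
  have h2 : (0 : ℝ) < (l : ℝ)⁻¹ := inv_pos.2 (Nat.cast_pos.2 (Fact.out : l.Prime).pos)
  choose N hN using fun j => exists_pow_lt_of_lt_one h2 (h1 j)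
  have h3 := D.dvd_iff.1 (D.red (y := u * x) (N := ∑ j, N j) (D.dvd_iff.2 fun j => by
    rw [map_pow, norm_pow, map_natCast, et_l]
    exact (pow_le_pow_of_le_one (norm_nonneg _) (h1 j).le
      (single_le_sum (f := N) (fun _ _ => Nat.zero_le _) (mem_univ j))).trans (hN j).le)) i
  rwa [map_natCast, et_l, map_mul, hu, if_pos h, Int.cast_one, one_mul] at h3

/-- the norms are powers of `l` -/
theorem val (i : Fin n) {x : D.R} (h : D.s i x ≠ 0) : ∃ m : ℕ, ‖D.s i x‖ = (l : ℝ)⁻¹ ^ m := by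
  classical
  have h1 : (1 : ℝ) < l := by exact_mod_cast (Fact.out : l.Prime).one_lt
  have h2 : (0 : ℝ) < (l : ℝ)⁻¹ := inv_pos.2 (by linarith)
  obtain ⟨N, hN⟩ := exists_pow_lt_of_lt_one (norm_pos_iff.2 h) (inv_lt_one_of_one_lt₀ h1)
  induction N generalizing x with
  | zero => exact absurd (D.s_le i x) (not_le.2 (by simpa using hN))
  | succ N ih =>
    rcases (D.s_le i x).eq_or_lt with e | e
    · exact ⟨0, by rw [e, pow_zero]⟩
    obtain ⟨u, hu⟩ := D.patch (fun j => if ‖D.s j x‖ < 1 then 1 else 0) fun i j e => by rw [e]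
    obtain ⟨y, hy⟩ : (l : D.R) ∣ u * x := D.dvd_iff.2 fun j => by
      rw [map_natCast, et_l, map_mul, hu]
      split_ifs with h
      · simpa using D.unr h
      · simp
    have h3 : ‖D.s i x‖ = (l : ℝ)⁻¹ * ‖D.s i y‖ := by
      have := congrArg (fun z => ‖D.s i z‖) hy
      simpa only [map_mul, hu, if_pos e, Int.cast_one, one_mul, norm_mul, map_natCast, et_l]
        using this
    obtain ⟨m, hm⟩ := ih (x := y) (fun e => h (norm_eq_zero.1 (by rw [h3, e]; simp)))
      (lt_of_mul_lt_mul_left (by rwa [← h3, ← pow_succ']) h2.le)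
    exact ⟨m + 1, by rw [h3, hm, pow_succ']⟩

/-- The normal form of Smith. -/
theorem smith (g : M2 D.R) : ∃ (k k' : M2 D.R) (d d' : D.R), k.det = 1 ∧ k'.det = 1 ∧ d ∣ d' ∧
    g = k * diagonal ![d, d'] * k' := by
  classical
  have h0 : ∀ f : Fin 2 × Fin 2 → ℝ, ∃ p, ∀ q, f q ≤ f p := fun f => Finite.exists_max f
  choose pk hpk using h0
  let p : Fin n → Fin 2 × Fin 2 := fun i => pk fun q => ‖D.s i (g q.1 q.2)‖
  have hp : ∀ i j, (∀ x, ‖D.s i x‖ = ‖D.s j x‖) → p i = p j := fun i j e => by simp only [p, e]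
  obtain ⟨u, hu⟩ := D.patch (fun i => ((p i).1 : ℕ)) fun i j e => by rw [hp i j e]
  obtain ⟨v, hv⟩ := D.patch (fun i => ((p i).2 : ℕ)) fun i j e => by rw [hp i j e]
  have h1 : ∀ {w : D.R} {q : Fin n → Fin 2}, (∀ i, D.s i w = (((q i : ℕ) : ℤ) : PadicAlgCl l)) →
      (1 - w) * (1 - w) + w * w = 1 := fun {w q} h => D.s_ext fun i => by
    simp only [map_add, map_mul, map_sub, map_one, h]
    generalize q i = z
    fin_cases z <;> simp
  have hu1 := h1 hu
  have hv1 := h1 hv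
  obtain ⟨k, k', d, d', k1, k2, k3, k4⟩ := et_smith0
    (g := !![1 - u, u; -u, 1 - u] * g * !![1 - v, -v; v, 1 - v]) fun a b => D.dvd_iff.2 fun i => by
      have e1 : D.s i ((!![1 - u, u; -u, 1 - u] * g * !![1 - v, -v; v, 1 - v]) 0 0) =
          D.s i (g (p i).1 (p i).2) := by
        have a1 := hu i
        have a2 := hv i
        generalize (p i).1 = y at a1 ⊢
        generalize (p i).2 = z at a2 ⊢
        fin_cases y <;> fin_cases z <;>
          simp [mul_apply, vecMul, dotProduct, Fin.sum_univ_two, a1, a2]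
      have e2 : Bd (g.map (D.s i)) ‖D.s i (g (p i).1 (p i).2)‖ := fun a b =>
        hpk (fun q => ‖D.s i (g q.1 q.2)‖) (a, b)
      have := e2.conj (D.bd i !![1 - u, u; -u, 1 - u]) (D.bd i !![1 - v, -v; v, 1 - v]) a b
      rw [← Matrix.map_mul, ← Matrix.map_mul] at this
      rw [e1]
      exact this
  have i1 : !![1 - u, -u; u, 1 - u] * !![1 - u, u; -u, 1 - u] = 1 := by
    ext a b
    fin_cases a <;> fin_cases b <;> simp [mul_apply, Fin.sum_univ_two] <;>
      first | linear_combination hu1 | ring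
  have i2 : !![1 - v, -v; v, 1 - v] * !![1 - v, v; -v, 1 - v] = 1 := by
    ext a b
    fin_cases a <;> fin_cases b <;> simp [mul_apply, Fin.sum_univ_two] <;>
      first | linear_combination hv1 | ring
  refine ⟨!![1 - u, -u; u, 1 - u] * k, k' * !![1 - v, v; -v, 1 - v], d, d', ?_, ?_, k3, ?_⟩
  · rw [det_mul, k1, det_fin_two_of]
    linear_combination hu1
  · rw [det_mul, k2, det_fin_two_of]
    linear_combination hv1
  · calc g = !![1 - u, -u; u, 1 - u] * !![1 - u, u; -u, 1 - u] * g *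
          (!![1 - v, -v; v, 1 - v] * !![1 - v, v; -v, 1 - v]) := by rw [i1, i2, one_mul, mul_one]
      _ = !![1 - u, -u; u, 1 - u] * (!![1 - u, u; -u, 1 - u] * g * !![1 - v, -v; v, 1 - v]) *
          !![1 - v, v; -v, 1 - v] := by simp only [mul_assoc]
      _ = _ := by rw [k4]; simp only [mul_assoc]

end Blk

end Pool.Agent.MT
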