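import Pool.Agent.Lib.MP_d61fbb_ag.MW.DPs
import Pool.Agent.Lib.MP_d61fbb_ag.MW.DCh
import Pool.Agent.Lib.MP_d61fbb_ag.MW.DLem
import Pool.Agent.Lib.MP_d61fbb_ag.MW.DPl
import Pool.Agent.Lib.MP_d61fbb_ag.MW.Et

/-! The choice of the place. -/

set_option autoImplicit false

noncomputable section

open Matrix Polynomial

namespace Pool.Agent.MW.Dd

open Pool.Agent.MT

open Pool.Agent.Lib.MP_696deb_nt.B2 (Qbar Gam Plc Dec Ine IsFrob Op jC finite_supp)

section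
variable {Ω : Type} [NormedField Ω] [IsUltrametricDist Ω]

theorem dco_add {a b : Ω} (ha : ‖a‖ < 1) (hb : ‖b‖ < 1) : ‖a + b‖ < 1 :=
  (IsUltrametricDist.norm_add_le_max _ _).trans_lt (max_lt ha hb)

theorem dco_sub {a b : Ω} (ha : ‖a‖ < 1) (hb : ‖b‖ < 1) : ‖a - b‖ < 1 := by
  rw [sub_eq_add_neg]
  exact dco_add ha (by rwa [norm_neg])

omit [IsUltrametricDist Ω] in
theorem dco_mul {a b : Ω} (ha : ‖a‖ ≤ 1) (hb : ‖b‖ < 1) : ‖a * b‖ < 1 := by
  rw [norm_mul]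
  exact mul_lt_one_of_nonneg_of_lt_one_right ha (norm_nonneg _) hb

theorem dco_norm {a b : Ω} (h : ‖a - b‖ < 1) (hb : ‖b‖ = 1) : ‖a‖ = 1 := by
  rw [← sub_add_cancel a b, IsUltrametricDist.norm_add_eq_max_of_norm_ne_norm (hb ▸ h.ne), hb]
  exact max_eq_right h.le

theorem dco_one_mul {a b : Ω} (ha : ‖a - 1‖ < 1) (hb : ‖b - 1‖ < 1) : ‖a * b - 1‖ < 1 := by
  rw [show a * b - 1 = a * (b - 1) + (a - 1) by ring]
  exact dco_add (dco_mul (dco_norm ha norm_one).le hb) ha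

theorem dco_one_inv {a : Ω} (ha : ‖a - 1‖ < 1) : ‖a⁻¹ - 1‖ < 1 := by
  have h1 := dco_norm ha norm_one
  have h2 : a ≠ 0 := norm_ne_zero_iff.1 (h1.trans_ne one_ne_zero)
  rw [show a⁻¹ - 1 = -a⁻¹ * (a - 1) by field_simp; ring]
  exact dco_mul (by rw [norm_neg, norm_inv, h1, inv_one]) ha

theorem dco_one_pow {a : Ω} (ha : ‖a - 1‖ < 1) (m : ℕ) : ‖a ^ m - 1‖ < 1 := by
  induction m with
  | zero => simp
  | succ m ih => rw [pow_succ]; exact dco_one_mul ih ha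

theorem dco_one_zpow {a : Ω} (ha : ‖a - 1‖ < 1) (m : ℤ) : ‖a ^ m - 1‖ < 1 := by
  rcases Int.eq_nat_or_neg m with ⟨j, rfl | rfl⟩
  · rw [zpow_natCast]; exact dco_one_pow ha j
  · rw [_root_.zpow_neg, zpow_natCast]; exact dco_one_inv (dco_one_pow ha j)

/-- congruent units have congruent monomials -/
theorem dco_prod {ι : Type} [Fintype ι] {a b : ι → Ω} (h : ∀ i, ‖a i - b i‖ < 1)
    (hb : ∀ i, ‖b i‖ = 1) (c : ι → ℤ) : ‖∏ i, a i ^ c i - ∏ i, b i ^ c i‖ < 1 := by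
  have h0 : ∀ i, b i ≠ 0 := fun i => norm_ne_zero_iff.1 ((hb i).trans_ne one_ne_zero)
  have h1 : ‖∏ i, (a i / b i) ^ c i - 1‖ < 1 :=
    Finset.prod_induction _ (fun z : Ω => ‖z - 1‖ < 1) (fun _ _ => dco_one_mul) (by simp)
      fun i _ => dco_one_zpow (by
        rw [div_sub_one (h0 i), norm_div, hb, div_one]; exact h i) _
  have h2 : ‖∏ i, b i ^ c i‖ = 1 := by
    rw [norm_prod]
    exact Finset.prod_eq_one fun i _ => by rw [norm_zpow, hb, _root_.one_zpow]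
  have h3 : ∏ i, b i ^ c i ≠ 0 := norm_ne_zero_iff.1 (h2.trans_ne one_ne_zero)
  simp only [div_zpow, Finset.prod_div_distrib] at h1
  rwa [div_sub_one h3, norm_div, h2, div_one] at h1

/-- the eigenvalues of a matrix that is congruent to a diagonal matrix -/
theorem dco_two {H : Matrix (Fin 2) (Fin 2) Ω} {x y t w w' : Ω} (hw : w * w' = 1) (w1 : ‖w‖ ≤ 1)
    (h0 : ‖H 0 0 - t * w'‖ < 1) (h1 : ‖H 0 1‖ < 1) (h2 : ‖H 1 0‖ < 1) (h3 : ‖H 1 1 - t * w‖ < 1)
    (tr : H.trace = x + y) (dt : H.det = x * y) (x1 : ‖x‖ = 1) (y1 : ‖y‖ = 1) :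
    ‖y / x - w ^ 2‖ < 1 ∨ ‖x / y - w ^ 2‖ < 1 := by
  rw [trace_fin_two] at tr
  rw [det_fin_two] at dt
  have w2 : ‖w ^ 2‖ ≤ 1 := by rw [norm_pow]; exact pow_le_one₀ (norm_nonneg _) w1
  have key : ∀ x y : Ω, H 0 0 + H 1 1 = x + y → ‖x‖ = 1 → ‖x - H 0 0‖ < 1 →
      ‖y / x - w ^ 2‖ < 1 := fun x y tr x1 h => by
    have x0 : x ≠ 0 := norm_ne_zero_iff.1 (x1.trans_ne one_ne_zero)
    rw [div_sub' x0, norm_div, x1, div_one, show y - x * w ^ 2 = (H 1 1 - t * w) - (x - H 0 0) -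
      w ^ 2 * (x - H 0 0) - w ^ 2 * (H 0 0 - t * w') by linear_combination -tr - t * w * hw]
    exact dco_sub (dco_sub (dco_sub h3 h) (dco_mul w2 h)) (dco_mul w2 h0)
  have h4 : ‖x - H 0 0‖ * ‖y - H 0 0‖ < 1 := by
    rw [← norm_mul, show (x - H 0 0) * (y - H 0 0) = -H 0 1 * H 1 0 by
      linear_combination -dt + H 0 0 * tr]
    exact dco_mul (by rw [norm_neg]; exact h1.le) h2
  by_cases h5 : ‖x - H 0 0‖ < 1
  · exact .inl (key x y tr x1 h5)
  · refine .inr (key y x (tr.trans (add_comm _ _)) y1 (lt_of_not_ge fun h6 => h4.not_ge ?_))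
    exact one_le_mul_of_one_le_of_one_le (not_lt.1 h5) h6

end

variable [dm : Dim] {e k n : ℕ}

/-- A matrix whose image is congruent to the image of a diagonal matrix. -/
theorem eig_near {l : ℕ} [Fact l.Prime] {a : M8 ℤ} {D : Blk e k n l a} {u : ℤ_[l][X]} {h : M2 D.R}
    (hu : IsUnit (aeval (zM ℤ_[l] a) u)) (hh : IsUnit h.det) {w w' : D.R} (hw : w * w' = 1)
    (e : ∀ i j, (l : ℤ_[l]) ∣ (aeval (zM ℤ_[l] a) u * D.Nm h - D.Nm (diagonal ![w', w])) i j) :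
    ∃ g : Eig D u h, ∀ i, ‖g.pre.u i - D.s i (w ^ 2)‖ < 1 := by
  obtain ⟨g⟩ := exists_eig hu hh
  have k1 : D.U' * (aeval (zM ℤ_[l] a) u * D.Nm h - D.Nm (diagonal ![w', w])).map
      (algebraMap ℤ_[l] (PadicAlgCl l)) * D.U =
      diagonal (fun x => aeval (D.ev x.2) u) * bkp D.io (fun i => h.map (D.s i)) -
        bkp D.io fun i => (diagonal ![w', w]).map (D.s i) := by
    rw [Matrix.map_sub _ (map_sub _), Matrix.map_mul, map_aeval D, D.nm, D.nm]
    simp only [Matrix.mul_sub, Matrix.sub_mul, Matrix.mul_assoc, D.inv_mul, Matrix.mul_one]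
    simp only [← Matrix.mul_assoc D.U', D.inv_mul, Matrix.one_mul]
  have k2 : ∀ x y, ‖(diagonal (fun x : Bx _ k => aeval (D.ev x.2) u) * bkp D.io (fun i => h.map (D.s i)) -
      bkp D.io fun i => (diagonal ![w', w]).map (D.s i)) x y‖ < 1 := fun x y => by
    rw [← k1, mul_apply]
    refine lt_of_le_of_lt (IsUltrametricDist.norm_sum_le_of_forall_le_of_nonneg
      (norm_nonneg (l : PadicAlgCl l)) fun j _ => ?_) dl_l
    rw [norm_mul]
    refine (mul_le_of_le_one_right (norm_nonneg _) (D.int _ _)).trans ?_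
    rw [mul_apply]
    refine IsUltrametricDist.norm_sum_le_of_forall_le_of_nonneg (norm_nonneg _) fun i _ => ?_
    rw [norm_mul]
    refine (mul_le_of_le_one_left (norm_nonneg _) (D.int' _ _)).trans ?_
    obtain ⟨c, hc⟩ := e i j
    rw [map_apply, hc, map_mul, map_natCast, norm_mul, dl_norm]
    exact mul_le_of_le_one_right (norm_nonneg _) c.2
  have hw' : ∀ i, D.s i w * D.s i w' = 1 := fun i => by rw [← map_mul, hw, map_one]
  have n1 : ∀ i, ‖D.s i w'‖ = 1 := D.unit_iff.1 (IsUnit.of_mul_eq_one_right _ hw)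
  have k3 : ∀ i, ‖g.y i / g.x i - D.s i w ^ 2‖ < 1 ∨ ‖g.x i / g.y i - D.s i w ^ 2‖ < 1 := by
    intro i
    obtain ⟨σ, j, rfl⟩ := D.cover i
    have k4 : ∀ (G : Fin n → M2 (PadicAlgCl l)) s t,
        bkp D.io G (Pi.single j s, σ) (Pi.single j t, σ) =
          (∏ m ∈ Finset.univ.erase j, G (D.io σ m) 0 0) * G (D.io σ j) s t := fun G s t => by
      rw [bkp, blockDiagonal_apply_eq, kp_apply, ← Finset.prod_erase_mul _ _ (Finset.mem_univ j),
        Pi.single_eq_same, Pi.single_eq_same]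
      exact congrArg (· * _) (Finset.prod_congr rfl fun m hm => by
        simp [(Finset.mem_erase.1 hm).1])
    have k5 := fun s t => k2 (Pi.single j s, σ) (Pi.single j t, σ)
    simp only [Matrix.sub_apply, diagonal_mul, k4, ← mul_assoc] at k5
    set c := aeval (D.ev σ) u * ∏ m ∈ Finset.univ.erase j, h.map (D.s (D.io σ m)) 0 0 with hc
    set c' := ∏ m ∈ Finset.univ.erase j, (diagonal ![w', w]).map (D.s (D.io σ m)) 0 0 with hc'
    have c1 : ‖c'‖ = 1 := by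
      rw [hc', norm_prod]
      exact Finset.prod_eq_one fun m _ => n1 _
    have c2 : ‖c‖ ≤ 1 := by
      rw [hc, norm_mul, g.norm_u, one_mul, norm_prod]
      exact Finset.prod_le_one (fun _ _ => norm_nonneg _) fun m _ => D.s_le _ _
    have c3 : ‖c‖ = 1 := by
      have := dco_norm (k5 0 0) (by rw [norm_mul, c1, one_mul]; exact n1 _)
      rw [norm_mul] at this
      exact c2.antisymm (this.symm.trans_le (mul_le_of_le_one_right (norm_nonneg _) (D.s_le _ _)))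
    have c0 : c ≠ 0 := norm_ne_zero_iff.1 (c3.trans_ne one_ne_zero)
    have k6 : ∀ s t, ‖h.map (D.s (D.io σ j)) s t -
        c' / c * (diagonal ![w', w]).map (D.s (D.io σ j)) s t‖ < 1 := fun s t => by
      refine lt_of_eq_of_lt ?_ (k5 s t)
      rw [← one_mul ‖_ - c' / c * _‖, ← c3, ← norm_mul, mul_sub, ← mul_assoc, mul_div_cancel₀ _ c0]
    exact dco_two (hw' _) (D.s_le _ _) (k6 0 0) (by simpa using k6 0 1) (by simpa using k6 1 0)
      (k6 1 1) (g.tr _) (g.det _) (g.norm_xy _).1 (g.norm_xy _).2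
  have k7 : ∀ i, ∃ x y, (h.map (D.s i)).trace = x + y ∧ (h.map (D.s i)).det = x * y ∧
      ‖y / x - D.s i (w ^ 2)‖ < 1 := fun i => by
    rw [map_pow]
    rcases k3 i with b | b
    · exact ⟨_, _, g.tr i, g.det i, b⟩
    · exact ⟨_, _, (g.tr i).trans (add_comm _ _), (g.det i).trans (mul_comm _ _), b⟩
  choose x y h1 h2 h3 using k7
  exact ⟨⟨x, y, hu, hh, h1, h2⟩, h3⟩

theorem d_choice {τ : Matrix (Fin gg) (Fin gg) ℂ} {K : IntermediateField ℚ ℂ} (M : AType τ K e k n)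
    (A : AR M.toTRep) (hK : FiniteDimensional ℚ K) {l : Pr} (hl : l ∉ M.S)
    (hb : n + n * (4 * 5 ^ n) * (2 * (4 * 5 ^ n) + 1) ^ n < (l : ℕ)) (B : Finset ℕ) :
    ∃ v : Frb A, (v.p : ℕ) ∉ B ∧ ∃ (u : ℤ_[l][X]) (h : M2 (M.D l hl).R) (g : Eig (M.D l hl) u h)
      (z : (M.D l hl).R), (M.ρ v.φ l).val = aeval (zM ℤ_[l] M.a) u * (M.D l hl).Nm h ∧
      (∀ i, ‖g.pre.u i - (M.D l hl).s i z‖ < 1) ∧
      ∀ c : Fin n → ℤ, c ≠ 0 → (∀ i, |c i| ≤ 2) → ‖∏ i, g.pre.u i ^ c i - 1‖ = 1 := by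
  classical
  let D := M.D l hl
  let r : (ℂ ≃ₐ[K] ℂ) →* GL (I2 gg) ℤ_[l] := (Pi.evalMonoidHom _ l).comp M.ρ
  let f := (PadicInt.toZMod (p := l)).mapMatrix (m := I2 gg)
  have hf : ∀ X Y : M8 ℤ_[l], f X = f Y ↔ ∀ i j, ((l : ℕ) : ℤ_[l]) ∣ (X - Y) i j := fun X Y => by
    rw [← sub_eq_zero, ← map_sub, ← Matrix.ext_iff]
    refine forall₂_congr fun i j => ?_
    rw [← Ideal.mem_span_singleton, ← PadicInt.maximalIdeal_eq_span_p, ← PadicInt.ker_toZMod]
    rfl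
  let r1 : (ℂ ≃ₐ[K] ℂ) →* (M8 (ZMod l))ˣ := (Units.map f.toMonoidHom).comp r
  have hr1 : ∀ σ, (r1 σ).val = f (M.ρ σ l).val := fun σ => rfl
  obtain ⟨U, u1, u2⟩ := A.cont l l.2.ne_zero
  have u3 : ∀ σ, A.res σ ∈ U → r1 σ = 1 := fun σ hσ => Units.ext (by
    rw [hr1, Units.val_one, ← map_one f, hf]
    intro i j
    rw [← PadicInt.norm_lt_one_iff_dvd]
    exact (u2 σ hσ l i j).trans_lt ((PadicInt.norm_lt_one_iff_dvd _).2 dvd_rfl))
  have hker : A.res.rangeRestrict.ker ≤ r1.ker := fun σ hσ => by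
    have e : A.res σ = 1 := congrArg Subtype.val (MonoidHom.mem_ker.1 hσ)
    exact u3 σ (e ▸ one_mem U)
  let ρ : A.res.range →* (M8 (ZMod l))ˣ :=
    A.res.rangeRestrict.liftOfSurjective A.res.rangeRestrict_surjective ⟨r1, hker⟩
  have hρ : ∀ σ, ρ (A.res.rangeRestrict σ) = r1 σ := fun σ =>
    MonoidHom.liftOfRightInverse_comp_apply _ _ _ ⟨r1, hker⟩ σ
  have hop : Op (ρ.ker.map A.res.range.subtype) := by
    refine Subgroup.isOpen_mono (H₁ := U ⊓ A.res.range) ?_ (u1.inter A.res_open)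
    rintro _ ⟨hx, σ, rfl⟩
    exact ⟨A.res.rangeRestrict σ, (hρ σ).trans (u3 σ hx), rfl⟩
  obtain ⟨s1, hs1⟩ := dpl_ine K
  have hs2 : ∀ η, ∃ s : Finset ℕ, ∀ w : Plc, w.p ∉ s →
      A.S.Θ (hw η) = 0 ∨ w.V (A.S.Θ (hw η)) = 1 := fun η => by
    by_cases h : A.S.Θ (hw η) = 0
    · exact ⟨∅, fun _ _ => .inl h⟩
    · exact (finite_supp h).imp fun s hs w hw => .inr (hs w hw)
  choose s2 hs2 using hs2
  obtain ⟨x, x1, x2⟩ := exists_w hb (t := fun i => D.s i (AdjoinRoot.root D.c))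
    (fun i => D.s_le i _) fun i j h => D.root_dist h
  let w : D.R := x + AdjoinRoot.root D.c
  have w1 : ∀ i, D.s i w = x + D.s i (AdjoinRoot.root D.c) := fun i => by
    rw [map_add, map_natCast]
  simp only [← w1] at x1 x2
  obtain ⟨w', w2⟩ := (D.unit_iff.2 x1).exists_right_inv
  have w0 : ∀ i, D.s i w ≠ 0 := fun i => norm_ne_zero_iff.1 ((x1 i).trans_ne one_ne_zero)
  obtain ⟨s, hs⟩ : ∃ s, (M.ρ s l).val = D.Nm (diagonal ![w', w]) := by
    obtain ⟨σ, k1⟩ := M.big {l} fun l' h' => if e : l = l' then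
      e.rec (motive := fun l' _ => ∀ h', SpecialLinearGroup (Fin 2) (M.D l' h').R)
        (fun _ => ⟨diagonal ![w', w], by simp [mul_comm w', w2]⟩) h' else 1
    exact ⟨σ, (k1 l (Finset.mem_singleton_self l) hl).trans (by rw [dif_pos rfl])⟩
  have hp : ∀ m : ℕ, (r1 s ^ m).val = f (D.Nm (diagonal ![w' ^ m, w ^ m])) := fun m => by
    rw [Units.val_pow_eq_pow_val, hr1, hs, ← map_pow]
    refine congrArg f ?_
    induction m with
    | zero =>
      rw [pow_zero, pow_zero, pow_zero, ← D.Nm_one]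
      refine congrArg D.Nm ?_
      ext i j
      fin_cases i <;> fin_cases j <;> rfl
    | succ m ih =>
      rw [pow_succ, ih, ← D.Nm_mul, diagonal_mul_diagonal]
      refine congrArg (fun v => D.Nm (diagonal v)) (funext fun i => ?_)
      fin_cases i <;> simp [pow_succ]
  have w3 : ∀ m : ℕ, w ^ m * w' ^ m = 1 := fun m => by rw [← mul_pow, w2, one_pow]
  let T := (Fintype.piFinset fun _ : Fin n => Finset.Icc (-2 : ℤ) 2).erase 0
  have hT : Fintype.card T ≤ 5 ^ n := by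
    rw [Fintype.card_coe]
    exact Finset.card_erase_le.trans (by simp)
  let ξ : (Fin n → ℤ) → PadicAlgCl l := fun c => ∏ i, D.s i w ^ (2 * c i)
  have ξ0 : ∀ c, ξ c ≠ 0 := fun c => Finset.prod_ne_zero_iff.2 fun i _ => zpow_ne_zero _ (w0 i)
  have ξ1 : ∀ c (m : ℕ), ξ c ^ (m : ℤ) = ∏ i, D.s i ((w ^ m) ^ 2) ^ c i := fun c m => by
    rw [← Finset.prod_zpow]
    refine Finset.prod_congr rfl fun i _ => ?_
    rw [map_pow, map_pow, ← pow_mul, ← zpow_natCast, ← _root_.zpow_mul, ← _root_.zpow_mul]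
    refine congrArg _ ?_
    push_cast
    ring
  have n2 : ∀ (m : ℕ) i, ‖D.s i ((w ^ m) ^ 2)‖ = 1 := fun m i => by
    rw [map_pow, map_pow, norm_pow, norm_pow, x1, one_pow, one_pow]
  let Z : T → AddSubgroup ℤ := fun c =>
    { carrier := {m | ‖ξ c ^ m - 1‖ < 1}
      add_mem' := fun {a b} ha hb => by
        change ‖_ ^ (a + b) - 1‖ < 1
        rw [zpow_add₀ (ξ0 c)]
        exact dco_one_mul ha hb
      zero_mem' := by simp
      neg_mem' := fun {a} ha => by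
        change ‖_ ^ (-a) - 1‖ < 1
        rw [_root_.zpow_neg]
        exact dco_one_inv ha }
  have z0 : ∀ (c : T) (m : ℕ), r1 s ^ m = 1 → (m : ℤ) ∈ Z c := fun c m h => by
    obtain ⟨g, hg⟩ := eig_near (D := D) (u := 1) (h := 1) (by rw [map_one]; exact isUnit_one)
      (by rw [det_one]; exact isUnit_one) (w3 m) ((hf _ _).1 (by
        rw [← hp, h, map_one, D.Nm_one, mul_one, map_one, Units.val_one]))
    have g1 : ∀ i, g.pre.u i = 1 := fun i => by
      have a1 := g.tr i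
      have a2 := g.det i
      rw [Matrix.map_one _ (map_zero _) (map_one _)] at a1 a2
      rw [trace_one, Fintype.card_fin, Nat.cast_two] at a1
      rw [det_one] at a2
      have a3 : (g.y i - g.x i) ^ 2 = 0 := by
        linear_combination -(g.x i + g.y i + 2) * a1 + 4 * a2
      exact (div_eq_one_iff_eq (left_ne_zero_of_mul_eq_one a2.symm)).2
        (sub_eq_zero.1 (pow_eq_zero_iff two_ne_zero |>.1 a3))
    have := dco_prod hg (n2 m) c
    simp only [g1, _root_.one_zpow, Finset.prod_const_one] at this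
    change ‖_ - 1‖ < 1
    rwa [ξ1, norm_sub_rev]
  obtain ⟨v, φ, m, h1, h2, h3, h4⟩ := cheb ρ hop (A.res.rangeRestrict s) Z (fun c m h => by
      rw [hρ] at h
      rcases Int.eq_nat_or_neg m with ⟨j, rfl | rfl⟩
      · exact z0 c j (by rwa [zpow_natCast] at h)
      · exact neg_mem (z0 c j (by rwa [_root_.zpow_neg, inv_eq_one, zpow_natCast] at h)))
    (fun c d d0 d1 h => by
      obtain ⟨c0, c1⟩ := Finset.mem_erase.1 c.2
      have d2 : (d : ℤ) ≤ 5 ^ n := by exact_mod_cast d1.trans hT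
      have := x2 (fun i => 2 * c.1 i * d) (fun e => c0 (funext fun i => by
        have := congrFun e i
        simp only [Pi.zero_apply, mul_eq_zero, Nat.cast_eq_zero] at this ⊢
        omega)) fun i => by
          have := abs_le.2 (Finset.mem_Icc.1 (Fintype.mem_piFinset.1 c1 i))
          rw [abs_mul, abs_mul, abs_two, Nat.abs_cast]
          push_cast
          nlinarith [abs_nonneg (c.1 i)]
      simp only [_root_.zpow_mul _ (2 * c.1 _), Finset.prod_zpow] at this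
      exact this.not_lt h)
    (B ∪ (Finset.range 11 ∪ (s1 ∪ Finset.univ.biUnion s2)))
  obtain ⟨φ, rfl⟩ := A.res.rangeRestrict_surjective φ
  simp only [Finset.mem_union, not_or, Finset.mem_range, not_lt] at h1
  obtain ⟨b1, b2, b3, b4⟩ := h1
  obtain ⟨u, h, hu, hh, e⟩ := M.sub φ l hl
  rw [hρ, hρ] at h3
  obtain ⟨g, hg⟩ := eig_near hu hh (w3 m) ((hf _ _).1 (by rw [← hp, ← h3, hr1, e]))
  refine ⟨⟨v, ⟨v.p, v.prime⟩, rfl, b2, φ, h2, fun g hg => A.res_surj g (hs1 v b3 g hg),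
    fun η => hs2 η v fun h => b4 (Finset.mem_biUnion.2 ⟨η, Finset.mem_univ _, h⟩)⟩, b1,
    u, h, g, _, e, hg, fun c c0 c1 => ?_⟩
  have k1 := dco_prod hg (n2 m) c
  have k2 : ¬ ‖ξ c ^ (m : ℤ) - 1‖ < 1 := h4 ⟨c, Finset.mem_erase.2 ⟨c0,
    Fintype.mem_piFinset.2 fun i => Finset.mem_Icc.2 (abs_le.1 (c1 i))⟩⟩
  rw [ξ1] at k2
  have k3 : ‖∏ i, D.s i ((w ^ m) ^ 2) ^ c i‖ = 1 := by
    rw [norm_prod]
    exact Finset.prod_eq_one fun i _ => by rw [norm_zpow, n2, _root_.one_zpow]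
  refine dco_norm (b := ∏ i, D.s i ((w ^ m) ^ 2) ^ c i - 1) (by rwa [sub_sub_sub_cancel_right])
    (le_antisymm ?_ (not_lt.1 k2))
  rw [sub_eq_add_neg]
  exact (IsUltrametricDist.norm_add_le_max _ _).trans (max_le k3.le (by rw [norm_neg, norm_one]))

end Pool.Agent.MW.Dd
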