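import Pool.Agent.Lib.MP_d61fbb_ag.MW.DGd

/-! The CM fields and the type norm. -/

set_option autoImplicit false

open Finset Function Polynomial

namespace Pool.Agent.MW.Dd

open Pool.Agent.Lib.MP_696deb_nt.B2 (Qbar Gam jC cc jC_cc)

/-- The fields and the type norm as a polynomial in the generator. -/
structure DF (e k n : ℕ) (A P : ℤ[X]) (Q : ℚ[X]) (r : ℤ) (p : ℕ) {κ : Type} [Fintype κ]
    (E : κ → Type) [∀ i, Field (E i)] [∀ i, NumberField (E i)] where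
  c : ∀ i, E i ≃ₐ[ℚ] E i
  U : ∀ i, E i
  f : (∀ i, E i) → ℚ[X]
  mu : (∀ i, E i) → ℚ[X]
  Fa : ℚ[X]
  Fi : ℚ[X]
  D : ℤ
  rank : ∀ i, Module.finrank ℚ (E i) ≤ 2 * n
  cc : ∀ i a, c i (c i a) = a
  cj : ∀ i (φ : E i →+* ℂ) a, φ (c i a) = (starRingEnd ℂ) (φ a)
  cU : ∀ i, c i (U i) * U i = 1
  intU : ∀ i, IsIntegral ℤ (p * U i)
  D0 : D ≠ 0
  sep : Q.Separable
  Fa_eq : ∀ (L : Type) [Field L] [CharZero L] [IsAlgClosed L] (x y : L), aeval x A = 0 →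
    aeval y P = 0 → aeval (y + r * x) Q = 0 → aeval (y + r * x) Fa = x
  Fi_eq : Q ∣ Fi * (X - C (r : ℚ) * Fa) - 1
  den : ∀ h : ℚ[X], (∀ z : Qbar, aeval z Q = 0 → IsIntegral ℤ (aeval z h)) →
    ∃ g : ℤ[X], Q ∣ C (D : ℚ) * h - g.map (Int.castRingHom ℚ)
  int : ∀ (a b : ∀ i, E i) (M : ℤ), (∀ i, IsIntegral ℤ (a i)) → (∀ i, IsIntegral ℤ (b i)) →
    ∃ g : ℤ[X], Q ∣ C (D : ℚ) * (f (a + M • b) - f a) - C (M : ℚ) * g.map (Int.castRingHom ℚ)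
  f_rat : ∀ q : ℚ, Q ∣ f (fun _ => q) - C (q ^ k)
  f_mul : ∀ a b, Q ∣ f (a * b) - f a * f b
  f_mu : ∀ a, (∀ i, c i (a i) = a i) → Q ∣ f a - (mu a).comp Fa
  mu_eq : ∀ (L : Type) [Field L] [CharZero L] [IsAlgClosed L] (z : L), aeval z A = 0 →
    ∃ (t : Fin k → κ) (χ : ∀ j, E (t j) →+* L), ∀ a, (∀ i, c i (a i) = a i) →
      aeval z (mu a) = ∏ j, χ j (a (t j))
  emb : ∀ (L : Type) [Field L] [CharZero L] [IsAlgClosed L] (π : Pre e k n L), π.Of A P Q r →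
    Injective π.v ∧ (∀ y, IsIntegral ℤ (D * π.v y)) ∧
    (∀ y y', IsIntegral ℤ (D * (π.v y - π.v y')⁻¹)) ∧
    ∃ (t : Fin n → κ) (ψ : ∀ y : Fin n × Fin 2, E (t y.1) →+* L),
      (∀ y, ψ y (U _) = π.v y) ∧ (∀ i d a, ψ (i, d.rev) a = ψ (i, d) (c _ a)) ∧
      (∀ a x, aeval (π.th r x) (f a) = ∏ j, ψ (π.io x.2 j, x.1 j) (a _)) ∧
      (∀ i (χ : E i →+* L), ∃ y, ∀ a : ∀ i, E i, χ (a i) = ψ y (a _)) ∧
      (∀ a : ∀ i, E i, ((∏ i, Algebra.norm ℚ (a i) : ℚ) : L) = ∏ y, ψ y (a _)) ∧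
      ∀ a : ∀ i, E i, ∃ q : ℚ[X], (∀ i, aeval (U i) q = a i) ∧ ∀ T : Subring L, (∀ y, π.v y ∈ T) →
        (∀ y y', (π.v y - π.v y')⁻¹ ∈ T) → (∀ y, ψ y (a _) ∈ T) → ∀ m, (q.coeff m : L) ∈ T

/-- Block D1. -/
def DAlg : Prop := ∀ (e k n : ℕ) (A P : ℤ[X]) (Q : ℚ[X]) (r : ℤ) (p : ℕ) (π : Pre e k n Qbar),
  Gd π A P Q r p → ∃ (κ : Type) (_ : Fintype κ) (E : κ → Type) (_ : ∀ i, Field (E i))
    (_ : ∀ i, NumberField (E i)), Nonempty (DF e k n A P Q r p E)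

end Pool.Agent.MW.Dd
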