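import Pool.Agent.Lib.MP_d61fbb_ag.MW.DPs
import Pool.Agent.Lib.MP_d61fbb_ag.MW.Et
import Pool.Agent.Lib.MP_d61fbb_ag.MW.GL1

/-! The local embedding at a good prime. -/

set_option autoImplicit false

noncomputable section

open Matrix Polynomial NumberField

namespace Pool.Agent.MW.Dd

open Pool.Agent.MT

theorem dloc_diag {K : Type*} [Field K] (g : Matrix (Fin 2) (Fin 2) K) {a b : K}
    (ht : g.trace = a + b) (hd : g.det = a * b) (h : a ≠ b) :
    ∃ Q Q' : Matrix (Fin 2) (Fin 2) K, Q * Q' = 1 ∧ g = Q * diagonal ![a, b] * Q' := by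
  obtain ⟨Q, Q', T, k1, k2, k3, k4, k5⟩ := tri_two g (a := a) (by rw [ht, hd]; ring)
  have h1 := sub_ne_zero.2 h.symm
  have h2 : T = !![1, T 0 1 / (b - a); 0, 1] * diagonal ![a, b] *
      !![1, -(T 0 1 / (b - a)); 0, 1] := by
    ext i j
    fin_cases i <;> fin_cases j <;>
      simp [mul_apply, Fin.sum_univ_two, k3, k4, k5, ht, vecMul_diagonal]
    field_simp
    ring
  refine ⟨Q * !![1, T 0 1 / (b - a); 0, 1], !![1, -(T 0 1 / (b - a)); 0, 1] * Q', ?_, ?_⟩
  · rw [mul_assoc, ← mul_assoc _ _ Q', mul_fin_two]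
    simpa [← one_fin_two] using k1
  · rw [k2]
    conv_lhs => rw [h2]
    simp only [mul_assoc]

/-- diagonal matrices in a frame -/
def dlocH {m n K : Type*} [Fintype m] [DecidableEq m] [Fintype n] [DecidableEq n] [CommRing K]
    {Q : Matrix n m K} {Q' : Matrix m n K} (h : Q * Q' = 1) (h' : Q' * Q = 1) :
    (m → K) →+* Matrix n n K where
  toFun x := Q * diagonal x * Q'
  map_one' := by rw [show diagonal (1 : m → K) = 1 from diagonal_one, Matrix.mul_one, h]
  map_mul' x y := by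
    simp only [Matrix.mul_assoc]
    rw [← Matrix.mul_assoc Q', h', Matrix.one_mul, ← Matrix.mul_assoc (diagonal x),
      diagonal_mul_diagonal']
    rfl
  map_zero' := by rw [show diagonal (0 : m → K) = 0 from diagonal_zero, Matrix.mul_zero, Matrix.zero_mul]
  map_add' x y := by rw [← Matrix.add_mul, ← Matrix.mul_add, diagonal_add]; rfl

theorem dlocH_apply {m n K : Type*} [Fintype m] [DecidableEq m] [Fintype n] [DecidableEq n]
    [CommRing K] {Q : Matrix n m K} {Q' : Matrix m n K} (h : Q * Q' = 1) (h' : Q' * Q = 1)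
    (x : m → K) : dlocH h h' x = Q * diagonal x * Q' := rfl

theorem dloc_aeval {m n K : Type*} [Fintype m] [DecidableEq m] [Fintype n] [DecidableEq n] [Field K]
    [CharZero K] {Q : Matrix n m K} {Q' : Matrix m n K} (h : Q * Q' = 1) (h' : Q' * Q = 1)
    (d : m → K) (f : ℚ[X]) :
    aeval (Q * diagonal d * Q') f = Q * diagonal (fun i => aeval (d i) f) * Q' := by
  refine (hom_aeval (dlocH h h') d f).symm.trans ?_
  rw [dlocH_apply]
  congr 3
  funext i
  exact hom_aeval (Pi.evalRingHom (fun _ : m => K) i) d f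

theorem dloc_adj {R : Type*} [CommRing R] (m : Matrix (Fin 2) (Fin 2) R) :
    m + m.adjugate = m.trace • 1 := by
  rw [adjugate_fin_two, trace_fin_two]
  ext i j
  fin_cases i <;> fin_cases j <;> simp [add_comm]

theorem dloc_blk {R : Type} [CommRing R] {e k n : ℕ} (io : Fin e → Fin k → Fin n)
    (d : Fin n → Fin 2 → R) :
    bkp io (fun i => diagonal (d i)) = diagonal fun x : Bx e k => ∏ j, d (io x.2 j) (x.1 j) := by
  simp only [bkp, kp_diagonal]
  exact blockDiagonal_diagonal _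

theorem dloc_approx {l : ℕ} [Fact l.Prime] (q : ℤ_[l][X]) (N : ℕ) :
    ∃ (w : ℤ[X]) (q' : ℤ_[l][X]), q = w.map (algebraMap ℤ ℤ_[l]) + C ((l : ℤ_[l]) ^ N) * q' := by
  induction q using Polynomial.induction_on' with
  | add p q hp hq =>
    obtain ⟨w, p', rfl⟩ := hp
    obtain ⟨w', q', rfl⟩ := hq
    exact ⟨w + w', p' + q', by rw [Polynomial.map_add]; ring⟩
  | monomial m c =>
    obtain ⟨d, hd⟩ := Ideal.mem_span_singleton.1 (PadicInt.appr_spec N c)
    refine ⟨monomial m (c.appr N), monomial m d, ?_⟩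
    rw [map_monomial, C_mul_monomial, ← map_add, ← hd]
    simp

variable [dm : Dim] {e k n p l : ℕ} [Fact l.Prime] {a : M8 ℤ} {P : ℤ[X]} {Q : ℚ[X]} {r : ℤ}
  {κ : Type} [Fintype κ] {E : κ → Type} [∀ i, Field (E i)] [∀ i, NumberField (E i)]
  {D : Blk e k n l a} {u : ℤ_[l][X]} {h : M2 D.R}

/-- an element whose conjugates are distinct modulo the maximal ideal generates -/
theorem gen_of_far (D : Blk e k n l a) {t : D.R} (ht : ∀ i j, i ≠ j → ‖D.s i t - D.s j t‖ = 1)
    (z : D.R) : ∃ q : ℤ_[l][X], z = aeval t q := by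
  obtain ⟨q, hq⟩ := et_interp (fun i => D.s_le i t) ht (fun i => D.s i z) (fun i => D.s_le i z)
    fun σ i => (D.perm σ i).imp fun _ h => ⟨(h _).symm, (h _).symm⟩
  exact ⟨q, D.s_ext fun i => by rw [← hq, aeval_algHom_apply]⟩

theorem exists_loc (F : DF e k n a.charpoly P Q r p E) (g : Eig D u h) (hp : ¬ l ∣ p)
    (hg : g.pre.Of a.charpoly P Q r) (far : ∀ y y', y ≠ y' → ‖g.pre.v y - g.pre.v y'‖ = 1) :
    ∃ L : Loc F D ((aeval (zM ℤ_[l] a) u * D.Nm h + r • zM ℤ_[l] a).map (↑)),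
      ∀ y, L.ψ y (F.U _) = g.pre.v y := by
  obtain ⟨-, -, -, t, ψ, k1, k2, k3, k4, k5, k6⟩ := F.emb _ g.pre hg
  have nx : ∀ i, g.x i ≠ 0 := fun i => norm_ne_zero_iff.1 ((g.norm_xy i).1.trans_ne one_ne_zero)
  have ny : ∀ i, g.y i ≠ 0 := fun i => norm_ne_zero_iff.1 ((g.norm_xy i).2.trans_ne one_ne_zero)
  have v0 : ∀ i, g.pre.v (i, 0) = g.x i / g.y i := fun i => by simp [Pre.v, sg, Eig.pre]
  have v1 : ∀ i, g.pre.v (i, 1) = g.y i / g.x i := fun i => by simp [Pre.v, sg, Eig.pre]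
  have nv : ∀ y, ‖g.pre.v y‖ = 1 := fun ⟨i, d⟩ => by
    fin_cases d
    · exact (congrArg _ (v0 i)).trans (by rw [norm_div, (g.norm_xy i).1, (g.norm_xy i).2, div_one])
    · exact (congrArg _ (v1 i)).trans (by rw [norm_div, (g.norm_xy i).1, (g.norm_xy i).2, div_one])
  have hxy : ∀ i, g.x i ≠ g.y i := fun i e => by
    have := far (i, 0) (i, 1) (by simp)
    rw [v0, v1, e, sub_self, norm_zero] at this
    exact zero_ne_one this
  choose T T' t1 t2 using fun i => dloc_diag (h.map (D.s i)) (g.tr i) (g.det i) (hxy i)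
  have t1' : ∀ i, T' i * T i = 1 := fun i => mul_eq_one_comm.1 (t1 i)
  have hU : ∀ i, ((↑g.hh.unit⁻¹ : D.R) • (h * h)).map (D.s i) =
      T i * diagonal (fun d => g.pre.v (i, d)) * T' i := fun i => by
    have a1 := nx i
    have a2 := ny i
    have e1 : D.s i (↑g.hh.unit⁻¹ : D.R) = (g.x i * g.y i)⁻¹ :=
      eq_inv_of_mul_eq_one_left (by rw [← g.det, ← D.s_det, ← map_mul, g.hh.val_inv_mul, map_one])
    have e3 : ((↑g.hh.unit⁻¹ : D.R) • (h * h)).map (D.s i) =
        D.s i (↑g.hh.unit⁻¹ : D.R) • (h.map (D.s i) * h.map (D.s i)) := by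
      ext r s
      simp [mul_apply]
    rw [e3, e1, t2 i]
    simp only [Matrix.mul_assoc]
    rw [← Matrix.mul_assoc (T' i), t1', Matrix.one_mul, ← Matrix.mul_assoc (diagonal _),
      diagonal_mul_diagonal, ← Matrix.mul_smul, ← Matrix.smul_mul, ← diagonal_smul]
    congr 3
    funext d
    fin_cases d <;> simp [v0, v1] <;> field_simp
  have hj : ∀ b : ∀ i, 𝓞 (E i), ∃ m : M2 D.R, ∀ i, m.map (D.s i) =
      T i * diagonal (fun d => ψ (i, d) (b (t i) : E (t i))) * T' i := fun b => by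
    obtain ⟨q, q1, q2⟩ := k6 fun i => b i
    have q3 := q2 (etO l) (fun y => (nv y).le) (fun y y' => by
      change ‖_‖ ≤ 1
      rcases eq_or_ne y y' with rfl | e
      · simp
      · rw [norm_inv, far _ _ e, inv_one]) fun y =>
        MW.dl_int ((b _).isIntegral_coe.map (ψ y).toIntAlgHom).tower_top
    obtain ⟨w, hw⟩ : q.map (algebraMap ℚ (PadicAlgCl l)) ∈
        lifts (algebraMap ℤ_[l] (PadicAlgCl l)) := (lifts_iff_coeff_lifts _).2 fun m => by
      rw [coeff_map]
      exact et_fix (q3 m) fun σ => map_ratCast σ _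
    refine ⟨aeval ((↑g.hh.unit⁻¹ : D.R) • (h * h)) w, fun i => ?_⟩
    have e1 := aeval_algHom_apply (D.s i).mapMatrix ((↑g.hh.unit⁻¹ : D.R) • (h * h)) w
    change aeval (Matrix.map _ (D.s i)) w = Matrix.map _ (D.s i) at e1
    rw [← e1, hU, ← aeval_map_algebraMap (PadicAlgCl l), show w.map _ = _ from hw,
      aeval_map_algebraMap, dloc_aeval (t1 i) (t1' i)]
    congr 3
    funext d
    rw [← k1, aeval_hom, q1]
  choose j hj using hj
  have hj' : ∀ b i, (j b).map (D.s i) =
      dlocH (t1 i) (t1' i) fun d => ψ (i, d) (b (t i) : E (t i)) := hj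
  let J : (∀ i, 𝓞 (E i)) →+* M2 D.R :=
    { toFun := j
      map_one' := D.m_ext fun i => by
        rw [hj', Matrix.map_one _ (map_zero _) (map_one _), ← map_one (dlocH (t1 i) (t1' i))]
        simp [Pi.one_def]
      map_mul' := fun b b' => D.m_ext fun i => by
        rw [Matrix.map_mul, hj', hj', hj', ← map_mul]
        simp [Pi.mul_def]
      map_zero' := D.m_ext fun i => by
        rw [hj', Matrix.map_zero _ (map_zero _), ← map_zero (dlocH (t1 i) (t1' i))]
        simp [Pi.zero_def]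
      map_add' := fun b b' => D.m_ext fun i => by
        rw [Matrix.map_add _ (map_add _), hj', hj', hj', ← map_add]
        simp [Pi.add_def] }
  have tr : ∀ b i, D.s i (j b).trace = ψ (i, 0) (b (t i) : E (t i)) + ψ (i, 1) (b (t i) : E (t i)) :=
    fun b i => by
      rw [show D.s i (j b).trace = _ from AddMonoidHom.map_trace (D.s i) (j b), hj, trace_mul_cycle,
        t1', Matrix.one_mul, trace_diagonal, Fin.sum_univ_two]
  have sm : ∀ (z : D.R) i, (z • (1 : M2 D.R)).map (D.s i) = D.s i z • 1 := fun z i => by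
    ext r s
    by_cases h : r = s <;> simp [h, one_apply]
  have ad : ∀ b, j b + j (fun i => F.cO i (b i)) = (j b).trace • 1 := fun b => D.m_ext fun i => by
    rw [Matrix.map_add _ (map_add _), hj', hj', ← map_add, sm, tr, dlocH_apply, ← t1 i,
      ← Matrix.smul_mul]
    conv_rhs => rw [← Matrix.mul_one (T i), ← Matrix.mul_smul, smul_one_eq_diagonal]
    congr 3
    funext d
    have := k2 i d (b (t i))
    fin_cases d
    · exact congrArg (ψ (i, 0) (b (t i) : E (t i)) + ·) this.symm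
    · exact (congrArg (ψ (i, 1) (b (t i) : E (t i)) + ·) this.symm).trans (add_comm _ _)
  refine ⟨⟨t, ψ, J, T, T', t1, hj, k2, k4, fun y y' e => by rw [k1, k1, far _ _ e], k5, fun b => ?_,
    fun b => add_left_cancel ((ad b).trans (dloc_adj _).symm), fun x N => ?_⟩, k1⟩
  · refine Matrix.map_injective (algebraMap ℚ_[l] (PadicAlgCl l)).injective ?_
    have u1 : (D.U * bkp D.io T) * (bkp D.io T' * D.U') = 1 := by
      rw [Matrix.mul_assoc, ← Matrix.mul_assoc (bkp _ T), ← blk_mul]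
      simp only [t1, blk_one, Matrix.one_mul, D.mul_inv]
    have u0 : bkp D.io T * bkp D.io T' = 1 := by simp only [← blk_mul, t1, blk_one]
    have u2 : (bkp D.io T' * D.U') * (D.U * bkp D.io T) = 1 := by
      rw [Matrix.mul_assoc, ← Matrix.mul_assoc D.U', D.inv_mul, Matrix.one_mul, ← blk_mul]
      simp only [t1', blk_one]
    have e0 : ∀ c : Fin e → PadicAlgCl l, D.U * diagonal (fun x : Bx e k => c x.2) * D.U' =
        dlocH u1 u2 fun x => c x.2 := fun c => by
      rw [dlocH_apply, Matrix.mul_assoc D.U (bkp _ T), ← blk_comm, Matrix.mul_assoc D.U (_ * _),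
        Matrix.mul_assoc _ (bkp _ T), ← Matrix.mul_assoc (bkp _ T), u0, Matrix.one_mul,
        Matrix.mul_assoc]
    have e1 : ∀ (m : M2 D.R) (d : Fin n → Fin 2 → PadicAlgCl l),
        (∀ i, m.map (D.s i) = T i * diagonal (d i) * T' i) →
        (D.Nm m).map (algebraMap ℤ_[l] (PadicAlgCl l)) =
          dlocH u1 u2 fun x => ∏ j, d (D.io x.2 j) (x.1 j) := fun m d hm => by
      rw [D.nm, funext hm, blk_mul, blk_mul, dloc_blk, dlocH_apply]
      simp only [Matrix.mul_assoc]
    have e3 : (aeval (zM ℤ_[l] a) u * D.Nm h + r • zM ℤ_[l] a).map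
        (algebraMap ℤ_[l] (PadicAlgCl l)) = dlocH u1 u2 (g.pre.th r) := by
      rw [Matrix.map_add _ (map_add _), Matrix.map_mul, map_aeval, e1 h _ t2,
        Matrix.map_smul _ _ (map_zsmul _ _), D.map_a, e0, e0 fun s => aeval (D.ev s) u, ← map_mul,
        ← map_zsmul, ← map_add]
      congr 1
      funext x
      rw [Pre.th, g.lam_eq]
      simp [Eig.pre]
    have e2 := hom_aeval (algebraMap ℚ_[l] (PadicAlgCl l)).mapMatrix
      ((aeval (zM ℤ_[l] a) u * D.Nm h + r • zM ℤ_[l] a).map (↑)) (F.f fun i => b i)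
    refine Eq.trans ?_ e2.symm
    change (D.Nm (j b)).map (algebraMap ℤ_[l] (PadicAlgCl l)) = aeval
      ((aeval (zM ℤ_[l] a) u * D.Nm h + r • zM ℤ_[l] a).map (algebraMap ℤ_[l] (PadicAlgCl l))) _
    rw [e3, e1 _ _ (hj b)]
    refine Eq.trans ?_ (dloc_aeval u1 u2 _ _).symm
    simp only [k3]
    rfl
  · let b₀ : ∀ i, 𝓞 (E i) := fun i => ⟨p * F.U i, F.intU i⟩
    let b₁ : ∀ i, 𝓞 (E i) := b₀ + fun i => F.cO i (b₀ i)
    have c1 : ∀ i, F.cO i (b₁ i) = b₁ i := fun i => by
      change F.cO i (b₀ i + F.cO i (b₀ i)) = b₀ i + F.cO i (b₀ i)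
      rw [map_add, add_comm]
      congr 1
      exact Subtype.ext (F.cc i _)
    have c2 : J b₁ = (j b₀).trace • 1 := (map_add J _ _).trans (ad b₀)
    have c3 : ∀ i, D.s i (j b₀).trace = p * (g.pre.v (i, 0) + (g.pre.v (i, 0))⁻¹) := fun i => by
      rw [tr, ← g.pre.v_rev, ← k1, ← k1, mul_add]
      exact congrArg₂ (· + ·) ((map_mul _ _ _).trans (by rw [map_natCast]))
        ((map_mul _ _ _).trans (by rw [map_natCast]; rfl))
    obtain ⟨q, rfl⟩ := gen_of_far D (t := (j b₀).trace) (fun i i' e => by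
      have a1 : g.pre.v (i, 0) ≠ 0 := norm_ne_zero_iff.1 ((nv _).trans_ne one_ne_zero)
      have a2 : g.pre.v (i', 0) ≠ 0 := norm_ne_zero_iff.1 ((nv _).trans_ne one_ne_zero)
      have a3 := far (i, 0) (i', Fin.rev 0) (by simp [e])
      rw [g.pre.v_rev] at a3
      rw [c3, c3, ← mul_sub, show g.pre.v (i, 0) + (g.pre.v (i, 0))⁻¹ -
        (g.pre.v (i', 0) + (g.pre.v (i', 0))⁻¹) = (g.pre.v (i, 0) - g.pre.v (i', 0)) *
          (g.pre.v (i, 0) - (g.pre.v (i', 0))⁻¹) / g.pre.v (i, 0) by field_simp; ring,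
        norm_mul, norm_div, norm_mul, a3, far _ _ (by simp [e]), nv, et_nat hp]
      simp) x
    obtain ⟨w, q', rfl⟩ := dloc_approx q N
    refine ⟨aeval b₁ w, aeval (j b₀).trace w, fun i => ?_, ?_, aeval (j b₀).trace q', ?_⟩
    · have := hom_aeval (Pi.evalRingHom (fun i => 𝓞 (E i)) i) b₁ w
      change aeval b₁ w i = aeval (b₁ i) w at this
      rw [this, ← c1 i]
      exact (hom_aeval (F.cO i).toRingHom _ w).trans (by rw [c1 i]; exact congrArg (aeval · w) (c1 i))
    · rw [hom_aeval J, c2, ← Algebra.algebraMap_eq_smul_one, ← Algebra.algebraMap_eq_smul_one,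
        hom_aeval]
    · rw [map_add, aeval_map_algebraMap, add_sub_cancel_left, map_mul, aeval_C, map_pow, map_natCast]

end Pool.Agent.MW.Dd
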