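import Pool.Agent.Lib.MP_d61fbb_ag.MW.ASys
import Pool.Agent.Lib.MP_d61fbb_ag.MW.T5
import Pool.Agent.Lib.MP_d61fbb_ag.MW.BD1
import Pool.Agent.Lib.MP_d61fbb_ag.MW.BV3
import Pool.Agent.Lib.MP_d61fbb_ag.MW.BAl5
import Pool.Agent.Lib.MP_d61fbb_ag.MW.BLat

/-! The closed forms of the interface statements. -/

set_option autoImplicit false

namespace Pool.Agent.MT

variable [dm : Dim]

theorem p_irr : IRR := t_b0.1
theorem p_uniq : UNIQ := t_b0.2.1
theorem p_genp : GENP := t_b0.2.2.1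
theorem p_inj : INJ := t_b0.2.2.2
theorem p_a : AStmt := t_a p_inj
theorem p_gh : GH := t_gh
theorem p_van : VAN := van_of p_irr p_uniq p_genp p_inj
theorem p_weil : WEIL := weil_of p_irr p_uniq p_genp p_inj p_van
theorem p_alpha : ALPHA := t_alpha p_irr p_uniq p_genp p_inj p_van
theorem p_reds : REDS := (t_red p_irr p_uniq p_genp p_inj p_gh).1
theorem p_lat : LAT := (t_red p_irr p_uniq p_genp p_inj p_gh).2.1
theorem p_redg : REDG := (t_red p_irr p_uniq p_genp p_inj p_gh).2.2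

end Pool.Agent.MT
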