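import Pool.Agent.Lib.MP_d61fbb_ag.MW.DSp
import Pool.Agent.Lib.MP_d61fbb_ag.MW.DAlg
import Pool.Agent.Lib.MP_d61fbb_ag.MW.DLoc
import Pool.Agent.Lib.MP_d61fbb_ag.MW.DCo
import Pool.Agent.Lib.MP_d61fbb_ag.MW.P0

/-! Block D: the assembly. -/

set_option autoImplicit false

noncomputable section

open Matrix Polynomial NumberField Function

namespace Pool.Agent.MW.Dd

open Pool.Agent.MT
open Pool.Agent.Lib.MP_696deb_nt.B2 (Qbar)

variable [dm : Dim] {e k n p l : ℕ} [Fact l.Prime] {P : ℤ[X]} {Q : ℚ[X]} {r : ℤ} {a : M8 ℤ}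
  {κ : Type} [Fintype κ] {E : κ → Type} [∀ i, Field (E i)] [∀ i, NumberField (E i)]
  (F : DF e k n a.charpoly P Q r p E) {x : M8 ℤ_[l]}
  (hQ : Q.map (algebraMap ℚ (PadicAlgCl l)) = (x + r • zM ℤ_[l] a).charpoly.map (algebraMap ℤ_[l] _))

theorem fin_map {S : Type} [CommRing S] (φ : ℤ_[l] →+* S) :
    (x + r • zM ℤ_[l] a).map φ = x.map φ + r • zM S a := by
  ext
  simp only [map_apply, Matrix.add_apply, Matrix.smul_apply, map_add, map_zsmul, map_intCast]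

include hQ in
theorem fin_root : aeval ((x + r • zM ℤ_[l] a).map ((↑) : ℤ_[l] → ℚ_[l])) Q = 0 :=
  Matrix.map_injective (algebraMap ℚ_[l] (PadicAlgCl l)).injective (by
    simp only [aeval_up, hQ, ← charpoly_map, aeval_self_charpoly, Matrix.map_zero _ (map_zero _)])

include hQ in
theorem fin_a (hc : Commute (zM ℤ_[l] a) x) (hP : x.charpoly = P.map (Int.castRingHom _)) :
    aeval ((x + r • zM ℤ_[l] a).map ((↑) : ℤ_[l] → ℚ_[l])) F.Fa = zM ℚ_[l] a := by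
  let φ := algebraMap ℤ_[l] (PadicAlgCl l)
  have e1 : φ.mapMatrix (zM ℤ_[l] a) = zM _ a := by ext; simp
  rw [← charpoly_map, fin_map, ← Int.cast_smul_eq_zsmul (PadicAlgCl l)] at hQ
  refine Matrix.map_injective (algebraMap ℚ_[l] (PadicAlgCl l)).injective ?_
  simp only [aeval_up]
  rw [fin_map, ← Int.cast_smul_eq_zsmul (PadicAlgCl l), com_eq (a := zM _ a) (b := x.map φ)
    (e1 ▸ hc.map φ.mapMatrix :) _ (hQ ▸ F.sep.map) (aeval_self_charpoly _)
    (aeval_self_charpoly _) fun y z hy hz h => ?_]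
  · ext; simp
  · rw [show zM _ a = a.map (algebraMap ℤ _) from rfl, charpoly_map, eval_map_algebraMap] at hy
    rw [charpoly_map, hP, Polynomial.map_map, Subsingleton.elim (φ.comp _) (algebraMap ℤ _),
      eval_map_algebraMap] at hz
    rw [eval_map_algebraMap]
    exact F.Fa_eq _ y z hy hz (by rw [← eval_map_algebraMap, hQ]; exact h)

include hQ in
theorem fin_adj (hc : Commute (zM ℤ_[l] a) x) (hP : x.charpoly = P.map (Int.castRingHom _))
    (hx : GS (p : ℤ_[l]) x) {b : ℚ[X]}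
    (hb : (zM ℚ a)ᵀ * J (Fin gg) ℚ = J (Fin gg) ℚ * aeval (zM ℚ a) b) (g : ℚ[X]) :
    (aeval ((x + r • zM ℤ_[l] a).map ((↑) : ℤ_[l] → ℚ_[l])) g)ᵀ * J (Fin gg) ℚ_[l] =
      J (Fin gg) ℚ_[l] * aeval ((x + r • zM ℤ_[l] a).map ((↑) : ℤ_[l] → ℚ_[l]))
        (g.comp (C (p : ℚ) * F.Fi + C (r : ℚ) * b.comp F.Fa)) := by
  have h1 := fin_a F hQ hc hP
  have h2 := aeval_of_dvd (fin_root hQ) F.Fi_eq
  have e2 : (x + r • zM ℤ_[l] a).map ((↑) : ℤ_[l] → ℚ_[l]) =
      x.map (↑) + r • zM ℚ_[l] a := fin_map PadicInt.Coe.ringHom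
  have h3 := gs_iff.1 (hx.map PadicInt.Coe.ringHom)
  have h4 := congrArg (algebraMap ℚ ℚ_[l]).mapMatrix hb
  have e3 : (algebraMap ℚ ℚ_[l]).mapMatrix (zM ℚ a) = zM ℚ_[l] a := by ext; simp
  rw [map_mul, map_mul, hom_aeval, e3, RingHom.mapMatrix_apply, RingHom.mapMatrix_apply, map_J,
    transpose_map, ← RingHom.mapMatrix_apply, e3] at h4
  rw [aeval_comp]
  refine aeval_adj ?_ g
  rw [mul_comm, map_mul, map_sub, map_mul, h1, aeval_X, aeval_C, map_one, map_intCast,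
    ← zsmul_eq_mul, sub_eq_of_eq_add e2] at h2
  rw [map_add, map_mul, map_mul, aeval_comp, h1, aeval_C, aeval_C, map_intCast, map_natCast,
    ← zsmul_eq_mul, ← nsmul_eq_mul, mul_add, mul_smul_comm, mul_smul_comm, ← h4, ← smul_mul_assoc,
    ← Nat.cast_smul_eq_nsmul ℚ_[l], ← map_natCast PadicInt.Coe.ringHom, ← h3, mul_assoc]
  erw [h2]
  rw [e2, transpose_add, add_mul, mul_one, transpose_smul, smul_mul_assoc]
  rfl

omit dm [Fact l.Prime] in
theorem exists_int (b : ∀ i, E i) : ∃ (m : ℤ) (c : ∀ i, 𝓞 (E i)), m ≠ 0 ∧ ∀ i, m * b i = c i := by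
  classical
  choose D D0 h using fun i => ((IsFractionRing.isAlgebraic_iff ℤ ℚ (E i)).2
    (Algebra.IsAlgebraic.isAlgebraic (b i))).exists_integral_multiple
  refine ⟨∏ i, D i, fun i => ⟨(∏ i, D i : ℤ) * b i, ?_⟩, Finset.prod_ne_zero_iff.2 fun i _ => D0 i,
    fun _ => rfl⟩
  rw [← Finset.prod_erase_mul _ _ (Finset.mem_univ i), Int.cast_mul, mul_assoc, ← zsmul_eq_mul _ (D i)]
  exact (isIntegral_intCast _).mul (h i)

theorem fin_ext {θ : M8 ℚ_[l]} (h0 : aeval θ Q = 0) (h : ∀ b : ∀ i, 𝓞 (E i),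
    (aeval θ (F.f fun i => b i))ᵀ * J (Fin gg) ℚ_[l] =
      J (Fin gg) ℚ_[l] * aeval θ (F.f fun i => F.c i (b i))) (b : ∀ i, E i) :
    (aeval θ (F.f b))ᵀ * J (Fin gg) ℚ_[l] = J (Fin gg) ℚ_[l] * aeval θ (F.f fun i => F.c i (b i)) := by
  obtain ⟨m, c, m0, hm⟩ := exists_int b
  have h1 : ∀ b : ∀ i, E i, aeval θ (F.f fun i => m * b i) = ((m : ℚ) ^ k) • aeval θ (F.f b) :=
    fun b => by
      have := aeval_of_dvd h0 (F.f_mul (fun _ => (m : ℚ)) b)
      rw [map_mul, aeval_of_dvd h0 (F.f_rat m), aeval_C, ← Algebra.smul_def] at this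
      simpa [Pi.mul_def] using this
  have := h c
  simp only [← hm, map_mul, map_intCast, h1, transpose_smul, smul_mul_assoc, mul_smul_comm] at this
  exact smul_right_injective _ (pow_ne_zero k (Int.cast_ne_zero.2 m0)) this

theorem Loc.adj' {D : Blk e k n l a} {θ : M8 ℚ_[l]} (L : Loc F D θ) (b : ∀ i, 𝓞 (E i)) :
    (aeval θ (F.f fun i => b i))ᵀ * J (Fin gg) ℚ_[l] =
      J (Fin gg) ℚ_[l] * aeval θ (F.f fun i => F.c i (b i)) := by
  have := congrArg (·.map PadicInt.Coe.ringHom) (D.adj (L.j b))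
  simp only [Matrix.map_mul, map_J, transpose_map, ← L.adj] at this
  rw [← L.nm]
  exact this.trans (congrArg _ (L.nm _))

omit [Fact l.Prime] in
theorem d_pl : DPL := by
  classical
  intro τ K e k n M A hK l₀ hl hb B t t0 hC
  obtain ⟨v, hv, u, h, g, z, hρ, hz, hc⟩ := d_choice M A hK hl hb (insert (l₀ : ℕ) B)
  rw [Finset.mem_insert, not_or] at hv
  have hp : l₀ ≠ v.p := fun e => hv.1 (congrArg _ e.symm)
  obtain ⟨R, hR⟩ := p_reds τ K _ A v
  obtain ⟨P, hP, wl⟩ := bv3_gl v.p gg card_sum R.π (fun _ hl => R.det_sq hl)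
    (fun m => ⟨_, R.ineq_a p_genp m⟩) ⟨_, R.ineq_b p_genp⟩
  have mP : P.Monic := monic_of_injective Int.cast_injective (hP _ hp ▸ charpoly_monic _)
  obtain ⟨r, hr, sp⟩ := exists_sepr (charpoly_monic M.a) mP t t0
  have cm : ∀ R, RedOf v R → ∃ N, R.Cmp (r • zM AF M.a) N := fun R hR => by
    obtain ⟨m, rfl⟩ := hr
    obtain ⟨N, hN⟩ := hC v hv.2 R hR
    exact ⟨_, by rw [mul_comm, mul_smul]; exact hN.zsmul p_genp m⟩
  obtain ⟨Q, -, hQ⟩ := TSys.rat_char p_irr p_genp (add_mem (R.pi_mem _ _) (cm R hR))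
    (th M v.φ r) fun l _ => by
      refine Eq.trans ?_ (fin_map PadicInt.Coe.ringHom).symm
      ext i j
      simp only [map_apply, Matrix.add_apply, Matrix.smul_apply, map_add, map_zsmul, map_intCast,
        hR.π]
      rfl
  have gs := fun l => R.gs (l := l)
  rw [hR.π] at hP gs
  have of : ∀ l (hl : l ∉ M.S), l ≠ v.p → ∀ u h (g : Eig (M.D l hl) u h), (M.ρ v.φ l).val =
      aeval (zM ℤ_[l] M.a) u * (M.D l hl).Nm h → g.pre.Of M.a.charpoly P Q r :=
    fun l hl hp u h g e => g.of (e ▸ hP l hp) (e ▸ hQ l hp)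
  have o0 := of _ hl hp _ _ g hρ
  let j : Qbar →+* PadicAlgCl l₀ := (IsAlgClosed.lift : Qbar →ₐ[ℚ] PadicAlgCl l₀)
  obtain ⟨π, hπ⟩ := Pre.pull j (charpoly_monic _) mP o0.al o0.lam
  have G : Gd π M.a.charpoly P Q r v.p :=
    { toOf := (Pre.of_map j).1 (hπ ▸ o0)
      ind := (ind_map j).1 fun c h1 h2 => by_contra fun h3 => by
        have := hc c h3 h1
        rw [← hπ, show ∏ i, (π.map j).u i ^ c i = 1 from h2, sub_self, norm_zero] at this
        exact zero_ne_one this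
      mA := charpoly_monic _, mP := mP, p0 := v.p.2.ne_zero, weil := wl, sepr := sp
      surj := fun z hz => ((root_a (M.D l₀ hl)).1 ((aeval_homZ j _ _).trans
        ((map_eq_zero j).2 hz))).imp fun s h => j.injective ((congrArg (·.al s) hπ).trans h) }
  obtain ⟨κ, _, E, _, _, ⟨F⟩⟩ := d_alg _ _ _ _ _ _ _ _ π G
  have np : ∀ l : Pr, l ≠ v.p → ¬ (l : ℕ) ∣ v.p := fun l h e =>
    h (Subtype.ext ((Nat.prime_dvd_prime_iff_eq l.2 v.p.2).1 e))
  obtain ⟨L, hL⟩ := exists_loc F g (np _ hp) o0 (far_of_ind g.norm_v (F.emb _ _ o0).1 hc)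
  have hL' := L.split (np _ hp) fun i => by rw [hL (i, 1)]; exact hz i
  rw [← hρ] at L
  obtain ⟨b, hb⟩ := M.adj
  have aj := fun l hp => fin_adj F (hQ l hp) (M.comm _ l) (hP l hp) (gs l hp) hb
  have key : ∀ c : ∀ i, 𝓞 (E i), Q ∣ (F.f fun i => c i).comp (C ((v.p : ℕ) : ℚ) * F.Fi +
      C (r : ℚ) * b.comp F.Fa) - F.f fun i => F.c i (c i) := fun c => by
    refine dvd_of_root G.th_inj G.fac fun x => j.injective ?_
    rw [← aeval_hom, map_zero, ← eval_map_algebraMap]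
    refine root_of_char (θ := (th M v.φ r l₀).map (algebraMap _ _)) ?_ ?_
    · rw [charpoly_map, ← hQ _ hp, IsRoot, eval_map_algebraMap, aeval_hom, G.root.2 ⟨x, rfl⟩,
        map_zero]
    · rw [← aeval_up, map_sub, th, sub_eq_zero.2 (((isUnit_iff_isUnit_det _).2
        (isUnit_det_J _ _)).mul_left_cancel ((aj _ hp _).symm.trans (L.adj' F c))),
        Matrix.map_zero _ (map_zero _)]
  let T := (insert v.p (M.S ∪ F.D.natAbs.primeFactors.preimage _ Subtype.val_injective.injOn)).erase l₀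
  have hT : ∀ l ∉ T, l ≠ l₀ → l ≠ v.p ∧ l ∉ M.S ∧ ¬ ((l : ℕ) : ℤ) ∣ F.D := fun l h h' => by
    simpa [T, h', l.2, F.D0, Int.natCast_dvd] using h
  have nS : ∀ l ∉ T, l ∉ M.S := fun l h => by
    rcases eq_or_ne l l₀ with rfl | h'
    exacts [hl, (hT l h h').2.1]
  have lc : ∀ l (h : l ∉ T), Nonempty (Loc F (M.D l (nS l h)) ((th M v.φ r l).map (↑))) := by
    intro l h
    rcases eq_or_ne l l₀ with rfl | h'
    · exact ⟨L⟩
    obtain ⟨h1, h2, h3⟩ := hT l h h'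
    obtain ⟨u, h, hu, hh, e⟩ := M.sub v.φ l h2
    obtain ⟨g⟩ := exists_eig hu hh
    have o := of l h2 h1 _ _ g e
    obtain ⟨k1, -, k2, -⟩ := F.emb _ _ o
    obtain ⟨L, -⟩ := exists_loc F g (np l h1) o fun y y' hy =>
      far_of_int h3 (g.norm_v y) (g.norm_v y') (k1.ne hy) (k2 y y')
    exact ⟨by rwa [← e] at L⟩
  refine ⟨v, hv.2, P, Q, r, κ, _, E, _, _, hr, cm, ⟨{
    toDF := F, gs := gs, T := T, notS := nS
    root := fun l hp => fin_root (hQ l hp)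
    a_eq := fun l hp => fin_a F (hQ l hp) (M.comm _ l) (hP l hp)
    adj := fun l hp => fin_ext F (fin_root (hQ l hp)) fun c =>
      (aj l hp _).trans (congrArg _ (aeval_of_dvd (fin_root (hQ l hp)) (key c)))
    p_mem := Finset.mem_erase.2 ⟨hp.symm, Finset.mem_insert_self _ _⟩
    l_not := Finset.notMem_erase _ _
    loc := fun l h => (lc l h).some
    split := hL' }⟩⟩

end Pool.Agent.MW.Dd
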