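import Mathlib

/-! Presentations of a joint spectrum as a union of cubes. -/

set_option autoImplicit false

open Finset Function

namespace Pool.Agent.MW.Dd

variable {L L' : Type} [Field L] [Field L'] {e k n : ℕ}

/-- No small multiplicative relation. -/
def Ind {ι : Type} [Fintype ι] (u : ι → L) : Prop :=
  ∀ a : ι → ℤ, (∀ i, |a i| ≤ 2) → ∏ i, u i ^ a i = 1 → a = 0

/-- a number or its inverse -/
def sg (x : L) (d : Fin 2) : L := if d = 1 then x else x⁻¹

/-- the vertices of a cube -/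
def cb (w : L) (u : Fin k → L) (d : Fin k → Fin 2) : L := w * ∏ j, u j ^ (d j : ℕ)

theorem sg_rev (x : L) (d : Fin 2) : sg x d.rev = (sg x d)⁻¹ := by
  fin_cases d <;> simp [sg, Fin.rev]

theorem map_sg (φ : L →+* L') (x : L) (d : Fin 2) : φ (sg x d) = sg (φ x) d := by
  unfold sg
  split_ifs <;> simp

theorem ind_map {ι : Type} [Fintype ι] {u : ι → L} (φ : L →+* L') :
    (Ind fun i => φ (u i)) ↔ Ind u := by
  refine forall₂_congr fun δ _ => imp_congr_left ?_
  simp only [← map_zpow₀, ← map_prod, map_eq_one_iff φ φ.injective]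

theorem Ind.comp {u : Fin n → L} (h : Ind u) {f : Fin k → Fin n} (hf : Injective f) :
    Ind fun j => u (f j) := fun a h1 h2 => by
  have := h (extend f a 0) (fun i => by
    by_cases hi : ∃ j, f j = i
    · obtain ⟨j, rfl⟩ := hi
      rw [hf.extend_apply]
      exact h1 j
    · simp [extend_apply' _ _ _ hi]) (by
    rw [← h2]
    exact (Fintype.prod_of_injective f hf _ _ (fun i hi => by simp [extend_apply' _ _ _ hi])
      fun j => by rw [hf.extend_apply]).symm)
  exact funext fun j => (hf.extend_apply a 0 j).symm.trans (congrFun this _)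

theorem Ind.sg_inj {u : Fin n → L} (h : Ind u) (hu : ∀ i, u i ≠ 0) :
    Injective fun y : Fin n × Fin 2 => sg (u y.1) y.2 := by
  rintro ⟨i, a⟩ ⟨j, b⟩ e
  have k1 : ∀ (i : Fin n) (a : Fin 2),
      ∏ m, u m ^ (Pi.single i (2 * (a : ℕ) - 1 : ℤ) : Fin n → ℤ) m = sg (u i) a := fun i a => by
    rw [prod_eq_single i (fun m _ hm => by simp [hm]) (by simp)]
    fin_cases a <;> simp [sg]
  have := congrFun (h (Pi.single i (2 * (a : ℕ) - 1 : ℤ) - Pi.single j (2 * (b : ℕ) - 1 : ℤ)) (fun m => by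
    simp only [Pi.sub_apply, Pi.single_apply, abs_le]
    split_ifs <;> omega) (by
    simp only [Pi.sub_apply, zpow_sub₀ (hu _), prod_div_distrib, k1]
    exact (div_eq_one_iff_eq (k1 j b ▸ prod_ne_zero_iff.2 fun m _ => zpow_ne_zero _ (hu m))).2 e)) i
  simp only [Pi.sub_apply, Pi.single_apply, if_true, Pi.zero_apply] at this
  split_ifs at this with hij
  · exact Prod.ext hij (show a = b by omega)
  · omega

section
variable {w w' : L} {u u' : Fin k → L}

theorem cb_ne (hw : w ≠ 0) (hu : ∀ i, u i ≠ 0) (d : Fin k → Fin 2) : cb w u d ≠ 0 :=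
  mul_ne_zero hw (prod_ne_zero_iff.2 fun i _ => pow_ne_zero _ (hu i))

theorem cb_div (hw : w ≠ 0) (hu : ∀ i, u i ≠ 0) (d c : Fin k → Fin 2) :
    cb w u d / cb w u c = ∏ i, u i ^ ((d i : ℕ) - (c i : ℕ) : ℤ) := by
  simp only [cb, zpow_sub₀ (hu _), zpow_natCast, prod_div_distrib, mul_div_mul_left _ _ hw]

theorem cb_update (d : Fin k → Fin 2) (i : Fin k) :
    cb w u (update d i 1) = cb w u (update d i 0) * u i := by
  rw [cb, cb, ← mul_prod_erase _ _ (mem_univ i), ← mul_prod_erase _ _ (mem_univ i),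
    prod_congr rfl (g := fun j => u j ^ (update d i 0 j : ℕ)) fun j hj => by
      simp [(mem_erase.1 hj).1]]
  simp only [update_self, Fin.val_one, Fin.val_zero]
  ring

theorem Ind.cb_inj (h : Ind u) (hw : w ≠ 0) (hu : ∀ i, u i ≠ 0) : Injective (cb w u) :=
  fun d c k => by
  have := h (fun i => (d i : ℕ) - (c i : ℕ)) (fun i => by rw [abs_le]; omega) (by
    rw [← cb_div hw hu d c, k]
    exact div_self (cb_ne hw hu c))
  funext i
  have := congrFun this i
  simp only [Pi.zero_apply] at this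
  omega

/-- The presentation as a cube is unique. -/
theorem Ind.cb_uniq (hI : Ind u) (hw : w ≠ 0) (hu : ∀ i, u i ≠ 0) (h1 : Injective (cb w' u'))
    (h : ∀ d, ∃ c, cb w' u' d = cb w u c) : ∃ m : Fin k → Fin k, Bijective m ∧
      ∀ d c, cb w' u' d = cb w u c → ∀ i, sg (u' i) (d i) = sg (u (m i)) (c (m i)) := by
  choose π hπ using h
  have h2 : Surjective π :=
    Finite.surjective_of_injective fun d c k => h1 (by rw [hπ, hπ, k])
  have h3 : ∀ i, ∃ j, ∀ d, sg (u' i) (d i) = sg (u j) (π d j) := fun i => by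
    let δ : (Fin k → Fin 2) → Fin k → ℤ := fun d j =>
      (π (update d i 1) j : ℕ) - (π (update d i 0) j : ℕ)
    have k1 : ∀ d, ∏ j, u j ^ δ d j = u' i := fun d => by
      rw [← cb_div hw hu, ← hπ, ← hπ, cb_update, mul_div_cancel_left₀]
      exact hπ _ ▸ cb_ne hw hu _
    have k2 : ∀ d j, δ d j - δ 0 j = 0 := fun d => congrFun (hI _
      (fun j => by simp only [δ, abs_le]; omega) (by
        simp only [zpow_sub₀ (hu _), prod_div_distrib, k1]
        exact div_self (k1 0 ▸ prod_ne_zero_iff.2 fun m _ => zpow_ne_zero _ (hu m))))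
    obtain ⟨j, hj⟩ : ∃ j, δ 0 j ≠ 0 := by
      by_contra! k
      have k3 := k1 0
      simp only [k, zpow_zero, prod_const_one] at k3
      have k4 := congrFun (h1 ((cb_update 0 i).trans (by rw [← k3, mul_one]))) i
      rw [update_self, update_self] at k4
      exact one_ne_zero k4
    have k3 : ∀ m, m ≠ j → δ 0 m = 0 := fun m hm => by
      obtain ⟨d, hd⟩ := h2 (update (π (update 0 i 1)) j (π (update 0 i 0) j))
      have a1 := congrFun hd j
      have a2 := congrFun hd m
      rw [update_self] at a1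
      rw [update_of_ne hm] at a2
      have a3 := k2 d j
      have a4 := k2 d m
      simp only [δ] at a3 a4 hj ⊢
      rcases (by omega : d i = 0 ∨ d i = 1) with e | e <;> rw [← e, update_eq_self, e] at a3 a4 <;>
        omega
    have k4 := k1 0
    rw [prod_eq_single j (fun m _ hm => by rw [k3 m hm, zpow_zero]) (by simp)] at k4
    refine ⟨j, fun d => ?_⟩
    have a3 := k2 d j
    rw [← k4, ← sub_eq_zero.1 a3]
    have a4 := sub_eq_zero.1 a3 ▸ hj
    simp only [δ] at a4 ⊢
    rcases (by omega : d i = 0 ∨ d i = 1) with e | e <;> rw [← e, update_eq_self] at a4 ⊢ <;>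
      rw [e] <;> generalize π d j = a at a4 ⊢ <;> generalize π (update d i _) j = b at a4 ⊢ <;>
      fin_cases a <;> fin_cases b <;> simp [sg] at a4 ⊢
  choose m hm using h3
  refine ⟨m, Finite.injective_iff_bijective.1 fun i j e => by_contra fun hij => ?_,
    fun d c e i => by rw [hm, hI.cb_inj hw hu ((hπ d).symm.trans e)]⟩
  have a1 : u' i = u' j := by simpa [sg] using (hm i 1).trans (e ▸ (hm j 1).symm)
  have a2 := congrFun (h1 ((cb_update 0 i).trans (by
    rw [a1, cb_update]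
    simp : _ = cb w' u' (update 0 j 1)))) i
  simp [hij] at a2

end

/-- the index set of the spectrum -/
abbrev Sx (e k : ℕ) := (Fin k → Fin 2) × Fin e

/-- A presentation: one cube for each block. -/
structure Pre (e k n : ℕ) (L : Type) [Field L] where
  al : Fin e → L
  w : Fin e → L
  u : Fin n → L
  io : Fin e → Fin k → Fin n
  io_inj : ∀ s, Injective (io s)
  cover : ∀ i, ∃ s j, io s j = i
  al_inj : Injective al
  w0 : ∀ s, w s ≠ 0
  u0 : ∀ i, u i ≠ 0

namespace Pre

variable (π π' : Pre e k n L)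

/-- the eigenvalues of the Frobenius element -/
def lam (x : Sx e k) : L := cb (π.w x.2) (fun j => π.u (π.io x.2 j)) x.1

/-- the quotients -/
def v (y : Fin n × Fin 2) : L := sg (π.u y.1) y.2

/-- the type norm of a function -/
def nm {M : Type} [CommMonoid M] (g : L → M) (x : Sx e k) : M := ∏ j, g (π.v (π.io x.2 j, x.1 j))

/-- change of fields -/
def map (φ : L →+* L') : Pre e k n L' :=
  ⟨fun s => φ (π.al s), fun s => φ (π.w s), fun i => φ (π.u i), π.io, π.io_inj, π.cover,
    φ.injective.comp π.al_inj, fun s => (map_ne_zero φ).2 (π.w0 s),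
    fun i => (map_ne_zero φ).2 (π.u0 i)⟩

theorem map_lam (φ : L →+* L') (x : Sx e k) : (π.map φ).lam x = φ (π.lam x) := by
  simp [lam, cb, map]

theorem map_v (φ : L →+* L') (y : Fin n × Fin 2) : (π.map φ).v y = φ (π.v y) :=
  (map_sg φ _ _).symm

theorem v_rev (i : Fin n) (d : Fin 2) : π.v (i, d.rev) = (π.v (i, d))⁻¹ := sg_rev _ _

theorem lam_ne (x : Sx e k) : π.lam x ≠ 0 := cb_ne (π.w0 _) (fun _ => π.u0 _) _

theorem exists_quot (i : Fin n) : ∃ x x', π.lam x = π.lam x' * π.u i := by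
  obtain ⟨s, j, rfl⟩ := π.cover i
  exact ⟨(update 0 j 1, s), (update 0 j 0, s), cb_update 0 j⟩

variable {π π'}

/-- Two presentations of the same joint spectrum. -/
theorem agree (hI : Ind π.u) (h1 : ∀ s, Injective fun d => π'.lam (d, s))
    (h : ∀ x', ∃ x, π'.al x'.2 = π.al x.2 ∧ π'.lam x' = π.lam x) :
    (∃ μ : Fin n × Fin 2 → Fin n × Fin 2, Bijective μ ∧ ∀ y, π'.v y = π.v (μ y)) ∧
    ∀ x' x, π'.al x'.2 = π.al x.2 → π'.lam x' = π.lam x →
      ∀ (M : Type) [CommMonoid M] (g : L → M), π'.nm g x' = π.nm g x := by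
  choose t h2 h3 using h
  have h4 : ∀ d s s', π'.al s = π.al s' → (t (d, s)).2 = s' := fun d s s' e =>
    π.al_inj ((h2 (d, s)).symm.trans e)
  have h5 : ∀ s s', π'.al s = π.al s' → _ := fun s s' e =>
    (hI.comp (π.io_inj s')).cb_uniq (π.w0 s') (fun _ => π.u0 _) (w' := π'.w s)
      (u' := fun j => π'.u (π'.io s j)) (h1 s) fun d =>
      ⟨(t (d, s)).1, (h3 (d, s)).trans (h4 d s s' e ▸ rfl)⟩
  refine ⟨?_, fun x' x e1 e2 M _ g => ?_⟩
  · have h6 : ∀ y, ∃ y', π'.v y = π.v y' := fun y => by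
      obtain ⟨s, j, e⟩ := π'.cover y.1
      obtain ⟨m, -, hm⟩ := h5 s _ (h2 (fun _ => y.2, s))
      exact ⟨(_, _), e ▸ hm _ _ (h3 (fun _ => y.2, s)) j⟩
    choose μ hμ using h6
    refine ⟨μ, Finite.surjective_iff_bijective.1 fun y => ?_, hμ⟩
    obtain ⟨s', j, e⟩ := π.cover y.1
    obtain ⟨s, rfl⟩ := Finite.surjective_of_injective (f := fun s => (t (0, s)).2)
      (fun a b e => π'.al_inj ((h2 (0, a)).trans ((congrArg π.al e).trans (h2 (0, b)).symm))) s'
    obtain ⟨m, m1, hm⟩ := h5 s _ (h2 (0, s))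
    obtain ⟨j, rfl⟩ := m1.2 j
    have h7 : π'.v (π'.io s j, 0) = π.v (y.1, (t (0, s)).1 (m j)) := e ▸ hm _ _ (h3 (0, s)) j
    by_cases h8 : (t (0, s)).1 (m j) = y.2
    · exact ⟨_, hI.sg_inj π.u0 ((hμ _).symm.trans (h8 ▸ h7))⟩
    · refine ⟨(π'.io s j, Fin.rev 0), hI.sg_inj π.u0 ((hμ _).symm.trans ?_)⟩
      rw [v_rev, h7, ← v_rev, show Fin.rev ((t (0, s)).1 (m j)) = y.2 by
        rw [Fin.ext_iff, Fin.val_rev]; omega]
      rfl
  · obtain ⟨m, m1, hm⟩ := h5 _ _ e1
    exact Fintype.prod_bijective m m1 _ _ fun j => congrArg g (hm _ _ e2 j)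

end Pre

end Pool.Agent.MW.Dd
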