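import Pool.Agent.Lib.MP_d61fbb_ag.MW.DInt
import Pool.Agent.Lib.MP_d61fbb_ag.MW.DPre

/-! Presentations of the roots of the three polynomials. -/

set_option autoImplicit false

open Finset Function Polynomial

namespace Pool.Agent.MW.Dd

open Pool.Agent.Lib.MP_696deb_nt.B2 (Qbar Gam jC cc jC_cc)

variable {L L' : Type} [Field L] [Field L'] [CharZero L] [CharZero L'] {e k n p : ℕ}
  {A P : ℤ[X]} {Q : ℚ[X]} {r : ℤ}

theorem aeval_hom (φ : L →+* L') (a : L) (g : ℚ[X]) : aeval (φ a) g = φ (aeval a g) :=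
  aeval_algHom_apply φ.toRatAlgHom a g

omit [CharZero L] [CharZero L'] in
theorem aeval_homZ (φ : L →+* L') (a : L) (g : ℤ[X]) : aeval (φ a) g = φ (aeval a g) :=
  aeval_algHom_apply φ.toIntAlgHom a g

theorem mem_rangeZ (j : Qbar →+* L) {y : L} {g : ℤ[X]} (hg : g.Monic) (hy : aeval y g = 0) :
    ∃ x, j x = y :=
  mem_range j (hg.map (algebraMap ℤ ℚ)).ne_zero ((aeval_map_algebraMap ℚ _ _).trans hy)

namespace Pre

/-- the eigenvalues of the generator -/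
def th (π : Pre e k n L) (r : ℤ) (x : Sx e k) : L := π.lam x + r * π.al x.2

/-- `π` presents the joint spectrum -/
structure Of (π : Pre e k n L) (A P : ℤ[X]) (Q : ℚ[X]) (r : ℤ) : Prop where
  al : ∀ s, aeval (π.al s) A = 0
  lam : ∀ x, aeval (π.lam x) P = 0
  fac : Q.map (algebraMap ℚ L) = ∏ x, (X - C (π.th r x))

variable {π : Pre e k n L}

omit [CharZero L] [CharZero L'] in
theorem map_th (φ : L →+* L') (x : Sx e k) : (π.map φ).th r x = φ (π.th r x) := by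
  rw [th, th, map_lam, map_add, map_mul, map_intCast]
  rfl

theorem of_map (φ : L →+* L') : (π.map φ).Of A P Q r ↔ π.Of A P Q r := by
  have h1 : ∀ s, aeval ((π.map φ).al s) A = 0 ↔ aeval (π.al s) A = 0 := fun s => by
    rw [← map_eq_zero φ, ← aeval_homZ]
    rfl
  have h2 : ∀ x, aeval ((π.map φ).lam x) P = 0 ↔ aeval (π.lam x) P = 0 := fun s => by
    rw [← map_eq_zero φ, ← aeval_homZ, map_lam]
  have h3 : Q.map (algebraMap ℚ L') = ∏ x, (X - C ((π.map φ).th r x)) ↔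
      Q.map (algebraMap ℚ L) = ∏ x, (X - C (π.th r x)) := by
    rw [← (map_injective φ φ.injective).eq_iff, Polynomial.map_map,
      Subsingleton.elim (φ.comp _) (algebraMap ℚ L')]
    simp [Polynomial.map_prod, map_th]
  exact ⟨fun h => ⟨fun s => (h1 s).1 (h.al s), fun x => (h2 x).1 (h.lam x), h3.1 h.fac⟩,
    fun h => ⟨fun s => (h1 s).2 (h.al s), fun x => (h2 x).2 (h.lam x), h3.2 h.fac⟩⟩

theorem Of.root (h : π.Of A P Q r) {z : L} : aeval z Q = 0 ↔ ∃ x, π.th r x = z := by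
  rw [← eval_map_algebraMap, h.fac, eval_prod, prod_eq_zero_iff]
  simp only [mem_univ, true_and, eval_sub, eval_X, eval_C, sub_eq_zero, eq_comm (a := z)]

theorem Of.sep (h : π.Of A P Q r) : Q.Separable ↔ Injective (π.th r) := by
  rw [← separable_map (algebraMap ℚ L), h.fac, separable_prod_X_sub_C_iff]

theorem pull (j : Qbar →+* L) (hA : A.Monic) (hP : P.Monic) (h1 : ∀ s, aeval (π.al s) A = 0)
    (h2 : ∀ x, aeval (π.lam x) P = 0) : ∃ π₀ : Pre e k n Qbar, π₀.map j = π := by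
  choose al h3 using fun s => mem_rangeZ j hA (h1 s)
  choose la h4 using fun x => mem_rangeZ j hP (h2 x)
  choose x x' h5 using π.exists_quot
  have h6 : ∀ s, j (la (0, s)) = π.w s := fun s => by simp [h4, lam, cb]
  have h7 : ∀ i, j (la (x i) / la (x' i)) = π.u i := fun i => by
    rw [map_div₀, h4, h4, h5, mul_div_cancel_left₀ _ (π.lam_ne _)]
  refine ⟨⟨al, fun s => la (0, s), fun i => la (x i) / la (x' i), π.io, π.io_inj, π.cover,
    fun a b e => π.al_inj (by rw [← h3, e, h3]), fun s => (map_ne_zero j).1 (h6 s ▸ π.w0 s),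
    fun i => (map_ne_zero j).1 (h7 i ▸ π.u0 i)⟩, ?_⟩
  simp only [map, h3, h6, h7]

end Pre

/-- the sums `y + r x` of roots determine `x` -/
def Sepr (A P : ℤ[X]) (r : ℤ) : Prop := ∀ x x' y y' : Qbar, aeval x A = 0 → aeval x' A = 0 →
  aeval y P = 0 → aeval y' P = 0 → y + r * x = y' + r * x' → x = x'

theorem exists_sepr (hA : A.Monic) (hP : P.Monic) (N : ℤ) (hN : N ≠ 0) :
    ∃ r : ℤ, N ∣ r ∧ Sepr A P r := by
  classical
  have h1 : ∀ {B : ℤ[X]}, B.Monic → ∀ x : Qbar, aeval x B = 0 → x ∈ (B.aroots Qbar).toFinset :=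
    fun hB x h => Multiset.mem_toFinset.2 (mem_aroots'.2 ⟨(hB.map _).ne_zero, h⟩)
  obtain ⟨m, hm⟩ := Infinite.exists_notMem_finset (((((A.aroots Qbar).toFinset ×ˢ
    (A.aroots Qbar).toFinset) ×ˢ (P.aroots Qbar).toFinset ×ˢ (P.aroots Qbar).toFinset).image
      fun t => (t.2.2 - t.2.1) / (t.1.1 - t.1.2) / (N : Qbar)).preimage (Int.cast : ℤ → Qbar)
        Int.cast_injective.injOn)
  refine ⟨N * m, dvd_mul_right _ _, fun x x' y y' a a' b b' e => by_contra fun h => hm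
    (mem_preimage.2 (mem_image.2 ⟨((x, x'), y, y'), mem_product.2 ⟨mem_product.2
      ⟨h1 hA _ a, h1 hA _ a'⟩, mem_product.2 ⟨h1 hP _ b, h1 hP _ b'⟩⟩, ?_⟩))⟩
  rw [div_div, div_eq_iff (mul_ne_zero (sub_ne_zero.2 h) (Int.cast_ne_zero.2 hN))]
  push_cast at e
  linear_combination -e

/-- The properties that come from the choice of the place. -/
structure Gd (π : Pre e k n Qbar) (A P : ℤ[X]) (Q : ℚ[X]) (r : ℤ) (p : ℕ) : Prop
    extends π.Of A P Q r where
  ind : Ind π.u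
  mA : A.Monic
  mP : P.Monic
  p0 : p ≠ 0
  weil : ∀ z : ℂ, aeval z P = 0 → ‖z‖ ^ 2 = p
  sepr : Sepr A P r
  surj : ∀ z : Qbar, aeval z A = 0 → ∃ s, π.al s = z

namespace Gd

variable {π π' : Pre e k n Qbar} (G : Gd π A P Q r p)
include G

theorem pt (h : π'.Of A P Q r) {x' x : Sx e k} (e : π'.th r x' = π.th r x) :
    π'.al x'.2 = π.al x.2 ∧ π'.lam x' = π.lam x := by
  have h1 := G.sepr _ _ _ _ (h.al _) (G.al _) (h.lam _) (G.lam _) e
  rw [Pre.th, h1] at e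
  exact ⟨h1, add_right_cancel e⟩

theorem th_inj : Injective (π.th r) := by
  rintro ⟨d, s⟩ ⟨d', s'⟩ e
  obtain ⟨h1, h2⟩ := G.pt G.toOf e
  obtain rfl : s = s' := π.al_inj h1
  exact Prod.ext ((G.ind.comp (π.io_inj s)).cb_inj (π.w0 s) (fun _ => π.u0 _) h2) rfl

theorem sep : Q.Separable := G.toOf.sep.2 G.th_inj

theorem agree (h : π'.Of A P Q r) :
    (∃ μ : Fin n × Fin 2 → Fin n × Fin 2, Bijective μ ∧ ∀ y, π'.v y = π.v (μ y)) ∧
    ∀ x', ∃ x, π.th r x = π'.th r x' ∧ π.al x.2 = π'.al x'.2 ∧ π.lam x = π'.lam x' ∧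
      ∀ (M : Type) [CommMonoid M] (g : Qbar → M), π.nm g x = π'.nm g x' := by
  choose t ht using fun x' => G.root.1 (h.root.2 ⟨x', rfl⟩)
  obtain ⟨h1, h2⟩ := Pre.agree G.ind (fun s d d' e => congrArg Prod.fst (h.sep.1 G.sep
    (congrArg (· + r * π'.al s) e : π'.th r (d, s) = π'.th r (d', s))))
    fun x' => ⟨t x', G.pt h (ht x').symm⟩
  exact ⟨h1, fun x' => have := G.pt h (ht x').symm
    ⟨t x', ht x', this.1.symm, this.2.symm, fun M _ g => (h2 _ _ this.1 this.2 M g).symm⟩⟩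

theorem gal (s : Gam) : (∀ y, ∃ y', π.v y' = s (π.v y)) ∧
    ∀ x, ∃ x', π.th r x' = s (π.th r x) ∧ π.al x'.2 = s (π.al x.2) ∧ π.lam x' = s (π.lam x) ∧
      ∀ g : ℚ[X], π.nm (aeval · g) x' = s (π.nm (aeval · g) x) := by
  obtain ⟨⟨μ, -, h1⟩, h2⟩ := G.agree ((Pre.of_map (s : Qbar →+* Qbar)).2 G.toOf)
  refine ⟨fun y => ⟨μ y, (h1 y).symm.trans (π.map_v _ y)⟩, fun x => (h2 x).imp fun x' h =>
    ⟨h.1.trans (Pre.map_th _ x), h.2.1, h.2.2.1.trans (π.map_lam _ x), fun g => ?_⟩⟩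
  rw [h.2.2.2, Pre.nm, Pre.nm, map_prod]
  exact prod_congr rfl fun j _ => by rw [Pre.map_v, aeval_hom]; rfl

theorem v_inj : Injective π.v := G.ind.sg_inj π.u0

theorem norm_v (y : Fin n × Fin 2) : ‖jC (π.v y)‖ = 1 := by
  obtain ⟨x, x', h⟩ := π.exists_quot y.1
  have h1 := fun x => G.weil (jC (π.lam x)) (by rw [aeval_homZ, G.lam, map_zero])
  have h2 := h1 x
  rw [h, map_mul, norm_mul, mul_pow, h1, mul_eq_left₀ (Nat.cast_ne_zero.2 G.p0),
    pow_eq_one_iff_of_nonneg (norm_nonneg _) two_ne_zero] at h2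
  rw [Pre.v, map_sg, sg]
  split_ifs <;> simp [h2]

theorem cc_v (y : Fin n × Fin 2) : cc (π.v y) = (π.v y)⁻¹ :=
  jC.injective (by rw [jC_cc, map_inv₀, Complex.inv_eq_conj (G.norm_v y)])

theorem int_lam (x : Sx e k) : IsIntegral ℤ (π.lam x) := ⟨P, G.mP, G.lam x⟩

theorem int_th (x : Sx e k) : IsIntegral ℤ (π.th r x) :=
  (G.int_lam x).add ((isIntegral_intCast r).mul ⟨A, G.mA, G.al _⟩)

theorem int_v (y : Fin n × Fin 2) : IsIntegral ℤ (p * π.v y) := by
  have h0 : ∀ x, π.lam x * cc (π.lam x) = p := fun x => jC.injective (by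
    rw [map_mul, jC_cc, Complex.mul_conj', ← Complex.ofReal_pow,
      G.weil _ (by rw [aeval_homZ, G.lam, map_zero]), map_natCast, Complex.ofReal_natCast])
  have h1 : ∀ x x', IsIntegral ℤ (p * (π.lam x / π.lam x')) := fun x x' => by
    rw [← h0 x', mul_comm (π.lam x'), mul_assoc, mul_div_cancel₀ _ (π.lam_ne _)]
    exact ((G.int_lam x').map (cc : Qbar →+* Qbar).toIntAlgHom).mul (G.int_lam x)
  obtain ⟨x, x', h⟩ := π.exists_quot y.1
  rw [Pre.v, ← mul_div_cancel_left₀ (π.u y.1) (π.lam_ne x'), ← h, sg]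
  split_ifs
  exacts [h1 _ _, inv_div (π.lam x) _ ▸ h1 _ _]

end Gd

end Pool.Agent.MW.Dd
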