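import Pool.Agent.Lib.MP_696deb_nt.B2.B1a

/-! Interpolation over the rational numbers. -/

set_option autoImplicit false

open Polynomial Finset

namespace Pool.Agent.MW.Dd

open Pool.Agent.Lib.MP_696deb_nt.B2 (Qbar Gam fx_top)

theorem lift_rat {F : Qbar[X]} (h : ∀ s : Gam, F.map (s : Qbar →+* Qbar) = F) :
    ∃ f : ℚ[X], f.map (algebraMap ℚ Qbar) = F :=
  (lifts_iff_coeff_lifts F).2 fun m => (fx_top fun s _ => by
    nth_rw 2 [← h s]
    rw [coeff_map]
    rfl).imp fun _ => Eq.symm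

variable {ι : Type} [Fintype ι] [DecidableEq ι] {z : ι → Qbar}

/-- An equivariant function is a rational polynomial, with control of the coefficients. -/
theorem interp (hz : Function.Injective z) (N : ι → Qbar)
    (h : ∀ (s : Gam) i, ∃ i', z i' = s (z i) ∧ N i' = s (N i)) :
    ∃ f : ℚ[X], f.degree < Fintype.card ι ∧ (∀ i, aeval (z i) f = N i) ∧
      ∀ T : Subring Qbar, (∀ i, z i ∈ T) → (∀ i, N i * ∏ j ∈ univ.erase i, (z i - z j)⁻¹ ∈ T) →
        ∀ m, (f.coeff m : Qbar) ∈ T := by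
  have hd := Lagrange.degree_interpolate_lt (s := univ) N hz.injOn
  have he := fun i => Lagrange.eval_interpolate_at_node N hz.injOn (mem_univ i)
  obtain ⟨f, hf⟩ := lift_rat (F := Lagrange.interpolate univ z N) fun s => by
    choose t h1 h2 using h s
    refine eq_of_degrees_lt_of_eval_index_eq univ hz.injOn (degree_map_le.trans_lt hd) hd
      fun i _ => ?_
    obtain ⟨j, rfl⟩ := Finite.surjective_of_injective (f := t)
      (fun a b e => hz (s.injective (by rw [← h1, e, h1]))) i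
    rw [he, h1, h2, ← he j]
    exact eval_map_apply (s : Qbar →+* Qbar) (z j)
  refine ⟨f, by rwa [← hf, degree_map] at hd, fun i => by rw [← eval_map_algebraMap, hf, he],
    fun T h1 h2 m => ?_⟩
  obtain ⟨y, hy⟩ := (lifts_iff_coeff_lifts (f := T.subtype) (Lagrange.interpolate univ z N)).1
    (by
      rw [Lagrange.interpolate_apply]
      refine sum_mem fun i _ => ?_
      simp only [Lagrange.basis, Lagrange.basisDivisor, prod_mul_distrib, ← map_prod C,
        ← mul_assoc, ← C_mul]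
      exact mul_mem (C'_mem_lifts ⟨⟨_, h2 i⟩, rfl⟩) (prod_mem fun j _ =>
        (liftsRing _).sub_mem (X_mem_lifts _) (C'_mem_lifts ⟨⟨_, h1 j⟩, rfl⟩))) m
  rw [← eq_ratCast (algebraMap ℚ Qbar), ← coeff_map, hf, ← hy]
  exact y.2

omit [DecidableEq ι] in
theorem exists_ann (hz : Function.Injective z) (h : ∀ (s : Gam) i, ∃ i', z i' = s (z i)) :
    ∃ G : ℚ[X], G.map (algebraMap ℚ Qbar) = ∏ i, (X - C (z i)) := lift_rat fun s => by
  choose t h1 using h s
  rw [Polynomial.map_prod]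
  refine Fintype.prod_bijective t (Finite.injective_iff_bijective.1
    fun a b e => hz (s.injective (by rw [← h1, e, h1]))) _ _ fun i => by simp [h1]

omit [DecidableEq ι] in
theorem dvd_of_root (hz : Function.Injective z) {G g : ℚ[X]}
    (hG : G.map (algebraMap ℚ Qbar) = ∏ i, (X - C (z i))) (hg : ∀ i, aeval (z i) g = 0) : G ∣ g := by
  rw [← map_dvd_map' (algebraMap ℚ Qbar), hG]
  exact Fintype.prod_dvd_of_coprime (pairwise_coprime_X_sub_C hz) fun d =>
    dvd_iff_isRoot.2 (by rw [IsRoot, eval_map_algebraMap, hg])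

theorem exists_mul (y : ι → Qbar) : ∃ D : ℤ, D ≠ 0 ∧ ∀ i, IsIntegral ℤ (D * y i) := by
  choose D D0 h using fun i => ((IsFractionRing.isAlgebraic_iff ℤ ℚ Qbar).2
    (Algebra.IsAlgebraic.isAlgebraic (y i))).exists_integral_multiple
  refine ⟨∏ i, D i, prod_ne_zero_iff.2 fun i _ => D0 i, fun i => ?_⟩
  rw [← prod_erase_mul _ _ (mem_univ i), Int.cast_mul, mul_assoc, ← zsmul_eq_mul _ (D i)]
  exact (isIntegral_intCast _).mul (h i)

/-- a common denominator -/
theorem exists_den (hz : Function.Injective z) (hi : ∀ i, IsIntegral ℤ (z i)) :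
    ∃ D : ℤ, D ≠ 0 ∧ ∀ N : ι → Qbar, (∀ i, IsIntegral ℤ (N i)) →
      (∀ (s : Gam) i, ∃ i', z i' = s (z i) ∧ N i' = s (N i)) →
      ∃ g : ℤ[X], ∀ i, aeval (z i) g = D * N i := by
  obtain ⟨D, D0, hD⟩ := exists_mul fun i => ∏ j ∈ univ.erase i, (z i - z j)⁻¹
  refine ⟨D, D0, fun N hN h => ?_⟩
  obtain ⟨f, -, h1, h2⟩ := interp hz (fun i => D * N i) fun s i =>
    (h s i).imp fun i' e => ⟨e.1, by rw [e.2, map_mul, map_intCast]⟩
  obtain ⟨g, rfl⟩ := (lifts_iff_coeff_lifts (f := algebraMap ℤ ℚ) f).2 fun m =>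
    IsIntegrallyClosed.isIntegral_iff.1 ((isIntegral_algebraMap_iff (algebraMap ℚ Qbar).injective).1
      (h2 (integralClosure ℤ Qbar).toSubring hi (fun i => by
        rw [mul_right_comm]
        exact (hD i).mul (hN i)) m))
  exact ⟨g, fun i => (aeval_map_algebraMap ℚ _ g).symm.trans (h1 i)⟩

theorem mem_range {L : Type} [Field L] [CharZero L] (j : Qbar →+* L) {y : L} {g : ℚ[X]}
    (hg : g ≠ 0) (hy : aeval y g = 0) : ∃ x, j x = y :=
  ((IsAlgClosed.splits (g.map (algebraMap ℚ Qbar))).mem_range_of_isRoot (i := j)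
    (map_ne_zero hg) (by
      rwa [IsRoot, Polynomial.map_map, Subsingleton.elim (j.comp _) (algebraMap ℚ L),
        eval_map_algebraMap]) :)

end Pool.Agent.MW.Dd
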