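import Pool.Agent.Lib.MP_d61fbb_ag.MW.DS
import Pool.Agent.Lib.MP_d61fbb_ag.MW.DLem

/-! The presentation attached to an element of the monodromy group. -/

set_option autoImplicit false

noncomputable section

open Matrix Polynomial

namespace Pool.Agent.MW.Dd

open Pool.Agent.MT

variable [dm : Dim] {e k n l : ℕ} [Fact l.Prime] {a : M8 ℤ}

/-- `x i` and `y i` are the eigenvalues of the conjugates of `h` -/
structure Eig (D : Blk e k n l a) (u : ℤ_[l][X]) (h : M2 D.R) where
  x : Fin n → PadicAlgCl l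
  y : Fin n → PadicAlgCl l
  hu : IsUnit (aeval (zM ℤ_[l] a) u)
  hh : IsUnit h.det
  tr : ∀ i, (h.map (D.s i)).trace = x i + y i
  det : ∀ i, (h.map (D.s i)).det = x i * y i

variable {D : Blk e k n l a} {u : ℤ_[l][X]} {h : M2 D.R}

theorem exists_eig (hu : IsUnit (aeval (zM ℤ_[l] a) u)) (hh : IsUnit h.det) :
    Nonempty (Eig D u h) := by
  choose x y h1 h2 using fun i => eig_two (h.map (D.s i)).trace (h.map (D.s i)).det
  exact ⟨⟨x, y, hu, hh, h1, h2⟩⟩

/-- polynomials in `a` are scalars on the blocks -/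
theorem map_aeval (D : Blk e k n l a) (u : ℤ_[l][X]) :
    (aeval (zM ℤ_[l] a) u).map (algebraMap ℤ_[l] (PadicAlgCl l)) =
      D.U * diagonal (fun x : Bx e k => aeval (D.ev x.2) u) * D.U' := by
  induction u using Polynomial.induction_on with
  | C c =>
    simp only [aeval_C]
    rw [← smul_one_eq_diagonal, Matrix.mul_smul, Matrix.mul_one, Matrix.smul_mul, D.mul_inv,
      smul_one_eq_diagonal, Matrix.algebraMap_eq_diagonal, diagonal_map (map_zero _)]
    rfl
  | add p q hp hq =>
    simp only [map_add]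
    rw [Matrix.map_add _ (map_add _), hp, hq, ← Matrix.add_mul, ← Matrix.mul_add, diagonal_add]
  | monomial m c ih =>
    simp only [pow_succ, ← mul_assoc, map_mul _ _ (X : ℤ_[l][X]), aeval_X]
    rw [Matrix.map_mul, ih, D.map_a, ← diagonal_mul_diagonal]
    simp only [Matrix.mul_assoc]
    rw [← Matrix.mul_assoc D.U', D.inv_mul, Matrix.one_mul]

theorem dps_inj (D : Blk e k n l a) {A B : Matrix (Bx e k) (Bx e k) (PadicAlgCl l)}
    (h : D.U * A * D.U' = D.U * B * D.U') : A = B := by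
  have := congrArg (fun z => D.U' * z * D.U) h
  simpa only [Matrix.mul_assoc, D.inv_mul, Matrix.mul_one, ← Matrix.mul_assoc D.U',
    Matrix.one_mul] using this

theorem dps_ev (D : Blk e k n l a) {u v : ℤ_[l][X]}
    (h : aeval (zM ℤ_[l] a) u = aeval (zM ℤ_[l] a) v) (s : Fin e) :
    aeval (D.ev s) u = aeval (D.ev s) v :=
  congrFun (diagonal_injective (dps_inj D ((map_aeval D u).symm.trans (h.symm ▸ map_aeval D v))))
    (fun _ => 0, s)

theorem dps_conj (D : Blk e k n l a) (A : Matrix (Bx e k) (Bx e k) (PadicAlgCl l)) :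
    (D.U * A * D.U').charpoly = A.charpoly := by
  have hc : Fintype.card (I2 gg) = Fintype.card (Bx e k) := by
    have h1 := trace_mul_comm D.U D.U'
    rw [D.mul_inv, D.inv_mul, trace_one, trace_one] at h1
    exact_mod_cast h1
  rw [Matrix.mul_assoc, charpoly_mul_comm_of_le _ _ hc.ge, hc, Nat.sub_self, pow_zero, one_mul,
    Matrix.mul_assoc, D.inv_mul, Matrix.mul_one]

theorem dps_norm_aeval (D : Blk e k n l a) (s : Fin e) (u : ℤ_[l][X]) :
    ‖aeval (D.ev s) u‖ ≤ 1 := by
  have h1 : IsIntegral ℤ_[l] (D.ev s) := ⟨_, (zM ℤ_[l] a).charpoly_monic,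
    (dps_ev D (v := 0) ((aeval_self_charpoly _).trans (map_zero _).symm) s).trans (map_zero _)⟩
  exact dl_int (adjoin_le_integralClosure h1 (aeval_mem_adjoin_singleton _ _))

omit dm in
theorem dps_one {x y : PadicAlgCl l} (hx : ‖x‖ ≤ 1) (hy : ‖y‖ ≤ 1) (h : ‖x * y‖ = 1) :
    ‖x‖ = 1 ∧ ‖y‖ = 1 := by
  rw [norm_mul] at h
  constructor <;> nlinarith [norm_nonneg x, norm_nonneg y]

/-- the conjugates of an element are integral -/
theorem norm_s (D : Blk e k n l a) (i : Fin n) (z : D.R) : ‖D.s i z‖ ≤ 1 := by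
  have := (AdjoinRoot.powerBasis' D.monic).finite
  exact dl_int ((Algebra.IsIntegral.isIntegral z).map (D.s i))

theorem Eig.norm_u (g : Eig D u h) (s : Fin e) : ‖aeval (D.ev s) u‖ = 1 := by
  obtain ⟨v, hv⟩ := s2_inv g.hu
  refine (dps_one (dps_norm_aeval D s u) (dps_norm_aeval D s v) ?_).1
  rw [← map_mul, dps_ev D (v := 1) (by rw [map_mul, hv, map_one]) s, map_one, norm_one]

theorem Eig.norm_xy (g : Eig D u h) (i : Fin n) : ‖g.x i‖ = 1 ∧ ‖g.y i‖ = 1 := by
  have := (AdjoinRoot.powerBasis' D.monic).finite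
  have e1 : D.s i h.trace = g.x i + g.y i := (AddMonoidHom.map_trace (D.s i) h).trans (g.tr i)
  have e2 : D.s i h.det = g.x i * g.y i := ((D.s i).map_det h).trans (g.det i)
  have key : ∀ x y : PadicAlgCl l, D.s i h.trace = x + y → D.s i h.det = x * y → ‖x‖ ≤ 1 := by
    intro x y h1 h2
    by_contra hx
    push Not at hx
    have h3 : x * x = D.s i h.trace * x - D.s i h.det := by rw [h1, h2]; ring
    have h4 := IsUltrametricDist.norm_add_le_max (D.s i h.trace * x) (-D.s i h.det)
    rw [← sub_eq_add_neg, ← h3, norm_mul, norm_mul, norm_neg, le_max_iff] at h4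
    have h5 := norm_s D i h.trace
    have h6 := norm_s D i h.det
    rcases h4 with h4 | h4 <;> nlinarith
  obtain ⟨w, hw⟩ := g.hh.exists_right_inv
  refine dps_one (key _ _ e1 e2) (key _ _ (e1.trans (add_comm _ _)) (e2.trans (mul_comm _ _))) ?_
  rw [← e2]
  exact (dps_one (norm_s D i _) (norm_s D i w) (by rw [← map_mul, hw, map_one, norm_one])).1

/-- the presentation -/
def Eig.pre (g : Eig D u h) : Pre e k n (PadicAlgCl l) where
  al := D.ev
  w s := aeval (D.ev s) u * ∏ j, g.x (D.io s j)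
  u i := g.y i / g.x i
  io := D.io
  io_inj := D.io_inj
  cover := D.cover
  al_inj := D.ev_inj
  w0 s := mul_ne_zero (norm_ne_zero_iff.1 ((g.norm_u s).trans_ne one_ne_zero))
    (Finset.prod_ne_zero_iff.2 fun _ _ => norm_ne_zero_iff.1 ((g.norm_xy _).1.trans_ne one_ne_zero))
  u0 i := div_ne_zero (norm_ne_zero_iff.1 ((g.norm_xy i).2.trans_ne one_ne_zero))
    (norm_ne_zero_iff.1 ((g.norm_xy i).1.trans_ne one_ne_zero))

theorem Eig.lam_eq (g : Eig D u h) (z : Bx e k) : g.pre.lam z =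
    aeval (D.ev z.2) u * ∏ j, ![g.x (D.io z.2 j), g.y (D.io z.2 j)] (z.1 j) := by
  show (aeval (D.ev z.2) u * ∏ j, g.x (D.io z.2 j)) *
    ∏ j, (g.y (D.io z.2 j) / g.x (D.io z.2 j)) ^ (z.1 j : ℕ) = _
  rw [mul_assoc, ← Finset.prod_mul_distrib]
  refine congrArg _ (Finset.prod_congr rfl fun j _ => ?_)
  have h0 : g.x (D.io z.2 j) ≠ 0 := norm_ne_zero_iff.1 ((g.norm_xy _).1.trans_ne one_ne_zero)
  generalize z.1 j = d
  fin_cases d
  · simp
  · simp [mul_div_cancel₀ _ h0]

theorem char_a (D : Blk e k n l a) :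
    a.charpoly.map (Int.castRingHom (PadicAlgCl l)) = ∏ z : Bx e k, (X - C (D.ev z.2)) := by
  rw [← charpoly_map, show a.map (Int.castRingHom (PadicAlgCl l)) = _ from D.diag, dps_conj,
    charpoly_diagonal]

omit dm in
theorem dps_block {R ι κ : Type} [CommRing R] [Fintype ι] [DecidableEq ι] [Fintype κ]
    [DecidableEq κ] (A : κ → Matrix ι ι R) :
    (blockDiagonal A).charpoly = ∏ s, (A s).charpoly := by
  simp only [charpoly]
  rw [← det_blockDiagonal]
  refine congrArg det (Matrix.ext fun x y => ?_)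
  rw [charmatrix_apply, blockDiagonal_apply, blockDiagonal_apply, charmatrix_apply,
    diagonal_apply, diagonal_apply]
  by_cases h : x.2 = y.2
  · simp [h, Prod.ext_iff]
  · simp [h, Prod.ext_iff]

/-- the characteristic polynomial of the generator (also used with `r = 0`) -/
theorem Eig.char (g : Eig D u h) (r : ℤ) :
    (aeval (zM ℤ_[l] a) u * D.Nm h + r • zM ℤ_[l] a).charpoly.map
      (algebraMap ℤ_[l] (PadicAlgCl l)) = ∏ z, (X - C (g.pre.th r z)) := by
  have e1 : (aeval (zM ℤ_[l] a) u * D.Nm h + r • zM ℤ_[l] a).map (algebraMap ℤ_[l] (PadicAlgCl l)) =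
      D.U * blockDiagonal (fun s => aeval (D.ev s) u • (kp fun j => h.map (D.s (D.io s j))) -
        scalar _ (-(r * D.ev s))) * D.U' := by
    have e2 : (r • zM ℤ_[l] a).map (algebraMap ℤ_[l] (PadicAlgCl l)) =
        r • (zM ℤ_[l] a).map (algebraMap ℤ_[l] (PadicAlgCl l)) :=
      map_zsmul (algebraMap ℤ_[l] (PadicAlgCl l)).mapMatrix r _
    rw [Matrix.map_add _ (map_add _), Matrix.map_mul, map_aeval, D.nm, e2, D.map_a,
      ← Matrix.smul_mul, ← Matrix.mul_smul]
    simp only [Matrix.mul_assoc]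
    rw [← Matrix.mul_assoc D.U', D.inv_mul, Matrix.one_mul, ← Matrix.mul_add,
      ← Matrix.mul_assoc (diagonal _), ← Matrix.add_mul]
    refine congrArg (fun z => D.U * (z * D.U')) (Matrix.ext fun x y => ?_)
    rw [Matrix.add_apply, diagonal_mul, bkp, blockDiagonal_apply, blockDiagonal_apply,
      Matrix.smul_apply,
      diagonal_apply]
    by_cases h : x.2 = y.2
    · simp [h, Prod.ext_iff, diagonal_apply]
      split_ifs <;> simp
    · simp [h, Prod.ext_iff]
  rw [← charpoly_map, e1, dps_conj, dps_block, Fintype.prod_prod_type_right]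
  refine Finset.prod_congr rfl fun s _ => ?_
  rw [charpoly_sub_scalar, kp_charpoly _ _ (fun j => ![g.x (D.io s j), g.y (D.io s j)])
    (fun j => g.tr _) fun j => g.det _, prod_comp]
  refine Finset.prod_congr rfl fun d _ => ?_
  rw [Pre.th, g.lam_eq, sub_comp, X_comp, C_comp, C_add, C_neg]
  show _ = X - (C _ + C (r * D.ev s))
  ring

end Pool.Agent.MW.Dd
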