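import Pool.Agent.Lib.MP_d61fbb_ag.MW.S1
import Pool.Agent.Lib.MP_d61fbb_ag.MN.Sn
import Pool.Agent.Lib.MP_d61fbb_ag.MT.H0
import Pool.Agent.Lib.MP_d61fbb_ag.MT.GDefs

/-! Abelian varieties whose monodromy is of type `A₁`. -/

set_option autoImplicit false

noncomputable section

namespace Pool.Agent.MT

open Matrix Polynomial Sum

/-- the index set of a frame -/
abbrev Bx (e k : ℕ) := (Fin k → Fin 2) × Fin e

/-- the block sum of tensor products -/
def bkp {R : Type} [CommRing R] {e k n : ℕ} (io : Fin e → Fin k → Fin n) (g : Fin n → M2 R) :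
    Matrix (Bx e k) (Bx e k) R := blockDiagonal fun s => kp fun j => g (io s j)

theorem blk_one {R : Type} [CommRing R] {e k n : ℕ} (io : Fin e → Fin k → Fin n) :
    bkp io (fun _ => (1 : M2 R)) = 1 := by
  simp only [bkp, kp_one]
  exact blockDiagonal_one

theorem blk_mul {R : Type} [CommRing R] {e k n : ℕ} (io : Fin e → Fin k → Fin n)
    (g h : Fin n → M2 R) : bkp io (fun i => g i * h i) = bkp io g * bkp io h := by
  simp only [bkp, kp_mul, blockDiagonal_mul]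

theorem blk_comm {R : Type} [CommRing R] {e k n : ℕ} (io : Fin e → Fin k → Fin n)
    (g : Fin n → M2 R) (c : Fin e → R) :
    diagonal (fun x : Bx e k => c x.2) * bkp io g = bkp io g * diagonal fun x : Bx e k => c x.2 := by
  ext x y
  rw [diagonal_mul, mul_diagonal, bkp, blockDiagonal_apply]
  split_ifs with h
  · rw [h, mul_comm]
  · rw [mul_zero, zero_mul]

theorem s2_inj (l : ℕ) [Fact l.Prime] : Function.Injective (algebraMap ℤ_[l] (PadicAlgCl l)) := by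
  rw [IsScalarTower.algebraMap_eq ℤ_[l] ℚ_[l] (PadicAlgCl l)]
  exact (algebraMap ℚ_[l] (PadicAlgCl l)).injective.comp Subtype.val_injective

/-- the inverse of a unit that is a polynomial in `A` is a polynomial in `A` -/
theorem s2_inv {R ι : Type} [CommRing R] [Fintype ι] [DecidableEq ι] {A : Matrix ι ι R} {u : R[X]}
    (h : IsUnit (aeval A u)) : ∃ v : R[X], aeval A u * aeval A v = 1 := by
  set M := aeval A u with hM
  have h1 : IsUnit (M.charpoly.coeff 0) := by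
    have := (isUnit_iff_isUnit_det _).1 h
    rw [det_eq_sign_charpoly_coeff] at this
    exact isUnit_of_mul_isUnit_right this
  obtain ⟨c, hc⟩ := h1.exists_left_inv
  have h2 := aeval_self_charpoly M
  rw [← X_mul_divX_add M.charpoly, map_add, map_mul, aeval_X, aeval_C,
    add_eq_zero_iff_eq_neg] at h2
  refine ⟨C (-c) * M.charpoly.divX.comp u, ?_⟩
  rw [map_mul, aeval_comp, aeval_C, ← hM, ← mul_assoc, ← Algebra.commutes, mul_assoc, h2,
    ← map_neg, ← map_mul, neg_mul_neg, hc, map_one]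

/-- `X` commutes with the complex structure -/
def Hom {ι : Type} [Fintype ι] (τ : Matrix ι ι ℂ) (X : Matrix (ι ⊕ ι) (ι ⊕ ι) ℚ) : Prop :=
  ∀ u, zz τ u = 0 → zz τ (X.map (↑) *ᵥ u) = 0

variable [dm : Dim]

/-- an integral matrix over another ring -/
abbrev zM (R : Type) [CommRing R] (a : M8 ℤ) : M8 R := a.map (Int.cast : ℤ → R)

/-- An étale algebra `R` of degree `n` over the `l`-adic integers with a frame that splits `a` and
identifies each eigenspace with a tensor product of `k` conjugates of `R ^ 2`. -/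
structure Blk (e k n l : ℕ) [Fact l.Prime] (a : M8 ℤ) where
  c : ℤ_[l][X]
  monic : c.Monic
  deg : c.natDegree = n
  sep : (c.map PadicInt.toZMod).Separable
  s : Fin n → AdjoinRoot c →ₐ[ℤ_[l]] PadicAlgCl l
  inj : Function.Injective s
  io : Fin e → Fin k → Fin n
  io_inj : ∀ x, Function.Injective (io x)
  cover : ∀ i, ∃ x j, io x j = i
  U : Matrix (I2 gg) (Bx e k) (PadicAlgCl l)
  U' : Matrix (Bx e k) (I2 gg) (PadicAlgCl l)
  mul_inv : U * U' = 1
  inv_mul : U' * U = 1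
  int : ∀ i j, ‖U i j‖ ≤ 1
  int' : ∀ i j, ‖U' i j‖ ≤ 1
  ev : Fin e → PadicAlgCl l
  ev_inj : Function.Injective ev
  diag : zM (PadicAlgCl l) a = U * diagonal (fun x : Bx e k => ev x.2) * U'
  Nm : M2 (AdjoinRoot c) → M8 ℤ_[l]
  nm : ∀ g, (Nm g).map (algebraMap _ _) = U * bkp io (fun i => g.map (s i)) * U'
  adj : ∀ g, (Nm g)ᵀ * J (Fin gg) ℤ_[l] = J (Fin gg) ℤ_[l] * Nm g.adjugate

namespace Blk

variable {e k n l : ℕ} [Fact l.Prime] {a : M8 ℤ} (D : Blk e k n l a)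

/-- the étale algebra -/
abbrev R : Type := AdjoinRoot D.c

/-- the elements of `ℤ_l [a] ˣ Nm (GL₂ R)` -/
def InN (x : M8 ℤ_[l]) : Prop := ∃ (u : ℤ_[l][X]) (h : M2 D.R),
  IsUnit (aeval (zM ℤ_[l] a) u) ∧ IsUnit h.det ∧ x = aeval (zM ℤ_[l] a) u * D.Nm h

theorem Nm_one : D.Nm 1 = 1 := by
  refine Matrix.map_injective (s2_inj l) ?_
  simp only [D.nm, Matrix.map_one _ (map_zero _) (map_one _), blk_one, Matrix.mul_one, D.mul_inv]

theorem Nm_mul (g h : M2 D.R) : D.Nm (g * h) = D.Nm g * D.Nm h := by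
  refine Matrix.map_injective (s2_inj l) ?_
  simp only [D.nm, Matrix.map_mul, blk_mul, Matrix.mul_assoc]
  rw [← Matrix.mul_assoc D.U', D.inv_mul, Matrix.one_mul]

theorem map_a : (zM ℤ_[l] a).map (algebraMap ℤ_[l] (PadicAlgCl l)) =
    D.U * diagonal (fun x : Bx e k => D.ev x.2) * D.U' := by
  rw [← D.diag]
  ext i j
  simp only [map_apply, map_intCast]

theorem Nm_comm (g : M2 D.R) : Commute (zM ℤ_[l] a) (D.Nm g) := by
  refine Matrix.map_injective (s2_inj l) ?_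
  simp only [D.nm, D.map_a, Matrix.map_mul, Matrix.mul_assoc]
  rw [← Matrix.mul_assoc D.U', ← Matrix.mul_assoc D.U', D.inv_mul, Matrix.one_mul, Matrix.one_mul,
    ← Matrix.mul_assoc (diagonal _), blk_comm, Matrix.mul_assoc]

theorem Nm_comm' (u : ℤ_[l][X]) (g : M2 D.R) : Commute (aeval (zM ℤ_[l] a) u) (D.Nm g) := by
  induction u using Polynomial.induction_on' with
  | add p q hp hq => rw [map_add]; exact hp.add_left hq
  | monomial m c =>
    rw [aeval_monomial]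
    exact Commute.mul_left (Algebra.commutes c _) ((D.Nm_comm g).pow_left m)

theorem inN_one : D.InN 1 := by
  refine ⟨1, 1, ?_, ?_, ?_⟩
  · rw [map_one]; exact isUnit_one
  · rw [det_one]; exact isUnit_one
  · rw [map_one, D.Nm_one, mul_one]

theorem InN.mul {D : Blk e k n l a} {x y : M8 ℤ_[l]} (hx : D.InN x) (hy : D.InN y) :
    D.InN (x * y) := by
  obtain ⟨u, g, hu, hg, rfl⟩ := hx
  obtain ⟨v, h, hv, hh, rfl⟩ := hy
  refine ⟨u * v, g * h, ?_, ?_, ?_⟩
  · rw [map_mul]; exact hu.mul hv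
  · rw [det_mul]; exact hg.mul hh
  · rw [map_mul, D.Nm_mul, mul_assoc, mul_assoc, ← mul_assoc (D.Nm g), ← (D.Nm_comm' v g).eq,
      mul_assoc]

theorem InN.inv {D : Blk e k n l a} {x y : M8 ℤ_[l]} (hx : D.InN x) (h : x * y = 1) : D.InN y := by
  obtain ⟨u, g, hu, hg, rfl⟩ := hx
  obtain ⟨v, hv⟩ := s2_inv hu
  have hv' := mul_eq_one_comm.1 hv
  refine ⟨v, g⁻¹, IsUnit.of_mul_eq_one _ hv', isUnit_nonsing_inv_det g hg, ?_⟩
  have h1 : aeval (zM ℤ_[l] a) v * D.Nm g⁻¹ * (aeval (zM ℤ_[l] a) u * D.Nm g) = 1 := by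
    rw [mul_assoc, ← mul_assoc (D.Nm g⁻¹), ← (D.Nm_comm' u g⁻¹).eq, mul_assoc, ← D.Nm_mul,
      nonsing_inv_mul g hg, D.Nm_one, mul_one, hv']
  rw [← one_mul y, ← h1, mul_assoc, h, mul_one]

/-- the symplectic elements of `ℤ_l [a] ˣ Nm (GL₂ R)` -/
def KK : Subgroup (G.Sp gg ℤ_[l]) where
  carrier := {x | D.InN x.1}
  one_mem' := D.inN_one
  mul_mem' hx hy := hx.mul hy
  inv_mem' {x} hx := hx.inv (congrArg Subtype.val (mul_inv_cancel x))

/-- the local components of the points of the orbit -/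
def Orb : Set (M8 ℚ_[l]) := {H | GS 1 H ∧ ∃ (j : ℕ) (u : ℤ_[l][X]) (g : M2 D.R) (w : D.R),
  IsUnit (aeval (zM ℤ_[l] a) u) ∧ IsUnit w ∧ g.det = (l : D.R) ^ (2 * j) * w ∧
    (l : ℚ_[l]) ^ (k * j) • H = (aeval (zM ℤ_[l] a) u * D.Nm g).map (↑)}

/-- The image of `r` lies between `Nm (SL₂ R)` and `ℤ_l [a] ˣ Nm (GL₂ R)`. -/
def Between {Γ : Type} (r : Γ → GL (I2 gg) ℤ_[l]) : Prop :=
  (∀ g : SpecialLinearGroup (Fin 2) D.R, ∃ σ, (r σ).val = D.Nm g.val) ∧ ∀ σ, D.InN (r σ).val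

end Blk

/-- The Galois action on the torsion points has monodromy of type `A₁` relative to the
endomorphism `a`. -/
structure AType (τ : Matrix (Fin gg) (Fin gg) ℂ) (K : IntermediateField ℚ ℂ) (e k n : ℕ)
    extends TRep τ K where
  a : M8 ℤ
  hom : Hom τ (zM ℚ a)
  comm : ∀ σ (l : Pr), Commute (zM ℤ_[l] a) (ρ σ l).val
  irr : Irreducible (minpoly ℚ (zM ℚ a))
  adj : ∃ b : ℚ[X], (zM ℚ a)ᵀ * J (Fin gg) ℚ = J (Fin gg) ℚ * aeval (zM ℚ a) b
  S : Finset Pr
  D : ∀ l : Pr, l ∉ S → Blk e k n l a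
  sub : ∀ σ l (h : l ∉ S), (D l h).InN (ρ σ l).val
  big : ∀ (T : Finset Pr) (g : ∀ l (h : l ∉ S), SpecialLinearGroup (Fin 2) (D l h).R), ∃ σ,
    ∀ l ∈ T, ∀ h : l ∉ S, (ρ σ l).val = (D l h).Nm (g l h).val

/-- The Hodge group lies in the product of the torus of `a` and the image of `SL₂ ^ n`. -/
def StageW : Prop := ∀ τ, Sieg τ → ∀ (K : IntermediateField ℚ ℂ), FiniteDimensional ℚ K →
  ee (1 / 8) ∈ K → ∀ (e k n : ℕ) (M : AType τ K e k n), ∃ B : ℕ, ∀ l : Pr, B < (l : ℕ) →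
  ∀ (h : l ∉ M.S) (J₀ : M8 ℝ), IsCx τ J₀ → ∀ (i : PadicAlgCl l →+* ℂ), ∀ x ∈ Sn.Hodge J₀,
    ∃ (c : Fin e → ℂ) (g : Fin n → M2 ℂ), (∀ j, (g j).det = 1) ∧ x.val =
      (M.D l h).U.map i * (diagonal (fun y : Bx e k => c y.2) * bkp (M.D l h).io g) * (M.D l h).U'.map i

end Pool.Agent.MT
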