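import Pool.Agent.Lib.MP_d61fbb_ag.MW.BV3
import Pool.Agent.Lib.MP_d61fbb_ag.MW.BD1
import Pool.Agent.Lib.MP_d61fbb_ag.MW.BLat

/-! The ring of matrices with a complement, and the rationality of their characteristic
polynomials. -/

set_option autoImplicit false

noncomputable section

namespace Pool.Agent.MT

variable [Dim]

open Matrix Polynomial
open Set (mem_of_eq_of_mem)

namespace TSys
variable {k : Type} [Field k] {q : ℕ} {S : TSys k q} {a b : M8 AF} {N M : ℕ}

theorem Cmp.nsmul (h : S.Cmp a N) {n : ℕ} (hn : n ≠ 0) : S.Cmp (n • a) (n ^ 2 * N) := by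
  obtain ⟨g, hg, h0⟩ := h
  obtain ⟨x, hx⟩ := Function.ne_iff.1 h0
  refine ⟨fun x => g (n • x), fun y hy => ?_, Function.ne_iff.2 ⟨(n : ℚ)⁻¹ • x, ?_⟩⟩
  · have e : S.br (n • a) y * (fun x => g (n • x)) = fun x => (S.br a y * g) (n • x) :=
      funext fun x => by
        simp only [br, Pi.mul_apply, smul_mulVec]
        rw [← mulVecLin_apply a (n • x), map_nsmul, mulVecLin_apply]
    rw [e]
    exact Gs_nsmul n (hg y hy)
  · rwa [← Nat.cast_smul_eq_nsmul ℚ, smul_inv_smul₀ (Nat.cast_ne_zero.2 hn)]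

theorem Cmp.zsmul (hG : GENP) (h : S.Cmp a N) (c : ℤ) : S.Cmp (c • a) (c.natAbs ^ 2 * N) := by
  rcases eq_or_ne c 0 with rfl | hc
  · simpa using cmp_int (S := S) 0
  have h1 := h.nsmul (Int.natAbs_ne_zero.2 hc)
  rcases Int.natAbs_eq c with e | e
  · rw [e, natCast_zsmul, Int.natAbs_natCast]; exact h1
  · rw [e, neg_smul, natCast_zsmul, Int.natAbs_neg, Int.natAbs_natCast]; exact h1.neg

/-- the pullback of a theta function of square weight -/
theorem Cs_pull (hI : IRR) {n : ℕ} (hn : (n : k) ≠ 0) {f g : W → k} (hf : f ∈ S.G (n ^ 2))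
    (hg : g ∈ S.Cs b M) : ((fun x => f (b *ᵥ x)) * fun x => g (n • x)) ∈ S.G (n ^ 2 * M) := by
  rw [S.G_sq hI hn] at hf
  induction hf using Submodule.span_induction with
  | mem f hf =>
    obtain ⟨y, hy, rfl⟩ := hf
    have e : ((fun x => gen S.e S.Θ {((n : ℤ), y)} (b *ᵥ x)) * fun x => g (n • x)) =
        fun x => (S.br b y * g) (n • x) := funext fun x => by
      simp only [br, Pi.mul_apply, gen, Multiset.map_singleton, Multiset.prod_singleton,
        natCast_zsmul]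
      rw [← mulVecLin_apply b (n • x), map_nsmul, mulVecLin_apply]
    rw [e]
    exact Gs_nsmul n (hg y hy)
  | zero => exact mem_of_eq_of_mem (zero_mul _) (zero_mem _)
  | add f f' _ _ h h' => exact mem_of_eq_of_mem (add_mul _ _ _) (add_mem h h')
  | smul c f _ h => exact mem_of_eq_of_mem (smul_mul_assoc c _ _) (Submodule.smul_mem _ c h)

theorem Cmp.mul_sq (hI : IRR) (hG : GENP) {n : ℕ} (hn : (n : k) ≠ 0) (h : S.Cmp a (n ^ 2))
    (h' : S.Cmp b M) : S.Cmp (a * b) (n ^ 2 * M) := by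
  obtain ⟨f, hf, f0⟩ := h.nz hG fun _ : Unit => 0
  obtain ⟨g, hg, g0⟩ := h'.nz hG fun _ : Unit => 0
  refine ⟨(fun x => f (b *ᵥ x)) * fun x => g (n • x), fun y hy => ?_, Function.ne_iff.2 ⟨0, ?_⟩⟩
  · have := Cs_pull hI hn (hf y hy) hg
    refine mem_of_eq_of_mem (funext fun x => ?_) this
    simp only [br, Pi.mul_apply, mulVec_mulVec, mul_assoc]
  · simpa using ⟨f0 (), g0 ()⟩

variable (S) in
/-- the matrices with a complement -/
def CR (hI : IRR) (hG : GENP) : Subring (M8 AF) where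
  carrier := {a | ∃ N, S.Cmp a N}
  zero_mem' := ⟨_, by simpa using cmp_int (S := S) 0⟩
  one_mem' := ⟨_, by simpa using cmp_int (S := S) 1⟩
  add_mem' := fun ⟨_, h⟩ ⟨_, h'⟩ => ⟨_, h.add hG h'⟩
  neg_mem' := fun ⟨_, h⟩ => ⟨_, h.neg⟩
  mul_mem' := fun ⟨N, h⟩ ⟨_, h'⟩ =>
    ⟨_, Cmp.mul_sq hI hG (n := 2 ^ N) (by simpa using fun e => absurd e S.two)
      (h.mono hG (Nat.lt_two_pow_self.le.trans (Nat.le_self_pow two_ne_zero _))) h'⟩

theorem mem_CR {hI : IRR} {hG : GENP} : a ∈ S.CR hI hG ↔ ∃ N, S.Cmp a N := Iff.rfl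

/-- integer combinations of finitely many matrices with a complement -/
theorem cmp_comb (hG : GENP) {ι : Type} (s : Finset ι) (u : ι → M8 AF)
    (hu : ∀ i ∈ s, ∃ N, S.Cmp (u i) N) : ∃ C : ℕ, C ≠ 0 ∧ ∀ (c : ι → ℤ) (H : ℕ),
      (∀ i, (c i).natAbs ≤ H) → S.Cmp (∑ i ∈ s, c i • u i) (C * H ^ 2) := by
  classical
  induction s using Finset.induction_on with
  | empty => exact ⟨1, one_ne_zero, fun c H _ =>
      (show S.Cmp _ 0 by simpa using cmp_int (S := S) 0).mono hG (Nat.zero_le _)⟩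
  | insert i s hi ih =>
    obtain ⟨C, c0, hC⟩ := ih fun j hj => hu j (Finset.mem_insert_of_mem hj)
    obtain ⟨N, hN⟩ := hu i (Finset.mem_insert_self _ _)
    refine ⟨2 * N + 2 * C, by omega, fun c H hc => ?_⟩
    rw [Finset.sum_insert hi]
    refine ((hN.zsmul hG (c i)).add hG (hC c H hc)).mono hG ?_
    have := Nat.mul_le_mul_right N (Nat.pow_le_pow_left (hc i) 2)
    nlinarith

/-- The characteristic polynomial of an integral matrix with a complement is rational and does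
not depend on the prime. -/
theorem rat_char (hI : IRR) (hG : GENP) {p : Pr} {S : TSys k p} {θ : M8 AF}
    (hθ : θ ∈ S.CR hI hG) (A : ∀ l : Pr, M8 ℤ_[l]) (hA : ∀ l ≠ p, θ.map (cp l) = (A l).map (↑)) :
    ∃ Q : ℚ[X], Q.Monic ∧ ∀ l ≠ p, Q.map (algebraMap ℚ (PadicAlgCl l)) =
      (A l).charpoly.map (algebraMap ℤ_[l] (PadicAlgCl l)) := by
  have e : ∀ (w : ℤ[X]), ∀ l ≠ p, (aeval θ w).map (cp l) = (aeval (A l) w).map (↑) :=
    fun w l hl => by
      have h1 := aeval_algHom_apply (cp l).toRingHom.mapMatrix.toIntAlgHom θ w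
      have h2 := aeval_algHom_apply (PadicInt.Coe.ringHom (p := l)).mapMatrix.toIntAlgHom (A l) w
      refine h1.symm.trans (Eq.trans ?_ h2)
      exact congrArg (fun z => aeval z w) (hA l hl)
  refine BW.rat_of (p := p) (d := 2 * gg) (fun l => charpoly_monic _)
    (fun l => by rw [charpoly_natDegree_eq_dim, card_sum]) fun ι _ u => ?_
  obtain ⟨C, c0, hC⟩ := cmp_comb (S := S) hG Finset.univ (fun i => aeval θ (u i)) fun i _ => by
    change _ ∈ S.CR hI hG
    rw [aeval_eq_sum_range]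
    exact sum_mem fun j _ => zsmul_mem (pow_mem hθ _) _
  refine ⟨(4 * C) ^ gg, fun a H h1 h2 T s1 s2 => ?_⟩
  have h0 : ⌊H⌋₊ ≠ 0 := by rw [Ne, Nat.floor_eq_zero, not_lt]; exact h1
  have h3 := hC a ⌊H⌋₊ fun i => Nat.le_floor (by rw [Nat.cast_natAbs, Int.cast_abs]; exact h2 i)
  have h4 : ∑ i, a i • aeval θ (u i) = aeval θ (∑ i, a i • u i) := by simp [map_sum]
  rw [h4] at h3
  generalize ∑ i, a i • u i = w at h3 s2
  have e' : ∀ l ≠ p, ((aeval θ w).map (cp l)).det = ((aeval (A l) w).det : ℤ_[l]) :=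
    fun l hl => by rw [e w l hl]; exact (PadicInt.Coe.ringHom.map_det _).symm
  have ne : ∀ l ∈ T, l ≠ p := fun l hl e => s1 (e ▸ hl)
  have := h3.ineq hG (by positivity) (fun i j l hl => by
    rw [show cp l (aeval θ w i j) = _ from
      congrFun (congrFun (e w l fun e => hl (congrArg _ e)) i) j]
    exact (aeval (A l) w i j).2) T (fun l hl e => ne l hl (Subtype.ext e))
    fun l hl => by
      rw [e' l (ne l hl)]
      exact PadicInt.coe_ne_zero.2 (norm_pos_iff.1 (BW.nz_det (A l) w ▸ s2 l hl))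
  rw [Finset.prod_congr rfl fun l hl => by
    rw [e' l (ne l hl), PadicInt.padic_norm_e_of_padicInt, BW.nz_det]] at this
  refine this.trans ?_
  have := Nat.floor_le (zero_le_one.trans h1)
  push_cast
  rw [← mul_assoc, mul_pow, ← pow_mul]
  gcongr

/-- A matrix with a complement that vanishes at one prime vanishes at all primes. -/
theorem van_cmp (hI : IRR) (hG : GENP) (hJ : INJ) (h : a ∈ S.CR hI hG)
    (hint : ∀ i j (l : Pr), (l : ℕ) ≠ q → ‖cp l (a i j)‖ ≤ 1) {l : Pr} (hl : (l : ℕ) ≠ q)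
    (h0 : a.map (cp l) = 0) {l' : Pr} (hl' : (l' : ℕ) ≠ q) : a.map (cp l') = 0 := by
  obtain ⟨N, h⟩ := h
  obtain ⟨η₀, hη⟩ := S.exists_th 0
  choose r hr using (h.mono hG (Nat.le_succ N)).const hI hG (Nat.succ_ne_zero _) hint hl h0 hη
  have key := fun x => hJ k q S (a *ᵥ x) 0 (S.th η₀ (a *ᵥ x) / S.th η₀ 0) fun η => by
      have := hr η 0
      rw [mulVec_zero] at this
      rw [hr, this]; field_simp
  ext i j
  by_contra hne
  have hne' : cp l' (a i j) ≠ 0 := by simpa using hne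
  have h1 := (key (sgv l' (Pi.single j (2 * ((l' : ℕ) : ℚ_[l'])⁻¹ / cp l' (a i j))))).1 i l' hl'
  have e := congrFun (van_cpv l' a (sgv l' (Pi.single j
    (2 * ((l' : ℕ) : ℚ_[l'])⁻¹ / cp l' (a i j))))) i
  rw [van_sgv, mulVec_single] at e
  rw [sub_zero, map_smul, show cp l' _ = _ from e, Rat.smul_def] at h1
  simp only [Pi.smul_apply, col_apply, map_apply, MulOpposite.smul_eq_mul_unop,
    MulOpposite.unop_op] at h1
  rw [mul_div_cancel₀ _ hne', ← mul_assoc, show (((1 / 2 : ℚ)) : ℚ_[l']) * 2 = 1 by norm_num,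
    one_mul, norm_inv, Padic.norm_p, inv_inv] at h1
  exact absurd h1 (not_le.2 (by exact_mod_cast l'.2.one_lt))

end TSys

theorem FSys.pi_mem {k : Type} [Field k] {p : Pr} (S : FSys k p) (hI : IRR) (hG : GENP) :
    mA S.π ∈ S.CR hI hG := ⟨_, by simpa using S.cmp_pow 1⟩

end Pool.Agent.MT
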