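import Pool.Agent.Lib.MP_d61fbb_ag.MW.DF
import Pool.Agent.Lib.MP_d61fbb_ag.MW.S2
import Pool.Agent.Lib.MP_d61fbb_ag.MW.VC1

/-! Block D: the interface. -/

set_option autoImplicit false

noncomputable section

open Matrix Polynomial NumberField

namespace Pool.Agent.MW.Dd

open Pool.Agent.MT

variable [dm : Dim] {e k n p : ℕ} {P : ℤ[X]} {Q : ℚ[X]} {r : ℤ} {κ : Type} [Fintype κ]
  {E : κ → Type} [∀ i, Field (E i)] [∀ i, NumberField (E i)]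

omit dm in
/-- the conjugation on the rings of integers -/
def DF.cO {A : ℤ[X]} (F : DF e k n A P Q r p E) (i : κ) : 𝓞 (E i) ≃+* 𝓞 (E i) :=
  RingOfIntegers.mapRingEquiv (F.c i).toRingEquiv

/-- The type norm at a good prime comes from an embedding in matrices of size two. -/
structure Loc {l : ℕ} [Fact l.Prime] {a : M8 ℤ} (F : DF e k n a.charpoly P Q r p E)
    (D : Blk e k n l a) (θ : M8 ℚ_[l]) where
  t : Fin n → κ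
  ψ : ∀ y : Fin n × Fin 2, E (t y.1) →+* PadicAlgCl l
  j : (∀ i, 𝓞 (E i)) →+* M2 D.R
  T : Fin n → M2 (PadicAlgCl l)
  T' : Fin n → M2 (PadicAlgCl l)
  mul_inv : ∀ i, T i * T' i = 1
  diag : ∀ b i, (j b).map (D.s i) = T i * diagonal (fun d => ψ (i, d) (b (t i) : E (t i))) * T' i
  rev : ∀ i d x, ψ (i, d.rev) x = ψ (i, d) (F.c _ x)
  all : ∀ i (χ : E i →+* PadicAlgCl l), ∃ y, ∀ b : ∀ i, E i, χ (b i) = ψ y (b _)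
  far : ∀ y y', y ≠ y' → ‖ψ y (F.U _) - ψ y' (F.U _)‖ = 1
  nrm : ∀ b : ∀ i, E i, ((∏ i, Algebra.norm ℚ (b i) : ℚ) : PadicAlgCl l) = ∏ y, ψ y (b _)
  nm : ∀ b, (D.Nm (j b)).map (↑) = aeval θ (F.f fun i => b i)
  adj : ∀ b, j (fun i => F.cO i (b i)) = (j b).adjugate
  dens : ∀ (x : D.R) (N : ℕ), ∃ (b : ∀ i, 𝓞 (E i)) (y : D.R), (∀ i, F.cO i (b i) = b i) ∧
    j b = y • 1 ∧ (l : D.R) ^ N ∣ x - y

variable {τ : Matrix (Fin gg) (Fin gg) ℂ} {K : IntermediateField ℚ ℂ}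

/-- the generator at a prime -/
def th (M : AType τ K e k n) (φ : ℂ ≃ₐ[K] ℂ) (r : ℤ) (l : Pr) : M8 ℤ_[l] :=
  (M.ρ φ l).val + r • zM ℤ_[l] M.a

/-- The data of block D. `T` is the set of bad primes. -/
structure DW (M : AType τ K e k n) (l₀ p : Pr) (φ : ℂ ≃ₐ[K] ℂ) (P : ℤ[X]) (Q : ℚ[X]) (r : ℤ)
    (E : κ → Type) [∀ i, Field (E i)] [∀ i, NumberField (E i)]
    extends DF e k n M.a.charpoly P Q r p E where
  gs : ∀ l ≠ p, GS ((p : ℕ) : ℤ_[l]) (M.ρ φ l).val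
  root : ∀ l ≠ p, aeval ((th M φ r l).map ((↑) : ℤ_[l] → ℚ_[l])) Q = 0
  a_eq : ∀ l ≠ p, aeval ((th M φ r l).map ((↑) : ℤ_[l] → ℚ_[l])) Fa = zM ℚ_[l] M.a
  adj : ∀ l ≠ p, ∀ b, (aeval ((th M φ r l).map ((↑) : ℤ_[l] → ℚ_[l])) (f b))ᵀ * J (Fin gg) ℚ_[l] =
    J (Fin gg) ℚ_[l] * aeval ((th M φ r l).map ((↑) : ℤ_[l] → ℚ_[l])) (f fun i => c i (b i))
  T : Finset Pr
  p_mem : p ∈ T
  l_not : l₀ ∉ T
  notS : ∀ l ∉ T, l ∉ M.S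
  loc : ∀ l (h : l ∉ T), Loc toDF (M.D l (notS l h)) ((th M φ r l).map (↑))
  split : ∀ i (χ : E i →+* PadicAlgCl l₀), ∃ b : 𝓞 (E i), ‖χ b‖ < 1 ∧ ‖χ (c i b)‖ = 1

/-- Block D. The hypothesis says that a multiple of `a` has a complement in the reduction. -/
def DPL : Prop := ∀ (τ : Matrix (Fin gg) (Fin gg) ℂ) (K : IntermediateField ℚ ℂ) (e k n : ℕ)
  (M : AType τ K e k n) (A : AR M.toTRep), FiniteDimensional ℚ K → ∀ l₀ ∉ M.S,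
  n + n * (4 * 5 ^ n) * (2 * (4 * 5 ^ n) + 1) ^ n < (l₀ : ℕ) → ∀ (B : Finset ℕ) (t : ℤ), t ≠ 0 →
  (∀ v : Frb A, (v.p : ℕ) ∉ B → ∀ R, RedOf v R → ∃ N, R.Cmp (t • zM AF M.a) N) →
  ∃ v : Frb A, (v.p : ℕ) ∉ B ∧ ∃ (P : ℤ[X]) (Q : ℚ[X]) (r : ℤ) (κ : Type) (_ : Fintype κ)
    (E : κ → Type) (_ : ∀ i, Field (E i)) (_ : ∀ i, NumberField (E i)), t ∣ r ∧
    (∀ R, RedOf v R → ∃ N, R.Cmp (r • zM AF M.a) N) ∧ Nonempty (DW M l₀ v.p v.φ P Q r E)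

end Pool.Agent.MW.Dd
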