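import Pool.Agent.Lib.MP_d61fbb_ag.MW.DPs
import Pool.Agent.Lib.MP_d61fbb_ag.MW.DLem
import Pool.Agent.Lib.MP_d61fbb_ag.MW.GL1

/-! Local lemmas for the assembly of block D. -/

set_option autoImplicit false

noncomputable section

open Matrix Polynomial NumberField Function

namespace Pool.Agent.MW.Dd

open Pool.Agent.MT

variable {e k n p l : ℕ} [Fact l.Prime] {P : ℤ[X]} {Q : ℚ[X]} {r : ℤ}

theorem norm_int {m : ℤ} (h : ¬ (l : ℤ) ∣ m) : ‖(m : PadicAlgCl l)‖ = 1 := by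
  rw [← map_intCast (algebraMap ℤ_[l] (PadicAlgCl l)), dl_norm]
  exact (PadicInt.norm_le_one _).eq_of_not_lt fun h' => h ((PadicInt.norm_int_lt_one_iff_dvd m).1 h')

theorem norm_near {x y : PadicAlgCl l} (hx : ‖x‖ = 1) (hy : ‖y‖ < 1) : ‖x + y‖ = 1 := by
  rw [IsUltrametricDist.norm_add_eq_max_of_norm_ne_norm (hx ▸ hy.ne'), hx, max_eq_left hy.le]

theorem far_of_int {x y : PadicAlgCl l} {m : ℤ} (h : ¬ (l : ℤ) ∣ m) (hx : ‖x‖ = 1) (hy : ‖y‖ = 1)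
    (hn : x ≠ y) (hi : IsIntegral ℤ (m * (x - y)⁻¹)) : ‖x - y‖ = 1 := by
  have h1 := dl_int (hi.tower_top (A := ℤ_[l]))
  rw [norm_mul, norm_int h, one_mul, norm_inv,
    inv_le_one₀ (norm_pos_iff.2 (sub_ne_zero.2 hn))] at h1
  refine le_antisymm ?_ h1
  rw [sub_eq_add_neg]
  exact (IsUltrametricDist.norm_add_le_max _ _).trans (by rw [norm_neg, hx, hy, max_self])

theorem far_of_ind {π : Pre e k n (PadicAlgCl l)} (h1 : ∀ y, ‖π.v y‖ = 1) (hv : Injective π.v)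
    (hc : ∀ c : Fin n → ℤ, c ≠ 0 → (∀ i, |c i| ≤ 2) → ‖∏ i, π.u i ^ c i - 1‖ = 1)
    (y y' : Fin n × Fin 2) (h : y ≠ y') : ‖π.v y - π.v y'‖ = 1 := by
  have k1 : ∀ y : Fin n × Fin 2,
      ∏ m, π.u m ^ (Pi.single y.1 (2 * (y.2 : ℕ) - 1 : ℤ) : Fin n → ℤ) m = π.v y := by
    rintro ⟨i, a⟩
    rw [Finset.prod_eq_single i (fun m _ hm => by simp [hm]) (by simp)]
    fin_cases a <;> simp [sg, Pre.v]
  have k0 : π.v y' ≠ 0 := norm_ne_zero_iff.1 ((h1 y').trans_ne one_ne_zero)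
  have k2 : ∏ m, π.u m ^ (Pi.single y.1 (2 * (y.2 : ℕ) - 1 : ℤ) -
      Pi.single y'.1 (2 * (y'.2 : ℕ) - 1 : ℤ) : Fin n → ℤ) m = π.v y / π.v y' := by
    simp only [Pi.sub_apply, zpow_sub₀ (π.u0 _), Finset.prod_div_distrib, k1]
  rw [← div_one ‖_‖]
  nth_rw 1 [← h1 y']
  rw [← norm_div, ← div_sub_one k0, ← k2]
  refine hc _ (fun e => h (hv ((div_eq_one_iff_eq k0).1 ?_))) fun m => ?_
  · rw [← k2, e]
    simp
  · simp only [Pi.sub_apply, Pi.single_apply, abs_le]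
    split_ifs <;> omega

theorem root_of_char {L ι : Type} [Field L] [Fintype ι] [DecidableEq ι] {θ : Matrix ι ι L} {z : L}
    {h : L[X]} (hz : θ.charpoly.IsRoot z) (hh : aeval θ h = 0) : h.eval z = 0 := by
  have := spectrum.subset_polynomial_aeval θ h ⟨z, mem_spectrum_iff_isRoot_charpoly.2 hz, rfl⟩
  rw [hh, spectrum.mem_iff, sub_zero] at this
  exact by_contra fun h0 => this ((IsUnit.mk0 _ h0).map _)

theorem aeval_up {ι : Type} [Fintype ι] [DecidableEq ι] (x : Matrix ι ι ℤ_[l]) (q : ℚ[X]) :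
    (aeval (x.map ((↑) : ℤ_[l] → ℚ_[l])) q).map (algebraMap ℚ_[l] (PadicAlgCl l)) =
      aeval (x.map (algebraMap ℤ_[l] (PadicAlgCl l))) (q.map (algebraMap ℚ (PadicAlgCl l))) := by
  rw [aeval_map_algebraMap]
  exact hom_aeval (A := Matrix ι ι _) (B := Matrix ι ι _)
    (algebraMap ℚ_[l] (PadicAlgCl l)).mapMatrix _ q

variable [dm : Dim] {a : M8 ℤ} {D : Blk e k n l a} {u : ℤ_[l][X]} {h : M2 D.R}

theorem Eig.norm_v (g : Eig D u h) (y : Fin n × Fin 2) : ‖g.pre.v y‖ = 1 := by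
  have : ‖g.pre.u y.1‖ = 1 := by
    rw [show g.pre.u y.1 = _ / _ from rfl, norm_div, (g.norm_xy _).1, (g.norm_xy _).2, div_one]
  rw [Pre.v, sg]
  split_ifs <;> simp [this]

theorem root_a (D : Blk e k n l a) {z : PadicAlgCl l} :
    aeval z a.charpoly = 0 ↔ ∃ s, D.ev s = z := by
  rw [← eval_map_algebraMap, RingHom.eq_intCast' (algebraMap ℤ (PadicAlgCl l)), char_a D,
    eval_prod, Finset.prod_eq_zero_iff]
  simp only [Finset.mem_univ, true_and, eval_sub, eval_X, eval_C, sub_eq_zero]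
  exact ⟨fun ⟨x, h⟩ => ⟨_, h.symm⟩, fun ⟨s, h⟩ => ⟨(0, s), h.symm⟩⟩

theorem Eig.of (g : Eig D u h)
    (hP : (aeval (zM ℤ_[l] a) u * D.Nm h).charpoly = P.map (Int.castRingHom _))
    (hQ : Q.map (algebraMap ℚ (PadicAlgCl l)) = (aeval (zM ℤ_[l] a) u * D.Nm h +
      r • zM ℤ_[l] a).charpoly.map (algebraMap ℤ_[l] _)) : g.pre.Of a.charpoly P Q r := by
  refine ⟨fun s => (root_a D).2 ⟨s, rfl⟩, fun x => ?_, hQ.trans (g.char r)⟩
  have := g.char 0
  rw [zero_smul, add_zero, hP, Polynomial.map_map] at this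
  rw [← eval_map_algebraMap, Subsingleton.elim (algebraMap ℤ _) (RingHom.comp _ _), this, eval_prod]
  exact Finset.prod_eq_zero (Finset.mem_univ x) (by simp [Pre.th])

variable {κ : Type} [Fintype κ] {E : κ → Type} [∀ i, Field (E i)] [∀ i, NumberField (E i)]
  {F : DF e k n a.charpoly P Q r p E} {θ : M8 ℚ_[l]}

theorem Loc.split (L : Loc F D θ) (hp : ¬ l ∣ p) {z : D.R}
    (hz : ∀ i, ‖L.ψ (i, 1) (F.U _) - D.s i z‖ < 1) (i : κ) (χ : E i →+* PadicAlgCl l) :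
    ∃ b : 𝓞 (E i), ‖χ b‖ < 1 ∧ ‖χ (F.c i b)‖ = 1 := by
  obtain ⟨⟨m, d⟩, hy⟩ := L.all i χ
  obtain ⟨b, y, h1, h2, w, hw⟩ := L.dens z 1
  have p1 : ‖(p : PadicAlgCl l)‖ = 1 := by
    simpa using norm_int (l := l) (m := p) (mt Int.natCast_dvd_natCast.1 hp)
  have h3 : ∀ d, L.ψ (m, d) (b (L.t m) : E (L.t m)) = D.s m y := fun d => by
    have k1 := congrArg (L.T' m * · * L.T m) (L.diag b m)
    have k2 := mul_eq_one_comm.1 (L.mul_inv m)
    simp only [h2, ← mul_assoc, k2, one_mul] at k1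
    rw [mul_assoc _ (L.T' m), k2, mul_one, smul_eq_diagonal_mul, mul_one, diagonal_map (map_zero _),
      ← smul_one_eq_diagonal, mul_smul_one, smul_mul, k2] at k1
    simpa using (congrFun₂ k1 d d).symm
  have h4 : ‖L.ψ (m, 1) (F.U _) - D.s m y‖ < 1 := by
    rw [← sub_add_sub_cancel _ (D.s m z), ← map_sub, hw, pow_one, map_mul, map_natCast]
    refine (IsUltrametricDist.norm_add_le_max _ _).trans_lt (max_lt (hz m) ?_)
    rw [norm_mul]
    exact mul_lt_one_of_nonneg_of_lt_one_left (norm_nonneg _) dl_l (norm_s D m w)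
  have h5 : ‖L.ψ (m, 0) (F.U _) - D.s m y‖ = 1 := by
    rw [← sub_add_sub_cancel _ (L.ψ (m, 1) (F.U _))]
    exact norm_near (L.far _ (m, 1) (by simp)) h4
  let c : 𝓞 (E i) := ⟨p * F.U i, F.intU i⟩ - p * b i
  have h6 : χ c = p * (L.ψ (m, d) (F.U _) - D.s m y) := by
    rw [← h3 d, ← hy, ← hy fun i => b i]
    simp [c, mul_sub]
  have h7 : χ (F.c i c) = p * (L.ψ (m, d.rev) (F.U _) - D.s m y) := by
    rw [← h3 d, L.rev, ← hy fun i => F.c i (F.U i), ← hy fun i => b i]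
    simp [c, mul_sub, show F.c i (b i) = b i from congrArg Subtype.val (h1 i)]
  fin_cases d
  · refine ⟨F.cO i c, ?_, ?_⟩
    · exact h7 ▸ by rwa [norm_mul, p1, one_mul]
    · exact (congrArg (‖χ ·‖) (F.cc i c)).trans (by rwa [h6, norm_mul, p1, one_mul])
  · exact ⟨c, by rwa [h6, norm_mul, p1, one_mul], by rwa [h7, norm_mul, p1, one_mul]⟩

end Pool.Agent.MW.Dd
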