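import Mathlib

/-! The dimension. -/

set_option autoImplicit false

namespace Pool.Agent.MT

/-- the dimension as a parameter -/
class Dim where
  g : ℕ
  pos : 0 < g

/-- the dimension -/
abbrev gg [dm : Dim] : ℕ := dm.g

variable [dm : Dim]

theorem gg_pos : 0 < gg := Dim.pos

instance : NeZero gg := ⟨gg_pos.ne'⟩

theorem card_sum : Fintype.card (Fin gg ⊕ Fin gg) = 2 * gg := by simp [two_mul]

end Pool.Agent.MT
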