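import Pool.Agent.Lib.MP_d61fbb_ag.MN.R5

/-! Frames with several blocks. -/

set_option autoImplicit false

noncomputable section

open Matrix Function

namespace Pool.Agent.MT.EW

open UM

/-- An identification of a space with a sum of tensor products of planes. -/
structure Fr (n ε κ ν F : Type) [Fintype n] [DecidableEq n] [Fintype ε] [DecidableEq ε]
    [Fintype κ] [DecidableEq κ] [Field F] where
  io : ε → κ → ν
  inj : ∀ σ, Injective (io σ)
  cov : ∀ i, ∃ σ j, io σ j = i
  U : Matrix n ((κ → Fin 2) × ε) F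
  U' : Matrix ((κ → Fin 2) × ε) n F
  mul_inv : U * U' = 1
  inv_mul : U' * U = 1

variable {n ε κ ν F F' : Type} [Fintype n] [DecidableEq n] [Fintype ε] [DecidableEq ε]
  [Fintype κ] [DecidableEq κ] [Field F] [Field F']

namespace Fr

variable (φ : Fr n ε κ ν F)

/-- block diagonal matrices -/
def B : (ε → TM κ F) →ₐ[F] Matrix n n F where
  toFun M := φ.U * blockDiagonal M * φ.U'
  map_one' := by rw [blockDiagonal_one, Matrix.mul_one, φ.mul_inv]
  map_mul' M M' := by
    rw [show blockDiagonal (M * M') = _ from blockDiagonal_mul M M']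
    simp only [Matrix.mul_assoc]
    rw [← Matrix.mul_assoc φ.U' φ.U, φ.inv_mul, Matrix.one_mul]
  map_zero' := by rw [blockDiagonal_zero, Matrix.mul_zero, Matrix.zero_mul]
  map_add' M M' := by rw [blockDiagonal_add, Matrix.mul_add, Matrix.add_mul]
  commutes' c := by
    rw [Algebra.algebraMap_eq_smul_one, Algebra.algebraMap_eq_smul_one, blockDiagonal_smul,
      blockDiagonal_one, Matrix.mul_smul, Matrix.mul_one, Matrix.smul_mul, φ.mul_inv]

theorem B_apply (M : ε → TM κ F) : φ.B M = φ.U * blockDiagonal M * φ.U' := rfl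

theorem B_back (M : ε → TM κ F) : φ.U' * φ.B M * φ.U = blockDiagonal M := by
  rw [B_apply]
  simp only [Matrix.mul_assoc, φ.inv_mul, Matrix.mul_one]
  rw [← Matrix.mul_assoc, φ.inv_mul, Matrix.one_mul]

theorem B_inj : Injective φ.B := fun M M' h =>
  blockDiagonal_injective (by rw [← φ.B_back, h, φ.B_back])

theorem B_trace (M : ε → TM κ F) : (φ.B M).trace = ∑ σ, (M σ).trace := by
  rw [B_apply, trace_mul_cycle, φ.inv_mul, Matrix.one_mul, trace_blockDiagonal]

/-- the projector to a block -/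
def p (σ : ε) : Matrix n n F := φ.B (Pi.single σ 1)

theorem B_p (M : ε → TM κ F) (σ : ε) : φ.B M * φ.p σ = φ.p σ * φ.B M := by
  rw [p, ← map_mul, ← map_mul]
  congr 1
  funext τ
  by_cases h : τ = σ
  · subst h; simp
  · simp [h]

theorem p_sq (σ : ε) : φ.p σ * φ.p σ = φ.p σ := by
  rw [p, ← map_mul, ← Pi.single_mul, mul_one]

theorem exists_B {X : Matrix n n F} (h : ∀ σ, X * φ.p σ = φ.p σ * X) : ∃ M, X = φ.B M := by
  set Y := φ.U' * X * φ.U with hY
  have e : ∀ σ, Y * blockDiagonal (Pi.single σ 1) = blockDiagonal (Pi.single σ 1) * Y := fun σ => by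
    have := congrArg (fun Z => φ.U' * Z * φ.U) (h σ)
    simpa only [p, B_apply, hY, Matrix.mul_assoc, φ.inv_mul, Matrix.mul_one,
      ← Matrix.mul_assoc φ.U' φ.U, Matrix.one_mul] using this
  have d : ∀ σ : ε, blockDiagonal (Pi.single σ (1 : TM κ F)) =
      diagonal fun x => if x.2 = σ then 1 else 0 := fun σ => by
    ext ⟨a, s⟩ ⟨b, t⟩
    by_cases h1 : s = t
    · subst h1
      by_cases h2 : s = σ
      · subst h2; simp [diagonal_apply, one_apply]
      · simp [diagonal_apply, h2]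
    · simp [blockDiagonal_apply_ne _ _ _ h1, diagonal_apply, h1]
  refine ⟨blockDiag Y, ?_⟩
  have : blockDiagonal (blockDiag Y) = Y := by
    ext ⟨a, s⟩ ⟨b, t⟩
    by_cases h1 : s = t
    · subst h1; simp [blockDiag_apply]
    · have := congrFun (congrFun (e t) (a, s)) (b, t)
      rw [d, mul_diagonal, diagonal_mul] at this
      rw [blockDiagonal_apply_ne _ _ _ h1]
      simpa [h1] using this.symm
  rw [B_apply, this, hY]
  simp only [Matrix.mul_assoc, φ.mul_inv, Matrix.mul_one]
  rw [← Matrix.mul_assoc, φ.mul_inv, Matrix.one_mul]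

variable [DecidableEq ν]

/-- the action of a slot in a block -/
def sg (i : ν) (x : N2 F) (σ : ε) : TM κ F := ∑ j with φ.io σ j = i, sl j x

theorem sg_of {i : ν} {σ : ε} {j : κ} (h : φ.io σ j = i) (x : N2 F) : φ.sg i x σ = sl j x := by
  rw [sg, Finset.sum_eq_single j (fun k hk hj => (hj (φ.inj σ
    ((Finset.mem_filter.1 hk).2.trans h.symm))).elim) fun k => (k (by simp [h])).elim]

theorem sg_not {i : ν} {σ : ε} (h : ∀ j, φ.io σ j ≠ i) (x : N2 F) : φ.sg i x σ = 0 :=
  Finset.sum_eq_zero fun j hj => (h j (Finset.mem_filter.1 hj).2).elim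

/-- the action of a slot -/
def s (i : ν) : N2 F →ₗ[F] Matrix n n F where
  toFun x := φ.B (φ.sg i x)
  map_add' x y := by
    rw [← map_add]; congr 1; funext σ; simp [sg, sl_add, Finset.sum_add_distrib]
  map_smul' c x := by
    rw [RingHom.id_apply, ← map_smul]; congr 1; funext σ; simp [sg, sl_smul, Finset.smul_sum]

theorem s_apply (i : ν) (x : N2 F) : φ.s i x = φ.B (φ.sg i x) := rfl

theorem s_mul (i : ν) (x y : N2 F) : φ.s i (x * y) = φ.s i x * φ.s i y := by
  rw [s_apply, s_apply, s_apply, ← map_mul]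
  congr 1
  funext σ
  by_cases h : ∃ j, φ.io σ j = i
  · obtain ⟨j, h⟩ := h
    simp only [Pi.mul_apply, φ.sg_of h, sl_mul]
  · simp only [Pi.mul_apply, φ.sg_not (not_exists.1 h), mul_zero]

theorem s_comm {i i' : ν} (h : i ≠ i') (x y : N2 F) : φ.s i x * φ.s i' y = φ.s i' y * φ.s i x := by
  rw [s_apply, s_apply, ← map_mul, ← map_mul]
  congr 1
  funext σ
  simp only [Pi.mul_apply, sg, Finset.sum_mul_sum]
  rw [Finset.sum_comm]
  refine Finset.sum_congr rfl fun j hj => Finset.sum_congr rfl fun k hk => sl_comm ?_ _ _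
  rintro rfl
  exact h ((Finset.mem_filter.1 hk).2.symm.trans (Finset.mem_filter.1 hj).2)

theorem s_inj (i : ν) : Injective (φ.s i) := (injective_iff_map_eq_zero _).2 fun x h => by
  obtain ⟨σ, j, e⟩ := φ.cov i
  have := congrFun (φ.B_inj (h.trans (map_zero _).symm)) σ
  rw [φ.sg_of e] at this
  by_contra k
  exact sl_ne j k this

theorem s_p (i : ν) (x : N2 F) (σ : ε) : φ.s i x * φ.p σ = φ.p σ * φ.s i x := φ.B_p _ _

theorem s_one_B (i : ν) (M : ε → TM κ F) : φ.s i 1 * φ.B M = φ.B M * φ.s i 1 := by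
  rw [s_apply, ← map_mul, ← map_mul]
  congr 1
  funext σ
  by_cases h : ∃ j, φ.io σ j = i
  · obtain ⟨j, h⟩ := h
    simp only [Pi.mul_apply, φ.sg_of h, sl_one, one_mul, mul_one]
  · simp only [Pi.mul_apply, φ.sg_not (not_exists.1 h), mul_zero, zero_mul]

omit [DecidableEq ν] in
/-- the tensor products -/
def nm (g : ν → N2 F) : Matrix n n F := φ.B fun σ => kp fun j => g (φ.io σ j)

omit [DecidableEq ν] in
theorem nm_mul (g g' : ν → N2 F) : φ.nm (fun i => g i * g' i) = φ.nm g * φ.nm g' := by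
  rw [nm, nm, nm, ← map_mul]
  congr 1
  funext σ
  exact kp_mul _ _

omit [DecidableEq ν] in
theorem nm_one : φ.nm (fun _ => 1) = 1 := by
  rw [nm, ← map_one φ.B]
  congr 1
  funext σ
  exact kp_one

theorem nm_s {g : ν → N2 F} {i : ν} {x x' : N2 F} (h : g i * x = x' * g i) :
    φ.nm g * φ.s i x = φ.s i x' * φ.nm g := by
  rw [nm, s_apply, s_apply, ← map_mul, ← map_mul]
  congr 1
  funext σ
  by_cases h : ∃ j, φ.io σ j = i
  · obtain ⟨j, e⟩ := h
    simp only [Pi.mul_apply, φ.sg_of e, kp_mul_sl, sl_mul_kp, e, h]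
  · simp only [Pi.mul_apply, φ.sg_not (not_exists.1 h), mul_zero, zero_mul]

/-- the slots and the lines of the projectors -/
def W : ν ⊕ ε → Submodule F (Matrix n n F)
  | .inl i => LinearMap.range (φ.s i)
  | .inr σ => F ∙ φ.p σ

/-- the normaliser in the Lie algebra -/
def nn : Submodule F (Matrix n n F) where
  carrier := {Y | ∀ c, ∀ Z ∈ φ.W c, Y * Z - Z * Y ∈ φ.W c}
  zero_mem' c Z _ := by simp
  add_mem' {X Y} hX hY c Z hZ := by
    rw [show (X + Y) * Z - Z * (X + Y) = (X * Z - Z * X) + (Y * Z - Z * Y) by noncomm_ring]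
    exact add_mem (hX c Z hZ) (hY c Z hZ)
  smul_mem' a X hX c Z hZ := by
    rw [smul_mul_assoc, mul_smul_comm, ← smul_sub]
    exact Submodule.smul_mem _ a (hX c Z hZ)

/-- the normaliser in the monoid of matrices -/
def Nor : Submonoid (Matrix n n F) where
  carrier := {x | ∀ c, ∀ Z ∈ φ.W c, ∃ Z' ∈ φ.W c, x * Z = Z' * x}
  one_mem' c Z hZ := ⟨Z, hZ, by simp⟩
  mul_mem' {x y} hx hy c Z hZ := by
    obtain ⟨Z', a, b⟩ := hy c Z hZ
    obtain ⟨Z'', a', b'⟩ := hx c Z' a
    exact ⟨Z'', a', by rw [mul_assoc, b, ← mul_assoc, b', mul_assoc]⟩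

theorem B_nor {M : ε → TM κ F} (h : ∀ i x, ∃ x', φ.B M * φ.s i x = φ.s i x' * φ.B M) :
    φ.B M ∈ φ.Nor := by
  rintro (i | σ) Z hZ
  · obtain ⟨x, rfl⟩ := hZ
    obtain ⟨x', e⟩ := h i x
    exact ⟨_, ⟨x', rfl⟩, e⟩
  · obtain ⟨a, rfl⟩ := Submodule.mem_span_singleton.1 hZ
    exact ⟨_, hZ, by rw [mul_smul_comm, smul_mul_assoc, φ.B_p]⟩

theorem nm_nor {g g' : ν → N2 F} (h : ∀ i, g' i * g i = 1) : φ.nm g ∈ φ.Nor :=
  φ.B_nor fun i x => ⟨g i * x * g' i, φ.nm_s (by rw [mul_assoc, h, mul_one])⟩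

theorem scal_s (c : ε → F) (i : ν) (x : N2 F) :
    φ.B (fun σ => c σ • 1) * φ.s i x = φ.s i x * φ.B (fun σ => c σ • 1) := by
  rw [s_apply, ← map_mul, ← map_mul]
  congr 1
  funext σ
  simp

theorem scal_nor (c : ε → F) : φ.B (fun σ => c σ • 1) ∈ φ.Nor :=
  φ.B_nor fun i x => ⟨x, φ.scal_s c i x⟩

omit [DecidableEq ν] in
theorem comm_p {a : ε → F} (ha : Injective a) {X : Matrix n n F}
    (h : X * φ.B (fun σ => a σ • 1) = φ.B (fun σ => a σ • 1) * X) (σ : ε) :
    X * φ.p σ = φ.p σ * X := by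
  have k : ∀ (T : Finset ε), X * φ.B (fun τ => (∏ t ∈ T, (a τ - a t)) • 1) =
      φ.B (fun τ => (∏ t ∈ T, (a τ - a t)) • 1) * X := fun T => by
    induction T using Finset.induction_on with
    | empty =>
      rw [show (fun τ => (∏ t ∈ (∅ : Finset ε), (a τ - a t)) • (1 : TM κ F)) = 1 from
        funext fun τ => by simp, map_one, mul_one, one_mul]
    | insert t T ht ih =>
      have e : (fun τ => (∏ t ∈ insert t T, (a τ - a t)) • (1 : TM κ F)) =
          ((fun σ => a σ • 1) - a t • 1) * fun τ => (∏ t ∈ T, (a τ - a t)) • 1 := funext fun τ => by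
        simp only [Finset.prod_insert ht, Pi.mul_apply, Pi.sub_apply, Pi.smul_apply, Pi.one_apply,
          ← sub_smul, smul_mul_smul_comm, mul_one]
      rw [e, map_mul, map_sub, map_smul, map_one, ← mul_assoc, mul_assoc _ _ X, ← ih, ← mul_assoc]
      congr 1
      rw [mul_sub, sub_mul, h, mul_smul_comm, smul_mul_assoc, mul_one, one_mul]
  have e : (fun τ => (∏ t ∈ Finset.univ.erase σ, (a τ - a t)) • (1 : TM κ F)) =
      (∏ t ∈ Finset.univ.erase σ, (a σ - a t)) • Pi.single σ 1 := funext fun τ => by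
    by_cases z : τ = σ
    · subst z; simp
    · rw [Finset.prod_eq_zero (i := τ) (by simp [z]) (sub_self _)]
      simp [z]
  have := k (Finset.univ.erase σ)
  rw [e, map_smul, mul_smul_comm, smul_mul_assoc] at this
  exact smul_right_injective _ (Finset.prod_ne_zero_iff.2 fun t ht =>
    sub_ne_zero.2 (ha.ne (Finset.ne_of_mem_erase ht).symm)) this

omit [DecidableEq ν] in
/-- extension of scalars -/
def map (f : F →+* F') : Fr n ε κ ν F' where
  io := φ.io
  inj := φ.inj
  cov := φ.cov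
  U := φ.U.map f
  U' := φ.U'.map f
  mul_inv := by rw [← Matrix.map_mul, φ.mul_inv, Matrix.map_one _ f.map_zero f.map_one]
  inv_mul := by rw [← Matrix.map_mul, φ.inv_mul, Matrix.map_one _ f.map_zero f.map_one]

omit [DecidableEq ν] in
theorem map_B (f : F →+* F') (M : ε → TM κ F) :
    (φ.B M).map f = (φ.map f).B fun σ => (M σ).map f := by
  rw [B_apply, Matrix.map_mul, Matrix.map_mul, blockDiagonal_map _ _ f.map_zero]
  rfl

theorem map_s (f : F →+* F') (i : ν) (x : N2 F) : (φ.s i x).map f = (φ.map f).s i (x.map f) := by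
  rw [s_apply, map_B, s_apply]
  congr 1
  funext σ
  ext a b
  simp only [sg, sl_apply, Matrix.sum_apply, one_apply, apply_ite f, map_apply, map_sum, map_mul,
    map_prod, map_one, map_zero]
  rfl

omit [DecidableEq ν] in
theorem map_p (f : F →+* F') (σ : ε) : (φ.p σ).map f = (φ.map f).p σ := by
  rw [p, map_B, p]
  congr 1
  funext τ
  by_cases h : τ = σ
  · subst h; simp
  · simp [h]

omit [DecidableEq ν] in
theorem map_nm (f : F →+* F') (g : ν → N2 F) :
    (φ.nm g).map f = (φ.map f).nm fun i => (g i).map f := by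
  rw [nm, map_B, nm]
  congr 1
  funext σ
  exact kp_map f _

theorem map_nn (f : F →+* F') {X : Matrix n n F} (h : X ∈ φ.nn) : X.map f ∈ (φ.map f).nn := by
  rintro (i | σ) Z hZ
  · obtain ⟨y, rfl⟩ := hZ
    rw [matrix_eq_sum_single y]
    simp only [map_sum, Finset.mul_sum, Finset.sum_mul, ← Finset.sum_sub_distrib]
    refine sum_mem fun a _ => sum_mem fun b _ => ?_
    obtain ⟨x, e⟩ := h (.inl i) _ ⟨single a b 1, rfl⟩
    have e' := congrArg (·.map f) e
    simp only [Matrix.map_sub _ (map_sub f), Matrix.map_mul, map_s] at e'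
    rw [show single a b (y a b) = y a b • (single a b (1 : F)).map f by
      ext s t; simp [single_apply, apply_ite f], map_smul, mul_smul_comm, smul_mul_assoc,
      ← smul_sub, ← e']
    exact Submodule.smul_mem _ _ ⟨_, rfl⟩
  · obtain ⟨a, rfl⟩ := Submodule.mem_span_singleton.1 hZ
    obtain ⟨c, e⟩ := Submodule.mem_span_singleton.1
      (h (.inr σ) _ (Submodule.mem_span_singleton_self _))
    have e' := congrArg (·.map f) e
    simp only [Matrix.map_sub _ (map_sub f), Matrix.map_mul, map_p,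
      Matrix.map_smul' _ _ _ (map_mul f)] at e'
    rw [mul_smul_comm, smul_mul_assoc, ← smul_sub, ← e']
    exact Submodule.smul_mem _ _ (Submodule.smul_mem _ _ (Submodule.mem_span_singleton_self _))

end Fr

end Pool.Agent.MT.EW
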