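import Pool.Agent.Lib.MP_d61fbb_ag.MW.E0

/-! Frames with several blocks: Casimir tensors, the circle, the normaliser. -/

set_option autoImplicit false

noncomputable section

open Matrix Function

namespace Pool.Agent.MT.EW

open UM

variable {n ε κ ν F : Type} [Fintype n] [DecidableEq n] [Fintype ε] [DecidableEq ε]
  [Fintype κ] [DecidableEq κ] [Field F]

theorem pi_ind {ι M : Type} [Fintype ι] [DecidableEq ι] [Monoid M] (p : (ι → M) → Prop) (h1 : p 1)
    (hm : ∀ a b, p a → p b → p (a * b)) (g : ι → M)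
    (hg : ∀ i, p (Pi.mulSingle (M := fun _ => M) i (g i))) : p g := by
  have key : ∀ s : Finset ι, p fun i => if i ∈ s then g i else 1 := fun s => by
    induction s using Finset.induction_on with
    | empty => exact (congrArg p (funext fun j => by simp)).mp h1
    | insert k s hk ih =>
      refine (congrArg p (funext fun j => ?_)).mp (hm _ _ (hg k) ih)
      by_cases hj : j = k
      · subst hj
        simp [hk]
      · simp [hj]
  simpa using key Finset.univ

/-- Skolem and Noether for matrices of size two -/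
theorem m2_sn [IsAlgClosed F] {e f : N2 F} (h1 : e * e = 0) (h2 : f * f = 0)
    (h3 : e * f + f * e = 1) :
    ∃ p : N2 F, p.det = 1 ∧ p * !![0, 1; 0, 0] = e * p ∧ p * !![0, 0; 1, 0] = f * p := by
  have te : e.trace = 0 := (isNilpotent_trace_of_isNilpotent ⟨2, by rw [pow_two, h1]⟩).eq_zero
  have tf : f.trace = 0 := (isNilpotent_trace_of_isNilpotent ⟨2, by rw [pow_two, h2]⟩).eq_zero
  have key : ∀ v : Fin 2 → F, ∃ p : N2 F, p.det = (e *ᵥ f *ᵥ v) 0 * (f *ᵥ v) 1 -
      (f *ᵥ v) 0 * (e *ᵥ f *ᵥ v) 1 ∧ p * !![0, 1; 0, 0] = e * p ∧ p * !![0, 0; 1, 0] = f * p :=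
    fun v => by
      have k1 : e *ᵥ e *ᵥ f *ᵥ v = 0 := by rw [mulVec_mulVec, h1, zero_mulVec]
      have k2 : f *ᵥ f *ᵥ v = 0 := by rw [mulVec_mulVec, h2, zero_mulVec]
      have k3 : f *ᵥ e *ᵥ f *ᵥ v = f *ᵥ v := by
        rw [mulVec_mulVec, eq_sub_of_add_eq' h3, sub_mulVec, one_mulVec, ← mulVec_mulVec, k2,
          mulVec_zero, sub_zero]
      generalize f *ᵥ v = w at *
      have k4 : ∀ a, e a 0 * w 0 + e a 1 * w 1 = (e *ᵥ w) a := fun a => by
        simp [mulVec, dotProduct]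
      generalize e *ᵥ w = u at *
      refine ⟨!![u 0, w 0; u 1, w 1], det_fin_two_of _ _ _ _, ?_, ?_⟩
      · have := congrFun k1 0
        have := congrFun k1 1
        ext a b
        fin_cases a <;> fin_cases b <;> simp_all [mul_apply, mulVec, dotProduct]
      · have := congrFun k2 0
        have := congrFun k2 1
        have := congrFun k3 0
        have := congrFun k3 1
        ext a b
        fin_cases a <;> fin_cases b <;> simp_all [mul_apply, mulVec, dotProduct]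
  obtain ⟨p, p0, p1, p2⟩ : ∃ p : N2 F, p.det ≠ 0 ∧ p * !![0, 1; 0, 0] = e * p ∧
      p * !![0, 0; 1, 0] = f * p := by
    have k2 := congrFun (congrFun h2 0) 0
    have k3 := congrFun (congrFun h3 0) 0
    simp only [trace_fin_two, add_eq_zero_iff_neg_eq] at te tf
    simp only [Matrix.add_apply, mul_apply, Fin.sum_univ_two, Matrix.zero_apply, one_apply_eq]
      at k2 k3
    by_cases c0 : f 1 0 = 0
    · obtain ⟨p, p0, p1⟩ := key ![0, 1]
      refine ⟨p, fun z => ?_, p1⟩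
      have a0 : f 0 0 = 0 := by simpa [c0] using k2
      have b0 : f 0 1 = 0 := by
        simp [z, mulVec, dotProduct, ← te, ← tf] at p0
        linear_combination p0 - f 0 1 * k3 + e 0 1 * k2
      simp [a0, b0, c0] at k3
    · obtain ⟨p, p0, p1⟩ := key ![1, 0]
      refine ⟨p, fun z => c0 ?_, p1⟩
      simp [z, mulVec, dotProduct, ← te, ← tf] at p0
      linear_combination -p0 - f 1 0 * k3 + e 1 0 * k2
  obtain ⟨r, hr⟩ := IsAlgClosed.exists_pow_nat_eq p.det⁻¹ two_pos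
  exact ⟨r • p, by rw [det_smul, Fintype.card_fin, hr, inv_mul_cancel₀ p0],
    by rw [smul_mul_assoc, p1, mul_smul_comm], by rw [smul_mul_assoc, p2, mul_smul_comm]⟩

namespace Fr

variable (φ : Fr n ε κ ν F) [DecidableEq ν]

theorem s_gen {X : Matrix n n F} {i : ν} (h1 : φ.s i 1 * X = X * φ.s i 1)
    (V : Submodule F (Matrix n n F)) (hu : X * φ.s i !![0, 1; 0, 0] - φ.s i !![0, 1; 0, 0] * X ∈ V)
    (hl : X * φ.s i !![0, 0; 1, 0] - φ.s i !![0, 0; 1, 0] * X ∈ V)
    (hh : X * φ.s i !![0, 0; 0, 1] - φ.s i !![0, 0; 0, 1] * X ∈ V) (y : N2 F) :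
    X * φ.s i y - φ.s i y * X ∈ V := by
  have e : y = y 0 0 • 1 + (y 1 1 - y 0 0) • !![0, 0; 0, 1] + y 0 1 • !![0, 1; 0, 0] +
      y 1 0 • !![0, 0; 1, 0] := by
    ext a b
    fin_cases a <;> fin_cases b <;> simp
  have := add_mem (add_mem (V.smul_mem (y 1 1 - y 0 0) hh) (V.smul_mem (y 0 1) hu))
    (V.smul_mem (y 1 0) hl)
  rw [e]
  simp only [map_add, map_smul, mul_add, add_mul, mul_smul_comm, smul_mul_assoc, h1]
  refine (congrArg (· ∈ V) ?_).mpr this
  module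

theorem schur {M : ε → TM κ F}
    (hu : ∀ i, φ.B M * φ.s i !![0, 1; 0, 0] = φ.s i !![0, 1; 0, 0] * φ.B M)
    (hl : ∀ i, φ.B M * φ.s i !![0, 0; 1, 0] = φ.s i !![0, 0; 1, 0] * φ.B M) :
    ∃ c : ε → F, M = fun σ => c σ • 1 := by
  have h1 : ∀ i y, φ.B M * φ.s i y = φ.s i y * φ.B M := fun i y =>
    sub_eq_zero.1 (φ.s_gen (φ.s_one_B i M) ⊥ (sub_eq_zero.2 (hu i)) (sub_eq_zero.2 (hl i))
      (sub_eq_zero.2 (by
        rw [show (!![0, 0; 0, 1] : N2 F) = !![0, 0; 1, 0] * !![0, 1; 0, 0] by simp, φ.s_mul,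
          ← mul_assoc, hl, mul_assoc, hu, mul_assoc])) y)
  have h2 : ∀ σ j y, M σ * sl j y = sl j y * M σ := fun σ j y => by
    have := h1 (φ.io σ j) y
    rw [s_apply, ← map_mul, ← map_mul] at this
    simpa only [Pi.mul_apply, φ.sg_of (rfl : φ.io σ j = _)] using congrFun (φ.B_inj this) σ
  have h3 : ∀ σ (g : κ → N2 F), Commute (M σ) (kp g) := fun σ g => by
    refine pi_ind (fun g : κ → N2 F => Commute (M σ) (kp g)) ?_ ?_ g fun j => h2 σ j _
    · exact (show kp (1 : κ → N2 F) = 1 from kp_one) ▸ Commute.one_right _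
    · intro a b ha hb
      exact (show kp (a * b) = kp a * kp b from kp_mul a b) ▸ ha.mul_right hb
  choose c hc using fun σ => (mem_range_scalar_iff_commute_single' (M := M σ)).2 fun a b => by
    rw [← kp_single]
    exact (h3 σ _).symm
  exact ⟨c, funext fun σ => by rw [← hc, scalar_apply, smul_one_eq_diagonal]⟩

theorem circle [CharZero F] {Y : Matrix n n F} (hY : Y ∈ φ.nn) (h2 : Y * Y = -1) {a b : F}
    (h : a ^ 2 + b ^ 2 = 1) : a • (1 : Matrix n n F) + b • Y ∈ φ.Nor := fun c Z hZ => by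
  have k1 := hY c Z hZ
  have k2 := hY c _ k1
  have e1 : (a • (1 : Matrix n n F) - b • Y) * (a • 1 + b • Y) = 1 := by
    simp only [mul_add, sub_mul, smul_mul_assoc, mul_smul_comm, one_mul, mul_one, h2]
    rw [← one_smul F (1 : Matrix n n F), ← h]
    simp only [smul_smul, h, mul_one]
    rw [show (1 : Matrix n n F) = (a ^ 2 + b ^ 2) • 1 by rw [h, one_smul]]
    simp only [smul_smul, h, mul_one, one_smul]
    linear_combination (norm := module) h • (1 : Matrix n n F)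
  refine ⟨(a • 1 + b • Y) * Z * (a • 1 - b • Y), ?_, by rw [mul_assoc _ _ (_ + _), e1, mul_one]⟩
  have e2 : Y * Z * Y = -Z - (2 : F)⁻¹ • (Y * (Y * Z - Z * Y) - (Y * Z - Z * Y) * Y) := by
    simp only [mul_sub, sub_mul, ← mul_assoc Y Y, mul_assoc Z Y Y, h2, mul_assoc Y Z Y]
    simp only [neg_mul, mul_neg, one_mul, mul_one]
    match_scalars <;> norm_num
  have e3 : (a • 1 + b • Y) * Z * (a • 1 - b • Y) =
      (a * a) • Z + (a * b) • (Y * Z - Z * Y) - (b * b) • (Y * Z * Y) := by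
    simp only [mul_sub, add_mul, smul_mul_assoc, mul_smul_comm, one_mul, mul_one]
    module
  rw [e3, e2]
  exact sub_mem (add_mem (Submodule.smul_mem _ _ hZ) (Submodule.smul_mem _ _ k1))
    (Submodule.smul_mem _ _ (sub_mem (neg_mem hZ) (Submodule.smul_mem _ _ k2)))

omit [DecidableEq ν] in
theorem p_trace [CharZero F] (σ : ε) : (φ.p σ).trace ≠ 0 := by
  rw [p, B_trace, Finset.sum_eq_single σ (fun τ _ h => by simp [h]) (by simp)]
  simp

theorem nn_p [CharZero F] {Y : Matrix n n F} (hY : Y ∈ φ.nn) (σ : ε) : Y * φ.p σ = φ.p σ * Y := by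
  obtain ⟨c, e⟩ := Submodule.mem_span_singleton.1
    (hY (.inr σ) _ (Submodule.mem_span_singleton_self _))
  have := congrArg trace e
  rw [trace_sub, trace_mul_comm, sub_self, trace_smul, smul_eq_mul, mul_eq_zero,
    or_iff_left (φ.p_trace σ)] at this
  rw [← sub_eq_zero, ← e, this, zero_smul]

theorem nor_p [CharZero F] {x : Matrix n n F} (hu : IsUnit x) (hx : x ∈ φ.Nor) (σ : ε) :
    x * φ.p σ = φ.p σ * x := by
  obtain ⟨_, k, e⟩ := hx (.inr σ) _ (Submodule.mem_span_singleton_self _)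
  obtain ⟨c, rfl⟩ := Submodule.mem_span_singleton.1 k
  obtain ⟨x', hx'⟩ := hu.exists_left_inv
  have := congrArg (fun Z => (x' * Z).trace) e
  simp only [← mul_assoc, hx', one_mul] at this
  rw [trace_mul_cycle, mul_eq_one_comm.1 hx', one_mul, trace_smul, smul_eq_mul,
    eq_comm, mul_eq_right₀ (φ.p_trace σ)] at this
  rw [e, this, one_smul]

/-- an invertible matrix that keeps the slots and the blocks is a tensor product -/
theorem mem_H [CharZero F] [IsAlgClosed F] {x : Matrix n n F} (hu : IsUnit x) (hx : x ∈ φ.Nor) :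
    ∃ (c : ε → F) (g : ν → N2 F), (∀ σ, c σ ≠ 0) ∧ (∀ i, (g i).det = 1) ∧
      x = φ.B (fun σ => c σ • 1) * φ.nm g := by
  obtain ⟨M, rfl⟩ := φ.exists_B (φ.nor_p hu hx)
  have ex : ∀ i, ∃ p : N2 F, p.det = 1 ∧ ∀ x, x = !![0, 1; 0, 0] ∨ x = !![0, 0; 1, 0] →
      ∃ x', φ.B M * φ.s i x = φ.s i x' * φ.B M ∧ p * x = x' * p := fun i => by
    obtain ⟨_, ⟨e, rfl⟩, k2⟩ := hx (.inl i) _ ⟨!![0, 1; 0, 0], rfl⟩
    obtain ⟨_, ⟨f, rfl⟩, k4⟩ := hx (.inl i) _ ⟨!![0, 0; 1, 0], rfl⟩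
    have m : ∀ {x y x' y'}, φ.B M * φ.s i x = φ.s i x' * φ.B M →
        φ.B M * φ.s i y = φ.s i y' * φ.B M →
        φ.s i (x' * y') * φ.B M = φ.B M * φ.s i (x * y) := fun a b => by
      rw [φ.s_mul, φ.s_mul, mul_assoc, ← b, ← mul_assoc, ← a, mul_assoc]
    obtain ⟨p, p0, p1, p2⟩ := m2_sn (e := e) (f := f)
      (φ.s_inj i (hu.mul_right_cancel (by rw [m k2 k2, e_sq]; simp)))
      (φ.s_inj i (hu.mul_right_cancel (by
        rw [m k4 k4, show (!![0, 0; 1, 0] * !![0, 0; 1, 0] : N2 F) = 0 by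
          ext a b; fin_cases a <;> fin_cases b <;> simp]
        simp)))
      (φ.s_inj i (hu.mul_right_cancel (by
        rw [map_add, add_mul, m k2 k4, m k4 k2, ← mul_add, ← map_add, φ.s_one_B]
        congr 2
        simp [one_fin_two])))
    exact ⟨p, p0, fun x hx => hx.elim (fun z => ⟨e, z ▸ k2, z ▸ p1⟩) fun z => ⟨f, z ▸ k4, z ▸ p2⟩⟩
  choose p p0 p1 using ex
  have a1 : φ.nm p * φ.nm (fun i => (p i).adjugate) = 1 := by
    rw [← nm_mul, ← φ.nm_one]
    simp only [mul_adjugate, p0, one_smul]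
  have a2 := mul_eq_one_comm.1 a1
  have k : ∀ i x, x = !![0, 1; 0, 0] ∨ x = !![0, 0; 1, 0] →
      φ.nm (fun i => (p i).adjugate) * φ.B M * φ.s i x =
        φ.s i x * (φ.nm (fun i => (p i).adjugate) * φ.B M) := fun i x hx => by
    obtain ⟨x', a, b⟩ := p1 i x hx
    rw [mul_assoc, a, ← one_mul (φ.s i x * _), ← a2, mul_assoc _ (φ.nm p),
      ← mul_assoc (φ.nm p), φ.nm_s b, mul_assoc (φ.s i x'), ← mul_assoc (φ.nm p), a1, one_mul]
  rw [nm, ← map_mul] at k
  obtain ⟨c, hc⟩ := φ.schur (fun i => k i _ (.inl rfl)) fun i => k i _ (.inr rfl)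
  have e : φ.B M = φ.B (fun σ => c σ • 1) * φ.nm p := by
    rw [show φ.B (fun σ => c σ • 1) * φ.nm p = φ.nm p * φ.B fun σ => c σ • 1 by
      rw [nm, ← map_mul, ← map_mul]; congr 1; funext σ; simp, ← hc, map_mul, ← mul_assoc]
    exact ((congrArg (· * _) a1).trans (one_mul _)).symm
  refine ⟨c, p, fun σ h0 => φ.p_trace σ ?_, p0, e⟩
  have : φ.p σ * φ.B M = 0 := by
    rw [e, ← mul_assoc, Fr.p, ← map_mul, show (Pi.single σ 1 * fun σ => c σ • (1 : TM κ F)) = 0 from
      funext fun τ => by by_cases z : τ = σ <;> simp [z, h0], map_zero, zero_mul]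
  rw [hu.mul_left_eq_zero.1 this, trace_zero]

variable [CharZero F]

theorem s_trace (i : ν) : ∃ c : F, c ≠ 0 ∧ ∀ x, (φ.s i x).trace = c * x.trace := by
  refine ⟨((∑ σ, ∑ j with φ.io σ j = i, ∏ _k ∈ Finset.univ.erase j, 2 : ℕ) : F), ?_, fun x => ?_⟩
  · obtain ⟨σ, j, e⟩ := φ.cov i
    refine Nat.cast_ne_zero.2 (Finset.sum_pos' (fun _ _ => Nat.zero_le _) ⟨σ, Finset.mem_univ _,
      Finset.sum_pos' (fun _ _ => Nat.zero_le _) ⟨j, by simp [e], by positivity⟩⟩).ne'
  · simp only [s_apply, B_trace, sg, trace_sum, Nat.cast_sum, Finset.sum_mul, Nat.cast_prod]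
    refine Finset.sum_congr rfl fun σ _ => Finset.sum_congr rfl fun j _ => ?_
    rw [sl, kp_trace, ← Finset.prod_erase_mul _ _ (Finset.mem_univ j), Pi.mulSingle_eq_same]
    congr 1
    exact Finset.prod_congr rfl fun k hk => by
      rw [Pi.mulSingle_eq_of_ne (Finset.ne_of_mem_erase hk)]
      simp

theorem cas (c : ν ⊕ ε) : ∃ (A B : Fin 2 × Fin 2 → Matrix n n F) (t : F), Cas (φ.W c) A B t := by
  rcases c with i | σ
  · obtain ⟨t, t0, ht⟩ := φ.s_trace i
    refine ⟨fun r => φ.s i (single r.1 r.2 1), fun r => φ.s i (single r.2 r.1 1), t,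
      fun _ => ⟨_, rfl⟩, fun _ => ⟨_, rfl⟩, t0, fun Z Y => ?_, ?_⟩
    · exact Fintype.sum_equiv (Equiv.prodComm _ _) _ _ fun r => mul_comm _ _
    · rintro _ ⟨z, rfl⟩
      simp only [← s_mul, ht, trace_single_mul, ← map_smul, ← map_sum, smul_single]
      congr 1
      ext a b
      fin_cases a <;> fin_cases b <;> simp [Fintype.sum_prod_type]
  · refine ⟨fun _ => φ.p σ, fun _ => φ.p σ, 4 * (φ.p σ).trace,
      fun _ => Submodule.mem_span_singleton_self _, fun _ => Submodule.mem_span_singleton_self _,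
      mul_ne_zero (by norm_num) (φ.p_trace σ),
      fun Z Y => Finset.sum_congr rfl fun _ _ => mul_comm _ _, fun Z hZ => ?_⟩
    obtain ⟨a, rfl⟩ := Submodule.mem_span_singleton.1 hZ
    simp only [mul_smul_comm, p_sq, trace_smul, Finset.sum_const, Finset.card_univ,
      Fintype.card_prod, Fintype.card_fin, smul_eq_mul]
    module

/-- the annihilator of the invariant tensors of degree four lies in the normaliser -/
theorem ann_nn {X E E' : Matrix n n F} (hE : E * E' = 1) (hX : X * E + E * Xᵀ = 0)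
    (S : Set (Matrix n n F)) (hS : ∀ γ ∈ S, γ ∈ φ.Nor ∧ IsUnit γ ∧ γ * E * γᵀ = E)
    (h : ∀ v : (Fin 4 → n) → F, (∀ γ ∈ S, tk (Fin 4) γ *ᵥ v = v) → dp (Fin 4) X *ᵥ v = 0) :
    X ∈ φ.nn := fun c Z hZ => by
  obtain ⟨A, B, t, C⟩ := φ.cas c
  refine C.ann hE hX (h _ fun γ hγ => ?_) hZ
  obtain ⟨h1, h2, h3⟩ := hS γ hγ
  obtain ⟨γ', h4⟩ := h2.exists_right_inv
  refine C.inv h4 h3 fun Y hY => ?_
  obtain ⟨Y', a, b⟩ := h1 c Y hY
  rwa [b, mul_assoc, h4, mul_one]

end Fr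

end Pool.Agent.MT.EW
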