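import Pool.Agent.Lib.MP_d61fbb_ag.MW.E1

/-! Frames with several blocks: weights. -/

set_option autoImplicit false

noncomputable section

open Matrix Function

namespace Pool.Agent.MT.EW

open UM

variable {n ε κ ν F : Type} [Fintype n] [DecidableEq n] [Fintype ε] [DecidableEq ε]
  [Fintype κ] [DecidableEq κ] [Field F]

/-- the number of ones -/
def ht (a : κ → Fin 2) : ℤ := ∑ j, ((a j : ℕ) : ℤ)

/-- the part of weight `v` -/
def part (v : ℤ) (M : ε → TM κ F) : ε → TM κ F :=
  fun σ => of fun a b => if ht a - ht b = v then M σ a b else 0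

theorem sum_sl : ∑ j : κ, sl j (!![0, 0; 0, 1] : N2 F) = diagonal fun a => (ht a : F) := by
  have e : ∀ j : κ, sl j (!![0, 0; 0, 1] : N2 F) = diagonal fun a => ((a j : ℕ) : F) := fun j => by
    rw [sl, show (Pi.mulSingle j !![0, 0; 0, 1] : κ → N2 F) = fun i =>
      diagonal fun t : Fin 2 => if i = j then ((t : ℕ) : F) else 1 from funext fun i => by
        by_cases h : i = j
        · subst h
          ext a b
          fin_cases a <;> fin_cases b <;> simp
        · simp [h], kp_diagonal]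
    simp
  ext a b
  by_cases h : a = b <;> simp [e, Matrix.sum_apply, ht, diagonal_apply, h]

namespace Fr

variable (φ : Fr n ε κ ν F) [DecidableEq ν] [Fintype ν]

/-- the sum of the slots -/
def hh : Submodule F (Matrix n n F) := ⨆ i, LinearMap.range (φ.s i)

/-- the weight operator -/
def hw : Matrix n n F := ∑ i, φ.s i !![0, 0; 0, 1]

omit [Fintype ν] in
theorem s_mem (i : ν) (x : N2 F) : φ.s i x ∈ φ.hh :=
  Submodule.mem_iSup_of_mem i ⟨x, rfl⟩

theorem hw_eq : φ.hw = φ.B fun _ => diagonal fun a => (ht a : F) := by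
  simp only [hw, s_apply, ← map_sum]
  congr 1
  funext σ
  simp only [Finset.sum_apply, sg, ← sum_sl]
  exact Finset.sum_fiberwise _ _ _

theorem hw_B (M : ε → TM κ F) : φ.hw * φ.B M - φ.B M * φ.hw =
    φ.B fun σ => of fun a b => ((ht a - ht b : ℤ) : F) * M σ a b := by
  rw [hw_eq, ← map_mul, ← map_mul, ← map_sub]
  congr 1
  ext σ a b
  simp only [Pi.sub_apply, Pi.mul_apply, Matrix.sub_apply, diagonal_mul, mul_diagonal, of_apply]
  push_cast
  ring

theorem hw_part (v : ℤ) (M : ε → TM κ F) :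
    φ.hw * φ.B (part v M) - φ.B (part v M) * φ.hw = (v : F) • φ.B (part v M) := by
  rw [hw_B, ← map_smul]
  congr 1
  ext σ a b
  by_cases h : ht a - ht b = v <;> simp [part, h, -Int.cast_sub]

omit [Fintype ν] in
theorem hh_ad (i : ν) (x : N2 F) {Z : Matrix n n F} (hZ : Z ∈ φ.hh) :
    φ.s i x * Z - Z * φ.s i x ∈ LinearMap.range (φ.s i) := by
  induction hZ using Submodule.iSup_induction' with
  | mem j Z h =>
    obtain ⟨y, rfl⟩ := h
    by_cases e : i = j
    · subst e
      exact ⟨x * y - y * x, by rw [map_sub, s_mul, s_mul]⟩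
    · rw [φ.s_comm e, sub_self]
      exact zero_mem _
  | zero => simp
  | add Y Z _ _ a b =>
    rw [show φ.s i x * (Y + Z) - (Y + Z) * φ.s i x = φ.s i x * Y - Y * φ.s i x +
      (φ.s i x * Z - Z * φ.s i x) by noncomm_ring]
    exact add_mem a b

theorem hw_s (i : ν) (x : N2 F) : φ.hw * φ.s i x - φ.s i x * φ.hw =
    φ.s i (!![0, 0; 0, 1] * x - x * !![0, 0; 0, 1]) := by
  rw [hw, Finset.sum_mul, Finset.mul_sum, ← Finset.sum_sub_distrib, Finset.sum_eq_single i
    (fun j _ h => by rw [φ.s_comm h, sub_self]) (by simp), map_sub, s_mul, s_mul]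

theorem hh_wt {Z : Matrix n n F} (hZ : Z ∈ φ.hh) {v : F} (h : φ.hw * Z - Z * φ.hw = v • Z) :
    (v ^ 3 - v) • Z = 0 := by
  let D : Module.End F (Matrix n n F) := LinearMap.mulLeft F φ.hw - LinearMap.mulRight F φ.hw
  have hD : ∀ Y, D Y = φ.hw * Y - Y * φ.hw := fun _ => rfl
  have k : D (D (D Z)) = D Z := by
    clear h
    induction hZ using Submodule.iSup_induction' with
    | mem j Z h =>
      obtain ⟨y, rfl⟩ := h
      simp only [hD, hw_s]
      congr 1
      have e : (!![0, 0; 0, 1] * !![0, 0; 0, 1] : N2 F) = !![0, 0; 0, 1] := by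
        ext a b
        fin_cases a <;> fin_cases b <;> simp
      generalize (!![0, 0; 0, 1] : N2 F) = q at e
      simp only [mul_sub, sub_mul, mul_assoc, e, ← mul_assoc q q]
      abel
    | zero => simp
    | add Y Z _ _ a b => simp only [map_add, a, b]
  rw [← hD] at h
  simp only [h, map_smul, smul_smul] at k
  rw [sub_smul, sub_eq_zero, ← k]
  congr 1
  ring

variable [CharZero F]

theorem part_hh {v : ℤ} (hv : v ≠ 0) {M : ε → TM κ F} (h : φ.B (part v M) ∈ φ.nn) :
    φ.B (part v M) ∈ φ.hh := by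
  rw [← φ.hh.smul_mem_iff (show (v : F) ≠ 0 from Int.cast_ne_zero.2 hv), ← hw_part, ← neg_mem_iff, neg_sub, hw,
    Finset.sum_mul, Finset.mul_sum, ← Finset.sum_sub_distrib]
  exact sum_mem fun i _ => Submodule.mem_iSup_of_mem i (h (.inl i) _ ⟨_, rfl⟩)

theorem top {M : ε → TM κ F} {η : ℤ} (hη : η = 1 ∨ η = -1)
    (key : ∀ w : ℕ, 0 < w → (∀ σ a b, w < η * (ht a - ht b) → M σ a b = 0) →
      φ.B (part (η * w) M) ∈ φ.nn) :
    (∀ σ a b, 1 < η * (ht a - ht b) → M σ a b = 0) ∧ φ.B (part η M) ∈ φ.hh := by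
  have η0 : η ≠ 0 := by omega
  have h1 : ∀ σ a b, 1 < η * (ht a - ht b) → M σ a b = 0 := by
    classical
    by_contra! hc
    obtain ⟨σ, a, b, h1, h2⟩ := hc
    obtain ⟨⟨σ', a', b'⟩, m1, m2⟩ := Finset.exists_max_image
      (Finset.univ.filter fun x : ε × (κ → Fin 2) × (κ → Fin 2) => M x.1 x.2.1 x.2.2 ≠ 0)
      (fun x => η * (ht x.2.1 - ht x.2.2)) ⟨(σ, a, b), by simpa using h2⟩
    have m3 := m2 (σ, a, b) (by simpa using h2)
    obtain ⟨w, hw⟩ := Int.eq_ofNat_of_zero_le (show 0 ≤ η * (ht a' - ht b') by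
      simp only at m3; omega)
    simp only [hw] at m2 m3
    have e : ht a' - ht b' = η * w := by rcases hη with rfl | rfl <;> omega
    have k := φ.hh_wt (φ.part_hh (mul_ne_zero η0 (by omega)) (key w (by omega) fun s x y h => by
      by_contra z
      exact absurd (m2 (s, x, y) (by simpa using z)) (not_le.2 h))) (φ.hw_part _ _)
    rw [← map_smul, ← map_zero φ.B] at k
    have k2 := congrFun (congrFun (congrFun (φ.B_inj k) σ') a') b'
    simp only [Pi.smul_apply, Matrix.smul_apply, part, of_apply, e, if_true, smul_eq_mul,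
      Pi.zero_apply, Matrix.zero_apply, mul_eq_zero] at k2
    have k3 : (η * w) ^ 3 - η * w = 0 := by
      exact_mod_cast k2.resolve_right (by simpa using m1)
    have : (2 : ℤ) ≤ w := by omega
    rcases hη with rfl | rfl <;> nlinarith [mul_le_mul this this (by norm_num) (by omega)]
  exact ⟨h1, φ.part_hh η0 (by simpa using key 1 one_pos (by simpa using h1))⟩

theorem ad_hw {M : ε → TM κ F} (key : ∀ η : ℤ, η = 1 ∨ η = -1 → ∀ w : ℕ, 0 < w →
      (∀ σ a b, w < η * (ht a - ht b) → M σ a b = 0) → φ.B (part (η * w) M) ∈ φ.nn) :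
    φ.hw * φ.B M - φ.B M * φ.hw ∈ φ.hh := by
  obtain ⟨a1, a2⟩ := φ.top (.inl rfl) (key 1 (.inl rfl))
  obtain ⟨b1, b2⟩ := φ.top (.inr rfl) (key (-1) (.inr rfl))
  have := sub_mem a2 b2
  rw [← map_sub] at this
  rw [hw_B]
  refine (congrArg (fun N => φ.B N ∈ φ.hh) ?_).mpr this
  ext σ a b
  simp only [part, Pi.sub_apply, Matrix.sub_apply, of_apply]
  by_cases h1 : 1 < ht a - ht b
  · simp [a1 σ a b (by omega)]
  by_cases h2 : ht a - ht b < -1
  · simp [b1 σ a b (by omega)]
  obtain h | h | h : ht a - ht b = 1 ∨ ht a - ht b = 0 ∨ ht a - ht b = -1 := by omega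
  all_goals simp [h]

/-- the conjugates of the weight operator span -/
theorem pick {X : Matrix n n F} (hp : ∀ σ, X * φ.p σ = φ.p σ * X) {A : Set (ν → F)} (h0 : 0 ∈ A)
    (hA : Submodule.span F A = ⊤) (h : ν → ∀ t ∈ A, ∀ y : N2 F, y = !![0, 1; 0, 0] ∨ y = !![0, 0; 1, 0] →
      ∀ Y, Y = φ.nm (fun i => 1 + t i • y) * X * φ.nm (fun i => 1 - t i • y) →
        φ.hw * Y - Y * φ.hw ∈ φ.hh) : X ∈ φ.nn := by
  rintro (i | σ) Z hZ
  swap
  · obtain ⟨a, rfl⟩ := Submodule.mem_span_singleton.1 hZ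
    rw [mul_smul_comm, smul_mul_assoc, hp, sub_self]
    exact zero_mem _
  let D : Module.End F (Matrix n n F) := LinearMap.mulRight F X - LinearMap.mulLeft F X
  have hD : ∀ Y, D Y = Y * X - X * Y := fun _ => rfl
  have k1 : ∀ y : N2 F, y = !![0, 1; 0, 0] ∨ y = !![0, 0; 1, 0] → ∀ t ∈ A,
      D (∑ j, φ.s j ((1 - t j • y) * !![0, 0; 0, 1] * (1 + t j • y))) ∈ φ.hh := fun y hy t ht => by
    have y2 : y * y = 0 := by
      rcases hy with rfl | rfl <;> ext a b <;> fin_cases a <;> fin_cases b <;> simp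
    have e1 : ∀ j, (1 - t j • y) * (1 + t j • y) = 1 := fun j => by
      simp [mul_add, sub_mul, y2]
    have e2 : φ.nm (fun i => 1 - t i • y) * φ.nm (fun i => 1 + t i • y) = 1 := by
      rw [← nm_mul, ← φ.nm_one]
      simp only [e1]
    have e3 : ∀ j x, φ.nm (fun i => 1 - t i • y) * φ.s j x * φ.nm (fun i => 1 + t i • y) =
        φ.s j ((1 - t j • y) * x * (1 + t j • y)) := fun j x => by
      rw [φ.nm_s (x' := (1 - t j • y) * x * (1 + t j • y))
        (by rw [mul_assoc _ (1 + _), mul_eq_one_comm.1 (e1 j), mul_one]), mul_assoc, e2, mul_one]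
    have e4 : ∀ Z ∈ φ.hh, φ.nm (fun i => 1 - t i • y) * Z * φ.nm (fun i => 1 + t i • y) ∈ φ.hh :=
      fun Z hZ => by
        induction hZ using Submodule.iSup_induction' with
        | mem j Z h =>
          obtain ⟨x, rfl⟩ := h
          exact e3 j x ▸ φ.s_mem _ _
        | zero => simp
        | add Y Z _ _ a b =>
          rw [mul_add, add_mul]
          exact add_mem a b
    have := e4 _ (h i t ht y hy _ rfl)
    simp only [← e3, ← Finset.sum_mul, ← Finset.mul_sum]
    rw [hD, ← hw]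
    simpa only [mul_sub, sub_mul, mul_assoc, e2, mul_one, ← mul_assoc (φ.nm fun i => 1 - t i • y)
      (φ.nm fun i => 1 + t i • y), one_mul] using this
  have k2 : ∀ y : N2 F, y = !![0, 1; 0, 0] ∨ y = !![0, 0; 1, 0] → D (φ.s i y) ∈ φ.hh := fun y hy => by
    let L : (ν → F) →ₗ[F] Matrix n n F := D ∘ₗ Fintype.linearCombination F fun j => φ.s j y
    have : Submodule.span F A ≤ φ.hh.comap L := Submodule.span_le.2 fun t ht => by
      have a := sub_mem (k1 y hy t ht) (k1 y hy 0 h0)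
      rw [← map_sub, ← Finset.sum_sub_distrib] at a
      simp only [← map_sub] at a
      change D (∑ j, t j • φ.s j y) ∈ φ.hh
      simp only [← map_smul]
      rcases hy with rfl | rfl
      · rw [← neg_mem_iff, ← map_neg, ← Finset.sum_neg_distrib]
        refine (congrArg (fun N => D N ∈ φ.hh) (Finset.sum_congr rfl fun j _ => ?_)).mpr a
        rw [← map_neg]
        congr 1
        ext a b
        fin_cases a <;> fin_cases b <;> simp [mul_apply, Fin.sum_univ_two]
      · refine (congrArg (fun N => D N ∈ φ.hh) (Finset.sum_congr rfl fun j _ => ?_)).mpr a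
        congr 1
        ext a b
        fin_cases a <;> fin_cases b <;> simp [mul_apply, Fin.sum_univ_two]
    simpa [L, Fintype.linearCombination_apply_single] using this (hA ▸ Submodule.mem_top :
      Pi.single i 1 ∈ _)
  have k3 : ∀ x y : N2 F, D (φ.s i x) ∈ φ.hh → D (φ.s i y) ∈ φ.hh →
      D (φ.s i (x * y - y * x)) ∈ LinearMap.range (φ.s i) := fun x y a b => by
    have := sub_mem (φ.hh_ad i x b) (φ.hh_ad i y a)
    refine (congrArg (· ∈ LinearMap.range (φ.s i)) ?_).mpr this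
    simp only [map_sub, s_mul, hD]
    noncomm_ring
  have k4 := k3 _ _ (k2 _ (.inl rfl)) (k2 _ (.inr rfl))
  have k5 := k3 _ _ (Submodule.mem_iSup_of_mem i k4) (k2 _ (.inl rfl))
  have k6 := k3 _ _ (Submodule.mem_iSup_of_mem i k4) (k2 _ (.inr rfl))
  obtain ⟨M, rfl⟩ := φ.exists_B hp
  obtain ⟨z, rfl⟩ := hZ
  have k7 : ∀ (c : F) (x y : N2 F), c ≠ 0 → x = c • y + (x - c • y) 0 0 • 1 →
      D (φ.s i x) ∈ LinearMap.range (φ.s i) →
      φ.B M * φ.s i y - φ.s i y * φ.B M ∈ LinearMap.range (φ.s i) := fun c x y c0 e a => by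
    rw [e, map_add, map_add, map_smul, map_smul, map_smul, map_smul, hD (φ.s i 1), s_one_B, sub_self,
      smul_zero, add_zero, Submodule.smul_mem_iff _ c0, hD] at a
    simpa using neg_mem a
  refine φ.s_gen (φ.s_one_B i M) _ (k7 2 _ _ two_ne_zero ?_ k5)
    (k7 (-2) _ _ (neg_ne_zero.2 two_ne_zero) ?_ k6) (k7 (-2) _ _ (neg_ne_zero.2 two_ne_zero) ?_ k4) z
  all_goals
    ext a b
    fin_cases a <;> fin_cases b <;> simp <;> norm_num

end Fr

end Pool.Agent.MT.EW
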