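import Pool.Agent.Lib.MP_d61fbb_ag.MW.E2
import Pool.Agent.Lib.MP_d61fbb_ag.MN.R2a

/-! Frames with several blocks over a normed field. -/

set_option autoImplicit false

noncomputable section

open Matrix Function Filter Topology

namespace Pool.Agent.MT.EW.Fr

open UM
open scoped Matrix.Norms.Elementwise

variable {n ε κ ν F : Type} [Fintype n] [DecidableEq n] [Fintype ε] [DecidableEq ε]
  [Fintype κ] [DecidableEq κ]

theorem conj_d [Field F] (φ : Fr n ε κ ν F) {q : F} (hq : q ≠ 0) (M : ε → TM κ F) :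
    φ.nm (fun _ => !![q, 0; 0, q⁻¹]) * φ.B M * φ.nm (fun _ => !![q⁻¹, 0; 0, q]) =
      φ.B fun σ => of fun a b => q ^ (2 * (ht b - ht a)) * M σ a b := by
  have e : ∀ x y : F, (!![x, 0; 0, y] : N2 F) = diagonal ![x, y] := fun x y => by
    ext a b
    fin_cases a <;> fin_cases b <;> simp
  rw [nm, nm, ← map_mul, ← map_mul]
  congr 1
  ext σ a b
  simp only [Pi.mul_apply, e, kp_diagonal, diagonal_mul, mul_diagonal, of_apply]
  rw [mul_right_comm, ← Finset.prod_mul_distrib, ht, ht, ← Finset.sum_sub_distrib, Finset.mul_sum]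
  congr 1
  have k : ∀ (T : Finset κ) (z : κ → ℤ), q ^ ∑ j ∈ T, z j = ∏ j ∈ T, q ^ z j := fun T z => by
    induction T using Finset.induction_on with
    | empty => simp
    | insert j T hj ih => rw [Finset.sum_insert hj, Finset.prod_insert hj, zpow_add₀ hq, ih]
  rw [k]
  refine Finset.prod_congr rfl fun j _ => ?_
  generalize a j = s
  generalize b j = t
  fin_cases s <;> fin_cases t <;> simp [hq, zpow_ofNat, pow_two]

variable [NormedField F] (φ : Fr n ε κ ν F)

theorem lim {q : F} (h0 : q ≠ 0) (h1 : ‖q‖ < 1) {η : ℤ} (hη : η = 1 ∨ η = -1) {w : ℕ}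
    {M : ε → TM κ F} (h : ∀ σ a b, w < η * (ht a - ht b) → M σ a b = 0) :
    Tendsto (fun j : ℕ => (q ^ (2 * w)) ^ j • (φ.nm (fun _ => !![q ^ (η * j), 0; 0, (q ^ (η * j))⁻¹]) *
      φ.B M * φ.nm (fun _ => !![(q ^ (η * j))⁻¹, 0; 0, q ^ (η * j)]))) atTop
        (𝓝 (φ.B (part (η * w) M))) := by
  have hc : Continuous fun M : ε → TM κ F => φ.U * blockDiagonal M * φ.U' :=
    (continuous_const.matrix_mul continuous_id.matrix_blockDiagonal).matrix_mul continuous_const
  simp only [φ.conj_d (zpow_ne_zero _ h0), ← map_smul]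
  refine (hc.tendsto _).comp (tendsto_pi_nhds.2 fun σ => tendsto_pi_nhds.2 fun a =>
    tendsto_pi_nhds.2 fun b => ?_)
  simp only [Pi.smul_apply, Matrix.smul_apply, of_apply, part, smul_eq_mul, ← mul_assoc]
  rcases lt_or_ge (w : ℤ) (η * (ht a - ht b)) with k | k
  · simp [h σ a b k]
  obtain ⟨c, hc⟩ := Int.eq_ofNat_of_zero_le (sub_nonneg.2 k)
  have e : ∀ j : ℕ, (q ^ (2 * w)) ^ j * (q ^ (η * j)) ^ (2 * (ht b - ht a)) = (q ^ (2 * c)) ^ j :=
    fun j => by
      rw [← pow_mul, ← pow_mul, ← zpow_natCast, ← zpow_natCast, ← _root_.zpow_mul, ← zpow_add₀ h0]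
      congr 1
      push_cast
      rw [← hc]
      ring
  simp only [e]
  rcases Nat.eq_zero_or_pos c with rfl | c0
  · rw [if_pos (by rcases hη with rfl | rfl <;> omega)]
    simp
  · rw [if_neg (by rcases hη with rfl | rfl <;> omega), ← zero_mul (M σ a b)]
    refine (tendsto_pow_atTop_nhds_zero_of_norm_lt_one ?_).mul_const _
    rw [norm_pow]
    exact pow_lt_one₀ (norm_nonneg _) h1 (by omega)

theorem uni_le [IsUltrametricDist F] (hU : ‖φ.U‖ ≤ 1) (hU' : ‖φ.U'‖ ≤ 1) (i : ν)
    {k k' : Matrix n n F} (hk : ‖k‖ ≤ 1) (hk' : ‖k'‖ ≤ 1) (e : k * k' = 1) {s t : Fin 2} (hst : s ≠ t)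
    {x x' : F} (hx : ‖x'‖ ≤ 1) (h : k * φ.nm (fun _ => 1 + single s t x') =
      φ.nm (fun _ => 1 + single s t x) * k) : ‖x‖ ≤ ‖x'‖ := by
  obtain ⟨σ, j, -⟩ := φ.cov i
  have h1 : ∀ x, φ.nm (fun _ => 1 + single s t x) - 1 =
      φ.B fun _ => kp (fun _ => 1 + single s t x) - 1 := fun x => by
    rw [nm, ← map_one φ.B, ← map_sub]
    rfl
  have h2 : ‖blockDiagonal fun _ : ε => kp (fun _ : κ => 1 + single s t x') - 1‖ ≤ ‖x'‖ := by
    refine (norm_le_iff (norm_nonneg _)).2 fun a b => ?_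
    rw [blockDiagonal_apply]
    split_ifs
    swap
    · simp
    have d : ∀ u v : Fin 2, ‖(1 + single s t x' : N2 F) u v‖ ≤ if u = v then 1 else ‖x'‖ :=
      fun u v => by
        by_cases z : u = v
        · subst z
          simp [single_apply_of_ne _ _ _ _ _ (show ¬(s = u ∧ t = u) from
            fun z => hst (z.1.trans z.2.symm))]
        · simp only [Matrix.add_apply, one_apply_ne z, zero_add, single_apply, z, if_false]
          split_ifs <;> simp
    by_cases z : a.1 = b.1
    · rw [z, Matrix.sub_apply, kp_apply, Finset.prod_eq_one fun j _ => by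
        simp [single_apply_of_ne _ _ _ _ _ (show ¬(s = b.1 j ∧ t = b.1 j) from
            fun z => hst (z.1.trans z.2.symm))]]
      simp
    · obtain ⟨j, hj⟩ := Function.ne_iff.1 z
      rw [Matrix.sub_apply, one_apply_ne z, sub_zero, kp_apply, norm_prod,
        ← Finset.mul_prod_erase _ _ (Finset.mem_univ j)]
      refine (mul_le_of_le_one_right (norm_nonneg _) (Finset.prod_le_one (fun _ _ => norm_nonneg _)
        fun u _ => (d _ _).trans (by split_ifs; exacts [le_rfl, hx]))).trans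
          ((d _ _).trans_eq (if_neg hj))
  have h3 : φ.nm (fun _ => 1 + single s t x) - 1 =
      k * (φ.nm (fun _ => 1 + single s t x') - 1) * k' := by
    rw [mul_sub, h, sub_mul, mul_assoc, mul_one, e, mul_one]
  have h4 := congrArg (fun Y => φ.U' * Y * φ.U) h3
  simp only [h1, B_back] at h4
  have h5 := (norm_entry_le_entrywise_sup_norm _ (i := (fun _ => s, σ))
    (j := (update (fun _ => s) j t, σ))).trans ((congrArg norm h4).le.trans
      ((mul_le_r _ hU).trans ((mul_le_l hU' _).trans ((mul_le_r _ hk').trans ((mul_le_l hk _).trans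
        ((mul_le_r _ hU').trans ((mul_le_l hU _).trans h2)))))))
  rw [blockDiagonal_apply_eq, Matrix.sub_apply, one_apply_ne fun z => hst (by
    simpa using congrFun z j), sub_zero, kp_apply, Finset.prod_eq_single j (fun u _ hu => by
      simp [update_of_ne hu, single_apply_of_col_ne _ _ hst.symm]) (by simp)] at h5
  simpa [one_apply_ne hst] using h5

end Pool.Agent.MT.EW.Fr
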