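import Pool.Agent.Lib.MP_d61fbb_ag.MW.U0

/-! Stage three: the tensor model. -/

set_option autoImplicit false

noncomputable section

namespace Pool.Agent.MT.U

variable [dm : Dim]

open Matrix

theorem sp_ad {F : Type} [Field F] : AdSt (spL F) (spL F) := fun _ hX _ hY => IsLie.lie hX hY

theorem sp_conj {F : Type} [Field F] (a : symplecticGroup (Fin gg) F) {X : M8 F} (h : X ∈ spL F) :
    a.1 * X * (a⁻¹).1 ∈ spL F := by
  have h1 : a.1 * (a⁻¹).1 = 1 := congrArg Subtype.val (mul_inv_cancel a)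
  have h2 : (a⁻¹).1 * a.1 = 1 := congrArg Subtype.val (inv_mul_cancel a)
  have e1 : a.1ᵀ * J (Fin gg) F = J (Fin gg) F * (a⁻¹).1 := by
    conv_rhs => rw [← SymplecticGroup.mem_iff'.1 a.2, mul_assoc, h1, mul_one]
  have e2 : J (Fin gg) F * a.1 = (a⁻¹).1ᵀ * J (Fin gg) F := by
    conv_lhs => rw [← SymplecticGroup.mem_iff'.1 (a⁻¹).2, mul_assoc, h2, mul_one]
  have h3 : Xᵀ * J (Fin gg) F + J (Fin gg) F * X = 0 := h
  show (a.1 * X * (a⁻¹).1)ᵀ * _ + _ * (a.1 * X * (a⁻¹).1) = 0
  calc _ = (a⁻¹).1ᵀ * (Xᵀ * J (Fin gg) F + J (Fin gg) F * X) * (a⁻¹).1 := by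
        rw [transpose_mul, transpose_mul, mul_assoc, mul_assoc, e1, ← mul_assoc (J _ _),
          ← mul_assoc (J _ _), e2]
        noncomm_ring
    _ = 0 := by rw [h3, mul_zero, zero_mul]

theorem sp_map {F F' : Type} [Field F] [Field F'] (f : F →+* F') {X : M8 F} :
    X.map f ∈ spL F' ↔ X ∈ spL F := by
  have e : (X.map f)ᵀ * J (Fin gg) F' + J (Fin gg) F' * X.map f =
      (Xᵀ * J (Fin gg) F + J (Fin gg) F * X).map f := by
    rw [Matrix.map_add _ f.map_add, Matrix.map_mul, Matrix.map_mul, map_J, transpose_map]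
  show _ + _ = _ ↔ _ + _ = _
  rw [e, ← Matrix.map_zero f f.map_zero]
  exact (Matrix.map_injective f.injective).eq_iff

theorem closed_sub {F : Type} [Field F] [TopologicalSpace F] [IsTopologicalRing F] [T1Space F]
    (V : Submodule F (M8 F)) : IsClosed (V : Set (M8 F)) := by
  refine isOpen_compl_iff.1 (isOpen_iff_forall_mem_open.2 fun x hx => ?_)
  obtain ⟨f, h1, h2⟩ := V.exists_le_ker_of_notMem hx
  have e : (f : M8 F → F) = fun a => ∑ i, ∑ j, a i j * f (single i j 1) := funext fun a => by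
    conv_lhs => rw [matrix_eq_sum_single a]
    simp only [map_sum]
    refine Finset.sum_congr rfl fun i _ => Finset.sum_congr rfl fun j _ => ?_
    rw [← smul_eq_mul, ← map_smul, smul_single, smul_eq_mul, mul_one]
  have hc : Continuous f := by
    rw [e]
    fun_prop
  exact ⟨f ⁻¹' {0}ᶜ, fun y hy hV => hy (h2 hV), isOpen_compl_singleton.preimage hc, h1⟩

end Pool.Agent.MT.U
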