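import Pool.Agent.Lib.MP_d61fbb_ag.MW.UGal
import Pool.Agent.Lib.MP_d61fbb_ag.MW.UA
import Pool.Agent.Lib.MP_d61fbb_ag.MT.G6

/-! Stage three: endomorphisms. -/

set_option autoImplicit false

noncomputable section

namespace Pool.Agent.MT.U

variable [dm : Dim]

open Matrix G

variable {τ : Matrix (Fin gg) (Fin gg) ℂ} {K : IntermediateField ℚ ℂ}

theorem exists_pow {D : ℕ} (hD : D ≠ 0) : ∃ N : ℕ, N ≠ 0 ∧ ∀ (l : Pr) (u : GL (I2 gg) ℤ_[l]) a b,
    (D : ℤ_[l]) ∣ ((u ^ N).val - 1) a b := by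
  refine ⟨(D ^ ((gg + gg) * (gg + gg))).factorial, (Nat.factorial_pos _).ne', fun l u a b => ?_⟩
  obtain ⟨k, m, hm, e⟩ := Nat.exists_eq_pow_mul_and_not_dvd hD l l.2.ne_one
  have h1 : IsUnit (m : ℤ_[l]) := PadicInt.isUnit_iff.2
    (Padic.norm_natCast_eq_one_iff.2 ((Nat.Prime.coprime_iff_not_dvd l.2).2 hm))
  let f := Units.map (RingHom.mapMatrix (m := I2 gg) (PadicInt.toZModPow (p := l) k)).toMonoidHom
  have h2 : Nat.card (GL (I2 gg) (ZMod (l ^ k))) ≤ D ^ ((gg + gg) * (gg + gg)) := by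
    refine (Nat.card_le_card_of_injective _ Units.val_injective).trans ?_
    rw [Matrix, Nat.card_fun, Nat.card_fun, Nat.card_zmod, ← pow_mul]
    simpa using Nat.pow_le_pow_left (Nat.le_of_dvd (Nat.pos_of_ne_zero hD) ⟨m, e⟩) _
  have h3 : f (u ^ (D ^ ((gg + gg) * (gg + gg))).factorial) = 1 := by
    obtain ⟨c, hc⟩ := Nat.dvd_factorial Nat.card_pos h2
    rw [map_pow, hc, pow_mul, pow_card_eq_one', one_pow]
  have h4 : PadicInt.toZModPow k (((u ^ (D ^ ((gg + gg) * (gg + gg))).factorial).val - 1) a b) = 0 := by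
    have := congrArg (fun v : GL (I2 gg) (ZMod (l ^ k)) => v.val a b) h3
    rw [Matrix.sub_apply, map_sub, sub_eq_zero]
    exact this.trans (by simp [one_apply])
  rw [← RingHom.mem_ker, PadicInt.ker_toZModPow, Ideal.mem_span_singleton] at h4
  nth_rewrite 1 [e]
  rw [Nat.cast_mul, h1.mul_right_dvd, Nat.cast_pow]
  exact h4

/-- congruent to one -/
def Cg (n : ℕ) (k : M8 AF) : Prop := ∀ t ∈ L0, ∃ s ∈ L0, k *ᵥ t = t + n • s

theorem Cg.mul {n : ℕ} {k k' : M8 AF} (h : Cg n k) (h' : Cg n k') : Cg n (k * k') := fun t ht => by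
  obtain ⟨s, a, b⟩ := h' t ht
  obtain ⟨s', a', b'⟩ := h _ (add_mem ht (nsmul_mem a n))
  exact ⟨s + s', add_mem a a', by rw [← mulVec_mulVec, b, b', smul_add, add_assoc]⟩

theorem Cg.two {k : M8 AF} (h : Cg 8 k) : Cg 2 k := fun t ht => by
  obtain ⟨s, a, b⟩ := h t ht
  exact ⟨4 • s, nsmul_mem a 4, b.trans (congrArg _ (mul_smul 2 4 s))⟩

theorem Cg.surj {k k' : M8 AF} (h : Cg 8 k') (e : k * k' = 1) : ∀ t ∈ L0, ∃ s ∈ L0, k *ᵥ s = t :=
  fun t ht => by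
    obtain ⟨s, a, b⟩ := h t ht
    exact ⟨_, add_mem ht (nsmul_mem a 8), by rw [← b, mulVec_mulVec, e, one_mulVec]⟩

theorem ue_mA_mul (g h : ∀ l : Pr, GL (I2 gg) ℤ_[l]) : mA (g * h) = mA g * mA h := by
  refine Matrix.ext fun i j => ?_
  rw [mul_apply]
  simp only [mA, of_apply, ← map_mul, ← map_sum]
  congr 1
  funext l
  rw [Finset.sum_apply]
  exact mul_apply

theorem ue_mA_one : mA 1 = 1 := by
  refine Matrix.ext fun i j => ?_
  by_cases h : i = j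
  · subst h
    rw [one_apply_eq, ← map_one zA]
    exact congrArg zA (funext fun l => one_apply_eq i)
  · rw [one_apply_ne h, ← map_zero zA]
    exact congrArg zA (funext fun l => one_apply_ne h)

theorem cg_mA {D : ℕ} {g : ∀ l : Pr, GL (I2 gg) ℤ_[l]}
    (h : ∀ (l : Pr) a b, (D : ℤ_[l]) ∣ ((g l).val - 1) a b) : Cg D (mA g) := fun t ht => by
  choose y hy using h
  have e : mA g = 1 + D • of fun a b => zA fun l => y l a b := by
    rw [← ue_mA_one]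
    refine Matrix.ext fun a b => ?_
    simp only [mA, Matrix.add_apply, Matrix.smul_apply, of_apply, ← map_nsmul, ← map_add]
    exact congrArg zA (funext fun l => by
      simpa [sub_eq_iff_eq_add'] using hy l a b)
  refine ⟨(of fun a b => zA fun l => y l a b) *ᵥ t, mem_Lam.2 fun a => ?_, by
    rw [e, add_mulVec, one_mulVec, smul_mulVec]⟩
  exact Zh.sum_mem (t := Finset.univ) fun b _ => Zh.mul_mem (x := zA fun l => y l a b) (fun l => (y l a b).2)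
    (mem_Lam.1 ht b)

theorem exists_cg {P Q : M8 AF} (e : P * Q = 1) :
    ∃ D : ℕ, D ≠ 0 ∧ ∀ k, Cg (8 * D) k → Cg 8 k ∧ Cg 8 (P * k * Q) := by
  obtain ⟨d, d0, hd⟩ := gx_den P
  obtain ⟨c, c0, hc⟩ := gx_den Q
  refine ⟨c * d, mul_ne_zero c0 d0, fun k h => ⟨fun t ht => ?_, fun t ht => ?_⟩⟩
  · obtain ⟨s, a, b⟩ := h t ht
    exact ⟨_, nsmul_mem a (c * d), by rw [b, mul_smul]⟩
  · obtain ⟨s, a, b⟩ := h _ (hc t ht)
    refine ⟨_, hd s a, smul_right_injective W (Nat.cast_ne_zero.2 c0 : (c : ℚ) ≠ 0) ?_⟩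
    simp only [Nat.cast_smul_eq_nsmul]
    rw [← mulVec_mulVec, ← mulVec_mulVec, ← mulVec_smul, ← mulVec_smul, b, mulVec_add, mulVec_smul,
      mulVec_smul, mulVec_mulVec, e, one_mulVec, smul_add, smul_smul, smul_smul, mul_comm c 8,
      mul_assoc]

theorem ue_zero {k : M8 AF} (h : ∀ x : W, (1 / 2 : ℚ) • (k *ᵥ x - x) ∈ L0) : k = 1 := by
  refine Matrix.ext fun a b => sub_eq_zero.1 (Subtype.ext (funext fun l => ?_))
  have e : ∀ c : ℚ_[l], ‖c * cp l (k a b - (1 : M8 AF) a b)‖ ≤ 1 := fun c => by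
    have := mem_L0.1 (h (Pi.single b (2 * sg l c))) a l
    rw [← one_mulVec (Pi.single b _ : W), mulVec_mulVec, Matrix.mul_one, ← sub_mulVec] at this
    simp only [mulVec_single, Pi.smul_apply, MulOpposite.smul_eq_mul_unop, MulOpposite.unop_op,
      col_apply, map_smul, map_mul, cp_sg, map_ofNat, Rat.smul_def, Matrix.sub_apply] at this
    convert this using 2
    push_cast
    ring
  by_contra h0
  replace h0 : cp l (k a b - (1 : M8 AF) a b) ≠ 0 := h0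
  have := e ((l : ℚ_[l])⁻¹ * (cp l (k a b - (1 : M8 AF) a b))⁻¹)
  rw [inv_mul_cancel_right₀ h0, norm_inv, Padic.norm_p, inv_inv] at this
  exact this.not_gt (by exact_mod_cast l.2.one_lt)

theorem ue_comm (hτ : Sieg τ) (h8 : ee (1 / 8) ∈ K) (M : TRep τ K) {γ : G.Sp gg ℚ}
    (h : tr τ γ = un τ) : ∃ N : ℕ, N ≠ 0 ∧ ∀ σ,
      γ.1.map qa * mA (M.ρ (σ ^ N)) = mA (M.ρ (σ ^ N)) * γ.1.map qa := by
  have i1 : ∀ δ : G.Sp gg ℚ, δ.1.map qa * (δ⁻¹).1.map qa = 1 := fun δ => by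
    rw [← Matrix.map_mul (f := algebraMap ℚ AF), show δ.1 * (δ⁻¹).1 = 1 from
      congrArg Subtype.val (mul_inv_cancel δ), Matrix.map_one _ (map_zero _) (map_one _)]
  have i2 := i1 γ⁻¹
  rw [inv_inv] at i2
  obtain ⟨D, D0, hD⟩ := exists_cg (i1 γ)
  obtain ⟨N, N0, hN⟩ := exists_pow (mul_ne_zero (by norm_num : 8 ≠ 0) D0)
  refine ⟨N, N0, fun σ => ?_⟩
  have c : ∀ σ, _ := fun σ => hD (mA (M.ρ (σ ^ N))) (cg_mA fun l => map_pow M.ρ σ N ▸ hN l _)
  have j1 : mA (M.ρ (σ ^ N)) * mA (M.ρ (σ⁻¹ ^ N)) = 1 := by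
    rw [← ue_mA_mul, ← map_mul, inv_pow, mul_inv_cancel, map_one, ue_mA_one]
  have j2 := mul_eq_one_comm.1 j1
  obtain ⟨⟨b, b0, g1⟩, g2⟩ := gal_ad hτ h8 M (σ ^ N) γ
    (r := γ.1.map qa * mA (M.ρ (σ ^ N)) * (γ⁻¹).1.map qa)
    (by rw [Matrix.mul_assoc, i2, Matrix.mul_one]) (c σ).2.two ((c σ⁻¹).2.surj (by
      simp only [Matrix.mul_assoc]
      rw [← Matrix.mul_assoc ((γ⁻¹).1.map qa), i2, Matrix.one_mul, ← Matrix.mul_assoc (mA _), j1,
        Matrix.one_mul, i1]))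
  obtain ⟨⟨b', -, g3⟩, g4⟩ := gal_ad hτ h8 M (σ ^ N) 1 (r := mA (M.ρ (σ ^ N))) (by
    rw [show (1 : G.Sp gg ℚ).1.map qa = 1 from Matrix.map_one _ (map_zero _) (map_one _),
      Matrix.mul_one, Matrix.one_mul]) (c σ).1.two ((c σ⁻¹).1.surj j1)
  rw [h, mk_un hτ.symm] at g1
  rw [show tr τ 1 = un τ from (congrArg (ac · _) qr_one).trans (ac_one _), mk_un hτ.symm] at g3
  have k := ue_zero fun x => sep_ad hτ (fun x y => by
    rw [← mulVec_mulVec x, ← mulVec_mulVec y, ← g2, g4, mulVec_mulVec, mulVec_mulVec, j1,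
      one_mulVec, one_mulVec]) ((c σ).2.mul (c σ⁻¹).1) (c := b' / b) (x := x) fun η => by
    rw [← mulVec_mulVec, div_mul_eq_mul_div, eq_div_iff b0, mul_comm, ← g1, g3, mulVec_mulVec, j1,
      one_mulVec]
  have k2 := congrArg (· * (mA (M.ρ (σ ^ N)) * γ.1.map qa)) k
  simp only [Matrix.mul_assoc, Matrix.one_mul] at k2
  rwa [← Matrix.mul_assoc (mA (M.ρ (σ⁻¹ ^ N))), j2, Matrix.one_mul, i2, Matrix.mul_one] at k2

theorem ue_cay {n : Type} [Fintype n] [DecidableEq n] {E X : Matrix n n ℚ} (hX : IsLie E X) :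
    ∃ (t : ℚ) (g P : Matrix n n ℚ), t ≠ 0 ∧ gᵀ * E * g = E ∧ g * (t • 1 - X) = t • 1 + X ∧
      (t • 1 - X) * P = 1 := by
  obtain ⟨t, ht⟩ := Infinite.exists_notMem_finset (Polynomial.X * X.charpoly).roots.toFinset
  rw [Multiset.mem_toFinset, Polynomial.mem_roots (mul_ne_zero Polynomial.X_ne_zero
    X.charpoly_monic.ne_zero), Polynomial.IsRoot, Polynomial.eval_mul, Polynomial.eval_X,
    mul_eq_zero, not_or, eval_charpoly, scalar_apply, ← smul_one_eq_diagonal] at ht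
  have u : IsUnit (t • (1 : Matrix n n ℚ) - X).det := Ne.isUnit ht.2
  have e : (t • 1 + X)ᵀ * E * (t • 1 + X) = (t • 1 - X)ᵀ * E * (t • 1 - X) := by
    have := congrArg ((2 * t) • ·) hX
    simp only [transpose_add, transpose_sub, transpose_smul, transpose_one, Matrix.add_mul,
      Matrix.sub_mul, Matrix.mul_add, Matrix.mul_sub, Matrix.smul_mul, Matrix.mul_smul,
      Matrix.one_mul, Matrix.mul_one, smul_zero] at this ⊢
    linear_combination (norm := module) this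
  refine ⟨t, (t • 1 + X) * (t • 1 - X)⁻¹, _, ht.1, ?_, nonsing_inv_mul_cancel_right _ _ u,
    mul_nonsing_inv _ u⟩
  rw [transpose_mul, Matrix.mul_assoc, Matrix.mul_assoc, ← Matrix.mul_assoc E,
    ← Matrix.mul_assoc _ᵀ (E * _), ← Matrix.mul_assoc _ E, e, Matrix.mul_assoc,
    mul_nonsing_inv _ u, Matrix.mul_one, ← Matrix.mul_assoc, ← transpose_mul, mul_nonsing_inv _ u,
    transpose_one, Matrix.one_mul]

end Pool.Agent.MT.U
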