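import Pool.Agent.Lib.MP_d61fbb_ag.MW.GX1
import Pool.Agent.Lib.MP_d61fbb_ag.MT.H2
import Pool.Agent.Lib.MP_d61fbb_ag.MT.A6b
import Pool.Agent.Lib.MP_d61fbb_ag.MW.FDefs

/-! From adelic lattices to points of the Siegel space. -/

set_option autoImplicit false

noncomputable section

namespace Pool.Agent.MT

variable [dm : Dim]

open Matrix Sum

theorem g8_cp_qa (l : Pr) (q : ℚ) : cp l (qa q) = q := qa_apply q l

theorem g8_cpv_mul (l : Pr) (A : M8 AF) (x : W) : cpv l (A *ᵥ x) = A.map (cp l) *ᵥ cpv l x :=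
  funext fun i => RingHom.map_mulVec (cp l).toRingHom A x i

theorem g8_norm_mulVec {l : Pr} {A : M8 ℚ_[l]} {x : Vl l} {a b : ℝ} (ha : 0 ≤ a) (hb : 0 ≤ b)
    (hA : ∀ i j, ‖A i j‖ ≤ a) (hx : ∀ i, ‖x i‖ ≤ b) (i : I2 gg) : ‖(A *ᵥ x) i‖ ≤ a * b :=
  IsUltrametricDist.norm_sum_le_of_forall_le_of_nonneg (s := Finset.univ) (f := fun j => A i j * x j)
    (mul_nonneg ha hb) fun j _ => by
      rw [norm_mul]; exact mul_le_mul (hA i j) (hx j) (norm_nonneg _) ha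

theorem g8_chi0 {t w : W} (ht : t ∈ L0) (hw : w ∈ L0) : chi0 (t + (2 : AF) • w) = chi0 t := by
  have e : Qf (t + (2 : AF) • w) = Qf t + 2 * (2 * Qf w + Ef t w + (t ∘ inr) ⬝ᵥ (w ∘ inl) * 2) := by
    simp only [Qf, Ef, Pi.add_comp, Pi.smul_comp, add_dotProduct, dotProduct_add, smul_dotProduct,
      dotProduct_smul, smul_eq_mul, dotProduct_comm (w ∘ inl)]
    ring
  rw [chi0, e, smul_add, half_two, AddChar.map_add_eq_mul, (psi_eq_one_iff (x := _ + _ + _)).2, mul_one,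
    chi0]
  exact Zh.add_mem (Zh.add_mem (Zh.mul_mem (ofNat_mem Zh 2) (gx_Qf_mem Zh (gx_L0.1 hw)))
    (Ef_mem ht hw)) (Zh.mul_mem (lam_dot (fun _ => gx_L0.1 ht _) fun _ => gx_L0.1 hw _)
      (ofNat_mem Zh 2))

/-- The theta function of a rational translate of the point is a theta vector. -/
theorem g8_transfer {τ : Matrix (Fin gg) (Fin gg) ℂ} (hτ : Sieg τ) {l : Pr} (hl : (l : ℕ) ≠ 2) (e : ℕ)
    {β : M8 ℚ} (hβ : GS 1 β) (H : M8 ℚ_[l])
    (h2 : ∀ l' ≠ l, ∀ i j, ‖(((β - 1) i j / 2 : ℚ) : ℚ_[l'])‖ ≤ 1)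
    (hk : ∀ i j, ‖(β.map (Rat.cast : ℚ → ℚ_[l]) * H - 1) i j‖ ≤ ((l : ℕ) : ℝ)⁻¹ ^ (2 * e)) :
    ∃ (h : M8 AF) (F : W → ℂ), (∀ l' ≠ l, h.map (cp l') = 1) ∧ h.map (cp l) = H ∧ F ∈ HH τ 1 ∧
      (∀ t ∈ L0, UU 1 (h *ᵥ t) F = chi0 t • F) ∧ ∀ a : I2 gg → ℤ, ee (Qf (zc a) / 2) *
        F (h *ᵥ sgv l fun n => (a n : ℚ_[l]) / ((l : ℕ) : ℚ_[l]) ^ e) =
          Thm ((l : ℕ) ^ e) (act (dl (β.map (↑))) τ) a := by
  have hr : RS 1 (dl (β.map (↑))) := by simpa using (hβ.rs_rat one_pos).dl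
  have l2 : l ≠ p2 := fun h => hl (congrArg Subtype.val h)
  have l0 : (0 : ℝ) < (l : ℕ) := by exact_mod_cast l.2.pos
  have l1 : ∀ n, ((l : ℕ) : ℝ)⁻¹ ^ n ≤ 1 := fun n =>
    pow_le_one₀ (by positivity) (inv_le_one_of_one_le₀ (by exact_mod_cast l.2.one_le))
  obtain ⟨h, h3, h4⟩ : ∃ h : M8 AF, (∀ l' ≠ l, h.map (cp l') = 1) ∧ h.map (cp l) = H := by
    refine ⟨1 + of fun i j => sg l ((H - 1) i j), fun l' hl' => ?_, ?_⟩ <;> ext i j
    · by_cases h : i = j <;> simp [gx_cp_sg_ne hl', one_apply, h]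
    · by_cases h : i = j <;> simp [gx_cp_sg, one_apply, h]
  have k : ∀ l' (x : W), cpv l' (β.map qa *ᵥ h *ᵥ x - x) =
      (β.map (Rat.cast : ℚ → ℚ_[l']) * h.map (cp l') - 1) *ᵥ cpv l' x := fun l' x => by
    have : (β.map qa).map (cp l') = β.map (Rat.cast : ℚ → ℚ_[l']) := by ext i j; exact g8_cp_qa _ _
    rw [sub_mulVec, one_mulVec, ← mulVec_mulVec, ← g8_cpv_mul, ← this, ← g8_cpv_mul]
    exact funext fun i => map_sub _ _ _
  refine ⟨h, fun x => Theta (act (dl (β.map (↑))) τ) (β.map qa *ᵥ x), h3, h4,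
    HH_pull (Theta_mem (hr.sieg hτ)) β (fun x y => by rw [hβ, one_mul]) fun u hu => ?_,
    fun t ht => funext fun x => ?_, fun a => ?_⟩
  · have e1 : u = kv τ (u ∘ inl) := by
      rw [kv, ← eq_neg_of_add_eq_zero_right hu, Sum.elim_comp_inl_inr]
    have := dl_kv (hr.det_ne hτ) (u ∘ inl)
    rw [dl_dl, ← e1] at this
    rw [this]
    simp [zz, kv]
  · have hw : (1 / 2 : ℚ) • (β.map qa *ᵥ h *ᵥ t - t) ∈ L0 := mem_L0.2 fun i l' => by
      rw [Pi.smul_apply, map_smul]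
      change ‖(1 / 2 : ℚ) • cpv l' _ i‖ ≤ 1
      rw [k]
      by_cases h5 : l' = l
      · subst h5
        rw [Rat.smul_def, norm_mul, h4]
        exact mul_le_one₀ (by simpa using (gx_half_norm l2).le) (norm_nonneg _)
          ((g8_norm_mulVec zero_le_one zero_le_one (fun i j => (hk i j).trans (l1 _))
            (fun i => mem_L0.1 ht i l') i).trans_eq (one_mul _))
      · rw [← Pi.smul_apply, ← smul_mulVec, h3 l' h5, Matrix.mul_one]
        exact (g8_norm_mulVec zero_le_one zero_le_one (A := (1 / 2 : ℚ) • (β.map (Rat.cast : ℚ → ℚ_[l']) - 1))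
          (fun i j => by
            convert h2 l' h5 i j using 2
            by_cases h : i = j <;> simp [one_apply, h, Rat.smul_def, div_eq_inv_mul])
          (fun i => mem_L0.1 ht i l') i).trans_eq (one_mul _)
    have e1 : β.map qa *ᵥ h *ᵥ t = t + (2 : AF) • (1 / 2 : ℚ) • (β.map qa *ᵥ h *ᵥ t - t) := by
      rw [two_smul, ← add_smul]; norm_num
    have e2 := congrFun (Theta_eig (act (dl (β.map (↑))) τ) _ (e1 ▸ L0.add_mem ht (by
      rw [two_smul]; exact L0.add_mem hw hw))) (β.map qa *ᵥ x)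
    have e3 := Ef_pull (r := 1) (s := 1) β (fun x y => by rw [hβ, one_mul]) (h *ᵥ t) x
    rw [one_smul, one_smul] at e3
    rw [UU_apply, eps, e3] at e2
    rw [UU_apply, eps, mulVec_add, e2, e1, g8_chi0 ht hw]
    rfl
  · set x : W := sgv l fun n => (a n : ℚ_[l]) / ((l : ℕ) : ℚ_[l]) ^ e with hx
    set q : I2 gg → ℚ := fun n => (a n : ℚ) / (l : ℕ) ^ e with hq
    set m := β.map qa *ᵥ h *ᵥ x - qv' q with hm
    have c1 : ∀ l', cpv l' (qv' q) = (((l : ℕ) : ℚ_[l']) ^ e)⁻¹ • fun n => (a n : ℚ_[l']) :=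
      fun l' => funext fun n => (g8_cp_qa _ _).trans (by simp [hq, div_eq_inv_mul])
    have c2 : cpv l x = cpv l (qv' q) := funext fun n => (gx_cp_sg _ _).trans (by
      simp [c1, div_eq_inv_mul])
    have c3 : ∀ l', cpv l' m = (β.map (Rat.cast : ℚ → ℚ_[l']) * h.map (cp l') - 1) *ᵥ cpv l' x + cpv l' x -
        cpv l' (qv' q) := fun l' => by
      rw [← k]; funext i; simp [hm, cpv]
    have c4 : ∀ i, ‖cpv l m i‖ ≤ ((l : ℕ) : ℝ)⁻¹ ^ e := fun i => by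
      rw [c3, c2, add_sub_cancel_right, h4]
      refine (g8_norm_mulVec (b := ((l : ℕ) : ℝ) ^ e) (by positivity) (by positivity) hk
        (fun n => ?_) i).trans_eq (by rw [two_mul, pow_add, inv_pow]; field_simp)
      rw [c1, Pi.smul_apply, smul_eq_mul, norm_mul, norm_inv, norm_pow, Padic.norm_p, inv_pow, inv_inv]
      exact mul_le_of_le_one_right (by positivity) (Padic.norm_int_le_one _)
    have c5 : ∀ l' ≠ l, cpv l' m = -cpv l' (qv' q) := fun l' h5 => by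
      rw [c3, show cpv l' x = 0 from funext fun n => gx_cp_sg_ne h5 _]; simp
    have c6 : ∀ l' ≠ l, ‖(((l : ℕ) : ℚ_[l']) ^ e)⁻¹‖ = 1 := fun l' h5 => by
      rw [norm_inv, norm_pow, padic_norm_prime_ne h5, one_pow, inv_one]
    have hm' : m ∈ L0 := mem_L0.2 fun i l' => by
      change ‖cpv l' m i‖ ≤ 1
      by_cases h5 : l' = l
      · subst h5; exact (c4 i).trans (l1 _)
      · rw [c5 l' h5, c1, Pi.neg_apply, norm_neg, Pi.smul_apply, smul_eq_mul, norm_mul, c6 l' h5,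
          one_mul]
        exact Padic.norm_int_le_one _
    beta_reduce
    rw [show β.map qa *ᵥ h *ᵥ x = qv' q + m from (add_sub_cancel _ _).symm,
      Theta_eq _ q (gx_L0.1 hm'), ← mul_assoc, Qf_zc,
      show ee ((Qf a : ℤ) / 2) = psi (qa ((Qf a : ℤ) / 2)) by rw [psi_qa]; simp,
      ← AddChar.map_add_eq_mul, psi_eq_one_iff.2, one_mul, Thm]
    · congr 1; funext n; simp [qc, hq]
    refine gx_Zh.2 fun l' => ?_
    have e1 : cp l' (qa ((Qf a : ℤ) / 2) + (1 / 2 : ℚ) • (Qf m + Ef (qv' q) m)) =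
        2⁻¹ * ((Qf a : ℤ) + Qf (cpv l' m) + Ef (cpv l' (qv' q)) (cpv l' m)) := by
      rw [map_add, g8_cp_qa, map_smul, map_add, Qf_map, Ef_map, Rat.smul_def]
      push_cast
      unfold cpv
      ring
    rw [e1]
    by_cases h5 : l' = l
    · subst h5
      rw [norm_mul, gx_half_norm l2, one_mul, c1, Ef_smul_left, ← Ef_smul_right]
      refine padic_add_le (padic_add_le (Padic.norm_int_le_one _)
        (gx_Qf_mem (PadicInt.subring l') fun i => (c4 i).trans (l1 _)))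
        (gx_Ef_mem (PadicInt.subring l') (fun i => Padic.norm_int_le_one _) fun i => ?_)
      change ‖(((l' : ℕ) : ℚ_[l']) ^ e)⁻¹ * cpv l' m i‖ ≤ 1
      rw [norm_mul, norm_inv, norm_pow, Padic.norm_p]
      exact (mul_le_mul_of_nonneg_left (c4 i) (by positivity)).trans_eq
        (inv_mul_cancel₀ (by positivity))
    · obtain ⟨n, hn⟩ : Even ((l : ℕ) ^ (2 * e) + 1) :=
        ((l.2.odd_of_ne_two hl).pow).add_one
      have hn' : ((l : ℕ) : ℚ_[l']) ^ (2 * e) + 1 = n + n := by exact_mod_cast hn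
      have h6 : ((l : ℕ) : ℚ_[l']) ≠ 0 := by exact_mod_cast l.2.ne_zero
      have h7 : Qf (fun n => (a n : ℚ_[l'])) = (Qf a : ℤ) := (Qf_map a (Int.castRingHom ℚ_[l'])).symm
      rw [c5 l' h5, Ef_neg_right, Ef_self, c1, ← neg_smul, Qf_smul, h7,
        show 2⁻¹ * (((Qf a : ℤ) : ℚ_[l']) + (-(((l : ℕ) : ℚ_[l']) ^ e)⁻¹) ^ 2 * (Qf a : ℤ) + -0) =
          (((l : ℕ) : ℚ_[l']) ^ e)⁻¹ * ((((l : ℕ) : ℚ_[l']) ^ e)⁻¹ * ((n * Qf a : ℤ))) by
            push_cast; field_simp; linear_combination (Qf a : ℤ) * hn',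
        norm_mul, norm_mul, c6 l' h5, one_mul, one_mul]
      exact Padic.norm_int_le_one _

end Pool.Agent.MT
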