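import Pool.Agent.Lib.MP_d61fbb_ag.MW.U0
import Pool.Agent.Lib.MP_d61fbb_ag.MW.ASys
import Pool.Agent.Lib.MP_d61fbb_ag.MW.T5
import Pool.Agent.Lib.MP_d61fbb_ag.MT.G0c
import Pool.Agent.Lib.MP_d61fbb_ag.MW.G8a

/-! Stage three: the theta coordinates separate the points of the tower. -/

set_option autoImplicit false

noncomputable section

namespace Pool.Agent.MT.U

variable [dm : Dim]

open Matrix G

variable {g : ℕ}

lemma us_Rt (y : W) (f : W → ℂ) : Rt psi 1 y f = UU 1 y f := by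
  funext x; rw [Rt, Nat.cast_one]; rfl

lemma us_gen_cons (Θ : W → ℂ) (c : ℤ × W) (L : Multiset (ℤ × W)) : gen psi Θ (c ::ₘ L) =
    (fun x => UU 1 c.2 Θ ((c.1 : ℚ) • x)) * gen psi Θ L := by
  funext x
  rw [gen_cons, Pi.mul_apply, Pi.mul_apply, us_Rt, Int.cast_smul_eq_zsmul ℚ c.1 x]

lemma us_gen_mem {τ : Matrix (Fin gg) (Fin gg) ℂ} {Θ : W → ℂ} (hΘ : Θ ∈ MT.HH τ 1)
    (L : Multiset (ℤ × W)) : gen psi Θ L ∈ MT.HH τ (wt L) := by
  induction L using Multiset.induction_on with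
  | empty =>
    have : gen psi Θ 0 = fun _ => 1 := by funext x; simp [gen]
    rw [this, show wt 0 = 0 from rfl, Int.cast_zero]
    exact one_mem_HH τ
  | cons c L ih =>
    have h1 := HH_scale (HH_UU hΘ c.2) c.1
    rw [mul_one] at h1
    rw [wt_cons, Int.cast_add, Int.cast_pow, us_gen_cons]
    exact HH_mul h1 ih

lemma us_gen_inv {Θ : W → ℂ} {y : W} (hΘ : ∀ c : ℤ, UU 1 ((c : ℚ) • y) Θ = Θ)
    (L : Multiset (ℤ × W)) :
    UU (wt L) y (gen psi Θ L) = psi (Ef (cl L) y) • gen psi Θ L := by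
  induction L using Multiset.induction_on with
  | empty => funext x; simp [wt, gen, cl, UU_apply, eps]
  | cons c L ih =>
    have h0 : ∀ x : W, (c.1 : ℚ) • x = c.1 • x := fun x => Int.cast_smul_eq_zsmul ℚ c.1 x
    have h2 : cl (c ::ₘ L) = c.1 • c.2 + cl L := by
      simp only [cl, Multiset.map_cons, Multiset.sum_cons]
    rw [us_gen_cons, wt_cons, Int.cast_add, Int.cast_pow, UU_mul, ih, ← mul_one (_ ^ 2),
      gz_UU_scale, UU_comm, hΘ, h2, Ef_add_left, AddChar.map_add_eq_mul, ← h0, gz_Ef_left,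
      gz_Ef_right, one_smul]
    funext x
    simp only [Pi.mul_apply, Pi.smul_apply, smul_eq_mul]
    ring

theorem exists_tsys {τ : Matrix (Fin gg) (Fin gg) ℂ} (h : Sieg τ) :
    ∃ S : TSys ℂ 0, S.e = psi ∧ S.Θ = Theta τ := by
  refine ⟨⟨psi, Theta τ, inferInstance, two_ne_zero, fun x => ?_, fun t ht => ?_, Theta_neg τ,
    fun a b c' d => ?_, fun a => ?_, fun m hm n f hf hl => ?_⟩, rfl, rfl⟩
  · rw [psi_eq_one_iff]
    exact ⟨fun h l _ => h l, fun h l => h l l.2.ne_zero⟩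
  · rw [us_Rt, Theta_eig τ t ht, sgn, psi_sgn (gz_Qf ht), chi0]
  · have := Theta_riemann h a b c' d
    simp only [us_Rt, UU_apply]
    rw [this]
    refine Finset.sum_congr rfl fun η _ => ?_
    have h1 : psi (Ef (qv' (hq η)) a) = eps 1 (hw η) ((1 / 2 : ℚ) • (a + b + c' + d)) *
        eps 1 (hw η) ((1 / 2 : ℚ) • (a + b - c' - d)) * eps 1 (hw η) ((1 / 2 : ℚ) • (a - b + c' - d)) *
        eps 1 (hw η) ((1 / 2 : ℚ) • (a - b - c' + d)) := by
      rw [← eps_add_right, ← eps_add_right, ← eps_add_right, eps, ← gz_Ef_right]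
      congr 2; module
    rw [h1, hw]; ring
  · exact (std_isTh h).exists_ne (siegI_iff.2 h) one_pos a
  · have hm' : 0 < 4 * m := by omega
    have e1 : ((4 * m : ℕ) : ℚ) * (1 / 4) = m := by push_cast; ring
    have := (Frame.dbl (Fin gg)).dim_le (χ := fun _ => 1) (siegI_iff.2 h) (by norm_num) hm'
      f (fun i => ?_) (fun i t ht => ?_) hl
    · simpa using this
    · rw [e1]
      refine Submodule.span_le.2 ?_ (hf i)
      rintro _ ⟨L, hL, -, rfl⟩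
      have := us_gen_mem (Theta_mem h) L
      rwa [hL, Int.cast_natCast] at this
    · rw [e1, one_smul]
      refine (Submodule.span_le (p := LinearMap.eqLocus (UU m t) LinearMap.id)).2 ?_ (hf i)
      rintro _ ⟨L, hL, h2, rfl⟩
      obtain ⟨s, hs, rfl⟩ := Frame.mem_dbl ht
      have := us_gen_inv (Θ := Theta τ) (y := (2 : ℚ) • s) (fun k => by
        have h3 : (k : ℚ) • s ∈ Lam _ := by
          rw [Int.cast_smul_eq_zsmul ℚ k s]; exact zsmul_mem hs k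
        rw [smul_comm (k : ℚ), two_smul, Theta_eig τ _ (add_mem h3 h3), chi0,
          gz_Qf_two, psi_eq_one_iff.2 (add_mem (gz_Qf h3) (gz_Qf h3)), one_smul]) L
      rw [hL, Int.cast_natCast, gz_Ef_right, ← gz_Ef_left, psi_eq_one_iff.2 (gz_Ef (by
        rw [two_smul]; rwa [two_zsmul] at h2) hs), one_smul] at this
      exact this

theorem sep_ad {τ : Matrix (Fin gg) (Fin gg) ℂ} (h : Sieg τ) {k : M8 AF}
    (hk : ∀ x y : W, psi (Ef (k *ᵥ x) (k *ᵥ y)) = psi (Ef x y))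
    (h8 : ∀ t ∈ L0, ∃ s ∈ L0, k *ᵥ t = t + (8 : ℕ) • s) {c : ℂ} {x : W}
    (H : ∀ η, Theta τ (k *ᵥ (x + hw η)) = c * Theta τ (x + hw η)) :
    (1 / 2 : ℚ) • (k *ᵥ x - x) ∈ L0 := by
  obtain ⟨S, he, hΘ⟩ := exists_tsys h
  have kq : ∀ (q : ℚ) (y : W), k *ᵥ (q • y) = q • k *ᵥ y := fun q y => by
    rw [gx_qsmul', gx_qsmul', mulVec_smul]
  have key : ∀ η, S.th η (k *ᵥ x) = c * S.th η x := fun η => by
    have ht : (2 : ℚ) • hw η ∈ L0 := by
      have := hw_two η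
      rwa [← Int.cast_smul_eq_zsmul ℚ, Int.cast_ofNat] at this
    obtain ⟨s, hs, e⟩ := h8 _ ht
    have h2 : (2 : ℚ) • s ∈ L0 := by rw [two_smul]; exact add_mem hs hs
    have e1 : k *ᵥ hw η = hw η + ((2 : ℚ) • s + (2 : ℚ) • s) := by
      have : k *ᵥ hw η = (1 / 2 : ℚ) • k *ᵥ ((2 : ℚ) • hw η) := by
        rw [kq, smul_smul]; norm_num
      rw [this, e]; module
    have e2 := congrFun (Theta_eig τ _ (add_mem h2 h2)) (k *ᵥ x + hw η)
    rw [UU_apply, chi0, gz_Qf_two, psi_eq_one_iff.2 (add_mem (gz_Qf h2) (gz_Qf h2)), one_smul,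
      add_assoc, ← e1, ← mulVec_add, H, eps_add_right] at e2
    have e3 : eps 1 ((2 : ℚ) • s + (2 : ℚ) • s) (hw η) = 1 := by
      rw [eps, ← gz_Ef_left, show (1 / 2 : ℚ) • ((2 : ℚ) • s + (2 : ℚ) • s) = (2 : ℚ) • s by module,
        gz_Ef_left, ← gz_Ef_right]
      exact psi_eq_one_iff.2 (gz_Ef hs ht)
    have e4 : eps 1 (hw η) (k *ᵥ x) * eps 1 ((2 : ℚ) • s + (2 : ℚ) • s) (k *ᵥ x) =
        eps 1 (hw η) x := by
      rw [eps, eps, eps, ← AddChar.map_add_eq_mul, ← smul_add, ← Ef_add_left, ← e1,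
        ← gz_Ef_right, ← gz_Ef_right, ← kq, hk]
    rw [TSys.th, he, hΘ, us_Rt, UU_apply, UU_apply, ← e2, e3, ← e4]
    ring
  exact mem_L0.2 fun i l => (inj_of genp_of ℂ 0 S _ _ c key).1 i l l.2.ne_zero

theorem th_az {γ : G.Sp g ℤ} (hγ : γ ∈ G.Gam g 2) : ∃ j : EE g → ℂ, ∀ z ∈ G.HH g, j z ≠ 0 ∧
    ∀ x, th (G.zq γ.1 *ᵥ x) (az γ z) = j z * th x z := by
  have h := gs_one_iff.2 γ.2
  choose δ hδ using hγ
  have h1 : ∀ n, Even (Qf (dl (dl γ.1) *ᵥ n) - Qf n - Ef 0 n) := by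
    rw [dl_dl]
    exact even_of_two (δ := of δ) (Matrix.ext fun i j => by simpa [sub_eq_iff_eq_add'] using hδ i j)
  obtain ⟨j, -, hj⟩ := h.dl.trans_int h1
  refine ⟨fun z => j (G.mk z), fun z hz => ⟨(hj _ hz).1, fun x => ?_⟩⟩
  have e : dl (cm (zm γ.1)) = (dl γ.1).map (↑) := by
    rw [show cm (zm γ.1) = γ.1.map (Int.castRingHom ℂ) by ext; simp, ← dl_map]; rfl
  have e' := (hj _ hz).2 (qc x)
  rw [← e, dl_dl] at e'
  rw [th, show G.mk (az γ z) = _ from mk_ac (zsp γ) z]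
  refine Eq.trans (congrArg (Th _) ?_) (e'.trans ?_)
  · funext i; simp [mulVec, dotProduct, qc]
  · simp [Uc, th, zc_zero, Ef_zero_left, ee_zero]

theorem th_cong {M : ℕ} {γ : G.Sp g ℤ} (hγ : γ ∈ G.Gam g (32 * M ^ 2)) {x : I2 g → ℚ}
    (hx : x ∈ ChL g M) (z : EE g) : th (G.zq γ.1 *ᵥ x) z = th x z := by
  choose δ hδ using hγ
  choose m hm using hx
  have e : G.zq γ.1 *ᵥ x = x + fun i => (((8 * M : ℤ) • of δ *ᵥ m) i : ℚ) := by
    funext i
    simp only [mulVec, dotProduct, map_apply, sub_eq_iff_eq_add'.1 (hδ _ _), Pi.add_apply,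
      Pi.smul_apply, smul_eq_mul, of_apply]
    push_cast
    simp only [← hm, add_mul, Finset.sum_add_distrib, Finset.mul_sum, one_apply]
    exact congrArg₂ _ (by simp) (Finset.sum_congr rfl fun _ _ => by ring)
  rw [th_int e, ee_congr (y := 0) (32 * M ^ 2 * Qf (of δ *ᵥ m) + Ef m (of δ *ᵥ m)) ?_, ee_zero,
    one_mul]
  have e3 : Ef x (fun i => (((8 * M : ℤ) • of δ *ᵥ m) i : ℚ)) = 2 * (Ef m (of δ *ᵥ m) : ℤ) := by
    rw [show ((Ef m (of δ *ᵥ m) : ℤ) : ℚ) = _ from Ef_map _ _ (Int.castRingHom ℚ)]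
    simp only [eq_intCast, ← hm, Ef, dotProduct, Function.comp, Pi.smul_apply, smul_eq_mul,
      Finset.mul_sum, mul_sub]
    push_cast
    congr 1 <;> exact Finset.sum_congr rfl fun _ _ => by ring
  rw [e3, Qf_smul]; push_cast; ring

/-- the action on the characteristics -/
def chA {M : ℕ} (γ : G.Sp g ℤ) (x : ChL g M) : ChL g M :=
  ⟨G.zq γ.1 *ᵥ x.1, by simpa using chL_mulVec (N := 1) (β := γ.1) (γ := G.zq γ.1) (by simp) x.2⟩

theorem pM_az {M : ℕ} (y₀ : LL g 1) {γ : G.Sp g ℤ} (hγ : γ ∈ G.Gam g 32) {z : EE g} (hz : z ∈ G.HH g)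
    (x : ChL g M) : pM y₀ M (az γ z) x = pM y₀ M z (chA γ⁻¹ x) := by
  obtain ⟨j, hj⟩ := th_az (Gam_mono (by norm_num) hγ)
  have hi : ∀ x : I2 g → ℚ, G.zq γ.1 *ᵥ G.zq (γ⁻¹).1 *ᵥ x = x := fun x => by
    rw [mulVec_mulVec, ← show G.zq (γ * γ⁻¹).1 = G.zq γ.1 * G.zq (γ⁻¹).1 from
      Matrix.map_mul (f := Int.castRingHom ℚ)]
    simp [G.zq]
  have k : ∀ x, th x (az γ z) = j z * th (G.zq (γ⁻¹).1 *ᵥ x) z := fun x => by
    rw [← (hj z hz).2, hi]
  rw [pM, pM, k, k, mul_div_mul_left _ _ (hj z hz).1,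
    th_cong (M := 1) (inv_mem hγ) (ch_mem y₀)]
  rfl

theorem pM_level {M : ℕ} (y₀ : LL g 1) {γ : G.Sp g ℤ} (hM : 0 < M) (hγ : γ ∈ G.Gam g (32 * M ^ 2))
    {z : EE g} (hz : z ∈ G.HH g) : pM y₀ M (az γ z) = pM y₀ M z := by
  funext x
  rw [pM_az y₀ (Gam_mono (dvd_mul_right _ _) hγ) hz, pM, pM]
  exact congrArg (· / _) (th_cong (inv_mem hγ) x.2 z)

theorem pM_form (y₀ : LL g 1) {M k : ℕ} {F : EE g → ℂ} (h : F ∈ RL g M k) :
    ∃ P : MvPolynomial (ChL g M) ℂ, ∀ z, th (ch 1 y₀) z ≠ 0 →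
      F z = th (ch 1 y₀) z ^ k * MvPolynomial.eval (pM y₀ M z) P := by
  refine RL_ind2 (P := fun k F => ∃ P : MvPolynomial (ChL g M) ℂ, ∀ z, th (ch 1 y₀) z ≠ 0 →
    F z = th (ch 1 y₀) z ^ k * MvPolynomial.eval (pM y₀ M z) P) ⟨1, by simp⟩ ?_ ?_ ?_ h
  · rintro k F F' ⟨P, a⟩ ⟨Q, b⟩
    exact ⟨P + Q, fun z hz => by rw [Pi.add_apply, a z hz, b z hz, map_add, mul_add]⟩
  · rintro k c F ⟨P, a⟩
    exact ⟨MvPolynomial.C c * P, fun z hz => by
      rw [Pi.smul_apply, a z hz, map_mul, MvPolynomial.eval_C, smul_eq_mul, mul_left_comm]⟩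
  · rintro k F x hx ⟨P, a⟩
    refine ⟨MvPolynomial.X ⟨x, hx⟩ * P, fun z hz => ?_⟩
    rw [Pi.mul_apply, a z hz, map_mul, MvPolynomial.eval_X, pM]
    field_simp
    ring

lemma us_zq_mv (γ δ : G.Sp g ℤ) (x : I2 g → ℚ) :
    G.zq γ.1 *ᵥ G.zq δ.1 *ᵥ x = G.zq (γ * δ).1 *ᵥ x := by
  rw [mulVec_mulVec, ← show G.zq (γ * δ).1 = G.zq γ.1 * G.zq δ.1 from
    Matrix.map_mul (f := Int.castRingHom ℚ)]

lemma us_zq_one (x : I2 g → ℚ) : G.zq (1 : G.Sp g ℤ).1 *ᵥ x = x := by simp [G.zq]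

theorem sep {M : ℕ} (hM : 0 < M) (y₀ : LL gg 1) {z : EE gg} (hz : z ∈ G.HH gg)
    (h0 : th (ch 1 y₀) z ≠ 0) {δ δ' : G.Sp gg ℤ} (hδ : δ ∈ G.Gam gg 32) (hδ' : δ' ∈ G.Gam gg 32)
    (h : pM y₀ M (az δ z) = pM y₀ M (az δ' z)) : δ' * δ⁻¹ ∈ G.Gam gg M := by
  have hγ : δ'⁻¹ * δ ∈ G.Gam gg 32 := mul_mem (inv_mem hδ') hδ
  have h1 : ∀ x ∈ ChL gg M, th (G.zq (δ'⁻¹ * δ).1 *ᵥ x) z = th x z := fun x hx => by
    have := congrFun h (chA δ ⟨x, hx⟩)
    rw [pM_az y₀ hδ hz, pM_az y₀ hδ' hz, pM, pM, div_left_inj' h0] at this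
    simpa only [chA, us_zq_mv, inv_mul_cancel, us_zq_one] using this.symm
  suffices δ'⁻¹ * δ ∈ G.Gam gg M by simpa [mul_assoc] using Gam_conj (inv_mem this) δ
  generalize δ'⁻¹ * δ = γ at hγ h1
  have kq : ∀ x : I2 gg → ℚ, (G.zq γ.1).map qa *ᵥ qv' x = qv' (G.zq γ.1 *ᵥ x) := fun x =>
    funext fun i => (RingHom.map_mulVec (algebraMap ℚ AF) _ x i).symm
  have hM' : (M : ℚ) ≠ 0 := by exact_mod_cast hM.ne'
  intro a b
  have := sep_ad (k := (G.zq γ.1).map qa) (c := 1) (x := qv' (Pi.single b (1 / (4 * M) : ℚ))) hz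
    (fun x y => by
      have := Ef_pull (r := 1) (s := 1) (G.zq γ.1)
        (fun x y => (one_mul _).trans (gs_one_iff.2 (zqsp γ).2 x y)) x y
      rw [one_smul, one_smul] at this
      exact congrArg psi this)
    (fun t ht => by
      choose d hd using hγ
      refine ⟨(of fun i j => ((4 * d i j : ℤ) : AF)) *ᵥ t, gx_L0.2 fun i =>
        Zh.sum_mem (t := Finset.univ) (f := fun j => ((4 * d i j : ℤ) : AF) * t j) fun j _ =>
          Zh.mul_mem (intCast_mem Zh _) (gx_L0.1 ht j), ?_⟩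
      have e : (G.zq γ.1).map qa = 1 + (8 : ℕ) • of fun i j => ((4 * d i j : ℤ) : AF) := by
        ext1 i j
        have := sub_eq_iff_eq_add'.1 (hd i j)
        rw [Matrix.add_apply, Matrix.smul_apply, nsmul_eq_mul]
        simp only [map_apply, this, of_apply, one_apply]
        split_ifs <;> simp only [map_intCast] <;> push_cast <;> ring
      rw [e, add_mulVec, one_mulVec, smul_mulVec])
    (fun η => by
      rw [hw, ← qv'_add, kq, Theta_qv, Theta_qv, one_mul]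
      refine h1 _ fun i => ⟨Pi.single (M := fun _ => ℤ) b 1 i + 2 * M * (η i).val, ?_⟩
      by_cases e : i = b
      · subst e; simp only [Pi.add_apply, Pi.single_eq_same, hq]; push_cast; field_simp; ring
      · simp only [Pi.add_apply, Pi.single_eq_of_ne e, hq]; push_cast; ring)
  have h2 := gx_L0.1 this a
  rw [kq, Pi.smul_apply, Pi.sub_apply, qv', qv', ← map_sub, gx_qsmul, ← map_mul] at h2
  obtain ⟨n, hn⟩ := qa_mem_Zh.1 h2
  refine ⟨8 * n, ?_⟩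
  have e : (((γ.1 a b - (1 : MM gg ℤ) a b : ℤ)) : ℚ) = (M * (8 * n) : ℤ) := by
    push_cast
    rw [← hn, mulVec_single]
    by_cases e : a = b
    · subst e; simp; field_simp; ring
    · simp [e, one_apply]; field_simp; ring
  exact_mod_cast e

end Pool.Agent.MT.U
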