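import Pool.Agent.Lib.MP_d61fbb_ag.MW.RW
import Pool.Agent.Lib.MP_d61fbb_ag.MW.UY4
import Pool.Agent.Lib.MP_d61fbb_ag.MW.UE
import Pool.Agent.Lib.MP_d61fbb_ag.MT.G7a

/-! The leading term of a rational conjugate of the complex structure along the orbit. -/

set_option autoImplicit false

noncomputable section

namespace Pool.Agent.MT.U

open Matrix G Filter Topology

/-- symplectic matrices after a change of rings -/
def spm {g : ℕ} {R R' : Type} [CommRing R] [CommRing R'] (f : R →+* R') : G.Sp g R →* G.Sp g R' where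
  toFun a := ⟨a.1.map f, SymplecticGroup.map_mem a.2 f⟩
  map_one' := Subtype.ext (map_one f.mapMatrix)
  map_mul' a b := Subtype.ext (map_mul f.mapMatrix a.1 b.1)

theorem sp_mul_inv {g : ℕ} {R : Type} [CommRing R] (a : G.Sp g R) : a.1 * (a⁻¹).1 = 1 :=
  congrArg Subtype.val (mul_inv_cancel a)

theorem sp_inv_mul {g : ℕ} {R : Type} [CommRing R] (a : G.Sp g R) : (a⁻¹).1 * a.1 = 1 :=
  congrArg Subtype.val (inv_mul_cancel a)

theorem exists_pt {g : ℕ} {l : Nat.Primes} (H : G.Sp g ℚ_[l]) : ∃ (β : G.Sp g ℚ) (κ : G.Sp g ℤ_[l]),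
    (∀ p : Nat.Primes, (p : ℕ) ≠ l → ∀ a b, ‖(((β.1 - 1) a b / 2 : ℚ) : ℚ_[p])‖ ≤ 1) ∧
      spm (Rat.castHom ℚ_[l]) β * H = spm PadicInt.Coe.ringHom κ := by
  obtain ⟨C, hC⟩ := (Set.finite_range fun p : I2 g × I2 g => ‖H.1 p.1 p.2‖).bddAbove
  have c0 : 0 < |C| + 1 := by positivity
  obtain ⟨γ, h1, ⟨n, h2⟩, h3⟩ := sp_dense (N := 2) two_ne_zero (gs_one_iff.2 (H⁻¹).2)
    (inv_pos.2 c0)
  let β : G.Sp g ℚ := ⟨γ, gs_one_iff.1 h1⟩
  have h4 : ∀ a b, ‖(spm (Rat.castHom ℚ_[l]) β * H).1 a b‖ ≤ 1 := fun a b => by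
    have e : (spm (Rat.castHom ℚ_[l]) β * H).1 =
        ((spm (Rat.castHom ℚ_[l]) β).1 - (H⁻¹).1) * H.1 + 1 := by
      rw [sub_mul, sp_inv_mul, sub_add_cancel]
      rfl
    rw [e, Matrix.add_apply, mul_apply]
    refine (Padic.nonarchimedean _ _).trans (max_le
      (IsUltrametricDist.norm_sum_le_of_forall_le_of_nonneg zero_le_one fun c _ => ?_) ?_)
    · rw [norm_mul, ← inv_mul_cancel₀ c0.ne']
      exact mul_le_mul (h3 a c).le ((hC ⟨(c, b), rfl⟩).trans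
        ((le_abs_self C).trans (by linarith))) (norm_nonneg _) (by positivity)
    · by_cases h : a = b <;> simp [one_apply, h]
  let k : Matrix (I2 g) (I2 g) ℤ_[l] := of fun a b => ⟨_, h4 a b⟩
  refine ⟨β, ⟨k, gs_one_iff.1 (GS.of_map2 (φ := PadicInt.Coe.ringHom) Subtype.val_injective
    (gs_one_iff.2 (spm (Rat.castHom ℚ_[l]) β * H).2))⟩, fun p hp a b => ?_, rfl⟩
  obtain ⟨z, hz⟩ := h2 a b
  have l0 : ((l : ℕ) : ℚ) ^ n ≠ 0 := pow_ne_zero _ (by exact_mod_cast l.2.ne_zero)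
  rw [show (β.1 - 1) a b / 2 = z / ((l : ℕ) : ℚ) ^ n by
    rw [div_eq_div_iff two_ne_zero l0, mul_comm]
    exact hz.trans (mul_comm _ _)]
  push_cast
  rw [norm_div, norm_pow, padic_norm_prime_ne fun h => hp (congrArg Subtype.val h), one_pow,
    div_one]
  exact Padic.norm_int_le_one _

variable [dm : Dim] {τ : Matrix (Fin gg) (Fin gg) ℂ} {K : IntermediateField ℚ ℂ}

theorem cm_ac (γ : G.Sp gg ℚ) {z : EE gg} (hz : z ∈ G.HH gg) : cm (Jm (ac (qm γ.1) z)) =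
    (spm (Rat.castHom ℂ) γ).1 * cm (Jm z) * (spm (Rat.castHom ℂ) γ⁻¹).1 := by
  have e1 := congrArg cm (Jm_ac (qsp γ) hz)
  have e2 : cm (qsp γ).1 = (spm (Rat.castHom ℂ) γ).1 := by
    ext a b
    simp [qsp, spm]
  rw [cm_mul, cm_mul, e2] at e1
  rw [← e1, map_inv, mul_assoc, sp_mul_inv, mul_one]
  rfl

/-- two translates with the same action on the invariant tensors -/
theorem key_ann {G₀ : Subgroup (G.Sp gg ℤ)} {z : EE gg} (hz : z ∈ G.HH gg) {γ δ : G.Sp gg ℚ}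
    (h : ∀ v ∈ Inv G₀ (Fin 4) ℂ, dp (Fin 4) (cm (Jm (ac (qm γ.1) z))) *ᵥ v =
      dp (Fin 4) (cm (Jm (ac (qm δ.1) z))) *ᵥ v) {X : M8 ℚ}
    (hX : X.map (↑) ∈ cjs (cm (Jm z))) {F : Type} [Field F] [CharZero F] (i : F →+* ℂ)
    {v : (Fin 4 → I2 gg) → F} (hv : v ∈ Inv G₀ (Fin 4) F) :
    dp (Fin 4) ((γ.1 * X * (γ⁻¹).1 - δ.1 * X * (δ⁻¹).1).map (Rat.castHom F)) *ᵥ v = 0 := by
  let T : G.Sp gg ℚ → M8 ℂ →ₗ[ℂ] M8 ℂ := fun γ => LinearMap.mulRight ℂ (spm (Rat.castHom ℂ) γ⁻¹).1 ∘ₗ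
    LinearMap.mulLeft ℂ (spm (Rat.castHom ℂ) γ).1
  have h1 : (T γ - T δ) (cm (Jm z)) ∈ Ann G₀ (Fin 4) := by
    rw [LinearMap.sub_apply, show ∀ γ, T γ (cm (Jm z)) = _ from fun γ => (cm_ac γ hz).symm,
      show ∀ γ, T γ (cm (Jm z)) = _ from fun γ => (cm_ac γ hz).symm]
    exact ⟨sub_mem (uw_sp (ac_mem (qsp γ) hz)) (uw_sp (ac_mem (qsp δ) hz)), fun v hv => by
      rw [dp_sub, sub_mulVec, h v hv, sub_self]⟩
  have h2 : cjs (cm (Jm z)) ≤ (Ann G₀ (Fin 4)).comap (T γ - T δ) := Submodule.span_le.2 <| by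
    rintro _ ⟨α, rfl⟩
    have := ann_rat _ α _ h1
    change (_ * _ * _ - _ * _ * _ : M8 ℂ).map α ∈ _ at this
    rw [Matrix.map_sub _ (map_sub α)] at this
    simp only [Matrix.map_mul] at this
    have e : ∀ γ : G.Sp gg ℚ, (spm (Rat.castHom ℂ) γ).1.map α = (spm (Rat.castHom ℂ) γ).1 :=
      fun γ => rat_map_cast α γ.1
    simp only [e] at this
    exact this
  have h3 := (h2 hX).2 _ (uw_map i.toAddMonoidHom hv)
  funext a
  refine i.injective ?_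
  rw [RingHom.map_mulVec, dp_map, Pi.zero_apply, map_zero]
  refine Eq.trans (congrFun (congrArg (fun Y => dp (Fin 4) Y *ᵥ _) ?_) a) (congrFun h3 a)
  rw [Matrix.map_map, show i ∘ Rat.castHom F = Rat.castHom ℂ from funext fun q => by simp,
    Matrix.map_sub _ (map_sub _)]
  simp only [Matrix.map_mul]
  rfl

theorem key (hτ : Sieg τ) (h8 : ee (1 / 8) ∈ K) (M : TRep τ K) {l : Pr} (h2 : (l : ℕ) ≠ 2)
    {KK : Subgroup (G.Sp gg ℤ_[l])} {P : Set (M8 ℚ_[l])}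
    (hP : ∀ H ∈ P, ∀ k ∈ KK, H * k.1.map (↑) ∈ P) {m : ℕ} (hm : m ≠ 0) (hz : HasRel τ l KK P m)
    (i : PadicAlgCl l →+* ℂ) (H : ℕ → G.Sp gg ℚ_[l]) (hH : ∀ j, (H j).1 ∈ P)
    (inj : ∀ (j j' N : ℕ) (e : G.Sp gg ℚ_[l]) (κ : G.Sp gg ℤ_[l]), N ≠ 0 →
      (∀ σ, Commute e.1 (((M.ρ σ l).val ^ N).map PadicInt.Coe.ringHom)) →
      e * H j' = H j * spm PadicInt.Coe.ringHom κ → j = j')
    {X : M8 ℚ} (hX : X.map (↑) ∈ cjs (cm (Jm (un τ)))) {t : ℕ → PadicAlgCl l}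
    (ht : Tendsto t atTop (𝓝 0)) {L : M8 (PadicAlgCl l)}
    (hL : Tendsto (fun j => t j • ((spm (algebraMap _ _) (H j)⁻¹).1 * X.map (Rat.castHom _) *
      (spm (algebraMap _ _) (H j)).1)) atTop (𝓝 L)) :
    L ∈ spL (PadicAlgCl l) ∧ ∀ v : (Fin 4 → I2 gg) → PadicAlgCl l,
      (∀ k ∈ KK, tk (Fin 4) (k.1.map (algebraMap _ _)) *ᵥ v = v) → dp (Fin 4) L *ᵥ v = 0 := by
  have m1 : un τ ∈ G.HH gg := by rwa [← mk_un hτ.symm] at hτ
  have hs : X.map (Rat.castHom (PadicAlgCl l)) ∈ spL (PadicAlgCl l) :=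
    (sp_map _).2 ((sp_map (Rat.castHom ℂ)).1 (Submodule.span_le.2 (by
      rintro _ ⟨α, rfl⟩
      exact (sp_map (α : ℂ →+* ℂ)).2 (uw_sp m1)) hX))
  refine ⟨(closed_sub _).mem_of_tendsto hL (.of_forall fun j => Submodule.smul_mem _ _ ?_),
    fun v hv => ?_⟩
  · simpa only [map_inv, inv_inv] using sp_conj (spm (algebraMap _ _) (H j))⁻¹ hs
  choose β κ b1 b2 using fun j => exists_pt (H j)
  obtain ⟨C⟩ := exists_cmp (fun j => ac (qm (β j).1) (un τ)) (fun j => tr_mem hτ _)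
    fun j j' δ h => by
      obtain ⟨N, N0, hN⟩ := ue_comm hτ h8 M (γ := (β j)⁻¹ * (zqsp δ * β j')) (by
        rw [tr, qac_mul _ _ m1, qac_mul _ _ m1, ← az_eq_ac, ← h, ← qac_mul _ _ m1, inv_mul_cancel,
          qac_one])
      refine inj j j' N (spm (Rat.castHom _) ((β j)⁻¹ * (zqsp δ * β j')))
        ((κ j)⁻¹ * (R.zl l δ * κ j')) N0 (fun σ => ?_) ?_
      · have := congrArg (·.map (cp l).toRingHom) (hN σ)
        simp only [Matrix.map_mul] at this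
        rw [← Units.val_pow_eq_pow_val, ← Pi.pow_apply, ← map_pow]
        rw [show ∀ A : M8 ℚ, (A.map qa).map (cp l).toRingHom = A.map (Rat.castHom ℚ_[l]) from
          fun A => Matrix.ext fun a b => g8_cp_qa l _] at this
        exact this
      · simp only [map_mul, map_inv, ← b2, mul_assoc, _root_.mul_inv_rev, mul_inv_cancel_left]
        congr 2
  obtain ⟨s, s1, s2⟩ := C.room hτ h2 hP hm hz b1 hH (fun j => congrArg Subtype.val (b2 j))
  have hU : (hyperfilter ℕ : Filter ℕ) ≤ atTop := Nat.cofinite_eq_atTop ▸ hyperfilter_le_cofinite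
  obtain ⟨j₀, h0⟩ := C.ev.exists
  let f := algebraMap ℤ_[l] (PadicAlgCl l)
  let a : ℕ → G.Sp gg (PadicAlgCl l) := fun j => spm f (R.zl l (C.c j) * κ j)
  let γ : ℕ → G.Sp gg ℚ := fun j => zqsp (C.c j) * β j
  have e1 : ∀ j, spm (Rat.castHom _) (γ j) = a j * spm (algebraMap _ _) (H j)⁻¹ := fun j => by
    rw [map_inv, eq_mul_inv_iff_mul_eq]
    have := congrArg (spm (algebraMap ℚ_[l] (PadicAlgCl l))) (b2 j)
    simp only [γ, a, map_mul, mul_assoc] at this ⊢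
    congr 1
  have e2 : ∀ j, az (C.c j) (ac (qm (β j).1) (un τ)) = ac (qm (γ j).1) (un τ) := fun j => by
    rw [az_eq_ac, qac_mul _ _ m1]
  have hf : Continuous f := (continuous_algebraMap ℚ_[l] _).comp continuous_subtype_val
  have t1 : Tendsto (fun j => (a j).1) (hyperfilter ℕ) (𝓝 (spm f s).1) :=
    ((continuous_id.matrix_map hf).tendsto _).comp s1
  have t2 : Tendsto (fun j => (a j)⁻¹.1) (hyperfilter ℕ) (𝓝 (spm f s)⁻¹.1) := by
    simp only [SymplecticGroup.coe_inv]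
    exact (((continuous_const.matrix_mul continuous_id.matrix_transpose).matrix_mul
      continuous_const).tendsto _).comp t1
  have t3 := ((t1.mul (hL.mono_left hU)).mul t2).sub ((ht.mono_left hU).smul_const
    (((γ j₀).1 * X * (γ j₀)⁻¹.1).map (Rat.castHom (PadicAlgCl l))))
  rw [zero_smul, sub_zero] at t3
  let V : Submodule (PadicAlgCl l) (M8 (PadicAlgCl l)) :=
    { carrier := {Y | dp (Fin 4) Y *ᵥ tk (Fin 4) (spm f s).1 *ᵥ v = 0}
      add_mem' := fun a b => by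
        rw [Set.mem_ofPred_eq, dp_add, add_mulVec, a, b, add_zero]
      zero_mem' := by rw [Set.mem_ofPred_eq, dp_zero, zero_mulVec]
      smul_mem' := fun c _ a => by rw [Set.mem_ofPred_eq, dp_smul, smul_mulVec, a, smul_zero] }
  have k : dp (Fin 4) _ *ᵥ tk (Fin 4) (spm f s).1 *ᵥ v = 0 :=
    (closed_sub V).mem_of_tendsto t3 (C.ev.mono fun j hj => by
      have := key_ann m1 (γ := γ j) (δ := γ j₀) (fun v hv => by
        rw [← e2, ← e2, C.uw_fixed hj hv, C.uw_fixed h0 hv]) hX i (s2 _ v hv)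
      refine (congrArg (· ∈ V) ?_).mpr (V.smul_mem (t j) this)
      rw [Matrix.map_sub _ (map_sub _), smul_sub, mul_smul_comm, smul_mul_assoc]
      congr 2
      simp only [Matrix.map_mul]
      change _ = (spm _ (γ j)).1 * _ * (spm _ (γ j)⁻¹).1
      rw [map_inv _ (γ j), e1, _root_.mul_inv_rev, map_inv, inv_inv]
      simp only [Submonoid.coe_mul, mul_assoc])
  rw [mulVec_mulVec, ← tk_dp (X := L) (by rw [mul_assoc, sp_inv_mul, mul_one]),
    ← mulVec_mulVec] at k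
  have := congrArg (tk (Fin 4) (spm f s)⁻¹.1 *ᵥ ·) k
  simpa only [mulVec_mulVec, ← mul_assoc, ← tk_mul, sp_inv_mul, tk_one, one_mul, mulVec_zero]
    using this

end Pool.Agent.MT.U
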