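import Pool.Agent.Lib.MP_d61fbb_ag.MW.E1
import Pool.Agent.Lib.MP_d61fbb_ag.MW.UD

/-! The Hodge group keeps the slots and the blocks. -/

set_option autoImplicit false

noncomputable section

namespace Pool.Agent.MT.U

variable [dm : Dim]

open Matrix G MvPolynomial

/-- evaluation of a polynomial at a matrix -/
abbrev evM (g : M8 ℂ) : MvPolynomial (I2 gg × I2 gg) ℂ →+* ℂ := eval fun ij => g ij.1 ij.2

/-- the generic matrix -/
def genM : M8 (MvPolynomial (I2 gg × I2 gg) ℂ) := of fun i j => X (i, j)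

theorem genM_map (g : M8 ℂ) : genM.map (evM g) = g := by
  ext i j; simp [genM]

theorem C_map (g Y : M8 ℂ) : (Y.map C).map (evM g) = Y := by
  ext i j; simp

theorem subset_zar (A : Set (M8 ℂ)) : A ⊆ Zar A := fun a ha _ h => h a ha

/-- polynomial maps into a subspace -/
theorem uh_zar_sub {A : Set (M8 ℂ)} (P : M8 (MvPolynomial (I2 gg × I2 gg) ℂ))
    (V : Submodule ℂ (M8 ℂ)) (h : ∀ a ∈ A, P.map (evM a) ∈ V) {g : M8 ℂ} (hg : g ∈ Zar A) :
    P.map (evM g) ∈ V := by
  by_contra hc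
  obtain ⟨l, hl, h0⟩ := V.exists_dual_map_eq_bot_of_notMem hc inferInstance
  have key : ∀ a : M8 ℂ, evM a (∑ i, ∑ j, P i j * C (l (single i j 1))) = l (P.map (evM a)) := by
    intro a
    rw [matrix_eq_sum_single (P.map (evM a))]
    simp only [map_sum, map_mul, eval_C, map_apply]
    refine Finset.sum_congr rfl fun i _ => Finset.sum_congr rfl fun j _ => ?_
    rw [← smul_eq_mul, ← map_smul, smul_single, smul_eq_mul, mul_one]
  refine hl ?_
  rw [← key]
  refine hg _ fun a ha => (key a).trans ?_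
  exact (Submodule.eq_bot_iff _).1 h0 _ (Submodule.mem_map_of_mem (h a ha))

/-- a closed group that is stable under all automorphisms is defined over the rationals -/
theorem overQ_of {H : Subgroup (GL (I2 gg) ℂ)} {A : Set (M8 ℂ)} (hA : ∀ g, g ∈ H ↔ g.val ∈ A)
    (hc : ∀ g : GL (I2 gg) ℂ, g.val ∈ Zar A → g.val ∈ A)
    (hs : ∀ (α : ℂ ≃+* ℂ), ∀ a ∈ A, a.map α ∈ A) : Sn.OverQ H := by
  classical
  refine ⟨{f | ∀ a ∈ A, aeval (fun ij : I2 gg × I2 gg => a ij.1 ij.2) f = 0}, fun g =>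
    ⟨fun hg f hf => hf _ ((hA g).1 hg), fun hg => (hA g).2 (hc g fun f hf => ?_)⟩⟩
  let L : M8 ℂ → (f.support → ℂ) →ₗ[ℂ] ℂ := fun a =>
    { toFun := fun v => ∑ m, v m * m.1.prod fun ij e => a ij.1 ij.2 ^ e
      map_add' := fun v w => by simp only [Pi.add_apply, add_mul, Finset.sum_add_distrib]
      map_smul' := fun c v => by
        simp only [Pi.smul_apply, smul_eq_mul, RingHom.id_apply, Finset.mul_sum, mul_assoc] }
  have hL : ∀ a : M8 ℂ, L a (fun m => coeff m.1 f) = eval (fun ij => a ij.1 ij.2) f := by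
    intro a
    rw [eval_eq, ← Finset.sum_coe_sort]
    rfl
  let V : Submodule ℂ (f.support → ℂ) := ⨅ a ∈ A, LinearMap.ker (L a)
  have hV : ∀ v, v ∈ V ↔ ∀ a ∈ A, L a v = 0 := fun v => by
    simp only [V, Submodule.mem_iInf, LinearMap.mem_ker]
  have hd := desc (V := V) (v := fun m => coeff m.1 f) (fun α v hv => (hV _).2 fun a ha => by
    have h1 := congrArg α ((hV v).1 hv _ (hs α.symm a ha))
    rw [map_zero] at h1
    rw [← h1]
    simp only [L, LinearMap.coe_mk, AddHom.coe_mk, map_sum, map_mul, Finsupp.prod, map_prod,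
      map_pow, map_apply, RingEquiv.apply_symm_apply])
    ((hV _).2 fun a ha => (hL a).trans (hf a ha))
  rw [← hL]
  refine (Submodule.span_le.2 ?_ : _ ≤ LinearMap.ker (L g.val)) hd
  rintro w ⟨hw, q, rfl⟩
  have e : ∀ a : M8 ℂ, aeval (fun ij : I2 gg × I2 gg => a ij.1 ij.2)
      (∑ m : f.support, monomial m.1 (q m)) = L a fun i => (q i : ℂ) := by
    intro a
    simp only [map_sum, aeval_monomial, L, LinearMap.coe_mk, AddHom.coe_mk, eq_ratCast]
  exact (e _).symm.trans (hg _ fun a ha => (e a).trans ((hV _).1 hw a ha))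

/-- the preimage of a subspace under an automorphism -/
def pullA (α : ℂ ≃+* ℂ) (V : Submodule ℂ (M8 ℂ)) : Submodule ℂ (M8 ℂ) where
  carrier := {X | X.map α ∈ V}
  zero_mem' := by simp
  add_mem' {X Y} hX hY := by
    change (X + Y).map α ∈ V
    rw [Matrix.map_add _ (map_add α)]
    exact add_mem hX hY
  smul_mem' c X hX := by
    change (c • X).map α ∈ V
    rw [Matrix.map_smul' _ _ _ (map_mul α)]
    exact V.smul_mem _ hX

omit dm in
theorem nor_inv {F n : Type} [Field F] [Fintype n] [DecidableEq n] {V : Submodule F (Matrix n n F)}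
    {x y : Matrix n n F} (e : x * y = 1) (h : ∀ Z ∈ V, ∃ Z' ∈ V, x * Z = Z' * x) :
    ∀ Z ∈ V, ∃ Z' ∈ V, y * Z = Z' * y := fun Z hZ => by
  have e' := mul_eq_one_comm.1 e
  let f : V →ₗ[F] V := (LinearMap.mulRight F y ∘ₗ LinearMap.mulLeft F x).restrict fun Y hY => by
    obtain ⟨Y', a, b⟩ := h Y hY
    change x * Y * y ∈ V
    rwa [b, mul_assoc, e, mul_one]
  have back : ∀ Y : Matrix n n F, y * (x * Y * y) = Y * y := fun Y => by
    rw [← mul_assoc, ← mul_assoc, e', one_mul]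
  obtain ⟨Y, hY⟩ := (LinearMap.injective_iff_surjective (f := f)).1 (fun Y Y' k => Subtype.ext (by
    have := congrArg (fun Z : V => y * Z.1 * x) k
    change y * (x * Y * y) * x = y * (x * Y' * y) * x at this
    rwa [back, back, mul_assoc, mul_assoc, e', mul_one, mul_one] at this)) ⟨Z, hZ⟩
  exact ⟨Y, Y.2, by rw [← show x * Y.1 * y = Z from congrArg Subtype.val hY, back]⟩

theorem hodge_nor {ε κ ν : Type} [Fintype ε] [DecidableEq ε] [Fintype κ] [DecidableEq κ]
    [DecidableEq ν] (φ : EW.Fr (I2 gg) ε κ ν ℂ) {J₀ : M8 ℝ} (h2 : J₀ * J₀ = -1)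
    (h : ∀ α : ℂ ≃+* ℂ, (cm J₀).map α ∈ φ.nn) : ∀ x ∈ Sn.Hodge J₀, x.val ∈ φ.Nor := by
  intro x hx
  have one : ∀ α : ℂ ≃+* ℂ, (1 : M8 ℂ).map α = 1 := fun α =>
    Matrix.map_one _ (map_zero α) (map_one α)
  let H : Subgroup (GL (I2 gg) ℂ) :=
    { carrier := {g | ∀ α : ℂ ≃+* ℂ, g.val.map α ∈ φ.Nor}
      one_mem' := fun α => by rw [Units.val_one, one]; exact one_mem _
      mul_mem' := fun ha hb α => by
        rw [Units.val_mul, Matrix.map_mul]; exact mul_mem (ha α) (hb α)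
      inv_mem' := fun {a} ha α c =>
        nor_inv (by rw [← Matrix.map_mul, a.mul_inv, one]) (ha α c) }
  have hH : Sn.OverQ H := by
    refine overQ_of (A := {a | ∀ α : ℂ ≃+* ℂ, a.map α ∈ φ.Nor}) (fun _ => Iff.rfl)
      (fun g hg α c Y hY => ?_) fun α a ha β => ha (α.trans β)
    have e : ∀ a : M8 ℂ, (genM * (Y.map α.symm).map C * genM.adjugate).map (evM a) =
        a * Y.map α.symm * a.adjugate := fun a => by
      rw [Matrix.map_mul, Matrix.map_mul, C_map]
      have := (evM a).map_adjugate genM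
      rw [RingHom.mapMatrix_apply, RingHom.mapMatrix_apply] at this
      rw [this, genM_map]
    have e' : ∀ a : M8 ℂ, (a * Y.map α.symm * a.adjugate).map α =
        a.map α * Y * (a.map α).adjugate := fun a => by
      rw [Matrix.map_mul, Matrix.map_mul, show (Y.map α.symm).map α = Y by ext; simp]
      exact congrArg _ ((α : ℂ →+* ℂ).map_adjugate a)
    have k := uh_zar_sub _ (pullA α (φ.W c)) (fun a ha => by
      obtain ⟨X', hX', k⟩ := ha α c Y hY
      change Matrix.map _ α ∈ φ.W c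
      rw [e, e', k, Matrix.mul_assoc, mul_adjugate, Matrix.mul_smul, Matrix.mul_one]
      exact Submodule.smul_mem _ _ hX') hg
    change Matrix.map _ α ∈ φ.W c at k
    rw [e, e'] at k
    have hd : (g.val.map α).det ≠ 0 := (isUnit_det_of_right_inverse (B := g⁻¹.val.map α) (by
      rw [← Matrix.map_mul, g.mul_inv, one])).ne_zero
    refine ⟨_, Submodule.smul_mem _ (g.val.map α).det⁻¹ k, ?_⟩
    rw [Matrix.smul_mul, Matrix.mul_assoc _ _ (g.val.map α), adjugate_mul, Matrix.mul_smul,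
      Matrix.mul_one, smul_smul, inv_mul_cancel₀ hd, one_smul]
  refine Subgroup.mem_sInf.1 hx H ⟨hH, fun t => ?_⟩ (.refl ℂ)
  have h3 : cm J₀ * cm J₀ = -1 := by
    have := congrArg Complex.ofRealHom.mapMatrix h2
    rwa [map_mul, map_neg, map_one] at this
  have b : (Real.cos t : ℂ) ^ 2 + (Real.sin t : ℂ) ^ 2 = 1 := by
    exact_mod_cast Real.cos_sq_add_sin_sq t
  have e1 : (Real.cos t • (1 : M8 ℝ) + Real.sin t • J₀).map ((↑) : ℝ → ℂ) =
      (Real.cos t : ℂ) • 1 + (Real.sin t : ℂ) • cm J₀ := by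
    ext a b
    by_cases c : a = b <;> simp [one_apply, c]
  have u : IsUnit ((Real.cos t : ℂ) • 1 + (Real.sin t : ℂ) • cm J₀) :=
    IsUnit.of_mul_eq_one ((Real.cos t : ℂ) • 1 - (Real.sin t : ℂ) • cm J₀) (by
      simp only [mul_sub, add_mul, smul_mul_assoc, mul_smul_comm, one_mul, mul_one, h3]
      linear_combination (norm := module) b • (1 : M8 ℂ))
  refine ⟨u.unit, fun α => ?_, e1.symm⟩
  rw [u.unit_spec, Matrix.map_add _ (map_add α), Matrix.map_smul' _ _ _ (map_mul α),
    Matrix.map_smul' _ _ _ (map_mul α), one]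
  refine φ.circle (h α) ?_ (by rw [← map_pow, ← map_pow, ← map_add, b, map_one])
  rw [← Matrix.map_mul, h3, Matrix.map_neg _ (map_neg α), one]

end Pool.Agent.MT.U
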