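import Pool.Agent.Lib.MP_d61fbb_ag.MW.E5a
import Pool.Agent.Lib.MP_d61fbb_ag.MW.E4

/-! The end of the proof. -/

set_option autoImplicit false

noncomputable section

namespace Pool.Agent.MT.U

open Matrix G Filter Topology
open scoped Matrix.Norms.Elementwise

variable [dm : Dim] {τ : Matrix (Fin gg) (Fin gg) ℂ} {K : IntermediateField ℚ ℂ} {e k n : ℕ}

theorem hom_J (hτ : Sieg τ) {a : M8 ℚ} (h : Hom τ a) :
    a.map (↑) * cm (Jm (un τ)) = cm (Jm (un τ)) * a.map (↑) := by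
  have m1 : un τ ∈ G.HH gg := by rwa [← mk_un hτ.symm] at hτ
  have e : ∀ u, Om (un τ) *ᵥ u = zz τ u := fun u => by
    rw [Om, fromCols_mulVec, one_mulVec, mk_un hτ.symm]
    rfl
  have e1 : cm (qm a) = a.map (↑) := by
    ext s t
    simp
  have h1 : Om (un τ) * (a.map (↑) * (cm (Jm (un τ)) - Complex.I • 1)) = 0 :=
    ext_of_mulVec_single fun j => by
      rw [← mulVec_mulVec, ← mulVec_mulVec, e, zero_mulVec]
      refine h _ ?_
      rw [← e, mulVec_mulVec, Matrix.mul_sub, Om_Jm m1, Matrix.mul_smul, Matrix.mul_one, sub_self,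
        zero_mulVec]
  rw [← e1, ← cm_mul, ← cm_mul]
  refine congrArg cm (sub_eq_zero.1 (Om_inj m1 ?_))
  rw [cm_sub, cm_mul, cm_mul, e1, Matrix.mul_sub, ← Matrix.mul_assoc _ (cm _), Om_Jm m1, ← h1,
    mul_sub, mul_smul_comm, mul_one, Matrix.mul_sub, Matrix.mul_smul, Matrix.smul_mul]

theorem ray_inj {l : ℕ} [hl : Fact l.Prime] {a : M8 ℤ} (D : Blk e k n l a) (i : Fin n)
    {u u' : M2 D.R} (hu : u' * u = 1) {η : ℤ} (hη : η = 1 ∨ η = -1) {H : ℕ → G.Sp gg ℚ_[l]}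
    (hH : ∀ j, (H j).1.map (algebraMap _ _) = (D.fr.nm fun i => u.map (D.s i)) * D.fr.nm fun _ =>
        !![((l : PadicAlgCl l) ^ (η * j))⁻¹, 0; 0, (l : PadicAlgCl l) ^ (η * j)])
    {j j' N : ℕ} {x : G.Sp gg ℚ_[l]} {κ : G.Sp gg ℤ_[l]} (hN : N ≠ 0)
    (h1 : ∀ g : M2 D.R, g.det = 1 → Commute x.1 ((D.Nm g ^ N).map PadicInt.Coe.ringHom))
    (h2 : x * H j' = H j * spm PadicInt.Coe.ringHom κ) : j = j' := by
  have l1 : (l : PadicAlgCl l) ≠ 0 := by exact_mod_cast hl.out.ne_zero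
  have na : ∀ x : ℤ_[l], ‖algebraMap ℤ_[l] (PadicAlgCl l) x‖ = ‖x‖ := fun x =>
    PadicAlgCl.norm_extends l x
  have nl : ‖(l : PadicAlgCl l)‖ < 1 := by
    rw [← map_natCast (algebraMap ℤ_[l] _), na, PadicInt.norm_p]
    exact inv_lt_one_of_one_lt₀ (by exact_mod_cast hl.out.one_lt)
  obtain ⟨s, t, st, hd⟩ : ∃ s t : Fin 2, s ≠ t ∧ ∀ (j : ℕ) (x : PadicAlgCl l), (1 + single s t x) *
      !![((l : PadicAlgCl l) ^ (η * j))⁻¹, 0; 0, (l : PadicAlgCl l) ^ (η * j)] =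
      !![((l : PadicAlgCl l) ^ (η * j))⁻¹, 0; 0, (l : PadicAlgCl l) ^ (η * j)] *
        (1 + single s t (l ^ (2 * j) * x)) := by
    rcases hη with rfl | rfl
    · refine ⟨0, 1, by decide, fun j x => ?_⟩
      ext s t
      fin_cases s <;> fin_cases t <;> simp [mul_apply, Fin.sum_univ_two, one_apply]
      field_simp
      ring
    · refine ⟨1, 0, by decide, fun j x => ?_⟩
      ext s t
      fin_cases s <;> fin_cases t <;> simp [mul_apply, Fin.sum_univ_two, one_apply]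
      field_simp
      ring
  have p1 : ∀ m : ℕ, (1 + single s t 1 : M2 D.R) ^ m = 1 + single s t (m : D.R) := fun m => by
    induction m with
    | zero => simp
    | succ m ih =>
      rw [pow_succ, ih, mul_add, mul_one, add_mul, one_mul, single_mul_single_of_ne _ _ _ _ st.symm,
        add_zero, add_assoc, ← single_add, Nat.cast_succ]
  have hu' : u * u' = 1 := mul_eq_one_comm.1 hu
  let f := algebraMap ℚ_[l] (PadicAlgCl l)
  let V : PadicAlgCl l → M8 (PadicAlgCl l) := fun x => D.fr.nm fun _ => 1 + single s t x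
  have c1 := congrArg (·.map f) (h1 (u * (1 + single s t 1) * u') (by
    rw [det_mul, det_mul, mul_right_comm, ← det_mul, hu', det_one, one_mul]
    exact det_transvection_of_ne s t st 1)).eq
  have c2 : ((D.Nm (u * (1 + single s t 1) * u') ^ N).map PadicInt.Coe.ringHom).map f =
      (D.fr.nm fun i => u.map (D.s i)) * V N * D.fr.nm fun i => u'.map (D.s i) := by
    rw [← D.NmH_apply, ← map_pow, D.NmH_apply, show (u * (1 + single s t 1) * u') ^ N =
      u * (1 + single s t 1) ^ N * u' from Units.conj_pow (Units.mkOfMulEqOne u u' hu') _ _, p1]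
    refine (D.fr_nm _).trans ?_
    simp only [Matrix.map_mul, EW.Fr.nm_mul, V]
    congr 3
    funext i
    ext a b
    simp [one_apply, single_apply, apply_ite (D.s i)]
  have c3 : ∀ j, (D.fr.nm fun i => u.map (D.s i)) * V N * (D.fr.nm fun i => u'.map (D.s i)) *
      (H j).1.map f = (H j).1.map f * V (l ^ (2 * j) * N) := fun j => by
    simp only [f, hH, V, ← EW.Fr.nm_mul, mul_assoc, ← hd]
    simp only [← mul_assoc (u'.map _), ← Matrix.map_mul (f := D.s _), hu,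
      Matrix.map_one _ (map_zero _) (map_one _), one_mul]
  have c4 : x.1.map f * (H j').1.map f = (H j).1.map f * κ.1.map (algebraMap _ _) := by
    have := congrArg (fun y => y.1.map f) h2
    simp only [Submonoid.coe_mul, Matrix.map_mul] at this
    exact this
  simp only [Matrix.map_mul, c2] at c1
  have c5 : κ.1.map (algebraMap _ _) * V (l ^ (2 * j') * N) =
      V (l ^ (2 * j) * N) * κ.1.map (algebraMap _ _) := by
    refine (IsUnit.of_mul_eq_one _ (sp_mul_inv (spm f (H j)))).mul_left_cancel ?_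
    change (H j).1.map f * _ = (H j).1.map f * _
    rw [← mul_assoc, ← c4, mul_assoc, ← c3, ← mul_assoc, c1, mul_assoc, c4, ← mul_assoc, c3,
      mul_assoc]
  have n1 : ∀ κ : G.Sp gg ℤ_[l], ‖κ.1.map (algebraMap ℤ_[l] (PadicAlgCl l))‖ ≤ 1 := fun κ =>
    (norm_le_iff zero_le_one).2 fun a b => by
      rw [map_apply, na]
      exact PadicInt.norm_le_one _
  have n2 : ∀ j : ℕ, ‖(l : PadicAlgCl l) ^ (2 * j) * N‖ ≤ 1 := fun j => by
    exact_mod_cast IsUltrametricDist.norm_natCast_le_one (PadicAlgCl l) (l ^ (2 * j) * N)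
  have q1 := sp_mul_inv (spm (algebraMap ℤ_[l] (PadicAlgCl l)) κ)
  rw [← map_inv] at q1
  have q2 := mul_eq_one_comm.1 q1
  have nU := (norm_le_iff zero_le_one).2 D.int
  have nU' := (norm_le_iff zero_le_one).2 D.int'
  have a1 := D.fr.uni_le nU nU' i (n1 κ) (n1 κ⁻¹) q1 st (n2 j') c5
  have a2 := D.fr.uni_le nU nU' i (n1 κ⁻¹) (n1 κ) q2 st (x := l ^ (2 * j') * N) (n2 j) (by
    have := congrArg (fun y => (spm (algebraMap ℤ_[l] (PadicAlgCl l)) κ⁻¹).1 * y *
      (spm (algebraMap ℤ_[l] (PadicAlgCl l)) κ⁻¹).1) c5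
    change _ * ((spm _ κ).1 * _) * _ = _ * (_ * (spm _ κ).1) * _ at this
    rw [← mul_assoc, q2, one_mul, mul_assoc, mul_assoc, q1, mul_one] at this
    exact this.symm)
  have a3 := le_antisymm a1 a2
  rw [norm_mul, norm_mul, mul_left_inj' (norm_ne_zero_iff.2 (Nat.cast_ne_zero.2 hN)), norm_pow,
    norm_pow] at a3
  have := pow_right_injective₀ (norm_pos_iff.2 l1) nl.ne a3
  omega

theorem rat_nn (hτ : Sieg τ) (h8 : ee (1 / 8) ∈ K) (M : AType τ K e k n) {l : Pr} (h : l ∉ M.S)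
    (h2 : (l : ℕ) ≠ 2) {m : ℕ} (hm : m ≠ 0) (hz : HasRel τ l (M.D l h).KK (M.D l h).Orb m)
    (i : PadicAlgCl l →+* ℂ) {X : M8 ℚ} (hX : X.map (↑) ∈ cjs (cm (Jm (un τ)))) :
    X.map (Rat.castHom (PadicAlgCl l)) ∈ (M.D l h).fr.nn := by
  classical
  set D := M.D l h with hD
  have l1 : ((l : ℕ) : PadicAlgCl l) ≠ 0 := by exact_mod_cast l.2.ne_zero
  have nl : ‖((l : ℕ) : PadicAlgCl l)‖ < 1 := by
    rw [← map_natCast (algebraMap ℚ_[l] _), PadicAlgCl.norm_extends, Padic.norm_p]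
    exact inv_lt_one_of_one_lt₀ (by exact_mod_cast l.2.one_lt)
  have c1 : (zM ℚ M.a).map (↑) * X.map ((↑) : ℚ → ℂ) = X.map (↑) * (zM ℚ M.a).map (↑) :=
    LinearMap.mem_eqLocus.1 ((Submodule.span_le.2 (by
      rintro _ ⟨α, rfl⟩
      have := congrArg (·.map α) (hom_J hτ M.hom)
      simp only [Matrix.map_mul, rat_map_cast] at this
      exact this) : _ ≤ (LinearMap.mulLeft ℂ ((zM ℚ M.a).map ((↑) : ℚ → ℂ))).eqLocus
        (LinearMap.mulRight ℂ ((zM ℚ M.a).map ((↑) : ℚ → ℂ)))) hX)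
  have c2 : zM ℚ M.a * X = X * zM ℚ M.a := Matrix.map_injective (Rat.castHom ℂ).injective (by
    simp only [Matrix.map_mul]
    exact c1)
  have c3 := D.fr.comm_p D.ev_inj (X := X.map (Rat.castHom (PadicAlgCl l))) (by
    have := congrArg (·.map (Rat.castHom (PadicAlgCl l))) c2
    simp only [Matrix.map_mul] at this
    rw [← D.fr_a]
    exact this.symm)
  refine D.fr.pick c3 (zero_mem _) (SZ.blk_span D (RingHom.id _) one_ne_zero) ?_
  rintro i₀ _ ⟨x, rfl⟩ y hy Y hY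
  obtain ⟨u, u', u1, u2, u3, u4⟩ : ∃ u u' : M2 D.R, u.det = 1 ∧ u' * u = 1 ∧
      (∀ i, u.map (D.s i) = 1 - D.s i x • y) ∧ ∀ i, u'.map (D.s i) = 1 + D.s i x • y := by
    rcases hy with rfl | rfl
    · refine ⟨!![1, -x; 0, 1], !![1, x; 0, 1], by simp, by simp [one_fin_two], fun i => ?_,
        fun i => ?_⟩
      all_goals ext s t; fin_cases s <;> fin_cases t <;> simp
    · refine ⟨!![1, 0; -x, 1], !![1, 0; x, 1], by simp, by simp [one_fin_two], fun i => ?_,
        fun i => ?_⟩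
      all_goals ext s t; fin_cases s <;> fin_cases t <;> simp
  simp only [Nat.cast_one, one_mul, RingHom.id_apply, ← u3, ← u4] at hY
  obtain ⟨M', hM'⟩ := D.fr.exists_B (X := Y) fun σ => by
    rw [hY]
    exact ((show Commute _ _ from D.fr.B_p _ σ).mul_left (c3 σ)).mul_left (D.fr.B_p _ σ)
  rw [hM']
  refine D.fr.ad_hw fun η hη w w0 hw => ?_
  choose H H1 H2 using D.exists_ray u u1 hη
  obtain ⟨k1, k2⟩ := key hτ h8 M.toTRep h2 D.orb_mul hm hz i H H1
    (fun j j' N x κ N0 a b => ray_inj D i₀ u2 hη H2 N0 (fun g hg => by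
      obtain ⟨G, hG⟩ : ∃ G : ∀ l' (h' : l' ∉ M.S), SpecialLinearGroup (Fin 2) (M.D l' h').R,
          G l = fun _ => ⟨g, hg⟩ := ⟨Function.update (fun _ _ => 1) l _, Function.update_self ..⟩
      obtain ⟨σ, hσ⟩ := M.big {l} G
      have := a σ
      rwa [hσ l (by simp) h, hG] at this) b) hX
    (t := fun j => (((l : ℕ) : PadicAlgCl l) ^ (2 * w)) ^ j)
    (tendsto_pow_atTop_nhds_zero_of_norm_lt_one (by
      rw [norm_pow]
      exact pow_lt_one₀ (norm_nonneg _) nl (by omega)))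
    ((D.fr.lim l1 nl hη hw).congr fun j => by
      have e : (spm (algebraMap ℚ_[l] (PadicAlgCl l)) (H j)⁻¹).1 = (D.fr.nm fun _ =>
          !![((l : ℕ) : PadicAlgCl l) ^ (η * j), 0; 0, (((l : ℕ) : PadicAlgCl l) ^ (η * j))⁻¹]) *
            D.fr.nm fun i => u'.map (D.s i) := by
        rw [map_inv]
        refine left_inv_eq_left_inv (sp_inv_mul _) ?_
        change _ * (H j).1.map _ = 1
        rw [H2, ← D.fr.nm_one]
        simp only [← EW.Fr.nm_mul, mul_assoc]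
        simp only [← mul_assoc (u'.map _), ← Matrix.map_mul (f := D.s _), u2,
          Matrix.map_one _ (map_zero _) (map_one _), one_mul]
        simp [zpow_ne_zero _ l1, one_fin_two]
      rw [e, ← hM', hY]
      change _ = _ • (_ * (H j).1.map _)
      simp only [H2, mul_assoc])
  refine D.fr.ann_nn (E := J (Fin gg) _) (E' := -J (Fin gg) _) (by rw [mul_neg, J_squared, neg_neg])
    ?_ (Set.range fun x : D.KK => x.1.1.map (algebraMap _ _)) ?_ fun v hv =>
      k2 v fun x hx => hv _ ⟨⟨x, hx⟩, rfl⟩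
  · have k3 : _ + _ = (0 : M8 (PadicAlgCl l)) := k1
    have := congrArg (fun Y => -(J (Fin gg) (PadicAlgCl l) * Y * J (Fin gg) (PadicAlgCl l))) k3
    simpa only [mul_add, add_mul, mul_assoc, J_squared, ← mul_assoc (J (Fin gg) _) (J (Fin gg) _),
      mul_neg, neg_mul, mul_one, one_mul, neg_add, neg_neg, mul_zero, zero_mul, neg_zero, add_comm]
      using this
  · rintro _ ⟨x, rfl⟩
    exact ⟨D.inN_nor x.2, IsUnit.of_mul_eq_one _ (sp_mul_inv (spm _ x.1)),
      SymplecticGroup.mem_iff.1 (spm _ x.1).2⟩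

theorem endgame (hτ : Sieg τ) (h8 : ee (1 / 8) ∈ K) (M : AType τ K e k n) {l : Pr} (h : l ∉ M.S)
    (h2 : (l : ℕ) ≠ 2) {m : ℕ} (hm : m ≠ 0) (hz : HasRel τ l (M.D l h).KK (M.D l h).Orb m)
    (J₀ : M8 ℝ) (hJ : IsCx τ J₀) (i : PadicAlgCl l →+* ℂ) : ∀ x ∈ Sn.Hodge J₀,
    ∃ (c : Fin e → ℂ) (g : Fin n → M2 ℂ), (∀ j, (g j).det = 1) ∧ x.val = (M.D l h).U.map i *
      (diagonal (fun y : Bx e k => c y.2) * bkp (M.D l h).io g) * (M.D l h).U'.map i := by
  have m1 : un τ ∈ G.HH gg := by rwa [← mk_un hτ.symm] at hτ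
  obtain rfl : J₀ = Jm (un τ) := g8_cx m1 (by rwa [mk_un hτ.symm])
  have h1 : cjs (cm (Jm (un τ))) ≤ ((M.D l h).fr.map i).nn := fun X hX => by
    refine Submodule.span_le.2 ?_ ((rat_cjs _).span hX)
    rintro _ ⟨hQ, Q, rfl⟩
    have := (M.D l h).fr.map_nn i (rat_nn hτ h8 M h h2 hm hz i hQ)
    rwa [Matrix.map_map, show i ∘ Rat.castHom (PadicAlgCl l) = (↑) from
      funext fun q => by simp] at this
  intro x hx
  obtain ⟨c, g, -, h3, h4⟩ := ((M.D l h).fr.map i).mem_H x.isUnit (hodge_nor _ (Jm_sq m1)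
    (fun α => h1 (Submodule.subset_span ⟨α, rfl⟩)) x hx)
  refine ⟨c, g, h3, ?_⟩
  rw [h4, EW.Fr.nm, ← map_mul, Blk.bd_scal, bkp, ← blockDiagonal_mul]
  rfl

end Pool.Agent.MT.U
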