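import Pool.Agent.Lib.MP_d61fbb_ag.MW.S0

/-! The hypotheses prime by prime. -/

set_option autoImplicit false

noncomputable section

namespace Pool.Agent.MT

variable [dm : Dim]

open Matrix

/-- `ρ` describes the action of the automorphisms of `ℂ` over `K` on the torsion points of the
abelian fourfold with period matrix `τ`, read in the coordinates `Xc`. -/
def TorsionRep (τ : Matrix (Fin gg) (Fin gg) ℂ) (K : IntermediateField ℚ ℂ)
    (ρ : (ℂ ≃ₐ[K] ℂ) →* ∀ l : Pr, GL (I2 gg) ℤ_[l]) : Prop :=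
  ∀ (σ : ℂ ≃ₐ[K] ℂ) (a b : I2 gg → ℚ), (∀ (l : Pr) i,
      ‖((ρ σ l).val.map (↑) *ᵥ (fun j => (a j : ℚ_[l])) - fun j => (b j : ℚ_[l])) i‖ ≤ 1) →
    ∃ c : ℂ, ∀ η, σ (Xc τ (qc a) η) = c * Xc τ (qc b) η

end Pool.Agent.MT
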