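import Pool.Agent.Lib.MP_d61fbb_ag.MN.Sn
import Pool.Agent.Lib.MP_d61fbb_ag.MW.S1
import Pool.Agent.Lib.MP_d61fbb_ag.MT.GDefs

/-! Stage three: definitions. -/

set_option autoImplicit false
set_option linter.dupNamespace false

noncomputable section

namespace Pool.Agent.MT.U

variable [dm : Dim]

open Matrix Filter

/-- the symplectic Lie algebra -/
abbrev spL (F : Type) [Field F] : Submodule F (M8 F) := lieSub (J (Fin gg) F)

/-- subspaces that are stable under all automorphisms of the complex numbers -/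
def Rat (V : Submodule ℂ (M8 ℂ)) : Prop := ∀ (α : ℂ ≃+* ℂ), ∀ X ∈ V, X.map α ∈ V

/-- `V` is stable under the bracket with elements of `A` -/
def AdSt {F : Type} [Field F] (A V : Submodule F (M8 F)) : Prop :=
  ∀ X ∈ A, ∀ Y ∈ V, X * Y - Y * X ∈ V

/-- the Zariski closure -/
def Zar (A : Set (M8 ℂ)) : Set (M8 ℂ) := {g | ∀ f : MvPolynomial (I2 gg × I2 gg) ℂ,
  (∀ a ∈ A, MvPolynomial.eval (fun ij => a ij.1 ij.2) f = 0) →
    MvPolynomial.eval (fun ij => g ij.1 ij.2) f = 0}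

/-- no rational element of the Lie algebra commutes with `J₀` -/
def NoEnd (J₀ : M8 ℝ) : Prop :=
  ∀ X : M8 ℚ, IsLie (J (Fin gg) ℚ) X → qr X * J₀ = J₀ * qr X → X = 0

/-- the part of `x` on which `j` acts by `c` from the left and by `-c` from the right -/
def off (c : ℂ) (j x : M2 ℂ) : M2 ℂ := (1 - c • j) * x * (1 + c • j)

/-- invariant tensors -/
def Inv {g : ℕ} (G₀ : Subgroup (G.Sp g ℤ)) (κ : Type) [Fintype κ] [DecidableEq κ] (R : Type)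
    [CommRing R] : Submodule R ((κ → I2 g) → R) where
  carrier := {v | ∀ γ ∈ G₀, tk κ (γ.1.map (Int.cast : ℤ → R)) *ᵥ v = v}
  add_mem' hx hy γ h := by rw [mulVec_add, hx γ h, hy γ h]
  zero_mem' _ _ := mulVec_zero _
  smul_mem' c _ hx γ h := by rw [mulVec_smul, hx γ h]

/-- the annihilator of the invariant tensors -/
def Ann (G₀ : Subgroup (G.Sp gg ℤ)) (κ : Type) [Fintype κ] [DecidableEq κ] : Submodule ℂ (M8 ℂ) where
  carrier := {X | X ∈ spL ℂ ∧ ∀ v ∈ Inv G₀ κ ℂ, dp κ X *ᵥ v = 0}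
  add_mem' hx hy := ⟨add_mem hx.1 hy.1, fun v h => by
    rw [dp_add, add_mulVec, hx.2 v h, hy.2 v h, add_zero]⟩
  zero_mem' := ⟨zero_mem _, fun v _ => by rw [dp_zero, zero_mulVec]⟩
  smul_mem' c _ hx := ⟨Submodule.smul_mem _ c hx.1, fun v h => by
    rw [dp_smul, smul_mulVec, hx.2 v h, smul_zero]⟩

open G

/-- the affine coordinates of level `M` -/
def pM {g : ℕ} (y₀ : LL g 1) (M : ℕ) (z : EE g) : ChL g M → ℂ :=
  fun x => th x z / th (ch 1 y₀) z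

/-- An irreducible analytic set on which a sequence of points accumulates, with its monodromy
group. -/
structure Cmp {g : ℕ} (z : ℕ → EE g) (𝒰 : Ultrafilter ℕ) where
  /-- the chart -/
  y₀ : LL g 1
  /-- the set -/
  Y : Set (EE g)
  /-- the monodromy group -/
  G₀ : Subgroup (Sp g ℤ)
  /-- the translations -/
  c : ℕ → Sp g ℤ
  /-- the base point -/
  z₁ : EE g
  mem₁ : z₁ ∈ Y
  sub : ∀ w ∈ Y, w ∈ HH g ∧ th (ch 1 y₀) w ≠ 0
  le : G₀ ≤ Gam g 32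
  stab : ∀ γ ∈ G₀, ∀ w ∈ Y, az γ w ∈ Y
  c_mem : ∀ j, c j ∈ Gam g 32
  ev : ∀ᶠ j in 𝒰, az (c j) (z j) ∈ Y
  dense : ∀ M, 0 < M → ∀ δ ∈ Gam g 32, ∀ P : MvPolynomial (ChL g M) ℂ,
    (∀ᶠ j in 𝒰, MvPolynomial.eval (pM y₀ M (az δ (az (c j) (z j)))) P = 0) →
      ∀ w ∈ Y, MvPolynomial.eval (pM y₀ M (az δ w)) P = 0
  index : ∃ n : ℕ, ∀ M, 0 < M → ∀ δ : Fin (n + 1) → Sp g ℤ, (∀ a, δ a ∈ Gam g 32) →
    (∀ a (P : MvPolynomial (ChL g M) ℂ), (∀ w ∈ Y, MvPolynomial.eval (pM y₀ M w) P = 0) →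
      MvPolynomial.eval (pM y₀ M (az (δ a) z₁)) P = 0) →
    ∃ a a', a ≠ a' ∧ ∃ γ ∈ G₀, pM y₀ M (az (δ a') z₁) = pM y₀ M (az (γ * δ a) z₁)
  fixed : ∀ (κ : Type) [Fintype κ] [DecidableEq κ], ∀ v ∈ Inv G₀ κ ℝ, ∀ w ∈ Y,
    dp κ (Jm w) *ᵥ v = dp κ (Jm z₁) *ᵥ v
  ne : ∃ w ∈ Y, Jm w ≠ Jm z₁
  baire : ∀ f : ℕ → EE g → ℝ, (∀ n, AnalyticOnNhd ℝ (f n) (HH g)) → (∀ w ∈ Y, ∃ n, f n w = 0) →
    ∃ n, ∀ w ∈ Y, f n w = 0

end Pool.Agent.MT.U
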