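import Pool.Agent.Lib.MP_d61fbb_ag.MW.SIA
import Pool.Agent.Lib.MP_d61fbb_ag.MW.U0

/-! The Zariski closure of the local image contains the image of `SL₂ ^ n`. -/

set_option autoImplicit false

noncomputable section

namespace Pool.Agent.MT.SZ

open Matrix U

theorem sl2_elem {F : Type} [Field F] (S : Submonoid (M2 F)) (hu : ∀ x, !![1, x; 0, 1] ∈ S)
    (hl : ∀ x, !![1, 0; x, 1] ∈ S) {g : M2 F} (hg : g.det = 1) : g ∈ S := by
  have key : ∀ g : M2 F, g.det = 1 → g 1 0 ≠ 0 → g ∈ S := fun g hg h0 => by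
    rw [det_fin_two] at hg
    have e : g = !![1, (g 0 0 - 1) / g 1 0; 0, 1] * !![1, 0; g 1 0, 1] *
        !![1, (g 1 1 - 1) / g 1 0; 0, 1] := by
      ext a b
      fin_cases a <;> fin_cases b <;> simp [mul_apply, Fin.sum_univ_two] <;> field_simp
      · ring
      · linear_combination -hg
      · ring
    rw [e]
    exact mul_mem (mul_mem (hu _) (hl _)) (hu _)
  by_cases h0 : g 1 0 = 0
  · have e : g = !![1, 0; -1, 1] * (!![1, 0; 1, 1] * g) := by
      rw [← Matrix.mul_assoc, mul_fin_two]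
      simp [← one_fin_two]
    rw [e]
    refine mul_mem (hl _) (key _ (by rw [det_mul, hg, det_fin_two_of]; ring) fun k => ?_)
    rw [det_fin_two, h0] at hg
    simp only [mul_apply, Fin.sum_univ_two, h0] at k
    simp at k
    simp [k] at hg
  · exact key g hg h0

theorem single_ind {ι M : Type} [Fintype ι] [DecidableEq ι] [Monoid M] (S : Submonoid (ι → M))
    (g : ι → M) (hg : ∀ i, Pi.mulSingle (M := fun _ => M) i (g i) ∈ S) : g ∈ S := by
  have key : ∀ s : Finset ι, (fun i => if i ∈ s then g i else 1) ∈ S := fun s => by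
    induction s using Finset.induction_on with
    | empty => simp only [Finset.notMem_empty, if_false]; exact S.one_mem
    | insert j s hj ih =>
      have e : (fun i => if i ∈ insert j s then g i else 1) =
          Pi.mulSingle (M := fun _ => M) j (g j) * fun i => if i ∈ s then g i else 1 := by
        funext i
        by_cases h : i = j
        · subst h; simp [hj]
        · simp [h]
      exact e ▸ S.mul_mem (hg j) ih
  simpa using key Finset.univ

theorem bkp_map {R R' : Type} [CommRing R] [CommRing R'] {e k n : ℕ} (io : Fin e → Fin k → Fin n)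
    (f : R →+* R') (g : Fin n → M2 R) : (bkp io g).map f = bkp io fun i => (g i).map f := by
  simp only [bkp, blockDiagonal_map _ _ f.map_zero, kp_map]

variable [dm : Dim]

/-- the generic matrix -/
def uzX : M8 (MvPolynomial (I2 gg × I2 gg) ℂ) := of fun a b => MvPolynomial.X (a, b)

/-- evaluation at a matrix -/
abbrev uzE (a : M8 ℂ) : MvPolynomial (I2 gg × I2 gg) ℂ →+* ℂ :=
  MvPolynomial.eval fun ij => a ij.1 ij.2

theorem uzX_map (a : M8 ℂ) : uzX.map (uzE a) = a := by
  ext i j; simp [uzX]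

omit dm in
theorem uzC_map {m n σ : Type} (t : σ → ℂ) (b : Matrix m n ℂ) :
    (b.map MvPolynomial.C).map (MvPolynomial.eval t) = b := by
  ext i j; simp

theorem uz_aeval {S : Type} [CommRing S] [Algebra ℂ S] (e : S →+* ℂ)
    (he : ∀ c, e (algebraMap ℂ S c) = c) (P : M8 S) (f : MvPolynomial (I2 gg × I2 gg) ℂ) :
    e (MvPolynomial.aeval (fun ij => P ij.1 ij.2) f) = uzE (P.map e) f := by
  induction f using MvPolynomial.induction_on with
  | C c => simp [he]
  | add p q hp hq => simp only [map_add, hp, hq]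
  | mul_X p n hp => simp only [map_mul, hp, MvPolynomial.aeval_X, MvPolynomial.eval_X, map_apply]

theorem uz_sub {A : Set (M8 ℂ)} {a : M8 ℂ} (h : a ∈ A) : a ∈ Zar A := fun _ hf => hf a h

theorem zar_map {A B : Set (M8 ℂ)} (P : M8 (MvPolynomial (I2 gg × I2 gg) ℂ))
    (h : ∀ a ∈ A, P.map (uzE a) ∈ Zar B) {g : M8 ℂ} (hg : g ∈ Zar A) : P.map (uzE g) ∈ Zar B := by
  intro f hf
  refine (uz_aeval (uzE g) (by simp) P f).symm.trans (hg _ fun a ha => ?_)
  exact (uz_aeval (uzE a) (by simp) P f).trans (h a ha f hf)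

theorem zar_line {B : Set (M8 ℂ)} (P : M8 (Polynomial ℂ))
    (h : ∀ n : ℕ, P.map (Polynomial.evalRingHom (n : ℂ)) ∈ Zar B) (c : ℂ) :
    P.map (Polynomial.evalRingHom c) ∈ Zar B := by
  intro f hf
  refine (uz_aeval (Polynomial.evalRingHom c) (by simp) P f).symm.trans ?_
  rw [Polynomial.eq_zero_of_infinite_isRoot (MvPolynomial.aeval (fun ij => P ij.1 ij.2) f)
    ((Set.infinite_range_of_injective (Nat.cast_injective (R := ℂ))).mono ?_), map_zero]
  rintro _ ⟨n, rfl⟩
  exact (uz_aeval (Polynomial.evalRingHom (n : ℂ)) (by simp) P f).trans (h n f hf)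

theorem zar_mul {A : Set (M8 ℂ)} (h : ∀ a ∈ A, ∀ b ∈ A, a * b ∈ A) {x y : M8 ℂ} (hx : x ∈ Zar A)
    (hy : y ∈ Zar A) : x * y ∈ Zar A := by
  have h1 : ∀ a ∈ A, a * y ∈ Zar A := fun a ha => by
    have := zar_map (B := A) (a.map MvPolynomial.C * uzX) (fun b hb => by
      rw [Matrix.map_mul, uzC_map, uzX_map]; exact uz_sub (h a ha b hb)) hy
    rwa [Matrix.map_mul, uzC_map, uzX_map] at this
  have := zar_map (B := A) (uzX * y.map MvPolynomial.C) (fun b hb => by
    rw [Matrix.map_mul, uzC_map, uzX_map]; exact h1 b hb) hx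
  rwa [Matrix.map_mul, uzC_map, uzX_map] at this

variable {e k n l : ℕ} [Fact l.Prime] {a : M8 ℤ} (D : Blk e k n l a) {F : Type} [Field F]
  (i : PadicAlgCl l →+* F)

/-- the map from the `l`-adic integers -/
def zi : ℤ_[l] →+* F := i.comp (algebraMap ℤ_[l] (PadicAlgCl l))

/-- the vectors of conjugates of the multiples of `N` -/
def blkA (N : ℕ) : AddSubgroup (Fin n → F) where
  carrier := {t | ∃ x : D.R, t = fun j => i (D.s j (N * x))}
  add_mem' := by
    rintro _ _ ⟨x, rfl⟩ ⟨y, rfl⟩
    exact ⟨x + y, funext fun j => by simp [mul_add]⟩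
  zero_mem' := ⟨0, funext fun j => by simp⟩
  neg_mem' := by
    rintro _ ⟨x, rfl⟩
    exact ⟨-x, funext fun j => by simp⟩

theorem blk_span {N : ℕ} (hN : N ≠ 0) :
    Submodule.span F (blkA D i N : Set (Fin n → F)) = ⊤ := by
  have hN' : (N : F) ≠ 0 := by
    rw [← map_natCast i, map_ne_zero]
    exact_mod_cast hN
  have hv : (vandermonde fun j => i (D.s j (AdjoinRoot.root D.c))).det ≠ 0 :=
    det_vandermonde_ne_zero_iff.2 fun a b e => D.inj (AdjoinRoot.algHom_ext (i.injective e))
  refine eq_top_iff.2 fun v _ => ?_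
  obtain ⟨c, rfl⟩ := mulVec_surjective_iff_isUnit.2 ((isUnit_iff_isUnit_det _).2 hv.isUnit) v
  have e : (vandermonde fun j => i (D.s j (AdjoinRoot.root D.c))) *ᵥ c =
      ∑ m : Fin n, (c m / N) • fun j => i (D.s j (N * AdjoinRoot.root D.c ^ (m : ℕ))) := by
    funext j
    simp only [mulVec, dotProduct, vandermonde_apply, Finset.sum_apply, Pi.smul_apply, smul_eq_mul,
      map_mul, map_natCast, map_pow]
    exact Finset.sum_congr rfl fun j _ => by field_simp
  rw [e]
  exact Submodule.sum_mem _ fun j _ => Submodule.smul_mem _ _ (Submodule.subset_span ⟨_, rfl⟩)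

/-- the representation of `GL₂ ^ n` -/
def rep : (Fin n → M2 F) →* M8 F where
  toFun g := D.U.map i * bkp D.io g * D.U'.map i
  map_one' := by
    rw [show (1 : Fin n → M2 F) = fun _ => 1 from rfl, blk_one, Matrix.mul_one, ← Matrix.map_mul,
      D.mul_inv, Matrix.map_one _ i.map_zero i.map_one]
  map_mul' g h := by
    rw [show g * h = fun j => g j * h j from rfl, blk_mul]
    simp only [Matrix.mul_assoc]
    rw [← Matrix.mul_assoc (D.U'.map i), ← Matrix.map_mul, D.inv_mul,
      Matrix.map_one _ i.map_zero i.map_one, Matrix.one_mul]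

theorem rep_apply (g : Fin n → M2 F) : rep D i g = D.U.map i * bkp D.io g * D.U'.map i := rfl

theorem rep_Nm (g : M2 D.R) :
    (D.Nm g).map (zi i) = rep D i fun j => g.map fun x => i (D.s j x) := by
  rw [show (D.Nm g).map (zi i) = ((D.Nm g).map (algebraMap ℤ_[l] (PadicAlgCl l))).map i from rfl,
    D.nm, Matrix.map_mul, Matrix.map_mul, bkp_map]
  rfl

theorem zar_unip (i : PadicAlgCl l →+* ℂ) {B : Set (M8 ℂ)} (h : ∀ a ∈ B, ∀ b ∈ B, a * b ∈ B)
    (m : M2 ℂ) (hn : m * m = 0) {A : AddSubgroup (Fin n → ℂ)}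
    (hA : Submodule.span ℂ (A : Set (Fin n → ℂ)) = ⊤)
    (hB : ∀ t ∈ A, rep D i (fun j => 1 + t j • m) ∈ B) (j : Fin n) (x : ℂ) :
    rep D i (Pi.mulSingle (M := fun _ => M2 ℂ) j (1 + x • m)) ∈ Zar B := by
  have key : ∀ t ∈ Submodule.span ℂ (A : Set (Fin n → ℂ)), ∀ c : ℂ,
      rep D i (fun j => 1 + (c * t j) • m) ∈ Zar B := by
    intro t ht
    induction ht using Submodule.span_induction with
    | mem t ht =>
      have e : ∀ c : ℂ, ((D.U.map i).map Polynomial.C * bkp D.io (fun j => 1 + (Polynomial.X *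
          Polynomial.C (t j)) • m.map Polynomial.C) * (D.U'.map i).map Polynomial.C).map
          (Polynomial.evalRingHom c) = rep D i (fun j => 1 + (c * t j) • m) := fun c => by
        rw [Matrix.map_mul, Matrix.map_mul, bkp_map, rep_apply]
        refine congrArg₂ (· * ·) (congrArg₂ (· * ·) ?_ (congrArg _ (funext fun j => ?_))) ?_
        · ext a b; simp
        · ext a b; simp [one_apply, apply_ite, mul_comm c]
        · ext a b; simp
      intro c
      rw [← e]
      refine zar_line _ (fun r => ?_) c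
      rw [e]
      exact uz_sub (by simpa using hB _ (A.nsmul_mem ht r))
    | zero => intro c; exact uz_sub (by simpa using hB 0 A.zero_mem)
    | add s t _ _ hs ht =>
      intro c
      have := zar_mul h (hs c) (ht c)
      rw [← map_mul] at this
      refine (congrArg (fun y => rep D i y ∈ Zar B) (funext fun j => ?_)).mpr this
      simp only [Pi.add_apply, Pi.mul_apply, mul_add, add_mul, add_smul, mul_one, one_mul,
        smul_mul_smul_comm, hn, smul_zero, add_zero]
      abel
    | smul a t _ ht => intro c; simpa [mul_assoc] using ht (c * a)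
  have := key (Pi.single j 1) (hA ▸ Submodule.mem_top) x
  refine (congrArg (fun y => rep D i y ∈ Zar B) (funext fun j' => ?_)).mpr this
  by_cases e : j' = j
  · subst e; simp
  · simp [e]

theorem zar_rep {Γ : Type} [Group Γ] (r : Γ →* GL (I2 gg) ℤ_[l]) (h : D.Between r)
    (i : PadicAlgCl l →+* ℂ) {x : Fin n → M2 ℂ} (hx : ∀ j, (x j).det = 1) :
    rep D i x ∈ Zar (Set.range fun σ => (r σ).val.map (zi i)) := by
  have hm : ∀ a ∈ Set.range fun σ => (r σ).val.map (zi i),
      ∀ b ∈ Set.range fun σ => (r σ).val.map (zi i),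
        a * b ∈ Set.range fun σ => (r σ).val.map (zi i) := by
    rintro _ ⟨σ, rfl⟩ _ ⟨τ, rfl⟩
    exact ⟨σ * τ, by simp only [map_mul, Units.val_mul, Matrix.map_mul]⟩
  let Z : Submonoid (M8 ℂ) :=
    { carrier := Zar (Set.range fun σ => (r σ).val.map (zi i))
      mul_mem' := zar_mul hm
      one_mem' := uz_sub ⟨1, by simp⟩ }
  refine single_ind (Z.comap (rep D i)) x fun j => ?_
  have eu : ∀ y : ℂ, (!![1, y; 0, 1] : M2 ℂ) = 1 + y • !![0, 1; 0, 0] := fun y => by
    ext a b; fin_cases a <;> fin_cases b <;> simp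
  have el : ∀ y : ℂ, (!![1, 0; y, 1] : M2 ℂ) = 1 + y • !![0, 0; 1, 0] := fun y => by
    ext a b; fin_cases a <;> fin_cases b <;> simp
  refine sl2_elem ((Z.comap (rep D i)).comap (MonoidHom.mulSingle (fun _ => M2 ℂ) j))
    (fun y => ?_) (fun y => ?_) (hx j)
  · rw [eu]
    refine zar_unip D i hm _ (by ext a b; fin_cases a <;> fin_cases b <;> simp)
      (blk_span D i one_ne_zero) ?_ j y
    rintro _ ⟨z, rfl⟩
    obtain ⟨σ, hσ⟩ := h.1 (uu z)
    refine ⟨σ, ?_⟩
    simp only [← eu]
    rw [hσ, rep_Nm]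
    congr 1
    funext j
    ext a b
    fin_cases a <;> fin_cases b <;> simp [uu]
  · rw [el]
    refine zar_unip D i hm _ (by ext a b; fin_cases a <;> fin_cases b <;> simp)
      (blk_span D i one_ne_zero) ?_ j y
    rintro _ ⟨z, rfl⟩
    obtain ⟨σ, hσ⟩ := h.1 (ll z)
    refine ⟨σ, ?_⟩
    simp only [← el]
    rw [hσ, rep_Nm]
    congr 1
    funext j
    ext a b
    fin_cases a <;> fin_cases b <;> simp [ll]

end Pool.Agent.MT.SZ
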