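import Pool.Agent.Lib.MP_d61fbb_ag.MW.E2b
import Pool.Agent.Lib.MP_d61fbb_ag.MW.E3
import Pool.Agent.Lib.MP_d61fbb_ag.MW.SZ

/-! The frame of the local data and the points on a ray. -/

set_option autoImplicit false

noncomputable section

namespace Pool.Agent.MT.Blk

open Matrix Polynomial U

variable [dm : Dim] {e k n l : ℕ} [hl : Fact l.Prime] {a : M8 ℤ} (D : Blk e k n l a)

/-- the frame -/
def fr : EW.Fr (I2 gg) (Fin e) (Fin k) (Fin n) (PadicAlgCl l) :=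
  ⟨D.io, D.io_inj, D.cover, D.U, D.U', D.mul_inv, D.inv_mul⟩

theorem fr_nm (g : M2 D.R) :
    (D.Nm g).map (algebraMap _ _) = D.fr.nm fun i => g.map (D.s i) := D.nm g

omit dm hl in
theorem bd_scal {F : Type} [Field F] (c : Fin e → F) : (diagonal fun x : Bx e k => c x.2) =
    blockDiagonal fun σ => c σ • (1 : UM.TM (Fin k) F) := by
  simp only [smul_one_eq_diagonal, blockDiagonal_diagonal]

theorem fr_a : zM (PadicAlgCl l) a = D.fr.B fun σ => D.ev σ • 1 := by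
  rw [D.diag, bd_scal]
  rfl

theorem fr_aeval (u : ℤ_[l][X]) : ∃ c : Fin e → PadicAlgCl l,
    (aeval (zM ℤ_[l] a) u).map (algebraMap _ _) = D.fr.B fun σ => c σ • 1 := by
  induction u using Polynomial.induction_on with
  | C r =>
    refine ⟨fun _ => algebraMap _ _ r, ?_⟩
    rw [show (fun _ : Fin e => algebraMap ℤ_[l] (PadicAlgCl l) r • (1 : UM.TM (Fin k) _)) =
      algebraMap ℤ_[l] (PadicAlgCl l) r • 1 from rfl, map_smul, map_one, aeval_C,
      Algebra.algebraMap_eq_smul_one r, Matrix.map_smul' _ _ _ (map_mul _),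
      Matrix.map_one _ (map_zero _) (map_one _)]
  | add p q hp hq =>
    obtain ⟨c, hc⟩ := hp
    obtain ⟨d, hd⟩ := hq
    refine ⟨c + d, ?_⟩
    rw [map_add, Matrix.map_add _ (map_add _), hc, hd, ← map_add]
    exact congrArg _ (funext fun σ => (add_smul _ _ _).symm)
  | monomial m r h =>
    obtain ⟨c, hc⟩ := h
    refine ⟨c * D.ev, ?_⟩
    rw [pow_succ, ← mul_assoc, map_mul, Matrix.map_mul, hc, aeval_X, D.map_a, ← D.diag, fr_a,
      ← map_mul]
    exact congrArg _ (funext fun σ => by simp [smul_smul, mul_comm])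

theorem inN_nor {x : M8 ℤ_[l]} (h : D.InN x) : x.map (algebraMap _ _) ∈ D.fr.Nor := by
  obtain ⟨u, g, -, hg, rfl⟩ := h
  obtain ⟨c, hc⟩ := D.fr_aeval u
  rw [Matrix.map_mul, hc, fr_nm]
  refine mul_mem (D.fr.scal_nor c) (D.fr.nm_nor (g' := fun i => g⁻¹.map (D.s i)) fun i => ?_)
  rw [← Matrix.map_mul (f := D.s i), nonsing_inv_mul g hg, Matrix.map_one _ (map_zero _) (map_one _)]

theorem orb_mul : ∀ H ∈ D.Orb, ∀ x ∈ D.KK, H * x.1.map (↑) ∈ D.Orb := by
  rintro H ⟨h1, j, u, g, w, h2, h3, h4, h5⟩ x ⟨v, h, h6, h7, h8⟩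
  refine ⟨by
    have := h1.mul ((gs_one_iff.2 x.2).map PadicInt.Coe.ringHom)
    rwa [map_one, mul_one] at this, j, u * v, g * h,
    w * h.det, by rw [map_mul]; exact h2.mul h6, h3.mul h7, by rw [det_mul, h4, mul_assoc], ?_⟩
  rw [← smul_mul_assoc, h5, h8, map_mul, D.Nm_mul, mul_assoc, ← mul_assoc (aeval _ v),
    (D.Nm_comm' v g).eq, mul_assoc, ← mul_assoc (aeval _ u)]
  exact (Matrix.map_mul (f := PadicInt.Coe.ringHom)).symm

theorem Nm_smul (c : ℤ_[l]) (g : M2 D.R) : D.Nm (c • g) = c ^ k • D.Nm g := by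
  refine Matrix.map_injective (s2_inj l) ?_
  simp only [fr_nm, Matrix.map_smul' _ _ _ (map_mul _), map_pow, EW.Fr.nm, ← map_smul]
  congr 1
  funext σ
  rw [Pi.smul_apply, ← Fin.prod_const, ← kp_smul]
  congr 1
  funext j
  ext s t
  simp only [map_apply, Matrix.smul_apply, map_smul, algebraMap_smul]

theorem Nm_gs {g : M2 D.R} {c : ℤ_[l]} (h : g.det = algebraMap _ _ c) : GS (c ^ k) (D.Nm g) := by
  rw [gs_iff, D.adj, mul_assoc, ← D.Nm_mul, adjugate_mul, h, algebraMap_smul, Nm_smul, D.Nm_one,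
    mul_smul_comm, mul_one]

theorem exists_ray (u : M2 D.R) (hu : u.det = 1) {η : ℤ} (hη : η = 1 ∨ η = -1) (j : ℕ) :
    ∃ H : G.Sp gg ℚ_[l], H.1 ∈ D.Orb ∧ H.1.map (algebraMap _ _) =
      (D.fr.nm fun i => u.map (D.s i)) * D.fr.nm fun _ =>
        !![((l : PadicAlgCl l) ^ (η * j))⁻¹, 0; 0, (l : PadicAlgCl l) ^ (η * j)] := by
  have l0 : (l : ℚ_[l]) ≠ 0 := by exact_mod_cast hl.out.ne_zero
  have l1 : (l : PadicAlgCl l) ≠ 0 := by exact_mod_cast hl.out.ne_zero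
  obtain ⟨d, d1, d2⟩ : ∃ d : M2 D.R, d.det = (l : D.R) ^ (2 * j) ∧ ∀ i, d.map (D.s i) =
      (l : PadicAlgCl l) ^ j • !![((l : PadicAlgCl l) ^ (η * j))⁻¹, 0; 0,
        (l : PadicAlgCl l) ^ (η * j)] := by
    rcases hη with rfl | rfl
    · refine ⟨!![1, 0; 0, l ^ (2 * j)], by simp, fun i => ?_⟩
      ext s t
      fin_cases s <;> fin_cases t <;> simp [l1, two_mul, pow_add]
    · refine ⟨!![l ^ (2 * j), 0; 0, 1], by simp, fun i => ?_⟩
      ext s t
      fin_cases s <;> fin_cases t <;> simp [l1, two_mul, pow_add]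
  have g1 := (D.Nm_gs (g := u * d) (c := l ^ (2 * j)) (by simp [hu, d1])).map PadicInt.Coe.ringHom
  have g2 : GS 1 (((l : ℚ_[l]) ^ (k * j))⁻¹ • (D.Nm (u * d)).map PadicInt.Coe.ringHom) := by
    rw [gs_iff] at g1 ⊢
    rw [transpose_smul, smul_mul_assoc, smul_mul_assoc, mul_smul_comm, g1, smul_smul, smul_smul]
    congr 1
    simp only [map_pow, map_natCast]
    field_simp
    ring
  refine ⟨⟨_, gs_one_iff.1 g2⟩, ⟨g2, j, 1, u * d, 1, by simp, isUnit_one, by simp [hu, d1], ?_⟩, ?_⟩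
  · rw [smul_inv_smul₀ (pow_ne_zero _ l0), map_one, one_mul]
    rfl
  · rw [Matrix.map_smul' _ _ _ (map_mul _), map_inv₀, map_pow, map_natCast,
      inv_smul_eq_iff₀ (pow_ne_zero _ l1), ← mul_smul_comm]
    refine (D.fr_nm (u * d)).trans ?_
    simp only [Matrix.map_mul, EW.Fr.nm_mul, d2]
    congr 1
    simp only [EW.Fr.nm, ← map_smul, kp_smul fun _ => (l : PadicAlgCl l) ^ j]
    congr 1
    funext σ
    rw [Fin.prod_const, ← pow_mul, mul_comm j]
    rfl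

end Pool.Agent.MT.Blk
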