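import Pool.Agent.Lib.MP_d61fbb_ag.MW.S0
import Pool.Agent.Lib.MP_d61fbb_ag.MT.H0
import Pool.Agent.Lib.MP_d61fbb_ag.MT.A6

/-! The adjoint of an endomorphism acts on its eigenvalues by complex conjugation. -/

set_option autoImplicit false

noncomputable section

namespace Pool.Agent.MT

open Matrix Polynomial Sum

section
variable {g : ℕ} {τ : Matrix (Fin g) (Fin g) ℂ}

theorem end_inr {u : I2 g → ℂ} (h : zz τ u = 0) : u ∘ inr = -(τ *ᵥ (u ∘ inl)) :=
  eq_neg_of_add_eq_zero_right h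

theorem end_iso (hτ : Sieg τ) {u w : I2 g → ℂ} (h : zz τ u = 0) (h' : zz τ w = 0) :
    Ef u w = 0 := by
  rw [Ef, end_inr h, end_inr h', dotProduct_neg, neg_dotProduct, dotProduct_mulVec,
    ← mulVec_transpose, hτ.symm, sub_self]

theorem end_pos (hτ : Sieg τ) {u : I2 g → ℂ} (h : zz τ u = 0) (h0 : Ef u (star u) = 0) :
    u = 0 := by
  set x := u ∘ inl with hx
  have e1 : Ef u (star u) = star x ⬝ᵥ τ *ᵥ x - star (star x ⬝ᵥ τ *ᵥ x) := by
    rw [Ef, show star u ∘ inr = star (u ∘ inr) from rfl, show star u ∘ inl = star x from rfl,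
      end_inr h, ← hx, star_neg, dotProduct_neg, neg_dotProduct, dotProduct_comm (τ *ᵥ x),
      ← star_dotProduct_star, star_star, dotProduct_comm (star _) x]
    ring
  let p : Fin g → ℝ := fun i => (x i).re
  let q : Fin g → ℝ := fun i => (x i).im
  have e2 : x = rc p + Complex.I • rc q := funext fun i => by
    simp [p, q, rc, mul_comm Complex.I]
  have e3 : star x = rc p - Complex.I • rc q := funext fun i => by
    apply Complex.ext <;> simp [p, q, rc]
  have e4 : star x ⬝ᵥ τ *ᵥ x = rc p ⬝ᵥ τ *ᵥ rc p + rc q ⬝ᵥ τ *ᵥ rc q := by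
    have e5 : rc q ⬝ᵥ τ *ᵥ rc p = rc p ⬝ᵥ τ *ᵥ rc q := by
      rw [dotProduct_mulVec, ← mulVec_transpose, hτ.symm, dotProduct_comm]
    rw [e3]
    conv_lhs => rw [e2]
    simp only [mulVec_add, mulVec_smul, sub_dotProduct, dotProduct_add, dotProduct_smul,
      smul_dotProduct, smul_eq_mul, e5]
    linear_combination (-(rc q ⬝ᵥ τ *ᵥ rc q)) * Complex.I_mul_I
  have e6 : (rc p ⬝ᵥ τ *ᵥ rc p).im + (rc q ⬝ᵥ τ *ᵥ rc q).im = 0 := by
    have := congrArg Complex.im (e1.symm.trans h0)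
    rw [e4] at this
    simp only [Complex.sub_im, Complex.add_im, Complex.star_def, Complex.conj_im,
      Complex.zero_im] at this
    linarith
  have nn : ∀ y : Fin g → ℝ, 0 ≤ (rc y ⬝ᵥ τ *ᵥ rc y).im := fun y => by
    by_cases e : y = 0
    · simp [e, rc, dotProduct]
    · exact (hτ.pos y e).le
  have hp : p = 0 := by_contra fun e => by linarith [hτ.pos p e, nn q]
  have hq : q = 0 := by_contra fun e => by linarith [hτ.pos q e, nn p]
  have hx0 : x = 0 := funext fun i => Complex.ext (congrFun hp i) (congrFun hq i)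
  have hy0 := end_inr h
  rw [← hx, hx0, mulVec_zero, neg_zero] at hy0
  funext i
  rcases i with i | i
  · exact congrFun hx0 i
  · exact congrFun hy0 i

theorem end_uniq (hτ : Sieg τ) {u w : I2 g → ℂ} (h : zz τ u = 0) (h' : zz τ w = 0)
    (e : u + star w = 0) : u = 0 ∧ w = 0 := by
  have e1 : star u = -w := by rw [eq_neg_of_add_eq_zero_left e, star_neg, star_star]
  have e2 : u = 0 := end_pos hτ h (by rw [e1, ← neg_one_smul ℂ w, Ef_smul_right, end_iso hτ h h', mul_zero])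
  exact ⟨e2, by rw [← neg_eq_zero, ← e1, e2, star_zero]⟩

theorem end_dec (hτ : Sieg τ) (v : I2 g → ℂ) :
    ∃ u w, zz τ u = 0 ∧ zz τ w = 0 ∧ v = u + star w := by
  let M : Matrix (I2 g) (I2 g) ℂ := fromBlocks 1 1 (-τ) (-τ.map star)
  have key : ∀ y : I2 g → ℂ, M *ᵥ y = Sum.elim (y ∘ inl) (-(τ *ᵥ (y ∘ inl))) +
      star (Sum.elim (star (y ∘ inr)) (-(τ *ᵥ star (y ∘ inr)))) := fun y => by
    rw [fromBlocks_mulVec]
    funext i
    rcases i with i | i
    · simp
    · simp [neg_mulVec, mulVec, dotProduct]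
  have hz : ∀ x : Fin g → ℂ, zz τ (Sum.elim x (-(τ *ᵥ x))) = 0 := fun x => add_neg_cancel _
  have inj : Function.Injective (toLin' M) := (injective_iff_map_eq_zero _).2 fun y hy => by
    obtain ⟨h1, h2⟩ := end_uniq hτ (hz _) (hz _) ((key y).symm.trans hy)
    funext i
    rcases i with i | i
    · exact congrFun h1 (inl i)
    · exact star_eq_zero.1 (congrFun h2 (inl i))
  obtain ⟨y, hy⟩ := LinearMap.injective_iff_surjective.1 inj v
  exact ⟨_, _, hz _, hz _, hy.symm.trans (key y)⟩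

theorem end_aeval {R ι : Type} [CommRing R] [Algebra ℚ R] [Fintype ι] [DecidableEq ι]
    {A : Matrix ι ι R} {v : ι → R} {c : R} (h : A *ᵥ v = c • v) (p : ℚ[X]) :
    aeval A p *ᵥ v = aeval c p • v := by
  induction p using Polynomial.induction_on with
  | C a => rw [aeval_C, aeval_C, Algebra.algebraMap_eq_smul_one, smul_mulVec, one_mulVec,
      algebraMap_smul]
  | add p q hp hq => rw [map_add, map_add, add_mulVec, hp, hq, add_smul]
  | monomial n a ih =>
    rw [pow_succ, ← mul_assoc, map_mul _ _ X, map_mul _ _ X, aeval_X, aeval_X, ← mulVec_mulVec, h,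
      mulVec_smul, ih, smul_smul, mul_comm]

theorem end_adj {R : Type} [CommRing R] {x y : Matrix (I2 g) (I2 g) R}
    (h : xᵀ * J (Fin g) R = J (Fin g) R * y) (u v : I2 g → R) : Ef (x *ᵥ u) v = Ef u (y *ᵥ v) := by
  rw [Ef_eq, Ef_eq, mulVec_mulVec, ← h, ← mulVec_mulVec, dotProduct_mulVec u, vecMul_transpose]

theorem end_adj_map {R S : Type} [CommRing R] [CommRing S] (f : R →+* S)
    {x y : Matrix (I2 g) (I2 g) R} (h : xᵀ * J (Fin g) R = J (Fin g) R * y) :
    (x.map f)ᵀ * J (Fin g) S = J (Fin g) S * y.map f := by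
  have e := congrArg (fun z => z.map f) h
  simp only [Matrix.map_mul, transpose_map, map_J] at e
  exact e

theorem end_adj_aeval {x y : Matrix (I2 g) (I2 g) ℚ}
    (h : xᵀ * J (Fin g) ℚ = J (Fin g) ℚ * y) (p : ℚ[X]) :
    (aeval x p)ᵀ * J (Fin g) ℚ = J (Fin g) ℚ * aeval y p := by
  induction p using Polynomial.induction_on with
  | C a => simp [Algebra.algebraMap_eq_smul_one]
  | add p q hp hq => rw [map_add, map_add, transpose_add, add_mul, mul_add, hp, hq]
  | monomial n a ih =>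
    rw [pow_succ, ← mul_assoc, map_mul (aeval x) _ X, aeval_X, transpose_mul, mul_assoc xᵀ, ih,
      ← mul_assoc, h, mul_assoc, mul_comm _ X, map_mul (aeval y) X, aeval_X]

/-- the adjoint acts on the eigenvalues by complex conjugation -/
theorem end_conj (hτ : Sieg τ) {a : Matrix (I2 g) (I2 g) ℚ} 
    (ha : ∀ u, zz τ u = 0 → zz τ (a.map (↑) *ᵥ u) = 0) {b : ℚ[X]}
    (hb : aᵀ * J (Fin g) ℚ = J (Fin g) ℚ * aeval a b) {c : ℂ} (hc : aeval c a.charpoly = 0) :
    aeval c b = (starRingEnd ℂ) c := by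
  set A : Matrix (I2 g) (I2 g) ℂ := a.map (↑) with hA
  have hst : ∀ v, A *ᵥ star v = star (A *ᵥ v) := fun v => funext fun i => by
    simp [hA, mulVec, dotProduct]
  have hB : (aeval a b).map (algebraMap ℚ ℂ) = aeval A b :=
    (aeval_algHom_apply (Algebra.ofId ℚ ℂ).mapMatrix a b).symm
  have key : ∀ (c : ℂ) (u : I2 g → ℂ), zz τ u = 0 → u ≠ 0 → A *ᵥ u = c • u →
      aeval ((starRingEnd ℂ) c) b = c := fun c u h1 h2 h3 => by
    have h4 := end_adj (end_adj_map (algebraMap ℚ ℂ) hb) u (star u)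
    rw [hB, end_aeval (c := (starRingEnd ℂ) c) (by rw [hst, h3, star_smul]; rfl), Ef_smul_right,
      show a.map (algebraMap ℚ ℂ) = A from rfl, h3, Ef_smul_left] at h4
    exact (mul_right_cancel₀ (fun e => h2 (end_pos hτ h1 e)) h4).symm
  obtain ⟨v, v0, hv⟩ : ∃ v ≠ 0, (scalar (I2 g) c - A) *ᵥ v = 0 := by
    rw [exists_mulVec_eq_zero_iff, ← eval_charpoly, show A = a.map (algebraMap ℚ ℂ) from rfl,
      charpoly_map, eval_map_algebraMap, hc]
  have hv' : A *ᵥ v = c • v := by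
    rw [sub_mulVec, sub_eq_zero] at hv
    rw [← hv]; funext i; simp [mulVec_diagonal]
  obtain ⟨u, w, h1, h2, rfl⟩ := end_dec hτ v
  have hz : ∀ (c : ℂ) (u : I2 g → ℂ), zz τ u = 0 → zz τ (A *ᵥ u - c • u) = 0 := fun c u h => by
    have e : zz τ (A *ᵥ u - c • u) = zz τ (A *ᵥ u) - c • zz τ u := by
      rw [zz, zz, zz, show (A *ᵥ u - c • u) ∘ inl = (A *ᵥ u) ∘ inl - c • (u ∘ inl) from rfl,
        show (A *ᵥ u - c • u) ∘ inr = (A *ᵥ u) ∘ inr - c • (u ∘ inr) from rfl, mulVec_sub,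
        mulVec_smul, smul_add]
      abel
    rw [e, ha u h, h, smul_zero, sub_zero]
  obtain ⟨h3, h4⟩ := end_uniq hτ (hz c u h1) (hz (star c) w h2) (by
    rw [star_sub, ← hst, star_smul, star_star, sub_add_sub_comm, ← mulVec_add, hv', ← smul_add,
      sub_self])
  by_cases e : u = 0
  · have e' : w ≠ 0 := fun e' => v0 (by rw [e, e', star_zero, add_zero])
    have h5 := key _ w h2 e' (sub_eq_zero.1 h4)
    rw [show (starRingEnd ℂ) (star c) = c from star_star c] at h5
    exact h5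
  · have h5 := congrArg (starRingEnd ℂ) (key c u h1 e (sub_eq_zero.1 h3))
    rw [← h5]
    have h6 := aeval_algHom_apply (starRingEnd ℂ).toRatAlgHom ((starRingEnd ℂ) c) b
    rw [RingHom.toRatAlgHom_apply, RingHom.toRatAlgHom_apply, Complex.conj_conj] at h6
    exact h6

theorem end_hom {ι : Type} [Fintype ι] [DecidableEq ι] {τ : Matrix ι ι ℂ}
    {a : Matrix (ι ⊕ ι) (ι ⊕ ι) ℚ} (ha : ∀ u, zz τ u = 0 → zz τ (a.map (↑) *ᵥ u) = 0) (p : ℚ[X]) :
    ∀ u, zz τ u = 0 → zz τ ((aeval a p).map (↑) *ᵥ u) = 0 := by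
  have lin : ∀ (c : ℂ) (x y : ι ⊕ ι → ℂ), zz τ (c • x + y) = c • zz τ x + zz τ y := fun c x y => by
    rw [zz, zz, zz, show (c • x + y) ∘ inl = c • (x ∘ inl) + y ∘ inl from rfl,
      show (c • x + y) ∘ inr = c • (x ∘ inr) + y ∘ inr from rfl, mulVec_add, mulVec_smul, smul_add]
    abel
  induction p using Polynomial.induction_on with
  | C c =>
    intro u hu
    have e : (Polynomial.aeval a (C c)).map ((↑) : ℚ → ℂ) *ᵥ u = (c : ℂ) • u + u - u := by
      funext i
      simp [Matrix.algebraMap_eq_diagonal, diagonal_map, mulVec_diagonal]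
    have e0 := lin (c - 1) u u
    rw [hu, smul_zero, add_zero, sub_smul, one_smul, sub_add_cancel] at e0
    rw [e, add_sub_cancel_right, e0]
  | add p q hp hq =>
    intro u hu
    have e0 := lin 1 ((Polynomial.aeval a p).map (↑) *ᵥ u) ((Polynomial.aeval a q).map (↑) *ᵥ u)
    rw [hp u hu, hq u hu, one_smul, one_smul, add_zero] at e0
    rw [map_add, Matrix.map_add _ Rat.cast_add, add_mulVec, e0]
  | monomial n c ih =>
    intro u hu
    rw [pow_succ, ← mul_assoc, map_mul _ _ X, aeval_X]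
    have e := Matrix.map_mul (L := Polynomial.aeval a (C c * X ^ n)) (M := a) (f := Rat.castHom ℂ)
    simp only [Rat.coe_castHom] at e
    rw [e, ← mulVec_mulVec]
    exact ih _ (ha u hu)

end

end Pool.Agent.MT
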