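import Pool.Agent.Lib.MP_d61fbb_ag.MW.SQ1
import Pool.Agent.Lib.MP_d61fbb_ag.MW.Bal0

/-! Sums of squares and balancing units for the elements fixed by complex conjugation. -/

open NumberField Module

namespace Pool.Agent.MT.MW

variable {F : Type*} [Field F] [NumberField F]

/-- `cj` is complex conjugation in every embedding -/
def IsCj (cj : F ≃+* F) : Prop := ∀ (φ : F →+* ℂ) (x : F), φ (cj x) = (starRingEnd ℂ) (φ x)

theorem IsCj.mem_iff {cj : F ≃+* F} (h : IsCj cj) (x : F) :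
    x ∈ maximalRealSubfield F ↔ cj x = x := by
  rw [mem_maximalRealSubfield_iff]
  refine ⟨fun hx => ?_, fun hx φ => ?_⟩
  · let φ : F →+* ℂ := (IsAlgClosed.lift (R := ℚ)).toRingHom
    exact φ.injective ((h φ x).trans (hx φ))
  · exact (h φ x).symm.trans (congrArg φ hx)

theorem IsCj.cj_cj {cj : F ≃+* F} (h : IsCj cj) (x : F) : cj (cj x) = x := by
  let φ : F →+* ℂ := (IsAlgClosed.lift (R := ℚ)).toRingHom
  exact φ.injective (by rw [h, h, Complex.conj_conj])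

theorem IsCj.im_eq {cj : F ≃+* F} (h : IsCj cj) {x : F} (hx : cj x = x) (φ : F →+* ℂ) :
    φ x = ((φ x).re : ℂ) :=
  (Complex.conj_eq_iff_re.1 ((h φ x).symm.trans (congrArg φ hx))).symm

theorem exists_ext (E : Subfield F) (σ : E →+* ℂ) : ∃ φ : F →+* ℂ, ∀ x : E, φ x = σ x :=
  ⟨ComplexEmbedding.lift F σ, fun x => ComplexEmbedding.lift_algebraMap_apply F σ x⟩

theorem IsOrd.comap {O : Subring F} (h : IsOrd O) (E : Subfield F) :
    IsOrd (O.comap E.subtype) where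
  int x hx := (isIntegral_algebraMap_iff (algebraMap E F).injective).1 (h.int _ hx)
  full x := by
    obtain ⟨N, hN, hx⟩ := h.full x
    exact ⟨N, hN, by simpa using hx⟩

theorem finrank_sub_le (E : Subfield F) : finrank ℚ E ≤ finrank ℚ F :=
  LinearMap.finrank_le_finrank_of_injective (f := (IsScalarTower.toAlgHom ℚ E F).toLinearMap)
    (algebraMap E F).injective

/-- SQ for the real elements of an order -/
theorem IsOrd.sq_fix {O : Subring F} (h : IsOrd O) {cj : F ≃+* F} (hc : IsCj cj) {N : ℕ}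
    (hN : 2 * finrank ℚ F + 5 ≤ N) (C : ℝ) : ∃ K : ℝ, ∀ μ ∈ O, cj μ = μ →
      (∀ φ : F →+* ℂ, K ≤ (φ μ).re) → (∀ φ ψ : F →+* ℂ, (φ μ).re ≤ C * (ψ μ).re) →
      ∃ b : Fin N → F, (∀ i, b i ∈ O ∧ cj (b i) = b i) ∧ 4 * μ = ∑ i, b i ^ 2 := by
  have h0 := finrank_sub_le (maximalRealSubfield F)
  obtain ⟨K, hK⟩ := (h.comap (maximalRealSubfield F)).sq (N := N) (by omega) C
  refine ⟨K, fun μ hμ h1 h2 h3 => ?_⟩
  have key : ∀ σ : maximalRealSubfield F →+* ℝ, ∃ φ : F →+* ℂ,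
      (φ μ).re = σ ⟨μ, (hc.mem_iff μ).2 h1⟩ := fun σ => by
    obtain ⟨φ, hφ⟩ := exists_ext _ (Complex.ofRealHom.comp σ)
    exact ⟨φ, congrArg Complex.re (hφ ⟨μ, (hc.mem_iff μ).2 h1⟩)⟩
  choose φ hφ using key
  obtain ⟨b, hb, e⟩ := hK ⟨μ, (hc.mem_iff μ).2 h1⟩ hμ (fun σ => hφ σ ▸ h2 _)
    fun σ τ => hφ σ ▸ hφ τ ▸ h3 _ _
  refine ⟨fun i => b i, fun i => ⟨hb i, (hc.mem_iff _).1 (b i).2⟩, ?_⟩
  have h5 := congrArg (maximalRealSubfield F).subtype e
  rw [map_mul, map_ofNat, map_sum] at h5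
  simpa only [map_pow, Subfield.subtype_apply] using h5

/-- balancing by real units of an order -/
theorem IsOrd.bal_fix {O : Subring F} (h : IsOrd O) {cj : F ≃+* F} (hc : IsCj cj) {m : ℕ}
    (hm : m ≠ 0) : ∃ C : ℝ, 1 ≤ C ∧ ∀ ν : F, ν ≠ 0 → cj ν = ν → ∃ x x' : F, x ∈ O ∧ x' ∈ O ∧
      cj x = x ∧ cj x' = x' ∧ (1 + m * x) * (1 + m * x') = 1 ∧
      ∀ φ ψ : F →+* ℂ, ‖φ (ν * (1 + m * x) ^ 2)‖ ≤ C * ‖ψ (ν * (1 + m * x) ^ 2)‖ := by
  obtain ⟨N, hN, hO⟩ := h.exists_mul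
  obtain ⟨C, hC, H⟩ := bal_emb (maximalRealSubfield F) (mul_ne_zero hm hN)
  refine ⟨C, hC, fun ν h0 h1 => ?_⟩
  obtain ⟨ε, ⟨y, hy⟩, ⟨y', hy'⟩, h3⟩ := H ⟨ν, (hc.mem_iff ν).2 h1⟩
    fun e => h0 (congrArg Subtype.val e)
  let f : 𝓞 (maximalRealSubfield F) →+* F := (maximalRealSubfield F).subtype.comp (algebraMap _ _)
  have fi : ∀ z, IsIntegral ℤ (f z) := fun z =>
    (isIntegral_algebraMap_iff (algebraMap (maximalRealSubfield F) F).injective).2 z.isIntegral_coe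
  have ff : ∀ z, cj (N * f z) = N * f z := fun z => by
    rw [map_mul, map_natCast]
    exact congrArg _ ((hc.mem_iff _).1 (z : maximalRealSubfield F).2)
  have e1 : 1 + m * (N * f y) = f ε := by
    rw [sub_eq_iff_eq_add.1 hy]; simp only [map_add, map_mul, map_natCast, map_one, Nat.cast_mul]
    ring
  have e2 : 1 + m * (N * f y') = f (ε⁻¹ : (𝓞 (maximalRealSubfield F))ˣ) := by
    rw [sub_eq_iff_eq_add.1 hy']; simp only [map_add, map_mul, map_natCast, map_one, Nat.cast_mul]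
    ring
  refine ⟨N * f y, N * f y', hO _ (fi _), hO _ (fi _), ff _, ff _, ?_, fun φ ψ => ?_⟩
  · rw [e1, e2, ← map_mul, Units.mul_inv, map_one]
  · rw [e1]
    simp only [map_mul, map_pow, norm_mul, norm_pow]
    exact h3 (φ.comp (maximalRealSubfield F).subtype) (ψ.comp (maximalRealSubfield F).subtype)

end Pool.Agent.MT.MW
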