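import Pool.Agent.Lib.MP_d61fbb_ag.MW.S0
import Pool.Agent.Lib.MP_d61fbb_ag.MW.SQ1c
import Pool.Agent.Lib.MP_d61fbb_ag.MT.H0
import Pool.Agent.Lib.MP_d61fbb_ag.MT.A6
import Pool.Agent.Lib.MP_d61fbb_ag.MW.End0

/-! The field generated by an endomorphism, with the Rosati involution. -/

set_option autoImplicit false

noncomputable section

namespace Pool.Agent.MT

open Matrix Polynomial Sum

variable {g : ℕ}

/-- The number field generated by the endomorphism `a`, with the adjoint as an involution. -/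
structure EndF (τ : Matrix (Fin g) (Fin g) ℂ) (a : Matrix (I2 g) (I2 g) ℚ) where
  F : Type
  [fld : Field F]
  [nf : NumberField F]
  j : F →ₐ[ℚ] Matrix (I2 g) (I2 g) ℚ
  al : F
  j_al : j al = a
  gen : ∀ x : F, ∃ u : ℚ[X], x = aeval al u
  cj : F ≃+* F
  adj : ∀ x, (j x)ᵀ * J (Fin g) ℚ = J (Fin g) ℚ * j (cj x)
  pos : MW.IsCj cj
  hom : ∀ x u, zz τ u = 0 → zz τ ((j x).map (↑) *ᵥ u) = 0
  deg : Module.finrank ℚ F ≤ 2 * g
  j_inj : Function.Injective j

attribute [instance] EndF.fld EndF.nf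

variable {τ : Matrix (Fin g) (Fin g) ℂ} {a : Matrix (I2 g) (I2 g) ℚ}

theorem exists_endF [NeZero g] (hτ : Sieg τ) (hom : ∀ u, zz τ u = 0 → zz τ (a.map (↑) *ᵥ u) = 0)
    (irr : Irreducible (minpoly ℚ a))
    (adj : ∃ b : ℚ[X], aᵀ * J (Fin g) ℚ = J (Fin g) ℚ * aeval a b) : Nonempty (EndF τ a) := by
  obtain ⟨b, hb⟩ := adj
  have : Fact (Irreducible (minpoly ℚ a)) := ⟨irr⟩
  let j : AdjoinRoot (minpoly ℚ a) →ₐ[ℚ] Matrix (I2 g) (I2 g) ℚ := Ideal.Quotient.liftₐ _ (aeval a) fun p hp => by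
    obtain ⟨q, rfl⟩ := Ideal.mem_span_singleton.1 hp
    rw [map_mul, minpoly.aeval, zero_mul]
  have hj : ∀ p, j (AdjoinRoot.mk _ p) = aeval a p := fun p => rfl
  have hJ : IsUnit (J (Fin g) ℚ) := (isUnit_iff_isUnit_det _).2 (isUnit_det_J _ _)
  have h0 : aeval (AdjoinRoot.mk (minpoly ℚ a) b) (minpoly ℚ a) = 0 := by
    apply j.toRingHom.injective
    have e := end_adj_aeval hb (minpoly ℚ a)
    rw [minpoly.aeval, transpose_zero, zero_mul] at e
    refine ((aeval_algHom_apply j _ _).symm.trans ?_).trans (map_zero _).symm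
    rw [hj]
    exact hJ.mul_right_eq_zero.1 e.symm
  let c : AdjoinRoot (minpoly ℚ a) →ₐ[ℚ] AdjoinRoot (minpoly ℚ a) :=
    AdjoinRoot.liftAlgHom _ (Algebra.ofId _ _) _ h0
  have hc : c (AdjoinRoot.root _) = AdjoinRoot.mk _ b := AdjoinRoot.liftAlgHom_root ..
  have gen : ∀ x : AdjoinRoot (minpoly ℚ a), ∃ p : ℚ[X], x = aeval (AdjoinRoot.root _) p :=
    fun x => by
      obtain ⟨p, rfl⟩ := AdjoinRoot.mk_surjective x
      exact ⟨p, (AdjoinRoot.aeval_eq p).symm⟩
  refine ⟨⟨AdjoinRoot (minpoly ℚ a), j, AdjoinRoot.root _, (hj X).trans (aeval_X a), gen,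
    RingEquiv.ofBijective c c.bijective, fun x => ?_, fun φ x => ?_, fun x => ?_, ?_, j.toRingHom.injective⟩⟩
  · obtain ⟨p, rfl⟩ := gen x
    rw [RingEquiv.ofBijective_apply, ← aeval_algHom_apply c, hc, ← aeval_algHom_apply j _ p,
      ← aeval_algHom_apply j _ p, hj, show j (AdjoinRoot.root _) = a from (hj X).trans (aeval_X a)]
    exact end_adj_aeval hb p
  · obtain ⟨p, rfl⟩ := gen x
    have e : ∀ y (p : ℚ[X]), φ (aeval y p) = aeval (φ y) p := fun y p =>
      (aeval_algHom_apply φ.toRatAlgHom y p).symm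
    have h1 : aeval (φ (AdjoinRoot.root _)) a.charpoly = 0 := by
      obtain ⟨q, hq⟩ := minpoly_dvd_charpoly a
      rw [hq, map_mul, ← e, show aeval (AdjoinRoot.root (minpoly ℚ a)) (minpoly ℚ a) = 0 from
        (AdjoinRoot.aeval_eq _).trans AdjoinRoot.mk_self, map_zero, zero_mul]
    rw [RingEquiv.ofBijective_apply, ← aeval_algHom_apply c, hc, e, e, 
      show φ (AdjoinRoot.mk _ b) = _ from ((congrArg φ (AdjoinRoot.aeval_eq b).symm).trans
        (e _ b)).trans (end_conj hτ hom hb h1)]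
    exact aeval_algHom_apply (starRingEnd ℂ).toRatAlgHom _ p
  · obtain ⟨p, rfl⟩ := AdjoinRoot.mk_surjective x
    exact end_hom hom p
  · rw [show 2 * g = Fintype.card (I2 g) by simp [two_mul], ← charpoly_natDegree_eq_dim a]
    exact ((AdjoinRoot.powerBasis irr.ne_zero).finrank.trans_le
      (natDegree_le_of_dvd (minpoly_dvd_charpoly a) a.charpoly_monic.ne_zero))

namespace EndF

variable (E : EndF τ a)

theorem j_aeval (u : ℚ[X]) : E.j (aeval E.al u) = aeval a u := by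
  rw [← aeval_algHom_apply, E.j_al]

/-- the elements that act by integer matrices -/
def O : Subring E.F where
  carrier := {x | ∃ c : Matrix (I2 g) (I2 g) ℤ, E.j x = c.map (↑)}
  mul_mem' := by
    rintro x y ⟨c, hc⟩ ⟨d, hd⟩
    exact ⟨c * d, by rw [map_mul, hc, hd]; exact (map_mul (Int.castRingHom ℚ).mapMatrix c d).symm⟩
  one_mem' := ⟨1, by rw [map_one]; exact (map_one (Int.castRingHom ℚ).mapMatrix).symm⟩
  add_mem' := by
    rintro x y ⟨c, hc⟩ ⟨d, hd⟩
    exact ⟨c + d, by rw [map_add, hc, hd]; exact (map_add (Int.castRingHom ℚ).mapMatrix c d).symm⟩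
  zero_mem' := ⟨0, by rw [map_zero]; exact (map_zero (Int.castRingHom ℚ).mapMatrix).symm⟩
  neg_mem' := by
    rintro x ⟨c, hc⟩
    exact ⟨-c, by rw [map_neg, hc]; exact (map_neg (Int.castRingHom ℚ).mapMatrix c).symm⟩

theorem mem_O {x : E.F} : x ∈ E.O ↔ ∃ c : Matrix (I2 g) (I2 g) ℤ, E.j x = c.map (↑) := Iff.rfl

/-- the integer matrix of an element of the order -/
def jz (x : E.F) : Matrix (I2 g) (I2 g) ℤ := (E.j x).map Rat.num

theorem jz_cast {x : E.F} (h : x ∈ E.O) : (E.jz x).map (↑) = E.j x := by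
  obtain ⟨c, hc⟩ := h
  ext i k
  simp [jz, hc]

theorem cj_mem {x : E.F} (h : x ∈ E.O) : E.cj x ∈ E.O := by
  obtain ⟨c, hc⟩ := h
  refine ⟨-(J (Fin g) ℤ * cᵀ * J (Fin g) ℤ), ?_⟩
  have e : E.j (E.cj x) = -(J (Fin g) ℚ * (E.j x)ᵀ * J (Fin g) ℚ) := by
    rw [Matrix.mul_assoc, E.adj, ← Matrix.mul_assoc, J_squared]; simp
  have hJ : (Int.castRingHom ℚ).mapMatrix (J (Fin g) ℤ) = J (Fin g) ℚ := by
    ext (i | i) (k | k) <;> simp [J, one_apply]
  rw [e, hc, ← hJ]
  exact ((map_neg (Int.castRingHom ℚ).mapMatrix _).trans (by rw [map_mul, map_mul]; rfl)).symm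

theorem isOrd : MW.IsOrd E.O where
  int x := by
    rintro ⟨c, hc⟩
    have h1 : IsIntegral ℤ c := Algebra.IsIntegral.isIntegral c
    have h2 := h1.map (Int.castRingHom ℚ).mapMatrix.toIntAlgHom
    exact (isIntegral_algHom_iff E.j.toRingHom.toIntAlgHom E.j_inj).1
      ((congrArg (IsIntegral ℤ) hc).mpr h2)
  full x := by
    refine ⟨∏ i, ∏ k, (E.j x i k).den, Finset.prod_ne_zero_iff.2 fun i _ =>
      Finset.prod_ne_zero_iff.2 fun k _ => Rat.den_ne_zero _, ?_⟩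
    have h : ∀ i k, ∃ n : ℤ, ((∏ i, ∏ k, (E.j x i k).den : ℕ) : ℚ) * E.j x i k = n := fun i k => by
      obtain ⟨c, hc⟩ := (Finset.dvd_prod_of_mem (fun k => (E.j x i k).den) (Finset.mem_univ k)).trans
        (Finset.dvd_prod_of_mem (fun i => ∏ k, (E.j x i k).den) (Finset.mem_univ i))
      refine ⟨c * (E.j x i k).num, ?_⟩
      rw [hc, Nat.cast_mul, mul_right_comm, Rat.den_mul_eq_num, Int.cast_mul, Int.cast_natCast,
        mul_comm]
    choose n hn using h
    refine ⟨of n, ?_⟩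
    rw [map_mul, map_natCast, ← nsmul_eq_mul]
    ext i k
    rw [Matrix.smul_apply, nsmul_eq_mul, hn]; rfl

/-- the adjoint over any algebra -/
theorem adj_Ef {A : Type} [CommRing A] [Algebra ℚ A] (x : E.F) (u v : I2 g → A) :
    Ef ((E.j x).map (algebraMap ℚ A) *ᵥ u) v = Ef u ((E.j (E.cj x)).map (algebraMap ℚ A) *ᵥ v) := by
  have hJ : (J (Fin g) ℚ).map (algebraMap ℚ A) = J (Fin g) A := by
    ext (i | i) (k | k) <;> simp [J, one_apply, apply_ite (algebraMap ℚ A)]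
  have e := congrArg (fun X : Matrix (I2 g) (I2 g) ℚ => X.map (algebraMap ℚ A)) (E.adj x)
  simp only [Matrix.map_mul, hJ, transpose_map] at e
  rw [Ef_eq, Ef_eq, mulVec_mulVec, ← e, ← mulVec_mulVec, dotProduct_mulVec u, vecMul_transpose]

theorem adj_Efq (x : E.F) (u v : I2 g → ℚ) : Ef (E.j x *ᵥ u) v = Ef u (E.j (E.cj x) *ᵥ v) := by
  simpa using E.adj_Ef x u v

/-- what commutes with `a` commutes with the field -/
theorem comm {A : Type} [CommRing A] [Algebra ℚ A] {X : Matrix (I2 g) (I2 g) A}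
    (h : Commute (a.map (algebraMap ℚ A)) X) (x : E.F) :
    Commute ((E.j x).map (algebraMap ℚ A)) X := by
  obtain ⟨u, rfl⟩ := E.gen x
  rw [E.j_aeval]
  have e : (aeval a u).map (algebraMap ℚ A) = aeval (a.map (algebraMap ℚ A)) u :=
    (aeval_algHom_apply (Algebra.ofId ℚ A).mapMatrix a u).symm
  rw [e, aeval_eq_sum_range]
  exact Commute.sum_left _ _ _ fun i _ => (h.pow_left i).smul_left _

end EndF

end Pool.Agent.MT
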