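import Pool.Agent.Lib.MP_d61fbb_ag.MW.Pw
import Pool.Agent.Lib.MP_d61fbb_ag.MT.H3
import Pool.Agent.Lib.MP_d61fbb_ag.MT.A6

/-! Theta vectors of adelic symplectic frames and their invariance under endomorphisms. -/

set_option autoImplicit false

noncomputable section

namespace Pool.Agent.MT

open Matrix Sum

variable {g : ℕ} {τ : Matrix (Fin g) (Fin g) ℂ}

theorem inv_lam {k : Matrix (I2 g) (I2 g) AF} (hk : ∀ i j, k i j ∈ Zh) {t : VV (Fin g)}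
    (ht : t ∈ Lam (I2 g)) : k *ᵥ t ∈ Lam (I2 g) :=
  mem_Lam.2 fun i => Zh.sum_mem fun j _ => Zh.mul_mem (hk i j) (mem_Lam.1 ht j)

theorem chi0_two {t w : VV (Fin g)} (ht : t ∈ Lam (I2 g)) (hw : w ∈ Lam (I2 g)) :
    chi0 (t + 2 • w) = chi0 t := by
  have e : Qf (t + 2 • w) = Qf t + 2 * (2 * Qf w + Ef t w + (t ∘ inr) ⬝ᵥ (w ∘ inl) * 2) := by
    simp only [two_smul, Qf, Ef, Pi.add_comp, add_dotProduct, dotProduct_add,
      dotProduct_comm (w ∘ inl)]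
    ring
  rw [chi0, e, smul_add, half_two, AddChar.map_add_eq_mul, (psi_eq_one_iff (x := _ + _ + _)).2, mul_one,
    chi0]
  exact Zh.add_mem (Zh.add_mem (Zh.mul_mem (ofNat_mem Zh 2) (Qf_mem_Zh hw))
    (Ef_mem ht hw)) (Zh.mul_mem (lam_dot (fun _ => mem_Lam.1 ht _) fun _ => mem_Lam.1 hw _)
      (ofNat_mem Zh 2))

/-- pull back along a similitude that is complex linear -/
theorem HH_end {m r : ℚ} {γ : Matrix (I2 g) (I2 g) ℚ} (hγ : GS m γ)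
    (hom : ∀ u, zz τ u = 0 → zz τ (γ.map (↑) *ᵥ u) = 0) {f : VV (Fin g) → ℂ} (hf : f ∈ HH τ r) :
    (fun x => f (γ.map qa *ᵥ x)) ∈ HH τ (r * m) :=
  HH_pull hf γ (fun x y => by rw [hγ, mul_assoc]) hom

theorem UU_pull {m r : ℚ} {γ : Matrix (I2 g) (I2 g) ℚ} (hγ : GS m γ) (y : VV (Fin g))
    (f : VV (Fin g) → ℂ) :
    UU (r * m) y (fun x => f (γ.map qa *ᵥ x)) = fun x => UU r (γ.map qa *ᵥ y) f (γ.map qa *ᵥ x) := by
  funext x
  rw [UU_apply, UU_apply, mulVec_add, eps, eps]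
  congr 2
  exact (Ef_pull γ (fun x y => by rw [hγ]; ring) y x).symm

/-- theta vectors of the frame `h` -/
structure TV (τ : Matrix (Fin g) (Fin g) ℂ) (h : Matrix (I2 g) (I2 g) AF) (F : VV (Fin g) → ℂ) :
    Prop where
  mem : F ∈ HH τ 1
  eig : ∀ t ∈ Lam (I2 g), UU 1 (h *ᵥ t) F = chi0 t • F

variable {h h' k : Matrix (I2 g) (I2 g) AF} {F F' : VV (Fin g) → ℂ}

theorem GS.isUnit {R : Type} [CommRing R] {h : Matrix (I2 g) (I2 g) R} (hs : GS 1 h) : IsUnit h :=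
  (isUnit_iff_isUnit_det h).2 (SymplecticGroup.symplectic_det (gs_one_iff.1 hs))

/-- the frame of a symplectic matrix -/
def frm (hs : GS 1 h) : Frame 1 (Fin g) :=
  ⟨h.toLinearEquiv' hs.isUnit.invertible, 1, fun x y => by
    rw [one_smul]; exact hs x y⟩

theorem frm_eig (hs : GS 1 h) :
    Eig 1 (frm hs).L (frm hs).chi F ↔ ∀ t ∈ Lam (I2 g), UU 1 (h *ᵥ t) F = chi0 t • F := by
  have h4 : ∀ t, (frm hs).chi ((frm hs).γ t) = chi0 t := fun t => by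
    rw [Frame.chi, (frm hs).γ.symm_apply_apply]
    exact congrArg (fun a => psi ((1 / 2 : ℚ) • a)) (one_mul _)
  refine ⟨fun e t ht => (e _ ((frm hs).map_mem_L.2 ht)).trans (by rw [h4]), fun e m hm => ?_⟩
  obtain ⟨t, rfl⟩ := (frm hs).γ.surjective m
  rw [h4]
  exact e t ((frm hs).map_mem_L.1 hm)

theorem exists_TV (hτ : Sieg τ) (hs : GS 1 h) : ∃ F, TV τ h F ∧ F ≠ 0 := by
  obtain ⟨F, hF⟩ := (frm hs).exists_th (siegI_iff.2 hτ) one_pos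
  exact ⟨F, ⟨hF.mem, (frm_eig hs).1 hF.eig⟩, hF.ne⟩

theorem TV.uniq (hτ : Sieg τ) (hs : GS 1 h) (h1 : TV τ h F) (h0 : F ≠ 0) (h2 : TV τ h F') :
    ∃ c : ℂ, F' = c • F :=
  Frame.IsTh.uniq (φ := frm hs) (siegI_iff.2 hτ) one_pos ⟨h1.mem, h0, (frm_eig hs).2 h1.eig⟩ h2.mem
    ((frm_eig hs).2 h2.eig)

theorem TV.smul (h1 : TV τ h F) (c : ℂ) : TV τ h (c • F) :=
  ⟨Submodule.smul_mem _ c h1.mem, fun t ht => by rw [map_smul, h1.eig t ht, smul_comm]⟩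

theorem tv_theta (hτ : Sieg τ) : TV τ 1 (Theta τ) :=
  ⟨Theta_mem hτ, fun t ht => by rw [one_mulVec]; exact Theta_eig τ t ht⟩

/-- a frame may be changed by a matrix that is one modulo two -/
theorem TV.right (h1 : TV τ h F) (hk : ∀ t ∈ Lam (I2 g), ∃ s ∈ Lam (I2 g), k *ᵥ t = t + 2 • s) :
    TV τ (h * k) F :=
  ⟨h1.mem, fun t ht => by
    obtain ⟨s, hs, e⟩ := hk t ht
    rw [← mulVec_mulVec, e, h1.eig _ (add_mem ht (nsmul_mem hs 2)), chi0_two ht hs]⟩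

theorem cg_two {s : Matrix (I2 g) (I2 g) AF} (hs : ∀ i j, s i j ∈ Zh) :
    ∀ t ∈ Lam (I2 g), ∃ u ∈ Lam (I2 g), (1 + 2 • s) *ᵥ t = t + 2 • u := fun t ht =>
  ⟨_, inv_lam hs ht, by rw [add_mulVec, one_mulVec, smul_mulVec]⟩

/-- pull back along a symplectic endomorphism -/
theorem TV.pull {O : Matrix (I2 g) (I2 g) ℚ} (hO : GS 1 O)
    (hom : ∀ u, zz τ u = 0 → zz τ (O.map (↑) *ᵥ u) = 0) (h1 : TV τ (O.map qa * h) F) :
    TV τ h fun x => F (O.map qa *ᵥ x) :=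
  ⟨by simpa using HH_end hO hom h1.mem, fun t ht => by
    have e := UU_pull (r := 1) hO (h *ᵥ t) F
    rw [mul_one, mulVec_mulVec, h1.eig t ht] at e
    exact e⟩

theorem pull_ne {O : Matrix (I2 g) (I2 g) AF} (hO : IsUnit O) (h0 : F ≠ 0) :
    (fun x => F (O *ᵥ x)) ≠ 0 := fun e => h0 (funext fun x => by
  obtain ⟨y, rfl⟩ := mulVec_surjective_iff_isUnit.2 hO x
  exact congrFun e y)

/-- INV: theta vectors of frames that differ by a symplectic endomorphism on the left and by a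
matrix that is one modulo two on the right -/
theorem TV.inv (hτ : Sieg τ) {O : Matrix (I2 g) (I2 g) ℚ} (hO : GS 1 O)
    (hom : ∀ u, zz τ u = 0 → zz τ (O.map (↑) *ᵥ u) = 0) (hs : GS 1 h') (e : O.map qa * h' = h * k)
    (hk : ∀ t ∈ Lam (I2 g), ∃ s ∈ Lam (I2 g), k *ᵥ t = t + 2 • s) (h1 : TV τ h F) (h0 : F ≠ 0)
    (h2 : TV τ h' F') : ∃ c : ℂ, ∀ x, F' x = c * F (O.map qa *ᵥ x) := by
  obtain ⟨c, hc⟩ := (TV.pull hO hom (e ▸ h1.right hk)).uniq hτ hs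
    (pull_ne (hO.isUnit.map (algebraMap ℚ AF).mapMatrix) h0) h2
  exact ⟨c, congrFun hc⟩

variable {D : ℕ}

theorem GS.dg {R : Type} [CommRing R] {ν : R} {a : Matrix (I2 g) (I2 g) R} (ha : GS ν a) :
    GS ν (MT.dg D a) := fun x y => by
  simp only [Ef_pow (D := D), vc_dg, ha _ _, Finset.mul_sum]

theorem hom_bl {Q : Matrix (Fin D) (Fin D) (Matrix (I2 g) (I2 g) ℂ)}
    (hQ : ∀ k k' u, zz τ u = 0 → zz τ (Q k k' *ᵥ u) = 0) (u : I2 (D * g) → ℂ)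
    (hu : zz (tauP D τ) u = 0) : zz (tauP D τ) (bl D g ℂ Q *ᵥ u) = 0 := vh_ext fun k => by
  have e : ∀ x : Fin D → I2 g → ℂ, zz τ (∑ i, x i) = ∑ i, zz τ (x i) := fun x => by
    have e1 : (∑ i, x i) ∘ inl = ∑ i, x i ∘ inl := funext fun i => by simp
    have e2 : (∑ i, x i) ∘ inr = ∑ i, x i ∘ inr := funext fun i => by simp
    simp only [zz, Finset.sum_add_distrib, ← mulVec_sum, e1, e2]
  rw [vh_zz, vc_bl, e]
  exact Finset.sum_eq_zero fun k' _ => hQ k k' _ (by rw [← vh_zz, hu]; rfl)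

theorem TV.pow {F : Fin D → VV (Fin g) → ℂ} (hF : ∀ k, TV τ h (F k)) :
    TV (tauP D τ) (dg D h) (pf F) :=
  ⟨HH_pf fun k => (hF k).mem, eig_pf fun k => (hF k).eig⟩

end Pool.Agent.MT
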