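import Pool.Agent.Lib.MP_d61fbb_ag.MW.End
import Pool.Agent.Lib.MP_d61fbb_ag.MW.Inv

/-! Matrices over the field of endomorphisms act on the power. -/

set_option autoImplicit false

noncomputable section

namespace Pool.Agent.MT

open Matrix Sum

variable {g : ℕ} {τ : Matrix (Fin g) (Fin g) ℂ} {a : Matrix (I2 g) (I2 g) ℚ}

namespace EndF

variable (E : EndF τ a) {D : ℕ}

/-- matrices over the field as endomorphisms of the power -/
def jB (D : ℕ) : Matrix (Fin D) (Fin D) E.F →ₐ[ℚ] Matrix (I2 (D * g)) (I2 (D * g)) ℚ :=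
  (bl D g ℚ).toAlgHom.comp E.j.mapMatrix

/-- the adjoint matrix -/
def ad (Q : Matrix (Fin D) (Fin D) E.F) : Matrix (Fin D) (Fin D) E.F := (Q.map E.cj)ᵀ

variable (Q Q' : Matrix (Fin D) (Fin D) E.F)

theorem jB_eq : E.jB D Q = bl D g ℚ (Q.map E.j) := rfl

theorem jB_apply (i k : I2 (D * g)) :
    E.jB D Q i k = E.j (Q (ix D g i).1 (ix D g k).1) (ix D g i).2 (ix D g k).2 := rfl

theorem jB_map {A : Type} [CommRing A] (f : ℚ → A) :
    (E.jB D Q).map f = bl D g A (Q.map fun x => (E.j x).map f) := rfl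

theorem jB_inj : Function.Injective (E.jB D) :=
  (bl D g ℚ).injective.comp (map_injective E.j_inj)

theorem jB_scalar (x : E.F) : E.jB D (x • 1) = dg D (E.j x) := by
  rw [jB_eq, dg_eq, smul_one_eq_diagonal, diagonal_map (map_zero _)]

theorem jB_smul (x : E.F) : E.jB D (x • Q) = dg D (E.j x) * E.jB D Q := by
  rw [← jB_scalar, ← map_mul, smul_mul_assoc, one_mul]

theorem ad_mul : E.ad (Q * Q') = E.ad Q' * E.ad Q := by
  rw [ad, Matrix.map_mul, transpose_mul]; rfl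

theorem ad_one : E.ad (1 : Matrix (Fin D) (Fin D) E.F) = 1 := by
  rw [ad, Matrix.map_one _ (map_zero _) (map_one _), transpose_one]

theorem ad_smul (x : E.F) : E.ad (x • Q) = E.cj x • E.ad Q := by
  ext i k; simp [ad]

theorem ad_ad : E.ad (E.ad Q) = Q := by
  ext i k; simp [ad, E.pos.cj_cj]

theorem ad_fix (h : ∀ i k, E.cj (Q i k) = Q i k) : E.ad Q = Qᵀ := by
  ext i k; simp [ad, h]

theorem jB_hom (u : I2 (D * g) → ℂ) (hu : zz (tauP D τ) u = 0) :
    zz (tauP D τ) ((E.jB D Q).map (↑) *ᵥ u) = 0 :=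
  hom_bl (fun k k' => E.hom (Q k k')) u hu

section
variable {A : Type} [CommRing A] [Algebra ℚ A]

theorem jB_adj (u v : I2 (D * g) → A) : Ef ((E.jB D Q).map (algebraMap ℚ A) *ᵥ u) v =
    Ef u ((E.jB D (E.ad Q)).map (algebraMap ℚ A) *ᵥ v) :=
  Ef_bl (fun k k' => E.adj_Ef (Q k k')) u v

variable {Q} in
theorem jB_form {ν : E.F} (h : E.ad Q * Q = ν • 1) (u v : I2 (D * g) → A) :
    Ef ((E.jB D Q).map (algebraMap ℚ A) *ᵥ u) ((E.jB D Q).map (algebraMap ℚ A) *ᵥ v) =
      Ef u (dg D ((E.j ν).map (algebraMap ℚ A)) *ᵥ v) := by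
  rw [jB_adj, mulVec_mulVec, ← Matrix.map_mul, ← map_mul, h, jB_scalar, dg_map _ (map_zero _)]

theorem jB_comm {X : Matrix (I2 g) (I2 g) A} (h : Commute (a.map (algebraMap ℚ A)) X) :
    Commute ((E.jB D Q).map (algebraMap ℚ A)) (dg D X) :=
  bl_comm fun k k' => E.comm h (Q k k')

variable {Q} in
/-- a frame that is self dual for the form twisted by `ν` gives a symplectic frame of the power -/
theorem jB_frame {ν : E.F} (h : E.ad Q * Q = ν • 1) {X : Matrix (I2 g) (I2 g) A} {m : A}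
    (hX : ∀ u v, Ef (X *ᵥ u) ((E.j ν).map (algebraMap ℚ A) *ᵥ X *ᵥ v) = m * Ef u v) :
    GS m ((E.jB D Q).map (algebraMap ℚ A) * dg D X) := fun u v => by
  rw [← mulVec_mulVec, ← mulVec_mulVec, E.jB_form h]
  simp only [Ef_pow (D := D), vc_dg, hX, Finset.mul_sum]

end

variable {Q} in
theorem jB_gs {m : ℚ} (h : E.ad Q * Q = (m : E.F) • 1) : GS m (E.jB D Q) := fun u v => by
  have e := E.jB_form h u v
  rw [show (m : E.F) = algebraMap ℚ E.F m from rfl, E.j.commutes, Algebra.algebraMap_eq_smul_one] at e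
  simpa [smul_mulVec, Ef_smul_right] using e

/-- the integer matrix of a matrix over the order -/
def jZ : Matrix (I2 (D * g)) (I2 (D * g)) ℤ := (E.jB D Q).map Rat.num

variable {Q} in
theorem jZ_cast (h : ∀ i k, Q i k ∈ E.O) : (E.jZ Q).map (↑) = E.jB D Q := by
  ext i k
  exact congrFun (congrFun (E.jz_cast (h _ _)) _) _

theorem j_mem_Zh {x : E.F} (h : x ∈ E.O) (i k : I2 g) : (E.j x).map qa i k ∈ Zh := by
  obtain ⟨c, hc⟩ := h
  rw [hc, map_apply, map_apply, qa, map_intCast]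
  exact intCast_mem _ _

variable {Q} in
theorem jB_mem_Zh (h : ∀ i k, Q i k ∈ E.O) (i k : I2 (D * g)) : (E.jB D Q).map qa i k ∈ Zh :=
  E.j_mem_Zh (h _ _) _ _

end EndF

end Pool.Agent.MT
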