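import Pool.Agent.Lib.MP_d61fbb_ag.MW.SQ1c
import Pool.Agent.Lib.MP_d61fbb_ag.MW.Clif

/-! Similitudes of the standard form with a prescribed totally positive multiplier. -/

open NumberField Module Matrix

namespace Pool.Agent.MT.MW

variable {F : Type*} [Field F] [NumberField F]

theorem exists_one_le {x : F} (h0 : x ≠ 0) (hx : IsIntegral ℤ x) : ∃ φ : F →+* ℂ, 1 ≤ ‖φ x‖ := by
  by_contra hc
  push Not at hc
  obtain ⟨n, hn, e⟩ := Embeddings.pow_eq_one_of_norm_le_one F ℂ h0 hx fun φ => (hc φ).le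
  let φ : F →+* ℂ := (IsAlgClosed.lift (R := ℚ)).toRingHom
  have h1 := pow_lt_one₀ (norm_nonneg _) (hc φ) hn.ne'
  rw [← norm_pow, ← map_pow, e, map_one, norm_one] at h1
  exact lt_irrefl _ h1

theorem IsOrd.sq_end {O : Subring F} (h : IsOrd O) {cj : F ≃+* F} (hc : IsCj cj) {N : ℕ}
    (hN : 2 * finrank ℚ F + 5 ≤ N) {y : F} (hy : y ∈ O) (hy' : cj y = y) : ∃ M : ℕ, ∀ n, M ≤ n →
      ∃ b : Fin N → F, (∀ i, b i ∈ O ∧ cj (b i) = b i) ∧ 4 * ((n : F) - y) = ∑ i, b i ^ 2 := by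
  obtain ⟨K, hK⟩ := h.sq_fix hc hN 3
  set S : ℝ := ∑ φ : F →+* ℂ, |(φ y).re|
  have hS : ∀ φ : F →+* ℂ, |(φ y).re| ≤ S := fun φ =>
    Finset.single_le_sum (f := fun φ : F →+* ℂ => |(φ y).re|) (fun _ _ => abs_nonneg _)
      (Finset.mem_univ φ)
  have hS0 : 0 ≤ S := Finset.sum_nonneg fun _ _ => abs_nonneg _
  obtain ⟨M, hM⟩ := exists_nat_ge (2 * S + |K|)
  refine ⟨M, fun n hn => ?_⟩
  have h1 : (M : ℝ) ≤ n := Nat.cast_le.2 hn
  refine hK _ (O.sub_mem (natCast_mem O n) hy) (by rw [map_sub, map_natCast, hy']) (fun φ => ?_)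
    fun φ ψ => ?_
  · simp only [map_sub, map_natCast, Complex.sub_re, Complex.natCast_re]
    linarith [(abs_le.1 (hS φ)).2, le_abs_self K]
  · simp only [map_sub, map_natCast, Complex.sub_re, Complex.natCast_re]
    linarith [(abs_le.1 (hS φ)).1, (abs_le.1 (hS ψ)).2, abs_nonneg K]

/-- the squares for a multiplier that is one modulo `16 c ^ 2` -/
theorem IsOrd.sq_mult {O : Subring F} (h : IsOrd O) {cj : F ≃+* F} (hc : IsCj cj) {N : ℕ}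
    (hN : 2 * finrank ℚ F + 5 ≤ N) (C : ℝ) {c : ℕ} (c0 : c ≠ 0) : ∃ L : ℕ, ∀ (ν y : F) (n s : ℕ),
      cj ν = ν → (∀ φ : F →+* ℂ, 0 < (φ ν).re) → (∀ φ ψ : F →+* ℂ, (φ ν).re ≤ C * (ψ ν).re) →
      y ∈ O → (n : F) * (ν - 1) = 16 * (c : F) ^ 2 * y → L ≤ s →
      (16 * (c : ℤ) ^ 2 ∣ (n : ℤ) * s - 1) →
      ∃ b : Fin N → F, (∀ i, b i ∈ O ∧ cj (b i) = b i) ∧
        1 ^ 2 + ∑ i, (2 * c * b i) ^ 2 = ((n : F) * s) ^ 2 * ν := by
  obtain ⟨K, hK⟩ := h.sq_fix hc hN (2 * C)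
  obtain ⟨L, hL⟩ := exists_nat_ge (|C| * (16 * (c : ℝ) ^ 2 * |K| + 2) + 1)
  refine ⟨L, fun ν y n s h1 h2 h3 hy e hs ⟨z, hz⟩ => ?_⟩
  have cF : (c : F) ≠ 0 := Nat.cast_ne_zero.2 c0
  have cR : (0 : ℝ) < c := Nat.cast_pos.2 (Nat.pos_of_ne_zero c0)
  have hzF : (n : F) * s - 1 = 16 * (c : F) ^ 2 * z := by exact_mod_cast congrArg (Int.cast : ℤ → F) hz
  have n0 : n ≠ 0 := by
    rintro rfl
    have h4 : (2 : ℤ) * (8 * c ^ 2 * z) = -1 := by linear_combination -hz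
    omega
  have nR : (1 : ℝ) ≤ n := Nat.one_le_cast.2 (Nat.pos_of_ne_zero n0)
  let φ0 : F →+* ℂ := (IsAlgClosed.lift (R := ℚ)).toRingHom
  have ν0 : ν ≠ 0 := fun e0 => by simpa [e0] using h2 φ0
  have hC : 1 ≤ C := le_of_mul_le_mul_right (by simpa using h3 φ0 φ0) (h2 φ0)
  have hint : (n : F) * ν ∈ O := by
    have : (n : F) * ν = n + 16 * (c : F) ^ 2 * y := by linear_combination e
    rw [this]
    exact O.add_mem (natCast_mem O n) (O.mul_mem (O.mul_mem (ofNat_mem O 16)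
      (O.pow_mem (natCast_mem O c) 2)) hy)
  obtain ⟨ψ0, hψ⟩ := exists_one_le (mul_ne_zero (Nat.cast_ne_zero.2 n0) ν0) (h.int _ hint)
  rw [map_mul, map_natCast, hc.im_eq h1 ψ0, norm_mul, Complex.norm_natCast, Complex.norm_real,
    Real.norm_eq_abs, abs_of_pos (h2 ψ0)] at hψ
  set μ : F := z * (n * s + 1) + n * s ^ 2 * y with hμ
  have e1 : 16 * (c : F) ^ 2 * μ = ((n : F) * s) ^ 2 * ν - 1 := by
    rw [hμ]; linear_combination (-(n * s + 1 : F)) * hzF - n * s ^ 2 * e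
  have e2 : ∀ φ : F →+* ℂ, 16 * (c : ℝ) ^ 2 * (φ μ).re = ((n : ℝ) * s) ^ 2 * (φ ν).re - 1 := by
    intro φ
    have h4 := congrArg (fun x => (φ x).re) e1
    simp only [map_mul, map_sub, map_pow, map_natCast, map_ofNat, map_one] at h4
    rw [show (16 * (c : ℂ) ^ 2) = ((16 * (c : ℝ) ^ 2 : ℝ) : ℂ) by push_cast; rfl,
      show ((n : ℂ) * s) ^ 2 = ((((n : ℝ) * s) ^ 2 : ℝ) : ℂ) by push_cast; rfl,
      Complex.re_ofReal_mul, Complex.sub_re, Complex.re_ofReal_mul, Complex.one_re] at h4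
    exact h4
  have big : ∀ φ : F →+* ℂ, 16 * (c : ℝ) ^ 2 * |K| + 2 ≤ ((n : ℝ) * s) ^ 2 * (φ ν).re := by
    intro φ
    have a0 : (L : ℝ) ≤ s := Nat.cast_le.2 hs
    rw [abs_of_pos (by linarith : 0 < C)] at hL
    have a1 : 0 ≤ C * (16 * (c : ℝ) ^ 2 * |K| + 2) := by positivity
    have a2 : (1 : ℝ) ≤ s := by linarith
    have a3 : (s : ℝ) ≤ (s : ℝ) ^ 2 := by nlinarith
    have a4 : 1 ≤ n * (C * (φ ν).re) := hψ.trans (mul_le_mul_of_nonneg_left (h3 ψ0 φ) (by linarith))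
    have a5 : n * (C * (φ ν).re) ≤ n * (n * (C * (φ ν).re)) :=
      le_mul_of_one_le_left (by linarith) nR
    have a6 := mul_le_mul_of_nonneg_left (a4.trans a5) (sq_nonneg (s : ℝ))
    refine le_of_mul_le_mul_left ?_ (by linarith : 0 < C)
    linarith
  have c2 : (0 : ℝ) < 16 * (c : ℝ) ^ 2 := by positivity
  obtain ⟨b, hb, e3⟩ := hK μ
    (O.add_mem (O.mul_mem (intCast_mem O z) (O.add_mem (O.mul_mem (natCast_mem O n)
      (natCast_mem O s)) O.one_mem)) (O.mul_mem (O.mul_mem (natCast_mem O n)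
      (O.pow_mem (natCast_mem O s) 2)) hy))
    (by
      refine mul_left_cancel₀ (a := 16 * (c : F) ^ 2)
        (mul_ne_zero (by norm_num) (pow_ne_zero 2 cF)) ?_
      have h4 := congrArg cj e1
      simp only [map_mul, map_sub, map_pow, map_natCast, map_ofNat, map_one, h1] at h4
      rw [h4, e1])
    (fun φ => by
      refine le_of_mul_le_mul_left ?_ c2
      rw [e2]
      linarith [big φ, mul_le_mul_of_nonneg_left (le_abs_self K) c2.le])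
    fun φ ψ => by
      refine le_of_mul_le_mul_left ?_ c2
      rw [mul_left_comm, e2, e2]
      have a1 := mul_le_mul_of_nonneg_left (h3 φ ψ) (sq_nonneg ((n : ℝ) * s))
      have a2 : 2 ≤ ((n : ℝ) * s) ^ 2 * (ψ ν).re :=
        le_trans (le_add_of_nonneg_left (by positivity)) (big ψ)
      nlinarith
  refine ⟨b, hb, ?_⟩
  simp only [mul_pow, ← Finset.mul_sum, ← e3]
  linear_combination e1

/-- the similitude `1 + 2 c Y` -/
theorem IsOrd.sq_mat {O : Subring F} (h : IsOrd O) {cj : F ≃+* F} (hc : IsCj cj) {N : ℕ}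
    (hN : 2 * finrank ℚ F + 5 ≤ N) (C : ℝ) {c : ℕ} (c0 : c ≠ 0) : ∃ B : ℕ, ∀ (ν y : F) (n : ℕ),
      cj ν = ν → (∀ φ : F →+* ℂ, 0 < (φ ν).re) → (∀ φ ψ : F →+* ℂ, (φ ν).re ≤ C * (ψ ν).re) →
      n.Coprime (2 * c) → y ∈ O → (n : F) * (ν - 1) = 16 * (c : F) ^ 2 * y →
      ∃ s ≤ B, ∃ Y : Matrix (Fin (2 ^ N)) (Fin (2 ^ N)) F, (16 * (c : ℤ) ^ 2 ∣ (n : ℤ) * s - 1) ∧
        (∀ i j, Y i j ∈ O ∧ cj (Y i j) = Y i j) ∧ Yᵀ = -Y ∧
        (1 + (2 * c : F) • Y)ᵀ * (1 + (2 * c : F) • Y) = (((n : F) * s) ^ 2 * ν) • 1 ∧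
        (1 + (2 * c : F) • Y) * (1 + (2 * c : F) • Y)ᵀ = (((n : F) * s) ^ 2 * ν) • 1 := by
  obtain ⟨L, hL⟩ := h.sq_mult hc hN C c0
  obtain ⟨G, hG⟩ := clif N
  have m1 : 1 < 16 * c ^ 2 := by
    have := Nat.pos_of_ne_zero (pow_ne_zero 2 c0); omega
  refine ⟨16 * c ^ 2 * (L + 1), fun ν y n h1 h2 h3 hn hy e => ?_⟩
  have cop : n.Coprime (16 * c ^ 2) :=
    Nat.Coprime.coprime_dvd_right ⟨c ^ 2, by ring⟩ (hn.pow_right 4)
  obtain ⟨s0, hs0, hs1⟩ := Nat.exists_mul_mod_eq_one_of_coprime cop m1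
  have dv : 16 * (c : ℤ) ^ 2 ∣ (n : ℤ) * (s0 + 16 * c ^ 2 * L : ℕ) - 1 := by
    have h4 := Nat.div_add_mod (n * s0) (16 * c ^ 2)
    rw [hs1] at h4
    refine ⟨(n * s0 / (16 * c ^ 2) : ℕ) + n * L, ?_⟩
    generalize n * s0 / (16 * c ^ 2) = w at h4
    have h5 := congrArg (Nat.cast : ℕ → ℤ) h4
    push_cast at h5 ⊢
    linear_combination -h5
  obtain ⟨b, hb, e1⟩ := hL ν y n (s0 + 16 * c ^ 2 * L) h1 h2 h3 hy e (by nlinarith) dv
  have hG' := hG.map (Int.castRingHom F)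
  have e2 : 1 + (2 * c : F) • ∑ i, b i • (G i).map (Int.castRingHom F) =
      clQ (fun i => (G i).map (Int.castRingHom F)) 1 fun i => 2 * c * b i := by
    simp only [clQ, one_smul, Finset.smul_sum, smul_smul]
  refine ⟨s0 + 16 * c ^ 2 * L, by nlinarith, ∑ i, b i • (G i).map (Int.castRingHom F), dv,
    fun i j => ?_, ?_, ?_, ?_⟩
  · simp only [Matrix.sum_apply, Matrix.smul_apply, Matrix.map_apply, smul_eq_mul, eq_intCast]
    refine ⟨O.sum_mem fun k _ => O.mul_mem (hb k).1 (intCast_mem O _), ?_⟩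
    simp only [map_sum, map_mul, map_intCast, fun k => (hb k).2]
  · simp only [transpose_sum, transpose_smul, hG'.skew, smul_neg, Finset.sum_neg_distrib]
  · rw [e2, hG'.tr_mul, e1]
  · rw [e2, hG'.mul_tr, e1]

end Pool.Agent.MT.MW
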