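import Pool.Agent.Lib.MP_d61fbb_ag.MW.VC1
import Pool.Agent.Lib.MP_d61fbb_ag.MW.BReds
import Pool.Agent.Lib.MP_d61fbb_ag.MW.AGH

/-! Endomorphisms of the complex torus have a complement in the reduction. -/

set_option autoImplicit false

noncomputable section

namespace Pool.Agent.MT

open Matrix Polynomial
open Pool.Agent.Lib.MP_696deb_nt.B2 (Qbar jC)

section
variable {ι κ α : Type} [Fintype ι] [Fintype κ] [Fintype α] {r : ℚ} {s : α → ℚ}

lemma Ef_pull_sum {A : Type} [CommRing A] [Algebra ℚ A] (γ : α → Matrix (κ ⊕ κ) (ι ⊕ ι) ℚ)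
    (h1 : ∀ x y, ∑ i, s i * Ef (γ i *ᵥ x) (γ i *ᵥ y) = r * Ef x y) (x y : ι ⊕ ι → A) :
    ∑ i, s i • Ef ((γ i).map (algebraMap ℚ A) *ᵥ x) ((γ i).map (algebraMap ℚ A) *ᵥ y) =
      r • Ef x y := by
  classical
  let B : ∀ (α : Type) [Fintype α], (α ⊕ α → A) →ₗ[A] (α ⊕ α → A) →ₗ[A] A := fun α _ =>
    LinearMap.mk₂ A Ef Ef_add_left (fun c x y => Ef_smul_left x y c) Ef_add_right
      fun c x y => Ef_smul_right x y c
  have k : ∀ i : ι ⊕ ι, (Pi.single i 1 : ι ⊕ ι → A) =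
      algebraMap ℚ A ∘ (Pi.single i 1 : ι ⊕ ι → ℚ) := fun i => by
    funext j
    simp [Pi.single_apply]
  have : ∑ i, s i • (B κ).compl₁₂ ((γ i).map (algebraMap ℚ A)).mulVecLin
      ((γ i).map (algebraMap ℚ A)).mulVecLin = r • B ι := by
    refine LinearMap.ext_basis (Pi.basisFun A _) (Pi.basisFun A _) fun i j => ?_
    have := congrArg (algebraMap ℚ A) (h1 (Pi.single i 1) (Pi.single j 1))
    simp only [map_sum, map_mul, Ef_map, ← Algebra.smul_def, RingHom.map_mulVec] at this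
    rw [Pi.basisFun_apply, Pi.basisFun_apply, k, k, LinearMap.sum_apply, LinearMap.sum_apply]
    exact this
  have h := LinearMap.congr_fun₂ this x y
  rw [LinearMap.sum_apply, LinearMap.sum_apply] at h
  exact h

lemma addChar_sum {A M β : Type} [AddCommMonoid A] [CommMonoid M] (e : AddChar A M) (t : Finset β)
    (f : β → A) : e (∑ i ∈ t, f i) = ∏ i ∈ t, e (f i) := by
  classical
  induction t using Finset.induction_on with
  | empty => simp
  | insert i t hi ih => rw [Finset.sum_insert hi, Finset.prod_insert hi, AddChar.map_add_eq_mul, ih]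

/-- a product of pullbacks along complex linear rational maps -/
theorem HH_pullprod {τ : Matrix ι ι ℂ} {τ' : Matrix κ κ ℂ} {f : α → VV κ → ℂ}
    (hf : ∀ i, f i ∈ HH τ' (s i)) (γ : α → Matrix (κ ⊕ κ) (ι ⊕ ι) ℚ)
    (h1 : ∀ x y, ∑ i, s i * Ef (γ i *ᵥ x) (γ i *ᵥ y) = r * Ef x y)
    (h2 : ∀ i u, zz τ u = 0 → zz τ' ((γ i).map (↑) *ᵥ u) = 0) :
    (fun x => ∏ i, f i ((γ i).map qa *ᵥ x)) ∈ HH τ r := by
  classical
  choose N hN a using fun i => (hf i).1
  choose F hF e using fun i => (hf i).2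
  have h3 : ∀ x y, ∑ i, s i / 2 * Ef (γ i *ᵥ x) (γ i *ᵥ y) = r / 2 * Ef x y := fun x y => by
    rw [div_mul_eq_mul_div, ← h1, Finset.sum_div]
    exact Finset.sum_congr rfl fun i _ => div_mul_eq_mul_div _ _ _
  refine ⟨?_, fun x => ∏ i, F i ((γ i).map (↑) *ᵥ x), ⟨?_, fun u hu x => ?_⟩, fun q => ?_⟩
  · obtain ⟨M, hM, b⟩ := vec_den fun i : α × (κ ⊕ κ) × (ι ⊕ ι) => qa (γ i.1 i.2.1 i.2.2)
    refine ⟨(∏ i, N i) * M, mul_ne_zero (Finset.prod_ne_zero_iff.2 fun i _ => hN i) hM,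
      fun m hm => funext fun x => ?_⟩
    rw [UU_apply, eps, ← Ef_pull_sum γ h3, addChar_sum, ← Finset.prod_mul_distrib]
    refine Finset.prod_congr rfl fun i _ => ?_
    have k : M • (γ i).map qa *ᵥ m ∈ Lam (κ ⊕ κ) := by
      rw [← smul_mulVec]
      exact mem_Lam.2 fun l => Zh.sum_mem fun j _ =>
        Zh.mul_mem (mem_Lam.1 b (i, l, j)) (mem_Lam.1 hm j)
    obtain ⟨c, hc⟩ := Finset.dvd_prod_of_mem N (Finset.mem_univ i)
    rw [← congrFun (a i _ (nsmul_mem k c)) ((γ i).map qa *ᵥ x), UU_apply, ← mul_smul, ← mul_smul,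
      ← mulVec_smul, mulVec_add, eps, hc]
  · exact Finset.prod_induction (fun i x => F i ((γ i).map (↑) *ᵥ x)) (Differentiable ℂ)
      (fun _ _ => Differentiable.mul) (differentiable_const (1 : ℂ)) (s := Finset.univ)
      (fun i _ => (hF i).1.comp
        ((γ i).map ((↑) : ℚ → ℂ)).mulVecLin.toContinuousLinearMap.differentiable) |>
      (Finset.prod_fn Finset.univ fun i x => F i ((γ i).map (↑) *ᵥ x)).subst
  · have := Ef_pull_sum γ h3 u x
    simp only [Algebra.smul_def, eq_ratCast] at this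
    push_cast at this
    rw [← this, Finset.prod_congr rfl fun i _ => by rw [mulVec_add, (hF i).2 _ (h2 i u hu)],
      Finset.prod_mul_distrib]
    congr 1
    rw [ee, Finset.mul_sum, Complex.exp_sum]
    rfl
  · refine Finset.prod_congr rfl fun i _ =>
      (congrArg (f i) ?_).trans ((e i (γ i *ᵥ q)).trans (congrArg (F i) ?_))
    · exact funext fun j => (RingHom.map_mulVec (algebraMap ℚ AF) (γ i) q j).symm
    · exact funext fun j => RingHom.map_mulVec (Rat.castHom ℂ) (γ i) q j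

end

variable [Dim]

lemma TSys.Rt_loc {k : Type} [Field k] (S : TSys k 0) {p : Pr} (hp : ¬ (p : ℕ) ∣ 2) {y s : W}
    (hy : y ∈ IntAt p) (hs : s ∈ L0) (h0 : ∀ l ≠ p, ∀ i, cp l (s i) = 0) :
    Rt S.e 1 s (Rt S.e 1 y S.Θ) = Rt S.e 1 y S.Θ := by
  have h1 : S.e (((1 : ℕ) : ℚ) • Ef y s) = 1 := S.e_one fun l _ => by
    rw [Nat.cast_one, one_smul]
    rcases eq_or_ne l p with rfl | hl
    · have k : ∀ i j, ‖cp l (y i * s j)‖ ≤ 1 := fun i j => by
        rw [map_mul, norm_mul]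
        exact mul_le_one₀ (hy i l rfl) (norm_nonneg _) (mem_L0.1 hs j l)
      simp only [Ef, dotProduct, map_sub, map_sum, Function.comp]
      rw [sub_eq_add_neg]
      refine (Padic.nonarchimedean _ _).trans (max_le ?_ ((norm_neg _).trans_le ?_)) <;>
        exact IsUltrametricDist.norm_sum_le_of_forall_le_of_nonneg zero_le_one fun j _ => k _ _
    · simp [Ef, dotProduct, h0 l hl]
  have h2 : sgn S.e s = 1 := S.e_one fun l _ => by
    rw [map_mul]
    rcases eq_or_ne l ⟨2, Nat.prime_two⟩ with rfl | hl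
    · have : (⟨2, Nat.prime_two⟩ : Pr) ≠ p := fun e => hp (e ▸ dvd_rfl)
      simp [Qf, dotProduct, h0 _ this]
    · simp [cp_sg_ne hl]
  rw [Rt_comm, S.per s hs, h1, h2, one_smul, one_smul]

variable {τ : Matrix (Fin gg) (Fin gg) ℂ} {K : IntermediateField ℚ ℂ} {M : TRep τ K}
  {A : AR M} {α : Type} [Fintype α]

/-- integer matrices as adelic matrices -/
lemma int_qa (c : M8 ℤ) : (c.map ((↑) : ℤ → ℚ)).map qa = c.map ((↑) : ℤ → AF) := by
  ext1 i j; simp

/-- products of pullbacks of translates along complex linear integer matrices -/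
theorem AR.pull_mem (hH : GH) (hτ : Sieg τ) (A : AR M) (c : α → M8 ℤ) {N : ℕ} (hN : 0 < N)
    (h1 : ∀ x y : I2 gg → ℚ, ∑ i, Ef ((c i).map (↑) *ᵥ x) ((c i).map (↑) *ᵥ y) = N * Ef x y)
    (h2 : ∀ i u, zz τ u = 0 → zz τ ((c i).map (↑) *ᵥ u) = 0) (y : α → W) :
    ∏ i, A.S.br ((c i).map (↑)) (y i) ∈ A.S.G N := by
  refine (hH τ hτ K M A N hN _).2 ?_
  have := HH_pullprod (τ := τ) (r := N) (s := fun _ => 1)
    (fun i => HH_UU (A.mem_HH hτ) (y i)) (fun i => (c i).map (↑)) (by simpa using h1)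
    fun i u hu => by
      have e : ((c i).map ((↑) : ℤ → ℚ)).map ((↑) : ℚ → ℂ) = (c i).map (↑) := by ext1; simp
      rw [e]; exact h2 i u hu
  refine Set.mem_of_eq_of_mem (funext fun x => ?_) this
  rw [Finset.prod_apply, map_prod]
  refine Finset.prod_congr rfl fun i _ => ?_
  rw [int_qa, ← Nat.cast_one (R := ℚ), ← jC_Rt A.cxe]
  rfl

/-- such products reduce to theta functions -/
theorem Frb.pull_mem (hH : GH) (hR : REDG) (hτ : Sieg τ) (v : Frb A) {R : FSys (kk v.w) v.p}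
    (hv : RedOf v R) (c : α → M8 ℤ) {N : ℕ} (hN : ¬ (v.p : ℕ) ∣ N)
    (h1 : ∀ x y : I2 gg → ℚ, ∑ i, Ef ((c i).map (↑) *ᵥ x) ((c i).map (↑) *ᵥ y) = N * Ef x y)
    (h2 : ∀ i u, zz τ u = 0 → zz τ ((c i).map (↑) *ᵥ u) = 0) (y : α → W)
    (hy : ∀ i, y i ∈ IntAt v.p) : ∏ i, R.br ((c i).map (↑)) (y i) ∈ R.G N := by
  have h0 : 0 < N := Nat.pos_of_ne_zero fun e => hN (e ▸ dvd_zero _)
  have i1 : ∀ i x, A.S.br ((c i).map (↑)) (y i) x ∈ v.w.V.valuationSubring := fun i x =>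
    v.rt_int 1 _ hv.int _
  have := hR τ K M A hτ v R hv N hN _ (A.pull_mem hH hτ c h0 h1 h2 y) (fun t ht => ?_) fun x => by
    rw [Finset.prod_apply]; exact _root_.prod_mem (S := v.w.V.valuationSubring) fun i _ => i1 i x
  · refine Set.mem_of_eq_of_mem (funext fun x => ?_) this
    rw [Finset.prod_apply, Finset.prod_apply, rd_eq,
      MTB.rd_prod (O := v.w.V.valuationSubring) _ fun i _ => i1 i x]
    refine Finset.prod_congr rfl fun i _ => ?_
    simp only [TSys.br, Rt]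
    rw [MTB.rd_mul (v.e_val _).le (hv.int _), hv.Θ, hv.e, rd_eq]
  · funext x
    have h3 := Ef_pull_sum (A := AF) (s := fun _ => (1 : ℚ) / 2) (r := (N : ℚ) / 2)
      (fun i => (c i).map (↑)) (fun x y => by
        rw [← Finset.mul_sum, h1]; ring) (sgv v.p t) x
    rw [Rt, ← h3, addChar_sum, Finset.prod_apply, Finset.prod_apply, ← Finset.prod_mul_distrib]
    refine Finset.prod_congr rfl fun i _ => ?_
    have h4 := congrFun (A.S.Rt_loc v.not_dvd_two (hy i) (s := (c i).map (↑) *ᵥ sgv v.p t)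
      (mem_L0q.2 fun j => sum_mem fun l _ => mul_mem (intCast_mem _ _) (sg_mem (ht l)))
      fun l hl j => by simp [mulVec, dotProduct, sgv, cp_sg_ne hl]) ((c i).map (↑) *ᵥ x)
    rw [TSys.br, TSys.br, ← h4, mulVec_add, show algebraMap ℚ AF = qa from rfl, int_qa]
    simp only [Rt, Nat.cast_one]

/-- An integer matrix `c` that is complex linear has a complement in the reduction as soon as
`N - c† c` is a sum of norms. -/
theorem Frb.cmp_end (hH : GH) (hR : REDG) (hτ : Sieg τ) (v : Frb A) {R : FSys (kk v.w) v.p}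
    (hv : RedOf v R) (c : M8 ℤ) (d : α → M8 ℤ) {N : ℕ} (hN : ¬ (v.p : ℕ) ∣ N)
    (h1 : ∀ x y : I2 gg → ℚ, Ef (c.map (↑) *ᵥ x) (c.map (↑) *ᵥ y) +
      ∑ i, Ef ((d i).map (↑) *ᵥ x) ((d i).map (↑) *ᵥ y) = N * Ef x y)
    (hc : ∀ u, zz τ u = 0 → zz τ (c.map (↑) *ᵥ u) = 0)
    (hd : ∀ i u, zz τ u = 0 → zz τ ((d i).map (↑) *ᵥ u) = 0) : R.Cmp (c.map (↑)) N := by
  obtain ⟨η, hη⟩ := R.exists_th 0
  refine ⟨∏ i, R.br ((d i).map (↑)) (hw η), fun y hy => ?_, Function.ne_iff.2 ⟨0, ?_⟩⟩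
  · have := v.pull_mem hH hR hτ hv (fun o : Option α => o.elim c d) hN
      (fun x y => by rw [Fintype.sum_option]; exact h1 x y)
      (fun o => by cases o; exacts [hc, hd _]) (fun o => o.elim y fun _ => hw η)
      fun o => by cases o; exacts [IntAt_Wp hy, R.IntAt_hw η]
    rwa [Fintype.prod_option] at this
  · rw [Finset.prod_apply]
    exact Finset.prod_ne_zero_iff.2 fun i _ => by simpa [TSys.br, TSys.th] using hη

end Pool.Agent.MT
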