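import Pool.Agent.Lib.MP_d61fbb_ag.MW.EndB
import Pool.Agent.Lib.MP_d61fbb_ag.MW.SQ1d
import Pool.Agent.Lib.MP_d61fbb_ag.MW.VC2
import Pool.Agent.Lib.MP_d61fbb_ag.MW.P0

/-! Endomorphisms have a complement in the reduction; places of the power. -/

set_option autoImplicit false

noncomputable section

namespace Pool.Agent.MT

open Matrix Sum
open Pool.Agent.Lib.MP_696deb_nt.B2 (Qbar jC)

theorem EndF.norm_sq {g : ℕ} {τ : Matrix (Fin g) (Fin g) ℂ} {a : Matrix (I2 g) (I2 g) ℚ}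
    (E : EndF τ a) {x : E.F} (hx : x ∈ E.O) {p : ℕ} (hp : p.Prime) (h2 : p ≠ 2) :
    ∃ (N n : ℕ) (b : Fin n → E.F), ¬ p ∣ N ∧ (∀ i, b i ∈ E.O) ∧
      E.cj (2 * x) * (2 * x) + ∑ i, E.cj (b i) * b i = N := by
  obtain ⟨M, hM⟩ := E.isOrd.sq_end E.pos le_rfl (E.O.mul_mem (E.cj_mem hx) hx)
    (by rw [map_mul, E.pos.cj_cj, mul_comm])
  obtain ⟨b, hb, e⟩ := hM (p * M + 1) (by nlinarith [hp.pos])
  refine ⟨4 * (p * M + 1), _, b, fun h => ?_, fun i => (hb i).1, ?_⟩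
  · rcases (Nat.Prime.dvd_mul hp).1 h with h | h
    · exact h2 ((Nat.prime_dvd_prime_iff_eq hp Nat.prime_two).1 (hp.dvd_of_dvd_pow (n := 2) h))
    · exact hp.one_lt.ne' (Nat.dvd_one.1 ((Nat.dvd_add_right (dvd_mul_right p M)).1 h))
  · simp only [(hb _).2, ← sq, ← e, map_mul, map_ofNat]
    push_cast
    ring

variable [dm : Dim]

section
variable {τ : Matrix (Fin gg) (Fin gg) ℂ} {K : IntermediateField ℚ ℂ} {M : TRep τ K} {A : AR M}

theorem Frb.val_ne_two (v : Frb A) : (v.p : ℕ) ≠ 2 := fun h => by have := v.big; omega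

/-- the rational form of `cmp_end` -/
theorem Frb.cmp_rat (hτ : Sieg τ) (v : Frb A) {R : FSys (kk v.w) v.p} (hv : RedOf v R) {α : Type}
    [Fintype α] {c : M8 ℚ} {d : α → M8 ℚ} (ic : ∃ c' : M8 ℤ, c'.map (↑) = c)
    (id : ∀ i, ∃ c' : M8 ℤ, c'.map (↑) = d i) {N : ℕ} (hN : ¬ (v.p : ℕ) ∣ N)
    (h1 : ∀ x y, Ef (c *ᵥ x) (c *ᵥ y) + ∑ i, Ef (d i *ᵥ x) (d i *ᵥ y) = N * Ef x y)
    (hc : ∀ u, zz τ u = 0 → zz τ (c.map (↑) *ᵥ u) = 0)
    (hd : ∀ i u, zz τ u = 0 → zz τ ((d i).map (↑) *ᵥ u) = 0) : R.Cmp (c.map qa) N := by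
  obtain ⟨c, rfl⟩ := ic
  choose d' e using id
  obtain rfl : d = fun i => (d' i).map (↑) := funext fun i => (e i).symm
  have e1 : ∀ c : M8 ℤ, (c.map ((↑) : ℤ → ℚ)).map ((↑) : ℚ → ℂ) = c.map (↑) := fun c => by
    ext1; simp
  rw [int_qa]
  exact v.cmp_end p_gh p_redg hτ hv c d' hN h1 (e1 c ▸ hc) fun i => e1 (d' i) ▸ hd i

/-- twice an endomorphism has a complement -/
theorem EndF.cmp_two {a : M8 ℚ} (E : EndF τ a) (hτ : Sieg τ) (v : Frb A) {R : FSys (kk v.w) v.p}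
    (hv : RedOf v R) {x : E.F} (hx : x ∈ E.O) : ∃ N, R.Cmp ((E.j (2 * x)).map qa) N := by
  obtain ⟨N, n, b, hN, hb, e⟩ := E.norm_sq hx v.p.2 v.val_ne_two
  refine ⟨N, v.cmp_rat hτ hv (d := fun i => E.j (b i))
    ⟨_, E.jz_cast (E.O.mul_mem (ofNat_mem _ 2) hx)⟩ (fun i => ⟨_, E.jz_cast (hb i)⟩) hN
    (fun u w => ?_) (E.hom _) fun i => E.hom _⟩
  simp only [E.adj_Efq, mulVec_mulVec, ← map_mul E.j]
  rw [← Ef_sum_right, ← Ef_add_right, ← sum_mulVec, ← add_mulVec, ← map_sum, ← map_add, e,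
    map_natCast, natCast_mulVec, Ef_smul_right]

/-- the hypothesis of block D -/
theorem EndF.cmp_a {a : M8 ℤ} (E : EndF τ (a.map (↑))) (hτ : Sieg τ) (v : Frb A)
    {R : FSys (kk v.w) v.p} (hv : RedOf v R) : ∃ N, R.Cmp ((2 : ℤ) • a.map ((↑) : ℤ → AF)) N := by
  have h := E.cmp_two hτ v hv (x := E.al) ⟨a, E.j_al⟩
  rwa [two_mul, map_add, E.j_al, Matrix.map_add _ (map_add (algebraMap ℚ AF)), int_qa,
    ← two_zsmul] at h

end

section pow
variable {τ : Matrix (Fin gg) (Fin gg) ℂ} {K : IntermediateField ℚ ℂ} {D : ℕ} [NeZero D]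

section
variable {a : M8 ℚ} (E : EndF τ a) (hτ : Sieg τ) {M : TRep (dm := dm.pow D) (tauP D τ) K}
  {B : AR (dm := dm.pow D) M} (v : Frb (dm := dm.pow D) B)
  {R : FSys (dm := dm.pow D) (kk (Frb.w (dm := dm.pow D) v)) (Frb.p (dm := dm.pow D) v)}
  (hv : RedOf (dm := dm.pow D) v R)
include hτ hv

theorem EndF.cmp_of {α : Type} [Fintype α] {q : Matrix (Fin D) (Fin D) E.F}
    {d : α → Matrix (Fin D) (Fin D) E.F} (hq : ∀ i k, q i k ∈ E.O) (hd : ∀ s i k, d s i k ∈ E.O)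
    {N : ℕ} (hN : ¬ ((Frb.p (dm := dm.pow D) v : Pr) : ℕ) ∣ N)
    (e : E.ad q * q + ∑ s, E.ad (d s) * d s = N) :
    TSys.Cmp (dm := dm.pow D) (FSys.toTSys (dm := dm.pow D) R) ((E.jB D q).map qa) N := by
  have h : ∀ q u w, Ef (E.jB D q *ᵥ u) w = Ef u (E.jB D (E.ad q) *ᵥ w) := fun q u w => by
    simpa using E.jB_adj q u w
  refine Frb.cmp_rat (dm := dm.pow D) (sieg_pow hτ) v hv (d := fun s => E.jB D (d s))
    ⟨_, E.jZ_cast hq⟩ (fun s => ⟨_, E.jZ_cast (hd s)⟩) hN (fun u w => ?_) (E.jB_hom _)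
    fun s => E.jB_hom _
  simp only [h, mulVec_mulVec, ← map_mul (E.jB D)]
  rw [← Ef_sum_right, ← Ef_add_right, ← sum_mulVec, ← add_mulVec, ← map_sum, ← map_add, e,
    map_natCast, natCast_mulVec, Ef_smul_right]

/-- twice a matrix over the order has a complement -/
theorem EndF.cmp_jB {q : Matrix (Fin D) (Fin D) E.F} (hq : ∀ i k, q i k ∈ E.O) :
    (E.jB D ((2 : E.F) • q)).map qa ∈ @TSys.CR (dm.pow D) _ _ _ (FSys.toTSys (dm := dm.pow D) R)
      (p_irr (dm := dm.pow D)) (p_genp (dm := dm.pow D)) := by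
  have e : (2 : E.F) • q = ∑ i, ∑ k, ((2 * q i k) • 1) * single i k (1 : E.F) := by
    conv_lhs => rw [matrix_eq_sum_single q]
    simp only [Finset.smul_sum, smul_single, smul_mul_assoc, Matrix.one_mul, smul_eq_mul, mul_one]
  have o1 : ∀ {x : E.F}, x ∈ E.O → ∀ i k : Fin D, (x • (1 : Matrix (Fin D) (Fin D) E.F)) i k ∈ E.O :=
    fun hx i k => by
      rw [Matrix.smul_apply, one_apply]
      split_ifs <;> simp [hx]
  have o2 : ∀ i k i' k' : Fin D, single i k (1 : E.F) i' k' ∈ E.O := fun i k i' k' => by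
    rw [single_apply]
    split_ifs <;> simp
  have o3 : ∀ i k : Fin D, E.ad (single i k 1) * single i k 1 = single k k 1 := fun i k => by
    rw [E.ad_fix _ fun i' k' => by rw [single_apply]; split_ifs <;> simp, transpose_single,
      single_mul_single_same, mul_one]
  change ((algebraMap ℚ AF).mapMatrix.comp (E.jB D).toRingHom) _ ∈ _
  rw [e, map_sum]
  refine sum_mem fun i _ => ?_
  rw [map_sum]
  refine sum_mem fun k _ => ?_
  rw [map_mul]
  refine mul_mem ?_ ⟨1, E.cmp_of hτ v hv (d := fun s : {s // s ≠ k} => single i s.1 1) (o2 i k)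
    (fun s => o2 i s) (Frb.p (dm := dm.pow D) v).2.not_dvd_one ?_⟩
  · obtain ⟨N, n, b, hN, hb, e⟩ := E.norm_sq (hq i k) (Frb.p (dm := dm.pow D) v).2
      (Frb.val_ne_two (dm := dm.pow D) v)
    refine ⟨N, E.cmp_of hτ v hv (d := fun s => b s • 1) (o1 (E.O.mul_mem (ofNat_mem _ 2) (hq i k)))
      (fun s => o1 (hb s)) hN ?_⟩
    simp only [E.ad_smul, E.ad_one, smul_mul_smul_comm, Matrix.mul_one]
    rw [← Finset.sum_smul, ← add_smul, e, Nat.cast_smul_eq_nsmul, nsmul_one]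
  · simp only [o3]
    rw [← Fintype.sum_eq_add_sum_subtype_ne (fun s : Fin D => single s s (1 : E.F)) k,
      Nat.cast_one, sum_single_one]

theorem EndF.cmp_dg {x : E.F} (hx : x ∈ E.O) :
    dg D ((E.j (2 * x)).map qa) ∈ @TSys.CR (dm.pow D) _ _ _ (FSys.toTSys (dm := dm.pow D) R)
      (p_irr (dm := dm.pow D)) (p_genp (dm := dm.pow D)) := by
  have h := E.cmp_jB hτ v hv (q := x • 1) fun i k => by
    rw [Matrix.smul_apply, one_apply]
    split_ifs <;> simp [hx]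
  rwa [smul_smul, E.jB_scalar, dg_map _ (map_zero (algebraMap ℚ AF))] at h

end

theorem mA_pow (g : ∀ l : Pr, GL (I2 gg) ℤ_[l]) (g' : ∀ l : Pr, GL (I2 (D * gg)) ℤ_[l])
    (h : ∀ l, (g' l).val = dg D (g l).val) : mA (dm := dm.pow D) g' = dg D (mA g) := by
  ext i j : 1
  rw [dg_apply]
  simp only [mA, of_apply, h, dg_apply]
  split_ifs
  · rfl
  · exact map_zero zA

variable {M : TRep τ K} {hτ : Sieg τ} (A : AR M) (B : AR (dm := dm.pow D) (M.pow hτ D))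

theorem mA_rho_pow (σ : ℂ ≃ₐ[K] ℂ) :
    mA (dm := dm.pow D) (TRep.ρ (dm := dm.pow D) (M.pow hτ D) σ) = dg D (mA (M.ρ σ)) :=
  mA_pow _ _ fun _ => rfl

theorem AR.res_pow : AR.res (dm := dm.pow D) B = A.res :=
  MonoidHom.ext fun σ => AlgEquiv.ext fun x => jC.injective
    ((AR.res_spec (dm := dm.pow D) B σ x).trans (A.res_spec σ x).symm)

theorem AR.e_pow (x : AF) : TSys.e (dm := dm.pow D) (AR.S (dm := dm.pow D) B) x = A.S.e x :=
  jC.injective ((AR.cxe (dm := dm.pow D) B x).trans (A.cxe x).symm)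

theorem AR.theta_pow (x : I2 (D * gg) → AF) :
    TSys.Θ (dm := dm.pow D) (AR.S (dm := dm.pow D) B) x *
      ∏ k, A.S.Θ (hw (vc (AR.η0 (dm := dm.pow D) B) k)) = ∏ k, A.S.Θ (vc x k) := by
  have e : ∀ x, AR.c0 (dm := dm.pow D) B *
      jC (TSys.Θ (dm := dm.pow D) (AR.S (dm := dm.pow D) B) x) =
      A.c0 ^ D * jC (∏ k, A.S.Θ (vc x k)) := fun x => by
    rw [AR.cx (dm := dm.pow D) B x, Theta_pow hτ, map_prod, ← Fin.prod_const,
      ← Finset.prod_mul_distrib]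
    exact Finset.prod_congr rfl fun k _ => (A.cx _).symm
  have e1 := e (hw (dm := dm.pow D) (AR.η0 (dm := dm.pow D) B))
  rw [AR.one (dm := dm.pow D) B, map_one, mul_one] at e1
  refine jC.injective (mul_left_cancel₀ (pow_ne_zero D A.c0_ne) ?_)
  rw [← e, e1, map_mul, mul_comm (jC _), mul_assoc]
  rfl

variable {A} in
/-- a good place of the variety is a good place of the power -/
def Frb.pow (v : Frb A) : Frb (dm := dm.pow D) B :=
  @Frb.mk (dm.pow D) _ _ _ B v.w v.p v.hp v.big v.φ (A.res_pow B ▸ v.frob) (A.res_pow B ▸ v.ine)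
    fun η => by
      have h : ∀ η : I2 (D * gg) → ZMod 2, ∏ k, A.S.Θ (hw (vc η k)) = 0 ∨
          v.w.V (∏ k, A.S.Θ (hw (vc η k))) = 1 := fun η => by
        by_cases h : ∃ k, A.S.Θ (hw (vc η k)) = 0
        · exact Or.inl (h.elim fun k hk => Finset.prod_eq_zero (Finset.mem_univ k) hk)
        · rw [map_prod]
          exact Or.inr (Finset.prod_eq_one fun k _ => (v.unit _).resolve_left fun e => h ⟨k, e⟩)
      have h0 : ∏ k, A.S.Θ (hw (vc (AR.η0 (dm := dm.pow D) B) k)) ≠ 0 := fun e => by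
        obtain ⟨η, hη⟩ := A.S.bpf 0
        have := A.theta_pow B (vb fun _ => 0 + hw η)
        rw [e, mul_zero, vc_vb] at this
        exact Finset.prod_ne_zero_iff.2 (fun _ _ => hη) this.symm
      have e := A.theta_pow B (hw (dm := dm.pow D) η)
      refine (h η).imp (fun h1 => (mul_eq_zero.1 (e.trans h1)).resolve_right h0) fun h1 => ?_
      have e2 := (congrArg v.w.V e).trans h1
      rwa [map_mul, (h _).resolve_left h0, mul_one] at e2

theorem Frb.pow_p {A : AR M} (v : Frb A) : Frb.p (dm := dm.pow D) (v.pow B) = v.p := rfl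

theorem Frb.pow_φ {A : AR M} (v : Frb A) : Frb.φ (dm := dm.pow D) (v.pow B) = v.φ := rfl

theorem Frb.pow_w {A : AR M} (v : Frb A) : Frb.w (dm := dm.pow D) (v.pow B) = v.w := rfl

end pow

end Pool.Agent.MT
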