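import Pool.Agent.Lib.MP_d61fbb_ag.MW.IW
import Pool.Agent.Lib.MP_d61fbb_ag.MW.E5

/-! From the relation on the orbit to the Hodge group. -/

set_option autoImplicit false

namespace Pool.Agent.MT

variable [dm : Dim]

theorem stageW_of (H : ZLW) : StageW := fun τ hτ K hK h8 e k n M => by
  obtain ⟨B, hB⟩ := H τ hτ K hK h8 e k n M
  refine ⟨B, fun l hl h J₀ hJ i => ?_⟩
  obtain ⟨h2, m, hm, hz⟩ := hB l hl h
  exact U.endgame hτ h8 M h h2 hm hz J₀ hJ i

end Pool.Agent.MT
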