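import Pool.Agent.Lib.MP_d61fbb_ag.MW.FDefs
import Pool.Agent.Lib.MP_d61fbb_ag.MT.ENorm2

/-! Block F: the auxiliary form. -/

namespace Pool.Agent.MT

open Complex

theorem f_out : FOut := by
  classical
  intro K _ A₀ l c n F hl hn
  obtain ⟨d, hd⟩ : ∃ d, d = Module.finrank ℚ K := ⟨_, rfl⟩
  obtain ⟨a, ha⟩ : ∃ a : ℕ, 4 * d * F.c ≤ 2 ^ a := ⟨_, (Nat.lt_two_pow_self).le⟩
  obtain ⟨b, hb⟩ : ∃ b : ℕ, l ^ (1 + F.e0) ≤ 2 ^ b := ⟨_, (Nat.lt_two_pow_self).le⟩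
  obtain ⟨A, hA⟩ : ∃ A, A = a + c + b := ⟨_, rfl⟩
  obtain ⟨B, hB⟩ : ∃ B, B = 2 * A * F.c := ⟨_, rfl⟩
  refine ⟨3 + B + (A + 1) * c * B + A, fun X₀ hX => ?_⟩
  have hX1 : 1 ≤ X₀ := by omega
  obtain ⟨L, hL⟩ : ∃ L, L = Nat.log 2 X₀ := ⟨_, rfl⟩
  have hL1 : 1 ≤ L := hL ▸ Nat.log_pos one_lt_two hX
  have hXL : X₀ ≤ 2 ^ (2 * L) :=
    (Nat.lt_pow_succ_log_self one_lt_two X₀).le.trans (Nat.pow_le_pow_right two_pos (by omega))
  obtain ⟨e', he1, he2⟩ : ∃ e, X₀ ^ (a + c) < l ^ (e + 1) ∧ l ^ e ≤ X₀ ^ (a + c) :=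
    ⟨Nat.log l (X₀ ^ (a + c)), Nat.lt_pow_succ_log_self hl _,
      Nat.pow_log_le_self l (by positivity)⟩
  obtain ⟨e, he⟩ : ∃ e, e = e' + (1 + F.e0) := ⟨_, rfl⟩
  have he0 : F.e0 ≤ e := by omega
  have he3 : X₀ ^ (a + c) ≤ l ^ e := he1.le.trans (Nat.pow_le_pow_right (by omega) (by omega))
  have hmX : l ^ e ≤ X₀ ^ A := by
    rw [he, hA, pow_add, pow_add _ (a + c)]
    exact Nat.mul_le_mul he2 (hb.trans (Nat.pow_le_pow_left hX b))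
  have hD : F.D e ≤ B * L := by
    have h1 : 2 ^ e ≤ 2 ^ (2 * L * A) := by
      rw [pow_mul]
      exact (Nat.pow_le_pow_left hl e).trans (hmX.trans (Nat.pow_le_pow_left hXL A))
    have h2 := Nat.mul_le_mul_left F.c ((Nat.pow_le_pow_iff_right one_lt_two).1 h1)
    refine (F.hD e he0).trans (h2.trans_eq ?_)
    rw [hB]
    ring
  have hr1 := F.lo e he0
  have hr2 := F.hi e he0
  rw [← hL]
  refine ⟨e, he0, by omega, hmX.trans (Nat.pow_le_pow_right hX1 (by omega)),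
    hD.trans (Nat.mul_le_mul_right _ (by omega)), ?_⟩
  obtain ⟨m, hm⟩ : ∃ m, m = l ^ e := ⟨_, rfl⟩
  have hm1 : 1 ≤ m := by rw [hm]; exact Nat.one_le_pow _ _ (by omega)
  rw [← hm] at he3 hmX hr1 hr2 ⊢
  intro X _ θ hcard hint hhouse hperm
  let _ := Fintype.ofFinite X
  have hpos : 0 < F.c * F.r e := lt_of_lt_of_le (Nat.mul_pos hm1 (hn e)) hr1
  have : Nonempty (Fin (F.r e)) := ⟨⟨0, Nat.pos_of_mul_pos_left hpos⟩⟩
  have hH0 : (1 : ℝ) ≤ ((m * X₀ : ℕ) : ℝ) ^ c :=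
    one_le_pow₀ (by exact_mod_cast Nat.mul_pos hm1 hX1)
  have hN : 4 * (Module.finrank ℚ K * Fintype.card X) ≤ Fintype.card (Fin (F.r e)) := by
    rw [Fintype.card_fin, ← hd, ← Nat.card_eq_fintype_card]
    have h1 : F.c * (4 * (d * Nat.card X)) ≤ F.c * F.r e := by
      refine le_trans ?_ hr1
      have h2 : 2 ^ a * X₀ ^ c ≤ m := by
        refine le_trans ?_ he3
        rw [pow_add]
        exact Nat.mul_le_mul_right _ (Nat.pow_le_pow_left hX a)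
      calc F.c * (4 * (d * Nat.card X)) = (4 * d * F.c) * Nat.card X := by ring
        _ ≤ 2 ^ a * (X₀ ^ c * n e) := Nat.mul_le_mul ha hcard
        _ = (2 ^ a * X₀ ^ c) * n e := by ring
        _ ≤ m * n e := Nat.mul_le_mul_right _ h2
    exact Nat.le_of_mul_le_mul_left h1 (Nat.pos_of_mul_pos_right hpos)
  obtain ⟨z, hz0, hz1, hz2⟩ := siegel_int K (fun x i => ∏ k, θ x (F.ch e i k))
    (fun x i => IsIntegral.prod _ fun k _ => hint x _) (H := (((m * X₀ : ℕ) : ℝ) ^ c) ^ F.D e)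
    (one_le_pow₀ hH0)
    (fun σ x i => by
      rw [map_prod, norm_prod]
      calc ∏ k, ‖σ (θ x (F.ch e i k))‖ ≤ ∏ _k : Fin (F.D e), ((m * X₀ : ℕ) : ℝ) ^ c :=
            Finset.prod_le_prod (fun _ _ => norm_nonneg _) fun k _ => hhouse σ x _
        _ = _ := by simp)
    (fun σ hσ x => by
      obtain ⟨x', u, hu⟩ := hperm σ hσ x
      exact ⟨x', u ^ F.D e, fun i => by simp [map_prod, hu, Finset.prod_mul_distrib]⟩) hN
  refine ⟨z, hz0, ?_, hz2⟩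
  have h1 : ((∑ i, |z i| : ℤ) : ℝ) ≤
      F.r e * (8 * (((m * X₀ : ℕ) : ℝ) ^ c) ^ F.D e * F.r e) := by
    push_cast
    have := Finset.sum_le_card_nsmul Finset.univ (fun i => ((|z i| : ℤ) : ℝ)) _
      fun i _ => hz1 i
    simpa using this
  have h2 : F.r e * (8 * ((m * X₀) ^ c) ^ F.D e * F.r e) ≤
      X₀ ^ ((3 + B + (A + 1) * c * B + A) * L) := by
    have h3 : F.r e ≤ X₀ ^ (A * F.c) := by
      rw [pow_mul]; exact hr2.trans (Nat.pow_le_pow_left hmX _)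
    have h4 : m * X₀ ≤ X₀ ^ (A + 1) := by
      rw [pow_succ]; exact Nat.mul_le_mul_right _ hmX
    have h5 : ((m * X₀) ^ c) ^ F.D e ≤ X₀ ^ ((A + 1) * c * (B * L)) := by
      rw [pow_mul, pow_mul X₀]
      exact (Nat.pow_le_pow_left (Nat.pow_le_pow_left h4 _) _).trans
        (Nat.pow_le_pow_right (Nat.pow_pos (Nat.pow_pos hX1)) hD)
    have h6 : 8 ≤ X₀ ^ 3 := Nat.pow_le_pow_left hX 3
    calc F.r e * (8 * ((m * X₀) ^ c) ^ F.D e * F.r e)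
        ≤ X₀ ^ (A * F.c) * (X₀ ^ 3 * X₀ ^ ((A + 1) * c * (B * L)) * X₀ ^ (A * F.c)) :=
          Nat.mul_le_mul h3 (Nat.mul_le_mul (Nat.mul_le_mul h6 h5) h3)
      _ = X₀ ^ (3 + B + (A + 1) * c * B * L) := by
          rw [← pow_add, ← pow_add, ← pow_add, hB]; congr 1; ring
      _ ≤ _ := Nat.pow_le_pow_right hX1 (by
          have := Nat.mul_le_mul_left (3 + B) hL1
          nlinarith [Nat.zero_le (A * L)])
  have h7 : ((∑ i, |z i| : ℤ) : ℝ) ≤ (X₀ : ℝ) ^ ((3 + B + (A + 1) * c * B + A) * L) :=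
    h1.trans (by exact_mod_cast h2)
  exact_mod_cast h7

end Pool.Agent.MT
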