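import Pool.Agent.Lib.MP_d61fbb_ag.MW.Dim
import Pool.Agent.Lib.MP_d61fbb_ag.MT.A5
import Pool.Agent.Lib.MP_d61fbb_ag.MT.HA
import Pool.Agent.Lib.MP_d61fbb_ag.MT.DKp

/-! Abelian varieties with their adelic Galois representation. -/

set_option autoImplicit false

noncomputable section

namespace Pool.Agent.MT

variable [dm : Dim]

open Matrix Polynomial Sum

/-- the prime numbers -/
abbrev Pr := Nat.Primes

/-- matrices of size `2 g` -/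
abbrev M8 (R : Type) := Matrix (I2 gg) (I2 gg) R

/-- matrices of size two -/
abbrev M2 (R : Type) := Matrix (Fin 2) (Fin 2) R

/-- The Galois action on the torsion points of the abelian variety with period matrix `τ` is
given by `ρ`. -/
structure TRep (τ : Matrix (Fin gg) (Fin gg) ℂ) (K : IntermediateField ℚ ℂ) where
  ρ : (ℂ ≃ₐ[K] ℂ) →* ∀ l : Pr, GL (I2 gg) ℤ_[l]
  alg : ∀ (σ : ℂ ≃ₐ[K] ℂ) (a b : I2 gg → ℚ), (∀ (l : Pr) i,
      ‖((ρ σ l).val.map (↑) *ᵥ (fun j => (a j : ℚ_[l])) - fun j => (b j : ℚ_[l])) i‖ ≤ 1) →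
    ∃ c : ℂ, ∀ η, σ (Xc τ (qc a) η) = c * Xc τ (qc b) η

/-- the theta constant with characteristic `a` -/
def thc (τ : Matrix (Fin gg) (Fin gg) ℂ) (a : I2 gg → ℚ) : ℂ := T τ (qc a ∘ inl) (qc a ∘ inr)

/-- rational symplectic matrices -/
def IsSp (γ : M8 ℚ) : Prop := ∀ x y, Ef (γ *ᵥ x) (γ *ᵥ y) = Ef x y

/-- the action on the Siegel space -/
def mob (γ : M8 ℚ) (τ : Matrix (Fin gg) (Fin gg) ℂ) : Matrix (Fin gg) (Fin gg) ℂ :=
  (γ.toBlocks₁₁.map (↑) * τ + γ.toBlocks₁₂.map (↑)) *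
    (γ.toBlocks₂₁.map (↑) * τ + γ.toBlocks₂₂.map (↑))⁻¹

/-- `J` is the complex structure of the abelian variety on `ℝ ^ (2 g)`. -/
def IsCx (τ : Matrix (Fin gg) (Fin gg) ℂ) (J : M8 ℝ) : Prop :=
  ∀ a : I2 gg → ℝ, τ *ᵥ (rc (J *ᵥ a) ∘ inl) + rc (J *ᵥ a) ∘ inr =
    Complex.I • (τ *ᵥ (rc a ∘ inl) + rc a ∘ inr)

end Pool.Agent.MT
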