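import Pool.Agent.Lib.MP_d61fbb_ag.MT.GT5
import Pool.Agent.Lib.MP_d61fbb_ag.MW.S0

/-! The normaliser of a rational subspace is an algebraic group over the rationals. -/

set_option autoImplicit false

open Matrix

namespace Pool.Agent.MT

variable [dm : Dim]

variable {n : Type*} [Fintype n] [DecidableEq n] {E : Matrix n n ℚ}

theorem cx_span {P : Type*} [Finite P] (w : P → ℂ) : w ∈ Submodule.span ℂ
    (Set.range fun lam : ℂ →ₗ[ℚ] ℚ => fun p => (lam (w p) : ℂ)) := by
  classical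
  have := Fintype.ofFinite P
  let b := Module.Basis.ofVectorSpace ℚ ℂ
  let S := Finset.univ.biUnion fun p => (b.repr (w p)).support
  have : w = ∑ k ∈ S, b k • fun p => (b.coord k (w p) : ℂ) := by
    funext p
    simp only [Finset.sum_apply, Pi.smul_apply, smul_eq_mul, Module.Basis.coord_apply]
    conv_lhs => rw [← b.linearCombination_repr (w p), Finsupp.linearCombination_apply,
      Finsupp.sum_of_support_subset _ (Finset.subset_biUnion_of_mem
        (fun p => (b.repr (w p)).support) (Finset.mem_univ p)) _ (by simp)]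
    exact Finset.sum_congr rfl fun k _ => by rw [Rat.smul_def, mul_comm]
  rw [this]
  refine Submodule.sum_mem _ fun k _ => Submodule.smul_mem _ _ (Submodule.subset_span ?_)
  exact ⟨b.coord k, by rw [← this]⟩

/-- the complex span -/
def cSpan (hh : Submodule ℚ (Matrix n n ℚ)) : Submodule ℂ (Matrix n n ℂ) :=
  Submodule.span ℂ ((fun X : Matrix n n ℚ => X.map ((↑) : ℚ → ℂ)) '' (hh : Set (Matrix n n ℚ)))

theorem dual_eq_sum (lam : Module.Dual ℚ (Matrix n n ℚ)) (X : Matrix n n ℚ) :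
    lam X = ∑ i, ∑ j, lam (single i j 1) * X i j := by
  conv_lhs => rw [matrix_eq_sum_single X]
  simp only [map_sum]
  refine Finset.sum_congr rfl fun i _ => Finset.sum_congr rfl fun j _ => ?_
  rw [mul_comm, ← smul_eq_mul, ← map_smul, smul_single, smul_eq_mul, mul_one]

theorem mem_cSpan {hh : Submodule ℚ (Matrix n n ℚ)} {Y : Matrix n n ℂ} : Y ∈ cSpan hh ↔
    ∀ lam ∈ hh.dualAnnihilator, ∑ i, ∑ j, (lam (single i j 1) : ℂ) * Y i j = 0 := by
  refine ⟨fun h lam hl => ?_, fun h => ?_⟩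
  · refine Submodule.span_induction
      (p := fun Y _ => ∑ i, ∑ j, (lam (single i j 1) : ℂ) * Y i j = 0) ?_ (by simp)
      (fun x y _ _ hx hy => by simp [mul_add, Finset.sum_add_distrib, hx, hy])
      (fun c x _ hx => by
        simp only [Matrix.smul_apply, smul_eq_mul, mul_left_comm _ c, ← Finset.mul_sum, hx,
          mul_zero]) h
    rintro _ ⟨X, hX, rfl⟩
    have := (Submodule.mem_dualAnnihilator lam).1 hl X hX
    rw [dual_eq_sum] at this
    simpa using congrArg ((↑) : ℚ → ℂ) this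
  · have := Submodule.apply_mem_span_image_of_mem_span
      (LinearEquiv.curry ℂ ℂ n n).toLinearMap (cx_span (Function.uncurry Y))
    refine Submodule.span_mono ?_ this
    rintro _ ⟨_, ⟨mu, rfl⟩, rfl⟩
    refine ⟨Y.map mu, (Subspace.forall_mem_dualAnnihilator_apply_eq_zero_iff hh _).1
      fun lam hl => ?_, rfl⟩
    rw [dual_eq_sum]
    simpa only [map_sum, ← Rat.smul_def, map_smul, smul_eq_mul, map_zero, map_apply] using
      congrArg mu (h lam hl)

theorem cast_mem_cSpan {hh : Submodule ℚ (Matrix n n ℚ)} {X : Matrix n n ℚ}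
    (h : X.map ((↑) : ℚ → ℂ) ∈ cSpan hh) : X ∈ hh :=
  (Subspace.forall_mem_dualAnnihilator_apply_eq_zero_iff hh _).1 fun lam hl => by
    rw [dual_eq_sum]
    exact_mod_cast (show ∑ i, ∑ j, (lam (single i j 1) : ℂ) * (X i j : ℂ) = 0 from
      mem_cSpan.1 h lam hl)

/-- conjugation -/
def cjL (g : GL n ℂ) : Matrix n n ℂ ≃ₗ[ℂ] Matrix n n ℂ where
  toFun Y := g.val * Y * (g⁻¹).val
  invFun Y := (g⁻¹).val * Y * g.val
  map_add' X Y := by simp [mul_add, add_mul]
  map_smul' c X := by simp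
  left_inv Y := by
    simp only [← Matrix.mul_assoc, Units.inv_mul, Matrix.one_mul]
    rw [Matrix.mul_assoc, Units.inv_mul, Matrix.mul_one]
  right_inv Y := by
    simp only [← Matrix.mul_assoc, Units.mul_inv, Matrix.one_mul]
    rw [Matrix.mul_assoc, Units.mul_inv, Matrix.mul_one]

/-- the normaliser -/
def nrm (W : Submodule ℂ (Matrix n n ℂ)) : Subgroup (GL n ℂ) where
  carrier := {g | ∀ Y ∈ W, g.val * Y * (g⁻¹).val ∈ W}
  one_mem' := by simp
  mul_mem' {a b} ha hb Y hY := by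
    simpa only [Units.val_mul, _root_.mul_inv_rev, Matrix.mul_assoc] using ha _ (hb Y hY)
  inv_mem' {g} hg Y hY := by
    have : W.map (cjL g).toLinearMap = W := Submodule.eq_of_le_of_finrank_eq
      (by rintro _ ⟨Z, hZ, rfl⟩; exact hg Z hZ) (LinearEquiv.finrank_map_eq _ _)
    rw [← this] at hY
    obtain ⟨Z, hZ, rfl⟩ := hY
    rw [inv_inv]
    change (cjL g).symm (cjL g Z) ∈ W
    rwa [LinearEquiv.symm_apply_apply]

theorem mem_nrm {hh : Submodule ℚ (Matrix n n ℚ)} {g : GL n ℂ} : g ∈ nrm (cSpan hh) ↔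
    ∀ X ∈ hh, g.val * X.map (↑) * (g⁻¹).val ∈ cSpan hh := by
  refine ⟨fun h X hX => h _ (Submodule.subset_span ⟨X, hX, rfl⟩), fun h Y hY => ?_⟩
  refine Submodule.span_le.2 ?_
    (Submodule.apply_mem_span_image_of_mem_span (cjL g).toLinearMap hY)
  rintro _ ⟨_, ⟨X, hX, rfl⟩, rfl⟩
  exact h X hX

theorem nrm_alg (hh : Submodule ℚ (Matrix n n ℚ)) : ∃ s : Set (MvPolynomial (n × n) ℚ),
    ∀ g : GL n ℂ, g ∈ nrm (cSpan hh) ↔
      ∀ f ∈ s, MvPolynomial.aeval (fun ij => g.val ij.1 ij.2) f = 0 := by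
  let F : Module.Dual ℚ (Matrix n n ℚ) → Matrix n n ℚ → MvPolynomial (n × n) ℚ := fun lam X =>
    ∑ i, ∑ j, MvPolynomial.C (lam (single i j 1)) *
      (mvPolynomialX n n ℚ * X.map MvPolynomial.C * (mvPolynomialX n n ℚ).adjugate :
        Matrix n n (MvPolynomial (n × n) ℚ)) i j
  refine ⟨{f | ∃ lam ∈ hh.dualAnnihilator, ∃ X ∈ hh, f = F lam X}, fun g => ?_⟩
  have hd : g.val.det ≠ 0 := (isUnit_iff_isUnit_det _).1 g.isUnit |>.ne_zero
  have k : ∀ lam (X : Matrix n n ℚ), MvPolynomial.aeval (fun ij : n × n => g.val ij.1 ij.2) (F lam X) = g.val.det *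
      ∑ i, ∑ j, (lam (single i j 1) : ℂ) * 
        (g.val * X.map ((↑) : ℚ → ℂ) * (g⁻¹).val : Matrix n n ℂ) i j := by
    intro lam X
    let φ := MvPolynomial.aeval (R := ℚ) fun ij : n × n => g.val ij.1 ij.2
    have e : φ.mapMatrix (mvPolynomialX n n ℚ * X.map MvPolynomial.C *
        (mvPolynomialX n n ℚ).adjugate) = g.val.det • (g.val * X.map (↑) * (g⁻¹).val) := by
      rw [map_mul, map_mul, AlgHom.map_adjugate, mvPolynomialX_mapMatrix_aeval, ← Matrix.mul_smul]
      congr 1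
      · congr 1
        ext i j
        simp [φ]
      · rw [← Matrix.one_mul g.val.adjugate, ← Units.inv_mul, Matrix.mul_assoc, mul_adjugate]
        simp
    simp only [F, map_sum, map_mul, Finset.mul_sum]
    refine Finset.sum_congr rfl fun i _ => Finset.sum_congr rfl fun j _ => ?_
    rw [show MvPolynomial.aeval (fun ij : n × n => g.val ij.1 ij.2) _ = _ from
      congrFun (congrFun e i) j]
    simp [mul_left_comm]
  rw [mem_nrm]
  refine ⟨?_, fun h X hX => mem_cSpan.2 fun lam hl => ?_⟩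
  · rintro h _ ⟨lam, hl, X, hX, rfl⟩
    rw [k, mem_cSpan.1 (h X hX) lam hl, mul_zero]
  · exact (mul_eq_zero.1 ((k lam X).symm.trans (h _ ⟨lam, hl, X, hX, rfl⟩))).resolve_left hd

theorem NG.group (hE : Eᵀ = -E) (hEE : E * E = -1) {J : Matrix n n ℝ} (hJ : J * J = -1)
    (h : NG E J) : ∃ (H : Subgroup (GL n ℂ)) (s : Set (MvPolynomial (n × n) ℚ)),
    (∀ g : GL n ℂ, g ∈ H ↔ ∀ f ∈ s, MvPolynomial.aeval (fun ij => g.val ij.1 ij.2) f = 0) ∧
    (∀ t : ℝ, ∃ g ∈ H, g.val = (Real.cos t • (1 : Matrix n n ℝ) + Real.sin t • J).map (↑)) ∧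
    ∃ (γ : Matrix n n ℚ) (g : GL n ℂ), γᵀ * E * γ = E ∧ g.val = γ.map (↑) ∧ g ∉ H := by
  obtain ⟨hh, a1, a2, ⟨X0, a3, a4⟩, a5⟩ := h
  obtain ⟨s, hs⟩ := nrm_alg hh
  refine ⟨nrm (cSpan hh), s, hs, fun t => ?_, ?_⟩
  · have hc := Real.cos_sq_add_sin_sq t
    generalize Real.cos t = c at *
    generalize Real.sin t = s at *
    have e : (c • (1 : Matrix n n ℝ) + s • J) * (c • (1 : Matrix n n ℝ) - s • J) = 1 := by
      simp only [mul_sub, add_mul, Matrix.smul_mul, Matrix.mul_smul, Matrix.one_mul,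
        Matrix.mul_one, hJ]
      linear_combination (norm := module) hc • (1 : Matrix n n ℝ)
    let ψ := Complex.ofRealHom.mapMatrix (m := n)
    refine ⟨⟨ψ (c • 1 + s • J), ψ (c • 1 - s • J), by rw [← map_mul, e, map_one],
      by rw [← map_mul, mul_eq_one_comm.1 e, map_one]⟩, mem_nrm.2 fun X hX => ?_, rfl⟩
    let R := Submodule.span ℝ (qr '' (hh : Set (Matrix n n ℚ)))
    have b1 : ∀ Y ∈ R, J * Y - Y * J ∈ R := fun Y hY => by
      refine Submodule.span_le.2 ?_ (Submodule.apply_mem_span_image_of_mem_span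
        (LinearMap.mulLeft ℝ J - LinearMap.mulRight ℝ J) hY)
      rintro _ ⟨_, ⟨X, hX, rfl⟩, rfl⟩
      exact a5 X hX
    have b2 : ∀ Y ∈ R, ψ Y ∈ cSpan hh := fun Y hY => by
      refine Submodule.span_induction (p := fun Y _ => ψ Y ∈ cSpan hh) ?_ (by simp)
        (fun x y _ _ hx hy => by rw [map_add]; exact Submodule.add_mem _ hx hy)
        (fun r x _ hx => ?_) hY
      · rintro _ ⟨X, hX, rfl⟩
        exact Submodule.subset_span ⟨X, hX, by ext; simp [ψ]⟩
      · rw [show ψ (r • x) = (r : ℂ) • ψ x by ext; simp [ψ]]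
        exact Submodule.smul_mem _ _ hx
    have b3 : qr X ∈ R := Submodule.subset_span ⟨X, hX, rfl⟩
    have b4 := R.add_mem (R.add_mem b3 (R.smul_mem (s * c) (b1 _ b3)))
      (R.smul_mem (s ^ 2 / 2) (b1 _ (b1 _ b3)))
    have e2 : qr X + (s * c) • (J * qr X - qr X * J) + (s ^ 2 / 2) •
        (J * (J * qr X - qr X * J) - (J * qr X - qr X * J) * J) =
        (c • (1 : Matrix n n ℝ) + s • J) * qr X * (c • (1 : Matrix n n ℝ) - s • J) := by
      have : qr X * J * J = -qr X := by rw [Matrix.mul_assoc, hJ]; simp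
      simp only [mul_sub, sub_mul, add_mul, Matrix.smul_mul, Matrix.mul_smul, Matrix.one_mul,
        Matrix.mul_one, ← Matrix.mul_assoc, hJ, this, Matrix.neg_mul]
      linear_combination (norm := module) (-1 : ℝ) • hc • qr X
    have := b2 _ (e2 ▸ b4)
    rw [map_mul, map_mul, show ψ (qr X) = X.map (↑) by ext; simp [ψ]] at this
    exact this
  · by_contra! hc
    refine a4 (lie_simple hE hEE a1 a2 (fun g g' h1 h2 X hX => cast_mem_cSpan ?_) X0 a3)
    let ψ := (Rat.castHom ℂ).mapMatrix (m := n)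
    have := mem_nrm.1 (hc g ⟨ψ g, ψ g', by rw [← map_mul, h1, map_one],
      by rw [← map_mul, mul_eq_one_comm.1 h1, map_one]⟩ h2 rfl) X hX
    change ψ (g * X * g') ∈ _
    rw [map_mul, map_mul]
    exact this

end Pool.Agent.MT
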