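import Pool.Agent.Lib.MP_d61fbb_ag.MW.Top
import Pool.Agent.Lib.MP_d61fbb_ag.MT.G0d
import Pool.Agent.Lib.MP_d61fbb_ag.MT.G7c
import Pool.Agent.Lib.MP_d61fbb_ag.MW.G8a
import Pool.Agent.Lib.MP_d61fbb_ag.MT.GDen
import Pool.Agent.Lib.MP_d61fbb_ag.MW.GT6

/-! Stage two: a relation on the whole orbit forces the Hodge group to be proper. -/

set_option autoImplicit false

noncomputable section

namespace Pool.Agent.MT

variable [dm : Dim]

open Matrix Sum Filter Topology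

theorem g8_cx {z : G.EE gg} (hz : z ∈ G.HH gg) {J : M8 ℝ} (h : IsCx (G.mk z) J) : J = G.Jm z := by
  refine sub_eq_zero.1 (G.Om_inj hz ?_)
  rw [G.cm_sub, Matrix.mul_sub, G.Om_Jm hz, sub_eq_zero]
  refine ext_of_mulVec_single fun j => ?_
  have e : ∀ a : I2 gg → ℝ, G.Om z *ᵥ rc a = G.mk z *ᵥ (rc a ∘ inl) + rc a ∘ inr := fun a => by
    rw [G.Om, fromCols_mulVec, one_mulVec]
  have := h (Pi.single j 1)
  have e1 : rc (Pi.single j 1 : I2 gg → ℝ) = Pi.single j 1 := by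
    ext i; by_cases h : i = j <;> simp [h]
  rw [← e, ← e, e1] at this
  rw [← mulVec_mulVec, smul_mulVec, ← this]
  congr 1
  ext i; simp

/-- matrices that are congruent to one modulo two -/
def g8_two (A : Subring ℚ) : Submonoid (M8 ℚ) where
  carrier := {X | ∀ i j, (X - 1) i j / 2 ∈ A}
  one_mem' := fun i j => by simp
  mul_mem' := fun {X Y} hX hY i j => by
    rw [show X * Y - 1 = (X - 1) * (Y - 1) + (X - 1) + (Y - 1) by noncomm_ring, Matrix.add_apply,
      Matrix.add_apply, add_div, add_div, mul_apply, Finset.sum_div]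
    refine A.add_mem (A.add_mem (A.sum_mem fun k _ => ?_) (hX i j)) (hY i j)
    convert A.mul_mem (ofNat_mem A 2) (A.mul_mem (hX i k) (hY k j)) using 1
    ring

theorem g8_two_int (A : Subring ℚ) {X : M8 ℤ} (h : ∀ i j, (2 : ℤ) ∣ (X - 1) i j) :
    G.zq X ∈ g8_two A := fun i j => by
  obtain ⟨w, hw⟩ := h i j
  convert intCast_mem A w using 1
  have : (G.zq X - 1) i j = ((X - 1) i j : ℤ) := by by_cases h : i = j <;> simp [one_apply, h]
  rw [this, hw]; simp

theorem g8_two_dgm {A : Subring ℚ} {l : ℕ} (hl : Odd l) (h : (l : ℚ)⁻¹ ∈ A) (e : Fin gg → ℕ) (j : ℤ) :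
    G.dgm l e j ∈ g8_two A := by
  have h0 : (l : ℚ) ≠ 0 := by exact_mod_cast hl.pos.ne'
  have h1 : ∀ n : ℕ, ((l : ℚ) ^ n - 1) / 2 ∈ A := fun n => by
    obtain ⟨w, hw⟩ := hl.pow (n := n)
    convert natCast_mem A w using 1
    rw [show (l : ℚ) ^ n = 2 * w + 1 by exact_mod_cast hw]; ring
  have h2 : ∀ n : ℤ, ((l : ℚ) ^ n - 1) / 2 ∈ A := fun n => by
    obtain ⟨n, rfl | rfl⟩ := n.eq_nat_or_neg
    · simpa using h1 n
    · convert A.neg_mem (A.mul_mem (A.pow_mem h n) (h1 n)) using 1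
      rw [_root_.zpow_neg, _root_.zpow_natCast, inv_pow]; field_simp; ring
  rintro (a | a) (b | b) <;> by_cases hh : a = b <;> simp [G.dgm, one_apply, hh, -_root_.zpow_neg, h2]

theorem g8_seq {l : ℕ} [hl : Fact l.Prime] (h2 : l ≠ 2) {k : M8 ℤ_[l]} (hk : GS 1 k) :
    ∃ γ : ℕ → G.Sp gg ℤ, G.Cau l γ ∧ (∀ m i j, (2 : ℤ) ∣ ((γ m).1 - 1) i j) ∧
      Tendsto (fun m => (γ m).1.map (Int.cast : ℤ → ℚ_[l])) atTop (𝓝 (k.map (↑))) := by
  have c : (32 : ℕ).Coprime l := ((Nat.coprime_primes Nat.prime_two hl.out).2 h2.symm).pow_left 5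
  choose γ h1 h3 h4 using fun m => sp_dense_int c hk (m + 1)
  refine ⟨fun m => ⟨γ m, gs_one_iff.1 (h1 m)⟩, fun m => G.Gam_inf (c.pow_right _)
    (mul_mem (h3 _) (inv_mem (h3 _))) fun i j => ?_, fun m i j => Dvd.dvd.trans (by norm_num) (h3 m i j),
    tendsto_pi_nhds.2 fun i => tendsto_pi_nhds.2 fun j => ?_⟩
  · set r : G.Sp gg ℤ := ⟨γ m, gs_one_iff.1 (h1 m)⟩
    have e1 : r.1 * (r⁻¹).1 = 1 := congrArg Subtype.val (mul_inv_cancel r)
    change _ ∣ (γ (m + 1) * (r⁻¹).1 - 1) i j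
    rw [← e1, ← sub_mul, mul_apply]
    refine Finset.dvd_sum fun a _ => Dvd.dvd.mul_right ?_ _
    rw [Nat.cast_pow, ← PadicInt.pow_p_dvd_int_iff]
    simpa [r] using dvd_sub ((pow_dvd_pow _ (Nat.le_succ _)).trans (h4 (m + 1) i a)) (h4 m i a)
  · have l1 : (1 : ℝ) < l := by exact_mod_cast hl.out.one_lt
    refine tendsto_iff_norm_sub_tendsto_zero.2 (squeeze_zero (fun _ => norm_nonneg _) (fun m => ?_)
      ((tendsto_pow_atTop_atTop_of_one_lt l1).inv_tendsto_atTop.comp (tendsto_add_atTop_nat 1)))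
    have := h4 m i j
    rw [← Ideal.mem_span_singleton, ← PadicInt.norm_le_pow_iff_mem_span_pow] at this
    rw [_root_.zpow_neg, _root_.zpow_natCast] at this
    change ‖(γ m i j : ℚ_[l]) - (k i j : ℚ_[l])‖ ≤ _
    simpa [PadicInt.norm_def] using this

theorem g8_form (m r : ℕ) {D : ℕ} (z : Fin r → ℤ) (ch : Fin r → Fin D → I2 gg → ℤ) :
    (fun w => qv z ch (Thm m (G.mk w))) ∈ G.RL gg m D := by
  have h : ∀ a : I2 gg → ℤ, (fun w => Thm m (G.mk w) a) ∈ G.RL gg m 1 := fun a => by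
    convert G.th_mem (M := m) (x := fun j => (a j : ℚ) / m) fun i => ?_ using 2
    · rw [Thm, G.th]; congr 1; funext j; simp
    · by_cases h : m = 0
      · exact ⟨0, by simp [h]⟩
      · exact ⟨4 * a i, by push_cast; field_simp⟩
  have k : ∀ (D : ℕ) (c : Fin D → I2 gg → ℤ),
      (∏ i, fun w => Thm m (G.mk w) (c i)) ∈ G.RL gg m D := fun D => by
    induction D with
    | zero => intro c; simp [G.RL, Submodule.one_le.1]
    | succ D ih => intro c; rw [Fin.prod_univ_castSucc]; exact G.RL_mul (ih _) (h _)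
  convert (G.RL gg m _).sum_mem fun i (_ : i ∈ Finset.univ) => (G.RL gg m _).smul_mem (z i : ℂ)
    (k D (ch i)) using 1
  funext w
  simp [qv]

omit [Dim] in
theorem g8_ring {R : Type} [Ring R] {a d x k k' d' : R} (h : k' * k = 1) (h' : d * d' = 1) :
    a * d * x * (k * d' * k') - 1 = a * d * (x - k') * (k * d' * k') + (a * k' - 1) := by
  have : a * d * k' * (k * d' * k') = a * k' := by
    simp only [mul_assoc]; rw [← mul_assoc k', h, one_mul, ← mul_assoc d, h', one_mul]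
  rw [mul_sub, sub_mul, this]; abel

end Pool.Agent.MT
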