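import Pool.Agent.Lib.MP_d61fbb_ag.MW.SQ1d

/-! Matrices that are one modulo an integer. -/

set_option autoImplicit false
set_option linter.unusedSectionVars false

open NumberField Module Matrix

namespace Pool.Agent.MT.MW

variable {F : Type} [Field F] {O : Subring F} {c : ℕ} {ι : Type} [Fintype ι] [DecidableEq ι]
  {q q' : Matrix ι ι F} {x : F}

/-- `q` is one modulo `a` in the localisation of the matrices over `O` at `c` -/
def CgM (O : Subring F) (c : ℕ) (a : F) (q : Matrix ι ι F) : Prop :=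
  ∃ m : ℕ, m.Coprime c ∧ ∃ Y : Matrix ι ι F, (∀ i j, Y i j ∈ O) ∧ (m : F) • (q - 1) = a • Y

theorem gaq_one (i j : ι) : (1 : Matrix ι ι F) i j ∈ O := by
  rw [one_apply]
  split_ifs
  exacts [O.one_mem, O.zero_mem]

theorem gaq_mul (h : ∀ i j, q i j ∈ O) (h' : ∀ i j, q' i j ∈ O) (i j : ι) : (q * q') i j ∈ O :=
  O.sum_mem fun k _ => O.mul_mem (h i k) (h' k j)

theorem CgM.mul {a : F} (ha : a ∈ O) (h : CgM O c a q) (h' : CgM O c a q') : CgM O c a (q * q') := by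
  obtain ⟨m, hm, Y, hY, e⟩ := h
  obtain ⟨m', hm', Y', hY', e'⟩ := h'
  refine ⟨m * m', hm.mul_left hm', a • (Y * Y') + (m' : F) • Y + (m : F) • Y', fun i j =>
    O.add_mem (O.add_mem (O.mul_mem ha (gaq_mul hY hY' i j)) (O.mul_mem (natCast_mem O m') (hY i j)))
      (O.mul_mem (natCast_mem O m) (hY' i j)), ?_⟩
  have e1 := congrArg₂ (· * ·) e e'
  simp only [smul_mul_assoc, mul_smul_comm, sub_mul, mul_sub, mul_one, one_mul] at e1
  rw [Nat.cast_mul]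
  linear_combination (norm := module) e1 + (m' : F) • e + (m : F) • e'

theorem CgM.tr {a : F} (h : CgM O c a q) : CgM O c a qᵀ := by
  obtain ⟨m, hm, Y, hY, e⟩ := h
  exact ⟨m, hm, Yᵀ, fun i j => hY j i, by simpa using congrArg transpose e⟩

theorem cgM_scal [Nonempty ι] {a : F} : CgM O c a (x • (1 : Matrix ι ι F)) ↔
    ∃ n : ℕ, n.Coprime c ∧ ∃ y ∈ O, (n : F) * (x - 1) = a * y := by
  constructor
  · rintro ⟨m, hm, Y, hY, e⟩
    obtain ⟨i⟩ := ‹Nonempty ι›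
    exact ⟨m, hm, Y i i, hY i i, by simpa using congrFun (congrFun e i) i⟩
  · rintro ⟨n, hn, y, hy, e⟩
    refine ⟨n, hn, y • 1, fun i j => O.mul_mem hy (gaq_one i j), ?_⟩
    rw [smul_smul, ← e]
    module

variable [NumberField F] {cj : F ≃+* F}

/-- the similitude with multiplier `ν` -/
theorem IsOrd.sq_q (h : IsOrd O) (hc : IsCj cj) {N : ℕ}
    (hN : 2 * finrank ℚ F + 5 ≤ N) (C : ℝ) (c0 : c ≠ 0) : ∃ B : ℕ, ∀ (ν y : F) (n : ℕ),
      cj ν = ν → (∀ φ : F →+* ℂ, 0 < (φ ν).re) → (∀ φ ψ : F →+* ℂ, (φ ν).re ≤ C * (ψ ν).re) →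
      n.Coprime (2 * c) → y ∈ O → (n : F) * (ν - 1) = 16 * (c : F) ^ 2 * y →
      ∃ q : Matrix (Fin (2 ^ N)) (Fin (2 ^ N)) F, qᵀ * q = ν • 1 ∧ (∀ i j, cj (q i j) = q i j) ∧
        CgM O (2 * c) (2 * c) q ∧ ∃ s ≤ B, s ≠ 0 ∧ ∀ i j, ((n * s : ℕ) : F) * q i j ∈ O := by
  obtain ⟨B, hB⟩ := h.sq_mat hc hN C c0
  refine ⟨B, fun ν y n h1 h2 h3 hn hy e => ?_⟩
  obtain ⟨s, hs, Y, ⟨z, hz⟩, hY, -, e1, -⟩ := hB ν y n h1 h2 h3 hn hy e
  have cop : (n * s).Coprime (2 * c) := Nat.isCoprime_iff_coprime.1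
    ⟨1, -(8 * c * z), by push_cast; linear_combination hz⟩
  have t0 : n * s ≠ 0 := fun t => by
    rw [t, Nat.coprime_zero_left] at cop
    omega
  have t1 : (n : F) * s ≠ 0 := by exact_mod_cast t0
  have hzF : (n : F) * s - 1 = 16 * (c : F) ^ 2 * z := by exact_mod_cast congrArg (Int.cast : ℤ → F) hz
  have c2 : (2 * c : F) ∈ O := O.mul_mem (ofNat_mem O 2) (natCast_mem O c)
  refine ⟨((n : F) * s)⁻¹ • (1 + (2 * c : F) • Y), ?_, fun i j => ?_,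
    ⟨n * s, cop, Y - (8 * c * z : F) • 1, fun i j => O.sub_mem (hY i j).1 (O.mul_mem (O.mul_mem
      (O.mul_mem (ofNat_mem O 8) (natCast_mem O c)) (intCast_mem O z)) (gaq_one i j)), ?_⟩,
    s, hs, right_ne_zero_of_mul t0, fun i j => ?_⟩
  · rw [transpose_smul, smul_mul_smul_comm, e1, smul_smul]
    generalize (n : F) * s = t at t1
    rw [show t⁻¹ * t⁻¹ * (t ^ 2 * ν) = ν by field_simp]
  · simp only [Matrix.smul_apply, Matrix.add_apply, smul_eq_mul, map_mul, map_inv₀, map_natCast,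
      map_add, map_ofNat, (hY i j).2, one_apply, apply_ite cj, map_one, map_zero]
  · rw [Nat.cast_mul, smul_sub, smul_inv_smul₀ t1]
    rw [sub_eq_iff_eq_add.1 hzF]
    module
  · rw [Nat.cast_mul, Matrix.smul_apply, smul_eq_mul, mul_inv_cancel_left₀ t1]
    exact O.add_mem (gaq_one i j) (O.mul_mem c2 (hY i j).1)

theorem gaq_bal {ν : F} (h2 : ∀ φ : F →+* ℂ, 0 < (φ ν).re) :
    ∃ C : ℝ, ∀ φ ψ : F →+* ℂ, (φ ν).re ≤ C * (ψ ν).re := by
  obtain ⟨C, hC⟩ := (Set.finite_range fun p : (F →+* ℂ) × (F →+* ℂ) =>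
    (p.1 ν).re / (p.2 ν).re).bddAbove
  exact ⟨C, fun φ ψ => (div_le_iff₀ (h2 ψ)).1 (hC ⟨(φ, ψ), rfl⟩)⟩

end Pool.Agent.MT.MW
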