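import Pool.Agent.Lib.MP_d61fbb_ag.MW.IW
import Pool.Agent.Lib.MP_d61fbb_ag.MW.GN2
import Pool.Agent.Lib.MP_d61fbb_ag.MW.Inv

/-! Automorphisms transport theta vectors. -/

set_option autoImplicit false

noncomputable section

namespace Pool.Agent.MT

open Matrix Sum
open Pool.Agent.Lib.MP_696deb_nt.B2 (Qbar jC)

section
variable {g : ℕ} {τ : Matrix (Fin g) (Fin g) ℂ} {O O' : Matrix (I2 g) (I2 g) ℚ}

theorem GS.of_mul {R : Type} [CommRing R] {O O' : Matrix (I2 g) (I2 g) R} (h : GS 1 O)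
    (e : O * O' = 1) : GS 1 O' := fun x y => by
  rw [← one_mul (Ef _ _), ← h, mulVec_mulVec, mulVec_mulVec, e, one_mulVec, one_mulVec, one_mul]

theorem GS.inv_eq {R : Type} [CommRing R] {O O' : Matrix (I2 g) (I2 g) R} (h : GS 1 O)
    (e : O * O' = 1) : O' = (MT.dl O)ᵀ := by
  have e2 := congrArg transpose h.transpose_mul_dl
  rw [transpose_mul, transpose_transpose, one_smul, transpose_one] at e2
  rw [← Matrix.one_mul O', ← e2, Matrix.mul_assoc, e, Matrix.mul_one]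

theorem GS.inv_int (h : GS 1 O) (e : O * O' = 1) {l : Pr} (hO : ∀ i j, ‖(O i j : ℚ_[l])‖ ≤ 1)
    (i j : I2 g) : ‖(O' i j : ℚ_[l])‖ ≤ 1 := by
  rw [h.inv_eq e]
  rcases i with i | i <;> rcases j with j | j <;>
    simpa [MT.dl, toBlocks₁₁, toBlocks₁₂, toBlocks₂₁, toBlocks₂₂] using hO _ _

theorem zz_perp (hτ : Sieg τ) {x : I2 g → ℂ} :
    zz τ x = 0 ↔ ∀ w, zz τ w = 0 → Ef x w = 0 := by
  have e : ∀ v, Ef x (kv τ v) = -(zz τ x ⬝ᵥ v) := fun v => by
    simp only [Ef, kv, zz, elim_comp_inl, elim_comp_inr, dotProduct_neg, add_dotProduct]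
    rw [dotProduct_mulVec, ← mulVec_transpose, hτ.symm]; ring
  refine ⟨fun h w hw => ?_, fun h => funext fun i => ?_⟩
  · rw [show w = kv τ (w ∘ inl) by
      rw [kv, ← eq_neg_of_add_eq_zero_right hw, Sum.elim_comp_inl_inr], e, h, zero_dotProduct, neg_zero]
  · simpa using (e (Pi.single i 1)).symm.trans (h _ (by simp [zz, kv]))

theorem Hom.inv (hτ : Sieg τ) (h : Hom τ O) (hs : GS 1 O) (e : O * O' = 1) : Hom τ O' :=
  fun u hu => (zz_perp hτ).2 fun w hw => by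
    have h1 := hs.map (Rat.castHom ℂ) (O'.map (↑) *ᵥ u) w
    have h2 : O.map (Rat.castHom ℂ) * O'.map (↑) = 1 := by
      rw [← Matrix.map_one (Rat.castHom ℂ) (map_zero _) (map_one _), ← e, Matrix.map_mul]; rfl
    rw [map_one, one_mul, mulVec_mulVec, h2, one_mulVec] at h1
    exact h1.symm.trans ((zz_perp hτ).1 hu _ (h w hw))

end

variable [dm : Dim]

theorem TSys.sgn_cong {k : Type} [Field k] {q : ℕ} (S : TSys k q) {s w : W} (hs : ∀ i, s i ∈ Z2)
    (hw : ∀ i, w i ∈ Z2) : sgn S.e (s + (w + w)) = sgn S.e s := by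
  rw [S.gx_sgn_add hs (t := w + w) fun i => Z2.add_mem (hw i) (hw i), S.gx_sgn_two hw, mul_one, Ef_add_right,
    ← two_mul, half_two, S.gx_one (gx_sg_mul (gx_Ef_mem Z2 hs hw)), mul_one]

theorem cp_map_qa (l : Pr) (O : M8 ℚ) : (O.map qa).map (cp l) = O.map (↑) := by
  ext i j; exact qa_apply _ l

theorem inv_norm {l : Pr} {O : M8 ℚ} (hO : ∀ i j, ‖(O i j : ℚ_[l])‖ ≤ 1) {x : Vl l}
    (hx : ∀ i, ‖x i‖ ≤ 1) (i : I2 gg) : ‖(O.map (↑) *ᵥ x) i‖ ≤ 1 :=
  gn_int_mulVec (of fun i j => (⟨O i j, hO i j⟩ : ℤ_[l])) hx i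

theorem stdAt_rat {l : Pr} {O O' : M8 ℚ} (h : GS 1 O) (e : O * O' = 1)
    (hO : ∀ i j, ‖(O i j : ℚ_[l])‖ ≤ 1) : StdAt l (O.map qa) := fun x => by
  rw [cp_map_qa]
  refine ⟨fun hx i => ?_, inv_norm hO⟩
  have h1 := inv_norm (h.inv_int e hO) hx i
  rwa [mulVec_mulVec, show O'.map ((↑) : ℚ → ℚ_[l]) * O.map (↑) = 1 by
    rw [← Matrix.map_one (Rat.castHom ℚ_[l]) (map_zero _) (map_one _), ← mul_eq_one_comm.1 e,
      Matrix.map_mul]; rfl, one_mulVec] at h1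

theorem StdAt.offM {l p : Pr} {h : M8 AF} (a : StdAt l h) : StdAt l (offM p h) := fun x => by
  by_cases e : l = p
  · subst e; rw [cp_offM_self, one_mulVec]
  · rw [cp_offM_ne e]; exact a x

theorem GS.offM {a : M8 AF} (h : GS 1 a) (p : Pr) : GS 1 (offM p a) := gs_of_cp fun l => by
  by_cases e : l = p
  · subst e; rw [cp_offM_self, map_one]; exact gs_one
  · rw [cp_offM_ne e]; exact h.map (cp l).toRingHom

variable {τ : Matrix (Fin gg) (Fin gg) ℂ} {p : Pr} {O O' : M8 ℚ}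

theorem AutQ.int_two (h : AutQ τ p O) (i j : I2 gg) : ‖(O i j : ℚ_[p2])‖ ≤ 1 := by
  have e : (O i j : ℚ_[p2]) = ((1 : M8 ℤ) i j : ℤ) + (2 : ℤ) * (((O - 1) i j / 2 : ℚ) : ℚ_[p2]) := by
    rw [Matrix.sub_apply, one_apply, one_apply]
    split_ifs <;> push_cast <;> ring
  rw [e]
  refine (Padic.nonarchimedean _ _).trans (max_le (Padic.norm_int_le_one _) ?_)
  rw [norm_mul]
  exact mul_le_one₀ (Padic.norm_int_le_one _) (norm_nonneg _) (h.two i j)

theorem AutQ.sgn (h : AutQ τ p O) {k : Type} [Field k] {q : ℕ} (S : TSys k q) {s : W}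
    (hs : ∀ i, s i ∈ Z2) : sgn S.e (O.map qa *ᵥ s) = sgn S.e s := by
  rw [← S.sgn_cong hs (w := (of fun i j => qa ((O - 1) i j / 2)) *ᵥ s) fun i =>
    Z2.sum_mem fun j _ => Z2.mul_mem (mem_Z2.2 ((congrArg norm (qa_apply _ p2)).trans_le (h.two i j)))
      (hs j), ← add_mulVec]
  conv_rhs => rw [← one_mulVec s, mulVec_mulVec, Matrix.mul_one, ← add_mulVec]
  congr 2
  ext i j : 1
  rw [Matrix.add_apply, Matrix.add_apply, of_apply, ← map_add, add_halves, Matrix.sub_apply, map_sub,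
    map_apply, one_apply, one_apply, apply_ite (algebraMap ℚ AF), map_one, map_zero, add_sub_cancel]

theorem rat_mul_int {l : Pr} {X Y : M8 ℚ} (hX : ∀ i j, ‖(X i j : ℚ_[l])‖ ≤ 1)
    (hY : ∀ i j, ‖(Y i j : ℚ_[l])‖ ≤ 1) (i j : I2 gg) : ‖((X * Y) i j : ℚ_[l])‖ ≤ 1 := by
  simpa [mul_apply, mulVec, dotProduct] using inv_norm hX (fun k => hY k j) i

omit dm in
theorem Hom.mul {ι : Type} [Fintype ι] {τ : Matrix ι ι ℂ} {X Y : Matrix (ι ⊕ ι) (ι ⊕ ι) ℚ}
    (hX : Hom τ X) (hY : Hom τ Y) : Hom τ (X * Y) := fun u hu => by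
  have := hX _ (hY u hu)
  rw [mulVec_mulVec] at this
  exact (congrArg (fun Z => zz τ (Z *ᵥ u)) (Matrix.map_mul (f := Rat.castHom ℂ))).trans this

theorem AutQ.inv (hτ : Sieg τ) (h : AutQ τ p O) (e : O * O' = 1) : AutQ τ p O' := by
  refine ⟨h.gs.of_mul e, h.hom.inv hτ h.gs e, fun i j => ?_, h.gs.inv_int e h.int⟩
  have e1 : O' - 1 = -((O - 1) * O') := by rw [sub_mul, e, Matrix.one_mul, neg_sub]
  have e2 := rat_mul_int (X := (2 : ℚ)⁻¹ • (O - 1)) (fun i j => by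
    rw [Matrix.smul_apply, smul_eq_mul, ← div_eq_inv_mul]; exact h.two i j)
    (h.gs.inv_int e h.int_two) i j
  rwa [e1, Matrix.neg_apply, neg_div, Rat.cast_neg, norm_neg, div_eq_inv_mul, ← smul_eq_mul,
    ← Matrix.smul_apply, ← smul_mul_assoc]

theorem AutQ.mul (h : AutQ τ p O) (h' : AutQ τ p O') : AutQ τ p (O * O') := by
  refine ⟨by simpa using h.gs.mul h'.gs, h.hom.mul h'.hom, fun i j => ?_, rat_mul_int h.int h'.int⟩
  have e1 : O * O' - 1 = (O - 1) * O' + (O' - 1) := by rw [sub_mul, Matrix.one_mul, sub_add_sub_cancel]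
  have e2 := rat_mul_int (X := (2 : ℚ)⁻¹ • (O - 1)) (fun i j => by
    rw [Matrix.smul_apply, smul_eq_mul, ← div_eq_inv_mul]; exact h.two i j) h'.int_two i j
  rw [e1, Matrix.add_apply, add_div, Rat.cast_add]
  refine (Padic.nonarchimedean _ _).trans (max_le ?_ (h'.two i j))
  rwa [div_eq_inv_mul, ← smul_eq_mul, ← Matrix.smul_apply, ← smul_mul_assoc]

/-- rational automorphisms keep the theta functions -/
theorem aut_rat (hτ : Sieg τ) {K : IntermediateField ℚ ℂ} {M : TRep τ K} (A : AR M) (hs : GS 1 O)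
    (hom : Hom τ O) (int : ∀ i j, ‖(O i j : ℚ_[p])‖ ≤ 1) : Aut A p (O.map qa) := by
  obtain ⟨O', e⟩ := hs.isUnit.exists_right_inv
  refine ⟨by simpa using hs.map (algebraMap ℚ AF), stdAt_rat hs e int, fun f hf => ?_⟩
  refine (p_gh τ hτ K M A 1 one_pos _).2 ?_
  simpa using HH_end hs hom ((p_gh τ hτ K M A 1 one_pos _).1 hf)

theorem AutQ.aut (hτ : Sieg τ) {K : IntermediateField ℚ ℂ} {M : TRep τ K} (A : AR M)
    (h : AutQ τ p O) : Aut A p (O.map qa) := aut_rat hτ A h.gs h.hom h.int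

theorem inv_all : INV := by
  intro τ hτ K M A p O O' e hO h F h1 P hF
  have e' : O' * O = 1 := mul_eq_one_comm.1 e
  have m : ∀ {X Y : M8 ℚ}, X * Y = 1 → X.map qa * Y.map qa = 1 := fun {X Y} e => by
    rw [← Matrix.map_mul (f := algebraMap ℚ AF), e, Matrix.map_one _ (map_zero _) (map_one _)]
  have s1 : GS 1 (O.map qa) := by simpa using hO.gs.map (algebraMap ℚ AF)
  have s2 : GS 1 O' := hO.gs.of_mul e
  refine ⟨⟨odd_one, (s1.offM p).isUnit.mul P.unit, P.sim.imp fun u hu x y => ?_,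
    StdAt.mul (stdAt_rat hO.gs e hO.int_two).offM P.two⟩, ?_, fun t ht _ => funext fun x => ?_⟩
  · rw [← mulVec_mulVec, ← mulVec_mulVec, s1.offM p, one_mul, hu]
  · refine (p_gh τ hτ K M A 1 one_pos _).2 ?_
    simpa using HH_end s2 (hO.hom.inv hτ hO.gs e) ((p_gh τ hτ K M A 1 one_pos _).1 hF.mem)
  · let t' : W := O'.map qa *ᵥ offM p (O.map qa) *ᵥ t
    have ht' : t' ∈ L0 := mem_L0.2 fun i l => by
      change ‖cpv l t' i‖ ≤ 1
      rw [gn_cpv, gn_cpv]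
      by_cases el : l = p
      · subst el
        rw [cp_offM_self, one_mulVec, cp_map_qa]
        exact inv_norm (hO.gs.inv_int e hO.int) (fun i => mem_L0.1 ht i l) i
      · rw [cp_offM_ne el, mulVec_mulVec, ← Matrix.map_mul, m e', Matrix.map_one _ (map_zero _) (map_one _),
          one_mulVec]
        exact mem_L0.1 ht i l
    have e1 : O'.map qa *ᵥ (offM p (O.map qa) * h) *ᵥ t = h *ᵥ t' := gn_vec_ext fun l => by
      rw [← mulVec_mulVec]
      simp only [t', gn_cpv]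
      by_cases el : l = p
      · subst el
        simp only [h1, one_mulVec]
      · simp only [cp_offM_ne el, mulVec_mulVec, ← Matrix.mul_assoc, ← Matrix.map_mul, m e',
          Matrix.one_mul, Matrix.mul_one]
    have e2 : (offM p (O.map qa) * h) *ᵥ t = O.map qa *ᵥ h *ᵥ t' := by
      rw [← e1, mulVec_mulVec, m e, one_mulVec]
    have e3 := congrFun (hF.inv t' ht' (gn_Wp0 _)) (O'.map qa *ᵥ x)
    rw [Pi.smul_apply, e2, hO.sgn A.S (P.z2 ht'), Rt, mulVec_add, mulVec_mulVec _ _ (O.map qa), m e',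
      one_mulVec]
    refine Eq.trans ?_ e3
    rw [Rt, ← one_mul (Ef (h *ᵥ t') _), ← s1, mulVec_mulVec x, m e, one_mulVec]

end Pool.Agent.MT
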