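import Pool.Agent.Lib.MP_d61fbb_ag.MW.GAp
import Pool.Agent.Lib.MP_d61fbb_ag.MW.GAq
import Pool.Agent.Lib.MP_d61fbb_ag.MW.InvA
import Pool.Agent.Lib.MP_d61fbb_ag.MW.EndB

/-! Square roots of the polarisation and lattices in the power. -/

set_option autoImplicit false

noncomputable section

namespace Pool.Agent.MT

open Matrix Polynomial NumberField Ideal
open Pool.Agent.Lib.MP_696deb_nt.B2 (Qbar jC)

section
variable [dm : Dim] {τ : Matrix (Fin gg) (Fin gg) ℂ} {a : M8 ℚ} (EF : EndF τ a) {D : ℕ}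
  {q q' : Matrix (Fin D) (Fin D) EF.F}

theorem EndF.jP_one : EF.jP (1 : Matrix (Fin D) (Fin D) EF.F) = 1 := map_one (EF.jB D)

theorem EndF.jP_mul : EF.jP (q * q') = EF.jP q * EF.jP q' := map_mul (EF.jB D) q q'

theorem EndF.jP_add : EF.jP (q + q') = EF.jP q + EF.jP q' := map_add (EF.jB D) q q'

theorem EndF.jP_smul (y : EF.F) : EF.jP (y • q) = EF.jP q * dg D (EF.j y) := by
  rw [← EF.jB_scalar]
  exact (congrArg (EF.jB D) (by rw [mul_smul_comm, mul_one])).trans (map_mul (EF.jB D) q (y • 1))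

theorem EndF.jP_hom : Hom (tauP D τ) (EF.jP q) := EF.jB_hom q

theorem EndF.jP_int (h : ∀ i j, q i j ∈ EF.O) :
    ∃ Z : Matrix (I2 (D * gg)) (I2 (D * gg)) ℤ, EF.jP q = Z.map (↑) :=
  ⟨_, (EF.jZ_cast h).symm⟩

theorem EndF.jP_adj (h : ∀ i j, EF.cj (q i j) = q i j) :
    (EF.jP q)ᵀ * J (Fin (D * gg)) ℚ = J (Fin (D * gg)) ℚ * EF.jP qᵀ := by
  have e : ∀ u v, u ⬝ᵥ ((EF.jB D q)ᵀ * J (Fin (D * gg)) ℚ) *ᵥ v =
      u ⬝ᵥ (J (Fin (D * gg)) ℚ * EF.jB D qᵀ) *ᵥ v := fun u v => by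
    have := EF.jB_adj (A := ℚ) q u v
    rw [EF.ad_fix q h, Ef_eq, Ef_eq, neg_inj, mulVec_mulVec] at this
    rw [← mulVec_mulVec, dotProduct_mulVec u, vecMul_transpose]
    exact this
  change (EF.jB D q)ᵀ * _ = _ * EF.jB D qᵀ
  ext i j
  simpa using e (Pi.single i 1) (Pi.single j 1)

theorem EndF.jP_comm {X : M8 AF} (h : ∀ y, Commute ((EF.j y).map qa) X) :
    Commute ((EF.jP q).map qa) (dg D X) :=
  bl_comm fun k k' => h (q k k')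

end

theorem rat_int_of_two {ι : Type} [DecidableEq ι] {l : Pr} {O : Matrix ι ι ℚ}
    (h : ∀ i j, ‖(((O - 1) i j / 2 : ℚ) : ℚ_[l])‖ ≤ 1) (i j : ι) : ‖(O i j : ℚ_[l])‖ ≤ 1 := by
  have e : (O i j : ℚ_[l]) =
      ((1 : Matrix ι ι ℤ) i j : ℤ) + (2 : ℤ) * (((O - 1) i j / 2 : ℚ) : ℚ_[l]) := by
    rw [Matrix.sub_apply, one_apply, one_apply]
    split_ifs <;> push_cast <;> ring
  rw [e]
  refine (Padic.nonarchimedean _ _).trans (max_le (Padic.norm_int_le_one _) ?_)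
  rw [norm_mul]
  exact mul_le_one₀ (Padic.norm_int_le_one _) (norm_nonneg _) (h i j)

theorem offM_dg [dm : Dim] {D : ℕ} [NeZero D] (p : Pr) (g : M8 AF) :
    offM (dm := dm.pow D) p (dg D g) = dg D (offM p g) := by
  simp only [offM, map_add, map_smul, map_one]
  rfl

variable [dm : Dim] {τ : Matrix (Fin gg) (Fin gg) ℂ} {K : IntermediateField ℚ ℂ} {e k n : ℕ}
  {M : AType τ K e k n} {EF : EndF τ (zM ℚ M.a)} {N : ℕ} {l₀ : Pr} (C : Cx M EF N l₀)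

namespace Cx

variable {C} {ν ν' : EF.F} {q q' : Matrix (Fin (2 ^ N)) (Fin (2 ^ N)) EF.F}

theorem two_c : (2 * C.c : EF.F) ∈ EF.O := mul_mem (ofNat_mem _ 2) (natCast_mem _ _)

theorem adm_one : C.Adm 1 1 := by
  refine ⟨by simp, fun i j => ?_, 1, Nat.coprime_one_left _, 0, fun _ _ => zero_mem _, by simp⟩
  rw [one_apply, apply_ite EF.cj, map_one, map_zero]

theorem Adm.mul (h : C.Adm ν q) (h' : C.Adm ν' q') : C.Adm (ν * ν') (q * q') := by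
  refine ⟨?_, fun i j => by simp only [mul_apply, map_sum, map_mul, h.fix, h'.fix],
    MW.CgM.mul two_c h.cg h'.cg⟩
  rw [transpose_mul, mul_assoc, ← mul_assoc qᵀ, h.orth, smul_mul_assoc, one_mul, mul_smul_comm,
    h'.orth, smul_smul]

theorem Adm.inv (h : C.Adm ν q) (h0 : ν ≠ 0) (hν : EF.cj ν = ν) :
    C.Adm ν⁻¹ (ν⁻¹ • qᵀ) ∧ q * (ν⁻¹ • qᵀ) = 1 := by
  have e : q * (ν⁻¹ • qᵀ) = 1 := mul_eq_one_comm.1 (by
    rw [smul_mul_assoc, h.orth, inv_smul_smul₀ h0])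
  have k : MW.CgM EF.O (2 * C.c) (2 * C.c) qᵀ := MW.CgM.tr h.cg
  have k1 : Cg EF.O (2 * C.c) ν := by
    have := MW.CgM.mul two_c k h.cg
    rw [h.orth, MW.cgM_scal] at this
    simpa only [Cg, Nat.cast_mul, Nat.cast_ofNat] using this
  have k2 : MW.CgM EF.O (2 * C.c) (2 * C.c) (ν⁻¹ • (1 : Matrix (Fin (2 ^ N)) (Fin (2 ^ N)) EF.F)) :=
    MW.cgM_scal.2 (by simpa only [Cg, Nat.cast_mul, Nat.cast_ofNat] using k1.inv EF.isOrd)
  refine ⟨⟨?_, fun i j => ?_, ?_⟩, e⟩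
  · rw [transpose_smul, transpose_transpose, smul_mul_assoc, e]
  · rw [Matrix.smul_apply, transpose_apply, smul_eq_mul, map_mul, map_inv₀, hν, h.fix]
  · have := MW.CgM.mul two_c k2 k
    rwa [smul_mul_assoc, one_mul] at this

theorem adm_scal {y : EF.F} (h : EF.cj y = y) (h' : Cg EF.O (2 * C.c) y) :
    C.Adm (y ^ 2) (y • 1) := by
  refine ⟨by rw [transpose_smul, transpose_one, smul_mul_smul_comm, one_mul, pow_two],
    fun i j => ?_, MW.cgM_scal.2 (by simpa only [Cg, Nat.cast_mul, Nat.cast_ofNat] using h')⟩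
  rw [Matrix.smul_apply, smul_eq_mul, map_mul, h, one_apply, apply_ite EF.cj, map_one, map_zero]

theorem Adm.aut (h : C.Adm 1 q) : AutQ (dm := dm.pow (2 ^ N)) (tauP (2 ^ N) τ) C.p (EF.jP q) := by
  obtain ⟨m, hm, Y, hY, e⟩ := h.cg
  obtain ⟨Z, hZ⟩ := EF.jP_int hY
  have e1 : (m : ℚ) • (EF.jP q - 1) = (2 * C.c : ℚ) • Z.map (↑) := by
    have := congrArg (EF.jB (2 ^ N)) e
    rwa [show (m : EF.F) = algebraMap ℚ EF.F m by simp,
      show (2 * C.c : EF.F) = algebraMap ℚ EF.F (2 * C.c) by simp, algebraMap_smul, algebraMap_smul,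
      map_smul, map_smul, map_sub, map_one, show EF.jB (2 ^ N) Y = _ from hZ] at this
  have h2 : ∀ l : Pr, (l : ℕ) ∣ 2 * C.c → ∀ i j, ‖(((EF.jP q - 1) i j / 2 : ℚ) : ℚ_[l])‖ ≤ 1 :=
    fun l hl i j => by
      have e2 : (m : ℚ) * ((EF.jP q - 1) i j / 2) = (C.c * Z i j : ℤ) := by
        have := congrFun (congrFun e1 i) j
        simp only [Matrix.smul_apply, smul_eq_mul, map_apply] at this
        push_cast
        linear_combination this / 2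
      have e3 := congrArg (fun x : ℚ => ‖(x : ℚ_[l])‖) e2
      simp only [Rat.cast_mul, Rat.cast_natCast, Rat.cast_intCast, norm_mul] at e3
      rw [Padic.norm_natCast_eq_one_iff.2 (hm.symm.coprime_dvd_left hl), one_mul] at e3
      exact e3.trans_le (Padic.norm_int_le_one _)
  refine @AutQ.mk (dm.pow (2 ^ N)) _ _ _ (EF.jB_gs (m := 1) ?_) EF.jP_hom
    (h2 p2 (dvd_mul_right _ _)) (rat_int_of_two (h2 _ (C.pc.mul_left 2)))
  rw [EF.ad_fix q h.fix, h.orth, Rat.cast_one]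

/-- square roots of any depth -/
theorem exists_adm (h1 : EF.cj ν = ν) (h2 : ∀ φ : EF.F →+* ℂ, 0 < (φ ν).re) (s : ℕ)
    (h3 : Cg EF.O (16 * C.c ^ 2 * (C.p : ℕ) ^ (2 * s)) ν) : ∃ q, C.Adm ν q ∧ ∃ m : ℕ,
      m.Coprime (2 * C.c) ∧ ∃ Y : Matrix (Fin (2 ^ N)) (Fin (2 ^ N)) EF.F, (∀ i j, Y i j ∈ EF.O) ∧
        (m : EF.F) • (q - 1) = ((2 * C.c * (C.p : ℕ) ^ s : ℕ) : EF.F) • Y := by
  obtain ⟨B, hB⟩ := MW.gaq_bal h2
  obtain ⟨_, h⟩ := EF.isOrd.sq_q EF.pos C.hN B (c := C.c * (C.p : ℕ) ^ s)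
    (mul_ne_zero C.c0 (pow_ne_zero _ C.p.2.ne_zero))
  obtain ⟨m, hm, y, hy, e⟩ := h3
  obtain ⟨q, a1, a2, ⟨t, ht, Y, hY, a3⟩, -⟩ := h ν y m h1 h2 hB
    (hm.coprime_dvd_right ⟨8 * C.c * (C.p : ℕ) ^ s, by ring⟩) hy (by rw [e]; push_cast; ring)
  have ht' : t.Coprime (2 * C.c) := ht.coprime_dvd_right ⟨(C.p : ℕ) ^ s, by ring⟩
  refine ⟨q, ⟨a1, a2, t, ht', (((C.p : ℕ) ^ s : ℕ) : EF.F) • Y,
    fun i j => mul_mem (natCast_mem _ _) (hY i j), ?_⟩, t, ht', Y, hY, ?_⟩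
  · rw [a3, smul_smul, Nat.cast_mul, mul_assoc]
  · rw [a3, mul_assoc, Nat.cast_mul 2, Nat.cast_ofNat]

variable (C) in
/-- square roots with a bounded denominator -/
theorem exists_adm_bd : ∃ B : ℕ, ∀ (x : GW EF) (d : ℕ), EF.cj x.2 = x.2 →
    (∀ φ : EF.F →+* ℂ, 0 < (φ x.2).re) → Cg EF.O (16 * C.c ^ 2) (x.2 : EF.F) → C.Bal x →
    d.Coprime (2 * C.c) → (d : EF.F) * x.2 ∈ EF.O →
      ∃ q, C.Adm x.2 q ∧ ∃ s ≤ B, s ≠ 0 ∧ ∀ i j, ((d * s : ℕ) : EF.F) * q i j ∈ EF.O := by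
  obtain ⟨B, h⟩ := EF.isOrd.sq_q EF.pos C.hN C.Cb C.c0
  refine ⟨B, fun x d h1 h2 h3 h4 h5 h6 => ?_⟩
  obtain ⟨y, hy, e⟩ := h3.den h6
  obtain ⟨q, a1, a2, a3, a4⟩ := h x.2 y d h1 h2 (fun φ ψ => by
    have t := (Complex.re_le_norm _).trans (h4 φ ψ)
    rwa [EF.pos.im_eq h1 ψ, Complex.norm_real, Real.norm_of_nonneg (h2 ψ).le] at t) h5 hy
    (by rw [e]; push_cast; ring)
  exact ⟨q, ⟨a1, a2, a3⟩, a4⟩

theorem hh_atp {g : M8 AF} (h : g.map (cp C.p) = 1) : (C.hh g q).map (cp C.p) = 1 := by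
  rw [hh, Matrix.map_mul, cp_offM_self (dm := dm.pow (2 ^ N)), dg_map _ (map_zero _), h, map_one,
    Matrix.mul_one]

theorem hh_mul {g u : M8 AF} : C.hh (g * u) q = C.hh g q * dg (2 ^ N) u := by
  rw [hh, hh, map_mul, Matrix.mul_assoc]

theorem hh_left {g u : M8 AF} (hu : u.map (cp C.p) = 1) (h : ∀ y, Commute ((EF.j y).map qa) u) :
    C.hh (u * g) q = dg (2 ^ N) u * C.hh g q := by
  rw [hh, hh, map_mul, ← Matrix.mul_assoc, ← Matrix.mul_assoc]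
  congr 1
  refine gn_mat_ext fun l => ?_
  by_cases e : l = C.p
  · rw [e, Matrix.map_mul, Matrix.map_mul, cp_offM_self (dm := dm.pow (2 ^ N)), Matrix.mul_one,
      Matrix.one_mul]
  · rw [Matrix.map_mul, Matrix.map_mul, cp_offM_ne (dm := dm.pow (2 ^ N)) e, ← Matrix.map_mul,
      ← Matrix.map_mul, (EF.jP_comm h).eq]

theorem hh_q {g : M8 AF} : C.hh g (q' * q) =
    offM (dm := dm.pow (2 ^ N)) C.p ((EF.jP q').map qa) * C.hh g q := by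
  rw [hh, hh, EF.jP_mul, Matrix.map_mul (f := algebraMap ℚ AF), offM_mul (dm := dm.pow (2 ^ N)),
    Matrix.mul_assoc]

theorem hh_scal {g : M8 AF} (y : EF.F) :
    C.hh g (y • q) = C.hh (offM C.p ((EF.j y).map qa) * g) q := by
  rw [hh, hh, EF.jP_smul, Matrix.map_mul (f := algebraMap ℚ AF), offM_mul (dm := dm.pow (2 ^ N)),
    Matrix.mul_assoc, map_mul, dg_map _ (map_zero _), offM_dg]

variable {x : GW EF} {D : ∀ i, Ideal (𝓞 (C.E i))}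

theorem Pnt.pt (h : C.Pnt x D) (hq : C.Adm x.2 q) : Pt (dm := dm.pow (2 ^ N)) 1 (C.hh x.1 q) :=
  h.pt' hq

/-- the denominators of a point -/
theorem Pnt.den (h : C.Pnt x D) : (∀ (l : Pr) i j, ‖cp l (x.1.val i j)‖ ≤ 1) ∧
    (∀ (l : Pr) i j, ‖((nLev D ^ k : ℕ) : ℚ_[l]) * cp l (x.1⁻¹.val i j)‖ ≤ 1) ∧
    ((nLev D ^ (2 * k) : ℕ) : EF.F) * x.2 ∈ EF.O ∧ (x.2 : EF.F)⁻¹ ∈ EF.O := h.den'

end Cx

end Pool.Agent.MT
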