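import Pool.Agent.Lib.MP_d61fbb_ag.MW.GNu
import Pool.Agent.Lib.MP_d61fbb_ag.MW.EndB

/-! The lattice of a point is polarised; denominators. -/

set_option autoImplicit false

noncomputable section

namespace Pool.Agent.MT

open Matrix Polynomial NumberField Ideal

section
variable {ι : Type} [Fintype ι] [DecidableEq ι] {l : Pr} {X : Matrix ι ι ℚ_[l]}

/-- the integral matrices -/
def ZM (ι : Type) [Fintype ι] [DecidableEq ι] (l : Pr) : Subring (Matrix ι ι ℚ_[l]) :=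
  (PadicInt.Coe.ringHom (p := l)).mapMatrix.range

theorem mem_ZM : X ∈ ZM ι l ↔ ∀ i j, ‖X i j‖ ≤ 1 :=
  ⟨by rintro ⟨w, rfl⟩ i j; exact (w i j).2, fun h => ⟨of fun i j => ⟨_, h i j⟩, rfl⟩⟩

theorem zm_map (w : Matrix ι ι ℤ_[l]) : w.map (↑) ∈ ZM ι l := ⟨w, rfl⟩

theorem zm_tr (h : X ∈ ZM ι l) : Xᵀ ∈ ZM ι l := mem_ZM.2 fun i j => mem_ZM.1 h j i

theorem zm_smul {c : ℚ_[l]} (hc : ‖c‖ ≤ 1) (h : X ∈ ZM ι l) : c • X ∈ ZM ι l := mem_ZM.2 fun i j => by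
  rw [Matrix.smul_apply, norm_smul]
  exact mul_le_one₀ hc (norm_nonneg _) (mem_ZM.1 h i j)

theorem zm_J {g : ℕ} : J (Fin g) ℚ_[l] ∈ ZM (I2 g) l := ⟨J _ _, map_J _ _⟩

theorem zm_nat {m : ℕ} {c : ℕ} (h : m.Coprime c) (hl : (l : ℕ) ∣ c) : ‖(m : ℚ_[l])‖ = 1 :=
  Padic.norm_natCast_eq_one_iff.2 (h.coprime_dvd_right hl).symm

end

variable [dm : Dim]

theorem stdAt_of_gs {l : Pr} {h : M8 AF} {u : ℚ_[l]} (e : h.map (cp l) ∈ ZM _ l) (hu : ‖u‖ = 1)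
    (hg : GS u (h.map (cp l))) (x : Vl l) :
    (∀ i, ‖(h.map (cp l) *ᵥ x) i‖ ≤ 1) ↔ ∀ i, ‖x i‖ ≤ 1 := by
  have h0 : u ≠ 0 := fun e => by simp [e] at hu
  obtain ⟨w, hw⟩ := e
  obtain ⟨w', hw'⟩ : u⁻¹ • -(J (Fin gg) ℚ_[l] * (h.map (cp l))ᵀ * J (Fin gg) ℚ_[l]) ∈ ZM _ l :=
    zm_smul (by rw [norm_inv, hu, inv_one]) (neg_mem (mul_mem (mul_mem zm_J (zm_tr ⟨w, hw⟩)) zm_J))
  have h1 : w' * w = 1 := Matrix.map_injective Subtype.val_injective (by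
    have e1 := map_mul (PadicInt.Coe.ringHom (p := l)).mapMatrix w' w
    rw [hw, hw', smul_mul_assoc, neg_mul, mul_assoc, mul_assoc, ← mul_assoc _ (J _ _), gs_iff.1 hg,
      mul_smul_comm, J_squared, smul_neg u, neg_neg, smul_smul, inv_mul_cancel₀ h0, one_smul] at e1
    exact e1.trans (map_one (PadicInt.Coe.ringHom (p := l)).mapMatrix).symm)
  exact stdAt_of_eq ⟨w, w', mul_eq_one_comm.1 h1, h1⟩ hw.symm x

theorem Blk.Nm_nat {e k n l : ℕ} [Fact l.Prime] {a : M8 ℤ} (D : Blk e k n l a) (m : ℕ) :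
    D.Nm ((m : D.R) • 1) = (m : ℤ_[l]) ^ k • 1 := Matrix.map_injective (s2_inj l) (by
  have e1 : bkp D.io (fun i => ((m : D.R) • (1 : M2 D.R)).map (D.s i)) =
      (m : PadicAlgCl l) ^ k • 1 := by
    have e2 : ∀ i, ((m : D.R) • (1 : M2 D.R)).map (D.s i) = (m : PadicAlgCl l) • 1 := fun i => by
      rw [gn_map_smul, map_natCast, Matrix.map_one _ (map_zero _) (map_one _)]
    simp only [e2, bkp, kp_smul, kp_one, Finset.prod_const, Finset.card_univ, Fintype.card_fin]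
    rw [← blockDiagonal_one, ← blockDiagonal_smul]
    rfl
  simp only [D.nm, e1, Matrix.mul_smul, Matrix.smul_mul, Matrix.mul_one, D.mul_inv]
  rw [gn_map_smul, map_pow, map_natCast, Matrix.map_one _ (map_zero _) (map_one _)])

variable {τ : Matrix (Fin gg) (Fin gg) ℂ} {K : IntermediateField ℚ ℂ} {e k n : ℕ}
  {M : AType τ K e k n} {EF : EndF τ (zM ℚ M.a)} {N : ℕ} {l₀ : Pr} {C : Cx M EF N l₀}

namespace Cx

theorem jl_O {l : Pr} {y : EF.F} (h : y ∈ EF.O) : jl l y ∈ ZM _ l := by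
  obtain ⟨c, hc⟩ := h
  refine mem_ZM.2 fun i j => ?_
  rw [jl_eq, hc, map_apply, map_apply, Rat.cast_intCast]
  exact Padic.norm_int_le_one _

theorem O_of {y : EF.F} (h : ∀ l, jl l y ∈ ZM _ l) : y ∈ EF.O := by
  choose c hc using fun i j => BW.rat_int (EF.j y i j) fun l => mem_ZM.1 (h l) i j
  exact ⟨of c, by ext i j; exact (hc i j).symm⟩

theorem jl_nat (l : Pr) (m : ℕ) (y : EF.F) : jl l ((m : EF.F) * y) = (m : ℚ_[l]) • jl l y := by
  rw [map_mul, map_natCast, ← nsmul_eq_mul, Nat.cast_smul_eq_nsmul]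

theorem jl_loc {l : Pr} {m : ℕ} {y : EF.F} (hm : ‖(m : ℚ_[l])‖ = 1) (h : (m : EF.F) * y ∈ EF.O) :
    jl l y ∈ ZM _ l := by
  have h0 : (m : ℚ_[l]) ≠ 0 := fun e => by simp [e] at hm
  have := zm_smul (c := (m : ℚ_[l])⁻¹) (by rw [norm_inv, hm, inv_one]) (jl_O (l := l) h)
  rwa [jl_nat, smul_smul, inv_mul_cancel₀ h0, one_smul] at this

theorem jl_cg {l : Pr} {c : ℕ} {y : EF.F} (hl : (l : ℕ) ∣ c) (h : Cg EF.O c y) :
    jl l y ∈ ZM _ l := by
  obtain ⟨m, hm, z, hz, e⟩ := h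
  refine jl_loc (zm_nat hm hl) ?_
  rw [show (m : EF.F) * y = c * z + m by rw [← e]; ring]
  exact add_mem (mul_mem (natCast_mem _ _) hz) (natCast_mem _ _)

theorem Adm.zm {ν : EF.F} {q : Matrix (Fin (2 ^ N)) (Fin (2 ^ N)) EF.F} (h : C.Adm ν q) {l : Pr}
    (hl : (l : ℕ) ∣ 2 * C.c) : (EF.jP q).map ((↑) : ℚ → ℚ_[l]) ∈ ZM _ l := by
  obtain ⟨m, hm, Y, hY, e⟩ := h.cg
  refine mem_ZM.2 fun i j => mem_ZM.1 (jl_loc (y := q (ix _ _ i).1 (ix _ _ j).1) (zm_nat hm hl) ?_)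
    (ix _ _ i).2 (ix _ _ j).2
  generalize (ix _ _ i).1 = a
  generalize (ix _ _ j).1 = b
  have e1 := congrFun (congrFun e a) b
  simp only [Matrix.smul_apply, Matrix.sub_apply, smul_eq_mul] at e1
  rw [show (m : EF.F) * q a b = 2 * C.c * Y a b + m * (1 : Matrix _ _ EF.F) a b by rw [← e1]; ring]
  refine add_mem (mul_mem (mul_mem (ofNat_mem _ 2) (natCast_mem _ _)) (hY a b))
    (mul_mem (natCast_mem _ _) ?_)
  rw [one_apply]
  split_ifs
  exacts [one_mem _, zero_mem _]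

variable {x : GW EF} {D : ∀ i, Ideal (𝓞 (C.E i))} {q : Matrix (Fin (2 ^ N)) (Fin (2 ^ N)) EF.F}

theorem Pnt.ok' (h : C.Pnt x D) : Ok C.cO D := fun i => ⟨fun e => by
  have := h.cop i
  rw [e, zero_eq_bot, absNorm_bot, Nat.coprime_zero_left] at this
  exact absurd C.two_le (by omega), h.cj i⟩

theorem Pnt.zm (h : C.Pnt x D) (l : Pr) : x.1.val.map (cp l) ∈ ZM _ l ∧
    ((nLev D ^ k : ℕ) : ℚ_[l]) • x.1⁻¹.val.map (cp l) ∈ ZM _ l := by
  have e0 : x.1⁻¹.val.map (cp l) * x.1.val.map (cp l) = 1 := by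
    rw [← Matrix.map_mul, Units.inv_mul, Matrix.map_one _ (map_zero _) (map_one _)]
  by_cases hl : (l : ℕ) ∣ C.f
  · obtain ⟨w, hw⟩ := (h.bad l hl).int
    obtain ⟨w', hw'⟩ := ((h.bad l hl).inv x.1.mul_inv).int
    exact ⟨hw ▸ zm_map w, zm_smul (by simpa using Padic.norm_int_le_one (p := l) (nLev D ^ k : ℕ))
      (hw' ▸ zm_map w')⟩
  · obtain ⟨g, ⟨u, hu, e1⟩, h1⟩ := h.good l hl
    obtain ⟨w, hw⟩ := (C.lt l hl).lv_dvd D g h.ok' h1
    obtain ⟨v, hv⟩ := hu.exists_right_inv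
    have e2 : aeval (zM ℤ_[l] M.a) u * (C.bk l hl).Nm g *
        ((C.bk l hl).Nm (w • g.adjugate) * v) = ((nLev D : ℕ) : ℤ_[l]) ^ k • 1 := by
      rw [mul_assoc, ← mul_assoc ((C.bk l hl).Nm g), ← Blk.Nm_mul, Matrix.mul_smul, mul_adjugate,
        smul_smul, mul_comm w, ← hw, Blk.Nm_nat, smul_mul_assoc, one_mul, mul_smul_comm, hv]
    refine ⟨e1 ▸ zm_map _, (C.bk l hl).Nm (w • g.adjugate) * v, ?_⟩
    have e3 := congrArg (PadicInt.Coe.ringHom (p := l)).mapMatrix e2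
    rw [map_mul] at e3
    rw [← one_mul (RingHom.mapMatrix _ _), ← e0, mul_assoc, e1]
    refine (congrArg _ e3).trans ?_
    rw [RingHom.mapMatrix_apply, gn_map_smul, Matrix.map_one _ (map_zero _) (map_one _), map_pow,
      map_natCast, mul_smul_comm, mul_one, Nat.cast_pow]

theorem Pnt.den' (h : C.Pnt x D) : (∀ (l : Pr) i j, ‖cp l (x.1.val i j)‖ ≤ 1) ∧
    (∀ (l : Pr) i j, ‖((nLev D ^ k : ℕ) : ℚ_[l]) * cp l (x.1⁻¹.val i j)‖ ≤ 1) ∧
    ((nLev D ^ (2 * k) : ℕ) : EF.F) * x.2 ∈ EF.O ∧ (x.2 : EF.F)⁻¹ ∈ EF.O := by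
  have hp : (C.p : ℕ) ∣ 16 * C.c ^ 2 := (C.pc.trans (dvd_pow_self _ two_ne_zero)).mul_left _
  have e0 : ∀ l, x.1.val.map (cp l) * x.1⁻¹.val.map (cp l) = 1 := fun l => by
    rw [← Matrix.map_mul, Units.mul_inv, Matrix.map_one _ (map_zero _) (map_one _)]
  refine ⟨fun l => mem_ZM.1 (h.zm l).1, fun l => mem_ZM.1 (h.zm l).2, O_of fun l => ?_,
    O_of fun l => ?_⟩
  · by_cases hl : l = C.p
    · rw [map_mul, map_natCast]
      exact mul_mem (natCast_mem _ _) (jl_cg (hl ▸ hp) h.cg)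
    · obtain ⟨u, hu, e⟩ := h.pol l hl
      have e1 : jl l (x.2 : EF.F) = u • -(J (Fin gg) ℚ_[l] * (x.1⁻¹.val.map (cp l))ᵀ * J (Fin gg) ℚ_[l] *
          x.1⁻¹.val.map (cp l)) := by
        have e2 := congrArg (fun Y => -(J (Fin gg) ℚ_[l] * (x.1⁻¹.val.map (cp l))ᵀ * Y *
          x.1⁻¹.val.map (cp l))) e
        simp only [mul_assoc, e0, mul_one] at e2
        rw [← mul_assoc _ᵀ, ← transpose_mul, e0, transpose_one, one_mul, ← mul_assoc, J_squared,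
          neg_mul, one_mul, neg_neg] at e2
        rw [jl_eq, e2]
        simp only [mul_assoc, smul_mul_assoc, mul_smul_comm, smul_neg]
      have := zm_smul hu.le (neg_mem (mul_mem (mul_mem (mul_mem zm_J (zm_tr (h.zm l).2)) zm_J)
        (h.zm l).2))
      rw [jl_nat, e1]
      rw [transpose_smul] at this
      simp only [smul_mul_assoc, mul_smul_comm, smul_neg, smul_smul] at this ⊢
      rwa [two_mul, pow_add, Nat.cast_mul, mul_comm _ u]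
  · by_cases hl : l = C.p
    · exact jl_cg (hl ▸ hp) (h.cg.inv EF.isOrd)
    · obtain ⟨u, hu, e⟩ := h.pol l hl
      have h0 : u ≠ 0 := fun e => by simp [e] at hu
      have e1 : u⁻¹ • -(x.1.val.map (cp l) * J (Fin gg) ℚ_[l] * (x.1.val.map (cp l))ᵀ *
          J (Fin gg) ℚ_[l]) * jl l (x.2 : EF.F) = 1 := by
        have e2 := congrArg (fun Y => x.1.val.map (cp l) * J (Fin gg) ℚ_[l] * Y *
          x.1⁻¹.val.map (cp l)) e
        simp only [mul_assoc, e0, mul_one, smul_mul_assoc, mul_smul_comm] at e2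
        rw [← mul_assoc (J _ _) (J _ _), J_squared, neg_mul, one_mul, mul_neg, e0] at e2
        rw [smul_mul_assoc, neg_mul, jl_eq]
        simp only [mul_assoc]
        rw [e2, smul_neg u, neg_neg, smul_smul, inv_mul_cancel₀ h0, one_smul]
      have e3 : jl l (x.2 : EF.F) * jl l (x.2 : EF.F)⁻¹ = 1 := by
        rw [← map_mul, mul_inv_cancel₀ x.2.ne_zero, map_one]
      rw [← one_mul (jl l _), ← e1, mul_assoc, e3, mul_one]
      exact zm_smul (by rw [norm_inv, hu, inv_one])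
        (neg_mem (mul_mem (mul_mem (mul_mem (h.zm l).1 zm_J) (zm_tr (h.zm l).1)) zm_J))

theorem hh_cp {l : Pr} (hl : l ≠ C.p) (g : M8 AF) : (C.hh g q).map (cp l) =
    (EF.jP q).map (algebraMap ℚ ℚ_[l]) * dg (2 ^ N) (g.map (cp l)) := by
  rw [hh, Matrix.map_mul, cp_offM_ne (dm := dm.pow (2 ^ N)) hl, dg_map _ (map_zero _)]
  exact congrArg (· * _) (by ext i j; exact qa_apply _ l)

theorem Pnt.gs (h : C.Pnt x D) (hq : C.Adm x.2 q) (l : Pr) :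
    ∃ u : ℚ_[l], ‖u‖ = 1 ∧ GS u ((C.hh x.1 q).map (cp l)) := by
  by_cases hl : l = C.p
  · refine ⟨1, norm_one, ?_⟩
    subst hl
    rw [hh, Matrix.map_mul, cp_offM_self (dm := dm.pow (2 ^ N)), dg_map _ (map_zero _), h.atp,
      map_one, one_mul]
    exact gs_one
  · obtain ⟨u, hu, e⟩ := h.pol l hl
    refine ⟨u, hu, ?_⟩
    rw [hh_cp hl]
    refine EF.jB_frame (ν := x.2) ((congrArg (· * q) (EF.ad_fix q hq.fix)).trans hq.orth)
      fun a b => ?_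
    rw [Ef_eq, Ef_eq, mulVec_mulVec, mulVec_mulVec, ← vecMul_transpose, ← dotProduct_mulVec,
      mulVec_mulVec, ← mul_assoc, ← mul_assoc]
    rw [show (EF.j x.2).map (algebraMap ℚ ℚ_[l]) = (EF.j x.2).map (↑) from rfl, e, smul_mulVec,
      dotProduct_smul, smul_eq_mul, mul_neg]

theorem Pnt.pt' (h : C.Pnt x D) (hq : C.Adm x.2 q) :
    Pt (dm := dm.pow (2 ^ N)) 1 (C.hh x.1 q) := by
  choose u hu hg using h.gs hq
  have h2 : p2 ≠ C.p := fun e => by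
    have := Frb.big (dm := dm.pow (2 ^ N)) C.v
    rw [show Frb.p (dm := dm.pow (2 ^ N)) C.v = p2 from e.symm] at this
    exact absurd this (by decide)
  refine Pt.mk (dm := dm.pow (2 ^ N)) odd_one ?_ ?_
    (stdAt_of_gs (dm := dm.pow (2 ^ N)) ?_ (hu p2) (hg p2))
  · have h1 : IsUnit q := (isUnit_iff_isUnit_det _).2 (isUnit_of_mul_isUnit_right
      (x := qᵀ.det) (by
        rw [← det_mul, hq.orth, det_smul, det_one, mul_one]
        exact x.2.isUnit.pow _))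
    exact (((h1.map (EF.jB (2 ^ N))).map (algebraMap ℚ AF).mapMatrix).map
      (offH (dm := dm.pow (2 ^ N)) C.p)).mul (x.1.isUnit.map (dg (2 ^ N)))
  · obtain ⟨w, hw⟩ : ∃ w : ∀ l : Pr, ℤ_[l], ∀ l : Pr, (w l : ℚ_[l]) = u l :=
      ⟨fun l => ⟨u l, (hu l).le⟩, fun _ => rfl⟩
    have h3 : IsUnit w := Pi.isUnit_iff.2 fun l => PadicInt.isUnit_iff.2 ((hw l).symm ▸ hu l :)
    refine ⟨h3.unit, fun a b => ?_⟩
    rw [Nat.cast_one, one_mul]
    exact gs_of_cp (dm := dm.pow (2 ^ N)) (μ := zA w) (fun l => ((hw l).symm ▸ hg l : GS (w l : ℚ_[l]) _)) a b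
  · rw [hh_cp h2]
    refine mul_mem (hq.zm (dvd_mul_right _ _)) ?_
    obtain ⟨w, hw⟩ := (h.zm p2).1
    rw [← hw, RingHom.mapMatrix_apply, ← dg_map _ (map_zero _)]
    exact ⟨_, rfl⟩

end Cx

end Pool.Agent.MT
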