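import Pool.Agent.Lib.MP_d61fbb_ag.MW.GAd
import Pool.Agent.Lib.MP_d61fbb_ag.MW.InvA

/-! Rescaling a point by a real unit. -/

set_option autoImplicit false

noncomputable section

namespace Pool.Agent.MT

open Matrix Polynomial NumberField Ideal
open Pool.Agent.Lib.MP_696deb_nt.B2 (Qbar jC)

variable [dm : Dim] {τ : Matrix (Fin gg) (Fin gg) ℂ} {K : IntermediateField ℚ ℂ} {e k n : ℕ}
  {M : AType τ K e k n} {EF : EndF τ (zM ℚ M.a)} {N : ℕ} {l₀ : Pr} (C : Cx M EF N l₀)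

namespace Cx

/-- the endomorphisms away from `p` -/
def jo : EF.F →* M8 AF :=
  (offH C.p).comp ((algebraMap ℚ AF).mapMatrix.comp EF.j.toRingHom).toMonoidHom

theorem jo_eq (y : EF.F) : C.jo y = offM C.p ((EF.j y).map qa) := rfl

theorem cp_jo {l : Pr} (h : l ≠ C.p) (y : EF.F) : (C.jo y).map (cp l) = jl l y :=
  (cp_offM_ne h _).trans (cp_jq l y)

/-- the rescaling by a unit -/
def sc (w : EF.Fˣ) : GW EF := (Units.map C.jo w⁻¹, w ^ 2)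

theorem sc_inv (w : EF.Fˣ) (x : GW EF) : C.sc w⁻¹ * (C.sc w * x) = x := by
  rw [← mul_assoc, show C.sc w⁻¹ * C.sc w = 1 from Prod.ext (by
    rw [Prod.fst_mul, sc, sc, ← map_mul, inv_inv, mul_inv_cancel, map_one]; rfl) (by
    rw [Prod.snd_mul, sc, sc, ← mul_pow, inv_mul_cancel, one_pow]; rfl), one_mul]

omit C in
theorem jl_int (l : Pr) (u : ℤ[X]) : jl l (aeval EF.al u) =
    (aeval (zM ℤ_[l] M.a) (u.map (algebraMap ℤ ℤ_[l]))).map (↑) := by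
  rw [aeval_map_algebraMap]
  refine (hom_aeval (jl l) _ u).trans (Eq.trans (congrArg (aeval · u) ?_)
    (hom_aeval (PadicInt.Coe.ringHom (p := l)).mapMatrix (zM ℤ_[l] M.a) u).symm)
  rw [jl_eq, EF.j_al]
  ext
  simp

variable {C} {x : GW EF} {D : ∀ i, Ideal (𝓞 (C.E i))} {m : ℕ} {θ : (I2 (2 ^ N * gg) → ℤ) → ℂ}
  {w : EF.Fˣ}

theorem sc_atp (h : x.1.val.map (cp C.p) = 1) : (C.sc w * x).1.val.map (cp C.p) = 1 := by
  change (C.jo _ * _).map _ = _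
  rw [Matrix.map_mul, h, jo_eq, cp_offM_self, one_mul]

theorem Th.sc (h : C.Th m x θ) (h1 : EF.cj w = w) (h2 : Cg EF.O (2 * C.c) (w : EF.F)) :
    C.Th m (C.sc w * x) θ := by
  obtain ⟨h0, q, F, hq, hF⟩ := h
  have e : C.hh (C.sc w * x).1 ((w : EF.F) • q) = C.hh x.1 q := by
    rw [hh_scal, ← jo_eq]
    change C.hh (C.jo _ * (C.jo _ * _)) q = _
    rw [← mul_assoc, ← map_mul]
    simp
  refine ⟨sc_atp h0, (w : EF.F) • q, F, ?_, e ▸ hF⟩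
  have := (adm_scal h1 h2).mul hq
  rwa [smul_mul_assoc, one_mul] at this

theorem Pnt.sc (h : C.Pnt x D) (h1 : EF.cj w = w) (h2 : Cg EF.O (16 * C.c ^ 2) (w : EF.F))
    {u u' : ℤ[X]} (hu : (w : EF.F) = aeval EF.al u) (hu' : (w⁻¹ : EF.Fˣ) = aeval EF.al u') :
    C.Pnt (C.sc w * x) D := by
  have e1 : (C.sc w * x).1.val = C.jo (w⁻¹ : EF.Fˣ) * x.1.val := rfl
  have e2 : ((C.sc w * x).2 : EF.F) = w * w * x.2 := by rw [← sq]; rfl
  have h3 : EF.cj (w⁻¹ : EF.Fˣ) = (w⁻¹ : EF.Fˣ) := by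
    rw [Units.val_inv_eq_inv_val, map_inv₀, h1]
  have inj : ∀ l : Pr, Function.Injective fun X : M8 ℤ_[l] => X.map ((↑) : ℤ_[l] → ℚ_[l]) :=
    fun l => map_injective Subtype.val_injective
  have hm : ∀ (l : Pr) (X Y : M8 ℤ_[l]), (X * Y).map ((↑) : ℤ_[l] → ℚ_[l]) = X.map (↑) * Y.map (↑) :=
    fun l X Y => Matrix.map_mul (f := PadicInt.Coe.ringHom (p := l))
  have hU : ∀ l : Pr, IsUnit (aeval (zM ℤ_[l] M.a) (u'.map (algebraMap ℤ ℤ_[l]))) := fun l =>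
    .of_mul_eq_one (aeval (zM ℤ_[l] M.a) (u.map (algebraMap ℤ ℤ_[l]))) (inj l (by
      beta_reduce
      rw [hm, ← jl_int, ← jl_int, ← hu, ← hu', ← map_mul, Units.inv_mul, map_one,
        Matrix.map_one _ rfl rfl]))
  refine ⟨h.cop, h.cj, sc_atp h.atp, ?_, fun φ => ?_, ?_, fun l hl => ?_, fun l hl => ?_,
    fun l hl => ?_⟩
  · rw [e2, map_mul, map_mul, h1, h.fix]
  · have a := EF.pos φ w
    rw [h1, eq_comm, Complex.conj_eq_iff_re] at a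
    have b : (φ w).re ≠ 0 := fun b => by simp [b, eq_comm (a := (0 : ℂ))] at a
    rw [e2, map_mul, map_mul, ← a, ← Complex.ofReal_mul, Complex.re_ofReal_mul]
    exact mul_pos (mul_self_pos.2 b) (h.pos φ)
  · exact e2 ▸ (h2.mul h2).mul h.cg
  · obtain ⟨t, ht, e⟩ := h.pol l hl
    refine ⟨t, ht, e ▸ ?_⟩
    rw [e1, e2, Matrix.map_mul, C.cp_jo hl, transpose_mul, ← jl_eq, ← jl_eq, mul_assoc (_ᵀ),
      jl_adj, h3]
    simp only [mul_assoc]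
    rw [← mul_assoc (jl l _), ← map_mul, ← mul_assoc (jl l _), ← map_mul]
    congr 4
    simp only [Units.val_inv_eq_inv_val]
    field_simp
  · rw [e1, jo_eq]
    refine StdAt.mul (StdAt.offM fun y => ?_) (h.bad l hl)
    obtain ⟨g, hg⟩ := hU l
    rw [cp_jq, hu', jl_int, ← hg]
    exact gx_int_iff g y
  · obtain ⟨g, ⟨t, ht, e⟩, hg⟩ := h.good l hl
    refine ⟨g, ⟨u'.map (algebraMap ℤ ℤ_[l]) * t, by rw [map_mul]; exact (hU l).mul ht, ?_⟩, hg⟩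
    rw [e1, Matrix.map_mul, C.cp_jo (C.ne_p hl), e, hu', jl_int, map_mul, mul_assoc,
      hm l (aeval _ (u'.map _))]

theorem Pnt.bal' (h : C.Pnt x D) :
    ∃ x', C.Pnt x' D ∧ C.Bal x' ∧ ∀ m θ, C.Th m x θ ↔ C.Th m x' θ := by
  obtain ⟨y, y', hy, hy', cy, cy', e, hb⟩ := C.hb x.2 x.2.ne_zero h.fix
  obtain ⟨u, hu⟩ := C.mb_a y hy
  obtain ⟨u', hu'⟩ := C.mb_a y' hy'
  obtain ⟨t, ht⟩ := C.mb_c
  have cg : ∀ z ∈ EF.O, Cg EF.O (16 * C.c ^ 2) (1 + C.mb * z) := fun z hz =>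
    ⟨1, Nat.coprime_one_left _, t * z, EF.O.mul_mem (natCast_mem _ _) hz, by
      rw [ht]; push_cast; ring⟩
  have cj : ∀ z, EF.cj z = z → EF.cj (1 + C.mb * z) = 1 + C.mb * z := fun z hz => by simp [hz]
  have d : 2 * C.c ∣ 16 * C.c ^ 2 := ⟨8 * C.c, by ring⟩
  let w : EF.Fˣ := ⟨_, _, e, (mul_comm _ _).trans e⟩
  refine ⟨C.sc w * x, h.sc (cj y cy) (cg y hy) (u := 1 + u) (u' := 1 + u')
    (by rw [map_add, map_one, ← hu]) (by rw [map_add, map_one, ← hu']; rfl), fun φ ψ => ?_,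
    fun m θ => ⟨fun a => a.sc (cj y cy) ((cg y hy).mono d), fun a => ?_⟩⟩
  · have := hb φ ψ
    rwa [mul_comm (x.2 : EF.F)] at this
  · exact C.sc_inv w x ▸ a.sc (w := w⁻¹) (cj y' cy') ((cg y' hy').mono d)

end Cx

end Pool.Agent.MT
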