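import Pool.Agent.Lib.MP_d61fbb_ag.MW.GD
import Pool.Agent.Lib.MP_d61fbb_ag.MW.EndC

/-! Matrices with a complement in the reduction of the power. -/

set_option autoImplicit false

noncomputable section

namespace Pool.Agent.MT

open Matrix Polynomial NumberField

variable [dm : Dim] {τ : Matrix (Fin gg) (Fin gg) ℂ} {K : IntermediateField ℚ ℂ} {e k n : ℕ}
  {M : AType τ K e k n} {EF : EndF τ (zM ℚ M.a)} {N : ℕ} {l₀ : Pr} (C : Cx M EF N l₀)

namespace Cx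

/-- Frobenius systems for the power -/
abbrev FS : Type := FSys (dm := dm.pow (2 ^ N)) (kk (Frb.w (dm := dm.pow (2 ^ N)) C.v)) C.p

variable {C}

/-- the matrices with a complement -/
abbrev CR (R : C.FS) : Subring (M8 (dm := dm.pow (2 ^ N)) AF) :=
  @TSys.CR (dm.pow (2 ^ N)) _ _ _ (FSys.toTSys (dm := dm.pow (2 ^ N)) R)
    (p_irr (dm := dm.pow (2 ^ N))) (p_genp (dm := dm.pow (2 ^ N)))

variable {R : C.FS} (hR : RedOf (dm := dm.pow (2 ^ N)) C.v R)
include hR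

theorem pi_eq : mA (dm := dm.pow (2 ^ N)) (FSys.π (dm := dm.pow (2 ^ N)) R) =
    dg (2 ^ N) (mA (M.ρ C.φ)) := by
  rw [RedOf.π (dm := dm.pow (2 ^ N)) hR]
  exact mA_rho_pow _

theorem cr_θ : dg (2 ^ N) C.θ ∈ CR R := by
  obtain ⟨r, hr⟩ := C.r2
  rw [θ, map_add, ← pi_eq hR, hr, mul_comm 2 r, mul_smul, map_zsmul]
  refine add_mem (@FSys.pi_mem (dm.pow (2 ^ N)) _ _ _ R _ _) (zsmul_mem ?_ _)
  have h := EF.cmp_dg C.hτ C.v hR (x := EF.al) ⟨M.a, EF.j_al⟩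
  rwa [two_mul, map_add, EF.j_al, Matrix.map_add _ (map_add (algebraMap ℚ AF)), int_qa,
    ← two_zsmul] at h

theorem cr_poly (g : ℤ[X]) : dg (2 ^ N) (aeval C.θ g) ∈ CR R := by
  rw [aeval_eq_sum_range, map_sum]
  exact sum_mem fun i _ => by
    rw [map_zsmul, map_pow]
    exact zsmul_mem (pow_mem (cr_θ hR) _) _

theorem cr_jP {Y : Matrix (Fin (2 ^ N)) (Fin (2 ^ N)) EF.F} (h : ∀ i j, Y i j ∈ EF.O) :
    (EF.jP ((2 : EF.F) • Y)).map qa ∈ CR R := EF.cmp_jB C.hτ C.v hR h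

/-- a multiple of the inverse of the Frobenius operator -/
theorem exists_qb : ∃ (q u : ℤ) (b : M8 (dm := dm.pow (2 ^ N)) AF), b ∈ CR R ∧
    EqOff (dm := dm.pow (2 ^ N)) C.p
      (mA (dm := dm.pow (2 ^ N)) (FSys.π (dm := dm.pow (2 ^ N)) R) * b) q ∧
    ¬ ((C.p : ℕ) : ℤ) ∣ u ∧ q ∣ u * C.c := by
  obtain ⟨q, u, b, h1, h2, h3⟩ := C.hq
  refine ⟨q, u, _, cr_poly hR b, fun l hl => ?_, h2, h3⟩
  have h4 := aeval_of_dvd (C.W.root l hl) h1
  rw [mul_comm, map_mul, map_sub, map_mul, C.W.a_eq l hl, aeval_X, aeval_C, aeval_C, map_intCast,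
    map_intCast, ← C.cp_aeval, ← algebraMap_int_eq, aeval_map_algebraMap,
    show _ - _ = (mA (M.ρ C.φ)).map (cp l) by
      rw [← zsmul_eq_mul, show Matrix.map _ _ = _ from (C.cp_θ l).symm]
      ext
      simp only [θ, map_apply, Matrix.add_apply, Matrix.sub_apply, Matrix.smul_apply, map_add,
        map_zsmul, map_intCast, add_sub_cancel_right], ← Matrix.map_mul] at h4
  rw [pi_eq hR, ← map_mul, dg_map _ (map_zero _), h4, map_intCast]
  exact (map_intCast (cpM (dm := dm.pow (2 ^ N)) l) q).symm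

end Cx

end Pool.Agent.MT
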