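import Pool.Agent.Lib.MP_d61fbb_ag.MW.GD

/-! Congruences in number fields. -/

set_option autoImplicit false

noncomputable section

namespace Pool.Agent.MT

open Matrix Polynomial NumberField Ideal
open Pool.Agent.Lib.MP_696deb_nt.B2 (Qbar jC)

/-- `x` is one modulo `m` after localisation at the primes of `f` -/
def CgE {E : Type} [Field E] (f m : ℕ) (x : E) : Prop :=
  ∃ n : ℕ, n.Coprime f ∧ ∃ y : 𝓞 E, (n : E) * (x - 1) = m * y

theorem cg_norm {R : Type} [CommRing R] {y : R} (hy : IsIntegral ℤ y) {n c : ℕ}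
    (h : n.Coprime c) : ∃ N : ℕ, N.Coprime c ∧ (n + c * y : R) ∣ N := by
  obtain ⟨P, hP, h0⟩ := hy
  have h1 : aeval ((c : R) * y) (P.scaleRoots (c : ℤ)) = 0 := by
    simpa only [map_natCast] using scaleRoots_aeval_eq_zero (r := (c : ℤ)) h0
  have h2 := sub_dvd_eval_sub ((c : R) * y) (-(n : R))
    ((P.scaleRoots (c : ℤ)).map (algebraMap ℤ R))
  have h3 : aeval (-(n : R)) (P.scaleRoots (c : ℤ)) =
      (((P.scaleRoots (c : ℤ)).eval (-(n : ℤ)) : ℤ) : R) := by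
    simpa only [map_neg, map_natCast, eq_intCast, Int.cast_neg, Int.cast_natCast] using
      aeval_algebraMap_apply_eq_algebraMap_eval (A := R) (-(n : ℤ)) (P.scaleRoots (c : ℤ))
  rw [eval_map_algebraMap, eval_map_algebraMap, h1, h3, zero_sub, dvd_neg, sub_neg_eq_add,
    add_comm] at h2
  have h4 : (c : ℤ) ∣ (P.scaleRoots (c : ℤ)).eval (-(n : ℤ)) - (-(n : ℤ)) ^ P.natDegree := by
    rw [eval_eq_sum_range, natDegree_scaleRoots, Finset.sum_range_succ, coeff_scaleRoots,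
      hP.coeff_natDegree, Nat.sub_self, pow_zero, one_mul, one_mul, add_sub_cancel_right]
    refine Finset.dvd_sum fun i hi => ?_
    rw [coeff_scaleRoots]
    exact ((dvd_pow_self _ (Nat.sub_ne_zero_of_lt (Finset.mem_range.1 hi))).mul_left _).mul_right _
  generalize (P.scaleRoots (c : ℤ)).eval (-(n : ℤ)) = N at h2 h4
  refine ⟨N.natAbs, ?_, ?_⟩
  · obtain ⟨k, hk⟩ := h4
    have h5 : IsCoprime N (c : ℤ) := by
      rw [sub_eq_iff_eq_add'.1 hk]
      exact ((Nat.isCoprime_iff_coprime.2 h).neg_left.pow_left).add_mul_left_left k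
    exact Int.isCoprime_iff_gcd_eq_one.1 h5
  · rw [← Int.cast_natCast (R := R) N.natAbs]
    exact h2.trans (Int.cast_dvd_cast _ _ (Int.dvd_natAbs.2 dvd_rfl))

section
variable {F : Type} [Field F] [NumberField F] {O : Subring F} {c c' : ℕ} {x y : F}

theorem cg_one : Cg O c 1 := by
  exact ⟨1, Nat.coprime_one_left c, 0, O.zero_mem, by simp⟩

theorem Cg.mul (h : Cg O c x) (h' : Cg O c y) : Cg O c (x * y) := by
  obtain ⟨n, hn, z, hz, e⟩ := h
  obtain ⟨n', hn', z', hz', e'⟩ := h'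
  refine ⟨n * n', hn.mul_left hn', c * z * z' + n' * z + n * z', O.add_mem (O.add_mem
    (O.mul_mem (O.mul_mem (natCast_mem O c) hz) hz') (O.mul_mem (natCast_mem O n') hz))
    (O.mul_mem (natCast_mem O n) hz'), ?_⟩
  rw [Nat.cast_mul]
  linear_combination (n' * y : F) * e + (n + c * z : F) * e'

theorem Cg.inv (hO : MW.IsOrd O) (h : Cg O c x) : Cg O c x⁻¹ := by
  by_cases x0 : x = 0
  · rw [x0, _root_.inv_zero]; exact x0 ▸ h
  obtain ⟨n, hn, z, hz, e⟩ := h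
  obtain ⟨N, hN, w, hw⟩ := cg_norm (y := (⟨z, hz⟩ : O))
    ((isIntegral_algHom_iff O.subtype.toIntAlgHom Subtype.val_injective).1 (hO.int z hz)) hn
  have e2 : (N : F) = (n + c * z) * w := by
    simpa only [map_natCast, map_mul, map_add, Subring.subtype_apply] using congrArg O.subtype hw
  refine ⟨N, hN, -(z * w), O.neg_mem (O.mul_mem hz w.2), ?_⟩
  rw [e2, ← e]
  linear_combination (n * w : F) * mul_inv_cancel₀ x0 - (w : F) * e

theorem Cg.mono (hc : c ∣ c') (h : Cg O c' x) : Cg O c x := by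
  obtain ⟨k, rfl⟩ := hc
  obtain ⟨n, hn, z, hz, e⟩ := h
  exact ⟨n, hn.coprime_dvd_right (dvd_mul_right c k), k * z, O.mul_mem (natCast_mem O k) hz,
    by rw [e, Nat.cast_mul, mul_assoc]⟩

/-- the denominator can be prescribed -/
theorem Cg.den (h : Cg O c x) {d : ℕ} (hd : (d : F) * x ∈ O) : ∃ y ∈ O, (d : F) * (x - 1) = c * y := by
  obtain ⟨n, hn, z, hz, e⟩ := h
  obtain ⟨u, v, huv⟩ := (Nat.isCoprime_iff_coprime.2 hn)
  have e2 : (u : F) * n + v * c = 1 := by exact_mod_cast congrArg (Int.cast : ℤ → F) huv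
  refine ⟨u * d * z + v * (d * x - d), O.add_mem (O.mul_mem (O.mul_mem (intCast_mem O u)
    (natCast_mem O d)) hz) (O.mul_mem (intCast_mem O v) (O.sub_mem hd (natCast_mem O d))), ?_⟩
  linear_combination (u * d : F) * e - (d * (x - 1) : F) * e2

end

section
variable {E : Type} [Field E] [NumberField E] {f m m' : ℕ} {x y : E}

theorem cgE_one : CgE f m (1 : E) := by
  exact ⟨1, Nat.coprime_one_left f, 0, by simp⟩

theorem CgE.mul (h : CgE f m x) (h' : CgE f m y) : CgE f m (x * y) := by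
  obtain ⟨n, hn, z, e⟩ := h
  obtain ⟨n', hn', z', e'⟩ := h'
  refine ⟨n * n', hn.mul_left hn', m * z * z' + n' * z + n * z', ?_⟩
  simp only [Nat.cast_mul, map_add, map_mul, map_natCast]
  linear_combination (n' * y : E) * e + (n + m * z : E) * e'

theorem CgE.inv (hm : f ∣ m) (h : CgE f m x) : CgE f m x⁻¹ := by
  by_cases x0 : x = 0
  · rw [x0, _root_.inv_zero]; exact x0 ▸ h
  obtain ⟨k, rfl⟩ := hm
  obtain ⟨n, hn, z, e⟩ := h
  obtain ⟨N, hN, w, hw⟩ := cg_norm (y := (k : 𝓞 E) * z) (Algebra.IsIntegral.isIntegral _) hn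
  have e2 : (N : E) = (n + f * (k * z)) * w := by
    simpa only [map_natCast, map_mul, map_add] using congrArg (algebraMap (𝓞 E) E) hw
  refine ⟨N, hN, -(z * w), ?_⟩
  simp only [Nat.cast_mul, map_neg, map_mul] at e ⊢
  rw [e2, ← mul_assoc, ← e]
  linear_combination (n * w : E) * mul_inv_cancel₀ x0 - (w : E) * e

theorem CgE.mono (hm : m ∣ m') (h : CgE f m' x) : CgE f m x := by
  obtain ⟨k, rfl⟩ := hm
  obtain ⟨n, hn, z, e⟩ := h
  exact ⟨n, hn, k * z, by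
    rw [e, Nat.cast_mul, mul_assoc]
    simp only [map_mul, map_natCast]⟩

theorem CgE.map (c : E ≃+* E) (h : CgE f m x) : CgE f m (c x) := by
  obtain ⟨n, hn, z, e⟩ := h
  refine ⟨n, hn, RingOfIntegers.mapRingEquiv c z, ?_⟩
  have e2 := congrArg c e
  simp only [map_mul, map_natCast, map_sub, map_one] at e2
  exact e2

theorem uq_val {a β : 𝓞 E} (ha : a ≠ 0) (hβ : β ≠ 0) : (uq a β : E) = (β : E) / a := by
  rw [uq, dif_pos (div_ne_zero (RingOfIntegers.coe_ne_zero_iff.2 hβ)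
    (RingOfIntegers.coe_ne_zero_iff.2 ha)), Units.val_mk0]

theorem cg_ne (hf : 2 ≤ f) {a : 𝓞 E} (ha : IsCoprime a (f : 𝓞 E)) : a ≠ 0 := by
  rintro rfl
  have h1 := absNorm_span_natCast (S := 𝓞 E) f
  rw [span_singleton_eq_top.2 (isCoprime_zero_left.1 ha), absNorm_top] at h1
  have h2 := (Nat.pow_eq_one.1 h1.symm).resolve_left (by omega)
  exact Module.finrank_pos.ne' h2

theorem uq_cg (hf : 2 ≤ f) {a β : 𝓞 E} (ha : IsCoprime a (f : 𝓞 E)) (h : (f : 𝓞 E) ∣ β - a) :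
    a ≠ 0 ∧ β ≠ 0 ∧ CgE f f (uq a β : E) := by
  obtain ⟨k, hk⟩ := h
  have h1 := cg_ne hf ha
  have h2 : β ≠ 0 := cg_ne hf (by rw [sub_eq_iff_eq_add'.1 hk]; exact ha.add_mul_left_left k)
  obtain ⟨s, t, e⟩ := ha
  obtain ⟨N, hN, w, hw⟩ := cg_norm (y := -t) (Algebra.IsIntegral.isIntegral _)
    (Nat.coprime_one_left f)
  refine ⟨h1, h2, N, hN, s * w * k, ?_⟩
  have e2 : (N : 𝓞 E) = s * a * w := by rw [hw, Nat.cast_one]; linear_combination -w * e
  have e3 := congrArg (algebraMap (𝓞 E) E) e2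
  have e4 := congrArg (algebraMap (𝓞 E) E) hk
  simp only [map_mul, map_sub, map_natCast] at e3 e4 ⊢
  rw [uq_val h1 h2, e3]
  linear_combination (s * w * β : E) * mul_inv_cancel₀ (RingOfIntegers.coe_ne_zero_iff.2 h1) +
    (s * w : E) * e4

/-- the elements that are one modulo `f` -/
def Ga (E : Type) [Field E] [NumberField E] (f : ℕ) : Subgroup Eˣ where
  carrier := {x | CgE f f (x : E)}
  mul_mem' h h' := h.mul h'
  one_mem' := cgE_one
  inv_mem' {x} h := by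
    change CgE f f ((x⁻¹ : Eˣ) : E)
    rw [Units.val_inv_eq_inv_val]
    exact CgE.inv dvd_rfl h

/-- the elements that are one modulo `f p ^ i` up to real elements -/
def Gi (c : E ≃+* E) (f p i : ℕ) : Subgroup (Ga E f) where
  carrier := {x | ∃ y : Ga E f, c (y.1 : E) = y.1 ∧ CgE f (f * p ^ i) ((x / y).1 : E)}
  mul_mem' := by
    rintro a b ⟨y, hy, h⟩ ⟨z, hz, h'⟩
    refine ⟨y * z, by simp only [Subgroup.coe_mul, Units.val_mul, map_mul, hy, hz], ?_⟩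
    rw [mul_div_mul_comm]
    exact h.mul h'
  one_mem' := ⟨1, map_one c, by rw [div_one]; exact cgE_one⟩
  inv_mem' := by
    rintro a ⟨y, hy, h⟩
    refine ⟨y⁻¹, by simp only [Subgroup.coe_inv, Units.val_inv_eq_inv_val, map_inv₀, hy], ?_⟩
    rw [inv_div_inv, ← inv_div, Subgroup.coe_inv, Units.val_inv_eq_inv_val]
    exact h.inv (dvd_mul_right _ _)

theorem gi_anti (c : E ≃+* E) (f p : ℕ) : Antitone (Gi c f p) := by
  rintro i j h x ⟨y, hy, e⟩
  exact ⟨y, hy, e.mono (mul_dvd_mul_left f (pow_dvd_pow p h))⟩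

theorem gcg_div (hf : 2 ≤ f) {B w : 𝓞 E} (hB : IsCoprime B (f : 𝓞 E)) {n : ℕ} (hn : n.Coprime f)
    (h : (n : E) * (x - B) = m * w) : CgE f m (x / B) := by
  obtain ⟨b, c, e⟩ := hB
  have e1 : (f : 𝓞 E) ∣ b * B - 1 := ⟨-c, by linear_combination e⟩
  obtain ⟨-, h0, h1⟩ := uq_cg hf isCoprime_one_left e1
  rw [uq_val one_ne_zero h0] at h1
  obtain ⟨n', hn', y, hy⟩ := h1.inv dvd_rfl
  have h2 : (B : E) ≠ 0 := fun e => h0 (by rw [show B = 0 from Subtype.ext e, mul_zero])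
  have h3 : (b : E) ≠ 0 := fun e => h0 (by rw [show b = 0 from Subtype.ext e, zero_mul])
  refine ⟨n * n', Nat.Coprime.mul_left hn hn', w * (b * (n' + f * y)), ?_⟩
  push_cast at hy ⊢
  rw [← hy, ← mul_assoc (m : E), ← h]
  field_simp
  ring

theorem gcg_cop {B : 𝓞 E} (h : (f : 𝓞 E) ∣ B - 1) : IsCoprime B (f : 𝓞 E) :=
  let ⟨c, e⟩ := h; ⟨1, -c, by linear_combination e⟩

theorem gcg_inv {n m : ℕ} (h : n.Coprime m) : ∃ a b : 𝓞 E, a * n + b * m = 1 :=
  Nat.Coprime.cast h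

theorem gi_pow (c : E ≃+* E) {p : ℕ} (hp : p.Prime) (h2 : p ≠ 2) (hf : p ∣ f) (hf0 : f ≠ 0)
    {r i : ℕ} (h : r ≤ i) {x : Ga E f} (hx : x ∈ Gi c f p i) :
    ∃ d : Ga E f, x / d ^ (p ^ r) ∈ Gi c f p (i + 1) := by
  obtain ⟨y, hy, n, hn, w, e⟩ := hx
  obtain ⟨j, rfl⟩ := Nat.exists_eq_add_of_le h
  have f2 : 2 ≤ f := hp.two_le.trans (Nat.le_of_dvd (Nat.pos_of_ne_zero hf0) hf)
  obtain ⟨a, b, hab⟩ := gcg_inv (E := E) (hn.coprime_dvd_right hf)
  have hu : (p : 𝓞 E) ∣ f * p ^ j := (Nat.cast_dvd_cast hf).mul_right _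
  obtain ⟨t, ht⟩ := ZMod.exists_one_add_mul_pow_prime_pow_eq hp hu (by
    obtain ⟨q, hq⟩ := Nat.exists_eq_add_of_le (show 3 ≤ p by have := hp.two_le; omega)
    rw [show ∀ u : 𝓞 E, u ^ p = u * u * u * u ^ q from fun u => by rw [hq]; ring]
    exact (mul_dvd_mul (mul_dvd_mul hu dvd_rfl) hu).mul_right _) (w * a) r
  have e1 : (f : 𝓞 E) ∣ 1 + f * p ^ j * (w * a) - 1 := ⟨p ^ j * (w * a), by ring⟩
  obtain ⟨-, h0, h1⟩ := uq_cg f2 isCoprime_one_left e1
  refine ⟨⟨_, h1⟩, y, hy, ?_⟩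
  have h3 := gcg_div (x := ((x / y).1 : E)) (m := f * p ^ (r + j + 1)) (w := w * b - n * t) f2
    (gcg_cop e1).pow_left hn (by
      have h4 := congrArg (algebraMap _ E) hab
      rw [ht]
      push_cast at e h4 ⊢
      linear_combination e - (f * p ^ (r + j) * w : E) * h4)
  rw [div_right_comm]
  simpa [uq_val one_ne_zero h0] using h3

/-- the classes of `Near` are the classes of `Gi` -/
theorem gi_near (c : E ≃+* E) (cj : 𝓞 E ≃+* 𝓞 E) (hc : ∀ x, (cj x : E) = c x) {p : ℕ} (hp : p ∣ f)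
    (hf : 2 ≤ f) (s : ℕ) (γ : Ga E f) : ∃ y : 𝓞 E, (f : 𝓞 E) ∣ y - 1 ∧ ∀ a β : 𝓞 E,
      IsCoprime a (f : 𝓞 E) → (f : 𝓞 E) ∣ β - a → Near cj f (f * p ^ s) y a β →
        ∃ x ∈ Gi c f p s, (x * γ).1 = uq a β := by
  obtain ⟨n, hn, w, e⟩ := γ.2
  obtain ⟨n', b, hb⟩ := gcg_inv (E := E)
    (hn.mul_right ((hn.coprime_dvd_right hp).pow_right s))
  refine ⟨1 + f * (w * n'), ⟨w * n', by ring⟩, ?_⟩
  rintro a β ha hβ ⟨u, u', r, r', hu, hu', t, ht⟩
  obtain ⟨a0, β0, h1⟩ := uq_cg hf ha hβ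
  obtain ⟨u'0, u0, h2⟩ := uq_cg hf (gcg_cop hu') (show (f : 𝓞 E) ∣ u - u' by
    simpa using dvd_sub hu hu')
  have hc' : IsCoprime β (f : 𝓞 E) := by
    obtain ⟨d, hd⟩ := hβ
    rw [sub_eq_iff_eq_add'.1 hd]
    exact ha.add_mul_left_left d
  refine ⟨⟨_, h1⟩ / γ, ⟨⟨_, h2⟩, ?_, ?_⟩, congrArg Subtype.val (div_mul_cancel _ γ)⟩
  · rw [uq_val u'0 u0, map_div₀, ← hc, ← hc, r, r']
  · have h3 := (gcg_div (x := (γ.1 : E) * a * u) (m := f * p ^ s) (w := f * w * b * a * u - n * t) hf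
      (hc'.mul_left (gcg_cop hu')) hn (by
        have h4 := congrArg (algebraMap _ E) hb
        have h5 := congrArg (algebraMap _ E) ht
        push_cast at h4 h5 ⊢
        linear_combination (a * u : E) * e - (n : E) * h5 - (f * w * a * u : E) * h4)).inv
      (dvd_mul_right _ _)
    have e2 : ((((⟨_, h1⟩ : Ga E f) / γ / ⟨_, h2⟩).1 : Eˣ) : E) =
        ((γ.1 : E) * a * u / (β * u' : 𝓞 E))⁻¹ := by
      simp only [Subgroup.coe_div, Units.val_div_eq_div_val, uq_val a0 β0, uq_val u'0 u0]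
      push_cast
      field_simp
    rwa [e2]

end

end Pool.Agent.MT
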