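import Pool.Agent.Lib.MP_d61fbb_ag.MW.GNu
import Pool.Agent.Lib.MP_d61fbb_ag.MW.GN2
import Pool.Agent.Lib.MP_d61fbb_ag.MT.EIdl

/-! Moves of points. -/

set_option autoImplicit false

noncomputable section

namespace Pool.Agent.MT

open Matrix Polynomial NumberField Ideal

section
variable {E : Type} [Field E] [NumberField E] {f : ℕ}

theorem mv_cop {β : 𝓞 E} (h : IsCoprime β (f : 𝓞 E)) : (absNorm (span {β})).Coprime f := by
  refine Nat.coprime_of_dvd fun l hl h1 h2 => ?_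
  obtain ⟨P, hP, h3, h4⟩ := idl_exists_prime E hl h1
  obtain ⟨u, v, e⟩ := h
  obtain ⟨c, rfl⟩ := h2
  refine hP.ne_top ((eq_top_iff_one P).2 (e ▸ P.add_mem (P.mul_mem_left _
    (dvd_span_singleton.1 h4)) (P.mul_mem_left _ ?_)))
  rw [Nat.cast_mul]
  exact P.mul_mem_right _ h3

theorem mv_dvd {A D : Ideal (𝓞 E)} (hA : (absNorm A).Coprime f) (hf : 2 ≤ f)
    (h : ∀ l : Pr, ¬ (l : ℕ) ∣ f → ∀ (P : Ideal (𝓞 E)) (m : ℕ), P.IsMaximal →
      ((l : ℕ) : 𝓞 E) ∈ P → P ^ m ∣ A → P ^ m ∣ D) : A ∣ D := by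
  have h0 : A ≠ 0 := by
    rintro rfl
    simp at hA
    omega
  refine (UniqueFactorizationMonoid.dvd_iff_emultiplicity_le h0).2 fun P hP =>
    emultiplicity_le_emultiplicity_iff.2 fun m hm => ?_
  rcases m with _ | m
  · simp
  have hmax : P.IsMaximal := (isPrime_of_prime hP).isMaximal hP.ne_zero
  obtain ⟨q, s, hs, h1, hq, h2⟩ := exists_prime_and_absNorm_eq_pow P
  refine h ⟨q, hq⟩ (fun h3 => hq.one_lt.ne' (Nat.eq_one_of_dvd_coprimes hA ?_ h3)) P _ hmax h1 hm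
  exact ((dvd_pow_self q hs.ne').trans h2.symm.dvd).trans
    (map_dvd absNorm ((dvd_pow_self P m.succ_ne_zero).trans hm))

end

variable [dm : Dim] {τ : Matrix (Fin gg) (Fin gg) ℂ} {K : IntermediateField ℚ ℂ} {e k n : ℕ}
  {M : AType τ K e k n} {EF : EndF τ (zM ℚ M.a)} {N : ℕ} {l₀ : Pr} {C : Cx M EF N l₀}

namespace Cx

variable {x : GW EF} {D : ∀ i, Ideal (𝓞 (C.E i))}

theorem mv_cc (i : C.κ) (A : Ideal (𝓞 (C.E i))) : (A.map (C.cO i)).map (C.cO i) = A := by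
  have : ((C.cO i).toRingHom.comp (C.cO i).toRingHom) = RingHom.id _ :=
    RingHom.ext fun y => Subtype.ext (C.W.cc i y)
  exact (Ideal.map_map (C.cO i).toRingHom (C.cO i).toRingHom).trans (by rw [this, Ideal.map_id])

theorem mv_single (i : C.κ) (a : 𝓞 (C.E i)) :
    (fun i' => ((Pi.mulSingle i a : ∀ i, 𝓞 (C.E i)) i' : C.E i')) = Pi.mulSingle i (a : C.E i) := by
  funext i'
  by_cases h : i' = i
  · subst h
    rw [Pi.mulSingle_eq_same, Pi.mulSingle_eq_same]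
  · rw [Pi.mulSingle_eq_of_ne h, Pi.mulSingle_eq_of_ne h]
    rfl

/-- a move keeps the conditions away from the good primes -/
theorem Pnt.nuG (h : C.Pnt x D) {i : C.κ} {u : (C.E i)ˣ} (hu : CgE C.f C.f (u : C.E i))
    {D' : ∀ i, Ideal (𝓞 (C.E i))} (h1 : ∀ i, (absNorm (D' i)).Coprime C.f)
    (h2 : ∀ i, (D' i).map (C.cO i) = D' i)
    (h3 : ∀ (l : Pr) (hl : ¬ (l : ℕ) ∣ C.f), ∃ g₁, C.Rep (C.nuG i u * x) l hl g₁ ∧
      (C.lt l hl).Lv D' g₁) : C.Pnt (C.nuG i u * x) D' := by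
  obtain ⟨e1, e2⟩ := C.nuG_val i u
  have e3 : (C.nuG i u * x).1.val = C.nuM (Pi.mulSingle i u) * x.1.val := by rw [← e1]; rfl
  have e4 : ((C.nuG i u * x).2 : EF.F) = (C.mu (Pi.mulSingle i u))⁻¹ * x.2 := by rw [← e2]; rfl
  have h0 : C.mu (Pi.mulSingle i u) ≠ 0 := fun e => (C.nuG i u).2.ne_zero (by rw [e2, e, _root_.inv_zero])
  refine ⟨h1, h2, ?_, ?_, fun φ => ?_, ?_, fun l hl => ?_, fun l hl => ?_, h3⟩
  · rw [e3, Matrix.map_mul, C.nuM_atp, h.atp, one_mul]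
  · rw [e4, map_mul, map_inv₀, C.mu_cj, h.fix]
  · have h4 := C.mu_pos (b := Pi.mulSingle i (u : C.E i)) (fun i' => by
      by_cases e : i' = i
      · subst e
        rw [Pi.mulSingle_eq_same]
        exact u.ne_zero
      · rw [Pi.mulSingle_eq_of_ne e]
        exact one_ne_zero) φ
    have h5 := EF.pos φ (C.mu (Pi.mulSingle i (u : C.E i)))
    rw [C.mu_cj, eq_comm, Complex.conj_eq_iff_re] at h5
    rw [e4, map_mul, map_inv₀, ← h5, ← Complex.ofReal_inv, Complex.re_ofReal_mul]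
    exact mul_pos (inv_pos.2 h4) (h.pos φ)
  · rw [e4]
    refine (Cg.inv EF.isOrd ?_).mul h.cg
    simpa using C.mu_cong (s := 0) (by simpa using hu)
  · obtain ⟨w, hw, e5⟩ := h.pol l hl
    refine ⟨w, hw, ?_⟩
    have e6 := C.nuM_pol hl (Pi.mulSingle i (u : C.E i)) ((C.mu (Pi.mulSingle i u))⁻¹ * x.2)
    rw [mul_right_comm _ (x.2 : EF.F), inv_mul_cancel₀ h0, one_mul] at e6
    rw [e3, e4, Matrix.map_mul, transpose_mul, ← e5, Matrix.mul_assoc (x.1.val.map (cp l))ᵀ (J _ _), ← e6]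
    simp only [Matrix.mul_assoc]
  · exact (C.nu_std hu hl).mul (h.bad l hl)

theorem Pnt.move' (h : C.Pnt x D) (ok : Ok C.cO D) {i : C.κ} {A B : Ideal (𝓞 (C.E i))}
    {a β : 𝓞 (C.E i)} (h1 : C.Al x D i A) (h2 : Mv C.f A B a β) :
    ∃ D', C.Pnt (C.nuG i (uq a β) * x) D' ∧
      D' i * (A * A.map (C.cO i)) = D i * (B * B.map (C.cO i)) ∧ ∀ i', i' ≠ i → D' i' = D i' := by
  obtain ⟨ha, hβ, hu⟩ := uq_cg C.two_le h2.2.1 h2.2.2.1
  have ne : ∀ {i} {I : Ideal (𝓞 (C.E i))}, (absNorm I).Coprime C.f → I ≠ 0 := fun hI e => by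
    have := C.two_le
    simp [e] at hI
    omega
  have cj : ∀ {I : Ideal (𝓞 (C.E i))}, (absNorm I).Coprime C.f →
      (absNorm (I * I.map (C.cO i))).Coprime C.f := fun hI => by
    rw [map_mul, eidl_norm_map]
    exact hI.mul_left hI
  have fx : ∀ I : Ideal (𝓞 (C.E i)), (I * I.map (C.cO i)).map (C.cO i) = I * I.map (C.cO i) :=
    fun I => by rw [Ideal.map_mul, mv_cc, mul_comm]
  have hB : (absNorm B).Coprime C.f := by
    obtain ⟨c, hc⟩ := h2.2.2.1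
    have h3 : IsCoprime β (C.f : 𝓞 (C.E i)) := by
      rw [sub_eq_iff_eq_add'.1 hc]
      exact h2.2.1.add_mul_left_left c
    refine ((mv_cop h3).mul_left h1.1).coprime_dvd_left ?_
    rw [← map_mul, h2.2.2.2, map_mul]
    exact dvd_mul_left _ _
  obtain ⟨D₀, e0⟩ : A * A.map (C.cO i) ∣ D i := mv_dvd (cj h1.1) C.two_le fun l hl => by
    obtain ⟨g, -, h3, h4⟩ := h1.2 l hl
    exact (C.lt l hl).al_dvd D g i A ok h3 (ne h1.1) h4
  have e1 : D₀.map (C.cO i) = D₀ := by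
    have := h.cj i
    rw [e0, Ideal.map_mul, fx] at this
    exact mul_left_cancel₀ (ne (cj h1.1)) this
  let D' := Function.update D i (D₀ * (B * B.map (C.cO i)))
  have e2 : D' i = D₀ * (B * B.map (C.cO i)) := Function.update_self _ _ _
  have e3 : ∀ i', i' ≠ i → D' i' = D i' := fun i' h' => Function.update_of_ne h' _ _
  have e4 : D' i * (A * A.map (C.cO i)) = D i * (B * B.map (C.cO i)) := by rw [e2, e0]; ring
  have c1 : ∀ i', (absNorm (D' i')).Coprime C.f := fun i' => by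
    by_cases h' : i' = i
    · subst h'
      rw [e2, map_mul]
      exact ((h.cop i').coprime_dvd_left (map_dvd _ (Dvd.intro_left _ e0.symm))).mul_left (cj hB)
    · rw [e3 i' h']
      exact h.cop i'
  have c2 : ∀ i', (D' i').map (C.cO i') = D' i' := fun i' => by
    by_cases h' : i' = i
    · subst h'
      rw [e2, Ideal.map_mul, e1, fx]
    · rw [e3 i' h']
      exact h.cj i'
  refine ⟨D', h.nuG hu c1 c2 fun l hl => ?_, e4, e3⟩
  obtain ⟨g, ⟨u, h3, h4⟩, h5, h6⟩ := h1.2 l hl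
  obtain ⟨g', h7, h8⟩ := (C.lt l hl).move D D' g i A B a β ok (fun i' => ⟨ne (c1 i'), c2 i'⟩) h5
    (ne h1.1) h6 ha h2.2.2.2 e4 e3
  refine ⟨g', ⟨u, h3, ?_⟩, h8⟩
  have ha' : (a : C.E i) ≠ 0 := RingOfIntegers.coe_ne_zero_iff.2 ha
  have n1 := C.nuM_loc l hl (Pi.mulSingle i a)
  have n2 := C.nuM_loc l hl (Pi.mulSingle i β)
  rw [mv_single] at n1 n2
  have n3 : C.nuM (Pi.mulSingle i (a : C.E i)⁻¹) * C.nuM (Pi.mulSingle i a) = 1 := by
    rw [← C.nuM_mul, ← Pi.mulSingle_mul, inv_mul_cancel₀ ha', Pi.mulSingle_one, C.nuM_one]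
  have n4 : (C.nuG i (uq a β) * x).1.val =
      C.nuM (Pi.mulSingle i (a : C.E i)⁻¹) * (C.nuM (Pi.mulSingle i β) * x.1.val) := by
    rw [← mul_assoc, ← C.nuM_mul, ← Pi.mulSingle_mul, inv_mul_eq_div, ← uq_val ha hβ,
      ← (C.nuG_val i _).1]
    rfl
  have mm : ∀ X Y : M8 ℤ_[l], (X * Y).map ((↑) : ℤ_[l] → ℚ_[l]) = X.map (↑) * Y.map (↑) :=
    fun X Y => Matrix.map_mul (f := PadicInt.Coe.ringHom)
  rw [n4, Matrix.map_mul, Matrix.map_mul, n2, h4, ← mm, ← mul_assoc ((C.bk l hl).Nm _),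
    ← ((C.bk l hl).Nm_comm' u _).eq, mul_assoc (aeval _ u), ← Blk.Nm_mul, ← h7, Blk.Nm_mul,
    ← mul_assoc (aeval _ u), ((C.bk l hl).Nm_comm' u _).eq, mul_assoc _ (aeval _ u), mm, ← n1,
    ← mul_assoc, ← Matrix.map_mul, n3, Matrix.map_one _ (map_zero _) (map_one _), one_mul]

end Cx

end Pool.Agent.MT
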