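import Pool.Agent.Lib.MP_d61fbb_ag.MW.GPa
import Pool.Agent.Lib.MP_d61fbb_ag.MW.GMv

/-! Points, alignment and moves. -/

set_option autoImplicit false

noncomputable section

namespace Pool.Agent.MT

open Matrix Polynomial NumberField Ideal
open Pool.Agent.Lib.MP_696deb_nt.B2 (Qbar jC)

variable [dm : Dim] {τ : Matrix (Fin gg) (Fin gg) ℂ} {K : IntermediateField ℚ ℂ} {e k n : ℕ}
  {M : AType τ K e k n} {EF : EndF τ (zM ℚ M.a)} {N : ℕ} {l₀ : Pr} (C : Cx M EF N l₀)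

namespace Cx

variable {C} {x : GW EF} {D : ∀ i, Ideal (𝓞 (C.E i))}

theorem Pnt.ok (h : C.Pnt x D) : Ok C.cO D := fun i => ⟨fun e => by
  have := h.cop i
  rw [e, map_zero, Nat.coprime_zero_left] at this
  exact absurd (this ▸ C.two_le) (by decide), h.cj i⟩

theorem Pnt.gal (h : C.Pnt x D) (σ : ℂ ≃ₐ[K] ℂ) : C.Pnt (C.rho σ * x) D := by
  refine ⟨h.cop, h.cj, ?_, ?_, ?_, ?_, fun l hl => ?_, fun l hl => ?_, fun l hl => ?_⟩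
  · rw [Prod.fst_mul, Units.val_mul, Matrix.map_mul, h.atp, mul_one]
    exact cp_offM_self _
  · rw [C.rho_mul_snd]; exact h.fix
  · rw [C.rho_mul_snd]; exact h.pos
  · rw [C.rho_mul_snd]; exact h.cg
  · obtain ⟨u, hu, e⟩ := h.pol l hl
    obtain ⟨v, hv, e'⟩ := C.rho_gs σ l
    have hc := congrArg (Matrix.map · (cp l)) (C.rho_comm x.2 σ).eq
    simp only [Matrix.map_mul, cp_map_qa, C.rho_cp hl] at hc
    refine ⟨v * u, by rw [norm_mul, hu, hv, mul_one], ?_⟩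
    rw [C.rho_mul_snd, C.rho_mul_cp hl, transpose_mul, mul_smul, ← e, ← smul_mul_assoc,
      ← smul_mul_assoc, ← mul_smul_comm, ← gs_iff.1 e']
    simp only [mul_assoc]
    rw [← mul_assoc (Matrix.map (EF.j _) _), hc, mul_assoc]
  · exact StdAt.mul (stdAt_mA l _).offM (h.bad l hl)
  · obtain ⟨g, h1, h2⟩ := h.good l hl
    obtain ⟨s, hs⟩ := M.gr_all _ σ
    exact ⟨_, h1.gal hs, lv_unit h2 s⟩

theorem Bal.gal (h : C.Bal x) (σ : ℂ ≃ₐ[K] ℂ) : C.Bal (C.rho σ * x) := fun φ ψ => by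
  rw [C.rho_mul_snd]; exact h φ ψ

theorem Pnt.cop_of (h : C.Pnt x D) {i : C.κ} {P : Ideal (𝓞 (C.E i))} (hP : P ∣ D i) :
    (absNorm P).Coprime C.f := (h.cop i).coprime_dvd_left (map_dvd absNorm hP)

theorem Pnt.al_at (h : C.Pnt x D) {i : C.κ} {A : Ideal (𝓞 (C.E i))} {l : Pr}
    (hl : ¬ (l : ℕ) ∣ C.f) (hA : ¬ (l : ℕ) ∣ absNorm A) :
    ∃ g₁, C.Rep x l hl g₁ ∧ (C.lt l hl).Lv D g₁ ∧ (C.lt l hl).Al i A g₁ := by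
  obtain ⟨g, h1, h2⟩ := h.good l hl
  exact ⟨g, h1, h2, (C.lt l hl).al_of i A g hA⟩

theorem Pnt.densA (h : C.Pnt x D) (i : C.κ) (P : Ideal (𝓞 (C.E i))) (r : ℕ) (hP : P.IsMaximal)
    (hr : 1 ≤ r) (hd : P ^ (2 * r - 1) ∣ D i) : ∃ (H : Subgroup (ℂ ≃ₐ[K] ℂ)) (g₀ : ℂ ≃ₐ[K] ℂ),
      H.index ≠ 0 ∧ H.index ≤ absNorm (P ^ r) ^ (4 * n) ∧
        ∀ σ, g₀⁻¹ * σ ∈ H → C.Al (C.rho σ * x) D i (P ^ r) := by
  obtain ⟨l₁, d, hd0, hlP, hl, e⟩ := Ideal.exists_prime_and_absNorm_eq_pow P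
  obtain ⟨l, rfl⟩ : ∃ l : Pr, (l : ℕ) = l₁ := ⟨⟨_, hl⟩, rfl⟩
  have hc := h.cop_of ((dvd_pow_self P (by omega)).trans hd)
  have hf : ¬ (l : ℕ) ∣ C.f :=
    l.2.coprime_iff_not_dvd.1 (hc.coprime_dvd_left (e ▸ dvd_pow_self _ hd0.ne'))
  obtain ⟨g, h1, h2⟩ := h.good l hf
  obtain ⟨H, g₀, i0, i1, i2⟩ := (C.lt l hf).dA _ (C.Gr l hf) (M.gr_all _) (M.gr_big _) D g i P r
    h.ok h2 hP hlP hr hd
  refine ⟨H, g₀, i0, i1.trans ?_, fun σ hσ => ⟨?_, fun l' hl' => ?_⟩⟩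
  · rw [map_pow, e, ← pow_mul, ← pow_mul]
    refine Nat.pow_le_pow_right l.2.pos ?_
    rw [mul_comm r]
    exact Nat.le_mul_of_pos_left _ hd0
  · rw [map_pow]; exact hc.pow_left r
  · by_cases q : l' = l
    · subst q
      obtain ⟨s, hs, hA⟩ := i2 σ hσ
      exact ⟨_, h1.gal hs, lv_unit h2 s, hA⟩
    · refine (h.gal σ).al_at hl' fun hd' => q (Subtype.ext ?_)
      rw [map_pow, e, ← pow_mul] at hd'
      exact (Nat.prime_dvd_prime_iff_eq l'.2 l.2).1 (l'.2.dvd_of_dvd_pow hd')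

theorem Pnt.densB₀ (h : C.Pnt x D) {i : C.κ} {P : Ideal (𝓞 (C.E i))} (h1 : (absNorm P).Prime)
    (h2 : P ∣ D i) : ∃ (H : Subgroup (ℂ ≃ₐ[K] ℂ)) (g₀ : ℂ ≃ₐ[K] ℂ),
      (H.index ≠ 0 ∧ H.index ≤ 2 * absNorm P) ∧ ∀ l : Pr, absNorm P = l →
        (∀ t (hS : l ∉ M.S), ∃ s : SpecialLinearGroup (Fin 2) (M.D l hS).R, ∀ σ,
          (M.ρ σ l).val = (M.D l hS).Nm s.val → t⁻¹ * σ ∈ H) ∧
        ∀ σ, g₀⁻¹ * σ ∈ H → ∀ hl : ¬ (l : ℕ) ∣ C.f, ∃ g₁, C.Rep (C.rho σ * x) l hl g₁ ∧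
          (C.lt l hl).Lv D g₁ ∧ (C.lt l hl).Al i P g₁ := by
  obtain ⟨l, e⟩ : ∃ l : Pr, absNorm P = l := ⟨⟨_, h1⟩, rfl⟩
  have hf : ¬ (l : ℕ) ∣ C.f := l.2.coprime_iff_not_dvd.1 (e ▸ h.cop_of h2)
  obtain ⟨g, g1, g2⟩ := h.good l hf
  obtain ⟨H, g₀, i0, i1, i2, i3⟩ := (C.lt l hf).dB _ (C.Gr l hf) (M.gr_all _) (M.gr_big _) D g i P
    h.ok g2 e h2
  refine ⟨H, g₀, ⟨i0, e ▸ i1⟩, fun l' e' => ?_⟩
  obtain rfl : l = l' := Subtype.ext (e.symm.trans e')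
  refine ⟨fun t hS => ?_, fun σ hσ hl => ?_⟩
  · obtain ⟨s, hs, hH⟩ := i2 t
    exact ⟨⟨s.val, hs⟩, fun σ q => hH σ (M.gr_of _ q)⟩
  · obtain ⟨s, hs, hA⟩ := i3 σ hσ
    exact ⟨_, g1.gal hs, lv_unit g2 s, hA⟩

theorem Pnt.densB (h : C.Pnt x D) (i : C.κ) (G : Finset (Ideal (𝓞 (C.E i))))
    (h1 : ∀ P ∈ G, (absNorm P).Prime ∧ P ∣ D i)
    (h2 : ∀ P ∈ G, ∀ Q ∈ G, absNorm P = absNorm Q → P = Q) :
    ∃ (H : Ideal (𝓞 (C.E i)) → Subgroup (ℂ ≃ₐ[K] ℂ)) (g₀ : Ideal (𝓞 (C.E i)) → (ℂ ≃ₐ[K] ℂ)),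
      (∀ P ∈ G, (H P).index ≠ 0 ∧ (H P).index ≤ 2 * absNorm P) ∧
      (∀ s : Ideal (𝓞 (C.E i)) → (ℂ ≃ₐ[K] ℂ), ∃ σ, ∀ P ∈ G, (s P)⁻¹ * σ ∈ H P) ∧
      ∀ S ⊆ G, ∀ σ, (∀ P ∈ S, (g₀ P)⁻¹ * σ ∈ H P) → C.Al (C.rho σ * x) D i (∏ P ∈ S, P) := by
  classical
  choose! H g₀ i1 i2 using fun P (hP : P ∈ G) => h.densB₀ (h1 P hP).1 (h1 P hP).2
  have nd : ∀ (l : Pr), ∀ T ⊆ G, (∀ Q ∈ T, absNorm Q ≠ l) → ¬ (l : ℕ) ∣ absNorm (∏ Q ∈ T, Q) := by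
    intro l T hT hQ hd
    rw [map_prod] at hd
    obtain ⟨Q, q1, q2⟩ := (l.2.prime.dvd_finsetProd_iff _).1 hd
    exact hQ Q q1 ((Nat.prime_dvd_prime_iff_eq l.2 (h1 Q (hT q1)).1).1 q2).symm
  refine ⟨H, g₀, i1, fun s => ?_, fun S hS σ hσ => ⟨?_, fun l hl => ?_⟩⟩
  · have : ∀ (l : Pr) (hS : l ∉ M.S), ∃ g : SpecialLinearGroup (Fin 2) (M.D l hS).R, ∀ P ∈ G,
        absNorm P = l → ∀ σ, (M.ρ σ l).val = (M.D l hS).Nm g.val → (s P)⁻¹ * σ ∈ H P := by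
      intro l hS
      by_cases q : ∃ P ∈ G, absNorm P = l
      · obtain ⟨P, hP, e⟩ := q
        obtain ⟨g, hg⟩ := (i2 P hP l e).1 (s P) hS
        refine ⟨g, fun Q hQ e' => ?_⟩
        rw [h2 Q hQ P hP (e'.trans e.symm)]
        exact hg
      · exact ⟨1, fun P hP e => absurd ⟨P, hP, e⟩ q⟩
    choose g hg using this
    have ex : ∀ P ∈ G, ∃ l : Pr, absNorm P = l := fun P hP => ⟨⟨_, (h1 P hP).1⟩, rfl⟩
    choose! lp hlp using ex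
    obtain ⟨σ, hσ⟩ := M.big (G.image lp) g
    refine ⟨σ, fun P hP => ?_⟩
    have hS : lp P ∉ M.S := C.W.notS _ (C.good _
      ((lp P).2.coprime_iff_not_dvd.1 (hlp P hP ▸ h.cop_of (h1 P hP).2))).1
    exact hg _ hS P hP (hlp P hP) σ (hσ _ (Finset.mem_image_of_mem _ hP) hS)
  · rw [map_prod]
    exact Nat.Coprime.prod_left fun P hP => h.cop_of (h1 P (hS hP)).2
  · by_cases q : ∃ P ∈ S, absNorm P = l
    · obtain ⟨P, hP, e⟩ := q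
      obtain ⟨g, g1, g2, g3⟩ := (i2 P (hS hP) l e).2 σ (hσ P hP) hl
      refine ⟨g, g1, g2, ?_⟩
      rw [← Finset.mul_prod_erase S _ hP]
      refine (C.lt l hl).al_mul i P _ g (nd l _ ((S.erase_subset P).trans hS) fun Q hQ e' => ?_) g3
      exact (Finset.mem_erase.1 hQ).1
        (h2 Q (hS (Finset.mem_of_mem_erase hQ)) P (hS hP) (e'.trans e.symm))
    · exact (h.gal σ).al_at hl (nd l S hS fun Q hQ e => q ⟨Q, hQ, e⟩)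

theorem Pnt.move (h : C.Pnt x D) {i : C.κ} {A B : Ideal (𝓞 (C.E i))} {a β : 𝓞 (C.E i)}
    (h1 : C.Al x D i A) (h2 : Mv C.f A B a β) : ∃ D', C.Pnt (C.nuG i (uq a β) * x) D' ∧
      D' i * (A * A.map (C.cO i)) = D i * (B * B.map (C.cO i)) ∧ ∀ i', i' ≠ i → D' i' = D i' :=
  h.move' h.ok h1 h2

end Cx

end Pool.Agent.MT
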