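import Pool.Agent.Lib.MP_d61fbb_ag.MW.GAd
import Pool.Agent.Lib.MP_d61fbb_ag.MW.GPt
import Pool.Agent.Lib.MP_d61fbb_ag.MW.Cn3

/-! The number of points of a given level. -/

set_option autoImplicit false

noncomputable section

namespace Pool.Agent.MT

open Matrix Polynomial NumberField Ideal
open Pool.Agent.Lib.MP_696deb_nt.B2 (Qbar jC)

variable [dm : Dim] {τ : Matrix (Fin gg) (Fin gg) ℂ} {K : IntermediateField ℚ ℂ} {e k n : ℕ}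
  {M : AType τ K e k n} {EF : EndF τ (zM ℚ M.a)} {N : ℕ} {l₀ : Pr} (C : Cx M EF N l₀)

namespace Cx

/-- the elements of level one whose component at `l₀` lies in the image of the norm -/
def CnV (u : GW EF) : Prop := ∃ g : GG, u = (g.1, 1) ∧ cpG C.p g = 1 ∧ (∀ l, StdAt l (gm g)) ∧
  (C.bk l₀ C.l0).InN (cnZ (cpG l₀ g))

omit C in
theorem cn_cpG {l : Pr} {g : GG} (h : StdAt l (gm g)) : (cnZ (cpG l g)).map (↑) = cpG l g := by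
  obtain ⟨w, hw⟩ := h.int
  rw [cpG_eq, hw, cnZ_map]

theorem cn_two' {m : ℕ} (hm : m ≠ 0) : ∃ (ι : Type) (_ : Finite ι) (cl : GW EF → ι),
    Nat.card ι = (l₀ : ℕ) ^ m * cnt (C.bk l₀ C.l0).KK m ∧
      ∀ u u', C.CnV u → C.CnV u' → cl u = cl u' → u⁻¹ * u' ∈ C.U m := by
  obtain ⟨ι, hι, cl, h1, h2⟩ := (C.bk l₀ C.l0).cn_lev (fun e => C.l0 (e ▸ C.two_f)) hm
  refine ⟨ι, hι, fun u => cl (cnZ (u.1.val.map (cp l₀))), h1, ?_⟩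
  rintro _ _ ⟨g, rfl, a1, a2, a3⟩ ⟨g', rfl, b1, b2, b3⟩ h
  have key : ∀ g : GG, StdAt l₀ (gm g) → ∃ μ : ℤ_[l₀], IsUnit μ ∧ GS μ (cnZ (cpG l₀ g)) :=
    fun g h => ⟨⟨_, (norm_mulG h).le⟩, PadicInt.isUnit_iff.2 (norm_mulG h),
      cn_gs_int ((cn_cpG h).symm ▸ cpG_sim l₀ g)⟩
  obtain ⟨μ, m1, m2⟩ := key g (a2 _)
  obtain ⟨ν, n1, n2⟩ := key g' (b2 _)
  obtain ⟨s, ⟨c, hc⟩, hs⟩ := h2 _ _ μ ν a3 b3 m1 n1 m2 n2 h
  choose y hy using hs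
  have a4 := fun l => (a2 l).inv (h := gm g⁻¹) (by rw [← map_mul, mul_inv_cancel, map_one])
  have a5 : cnZ (cpG l₀ g⁻¹) * cnZ (cpG l₀ g) = 1 := cn_map_inj (by
    rw [cn_map_mul, cn_cpG (a4 _), cn_cpG (a2 _), ← map_mul, inv_mul_cancel, map_one, cn_map_one])
  refine ⟨g⁻¹ * g', ⟨?_, fun l => map_mul gm g⁻¹ g' ▸ (a4 l).mul (b2 l), c,
    cnZ (cpG l₀ g⁻¹) * of y, ?_⟩, Prod.ext rfl (by simp)⟩
  · rw [map_mul, b1, ← a1, ← map_mul, inv_mul_cancel, map_one, a1]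
  · have e : cnZ (cpG l₀ g') = s • cnZ (cpG l₀ g) + ((l₀ : ℕ) : ℤ_[l₀]) ^ (2 * m) • of y := by
      ext i j : 1
      exact sub_eq_iff_eq_add'.1 (hy i j)
    rw [map_mul, ← cn_cpG (a4 _), ← cn_cpG (b2 _), ← cn_map_mul, cnZ_map, e, mul_add, mul_smul_comm,
      a5, mul_smul_comm, sub_eq_iff_eq_add'.1 hc, two_mul, pow_add]
    congr 1
    module

variable {C} {x x' : GW EF} {D : ∀ i, Ideal (𝓞 (C.E i))}

theorem Pnt.cn_sim (h : C.Pnt x D) (h' : C.Pnt x' D) (e : x.2 = x'.2) : x.1⁻¹ * x'.1 ∈ GSp AF := by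
  have h1 : ∀ l : Pr, x.1.val.map (cp l) * (x.1⁻¹ * x'.1).val.map (cp l) = x'.1.val.map (cp l) :=
    fun l => by rw [← Matrix.map_mul, ← Units.val_mul, mul_inv_cancel_left]
  have h2 : ∀ l : Pr, ∃ μ : ℚ_[l], ‖μ‖ = 1 ∧ GS μ ((x.1⁻¹ * x'.1).val.map (cp l)) := fun l => by
    by_cases hl : l = C.p
    · subst hl
      have := h1 C.p
      rw [h.atp, h'.atp, one_mul] at this
      exact ⟨1, norm_one, this ▸ gs_one⟩
    · obtain ⟨u, u1, u2⟩ := h.pol l hl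
      obtain ⟨v, v1, v2⟩ := h'.pol l hl
      refine ⟨u⁻¹ * v, by rw [norm_mul, norm_inv, u1, v1, inv_one, one_mul],
        cn_gs (norm_ne_zero_iff.1 (by rw [u1]; exact one_ne_zero)) u2 ?_⟩
      rw [h1, e, v2]
  choose μ m1 m2 using h2
  exact mem_GSp (μ := zA fun l => ⟨μ l, (m1 l).le⟩) (gs_of_cp m2)

theorem Rep.cn_inN {l : Pr} {hl : ¬ (l : ℕ) ∣ C.f} {g₁ t : M2 (C.bk l hl).R} (h : C.Rep x l hl g₁)
    (h' : C.Rep x' l hl (g₁ * t)) (ht : IsUnit t.det) :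
    (C.bk l hl).InN (cnZ ((x.1⁻¹ * x'.1).val.map (cp l))) := by
  obtain ⟨u, u1, u2⟩ := h
  obtain ⟨v, v1, v2⟩ := h'
  obtain ⟨w, hw⟩ := s2_inv u1
  have e : x'.1.val.map (cp l) = x.1.val.map (cp l) *
      (aeval (zM ℤ_[l] M.a) (w * v) * (C.bk l hl).Nm t).map (↑) := by
    rw [u2, v2, ← cn_map_mul, Blk.Nm_mul, mul_assoc, ← mul_assoc (Blk.Nm _ g₁),
      ← (Blk.Nm_comm' _ _ g₁).eq, map_mul, ← mul_assoc, ← mul_assoc, ← mul_assoc, ← mul_assoc, hw,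
      one_mul]
  rw [Units.val_mul, Matrix.map_mul, e, ← mul_assoc, ← Matrix.map_mul, Units.inv_mul,
    Matrix.map_one _ (map_zero _) (map_one _), one_mul, cnZ_map]
  exact ⟨w * v, t, map_mul (aeval (zM ℤ_[l] M.a)) w v ▸ (IsUnit.of_mul_eq_one_right _ hw).mul v1,
    ht, rfl⟩

variable (C) in
theorem cn_one : ∃ c : ℕ, ∀ D, nLev D ≠ 0 → ∃ (ι : Type) (_ : Finite ι) (cl : GW EF → ι),
    Nat.card ι ≤ (2 * nLev D) ^ c ∧ ∀ x x', C.Pnt x D ∧ C.Bal x → C.Pnt x' D ∧ C.Bal x' →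
      cl x = cl x' → C.CnV (x⁻¹ * x') := by
  refine ⟨(2 * ⌈C.Cb⌉₊ + 1 + 2 * k) * Module.finrank ℚ EF.F + (k * Fintype.card (I2 gg × I2 gg) +
    Fintype.card (Fin 2 × Fin 2 × Fin n)), fun D hD => ?_⟩
  obtain ⟨c1, h1⟩ := cn_int EF.F (⌈C.Cb⌉₊ * nLev D ^ (2 * k))
  obtain ⟨c2, h2⟩ := cn_std (pow_ne_zero k hD)
  obtain ⟨c3, h3⟩ := cn_lat (C.bk l₀ C.l0).cnBas ((nLev D).factorization l₀)
  have h4 : ∀ x, ∃ g₁, C.Pnt x D → C.Rep x l₀ C.l0 g₁ ∧ (C.lt l₀ C.l0).Lv D g₁ := fun x => by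
    by_cases h : C.Pnt x D
    · exact (h.good l₀ C.l0).imp fun _ a _ => a
    · exact ⟨1, fun a => absurd a h⟩
  choose G hG using h4
  have : NeZero ((l₀ : ℕ) ^ (nLev D).factorization l₀) := ⟨pow_ne_zero _ l₀.2.ne_zero⟩
  refine ⟨_, inferInstance, fun x => (c1 (x.2 : EF.F)⁻¹, c2 x.1, c3 (G x)), ?_,
    fun x x' ⟨a1, a2⟩ ⟨b1, b2⟩ h => ?_⟩
  · have p1 : nLev D ≤ 2 * nLev D := by omega
    rw [Nat.card_prod, Nat.card_prod, cn_pi (pow_ne_zero k hD), Nat.card_fun, Nat.card_fun,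
      Nat.card_zmod, Nat.card_zmod, Nat.card_eq_fintype_card, Nat.card_eq_fintype_card,
      Fintype.card_fin, pow_add, pow_add, pow_mul (2 * nLev D), pow_mul (2 * nLev D)]
    refine Nat.mul_le_mul (Nat.pow_le_pow_left ?_ _) (Nat.mul_le_mul
      (Nat.pow_le_pow_left (Nat.pow_le_pow_left p1 _) _)
      (Nat.pow_le_pow_left ((Nat.ordProj_le _ hD).trans p1) _))
    have p2 := Nat.pos_of_ne_zero (pow_ne_zero (2 * k) hD)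
    have p3 : 2 * ⌈C.Cb⌉₊ + 1 ≤ (2 * nLev D) ^ (2 * ⌈C.Cb⌉₊ + 1) :=
      Nat.lt_two_pow_self.le.trans (Nat.pow_le_pow_left (by omega) _)
    rw [pow_add]
    exact le_trans (by nlinarith) (Nat.mul_le_mul p3 (Nat.pow_le_pow_left p1 _))
  · have key : ∀ {x}, C.Pnt x D → C.Bal x → ∀ φ : EF.F →+* ℂ,
        ‖φ (x.2 : EF.F)⁻¹‖ ≤ (⌈C.Cb⌉₊ * nLev D ^ (2 * k) : ℕ) := fun {x} a b =>
      cn_inv x.2.ne_zero b (pow_ne_zero _ hD) (EF.isOrd.int _ a.den.2.2.1)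
    have e1 : x.2 = x'.2 := Units.ext (inv_injective (h1 _ _ (EF.isOrd.int _ a1.den.2.2.2)
      (EF.isOrd.int _ b1.den.2.2.2) (key a1 a2) (key b1 b2) (congrArg (·.1) h)))
    obtain ⟨t, t1, t2⟩ := h3 _ _ (cn_dvd hD (LT.lv_dvd _ D _ a1.ok (hG x a1).2))
      (cn_dvd hD (LT.lv_dvd _ D _ b1.ok (hG x' b1).2)) (congrArg (·.2.2) h)
    refine ⟨⟨_, a1.cn_sim b1 e1⟩, Prod.ext rfl (inv_mul_eq_one.2 e1), ?_,
      h2 _ _ a1.den.1 a1.den.2.1 b1.den.1 b1.den.2.1 (congrArg (·.2.1) h),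
      (hG x a1).1.cn_inN (t2 ▸ (hG x' b1).1) t1⟩
    change (x.1⁻¹ * x'.1).val.map (cp C.p) = 1
    rw [Units.val_mul, Matrix.map_mul, b1.atp, ← a1.atp, ← Matrix.map_mul, Units.inv_mul,
      Matrix.map_one _ (map_zero _) (map_one _), a1.atp]

variable (C) in
theorem count : ∃ c : ℕ, ∀ m D, 1 ≤ m → ∃ T : Finset (GW EF ⧸ C.U m),
    T.card ≤ (2 * nLev D) ^ c * ((l₀ : ℕ) ^ m * cnt (C.bk l₀ C.l0).KK m) ∧
      ∀ x, C.Pnt x D → C.Bal x → (x : GW EF ⧸ C.U m) ∈ T := by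
  obtain ⟨c, hc⟩ := C.cn_one
  refine ⟨c, fun m D hm => ?_⟩
  by_cases hD : nLev D = 0
  · exact ⟨∅, Nat.zero_le _, fun x h _ => absurd hD (Finset.prod_ne_zero_iff.2 fun i _ e =>
      (h.ok i).1 (absNorm_eq_zero_iff.1 e))⟩
  obtain ⟨ι, _, cl, h1, h2⟩ := hc D hD
  obtain ⟨κ, _, cl', h3, h4⟩ := C.cn_two' (Nat.pos_iff_ne_zero.1 hm)
  obtain ⟨T, h5, h6⟩ := cn_two (C.U m) (fun x => C.Pnt x D ∧ C.Bal x) C.CnV cl cl' h2 h4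
  exact ⟨T, h5.trans (h3 ▸ Nat.mul_le_mul_right _ h1), fun x a b => h6 x ⟨a, b⟩⟩

end Cx

end Pool.Agent.MT
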