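import Pool.Agent.Lib.MP_d61fbb_ag.MW.LT0
import Pool.Agent.Lib.MP_d61fbb_ag.MW.DS
import Pool.Agent.Lib.MP_d61fbb_ag.MW.Et

/-! The local theory at the good primes. -/

set_option autoImplicit false

noncomputable section

namespace Pool.Agent.MT

open NumberField Matrix Ideal Polynomial

section field
variable {E : Type} [Field E] [NumberField E] {l : ℕ} [hl : Fact l.Prime]

omit [NumberField E] in
theorem lt_le (χ : E →+* PadicAlgCl l) (a : 𝓞 E) : ‖χ a‖ ≤ 1 :=
  MW.dl_int ((map_isIntegral_int χ a.isIntegral_coe).tower_top (A := ℤ_[l]))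

theorem lt_norm (z : 𝓞 E) : ‖((absNorm (span {z}) : ℕ) : PadicAlgCl l)‖ =
    ∏ σ : E →ₐ[ℚ] PadicAlgCl l, ‖σ (z : E)‖ := by
  rw [← norm_prod, ← Algebra.norm_eq_prod_embeddings, ← Algebra.coe_norm_int,
    absNorm_span_singleton]
  rw [map_intCast]
  generalize Algebra.norm ℤ z = m
  obtain ⟨n, rfl | rfl⟩ := m.eq_nat_or_neg <;> simp

theorem lt_pure {x : 𝓞 E} (h : ∀ χ : E →+* PadicAlgCl l, ‖χ x‖ ≤ (l : ℝ)⁻¹) : (l : 𝓞 E) ∣ x := by
  have l0 : (l : 𝓞 E) ≠ 0 := Nat.cast_ne_zero.2 hl.out.ne_zero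
  have hle : span {(l : 𝓞 E)} ≤ span {x, (l : 𝓞 E)} := span_mono (by simp)
  have I0 : (span {x, (l : 𝓞 E)} : Ideal (𝓞 E)) ≠ 0 := fun e =>
    l0 (span_singleton_eq_bot.1 (le_bot_iff.1 (hle.trans e.le)))
  obtain ⟨c, z, -, hc, hn⟩ := idl_coprime_rep E l hl.out.ne_zero _ I0
  obtain ⟨a, b, hz⟩ := mem_span_pair.1 (mul_le_left (hc ▸ mem_span_singleton_self z))
  have h1 : ‖((absNorm (span {z}) : ℕ) : PadicAlgCl l)‖ ≤ (l : ℝ)⁻¹ ^ Module.finrank ℚ E := by
    rw [lt_norm, ← AlgHom.card ℚ E (PadicAlgCl l), ← Finset.card_univ, ← Finset.prod_const]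
    refine Finset.prod_le_prod (fun _ _ => norm_nonneg _) fun σ _ => ?_
    rw [← hz]
    push_cast
    rw [map_add, map_mul, map_mul, map_natCast]
    refine (IsUltrametricDist.norm_add_le_max _ _).trans (max_le ?_ ?_) <;> rw [norm_mul]
    · exact (mul_le_of_le_one_left (norm_nonneg _) (lt_le σ.toRingHom a)).trans (h σ.toRingHom)
    · exact (mul_le_of_le_one_left (norm_nonneg _) (lt_le σ.toRingHom b)).trans et_l.le
  have h2 : l ^ Module.finrank ℚ E ∣ absNorm (span {z}) := by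
    rw [← map_natCast (algebraMap ℤ_[l] _), MW.dl_norm, inv_pow, ← _root_.zpow_natCast, ← _root_.zpow_neg,
      ← Int.cast_natCast, PadicInt.norm_int_le_pow_iff_dvd] at h1
    exact_mod_cast h1
  rw [← hc, map_mul] at h2
  have h3 := (hn.symm.pow_left _).dvd_of_dvd_mul_right h2
  obtain ⟨K, hK⟩ := dvd_iff_le.2 hle
  have h4 := congrArg absNorm hK
  rw [absNorm_span_natCast, RingOfIntegers.rank, map_mul] at h4
  rw [h4] at h3
  have h5 : absNorm K = 1 := Nat.dvd_one.1 ((Nat.mul_dvd_mul_iff_left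
    (Nat.pos_of_ne_zero (idl_norm_ne E I0))).1 (by rwa [mul_one]))
  rw [absNorm_eq_one_iff.1 h5, mul_top] at hK
  exact mem_span_singleton.1 (hK ▸ subset_span (by simp))

/-- the prime ideal of an embedding -/
def ltP (χ : E →+* PadicAlgCl l) : Ideal (𝓞 E) where
  carrier := {a | ‖χ a‖ < 1}
  zero_mem' := by simp
  add_mem' {a b} ha hb := by
    change ‖χ ((a + b : 𝓞 E) : E)‖ < 1
    push_cast
    rw [map_add]
    exact (IsUltrametricDist.norm_add_le_max _ _).trans_lt (max_lt ha hb)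
  smul_mem' a b hb := by
    change ‖χ ((a * b : 𝓞 E) : E)‖ < 1
    push_cast
    rw [map_mul, norm_mul]
    exact (mul_le_of_le_one_left (norm_nonneg _) (lt_le χ a)).trans_lt hb

theorem ltP_max (χ : E →+* PadicAlgCl l) : (ltP χ).IsMaximal := by
  have h1 : (ltP χ).IsPrime := ⟨(ne_top_iff_one _).2 (by
    change ¬ ‖χ ((1 : 𝓞 E) : E)‖ < 1
    simp), fun {a b} h => by
      by_contra hno
      rw [not_or] at hno
      have h2 : ‖χ ((a * b : 𝓞 E) : E)‖ < 1 := h
      push_cast at h2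
      rw [map_mul, norm_mul, (lt_le χ a).eq_of_not_lt hno.1, (lt_le χ b).eq_of_not_lt hno.2] at h2
      simp at h2⟩
  refine h1.isMaximal fun e => ?_
  have h2 : (l : 𝓞 E) ∈ ltP χ := by
    change ‖χ ((l : 𝓞 E) : E)‖ < 1
    push_cast
    rw [map_natCast, et_l]
    exact inv_lt_one_of_one_lt₀ (by exact_mod_cast hl.out.one_lt)
  rw [e, Ideal.mem_bot] at h2
  exact Nat.cast_ne_zero.2 hl.out.ne_zero h2

/-- every prime over `l` comes from an embedding -/
theorem exists_ltP {P : Ideal (𝓞 E)} (hP : P.IsMaximal) (h : (l : 𝓞 E) ∈ P) :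
    ∃ χ : E →+* PadicAlgCl l, ltP χ = P := by
  have h1 : (Finset.univ : Finset (E →+* PadicAlgCl l)).inf ltP ≤ P := fun z hz => by
    have h2 : ∀ χ : E →+* PadicAlgCl l, ∃ N : ℕ, ‖χ z‖ ^ N ≤ (l : ℝ)⁻¹ := fun χ =>
      (exists_pow_lt_of_lt_one (inv_pos.2 (by exact_mod_cast hl.out.pos))
        (Finset.inf_le (f := ltP) (Finset.mem_univ χ) hz)).imp fun _ h => h.le
    choose N hN using h2
    obtain ⟨y, hy⟩ := lt_pure (l := l) (x := z ^ ∑ χ, N χ) fun χ => by
      push_cast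
      rw [map_pow, norm_pow]
      exact (pow_le_pow_of_le_one (norm_nonneg _) (lt_le χ z)
        (Finset.single_le_sum (fun _ _ => Nat.zero_le _) (Finset.mem_univ χ))).trans (hN χ)
    exact hP.isPrime.mem_of_pow_mem _ (hy ▸ mul_mem_right _ _ h)
  obtain ⟨χ, -, h3⟩ := (hP.isPrime.inf_le').1 h1
  exact ⟨χ, (ltP_max χ).eq_of_le hP.ne_top h3⟩

theorem split_ideal (c : E ≃ₐ[ℚ] E)
    (hs : ∀ χ : E →+* PadicAlgCl l, ∃ b : 𝓞 E, ‖χ b‖ < 1 ∧ ‖χ (c b)‖ = 1) {P : Ideal (𝓞 E)}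
    (hP : P.IsMaximal) (h : (l : 𝓞 E) ∈ P) :
    P.map (RingOfIntegers.mapRingEquiv c.toRingEquiv) ≠ P := fun e => by
  obtain ⟨χ, rfl⟩ := exists_ltP hP h
  obtain ⟨b, h1, h2⟩ := hs χ
  have h3 : RingOfIntegers.mapRingEquiv c.toRingEquiv b ∈ ltP χ := e ▸ mem_map_of_mem _ h1
  exact h2.not_lt h3

theorem lt_quad {u v t d : PadicAlgCl l} (h1 : u + v = l * t) (h2 : u * v = l ^ 2 * d)
    (ht : ‖t‖ ≤ 1) (hd : ‖d‖ ≤ 1) : ‖u‖ ≤ (l : ℝ)⁻¹ := by
  by_contra h
  rw [not_le] at h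
  have l0 : (0 : ℝ) < (l : ℝ)⁻¹ := inv_pos.2 (by exact_mod_cast hl.out.pos)
  have h3 : u * u = l * t * u + -(l ^ 2 * d) := by linear_combination u * h1 - h2
  have h4 := (congrArg norm h3).le.trans (IsUltrametricDist.norm_add_le_max _ _)
  rw [norm_neg, norm_mul, norm_mul, norm_mul, norm_mul, norm_pow, et_l] at h4
  rcases le_max_iff.1 h4 with h5 | h5
  · nlinarith [mul_le_of_le_one_right l0.le ht]
  · nlinarith [mul_le_of_le_one_right (sq_nonneg (l : ℝ)⁻¹) hd]

end field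

end Pool.Agent.MT

namespace Pool.Agent.MW.Dd

open Pool.Agent.MT NumberField Matrix Ideal Polynomial

variable [dm : Dim] {e k n p : ℕ} {P : ℤ[X]} {Q : ℚ[X]} {r : ℤ} {κ : Type} [Fintype κ]
  {E : κ → Type} [∀ i, Field (E i)] [∀ i, NumberField (E i)] {l : ℕ} [hl : Fact l.Prime] {a : M8 ℤ}
  {F : DF e k n a.charpoly P Q r p E} {D : Blk e k n l a} {θ : M8 ℚ_[l]}

/-- the optimal embedding at a good prime -/
def Loc.lj (L : Loc F D θ) (h2 : l ≠ 2) (hp : ¬ l ∣ p) : LJ E F.cO l D.R where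
  j := L.j
  inv i x := RingOfIntegers.ext (F.cc i x)
  adj := L.adj
  reg x h := D.s_ext fun i => by
    have := congrArg (D.s i) h
    rw [map_mul, map_natCast, map_zero] at this
    rw [map_zero]
    exact (mul_eq_zero.1 this).resolve_left (Nat.cast_ne_zero.2 hl.out.ne_zero)
  jac x := D.unit_iff.2 fun i => by
    have h : ‖D.s i (l * x)‖ < 1 := by
      rw [map_mul, map_natCast, norm_mul, et_l]
      exact (mul_le_of_le_one_right (by positivity) (D.s_le i x)).trans_lt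
        (inv_lt_one_of_one_lt₀ (by exact_mod_cast hl.out.one_lt))
    rw [map_add, map_one, IsUltrametricDist.norm_add_eq_max_of_norm_ne_norm (by
      rw [norm_one]; exact h.ne'), norm_one, max_eq_left h.le]
  pure x Y h i := lt_pure fun χ => by
    obtain ⟨⟨m, d⟩, hy⟩ := L.all i χ
    rw [hy fun i => x i]
    have h0 := L.diag x m
    have h1 := congrArg trace h0
    have h3 := congrArg det h0
    rw [trace_mul_cycle, mul_eq_one_comm.1 (L.mul_inv m), one_mul, trace_diagonal,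
      Fin.sum_univ_two, h, trace_fin_two] at h1
    rw [det_mul, det_mul, mul_right_comm, ← det_mul, L.mul_inv, det_one, one_mul, det_diagonal,
      Fin.prod_univ_two, ← D.s_det, h, det_smul, map_mul, map_pow, map_natCast,
      Fintype.card_fin] at h3
    simp only [map_apply, Matrix.smul_apply, smul_eq_mul, map_mul, map_natCast, ← mul_add,
      ← map_add] at h1
    fin_cases d
    · exact lt_quad h1.symm h3.symm (D.s_le _ _) (D.s_le _ _)
    · exact lt_quad ((add_comm _ _).trans h1.symm) ((mul_comm _ _).trans h3.symm)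
        (D.s_le _ _) (D.s_le _ _)
  dense x := by
    obtain ⟨b, y, -, h1, z, hz⟩ := L.dens x 1
    exact ⟨b, -z, by rw [h1]; congr 1; linear_combination -hz⟩
  del := by
    let u : ∀ i, 𝓞 (E i) := fun i => ⟨p * F.U i, F.intU i⟩
    let δ : ∀ i, 𝓞 (E i) := fun i => u i - F.cO i (u i)
    refine ⟨δ, ∏ i, absNorm (span {2 * δ i}), Nat.Coprime.prod_left fun i _ => ?_, fun i =>
      ⟨?_, (mem_span_singleton.1 (absNorm_mem _)).trans (Nat.cast_dvd_cast
        (Finset.dvd_prod_of_mem (fun i => absNorm (span {2 * δ i})) (Finset.mem_univ i)))⟩⟩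
    · have h1 : ‖((absNorm (span {2 * δ i}) : ℕ) : PadicAlgCl l)‖ = 1 := by
        rw [lt_norm]
        refine Finset.prod_eq_one fun σ _ => ?_
        obtain ⟨⟨m, d⟩, hy⟩ := L.all i σ.toRingHom
        have h3 := hy fun i => ((2 : ℕ) : E i) * (p * F.U i - F.c i (p * F.U i))
        have h4 : (((2 * δ i : 𝓞 (E i))) : E i) = ((2 : ℕ) : E i) * (p * F.U i - F.c i (p * F.U i)) :=
          rfl
        rw [h4]
        refine (congrArg norm h3).trans ?_
        rw [map_mul, map_sub, ← L.rev, map_mul, map_mul, map_natCast, map_natCast, map_natCast,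
          ← mul_sub, norm_mul, norm_mul, et_nat hp, et_nat fun h =>
            h2 ((Nat.prime_dvd_prime_iff_eq hl.out Nat.prime_two).1 h), one_mul, one_mul]
        exact L.far (m, d) (m, d.rev) (by fin_cases d <;> simp)
      refine (hl.out.coprime_iff_not_dvd.2 fun ⟨t, ht⟩ => ?_).symm
      rw [ht, Nat.cast_mul, norm_mul, et_l] at h1
      have h5 : ‖(t : PadicAlgCl l)‖ ≤ 1 := natCast_mem (etO l) t
      exact ((mul_le_of_le_one_right (by positivity) h5).trans_lt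
        (inv_lt_one_of_one_lt₀ (by exact_mod_cast hl.out.one_lt))).ne h1
    · change F.cO i (u i - F.cO i (u i)) = -(u i - F.cO i (u i))
      rw [map_sub, neg_sub]
      congr 1
      exact RingOfIntegers.ext (F.cc i _)

theorem exists_LT [DecidableEq κ] (L : Loc F D θ) (h2 : l ≠ 2) (hp : ¬ l ∣ p) :
    Nonempty (LT F.cO l n L.j) := ⟨(L.lj h2 hp).toLT F.rank⟩

end Pool.Agent.MW.Dd
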