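import Pool.Agent.Lib.MP_d61fbb_ag.MW.GD
import Pool.Agent.Lib.MP_d61fbb_ag.MW.DFin
import Pool.Agent.Lib.MP_d61fbb_ag.MW.LT
import Pool.Agent.Lib.MP_d61fbb_ag.MW.SQ1d
import Pool.Agent.Lib.MP_d61fbb_ag.MW.VC2

/-! The choice of all constants. -/

set_option autoImplicit false

noncomputable section

namespace Pool.Agent.MT

open Matrix Polynomial NumberField
open Pool.Agent.Lib.MP_696deb_nt.B2 (Qbar jC Plc finite_supp)

theorem cx_den (h : ℚ[X]) :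
    ∃ q : ℤ, q ≠ 0 ∧ ∃ b : ℤ[X], b.map (Int.castRingHom ℚ) = C (q : ℚ) * h := by
  obtain ⟨q, h0, hq⟩ := IsLocalization.integerNormalization_spec (nonZeroDivisors ℤ) h
  exact ⟨q, nonZeroDivisors.ne_zero h0, _, hq.trans (by rw [zsmul_eq_mul, map_intCast])⟩

variable [dm : Dim] {τ : Matrix (Fin gg) (Fin gg) ℂ} {K : IntermediateField ℚ ℂ} {e k n : ℕ}

theorem EndF.exists_mb {a : M8 ℚ} (EF : EndF τ a) :
    ∃ m : ℕ, m ≠ 0 ∧ ∀ x ∈ EF.O, ∃ u : ℤ[X], (m : EF.F) * x = aeval EF.al u := by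
  classical
  choose w hw using EF.gen
  choose q q0 b hb using fun i => cx_den (w (integralBasis EF.F i))
  refine ⟨(∏ i, q i).natAbs, Int.natAbs_ne_zero.2 (Finset.prod_ne_zero_iff.2 fun i _ => q0 i),
    fun x hx => ?_⟩
  have h1 := (mem_span_integralBasis EF.F).2 ⟨⟨x, EF.isOrd.int x hx⟩, rfl⟩
  refine Submodule.span_induction (p := fun x _ => ∃ u : ℤ[X], _ * x = aeval EF.al u) ?_
    ⟨0, by simp⟩ (fun x y _ _ ⟨u, hu⟩ ⟨v, hv⟩ => ⟨u + v, by rw [mul_add, hu, hv, map_add]⟩)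
    (fun c x _ ⟨u, hu⟩ => ⟨c • u, by rw [mul_smul_comm, hu, map_zsmul]⟩) h1
  rintro _ ⟨i, rfl⟩
  obtain ⟨c, hc⟩ := Int.dvd_natAbs.2 (Finset.dvd_prod_of_mem q (Finset.mem_univ i))
  refine ⟨C c * b i, ?_⟩
  rw [map_mul, ← aeval_map_algebraMap ℚ _ (b i), algebraMap_int_eq, hb, map_mul, ← hw,
    ← Int.cast_natCast, hc]
  simp [mul_assoc, mul_left_comm]

/-- twice the endomorphism has a complement in the reduction -/
theorem AType.cmp_two (M : AType τ K e k n) (EF : EndF τ (zM ℚ M.a)) (hτ : Sieg τ)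
    {A : AR M.toTRep} (v : Frb A) {R : FSys (kk v.w) v.p} (hR : RedOf v R) :
    ∃ N, R.Cmp ((2 : ℤ) • zM AF M.a) N := by
  have ha : EF.al ∈ EF.O := ⟨M.a, EF.j_al⟩
  obtain ⟨m, hm⟩ := EF.isOrd.sq_end EF.pos le_rfl (mul_mem (EF.cj_mem ha) ha)
    (by rw [map_mul, EF.pos.cj_cj, mul_comm])
  obtain ⟨b, h1, h2⟩ := hm (v.p * m + 1) (by nlinarith [v.p.2.pos])
  have h3 : ∀ (z : EF.F) x y, Ef (EF.j z *ᵥ x) (EF.j z *ᵥ y) = Ef x (EF.j (EF.cj z * z) *ᵥ y) :=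
    fun z x y => by rw [EF.adj_Efq, mulVec_mulVec, map_mul]
  have h4 : ((2 : ℤ) • M.a).map ((↑) : ℤ → ℚ) = EF.j (2 * EF.al) := by
    rw [two_mul, map_add, EF.j_al]
    ext
    simp [two_smul]
  have h5 : ∀ z ∈ EF.O, ∀ u, zz τ u = 0 → zz τ ((EF.jz z).map (↑) *ᵥ u) = 0 := fun z hz u hu => by
    have := EF.hom z u hu
    rwa [← EF.jz_cast hz, Matrix.map_map] at this
  refine ⟨4 * (v.p * m + 1), ?_⟩
  rw [show (2 : ℤ) • zM AF M.a = ((2 : ℤ) • M.a).map (↑) by ext; simp [two_mul, two_smul]]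
  refine v.cmp_end p_gh p_redg hτ hR _ (fun i => EF.jz (b i)) (fun h => ?_) (fun x y => ?_) ?_
    fun i => h5 _ (h1 i).1
  · rcases (v.p.2.dvd_mul).1 h with h | h
    · exact absurd (Nat.le_of_dvd (by norm_num) h) (by have := v.big; omega)
    · exact v.p.2.one_lt.ne' (Nat.dvd_one.1 ((Nat.dvd_add_right (dvd_mul_right _ _)).1 h))
  · simp only [h4, EF.jz_cast (h1 _).1, h3, (h1 _).2, ← sq]
    rw [← Ef_sum_right, ← Ef_add_right, ← sum_mulVec, ← add_mulVec, ← map_sum, ← map_add, ← h2,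
      show EF.cj (2 * EF.al) * (2 * EF.al) + 4 * (((v.p * m + 1 : ℕ) : EF.F) - EF.cj EF.al * EF.al) =
        (4 * (v.p * m + 1) : ℕ) by rw [map_mul, map_ofNat]; push_cast; ring,
      map_natCast, natCast_mulVec, Ef_smul_right]
  · intro u hu
    have := EF.hom (2 * EF.al) u hu
    rwa [← h4, Matrix.map_map] at this

theorem exists_Cx (hτ : Sieg τ) (hK : FiniteDimensional ℚ K) (h8 : ee (1 / 8) ∈ K)
    (M : AType τ K e k n) (EF : EndF τ (zM ℚ M.a)) {N : ℕ}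
    (hN : 2 * Module.finrank ℚ EF.F + 5 ≤ N) : ∃ B : ℕ, ∀ l₀ : Pr, B < (l₀ : ℕ) → l₀ ∉ M.S →
      ∀ J : ℕ, ∃ C : Cx M EF N l₀, J < (C.p : ℕ) := by
  classical
  obtain ⟨A⟩ := p_a τ hτ K hK h8 M.toTRep
  obtain ⟨B⟩ := p_a (dm := dm.pow (2 ^ N)) _ (sieg_pow hτ) K hK h8 (M.toTRep.pow hτ (2 ^ N))
  have hs : ∀ x : Qbar, ∃ s : Finset ℕ, ∀ w : Plc, w.p ∉ s → x = 0 ∨ w.V x = 1 := fun x => by
    by_cases h : x = 0
    · exact ⟨∅, fun _ _ => .inl h⟩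
    · exact (finite_supp h).imp fun s hs w hw => .inr (hs w hw)
  choose s hs using hs
  obtain ⟨Del, d0, hDel⟩ := EF.isOrd.exists_mul
  obtain ⟨m, m0, hm⟩ := EF.exists_mb
  refine ⟨n + n * (4 * 5 ^ n) * (2 * (4 * 5 ^ n) + 1) ^ n + (2 * n + 2) + Del, fun l₀ hl hS J => ?_⟩
  obtain ⟨v, hv, P, Q, r, κ, _, E, _, _, r2, -, ⟨W⟩⟩ := MW.Dd.d_pl τ K e k n M A hK l₀ hS
    (by omega) (Finset.range (J + 1) ∪ Finset.univ.biUnion fun η => s (TSys.Θ (dm := dm.pow (2 ^ N))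
      (AR.S (dm := dm.pow (2 ^ N)) B) (hw (dm := dm.pow (2 ^ N)) η))) 2 two_ne_zero
    fun v _ R hR => M.cmp_two EF hτ v hR
  rw [Finset.mem_union, not_or, Finset.mem_range, Finset.mem_biUnion] at hv
  have hr : AR.res (dm := dm.pow (2 ^ N)) B = A.res := MonoidHom.ext fun σ => AlgEquiv.ext fun x =>
    jC.injective ((AR.res_spec (dm := dm.pow (2 ^ N)) B σ x).trans (A.res_spec σ x).symm)
  let v' : Frb (dm := dm.pow (2 ^ N)) B := Frb.mk (dm := dm.pow (2 ^ N)) v.w v.p v.hp v.big v.φ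
    (hr ▸ v.frob) (hr ▸ v.ine) fun η => hs _ _ fun h => hv.2 ⟨η, Finset.mem_univ _, v.hp ▸ h⟩
  obtain ⟨q, q0, b, hb⟩ := cx_den W.Fi
  obtain ⟨i, u, hu, hq⟩ := WfDvdMonoid.max_power_factor q0
    (Nat.prime_iff_prime_int.1 v.p.2).irreducible
  obtain ⟨j, D, hD, eD⟩ := WfDvdMonoid.max_power_factor W.D0
    (Nat.prime_iff_prime_int.1 l₀.2).irreducible
  have D0 : D ≠ 0 := fun h => hD (h ▸ dvd_zero _)
  let c := (v.p : ℕ) ^ (i + 1)
  have c0 : c ≠ 0 := pow_ne_zero _ v.p.2.ne_zero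
  let f := 16 * c ^ 2 * Del * (D.natAbs * (∏ l ∈ W.T, (l : ℕ)) * (2 * n + 2).factorial)
  have good : ∀ l : Pr, ¬ (l : ℕ) ∣ f → l ∉ W.T ∧ 2 * n + 2 < (l : ℕ) := fun l h =>
    ⟨fun h' => h ((((Finset.dvd_prod_of_mem (fun l : Pr => (l : ℕ)) h').mul_left _).mul_right
      _).mul_left _), not_le.1 fun h' => h (((l.2.dvd_factorial.2 h').mul_left _).mul_left _)⟩
  have pe : ∀ l l' : Pr, (l : ℕ) ∣ l' → l = l' := fun l l' h =>
    Subtype.ext ((Nat.prime_dvd_prime_iff_eq l.2 l'.2).1 h)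
  obtain ⟨Cb, -, hC⟩ := EF.isOrd.bal_fix EF.pos (m := 16 * c ^ 2 * m) (by positivity)
  refine ⟨{
    hτ := hτ, hN := hN, B := B, v := v', P := P, Q := Q, r := r, κ := κ, E := E, W := W, r2 := r2
    c := c, f := f, good := good, Del := Del, hDel := hDel, mb := 16 * c ^ 2 * m, Cb := Cb, hb := hC
    f0 := mul_ne_zero (by positivity) (mul_ne_zero (mul_ne_zero (Int.natAbs_ne_zero.2 D0)
      (Finset.prod_ne_zero_iff.2 fun l _ => l.2.ne_zero)) (Nat.factorial_ne_zero _))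
    pc := dvd_pow_self _ i.succ_ne_zero
    l0 := fun h => ?_
    cf := dvd_mul_right _ _
    hD := ⟨j, ?_⟩
    hq := ⟨q, u, b, ?_, hu, v.p, by rw [hq]; push_cast [c]; ring⟩
    lt := fun l h => (MW.Dd.exists_LT _ (by have := (good l h).2; omega) fun h' =>
      (good l h).1 (pe l v.p h' ▸ W.p_mem)).some
    mb_c := dvd_mul_right _ _
    mb_a := fun x hx => (hm x hx).elim fun w hw => ⟨(16 * c ^ 2 : ℕ) * w, by
      rw [map_mul, ← hw, Nat.cast_mul, mul_assoc, map_natCast]⟩ }, not_le.1 fun h =>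
        hv.1 (Nat.lt_succ_of_le h)⟩
  · simp only [f, l₀.2.dvd_mul] at h
    rcases h with ((h | h) | h) | (h | h) | h
    · exact absurd (Nat.le_of_dvd two_pos (l₀.2.dvd_of_dvd_pow (n := 4) h)) (by omega)
    · exact W.l_not ((congrArg (· ∈ W.T) (pe _ _ (l₀.2.dvd_of_dvd_pow
        (l₀.2.dvd_of_dvd_pow h)))).mpr W.p_mem)
    · exact absurd (Nat.le_of_dvd (Nat.pos_of_ne_zero d0) h) (by omega)
    · exact hD (Int.natCast_dvd.2 h)
    · obtain ⟨l, h1, h2⟩ := (l₀.2.prime.dvd_finsetProd_iff _).1 h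
      exact W.l_not ((congrArg (· ∈ W.T) (pe _ _ h2)).mpr h1)
    · exact absurd (l₀.2.dvd_factorial.1 h) (by omega)
  · rw [eD, mul_assoc, mul_comm D, Nat.cast_mul _ (_ * _ * _), Nat.cast_mul _ Del, mul_assoc _ (Del : ℤ)]
    refine mul_dvd_mul_left _ (mul_dvd_mul_left _ (Dvd.dvd.mul_left ?_ _))
    rw [mul_assoc, Nat.cast_mul]
    exact (Int.dvd_natAbs.2 dvd_rfl).mul_right _
  · rw [hb, mul_assoc, ← mul_sub_one]
    exact W.Fi_eq.mul_left _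

end Pool.Agent.MT
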