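import Pool.Agent.Lib.MP_d61fbb_ag.MW.S0
import Pool.Agent.Lib.MP_d61fbb_ag.MT.H2

/-! Powers of an abelian variety. -/

set_option autoImplicit false

noncomputable section

namespace Pool.Agent.MT

open Matrix Sum

/-- the dimension of the power -/
abbrev Dim.pow (dm : Dim) (D : ℕ) [NeZero D] : Dim :=
  ⟨D * dm.g, Nat.mul_pos (NeZero.pos D) dm.pos⟩

variable {g D : ℕ}

/-- the indices of the power -/
def ix (D g : ℕ) : I2 (D * g) ≃ Fin D × I2 g :=
  (Equiv.sumCongr finProdFinEquiv.symm finProdFinEquiv.symm).trans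
    (Equiv.prodSumDistrib (Fin D) (Fin g) (Fin g)).symm

/-- the components of a vector -/
def vc {R : Type} (x : I2 (D * g) → R) (k : Fin D) : I2 g → R := fun i => x ((ix D g).symm (k, i))

/-- the vector with given components -/
def vb {R : Type} (c : Fin D → I2 g → R) : I2 (D * g) → R := fun i => c (ix D g i).1 (ix D g i).2

/-- the components of a vector of half size -/
def vh {R : Type} (x : Fin (D * g) → R) (k : Fin D) : Fin g → R :=
  fun i => x (finProdFinEquiv (k, i))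

@[simp] theorem vc_vb {R : Type} (c : Fin D → I2 g → R) : vc (vb c) = c := by
  funext k i; simp [vc, vb]

@[simp] theorem vb_vc {R : Type} (x : I2 (D * g) → R) : vb (vc x) = x := by
  funext i; simp [vc, vb]

theorem vc_ext {R : Type} {x y : I2 (D * g) → R} (h : ∀ k, vc x k = vc y k) : x = y := by
  rw [← vb_vc x, funext h, vb_vc]

theorem vc_forall {R : Type} {x : I2 (D * g) → R} {P : R → Prop} :
    (∀ i, P (x i)) ↔ ∀ k i, P (vc x k i) :=
  ⟨fun h _ _ => h _, fun h i => by simpa [vc] using h (ix D g i).1 (ix D g i).2⟩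

theorem vc_inl {R : Type} (x : I2 (D * g) → R) (k : Fin D) : vc x k ∘ inl = vh (x ∘ inl) k := rfl

theorem vc_inr {R : Type} (x : I2 (D * g) → R) (k : Fin D) : vc x k ∘ inr = vh (x ∘ inr) k := rfl

section
variable {R S : Type} [CommRing R] [CommRing S]

/-- block matrices -/
def bl (D g : ℕ) (R : Type) [CommRing R] : Matrix (Fin D) (Fin D) (Matrix (I2 g) (I2 g) R) ≃ₐ[R]
    Matrix (I2 (D * g)) (I2 (D * g)) R :=
  (compAlgEquiv (Fin D) (I2 g) R R).trans (reindexAlgEquiv R R (ix D g).symm)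

theorem bl_apply (Q : Matrix (Fin D) (Fin D) (Matrix (I2 g) (I2 g) R)) (i j : I2 (D * g)) :
    bl D g R Q i j = Q (ix D g i).1 (ix D g j).1 (ix D g i).2 (ix D g j).2 := rfl

/-- block diagonal matrices -/
def dg (D : ℕ) {g : ℕ} {R : Type} [CommRing R] :
    Matrix (I2 g) (I2 g) R →ₐ[R] Matrix (I2 (D * g)) (I2 (D * g)) R :=
  (bl D g R).toAlgHom.comp (scalarAlgHom (Fin D) R)

theorem dg_eq (x : Matrix (I2 g) (I2 g) R) : dg D x = bl D g R (diagonal fun _ => x) := rfl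

theorem dg_apply (x : Matrix (I2 g) (I2 g) R) (i j : I2 (D * g)) :
    dg D x i j = if (ix D g i).1 = (ix D g j).1 then x (ix D g i).2 (ix D g j).2 else 0 := by
  rw [dg_eq, bl_apply, diagonal_apply]
  split_ifs <;> rfl

theorem bl_map (Q : Matrix (Fin D) (Fin D) (Matrix (I2 g) (I2 g) R)) (f : R → S) :
    (bl D g R Q).map f = bl D g S (Q.map fun x => x.map f) := rfl

theorem dg_map (x : Matrix (I2 g) (I2 g) R) {f : R → S} (hf : f 0 = 0) :
    (dg D x).map f = dg D (x.map f) := by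
  ext i j
  rw [map_apply, dg_apply, dg_apply]
  split_ifs
  · rfl
  · exact hf

theorem sum_ix {M : Type} [AddCommMonoid M] (f : I2 (D * g) → M) :
    ∑ i, f i = ∑ k, ∑ i, vc f k i := by
  rw [← (ix D g).symm.sum_comp, Fintype.sum_prod_type]; rfl

theorem vc_bl (Q : Matrix (Fin D) (Fin D) (Matrix (I2 g) (I2 g) R)) (x : I2 (D * g) → R)
    (k : Fin D) : vc (bl D g R Q *ᵥ x) k = ∑ k', Q k k' *ᵥ vc x k' := by
  funext i
  rw [Finset.sum_apply]
  refine (sum_ix _).trans ?_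
  simp [vc, bl_apply, mulVec, dotProduct]

theorem vc_dg (a : Matrix (I2 g) (I2 g) R) (x : I2 (D * g) → R) (k : Fin D) :
    vc (dg D a *ᵥ x) k = a *ᵥ vc x k := by
  rw [dg_eq, vc_bl, Finset.sum_eq_single k (fun b _ hb => by
    rw [diagonal_apply_ne' _ hb, zero_mulVec]) (by simp), diagonal_apply_eq]

theorem dg_vb (a : Matrix (I2 g) (I2 g) R) (c : Fin D → I2 g → R) :
    dg D a *ᵥ vb c = vb fun k => a *ᵥ c k := vc_ext fun k => by rw [vc_dg, vc_vb, vc_vb]

/-- block matrices whose entries commute with `a` commute with the diagonal matrix -/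
theorem bl_comm {Q : Matrix (Fin D) (Fin D) (Matrix (I2 g) (I2 g) R)} {a : Matrix (I2 g) (I2 g) R}
    (h : ∀ k k', Q k k' * a = a * Q k k') : bl D g R Q * dg D a = dg D a * bl D g R Q := by
  rw [dg_eq, ← map_mul, ← map_mul]
  congr 1
  refine Matrix.ext fun k k' => ?_
  rw [mul_diagonal, diagonal_mul, h]

theorem dot_vh (x y : Fin (D * g) → R) : x ⬝ᵥ y = ∑ k, vh x k ⬝ᵥ vh y k := by
  rw [dotProduct, ← finProdFinEquiv.sum_comp, Fintype.sum_prod_type]; rfl

theorem Ef_pow (x y : I2 (D * g) → R) : Ef x y = ∑ k, Ef (vc x k) (vc y k) := by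
  simp only [Ef, vc_inl, vc_inr, Finset.sum_sub_distrib, ← dot_vh]

theorem Qf_pow (x : I2 (D * g) → R) : Qf x = ∑ k, Qf (vc x k) := by
  simp only [Qf, vc_inl, vc_inr, ← dot_vh]

theorem Ef_dg {a b : Matrix (I2 g) (I2 g) R} (h : ∀ x y, Ef (a *ᵥ x) y = Ef x (b *ᵥ y))
    (x y : I2 (D * g) → R) : Ef (dg D a *ᵥ x) y = Ef x (dg D b *ᵥ y) := by
  simp only [Ef_pow (D := D), vc_dg, h]

theorem Ef_sum_left {ι κ : Type} [Fintype ι] (s : Finset κ) (x : κ → ι ⊕ ι → R) (y : ι ⊕ ι → R) :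
    Ef (∑ k ∈ s, x k) y = ∑ k ∈ s, Ef (x k) y := by
  classical
  induction s using Finset.induction_on with
  | empty => simp
  | insert a s ha ih => rw [Finset.sum_insert ha, Finset.sum_insert ha, Ef_add_left, ih]

theorem Ef_sum_right {ι κ : Type} [Fintype ι] (s : Finset κ) (x : κ → ι ⊕ ι → R) (y : ι ⊕ ι → R) :
    Ef y (∑ k ∈ s, x k) = ∑ k ∈ s, Ef y (x k) := by
  rw [Ef_swap, Ef_sum_left, ← Finset.sum_neg_distrib]
  exact Finset.sum_congr rfl fun k _ => (Ef_swap _ _).symm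

/-- the adjoint of a block matrix -/
theorem Ef_bl {Q Q' : Matrix (Fin D) (Fin D) (Matrix (I2 g) (I2 g) R)}
    (h : ∀ k k' x y, Ef (Q k k' *ᵥ x) y = Ef x (Q' k' k *ᵥ y)) (x y : I2 (D * g) → R) :
    Ef (bl D g R Q *ᵥ x) y = Ef x (bl D g R Q' *ᵥ y) := by
  simp only [Ef_pow (D := D), vc_bl, Ef_sum_left, Ef_sum_right, h]
  exact Finset.sum_comm

end

/-- the period matrix of the power -/
def tauP (D : ℕ) (τ : Matrix (Fin g) (Fin g) ℂ) : Matrix (Fin (D * g)) (Fin (D * g)) ℂ :=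
  of fun i j => if (finProdFinEquiv.symm i).1 = (finProdFinEquiv.symm j).1 then
    τ (finProdFinEquiv.symm i).2 (finProdFinEquiv.symm j).2 else 0

variable {τ : Matrix (Fin g) (Fin g) ℂ}

theorem vh_tau (x : Fin (D * g) → ℂ) (k : Fin D) : vh (tauP D τ *ᵥ x) k = τ *ᵥ vh x k := by
  funext i
  simp only [vh, mulVec, dotProduct]
  rw [← finProdFinEquiv.sum_comp, Fintype.sum_prod_type, Finset.sum_eq_single k
    (fun b _ hb => by simp [tauP, -finProdFinEquiv_symm_apply, hb.symm]) (by simp)]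
  simp [tauP, -finProdFinEquiv_symm_apply]

theorem sieg_pow (h : Sieg τ) : Sieg (tauP D τ) := by
  refine ⟨?_, fun y hy => ?_⟩
  · ext i j
    simp only [tauP, transpose_apply, of_apply, eq_comm (a := (finProdFinEquiv.symm j).1)]
    split_ifs
    · exact congrFun (congrFun h.symm _) _
    · rfl
  · obtain ⟨i, hi⟩ := Function.ne_iff.1 hy
    rw [dot_vh, Complex.im_sum]
    simp only [vh_tau]
    refine Finset.sum_pos' (fun k _ => ?_) ⟨(finProdFinEquiv.symm i).1, Finset.mem_univ _,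
      h.pos (vh y _) fun e => hi ?_⟩
    · by_cases e : vh y k = 0
      · rw [show vh (rc y) k = rc (vh y k) from rfl, e]; simp [rc, dotProduct]
      · exact (h.pos (vh y k) e).le
    · simpa [vh, -finProdFinEquiv_symm_apply] using congrFun e (finProdFinEquiv.symm i).2

theorem vh_zz (x : I2 (D * g) → ℂ) (k : Fin D) : vh (zz (tauP D τ) x) k = zz τ (vc x k) := by
  rw [zz, zz, vc_inl, vc_inr, ← vh_tau]; rfl

theorem vh_ext {R : Type} {x y : Fin (D * g) → R} (h : ∀ k, vh x k = vh y k) : x = y := by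
  funext i
  simpa [vh, -finProdFinEquiv_symm_apply] using
    congrFun (h (finProdFinEquiv.symm i).1) (finProdFinEquiv.symm i).2

theorem ee_sum {κ : Type} (s : Finset κ) (f : κ → ℂ) : ee (∑ k ∈ s, f k) = ∏ k ∈ s, ee (f k) := by
  simp only [ee, Finset.mul_sum, Complex.exp_sum]

theorem psi_sum {κ : Type} (s : Finset κ) (f : κ → AF) :
    psi (∑ k ∈ s, f k) = ∏ k ∈ s, psi (f k) := by
  classical
  induction s using Finset.induction_on with
  | empty => simp
  | insert a s ha ih => rw [Finset.sum_insert ha, Finset.prod_insert ha, AddChar.map_add_eq_mul, ih]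

theorem tsum_pi {α : Type} (D : ℕ) (f : Fin D → α → ℂ) (h : ∀ k, Summable fun n => ‖f k n‖) :
    (Summable fun n : Fin D → α => ‖∏ k, f k (n k)‖) ∧
      ∑' n : Fin D → α, ∏ k, f k (n k) = ∏ k, ∑' m, f k m := by
  induction D with
  | zero => exact ⟨.of_finite, by simp⟩
  | succ D ih =>
    obtain ⟨h1, h2⟩ := ih (fun k => f k.succ) fun k => h _
    have e : ∀ p : α × (Fin D → α), ∏ k, f k (Fin.consEquiv (fun _ => α) p k) =
        f 0 p.1 * ∏ k : Fin D, f k.succ (p.2 k) := fun p => by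
      rw [Fin.prod_univ_succ]; rfl
    constructor
    · rw [← (Fin.consEquiv fun _ => α).summable_iff]
      simpa only [Function.comp_def, e] using (h 0).mul_norm h1
    · rw [← (Fin.consEquiv fun _ => α).tsum_eq, Fin.prod_univ_succ, ← h2,
        tsum_mul_tsum_of_summable_norm (h 0) h1]
      exact tsum_congr e

theorem T_pow (h : Sieg τ) (a w : Fin (D * g) → ℂ) :
    T (tauP D τ) a w = ∏ k, T τ (vh a k) (vh w k) := by
  simp only [T]
  rw [← (tsum_pi D (fun k => tm τ (vh a k) (vh w k)) fun k => h.summable _ _).2,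
    ← ((finProdFinEquiv.symm.arrowCongr (Equiv.refl ℤ)).trans
      (Equiv.curry (Fin D) (Fin g) ℤ)).tsum_eq]
  refine tsum_congr fun n => ?_
  rw [tm, dot_vh, dot_vh _ w, Finset.sum_div, ← Finset.sum_add_distrib, ee_sum]
  simp only [vh_tau]
  rfl

theorem Th_pow (h : Sieg τ) (x : I2 (D * g) → ℂ) : Th (tauP D τ) x = ∏ k, Th τ (vc x k) := by
  rw [Th, T_pow h, Qf_pow, Finset.sum_div, ← Finset.sum_neg_distrib, ee_sum,
    ← Finset.prod_mul_distrib]
  rfl

theorem Theta_pow (h : Sieg τ) (x : VV (Fin (D * g))) :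
    Theta (tauP D τ) x = ∏ k, Theta τ (vc x k) := by
  rw [Theta, Th_pow h, Qf_pow, Ef_pow, ← Finset.sum_add_distrib, Finset.smul_sum, psi_sum,
    ← Finset.prod_mul_distrib]
  rfl

theorem Xc_pow (h : Sieg τ) (a : I2 (D * g) → ℂ) (η : I2 (D * g) → ZMod 2) :
    Xc (tauP D τ) a η = ∏ k, Xc τ (vc a k) (vc η k) := by
  rw [Xc, T_pow h]
  refine Finset.prod_congr rfl fun k _ => ?_
  rw [Xc, vc_inl, vc_inr, ← vh_tau]
  rfl

/-- the product of functions on the factors -/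
def pf {R k : Type} [CommMonoid k] (F : Fin D → (I2 g → R) → k) (x : I2 (D * g) → R) : k :=
  ∏ i, F i (vc x i)

theorem pf_vb {R k : Type} [CommMonoid k] (F : Fin D → (I2 g → R) → k) (c : Fin D → I2 g → R) :
    pf F (vb c) = ∏ i, F i (c i) := by rw [pf, vc_vb]

theorem chi0_pow (t : VV (Fin (D * g))) : chi0 t = ∏ k, chi0 (vc t k) := by
  rw [chi0, Qf_pow, Finset.smul_sum, psi_sum]; rfl

theorem UU_pf (r : ℚ) (y : VV (Fin (D * g))) (F : Fin D → VV (Fin g) → ℂ) :
    UU r y (pf F) = pf fun k => UU r (vc y k) (F k) := by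
  funext x
  rw [UU_apply, eps, Ef_pow, Finset.smul_sum, psi_sum, pf, pf, ← Finset.prod_mul_distrib]
  rfl

theorem lam_pow {t : VV (Fin (D * g))} : t ∈ Lam (I2 (D * g)) ↔ ∀ k, vc t k ∈ Lam (I2 g) := by
  simp only [mem_Lam]
  exact vc_forall (P := fun a => a ∈ Zh)

theorem HH_pf {r : ℚ} {F : Fin D → VV (Fin g) → ℂ} (h : ∀ k, F k ∈ HH τ r) :
    pf F ∈ HH (tauP D τ) r := by
  choose N hN h1 using fun k => (h k).1
  choose G h2 h3 using fun k => (h k).2
  refine ⟨⟨∏ k, N k, Finset.prod_ne_zero_iff.2 fun k _ => hN k, fun m hm => ?_⟩, pf G,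
    ⟨?_, fun u hu x => ?_⟩, fun q => Finset.prod_congr rfl fun k _ => h3 k (vc q k)⟩
  · rw [UU_pf]
    congr 1
    funext k
    obtain ⟨c, hc⟩ := Finset.dvd_prod_of_mem N (Finset.mem_univ k)
    rw [hc, mul_smul]
    exact h1 k _ (nsmul_mem (lam_pow.1 hm k) c)
  · have hd : ∀ k, Differentiable ℂ fun x : I2 (D * g) → ℂ => G k (vc x k) := fun k =>
      (h2 k).diff.comp (differentiable_pi.2 fun i => differentiable_apply _)
    intro x
    classical
    exact (HasFDerivAt.finsetProd (u := Finset.univ) fun k _ => (hd k x).hasFDerivAt).differentiableAt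
  · rw [Ef_pow, Finset.mul_sum, ee_sum, pf, pf, ← Finset.prod_mul_distrib]
    refine Finset.prod_congr rfl fun k _ => (h2 k).cr (vc u k) ?_ (vc x k)
    rw [← vh_zz, hu]; rfl

/-- the product of theta vectors is a theta vector -/
theorem eig_pf {h : Matrix (I2 g) (I2 g) AF} {F : Fin D → VV (Fin g) → ℂ}
    (hF : ∀ k, ∀ t ∈ Lam (I2 g), UU 1 (h *ᵥ t) (F k) = chi0 t • F k) :
    ∀ t ∈ Lam (I2 (D * g)), UU 1 (dg D h *ᵥ t) (pf F) = chi0 t • pf F := fun t ht => by
  rw [UU_pf, chi0_pow]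
  funext x
  simp only [pf, vc_dg, hF _ _ (lam_pow.1 ht _), Pi.smul_apply, smul_eq_mul,
    Finset.prod_mul_distrib]

theorem pf_ne {F : Fin D → VV (Fin g) → ℂ} (h : ∀ k, F k ≠ 0) : pf F ≠ 0 := fun e => by
  choose c hc using fun k => Function.ne_iff.1 (h k)
  exact Finset.prod_ne_zero_iff.2 (fun k _ => hc k) ((pf_vb F c).symm.trans (congrFun e _))

section
variable [dm : Dim] {τ : Matrix (Fin gg) (Fin gg) ℂ} {K : IntermediateField ℚ ℂ}

theorem IsCx.pow {J : M8 ℝ} (h : IsCx τ J) (D : ℕ) [NeZero D] :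
    IsCx (dm := dm.pow D) (tauP D τ) (dg D J) := fun a => vh_ext fun k => by
  have e := h (vc a k)
  rw [← vc_dg] at e
  exact (vh_zz _ k).trans (e.trans (congrArg (fun z => Complex.I • z) (vh_zz (rc a) k).symm))

/-- the Galois action on the power -/
def powRho {Γ : Type} [Group Γ] {g : ℕ} (ρ : Γ →* ∀ l : Pr, GL (I2 g) ℤ_[l]) (D : ℕ) :
    Γ →* ∀ l : Pr, GL (I2 (D * g)) ℤ_[l] where
  toFun σ l := Units.map (dg D : Matrix (I2 g) (I2 g) ℤ_[l] →ₐ[ℤ_[l]]
    Matrix (I2 (D * g)) (I2 (D * g)) ℤ_[l]).toMonoidHom (ρ σ l)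
  map_one' := funext fun l => by rw [map_one, Pi.one_apply, map_one]; rfl
  map_mul' σ σ' := funext fun l => by rw [map_mul, Pi.mul_apply, map_mul]; rfl

theorem pow_alg (M : TRep τ K) (hτ : Sieg τ) (D : ℕ) [NeZero D] (σ : ℂ ≃ₐ[K] ℂ)
    (a b : I2 (D * gg) → ℚ) (h : ∀ (l : Pr) i,
      ‖((powRho M.ρ D σ l).val.map (↑) *ᵥ (fun j => (a j : ℚ_[l])) - fun j => (b j : ℚ_[l])) i‖ ≤ 1) :
    ∃ c : ℂ, ∀ η, σ (Xc (tauP D τ) (qc a) η) = c * Xc (tauP D τ) (qc b) η := by
  choose c hc using fun k => M.alg σ (vc a k) (vc b k) fun l i => by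
    have e := h l ((ix D gg).symm (k, i))
    have e2 := congrFun (vc_dg ((M.ρ σ l).val.map ((↑) : ℤ_[l] → ℚ_[l]))
      (fun j => (a j : ℚ_[l])) k) i
    rw [← dg_map _ PadicInt.coe_zero] at e2
    exact (congrArg (fun z : ℚ_[l] => ‖z - ((vc b k i : ℚ) : ℚ_[l])‖) e2).symm.trans_le e
  refine ⟨∏ k, c k, fun η => ?_⟩
  rw [Xc_pow hτ, Xc_pow hτ, map_prod, ← Finset.prod_mul_distrib]
  exact Finset.prod_congr rfl fun k _ => hc k _

/-- the torsion points of the power -/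
def TRep.pow (M : TRep τ K) (hτ : Sieg τ) (D : ℕ) [NeZero D] :
    TRep (dm := dm.pow D) (tauP D τ) K :=
  @TRep.mk (dm.pow D) (tauP D τ) K (powRho M.ρ D) (pow_alg M hτ D)

theorem TRep.pow_rho (M : TRep τ K) (hτ : Sieg τ) (D : ℕ) [NeZero D] (σ : ℂ ≃ₐ[K] ℂ) (l : Pr) :
    (TRep.ρ (dm := dm.pow D) (M.pow hτ D) σ l).val = dg D (M.ρ σ l).val := rfl

end

end Pool.Agent.MT
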