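import Pool.Agent.Lib.MP_d61fbb_ag.MW.GN2
import Pool.Agent.Lib.MP_d61fbb_ag.MW.GX3

/-! Multiplicity one for a polarised lattice. -/

set_option autoImplicit false

noncomputable section

namespace Pool.Agent.MT

variable [dm : Dim]

open Matrix Polynomial Sum NumberField
open Pool.Agent.Lib.MP_696deb_nt.B2 (Qbar Gam Plc Dec Ine IsFrob Op jC)

theorem zt3_single (i : I2 gg) : (Pi.single i 1 : W) ∈ L0 := gx_L0.2 fun j => by
  by_cases h : j = i
  · subst h; rw [Pi.single_eq_same]; exact Zh.one_mem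
  · rw [Pi.single_eq_of_ne h]; exact Zh.zero_mem

/-- the standard lattice is self dual -/
theorem zt3_dual {y : W} (h : ∀ t ∈ L0, Ef t y ∈ Zh) : y ∈ L0 := gx_L0.2 fun
  | inl i => by
    have := Zh.neg_mem (h _ (zt3_single (inr i)))
    simpa [Ef, dotProduct, Pi.single_apply] using this
  | inr i => by
    have := h _ (zt3_single (inl i))
    simpa [Ef, dotProduct, Pi.single_apply] using this

/-- multiplicity one for a polarised lattice -/
theorem Pt.uniq (hU : UNIQ) (S : TSys Qbar 0) {N : ℕ} {h : M8 AF} (P : Pt N h) {F F' : W → Qbar}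
    (hF : S.IsVec N h F) (hF' : S.IsVec N h F') (h0 : F' ≠ 0) : ∃ c : Qbar, F = c • F' := by
  obtain ⟨u, hu⟩ := P.sim
  obtain ⟨w, rfl⟩ := P.unit
  refine hU Qbar 0 S N (Nat.cast_ne_zero.2 P.ne) (L0.map w.val.mulVecLin.toAddMonoidHom)
    (fun t _ => gn_Wp0 t) (fun x _ hx => ?_) (sgn S.e) F' F hF'.mem hF.mem h0 ?_ ?_
  · have e : w.val *ᵥ w⁻¹.val *ᵥ x = x := by rw [mulVec_mulVec, Units.mul_inv, one_mulVec]
    refine ⟨w⁻¹.val *ᵥ x, zt3_dual fun t ht l => ?_, e⟩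
    have h1 : S.e ((N : ℚ) • Ef (w.val *ᵥ t) x) = 1 := hx _ ⟨t, ht, rfl⟩
    rw [Nat.cast_smul_eq_nsmul, nsmul_eq_mul, ← e, hu] at h1
    have h2 := (S.ker _).1 h1 l l.2.ne_zero
    rwa [map_mul, norm_mul, gn_norm_unit, one_mul] at h2
  · rintro _ ⟨t, ht, rfl⟩
    exact hF'.inv t ht (gn_Wp0 _)
  · rintro _ ⟨t, ht, rfl⟩
    exact hF.inv t ht (gn_Wp0 _)

/-- the point `a / l₀ ^ e` placed at `l₀` -/
def io (l₀ : Pr) (e : ℕ) (a : I2 gg → ℤ) : W :=
  sgv l₀ fun n => (a n : ℚ_[l₀]) / ((l₀ : ℕ) : ℚ_[l₀]) ^ e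

/-- `F` is a nonzero theta vector of the lattice `h Λ` whose values are algebraic integers -/
structure IntVec (S : TSys Qbar 0) (N : ℕ) (h : M8 AF) (F : W → Qbar) : Prop where
  pt : Pt N h
  vec : S.IsVec N h F
  ne : F ≠ 0
  int : ∀ x, IsIntegral ℤ (F x)

end Pool.Agent.MT
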