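import Pool.Agent.Lib.MP_d61fbb_ag.MW.IW
import Pool.Agent.Lib.MP_d61fbb_ag.MW.DS
import Pool.Agent.Lib.MP_d61fbb_ag.MW.End
import Pool.Agent.Lib.MP_d61fbb_ag.MW.Pw
import Pool.Agent.Lib.MP_d61fbb_ag.MW.ZT3
import Pool.Agent.Lib.MP_d61fbb_ag.MW.GL1
import Pool.Agent.Lib.MP_d61fbb_ag.MT.CIn

/-! The adelic model of the points. -/

set_option autoImplicit false

noncomputable section

namespace Pool.Agent.MT

open Matrix Polynomial NumberField Ideal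
open Pool.Agent.Lib.MP_696deb_nt.B2 (Qbar jC)

/-- `x` is one modulo `c` in the localisation of `O` -/
def Cg {F : Type} [Field F] (O : Subring F) (c : ℕ) (x : F) : Prop :=
  ∃ n : ℕ, n.Coprime c ∧ ∃ y ∈ O, (n : F) * (x - 1) = c * y

/-- the quotient `β / a` as a unit -/
def uq {E : Type} [Field E] [NumberField E] (a β : 𝓞 E) : Eˣ := by
  classical exact if h : (β : E) / a ≠ 0 then Units.mk0 _ h else 1

variable [dm : Dim]

theorem offM_mul (p : Pr) (g h : M8 AF) : offM p (g * h) = offM p g * offM p h :=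
  gn_mat_ext fun l => by
    by_cases e : l = p
    · subst e
      rw [Matrix.map_mul, cp_offM_self, cp_offM_self, cp_offM_self, one_mul]
    · rw [Matrix.map_mul, cp_offM_ne e, cp_offM_ne e, cp_offM_ne e, Matrix.map_mul]

theorem offM_one (p : Pr) : offM p (1 : M8 AF) = 1 := by
  rw [offM, ← add_smul, sub_add_cancel, one_smul]

/-- the projection away from `p` -/
def offH (p : Pr) : M8 AF →* M8 AF := ⟨⟨offM p, offM_one p⟩, offM_mul p⟩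

/-- the matrices that are one modulo `q` and scalar modulo `q ^ 2` -/
def CgS {l : Pr} (q : ℤ_[l]) (u : M8 ℚ_[l]) : Prop :=
  ∃ (c : ℤ_[l]) (y : M8 ℤ_[l]), u = ((1 : M8 ℤ_[l]) + q • (c • (1 : M8 ℤ_[l]) + q • y)).map (↑)

theorem CgS.mul {l : Pr} {q : ℤ_[l]} {u w : M8 ℚ_[l]} (hu : CgS q u) (hw : CgS q w) :
    CgS q (u * w) := by
  obtain ⟨c, y, rfl⟩ := hu
  obtain ⟨d, z, rfl⟩ := hw
  refine ⟨c + d, y + z + (c • 1 + q • y) * (d • 1 + q • z),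
    (Matrix.map_mul (f := PadicInt.Coe.ringHom)).symm.trans (congrArg (Matrix.map · _) ?_)⟩
  simp only [mul_add, add_mul, mul_one, one_mul, smul_mul_assoc, mul_smul_comm]
  module

theorem CgS.inv {l : Pr} {q : ℤ_[l]} {u : M8 ℚ_[l]} {w : M8 ℤ_[l]} (hu : CgS q u)
    (h : w.map (↑) * u = 1) : CgS q (w.map (↑)) := by
  obtain ⟨c, y, rfl⟩ := hu
  have e : w * (1 + q • (c • 1 + q • y)) = 1 := Matrix.map_injective Subtype.val_injective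
    ((Matrix.map_mul (f := PadicInt.Coe.ringHom)).trans 
      (h.trans (PadicInt.Coe.ringHom (p := l)).mapMatrix.map_one.symm))
  refine ⟨-c, c • (w * (c • 1 + q • y)) - w * y, congrArg (Matrix.map · _) ?_⟩
  simp only [mul_add, mul_one, mul_smul_comm] at e ⊢
  linear_combination (norm := module) e - (q * c) • e

theorem StdAt.inv {l : Pr} {g h : M8 AF} (a : StdAt l g) (e : g * h = 1) : StdAt l h := fun x => by
  rw [← a, mulVec_mulVec, ← Matrix.map_mul, e, Matrix.map_one _ (map_zero _) (map_one _),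
    one_mulVec]

theorem StdAt.int {l : Pr} {g : M8 AF} (a : StdAt l g) :
    ∃ w : M8 ℤ_[l], g.map (cp l) = w.map (↑) :=
  ⟨of fun i j => ⟨_, by
    simpa using (a (Pi.single j 1)).2 (fun i => by rw [Pi.single_apply]; split_ifs <;> simp) i⟩, rfl⟩

variable {τ : Matrix (Fin gg) (Fin gg) ℂ} {K : IntermediateField ℚ ℂ} {e k n : ℕ}

/-- All choices. -/
structure Cx (M : AType τ K e k n) (EF : EndF τ (zM ℚ M.a)) (N : ℕ) (l₀ : Pr) where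
  hτ : Sieg τ
  hN : 2 * Module.finrank ℚ EF.F + 5 ≤ N
  B : AR (dm := dm.pow (2 ^ N)) (M.toTRep.pow hτ (2 ^ N))
  v : Frb (dm := dm.pow (2 ^ N)) B
  P : ℤ[X]
  Q : ℚ[X]
  r : ℤ
  κ : Type
  [fin : Fintype κ]
  [dec : DecidableEq κ]
  E : κ → Type
  [fld : ∀ i, Field (E i)]
  [nf : ∀ i, NumberField (E i)]
  W : MW.Dd.DW M l₀ (Frb.p (dm := dm.pow (2 ^ N)) v) (Frb.φ (dm := dm.pow (2 ^ N)) v) P Q r E
  r2 : 2 ∣ r
  c : ℕ
  f : ℕ
  f0 : f ≠ 0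
  pc : ((Frb.p (dm := dm.pow (2 ^ N)) v : Pr) : ℕ) ∣ c
  good : ∀ l : Pr, ¬ (l : ℕ) ∣ f → l ∉ W.T ∧ 2 * n + 2 < (l : ℕ)
  l0 : ¬ (l₀ : ℕ) ∣ f
  Del : ℕ
  hDel : ∀ x : EF.F, IsIntegral ℤ x → (Del : EF.F) * x ∈ EF.O
  cf : 16 * c ^ 2 * Del ∣ f
  hD : ∃ s : ℕ, W.D * (16 * c ^ 2 : ℕ) ∣ ((l₀ : ℕ) : ℤ) ^ s * f
  hq : ∃ (q u : ℤ) (b : ℤ[X]), Q ∣ b.map (Int.castRingHom ℚ) * (X - C (r : ℚ) * W.Fa) - C (q : ℚ) ∧
    ¬ (((Frb.p (dm := dm.pow (2 ^ N)) v : Pr) : ℕ) : ℤ) ∣ u ∧ q ∣ u * c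
  lt : ∀ (l : Pr) (h : ¬ (l : ℕ) ∣ f), LT W.toDF.cO l n (W.loc l (good l h).1).j
  mb : ℕ
  Cb : ℝ
  mb_c : 16 * c ^ 2 ∣ mb
  mb_a : ∀ x ∈ EF.O, ∃ u : ℤ[X], (mb : EF.F) * x = aeval EF.al u
  hb : ∀ ν : EF.F, ν ≠ 0 → EF.cj ν = ν → ∃ x x' : EF.F, x ∈ EF.O ∧ x' ∈ EF.O ∧ EF.cj x = x ∧
    EF.cj x' = x' ∧ (1 + mb * x) * (1 + mb * x') = 1 ∧
      ∀ φ ψ : EF.F →+* ℂ, ‖φ (ν * (1 + mb * x) ^ 2)‖ ≤ Cb * ‖ψ (ν * (1 + mb * x) ^ 2)‖

attribute [instance] Cx.fin Cx.dec Cx.fld Cx.nf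

/-- block matrices with entries in the field of endomorphisms -/
def EndF.jP {a : M8 ℚ} (EF : EndF τ a) {D : ℕ} (q : Matrix (Fin D) (Fin D) EF.F) :
    Matrix (I2 (D * gg)) (I2 (D * gg)) ℚ := bl D gg ℚ (q.map EF.j)

/-- the group of pairs of an adelic matrix and a polarisation -/
abbrev GW {a : M8 ℚ} (EF : EndF τ a) : Type := (M8 AF)ˣ × EF.Fˣ

namespace Cx

variable {M : AType τ K e k n} {EF : EndF τ (zM ℚ M.a)} {N : ℕ} {l₀ : Pr} (C : Cx M EF N l₀)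

/-- the residue characteristic -/
abbrev p : Pr := Frb.p (dm := dm.pow (2 ^ N)) C.v

/-- the Frobenius element -/
abbrev φ : ℂ ≃ₐ[K] ℂ := Frb.φ (dm := dm.pow (2 ^ N)) C.v

/-- the conjugation -/
abbrev cO (i : C.κ) : 𝓞 (C.E i) ≃+* 𝓞 (C.E i) := C.W.toDF.cO i

/-- the block datum at a good prime -/
abbrev bk (l : Pr) (h : ¬ (l : ℕ) ∣ C.f) : Blk e k n l M.a := M.D l (C.W.notS l (C.good l h).1)

/-- the generator as an adelic matrix -/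
def θ : M8 AF := mA (M.ρ C.φ) + C.r • zM AF M.a

/-- the type norm -/
def nuM (b : ∀ i, C.E i) : M8 AF := offM C.p (aeval C.θ (C.W.f b))

/-- the element of the field of endomorphisms by which a real element acts -/
def fx (b : ∀ i, C.E i) : EF.F := aeval EF.al (C.W.mu b)

/-- the multiplier of the type norm -/
def mu (b : ∀ i, C.E i) : EF.F := C.fx fun i => b i * C.W.c i (b i)

/-- the generator at one prime -/
abbrev tl (l : Pr) : M8 ℚ_[l] := (MW.Dd.th M C.φ C.r l).map (↑)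

theorem cp_θ (l : Pr) : C.θ.map (cp l) = C.tl l := by
  ext i j
  simp only [θ, MW.Dd.th, map_apply, Matrix.add_apply, Matrix.smul_apply, map_add, map_zsmul,
    map_intCast]
  simp [show cp l (mA (M.ρ C.φ) i j) = (M.ρ C.φ l).val i j from rfl]

theorem cp_aeval (l : Pr) (q : ℚ[X]) : (aeval C.θ q).map (cp l) = aeval (C.tl l) q :=
  (hom_aeval (cpM l) _ q).trans (congrArg (aeval · q) (C.cp_θ l))

theorem cp_nuM {l : Pr} (h : l ≠ C.p) (b : ∀ i, C.E i) :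
    (C.nuM b).map (cp l) = aeval (C.tl l) (C.W.f b) := (cp_offM_ne h _).trans (C.cp_aeval l _)

theorem off_ext {x y : M8 AF} (h : ∀ l ≠ C.p, x.map (cp l) = y.map (cp l)) :
    offM C.p x = offM C.p y := gn_mat_ext fun l => by
  by_cases e : l = C.p
  · rw [e, cp_offM_self, cp_offM_self]
  · rw [cp_offM_ne e, cp_offM_ne e, h l e]

theorem tl_one {l : Pr} (h : l ≠ C.p) : aeval (C.tl l) (C.W.f 1) = 1 := by
  simpa [Pi.one_def] using aeval_of_dvd (C.W.root l h) (C.W.f_rat 1)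

theorem tl_mul {l : Pr} (h : l ≠ C.p) (b b' : ∀ i, C.E i) : aeval (C.tl l) (C.W.f (b * b')) =
    aeval (C.tl l) (C.W.f b) * aeval (C.tl l) (C.W.f b') :=
  (aeval_of_dvd (C.W.root l h) (C.W.f_mul b b')).trans (map_mul _ _ _)

theorem nuM_one : C.nuM 1 = 1 := (C.off_ext fun l h => by
  rw [cp_aeval, C.tl_one h, Matrix.map_one _ (map_zero _) (map_one _)]).trans (offM_one _)

theorem nuM_mul (b b' : ∀ i, C.E i) : C.nuM (b * b') = C.nuM b * C.nuM b' :=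
  (C.off_ext fun l h => by
    rw [Matrix.map_mul, cp_aeval, cp_aeval, cp_aeval, C.tl_mul h]).trans (offM_mul _ _ _)

theorem l0_ne : l₀ ≠ C.p := fun e => C.W.l_not ((congrArg (· ∈ C.W.T) e).mpr C.W.p_mem)

/-- the endomorphisms at one prime -/
def jl (l : Pr) : EF.F →+* M8 ℚ_[l] := (Rat.castHom ℚ_[l]).mapMatrix.comp EF.j

omit C in
theorem jl_eq (l : Pr) (x : EF.F) : jl l x = (EF.j x).map (↑) := rfl

omit C in
theorem jl_aeval (l : Pr) (q : ℚ[X]) : jl l (aeval EF.al q) = aeval (zM ℚ_[l] M.a) q := by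
  rw [hom_aeval (jl l), jl_eq, EF.j_al]
  exact congrArg (aeval · q) (by ext; simp)

theorem jl_fx {l : Pr} (h : l ≠ C.p) {b : ∀ i, C.E i} (hb : ∀ i, C.W.c i (b i) = b i) :
    jl l (C.fx b) = aeval (C.tl l) (C.W.f b) := by
  rw [aeval_of_dvd (C.W.root l h) (C.W.f_mu b hb), aeval_comp, C.W.a_eq l h, fx, jl_aeval]

theorem jl_mu {l : Pr} (h : l ≠ C.p) (b : ∀ i, C.E i) : jl l (C.mu b) =
    aeval (C.tl l) (C.W.f b) * aeval (C.tl l) (C.W.f fun i => C.W.c i (b i)) :=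
  (C.jl_fx h fun i => by rw [map_mul, C.W.cc, mul_comm]).trans (C.tl_mul h _ _)

theorem mu_one : C.mu 1 = 1 := (jl l₀).injective (by
  simpa [C.jl_mu C.l0_ne, ← Pi.one_def] using congrArg₂ (· * ·) (C.tl_one C.l0_ne) (C.tl_one C.l0_ne))

theorem mu_mul (b b' : ∀ i, C.E i) : C.mu (b * b') = C.mu b * C.mu b' := (jl l₀).injective (by
  rw [map_mul, mu, mu, mu, C.jl_fx C.l0_ne, C.jl_fx C.l0_ne, C.jl_fx C.l0_ne, ← C.tl_mul C.l0_ne]
  · exact congrArg (fun b => aeval _ (C.W.f b)) (funext fun i => by simp [mul_mul_mul_comm])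
  all_goals exact fun i => by rw [map_mul, C.W.cc, mul_comm])

/-- the type norm as a homomorphism -/
def nuH : (∀ i, C.E i) →* M8 AF := ⟨⟨C.nuM, C.nuM_one⟩, C.nuM_mul⟩

/-- the multiplier as a homomorphism -/
def muH : (∀ i, C.E i) →* EF.F := ⟨⟨C.mu, C.mu_one⟩, C.mu_mul⟩

/-- the move given by an element of one factor -/
def nuG (i : C.κ) : (C.E i)ˣ →* GW EF :=
  ((Units.map C.nuH).prod (Units.map C.muH)⁻¹).comp (Units.map (MonoidHom.mulSingle C.E i))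

/-- the Galois action -/
def rho : (ℂ ≃ₐ[K] ℂ) →* GW EF := (((offH C.p).comp (mAh.comp M.ρ)).toHomUnits).prod 1

/-- the level structure -/
def UG (m : ℕ) : Subgroup GG where
  carrier := {g | cpG C.p g = 1 ∧ (∀ l, StdAt l (gm g)) ∧ CgS (((l₀ : ℕ) : ℤ_[l₀]) ^ m) (cpG l₀ g)}
  mul_mem' := fun {g h} a b => ⟨by rw [map_mul, a.1, b.1, mul_one],
    fun l => map_mul gm g h ▸ (a.2.1 l).mul (b.2.1 l), map_mul (cpG l₀) g h ▸ a.2.2.mul b.2.2⟩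
  one_mem' := ⟨map_one _, fun l x => by rw [← cpG_eq, map_one, one_mulVec], 0, 0, by
    rw [map_one, zero_smul, smul_zero, add_zero, smul_zero, add_zero, Matrix.map_one _ rfl rfl]⟩
  inv_mem' := fun {g} a => by
    have h := fun l => (a.2.1 l).inv (h := gm g⁻¹) (by rw [← map_mul, mul_inv_cancel, map_one])
    obtain ⟨w, hw⟩ := (h l₀).int
    refine ⟨by rw [← mul_one (cpG _ _), ← a.1, ← map_mul, inv_mul_cancel, map_one, a.1], h, ?_⟩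
    rw [cpG_eq, hw]
    exact a.2.2.inv (by rw [← hw, ← cpG_eq, ← map_mul, inv_mul_cancel, map_one])

/-- the level structure in the group of pairs -/
def U (m : ℕ) : Subgroup (GW EF) := (C.UG m).map ((GSp AF).subtype.prod 1)

/-- the component at `l` is a unit of the order times the norm of `g₁` -/
def Rep (x : GW EF) (l : Pr) (h : ¬ (l : ℕ) ∣ C.f) (g₁ : M2 (C.bk l h).R) : Prop :=
  ∃ u : ℤ_[l][X], IsUnit (aeval (zM ℤ_[l] M.a) u) ∧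
    x.1.val.map (cp l) = (aeval (zM ℤ_[l] M.a) u * (C.bk l h).Nm g₁).map (↑)

/-- points of level `D` -/
structure Pnt (x : GW EF) (D : ∀ i, Ideal (𝓞 (C.E i))) : Prop where
  cop : ∀ i, (absNorm (D i)).Coprime C.f
  cj : ∀ i, (D i).map (C.cO i) = D i
  atp : x.1.val.map (cp C.p) = 1
  fix : EF.cj x.2 = x.2
  pos : ∀ φ : EF.F →+* ℂ, 0 < (φ x.2).re
  cg : Cg EF.O (16 * C.c ^ 2) (x.2 : EF.F)
  pol : ∀ l ≠ C.p, ∃ u : ℚ_[l], ‖u‖ = 1 ∧ (x.1.val.map (cp l))ᵀ * J (Fin gg) ℚ_[l] *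
    (EF.j x.2).map (↑) * x.1.val.map (cp l) = u • J (Fin gg) ℚ_[l]
  bad : ∀ l : Pr, (l : ℕ) ∣ C.f → StdAt l x.1.val
  good : ∀ (l : Pr) (h : ¬ (l : ℕ) ∣ C.f), ∃ g₁, C.Rep x l h g₁ ∧ (C.lt l h).Lv D g₁

/-- balanced polarisations -/
def Bal (x : GW EF) : Prop := ∀ φ ψ : EF.F →+* ℂ, ‖φ x.2‖ ≤ C.Cb * ‖ψ x.2‖

/-- alignment -/
def Al (x : GW EF) (D : ∀ i, Ideal (𝓞 (C.E i))) (i : C.κ) (A : Ideal (𝓞 (C.E i))) : Prop :=
  (absNorm A).Coprime C.f ∧ ∀ (l : Pr) (h : ¬ (l : ℕ) ∣ C.f),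
    ∃ g₁, C.Rep x l h g₁ ∧ (C.lt l h).Lv D g₁ ∧ (C.lt l h).Al i A g₁

/-- square roots of the polarisation -/
structure Adm (ν : EF.F) (q : Matrix (Fin (2 ^ N)) (Fin (2 ^ N)) EF.F) : Prop where
  orth : qᵀ * q = ν • 1
  fix : ∀ i j, EF.cj (q i j) = q i j
  cg : ∃ m : ℕ, m.Coprime (2 * C.c) ∧ ∃ Y : Matrix (Fin (2 ^ N)) (Fin (2 ^ N)) EF.F,
    (∀ i j, Y i j ∈ EF.O) ∧ (m : EF.F) • (q - 1) = (2 * C.c : EF.F) • Y

/-- the lattice in the power -/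
def hh (g : M8 AF) (q : Matrix (Fin (2 ^ N)) (Fin (2 ^ N)) EF.F) :
    M8 (dm := dm.pow (2 ^ N)) AF :=
  offM (dm := dm.pow (2 ^ N)) C.p ((EF.jP q).map qa) * dg (2 ^ N) g

/-- the theta values of a point -/
def Th (m : ℕ) (x : GW EF) (θ : (I2 (2 ^ N * gg) → ℤ) → ℂ) : Prop :=
  x.1.val.map (cp C.p) = 1 ∧ ∃ q F, C.Adm x.2 q ∧
    IntVec (dm := dm.pow (2 ^ N)) (AR.S (dm := dm.pow (2 ^ N)) C.B) 1 (C.hh x.1 q) F ∧
    ∀ a, θ a = ee (Qf (zc a) / 2) * jC (F (C.hh x.1 q *ᵥ io (dm := dm.pow (2 ^ N)) l₀ m a))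

end Cx

end Pool.Agent.MT
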