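import Pool.Agent.Lib.MP_d61fbb_ag.MW.GCR
import Pool.Agent.Lib.MP_d61fbb_ag.MW.GAd

/-! Square roots for the moves. -/

set_option autoImplicit false

noncomputable section

namespace Pool.Agent.MT

open Matrix Polynomial NumberField Ideal

variable [dm : Dim] {τ : Matrix (Fin gg) (Fin gg) ℂ} {K : IntermediateField ℚ ℂ} {e k n : ℕ}
  {M : AType τ K e k n} {EF : EndF τ (zM ℚ M.a)} {N : ℕ} {l₀ : Pr} {C : Cx M EF N l₀}

namespace Cx

variable {i : C.κ} {γ : (C.E i)ˣ}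

theorem nu_adm {s : ℕ} (h : CgE C.f (C.f * (C.p : ℕ) ^ (2 * s)) (γ : C.E i)) :
    ∃ q, C.Adm (C.nuG i γ).2 q ∧ ∃ m : ℕ, m.Coprime (2 * C.c) ∧
      ∃ Y : Matrix (Fin (2 ^ N)) (Fin (2 ^ N)) EF.F, (∀ i j, Y i j ∈ EF.O) ∧
        (m : EF.F) • (q - 1) = ((2 * C.c * (C.p : ℕ) ^ s : ℕ) : EF.F) • Y := by
  rw [(C.nuG_val i γ).2]
  refine exists_adm (by rw [map_inv₀, C.mu_cj]) (fun φ => ?_) s ((C.mu_cong h).inv EF.isOrd)
  have := C.mu_pos ((γ.isUnit.map (MonoidHom.mulSingle C.E i)).apply · |>.ne_zero) φ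
  rw [map_inv₀, Complex.inv_re]
  exact div_pos this (Complex.normSq_pos.2 fun e => this.ne' (congrArg Complex.re e))

variable (C) in
theorem dp_S (i : C.κ) : ∃ S : Ga (C.E i) C.f → Matrix (Fin (2 ^ N)) (Fin (2 ^ N)) EF.F,
    S 1 = 1 ∧ ∀ γ, C.Adm (C.nuG i γ.1).2 (S γ) := by
  have h : ∀ γ : Ga (C.E i) C.f, ∃ S, (γ = 1 → S = 1) ∧ C.Adm (C.nuG i γ.1).2 S := fun γ => by
    by_cases e : γ = 1
    · exact ⟨1, fun _ => rfl, by rw [e, OneMemClass.coe_one, map_one]; exact adm_one⟩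
    · exact (nu_adm (s := 0) (by rw [pow_zero, mul_one]; exact γ.2)).imp fun S h => ⟨(absurd · e), h.1⟩
  choose S h1 h2 using h
  exact ⟨S, h1 1 rfl, h2⟩

theorem dp_fix (hγ : γ ∈ Ga (C.E i) C.f) (h : C.W.c i γ = γ) :
    ∃ S, C.Adm (C.nuG i γ).2 S ∧ C.hh (C.nuG i γ).1 S = 1 := by
  have h1 : ∀ j, C.W.c j (Pi.mulSingle (M := C.E) i γ j) = Pi.mulSingle (M := C.E) i γ j :=
    fun j => by
      by_cases hj : j = i
      · subst hj; rwa [Pi.mulSingle_eq_same]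
      · rw [Pi.mulSingle_eq_of_ne hj, map_one]
  have h2 := (C.nuG_val i γ).2
  rw [C.mu_fix h1, ← inv_pow] at h2
  have h0 : C.fx (Pi.mulSingle i γ) ≠ 0 := fun e => (C.nuG i γ).2.ne_zero (by simp [h2, e])
  refine ⟨(C.fx (Pi.mulSingle i γ))⁻¹ • 1, h2 ▸ adm_scal (by rw [map_inv₀, C.fx_cj h1])
    (((C.fx_cong h (s := 0) (by rw [pow_zero, mul_one]; exact hγ)).mono ⟨8 * C.c, by ring⟩).inv EF.isOrd), ?_⟩
  rw [hh_scal, (C.nuG_val i γ).1, C.nuM_fix h1, ← offM_mul,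
    ← Matrix.map_mul (f := algebraMap ℚ AF), ← map_mul, inv_mul_cancel₀ h0, map_one, hh, EF.jP_one,
    Matrix.map_one _ (map_zero _) (map_one _), Matrix.map_one _ (map_zero _) (map_one _), offM_one,
    offM_one (dm := dm.pow (2 ^ N)), map_one, mul_one]

theorem dp_deep {R : C.FS} (hR : RedOf (dm := dm.pow (2 ^ N)) C.v R) {s : ℕ}
    (h : CgE C.f (C.f * (C.p : ℕ) ^ (2 * s)) (γ : C.E i)) :
    ∃ S, C.Adm (C.nuG i γ).2 S ∧ ∃ (m : ℕ) (β : M8 (dm := dm.pow (2 ^ N)) AF),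
      ¬ (C.p : ℕ) ∣ m ∧ β ∈ CR R ∧ EqOff (dm := dm.pow (2 ^ N)) C.p
        (m • (C.hh (C.nuG i γ).1 S - 1)) ((C.c * (C.p : ℕ) ^ s) • β) := by
  obtain ⟨S, hS, m, hm, Y, hY, e⟩ := nu_adm h
  obtain ⟨m', hm', g, e'⟩ := C.nu_cong h
  have a := cr_jP hR hY
  have b := nsmul_mem (cr_poly hR g) (16 * C.c * (C.p : ℕ) ^ s)
  refine ⟨S, hS, m * m', _, fun h => (C.p.2.dvd_mul.1 h).elim
    (C.p.2.coprime_iff_not_dvd.1 (hm.coprime_dvd_right (C.pc.mul_left 2)).symm)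
    (C.p.2.coprime_iff_not_dvd.1 (hm'.coprime_dvd_right C.p_f).symm),
    add_mem (add_mem (nsmul_mem (mul_mem a b) (C.c * (C.p : ℕ) ^ s)) (nsmul_mem a m'))
      (nsmul_mem b m), fun l hl => ?_⟩
  let φ := cpM (dm := dm.pow (2 ^ N)) l
  let ψ := (φ.comp (algebraMap ℚ AF).mapMatrix).comp (EF.jB (2 ^ N)).toRingHom
  have e1 : m • (ψ S - 1) = (C.c * (C.p : ℕ) ^ s) • ψ ((2 : EF.F) • Y) := by
    rw [← map_one ψ, ← map_sub, ← map_nsmul, ← map_nsmul, ← Nat.cast_smul_eq_nsmul EF.F, e,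
      ← Nat.cast_smul_eq_nsmul EF.F, smul_smul]
    congr 2
    push_cast
    ring
  have e2 : m' • (φ (dg (2 ^ N) (C.nuG i γ).1.val) - 1) = (C.c * (C.p : ℕ) ^ s) •
      φ ((16 * C.c * (C.p : ℕ) ^ s) • dg (2 ^ N) (aeval C.θ g)) := by
    rw [← map_one φ, ← map_sub, ← map_nsmul, ← map_nsmul, ← map_one (dg (2 ^ N)), ← map_sub,
      ← map_nsmul, smul_smul, ← map_nsmul, show C.c * _ * _ = 16 * C.c ^ 2 * (C.p : ℕ) ^ (2 * s) by ring]
    exact (dg_map _ (map_zero _)).trans ((congrArg _ (e' l hl)).trans (dg_map _ (map_zero _)).symm)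
  change φ _ = φ _
  rw [map_nsmul, map_nsmul, map_add, map_add, map_nsmul, map_nsmul _ m', map_nsmul _ m, map_mul,
    map_sub, map_one, hh, map_mul, show φ (offM (dm := dm.pow (2 ^ N)) C.p ((EF.jP S).map qa)) =
      ψ S from cp_offM_ne (dm := dm.pow (2 ^ N)) hl _,
    show φ ((EF.jP ((2 : EF.F) • Y)).map qa) = ψ ((2 : EF.F) • Y) from rfl,
    smul_add, smul_add, smul_smul, ← smul_mul_smul_comm, smul_comm _ m', smul_comm _ m, ← e1, ← e2,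
    smul_mul_smul_comm, smul_smul, smul_smul, mul_comm m' m, ← smul_add, ← smul_add]
  congr 1
  noncomm_ring

end Cx

end Pool.Agent.MT
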