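import Pool.Agent.Lib.MP_d61fbb_ag.MW.QI
import Pool.Agent.Lib.MP_d61fbb_ag.MW.FDefs
import Pool.Agent.Lib.MP_d61fbb_ag.MT.CIn

/-! Congruences away from `p` and the interpolation estimate for forms. -/

set_option autoImplicit false

noncomputable section

namespace Pool.Agent.MT

open Matrix
open Pool.Agent.Lib.MP_696deb_nt.B2 (Qbar jC)

/-- a form as a polynomial, with signs -/
def gnP {J : Type} {r d : ℕ} (z : Fin r → ℤ) (ch : Fin r → Fin d → J) (s : J → ℤ) :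
    MvPolynomial J ℤ := ∑ i, MvPolynomial.C (z i * ∏ k, s (ch i k)) * ∏ k, MvPolynomial.X (ch i k)

theorem gnP_hom {J : Type} {r d : ℕ} (z : Fin r → ℤ) (ch : Fin r → Fin d → J) (s : J → ℤ) :
    (gnP z ch s).IsHomogeneous d :=
  MvPolynomial.IsHomogeneous.sum _ _ _ fun i _ => MvPolynomial.IsHomogeneous.C_mul (by
    simpa using MvPolynomial.IsHomogeneous.prod Finset.univ (fun k => MvPolynomial.X (ch i k))
      (fun _ => 1) fun k _ => MvPolynomial.isHomogeneous_X ℤ (ch i k)) _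

theorem gnP_eval {J : Type} {r d : ℕ} (z : Fin r → ℤ) (ch : Fin r → Fin d → J) (s : J → ℤ)
    (F : J → Qbar) :
    jC (MvPolynomial.aeval F (gnP z ch s)) = qv z ch fun j => s j * jC (F j) := by
  simp only [gnP, qv, map_sum, map_mul, map_prod, MvPolynomial.aeval_X, Finset.prod_mul_distrib,
    eq_intCast, map_intCast, mul_assoc]

theorem gn_sign (n : ℤ) : ∃ s : ℤ, ee (n / 2) = s := by
  obtain ⟨m, rfl | rfl⟩ := Int.even_or_odd' n
  · exact ⟨1, (ee_congr (y := 0) m (by push_cast; ring)).trans (by simp)⟩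
  · exact ⟨-1, (ee_congr (y := 1 / 2) m (by push_cast; ring)).trans (by rw [ee_half]; simp)⟩

theorem gn_depth {p c : ℕ} (hp : p.Prime) (hc : c ≠ 0) {q u : ℤ} (hu : ¬ (p : ℤ) ∣ u)
    (h : q ∣ u * c) (j : ℕ) : ∃ t w : ℕ, ¬ p ∣ w ∧ q ^ j ∣ (w * (c * p ^ t) : ℕ) := by
  obtain ⟨a, c', h1, rfl⟩ := Nat.exists_eq_pow_mul_and_not_dvd hc p hp.ne_one
  refine ⟨a * j, (u.natAbs * c') ^ j, fun h2 => ?_, ((pow_dvd_pow_of_dvd h j).trans ?_)⟩
  · exact ((hp.dvd_mul).1 (hp.dvd_of_dvd_pow h2)).elim (fun h => hu (Int.natCast_dvd.2 h)) h1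
  · rw [← Int.natAbs_dvd_natAbs, Int.natAbs_natCast, Int.natAbs_pow, Int.natAbs_mul,
      Int.natAbs_natCast]
    exact ⟨p ^ a * c', by ring⟩

variable [dm : Dim] {p : Pr} {a b : M8 AF}

/-- the components away from `p` -/
def offR (p : Pr) : M8 AF →+* ∀ l : {l : Pr // l ≠ p}, M8 ℚ_[l.1] := Pi.ringHom fun l => cpM l.1

theorem eqOff_iff : EqOff p a b ↔ offR p a = offR p b :=
  ⟨fun h => funext fun l => h l.1 l.2, fun h l hl => congrFun h ⟨l, hl⟩⟩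

theorem offR_offM (a : M8 AF) : offR p (offM p a) = offR p a :=
  eqOff_iff.1 fun _ hl => cp_offM_ne hl a

/-- `a` is one modulo `c` in the localisation of `T`, away from `p` -/
def Cr (p : Pr) (T : Subring (M8 AF)) (c : ℕ) (a : M8 AF) : Prop :=
  ∃ m : ℕ, m.Coprime (2 * p) ∧ ∃ β ∈ T, m • (offR p a - 1) = c • offR p β

variable {T : Subring (M8 AF)} {c c' : ℕ}

theorem Cr.mul (h : Cr p T c a) (h' : Cr p T c b) : Cr p T c (a * b) := by
  obtain ⟨m, hm, β, hβ, e⟩ := h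
  obtain ⟨m', hm', β', hβ', e'⟩ := h'
  refine ⟨m * m', hm.mul_left hm', c • (β * β') + m' • β + m • β',
    add_mem (add_mem (nsmul_mem (mul_mem hβ hβ') _) (nsmul_mem hβ _)) (nsmul_mem hβ' _), ?_⟩
  rw [map_add, map_add, map_nsmul, map_nsmul, map_nsmul, map_mul, map_mul, smul_add, smul_add,
    smul_smul c c, ← smul_mul_smul_comm, smul_comm c m', smul_comm c m, ← e, ← e',
    smul_mul_smul_comm, smul_smul, smul_smul, mul_comm m' m, ← smul_add, ← smul_add]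
  congr 1
  noncomm_ring

theorem Cr.mono (h : Cr p T c' a) (hc : c ∣ c') : Cr p T c a := by
  obtain ⟨m, hm, β, hβ, e⟩ := h
  obtain ⟨d, rfl⟩ := hc
  exact ⟨m, hm, d • β, nsmul_mem hβ d, by rw [e, map_nsmul, mul_smul]⟩

theorem Cr.one2 (hp : p ≠ p2) (h : Cr p Zh.matrix 2 a) : One2 a := fun i j => by
  obtain ⟨m, hm, β, hβ, e⟩ := h
  have h1 : (m : ℚ_[p2]) * cp p2 ((a - 1) i j) = 2 * cp p2 (β i j) := by
    have := congrFun₂ (congrFun e ⟨p2, hp.symm⟩) i j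
    rw [← map_one (offR p), ← map_sub, ← map_nsmul, ← map_nsmul] at this
    replace : cp p2 ((m • (a - 1)) i j) = cp p2 ((2 • β) i j) := this
    rwa [Matrix.smul_apply, Matrix.smul_apply, map_nsmul, map_nsmul, nsmul_eq_mul, nsmul_eq_mul,
      Nat.cast_ofNat] at this
  have h2 : ‖(m : ℚ_[p2])‖ = 1 := Padic.norm_natCast_eq_one_iff.2
    (hm.coprime_dvd_right (dvd_mul_right _ _)).symm
  have h3 : ‖(2 : ℚ_[p2])‖ < 1 := Padic.norm_p_lt_one
  have h4 := congrArg norm h1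
  rw [norm_mul, norm_mul, h2, one_mul] at h4
  exact h4.trans_lt ((mul_le_of_le_one_right (norm_nonneg _) (hβ i j p2)).trans_lt h3)

theorem Cr.rg {k : Type} [Field k] {R : FSys k p} (h : Cr p (R.CR p_irr p_genp) c a)
    (e : a * b = 1) {q : ℤ} {w : ℕ} (hw : ¬ (p : ℕ) ∣ w) (hq : q ∣ (w * c : ℕ)) :
    ∃ (β : M8 AF) (n N : ℕ) (c₀ : ℤ), ¬ (p : ℕ) ∣ n ∧ R.Cmp β N ∧
      EqOff p (((c₀ : M8 AF) + q • β) * b) n := by
  obtain ⟨m, hm, β, hβ, e1⟩ := h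
  obtain ⟨u, hu⟩ := hq
  obtain ⟨N, hN⟩ := TSys.mem_CR.1 (zsmul_mem hβ u)
  refine ⟨_, w * m, N, (w * m : ℕ), fun h => (p.2.dvd_mul.1 h).elim hw
    ((Nat.Prime.coprime_iff_not_dvd p.2).1 (hm.coprime_dvd_right (dvd_mul_left _ _)).symm), hN,
    eqOff_iff.2 ?_⟩
  rw [smul_smul, ← hu, natCast_zsmul, map_mul, map_add, map_nsmul, mul_smul, ← e1, smul_smul,
    Int.cast_natCast, map_natCast, smul_sub, nsmul_one, add_sub_cancel, smul_mul_assoc, ← map_mul,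
    e, map_one, nsmul_one]

variable {τ : Matrix (Fin gg) (Fin gg) ℂ} {K : IntermediateField ℚ ℂ} {M : TRep τ K} {A : AR M}
  {v : Frb A} {R : FSys (kk v.w) v.p}

theorem WG.sz (hτ : Sieg τ) (hR : RedOf v R) {G : Type} [CommGroup G] (D : WG v R G) {h : M8 AF}
    {F : W → Qbar} (hF : IntVec A.S 1 h F) (h1 : h.map (cp v.p) = 1) {l : Pr} (hl : l ≠ v.p)
    (m : ℕ) {r d : ℕ} (z : Fin r → ℤ) (ch : Fin r → Fin d → I2 gg → ℤ) (s : ℕ)
    (hG : ∀ i, s ≤ i → ∀ c ∈ D.Gs i, ∃ d : G, c / d ^ ((v.p : ℕ) ^ s) ∈ D.Gs (i + 1))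
    (h0 : ∀ γ, ∃ c ∈ D.Gs s, ∃ F', IntVec A.S 1 (D.α (c * γ) * h) F' ∧
      qv z ch (fun a => ee (Qf (zc a) / 2) * jC (F' ((D.α (c * γ) * h) *ᵥ io l m a))) = 0) :
    szC jC v.w (qv z ch fun a => ee (Qf (zc a) / 2) * jC (F (h *ᵥ io l m a))) ≤
      ((v.p : ℕ) : ℝ)⁻¹ ^ (v.p : ℕ) ^ s := by
  choose sg hs using fun a : I2 gg → ℤ => gn_sign (Qf a)
  simp only [Qf_zc, hs, ← gnP_eval] at h0 ⊢
  have key := cw τ K M A hτ v R hR G D h F hF.pt
    (fun x => by rw [h1, one_mulVec]) hF.vec (fun x => v.w.V_le_one_of_isIntegral (hF.int x))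
    _ _ d s (fun a => h *ᵥ io l m a) (gnP_hom z ch sg)
    (fun a => v2_Wp _ (c2_Wp.2 (c2_cs_ne hl.symm _))) hG fun γ => by
      obtain ⟨c, hc, F', hF', e⟩ := h0 γ
      exact ⟨c, hc, F', hF'.ne, hF'.vec, by
        simpa only [mulVec_mulVec] using (map_eq_zero jC).1 e⟩
  rw [szC_j, ← v.hp, ← abv_p, abv_apply, abv_apply]
  rw [← v.hp] at key
  exact_mod_cast key.trans (pow_le_pow_right_of_le_one' (OI.V_p_lt v.w).le (Nat.le_succ _))

end Pool.Agent.MT
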