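import Pool.Agent.Lib.MP_d61fbb_ag.MW.GAd
import Pool.Agent.Lib.MP_d61fbb_ag.MW.GPt
import Pool.Agent.Lib.MP_d61fbb_ag.MW.GBal

/-! The theta values of a point. -/

set_option autoImplicit false

noncomputable section

namespace Pool.Agent.MT

open Matrix Polynomial NumberField Ideal
open Pool.Agent.Lib.MP_696deb_nt.B2 (Qbar jC)

theorem gb_sign {ι : Type} [Fintype ι] (a : ι ⊕ ι → ℤ) :
    ∃ s : ℤ, ‖(s : ℂ)‖ = 1 ∧ ee (Qf (zc a) / 2) = s := by
  have h1 : ee (Qf (zc a) / 2) = (-1) ^ (Qf a : ℤ) := by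
    rw [← ee_half, ee, ee, ← Complex.exp_int_mul, Qf_zc]
    congr 1
    ring
  rcases Int.even_or_odd (Qf a) with h | h
  · exact ⟨1, by simp, by rw [h1, h.neg_one_zpow, Int.cast_one]⟩
  · exact ⟨-1, by simp, by rw [h1, h.neg_one_zpow, Int.cast_neg, Int.cast_one]⟩

theorem gth_sign {g : ℕ} (a : I2 g → ℤ) : ∃ s : ℤ, ee (Qf (zc a) / 2) = s := by
  rw [Qf_zc]
  obtain ⟨m, h | h⟩ := Int.even_or_odd' (Qf a)
  · exact ⟨1, by rw [h, Int.cast_one, ← ee_int m]; congr 1; push_cast; ring⟩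
  · refine ⟨-1, ?_⟩
    rw [h, show ((2 * m + 1 : ℤ) : ℂ) / 2 = m + 1 / 2 by push_cast; ring, ee_add, ee_int, one_mul, ee,
      show 2 * Real.pi * Complex.I * (1 / 2) = Real.pi * Complex.I by ring, Complex.exp_pi_mul_I]
    simp

section
variable [dm : Dim] {τ : Matrix (Fin gg) (Fin gg) ℂ} {K : IntermediateField ℚ ℂ} {M : TRep τ K}
  {A : AR M} {N : ℕ} {h : M8 AF} {F : W → Qbar} {p l : Pr}

theorem gth_sgv {a b : M8 AF} (e : a.map (cp l) = b.map (cp l)) (y : Vl l) :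
    a *ᵥ sgv l y = b *ᵥ sgv l y := by rw [gn_mulVec_sgv, gn_mulVec_sgv, e]

/-- the values at the points of level `l ^ e` only depend on the class of the basis -/
theorem TSys.IsVec.io_eq {k : Type} [Field k] {S : TSys k 0} {F : W → k}
    (H : S.IsVec N h F) (P : Pt N h) (hl : l ≠ p2) {e : ℕ} {g : M8 AF}
    (hg : CgS (((l : ℕ) : ℤ_[l]) ^ e) (g.map (cp l))) (a : I2 gg → ℤ) :
    F ((h * g) *ᵥ io l e a) = F (h *ᵥ io l e a) := by
  obtain ⟨c, y, hy⟩ := hg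
  have h0 : ((l : ℕ) : ℚ_[l]) ^ e ≠ 0 := pow_ne_zero _ (Nat.cast_ne_zero.2 l.2.ne_zero)
  let b : Vl l := fun n => (a n : ℚ_[l])
  have hb : ∀ i, b i ∈ PadicInt.subring l := fun i => Padic.norm_int_le_one _
  have hs : ∀ i, (y.map (↑) *ᵥ b) i ∈ PadicInt.subring l :=
    gx_mulVec_mem _ (fun i j => (y i j).2) hb
  have e1 : (fun n => (a n : ℚ_[l]) / ((l : ℕ) : ℚ_[l]) ^ e) = (((l : ℕ) : ℚ_[l]) ^ e)⁻¹ • b :=
    funext fun n => by rw [Pi.smul_apply, smul_eq_mul, div_eq_inv_mul]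
  have e2 : g.map (cp l) = 1 + ((l : ℕ) : ℚ_[l]) ^ e •
      ((c : ℚ_[l]) • 1 + ((l : ℕ) : ℚ_[l]) ^ e • y.map (↑)) := by
    rw [hy]
    ext i j
    by_cases e : i = j <;> simp [e]
  rw [← mulVec_mulVec, io, gn_mulVec_sgv l g, e1, e2, add_mulVec, one_mulVec,
    smul_mulVec, mulVec_smul, smul_inv_smul₀ h0, add_mulVec, smul_mulVec, smul_mulVec, one_mulVec]
  refine H.shift P hl (fun i => ?_) ?_
  · exact (PadicInt.subring l).add_mem ((PadicInt.subring l).mul_mem c.2 (hb i))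
      ((PadicInt.subring l).mul_mem (pow_mem (natCast_mem _ _) _) (hs i))
  · rw [Ef_add_left, Ef_smul_left, Ef_smul_left, Ef_smul_right, Ef_smul_right, Ef_self, mul_zero,
      mul_zero, zero_add, mul_inv_cancel_left₀ h0]
    exact gx_Ef_mem _ hs hb

theorem IntVec.io_eq {S : TSys Qbar 0} (H : IntVec S N h F) (hl : l ≠ p2) {e : ℕ} {g : M8 AF}
    (hg : CgS (((l : ℕ) : ℤ_[l]) ^ e) (g.map (cp l))) (a : I2 gg → ℤ) :
    F ((h * g) *ᵥ io l e a) = F (h *ᵥ io l e a) := H.vec.io_eq H.pt hl hg a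

theorem IntVec.uniq {S : TSys Qbar 0} {F' : W → Qbar} (H : IntVec S N h F) (H' : IntVec S N h F') :
    ∃ c : Qbar, F = c • F' := H.pt.uniq p_uniq S H.vec H'.vec H'.ne

theorem IntVec.right {S : TSys Qbar 0} (H : IntVec S N h F) {k : GG} (hk : ∀ l, StdAt l (gm k)) :
    IntVec S N (h * gm k) F :=
  ⟨H.pt.mul_right hk, H.vec.mul_right fun _ ht => (gn_lat hk).2 ht, H.ne, H.int⟩

theorem IntVec.aut (hI : INV) (hτ : Sieg τ) {O O' : M8 ℚ} (e : O * O' = 1) (hO : AutQ τ p O)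
    (H : IntVec A.S 1 h F) (h1 : h.map (cp p) = 1) (hl : l ≠ p) :
    ∃ F', IntVec A.S 1 (offM p (O.map qa) * h) F' ∧
      ∀ y, F' ((offM p (O.map qa) * h) *ᵥ sgv l y) = F (h *ᵥ sgv l y) := by
  obtain ⟨h2, h3⟩ := hI τ hτ K M A p O O' e hO h F h1 H.pt H.vec
  have m : O'.map qa * O.map qa = 1 := by
    rw [← Matrix.map_mul (f := algebraMap ℚ AF), mul_eq_one_comm.1 e,
      Matrix.map_one _ (map_zero _) (map_one _)]
  refine ⟨_, ⟨h2, h3, fun h0 => H.ne (funext fun x => ?_), fun _ => H.int _⟩, fun y => ?_⟩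
  · simpa only [mulVec_mulVec, m, one_mulVec, Pi.zero_apply] using congrFun h0 (O.map qa *ᵥ x)
  · rw [gth_sgv (b := O.map qa * h) (by rw [Matrix.map_mul, Matrix.map_mul, cp_offM_ne hl]),
      mulVec_mulVec, ← Matrix.mul_assoc, m, Matrix.one_mul]

/-- the projection away from `p` in the adelic group -/
def offG (p : Pr) (g : GG) : GG :=
  ⟨Units.map (offH p) g.1, mem_GSp (μ := off p (mulG g)) (gs_of_cp fun l => by
    change GS _ ((offM p (gm g)).map (cp l))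
    by_cases e : l = p
    · subst e; rw [cp_offM_self, cp_off_self]; exact gs_one
    · rw [cp_offM_ne e, cp_off_ne e]; exact cpG_sim l g)⟩

theorem IntVec.gal_off (σ : ℂ ≃ₐ[K] ℂ) (H : IntVec A.S N h F) (h1 : h.map (cp p) = 1) (hl : l ≠ p) :
    ∃ F', IntVec A.S N (offM p (mA (M.ρ σ)) * h) F' ∧
      ∀ y, jC (F' ((offM p (mA (M.ρ σ)) * h) *ᵥ sgv l y)) = σ (jC (F (h *ᵥ sgv l y))) := by
  have h2 : IntVec A.S N (mA (M.ρ σ) * h) (A.cj σ F) :=
    ⟨H.pt.gal A σ, H.vec.gal σ H.pt, A.cj_ne σ H.ne, A.cj_int σ H.int⟩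
  have h3 := h2.right (k := rhoG A σ⁻¹ * offG p (rhoG A σ)) fun l => by
    rw [map_mul]
    exact (stdAt_mA l _).mul (stdAt_mA l _).offM
  have m : ∀ l, (mA (M.ρ σ⁻¹)).map (cp l) * (mA (M.ρ σ)).map (cp l) = 1 := fun l => by
    rw [← gm_rhoG A, ← gm_rhoG A, ← cpG_eq, ← cpG_eq, ← map_mul, ← map_mul, inv_mul_cancel, map_one,
      map_one]
  have e : mA (M.ρ σ) * h * gm (rhoG A σ⁻¹ * offG p (rhoG A σ)) = offM p (mA (M.ρ σ)) * h :=
    gn_mat_ext fun l => by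
      rw [map_mul, gm_rhoG, show gm (offG p (rhoG A σ)) = offM p (mA (M.ρ σ)) from rfl]
      simp only [Matrix.map_mul]
      by_cases e : l = p
      · subst e
        rw [h1, cp_offM_self, mul_one, mul_one, mul_one, mul_eq_one_comm.1 (m l)]
      · rw [cp_offM_ne e, m, mul_one]
  refine ⟨_, e ▸ h3, fun y => ?_⟩
  rw [gth_sgv (b := mA (M.ρ σ) * h) (by rw [Matrix.map_mul, Matrix.map_mul, cp_offM_ne hl]),
    ← mulVec_mulVec, A.cj_apply, A.res_spec]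

variable (D : ℕ) [NeZero D]

/-- the diagonal embedding of the adelic group -/
def dgG (g : GG) : GG (dm := dm.pow D) :=
  ⟨Units.map (dg D : M8 AF →ₐ[AF] _).toMonoidHom g.1,
    mem_GSp (dm := dm.pow D) (GS.dg (mulG_spec g))⟩

theorem StdAt.dg (H : StdAt l h) : StdAt (dm := dm.pow D) l (dg D h) := fun x => by
  rw [dg_map _ (map_zero _)]
  refine (vc_forall (P := fun a => ‖a‖ ≤ 1)).trans
    (.trans ?_ (vc_forall (P := fun a => ‖a‖ ≤ 1)).symm)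
  refine forall_congr' fun k => .trans ?_ (H (vc x k))
  rw [← vc_dg]

theorem CgS.dg {q : ℤ_[l]} {u : M8 ℚ_[l]} (H : CgS q u) : CgS (dm := dm.pow D) q (dg D u) := by
  obtain ⟨c, y, rfl⟩ := H
  exact ⟨c, MT.dg D y, by rw [← dg_map _ PadicInt.coe_zero]; simp⟩

theorem dg_offM (g : M8 AF) : dg D (offM p g) = offM (dm := dm.pow D) p (dg D g) := by
  rw [offM, map_add, map_smul, map_smul, map_one (dg D)]
  rfl

theorem gth_mA (hτ : Sieg τ) (σ : ℂ ≃ₐ[K] ℂ) :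
    mA (dm := dm.pow D) (TRep.ρ (dm := dm.pow D) (M.pow hτ D) σ) = dg D (mA (M.ρ σ)) :=
  gn_mat_ext fun l => by
    rw [dg_map _ (map_zero _), gn_cp_mA, gn_cp_mA (dm := dm.pow D), M.pow_rho,
      dg_map _ PadicInt.coe_zero]

end

variable [dm : Dim] {τ : Matrix (Fin gg) (Fin gg) ℂ} {K : IntermediateField ℚ ℂ} {e k n : ℕ}
  {M : AType τ K e k n} {EF : EndF τ (zM ℚ M.a)} {N : ℕ} {l₀ : Pr} (C : Cx M EF N l₀)

namespace Cx

variable {C} {x : GW EF} {D : ∀ i, Ideal (𝓞 (C.E i))} {m : ℕ} {θ θ' : (I2 (2 ^ N * gg) → ℤ) → ℂ}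

theorem Adm.cj {ν : EF.F} {q : Matrix (Fin (2 ^ N)) (Fin (2 ^ N)) EF.F} (h : C.Adm ν q) :
    EF.cj ν = ν := by
  have e := congrFun (congrFun h.orth 0) 0
  rw [Matrix.smul_apply, one_apply_eq, smul_eq_mul, mul_one, mul_apply] at e
  simp only [← e, map_sum, map_mul, transpose_apply, h.fix]

/-- the values do not depend on the square root -/
theorem Th.any (hI : INV (dm := dm.pow (2 ^ N))) (h : C.Th m x θ)
    {q : Matrix (Fin (2 ^ N)) (Fin (2 ^ N)) EF.F} (hq : C.Adm x.2 q) :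
    ∃ F, IntVec (dm := dm.pow (2 ^ N)) (AR.S (dm := dm.pow (2 ^ N)) C.B) 1 (C.hh x.1 q) F ∧
    ∀ a, θ a = ee (Qf (zc a) / 2) * jC (F (C.hh x.1 q *ᵥ io (dm := dm.pow (2 ^ N)) l₀ m a)) := by
  obtain ⟨h1, q₀, F, h0, H, e⟩ := h
  obtain ⟨a0, b0⟩ := h0.inv x.2.ne_zero h0.cj
  obtain ⟨-, b⟩ := hq.inv x.2.ne_zero h0.cj
  have a := hq.mul a0
  rw [mul_inv_cancel₀ x.2.ne_zero] at a
  have e1 : q = q * ((x.2 : EF.F)⁻¹ • q₀ᵀ) * q₀ := by
    rw [Matrix.mul_assoc, mul_eq_one_comm.1 b0, Matrix.mul_one]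
  obtain ⟨F', H', e'⟩ := IntVec.aut (dm := dm.pow (2 ^ N)) hI (sieg_pow C.hτ)
    (O' := EF.jP (q₀ * ((x.2 : EF.F)⁻¹ • qᵀ)))
    (by rw [← EF.jP_mul, ← Matrix.mul_assoc, ← e1, b, EF.jP_one]) a.aut H (hh_atp h1) (C.ne_p C.l0)
  rw [← hh_q, ← e1] at H' e'
  exact ⟨F', H', fun a => (e a).trans (congrArg (_ * jC ·) (e' _).symm)⟩

theorem Th.int (h : C.Th m x θ) (a) : IsIntegral ℤ (θ a) := by
  obtain ⟨-, q, F, -, H, e⟩ := h
  obtain ⟨s, hs⟩ := gth_sign a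
  rw [e, hs]
  exact (isIntegral_algebraMap (x := s)).mul 
    (map_isIntegral_int jC (IntVec.int (dm := dm.pow (2 ^ N)) H _))

theorem Th.uniq (hI : INV (dm := dm.pow (2 ^ N))) (h : C.Th m x θ) (h' : C.Th m x θ') :
    ∃ u : ℂ, ∀ a, θ a = u * θ' a := by
  obtain ⟨-, q, F', hq, H', e'⟩ := h'
  obtain ⟨F, H, e⟩ := h.any hI hq
  obtain ⟨c, rfl⟩ := IntVec.uniq (dm := dm.pow (2 ^ N)) H H'
  exact ⟨jC c, fun a => by rw [e, e', Pi.smul_apply, smul_eq_mul, map_mul, mul_left_comm]⟩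

theorem Th.inv (h : C.Th m x θ) {u : GW EF} (hu : u ∈ C.U m) : C.Th m (x * u) θ := by
  obtain ⟨h1, q, F, hq, H, e⟩ := h
  obtain ⟨g, ⟨g1, g2, g3⟩, rfl⟩ := hu
  have e1 : C.hh (x * ((GSp AF).subtype.prod 1) g).1 q = C.hh x.1 q * dg (2 ^ N) (gm g) := hh_mul
  refine ⟨Matrix.map_mul.trans (by rw [h1, one_mul]; exact g1), q, F,
    (congrArg (C.Adm · q) (mul_one _)).mpr hq, ?_, fun a => ?_⟩ <;> rw [e1]
  · exact IntVec.right (dm := dm.pow (2 ^ N)) H (k := dgG _ g) fun l => (g2 l).dg _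
  · rw [IntVec.io_eq (dm := dm.pow (2 ^ N)) H (fun e => C.l0 ((congrArg Subtype.val e).dvd.trans C.two_f))
     
      (by rw [dg_map _ (map_zero _)]; exact g3.dg _), e]

theorem Th.gal (h : C.Th m x θ) (σ : ℂ ≃ₐ[K] ℂ) : C.Th m (C.rho σ * x) fun a => σ (θ a) := by
  obtain ⟨h1, q, F, hq, H, e⟩ := h
  obtain ⟨F', H', e'⟩ := IntVec.gal_off (dm := dm.pow (2 ^ N)) σ H (hh_atp h1) (C.ne_p C.l0)
  have e1 : C.hh (C.rho σ * x).1 q = _ := hh_left (cp_offM_self _) fun y => C.rho_comm y σ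
  rw [gth_mA, ← dg_offM] at H' e'
  refine ⟨Matrix.map_mul.trans (by rw [h1, mul_one]; exact cp_offM_self _), q, F',
    (congrArg (C.Adm · q) (one_mul _)).mpr hq, e1 ▸ H', fun a => ?_⟩
  obtain ⟨s, hs⟩ := gth_sign a
  beta_reduce
  rw [e1, e, hs, map_mul, map_intCast]
  exact congrArg _ (e' _).symm

variable (C) in
theorem th_ex : ∃ c : ℕ, ∀ m x D, C.Pnt x D → C.Bal x →
    ∃ θ, C.Th m x θ ∧ ∀ (σ : ℂ ≃+* ℂ) a, ‖σ (θ a)‖ ≤ ((2 * nLev D : ℕ) : ℝ) ^ c := by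
  obtain ⟨c, hc⟩ := AR.ex_vec (dm := dm.pow (2 ^ N)) C.B
  obtain ⟨B, hB⟩ := C.exists_adm_bd
  refine ⟨c + (2 * k + B) * (2 * (2 ^ N * gg)), fun m x D h hb => ?_⟩
  obtain ⟨d1, -, d3, -⟩ := h.den
  have cop : (nLev D).Coprime C.f := Nat.Coprime.prod_left fun i _ => h.cop i
  have n0 : nLev D ≠ 0 := fun z => by
    rw [z, Nat.coprime_zero_left] at cop
    exact absurd C.two_le (by omega)
  obtain ⟨q, hq, s, sB, s0, hs⟩ := hB x (nLev D ^ (2 * k)) h.fix h.pos h.cg hb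
    ((cop.coprime_dvd_right C.c_f).pow_left _) d3
  generalize nLev D = L at *
  obtain ⟨Z, hZ⟩ := EF.jP_int (q := ((L ^ (2 * k) * s : ℕ) : EF.F) • q) hs
  have P := h.pt hq
  obtain ⟨F, h3, h4, h5, h6⟩ := hc 1 _ (L ^ (2 * k) * s) P (by positivity) fun t ht => by
    rw [← smul_mulVec, hh, ← smul_mul_assoc]
    refine (gx_L0 (dm := dm.pow (2 ^ N))).2 (gx_mulVec_mem (dm := dm.pow (2 ^ N)) Zh
      (fun i j => Zh.sum_mem fun i' _ => Zh.mul_mem (fun l => ?_) ?_)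
      ((gx_L0 (dm := dm.pow (2 ^ N))).1 ht))
    · change ‖cp l ((L ^ (2 * k) * s) • _)‖ ≤ 1
      rw [map_nsmul, nsmul_eq_mul]
      by_cases p : l = C.p
      · subst p
        have := congrFun (congrFun (cp_offM_self (dm := dm.pow (2 ^ N)) (p := C.p)
          ((EF.jP q).map qa)) i) i'
        rw [map_apply] at this
        rw [this, one_apply]
        refine (norm_mul_le _ _).trans (mul_le_one₀ (padic_nat_le _ _) (norm_nonneg _) ?_)
        split_ifs <;> simp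
      · have := congrFun (congrFun (cp_offM_ne (dm := dm.pow (2 ^ N)) p ((EF.jP q).map qa)) i) i'
        rw [map_apply] at this
        have h2 : ((L ^ (2 * k) * s : ℕ) : ℚ) * EF.jP q i i' = Z i i' := by
          refine Eq.trans ?_ (congrFun (congrFun hZ i) i')
          simp only [EndF.jP, bl_apply, map_apply, Matrix.smul_apply, smul_eq_mul, map_mul EF.j,
            map_natCast, ← nsmul_eq_mul, map_nsmul]
        rw [this, map_apply, map_apply, AlgHom.commutes, ← map_natCast (algebraMap ℚ ℚ_[l]),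
          ← map_mul, h2, map_intCast]
        exact IsUltrametricDist.norm_intCast_le_one _ _
    · beta_reduce
      rw [dg_apply]
      split_ifs
      · exact fun l => d1 l _ _
      · exact Zh.zero_mem
  refine ⟨_, ⟨h.atp, q, F, hq, IntVec.mk (dm := dm.pow (2 ^ N)) P h3 h4 h5, fun a => rfl⟩, fun σ a => ?_⟩
  obtain ⟨u, hs1, hs⟩ := gb_sign a
  rw [hs, map_mul, map_intCast, norm_mul, hs1, one_mul]
  refine (h6 (σ.toRingHom.comp jC) _).trans ?_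
  have h7 : c * (L ^ (2 * k) * s) ^ (2 * (2 ^ N * gg)) ≤
      (2 * L) ^ (c + (2 * k + B) * (2 * (2 ^ N * gg))) := by
    rw [pow_add, pow_mul (2 * L), pow_add]
    exact Nat.mul_le_mul (Nat.lt_pow_self (by omega)).le (Nat.pow_le_pow_left (Nat.mul_le_mul
      (Nat.pow_le_pow_left (by omega) _) (sB.trans (Nat.lt_pow_self (by omega)).le)) _)
  exact_mod_cast h7

theorem Pnt.bal (h : C.Pnt x D) :
    ∃ x', C.Pnt x' D ∧ C.Bal x' ∧ ∀ m θ, C.Th m x θ ↔ C.Th m x' θ := h.bal'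

end Cx

end Pool.Agent.MT
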