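import Pool.Agent.Lib.MP_d61fbb_ag.MW.GDp
import Pool.Agent.Lib.MP_d61fbb_ag.MW.GTh
import Pool.Agent.Lib.MP_d61fbb_ag.MW.InvA
import Pool.Agent.Lib.MP_d61fbb_ag.MW.GIn0

/-! The group of partners and the interpolation estimate. -/

set_option autoImplicit false

noncomputable section

namespace Pool.Agent.MT

open Matrix Polynomial NumberField Ideal
open Pool.Agent.Lib.MP_696deb_nt.B2 (Qbar jC)

variable [dm : Dim] {τ : Matrix (Fin gg) (Fin gg) ℂ} {K : IntermediateField ℚ ℂ} {e k n : ℕ}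
  {M : AType τ K e k n} {EF : EndF τ (zM ℚ M.a)} {N : ℕ} {l₀ : Pr} (C : Cx M EF N l₀)

namespace Cx

/-- the isometry given by a partner and a square root -/
def al (i : C.κ) (γ : (C.E i)ˣ) (S : Matrix (Fin (2 ^ N)) (Fin (2 ^ N)) EF.F) :
    M8 (dm := dm.pow (2 ^ N)) AF := C.hh (C.nuG i γ).1 S

theorem exists_S (i : C.κ) : ∃ S : Ga (C.E i) C.f → Matrix (Fin (2 ^ N)) (Fin (2 ^ N)) EF.F,
    S 1 = 1 ∧ ∀ γ, C.Adm (C.nuG i γ.1).2 (S γ) := C.dp_S i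

variable {C} {i : C.κ} {γ γ' : (C.E i)ˣ} {S S' : Matrix (Fin (2 ^ N)) (Fin (2 ^ N)) EF.F}

theorem al_mul : C.al i γ S * C.al i γ' S' = C.al i (γ * γ') (S * S') := by
  rw [al, al, al, hh_q, map_mul, Prod.fst_mul, Units.val_mul,
    hh_left (u := (C.nuG i γ).1.val) (C.nuM_atp _) fun y => C.nuM_comm y _, ← Matrix.mul_assoc]
  rfl

theorem al_hh (x : GW EF) : C.al i γ S * C.hh x.1 S' = C.hh (C.nuG i γ * x).1 (S * S') := by
  rw [al, hh_q, Prod.fst_mul, Units.val_mul,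
    hh_left (u := (C.nuG i γ).1.val) (C.nuM_atp _) fun y => C.nuM_comm y _, ← Matrix.mul_assoc]
  rfl

theorem al_atp : (C.al i γ S).map (cp C.p) = 1 := hh_atp (C.nuM_atp _)

theorem al_gs (h : C.Adm (C.nuG i γ).2 S) : GS 1 (C.al i γ S) := by
  refine gs_of_cp (dm := dm.pow (2 ^ N)) fun l => ?_
  rw [map_one]
  by_cases hl : l = C.p
  · rw [hl, al_atp]; exact gs_one
  · have e := C.nuM_pol hl (Pi.mulSingle i γ) (C.nuG i γ).2
    rw [show ((C.nuG i γ).2 : EF.F) * C.mu (Pi.mulSingle i γ) = 1 from Units.mul_inv _, map_one,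
      Matrix.map_one _ Rat.cast_zero Rat.cast_one, mul_one] at e
    rw [al, hh_cp hl]
    refine EF.jB_frame (ν := (C.nuG i γ).2) ((congrArg (· * S) (EF.ad_fix S h.fix)).trans h.orth)
      fun a b => ?_
    rw [Ef_eq, Ef_eq, mulVec_mulVec, mulVec_mulVec, ← vecMul_transpose, ← dotProduct_mulVec,
      mulVec_mulVec, ← mul_assoc, ← mul_assoc, one_mul]
    exact congrArg (fun X => -(a ⬝ᵥ X *ᵥ b)) e

theorem al_two (hγ : γ ∈ Ga (C.E i) C.f) (h : C.Adm (C.nuG i γ).2 S) :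
    One2 (dm := dm.pow (2 ^ N)) (C.al i γ S) := by
  have h2 : 2 * (C.p : ℕ) ∣ 2 * C.c := mul_dvd_mul_left 2 C.pc
  have hz : ∀ X : M8 (dm := dm.pow (2 ^ N)) AF, (∀ i j, X i j ∈ Zh) → X ∈ Zh.matrix := fun _ h => h
  refine Cr.one2 (dm := dm.pow (2 ^ N)) (fun e => Frb.val_ne_two (dm := dm.pow (2 ^ N)) C.v
    (congrArg Subtype.val e)) (Cr.mul (dm := dm.pow (2 ^ N)) ?_ ?_)
  · obtain ⟨m, hm, Y, hY, e⟩ := h.cg
    refine ⟨m, hm.coprime_dvd_right h2, C.c • (EF.jP Y).map qa,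
      nsmul_mem (hz _ (EF.jB_mem_Zh hY)) _, ?_⟩
    have e1 := congrArg (((offR (dm := dm.pow (2 ^ N)) C.p).comp (algebraMap ℚ AF).mapMatrix).comp
      (EF.jB (2 ^ N)).toRingHom) e
    rw [Nat.cast_smul_eq_nsmul, show (2 * C.c : EF.F) = (2 * C.c : ℕ) by push_cast; rfl,
      Nat.cast_smul_eq_nsmul, map_nsmul, map_nsmul, map_sub, map_one, mul_smul] at e1
    rw [offR_offM (dm := dm.pow (2 ^ N)), map_nsmul]
    exact e1
  · obtain ⟨m, hm, g, e⟩ := C.nu_cong (i := i) (x := γ) (t := 1) (by rw [mul_one]; exact hγ)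
    have hθ : C.θ ∈ Zh.matrix := add_mem (fun i j => gx_zA_mem _)
      (zsmul_mem (show zM AF M.a ∈ Zh.matrix from fun i j => intCast_mem Zh _) _)
    have hg : aeval C.θ g ∈ Zh.matrix := by
      rw [aeval_eq_sum_range]
      exact sum_mem fun i _ => zsmul_mem (pow_mem hθ _) _
    refine ⟨m, hm.coprime_dvd_right (h2.trans C.c_f), (8 * C.c ^ 2) • dg (2 ^ N) (aeval C.θ g),
      nsmul_mem (hz _ fun i j => ?_) _, funext fun l => ?_⟩
    · rw [dg_apply]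
      split_ifs
      exacts [hg _ _, zero_mem _]
    · have e1 := congrArg (dg (2 ^ N)) (e l.1 l.2)
      rw [← dg_map _ (map_zero _), ← dg_map _ (map_zero _), map_nsmul, map_nsmul, map_sub, map_one,
        show 16 * C.c ^ 2 * 1 = 2 * (8 * C.c ^ 2) by ring, mul_smul] at e1
      change cpM (dm := dm.pow (2 ^ N)) l.1 _ = cpM (dm := dm.pow (2 ^ N)) l.1 _ at e1
      rw [map_nsmul, map_nsmul, map_sub, map_one] at e1
      exact e1

/-- real elements act by automorphisms -/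
theorem al_fix (hγ : γ ∈ Ga (C.E i) C.f) (h : C.W.c i γ = γ) :
    ∃ S, C.Adm (C.nuG i γ).2 S ∧ C.al i γ S = 1 := dp_fix hγ h

/-- two square roots differ by an automorphism -/
theorem al_aut (h : C.Adm (C.nuG i γ).2 S) (h' : C.Adm (C.nuG i γ).2 S') :
    ∃ O, Aut (dm := dm.pow (2 ^ N)) C.B C.p O ∧
      EqOff (dm := dm.pow (2 ^ N)) C.p (C.al i γ S') (O * C.al i γ S) := by
  obtain ⟨a2, a3⟩ := h.inv (Units.ne_zero _) (by rw [(C.nuG_val _ _).2, map_inv₀, C.mu_cj])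
  have a4 := h'.mul a2
  rw [mul_inv_cancel₀ (Units.ne_zero _)] at a4
  refine ⟨_, AutQ.aut (dm := dm.pow (2 ^ N)) (sieg_pow C.hτ) C.B a4.aut, fun l hl => ?_⟩
  conv_lhs => rw [← mul_one S', ← mul_eq_one_comm.1 a3, ← mul_assoc, al, hh_q, Matrix.map_mul,
    cp_offM_ne (dm := dm.pow (2 ^ N)) hl, ← Matrix.map_mul]
  rfl

variable {R : C.FS} (hR : RedOf (dm := dm.pow (2 ^ N)) C.v R)
include hR

/-- deep elements are scalar modulo `c p ^ s` -/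
theorem al_deep {s : ℕ} (h : CgE C.f (C.f * (C.p : ℕ) ^ (2 * s)) (γ : C.E i)) :
    ∃ S, C.Adm (C.nuG i γ).2 S ∧ ∃ (m : ℕ) (β : M8 (dm := dm.pow (2 ^ N)) AF),
      ¬ (C.p : ℕ) ∣ m ∧ β ∈ CR R ∧
      EqOff (dm := dm.pow (2 ^ N)) C.p (m • (C.al i γ S - 1)) ((C.c * (C.p : ℕ) ^ s) • β) :=
  dp_deep hR h

omit hR in
theorem al_one : C.al i 1 1 = 1 := by
  rw [al, map_one, hh, EF.jP_one, Matrix.map_one _ (map_zero (algebraMap ℚ AF)) (map_one _),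
    offM_one (dm := dm.pow (2 ^ N)), Matrix.one_mul]
  exact map_one (dg (2 ^ N) : M8 AF →ₐ[AF] _)

omit hR in
theorem Adm.nu_mul (h : C.Adm (C.nuG i γ).2 S) (h' : C.Adm (C.nuG i γ').2 S') :
    C.Adm (C.nuG i (γ * γ')).2 (S * S') := by
  rw [map_mul]; exact h.mul h'

theorem rg_of {S : Ga (C.E i) C.f → Matrix (Fin (2 ^ N)) (Fin (2 ^ N)) EF.F}
    (hS : ∀ γ, C.Adm (C.nuG i γ.1).2 (S γ)) {q : ℤ} {j s w : ℕ} (hw : ¬ (C.p : ℕ) ∣ w)
    (hq : q ^ j ∣ (w * (C.c * (C.p : ℕ) ^ s) : ℕ)) {c : Ga (C.E i) C.f}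
    (hc : c ∈ Gi (C.W.c i).toRingEquiv C.f C.p (2 * s)) :
    Rg (dm := dm.pow (2 ^ N)) C.v R q (fun γ => C.al i γ.1 (S γ)) j c := by
  obtain ⟨y, hy, h0⟩ := hc
  obtain ⟨t, ht⟩ := hq
  obtain ⟨Sy, y1, y2⟩ := al_fix y.2 hy
  obtain ⟨S1, a1, m, β, hm, hβ, e⟩ := al_deep hR (γ := (c / y).1⁻¹) (s := s) (by
    rw [Units.val_inv_eq_inv_val]; exact h0.inv (dvd_mul_right _ _))
  obtain ⟨a2, a3⟩ := a1.inv (Units.ne_zero _) (by rw [(C.nuG_val _ _).2, map_inv₀, C.mu_cj])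
  generalize ((C.nuG i (c / y).1⁻¹).2 : EF.F)⁻¹ • S1ᵀ = S2 at a2 a3
  rw [← Units.val_inv_eq_inv_val, ← Prod.snd_inv, ← map_inv, inv_inv] at a2
  obtain ⟨Nb, hb⟩ := zsmul_mem hβ t
  refine ⟨C.al i (c / y).1 S2, t • β, w * m, Nb, (w * m : ℕ),
    fun h => ((Nat.Prime.dvd_mul C.p.2).1 h).elim hw hm, hb, fun l hl => ?_, fun γ => ?_⟩
  · have e1 : C.al i (c / y).1⁻¹ S1 * C.al i (c / y).1 S2 = 1 := by
      rw [al_mul, inv_mul_cancel, a3, al_one]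
    have e2 := e l hl
    have e3 := congrArg (cpM (dm := dm.pow (2 ^ N)) l) e1
    change cpM (dm := dm.pow (2 ^ N)) l _ = cpM (dm := dm.pow (2 ^ N)) l _ at e2 ⊢
    rw [smul_smul, ← ht, natCast_zsmul, mul_smul]
    rw [map_nsmul, map_sub, map_one] at e2
    rw [map_mul, map_one] at e3
    rw [map_mul, map_add, map_nsmul, ← e2, Int.cast_natCast, map_natCast, smul_smul, nsmul_eq_mul,
      mul_sub, mul_one, add_sub_cancel, mul_assoc, e3, mul_one]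
  · have e1 : γ.1 * (c / y).1 * y.1 = (c * γ).1 := by
      rw [← Subgroup.coe_mul, ← Subgroup.coe_mul, mul_assoc, div_mul_cancel, mul_comm]
    obtain ⟨O, o1, o2⟩ := al_aut (e1 ▸ ((hS γ).nu_mul a2).nu_mul y1) (hS (c * γ))
    refine ⟨O, o1, ?_⟩
    rwa [← e1, ← al_mul, y2, mul_one, ← al_mul, ← mul_assoc, e1] at o2

/-- the group of partners -/
theorem exists_wg (i : C.κ) : ∃ (G : WG (dm := dm.pow (2 ^ N)) C.v R (Ga (C.E i) C.f))
    (S : Ga (C.E i) C.f → Matrix (Fin (2 ^ N)) (Fin (2 ^ N)) EF.F),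
    (∀ γ, C.Adm (C.nuG i γ.1).2 (S γ)) ∧
      (∀ γ, WG.α (dm := dm.pow (2 ^ N)) G γ = C.al i γ.1 (S γ)) ∧
      WG.Gs (dm := dm.pow (2 ^ N)) G = Gi (C.W.c i).toRingEquiv C.f C.p := by
  obtain ⟨q, u, b, ⟨Nb, hb⟩, h1, h2, h3⟩ := exists_qb hR
  obtain ⟨S, s1, hS⟩ := C.exists_S i
  have hu : ¬ (C.p : ℕ) ∣ u.natAbs := fun h => h2 (Int.natCast_dvd.2 h)
  have h4 : q ∣ (u.natAbs * C.c : ℕ) := by
    rw [Nat.cast_mul]
    exact h3.trans (mul_dvd_mul_right (Int.dvd_natAbs.2 dvd_rfl) _)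
  refine ⟨@WG.mk (dm.pow (2 ^ N)) _ _ _ _ C.v R _ _ q b Nb hb h1 (fun γ => C.al i γ.1 (S γ))
    (by rw [s1]; exact al_one) (fun γ => al_gs (hS γ)) (fun γ => al_two γ.2 (hS γ))
    (fun _ => al_atp) (Gi (C.W.c i).toRingEquiv C.f C.p) (gi_anti _ _ _)
    (fun c => rg_of hR hS (s := 0) hu (by simpa using h4) ⟨1, map_one _, by
      rw [div_one, mul_zero, pow_zero, mul_one]; exact c.2⟩)
    fun j => ?_, S, hS, fun _ => rfl, rfl⟩
  obtain ⟨a, c', hc', e⟩ := Nat.exists_eq_pow_mul_and_not_dvd C.c0 C.p C.p.2.ne_one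
  refine ⟨2 * (a * j), fun c hc => rg_of hR hS (w := (u.natAbs * c') ^ j) (fun h =>
    ((Nat.Prime.dvd_mul C.p.2).1 (C.p.2.dvd_of_dvd_pow h)).elim hu hc') ?_ hc⟩
  refine (pow_dvd_pow_of_dvd h4 j).trans ?_
  rw [← Nat.cast_pow]
  refine Int.natCast_dvd_natCast.2 ⟨C.c, ?_⟩
  conv_rhs => rw [congrArg (fun x => (u.natAbs * x) ^ j) e]
  ring

end Cx

end Pool.Agent.MT
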