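import Pool.Agent.Lib.MP_d61fbb_ag.MW.Inv
import Pool.Agent.Lib.MP_d61fbb_ag.MW.ZT3
import Pool.Agent.Lib.MP_d61fbb_ag.MW.CM2r
import Pool.Agent.Lib.MP_d61fbb_ag.MW.FK

/-! From a relation on the power to a relation on the variety. -/

set_option autoImplicit false

noncomputable section

namespace Pool.Agent.MT

open Matrix Sum
open Pool.Agent.Lib.MP_696deb_nt.B2 (Qbar jC)

/-- the index of a factor of a group of factors -/
def grp {d m : ℕ} (h : m ∣ d) : Fin (d / m) × Fin m ≃ Fin d :=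
  finProdFinEquiv.trans (finCongr (Nat.div_mul_cancel h))

/-- the family read on the power -/
def Fam.pow {g l m : ℕ} {n : ℕ → ℕ} (F : Fam (I2 g → ℤ) l n) (h : ∀ e, m ∣ F.D e) :
    Fam (I2 (m * g) → ℤ) l n where
  c := F.c
  e0 := F.e0
  D e := F.D e / m
  r := F.r
  ch e i j := vb fun k => F.ch e i (grp (h e) (j, k))
  hD e he := (Nat.div_le_self _ _).trans (F.hD e he)
  lo := F.lo
  hi := F.hi

theorem Fam.qv_pow {g l m : ℕ} {n : ℕ → ℕ} (F : Fam (I2 g → ℤ) l n) (h : ∀ e, m ∣ F.D e) (e : ℕ)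
    (z : Fin (F.r e) → ℤ) {θ : (I2 g → ℤ) → ℂ} {θ' : (I2 (m * g) → ℤ) → ℂ} {c : ℂ}
    (H : ∀ a : Fin m → I2 g → ℤ, ∏ k, θ (a k) = c * θ' (vb a)) :
    qv z (F.ch e) θ = c ^ (F.D e / m) * qv z ((F.pow h).ch e) θ' := by
  unfold qv
  rw [Finset.mul_sum]
  refine Finset.sum_congr rfl fun i _ => ?_
  rw [← (grp (h e)).prod_comp, Fintype.prod_prod_type, mul_left_comm]
  simp only [H, Finset.prod_mul_distrib, Finset.prod_const, Finset.card_univ, Fintype.card_fin]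
  rfl

variable [dm : Dim] {τ : Matrix (Fin gg) (Fin gg) ℂ} {K : IntermediateField ℚ ℂ}

theorem go_pt {h : M8 AF} (hs : GS 1 h) (e : h.map (cp p2) = 1) : Pt 1 h where
  odd := odd_one
  unit := hs.isUnit
  sim := ⟨1, fun x y => by rw [hs, Units.val_one, map_one, Nat.cast_one, one_mul]⟩
  two := fun x => by rw [e, one_mulVec]

theorem go_chi {h : M8 AF} (e : h.map (cp p2) = 1) {t : W} (ht : t ∈ L0) :
    psi (e2 * (1 / 2 : ℚ) • Qf (h *ᵥ t)) = chi0 t := by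
  have h1 : e2 * Qf (h *ᵥ t) = e2 * Qf t := vr_ext fun l => by
    by_cases hl : l = p2
    · subst hl
      have : ∀ i, cp p2 ((h *ᵥ t) i) = cp p2 (t i) := fun i =>
        (RingHom.map_mulVec (cp p2).toRingHom _ _ i).trans (by
          rw [show h.map (cp p2).toRingHom = 1 from e, one_mulVec]; rfl)
      simp [Qf, dotProduct, this]
    · simp [cp_e2_ne hl]
  refine (psi_congr ?_).symm
  rw [show (1 / 2 : ℚ) • Qf t - e2 * (1 / 2 : ℚ) • Qf (h *ᵥ t) = (1 - e2) * qa (1 / 2) * Qf t by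
    rw [gx_qsmul, gx_qsmul]
    linear_combination -qa (1 / 2) * h1]
  exact Zh.mul_mem e2_half (gx_Qf_mem Zh (gx_L0.1 ht))

/-- an algebraic theta vector is an analytic one -/
theorem go_tv (hG : GH) (hτ : Sieg τ) {M : TRep τ K} (A : AR M) {h : M8 AF}
    (e : h.map (cp p2) = 1) {F : W → Qbar} (hF : A.S.IsVec 1 h F) : TV τ h fun x => jC (F x) := by
  refine ⟨by simpa using (hG τ hτ K M A 1 one_pos F).1 hF.mem, fun t ht => funext fun x => ?_⟩
  have := congrArg jC (congrFun (hF.inv t ht fun i l hl => absurd hl l.2.ne_zero) x)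
  rw [Rt, Pi.smul_apply, smul_eq_mul, map_mul, map_mul, sgn, A.cxe, A.cxe, Nat.cast_one] at this
  rw [← go_chi e ht, Pi.smul_apply, smul_eq_mul, UU_apply, eps]
  exact this

/-- an analytic theta vector is a multiple of an integral one -/
theorem go_vec (hG : GH) (hτ : Sieg τ) {M : TRep τ K} (A : AR M) {h : M8 AF} (hs : GS 1 h)
    (e : h.map (cp p2) = 1) {F : W → ℂ} (hF : TV τ h F) :
    ∃ (F' : W → Qbar) (c : ℂ), IntVec A.S 1 h F' ∧ ∀ x, F x = c * jC (F' x) := by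
  obtain ⟨F', h1, h2, h3⟩ := A.ex_int (go_pt hs e)
  obtain ⟨c, hc⟩ := (go_tv hG hτ A e h1).uniq hτ hs
    (fun e => h2 (funext fun x => jC.injective (by simpa using congrFun e x))) hF
  exact ⟨F', c, ⟨go_pt hs e, h1, h2, h3⟩, fun x => congrFun hc x⟩

/-- A relation on the diagonal points of the power gives a relation on the variety. -/
theorem hasRel_of (hτ : Sieg τ) (M : TRep τ K) {m : ℕ} [NeZero m] (hG : GH (dm := dm.pow m))
    (A : AR (dm := dm.pow m) (M.pow hτ m)) {l : Pr} (h2 : (l : ℕ) ≠ 2)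
    {KK : Subgroup (G.Sp gg ℤ_[l])} {P : Set (M8 ℚ_[l])} (hP : ∀ H ∈ P, GS 1 H)
    (H : ∀ Φ : Fam (I2 (m * gg) → ℤ) l fun e => (l : ℕ) ^ e * cnt KK e,
      ∃ (e : ℕ) (z : Fin (Φ.r e) → ℤ), Φ.e0 ≤ e ∧ z ≠ 0 ∧ ∀ (h : M8 AF) F, GS 1 h →
        (∀ l' ≠ l, h.map (cp l') = 1) → h.map (cp l) ∈ P →
        IntVec (dm := dm.pow m) (AR.S (dm := dm.pow m) A) 1 (dg m h) F →
        qv z (Φ.ch e) (fun a => ee (Qf (zc a) / 2) *
          jC (F (dg m h *ᵥ io (dm := dm.pow m) l e a))) = 0) : HasRel τ l KK P m := by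
  intro Φ hm
  obtain ⟨e, z, he, hz, H⟩ := H (Φ.pow hm)
  refine ⟨e, z, he, hz, fun h F h3 h4 h5 h6 => ?_⟩
  have hs : GS 1 h := gs_of_cp fun l' => by
    rw [map_one]
    by_cases hl : l' = l
    · exact hl ▸ hP _ h4
    · rw [h3 l' hl]; exact gs_one
  have h7 : (dg m h).map (cp p2) = 1 := by
    rw [dg_map _ (map_zero _), h3 p2 fun e => h2 (by rw [← e]), map_one]
  obtain ⟨F', c, h8, h9⟩ := go_vec (dm := dm.pow m) hG (sieg_pow hτ) A (hs.dg (D := m)) h7
    (TV.pow (F := fun _ => F) fun _ => ⟨h5, h6⟩)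
  refine (Φ.qv_pow hm e z (c := c) fun a => ?_).trans
    (mul_eq_zero_of_right _ (H h F' hs h3 h4 h8))
  rw [mul_left_comm, ← h9, Qf_pow, Finset.sum_div, ee_sum, pf, ← Finset.prod_mul_distrib]
  refine Finset.prod_congr rfl fun k _ => ?_
  rw [vc_dg]
  have e1 : vc (zc (vb a)) k = zc (a k) := funext fun i => by simp [vc, vb]
  have e2 : vc (io (dm := dm.pow m) l e (vb a)) k = io l e (a k) :=
    funext fun i => by simp only [vc, vb, io, sgv, Equiv.apply_symm_apply]; rfl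
  rw [e1, e2]
  rfl

end Pool.Agent.MT
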