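import Pool.Agent.Lib.MP_d61fbb_ag.MW.GD
import Pool.Agent.Lib.MP_d61fbb_ag.MW.GO1
import Pool.Agent.Lib.MP_d61fbb_ag.MW.E5a
import Pool.Agent.Lib.MP_d61fbb_ag.MW.LT

/-! The points of the orbit are points of the adelic model. -/

set_option autoImplicit false

noncomputable section

namespace Pool.Agent.MT

open Matrix Polynomial NumberField Ideal
open Pool.Agent.Lib.MP_696deb_nt.B2 (Qbar jC)

theorem go_norm {E : Type} [Field E] [NumberField E] (m : ℕ) :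
    absNorm (span {(m : 𝓞 E)}) = m ^ Module.finrank ℤ (𝓞 E) := by
  rw [absNorm_span_singleton, ← Int.cast_natCast, ← eq_intCast (algebraMap ℤ (𝓞 E)),
    Algebra.norm_algebraMap, Int.natAbs_pow, Int.natAbs_natCast]

variable [dm : Dim] {τ : Matrix (Fin gg) (Fin gg) ℂ} {K : IntermediateField ℚ ℂ} {e k n : ℕ}

theorem EndF.jP_rat {a : M8 ℚ} (EF : EndF τ a) {D : ℕ} (r : ℚ) :
    EF.jP ((r : EF.F) • (1 : Matrix (Fin D) (Fin D) EF.F)) = r • 1 := by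
  have := ((bl D gg ℚ).toAlgHom.comp EF.j.mapMatrix).commutes r
  rw [Algebra.algebraMap_eq_smul_one, Algebra.algebraMap_eq_smul_one, ← Rat.cast_smul_eq_qsmul EF.F]
    at this
  exact this

namespace Cx

variable {M : AType τ K e k n} {EF : EndF τ (zM ℚ M.a)} {N : ℕ} {l₀ : Pr} (C : Cx M EF N l₀)

theorem go_p : (C.p : ℕ) ∣ C.f := by_contra fun h => (C.good _ h).1 C.W.p_mem

theorem go_c : 16 * C.c ^ 2 ∣ C.f := (dvd_mul_right _ _).trans C.cf

theorem go_ne {l l' : Pr} (h : ¬ (l : ℕ) ∣ C.f) (h' : (l' : ℕ) ∣ C.f) : l' ≠ l :=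
  fun e => h (e ▸ h')

theorem out (hl : l₀ ∉ M.S) {h : M8 AF} (hs : GS 1 h) (h1 : ∀ l ≠ l₀, h.map (cp l) = 1)
    (h2 : h.map (cp l₀) ∈ (M.D l₀ hl).Orb) : ∃ x D, C.Pnt x D ∧ ∀ m F,
      IntVec (dm := dm.pow (2 ^ N)) (AR.S (dm := dm.pow (2 ^ N)) C.B) 1 (dg (2 ^ N) h) F →
      C.Th m x fun a => ee (Qf (zc a) / 2) *
        jC (F (dg (2 ^ N) h *ᵥ io (dm := dm.pow (2 ^ N)) l₀ m a)) := by
  obtain ⟨-, j, u, g, w, hu, hw, hg, hH⟩ := h2
  have c0 : 0 < 16 * C.c ^ 2 := Nat.pos_of_dvd_of_pos C.go_c (Nat.pos_of_ne_zero C.f0)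
  have lf : (l₀ : ℕ).Coprime C.f := l₀.2.coprime_iff_not_dvd.2 C.l0
  obtain ⟨t, ht⟩ := Nat.exists_eq_add_of_le
    (Nat.le_mul_of_pos_right j (Nat.totient_pos.2 c0))
  obtain ⟨s, hs'⟩ : ∃ s, s = (l₀ : ℕ) ^ (k * (j + t)) := ⟨_, rfl⟩
  have s1 : s ≡ 1 [MOD 16 * C.c ^ 2] := by
    rw [hs', ← ht, ← mul_assoc, pow_mul']
    simpa using (Nat.ModEq.pow_totient (lf.coprime_dvd_right C.go_c)).pow (k * j)
  have sf : s.Coprime C.f := hs' ▸ lf.pow_left _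
  have s0 : s ≠ 0 := hs' ▸ pow_ne_zero _ l₀.2.ne_zero
  have sQ : (s : ℚ) ≠ 0 := Nat.cast_ne_zero.2 s0
  have sF : (s : EF.F) ≠ 0 := Nat.cast_ne_zero.2 s0
  have sl : ∀ l ≠ l₀, ‖(s : ℚ_[l])‖ = 1 := fun l h => Padic.norm_natCast_eq_one_iff.2
    (hs' ▸ ((Nat.coprime_primes l.2 l₀.2).2 fun e => h (Subtype.ext e)).pow_right _)
  obtain ⟨y, hy⟩ := s1.dvd
  have hx : IsUnit (offM C.p ((s : AF) • h)) := by
    rw [Nat.cast_smul_eq_nsmul, nsmul_eq_mul, ← map_natCast (algebraMap ℚ (M8 AF))]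
    exact ((sQ.isUnit.map _).mul hs.isUnit).map (offH C.p)
  have hc : ∀ l ≠ C.p, (offM C.p ((s : AF) • h)).map (cp l) = (s : ℚ_[l]) • h.map (cp l) :=
    fun l hl => by rw [cp_offM_ne hl, gn_map_smul, map_natCast]
  have lp : l₀ ≠ C.p := (C.go_ne C.l0 C.go_p).symm
  have nm : ∀ i, absNorm (span {((l₀ : ℕ) : 𝓞 (C.E i)) ^ (2 * (j + t))}) =
      ((l₀ : ℕ) ^ (2 * (j + t))) ^ Module.finrank ℤ (𝓞 (C.E i)) := fun i => by
    rw [← go_norm, Nat.cast_pow]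
  have e2 : ((s : EF.F) ^ 2)⁻¹ = (((s : ℚ) ^ 2)⁻¹ : ℚ) := by push_cast; rfl
  refine ⟨(hx.unit, Units.mk0 ((s : EF.F) ^ 2)⁻¹ (inv_ne_zero (pow_ne_zero _ sF))),
    fun i => span {((l₀ : ℕ) : 𝓞 (C.E i)) ^ (2 * (j + t))},
    ⟨fun i => nm i ▸ (lf.pow_left _).pow_left _, fun i => ?_, cp_offM_self _, ?_, fun φ => ?_,
      ⟨s ^ 2, (sf.coprime_dvd_right C.go_c).pow_left _, (y * (1 + s) : ℤ), intCast_mem _ _, ?_⟩,
      fun l hl => ⟨1, norm_one, ?_⟩, fun l hl x => ?_, fun l hl => ?_⟩,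
    fun m F hF => ⟨cp_offM_self _, (((s : ℚ)⁻¹ : ℚ) : EF.F) • 1, F, ⟨?_, fun i i' => ?_, s,
      (sf.coprime_dvd_right C.go_c).coprime_dvd_right ⟨8 * C.c, by ring⟩,
      ((8 * C.c * y : ℤ) : EF.F) • 1, fun i i' => ?_, ?_⟩, ?_⟩⟩
  · rw [map_span, Set.image_singleton, map_pow, map_natCast]
  · simp only [Units.val_mk0, map_inv₀, map_pow, map_natCast]
  · simp only [Units.val_mk0, map_inv₀, map_pow, map_natCast]
    norm_cast
    rw [← Complex.ofReal_natCast, ← Complex.ofReal_inv, Complex.ofReal_re]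
    positivity
  · have := congrArg (Int.cast : ℤ → EF.F) hy
    push_cast at this
    simp only [Units.val_mk0]
    push_cast
    rw [mul_sub, mul_inv_cancel₀ (pow_ne_zero _ sF)]
    linear_combination (1 + s) * this
  · have h3 : (h.map (cp l))ᵀ * J (Fin gg) ℚ_[l] * h.map (cp l) = cp l 1 • J (Fin gg) ℚ_[l] :=
      gs_iff.1 (hs.map (cp l).toRingHom)
    have h4 : (s : ℚ_[l]) ≠ 0 := Nat.cast_ne_zero.2 s0
    have h5 : (EF.j ((s : EF.F) ^ 2)⁻¹).map (↑) = ((s : ℚ_[l]) ^ 2)⁻¹ • (1 : M8 ℚ_[l]) := by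
      rw [e2, ← eq_ratCast (algebraMap ℚ _), EF.j.commutes]
      ext i i'
      by_cases e : i = i' <;> simp [e, algebraMap_matrix_apply]
    rw [IsUnit.unit_spec, hc l hl, Units.val_mk0, h5, transpose_smul]
    simp only [smul_mul_assoc, mul_smul_comm, mul_one, h3, map_one, one_smul, smul_smul]
    rw [show (s : ℚ_[l]) * (((s : ℚ_[l]) ^ 2)⁻¹ * s) = 1 by field_simp, one_smul]
  · by_cases hp : l = C.p
    · subst hp
      rw [IsUnit.unit_spec, cp_offM_self, one_mulVec]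
    · simp [hc l hp, h1 l (C.go_ne C.l0 hl), smul_mulVec, sl l (C.go_ne C.l0 hl)]
  · have hp : l ≠ C.p := (C.go_ne hl C.go_p).symm
    by_cases e : l = l₀
    · subst e
      refine ⟨((l : ℕ) : ℤ_[l]) ^ t • g, ⟨u, hu, ?_⟩,
        (C.lt l hl).lv_top (fun i _ => split_ideal _ (C.W.split i)) _ _ w hw ?_⟩
      · rw [IsUnit.unit_spec, hc l hp, Blk.Nm_smul, mul_smul_comm, hs', Nat.cast_pow, mul_add,
          add_comm, pow_add, mul_smul, hH]
        refine Eq.trans ?_ (gn_map_smul PadicInt.Coe.ringHom _ _).symm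
        rw [map_pow, map_pow, map_natCast, ← pow_mul, mul_comm t k]
        rfl
      · rw [← algebraMap_smul (M.D l _).R, det_smul, Fintype.card_fin, hg, map_pow, map_natCast]
        ring
    · refine ⟨1, ⟨Polynomial.C (s : ℤ_[l]), ?_, ?_⟩, (C.lt l hl).lv_one _ fun i => nm i ▸
        (((Nat.coprime_primes l₀.2 l.2).2 fun e' => e (Subtype.ext e'.symm)).pow_left _).pow_left _⟩
      · rw [aeval_C]
        exact (PadicInt.isUnit_iff.2 (sl l e)).map _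
      · rw [IsUnit.unit_spec, hc l hp, h1 l e, aeval_C, Blk.Nm_one, mul_one,
          Algebra.algebraMap_eq_smul_one]
        refine Eq.trans ?_ (gn_map_smul PadicInt.Coe.ringHom _ _).symm
        rw [map_natCast, Matrix.map_one _ (map_zero _) (map_one _)]
  · simp [smul_smul, sq]
  · by_cases e : i = i' <;> simp [e]
  · by_cases e : i = i'
    · simpa only [e, Matrix.smul_apply, one_apply_eq, smul_eq_mul, mul_one] using intCast_mem _ _
    · simp [e]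
  · have := congrArg (Int.cast : ℤ → EF.F) hy
    push_cast at this ⊢
    rw [smul_sub, smul_smul, smul_smul, mul_inv_cancel₀ sF, ← sub_smul, this]
    congr 1
    ring
  · have : C.hh hx.unit ((((s : ℚ)⁻¹ : ℚ) : EF.F) • 1) = dg (2 ^ N) h := gn_mat_ext fun l => by
      rw [hh, Matrix.map_mul, dg_map _ (map_zero _), dg_map _ (map_zero _), IsUnit.unit_spec]
      by_cases hp : l = C.p
      · subst hp
        rw [cp_offM_self (dm := dm.pow (2 ^ N)), cp_offM_self, one_mul, h1 _ lp.symm]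
      · rw [cp_offM_ne (dm := dm.pow (2 ^ N)) hp, hc l hp, map_smul, EF.jP_rat, mul_smul_comm,
          ← smul_mul_assoc]
        refine (congrArg (· * _) ?_).trans (one_mul _)
        ext i i'
        by_cases e : i = i'
        · subst e
          simp [s0]
        · simp [e]
    rw [this]
    exact ⟨hF, fun _ => rfl⟩

theorem hasRel (hG : GH (dm := dm.pow (2 ^ N))) (hl : l₀ ∉ M.S)
    (H : ∀ Φ : Fam (I2 (2 ^ N * gg) → ℤ) l₀ fun m => (l₀ : ℕ) ^ m * cnt (M.D l₀ hl).KK m,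
      ∃ (m : ℕ) (z : Fin (Φ.r m) → ℤ), Φ.e0 ≤ m ∧ z ≠ 0 ∧
        ∀ x D θ, C.Pnt x D → C.Th m x θ → qv z (Φ.ch m) θ = 0) :
    HasRel τ l₀ (M.D l₀ hl).KK (M.D l₀ hl).Orb (2 ^ N) := by
  refine hasRel_of C.hτ M.toTRep hG C.B (fun e => C.l0 ?_) (fun _ h => h.1) fun Φ => ?_
  · rw [e]
    exact (Dvd.dvd.mul_right (by norm_num) _).trans C.go_c
  obtain ⟨m, z, h1, h2, h3⟩ := H Φ
  refine ⟨m, z, h1, h2, fun h F hs h4 h5 hF => ?_⟩
  obtain ⟨x, D, h6, h7⟩ := C.out hl hs h4 h5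
  exact h3 x D _ h6 (h7 m F hF)

end Cx

end Pool.Agent.MT
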