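import Pool.Agent.Lib.MP_d61fbb_ag.MW.IW
import Pool.Agent.Lib.MP_d61fbb_ag.MW.FFin
import Pool.Agent.Lib.MP_d61fbb_ag.MT.EIdl

/-! The abstract glue. -/

set_option autoImplicit false

noncomputable section

namespace Pool.Agent.MT

open NumberField Ideal

section
variable {A : Type} {r d : ℕ} (z : Fin r → ℤ) (ch : Fin r → Fin d → A) {θ θ' : A → ℂ}

theorem qv_int (h : ∀ a, IsIntegral ℤ (θ a)) : IsIntegral ℤ (qv z ch θ) :=
  IsIntegral.sum _ fun i _ => (isIntegral_algebraMap (x := z i)).mul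
    (IsIntegral.prod _ fun _ _ => h _)

theorem qv_map (σ : ℂ ≃+* ℂ) : σ (qv z ch θ) = qv z ch fun a => σ (θ a) := by
  simp [qv, map_sum, map_prod]

theorem qv_smul {u : ℂ} (h : ∀ a, θ a = u * θ' a) : qv z ch θ = u ^ d * qv z ch θ' := by
  simp [qv, h, Finset.prod_mul_distrib, Finset.mul_sum, mul_left_comm]

theorem qv_norm {H : ℝ} (h : ∀ a, ‖θ a‖ ≤ H) : ‖qv z ch θ‖ ≤ (∑ i, |z i| : ℤ) * H ^ d := by
  rw [qv, Int.cast_sum, Finset.sum_mul]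
  refine (norm_sum_le _ _).trans (Finset.sum_le_sum fun i _ => ?_)
  rw [norm_mul, Complex.norm_intCast, Int.cast_abs, norm_prod]
  refine mul_le_mul_of_nonneg_left ?_ (abs_nonneg _)
  simpa using Finset.prod_le_prod (s := Finset.univ) (fun k _ => norm_nonneg (θ (ch i k)))
    fun k _ => h (ch i k)

end

variable {κ : Type} [Fintype κ] {E : κ → Type} [∀ k, Field (E k)] [∀ k, NumberField (E k)]

/-- the number of levels of bounded norm -/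
theorem card_lev : ∃ c : ℕ, ∀ X : ℕ, 2 ≤ X → ∃ S : Finset (∀ k, Ideal (𝓞 (E k))),
    S.card ≤ X ^ c ∧ ∀ D, (∀ k, D k ≠ 0) → nLev D ≤ X → D ∈ S := by
  classical
  have h : ∀ k, ∃ m : ℕ, ∀ X : ℕ, 2 ≤ X → ∃ S : Finset (Ideal (𝓞 (E k))), S.card ≤ X ^ m ∧
      ∀ I, I ≠ 0 → absNorm I ≤ X → I ∈ S := fun k => by
    obtain ⟨C, -, hC⟩ := card_ideals_le (E k)
    obtain ⟨m, hm⟩ := pow_unbounded_of_one_lt C (one_lt_two (α := ℝ))
    refine ⟨m + 1, fun X hX => ⟨(finite_setOfPred_absNorm_le X).toFinset.filter (· ≠ 0), ?_,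
      fun I h0 hI => Finset.mem_filter.2 ⟨(Set.Finite.mem_toFinset _).2 hI, h0⟩⟩⟩
    have h1 := hC X ((finite_setOfPred_absNorm_le X).toFinset.filter (· ≠ 0)) (Nat.cast_nonneg _)
      fun I hI => ⟨(Finset.mem_filter.1 hI).2,
        Nat.cast_le.2 (((finite_setOfPred_absNorm_le X).mem_toFinset (a := I)).1
          (Finset.mem_filter.1 hI).1)⟩
    have h2 : (2 : ℝ) ^ m ≤ (X : ℝ) ^ m := pow_le_pow_left₀ zero_le_two (by exact_mod_cast hX) m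
    exact_mod_cast h1.trans ((mul_le_mul_of_nonneg_right (hm.le.trans h2)
      (Nat.cast_nonneg _)).trans_eq (pow_succ _ _).symm)
  choose m hm using h
  refine ⟨∑ k, m k, fun X hX => ?_⟩
  choose S h1 h2 using fun k => hm k X hX
  refine ⟨Fintype.piFinset S, ?_, fun D h0 hD => Fintype.mem_piFinset.2 fun k => h2 k _ (h0 k) ?_⟩
  · rw [Fintype.card_piFinset, ← Finset.prod_pow_eq_pow_sum]
    exact Finset.prod_le_prod' fun k _ => h1 k
  · exact (Finset.single_le_prod' (f := fun k => absNorm (D k)) (fun k _ =>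
      Nat.one_le_iff_ne_zero.2 (idl_norm_ne _ (h0 k))) (Finset.mem_univ k)).trans hD

namespace WGlob

variable {cj : ∀ k, 𝓞 (E k) ≃+* 𝓞 (E k)} {F : Subfield ℂ} {A : Type} {f p c₀ : ℕ} {n : ℕ → ℕ}
  {t : ℝ} {Γ GG : Type} [Group Γ] [Group GG] (G : WGlob E cj F A f p c₀ n t Γ GG) {e r d : ℕ}
  (z : Fin r → ℤ) (ch : Fin r → Fin d → A) {g g' : GG} {θ : A → ℂ}

/-- points -/
def X (e : ℕ) : Type := {x : (GG ⧸ G.U e) × ∀ k, Ideal (𝓞 (E k)) //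
  ∃ g : GG, (g : GG ⧸ G.U e) = x.1 ∧ G.Pt g x.2 ∧ G.Bal g}

instance : MulAction Γ (G.X e) where
  smul σ x := ⟨(G.ρ σ • x.1.1, x.1.2), by
    obtain ⟨g, h1, h2, h3⟩ := x.2
    exact ⟨G.ρ σ * g, by rw [← h1]; rfl, G.pt_gal _ _ σ h2, G.bal_gal _ σ h3⟩⟩
  one_smul x := Subtype.ext (Prod.ext (by
    change G.ρ 1 • x.1.1 = x.1.1
    rw [map_one, one_smul]) rfl)
  mul_smul σ τ x := Subtype.ext (Prod.ext (by
    change G.ρ (σ * τ) • x.1.1 = G.ρ σ • G.ρ τ • x.1.1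
    rw [map_mul, mul_smul]) rfl)

variable {G}

theorem th_eq (h : (g : GG ⧸ G.U e) = g') (u : GG) (hθ : G.Th e (u * g) θ) : G.Th e (u * g') θ := by
  simpa [mul_assoc] using G.inv e _ _ θ (QuotientGroup.eq.1 h) hθ

/-- theta vectors of a point -/
def X.Th (x : G.X e) (θ : A → ℂ) : Prop := G.Th e x.1.1.out θ

theorem X.th {x : G.X e} (h : (g : GG ⧸ G.U e) = x.1.1) : x.Th θ ↔ G.Th e g θ := by
  have h1 : (g : GG ⧸ G.U e) = (x.1.1.out : GG) := h.trans (QuotientGroup.out_eq' _).symm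
  exact ⟨fun h2 => by simpa using th_eq h1.symm 1 (by rwa [one_mul]),
    fun h2 => by simpa [X.Th] using th_eq h1 1 (by rwa [one_mul])⟩

theorem X.gal {x : G.X e} (h : x.Th θ) (σ : Γ) : (σ • x).Th fun a => G.act σ (θ a) :=
  (X.th (g := G.ρ σ * x.1.1.out) (by
    change _ = G.ρ σ • x.1.1
    conv_rhs => rw [← QuotientGroup.out_eq' x.1.1]
    rfl)).2 (G.gal _ _ _ σ h)

theorem X.uniq {x : G.X e} {θ' : A → ℂ} (h : x.Th θ) (h' : x.Th θ') :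
    ∃ u : ℂ, ∀ a, θ a = u * θ' a := by
  obtain ⟨g, h1, h2, -⟩ := x.2
  exact G.uniq e g _ θ θ' h2 ((X.th h1).1 h) ((X.th h1).1 h')

/-- zeros -/
def X.Z (x : G.X e) : Prop := ∀ θ, x.Th θ → qv z ch θ = 0

/-- sizes -/
def X.sz (x : G.X e) : ℝ := sSup ((fun θ => G.w (qv z ch θ)) '' {θ | x.Th θ})

theorem X.le_sz {x : G.X e} (h : x.Th θ) : G.w (qv z ch θ) ≤ x.sz z ch :=
  le_csSup ⟨1, by
    rintro _ ⟨θ', h', rfl⟩
    exact G.fin.le_one _ (qv_int z ch (G.int _ _ _ h'))⟩ ⟨θ, h, rfl⟩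

theorem X.liou [Module.Finite ℚ F] {c m N : ℕ} (hN : 2 ≤ N) (hz : ∑ i, |z i| ≤ (N : ℤ) ^ m)
    (hd : d ≤ m) (x : G.X e) (O : Finset (G.X e)) (hO : ∀ y, y ∈ O ↔ ∃ σ : Γ, σ • x = y)
    (hθ : x.Th θ) (hh : ∀ (σ : ℂ ≃+* ℂ) a, ‖σ (θ a)‖ ≤ ((2 * N : ℕ) : ℝ) ^ c) (hZ : ¬ x.Z z ch) :
    1 ≤ ((N : ℝ) ^ (Module.finrank ℚ F * (m + 2 * c * m))) ^ O.card * ∏ y ∈ O, y.sz z ch := by
  classical
  have h0 : qv z ch θ ≠ 0 := fun h => hZ fun θ' h' => by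
    obtain ⟨u, hu⟩ := X.uniq h' hθ
    rw [qv_smul z ch hu, h, mul_zero]
  have hO' : ∀ y, y ∈ O ↔ y ∈ MulAction.orbit Γ x := fun y => hO y
  let _ : Fintype (MulAction.orbit Γ x) := Fintype.subtype O hO'
  have h2 : (2 : ℝ) ≤ N := by exact_mod_cast hN
  have := norm_ineq F G.act G.full (X := MulAction.orbit Γ x) ⟨x, MulAction.mem_orbit_self x⟩
    (fun y => y.2.imp fun σ h => Subtype.ext h) G.fin (qv_int z ch (G.int _ _ _ hθ)) h0
    (M := (N : ℝ) ^ (m + 2 * c * m)) (one_le_pow₀ (by linarith)) (fun σ => by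
      rw [qv_map]
      refine (qv_norm z ch (hh σ)).trans ?_
      rw [pow_add, pow_mul, pow_mul]
      refine mul_le_mul ?_ ((pow_le_pow_left₀ (by positivity) (pow_le_pow_left₀ (by positivity)
        (by push_cast; nlinarith) _) _).trans (pow_le_pow_right₀
          (one_le_pow₀ (one_le_pow₀ (by linarith))) hd)) (by positivity) (by positivity)
      exact_mod_cast hz)
    (fun y => y.1.sz z ch) fun σ =>
      (congrArg G.w (qv_map z ch _)).trans_le (X.le_sz z ch (x := σ • x) (X.gal hθ σ))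
  rw [Fintype.card_of_subtype O hO', ← Finset.prod_subtype O hO'] at this
  rw [← pow_mul]
  rwa [← pow_mul, show (m + 2 * c * m) * (Module.finrank ℚ F * O.card) =
    Module.finrank ℚ F * (m + 2 * c * m) * O.card by ring] at this

variable (G)

theorem card_pts (hf : f ≠ 1) : ∃ c : ℕ, ∀ e X₀, 1 ≤ e → 2 ≤ X₀ →
    {x : G.X e | nLev x.1.2 ≤ X₀}.Finite ∧ Nat.card {x : G.X e // nLev x.1.2 ≤ X₀} ≤ X₀ ^ c * n e := by
  classical
  obtain ⟨c, hc⟩ := G.cnt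
  obtain ⟨c₁, hc₁⟩ := card_lev (E := E)
  refine ⟨c₁ + 2 * c, fun e X₀ he hX => ?_⟩
  choose T h1 h2 using fun D => hc e D he
  obtain ⟨S, h3, h4⟩ := hc₁ X₀ hX
  let Q := (S.filter fun D => nLev D ≤ X₀).biUnion fun D => (T D).image fun q => (q, D)
  have h5 : Q.card ≤ X₀ ^ (c₁ + 2 * c) * n e := by
    refine (Finset.card_biUnion_le_card_mul _ _ (X₀ ^ (2 * c) * n e) fun D hD =>
      Finset.card_image_le.trans ((h1 D).trans (Nat.mul_le_mul_right _ ?_))).trans ?_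
    · rw [pow_mul]
      exact Nat.pow_le_pow_left (by nlinarith [(Finset.mem_filter.1 hD).2]) c
    · rw [pow_add, mul_assoc]
      exact Nat.mul_le_mul_right _ ((Finset.card_filter_le _ _).trans h3)
  have h6 : ∀ x : G.X e, nLev x.1.2 ≤ X₀ → x.1 ∈ Q := fun x hx => by
    obtain ⟨g, h7, h8, h9⟩ := x.2
    refine Finset.mem_biUnion.2 ⟨x.1.2, Finset.mem_filter.2 ⟨h4 _ (fun k h => hf ?_) hx, hx⟩,
      Finset.mem_image.2 ⟨x.1.1, h7 ▸ h2 _ g h8 h9, rfl⟩⟩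
    simpa [h] using G.pt_cop g _ k h8
  let φ : {x : G.X e // nLev x.1.2 ≤ X₀} → Q := fun x => ⟨x.1.1, h6 x.1 x.2⟩
  have h7 : Function.Injective φ := fun x y h => Subtype.ext (Subtype.ext (Subtype.mk.inj h))
  exact ⟨Finite.of_injective φ h7,
    (Nat.card_le_card_of_injective φ h7).trans ((Nat.card_eq_finsetCard Q).trans_le h5)⟩

end WGlob

open WGlob in
theorem glueW (hW : WInd) : GlueW := by
  classical
  intro c₀ d
  obtain ⟨J, hJ⟩ := hW c₀ d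
  refine ⟨J, ?_⟩
  intro κ _ E _ _ cj F _ A f p l n t Γ GG _ _ G Φ hd hcj hp hJp hpf hf ht0 ht1 hl hn
  obtain ⟨c, hc⟩ := G.ex
  obtain ⟨c₁, hc₁⟩ := G.card_pts (by rintro rfl; exact hp.one_lt.ne' (Nat.dvd_one.1 hpf))
  obtain ⟨c', hc'⟩ := f_out F A l (c + c₁) n Φ hl hn
  obtain ⟨X₁, H⟩ := hJ κ E cj f p t ((Module.finrank ℚ F * (c' + 2 * c * c') : ℕ) : ℝ) hd hcj hp
    hJp hpf hf ht0 ht1
  obtain ⟨X₀, hX1, hX⟩ : ∃ X₀, X₁ ≤ X₀ ∧ 2 ≤ X₀ := ⟨max X₁ 2, le_max_left _ _, le_max_right _ _⟩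
  obtain ⟨e, he0, he, -, hD, hF⟩ := hc' X₀ hX
  have hex : ∀ x : G.X e, ∃ θ, x.Th θ ∧
      ∀ (σ : ℂ ≃+* ℂ) a, ‖σ (θ a)‖ ≤ ((2 * nLev x.1.2 : ℕ) : ℝ) ^ c := fun x => by
    obtain ⟨g, h1, h2, h3⟩ := x.2
    obtain ⟨θ, h4, h5⟩ := hc e g _ h2 h3
    exact ⟨θ, (X.th h1).2 h4, h5⟩
  choose θ hθ hh using hex
  obtain ⟨hfin, hcard⟩ := hc₁ e X₀ he hX
  have hl' : 2 ≤ l ^ e := hl.trans (Nat.le_self_pow (by omega) _)
  have : Finite {x : G.X e // nLev x.1.2 ≤ X₀} := hfin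
  obtain ⟨z, hz1, hz, hz0⟩ := hF {x : G.X e // nLev x.1.2 ≤ X₀} (fun x => θ x)
    (hcard.trans (Nat.mul_le_mul_right _ (Nat.pow_le_pow_right (by omega) (by omega))))
    (fun x => G.int _ _ _ (hθ x))
    (fun σ x a => (hh x σ a).trans (by
      exact_mod_cast (Nat.pow_le_pow_left (Nat.mul_le_mul hl' x.2) c).trans
        (Nat.pow_le_pow_right (Nat.mul_pos (by omega) (by omega)) (by omega))))
    (fun σ hσ x => by
      obtain ⟨s, rfl⟩ := G.full σ hσ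
      exact ⟨⟨s • x.1, x.2⟩, X.uniq (X.gal (hθ x) s) (hθ _)⟩)
  have hfo : ∀ x : G.X e, {y | ∃ σ : Γ, σ • x = y}.Finite := fun x => by
    refine Set.Finite.subset (hc₁ e (max (nLev x.1.2) 2) he (le_max_right _ _)).1 ?_
    rintro _ ⟨σ, rfl⟩
    exact le_max_left (nLev x.1.2) 2
  have hO : ∀ x y, y ∈ (hfo x).toFinset ↔ ∃ σ : Γ, σ • x = y := fun x y => (hfo x).mem_toFinset
  have hs : ∀ (x : G.X e) (g : GG) σ, (g : GG ⧸ G.U e) = x.1.1 →
      ((G.ρ σ * g : GG) : GG ⧸ G.U e) = (σ • x).1.1 := fun x g σ h => by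
    change _ = G.ρ σ • x.1.1
    rw [← h]
    rfl
  have key := H X₀ hX1 Γ (G.X e)
    { lev := fun x => x.1.2
      orb := fun x => (hfo x).toFinset
      Al := fun x k B => ∃ g : GG, (g : GG ⧸ G.U e) = x.1.1 ∧ G.Pt g x.1.2 ∧ G.Al g x.1.2 k B
      Par := fun k a β x y => IsCoprime a (f : 𝓞 (E k)) ∧ (f : 𝓞 (E k)) ∣ β - a ∧
        ∃ θ', G.Th e (G.ν k a β * x.1.1.out) θ' ∧ y.Th θ'
      Z := X.Z z (Φ.ch e)
      sz := X.sz z (Φ.ch e)
      sz_nonneg := fun x => (G.fin.nonneg _ (qv_int z _ (G.int _ _ _ (hθ x)))).trans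
        (X.le_sz z _ (hθ x))
      sz_le := fun x => Real.sSup_le (by
        rintro _ ⟨θ', h', rfl⟩
        exact G.fin.le_one _ (qv_int z _ (G.int _ _ _ h'))) zero_le_one
      mem_orb := hO
      lev_cop := fun x k => G.pt_cop _ _ k x.2.choose_spec.2.1
      lev_cj := fun x k => G.pt_cj _ _ k x.2.choose_spec.2.1
      lev_smul := fun _ _ => rfl
      densA := fun x k P r h1 h2 h3 => by
        obtain ⟨g, h4, h5, -⟩ := x.2
        obtain ⟨K, g₀, h6, h7, h8⟩ := G.densA g _ k P r h5 h1 h2 h3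
        exact ⟨K, g₀, h6, h7, fun σ hσ => ⟨_, hs x g σ h4, G.pt_gal _ _ σ h5, h8 σ hσ⟩⟩
      densB := fun x k S h1 h2 => by
        obtain ⟨g, h4, h5, -⟩ := x.2
        obtain ⟨K, g₀, h6, h7, h8⟩ := G.densB g _ k S h5 h1 h2
        exact ⟨K, g₀, h6, h7, fun S' h9 σ hσ =>
          ⟨_, hs x g σ h4, G.pt_gal _ _ σ h5, h8 S' h9 σ hσ⟩⟩
      move := by
        rintro x k B B' a β ⟨g, h1, h2, h3⟩ hm
        obtain ⟨D', h4, h5, h6⟩ := G.move g _ k B B' a β h2 h3 hm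
        obtain ⟨g', h7, h8, h9⟩ := G.bal _ _ h4
        let y : G.X e := ⟨(g', D'), g', rfl, h7, h8⟩
        exact ⟨y, ⟨hm.2.1, hm.2.2.1, θ y, th_eq (h1.trans (QuotientGroup.out_eq' _).symm) _
          ((h9 e _).2 ((X.th (x := y) rfl).1 (hθ y))), hθ y⟩, h5, h6⟩
      interp := fun x k r h => by
        refine Real.sSup_le ?_ (pow_nonneg ht0.le _)
        rintro _ ⟨θ', h', rfl⟩
        obtain ⟨g, h1, h2, -⟩ := x.2
        refine G.interp e _ _ z _ g _ θ' k r h2 ((X.th h1).1 h') fun y hy => ?_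
        obtain ⟨a, β, y', ⟨h3, h4, θ'', h5, h6⟩, h7, h8⟩ := h y hy
        exact ⟨a, β, θ'', h3, h4, h8, th_eq ((QuotientGroup.out_eq' _).trans h1.symm) _ h5, h7 _ h6⟩
      liou := fun x h1 h2 => by
        have h3 : c' * Nat.log 2 X₀ ≤ c' * Nat.log 2 (nLev x.1.2) :=
          Nat.mul_le_mul_left _ (Nat.log_mono_right h1)
        have h4 := X.liou z _ (hX.trans h1) (hz.trans ((pow_le_pow_left₀ (Nat.cast_nonneg _)
          (Nat.cast_le.2 h1) _).trans (pow_le_pow_right₀ (by exact_mod_cast (by omega)) h3)))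
          (hD.trans h3) x _ (hO x) (hθ x) (hh x) h2
        rwa [← Real.rpow_natCast (nLev x.1.2 : ℝ) (_ * _), show ((Module.finrank ℚ F *
          (c' * Nat.log 2 (nLev x.1.2) + 2 * c * (c' * Nat.log 2 (nLev x.1.2))) : ℕ) : ℝ) =
          ((Module.finrank ℚ F * (c' + 2 * c * c') : ℕ) : ℝ) * (Nat.log 2 (nLev x.1.2) : ℕ) by
            push_cast; ring] at h4 }
    fun x hx θ' h' => by
      obtain ⟨u, hu⟩ := X.uniq h' (hθ x)
      rw [qv_smul z _ hu, hz0 ⟨x, hx⟩, mul_zero]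
  refine ⟨e, z, he0, hz1, fun g D θ' h1 h2 => ?_⟩
  obtain ⟨g', h3, h4, h5⟩ := G.bal _ _ h1
  exact key ⟨(g', D), g', rfl, h3, h4⟩ θ' ((X.th rfl).2 ((h5 e _).1 h2))

end Pool.Agent.MT
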