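import Mathlib

/-! Block W2: definitions and statements. -/

set_option autoImplicit false

open NumberField Ideal

namespace Pool.Agent.MW

section
variable {E : Type} [Field E] [NumberField E]

/-- the logarithm of the norm -/
noncomputable def lN (I : Ideal (𝓞 E)) : ℝ := Real.log (absNorm I)

/-- the mass of `L` at the prime `Q` -/
noncomputable def cq (L Q : Ideal (𝓞 E)) : ℝ := multiplicity Q L * lN Q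

/-- the prime divisors -/
noncomputable def pf (L : Ideal (𝓞 E)) : Finset (Ideal (𝓞 E)) := by
  classical exact (UniqueFactorizationMonoid.normalizedFactors L).toFinset

/-- the potential -/
noncomputable def pot (s : ℕ) (L : Ideal (𝓞 E)) : ℝ := ∑ Q ∈ pf L, cq L Q ^ s

/-- admissible levels: nonzero, prime to `f`, invariant, with split prime divisors only -/
structure Lv (cj : 𝓞 E ≃+* 𝓞 E) (f : ℕ) (L : Ideal (𝓞 E)) : Prop where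
  ne : L ≠ 0
  cop : (absNorm L).Coprime f
  inv : L.map cj = L
  split : ∀ Q, Prime Q → Q ∣ L → Q.map cj ≠ Q

/-- the level after the move by `b / a` when `(a) = A B` and the point is aligned at `A` -/
def Drop (cj : 𝓞 E ≃+* 𝓞 E) (L L' A B : Ideal (𝓞 E)) (b : 𝓞 E) : Prop :=
  L' * (A * A.map cj) ∣ L * (span {b} * B * (span {b} * B).map cj)

end

/-- Points with levels at all split primes.  `Γ` is the Galois group. -/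
structure SysW {K : Type} [Fintype K] (E : K → Type) [∀ k, Field (E k)] [∀ k, NumberField (E k)]
    (cj : ∀ k, 𝓞 (E k) ≃+* 𝓞 (E k)) (f p : ℕ) (θ c : ℝ) (X₀ : ℕ) (Γ X : Type) [Group Γ]
    [MulAction Γ X] where
  lev : X → ∀ k, Ideal (𝓞 (E k))
  orb : X → Finset X
  Al : X → ∀ k, Ideal (𝓞 (E k)) → Prop
  Par : ∀ k, 𝓞 (E k) → 𝓞 (E k) → X → X → Prop
  Z : X → Prop
  sz : X → ℝ
  sz_nonneg : ∀ x, 0 ≤ sz x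
  sz_le : ∀ x, sz x ≤ 1
  mem_orb : ∀ x y, y ∈ orb x ↔ ∃ σ : Γ, σ • x = y
  lev_ok : ∀ x k, Lv (cj k) f (lev x k)
  lev_smul : ∀ (σ : Γ) x, lev (σ • x) = lev x
  dens : ∀ x k (G : Finset (Ideal (𝓞 (E k)))) (r : Ideal (𝓞 (E k)) → ℕ),
    (∀ Q ∈ G, Prime Q ∧ 1 ≤ r Q ∧ Q ^ r Q ∣ lev x k ∧ Q.map (cj k) ∉ G) →
    ∃ (H : Ideal (𝓞 (E k)) → Subgroup Γ) (g : Ideal (𝓞 (E k)) → Γ),
      (∀ Q ∈ G, (H Q).index ≠ 0 ∧ (H Q).index ≤ 2 * absNorm Q ^ r Q) ∧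
      (∀ τ : Ideal (𝓞 (E k)) → Γ, ∃ σ, ∀ Q ∈ G, (τ Q)⁻¹ * σ ∈ H Q) ∧
      ∀ S ⊆ G, ∀ σ, (∀ Q ∈ S, (g Q)⁻¹ * σ ∈ H Q) → Al (σ • x) k (∏ Q ∈ S, Q ^ r Q)
  move : ∀ x k (A B : Ideal (𝓞 (E k))) (a b : 𝓞 (E k)), Al x k A → IsCoprime a (f : 𝓞 (E k)) →
    (f : 𝓞 (E k)) ∣ b - a → span {a} = A * B →
    ∃ y, Par k a b x y ∧ Drop (cj k) (lev x k) (lev y k) A B b ∧ ∀ k', k' ≠ k → lev y k' = lev x k'
  interp : ∀ x k (R : ℕ), (∀ ξ : 𝓞 (E k), ∃ a b y, IsCoprime a (f : 𝓞 (E k)) ∧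
      ((f * p ^ R : ℕ) : 𝓞 (E k)) ∣ b - a * (1 + f * ξ) ∧ Par k a b x y ∧ Z y) →
    sz x ≤ θ ^ p ^ R
  liou : ∀ x, X₀ ≤ ∏ k, absNorm (lev x k) → ¬ Z x →
    1 ≤ (((∏ k, absNorm (lev x k) : ℕ) : ℝ) ^ c) ^ (orb x).card * ∏ y ∈ orb x, sz y

/-- The extrapolation: zeros up to level `X₀` give zeros at all levels. -/
def WInd : Prop :=
  ∀ (K : Type) [Fintype K] (E : K → Type) [∀ k, Field (E k)] [∀ k, NumberField (E k)]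
    (cj : ∀ k, 𝓞 (E k) ≃+* 𝓞 (E k)) (f p : ℕ) (θ c : ℝ), (∀ k x, cj k (cj k x) = x) → p.Prime →
    p ∣ f → f ≠ 0 → (∀ k, 384 * Module.finrank ℚ (E k) < p) → 0 < θ → θ < 1 →
    ∃ X₁ : ℕ, ∀ X₀, X₁ ≤ X₀ → ∀ (Γ X : Type) [Group Γ] [MulAction Γ X]
      (S : SysW E cj f p θ (c * (Nat.log 2 X₀ : ℕ)) X₀ Γ X),
      (∀ x, ∏ k, absNorm (S.lev x k) ≤ X₀ → S.Z x) → ∀ x, S.Z x

/-- Every class modulo `f p ^ (J t)` holds a quotient of products of small elements. -/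
def WCover : Prop :=
  ∀ (E : Type) [Field E] [NumberField E] (p f J : ℕ), p.Prime → J < p → p ∣ f → f ≠ 0 →
    ∃ C : ℝ, 1 ≤ C ∧ ∀ ε : ℝ, 0 < ε → ∃ t₀ : ℕ, ∀ t, t₀ ≤ t →
      ∀ A : Ideal (𝓞 E), A ≠ 0 → (absNorm A).Coprime f →
      ∀ Hv : Finset (Ideal (𝓞 E)), (∀ Q ∈ Hv, Prime Q) → ∀ w : 𝓞 E, (f : 𝓞 E) ∣ w - 1 →
      ∃ (a b : 𝓞 E) (B Bb Bg : Ideal (𝓞 E)), IsCoprime a (f : 𝓞 E) ∧
        ((f * p ^ (J * t) : ℕ) : 𝓞 E) ∣ b - a * w ∧ span {a} = A * B ∧ span {b} * B = Bb * Bg ∧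
        Bb ≠ 0 ∧ Bg ≠ 0 ∧ lN Bb ≤ C * (∑ Q ∈ Hv, lN Q / absNorm Q) + ε * t ∧
        lN Bg ≤ 2 ^ (J + 2) * (C + 2 * Module.finrank ℚ E * t * Real.log p) ∧
        ∀ (Q : Ideal (𝓞 E)) (v : ℕ), Prime Q → 0 < v → Q ^ v ∣ Bg →
          Q ∉ Hv ∧ v * lN Q ≤ C + 2 * Module.finrank ℚ E * t * Real.log p

/-- The upper bound of Mertens for prime ideals. -/
def WMert : Prop :=
  ∀ (E : Type) [Field E] [NumberField E], ∃ C : ℝ, 0 ≤ C ∧ ∀ (y : ℝ) (S : Finset (Ideal (𝓞 E))),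
    0 ≤ y → (∀ Q ∈ S, Prime Q ∧ lN Q ≤ y) → ∑ Q ∈ S, lN Q / absNorm Q ≤ C * (1 + y)

/-- The share of the points of an orbit for which every group holds an aligned index. -/
def WDens : Prop :=
  ∀ (Γ X ι : Type) [Group Γ] [MulAction Γ X] (x : X) (O B : Finset X) (G : Finset ι) (u : ℕ)
    (lab : ι → ℕ) (H : ι → Subgroup Γ) (g : ι → Γ) (q : ι → ℝ),
    (∀ y, y ∈ O ↔ ∃ σ : Γ, σ • x = y) →
    (∀ i ∈ G, (H i).index ≠ 0 ∧ 0 ≤ q i ∧ q i * (H i).index ≤ 1) →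
    (∀ τ : ι → Γ, ∃ σ, ∀ i ∈ G, (τ i)⁻¹ * σ ∈ H i) →
    (∀ σ : Γ, (∀ j < u, ∃ i ∈ G, lab i = j ∧ (g i)⁻¹ * σ ∈ H i) → σ • x ∈ B) →
    (O.card : ℝ) * ∏ j ∈ Finset.range u, (1 - ∏ i ∈ G with lab i = j, (1 - q i)) ≤ B.card

/-- One step: with probability `η e ^ (-M)` every class holds a move that lowers the potential. -/
def WStep : Prop :=
  ∀ (E : Type) [Field E] [NumberField E] (cj : 𝓞 E ≃+* 𝓞 E) (f p : ℕ), (∀ x, cj (cj x) = x) →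
    p.Prime → p ∣ f → f ≠ 0 → 384 * Module.finrank ℚ E < p →
    ∃ (s : ℕ) (η M₀ : ℝ), 0 < η ∧ ∀ (L Q₀ : Ideal (𝓞 E)), Lv cj f L → Q₀ ∈ pf L →
      (∀ Q ∈ pf L, cq L Q ≤ cq L Q₀) → M₀ ≤ cq L Q₀ →
      ∃ (G : Finset (Ideal (𝓞 E))) (r lab : Ideal (𝓞 E) → ℕ) (u R : ℕ),
        (∀ Q ∈ G, Prime Q ∧ 1 ≤ r Q ∧ Q ^ r Q ∣ L ∧ Q.map cj ∉ G) ∧
        Real.exp (6 * cq L Q₀) ≤ (p : ℝ) ^ R ∧
        η * Real.exp (-cq L Q₀) ≤ ∏ j ∈ Finset.range u,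
          (1 - ∏ Q ∈ G with lab Q = j, (1 - 1 / (2 * (absNorm Q : ℝ) ^ r Q))) ∧
        ∀ S ⊆ G, (∀ j < u, ∃ Q ∈ S, lab Q = j) → ∀ ξ : 𝓞 E,
          ∃ (a b : 𝓞 E) (B : Ideal (𝓞 E)), IsCoprime a (f : 𝓞 E) ∧
            ((f * p ^ R : ℕ) : 𝓞 E) ∣ b - a * (1 + f * ξ) ∧ span {a} = (∏ Q ∈ S, Q ^ r Q) * B ∧
            ∀ L', L' ≠ 0 → Drop cj L L' (∏ Q ∈ S, Q ^ r Q) B b → pot s L' + 1 ≤ pot s L

end Pool.Agent.MW
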