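import Pool.Agent.Lib.MP_d61fbb_ag.MT.EIdl
import Pool.Agent.Lib.MP_d61fbb_ag.MW.W2D

/-! Block W2: the upper bound of Mertens for prime ideals. -/

set_option autoImplicit false

open NumberField Ideal
open scoped Nat

namespace Pool.Agent.MW

open Pool.Agent.MT

theorem mer_nat {n : ℕ} (hn : 1 ≤ n) (G : Finset ℕ) (hG : ∀ p ∈ G, p.Prime ∧ p ≤ n) :
    ∑ p ∈ G, Real.log p / p ≤ Real.log n + 2 := by
  have n0 : (0 : ℝ) < n := by exact_mod_cast hn
  have h1 : ∏ p ∈ G, p ^ (n / p) ∣ n ! := by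
    refine Finset.prod_dvd_of_isRelPrime (fun p hp q hq h => Nat.coprime_iff_isRelPrime.1
      (Nat.coprime_pow_primes _ _ (hG p hp).1 (hG q hq).1 h)) fun p hp => ?_
    rw [(hG p hp).1.pow_dvd_factorial_iff (b := Nat.log p n + 2) (by omega)]
    have := Finset.single_le_sum (f := fun i => n / p ^ i) (s := Finset.Ico 1 (Nat.log p n + 2))
      (fun _ _ => Nat.zero_le _) (Finset.mem_Ico.2 ⟨le_rfl, by omega⟩)
    simpa using this
  have h2 : ((∏ p ∈ G, p ^ (n / p) : ℕ) : ℝ) ≤ (n : ℝ) ^ n := by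
    exact_mod_cast (Nat.le_of_dvd n.factorial_pos h1).trans n.factorial_le_pow
  have hp0 : ∀ p ∈ G, (0 : ℝ) < p := fun p hp => by exact_mod_cast (hG p hp).1.pos
  have h3 : ∑ p ∈ G, ((n / p : ℕ) : ℝ) * Real.log p ≤ n * Real.log n := by
    have := Real.log_le_log (by
      push_cast
      exact Finset.prod_pos fun p hp => pow_pos (hp0 p hp) _) h2
    rw [Real.log_pow, Nat.cast_prod, Real.log_prod fun p hp => by
      push_cast
      exact (pow_pos (hp0 p hp) _).ne'] at this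
    simpa using this
  have h4 : ∑ p ∈ G, Real.log p ≤ 2 * n := by
    have e1 := Chebyshev.theta_le_log4_mul_x n0.le
    have e2 : Real.log 4 ≤ 2 := by
      have := Real.log_two_lt_d9
      rw [show (4 : ℝ) = 2 ^ 2 by norm_num, Real.log_pow]
      push_cast
      linarith
    rw [Chebyshev.theta_eq_sum_primesLE_log] at e1
    refine (Finset.sum_le_sum_of_subset_of_nonneg (fun p hp => ?_)
      fun p _ _ => Real.log_natCast_nonneg p).trans (e1.trans (by gcongr))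
    exact Nat.mem_primesLE.2 ⟨(hG p hp).2, (hG p hp).1⟩
  have h5 : n * ∑ p ∈ G, Real.log p / p ≤
      ∑ p ∈ G, ((n / p : ℕ) : ℝ) * Real.log p + ∑ p ∈ G, Real.log p := by
    rw [Finset.mul_sum, ← Finset.sum_add_distrib]
    refine Finset.sum_le_sum fun p hp => ?_
    have e : (n : ℝ) / p ≤ ((n / p : ℕ) : ℝ) + 1 := by
      rw [div_le_iff₀ (hp0 p hp)]
      have := Nat.lt_div_mul_add (a := n) (hG p hp).1.pos
      have e2 : (n : ℝ) < ((n / p : ℕ) : ℝ) * p + p := by exact_mod_cast this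
      linarith
    have := mul_le_mul_of_nonneg_right e (Real.log_natCast_nonneg p)
    calc (n : ℝ) * (Real.log p / p) = n / p * Real.log p := by ring
      _ ≤ _ := this
      _ = _ := by ring
  refine le_of_mul_le_mul_left ?_ n0
  linarith

variable {E : Type} [Field E] [NumberField E]

/-- the rational prime below a prime ideal -/
theorem mer_under {Q : Ideal (𝓞 E)} (hQ : Prime Q) :
    ∃ p : ℕ, p.Prime ∧ (p : 𝓞 E) ∈ Q ∧ ∃ k, 1 ≤ k ∧ absNorm Q = p ^ k := by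
  have hP := Ideal.isPrime_of_prime hQ
  have h : ∀ n : ℕ, n ≠ 0 → (n : 𝓞 E) ∈ Q → ∃ p : ℕ, p.Prime ∧ (p : 𝓞 E) ∈ Q := fun n => by
    induction n using induction_on_primes with
    | zero => exact fun h => absurd rfl h
    | one => exact fun _ h => absurd ((eq_top_iff_one Q).2 (by simpa using h)) hP.ne_top
    | prime_mul p a hp ih =>
      intro h0 h
      rw [Nat.cast_mul] at h
      exact (hP.mem_or_mem h).elim (fun h => ⟨p, hp, h⟩) (ih fun e => h0 (by simp [e]))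
  obtain ⟨p, h1, h2⟩ := h _ (idl_norm_ne E hQ.ne_zero) (absNorm_mem Q)
  exact ⟨p, h1, h2, idl_norm_pow E h1 hP.ne_top h2⟩

/-- a sum over prime ideals against a sum over the primes below -/
theorem mer_fib (S : Finset (Ideal (𝓞 E))) (pu : Ideal (𝓞 E) → ℕ)
    (hS : ∀ Q ∈ S, Prime Q ∧ (pu Q).Prime ∧ (pu Q : 𝓞 E) ∈ Q) (w : ℕ → ℝ) (hw : ∀ n, 0 ≤ w n) :
    ∑ Q ∈ S, w (pu Q) ≤ Module.finrank ℚ E * ∑ p ∈ S.image pu, w p := by
  classical
  rw [Finset.sum_comp, Finset.mul_sum]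
  refine Finset.sum_le_sum fun p hp => ?_
  obtain ⟨Q₀, h0, rfl⟩ := Finset.mem_image.1 hp
  obtain ⟨T, h1, -, h3⟩ := idl_primes_over E (hS Q₀ h0).2.1
  rw [nsmul_eq_mul]
  refine mul_le_mul_of_nonneg_right (Nat.cast_le.2 ((Finset.card_le_card fun Q hQ => ?_).trans h1))
    (hw _)
  obtain ⟨e1, e2⟩ := Finset.mem_filter.1 hQ
  exact h3 Q ((Ideal.isPrime_of_prime (hS Q e1).1).isMaximal (hS Q e1).1.ne_zero)
    (e2 ▸ (hS Q e1).2.2)

theorem mer_pow {p k j : ℕ} (hp : p.Prime) (hj : 1 ≤ j) (hk : j ≤ k) :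
    Real.log ((p ^ k : ℕ) : ℝ) / ((p ^ k : ℕ) : ℝ) ≤ j * Real.log p / p ^ j := by
  obtain ⟨i, rfl⟩ := Nat.exists_eq_add_of_le hk
  have p0 : (0 : ℝ) < p := by exact_mod_cast hp.pos
  have h1 : j + i ≤ j * p ^ i := by
    have e1 : i + 1 ≤ p ^ i := Nat.lt_pow_self hp.one_lt
    calc j + i ≤ j * (i + 1) := by nlinarith
      _ ≤ _ := Nat.mul_le_mul_left _ e1
  have h2 : ((j + i : ℕ) : ℝ) ≤ j * p ^ i := by exact_mod_cast h1
  rw [Nat.cast_pow, Real.log_pow, div_le_div_iff₀ (by positivity) (by positivity), pow_add]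
  have := mul_le_mul_of_nonneg_right h2
    (mul_nonneg (Real.log_natCast_nonneg p) (pow_pos p0 j).le)
  linarith

theorem mer_ideal {y : ℝ} (hy : 0 ≤ y) (S : Finset (Ideal (𝓞 E)))
    (hS : ∀ Q ∈ S, Prime Q ∧ lN Q ≤ y) :
    ∑ Q ∈ S, lN Q / absNorm Q ≤ Module.finrank ℚ E * (y + 2) := by
  classical
  have h : ∀ Q : Ideal (𝓞 E), ∃ p : ℕ, Prime Q →
      p.Prime ∧ (p : 𝓞 E) ∈ Q ∧ ∃ k, 1 ≤ k ∧ absNorm Q = p ^ k := fun Q => by
    by_cases hQ : Prime Q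
    · exact (mer_under hQ).imp fun p hp _ => hp
    · exact ⟨0, fun e => absurd e hQ⟩
  choose pu hpu using h
  have hn : 1 ≤ ⌊Real.exp y⌋₊ := Nat.le_floor (by simpa using hy)
  have h1 := mer_fib S pu (fun Q hQ => ⟨(hS Q hQ).1, (hpu Q (hS Q hQ).1).1,
    (hpu Q (hS Q hQ).1).2.1⟩) (fun p => Real.log p / p)
    fun p => div_nonneg (Real.log_natCast_nonneg p) p.cast_nonneg
  have h2 := mer_nat hn (S.image pu) fun p hp => by
    obtain ⟨Q, hQ, rfl⟩ := Finset.mem_image.1 hp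
    obtain ⟨e1, -, k, e2, e3⟩ := hpu Q (hS Q hQ).1
    refine ⟨e1, Nat.le_floor ?_⟩
    have e4 : pu Q ≤ absNorm Q := e3 ▸ Nat.le_self_pow (by omega) _
    have e5 : (0 : ℝ) < absNorm Q := by exact_mod_cast e1.pos.trans_le e4
    exact (Nat.cast_le.2 e4).trans ((Real.log_le_iff_le_exp e5).1 (hS Q hQ).2)
  have h3 : Real.log (⌊Real.exp y⌋₊ : ℕ) ≤ y :=
    (Real.log_le_iff_le_exp (by exact_mod_cast hn)).2 (Nat.floor_le (Real.exp_pos y).le)
  refine le_trans (Finset.sum_le_sum fun Q hQ => ?_) (h1.trans (by gcongr; linarith))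
  obtain ⟨e1, -, k, e2, e3⟩ := hpu Q (hS Q hQ).1
  rw [lN, e3]
  simpa using mer_pow e1 le_rfl e2

theorem wMert : WMert := fun E _ _ =>
  ⟨2 * Module.finrank ℚ E, by positivity, fun y S hy hS => (mer_ideal hy S hS).trans (by
    have : (0 : ℝ) ≤ Module.finrank ℚ E := Nat.cast_nonneg _
    nlinarith)⟩

/-- the primes whose norm is not a prime number have bounded mass -/
theorem mer_np (E : Type) [Field E] [NumberField E] : ∃ C : ℝ, 0 ≤ C ∧
    ∀ S : Finset (Ideal (𝓞 E)), (∀ Q ∈ S, Prime Q ∧ ¬ (absNorm Q).Prime) →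
      ∑ Q ∈ S, lN Q / absNorm Q ≤ C := by
  classical
  have h : ∀ Q : Ideal (𝓞 E), ∃ p : ℕ, Prime Q →
      p.Prime ∧ (p : 𝓞 E) ∈ Q ∧ ∃ k, 1 ≤ k ∧ absNorm Q = p ^ k := fun Q => by
    by_cases hQ : Prime Q
    · exact (mer_under hQ).imp fun p hp _ => hp
    · exact ⟨0, fun e => absurd e hQ⟩
  choose pu hpu using h
  let w : ℕ → ℝ := fun n => 4 * ((n : ℝ) ^ (3 / 2 : ℝ))⁻¹
  have hw : ∀ n, 0 ≤ w n := fun n => by positivity
  have hs : Summable w := (Real.summable_nat_rpow_inv.2 (by norm_num)).mul_left 4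
  refine ⟨Module.finrank ℚ E * ∑' n, w n, mul_nonneg (Nat.cast_nonneg _) (tsum_nonneg hw),
    fun S hS => ?_⟩
  have h1 := mer_fib S pu (fun Q hQ => ⟨(hS Q hQ).1, (hpu Q (hS Q hQ).1).1,
    (hpu Q (hS Q hQ).1).2.1⟩) w hw
  refine le_trans (Finset.sum_le_sum fun Q hQ => ?_) (h1.trans
    (mul_le_mul_of_nonneg_left (hs.sum_le_tsum _ fun n _ => hw n) (Nat.cast_nonneg _)))
  obtain ⟨e1, -, k, e2, e3⟩ := hpu Q (hS Q hQ).1
  have e4 : 2 ≤ k := by
    by_contra e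
    have : k = 1 := by omega
    exact (hS Q hQ).2 (by rw [e3, this, pow_one]; exact e1)
  have p0 : (0 : ℝ) < pu Q := by exact_mod_cast e1.pos
  rw [lN, e3]
  refine (mer_pow e1 one_le_two e4).trans ?_
  have e5 := Real.log_le_rpow_div p0.le (ε := 1 / 2) (by norm_num)
  have e6 : ((pu Q : ℝ)) ^ 2 = (pu Q : ℝ) ^ (1 / 2 : ℝ) * (pu Q : ℝ) ^ (3 / 2 : ℝ) := by
    rw [← Real.rpow_add p0, ← Real.rpow_natCast]; norm_num
  have e7 := Real.rpow_pos_of_pos p0 (1 / 2)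
  have e8 := Real.rpow_pos_of_pos p0 (3 / 2)
  rw [e6, div_le_iff₀ (by positivity)]
  calc ((2 : ℕ) : ℝ) * Real.log (pu Q) ≤ 4 * (pu Q : ℝ) ^ (1 / 2 : ℝ) := by push_cast; linarith
    _ = _ := by simp only [w]; field_simp

/-- one prime ideal for each prime norm -/
theorem mer_sel (G : Finset (Ideal (𝓞 E))) (hG : ∀ Q ∈ G, Prime Q ∧ (absNorm Q).Prime) :
    ∃ G₁ ⊆ G, (∀ P ∈ G₁, ∀ Q ∈ G₁, absNorm P = absNorm Q → P = Q) ∧
      ∀ w : ℕ → ℝ, (∀ n, 0 ≤ w n) →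
        ∑ Q ∈ G, w (absNorm Q) ≤ Module.finrank ℚ E * ∑ Q ∈ G₁, w (absNorm Q) := by
  classical
  obtain ⟨G₁, h1, h2, h3⟩ := Finset.exists_subset_injOn_image_eq_of_surjOn
    (f := fun Q : Ideal (𝓞 E) => absNorm Q) (G : Set _) (G.image fun Q => absNorm Q) (by
      rw [Finset.coe_image]; exact Set.surjOn_image _ _)
  refine ⟨G₁, h1, fun P hP Q hQ e => h2 hP hQ e, fun w hw => ?_⟩
  have := mer_fib G (fun Q => absNorm Q) (fun Q hQ => ⟨(hG Q hQ).1, (hG Q hQ).2, absNorm_mem Q⟩)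
    w hw
  rwa [← h3, Finset.sum_image h2] at this

end Pool.Agent.MW
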