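import Mathlib

/-! Cube congruence: the alternating product of `c + y (x + h_S)` over the vertices of a cube. -/

namespace Pool.Agent.MT.WCube

open Finset
open scoped Nat

variable {R : Type*} [CommRing R]

/-- alternating power sums over a cube -/
theorem alt_pow {ι : Type*} [DecidableEq ι] (h : ι → R) (s : Finset ι) :
    ∀ (x : R) (k : ℕ), k ≤ s.card →
      ∑ S ∈ s.powerset, (-1 : R) ^ S.card * (x + ∑ i ∈ S, h i) ^ k =
        if k = s.card then (-1) ^ k * (k ! : R) * ∏ i ∈ s, h i else 0 := by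
  induction s using Finset.induction_on with
  | empty =>
    intro x k hk
    have : k = 0 := by simpa using hk
    subst this
    simp
  | insert a s ha ih =>
    intro x k hk
    rw [card_insert_of_notMem ha] at hk ⊢
    rw [sum_powerset_insert ha, prod_insert ha]
    have h1 : ∀ S ∈ s.powerset,
        (-1 : R) ^ (insert a S).card * (x + ∑ i ∈ insert a S, h i) ^ k =
          -(∑ m ∈ range k, ((k.choose m : R) * h a ^ (k - m)) *
              ((-1) ^ S.card * (x + ∑ i ∈ S, h i) ^ m)) -
            (-1) ^ S.card * (x + ∑ i ∈ S, h i) ^ k := by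
      intro S hS
      have haS : a ∉ S := fun h' => ha (mem_powerset.1 hS h')
      rw [card_insert_of_notMem haS, sum_insert haS,
        show x + (h a + ∑ i ∈ S, h i) = (x + ∑ i ∈ S, h i) + h a by ring, add_pow,
        sum_range_succ, mul_add, mul_sum, ← sum_neg_distrib]
      simp only [Nat.sub_self, pow_zero, Nat.choose_self, Nat.cast_one, mul_one]
      rw [sub_eq_add_neg]
      refine congrArg₂ (· + ·) (sum_congr rfl fun m _ => ?_) ?_ <;> ring
    rw [sum_congr rfl h1, sum_sub_distrib, sum_neg_distrib, sum_comm]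
    simp only [← mul_sum]
    have h2 : ∀ m ∈ range k, (k.choose m : R) * h a ^ (k - m) *
        ∑ S ∈ s.powerset, (-1 : R) ^ S.card * (x + ∑ i ∈ S, h i) ^ m =
        if m = s.card then (k.choose m : R) * h a ^ (k - m) *
          ((-1) ^ m * (m ! : R) * ∏ i ∈ s, h i) else 0 := by
      intro m hm
      rw [ih x m (by have := mem_range.1 hm; omega)]
      split_ifs <;> simp
    rw [sum_congr rfl h2, sum_ite_eq' (range k) s.card]
    by_cases hk' : k = s.card + 1
    · subst hk'
      rw [if_pos (self_mem_range_succ _), if_pos rfl, Nat.choose_succ_self_right,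
        Nat.factorial_succ, Nat.add_sub_cancel_left]
      push_cast
      ring
    · rw [if_neg (by rw [mem_range]; omega), if_neg hk']
      ring

/-- elementary symmetric values -/
noncomputable def es {σ : Type*} [Fintype σ] (z : σ → R) (k : ℕ) : R :=
  ∑ t ∈ powersetCard k (univ : Finset σ), ∏ i ∈ t, z i

theorem newton {σ : Type*} [Fintype σ] (z : σ → R) (k : ℕ) :
    (k : R) * es z k = (-1) ^ (k + 1) *
      ∑ a ∈ antidiagonal k with a.1 < k, (-1) ^ a.1 * es z a.1 * ∑ i, z i ^ a.2 := by
  classical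
  have := congrArg (MvPolynomial.eval z) (MvPolynomial.mul_esymm_eq_sum σ R k)
  simpa [MvPolynomial.esymm, MvPolynomial.psum, es] using this

theorem prod_es {σ : Type*} [Fintype σ] (z : σ → R) (c y : R) :
    ∏ i, (c + y * z i) =
      ∑ k ∈ range (Fintype.card σ + 1), y ^ k * c ^ (Fintype.card σ - k) * es z k := by
  classical
  have h1 : ∏ i, (c + y * z i) = ∏ i, (y * z i + c) := prod_congr rfl fun i _ => add_comm _ _
  rw [h1, prod_add, sum_powerset, card_univ]
  refine sum_congr rfl fun k _ => ?_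
  rw [es, mul_sum]
  refine sum_congr rfl fun t ht => ?_
  have hc : t.card = k := (mem_powersetCard.1 ht).2
  rw [prod_mul_distrib, prod_const, prod_const, card_univ_sdiff, hc]
  ring

variable [IsDomain R] [CharZero R]

omit [IsDomain R] [CharZero R] in
theorem es_sub {σ τ : Type*} [Fintype σ] [Fintype τ] (z : σ → R) (z' : τ → R) (j : ℕ)
    (hp : ∀ k, 1 ≤ k → k < j → ∑ i, z i ^ k = ∑ i, z' i ^ k) (k : ℕ) (hk1 : 1 ≤ k) (hk : k ≤ j)
    (ih : ∀ m < k, es z m = es z' m) :
    (k : R) * (es z k - es z' k) = (-1) ^ (k + 1) * (∑ i, z i ^ k - ∑ i, z' i ^ k) := by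
  rw [mul_sub, newton, newton, ← mul_sub, ← sum_sub_distrib]
  refine congrArg _ ?_
  rw [sum_eq_single (0, k)]
  · simp [es]
  · intro a ha hne
    rw [mem_filter, HasAntidiagonal.mem_antidiagonal] at ha
    have h0 : a.1 ≠ 0 := by
      intro h0
      apply hne
      ext
      · exact h0
      · show a.2 = k
        omega
    rw [ih a.1 ha.2, hp a.2 (by omega) (by omega), sub_self]
  · intro h
    exact absurd (mem_filter.2 ⟨HasAntidiagonal.mem_antidiagonal.2 (by simp), hk1⟩) h

theorem es_eq {σ τ : Type*} [Fintype σ] [Fintype τ] (z : σ → R) (z' : τ → R) (j : ℕ)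
    (hp : ∀ k, 1 ≤ k → k < j → ∑ i, z i ^ k = ∑ i, z' i ^ k) :
    ∀ k < j, es z k = es z' k := by
  intro k
  induction k using Nat.strong_induction_on with
  | _ k ih =>
    intro hk
    rcases Nat.eq_zero_or_pos k with rfl | h0
    · simp [es]
    · have := es_sub z z' j hp k h0 hk.le fun m hm => ih m hm (by omega)
      rw [hp k h0 hk, sub_self, mul_zero, mul_eq_zero] at this
      rcases this with h | h
      · exact absurd (Nat.cast_eq_zero.1 h) (by omega)
      · exact sub_eq_zero.1 h

omit [IsDomain R] [CharZero R] in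
theorem alt_split {ι : Type*} (s : Finset ι) (F : Finset ι → R) :
    ∑ S ∈ s.powerset, (-1 : R) ^ S.card * F S =
      ∑ S ∈ s.powerset with Even S.card, F S - ∑ S ∈ s.powerset with Odd S.card, F S := by
  rw [sum_filter, sum_filter, ← sum_sub_distrib]
  refine sum_congr rfl fun S _ => ?_
  rcases Nat.even_or_odd S.card with h | h
  · rw [h.neg_one_pow, if_pos h, if_neg (Nat.not_odd_iff_even.2 h)]; ring
  · rw [h.neg_one_pow, if_pos h, if_neg (Nat.not_even_iff_odd.2 h)]; ring

theorem card_even_odd {ι : Type*} [DecidableEq ι] (s : Finset ι) (hs : s.Nonempty) :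
    (s.powerset.filter fun S => Even S.card).card = 2 ^ (s.card - 1) ∧
    (s.powerset.filter fun S => Odd S.card).card = 2 ^ (s.card - 1) := by
  have hj : 1 ≤ s.card := card_pos.2 hs
  have h1 := alt_pow (fun _ => (0 : ℤ)) s 0 0 (Nat.zero_le _)
  rw [if_neg (by omega), alt_split] at h1
  simp only [pow_zero, sum_const, nsmul_eq_mul, mul_one] at h1
  have h2 := card_filter_add_card_filter_not (s := s.powerset) (fun S => Even S.card)
  simp only [Nat.not_even_iff_odd, card_powerset] at h2
  have h3 : 2 ^ s.card = 2 * 2 ^ (s.card - 1) := by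
    rw [← pow_succ']; exact congrArg _ (by omega)
  omega

/-- The cube congruence. -/
theorem cube_cong {ι : Type*} [DecidableEq ι] (s : Finset ι) (hs : s.Nonempty) (c y x : R)
    (h : ι → R) :
    y ^ (s.card + 1) ∣
      (∏ S ∈ s.powerset with Even S.card, (c + y * (x + ∑ i ∈ S, h i))) -
      (∏ S ∈ s.powerset with Odd S.card, (c + y * (x + ∑ i ∈ S, h i))) +
      ((s.card - 1)! : R) * y ^ s.card * c ^ (2 ^ (s.card - 1) - s.card) * ∏ i ∈ s, h i := by
  have hj : 1 ≤ s.card := card_pos.2 hs
  obtain ⟨he, ho⟩ := card_even_odd s hs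
  set E := s.powerset.filter fun S => Even S.card with hE
  set O := s.powerset.filter fun S => Odd S.card with hO
  let z : E → R := fun S => x + ∑ i ∈ S.1, h i
  let z' : O → R := fun S => x + ∑ i ∈ S.1, h i
  have hp : ∀ k ≤ s.card, ∑ i, z i ^ k - ∑ i, z' i ^ k =
      if k = s.card then (-1) ^ k * (k ! : R) * ∏ i ∈ s, h i else 0 := by
    intro k hk
    rw [← alt_pow h s x k hk, alt_split]
    exact congrArg₂ (· - ·) (sum_coe_sort E fun S => (x + ∑ i ∈ S, h i) ^ k)
      (sum_coe_sort O fun S => (x + ∑ i ∈ S, h i) ^ k)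
  have hp' : ∀ k, 1 ≤ k → k < s.card → ∑ i, z i ^ k = ∑ i, z' i ^ k := fun k _ hk => by
    have := hp k hk.le
    rw [if_neg (by omega)] at this
    exact sub_eq_zero.1 this
  have h1 := es_eq z z' s.card hp'
  have h2 := es_sub z z' s.card hp' s.card hj le_rfl h1
  rw [hp _ le_rfl, if_pos rfl] at h2
  have h3 : es z s.card - es z' s.card = -(((s.card - 1)! : R) * ∏ i ∈ s, h i) := by
    have hne : (s.card : R) ≠ 0 := Nat.cast_ne_zero.2 (by omega)
    apply mul_left_cancel₀ hne
    rw [h2, ← Nat.mul_factorial_pred (n := s.card) (by omega)]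
    have : ((-1 : R) ^ s.card) * (-1) ^ s.card = 1 := by
      rw [← mul_pow]; simp
    push_cast
    linear_combination (-(s.card : R) * ((s.card - 1)! : R) * ∏ i ∈ s, h i) * this
  rw [← prod_coe_sort E fun S => c + y * (x + ∑ i ∈ S, h i),
    ← prod_coe_sort O fun S => c + y * (x + ∑ i ∈ S, h i)]
  have e1 := prod_es z c y
  have e2 := prod_es z' c y
  rw [Fintype.card_coe, he] at e1
  rw [Fintype.card_coe, ho] at e2
  have hM : s.card ∈ range (2 ^ (s.card - 1) + 1) := by
    have := Nat.lt_two_pow_self (n := s.card - 1)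
    rw [mem_range]; omega
  show y ^ (s.card + 1) ∣ (∏ i, (c + y * z i)) - (∏ i, (c + y * z' i)) + _
  rw [e1, e2, ← sum_sub_distrib, ← add_sum_erase _ _ hM, ← mul_sub, h3]
  have : ∀ a b : R, y ^ s.card * a * -(((s.card - 1)! : R) * ∏ i ∈ s, h i) + b +
      ((s.card - 1)! : R) * y ^ s.card * a * ∏ i ∈ s, h i = b := fun a b => by ring
  rw [this]
  refine dvd_sum fun k hk => ?_
  rcases lt_or_gt_of_ne (ne_of_mem_erase hk) with hlt | hgt
  · rw [h1 k hlt, sub_self]; exact dvd_zero _
  · rw [← mul_sub, mul_assoc]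
    exact Dvd.dvd.mul_right (pow_dvd_pow y hgt) _

/-- subsets of `range k` as binary expansions -/
theorem bin_prod (k : ℕ) : ∃ sg : ℕ → Bool, ∀ (M : Type) [CommMonoid M] (F : Bool → ℕ → M),
    ∏ S ∈ (range k).powerset, F (decide (Even S.card)) (∑ i ∈ S, 2 ^ i) =
      ∏ s ∈ range (2 ^ k), F (sg s) s := by
  induction k with
  | zero => exact ⟨fun _ => true, fun M _ F => by simp⟩
  | succ k ih =>
    obtain ⟨sg, ih⟩ := ih
    refine ⟨fun s => if s < 2 ^ k then sg s else !sg (s - 2 ^ k), fun M _ F => ?_⟩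
    rw [range_add_one, prod_powerset_insert notMem_range_self, pow_succ, mul_two, prod_range_add,
      ih M F]
    refine congrArg₂ (· * ·) (prod_congr rfl fun s hs => ?_) ?_
    · simp only [if_pos (mem_range.1 hs)]
    · have := ih M fun b s => F (!b) (2 ^ k + s)
      refine Eq.trans (prod_congr rfl fun S hS => ?_) (this.trans (prod_congr rfl fun s _ => ?_))
      · have hk : k ∉ S := fun h => notMem_range_self (mem_powerset.1 hS h)
        rw [card_insert_of_notMem hk, sum_insert hk]
        refine congrArg (fun b => F b _) ?_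
        by_cases h : Even S.card <;> simp [h, Nat.even_add_one]
      · simp only [if_neg (Nat.not_lt.2 (Nat.le_add_right (2 ^ k) s)), Nat.add_sub_cancel_left]

theorem cube_bin (k : ℕ) (U y h : R) :
    y ^ (k + 2) ∣
      (∏ S ∈ (range k).powerset,
        (U + y * (((∑ i ∈ S, 2 ^ i : ℕ) : R) + if decide (Even S.card) then 0 else h))) -
      (∏ S ∈ (range k).powerset,
        (U + y * (((∑ i ∈ S, 2 ^ i : ℕ) : R) + if decide (Even S.card) then h else 0))) +
      y ^ (k + 1) * h * (((k ! * ∏ i ∈ range k, 2 ^ i : ℕ) : R) * U ^ (2 ^ k - (k + 1))) := by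
  have hk : k ∉ range k := notMem_range_self
  have h0 := cube_cong (insert k (range k)) (insert_nonempty _ _) U y 0
    (fun i => if i = k then h else 2 ^ i)
  have hs : ∀ S ∈ (range k).powerset,
      ∑ i ∈ S, (if i = k then h else 2 ^ i) = ((∑ i ∈ S, 2 ^ i : ℕ) : R) := fun S hS => by
    push_cast
    refine sum_congr rfl fun i hi => if_neg ?_
    rintro rfl
    exact hk (mem_powerset.1 hS hi)
  rw [card_insert_of_notMem hk, card_range, prod_filter, prod_filter, prod_powerset_insert hk,
    prod_powerset_insert hk, ← prod_mul_distrib, ← prod_mul_distrib, prod_insert hk,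
    Nat.add_sub_cancel, if_pos rfl] at h0
  refine Dvd.dvd.trans h0 (dvd_of_eq ?_)
  refine congrArg₂ (· + ·) (congrArg₂ (· - ·) (prod_congr rfl fun S hS => ?_)
    (prod_congr rfl fun S hS => ?_)) ?_
  · have hS' : k ∉ S := fun h => hk (mem_powerset.1 hS h)
    rw [card_insert_of_notMem hS', sum_insert hS', hs S hS, if_pos (rfl : k = k)]
    by_cases he : Even S.card
    · simp [he, Nat.even_add_one]
    · simp [he, Nat.even_add_one, add_comm]
  · have hS' : k ∉ S := fun h => hk (mem_powerset.1 hS h)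
    rw [card_insert_of_notMem hS', sum_insert hS', hs S hS, if_pos (rfl : k = k)]
    by_cases he : Even S.card
    · simp [he, ← Nat.not_even_iff_odd, add_comm]
    · simp [he, ← Nat.not_even_iff_odd]
  · have : ∏ i ∈ range k, (if i = k then h else 2 ^ i) = ∏ i ∈ range k, (2 : R) ^ i :=
      prod_congr rfl fun i hi => if_neg (mem_range.1 hi).ne
    rw [this]
    push_cast
    ring

end Pool.Agent.MT.WCube

namespace Pool.Agent.MT

open Finset WCube Polynomial
open scoped Nat

/-- The cube congruence with one free step `h` and integer steps `1, 2, 4, ..`. -/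
theorem wc_cube (k : ℕ) : ∃ (sg : ℕ → Bool) (c : ℤ) (e : ℕ), 2 ^ k = e + (k + 1) ∧
    (∀ p : ℕ, p.Prime → k + 1 < p → ¬ ((p : ℤ) ∣ c)) ∧
    ∀ (R : Type) [CommRing R] (U y h : R), ∃ W : R,
      (∏ s ∈ range (2 ^ k), (U + y * ((s : R) + if sg s then h else 0))) =
      (∏ s ∈ range (2 ^ k), (U + y * ((s : R) + if sg s then 0 else h))) +
        y ^ (k + 1) * h * ((c : R) * U ^ e + y * W) := by
  obtain ⟨sg, hsg⟩ := bin_prod k
  refine ⟨sg, ((k ! * ∏ i ∈ range k, 2 ^ i : ℕ) : ℤ), 2 ^ k - (k + 1), ?_, ?_, ?_⟩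
  · have := Nat.lt_two_pow_self (n := k)
    omega
  · intro p hp hk hd
    rw [Int.natCast_dvd_natCast, hp.dvd_mul, hp.dvd_factorial] at hd
    rcases hd with hd | hd
    · omega
    · obtain ⟨i, hi, hd⟩ := (hp.prime.dvd_finsetProd_iff _).1 hd
      have h2 := Nat.le_of_dvd two_pos (hp.dvd_of_dvd_pow hd)
      have := mem_range.1 hi
      omega
  · intro R _ U y h
    let A := MvPolynomial (Fin 2) ℤ
    let U0 : A[X] := C (MvPolynomial.X 0)
    let y0 : A[X] := C (MvPolynomial.X 1)
    have h0 := cube_bin (R := A[X]) k U0 y0 X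
    rw [hsg A[X] fun b s => U0 + y0 * ((s : A[X]) + if b then 0 else X),
      hsg A[X] fun b s => U0 + y0 * ((s : A[X]) + if b then X else 0)] at h0
    obtain ⟨W1, hW⟩ := h0
    have hX : (X : A[X]) ∣ y0 ^ (k + 2) * W1 := by
      rw [← hW, X_dvd_iff, coeff_zero_eq_eval_zero]
      simp [eval_prod, apply_ite (eval (0 : A))]
    have hX' : (X : A[X]) ∣ W1 := by
      rcases prime_X.dvd_or_dvd hX with h1 | h1
      · have := X_dvd_iff.1 (prime_X.dvd_of_dvd_pow h1)
        rw [coeff_C_zero] at this
        exact absurd this (MvPolynomial.X_ne_zero _)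
      · exact h1
    obtain ⟨W2, rfl⟩ := hX'
    let ph : A[X] →+* R := eval₂RingHom (MvPolynomial.eval₂Hom (Int.castRingHom R) ![U, y]) h
    have hU : ph U0 = U := (eval₂_C _ _).trans (MvPolynomial.eval₂Hom_X' _ _ 0)
    have hy : ph y0 = y := (eval₂_C _ _).trans (MvPolynomial.eval₂Hom_X' _ _ 1)
    have hh : ph X = h := by simp [ph]
    have h1 := congrArg ph hW
    simp only [map_add, map_sub, map_mul, map_pow, map_prod, map_natCast, hU, hy, hh,
      apply_ite ph, map_zero] at h1
    refine ⟨-ph W2, ?_⟩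
    rw [Int.cast_natCast]
    linear_combination -h1

end Pool.Agent.MT
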