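import Pool.Agent.Lib.MP_d61fbb_ag.MT.EDefs

/-! The extrapolation over all levels: statements. -/

set_option autoImplicit false

noncomputable section

namespace Pool.Agent.MT

open NumberField Ideal

/-- the norm of a family of ideals -/
def nLev {κ : Type} [Fintype κ] {E : κ → Type} [∀ k, Field (E k)] [∀ k, NumberField (E k)]
    (D : ∀ k, Ideal (𝓞 (E k))) : ℕ := ∏ k, absNorm (D k)

/-- `β / a` lies in the class of `w` modulo `m`, up to elements fixed by the conjugation -/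
def Near {E : Type} [Field E] [NumberField E] (cj : 𝓞 E ≃+* 𝓞 E) (f m : ℕ) (w a β : 𝓞 E) : Prop :=
  ∃ c c' : 𝓞 E, cj c = c ∧ cj c' = c' ∧ (f : 𝓞 E) ∣ c - 1 ∧ (f : 𝓞 E) ∣ c' - 1 ∧
    (m : 𝓞 E) ∣ β * c' - w * a * c

/-- Points with levels, Galois orbits, alignment, partners, zeros and `v`-adic sizes.  The level
is one ideal in each of the fields `E k`. -/
structure WSys {κ : Type} [Fintype κ] (E : κ → Type) [∀ k, Field (E k)] [∀ k, NumberField (E k)]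
    (cj : ∀ k, 𝓞 (E k) ≃+* 𝓞 (E k)) (f p c₀ : ℕ) (t c : ℝ) (X₀ : ℕ) (Γ X : Type) [Group Γ]
    [MulAction Γ X] where
  lev : X → ∀ k, Ideal (𝓞 (E k))
  orb : X → Finset X
  Al : X → ∀ k, Ideal (𝓞 (E k)) → Prop
  Par : ∀ k, 𝓞 (E k) → 𝓞 (E k) → X → X → Prop
  Z : X → Prop
  sz : X → ℝ
  sz_nonneg : ∀ x, 0 ≤ sz x
  sz_le : ∀ x, sz x ≤ 1
  mem_orb : ∀ x y, y ∈ orb x ↔ ∃ σ : Γ, σ • x = y
  lev_cop : ∀ x k, (absNorm (lev x k)).Coprime f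
  lev_cj : ∀ x k, (lev x k).map (cj k) = lev x k
  lev_smul : ∀ (σ : Γ) x, lev (σ • x) = lev x
  densA : ∀ x k (P : Ideal (𝓞 (E k))) (r : ℕ), P.IsMaximal → 1 ≤ r → P ^ (2 * r - 1) ∣ lev x k →
    ∃ (H : Subgroup Γ) (g : Γ), H.index ≠ 0 ∧ H.index ≤ absNorm (P ^ r) ^ c₀ ∧
      ∀ σ, g⁻¹ * σ ∈ H → Al (σ • x) k (P ^ r)
  densB : ∀ x k (G : Finset (Ideal (𝓞 (E k)))), (∀ P ∈ G, (absNorm P).Prime ∧ P ∣ lev x k) →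
    (∀ P ∈ G, ∀ Q ∈ G, absNorm P = absNorm Q → P = Q) →
    ∃ (H : Ideal (𝓞 (E k)) → Subgroup Γ) (g : Ideal (𝓞 (E k)) → Γ),
      (∀ P ∈ G, (H P).index ≠ 0 ∧ (H P).index ≤ 2 * absNorm P) ∧
      (∀ τ : Ideal (𝓞 (E k)) → Γ, ∃ σ, ∀ P ∈ G, (τ P)⁻¹ * σ ∈ H P) ∧
      ∀ S ⊆ G, ∀ σ, (∀ P ∈ S, (g P)⁻¹ * σ ∈ H P) → Al (σ • x) k (∏ P ∈ S, P)
  move : ∀ x k A B a β, Al x k A → Mv f A B a β → ∃ y, Par k a β x y ∧
    lev y k * (A * A.map (cj k)) = lev x k * (B * B.map (cj k)) ∧ ∀ k', k' ≠ k → lev y k' = lev x k'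
  interp : ∀ x k (r : ℕ), (∀ w : 𝓞 (E k), (f : 𝓞 (E k)) ∣ w - 1 →
    ∃ a β y, Par k a β x y ∧ Z y ∧ Near (cj k) f (f * p ^ r) w a β) → sz x ≤ t ^ p ^ r
  liou : ∀ x, X₀ ≤ nLev (lev x) → ¬ Z x →
    1 ≤ ((nLev (lev x) : ℝ) ^ (c * Nat.log 2 (nLev (lev x)))) ^ (orb x).card * ∏ y ∈ orb x, sz y

/-- The extrapolation: zeros up to level `X₀` give zeros at every level. -/
def WInd : Prop :=
  ∀ c₀ d : ℕ, ∃ J : ℕ, ∀ (κ : Type) [Fintype κ] (E : κ → Type) [∀ k, Field (E k)]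
    [∀ k, NumberField (E k)] (cj : ∀ k, 𝓞 (E k) ≃+* 𝓞 (E k)) (f p : ℕ) (t c : ℝ),
    (∀ k, Module.finrank ℚ (E k) ≤ d) → (∀ k x, cj k (cj k x) = x) → p.Prime → J < p → p ∣ f →
    f ≠ 0 → 0 < t → t < 1 → ∃ X₁ : ℕ, ∀ X₀, X₁ ≤ X₀ → ∀ (Γ X : Type) [Group Γ] [MulAction Γ X]
      (S : WSys E cj f p c₀ t c X₀ Γ X),
      (∀ x, nLev (S.lev x) ≤ X₀ → S.Z x) → ∀ x, S.Z x

end Pool.Agent.MT
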