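import Pool.Agent.Lib.MP_d61fbb_ag.MW.WCov2
import Pool.Agent.Lib.MP_d61fbb_ag.MW.WCube
import Pool.Agent.Lib.MP_d61fbb_ag.MW.WDefs
import Pool.Agent.Lib.MP_d61fbb_ag.MT.EIdl

/-! COVER, part 3: every class modulo `f p ^ (J t)` is a quotient of products of small integers. -/

namespace Pool.Agent.MT

open Finset NumberField Module

theorem wc_prod_sub {R κ : Type*} [CommRing R] (y : R) (s : Finset κ) (g g' : κ → R)
    (h : ∀ i ∈ s, y ∣ g i - g' i) : y ∣ ∏ i ∈ s, g i - ∏ i ∈ s, g' i := by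
  simp only [← Ideal.mem_span_singleton, ← Ideal.Quotient.eq, map_prod] at h ⊢
  exact Finset.prod_congr rfl h

theorem wc_alg {R : Type*} [CommRing R] {f' q w M b δ U₀ x h P N c W : R} {k e : ℕ}
    (hb : b - w * M = f' * q ^ (k + 1) * δ)
    (hP : P = N + (f' * q) ^ (k + 1) * h * (c * (U₀ + f' * q * x) ^ e + f' * q * W))
    (h1 : f' * q ∣ P - U₀ ^ (e + (k + 1)))
    (h2 : q ∣ w * M * f' ^ k * c * h + δ * U₀ ^ (k + 1)) :
    f' * q ^ (k + 1 + 1) ∣ b * P - w * (M * N) := by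
  obtain ⟨a1, e1⟩ := h1
  obtain ⟨a2, e2⟩ := h2
  obtain ⟨a3, e3⟩ := sub_dvd_pow_sub_pow (U₀ + f' * q * x) U₀ e
  refine ⟨δ * f' * a1 + U₀ ^ e * a2 + w * M * f' ^ k * h * (c * f' * x * a3 + f' * W), ?_⟩
  linear_combination P * hb + w * M * hP + f' * q ^ (k + 1) * δ * e1 +
    f' * q ^ (k + 1) * U₀ ^ e * e2 + f' * q ^ (k + 1) * w * M * f' ^ k * h * c * e3

variable {E : Type} [Field E] [NumberField E]

theorem WGood.mono {Hv : Finset (Ideal (𝓞 E))} {L L' : ℝ} {B : Ideal (𝓞 E)} (h : WGood Hv L B)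
    (hL : L ≤ L') : WGood Hv L' B :=
  ⟨h.1, fun Q hQ v hv hd => ⟨(h.2 Q hQ v hv hd).1, (h.2 Q hQ v hv hd).2.trans hL⟩⟩

theorem wgood_one (Hv : Finset (Ideal (𝓞 E))) (L : ℝ) : WGood Hv L 1 :=
  ⟨one_ne_zero, fun Q hQ _ hv hd => (hQ.not_dvd_one ((dvd_pow_self Q hv.ne').trans hd)).elim⟩

section
variable {ι : Type*} [Fintype ι] [DecidableEq ι] (b : Basis ι ℤ (𝓞 E))

omit [NumberField E] in
theorem wc_solve {q : ℕ} (hq : q ≠ 0) {G : 𝓞 E} (hG : IsCoprime G (q : 𝓞 E)) (z : 𝓞 E) :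
    ∃ r ∈ wres b q, (q : 𝓞 E) ∣ G * r + z := by
  obtain ⟨u, v, e⟩ := hG
  obtain ⟨r, hr, a, ha⟩ := wres_cover b hq (-(z * u))
  exact ⟨r, hr, z * v - G * a, by linear_combination (-G) * ha - z * e⟩

theorem wadm_of {f n K : ℕ} (hf : f ≠ 0) {ρ : 𝓞 E → 𝓞 E} {w : 𝓞 E}
    (hw : IsCoprime w (f : 𝓞 E)) (hn : IsCoprime w (n : 𝓞 E))
    (h1 : ∀ c ∈ wres b n, WSz b (ρ c) (K * n ^ 2))
    (h2 : ∀ c, ((f * n : ℕ) : 𝓞 E) ∣ ρ c - w * (1 + f * c)) : WAdm b f n K ρ := by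
  refine ⟨fun c hc => ⟨h1 c hc, ?_⟩, fun c hc c' hc' e => wres_inj b hc hc' ?_⟩
  · obtain ⟨a, ha⟩ := h2 c
    have : ρ c = w + f * (w * c + n * a) := by push_cast at ha; linear_combination ha
    rw [this]
    exact hw.add_mul_left_left _
  · have h3 := dvd_add (dvd_sub e (h2 c)) (h2 c')
    have h4 : ρ c - ρ c' - (ρ c - w * (1 + f * c)) + (ρ c' - w * (1 + f * c')) =
        f * (w * (c - c')) := by ring
    rw [h4, Nat.cast_mul, mul_dvd_mul_iff_left (Nat.cast_ne_zero.2 hf)] at h3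
    exact hn.symm.dvd_of_dvd_mul_left h3

end

variable (E)

theorem cover_core (p f J : ℕ) (hp : p.Prime) (hJ : J < p) (hpf : p ∣ f) (hf : f ≠ 0) :
    ∃ C : ℝ, 1 ≤ C ∧ ∀ ε : ℝ, 0 < ε → ∃ t₀ : ℕ, ∀ t, t₀ ≤ t →
      ∀ Hv : Finset (Ideal (𝓞 E)), (∀ Q ∈ Hv, Prime Q) → ∀ w : 𝓞 E, IsCoprime w (f : 𝓞 E) →
      ∃ (b M : 𝓞 E) (Bb Bg : Ideal (𝓞 E)), (f : 𝓞 E) ∣ M - 1 ∧
        ((f * p ^ (J * t) : ℕ) : 𝓞 E) ∣ b - w * M ∧ Ideal.span {b * M} = Bb * Bg ∧ Bb ≠ 0 ∧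
        WGood Hv (C + 4 * finrank ℚ E * t * Real.log p) Bg ∧ lN Bb ≤ C * wlam Hv + ε * t ∧
        lN Bg ≤ 2 ^ J * (C + 4 * finrank ℚ E * t * Real.log p) := by
  classical
  let β := RingOfIntegers.basis E
  have f2 : 2 ≤ f := hp.two_le.trans (Nat.le_of_dvd (Nat.pos_of_ne_zero hf) hpf)
  obtain ⟨c₀, f', hf', hfe⟩ := Nat.exists_eq_pow_mul_and_not_dvd hf p hp.ne_one
  obtain ⟨K₁, hK₁⟩ := exists_wsz β (1 : 𝓞 E)
  obtain ⟨C, hC1, hC⟩ := wc_step2 β f (K₁ + f + f * f) (2 ^ J) f2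
  set d := finrank ℚ E with hd
  have J0 : (0 : ℝ) ≤ J := Nat.cast_nonneg _
  have lp : 0 ≤ Real.log p := Real.log_natCast_nonneg _
  refine ⟨2 * (J + 1) * C, by nlinarith, fun ε hε => ?_⟩
  set G : ℝ := (J + 1) * C * 2 ^ (J + 1) * (2 * d * Real.log p) with hG
  have G0 : 0 ≤ G := by positivity
  set Z : ℝ := 2 * (G + 1) / ε with hZ
  have Z0 : 0 < Z := by positivity
  obtain ⟨F, hF0, hF⟩ := hC Z Z0
  refine ⟨⌈2 * ((J + 1) * C * (F + 2 ^ (J + 1) * C / Z)) / ε⌉₊, fun t ht Hv hHv w hw => ?_⟩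
  set n := p ^ t with hn
  set q := p ^ c₀ * n with hq
  have n0 : n ≠ 0 := pow_ne_zero _ hp.ne_zero
  have q0 : q ≠ 0 := mul_ne_zero (pow_ne_zero _ hp.ne_zero) n0
  have nn : n ≤ n ^ 2 := Nat.le_self_pow two_ne_zero n
  have n1 : 1 ≤ n ^ 2 := Nat.one_le_iff_ne_zero.2 (pow_ne_zero _ n0)
  have hnt : n ∣ f ^ t := pow_dvd_pow_of_dvd hpf t
  have hy : ((f * n : ℕ) : 𝓞 E) = f' * q := by
    rw [← Nat.cast_mul, hq]; congr 1; rw [hfe]; ring
  have qf : q ≤ f * n := Nat.mul_le_mul_right _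
    (Nat.le_of_dvd (Nat.pos_of_ne_zero hf) ⟨f', hfe⟩)
  have cp : ∀ z : 𝓞 E, IsCoprime z (p : 𝓞 E) → IsCoprime z (n : 𝓞 E) ∧ IsCoprime z (q : 𝓞 E) := by
    intro z hz
    have h1 : IsCoprime z (n : 𝓞 E) := by rw [hn, Nat.cast_pow]; exact hz.pow_right
    refine ⟨h1, ?_⟩
    rw [hq, Nat.cast_mul, Nat.cast_pow]
    exact hz.pow_right.mul_right h1
  have cf : ∀ z : 𝓞 E, IsCoprime z (f : 𝓞 E) → IsCoprime z (p : 𝓞 E) := fun z hz =>
    hz.of_isCoprime_of_dvd_right (Nat.cast_dvd_cast hpf)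
  set L := C + 2 * d * Real.log n with hL
  have L0 : 0 ≤ L := by
    have := Real.log_natCast_nonneg n
    positivity
  have sz0 : ∀ c ∈ wres β n, WSz β (1 + f * c) (K₁ + f * n) := fun c hc =>
    hK₁.add ((wsz_wres β hc).mul f)
  have ad0 : WAdm β f n (K₁ + f + f * f) fun c => 1 + f * c :=
    wadm_of β hf isCoprime_one_left isCoprime_one_left
      (fun c hc => (sz0 c hc).mono (by nlinarith [Nat.zero_le (f * f * n ^ 2)])) (by simp)
  set X := C * (wlam Hv + F + 2 ^ (J + 1) * L / Z) with hX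
  have hl := wlam_nonneg Hv
  have hXle : ∀ B : Ideal (𝓞 E), lN B ≤ 2 ^ (J + 1) * L → C * (wlam Hv + F + lN B / Z) ≤ X :=
    fun B hB => by rw [hX]; gcongr
  have main : ∀ i ≤ J, ∃ (b M : 𝓞 E) (Bb Bg : Ideal (𝓞 E)), (f : 𝓞 E) ∣ M - 1 ∧
      (f' : 𝓞 E) * (q : 𝓞 E) ^ (i + 1) ∣ b - w * M ∧ Ideal.span {b * M} = Bb * Bg ∧ Bb ≠ 0 ∧
      WGood Hv (2 * L) Bg ∧ lN Bb ≤ (i + 1) * X ∧ lN Bg ≤ 2 ^ (i + 1) * L := by
    intro i
    induction i with
    | zero =>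
      intro _
      choose r hr1 hr2 using fun c : 𝓞 E =>
        wres_cover β (mul_ne_zero hf n0) (w * (1 + f * c))
      have ad : WAdm β f n (K₁ + f + f * f) r := wadm_of β hf hw (cp w (cf w hw)).1
        (fun c _ => (wsz_wres β (hr1 c)).mono (by
          nlinarith [Nat.zero_le (f * f * n ^ 2), Nat.zero_le (K₁ * n ^ 2)]))
        (fun c => dvd_sub_comm.1 (hr2 c))
      obtain ⟨c, -, x, Ib, Ig, h1, h2, h3, h4, h5⟩ := hF n t n0 hnt 1 Nat.one_le_two_pow _ _ ad0 ad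
        Hv hHv 1 (wgood_one _ _)
      rw [one_mul] at h3
      refine ⟨r c + ((f * n : ℕ) : 𝓞 E) * x, 1 + f * c + ((f * n : ℕ) : 𝓞 E) * x, Ib, Ig,
        ⟨c + n * x, by push_cast; ring⟩, ?_, ?_, h2, h3, ?_, ?_⟩
      · obtain ⟨a, ha⟩ := hr2 c
        rw [zero_add, pow_one, ← hy]
        exact ⟨x - w * x - a, by linear_combination (-1 : 𝓞 E) * ha⟩
      · rw [← h1, wI, prod_range_one, prod_range_one, Ideal.span_singleton_mul_span_singleton]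
        congr 2
        push_cast; ring
      · rw [Nat.cast_zero, zero_add, one_mul]
        exact h4.trans (hXle 1 (by rw [lN_one]; positivity))
      · simpa using h5
    | succ k ih =>
      intro hk
      obtain ⟨b, M, Bb, Bg, hM, ⟨δ, hδ⟩, hsp, hBb, hBg, l1, l2⟩ := ih (by omega)
      obtain ⟨sg, cc, e, he, hcc, hcube⟩ := wc_cube k
      have cM : IsCoprime M (f : 𝓞 E) := by
        obtain ⟨a, ha⟩ := hM
        exact ⟨1, -a, by linear_combination ha⟩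
      have c1 : IsCoprime (f' : 𝓞 E) (p : 𝓞 E) :=
        Nat.Coprime.cast ((Nat.Prime.coprime_iff_not_dvd hp).2 hf').symm
      have c2 : IsCoprime (cc : 𝓞 E) (p : 𝓞 E) := by
        have := ((Nat.prime_iff_prime_int.1 hp).irreducible.coprime_iff_not_dvd.2
          (hcc p hp (by omega))).symm.map (Int.castRingHom (𝓞 E))
        simpa using this
      have cG := (cp _ ((((cf w hw).mul_left (cf M cM)).mul_left
        (c1.pow_left (m := k))).mul_left c2)).2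
      choose h hh1 hh2 using fun c : 𝓞 E => wc_solve β q0 cG (δ * (1 + f * c) ^ (k + 1))
      have ad : WAdm β f n (K₁ + f + f * f) fun c => 1 + f * c + ((f * n : ℕ) : 𝓞 E) * h c :=
        wadm_of β hf isCoprime_one_left isCoprime_one_left
          (fun c hc => ((sz0 c hc).add (((wsz_wres β (hh1 c)).mono qf).mul (f * n))).mono
            (by nlinarith)) (by simp)
      have k2 : (2 : ℝ) ^ (k + 1) ≤ 2 ^ (J + 1) := pow_le_pow_right₀ one_le_two (by omega)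
      obtain ⟨c, -, x, Ib, Ig, h1, h2, h3, h4, h5⟩ := hF n t n0 hnt (2 ^ k)
        (Nat.pow_le_pow_right two_pos (by omega)) _ _ ad0 ad Hv hHv Bg hBg
      obtain ⟨W, hW⟩ := hcube (𝓞 E) (1 + f * c + ((f * n : ℕ) : 𝓞 E) * x) ((f * n : ℕ) : 𝓞 E) (h c)
      set y : 𝓞 E := ((f * n : ℕ) : 𝓞 E) with hy'
      set P := ∏ s ∈ range (2 ^ k), (1 + f * c + y * x + y * ((s : 𝓞 E) + if sg s then h c else 0))
        with hP
      set N := ∏ s ∈ range (2 ^ k), (1 + f * c + y * x + y * ((s : 𝓞 E) + if sg s then 0 else h c))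
        with hN
      have hIg : Ig ≠ 0 := right_ne_zero_of_mul h3.1
      refine ⟨b * P, M * N, Bb * Ib, Bg * Ig, ?_, ?_, ?_, mul_ne_zero hBb h2, h3, ?_, ?_⟩
      · have h6 : (f : 𝓞 E) ∣ N - ∏ _s ∈ range (2 ^ k), (1 : 𝓞 E) :=
          wc_prod_sub _ _ _ _ fun s _ =>
            ⟨c + n * x + n * ((s : 𝓞 E) + if sg s then 0 else h c), by rw [hy']; push_cast; ring⟩
        rw [Finset.prod_const_one] at h6
        have h7 := dvd_add (hM.mul_right N) h6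
        rwa [show (M - 1) * N + (N - 1) = M * N - 1 by ring] at h7
      · have h6 : y ∣ P - ∏ _s ∈ range (2 ^ k), (1 + (f : 𝓞 E) * c) :=
          wc_prod_sub _ _ _ _ fun s _ => ⟨x + ((s : 𝓞 E) + if sg s then h c else 0), by ring⟩
        rw [Finset.prod_const, card_range, he, hy] at h6
        rw [hy] at hW
        exact wc_alg hδ hW h6 (hh2 c)
      · have h6 : P * N = (∏ s ∈ range (2 ^ k), (1 + f * c + y * x + y * (s : 𝓞 E))) *
            ∏ s ∈ range (2 ^ k), (1 + f * c + y * h c + y * x + y * (s : 𝓞 E)) := by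
          rw [hP, hN, ← Finset.prod_mul_distrib, ← Finset.prod_mul_distrib]
          refine Finset.prod_congr rfl fun s _ => ?_
          split_ifs <;> ring
        rw [wI, Ideal.prod_span_singleton, Ideal.prod_span_singleton,
          Ideal.span_singleton_mul_span_singleton, ← h6] at h1
        rw [show b * P * (M * N) = b * M * (P * N) by ring,
          ← Ideal.span_singleton_mul_span_singleton, hsp, h1]
        ring
      · rw [lN_mul hBb h2]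
        have := h4.trans (hXle Bg (l2.trans (mul_le_mul_of_nonneg_right k2 L0)))
        push_cast
        linarith
      · rw [lN_mul hBg.1 hIg]
        push_cast at h5
        rw [pow_succ (2 : ℝ) (k + 1)]
        rw [pow_succ] at l2 ⊢
        linarith
  obtain ⟨b, M, Bb, Bg, hM, hb, hsp, hBb, hBg, l1, l2⟩ := main J le_rfl
  have hLe : L = C + 2 * d * (t * Real.log p) := by rw [hL, hn, Nat.cast_pow, Real.log_pow]
  have hL2 : 2 * L ≤ 2 * (J + 1) * C + 4 * d * t * Real.log p := by rw [hLe]; nlinarith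
  refine ⟨b, M, Bb, Bg, hM, dvd_trans ?_ hb, hsp, hBb, hBg.mono hL2, l1.trans ?_, l2.trans ?_⟩
  · rw [← Nat.cast_pow, ← Nat.cast_mul]
    refine Nat.cast_dvd_cast ⟨p ^ (c₀ * J) * p ^ t, ?_⟩
    rw [hq, hn, hfe]; ring
  · have t0 : (0 : ℝ) ≤ t := Nat.cast_nonneg _
    have h1 : 2 * ((J + 1) * C * (F + 2 ^ (J + 1) * C / Z)) ≤ t * ε :=
      (div_le_iff₀ hε).1 ((Nat.le_ceil _).trans (by exact_mod_cast ht))
    have h2 : G / Z ≤ ε / 2 := by
      rw [div_le_iff₀ Z0, hZ]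
      have : ε / 2 * (2 * (G + 1) / ε) = G + 1 := by field_simp
      linarith
    have h3 : (J + 1) * X = (J + 1) * C * wlam Hv + (J + 1) * C * (F + 2 ^ (J + 1) * C / Z) +
        G / Z * t := by rw [hX, hLe, hG]; ring
    have h4 := mul_le_mul_of_nonneg_right h2 t0
    have h5 : 0 ≤ (J + 1) * C * wlam Hv := by positivity
    rw [h3]
    linarith
  · rw [pow_succ, mul_assoc]
    exact mul_le_mul_of_nonneg_left hL2 (by positivity)

/-- COVER in the form of moves. -/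
theorem cover_mv (cj : 𝓞 E ≃+* 𝓞 E) (hcj : ∀ x, cj (cj x) = x) (p f J : ℕ) (hp : p.Prime)
    (hJ : J < p) (hpf : p ∣ f) (hf : f ≠ 0) :
    ∃ C : ℝ, 1 ≤ C ∧ ∀ ε : ℝ, 0 < ε → ∃ t₀ : ℕ, ∀ t, t₀ ≤ t →
      ∀ A : Ideal (𝓞 E), (Ideal.absNorm A).Coprime f →
      ∀ Hv : Finset (Ideal (𝓞 E)), (∀ Q ∈ Hv, Prime Q) → ∀ w : 𝓞 E, (f : 𝓞 E) ∣ w - 1 →
      ∃ (a β : 𝓞 E) (B Bb Bg : Ideal (𝓞 E)), Mv f A B a β ∧ Near cj f (f * p ^ (J * t)) w a β ∧
        B * B.map cj = (Bb * Bg) * (Bb * Bg).map cj ∧ Bb ≠ 0 ∧ Bg ≠ 0 ∧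
        lN Bb ≤ C * wlam Hv + ε * t ∧
        lN Bg ≤ 2 ^ J * (C + 4 * finrank ℚ E * t * Real.log p) ∧
        ∀ Q, Prime Q → ∀ v : ℕ, 0 < v → Q ^ v ∣ Bg →
          Q ∉ Hv ∧ v * lN Q ≤ C + 4 * finrank ℚ E * t * Real.log p := by
  obtain ⟨C, hC1, hC⟩ := cover_core E p f J hp hJ hpf hf
  obtain ⟨n₀, n0, hn, hmu⟩ := exists_multipliers E f hf
  have f2 : 2 ≤ f := hp.two_le.trans (Nat.le_of_dvd (Nat.pos_of_ne_zero hf) hpf)
  set n₁ := n₀ ^ f.totient with hn₁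
  have h1 : (f : 𝓞 E) ∣ (n₁ : 𝓞 E) - 1 := by
    have := (Nat.modEq_iff_dvd' (Nat.one_le_iff_ne_zero.2 (pow_ne_zero _ n0))).1
      (Nat.ModEq.pow_totient hn).symm
    have h2 := Nat.cast_dvd_cast (α := 𝓞 E) this
    rwa [Nat.cast_sub (Nat.one_le_iff_ne_zero.2 (pow_ne_zero _ n0)), Nat.cast_one] at h2
  have hs1 : (Ideal.span {(n₁ : 𝓞 E)} : Ideal (𝓞 E)) ≠ 0 :=
    wc_span_ne (Nat.cast_ne_zero.2 (pow_ne_zero _ n0))
  refine ⟨C, hC1, fun ε hε => ?_⟩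
  obtain ⟨t₀, ht₀⟩ := hC (ε / 2) (by positivity)
  refine ⟨max t₀ ⌈2 * lN (Ideal.span {(n₁ : 𝓞 E)}) / ε⌉₊, fun t ht A hA Hv hHv w hw => ?_⟩
  have A0 : A ≠ 0 := fun e => by
    rw [e, map_zero, Nat.coprime_zero_left] at hA
    omega
  obtain ⟨c, a, hac, hc⟩ := hmu A A0
  have ca : IsCoprime a (f : 𝓞 E) := by
    have h2 : (Ideal.absNorm (Ideal.span {a})).Coprime f := by
      rw [← hac, map_mul]
      exact Nat.Coprime.mul_left hA (hn.coprime_dvd_left hc)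
    exact (Nat.Coprime.cast h2).of_isCoprime_of_dvd_left
      (Ideal.mem_span_singleton.1 (Ideal.absNorm_mem _))
  have cw : IsCoprime w (f : 𝓞 E) := by
    obtain ⟨u, hu⟩ := hw
    exact ⟨1, -u, by linear_combination hu⟩
  obtain ⟨c₂, hc₂⟩ : c ∣ Ideal.span {(n₁ : 𝓞 E)} := by
    refine Ideal.dvd_span_singleton.2 ?_
    obtain ⟨u, hu⟩ := hc.trans (dvd_pow_self n₀ (Nat.totient_pos.2 (Nat.pos_of_ne_zero hf)).ne')
    rw [hn₁, hu, Nat.cast_mul]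
    exact c.mul_mem_right _ (Ideal.absNorm_mem c)
  obtain ⟨b, M, Bb, Bg, hM, hb, hsp, hBb, hBg, l1, l2⟩ :=
    ht₀ t ((le_max_left _ _).trans ht) Hv hHv (w * a) (cw.mul_left ca)
  have hM' : (f : 𝓞 E) ∣ cj M - 1 := by simpa using map_dvd cj hM
  have c20 : c₂ ≠ 0 := right_ne_zero_of_mul (hc₂ ▸ hs1)
  have hmul : ∀ {u v : 𝓞 E}, (f : 𝓞 E) ∣ u - 1 → (f : 𝓞 E) ∣ v - 1 → (f : 𝓞 E) ∣ u * v - 1 :=
    fun {u v} hu hv => by
      have := dvd_add (hu.mul_right v) hv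
      rwa [show (u - 1) * v + (v - 1) = u * v - 1 by ring] at this
  refine ⟨a, n₁ * (b * cj M), c₂ * Ideal.span {b * cj M}, c₂ * Bb, Bg,
    ⟨wc_ne_of_cop f2 ca, ca, ?_, ?_⟩, ⟨n₁ * (M * cj M), 1, ?_, map_one _, hmul h1 (hmul hM hM'),
      by simp, ?_⟩, ?_, mul_ne_zero c20 hBb, hBg.1, ?_, l2, hBg.2⟩
  · have h2 : (f : 𝓞 E) ∣ b - w * a * M :=
      (Nat.cast_dvd_cast (Dvd.intro _ rfl)).trans hb
    have h3 := dvd_add (h2.mul_left (n₁ * cj M)) ((hmul (hmul h1 hM') (hmul hw hM)).mul_left a)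
    rwa [show (n₁ : 𝓞 E) * cj M * (b - w * a * M) + a * (n₁ * cj M * (w * M) - 1) =
      n₁ * (b * cj M) - a by ring] at h3
  · rw [← Ideal.span_singleton_mul_span_singleton, hc₂, ← hac]; ring
  · rw [map_mul, map_mul, hcj, map_natCast]; ring
  · have h3 := hb.mul_left (n₁ * cj M)
    rwa [show (n₁ : 𝓞 E) * cj M * (b - w * a * M) =
      n₁ * (b * cj M) * 1 - w * a * (n₁ * (M * cj M)) by ring] at h3
  · rw [mul_assoc c₂ Bb, ← hsp, Ideal.map_mul, Ideal.map_mul, Ideal.map_span, Ideal.map_span,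
      Set.image_singleton, Set.image_singleton, mul_mul_mul_comm c₂,
      mul_mul_mul_comm c₂ (Ideal.span {b * M}),
      Ideal.span_singleton_mul_span_singleton, Ideal.span_singleton_mul_span_singleton,
      map_mul, map_mul, hcj]
    congr 3; ring
  · have h2 := lN_le_of_dvd hs1 ⟨c, hc₂.trans (mul_comm _ _)⟩
    have h3 : 2 * lN (Ideal.span {(n₁ : 𝓞 E)}) ≤ t * ε :=
      (div_le_iff₀ hε).1 ((Nat.le_ceil _).trans (by exact_mod_cast (le_max_right _ _).trans ht))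
    rw [lN_mul c20 hBb]
    linarith

end Pool.Agent.MT
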