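import Pool.Agent.Lib.MP_d61fbb_ag.MW.W2I
import Pool.Agent.Lib.MP_d61fbb_ag.MW.W2M
import Pool.Agent.Lib.MP_d61fbb_ag.MW.WCov3

/-! Block W2: one step of the extrapolation. -/

set_option autoImplicit false

open NumberField Ideal Finset

namespace Pool.Agent.MT.W2

/-- The bounds of Mertens and the selection of one prime for each norm. -/
theorem w_mer (E : Type) [Field E] [NumberField E] : ∃ C : ℝ, 1 ≤ C ∧
    (∀ (y : ℝ) (S : Finset (Ideal (𝓞 E))), 0 ≤ y →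
      (∀ Q ∈ S, Prime Q ∧ (lN Q ≤ y ∨ ¬ (absNorm Q).Prime)) → wlam S ≤ C * (1 + y)) ∧
    ∀ G : Finset (Ideal (𝓞 E)), (∀ Q ∈ G, Prime Q ∧ (absNorm Q).Prime) → ∃ G₁ ⊆ G,
      (∀ P ∈ G₁, ∀ Q ∈ G₁, absNorm P = absNorm Q → P = Q) ∧
      ∑ Q ∈ G, 1 / (absNorm Q : ℝ) ≤ C * ∑ Q ∈ G₁, 1 / (absNorm Q : ℝ) := by
  classical
  obtain ⟨C, hC0, hC⟩ := MW.mer_np E
  have hd : (1 : ℝ) ≤ Module.finrank ℚ E := by exact_mod_cast Module.finrank_pos
  refine ⟨C + 2 * Module.finrank ℚ E, by linarith, fun y S hy hS => ?_, fun G hG => ?_⟩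
  · have h1 := MW.mer_ideal hy (S.filter fun Q => (absNorm Q).Prime) fun Q hQ =>
      ⟨(hS Q (mem_filter.1 hQ).1).1,
        (hS Q (mem_filter.1 hQ).1).2.resolve_right (not_not.2 (mem_filter.1 hQ).2)⟩
    have h2 := hC (S.filter fun Q => ¬ (absNorm Q).Prime) fun Q hQ =>
      ⟨(hS Q (mem_filter.1 hQ).1).1, (mem_filter.1 hQ).2⟩
    have h3 := sum_filter_add_sum_filter_not S (fun Q => (absNorm Q).Prime)
      fun Q => MW.lN Q / absNorm Q
    change _ = wlam S at h3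
    nlinarith [mul_nonneg hC0 hy]
  · obtain ⟨G₁, h1, h2, h3⟩ := MW.mer_sel G hG
    exact ⟨G₁, h1, h2, (h3 (fun n => 1 / (n : ℝ)) fun n => by positivity).trans
      (mul_le_mul_of_nonneg_right (by linarith) (sum_nonneg fun Q _ => by positivity))⟩

theorem w_cut {ι : Type} (w : ι → ℝ) {η μ : ℝ} (hη : 0 ≤ η) (hμ : 0 ≤ μ) (G : Finset ι)
    (hw : ∀ i ∈ G, w i ≤ μ) (h : η ≤ ∑ i ∈ G, w i) :
    ∃ T ⊆ G, η ≤ ∑ i ∈ T, w i ∧ ∑ i ∈ T, w i ≤ η + μ := by
  classical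
  induction G using Finset.induction_on with
  | empty => exact ⟨∅, Subset.rfl, h, by simpa using add_nonneg hη hμ⟩
  | insert i G hi ih =>
    by_cases h1 : η ≤ ∑ j ∈ G, w j
    · obtain ⟨T, h2, h3⟩ := ih (fun j hj => hw j (mem_insert_of_mem hj)) h1
      exact ⟨T, h2.trans (subset_insert _ _), h3⟩
    · refine ⟨_, Subset.rfl, h, ?_⟩
      rw [sum_insert hi]
      linarith [hw i (mem_insert_self _ _), not_le.1 h1]

theorem w_groups {ι : Type} (w : ι → ℝ) {η μ : ℝ} (hη : 0 ≤ η) (hμ : 0 ≤ μ) (u : ℕ) :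
    ∀ G : Finset ι, (∀ i ∈ G, 0 ≤ w i ∧ w i ≤ μ) → u * (η + μ) ≤ ∑ i ∈ G, w i →
      ∃ lab : ι → ℕ, ∀ j < u, η ≤ ∑ i ∈ G with lab i = j, w i := by
  classical
  induction u with
  | zero => exact fun G _ _ => ⟨fun _ => 0, fun j hj => absurd hj (Nat.not_lt_zero j)⟩
  | succ u ih =>
    intro G hw h
    push_cast at h
    have h0 : 0 ≤ u * (η + μ) := by positivity
    obtain ⟨T, h1, h2, h3⟩ := w_cut w hη hμ G (fun i hi => (hw i hi).2) (by linarith)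
    obtain ⟨lab, h4⟩ := ih (G \ T) (fun i hi => hw i (mem_sdiff.1 hi).1)
      (by rw [sum_sdiff_eq_sub h1]; linarith)
    refine ⟨fun i => if i ∈ T then u else lab i, fun j hj => ?_⟩
    have key : ∀ S : Finset ι, S ⊆ G → (∀ i ∈ S, (if i ∈ T then u else lab i) = j) →
        ∑ i ∈ S, w i ≤ ∑ i ∈ G with (if i ∈ T then u else lab i) = j, w i := fun S a b =>
      sum_le_sum_of_subset_of_nonneg (fun i hi => mem_filter.2 ⟨a hi, b i hi⟩)
        fun i hi _ => (hw i (mem_filter.1 hi).1).1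
    rcases Nat.lt_succ_iff_lt_or_eq.1 hj with hj | rfl
    · refine (h4 j hj).trans (key _ ((filter_subset _ _).trans sdiff_subset) fun i hi => ?_)
      rw [if_neg (mem_sdiff.1 (mem_filter.1 hi).1).2, (mem_filter.1 hi).2]
    · exact h2.trans (key T h1 fun i hi => if_pos hi)

theorem w_union {ι : Type} (w : ι → ℝ) {η : ℝ} (T : Finset ι) (hw : ∀ i ∈ T, w i ≤ 1)
    (h : η ≤ ∑ i ∈ T, w i) : 1 - Real.exp (-η) ≤ 1 - ∏ i ∈ T, (1 - w i) := by
  refine sub_le_sub_left ((prod_le_prod (g := fun i => Real.exp (-w i))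
    (fun i hi => sub_nonneg.2 (hw i hi)) fun i _ => Real.one_sub_le_exp_neg _).trans ?_) 1
  rw [← Real.exp_sum, sum_neg_distrib]
  exact Real.exp_le_exp.2 (neg_le_neg h)

variable {E : Type} [Field E] [NumberField E]

theorem cm_cj (cj : 𝓞 E ≃+* 𝓞 E) {D P : Ideal (𝓞 E)} (hD : D ≠ 0) (h : D.map cj = D)
    (hP : P ∈ supp D) : P.map cj.symm ∈ supp D ∧ cm D P ≤ cm D (P.map cj.symm) := by
  obtain ⟨v, h1, h2, h3⟩ := cm_spec hD hP
  have h4 := prime_map cj.symm ((mem_supp hD).1 hP).1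
  have h5 := pow_dvd_map cj (h.symm ▸ h2)
  have h6 := cm_mono hD h5 (P.map cj.symm)
  rw [cm_pow h4, eidl_norm_map] at h6
  exact ⟨(mem_supp hD).2 ⟨h4, (dvd_pow_self _ h1.ne').trans h5⟩, h3 ▸ h6⟩

theorem w_ne {f p : ℕ} (hp : p.Prime) (hpf : p ∣ f) {D : Ideal (𝓞 E)}
    (h : (absNorm D).Coprime f) : D ≠ 0 := by
  rintro rfl
  rw [map_zero, Nat.coprime_zero_left] at h
  exact hp.one_lt.ne' (Nat.dvd_one.1 (h ▸ hpf))

/-- the choice of the depth -/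
theorem w_depth {C a : ℝ} (hC : 0 ≤ C) (ha : 1 ≤ a) (t₀ : ℕ) {M : ℝ}
    (hM : 16 * (C + a) + 16 * a * t₀ ≤ M) :
    ∃ t : ℕ, t₀ ≤ t ∧ (t : ℝ) ≤ M ∧ 8 * (C + a * t) ≤ M ∧ M ≤ 16 * (a * t) := by
  have h0 : 0 ≤ a * t₀ := by positivity
  have h1 : 0 ≤ (M / 8 - C) / a := div_nonneg (by linarith) (by linarith)
  have h2 := (le_div_iff₀' (by linarith)).1 (Nat.floor_le h1)
  have h3 := (div_lt_iff₀' (by linarith)).1 (Nat.lt_floor_add_one ((M / 8 - C) / a))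
  have h4 : (0 : ℝ) ≤ ⌊(M / 8 - C) / a⌋₊ := Nat.cast_nonneg _
  refine ⟨⌊(M / 8 - C) / a⌋₊, Nat.le_floor ((le_div_iff₀' (by linarith)).2 (by linarith)), ?_,
    by linarith, by linarith⟩
  nlinarith

theorem wStep2 : WStep2 := by
  classical
  intro c₀ d
  obtain ⟨J, hJe⟩ : ∃ J, J = 64 * d * (c₀ + 5) := ⟨_, rfl⟩
  refine ⟨J, fun E _ _ cj f p hd hcj hp hJ hpf hf => ?_⟩
  obtain ⟨C, hC, hcov⟩ := cover_mv E cj hcj p f J hp hJ hpf hf
  obtain ⟨Cm, hCm, hm1, hm2⟩ := w_mer E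
  obtain ⟨s, hs, hsW⟩ : ∃ s : ℕ, s ≠ 0 ∧ 4 * (s : ℝ) * 2 ^ J ≤ 2 ^ s := by
    refine ⟨2 * (J + 3), by omega, ?_⟩
    have h1 : 4 * (2 * (J + 3)) * 2 ^ J ≤ 2 ^ (2 * (J + 3)) := by
      have := (Nat.lt_two_pow_self (n := J + 3)).le
      calc _ = (J + 3) * 2 ^ (J + 3) := by ring
        _ ≤ 2 ^ (J + 3) * 2 ^ (J + 3) := Nat.mul_le_mul_right _ this
        _ = _ := by ring
    exact_mod_cast h1
  have s1 : (1 : ℝ) ≤ s := by exact_mod_cast Nat.pos_of_ne_zero hs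
  obtain ⟨t₀, hcov⟩ := hcov (1 / (64 * s)) (by positivity)
  obtain ⟨δ, hδ⟩ : ∃ δ : ℝ, δ = 1 / (64 * s * C) := ⟨_, rfl⟩
  have hδ0 : 0 < δ := by rw [hδ]; positivity
  obtain ⟨η, hη⟩ : ∃ η : ℝ, η = δ / (4 * Cm) := ⟨_, rfl⟩
  have hη0 : 0 < η := by rw [hη]; positivity
  obtain ⟨W, hW⟩ : ∃ W : ℝ, W = 2 + 2 ^ J := ⟨_, rfl⟩
  have hW0 : 0 ≤ W := by rw [hW]; positivity
  obtain ⟨u, hu⟩ := exists_nat_ge ((s * W * (1 + W) ^ (s - 1) + 1) / (η / 4 ^ (s - 1)))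
  rw [div_le_iff₀ (by positivity)] at hu
  obtain ⟨μ, hμ⟩ : ∃ μ : ℝ, μ = δ / (Cm * (u + 1)) := ⟨_, rfl⟩
  have hμ0 : 0 < μ := by rw [hμ]; positivity
  have he : 0 < 1 - Real.exp (-μ) := sub_pos.2 (Real.exp_lt_one_iff.2 (by linarith))
  have hl : 1 / 2 ≤ Real.log p := by
    have := Real.log_two_gt_d9
    exact le_trans (by linarith) (Real.log_le_log two_pos (by exact_mod_cast hp.two_le))
  have hd1 : (1 : ℝ) ≤ Module.finrank ℚ E := by exact_mod_cast Module.finrank_pos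
  obtain ⟨a, ha⟩ : ∃ a : ℝ, a = 4 * Module.finrank ℚ E * Real.log p := ⟨_, rfl⟩
  have ha1 : 1 ≤ a := by rw [ha]; nlinarith
  refine ⟨s, (1 - Real.exp (-μ)) ^ u,
    16 * (C + a) + 16 * a * t₀ + 4 * Cm / δ + 1 / (μ * η), hs, by positivity,
    fun D P₀ hDf hcD hP₀ hmax hM => ?_⟩
  have hD := w_ne hp hpf hDf
  obtain ⟨M, hMe⟩ : ∃ M, M = cm D P₀ := ⟨_, rfl⟩
  rw [← hMe] at hmax hM ⊢
  have k1 : 0 ≤ 4 * Cm / δ := by positivity
  have k2 : 0 ≤ 1 / (μ * η) := by positivity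
  have k3 : 0 ≤ 16 * a * t₀ := by positivity
  obtain ⟨t, ht0, ht1, ht2, ht3⟩ := w_depth (by linarith : 0 ≤ C) ha1 t₀ (M := M) (by linarith)
  have hM4 : 4 ≤ M := by linarith
  have hMs : 4 ≤ M ^ s := hM4.trans (le_self_pow₀ (by linarith) hs)
  have hL : C + 4 * Module.finrank ℚ E * t * Real.log p = C + a * t := by rw [ha]; ring
  have hat : 0 ≤ a * t := by positivity
  have hε : 1 / (64 * s) * (t : ℝ) ≤ M / (64 * s) := by
    rw [one_div, inv_mul_eq_div]; gcongr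
  replace hcov := hcov t ht0
  rw [hL] at hcov
  refine ⟨J * t, ?_, ?_⟩
  · rw [← Real.exp_log (show (0 : ℝ) < p by exact_mod_cast hp.pos), ← Real.exp_nat_mul,
      Real.exp_le_exp, hJe]
    have h1 : (Module.finrank ℚ E : ℝ) ≤ d := by exact_mod_cast hd
    have h2 : a * t ≤ 4 * d * Real.log p * t := by rw [ha]; gcongr
    push_cast
    linarith [mul_le_mul_of_nonneg_left (ht3.trans (by linarith : _ ≤ 64 * d * Real.log p * t))
      (show (0 : ℝ) ≤ c₀ + 5 by positivity)]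
  set Hv := (supp D).filter fun P => M / 4 ≤ cm D P ∧ lN P ≤ M / 8 with hHv
  have hHp : ∀ Q ∈ Hv, Prime Q := fun Q hQ => ((mem_supp hD).1 (mem_filter.1 hQ).1).1
  by_cases hlam : wlam Hv ≤ δ * M
  · obtain ⟨v, h1, h2, h3⟩ := cm_spec hD hP₀
    have hP := ((mem_supp hD).1 hP₀).1
    have h4 := lN_nonneg P₀
    have h5 : (((v + 1) / 2 : ℕ) : ℝ) ≤ v := by exact_mod_cast (by omega : (v + 1) / 2 ≤ v)
    have h6 : (v : ℝ) ≤ 2 * ((v + 1) / 2 : ℕ) := by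
      exact_mod_cast (by omega : v ≤ 2 * ((v + 1) / 2))
    rw [← hMe] at h3
    change M = v * lN P₀ at h3
    refine Or.inl ⟨(v + 1) / 2, by omega, (pow_dvd_pow _ (by omega)).trans h2,
      (mul_le_mul_of_nonneg_right h5 h4).trans h3.ge, fun w hw => ?_⟩
    obtain ⟨a', β, B, Bb, Bg, g1, g2, g3, g4, g5, g6, g7, g8⟩ := hcov (P₀ ^ ((v + 1) / 2))
      (hDf.coprime_dvd_left (map_dvd _ ((pow_dvd_pow _ (by omega)).trans h2))) Hv hHp w hw
    refine ⟨a', β, B, g1, g2, fun D' e => ?_⟩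
    have := phi_caseA cj hs (D' := D') (A := P₀ ^ ((v + 1) / 2)) Hv hD g4 g5
      (by rw [e, g3]) hmax hMe.symm (by
        rw [cm_pow hP]
        change _ ≤ _ * lN P₀
        linarith [mul_le_mul_of_nonneg_right h6 h4])
      (fun P h7 h8 h9 => ⟨mem_filter.2 ⟨h7, h8, h9.trans (by linarith)⟩,
        mem_filter.2 ⟨(cm_cj cj hD hcD h7).1, h8.trans (cm_cj cj hD hcD h7).2, by
          rw [lN, eidl_norm_map]; exact h9.trans (by linarith)⟩⟩)
      g8 (by linarith) ht2 (by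
        have h7 : C * wlam Hv ≤ M / (64 * s) := by
          refine (mul_le_mul_of_nonneg_left hlam (by linarith)).trans_eq ?_
          rw [hδ]; field_simp
        have h8 : 32 * s * (M / (64 * s) + M / (64 * s)) = M := by field_simp; ring
        exact (mul_le_mul_of_nonneg_left (g6.trans (add_le_add h7 hε)) (by positivity)).trans_eq h8)
      (by positivity) g7 hsW
    linarith
  · set G₀ := Hv.filter fun Q => ¬ (lN Q ≤ η * M ∨ ¬ (absNorm Q).Prime) with hG₀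
    have h1 := hm1 (η * M) (Hv.filter fun Q => lN Q ≤ η * M ∨ ¬ (absNorm Q).Prime) (by positivity)
      fun Q hQ => ⟨hHp Q (mem_filter.1 hQ).1, (mem_filter.1 hQ).2⟩
    have h2 : δ * M / 2 ≤ wlam G₀ := by
      have a1 := sum_filter_add_sum_filter_not Hv (fun Q => lN Q ≤ η * M ∨ ¬ (absNorm Q).Prime)
        fun Q => lN Q / absNorm Q
      change wlam _ + wlam G₀ = wlam Hv at a1
      have a2 : Cm * (η * M) = δ * M / 4 := by rw [hη]; field_simp
      have a3 : 4 * Cm ≤ M * δ := (div_le_iff₀ hδ0).1 (by linarith)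
      linarith [not_le.1 hlam]
    have hG : ∀ Q ∈ G₀, Prime Q ∧ Q ∣ D ∧ M / 4 ≤ cm D Q ∧ lN Q ≤ M / 8 ∧ η * M ≤ lN Q ∧
        (absNorm Q).Prime := fun Q hQ => by
      obtain ⟨a1, a2⟩ := mem_filter.1 hQ
      obtain ⟨a3, a4, a5⟩ := mem_filter.1 a1
      push Not at a2
      exact ⟨hHp Q a1, ((mem_supp hD).1 a3).2, a4, a5, a2.1.le, a2.2⟩
    have h3 : 4 * δ ≤ ∑ Q ∈ G₀, 1 / (absNorm Q : ℝ) := by
      have a1 : wlam G₀ ≤ M / 8 * ∑ Q ∈ G₀, 1 / (absNorm Q : ℝ) := by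
        rw [mul_sum]
        refine sum_le_sum fun Q hQ => ?_
        rw [mul_one_div]
        exact div_le_div_of_nonneg_right (hG Q hQ).2.2.2.1 (Nat.cast_nonneg _)
      exact le_of_mul_le_mul_left (by linarith) (by linarith : 0 < M / 8)
    obtain ⟨G, h4, h5, h6⟩ := hm2 G₀ fun Q hQ => ⟨(hG Q hQ).1, (hG Q hQ).2.2.2.2.2⟩
    have h7 : ∀ Q ∈ G, 0 ≤ 1 / (2 * (absNorm Q : ℝ)) ∧ 1 / (2 * (absNorm Q : ℝ)) ≤ μ :=
      fun Q hQ => by
        have a1 := hG Q (h4 hQ)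
        have a2 := wc_two_le a1.1
        have a3 : lN Q ≤ absNorm Q := (Real.log_le_sub_one_of_pos (by linarith)).trans (by linarith)
        have a4 : 1 ≤ M * (μ * η) := (div_le_iff₀ (by positivity)).1 (by linarith)
        refine ⟨by positivity, (div_le_iff₀ (by positivity)).2 ?_⟩
        linarith [mul_le_mul_of_nonneg_left (a1.2.2.2.2.1.trans a3) hμ0.le, mul_pos hμ0
          (by linarith : (0 : ℝ) < absNorm Q)]
    obtain ⟨lab, h8⟩ := w_groups (fun Q : Ideal (𝓞 E) => 1 / (2 * (absNorm Q : ℝ))) hμ0.le hμ0.le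
      u G h7 (by
        have a1 : ∑ Q ∈ G, 1 / (absNorm Q : ℝ) = 2 * ∑ Q ∈ G, 1 / (2 * (absNorm Q : ℝ)) := by
          rw [mul_sum]
          exact sum_congr rfl fun Q _ => by ring
        have a2 : Cm * ((u + 1) * μ) = δ := by rw [hμ]; field_simp
        rw [a1] at h6
        refine le_of_mul_le_mul_left ?_ (by linarith : 0 < Cm)
        linarith [mul_pos (by linarith : 0 < Cm) hμ0])
    refine Or.inr ⟨G, lab, u, fun P hP => ⟨(hG P (h4 hP)).2.2.2.2.2, (hG P (h4 hP)).2.1⟩, h5,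
      ?_, fun S hS hS' w hw => ?_⟩
    · rw [← card_range u, ← prod_const, card_range]
      refine prod_le_prod (fun _ _ => he.le) fun j hj => w_union _ _ (fun Q hQ => ?_)
        (h8 j (mem_range.1 hj))
      have := wc_two_le (hG Q (h4 (mem_filter.1 hQ).1)).1
      exact (div_le_one (by positivity)).2 (by linarith)
    obtain ⟨a', β, B, Bb, Bg, g1, g2, g3, g4, g5, g6, g7, -⟩ := hcov (∏ P ∈ S, P) (by
      rw [map_prod]
      exact Nat.Coprime.prod_left fun P hP =>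
        hDf.coprime_dvd_left (map_dvd _ (hG P (h4 (hS hP))).2.1)) ∅ (by simp) w hw
    refine ⟨a', β, B, g1, g2, fun D' e => ?_⟩
    have h9 : (u : ℝ) ≤ S.card := by
      have : range u ⊆ S.image lab := fun j hj => mem_image.2 (hS' j (mem_range.1 hj))
      exact_mod_cast (card_range u).ge.trans ((card_le_card this).trans card_image_le)
    have := phi_caseB cj hs (D' := D') (A := ∏ P ∈ S, P) (B := Bb * Bg) (W := W) (η := η) S hD
      (mul_ne_zero g4 g5) (by rw [e, g3]) (by linarith) hmax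
      (fun P hP => ⟨(hG P (h4 (hS hP))).1, dvd_prod_of_mem _ hP, (hG P (h4 (hS hP))).2.2.1,
        (hG P (h4 (hS hP))).2.2.2.2.1⟩) hW0 (by
        change 2 * lN (Bb * Bg) ≤ _
        rw [lN_mul g4 g5, hW]
        rw [wlam, sum_empty, mul_zero, zero_add] at g6
        have a1 : M / (64 * s) ≤ M := div_le_self (by linarith) (by linarith)
        have a2 : (0 : ℝ) < 2 ^ J := by positivity
        linarith [mul_le_mul_of_nonneg_left ht2 a2.le, mul_pos a2 (by linarith : 0 < M)])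
      (hu.trans (mul_le_mul_of_nonneg_right h9 (by positivity)))
    linarith

/-- The extrapolation over all levels. -/
theorem w_ind : WInd := w_ind_of wStep2

end Pool.Agent.MT.W2
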