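import Pool.Agent.Lib.MP_d61fbb_ag.MW.GTh
import Pool.Agent.Lib.MP_d61fbb_ag.MW.GCn
import Pool.Agent.Lib.MP_d61fbb_ag.MW.GW
import Pool.Agent.Lib.MP_d61fbb_ag.MW.GO2
import Pool.Agent.Lib.MP_d61fbb_ag.MW.InvA
import Pool.Agent.Lib.MP_d61fbb_ag.MW.W2S

/-! The global data of the adelic model and the relation on the orbit. -/

set_option autoImplicit false

noncomputable section

namespace Pool.Agent.MT

open Matrix Polynomial NumberField Ideal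
open Pool.Agent.Lib.MP_696deb_nt.B2 (Qbar jC)

variable [dm : Dim]

namespace Cx

variable {τ : Matrix (Fin gg) (Fin gg) ℂ} {K : IntermediateField ℚ ℂ} {e k n : ℕ}
  {M : AType τ K e k n} {EF : EndF τ (zM ℚ M.a)} {N : ℕ} {l₀ : Pr} (C : Cx M EF N l₀)

/-- zeros of partners in all classes force a small value -/
def Interp : Prop := ∀ m (r d : ℕ) (z : Fin r → ℤ) (ch : Fin r → Fin d → I2 (2 ^ N * gg) → ℤ)
  x D θ i (s : ℕ), C.Pnt x D → C.Th m x θ → (∀ y : 𝓞 (C.E i), (C.f : 𝓞 (C.E i)) ∣ y - 1 →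
    ∃ a β θ', IsCoprime a (C.f : 𝓞 (C.E i)) ∧ (C.f : 𝓞 (C.E i)) ∣ β - a ∧
      Near (C.cO i) C.f (C.f * (C.p : ℕ) ^ s) y a β ∧ C.Th m (C.nuG i (uq a β) * x) θ' ∧
        qv z ch θ' = 0) →
    szC jC (Frb.w (dm := dm.pow (2 ^ N)) C.v) (qv z ch θ) ≤ (((C.p : ℕ) : ℝ)⁻¹) ^ (C.p : ℕ) ^ s

/-- the global data -/
def glob (hI : C.Interp) : WGlob C.E C.cO K.toSubfield (I2 (2 ^ N * gg) → ℤ) C.f C.p (4 * n)
    (fun m => (l₀ : ℕ) ^ m * cnt (C.bk l₀ C.l0).KK m) ((C.p : ℕ) : ℝ)⁻¹ (ℂ ≃ₐ[K] ℂ) (GW EF) where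
  ρ := C.rho
  act := MulSemiringAction.toRingAut _ ℂ
  full := fun σ hσ => ⟨AlgEquiv.ofRingEquiv (f := σ) fun c => hσ c c.2, rfl⟩
  w := szC jC (Frb.w (dm := dm.pow (2 ^ N)) C.v)
  fin := finSize_szC jC _
  U := C.U
  ν := fun i a β => C.nuG i (uq a β)
  Pt := C.Pnt
  Bal := C.Bal
  Al := C.Al
  Th := C.Th
  pt_cop := fun _ _ i h => h.cop i
  pt_cj := fun _ _ i h => h.cj i
  pt_gal := fun _ _ σ h => h.gal σ
  bal_gal := fun _ σ h => h.gal σ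
  densA := fun _ _ i P r h => h.densA i P r
  densB := fun _ _ i G h => h.densB i G
  move := fun _ _ _ _ _ _ _ h => h.move
  bal := fun _ _ h => h.bal
  ex := C.th_ex
  int := fun _ _ _ h => h.int
  uniq := fun _ _ _ _ _ _ h => h.uniq (inv_all (dm := dm.pow (2 ^ N)))
  inv := fun _ _ _ _ hu h => h.inv hu
  gal := fun _ _ _ σ h => h.gal σ
  cnt := C.count
  interp := hI

end Cx

/-- the existence of all choices -/
def ExCx : Prop := ∀ τ, Sieg τ → ∀ (K : IntermediateField ℚ ℂ), FiniteDimensional ℚ K →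
  ee (1 / 8) ∈ K → ∀ (e k n : ℕ) (M : AType τ K e k n), ∃ B : ℕ, ∀ l : Pr, B < (l : ℕ) →
    l ∉ M.S → ∀ J : ℕ, ∃ (EF : EndF τ (zM ℚ M.a)) (N : ℕ) (C : Cx M EF N l), J < (C.p : ℕ)

theorem zlw_of (hX : ExCx) (hI : ∀ τ K e k n (M : AType τ K e k n) EF N l (C : Cx M EF N l),
    C.Interp) : ZLW := fun τ hτ K hK h8 e k n M => by
  obtain ⟨B, hB⟩ := hX τ hτ K hK h8 e k n M
  obtain ⟨J, hJ⟩ := glueW W2.w_ind (4 * n) (2 * n)
  refine ⟨B, fun l hl h => ?_⟩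
  obtain ⟨EF, N, C, hp⟩ := hB l hl h J
  have : Module.Finite ℚ K.toSubfield := hK
  have hp1 : (1 : ℝ) < (C.p : ℕ) := by exact_mod_cast C.p.2.one_lt
  refine ⟨fun e => C.l0 (e ▸ C.two_f), 2 ^ N, NeZero.ne _,
    C.hasRel (p_gh (dm := dm.pow (2 ^ N))) h fun Φ => ?_⟩
  exact hJ C.κ C.E C.cO K.toSubfield _ C.f C.p l _ _ _ _ (C.glob (hI _ _ _ _ _ _ _ _ _ C)) Φ
    C.W.rank (fun i x => Subtype.ext (C.W.cc i x)) C.p.2 hp C.p_f C.f0 (inv_pos.2 (by linarith))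
    (inv_lt_one_of_one_lt₀ hp1) l.2.two_le fun m => Nat.mul_pos (pow_pos l.2.pos m) (cnt_pos _ m)

end Pool.Agent.MT
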