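import Pool.Agent.Lib.MP_d61fbb_ag.MW.GIn
import Pool.Agent.Lib.MP_d61fbb_ag.MW.GIn0
import Pool.Agent.Lib.MP_d61fbb_ag.MW.GZ1

/-! The interpolation estimate for points. -/

set_option autoImplicit false

noncomputable section

namespace Pool.Agent.MT

open Matrix Polynomial NumberField Ideal
open Pool.Agent.Lib.MP_696deb_nt.B2 (Qbar jC)

variable [dm : Dim] {τ : Matrix (Fin gg) (Fin gg) ℂ} {K : IntermediateField ℚ ℂ} {e k n : ℕ}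
  {M : AType τ K e k n} {EF : EndF τ (zM ℚ M.a)} {N : ℕ} {l₀ : Pr} (C : Cx M EF N l₀)

theorem Cx.interp : C.Interp := by
  rintro m r d z ch x D θ i s - ⟨h1, q, F, hq, hF, hθ⟩ H
  obtain ⟨R, hR⟩ := p_reds (dm := dm.pow (2 ^ N)) _ _ _ C.B C.v
  obtain ⟨G, S, hS, hα, hG⟩ := Cx.exists_wg hR i
  rw [funext hθ]
  refine WG.sz (dm := dm.pow (2 ^ N)) (sieg_pow C.hτ) hR G hF (Cx.hh_atp h1) C.l0_ne m z ch s
    (fun j hj c hc => ?_) fun γ => ?_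
  · rw [hG] at hc ⊢
    exact gi_pow _ C.p.2 (Frb.qi_two (dm := dm.pow (2 ^ N)) C.v) C.p_f C.f0 hj hc
  · obtain ⟨y, hy, h2⟩ := gi_near (C.W.c i).toRingEquiv (C.cO i) (fun _ => rfl) C.p_f C.two_le s γ
    obtain ⟨a, β, θ', ha, hβ, hn, h3, h4⟩ := H y hy
    obtain ⟨c, hc, e1⟩ := h2 a β ha hβ hn
    obtain ⟨F', hF', e2⟩ := h3.any (inv_all (dm := dm.pow (2 ^ N))) (e1 ▸ (hS (c * γ)).mul hq)
    refine ⟨c, hG ▸ hc, F', ?_⟩
    rw [hα, Cx.al_hh, e1]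
    exact ⟨hF', (congrArg (qv z ch) (funext e2)).symm.trans h4⟩

end Pool.Agent.MT
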