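import Pool.Agent.Lib.MP_d61fbb_ag.MW.GCg

/-! The type norm in the adelic model. -/

set_option autoImplicit false

noncomputable section

namespace Pool.Agent.MT

open Matrix Polynomial NumberField Ideal
open Pool.Agent.Lib.MP_696deb_nt.B2 (Qbar jC)

variable [dm : Dim] {τ : Matrix (Fin gg) (Fin gg) ℂ} {K : IntermediateField ℚ ℂ} {e k n : ℕ}
  {M : AType τ K e k n} {EF : EndF τ (zM ℚ M.a)} {N : ℕ} {l₀ : Pr} (C : Cx M EF N l₀)

namespace Cx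

theorem two_f : 2 ∣ C.f := (Dvd.intro (8 * C.c ^ 2 * C.Del) (by ring)).trans C.cf

theorem c_f : 2 * C.c ∣ C.f := (Dvd.intro (8 * C.c * C.Del) (by ring)).trans C.cf

theorem p_f : (C.p : ℕ) ∣ C.f := (C.pc.trans (dvd_mul_left _ _)).trans C.c_f

theorem c0 : C.c ≠ 0 := fun h => C.f0 (by simpa [h] using C.c_f)

theorem two_le : 2 ≤ C.f := Nat.le_of_dvd (Nat.pos_of_ne_zero C.f0) C.two_f

theorem ne_p {l : Pr} (h : ¬ (l : ℕ) ∣ C.f) : l ≠ C.p := fun e => h (e ▸ C.p_f)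

theorem θ_cp (l : Pr) : C.θ.map (cp l) = (MW.Dd.th M C.φ C.r l).map (↑) := C.cp_θ l

theorem nuM_atp (b : ∀ i, C.E i) : (C.nuM b).map (cp C.p) = 1 := cp_offM_self _

theorem nuM_cp {l : Pr} (h : l ≠ C.p) (b : ∀ i, C.E i) : (C.nuM b).map (cp l) =
    aeval ((MW.Dd.th M C.φ C.r l).map ((↑) : ℤ_[l] → ℚ_[l])) (C.W.f b) := C.cp_nuM h b

theorem nuM_loc (l : Pr) (h : ¬ (l : ℕ) ∣ C.f) (b : ∀ i, 𝓞 (C.E i)) :
    (C.nuM fun i => b i).map (cp l) =
      ((C.bk l h).Nm ((C.W.loc l (C.good l h).1).j b)).map (↑) :=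
  (C.cp_nuM (C.ne_p h) _).trans ((C.W.loc l _).nm b).symm

omit C in
theorem cp_jq (l : Pr) (y : EF.F) : ((EF.j y).map qa).map (cp l) = jl l y := by
  ext
  simp [jl_eq]

omit C in
theorem jl_adj (l : Pr) (y : EF.F) :
    (jl l y)ᵀ * J (Fin gg) ℚ_[l] = J (Fin gg) ℚ_[l] * jl l (EF.cj y) :=
  end_adj_map (algebraMap ℚ ℚ_[l]) (EF.adj y)

theorem jl_comm {l : Pr} (h : l ≠ C.p) (y : EF.F) (q : ℚ[X]) :
    Commute (jl l y) (aeval (C.tl l) q) := by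
  obtain ⟨u, rfl⟩ := EF.gen y
  rw [jl_aeval, ← C.W.a_eq l h, ← aeval_comp]
  exact (Commute.all _ _).map _

theorem jq_comm (y : EF.F) {x : M8 AF} (h : ∀ l ≠ C.p, Commute (jl l y) (x.map (cp l))) :
    Commute ((EF.j y).map qa) (offM C.p x) := gn_mat_ext fun l => by
  rw [Matrix.map_mul, Matrix.map_mul, cp_jq]
  by_cases e : l = C.p
  · rw [e, cp_offM_self, mul_one, one_mul]
  · rw [cp_offM_ne e, h l e]

theorem nuM_comm (y : EF.F) (b : ∀ i, C.E i) : Commute ((EF.j y).map qa) (C.nuM b) :=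
  C.jq_comm y fun l h => C.cp_aeval l _ ▸ C.jl_comm h y _

theorem rho_comm (y : EF.F) (σ : ℂ ≃ₐ[K] ℂ) : Commute ((EF.j y).map qa) (C.rho σ).1.val :=
  C.jq_comm y fun l _ => EF.comm (A := ℚ_[l]) (by
    have := (M.comm σ l).map (PadicInt.Coe.ringHom (p := l)).mapMatrix
    rwa [show PadicInt.Coe.ringHom.mapMatrix (zM ℤ_[l] M.a) = (zM ℚ M.a).map (algebraMap ℚ ℚ_[l]) by
      ext; simp] at this) y

theorem rho_val (σ : ℂ ≃ₐ[K] ℂ) : (C.rho σ).1.val = offM C.p (mA (M.ρ σ)) ∧ (C.rho σ).2 = 1 :=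
  ⟨rfl, rfl⟩

theorem nuG_val (i : C.κ) (x : (C.E i)ˣ) : (C.nuG i x).1.val = C.nuM (Pi.mulSingle i x) ∧
    ((C.nuG i x).2 : EF.F) = (C.mu (Pi.mulSingle i x))⁻¹ :=
  ⟨rfl, Units.val_inv_eq_inv_val _⟩

theorem nuM_fix {b : ∀ i, C.E i} (h : ∀ i, C.W.c i (b i) = b i) :
    C.nuM b = offM C.p ((EF.j (C.fx b)).map qa) :=
  C.off_ext fun l e => by rw [cp_aeval, cp_jq, C.jl_fx e h]

theorem fx_cj {b : ∀ i, C.E i} (h : ∀ i, C.W.c i (b i) = b i) : EF.cj (C.fx b) = C.fx b :=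
  (jl l₀).injective (((isUnit_iff_isUnit_det _).2 (isUnit_det_J _ _)).mul_left_cancel (by
    rw [← jl_adj, C.jl_fx C.l0_ne h, C.W.adj _ C.l0_ne, funext h]))

theorem mu_fix {b : ∀ i, C.E i} (h : ∀ i, C.W.c i (b i) = b i) : C.mu b = C.fx b ^ 2 :=
  (jl l₀).injective (by rw [C.jl_mu C.l0_ne, funext h, map_pow, C.jl_fx C.l0_ne h, sq])

theorem mu_cj (b : ∀ i, C.E i) : EF.cj (C.mu b) = C.mu b :=
  C.fx_cj fun i => by rw [map_mul, C.W.cc, mul_comm]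

theorem mu_pos {b : ∀ i, C.E i} (h : ∀ i, b i ≠ 0) (φ : EF.F →+* ℂ) : 0 < (φ (C.mu b)).re := by
  obtain ⟨t, χ, hχ⟩ := C.W.mu_eq ℂ (φ EF.al) (by
    rw [← aeval_map_algebraMap ℚ, MW.Dd.aeval_hom, map_eq_zero]
    refine EF.j_inj ?_
    rw [EF.j_aeval, map_zero, ← charpoly_map]
    exact aeval_self_charpoly _)
  rw [mu, fx, ← MW.Dd.aeval_hom, hχ _ fun i => by rw [map_mul, C.W.cc, mul_comm]]
  simp only [map_mul, C.W.cj, Complex.mul_conj, ← Complex.ofReal_prod, Complex.ofReal_re]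
  exact Finset.prod_pos fun j _ => Complex.normSq_pos.2 ((_root_.map_ne_zero _).2 (h _))

/-- the multiplier of the type norm -/
theorem nuM_pol {l : Pr} (h : l ≠ C.p) (b : ∀ i, C.E i) (y : EF.F) :
    ((C.nuM b).map (cp l))ᵀ * J (Fin gg) ℚ_[l] * (EF.j y).map (↑) * (C.nuM b).map (cp l) =
      J (Fin gg) ℚ_[l] * (EF.j (y * C.mu b)).map (↑) := by
  rw [C.cp_nuM h, C.W.adj l h, ← jl_eq, ← jl_eq, map_mul, C.jl_mu h, mul_assoc, mul_assoc,
    ← mul_assoc _ (jl l y), ← (C.jl_comm h y _).eq, mul_assoc, ← map_mul, ← map_mul, mul_comm (C.W.f b)]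

theorem nu_cong {i : C.κ} {x : C.E i} {t : ℕ} (h : CgE C.f (C.f * t) x) :
    ∃ m : ℕ, m.Coprime C.f ∧ ∃ g : ℤ[X], EqOff C.p (m • (C.nuM (Pi.mulSingle i x) - 1))
      ((16 * C.c ^ 2 * t) • aeval C.θ g) := by
  obtain ⟨m, hm, y, hy⟩ := h
  obtain ⟨s, w, hw⟩ := C.hD
  obtain ⟨g, hg⟩ := C.W.int (fun _ => ((m : ℚ) : C.E _)) (Pi.single i y) (C.f * t : ℕ)
    (fun j => by simpa using isIntegral_natCast (R := ℤ) (B := C.E j) m) fun j => by
      by_cases hj : j = i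
      · subst hj; rw [Pi.single_eq_same]; exact y.2
      · rw [Pi.single_eq_of_ne hj]; exact isIntegral_zero
  have e : (fun _ => ((m : ℚ) : C.E _)) + ((C.f * t : ℕ) : ℤ) • Pi.single i (y : C.E i) =
      (fun _ => ((m : ℚ) : C.E _)) * Pi.mulSingle i x := funext fun j => by
    by_cases hj : j = i
    · subst hj
      rw [Pi.add_apply, Pi.smul_apply, Pi.mul_apply, Pi.single_eq_same, Pi.mulSingle_eq_same,
        natCast_zsmul, nsmul_eq_mul, ← hy, Rat.cast_natCast]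
      ring
    · simp [hj]
  refine ⟨(l₀ : ℕ) ^ s * m ^ k, .mul_left (.pow_left _ (l₀.2.coprime_iff_not_dvd.2 C.l0))
    (hm.pow_left _), w • g, fun l hl => ?_⟩
  have h1 := aeval_of_dvd (C.W.root l hl) hg
  rw [e, map_mul, map_mul, map_sub, C.tl_mul hl, aeval_of_dvd (C.W.root l hl) (C.W.f_rat m),
    ← mul_sub_one, ← C.cp_nuM hl, ← C.cp_aeval l (g.map _), ← algebraMap_int_eq,
    aeval_map_algebraMap, aeval_C, aeval_C, aeval_C, ← Algebra.smul_def, ← Algebra.smul_def,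
    ← Algebra.smul_def] at h1
  refine smul_right_injective _ (Int.cast_ne_zero.2 C.W.D0 : (C.W.D : ℚ) ≠ 0) ?_
  have h2 := congrArg (Int.cast : ℤ → ℚ) hw
  change _ • cpM l _ = _ • cpM l _
  rw [map_nsmul, map_nsmul, map_zsmul, map_zsmul, map_sub, map_one, ← Nat.cast_smul_eq_nsmul ℚ,
    ← Nat.cast_smul_eq_nsmul ℚ, ← Int.cast_smul_eq_zsmul ℚ]
  push_cast at h1 h2 ⊢
  rw [mul_smul, smul_comm]
  refine (congrArg _ h1).trans ?_
  rw [smul_smul, smul_smul, smul_smul, ← mul_assoc, h2]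
  exact congrArg (· • _) (by ring)

theorem nu_std {i : C.κ} {x : (C.E i)ˣ} (h : CgE C.f C.f (x : C.E i)) {l : Pr}
    (hl : (l : ℕ) ∣ C.f) : StdAt l (C.nuG i x).1.val := by
  by_cases e : l = C.p
  · subst e
    intro y
    rw [(C.nuG_val i x).1, nuM_atp, one_mulVec]
  have key : ∀ x : (C.E i)ˣ, CgE C.f C.f (x : C.E i) →
      ∃ w : M8 ℤ_[l], (C.nuG i x).1.val.map (cp l) = w.map (↑) := fun x h => by
    obtain ⟨m, hm, g, hg⟩ := C.nu_cong (t := 1) (by rwa [mul_one])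
    obtain ⟨u, hu⟩ := (PadicInt.isUnit_iff.2 (PadicInt.norm_natCast_eq_one_iff.2
      (hm.coprime_dvd_right hl).symm)).exists_left_inv
    have h1 : cpM l _ = cpM l _ := hg l e
    rw [map_nsmul, map_nsmul, map_sub, map_one, ← aeval_map_algebraMap ℚ, RingHom.mapMatrix_apply,
      RingHom.mapMatrix_apply] at h1
    replace h1 := h1.trans (congrArg _ ((C.cp_aeval l _).trans
      (aeval_int_map PadicInt.Coe.ringHom _ g)))
    refine ⟨1 + u • (16 * C.c ^ 2 * 1) • aeval (MW.Dd.th M C.φ C.r l) g, ?_⟩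
    change _ = (PadicInt.Coe.ringHom (p := l)).mapMatrix (1 + _ : M8 ℤ_[l])
    rw [map_add, map_one, RingHom.mapMatrix_apply, gn_map_smul, ← RingHom.mapMatrix_apply, map_nsmul,
      RingHom.mapMatrix_apply, ← h1, ← Nat.cast_smul_eq_nsmul ℚ_[l], smul_smul,
      ← map_natCast PadicInt.Coe.ringHom, ← map_mul, hu, map_one, one_smul, add_sub_cancel]
    rfl
  obtain ⟨w, hw⟩ := key x h
  obtain ⟨w', hw'⟩ := key x⁻¹ ((Ga _ _).inv_mem h)
  refine stdAt_of_eq (Units.mkOfMulEqOne w w' (Matrix.map_injective Subtype.val_injective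
    ((Matrix.map_mul (f := PadicInt.Coe.ringHom)).trans ((congrArg₂ (· * ·) hw hw').symm.trans
      (Eq.trans ?_ (PadicInt.Coe.ringHom (p := l)).mapMatrix.map_one.symm))))) hw
  rw [← Matrix.map_mul, map_inv, Prod.fst_inv, Units.mul_inv,
    Matrix.map_one _ (map_zero _) (map_one _)]

theorem fx_emb (φ : EF.F →+* ℂ) : ∃ (t : Fin k → C.κ) (χ : ∀ j, C.E (t j) →+* ℂ),
    ∀ b : ∀ i, C.E i, (∀ i, C.W.c i (b i) = b i) → φ (C.fx b) = ∏ j, χ j (b (t j)) := by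
  have h1 : aeval EF.al M.a.charpoly = 0 := by
    refine EF.j_inj ?_
    rw [map_zero]
    refine (aeval_algHom_apply EF.j.toRingHom.toIntAlgHom EF.al _).symm.trans ?_
    refine (congrArg (fun z => aeval z M.a.charpoly) EF.j_al).trans ?_
    refine (aeval_algHom_apply (Int.castRingHom ℚ).mapMatrix.toIntAlgHom M.a _).trans ?_
    exact (congrArg _ (Matrix.aeval_self_charpoly M.a)).trans (map_zero _)
  have h2 : aeval (φ EF.al) M.a.charpoly = 0 :=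
    (aeval_algHom_apply φ.toIntAlgHom EF.al _).trans (by rw [h1, map_zero])
  obtain ⟨t, χ, h⟩ := C.W.mu_eq ℂ _ h2
  exact ⟨t, χ, fun b hb => (aeval_algHom_apply φ.toRatAlgHom EF.al _).symm.trans (h b hb)⟩

theorem fx_cong {i : C.κ} {x : C.E i} (hx : C.W.c i x = x) {s : ℕ}
    (h : CgE C.f (C.f * (C.p : ℕ) ^ s) x) :
    Cg EF.O (16 * C.c ^ 2 * (C.p : ℕ) ^ s) (C.fx (Pi.mulSingle i x)) := by
  obtain ⟨m, hm, y, hy⟩ := h
  obtain ⟨φ⟩ : Nonempty (EF.F →+* ℂ) := inferInstance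
  obtain ⟨t, χ, e⟩ := C.fx_emb φ
  obtain ⟨a, z, hz, ez⟩ : ∃ (a : ℕ) (z : ℂ), IsIntegral ℤ z ∧
      (m : ℂ) ^ a * (φ (C.fx (Pi.mulSingle i x)) - 1) = (C.f * (C.p : ℕ) ^ s : ℕ) * z := by
    rw [e _ fun j => by
      by_cases hj : j = i
      · subst hj; rwa [Pi.mulSingle_eq_same]
      · rw [Pi.mulSingle_eq_of_ne hj, map_one]]
    refine Finset.prod_induction _ (fun w : ℂ => ∃ (a : ℕ) (z : ℂ), IsIntegral ℤ z ∧
      (m : ℂ) ^ a * (w - 1) = (C.f * (C.p : ℕ) ^ s : ℕ) * z) ?_ ⟨0, 0, isIntegral_zero, by simp⟩ ?_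
    · rintro w w' ⟨a, z, hz, ez⟩ ⟨a', z', hz', ez'⟩
      have hn : ∀ q : ℕ, IsIntegral ℤ (q : ℂ) := fun q => by
        simpa using isIntegral_algebraMap (R := ℤ) (A := ℂ) (x := q)
      refine ⟨a + a', (C.f * (C.p : ℕ) ^ s : ℕ) * z * z' + (m : ℂ) ^ a' * z + (m : ℂ) ^ a * z',
        ((((hn _).mul hz).mul hz').add (((hn m).pow _).mul hz)).add (((hn m).pow _).mul hz'), ?_⟩
      linear_combination ((m : ℂ) ^ a' * w') * ez +
        ((C.f * (C.p : ℕ) ^ s : ℕ) * z + (m : ℂ) ^ a) * ez'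
    · intro j _
      have key : ∀ (u : C.κ) (ψ : C.E u →+* ℂ), ∃ (a : ℕ) (z : ℂ), IsIntegral ℤ z ∧ (m : ℂ) ^ a *
          (ψ (Pi.mulSingle (M := C.E) i x u) - 1) = (C.f * (C.p : ℕ) ^ s : ℕ) * z := fun u ψ => by
        by_cases hj : u = i
        · subst hj
          refine ⟨1, ψ y, y.isIntegral_coe.map ψ.toIntAlgHom, ?_⟩
          have := congrArg ψ hy
          rw [map_mul, map_mul, map_sub, map_one, map_natCast, map_natCast] at this
          rw [Pi.mulSingle_eq_same, pow_one, this]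
        · exact ⟨0, 0, isIntegral_zero, by rw [Pi.mulSingle_eq_of_ne hj, map_one]; simp⟩
      exact key _ _
  have f0 : C.f * (C.p : ℕ) ^ s ≠ 0 := mul_ne_zero C.f0 (pow_ne_zero _ C.p.2.ne_zero)
  have f1 : ((C.f * (C.p : ℕ) ^ s : ℕ) : EF.F) ≠ 0 := Nat.cast_ne_zero.2 f0
  have hw : IsIntegral ℤ ((m : EF.F) ^ a * (C.fx (Pi.mulSingle i x) - 1) /
      (C.f * (C.p : ℕ) ^ s : ℕ)) := by
    refine (isIntegral_algHom_iff φ.toIntAlgHom φ.injective).1 ?_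
    change IsIntegral ℤ (φ _)
    rwa [map_div₀, map_mul, map_pow, map_sub, map_one, map_natCast, map_natCast, ez,
      mul_div_cancel_left₀ _ (Nat.cast_ne_zero.2 f0)]
  obtain ⟨g, hg⟩ := C.cf
  refine ⟨m ^ a, ?_, _, EF.O.mul_mem (natCast_mem _ g) (C.hDel _ hw), ?_⟩
  · exact Nat.Coprime.pow_left _ (Nat.Coprime.mul_right
      (hm.coprime_dvd_right ((dvd_mul_right _ _).trans C.cf))
      ((hm.coprime_dvd_right C.p_f).pow_right _))
  · have : ((16 * C.c ^ 2 * (C.p : ℕ) ^ s : ℕ) : EF.F) * (g * C.Del) =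
        (C.f * (C.p : ℕ) ^ s : ℕ) := by
      rw [hg]; push_cast; ring
    rw [← mul_assoc (g : EF.F), ← mul_assoc, this, mul_div_cancel₀ _ f1, Nat.cast_pow]

theorem mu_cong {i : C.κ} {x : C.E i} {s : ℕ} (h : CgE C.f (C.f * (C.p : ℕ) ^ s) x) :
    Cg EF.O (16 * C.c ^ 2 * (C.p : ℕ) ^ s) (C.mu (Pi.mulSingle i x)) := by
  have e : (fun j => Pi.mulSingle (M := C.E) i x j * C.W.c j (Pi.mulSingle (M := C.E) i x j)) =
      Pi.mulSingle i (x * C.W.c i x) := funext fun j => by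
    by_cases hj : j = i
    · subst hj; rw [Pi.mulSingle_eq_same, Pi.mulSingle_eq_same]
    · rw [Pi.mulSingle_eq_of_ne hj, Pi.mulSingle_eq_of_ne hj, map_one, mul_one]
  rw [mu, e]
  exact C.fx_cong (by rw [map_mul, C.W.cc, mul_comm]) (h.mul (h.map (C.W.c i).toRingEquiv))

end Cx

end Pool.Agent.MT
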