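import Pool.Agent.Lib.MP_d61fbb_ag.MW.GNu
import Pool.Agent.Lib.MP_d61fbb_ag.MW.InvA

/-! The Galois action on the local representatives. -/

set_option autoImplicit false

noncomputable section

namespace Pool.Agent.MT

open Matrix Polynomial NumberField Ideal
open Pool.Agent.Lib.MP_696deb_nt.B2 (Qbar jC)

theorem GS.of_dg {g D : ℕ} [NeZero D] {R : Type} [Field R] [CharZero R] {ν : R}
    {a : Matrix (I2 g) (I2 g) R} (h : GS ν (MT.dg D a)) : GS ν a := fun x y => by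
  have := h (vb fun _ => x) (vb fun _ => y)
  rw [dg_vb, dg_vb, Ef_pow, Ef_pow] at this
  simp only [vc_vb, Finset.sum_const, Finset.card_univ, Fintype.card_fin, nsmul_eq_mul] at this
  refine mul_left_cancel₀ (Nat.cast_ne_zero.2 (NeZero.ne D) : (D : R) ≠ 0) ?_
  rw [this, mul_left_comm]

variable [dm : Dim]

/-- the graph of a representation that factors through the norm up to the torus -/
def Blk.Gr {e k n l : ℕ} [Fact l.Prime] {a : M8 ℤ} (D : Blk e k n l a) {Γ : Type} [Group Γ]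
    (r : Γ →* GL (I2 gg) ℤ_[l]) : Subgroup (Γ × GL (Fin 2) D.R) where
  carrier := {z | ∃ u : ℤ_[l][X], IsUnit (aeval (zM ℤ_[l] a) u) ∧
    (r z.1).val = aeval (zM ℤ_[l] a) u * D.Nm z.2.val}
  one_mem' := ⟨1, by rw [map_one]; exact isUnit_one, by
    rw [Prod.fst_one, Prod.snd_one, map_one, map_one, Units.val_one, Units.val_one, D.Nm_one,
      mul_one]⟩
  mul_mem' := by
    rintro z z' ⟨u, hu, e⟩ ⟨v, hv, e'⟩
    refine ⟨u * v, by rw [map_mul]; exact hu.mul hv, ?_⟩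
    rw [Prod.fst_mul, Prod.snd_mul, map_mul, map_mul, Units.val_mul, Units.val_mul, e, e', D.Nm_mul,
      mul_assoc, mul_assoc, ← mul_assoc (D.Nm _), ← (D.Nm_comm' v _).eq, mul_assoc]
  inv_mem' := by
    rintro z ⟨u, hu, e⟩
    obtain ⟨v, hv⟩ := s2_inv hu
    have hv' := mul_eq_one_comm.1 hv
    refine ⟨v, IsUnit.of_mul_eq_one _ hv', ?_⟩
    rw [Prod.fst_inv, Prod.snd_inv, map_inv]
    refine Units.inv_eq_of_mul_eq_one_left ?_
    rw [e, mul_assoc, ← mul_assoc (D.Nm _), ← (D.Nm_comm' u _).eq, mul_assoc, ← D.Nm_mul,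
      Units.inv_mul, D.Nm_one, mul_one, hv']

variable {τ : Matrix (Fin gg) (Fin gg) ℂ} {K : IntermediateField ℚ ℂ} {e k n : ℕ}

namespace AType

variable (M : AType τ K e k n)

/-- the component of the representation -/
def rl (l : Pr) : (ℂ ≃ₐ[K] ℂ) →* GL (I2 gg) ℤ_[l] :=
  (Pi.evalMonoidHom (fun l : Pr => GL (I2 gg) ℤ_[l]) l).comp M.ρ

theorem gr_all {l : Pr} (h : l ∉ M.S) (σ : ℂ ≃ₐ[K] ℂ) : ∃ g, (σ, g) ∈ (M.D l h).Gr (M.rl l) := by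
  obtain ⟨u, g, hu, hg, e⟩ := M.sub σ l h
  exact ⟨((isUnit_iff_isUnit_det g).2 hg).unit, u, hu, e⟩

theorem gr_of {l : Pr} (h : l ∉ M.S) {σ : ℂ ≃ₐ[K] ℂ} {s : GL (Fin 2) (M.D l h).R}
    (e : (M.ρ σ l).val = (M.D l h).Nm s.val) : (σ, s) ∈ (M.D l h).Gr (M.rl l) :=
  ⟨1, by rw [map_one]; exact isUnit_one, by rw [map_one, one_mul]; exact e⟩

theorem gr_big {l : Pr} (h : l ∉ M.S) (s : GL (Fin 2) (M.D l h).R) (hs : s.val.det = 1) :
    ∃ σ, (σ, s) ∈ (M.D l h).Gr (M.rl l) := by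
  classical
  obtain ⟨σ, hσ⟩ := M.big {l} (Function.update (fun _ _ => 1) l fun _ => ⟨s.val, hs⟩)
  have := hσ l (Finset.mem_singleton_self l) h
  rw [Function.update_self] at this
  exact ⟨σ, M.gr_of h this⟩

end AType

variable {M : AType τ K e k n} {EF : EndF τ (zM ℚ M.a)} {N : ℕ} {l₀ : Pr} (C : Cx M EF N l₀)

namespace Cx

include C in
theorem rho_gs (σ : ℂ ≃ₐ[K] ℂ) (l : Pr) :
    ∃ u : ℚ_[l], ‖u‖ = 1 ∧ GS u ((M.ρ σ l).val.map ((↑) : ℤ_[l] → ℚ_[l])) := by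
  refine ⟨_, norm_mulG_rhoG (dm := dm.pow (2 ^ N)) C.B σ l, GS.of_dg (D := 2 ^ N) ?_⟩
  rw [← dg_map _ rfl]
  exact cpG_sim (dm := dm.pow (2 ^ N)) l (rhoG (dm := dm.pow (2 ^ N)) C.B σ)

theorem rho_cp {l : Pr} (h : l ≠ C.p) (σ : ℂ ≃ₐ[K] ℂ) :
    (C.rho σ).1.val.map (cp l) = (M.ρ σ l).val.map (↑) := cp_offM_ne h _

theorem rho_mul_snd (σ : ℂ ≃ₐ[K] ℂ) (x : GW EF) : (C.rho σ * x).2 = x.2 := one_mul _

theorem rho_mul_cp {l : Pr} (h : l ≠ C.p) (σ : ℂ ≃ₐ[K] ℂ) (x : GW EF) :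
    (C.rho σ * x).1.val.map (cp l) = (M.ρ σ l).val.map (↑) * x.1.val.map (cp l) := by
  rw [Prod.fst_mul, Units.val_mul, Matrix.map_mul, C.rho_cp h]

/-- the graph of the Galois representation at a good prime -/
abbrev Gr (l : Pr) (h : ¬ (l : ℕ) ∣ C.f) : Subgroup ((ℂ ≃ₐ[K] ℂ) × GL (Fin 2) (C.bk l h).R) :=
  (C.bk l h).Gr (M.rl l)

variable {C}

theorem Rep.gal {x : GW EF} {l : Pr} {h : ¬ (l : ℕ) ∣ C.f} {g : M2 (C.bk l h).R}
    (H : C.Rep x l h g) {σ : ℂ ≃ₐ[K] ℂ} {s : GL (Fin 2) (C.bk l h).R} (hs : (σ, s) ∈ C.Gr l h) :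
    C.Rep (C.rho σ * x) l h (s.val * g) := by
  obtain ⟨u, hu, e⟩ := hs
  obtain ⟨v, hv, e'⟩ := H
  refine ⟨u * v, by rw [map_mul]; exact hu.mul hv, ?_⟩
  have e₁ : (M.ρ σ l).val = aeval (zM ℤ_[l] M.a) u * (C.bk l h).Nm s.val := e
  rw [C.rho_mul_cp (C.ne_p h), e', e₁]
  refine (Matrix.map_mul (f := PadicInt.Coe.ringHom)).symm.trans (congrArg (Matrix.map · _) ?_)
  rw [map_mul, Blk.Nm_mul, mul_assoc, mul_assoc, ← mul_assoc (Blk.Nm _ _),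
    ← (Blk.Nm_comm' _ v _).eq, mul_assoc]

theorem lv_unit {l : Pr} {h : ¬ (l : ℕ) ∣ C.f} {D : ∀ i, Ideal (𝓞 (C.E i))} {g : M2 (C.bk l h).R}
    (H : (C.lt l h).Lv D g) (s : GL (Fin 2) (C.bk l h).R) : (C.lt l h).Lv D (s.val * g) :=
  (C.lt l h).lv_mul D g _ H ((isUnit_iff_isUnit_det _).1 s.isUnit)

end Cx

end Pool.Agent.MT
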