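import Pool.Agent.Lib.MP_d61fbb_ag.MW.GZ2
import Pool.Agent.Lib.MP_d61fbb_ag.MW.GIn2

/-! The assembly. -/

set_option autoImplicit false

namespace Pool.Agent.MT

variable [dm : Dim]

theorem stageW : StageW := stageW_interp fun _ _ _ _ _ _ _ _ _ C => C.interp

end Pool.Agent.MT
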