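import Pool.Agent.Lib.MP_d61fbb_ag.MW.GZ1
import Pool.Agent.Lib.MP_d61fbb_ag.MW.GCx
import Pool.Agent.Lib.MP_d61fbb_ag.MW.EndW

/-! The assembly up to the interpolation estimate. -/

set_option autoImplicit false

namespace Pool.Agent.MT

variable [dm : Dim]

theorem exCx : ExCx := fun τ hτ K hK h8 e k n M => by
  obtain ⟨EF⟩ := exists_endF hτ M.hom M.irr M.adj
  obtain ⟨B, hB⟩ := exists_Cx hτ hK h8 M EF le_rfl
  exact ⟨B, fun l hl h J => ⟨EF, _, hB l hl h J⟩⟩

theorem stageW_interp (hI : ∀ τ K e k n (M : AType τ K e k n) EF N l (C : Cx M EF N l),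
    C.Interp) : StageW := stageW_of (zlw_of exCx hI)

end Pool.Agent.MT
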