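import Pool.Agent.Lib.MP_d61fbb_ag.MW.I0
import Pool.Agent.Lib.MP_d61fbb_ag.MT.EDefs
import Pool.Agent.Lib.MP_d61fbb_ag.MW.FDefs
import Pool.Agent.Lib.MP_696deb_nt.B2.D0

/-! The interfaces between the blocks. -/

set_option autoImplicit false

noncomputable section

namespace Pool.Agent.MT

variable [dm : Dim]

open Matrix Polynomial Sum NumberField
open Pool.Agent.Lib.MP_696deb_nt.B2 (Qbar Gam Plc Dec Ine IsFrob Op jC)
open scoped NNReal Classical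

/-! ### Abstract theta systems -/

/-- irreducibility -/
def IRR : Prop := ∀ (k : Type) [Field k] (q : ℕ) (S : TSys k q) (m : ℕ), (m : k) ≠ 0 →
  ∀ H : Submodule k (W → k), H ≤ S.G m → H ≠ ⊥ → (∀ t ∈ Wp q, ∀ f ∈ H, Rt S.e m t f ∈ H) →
    H = S.G m

/-- multiplicity one -/
def UNIQ : Prop := ∀ (k : Type) [Field k] (q : ℕ) (S : TSys k q) (m : ℕ), (m : k) ≠ 0 →
  ∀ L : AddSubgroup W, (∀ t ∈ L, t ∈ Wp q) →
    (∀ x ∈ Wp q, (∀ t ∈ L, S.e ((m : ℚ) • Ef t x) = 1) → x ∈ L) →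
    ∀ (ξ : W → k) (f g : W → k), f ∈ S.G m → g ∈ S.G m → f ≠ 0 →
      (∀ t ∈ L, Rt S.e m t f = ξ t • f) → (∀ t ∈ L, Rt S.e m t g = ξ t • g) → ∃ c : k, g = c • f

/-- generic points -/
def GENP : Prop := ∀ (k : Type) [Field k] (q : ℕ) (S : TSys k q) (n : ℕ) (m : Fin n → ℕ)
  (f : Fin n → W → k) (z : Fin n → W), (∀ i, f i ∈ S.G (m i)) → (∀ i, f i ≠ 0) →
    ∃ x ∈ Wp q, ∀ i, f i (x + z i) ≠ 0

/-- the theta coordinates separate points -/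
def INJ : Prop := ∀ (k : Type) [Field k] (q : ℕ) (S : TSys k q) (x y : W) (c : k),
  (∀ η, S.th η x = c * S.th η y) →
    (∀ i (l : Pr), (l : ℕ) ≠ q → ‖cp l ((1 / 2 : ℚ) • (x - y) i)‖ ≤ 1) ∧
      ∀ l : Pr, (l : ℕ) = q → cpv l (x - y) ∈ S.K0 l

/-! ### Frobenius systems -/

/-- a polynomial in the Frobenius operator that vanishes at one prime vanishes everywhere -/
def VAN : Prop := ∀ (k : Type) [Field k] (p : Pr) (S : FSys k p) (A : ℤ[X]) (l : Pr), l ≠ p →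
  aeval (S.π l).val A = 0 → (∀ l' ≠ p, aeval (S.π l').val A = 0) ∧
    ∀ x : Vl p, (aeval (S.π p).val A).map (↑) *ᵥ x ∈ S.K0 p

/-- `P` is the characteristic polynomial at all primes other than `p` -/
def IsCh (p : Pr) (π : ∀ l : Pr, GL (I2 gg) ℤ_[l]) (P : ℤ[X]) : Prop :=
  ∀ l ≠ p, (π l).val.charpoly = P.map (Int.castRingHom _)

/-- the theorems of Weil -/
def WEIL : Prop := ∀ (k : Type) [Field k] (p : Pr) (S : FSys k p),
  (∃ l ≠ p, ((S.π l).val.charpoly.map (algebraMap ℤ_[l] ℚ_[l])).Separable) →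
    ∃ P : ℤ[X], IsCh p S.π P ∧ ∀ z : ℂ, aeval z P = 0 → ‖z‖ ^ 2 = (p : ℕ)

/-- endomorphisms that are similitudes preserve the theta functions -/
def ALPHA : Prop := ∀ (k : Type) [Field k] (p : Pr) (S : FSys k p) (P : ℤ[X]), IsCh p S.π P →
  (P.map (Int.castRingHom ℚ)).Separable → ∃ k0 : ℕ, ∀ (n : ℤ) (B : ℤ[X]) (m : ℕ), (m : k) ≠ 0 →
    (∀ l ≠ p, ∀ x y : I2 gg → ℤ_[l],
      Ef (aeval (S.π l).val (C n + C (((p : ℕ) : ℤ) ^ k0) * B) *ᵥ x)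
        (aeval (S.π l).val (C n + C (((p : ℕ) : ℤ) ^ k0) * B) *ᵥ y) = m * Ef x y) →
    (fun x => S.Θ (aeval (mA S.π) (C n + C (((p : ℕ) : ℤ) ^ k0) * B) *ᵥ x)) ∈ S.G m

/-! ### The arithmetic package -/

section
variable {τ : Matrix (Fin gg) (Fin gg) ℂ} {K : IntermediateField ℚ ℂ}

/-- The normalised theta function with algebraic values and its Galois action. -/
structure AR (M : TRep τ K) where
  S : TSys Qbar 0
  η0 : I2 gg → ZMod 2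
  one : S.Θ (hw η0) = 1
  c0 : ℂ
  c0_ne : c0 ≠ 0
  cx : ∀ x, c0 * jC (S.Θ x) = Theta τ x
  cxe : ∀ a, jC (S.e a) = psi a
  res : (ℂ ≃ₐ[K] ℂ) →* Gam
  res_spec : ∀ σ x, jC (res σ x) = σ (jC x)
  res_surj : ∀ g : Gam, (∀ x, jC x ∈ K → g x = x) → g ∈ res.range
  res_open : Op res.range
  gal : ∀ σ η x, res σ (S.th η x) = S.th η (mA (M.ρ σ) *ᵥ x)
  gale : ∀ σ x y, res σ (S.e (Ef x y)) = S.e (Ef (mA (M.ρ σ) *ᵥ x) (mA (M.ρ σ) *ᵥ y))
  cont : ∀ N : ℕ, N ≠ 0 → ∃ U : Subgroup Gam, Op U ∧ ∀ σ, res σ ∈ U →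
    ∀ (l : Pr) i j, ‖((M.ρ σ l).val - 1) i j‖ ≤ ‖(N : ℤ_[l])‖
  bdd : ∃ C : ℝ, ∀ (φ : Qbar →+* ℂ) x, ‖φ (S.Θ x)‖ ≤ C
  int : ∃ D : ℕ, D ≠ 0 ∧ ∀ x, IsIntegral ℤ ((D : Qbar) * S.Θ x)

variable {M : TRep τ K}

/-- A good place of degree one with a Frobenius element. -/
structure Frb (A : AR M) where
  w : Plc
  p : Pr
  hp : w.p = p
  big : 11 ≤ (p : ℕ)
  φ : ℂ ≃ₐ[K] ℂ
  frob : IsFrob w p (A.res φ)
  ine : Ine w ≤ A.res.range
  unit : ∀ η, A.S.Θ (hw η) = 0 ∨ w.V (A.S.Θ (hw η)) = 1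

/-- the residue field -/
abbrev kk (w : Plc) : Type := IsLocalRing.ResidueField w.V.valuationSubring

/-- the reduction -/
def rd (w : Plc) (x : Qbar) : kk w :=
  if h : x ∈ w.V.valuationSubring then IsLocalRing.residue _ (⟨x, h⟩ : w.V.valuationSubring) else 0

/-- `R` is the reduction of the theta system. -/
structure RedOf {A : AR M} (v : Frb A) (R : FSys (kk v.w) v.p) : Prop where
  int : ∀ x, v.w.V (A.S.Θ x) ≤ 1
  π : R.π = M.ρ v.φ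
  Θ : ∀ x, R.Θ x = rd v.w (A.S.Θ x)
  e : ∀ x, R.e x = rd v.w (A.S.e x)

/-- the lattice `h Λ` is standard at `p` -/
def StdAt (p : Pr) (h : M8 AF) : Prop :=
  ∀ x : Vl p, (∀ i, ‖(h.map (cp p) *ᵥ x) i‖ ≤ 1) ↔ ∀ i, ‖x i‖ ≤ 1

end

/-- Block A. -/
def AStmt : Prop := ∀ τ, Sieg τ → ∀ (K : IntermediateField ℚ ℂ), FiniteDimensional ℚ K →
  ee (1 / 8) ∈ K → ∀ M : TRep τ K, Nonempty (AR M)

/-- the algebraic and the analytic description of the theta functions agree -/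
def GH : Prop := ∀ τ, Sieg τ → ∀ K (M : TRep τ K) (A : AR M) (m : ℕ), 0 < m →
  ∀ f : W → Qbar, f ∈ A.S.G m ↔ (fun x => jC (f x)) ∈ HH τ m

/-- the reduction exists -/
def REDS : Prop := ∀ τ K (M : TRep τ K) (A : AR M) (v : Frb A), ∃ R, RedOf v R

/-- the supremum of a theta function is attained at a point prime to `p` -/
def LAT : Prop := ∀ τ K (M : TRep τ K) (A : AR M), Sieg τ → ∀ (v : Frb A) (m : ℕ), ∀ f ∈ A.S.G m,
  ∃ x₀ ∈ Wp v.p, ∀ x, v.w.V (f x) ≤ v.w.V (f x₀)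

/-- integral theta functions of weight and level prime to `p` reduce to theta functions -/
def REDG : Prop := ∀ τ K (M : TRep τ K) (A : AR M), Sieg τ → ∀ (v : Frb A) (R), RedOf v R →
  ∀ m : ℕ, ¬ (v.p : ℕ) ∣ m → ∀ f ∈ A.S.G m,
    (∀ t : Vl v.p, (∀ i, ‖t i‖ ≤ 1) → Rt A.S.e m (sgv v.p t) f = f) → (∀ x, v.w.V (f x) ≤ 1) →
      (fun x => rd v.w (f x)) ∈ R.G m

end Pool.Agent.MT
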