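import Pool.Agent.Lib.MP_d61fbb_ag.MW.BV1
import Pool.Agent.Lib.MP_d61fbb_ag.MW.GN1

/-! The interpolation estimate: statement. -/

set_option autoImplicit false

noncomputable section

namespace Pool.Agent.MT

open Matrix
open Pool.Agent.Lib.MP_696deb_nt.B2 (Qbar)

variable [dm : Dim]

/-- `a` is congruent to one modulo two -/
def One2 (a : M8 AF) : Prop := ∀ i j, ‖cp ⟨2, Nat.prime_two⟩ ((a - 1) i j)‖ < 1

/-- equality away from `p` -/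
def EqOff (p : Pr) (a b : M8 AF) : Prop := ∀ l ≠ p, a.map (cp l) = b.map (cp l)

variable {τ : Matrix (Fin gg) (Fin gg) ℂ} {K : IntermediateField ℚ ℂ} {M : TRep τ K} {A : AR M}

/-- an isometry that keeps the theta functions -/
structure Aut (A : AR M) (p : Pr) (O : M8 AF) : Prop where
  sp : GS 1 O
  std : StdAt p O
  mem : ∀ f ∈ A.S.G 1, (fun x => f (O *ᵥ x)) ∈ A.S.G 1

/-- The translation by `c` is the right multiplication by an isometry `δ`, and a multiple of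
`δ⁻¹` is a scalar modulo `q ^ j` in the ring of matrices with a complement. -/
def Rg (v : Frb A) (R : FSys (kk v.w) v.p) (q : ℤ) {G : Type} [CommGroup G] (α : G → M8 AF) (j : ℕ)
    (c : G) : Prop :=
  ∃ (δ β : M8 AF) (n N : ℕ) (c₀ : ℤ), ¬ (v.p : ℕ) ∣ n ∧ R.Cmp β N ∧
    EqOff v.p (((c₀ : M8 AF) + q ^ j • β) * δ) n ∧
    ∀ γ, ∃ O, Aut A v.p O ∧ EqOff v.p (α (c * γ)) (O * α γ * δ)

/-- A group of partners. -/
structure WG (v : Frb A) (R : FSys (kk v.w) v.p) (G : Type) [CommGroup G] where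
  q : ℤ
  b : M8 AF
  Nb : ℕ
  cmp : R.Cmp b Nb
  hq : EqOff v.p (mA R.π * b) q
  α : G → M8 AF
  one : α 1 = 1
  sp : ∀ γ, GS 1 (α γ)
  two : ∀ γ, One2 (α γ)
  atp : ∀ γ, (α γ).map (cp v.p) = 1
  Gs : ℕ → Subgroup G
  anti : Antitone Gs
  rig1 : ∀ c, Rg v R q α 1 c
  rig : ∀ j, ∃ i, ∀ c ∈ Gs i, Rg v R q α j c

/-- A zero in every class modulo `Gs r` gives `p ^ r + 1` digits. -/
def CW : Prop := ∀ τ K (M : TRep τ K) (A : AR M), Sieg τ → ∀ (v : Frb A) (R), RedOf v R →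
  ∀ (G : Type) [CommGroup G] (D : WG v R G) (h : M8 AF) (F : W → Qbar), Pt 1 h → StdAt v.p h →
  A.S.IsVec 1 h F → (∀ x, v.w.V (F x) ≤ 1) →
  ∀ (J : Type) (P : MvPolynomial J ℤ) (n r : ℕ) (z : J → W), P.IsHomogeneous n →
    (∀ j, z j ∈ Wp v.p) →
    (∀ i, r ≤ i → ∀ c ∈ D.Gs i, ∃ d : G, c / d ^ ((v.p : ℕ) ^ r) ∈ D.Gs (i + 1)) →
    (∀ γ, ∃ c ∈ D.Gs r, ∃ F', F' ≠ 0 ∧ A.S.IsVec 1 (D.α (c * γ) * h) F' ∧
      MvPolynomial.aeval (fun j => F' (D.α (c * γ) *ᵥ z j)) P = 0) →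
    v.w.V (MvPolynomial.aeval (fun j => F (z j)) P) ≤ v.w.V v.w.p ^ ((v.p : ℕ) ^ r + 1)

end Pool.Agent.MT
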