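import Pool.Agent.Lib.MP_d61fbb_ag.MW.P0
import Pool.Agent.Lib.MP_d61fbb_ag.MW.VC1
import Pool.Agent.Lib.MP_d61fbb_ag.MW.GN1
import Pool.Agent.Lib.MP_d61fbb_ag.MW.GX1
import Pool.Agent.Lib.MP_d61fbb_ag.MW.QW
import Pool.Agent.Lib.MP_d61fbb_ag.MW.S2
import Pool.Agent.Lib.MP_d61fbb_ag.MW.FK
import Pool.Agent.Lib.MP_d61fbb_ag.MW.WDefs
import Pool.Agent.Lib.MP_d61fbb_ag.MT.ENorm

/-! The interfaces of the glue. -/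

set_option autoImplicit false

noncomputable section

namespace Pool.Agent.MT

open Matrix NumberField Ideal
open Pool.Agent.Lib.MP_696deb_nt.B2 (Qbar)

section local_theory
variable {κ : Type} [Fintype κ] [DecidableEq κ] {E : κ → Type} [∀ k, Field (E k)]
  [∀ k, NumberField (E k)]

/-- levels: nonzero ideals that are stable under the conjugation -/
def Ok (cj : ∀ k, 𝓞 (E k) ≃+* 𝓞 (E k)) (D : ∀ k, Ideal (𝓞 (E k))) : Prop :=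
  ∀ k, D k ≠ 0 ∧ (D k).map (cj k) = D k

/-- The local theory at a good prime: `Lv D g` says that `g` has level `D`, and `Al k A g` that `g`
is aligned with the ideal `A` of the factor `k`. -/
structure LT (cj : ∀ k, 𝓞 (E k) ≃+* 𝓞 (E k)) (l n : ℕ) {R : Type} [CommRing R]
    (j : (∀ k, 𝓞 (E k)) →+* M2 R) where
  Lv : (∀ k, Ideal (𝓞 (E k))) → M2 R → Prop
  Al : ∀ k, Ideal (𝓞 (E k)) → M2 R → Prop
  lv_mul : ∀ D g (h : M2 R), Lv D g → IsUnit h.det → Lv D (h * g)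
  lv_dvd : ∀ D g, Ok cj D → Lv D g → g.det ∣ (nLev D : R)
  lv_one : ∀ D, (∀ k, (absNorm (D k)).Coprime l) → Lv D 1
  lv_top : (∀ k (P : Ideal (𝓞 (E k))), P.IsMaximal → (l : 𝓞 (E k)) ∈ P → P.map (cj k) ≠ P) →
    ∀ (m : ℕ) (g : M2 R) (w : R), IsUnit w → g.det = (l : R) ^ m * w →
      Lv (fun k => span {(l : 𝓞 (E k)) ^ m}) g
  al_of : ∀ k A g, ¬ l ∣ absNorm A → Al k A g
  al_mul : ∀ k A C g, ¬ l ∣ absNorm C → Al k A g → Al k (A * C) g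
  al_dvd : ∀ D g k A, Ok cj D → Lv D g → A ≠ 0 → Al k A g → ∀ (P : Ideal (𝓞 (E k))) (m : ℕ),
    P.IsMaximal → (l : 𝓞 (E k)) ∈ P → P ^ m ∣ A * A.map (cj k) → P ^ m ∣ D k
  move : ∀ D D' g k A B a β, Ok cj D → Ok cj D' → Lv D g → A ≠ 0 → Al k A g → a ≠ 0 →
    span {β} * A = span {a} * B → D' k * (A * A.map (cj k)) = D k * (B * B.map (cj k)) →
    (∀ k', k' ≠ k → D' k' = D k') →
    ∃ g', j (Pi.mulSingle k a) * g' = j (Pi.mulSingle k β) * g ∧ Lv D' g'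
  dA : ∀ (Γ : Type) [Group Γ] (G : Subgroup (Γ × GL (Fin 2) R)), (∀ σ, ∃ h, (σ, h) ∈ G) →
    (∀ s : GL (Fin 2) R, s.val.det = 1 → ∃ σ, (σ, s) ∈ G) →
    ∀ D g k (P : Ideal (𝓞 (E k))) (r : ℕ), Ok cj D → Lv D g → P.IsMaximal → (l : 𝓞 (E k)) ∈ P →
      1 ≤ r → P ^ (2 * r - 1) ∣ D k → ∃ (H : Subgroup Γ) (g₀ : Γ), H.index ≠ 0 ∧
        H.index ≤ l ^ (4 * n * r) ∧ ∀ σ, g₀⁻¹ * σ ∈ H → ∃ h, (σ, h) ∈ G ∧ Al k (P ^ r) (h.val * g)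
  dB : ∀ (Γ : Type) [Group Γ] (G : Subgroup (Γ × GL (Fin 2) R)), (∀ σ, ∃ h, (σ, h) ∈ G) →
    (∀ s : GL (Fin 2) R, s.val.det = 1 → ∃ σ, (σ, s) ∈ G) →
    ∀ D g k (P : Ideal (𝓞 (E k))), Ok cj D → Lv D g → absNorm P = l → P ∣ D k →
      ∃ (H : Subgroup Γ) (g₀ : Γ), H.index ≠ 0 ∧ H.index ≤ 2 * l ∧
        (∀ τ, ∃ s : GL (Fin 2) R, s.val.det = 1 ∧ ∀ σ, (σ, s) ∈ G → τ⁻¹ * σ ∈ H) ∧
        ∀ σ, g₀⁻¹ * σ ∈ H → ∃ h, (σ, h) ∈ G ∧ Al k P (h.val * g)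

end local_theory

section global
variable {κ : Type} [Fintype κ] (E : κ → Type) [∀ k, Field (E k)] [∀ k, NumberField (E k)]
  (cj : ∀ k, 𝓞 (E k) ≃+* 𝓞 (E k))

/-- The global data.  `Pt g D` says that `g` is a point of level `D`, and `Th e g θ` that `θ` is
the vector of the values at the points of order `l ^ e` of a nonzero theta function of `g` with
integral values. -/
structure WGlob (F : Subfield ℂ) (A : Type) (f p c₀ : ℕ) (n : ℕ → ℕ) (t : ℝ) (Γ GG : Type)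
    [Group Γ] [Group GG] where
  ρ : Γ →* GG
  act : Γ →* (ℂ ≃+* ℂ)
  full : ∀ σ : ℂ ≃+* ℂ, (∀ c ∈ F, σ c = c) → ∃ g, act g = σ
  w : ℂ → ℝ
  fin : FinSize w
  U : ℕ → Subgroup GG
  ν : ∀ k, 𝓞 (E k) → 𝓞 (E k) → GG
  Pt : GG → (∀ k, Ideal (𝓞 (E k))) → Prop
  Bal : GG → Prop
  Al : GG → (∀ k, Ideal (𝓞 (E k))) → ∀ k, Ideal (𝓞 (E k)) → Prop
  Th : ℕ → GG → (A → ℂ) → Prop
  pt_cop : ∀ g D k, Pt g D → (absNorm (D k)).Coprime f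
  pt_cj : ∀ g D k, Pt g D → (D k).map (cj k) = D k
  pt_gal : ∀ g D σ, Pt g D → Pt (ρ σ * g) D
  bal_gal : ∀ g σ, Bal g → Bal (ρ σ * g)
  densA : ∀ g D k (P : Ideal (𝓞 (E k))) (r : ℕ), Pt g D → P.IsMaximal → 1 ≤ r →
    P ^ (2 * r - 1) ∣ D k → ∃ (H : Subgroup Γ) (g₀ : Γ), H.index ≠ 0 ∧
      H.index ≤ absNorm (P ^ r) ^ c₀ ∧ ∀ σ, g₀⁻¹ * σ ∈ H → Al (ρ σ * g) D k (P ^ r)
  densB : ∀ g D k (G : Finset (Ideal (𝓞 (E k)))), Pt g D →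
    (∀ P ∈ G, (absNorm P).Prime ∧ P ∣ D k) → (∀ P ∈ G, ∀ Q ∈ G, absNorm P = absNorm Q → P = Q) →
    ∃ (H : Ideal (𝓞 (E k)) → Subgroup Γ) (g₀ : Ideal (𝓞 (E k)) → Γ),
      (∀ P ∈ G, (H P).index ≠ 0 ∧ (H P).index ≤ 2 * absNorm P) ∧
      (∀ τ : Ideal (𝓞 (E k)) → Γ, ∃ σ, ∀ P ∈ G, (τ P)⁻¹ * σ ∈ H P) ∧
      ∀ S ⊆ G, ∀ σ, (∀ P ∈ S, (g₀ P)⁻¹ * σ ∈ H P) → Al (ρ σ * g) D k (∏ P ∈ S, P)
  move : ∀ g D k A B a β, Pt g D → Al g D k A → Mv f A B a β → ∃ D', Pt (ν k a β * g) D' ∧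
    D' k * (A * A.map (cj k)) = D k * (B * B.map (cj k)) ∧ ∀ k', k' ≠ k → D' k' = D k'
  bal : ∀ g D, Pt g D → ∃ g', Pt g' D ∧ Bal g' ∧ ∀ e θ, Th e g θ ↔ Th e g' θ
  ex : ∃ c : ℕ, ∀ e g D, Pt g D → Bal g →
    ∃ θ, Th e g θ ∧ ∀ (σ : ℂ ≃+* ℂ) a, ‖σ (θ a)‖ ≤ ((2 * nLev D : ℕ) : ℝ) ^ c
  int : ∀ e g θ, Th e g θ → ∀ a, IsIntegral ℤ (θ a)
  uniq : ∀ e g D θ θ', Pt g D → Th e g θ → Th e g θ' → ∃ u : ℂ, ∀ a, θ a = u * θ' a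
  inv : ∀ e g u θ, u ∈ U e → Th e g θ → Th e (g * u) θ
  gal : ∀ e g θ σ, Th e g θ → Th e (ρ σ * g) fun a => act σ (θ a)
  cnt : ∃ c : ℕ, ∀ e D, 1 ≤ e → ∃ T : Finset (GG ⧸ U e), T.card ≤ (2 * nLev D) ^ c * n e ∧
    ∀ g, Pt g D → Bal g → (g : GG ⧸ U e) ∈ T
  interp : ∀ e (r d : ℕ) (z : Fin r → ℤ) (ch : Fin r → Fin d → A) g D θ k (s : ℕ), Pt g D →
    Th e g θ → (∀ y : 𝓞 (E k), (f : 𝓞 (E k)) ∣ y - 1 → ∃ a β θ', IsCoprime a (f : 𝓞 (E k)) ∧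
      (f : 𝓞 (E k)) ∣ β - a ∧ Near (cj k) f (f * p ^ s) y a β ∧ Th e (ν k a β * g) θ' ∧
        qv z ch θ' = 0) → w (qv z ch θ) ≤ t ^ p ^ s

end global

/-- The abstract glue: a form of the family kills all points. -/
def GlueW : Prop :=
  ∀ c₀ d : ℕ, ∃ J : ℕ, ∀ (κ : Type) [Fintype κ] (E : κ → Type) [∀ k, Field (E k)]
    [∀ k, NumberField (E k)] (cj : ∀ k, 𝓞 (E k) ≃+* 𝓞 (E k)) (F : Subfield ℂ) [Module.Finite ℚ F]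
    (A : Type) (f p l : ℕ) (n : ℕ → ℕ) (t : ℝ) (Γ GG : Type) [Group Γ] [Group GG]
    (G : WGlob E cj F A f p c₀ n t Γ GG) (Φ : Fam A l n),
    (∀ k, Module.finrank ℚ (E k) ≤ d) → (∀ k x, cj k (cj k x) = x) → p.Prime → J < p → p ∣ f →
    f ≠ 0 → 0 < t → t < 1 → 2 ≤ l → (∀ e, 0 < n e) →
    ∃ (e : ℕ) (z : Fin (Φ.r e) → ℤ), Φ.e0 ≤ e ∧ z ≠ 0 ∧
      ∀ g D θ, G.Pt g D → G.Th e g θ → qv z (Φ.ch e) θ = 0

variable [dm : Dim]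

/-- rational automorphisms that are one modulo two and integral at `p` -/
structure AutQ (τ : Matrix (Fin gg) (Fin gg) ℂ) (p : Pr) (O : M8 ℚ) : Prop where
  gs : GS 1 O
  hom : Hom τ O
  two : ∀ i j, ‖(((O - 1) i j / 2 : ℚ) : ℚ_[p2])‖ ≤ 1
  int : ∀ i j, ‖(O i j : ℚ_[p])‖ ≤ 1

/-- Automorphisms transport theta vectors. -/
def INV : Prop := ∀ τ, Sieg τ → ∀ K (M : TRep τ K) (A : AR M) (p : Pr) (O O' : M8 ℚ),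
  O * O' = 1 → AutQ τ p O → ∀ (h : M8 AF) (F : W → Qbar), h.map (cp p) = 1 → Pt 1 h →
    A.S.IsVec 1 h F → Pt 1 (offM p (O.map qa) * h) ∧
      A.S.IsVec 1 (offM p (O.map qa) * h) fun x => F (O'.map qa *ᵥ x)

/-- A relation on the whole orbit at every large prime. -/
def ZLW : Prop := ∀ τ, Sieg τ → ∀ (K : IntermediateField ℚ ℂ), FiniteDimensional ℚ K →
  ee (1 / 8) ∈ K → ∀ (e k n : ℕ) (M : AType τ K e k n), ∃ B : ℕ, ∀ l : Pr, B < (l : ℕ) →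
  ∀ h : l ∉ M.S, (l : ℕ) ≠ 2 ∧ ∃ m, m ≠ 0 ∧ HasRel τ l (M.D l h).KK (M.D l h).Orb m

end Pool.Agent.MT
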