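import Pool.Agent.Lib.MP_d61fbb_ag.MW.DLem

/-! Local algebra: descent, divisibility and idempotents in an étale algebra. -/

set_option autoImplicit false

open Polynomial Finset

namespace Pool.Agent.MW

variable {l n : ℕ} [Fact l.Prime]

/-- An étale algebra of degree `n` with its `n` embeddings. -/
structure Et (c : ℤ_[l][X]) (s : Fin n → AdjoinRoot c →ₐ[ℤ_[l]] PadicAlgCl l) : Prop where
  monic : c.Monic
  deg : c.natDegree = n
  sep : (c.map PadicInt.toZMod).Separable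
  inj : Function.Injective s

theorem la_inj : Function.Injective (algebraMap ℤ_[l] (PadicAlgCl l)) := by
  rw [IsScalarTower.algebraMap_eq ℤ_[l] ℚ_[l] (PadicAlgCl l)]
  exact (algebraMap ℚ_[l] (PadicAlgCl l)).injective.comp Subtype.val_injective

theorem la_l : (l : PadicAlgCl l) ≠ 0 := Nat.cast_ne_zero.2 (Fact.out : l.Prime).ne_zero

theorem la_aut (σ : PadicAlgCl l ≃ₐ[ℚ_[l]] PadicAlgCl l) (z : PadicAlgCl l) : ‖σ z‖ = ‖z‖ :=
  (spectralNorm_eq_of_equiv σ z).symm

namespace Et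

variable {c : ℤ_[l][X]} {s : Fin n → AdjoinRoot c →ₐ[ℤ_[l]] PadicAlgCl l}

theorem s_mk (i : Fin n) (q : ℤ_[l][X]) :
    s i (AdjoinRoot.mk c q) = aeval (s i (AdjoinRoot.root c)) q := by
  rw [aeval_algHom_apply, AdjoinRoot.aeval_eq]

theorem s_root (i : Fin n) : aeval (s i (AdjoinRoot.root c)) c = 0 := by
  rw [← s_mk, AdjoinRoot.mk_self, map_zero]

variable (D : Et c s)
include D

theorem rinj : Function.Injective fun i => s i (AdjoinRoot.root c) := fun _ _ h =>
  D.inj (AdjoinRoot.algHom_ext h)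

theorem le (i : Fin n) (x : AdjoinRoot c) : ‖s i x‖ ≤ 1 := by
  have := Module.Finite.of_basis (AdjoinRoot.powerBasis' D.monic).basis
  exact dl_int ((Algebra.IsIntegral.isIntegral x).map _)

theorem far {i j : Fin n} (h : i ≠ j) :
    ‖s i (AdjoinRoot.root c) - s j (AdjoinRoot.root c)‖ = 1 :=
  root_far D.monic D.deg D.sep s_root D.rinj h

theorem fac : c.map (algebraMap ℤ_[l] (PadicAlgCl l)) =
    ∏ i, (X - C (s i (AdjoinRoot.root c))) := by
  refine eq_of_monic_of_dvd_of_natDegree_le (monic_prod_X_sub_C _ _) (D.monic.map _)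
    (prod_dvd_of_coprime (fun i _ j _ h => pairwise_coprime_X_sub_C D.rinj h) fun i _ => ?_) ?_
  · rw [dvd_iff_isRoot, IsRoot, eval_map_algebraMap, s_root]
  · rw [D.monic.natDegree_map, D.deg, natDegree_finsetProd_X_sub_C_eq_card]
    simp

theorem ext {x y : AdjoinRoot c} (h : ∀ i, s i x = s i y) : x = y := by
  rw [← sub_eq_zero]
  obtain ⟨q, hq⟩ := AdjoinRoot.mk_surjective (x - y)
  rw [← hq, AdjoinRoot.mk_eq_zero, ← map_dvd_map _ la_inj D.monic, D.fac]
  exact Fintype.prod_dvd_of_coprime (pairwise_coprime_X_sub_C D.rinj) fun i =>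
    dvd_iff_isRoot.2 (by rw [IsRoot, eval_map_algebraMap, ← s_mk, hq, map_sub, h, sub_self])

theorem perm (σ : PadicAlgCl l ≃ₐ[ℚ_[l]] PadicAlgCl l) (i : Fin n) :
    ∃ j, ∀ x, s j x = σ (s i x) := by
  have h1 : aeval (σ (s i (AdjoinRoot.root c))) c = 0 := by
    have := aeval_algHom_apply (σ.toAlgHom.restrictScalars ℤ_[l]) (s i (AdjoinRoot.root c)) c
    rw [s_root, map_zero] at this
    exact this
  rw [← eval_map_algebraMap, D.fac, eval_prod, prod_eq_zero_iff] at h1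
  obtain ⟨j, -, hj⟩ := h1
  refine ⟨j, fun x => DFunLike.congr_fun (AdjoinRoot.algHom_ext (g₁ := s j)
    (g₂ := (σ.toAlgHom.restrictScalars ℤ_[l]).comp (s i)) ?_) x⟩
  exact (sub_eq_zero.1 (by simpa using hj)).symm

/-- Descent with control of the coefficients. -/
theorem descent' (N : Fin n → PadicAlgCl l) {t : ℝ} (t0 : 0 ≤ t) (t1 : t ≤ 1)
    (hN : ∀ i, ‖N i‖ ≤ t) (h : ∀ (σ : PadicAlgCl l ≃ₐ[ℚ_[l]] PadicAlgCl l) i j,
      (∀ x, s j x = σ (s i x)) → N j = σ (N i)) :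
    ∃ q : ℤ_[l][X], (∀ i, s i (AdjoinRoot.mk c q) = N i) ∧ ∀ m, ‖q.coeff m‖ ≤ t := by
  classical
  have hz := D.rinj
  obtain ⟨z, ez⟩ : ∃ z : Fin n → PadicAlgCl l, (fun i => s i (AdjoinRoot.root c)) = z := ⟨_, rfl⟩
  have ez' : ∀ i, s i (AdjoinRoot.root c) = z i := congrFun ez
  rw [ez] at hz
  have hd := Lagrange.degree_interpolate_lt (s := univ) N hz.injOn
  have he := fun i => Lagrange.eval_interpolate_at_node N hz.injOn (mem_univ i)
  have h1 : ∀ m, ‖(Lagrange.interpolate univ z N).coeff m‖ ≤ t := fun m => by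
    rw [Lagrange.interpolate_apply, finsetSum_coeff]
    refine IsUltrametricDist.norm_sum_le_of_forall_le_of_nonneg t0 fun i _ => ?_
    let T := (NormedField.valuation (K := PadicAlgCl l)).integer
    obtain ⟨y, hy⟩ := (lifts_iff_coeff_lifts (f := T.subtype) (Lagrange.basis univ z i)).1
      (prod_mem fun j hj => mul_mem (C'_mem_lifts ⟨⟨_, show ‖(z i - z j)⁻¹‖ ≤ 1 by
          rw [norm_inv, ← ez', ← ez', D.far (ne_of_mem_erase hj).symm, inv_one]⟩, rfl⟩)
        ((liftsRing _).sub_mem (X_mem_lifts _)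
          (C'_mem_lifts ⟨⟨_, show ‖z j‖ ≤ 1 from ez' j ▸ D.le j _⟩, rfl⟩))) m
    rw [coeff_C_mul, norm_mul, ← hy]
    exact (mul_le_of_le_one_right (norm_nonneg _) y.2).trans (hN i)
  have h2 : ∀ m, ∃ y : ℤ_[l], algebraMap _ _ y = (Lagrange.interpolate univ z N).coeff m :=
    fun m => by
      obtain ⟨x, hx⟩ : (Lagrange.interpolate univ z N).coeff m ∈
          Set.range (algebraMap ℚ_[l] (PadicAlgCl l)) := by
        refine (InfiniteGalois.mem_range_algebraMap_iff_fixed _).2 fun σ => ?_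
        have h5 : (Lagrange.interpolate univ z N).map σ.toRingEquiv.toRingHom =
            Lagrange.interpolate univ z N := by
          choose r hr using D.perm σ
          refine eq_of_degrees_lt_of_eval_index_eq univ hz.injOn (degree_map_le.trans_lt hd) hd
            fun i _ => ?_
          obtain ⟨j, rfl⟩ := Finite.surjective_of_injective (f := r)
            (fun a b e => hz (σ.injective (by rw [← ez', ← ez', ← hr, e, hr]))) i
          rw [he, h σ j _ (hr j), ← ez', hr, ez', ← he j]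
          exact eval_map_apply σ.toRingEquiv.toRingHom (z j)
        nth_rw 2 [← h5]
        rw [coeff_map]
        rfl
      have h3 := h1 m
      rw [← hx, norm_algebraMap'] at h3
      exact ⟨⟨x, h3.trans t1⟩, hx⟩
  obtain ⟨q, hq⟩ := (lifts_iff_coeff_lifts (f := algebraMap ℤ_[l] (PadicAlgCl l)) _).2 h2
  rw [coe_mapRingHom] at hq
  refine ⟨q, fun i => by rw [s_mk, ez', ← eval_map_algebraMap, hq, he], fun m => ?_⟩
  rw [← dl_norm, ← coeff_map, hq]
  exact h1 m

/-- Descent: an integral equivariant family comes from the algebra. -/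
theorem descent (N : Fin n → PadicAlgCl l) (hN : ∀ i, ‖N i‖ ≤ 1)
    (h : ∀ (σ : PadicAlgCl l ≃ₐ[ℚ_[l]] PadicAlgCl l) i j,
      (∀ x, s j x = σ (s i x)) → N j = σ (N i)) : ∃ r, ∀ i, s i r = N i :=
  let ⟨_, hq, _⟩ := D.descent' N zero_le_one le_rfl hN h
  ⟨_, hq⟩

theorem div {x y : AdjoinRoot c} (h0 : ∀ i, s i y ≠ 0) (h : ∀ i, ‖s i x‖ ≤ ‖s i y‖) : y ∣ x := by
  obtain ⟨r, hr⟩ := D.descent (fun i => s i x / s i y)
    (fun i => by rw [norm_div]; exact div_le_one_of_le₀ (h i) (norm_nonneg _))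
    fun σ i j e => by rw [e, e, map_div₀]
  exact ⟨r, D.ext fun i => by rw [map_mul, hr, mul_div_cancel₀ _ (h0 i)]⟩

theorem unit {x : AdjoinRoot c} (h : ∀ i, ‖s i x‖ = 1) : IsUnit x :=
  isUnit_of_dvd_one (D.div (fun i e => by simpa [e] using h i) fun i => by simp [h i])

theorem norm_unit {x : AdjoinRoot c} (h : IsUnit x) (i : Fin n) : ‖s i x‖ = 1 := by
  obtain ⟨y, hy⟩ := h.exists_right_inv
  refine le_antisymm (D.le i x) ?_
  have := congrArg (fun z => ‖s i z‖) hy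
  simp only [map_mul, norm_mul, map_one, norm_one] at this
  exact this.ge.trans (mul_le_of_le_one_right (norm_nonneg _) (D.le i y))

theorem nzd {x : AdjoinRoot c} (h : ∀ i, s i x ≠ 0) : x ∈ nonZeroDivisors (AdjoinRoot c) :=
  mem_nonZeroDivisors_iff_right.2 fun y hy => D.ext fun i => by
    have := congrArg (s i) hy
    rw [map_mul, map_zero] at this
    rw [map_zero, (mul_eq_zero.1 this).resolve_right (h i)]

theorem assoc {x y : AdjoinRoot c} (h0 : ∀ i, s i y ≠ 0) (h : ∀ i, ‖s i x‖ = ‖s i y‖) :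
    ∃ u, IsUnit u ∧ x = y * u := by
  obtain ⟨u, rfl⟩ := D.div h0 fun i => (h i).le
  refine ⟨u, D.unit fun i => mul_left_cancel₀ (norm_ne_zero_iff.2 (h0 i)) ?_, rfl⟩
  rw [← norm_mul, ← map_mul, h, mul_one]

/-- A set of embeddings that is defined by norms is cut out by an idempotent. -/
theorem idem (T : Fin n → Prop) [DecidablePred T]
    (hT : ∀ i j, (∀ x, ‖s j x‖ = ‖s i x‖) → T i → T j) :
    ∃ e, ∀ i, s i e = if T i then 1 else 0 :=
  D.descent _ (fun i => by split_ifs <;> simp) fun σ i j e => by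
    have h1 : ∀ x, ‖s j x‖ = ‖s i x‖ := fun x => by rw [e, la_aut]
    rw [if_congr ⟨hT j i fun x => (h1 x).symm, hT i j h1⟩ rfl rfl]
    split_ifs <;> simp

theorem small {x : AdjoinRoot c} (h : ∀ i, ‖s i x‖ < 1) : (l : AdjoinRoot c) ∣ x := by
  have h1 : ‖fun i => s i x‖ < 1 := (pi_norm_lt_iff one_pos).2 h
  obtain ⟨q, h2, h3⟩ := D.descent' (fun i => s i x) (norm_nonneg _) h1.le
    (norm_le_pi_norm fun i => s i x) fun σ i j e => e x
  obtain ⟨r, rfl⟩ := (C_dvd_iff_dvd_coeff (l : ℤ_[l]) q).2 fun m =>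
    (PadicInt.norm_lt_one_iff_dvd _).1 ((h3 m).trans_lt h1)
  exact ⟨AdjoinRoot.mk c r, by rw [← D.ext h2, map_mul, map_natCast, map_natCast]⟩

theorem val_one {x : AdjoinRoot c} {i : Fin n} (h : ‖s i x‖ < 1) :
    ‖s i x‖ ≤ ‖(l : PadicAlgCl l)‖ := by
  classical
  obtain ⟨e, he⟩ := D.idem (fun j => ‖s j x‖ < 1) fun i j e h => (e x).trans_lt h
  obtain ⟨y, hy⟩ := D.small (x := e * x) fun j => by
    rw [map_mul, he]
    split_ifs with h' <;> simp [h']
  have := congrArg (s i) hy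
  rw [map_mul, he, if_pos h, one_mul, map_mul, map_natCast] at this
  rw [this, norm_mul]
  exact mul_le_of_le_one_right (norm_nonneg _) (D.le i y)

theorem val_succ {x : AdjoinRoot c} {i : Fin n} {m : ℕ} (h : ‖s i x‖ < ‖(l : PadicAlgCl l)‖ ^ m) :
    ‖s i x‖ ≤ ‖(l : PadicAlgCl l)‖ ^ (m + 1) := by
  classical
  obtain ⟨e, he⟩ := D.idem (fun j => ‖s j x‖ < ‖(l : PadicAlgCl l)‖ ^ m)
    fun i j e h => (e x).trans_lt h
  obtain ⟨y, hy⟩ := D.div (x := e * x) (y := (l : AdjoinRoot c) ^ m)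
    (fun j => by rw [map_pow, map_natCast]; exact pow_ne_zero _ la_l) fun j => by
      rw [map_mul, he, map_pow, map_natCast, norm_pow]
      split_ifs with h'
      · rw [one_mul]; exact h'.le
      · rw [zero_mul, norm_zero]; positivity
  have h1 := congrArg (fun z => ‖s i z‖) hy
  simp only [map_mul, he, if_pos h, one_mul, map_pow, map_natCast, norm_mul, norm_pow] at h1
  have h2 : 0 < ‖(l : PadicAlgCl l)‖ ^ m := pow_pos (norm_pos_iff.2 la_l) m
  rw [h1] at h ⊢
  rw [pow_succ]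
  exact mul_le_mul_of_nonneg_left (D.val_one (lt_of_mul_lt_mul_left (h.trans_eq (mul_one _).symm)
    h2.le)) h2.le

/-- The algebra is unramified. -/
theorem val {x : AdjoinRoot c} {i : Fin n} (h : s i x ≠ 0) :
    ∃ m : ℕ, ‖s i x‖ = ‖(l : PadicAlgCl l)‖ ^ m := by
  by_contra hc
  have h1 : ∀ m : ℕ, ‖s i x‖ ≤ ‖(l : PadicAlgCl l)‖ ^ m := fun m => by
    induction m with
    | zero => simpa using D.le i x
    | succ m ih => exact D.val_succ (lt_of_le_of_ne ih fun e => hc ⟨m, e⟩)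
  obtain ⟨m, hm⟩ := exists_pow_lt_of_lt_one (norm_pos_iff.2 h) (dl_l (l := l))
  exact absurd (h1 m) (not_le.2 hm)

theorem half {x : AdjoinRoot c} {i : Fin n} {r : ℕ}
    (h : ‖s i x‖ ^ 2 ≤ ‖(l : PadicAlgCl l)‖ ^ (2 * r - 1)) : ‖s i x‖ ≤ ‖(l : PadicAlgCl l)‖ ^ r := by
  rcases r with _ | r
  · simpa using D.le i x
  refine D.val_succ (lt_of_pow_lt_pow_left₀ 2 (by positivity) (h.trans_lt ?_))
  rw [← pow_mul]
  exact pow_lt_pow_right_of_lt_one₀ (norm_pos_iff.2 la_l) dl_l (by omega)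

end Et

end Pool.Agent.MW
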