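import Pool.Agent.Lib.MP_d61fbb_ag.MW.LA0
import Pool.Agent.Lib.MP_d61fbb_ag.MT.DTree

/-! Local algebra: elementary divisors, alignment and stabilisers over an étale algebra. -/

set_option autoImplicit false

open Polynomial Finset Matrix

namespace Pool.Agent.MW

theorem sub_idx {Γ F : Type*} [Group Γ] [Finite F] (H : Subgroup Γ) (f : Γ → F)
    (hf : ∀ σ σ', f σ = f σ' → σ⁻¹ * σ' ∈ H) : H.index ≠ 0 ∧ H.index ≤ Nat.card F := by
  have hi : Function.Injective fun q : Γ ⧸ H => f q.out := fun q q' e => by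
    rw [← q.out_eq, ← q'.out_eq]
    exact QuotientGroup.eq.2 (hf _ _ e)
  have := Finite.of_injective _ hi
  exact ⟨Nat.card_pos.ne', Nat.card_le_card_of_injective _ hi⟩

section
variable {R : Type*} [CommRing R]

/-- The stabiliser of the lattice spanned by the columns of `α`. -/
def St (α : Matrix (Fin 2) (Fin 2) R) : Subgroup (GL (Fin 2) R) where
  carrier := {h | ∃ h' : GL (Fin 2) R, h.val * α = α * h'.val}
  one_mem' := ⟨1, by simp⟩
  mul_mem' := by
    rintro a b ⟨a', ha⟩ ⟨b', hb⟩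
    exact ⟨a' * b', by rw [Units.val_mul, Units.val_mul, mul_assoc, hb, ← mul_assoc, ha, mul_assoc]⟩
  inv_mem' := by
    rintro a ⟨a', ha⟩
    exact ⟨a'⁻¹, by rw [Units.inv_mul_eq_iff_eq_mul, ← mul_assoc, ha, Units.mul_inv_cancel_right]⟩

theorem mem_St {α y : Matrix (Fin 2) (Fin 2) R} (hα : α.det ∈ nonZeroDivisors R)
    {h : GL (Fin 2) R} (e : h.val * α = α * y) : h ∈ St α := by
  have h1 := congrArg det e
  rw [det_mul, det_mul, mul_comm, mul_cancel_left_mem_nonZeroDivisors hα] at h1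
  obtain ⟨u, rfl⟩ := (isUnit_iff_isUnit_det y).2 (h1 ▸ (isUnit_iff_isUnit_det _).1 h.isUnit)
  exact ⟨u, e⟩

theorem smith_of {g : Matrix (Fin 2) (Fin 2) R} (h : ∀ i j, g 0 0 ∣ g i j) :
    ∃ (k k' : SpecialLinearGroup (Fin 2) R) (b : R),
      g = k.val * diagonal ![g 0 0, g 0 0 * b] * k'.val := by
  obtain ⟨b, hb⟩ := h 0 1
  obtain ⟨c, hc⟩ := h 1 0
  obtain ⟨d, hd⟩ := h 1 1
  refine ⟨⟨!![1, 0; c, 1], by simp⟩, ⟨!![1, b; 0, 1], by simp⟩, d - b * c, ?_⟩
  ext i j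
  fin_cases i <;> fin_cases j <;>
    simp [mul_apply, Fin.sum_univ_two, vecMul_diagonal, hb, hc, hd] <;> ring

theorem sl_unit (k : SpecialLinearGroup (Fin 2) R) : IsUnit k.val :=
  (isUnit_iff_isUnit_det _).2 (by rw [k.2]; exact isUnit_one)

theorem det_smith (k k' : SpecialLinearGroup (Fin 2) R) (a b : R) :
    (k.val * diagonal ![a, b] * k'.val).det = a * b := by
  rw [det_mul, det_mul, k.2, k'.2, one_mul, mul_one, det_diagonal, Fin.prod_univ_two]
  rfl

end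

variable {l n : ℕ} [Fact l.Prime] {c : ℤ_[l][X]}

/-- The largest norm of an entry at an embedding. -/
noncomputable def mn (φ : AdjoinRoot c →ₐ[ℤ_[l]] PadicAlgCl l)
    (g : Matrix (Fin 2) (Fin 2) (AdjoinRoot c)) : ℝ := ‖fun x : Fin 2 × Fin 2 => φ (g x.1 x.2)‖

section
variable {φ ψ : AdjoinRoot c →ₐ[ℤ_[l]] PadicAlgCl l} {g : Matrix (Fin 2) (Fin 2) (AdjoinRoot c)}

theorem mn_nonneg : 0 ≤ mn φ g := norm_nonneg _

theorem le_mn (x y : Fin 2) : ‖φ (g x y)‖ ≤ mn φ g :=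
  norm_le_pi_norm (fun x : Fin 2 × Fin 2 => φ (g x.1 x.2)) (x, y)

theorem mn_le {t : ℝ} (h : ∀ x y, ‖φ (g x y)‖ ≤ t) : mn φ g ≤ t :=
  (pi_norm_le_iff_of_nonempty _).2 fun x => h x.1 x.2

theorem mn_ex : ∃ x y, ‖φ (g x y)‖ = mn φ g := by
  obtain ⟨x, -, h⟩ := exists_max_image univ (fun x : Fin 2 × Fin 2 => ‖φ (g x.1 x.2)‖) univ_nonempty
  exact ⟨x.1, x.2, le_antisymm (le_mn _ _) (mn_le fun a b => h (a, b) (mem_univ _))⟩

theorem mn_congr (h : ∀ x, ‖ψ x‖ = ‖φ x‖) : mn ψ g = mn φ g :=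
  le_antisymm (mn_le fun x y => h _ ▸ le_mn x y) (mn_le fun x y => h _ ▸ le_mn x y)

theorem mn_mul (h : Matrix (Fin 2) (Fin 2) (AdjoinRoot c)) : mn φ (g * h) ≤ mn φ g * mn φ h :=
  mn_le fun x y => by
    rw [mul_apply, map_sum]
    refine IsUltrametricDist.norm_sum_le_of_forall_le_of_nonneg (mul_nonneg mn_nonneg mn_nonneg)
      fun z _ => ?_
    rw [map_mul, norm_mul]
    exact mul_le_mul (le_mn _ _) (le_mn _ _) (norm_nonneg _) mn_nonneg

theorem det_le_mn : ‖φ g.det‖ ≤ mn φ g ^ 2 := by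
  rw [det_fin_two, map_sub, map_mul, map_mul, sub_eq_add_neg, sq]
  refine (IsUltrametricDist.norm_add_le_max _ _).trans (max_le ?_ ?_)
  · rw [norm_mul]; exact mul_le_mul (le_mn _ _) (le_mn _ _) (norm_nonneg _) mn_nonneg
  · rw [norm_neg, norm_mul]; exact mul_le_mul (le_mn _ _) (le_mn _ _) (norm_nonneg _) mn_nonneg

theorem mn_smul_one (x : AdjoinRoot c) : mn φ (x • 1) = ‖φ x‖ := by
  refine le_antisymm (mn_le fun a b => ?_) (by simpa using le_mn (φ := φ) (g := x • 1) 0 0)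
  by_cases h : a = b <;> simp [h]

end

namespace Et

variable {s : Fin n → AdjoinRoot c →ₐ[ℤ_[l]] PadicAlgCl l} (D : Et c s)
include D

theorem mn_le_one (i : Fin n) (g : Matrix (Fin 2) (Fin 2) (AdjoinRoot c)) : mn (s i) g ≤ 1 :=
  mn_le fun _ _ => D.le i _

theorem mn_mul_left (i : Fin n) (k g : Matrix (Fin 2) (Fin 2) (AdjoinRoot c)) :
    mn (s i) (k * g) ≤ mn (s i) g :=
  (mn_mul g).trans (mul_le_of_le_one_left mn_nonneg (D.mn_le_one i k))

theorem mn_mul_right (i : Fin n) (g k : Matrix (Fin 2) (Fin 2) (AdjoinRoot c)) :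
    mn (s i) (g * k) ≤ mn (s i) g :=
  (mn_mul k).trans (mul_le_of_le_one_right mn_nonneg (D.mn_le_one i k))

theorem mn_unit_left (i : Fin n) {k : Matrix (Fin 2) (Fin 2) (AdjoinRoot c)} (hk : IsUnit k)
    (g : Matrix (Fin 2) (Fin 2) (AdjoinRoot c)) : mn (s i) (k * g) = mn (s i) g := by
  obtain ⟨k', e⟩ := hk.exists_left_inv
  refine le_antisymm (D.mn_mul_left i k g) (le_trans (le_of_eq ?_) (D.mn_mul_left i k' (k * g)))
  rw [← mul_assoc, e, one_mul]

theorem mn_unit_right (i : Fin n) (g : Matrix (Fin 2) (Fin 2) (AdjoinRoot c))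
    {k : Matrix (Fin 2) (Fin 2) (AdjoinRoot c)} (hk : IsUnit k) :
    mn (s i) (g * k) = mn (s i) g := by
  obtain ⟨k', e⟩ := hk.exists_right_inv
  refine le_antisymm (D.mn_mul_right i g k) (le_trans (le_of_eq ?_) (D.mn_mul_right i (g * k) k'))
  rw [mul_assoc, e, mul_one]

theorem mn_diag (i : Fin n) (k k' : SpecialLinearGroup (Fin 2) (AdjoinRoot c))
    (a b : AdjoinRoot c) : mn (s i) (k.val * diagonal ![a, a * b] * k'.val) = ‖s i a‖ := by
  rw [D.mn_unit_right i _ (sl_unit k'), D.mn_unit_left i (sl_unit k)]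
  refine le_antisymm (mn_le fun x y => ?_)
    (by simpa using le_mn (φ := s i) (g := diagonal ![a, a * b]) 0 0)
  have := mul_le_of_le_one_right (norm_nonneg (s i a)) (D.le i b)
  fin_cases x <;> fin_cases y <;> simp [this]

theorem rot (T : Fin n → Prop) [DecidablePred T]
    (hT : ∀ i j, (∀ x, ‖s j x‖ = ‖s i x‖) → T i → T j) :
    ∃ k : SpecialLinearGroup (Fin 2) (AdjoinRoot c), ∀ i,
      s i (k.val 0 0) = (if T i then 1 else 0) ∧ s i (k.val 0 1) = if T i then 0 else 1 := by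
  obtain ⟨e, he⟩ := D.idem T hT
  refine ⟨⟨!![e, 1 - e; e - 1, e], D.ext fun i => ?_⟩, fun i => ?_⟩
  · simp only [det_fin_two_of, map_sub, map_mul, map_one, he]
    split_ifs <;> simp
  · by_cases h : T i <;> simp [he, h]

/-- Elementary divisors. -/
theorem smith {g : Matrix (Fin 2) (Fin 2) (AdjoinRoot c)} (hg : ∀ i, s i g.det ≠ 0) :
    ∃ (k k' : SpecialLinearGroup (Fin 2) (AdjoinRoot c)) (a b : AdjoinRoot c),
      g = k.val * diagonal ![a, a * b] * k'.val := by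
  classical
  obtain ⟨k, hk⟩ := D.rot (fun i => ∃ y, ‖s i (g 0 y)‖ = mn (s i) g) fun i j e ⟨y, h⟩ =>
    ⟨y, by rw [e, mn_congr e, h]⟩
  have h1 : ∀ i, ∃ y, ‖s i ((k.val * g) 0 y)‖ = mn (s i) g := fun i => by
    simp only [mul_apply, Fin.sum_univ_two, map_add, map_mul, hk]
    split_ifs with h
    · simpa using h
    · obtain ⟨x, y, e⟩ := mn_ex (φ := s i) (g := g)
      fin_cases x
      · exact absurd ⟨y, e⟩ h
      · exact ⟨y, by simpa using e⟩
  obtain ⟨k', hk'⟩ := D.rot (fun i => ‖s i ((k.val * g) 0 0)‖ = mn (s i) g) fun i j e h => by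
    rw [e, mn_congr e, h]
  have h2 : ∀ i, ‖s i ((k.val * g * k'.valᵀ) 0 0)‖ = mn (s i) g := fun i => by
    rw [mul_apply]
    simp only [Fin.sum_univ_two, map_add, map_mul, transpose_apply, hk']
    split_ifs with h
    · simpa using h
    · obtain ⟨y, e⟩ := h1 i
      fin_cases y
      · exact absurd e h
      · simpa using e
  obtain ⟨m, m', b, e⟩ := smith_of (g := k.val * g * k'.valᵀ) fun x y => D.div (fun i e => by
      have h3 := det_le_mn (φ := s i) (g := g)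
      rw [← h2, e, norm_zero, zero_pow two_ne_zero, norm_le_zero_iff] at h3
      exact hg i h3) fun i => by
    rw [h2]
    exact (le_mn x y).trans ((D.mn_mul_right i _ _).trans (D.mn_mul_left i _ _))
  let t : SpecialLinearGroup (Fin 2) (AdjoinRoot c) := ⟨k'.valᵀ, by rw [det_transpose, k'.2]⟩
  refine ⟨k⁻¹ * m, m' * t⁻¹, (k.val * g * k'.valᵀ) 0 0, b, ?_⟩
  have e1 : (k⁻¹).val * k.val = 1 := congrArg Subtype.val (inv_mul_cancel k)
  have e2 : k'.valᵀ * (t⁻¹).val = 1 := congrArg Subtype.val (mul_inv_cancel t)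
  change g = (k⁻¹).val * m.val * _ * (m'.val * (t⁻¹).val)
  rw [← mul_assoc, mul_assoc _ m.val, mul_assoc _ _ m'.val, ← e, mul_assoc, mul_assoc, e2, mul_one,
    ← mul_assoc, e1, one_mul]

/-- Alignment: the elementary divisors of `α` divide those of `g`. -/
theorem align {g α : Matrix (Fin 2) (Fin 2) (AdjoinRoot c)} (hg : ∀ i, s i g.det ≠ 0)
    (hα : ∀ i, s i α.det ≠ 0) (h1 : ∀ i, mn (s i) g ≤ mn (s i) α)
    (h2 : ∀ i, ‖s i g.det‖ * mn (s i) α ≤ ‖s i α.det‖ * mn (s i) g) :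
    ∃ (h : SpecialLinearGroup (Fin 2) (AdjoinRoot c)) (g' : Matrix (Fin 2) (Fin 2) (AdjoinRoot c)),
      h.val * g = α * g' := by
  obtain ⟨k, k', a, b, rfl⟩ := D.smith hg
  obtain ⟨m, m', a', b', rfl⟩ := D.smith hα
  simp only [D.mn_diag, det_smith, map_mul, norm_mul, mul_ne_zero_iff] at hg hα h1 h2
  obtain ⟨u, hu⟩ := D.div (fun i => (hα i).1) h1
  obtain ⟨w, hw⟩ := D.div (x := a * b) (y := a' * b')
    (fun i => by rw [map_mul]; exact mul_ne_zero (hα i).2.1 (hα i).2.2) fun i => by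
      rw [map_mul, map_mul, norm_mul, norm_mul]
      refine le_of_mul_le_mul_left ?_
        (mul_pos (norm_pos_iff.2 (hg i).1) (norm_pos_iff.2 (hα i).1))
      linarith [h2 i]
  refine ⟨m * k⁻¹, (m'⁻¹).val * diagonal ![u, w] * k'.val, ?_⟩
  have e1 : (k⁻¹).val * k.val = 1 := congrArg Subtype.val (inv_mul_cancel k)
  have e2 : m'.val * (m'⁻¹).val = 1 := congrArg Subtype.val (mul_inv_cancel m')
  have e3 : diagonal ![a, a * b] = diagonal ![a', a' * b'] * diagonal ![u, w] := by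
    rw [diagonal_mul_diagonal]
    congr 1
    funext i
    fin_cases i
    exacts [hu, hw]
  change m.val * (k⁻¹).val * _ = _
  rw [e3]
  simp only [mul_assoc]
  rw [← mul_assoc _ k.val, e1, one_mul, ← mul_assoc m'.val, e2, one_mul]

/-- Alignment with a primitive matrix or a scalar when the level is deep enough. -/
theorem align_pow {g α : Matrix (Fin 2) (Fin 2) (AdjoinRoot c)} (hg : ∀ i, s i g.det ≠ 0) {r : ℕ}
    (h : ∀ i, ‖s i α.det‖ = 1 ∨
      (mn (s i) α = 1 ∧ ‖s i α.det‖ = ‖(l : PadicAlgCl l)‖ ^ r ∧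
        ‖s i g.det‖ ≤ ‖(l : PadicAlgCl l)‖ ^ (2 * r - 1)) ∨
      (mn (s i) α = ‖(l : PadicAlgCl l)‖ ^ r ∧ ‖s i α.det‖ = ‖(l : PadicAlgCl l)‖ ^ (2 * r) ∧
        mn (s i) g ^ 2 = ‖s i g.det‖ ∧ ‖s i g.det‖ ≤ ‖(l : PadicAlgCl l)‖ ^ (2 * r - 1))) :
    ∃ (h : SpecialLinearGroup (Fin 2) (AdjoinRoot c)) (g' : Matrix (Fin 2) (Fin 2) (AdjoinRoot c)),
      h.val * g = α * g' := by
  have l0 : 0 < ‖(l : PadicAlgCl l)‖ := norm_pos_iff.2 la_l
  have hα : ∀ i, s i α.det ≠ 0 := fun i => norm_pos_iff.1 (by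
    rcases h i with e | ⟨-, e, -⟩ | ⟨-, e, -⟩ <;> rw [e] <;> positivity)
  obtain ⟨k, k', a, b, e⟩ := D.smith hg
  have e1 : ∀ i, mn (s i) g = ‖s i a‖ := fun i => by rw [e, D.mn_diag]
  have e2 : ∀ i, ‖s i g.det‖ = ‖s i a‖ * ‖s i (a * b)‖ := fun i => by
    rw [e, det_smith, map_mul, norm_mul]
  have e3 : ∀ i, ‖s i (a * b)‖ ≤ ‖s i a‖ := fun i => by
    rw [map_mul, norm_mul]
    exact mul_le_of_le_one_right (norm_nonneg _) (D.le i b)
  have key : ∀ i, ‖s i a‖ ≤ mn (s i) α ∧ ‖s i (a * b)‖ * mn (s i) α ≤ ‖s i α.det‖ := fun i => by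
    rcases h i with e | ⟨f1, f2, f3⟩ | ⟨f1, f2, f3, f4⟩
    · have h3 := det_le_mn (φ := s i) (g := α)
      have h4 := D.mn_le_one i α
      have h5 : mn (s i) α = 1 := le_antisymm h4 (by nlinarith [mn_nonneg (φ := s i) (g := α)])
      rw [e, h5, mul_one]
      exact ⟨D.le i _, D.le i _⟩
    · rw [f1, f2, mul_one]
      refine ⟨D.le i _, D.half (le_trans ?_ f3)⟩
      rw [e2, sq]
      exact mul_le_mul_of_nonneg_right (e3 i) (norm_nonneg _)
    · have h3 : ‖s i a‖ ≤ ‖(l : PadicAlgCl l)‖ ^ r := D.half (by rw [← e1, f3]; exact f4)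
      rw [f1, f2, two_mul, pow_add]
      exact ⟨h3, mul_le_mul_of_nonneg_right ((e3 i).trans h3) (by positivity)⟩
  refine D.align hg hα (fun i => e1 i ▸ (key i).1) fun i => ?_
  rw [e1, e2, mul_assoc, mul_comm]
  exact mul_le_mul_of_nonneg_right (key i).2 (norm_nonneg _)

/-- The special linear group meets every coset of a stabiliser. -/
theorem St_sl {α : Matrix (Fin 2) (Fin 2) (AdjoinRoot c)} (hα : ∀ i, s i α.det ≠ 0)
    (h : GL (Fin 2) (AdjoinRoot c)) : ∃ t : SpecialLinearGroup (Fin 2) (AdjoinRoot c),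
      h⁻¹ * SpecialLinearGroup.toGL t ∈ St α := by
  obtain ⟨m, m', a, b, e⟩ := D.smith hα
  have e1 : (m⁻¹).val * m.val = 1 := congrArg Subtype.val (inv_mul_cancel m)
  have e2 : m'.val * (m'⁻¹).val = 1 := congrArg Subtype.val (mul_inv_cancel m')
  refine ⟨⟨h.val * (m.val * diagonal ![1, (h⁻¹).val.det] * (m⁻¹).val), ?_⟩,
    mem_St (y := (m'⁻¹).val * diagonal ![1, (h⁻¹).val.det] * m'.val) (D.nzd hα) ?_⟩
  · rw [det_mul, det_smith, one_mul, ← det_mul, Units.mul_inv, det_one]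
  · change (h⁻¹).val * (h.val * _) * α = _
    rw [Units.inv_mul_cancel_left, e]
    simp only [mul_assoc]
    rw [← mul_assoc _ m.val, e1, one_mul, ← mul_assoc m'.val, e2, one_mul, ← mul_assoc (diagonal _),
      ← mul_assoc (diagonal _), commute_diagonal]

/-- The index of the stabiliser of a lattice that contains `l ^ r R ^ 2`. -/
theorem St_idxA {α α' : Matrix (Fin 2) (Fin 2) (AdjoinRoot c)} (hα : ∀ i, s i α.det ≠ 0) {r : ℕ}
    (h : α * α' = (l : AdjoinRoot c) ^ r • 1) :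
    (St α).index ≠ 0 ∧ (St α).index ≤ l ^ (4 * n * r) := by
  let b := (AdjoinRoot.powerBasis' D.monic).basis.reindex (finCongr D.deg)
  have : NeZero (l ^ r) := ⟨pow_ne_zero _ (Fact.out : l.Prime).ne_zero⟩
  have key := sub_idx (St α) (fun g (x : Fin 2 × Fin 2 × Fin n) =>
    PadicInt.toZModPow r (b.repr (g.val x.1 x.2.1) x.2.2)) fun g g' e => by
      have h1 : ∀ x y, (l : AdjoinRoot c) ^ r ∣ (g'.val - g.val) x y := fun x y => by
        rw [← b.sum_repr ((g'.val - g.val) x y)]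
        refine dvd_sum fun i _ => ?_
        obtain ⟨z, hz⟩ : (l : ℤ_[l]) ^ r ∣ b.repr ((g'.val - g.val) x y) i := by
          rw [← Ideal.mem_span_singleton, ← PadicInt.ker_toZModPow, RingHom.mem_ker,
            Matrix.sub_apply, map_sub, Finsupp.sub_apply, map_sub, sub_eq_zero]
          exact (congrFun e (x, y, i)).symm
        rw [hz, Algebra.smul_def, map_mul, map_pow, map_natCast, mul_assoc]
        exact dvd_mul_right _ _
      choose y hy using h1
      have h2 : g'.val = g.val + (l : AdjoinRoot c) ^ r • of y := by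
        ext x z
        rw [Matrix.add_apply, Matrix.smul_apply, of_apply, smul_eq_mul, ← hy, Matrix.sub_apply,
          add_sub_cancel]
      refine mem_St (y := 1 + α' * ((g⁻¹).val * of y * α)) (D.nzd hα) ?_
      rw [Units.val_mul, h2, mul_add, mul_add, add_mul, Units.inv_mul, one_mul, mul_one,
        ← mul_assoc α, h, smul_mul_assoc, one_mul, mul_smul_comm, smul_mul_assoc]
  refine ⟨key.1, key.2.trans_eq ?_⟩
  rw [Nat.card_fun, Nat.card_zmod, ← pow_mul]
  simp only [Nat.card_eq_fintype_card, Fintype.card_prod, Fintype.card_fin]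
  congr 1
  ring

/-- A prime of degree one. -/
theorem res {w : AdjoinRoot c} (h : ∏ i, ‖s i w‖ = ‖(l : PadicAlgCl l)‖) :
    ∃ π : AdjoinRoot c →+* ZMod l, ∀ x, π x = 0 ↔ w ∣ x := by
  have l0 : 0 < ‖(l : PadicAlgCl l)‖ := norm_pos_iff.2 la_l
  have h0 : ∀ i, s i w ≠ 0 := fun i => norm_ne_zero_iff.1
    (prod_ne_zero_iff.1 (h ▸ l0.ne') i (mem_univ i))
  obtain ⟨i, hi⟩ : ∃ i, ‖s i w‖ < 1 := by
    by_contra hc
    rw [prod_eq_one fun i _ => le_antisymm (D.le i w) (not_lt.1 fun e => hc ⟨i, e⟩)] at h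
    exact (dl_l (l := l)).ne' h
  rw [← mul_prod_erase _ _ (mem_univ i)] at h
  have p1 : ∀ S : Finset (Fin n), ∏ j ∈ S, ‖s j w‖ ≤ 1 := fun S =>
    prod_le_one (fun _ _ => norm_nonneg _) fun j _ => D.le j w
  have h1 : ‖s i w‖ = ‖(l : PadicAlgCl l)‖ := le_antisymm (D.val_one hi)
    (h.ge.trans (mul_le_of_le_one_right (norm_nonneg _) (p1 _)))
  have h2 : ∀ j, j ≠ i → ‖s j w‖ = 1 := fun j hj => by
    rw [h1, mul_eq_left₀ l0.ne', ← mul_prod_erase _ _ (mem_erase.2 ⟨hj, mem_univ j⟩)] at h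
    exact le_antisymm (D.le j w) (h.ge.trans (mul_le_of_le_one_right (norm_nonneg _) (p1 _)))
  have h3 : ∀ x, ∃ y : ℤ_[l], algebraMap _ _ y = s i x := fun x => by
    obtain ⟨y, hy⟩ : s i x ∈ Set.range (algebraMap ℚ_[l] (PadicAlgCl l)) := by
      refine (InfiniteGalois.mem_range_algebraMap_iff_fixed _).2 fun σ => ?_
      obtain ⟨j, hj⟩ := D.perm σ i
      have : j = i := by
        by_contra e
        exact hi.ne (by rw [← la_aut σ, ← hj, h2 j e])
      rw [← hj, this]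
    exact ⟨⟨y, by rw [← norm_algebraMap' (PadicAlgCl l), hy]; exact D.le i x⟩, hy⟩
  choose φ hφ using h3
  let ψ : AdjoinRoot c →+* ℤ_[l] :=
    { toFun := φ
      map_one' := la_inj (by simp only [hφ, map_one])
      map_mul' := fun x y => la_inj (by simp only [hφ, map_mul])
      map_zero' := la_inj (by simp only [hφ, map_zero])
      map_add' := fun x y => la_inj (by simp only [hφ, map_add]) }
  refine ⟨PadicInt.toZMod.comp ψ, fun x => ?_⟩
  change φ x ∈ RingHom.ker PadicInt.toZMod ↔ _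
  rw [PadicInt.ker_toZMod, PadicInt.maximalIdeal_eq_span_p, Ideal.mem_span_singleton,
    ← PadicInt.norm_lt_one_iff_dvd, ← dl_norm, hφ]
  refine ⟨fun e => D.div h0 fun j => ?_, fun ⟨y, e⟩ => ?_⟩
  · rcases eq_or_ne j i with rfl | hj
    · exact h1 ▸ D.val_one e
    · exact h2 j hj ▸ D.le j x
  · rw [e, map_mul, norm_mul]
    exact (mul_le_of_le_one_right (norm_nonneg _) (D.le i y)).trans_lt hi

/-- The index of the stabiliser of a neighbour at a prime of degree one. -/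
theorem St_idxB {α : Matrix (Fin 2) (Fin 2) (AdjoinRoot c)}
    (h : ∏ i, ‖s i α.det‖ = ‖(l : PadicAlgCl l)‖) :
    (St α).index ≠ 0 ∧ (St α).index ≤ l + 1 := by
  have hw := D.nzd fun i => norm_ne_zero_iff.1
    (prod_ne_zero_iff.1 (h ▸ norm_ne_zero_iff.2 la_l) i (mem_univ i))
  obtain ⟨π, hπ⟩ := D.res h
  choose f k k1 k2 using fun g : GL (Fin 2) (AdjoinRoot c) => MT.tree_dec hw π hπ (m := g.val * α)
    (by rw [det_mul]; exact associated_unit_mul_left _ _ ((isUnit_iff_isUnit_det _).1 g.isUnit))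
  have key := sub_idx (St α) f fun g g' e => mem_St (y := (k g)⁻¹ * k g') hw (by
    rw [Units.val_mul, mul_assoc, Units.inv_mul_eq_iff_eq_mul, ← mul_assoc, k2, k2, e, mul_assoc _ (k g),
      mul_nonsing_inv_cancel_left _ _ (k1 g)])
  exact ⟨key.1, key.2.trans_eq (by simp)⟩

end Et

end Pool.Agent.MW
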