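import Mathlib

/-! The local theory of the integral model: alignment, levels and moves. -/

set_option autoImplicit false

noncomputable section

namespace Pool.Agent.MT

open NumberField Matrix Ideal UniqueFactorizationMonoid

section ded
variable {O : Type*} [CommRing O] [IsDedekindDomain O]

theorem lj_fac {c : O} (hc : c ≠ 0) (P : Ideal O) [P.IsMaximal] :
    ∃ (v : ℕ) (C : Ideal O), P ⊔ C = ⊤ ∧ span {c} = P ^ v * C := by
  classical
  obtain ⟨C, h1, h2⟩ := Ideal.eq_prime_pow_mul_coprime (I := span {c})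
    (by simpa [span_singleton_eq_bot] using hc) P
  exact ⟨_, C, h1, h2⟩

theorem lj_dvd {P C D : Ideal O} (hP : P ≠ 0) (h : P ⊔ C = ⊤) (N v : ℕ) :
    P ^ N ∣ D * (P ^ v * C) ↔ P ^ (N - v) ∣ D := by
  have hc : ∀ n, IsCoprime (P ^ n) C := fun n => (isCoprime_iff_sup_eq.2 h).pow_left
  rw [← mul_assoc]
  refine ⟨fun h1 => ?_, fun h1 => Dvd.dvd.mul_right ?_ C⟩
  · have h2 := (hc N).dvd_of_dvd_mul_right h1
    rcases le_total N v with h3 | h3
    · rw [Nat.sub_eq_zero_of_le h3, pow_zero]; exact one_dvd _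
    · rw [← Nat.sub_add_cancel h3, pow_add] at h2
      exact (mul_dvd_mul_iff_right (pow_ne_zero _ hP)).1 h2
  · exact (pow_dvd_pow P (by omega : N ≤ N - v + v)).trans
      (by rw [pow_add]; exact mul_dvd_mul_right h1 _)

theorem lj_mem {P C : Ideal O} (hP : P ≠ 0) (h : P ⊔ C = ⊤) {c y : O} {v : ℕ}
    (e : span {c} = P ^ v * C) (N : ℕ) : c * y ∈ P ^ N ↔ y ∈ P ^ (N - v) := by
  rw [← dvd_span_singleton, ← dvd_span_singleton, ← lj_dvd hP h, ← e,
    span_singleton_mul_span_singleton, mul_comm]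

theorem lj_dvd_of_pow {I J : Ideal O} (hI : I ≠ 0)
    (h : ∀ (P : Ideal O) (n : ℕ), P.IsMaximal → P ^ n ∣ I → P ^ n ∣ J) : I ∣ J := by
  classical
  rcases eq_or_ne J 0 with rfl | hJ
  · exact dvd_zero _
  rw [dvd_iff_normalizedFactors_le_normalizedFactors hI hJ, Multiset.le_iff_count]
  intro P
  by_cases hP : P ∈ normalizedFactors I
  · have h1 := prime_of_normalized_factor P hP
    have h2 : P ^ (normalizedFactors I).count P ∣ I := by
      conv_rhs => rw [← Ideal.prod_normalizedFactors_eq_self hI]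
      rw [← Multiset.prod_replicate]
      exact Multiset.prod_dvd_prod_of_le (Multiset.le_count_iff_replicate_le.1 le_rfl)
    have h3 := (dvd_iff_normalizedFactors_le_normalizedFactors (pow_ne_zero _ h1.ne_zero) hJ).1
      (h P _ ((isPrime_of_prime h1).isMaximal h1.ne_zero) h2)
    rw [normalizedFactors_pow, normalizedFactors_irreducible h1.irreducible, normalize_eq,
      Multiset.nsmul_singleton] at h3
    exact Multiset.le_count_iff_replicate_le.2 h3
  · rw [Multiset.count_eq_zero_of_notMem hP]; exact Nat.zero_le _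

end ded

variable {κ : Type} [DecidableEq κ]

/-- the product of the rings of integers -/
abbrev OO (E : κ → Type) [∀ k, Field (E k)] := ∀ k, 𝓞 (E k)

variable {E : κ → Type} [∀ k, Field (E k)] [∀ k, NumberField (E k)]

/-- the element with component `a` at `k` and one elsewhere -/
abbrev ins (k : κ) (a : 𝓞 (E k)) : OO E := Pi.mulSingle k a

/-- An optimal embedding of the integers at the prime `l`. -/
structure LJ (E : κ → Type) [∀ k, Field (E k)] (cj : ∀ k, 𝓞 (E k) ≃+* 𝓞 (E k)) (l : ℕ) (R : Type)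
    [CommRing R] where
  j : OO E →+* Matrix (Fin 2) (Fin 2) R
  inv : ∀ k x, cj k (cj k x) = x
  adj : ∀ x, j (fun k => cj k (x k)) = (j x).adjugate
  reg : ∀ r : R, (l : R) * r = 0 → r = 0
  jac : ∀ r : R, IsUnit (1 + (l : R) * r)
  pure : ∀ x Y, j x = (l : R) • Y → ∀ k, (l : 𝓞 (E k)) ∣ x k
  dense : ∀ r : R, ∃ x r', j x = (r + l * r') • 1
  del : ∃ (δ : OO E) (n : ℕ), n.Coprime l ∧ ∀ k, cj k (δ k) = -δ k ∧ 2 * δ k ∣ (n : 𝓞 (E k))

namespace LJ

variable {cj : ∀ k, 𝓞 (E k) ≃+* 𝓞 (E k)} {l : ℕ} {R : Type} [CommRing R] (L : LJ E cj l R)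

/-- the matrices whose columns lie in `I R ^ 2` -/
def In (k : κ) (I : Ideal (𝓞 (E k))) : AddSubgroup (Matrix (Fin 2) (Fin 2) R) :=
  AddSubgroup.closure {Z | ∃ x Y, x k ∈ I ∧ Z = L.j x * Y}

/-- the ideals `D` are generated by `d` at `l` -/
def Lev (d : R) (D : ∀ k, Ideal (𝓞 (E k))) : Prop :=
  ∃ (x : OO E) (u : R), IsUnit u ∧ L.j x = (u * d) • 1 ∧ ∀ k, x k ≠ 0 ∧
    ∀ (P : Ideal (𝓞 (E k))) (n : ℕ), P.IsMaximal → (l : 𝓞 (E k)) ∈ P → (P ^ n ∣ D k ↔ x k ∈ P ^ n)

/-- at the primes fixed by the conjugation the matrix is a scalar times a unit -/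
def Inv (g : Matrix (Fin 2) (Fin 2) R) (D : ∀ k, Ideal (𝓞 (E k))) : Prop :=
  ∀ k (P : Ideal (𝓞 (E k))) (r : ℕ), P.IsMaximal → (l : 𝓞 (E k)) ∈ P → P.map (cj k) = P →
    P ^ (2 * r - 1) ∣ D k → g ∈ L.In k (P ^ r)

variable {k : κ} {I J : Ideal (𝓞 (E k))} {X : Matrix (Fin 2) (Fin 2) R}

omit [DecidableEq κ] [∀ k, NumberField (E k)]

include L in
theorem unit {n : ℕ} (h : n.Coprime l) : IsUnit (n : R) := by
  obtain ⟨a, b, e⟩ := Nat.Coprime.cast (R := R) h
  have := L.jac (-b)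
  rw [show 1 + (l : R) * -b = a * n by linear_combination -e] at this
  exact isUnit_of_mul_isUnit_right this

include L in
theorem reg_pow (m : ℕ) (r : R) (h : (l : R) ^ m * r = 0) : r = 0 := by
  induction m with
  | zero => simpa using h
  | succ m ih => exact ih (L.reg _ (by rw [← h]; ring))

include L in
theorem reg_nat [hl : Fact l.Prime] {N : ℕ} (hN : N ≠ 0) (r : R) (h : (N : R) * r = 0) : r = 0 := by
  obtain ⟨a, n, h1, rfl⟩ := Nat.exists_eq_pow_mul_and_not_dvd hN l hl.out.ne_one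
  rw [Nat.cast_mul, Nat.cast_pow, mul_assoc] at h
  exact (L.unit ((hl.out.coprime_iff_not_dvd.2 h1).symm)).mul_right_eq_zero.1 (L.reg_pow a _ h)

theorem j_nat (n : ℕ) (Y : Matrix (Fin 2) (Fin 2) R) : L.j (n : OO E) * Y = (n : R) • Y := by
  rw [map_natCast, ← nsmul_eq_mul, Nat.cast_smul_eq_nsmul]

theorem j_tr (x : OO E) : L.j (fun k => x k + cj k (x k)) = (L.j x).trace • 1 := by
  have : (fun k => x k + cj k (x k)) = x + fun k => cj k (x k) := rfl
  rw [this, map_add, L.adj, adjugate_fin_two, trace_fin_two]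
  ext a b
  fin_cases a <;> fin_cases b <;> simp [add_comm]

theorem j_det (x : OO E) : L.j (fun k => x k * cj k (x k)) = (L.j x).det • 1 := by
  have : (fun k => x k * cj k (x k)) = x * fun k => cj k (x k) := rfl
  rw [this, map_mul, L.adj, mul_adjugate]

theorem in_gen {x : OO E} (h : x k ∈ I) (Y : Matrix (Fin 2) (Fin 2) R) : L.j x * Y ∈ L.In k I :=
  AddSubgroup.subset_closure ⟨x, Y, h, rfl⟩

variable {L}

theorem in_ind {p : Matrix (Fin 2) (Fin 2) R → Prop} (h : X ∈ L.In k I)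
    (h1 : ∀ x Y, x k ∈ I → p (L.j x * Y)) (h0 : p 0) (h2 : ∀ A B, p A → p B → p (A + B)) : p X := by
  have : p X ∧ p (-X) := by
    refine AddSubgroup.closure_induction (p := fun X _ => p X ∧ p (-X)) ?_ ?_ ?_ ?_ h
    · rintro _ ⟨x, Y, hx, rfl⟩
      exact ⟨h1 x Y hx, by rw [← mul_neg]; exact h1 x _ hx⟩
    · exact ⟨h0, by rwa [neg_zero]⟩
    · intro A B _ _ hA hB
      exact ⟨h2 _ _ hA.1 hB.1, by rw [neg_add]; exact h2 _ _ hA.2 hB.2⟩
    · intro A _ hA
      exact ⟨hA.2, by rw [neg_neg]; exact hA.1⟩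
  exact this.1

theorem in_mul (h : X ∈ L.In k I) (Y : Matrix (Fin 2) (Fin 2) R) : X * Y ∈ L.In k I :=
  in_ind (p := fun X => X * Y ∈ L.In k I) h
    (fun x Z hx => by rw [mul_assoc]; exact L.in_gen hx _) (by rw [zero_mul]; exact zero_mem _)
    fun A B hA hB => by rw [add_mul]; exact add_mem hA hB

theorem in_smul (h : X ∈ L.In k I) (r : R) : r • X ∈ L.In k I := by
  have := in_mul h (r • 1)
  rwa [Matrix.mul_smul, mul_one] at this

theorem in_jmul (h : X ∈ L.In k I) {x : OO E} (hx : x k ∈ J) : L.j x * X ∈ L.In k (J * I) :=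
  in_ind (p := fun X => L.j x * X ∈ L.In k (J * I)) h
    (fun y Z hy => by
      rw [← mul_assoc, ← map_mul]; exact L.in_gen (x := x * y) (mul_mem_mul hx hy) _)
    (by rw [mul_zero]; exact zero_mem _) fun A B hA hB => by rw [mul_add]; exact add_mem hA hB

theorem in_mono (h : X ∈ L.In k I) (hIJ : I ≤ J) : X ∈ L.In k J :=
  AddSubgroup.closure_mono (by rintro _ ⟨x, Y, hx, rfl⟩; exact ⟨x, Y, hIJ hx, rfl⟩) h

theorem in_j (h : X ∈ L.In k I) (x : OO E) : L.j x * X ∈ L.In k I :=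
  in_mono (in_jmul h (J := ⊤) trivial) mul_le_right

/-- ideals that are trivial at `l` do not matter -/
theorem in_cop (h : X ∈ L.In k I) {n : ℕ} (hn : n.Coprime l) (hJ : (n : 𝓞 (E k)) ∈ J) :
    X ∈ L.In k (J * I) := by
  obtain ⟨u, hu⟩ := (L.unit hn).exists_left_inv
  have := in_smul (in_jmul h (x := (n : OO E)) hJ) u
  rwa [j_nat, smul_smul, hu, one_smul] at this

variable (L)

theorem in_top (X : Matrix (Fin 2) (Fin 2) R) : X ∈ L.In k ⊤ := by
  simpa using L.in_gen (k := k) (I := ⊤) (x := 1) trivial X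

theorem in_nat {n : ℕ} (hn : n.Coprime l) (hJ : (n : 𝓞 (E k)) ∈ J) (X : Matrix (Fin 2) (Fin 2) R) :
    X ∈ L.In k J := in_mono (in_cop (L.in_top X) hn hJ) mul_le_left

theorem in_sub {x : OO E} (hx : 1 - x k ∈ I) (h : L.j x * X ∈ L.In k I) : X ∈ L.In k I := by
  have := add_mem (L.in_gen (x := 1 - x) hx X) h
  rwa [map_sub, map_one, sub_mul, one_mul, sub_add_cancel] at this

variable {L}

/-- for an ideal fixed by the conjugation the set is a two sided ideal -/
theorem in_left (h : X ∈ L.In k I) (hI : I.map (cj k) = I) (Y : Matrix (Fin 2) (Fin 2) R) :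
    Y * X ∈ L.In k I := by
  obtain ⟨δ, n, hn, hδ⟩ := L.del
  choose m hm using fun k => (hδ k).2
  obtain ⟨u, hu⟩ := (L.unit (hn.pow_left 2)).exists_left_inv
  have key : ∀ (x : OO E) (Z : Matrix (Fin 2) (Fin 2) R), x k ∈ I → (L.j x).trace • Z ∈ L.In k I := by
    intro x Z hx
    have := L.in_gen (k := k) (I := I) (x := fun k => x k + cj k (x k))
      (I.add_mem hx (hI ▸ mem_map_of_mem _ hx)) Z
    rwa [j_tr, smul_mul_assoc, one_mul] at this
  refine in_ind (p := fun X => Y * X ∈ L.In k I) h (fun x Z hx => ?_)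
    (by rw [mul_zero]; exact zero_mem _) fun A B hA hB => by rw [mul_add]; exact add_mem hA hB
  have e : ((n ^ 2 : ℕ) : OO E) * x = (fun k => x k + cj k (x k)) * (2 * m ^ 2 * δ ^ 2) +
      (fun k => (δ * x) k + cj k ((δ * x) k)) * (2 * m ^ 2 * δ) := by
    funext k
    simp only [Pi.mul_apply, Pi.add_apply, Pi.pow_apply, Pi.natCast_apply, Nat.cast_pow, map_mul,
      (hδ k).1, Pi.ofNat_apply, hm k]
    ring
  have e2 := congrArg L.j e
  rw [map_mul, j_nat, map_add, map_mul, map_mul _ _ (2 * m ^ 2 * δ), j_tr, j_tr, smul_mul_assoc,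
    smul_mul_assoc, one_mul, one_mul] at e2
  have h3 := in_smul (add_mem (key x (Y * L.j (2 * m ^ 2 * δ ^ 2) * Z) hx)
    (key (δ * x) (Y * L.j (2 * m ^ 2 * δ) * Z) (I.mul_mem_left _ hx))) u
  have e3 : Y * (L.j x * Z) = u • (Y * (((n ^ 2 : ℕ) : R) • L.j x) * Z) := by
    rw [Matrix.mul_smul, smul_mul_assoc, smul_smul, hu, one_smul, mul_assoc]
  rw [e3, e2]
  simpa only [mul_add, add_mul, Matrix.mul_smul, smul_mul_assoc] using h3

theorem Inv.mul {g : Matrix (Fin 2) (Fin 2) R} {D : ∀ k, Ideal (𝓞 (E k))} (h : L.Inv g D)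
    (A B : Matrix (Fin 2) (Fin 2) R) : L.Inv (A * g * B) D := fun k P r h1 h2 h3 h4 =>
  in_mul (in_left (h k P r h1 h2 h3 h4) (by rw [Ideal.map_pow, h3]) A) B

theorem Lev.mul {d w : R} {D : ∀ k, Ideal (𝓞 (E k))} (h : L.Lev d D) (hw : IsUnit w) :
    L.Lev (w * d) D := by
  obtain ⟨x, u, hu, h1, h2⟩ := h
  obtain ⟨v, hv⟩ := hw.exists_left_inv
  exact ⟨x, u * v, hu.mul (IsUnit.of_mul_eq_one _ hv),
    by rw [h1, mul_assoc, ← mul_assoc v, hv, one_mul], h2⟩

variable (L)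

theorem pure_pow (m : ℕ) : ∀ (x : OO E) (Y : Matrix (Fin 2) (Fin 2) R), L.j x = (l : R) ^ m • Y →
    ∀ k, (l : 𝓞 (E k)) ^ m ∣ x k := by
  induction m with
  | zero => intro x Y _ k; simp
  | succ m ih =>
    intro x Y h
    choose y hy using L.pure x ((l : R) ^ m • Y) (by rw [h, smul_smul, pow_succ'])
    have e : x = (l : OO E) * y := funext hy
    rw [e, map_mul, j_nat, pow_succ', mul_smul] at h
    have h2 : L.j y = (l : R) ^ m • Y := by
      ext a b
      have := congrFun (congrFun h a) b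
      exact sub_eq_zero.1 (L.reg _ (by rw [mul_sub]; exact sub_eq_zero.2 this))
    intro k
    rw [hy k, pow_succ']
    exact mul_dvd_mul_left _ (ih y Y h2 k)

theorem dense_pow (m : ℕ) (r : R) : ∃ x r', L.j x = (r + (l : R) ^ m * r') • 1 := by
  induction m with
  | zero => exact ⟨0, -r, by simp⟩
  | succ m ih =>
    obtain ⟨x, r', h⟩ := ih
    obtain ⟨y, r'', h'⟩ := L.dense (-r')
    refine ⟨x + ((l ^ m : ℕ) : OO E) * y, r'', ?_⟩
    rw [map_add, map_mul, j_nat, h, h', smul_smul, ← add_smul]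
    congr 1
    push_cast; ring

/-- comparison of two elements whose images differ by a scalar -/
theorem mem_of_smul {x y : OO E} {u : R} (h : L.j x = u • L.j y) {n : ℕ}
    (hl : (l : 𝓞 (E k)) ^ n ∈ I) (hy : y k ∈ I) : x k ∈ I := by
  obtain ⟨z, r, hz⟩ := L.dense_pow n u
  obtain ⟨w, hw⟩ := L.pure_pow n (z * y - x) (r • L.j y) (by
    rw [map_sub, map_mul, hz, h, smul_mul_assoc, one_mul, add_smul, smul_smul, add_sub_cancel_left]) k
  have : x k = z k * y k - (l : 𝓞 (E k)) ^ n * w := by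
    rw [← hw]; simp
  rw [this]
  exact I.sub_mem (I.mul_mem_left _ hy) (I.mul_mem_right _ hl)

end LJ

end Pool.Agent.MT
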