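import Pool.Agent.Lib.MP_d61fbb_ag.MW.LJ0

/-! The local theory of the integral model: moves. -/

set_option autoImplicit false

noncomputable section

namespace Pool.Agent.MT

open NumberField Matrix Ideal

theorem lj_not_unit {E : Type} [Field E] [NumberField E] {l : ℕ} (hl : l ≠ 1) :
    ¬ IsUnit (l : 𝓞 E) := fun h => by
  have h2 : absNorm (span {(l : 𝓞 E)}) = 1 := absNorm_eq_one_iff.2 (span_singleton_eq_top.2 h)
  rw [absNorm_span_natCast, RingOfIntegers.rank] at h2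
  exact (Nat.pow_eq_one.1 h2).elim hl Module.finrank_pos.ne'

theorem lj_norm_ne {E : Type} [Field E] [NumberField E] {x : 𝓞 E} (h : x ≠ 0) :
    absNorm (span {x}) ≠ 0 := fun e => h (span_singleton_eq_bot.1 (absNorm_eq_zero_iff.1 e))

theorem lj_max_ne {E : Type} [Field E] [NumberField E] {P : Ideal (𝓞 E)} (h : P.IsMaximal) :
    P ≠ 0 := Ring.ne_bot_of_isMaximal_of_not_isField h (RingOfIntegers.not_isField E)

variable {κ : Type} [DecidableEq κ] [Fintype κ] {E : κ → Type} [∀ k, Field (E k)]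
  [∀ k, NumberField (E k)]

omit [DecidableEq κ] in
theorem lj_nat (x : OO E) (hx : ∀ k, x k ≠ 0) : ∃ (N : ℕ) (y : OO E), N ≠ 0 ∧ (N : OO E) = x * y := by
  have h : ∀ k, x k ∣ ((∏ k, absNorm (span {x k}) : ℕ) : 𝓞 (E k)) := fun k =>
    (mem_span_singleton.1 (absNorm_mem _)).trans
      (Nat.cast_dvd_cast (Finset.dvd_prod_of_mem (fun k => absNorm (span {x k})) (Finset.mem_univ k)))
  choose y hy using h
  exact ⟨_, y, Finset.prod_ne_zero_iff.2 fun k _ => lj_norm_ne (hx k), funext hy⟩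

omit [Fintype κ] [∀ k, NumberField (E k)] in
theorem ins_ne {k : κ} {a : 𝓞 (E k)} (ha : a ≠ 0) (k' : κ) : ins k a k' ≠ 0 := by
  by_cases h : k' = k
  · subst h; simpa using ha
  · simp [Pi.mulSingle_eq_of_ne h]

omit [Fintype κ] [∀ k, NumberField (E k)] in
theorem ins_cj (cj : ∀ k, 𝓞 (E k) ≃+* 𝓞 (E k)) (k : κ) (a : 𝓞 (E k)) :
    (fun k' => ins k a k' * cj k' (ins k a k')) = ins k (a * cj k a) := by
  funext k'
  by_cases h : k' = k
  · subst h; simp
  · simp [Pi.mulSingle_eq_of_ne h]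

namespace LJ

variable {cj : ∀ k, 𝓞 (E k) ≃+* 𝓞 (E k)} {l : ℕ} {R : Type} [CommRing R] {L : LJ E cj l R}
  {k : κ} {I J : Ideal (𝓞 (E k))} {X : Matrix (Fin 2) (Fin 2) R}

omit [Fintype κ] [∀ k, NumberField (E k)] in
theorem in_div {c c' : 𝓞 (E k)} (e : span {c'} * I ≤ span {c} * J) (h : X ∈ L.In k I) :
    ∃ X' ∈ L.In k J, L.j (ins k c') * X = L.j (ins k c) * X' := by
  refine in_ind (p := fun X => ∃ X' ∈ L.In k J, L.j (ins k c') * X = L.j (ins k c) * X') h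
    (fun x Y hx => ?_) ⟨0, zero_mem _, by rw [mul_zero, mul_zero]⟩ ?_
  · obtain ⟨y, hy, e'⟩ := Ideal.mem_span_singleton_mul.1
      (e (mul_mem_mul (mem_span_singleton_self c') hx))
    refine ⟨L.j (Function.update x k y) * Y, L.in_gen (by simpa using hy) Y, ?_⟩
    rw [← mul_assoc, ← mul_assoc, ← map_mul, ← map_mul]
    congr 2
    funext k'
    by_cases h : k' = k
    · subst h; simp [e']
    · simp [Pi.mulSingle_eq_of_ne h, Function.update_of_ne h]
  · rintro A B ⟨A', h1, h2⟩ ⟨B', h3, h4⟩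
    exact ⟨A' + B', add_mem h1 h3, by rw [mul_add, mul_add, h2, h4]⟩

omit [Fintype κ] [∀ k, NumberField (E k)] in
theorem in_other {k' : κ} (h : k ≠ k') (c : 𝓞 (E k')) :
    L.j (ins k' c) * X ∈ L.In k I ↔ X ∈ L.In k I :=
  ⟨L.in_sub (by simp [Pi.mulSingle_eq_of_ne h]), fun h => in_j h _⟩

omit [Fintype κ] [∀ k, NumberField (E k)] in
/-- the move exists -/
theorem move {A B : Ideal (𝓞 (E k))} {a β : 𝓞 (E k)} (e : span {β} * A = span {a} * B)
    (h : X ∈ L.In k A) : ∃ X', L.j (ins k a) * X' = L.j (ins k β) * X := by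
  obtain ⟨X', -, h'⟩ := in_div e.le h
  exact ⟨X', h'.symm⟩

omit [Fintype κ] [∀ k, NumberField (E k)] in
theorem move_det {a β : 𝓞 (E k)} {X' : Matrix (Fin 2) (Fin 2) R}
    (e : L.j (ins k a) * X' = L.j (ins k β) * X) :
    L.j (ins k (a * cj k a)) * (X'.det • 1) = L.j (ins k (β * cj k β)) * (X.det • 1) := by
  have := congrArg det e
  rw [det_mul, det_mul] at this
  rw [← ins_cj, ← ins_cj, L.j_det, L.j_det, smul_mul_smul_comm, smul_mul_smul_comm, this]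

variable [hl : Fact l.Prime]

omit [DecidableEq κ] in
theorem j_inj {x : OO E} (hx : ∀ k, x k ≠ 0) (h : L.j x * X = 0) : X = 0 := by
  obtain ⟨N, y, h0, e⟩ := lj_nat x hx
  have : (N : R) • X = 0 := by rw [← L.j_nat, e, mul_comm x, map_mul, mul_assoc, h, mul_zero]
  ext a b
  exact L.reg_nat h0 _ (congrFun (congrFun this a) b)

theorem in_cancel {P C : Ideal (𝓞 (E k))} (h : P ⊔ C = ⊤) {c : 𝓞 (E k)} (hc : c ≠ 0) {v : ℕ}
    (e : span {c} = P ^ v * C) (N : ℕ) :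
    L.j (ins k c) * X ∈ L.In k (P ^ N) ↔ X ∈ L.In k (P ^ (N - v)) := by
  have hcv : c ∈ P ^ v := mul_le_left (e ▸ mem_span_singleton_self c)
  refine ⟨fun h1 => ?_, fun h1 => in_mono (in_jmul h1 (J := P ^ v) (by simpa using hcv)) ?_⟩
  · rcases le_total N v with h3 | h3
    · rw [Nat.sub_eq_zero_of_le h3, pow_zero, one_eq_top]; exact L.in_top X
    obtain ⟨p, hp, c', hc', e'⟩ := Submodule.mem_sup.1
      ((eq_top_iff_one _).1 (pow_sup_eq_top (n := N - v) h))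
    obtain ⟨X', h4, h5⟩ := in_div (c := c) (c' := c') (J := P ^ (N - v)) (by
      rw [e, mul_comm (P ^ v), mul_assoc, ← pow_add, Nat.add_sub_cancel' h3]
      exact mul_mono_left ((span_singleton_le_iff_mem _).2 hc')) h1
    have h6 : L.j (ins k c') * X = X' := by
      refine sub_eq_zero.1 (j_inj (L := L) (ins_ne hc) ?_)
      rw [mul_sub, ← h5, ← mul_assoc, ← mul_assoc, ← map_mul, ← map_mul, mul_comm (ins k c),
        sub_self]
    refine L.in_sub (x := ins k c') ?_ (h6 ▸ h4)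
    rw [← e']; simpa using hp
  · rw [← pow_add]
    exact pow_le_pow_right (by omega)

omit [Fintype κ] in
/-- divisors of powers of `l` have global generators -/
theorem exists_gen {d : R} {a : ℕ} (h : d ∣ (l : R) ^ a) :
    ∃ (x : OO E) (u : R), IsUnit u ∧ L.j x = (u * d) • 1 ∧ ∀ k, x k ≠ 0 := by
  obtain ⟨t, ht⟩ := h
  obtain ⟨x, r, hx⟩ := L.dense_pow (a + 1) d
  have hx' : L.j x = ((1 + l * (t * r)) * d) • 1 := by
    rw [hx, pow_succ, ht]; congr 1; ring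
  refine ⟨x, _, L.jac _, hx', fun k h0 => lj_not_unit (E := E k) hl.out.ne_one ?_⟩
  have h1 : x * Pi.single k 1 = 0 := by
    funext k'
    by_cases h : k' = k
    · subst h; simp [h0]
    · simp [Pi.single_eq_of_ne h]
  have h2 := congrArg L.j h1
  rw [map_mul, map_zero, hx', smul_mul_assoc, one_mul] at h2
  have h3 : L.j (Pi.single k 1) = (l : R) • 0 := by
    rw [smul_zero]
    ext i i'
    have h4 : (1 + l * (t * r)) * d * L.j (Pi.single k 1) i i' = 0 := congrFun (congrFun h2 i) i'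
    rw [mul_assoc, (L.jac _).mul_right_eq_zero] at h4
    exact L.reg_pow a _ (by rw [ht, mul_comm d, mul_assoc, h4, mul_zero])
  simpa [isUnit_iff_dvd_one] using L.pure _ _ h3 k

omit [DecidableEq κ] [Fintype κ] [∀ k, NumberField (E k)] in
theorem dvd_pow_of_nat (L : LJ E cj l R) {d : R} {N : ℕ} (hN : N ≠ 0) (h : d ∣ (N : R)) :
    ∃ a, d ∣ (l : R) ^ a := by
  obtain ⟨a, n, h1, rfl⟩ := Nat.exists_eq_pow_mul_and_not_dvd hN l hl.out.ne_one
  rw [Nat.cast_mul, Nat.cast_pow] at h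
  exact ⟨a, (L.unit (hl.out.coprime_iff_not_dvd.2 h1).symm).dvd_mul_right.1 h⟩

theorem lev_aux {d d' u : R} {c c' : 𝓞 (E k)} (hc' : c' ≠ 0) {x : OO E} (hu : IsUnit u)
    (hx : L.j x = (u * d) • 1) (h0 : ∀ k, x k ≠ 0)
    (e : L.j (ins k c) * (d' • 1) = L.j (ins k c') * (d • 1)) :
    ∃ (x' : OO E) (u' : R), IsUnit u' ∧ L.j x' = (u' * d') • 1 ∧ (∀ k, x' k ≠ 0) ∧
      ∀ k' (I : Ideal (𝓞 (E k'))) (n : ℕ), (l : 𝓞 (E k')) ^ n ∈ I →
        (ins k c k' * x' k' ∈ I ↔ ins k c' k' * x k' ∈ I) := by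
  have hz : L.j (ins k c' * x) = (u * d') • L.j (ins k c) := by
    rw [map_mul, hx, mul_smul, Matrix.mul_smul, ← e, Matrix.mul_smul, mul_one, smul_smul]
  obtain ⟨N, y, hN, e'⟩ := lj_nat (ins k c' * x) fun k' => mul_ne_zero (ins_ne hc' k') (h0 k')
  have h1 : (N : R) • (1 : Matrix (Fin 2) (Fin 2) R) = (u * d') • (L.j (ins k c) * L.j y) := by
    rw [← L.j_nat, e', map_mul, hz, mul_one, smul_mul_assoc]
  obtain ⟨a, ha⟩ := L.dvd_pow_of_nat (d := d') hN ⟨u * (L.j (ins k c) * L.j y) 0 0, by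
    have := congrFun (congrFun h1 0) 0
    simp only [Matrix.smul_apply, one_apply_eq, smul_eq_mul, mul_one] at this
    rw [this]; ring⟩
  obtain ⟨x', u', hu', hx', h0'⟩ := exists_gen (L := L) ha
  have hz' : L.j (ins k c * x') = (u' * d') • L.j (ins k c) := by
    rw [map_mul, hx', Matrix.mul_smul, mul_one]
  obtain ⟨v, hv⟩ := hu.exists_left_inv
  obtain ⟨v', hv'⟩ := hu'.exists_left_inv
  refine ⟨x', u', hu', hx', h0', fun k' I n hn => ⟨fun h => ?_, fun h => ?_⟩⟩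
  · refine L.mem_of_smul (x := ins k c' * x) (y := ins k c * x') (u := u * v') ?_ hn h
    rw [hz, hz', smul_smul]; congr 1; linear_combination (-(u * d')) * hv'
  · refine L.mem_of_smul (x := ins k c * x') (y := ins k c' * x) (u := u' * v) ?_ hn h
    rw [hz, hz', smul_smul]; congr 1; linear_combination (-(u' * d')) * hv

variable {D D' : ∀ k, Ideal (𝓞 (E k))}

theorem Lev.move {d d' : R} {c c' : 𝓞 (E k)} (h : L.Lev d D) (hc : c ≠ 0) (hc' : c' ≠ 0)
    (e : L.j (ins k c) * (d' • 1) = L.j (ins k c') * (d • 1))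
    (hD : D' k * span {c} = D k * span {c'}) (hD' : ∀ k', k' ≠ k → D' k' = D k') : L.Lev d' D' := by
  obtain ⟨x, u, hu, hx, h0⟩ := h
  obtain ⟨x', u', hu', hx', h0', h1⟩ := lev_aux hc' hu hx (fun k => (h0 k).1) e
  refine ⟨x', u', hu', hx', fun k' => ⟨h0' k', fun P n hP hlP => ?_⟩⟩
  by_cases h : k' = k
  · subst h
    obtain ⟨v, C, a1, a2⟩ := lj_fac hc P
    obtain ⟨w, C', b1, b2⟩ := lj_fac hc' P
    have h2 := h1 k' (P ^ (n + v)) (n + v) (pow_mem_pow hlP _)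
    simp only [Pi.mulSingle_eq_same] at h2
    rw [lj_mem (lj_max_ne hP) a1 a2, lj_mem (lj_max_ne hP) b1 b2, Nat.add_sub_cancel] at h2
    rw [h2, ← (h0 k').2 P _ hP hlP, ← lj_dvd (lj_max_ne hP) b1, ← b2, ← hD, a2,
      lj_dvd (lj_max_ne hP) a1, Nat.add_sub_cancel]
  · have h2 := h1 k' (P ^ n) n (pow_mem_pow hlP _)
    simp only [Pi.mulSingle_eq_of_ne h, one_mul] at h2
    rw [h2, hD' k' h, (h0 k').2 P n hP hlP]

/-- the new level is integral at `l` -/
theorem Lev.dvd_move {d d' : R} {c c' : 𝓞 (E k)} (h : L.Lev d D) (hc' : c' ≠ 0)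
    (e : L.j (ins k c) * (d' • 1) = L.j (ins k c') * (d • 1)) {P : Ideal (𝓞 (E k))}
    (hP : P.IsMaximal) (hlP : (l : 𝓞 (E k)) ∈ P) {n : ℕ} (hn : P ^ n ∣ span {c}) :
    P ^ n ∣ D k * span {c'} := by
  obtain ⟨x, u, hu, hx, h0⟩ := h
  obtain ⟨x', u', -, -, -, h1⟩ := lev_aux hc' hu hx (fun k => (h0 k).1) e
  obtain ⟨w, C', b1, b2⟩ := lj_fac hc' P
  have h2 := h1 k (P ^ n) n (pow_mem_pow hlP _)
  simp only [Pi.mulSingle_eq_same] at h2
  rw [b2, lj_dvd (lj_max_ne hP) b1, (h0 k).2 P _ hP hlP, ← lj_mem (lj_max_ne hP) b1 b2, ← h2]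
  exact mul_mem_right _ _ (dvd_span_singleton.1 hn)

omit [DecidableEq κ] [Fintype κ] hl [∀ k, NumberField (E k)] in
theorem fac_cj {P C : Ideal (𝓞 (E k))} (hP : P.map (cj k) = P) (h : P ⊔ C = ⊤) {a : 𝓞 (E k)} {v : ℕ}
    (e : span {a} = P ^ v * C) :
    P ⊔ C * C.map (cj k) = ⊤ ∧ span {a * cj k a} = P ^ (2 * v) * (C * C.map (cj k)) := by
  have h1 := congrArg (Ideal.map (cj k)) h
  rw [Ideal.map_sup, hP, Ideal.map_top] at h1
  have h2 := congrArg (Ideal.map (cj k)) e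
  rw [Ideal.map_span, Set.image_singleton, Ideal.map_mul, Ideal.map_pow, hP] at h2
  refine ⟨by rw [sup_mul_eq_of_coprime_left h, h1], ?_⟩
  rw [← span_singleton_mul_span_singleton, e, h2]; ring

theorem Inv.move {g g' : Matrix (Fin 2) (Fin 2) R} {a β : 𝓞 (E k)} (h : L.Inv g D) (ha : a ≠ 0)
    (hβ : β ≠ 0) (e : L.j (ins k a) * g' = L.j (ins k β) * g)
    (hD : D' k * span {a * cj k a} = D k * span {β * cj k β})
    (hD' : ∀ k', k' ≠ k → D' k' = D k') : L.Inv g' D' := by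
  intro k' P r hP hlP hc hr
  by_cases hk : k' = k
  · subst hk
    rcases Nat.eq_zero_or_pos r with rfl | r0
    · rw [pow_zero, one_eq_top]; exact L.in_top _
    obtain ⟨v, C, a1, a2⟩ := lj_fac ha P
    obtain ⟨w, C', b1, b2⟩ := lj_fac hβ P
    obtain ⟨a3, a4⟩ := fac_cj hc a1 a2
    obtain ⟨b3, b4⟩ := fac_cj hc b1 b2
    have h1 : P ^ (2 * r - 1 + 2 * v) ∣ D' k' * span {a * cj k' a} := by
      rw [a4, lj_dvd (lj_max_ne hP) a3, Nat.add_sub_cancel]; exact hr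
    rw [hD, b4, lj_dvd (lj_max_ne hP) b3] at h1
    have h2 := h k' P (r + v - w) hP hlP hc ((pow_dvd_pow P (by omega)).trans h1)
    rw [← in_cancel b1 hβ b2, ← e, in_cancel a1 ha a2, Nat.add_sub_cancel] at h2
    exact h2
  · rw [← in_other hk a, e, in_other hk β]
    exact h k' P r hP hlP hc (hD' k' hk ▸ hr)

omit [DecidableEq κ] in
/-- the determinant divides every integer of the level -/
theorem Lev.dvd {d : R} (h : L.Lev d D) {N : ℕ} (hN : ∀ k, (N : 𝓞 (E k)) ∈ D k) : d ∣ (N : R) := by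
  obtain ⟨x, u, hu, hx, h0⟩ := h
  have key : ∀ k, ∃ n : ℕ, n.Coprime l ∧ x k ∣ ((n * N : ℕ) : 𝓞 (E k)) := by
    intro k
    obtain ⟨a, n, h1, h2⟩ := Nat.exists_eq_pow_mul_and_not_dvd (lj_norm_ne (h0 k).1) l hl.out.ne_one
    refine ⟨n, (hl.out.coprime_iff_not_dvd.2 h1).symm, mem_span_singleton.1 (dvd_span_singleton.1
      (lj_dvd_of_pow (by simpa [span_singleton_eq_bot] using (h0 k).1) fun P m hP hm => ?_))⟩
    rw [dvd_span_singleton] at hm ⊢
    rw [Nat.cast_mul]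
    by_cases hlP : (l : 𝓞 (E k)) ∈ P
    · exact mul_mem_left _ _ (le_of_dvd (((h0 k).2 P m hP hlP).2 hm) (hN k))
    · refine mul_mem_right _ _ ?_
      have h3 : ((absNorm (span {x k}) : ℕ) : 𝓞 (E k)) ∈ P ^ m :=
        (span_singleton_le_iff_mem _).2 hm (absNorm_mem _)
      rw [h2, Nat.cast_mul, Nat.cast_pow] at h3
      obtain ⟨y, i, hi, e⟩ := hP.exists_inv_pow P (x := (l : 𝓞 (E k)) ^ a)
        (fun h4 => hlP (hP.isPrime.mem_of_pow_mem a h4)) m
      rw [show (n : 𝓞 (E k)) = y * ((l : 𝓞 (E k)) ^ a * n) + i * n by linear_combination (-n) * e]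
      exact add_mem (mul_mem_left _ _ h3) (mul_mem_right _ _ hi)
  choose n hn1 hn2 using key
  have h1 : ∀ k, x k ∣ (((∏ k, n k) * N : ℕ) : 𝓞 (E k)) := fun k => (hn2 k).trans
    (Nat.cast_dvd_cast (Nat.mul_dvd_mul_right (Finset.dvd_prod_of_mem n (Finset.mem_univ k)) N))
  choose y hy using h1
  have e : (((∏ k, n k) * N : ℕ) : OO E) = x * y := funext hy
  have h2 : (((∏ k, n k) * N : ℕ) : R) • (1 : Matrix (Fin 2) (Fin 2) R) = (u * d) • L.j y := by
    rw [← L.j_nat, e, map_mul, hx, mul_one, smul_mul_assoc, one_mul]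
  have h3 := congrFun (congrFun h2 0) 0
  simp only [Matrix.smul_apply, one_apply_eq, smul_eq_mul, mul_one, Nat.cast_mul] at h3
  exact (L.unit (Nat.Coprime.prod_left fun k _ => hn1 k)).dvd_mul_left.1 ⟨u * L.j y 0 0, by
    rw [h3]; ring⟩

omit [DecidableEq κ] [Fintype κ] in
theorem lev_pow (L : LJ E cj l R) (m : ℕ) :
    L.Lev ((l : R) ^ m) fun k => span {(l : 𝓞 (E k)) ^ m} :=
  ⟨((l ^ m : ℕ) : OO E), 1, isUnit_one, by
    rw [← mul_one (L.j _), L.j_nat, one_mul, Nat.cast_pow], fun k =>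
    ⟨by simpa using fun h => (hl.out.ne_zero h).elim, fun P n _ _ => by
      rw [dvd_span_singleton]; simp⟩⟩

omit [DecidableEq κ] [Fintype κ] hl [∀ k, NumberField (E k)] in
/-- only the part of the level at `l` matters -/
theorem Lev.congr {d : R} (h : L.Lev d D) (e : ∀ k (P : Ideal (𝓞 (E k))) (n : ℕ), P.IsMaximal →
    (l : 𝓞 (E k)) ∈ P → (P ^ n ∣ D' k ↔ P ^ n ∣ D k)) : L.Lev d D' := by
  obtain ⟨x, u, hu, hx, h0⟩ := h
  exact ⟨x, u, hu, hx, fun k => ⟨(h0 k).1, fun P n hP hlP =>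
    (e k P n hP hlP).trans ((h0 k).2 P n hP hlP)⟩⟩

omit [DecidableEq κ] [Fintype κ] hl [∀ k, NumberField (E k)] in
theorem Inv.congr {g : Matrix (Fin 2) (Fin 2) R} (h : L.Inv g D)
    (e : ∀ k (P : Ideal (𝓞 (E k))) (n : ℕ), P.IsMaximal → (l : 𝓞 (E k)) ∈ P →
      P ^ n ∣ D' k → P ^ n ∣ D k) : L.Inv g D' :=
  fun k P r hP hlP hc hr => h k P r hP hlP hc (e k P _ hP hlP hr)

end LJ

end Pool.Agent.MT
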