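import Pool.Agent.Lib.MP_d61fbb_ag.MW.LJ1

/-! The local theory of the integral model: charts at a prime and aligned rows. -/

set_option autoImplicit false

noncomputable section

namespace Pool.Agent.MT

open NumberField Matrix Ideal

/-- a row that kills a matrix of very divisible determinant -/
theorem lj_row {O : Type*} [CommRing O] [IsDedekindDomain O] {P : Ideal O} (hP : P.IsMaximal)
    (h0 : P ≠ 0) (r : ℕ) : ∀ X : Matrix (Fin 2) (Fin 2) O, X.det ∈ P ^ (2 * r - 1) →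
      ∃ μ : Fin 2 → O, (∃ i, μ i ∉ P) ∧ ∀ b, (μ ᵥ* X) b ∈ P ^ r := by
  have h1 : (1 : O) ∉ P := (ne_top_iff_one P).1 hP.ne_top
  induction r with
  | zero => exact fun X _ => ⟨1, ⟨0, h1⟩, fun b => by simp⟩
  | succ r ih =>
    intro X hX
    by_cases hall : ∀ a b, X a b ∈ P
    · obtain ⟨π, hπ1, hπ2⟩ := SetLike.exists_of_lt (pow_succ_lt_pow h0 1)
      rw [pow_one] at hπ1
      obtain ⟨C, hC⟩ := dvd_span_singleton.2 hπ1
      have hPC : P ⊔ C = ⊤ := by
        by_contra h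
        have h2 : C ≤ P := (hP.eq_of_le h le_sup_left).symm ▸ le_sup_right
        exact hπ2 (by
          rw [pow_succ, pow_one]
          exact mul_mono_right h2 (hC ▸ mem_span_singleton_self π))
      obtain ⟨p, hp, c, hc, e⟩ := Submodule.mem_sup.1 ((eq_top_iff_one _).1 hPC)
      have hc' : c ∉ P := fun h => h1 (e ▸ add_mem hp h)
      have hdiv : ∀ a b, ∃ y, π * y = c * X a b := fun a b => by
        have : c * X a b ∈ span {π} := by
          rw [hC, mul_comm P]; exact mul_mem_mul hc (hall a b)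
        exact (mem_span_singleton.1 this).imp fun y hy => hy.symm
      choose Y hY using hdiv
      have e1 : span {π} = P ^ 1 * C := by rw [pow_one, hC]
      have hd : (of Y).det ∈ P ^ (2 * r - 1) := by
        have h2 : π * (π * (of Y).det) = c * c * X.det := by
          simp only [det_fin_two, of_apply]
          linear_combination (π * Y 1 1) * hY 0 0 + (c * X 0 0) * hY 1 1 -
            (π * Y 1 0) * hY 0 1 - (c * X 0 1) * hY 1 0
        have h3 : π * (π * (of Y).det) ∈ P ^ (2 * (r + 1) - 1) := h2 ▸ mul_mem_left _ _ hX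
        rw [lj_mem h0 hPC e1, lj_mem h0 hPC e1] at h3
        exact pow_le_pow_right (by omega) h3
      obtain ⟨μ, hμ, hb⟩ := ih _ hd
      refine ⟨μ, hμ, fun b => ?_⟩
      have h4 : c * (μ ᵥ* X) b = π * (μ ᵥ* of Y) b := by
        simp only [vecMul, dotProduct, Fin.sum_univ_two, of_apply]
        linear_combination (-μ 0) * hY 0 b - μ 1 * hY 1 b
      obtain ⟨y, i, hi, e'⟩ := hP.exists_inv_pow P hc' (r + 1)
      rw [show (μ ᵥ* X) b = y * (c * (μ ᵥ* X) b) + i * (μ ᵥ* X) b by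
        linear_combination (-(μ ᵥ* X) b) * e', h4]
      refine add_mem (mul_mem_left _ _ ?_) (mul_mem_right _ _ hi)
      rw [pow_succ']
      exact mul_mem_mul hπ1 (hb b)
    · have hd : X.det ∈ P ^ (r + 1) := pow_le_pow_right (by omega) hX
      have key : ∀ i b, (X.adjugate i ᵥ* X) b ∈ P ^ (r + 1) := fun i b => by
        have : (X.adjugate i ᵥ* X) b = (X.adjugate * X) i b := rfl
        rw [this, adjugate_mul, Matrix.smul_apply, smul_eq_mul]
        exact mul_mem_right _ _ hd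
      by_contra hno
      refine hall fun a b => ?_
      have h2 : ∀ i j, X.adjugate i j ∈ P := fun i j => by
        by_contra h
        exact hno ⟨X.adjugate i, ⟨j, h⟩, key i⟩
      have h00 := h2 1 1
      have h01 := h2 0 1
      have h10 := h2 1 0
      have h11 := h2 0 0
      simp only [adjugate_fin_two, of_apply, cons_val', cons_val_zero, cons_val_one,
        cons_val_fin_one, neg_mem_iff] at h00 h01 h10 h11
      fin_cases a <;> fin_cases b <;> assumption

/-- the special linear group is transitive on rows with a unit entry -/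
theorem lj_trans0 {R S : Type*} [CommRing R] [CommRing S] (ψ : R →+* S)
    (hψ : Function.Surjective ψ) (v : Fin 2 → S) (h : ∃ i, IsUnit (v i)) :
    ∃ s : Matrix (Fin 2) (Fin 2) R, s.det = 1 ∧ v ᵥ* s.map ψ = ![0, 1] := by
  have key : ∀ v : Fin 2 → S, IsUnit (v 0) →
      ∃ s : Matrix (Fin 2) (Fin 2) R, s.det = 1 ∧ v ᵥ* s.map ψ = ![0, 1] := by
    intro v hv
    obtain ⟨u, hu⟩ := hv.exists_left_inv
    obtain ⟨a, ha⟩ := hψ (u * (1 - v 1))
    obtain ⟨b, hb⟩ := hψ (-v 0)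
    refine ⟨!![1 + a * b, a; b, 1], by simp [det_fin_two], funext fun i => ?_⟩
    fin_cases i <;> simp [vecMul, dotProduct, Fin.sum_univ_two, ha, hb]
    · linear_combination (-(v 0) * (1 - v 1)) * hu
    · linear_combination (1 - v 1) * hu
  obtain ⟨i, hi⟩ := h
  fin_cases i
  · exact key v hi
  · obtain ⟨s, hs1, hs⟩ := key ![v 1, -v 0] hi
    refine ⟨!![0, -1; 1, 0] * s, by rw [det_mul, hs1, det_fin_two_of]; ring, ?_⟩
    rw [Matrix.map_mul, ← vecMul_vecMul, ← hs]
    congr 1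
    funext j
    fin_cases j <;> simp [vecMul, dotProduct, Fin.sum_univ_two]

theorem lj_trans {R S : Type*} [CommRing R] [CommRing S] (ψ : R →+* S)
    (hψ : Function.Surjective ψ) {v w : Fin 2 → S} (h : ∃ i, IsUnit (v i))
    (h' : ∃ i, IsUnit (w i)) :
    ∃ s : Matrix (Fin 2) (Fin 2) R, s.det = 1 ∧ v ᵥ* s.map ψ = w := by
  obtain ⟨s, hs1, hs⟩ := lj_trans0 ψ hψ v h
  obtain ⟨t, ht1, ht⟩ := lj_trans0 ψ hψ w h'
  refine ⟨s * t.adjugate, by rw [det_mul, det_adjugate, hs1, ht1]; simp, ?_⟩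
  rw [Matrix.map_mul, ← vecMul_vecMul, hs, ← ht, vecMul_vecMul, ← Matrix.map_mul, mul_adjugate, ht1,
    one_smul, Matrix.map_one _ (map_zero _) (map_one _), vecMul_one]

theorem lj_unit {O : Type*} [CommRing O] {P : Ideal O} (hP : P.IsMaximal) (r : ℕ) {a : O}
    (ha : a ∉ P) : IsUnit (Ideal.Quotient.mk (P ^ r) a) := by
  obtain ⟨y, i, hi, e⟩ := hP.exists_inv_pow P ha r
  refine IsUnit.of_mul_eq_one (Ideal.Quotient.mk _ y) ?_
  rw [← map_mul, ← map_one (Ideal.Quotient.mk (P ^ r)), Ideal.Quotient.eq]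
  rw [show a * y - 1 = -i by linear_combination e]
  exact neg_mem hi

/-- the quotient by a power of a maximal ideal is local -/
theorem lj_local {O : Type*} [CommRing O] {P : Ideal O} (hP : P.IsMaximal) {r : ℕ} (hr : r ≠ 0)
    {a b : O ⧸ P ^ r} (h : IsUnit (a + b)) : IsUnit a ∨ IsUnit b := by
  obtain ⟨a, rfl⟩ := Ideal.Quotient.mk_surjective a
  obtain ⟨b, rfl⟩ := Ideal.Quotient.mk_surjective b
  by_contra hno
  rw [not_or] at hno
  have ha : a ∈ P := by_contra fun k => hno.1 (lj_unit hP r k)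
  have hb : b ∈ P := by_contra fun k => hno.2 (lj_unit hP r k)
  obtain ⟨c, hc⟩ := h.exists_left_inv
  obtain ⟨c, rfl⟩ := Ideal.Quotient.mk_surjective c
  rw [← map_add, ← map_mul, ← map_one (Ideal.Quotient.mk (P ^ r)), Ideal.Quotient.eq] at hc
  have h1 := sub_mem (mul_mem_left _ c (add_mem ha hb)) (pow_le_self hr hc)
  rw [sub_sub_cancel] at h1
  exact (ne_top_iff_one P).1 hP.ne_top h1

namespace LJ

variable {κ : Type} {E : κ → Type} [∀ k, Field (E k)] {cj : ∀ k, 𝓞 (E k) ≃+* 𝓞 (E k)} {l : ℕ}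
  {R : Type} [CommRing R] (L : LJ E cj l R) {k : κ}

/-- `ψ` is the chart modulo `I` -/
def Chart (I : Ideal (𝓞 (E k))) (ψ : R →+* 𝓞 (E k) ⧸ I) : Prop :=
  ψ l = Ideal.Quotient.mk I l ∧ ∀ x r, L.j x = r • 1 → ψ r = Ideal.Quotient.mk I (x k)

theorem exists_chart {I : Ideal (𝓞 (E k))} {m : ℕ} (hI : (l : 𝓞 (E k)) ^ m ∈ I) :
    ∃ ψ, L.Chart I ψ := by
  choose x r hx using L.dense_pow m
  have spec : ∀ a y b, L.j y = (a + (l : R) ^ m * b) • 1 →
      Ideal.Quotient.mk I (x a k) = Ideal.Quotient.mk I (y k) := by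
    intro a y b hy
    obtain ⟨w, hw⟩ := L.pure_pow m (x a - y) ((r a - b) • 1) (by
      rw [map_sub, hx, hy, ← sub_smul, smul_smul]; congr 1; ring) k
    rw [Ideal.Quotient.eq, show x a k - y k = (x a - y) k from rfl, hw]
    exact mul_mem_right _ _ hI
  let ψ : R →+* 𝓞 (E k) ⧸ I :=
    { toFun := fun a => Ideal.Quotient.mk I (x a k)
      map_one' := spec 1 1 0 (by simp)
      map_zero' := spec 0 0 0 (by simp)
      map_mul' := fun a b => spec (a * b) (x a * x b) (a * r b + r a * b + (l : R) ^ m * r a * r b)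
        (by rw [map_mul, hx, hx, smul_mul_smul_comm, one_mul]; congr 1; ring)
      map_add' := fun a b => spec (a + b) (x a + x b) (r a + r b)
        (by rw [map_add, hx, hx, ← add_smul]; congr 1; ring) }
  exact ⟨ψ, by rw [map_natCast, map_natCast], fun y a hy => spec a y 0 (by simpa using hy)⟩

variable {L} {I : Ideal (𝓞 (E k))} {ψ : R →+* 𝓞 (E k) ⧸ I} {m : ℕ}

theorem Chart.lift (h : L.Chart I ψ) (hI : (l : 𝓞 (E k)) ^ m ∈ I) {x : OO E} {a b : R}
    (e : L.j x = (a + (l : R) ^ m * b) • 1) : ψ a = Ideal.Quotient.mk I (x k) := by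
  rw [← h.2 x _ e, map_add, map_mul, map_pow, h.1, ← map_pow,
    Ideal.Quotient.eq_zero_iff_mem.2 hI, zero_mul, add_zero]

theorem Chart.mem (h : L.Chart I ψ) (hI : (l : 𝓞 (E k)) ^ m ∈ I)
    {X : Matrix (Fin 2) (Fin 2) R} (hX : X.map ψ = 0) : X ∈ L.In k I := by
  rw [matrix_eq_sum_single X]
  refine sum_mem fun a _ => sum_mem fun b _ => ?_
  obtain ⟨x, r, hx⟩ := L.dense_pow m (X a b)
  have h1 : x k ∈ I := Ideal.Quotient.eq_zero_iff_mem.1
    ((h.lift hI hx).symm.trans (congrFun (congrFun hX a) b))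
  have h2 := sub_mem (L.in_gen h1 (single a b 1))
    (L.in_gen (k := k) (I := I) (x := ((l ^ m : ℕ) : OO E)) (by simpa using hI) (r • single a b 1))
  rwa [hx, j_nat, smul_mul_assoc, one_mul, smul_smul, ← sub_smul, Nat.cast_pow, add_sub_cancel_right,
    smul_single, smul_eq_mul, mul_one] at h2

variable [DecidableEq κ]

/-- at a split prime the chart is onto and alignment is the vanishing of one row -/
theorem Chart.split {P : Ideal (𝓞 (E k))} (hP : P.IsMaximal) (hl : (l : 𝓞 (E k)) ∈ P)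
    (hc : P.map (cj k) ≠ P) {r : ℕ} (hr : r ≠ 0) {ψ : R →+* 𝓞 (E k) ⧸ P ^ r}
    (h : L.Chart (P ^ r) ψ) : Function.Surjective ψ ∧ ∃ v : Fin 2 → 𝓞 (E k) ⧸ P ^ r,
      (∃ i, IsUnit (v i)) ∧ ∀ X, v ᵥ* X.map ψ = 0 → X ∈ L.In k (P ^ r) := by
  have hI := pow_mem_pow hl r
  have hP' : (P.map (cj k)).IsMaximal := map_isMaximal_of_equiv (cj k)
  obtain ⟨p, hp, ε, hε, e⟩ := Submodule.mem_sup.1 ((eq_top_iff_one _).1
    (pow_sup_pow_eq_top (m := r) (n := r) (hP.coprime_of_ne hP' hc.symm)))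
  have hε' : cj k ε ∈ P ^ r := by
    rw [← Ideal.map_pow, mem_map_of_equiv] at hε
    obtain ⟨y, hy, rfl⟩ := hε
    rwa [L.inv]
  have e1 : Ideal.Quotient.mk (P ^ r) ε = 1 := by
    rw [← map_one (Ideal.Quotient.mk (P ^ r)), ← e, map_add, Ideal.Quotient.eq_zero_iff_mem.2 hp,
      zero_add]
  have e0 := Ideal.Quotient.eq_zero_iff_mem.2 hε'
  have tr : ∀ a : 𝓞 (E k), ψ (L.j (Pi.single k (a * ε))).trace = Ideal.Quotient.mk _ a := fun a => by
    rw [h.2 _ _ (L.j_tr _)]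
    simp only [Pi.single_eq_same, map_add, map_mul, e1, e0, mul_one, mul_zero, add_zero]
  refine ⟨fun a => ?_, ?_⟩
  · obtain ⟨a, rfl⟩ := Ideal.Quotient.mk_surjective a
    exact ⟨_, tr a⟩
  set η := L.j (Pi.single k ε) with hη
  have t1 : ψ (η 0 0) + ψ (η 1 1) = 1 := by
    have := tr 1
    rwa [one_mul, trace_fin_two, map_add, map_one] at this
  have d0 : ψ (η 0 0) * ψ (η 1 1) - ψ (η 0 1) * ψ (η 1 0) = 0 := by
    have := h.2 _ _ (L.j_det (Pi.single k ε))
    simp only [Pi.single_eq_same, map_mul, e0, mul_zero] at this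
    rwa [det_fin_two, map_sub, map_mul, map_mul] at this
  have fin : ∀ X : Matrix (Fin 2) (Fin 2) R, (∀ i, η.map ψ i ᵥ* X.map ψ = 0) →
      X ∈ L.In k (P ^ r) := fun X hX =>
    L.in_sub (x := Pi.single k ε) (by rw [← e]; simpa using hp) (h.mem hI (by
      rw [Matrix.map_mul]
      ext i b
      exact congrFun (hX i) b))
  rcases lj_local hP hr (t1 ▸ isUnit_one) with hu | hu
  · refine ⟨η.map ψ 0, ⟨0, hu⟩, fun X hX => fin X fun i => ?_⟩
    fin_cases i
    · exact hX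
    · funext b
      have := congrFun hX b
      simp only [vecMul, dotProduct, Fin.sum_univ_two, map_apply, Pi.zero_apply] at this ⊢
      exact hu.mul_right_eq_zero.1 (by
        simp only [Fin.mk_one]
        linear_combination ψ (η 1 0) * this + ψ (X 1 b) * d0)
  · refine ⟨η.map ψ 1, ⟨1, hu⟩, fun X hX => fin X fun i => ?_⟩
    fin_cases i
    · funext b
      have := congrFun hX b
      simp only [vecMul, dotProduct, Fin.sum_univ_two, map_apply, Pi.zero_apply] at this ⊢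
      exact hu.mul_right_eq_zero.1 (by
        simp only [Fin.zero_eta]
        linear_combination ψ (η 0 1) * this + ψ (X 0 b) * d0)
    · exact hX

omit [DecidableEq κ] in
/-- a matrix of deep level is killed by a row -/
theorem Lev.row [∀ k, NumberField (E k)] {P : Ideal (𝓞 (E k))} (hP : P.IsMaximal) (hl : (l : 𝓞 (E k)) ∈ P) {r : ℕ}
    {ψ : R →+* 𝓞 (E k) ⧸ P ^ r} (h : L.Chart (P ^ r) ψ) {g : Matrix (Fin 2) (Fin 2) R}
    {D : ∀ k, Ideal (𝓞 (E k))} (hg : L.Lev g.det D) (hD : P ^ (2 * r - 1) ∣ D k) :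
    ∃ μ : Fin 2 → 𝓞 (E k) ⧸ P ^ r, (∃ i, IsUnit (μ i)) ∧ μ ᵥ* g.map ψ = 0 := by
  obtain ⟨x, u, hu, hx, h0⟩ := hg
  have h1 : (l : 𝓞 (E k)) ^ (2 * r) ∈ P ^ r := pow_le_pow_right (by omega) (pow_mem_pow hl _)
  have h2 : (l : 𝓞 (E k)) ^ (2 * r) ∈ P ^ (2 * r - 1) :=
    pow_le_pow_right (by omega) (pow_mem_pow hl _)
  obtain ⟨χ, hχ⟩ := L.exists_chart h2
  choose y t hy using fun a b => L.dense_pow (2 * r) (g a b)
  have e : ∀ {I : Ideal (𝓞 (E k))} {φ : R →+* 𝓞 (E k) ⧸ I}, L.Chart I φ →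
      (l : 𝓞 (E k)) ^ (2 * r) ∈ I → g.map φ = (of fun a b => y a b k).map (Ideal.Quotient.mk I) :=
    fun hφ hI => Matrix.ext fun a b => hφ.lift hI (hy a b)
  have hd : (of fun a b => y a b k).det ∈ P ^ (2 * r - 1) := by
    have h3 := hχ.2 _ _ hx
    rw [Ideal.Quotient.eq_zero_iff_mem.2 (((h0 k).2 P _ hP hl).1 hD), map_mul,
      (hu.map χ).mul_right_eq_zero, RingHom.map_det, RingHom.mapMatrix_apply, e hχ h2,
      ← RingHom.mapMatrix_apply, ← RingHom.map_det] at h3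
    exact Ideal.Quotient.eq_zero_iff_mem.1 h3
  obtain ⟨μ, ⟨i, hi⟩, hμ⟩ := lj_row hP (lj_max_ne hP) r _ hd
  refine ⟨fun a => Ideal.Quotient.mk _ (μ a), ⟨i, lj_unit hP r hi⟩, funext fun b => ?_⟩
  rw [e h h1, Pi.zero_apply, ← Ideal.Quotient.eq_zero_iff_mem.2 (hμ b)]
  simp [vecMul, dotProduct, Fin.sum_univ_two]

end LJ

end Pool.Agent.MT
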