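import Pool.Agent.Lib.MP_d61fbb_ag.MW.LJ2

/-! The local theory of the integral model: the share of aligned points. -/

set_option autoImplicit false

noncomputable section

namespace Pool.Agent.MT

open NumberField Matrix Ideal

theorem lj_index {Γ ι : Type*} [Group Γ] [Finite ι] (H : Subgroup Γ) (φ : Γ → ι)
    (h : ∀ a b, φ a = φ b → a⁻¹ * b ∈ H) : H.index ≠ 0 ∧ H.index ≤ Nat.card ι := by
  have hi : Function.Injective fun q : Γ ⧸ H => φ q.out := fun q q' e => by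
    rw [← q.out_eq', ← q'.out_eq']
    exact QuotientGroup.eq.2 (h _ _ e)
  have := Finite.of_injective _ hi
  exact ⟨Subgroup.index_ne_zero_of_finite, Nat.card_le_card_of_injective _ hi⟩

section core
variable {R S : Type} [CommRing R] [CommRing S] (ψ : R →+* S)

/-- the action on rows -/
def rw2 (μ : Fin 2 → S) (h : GL (Fin 2) R) : Fin 2 → S := μ ᵥ* h.val.map ψ

theorem rw2_mul (μ : Fin 2 → S) (g h : GL (Fin 2) R) : rw2 ψ μ (g * h) = rw2 ψ (rw2 ψ μ g) h := by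
  simp only [rw2, Units.val_mul, Matrix.map_mul, vecMul_vecMul]

theorem rw2_one (μ : Fin 2 → S) : rw2 ψ μ 1 = μ := by
  simp only [rw2, Units.val_one, Matrix.map_one _ (map_zero ψ) (map_one ψ), vecMul_one]

theorem rw2_smul (c : S) (μ : Fin 2 → S) (h : GL (Fin 2) R) : rw2 ψ (c • μ) h = c • rw2 ψ μ h :=
  smul_vecMul _ _ _

/-- the stabiliser of a line -/
def stab {μ : Fin 2 → S} (hμ : ∃ i, IsUnit (μ i)) : Subgroup (GL (Fin 2) R) where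
  carrier := {h | ∃ c : S, rw2 ψ μ h = c • μ}
  one_mem' := ⟨1, by rw [rw2_one, one_smul]⟩
  mul_mem' := by
    rintro g h ⟨c, hc⟩ ⟨d, hd⟩
    exact ⟨c * d, by rw [rw2_mul, hc, rw2_smul, hd, smul_smul]⟩
  inv_mem' := by
    rintro g ⟨c, hc⟩
    have h1 : μ = c • rw2 ψ μ g⁻¹ := by rw [← rw2_smul, ← hc, ← rw2_mul, mul_inv_cancel, rw2_one]
    obtain ⟨i, hi⟩ := hμ
    rw [show μ i = c * rw2 ψ μ g⁻¹ i from congrFun h1 i] at hi
    have h2 : IsUnit c := isUnit_of_mul_isUnit_left hi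
    obtain ⟨d, hd⟩ := h2.exists_left_inv
    exact ⟨d, by conv_rhs => rw [h1, smul_smul, hd, one_smul]⟩

theorem lj_core (hψ : Function.Surjective ψ) {Γ : Type} [Group Γ]
    (G : Subgroup (Γ × GL (Fin 2) R))
    (big : ∀ s : GL (Fin 2) R, s.val.det = 1 → ∃ σ, (σ, s) ∈ G) {v μ : Fin 2 → S}
    (hv : ∃ i, IsUnit (v i)) (hμ : ∃ i, IsUnit (μ i)) {g : Matrix (Fin 2) (Fin 2) R}
    (hg : μ ᵥ* g.map ψ = 0) : ∃ (H : Subgroup Γ) (g₀ : Γ),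
      (∀ a b ha hb (c : S), (a, ha) ∈ G → (b, hb) ∈ G → rw2 ψ μ ha⁻¹ = c • rw2 ψ μ hb⁻¹ →
        a⁻¹ * b ∈ H) ∧
      ∀ σ, g₀⁻¹ * σ ∈ H → ∃ h, (σ, h) ∈ G ∧ v ᵥ* (h.val * g).map ψ = 0 := by
  obtain ⟨s, hs1, hs⟩ := lj_trans ψ hψ hv hμ
  let s' : GL (Fin 2) R := GeneralLinearGroup.mk'' s (hs1 ▸ isUnit_one)
  obtain ⟨g₀, hg₀⟩ := big s' hs1
  refine ⟨(G ⊓ (stab ψ hμ).comap (MonoidHom.snd _ _)).map (MonoidHom.fst _ _), g₀,
    fun a b ha hb c h1 h2 e => ⟨(a⁻¹ * b, ha⁻¹ * hb), ⟨G.mul_mem (G.inv_mem h1) h2, c, ?_⟩, rfl⟩, ?_⟩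
  · change rw2 ψ μ (ha⁻¹ * hb) = _
    rw [rw2_mul, e, rw2_smul, ← rw2_mul, inv_mul_cancel, rw2_one]
  · rintro σ ⟨⟨η, h⟩, ⟨h1, c, hc⟩, e⟩
    have e' : σ = g₀ * η := by rw [show η = g₀⁻¹ * σ from e, mul_inv_cancel_left]
    refine ⟨s' * h, e' ▸ G.mul_mem hg₀ h1, ?_⟩
    have h2 : v ᵥ* (s' * h).val.map ψ = c • μ := by
      change rw2 ψ v (s' * h) = _
      rw [rw2_mul, show rw2 ψ v s' = μ from hs]
      exact hc
    rw [Matrix.map_mul, ← vecMul_vecMul, h2, smul_vecMul, hg, smul_zero]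

end core

namespace LJ

variable {κ : Type} [DecidableEq κ] {E : κ → Type} [∀ k, Field (E k)] [∀ k, NumberField (E k)]
  {cj : ∀ k, 𝓞 (E k) ≃+* 𝓞 (E k)} {l : ℕ} {R : Type} [CommRing R] {L : LJ E cj l R} {k : κ}
  {Γ : Type} [Group Γ] {G : Subgroup (Γ × GL (Fin 2) R)} {g : Matrix (Fin 2) (Fin 2) R}
  {D : ∀ k, Ideal (𝓞 (E k))} {P : Ideal (𝓞 (E k))}

theorem dA (tot : ∀ σ, ∃ h, (σ, h) ∈ G)
    (big : ∀ s : GL (Fin 2) R, s.val.det = 1 → ∃ σ, (σ, s) ∈ G) (h1 : L.Lev g.det D)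
    (h2 : L.Inv g D) (hP : P.IsMaximal) (hl : (l : 𝓞 (E k)) ∈ P) {r : ℕ} (hr : 1 ≤ r)
    (hD : P ^ (2 * r - 1) ∣ D k) : ∃ (H : Subgroup Γ) (g₀ : Γ), H.index ≠ 0 ∧
      H.index ≤ absNorm P ^ (2 * r) ∧
      ∀ σ, g₀⁻¹ * σ ∈ H → ∃ h, (σ, h) ∈ G ∧ h.val * g ∈ L.In k (P ^ r) := by
  have hN : absNorm (P ^ r) ≠ 0 := fun e => pow_ne_zero r (lj_max_ne hP) (absNorm_eq_zero_iff.1 e)
  by_cases hc : P.map (cj k) = P
  · refine ⟨⊤, 1, by simp, ?_, fun σ _ => (tot σ).imp fun h hh =>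
      ⟨hh, in_left (h2 k P r hP hl hc hD) (by rw [Ideal.map_pow, hc]) _⟩⟩
    rw [Subgroup.index_top, two_mul, pow_add, ← map_pow]
    exact Nat.one_le_iff_ne_zero.2 (mul_ne_zero hN hN)
  obtain ⟨ψ, hψ⟩ := L.exists_chart (pow_mem_pow hl r)
  obtain ⟨hs, v, hv, hv'⟩ := hψ.split hP hl hc (by omega)
  obtain ⟨μ, hμ, hμ'⟩ := h1.row hP hl hψ hD
  obtain ⟨H, g₀, a1, a2⟩ := lj_core ψ hs G big hv hμ hμ'
  choose t ht using tot
  have : Finite (𝓞 (E k) ⧸ P ^ r) := (absNorm_ne_zero_iff _).1 hN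
  obtain ⟨b1, b2⟩ := lj_index H (fun σ => rw2 ψ μ (t σ)⁻¹) fun a b e =>
    a1 a b _ _ 1 (ht a) (ht b) (by rw [one_smul]; exact e)
  refine ⟨H, g₀, b1, b2.trans (le_of_eq ?_), fun σ hσ => (a2 σ hσ).imp fun h hh =>
    ⟨hh.1, hv' _ hh.2⟩⟩
  rw [Nat.card_fun, Nat.card_eq_fintype_card (α := Fin 2), Fintype.card_fin, mul_comm, pow_mul,
    ← map_pow, absNorm_apply, Submodule.cardQuot_apply]

theorem dB (tot : ∀ σ, ∃ h, (σ, h) ∈ G)
    (big : ∀ s : GL (Fin 2) R, s.val.det = 1 → ∃ σ, (σ, s) ∈ G) (h1 : L.Lev g.det D)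
    (h2 : L.Inv g D) (hP : P.IsMaximal) (hl : (l : 𝓞 (E k)) ∈ P) (hD : P ∣ D k) :
    ∃ (H : Subgroup Γ) (g₀ : Γ), H.index ≠ 0 ∧ H.index ≤ 2 * absNorm P ∧
      (∀ τ, ∃ s : GL (Fin 2) R, s.val.det = 1 ∧ ∀ σ, (σ, s) ∈ G → τ⁻¹ * σ ∈ H) ∧
      ∀ σ, g₀⁻¹ * σ ∈ H → ∃ h, (σ, h) ∈ G ∧ h.val * g ∈ L.In k P := by
  classical
  have hN : absNorm (P ^ 1) ≠ 0 := fun e => pow_ne_zero 1 (lj_max_ne hP) (absNorm_eq_zero_iff.1 e)
  have hD' : P ^ (2 * 1 - 1) ∣ D k := by simpa using hD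
  by_cases hc : P.map (cj k) = P
  · refine ⟨⊤, 1, by simp, ?_, fun τ => ⟨1, by simp, fun _ _ => trivial⟩,
      fun σ _ => (tot σ).imp fun h hh => ⟨hh, in_left ?_ hc _⟩⟩
    · rw [Subgroup.index_top]
      rw [pow_one] at hN
      omega
    · simpa using h2 k P 1 hP hl hc hD'
  obtain ⟨ψ, hψ⟩ := L.exists_chart (pow_mem_pow hl 1)
  obtain ⟨hs, v, hv, hv'⟩ := hψ.split hP hl hc one_ne_zero
  obtain ⟨μ, hμ, hμ'⟩ := h1.row hP hl hψ hD'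
  obtain ⟨H, g₀, a1, a2⟩ := lj_core ψ hs G big hv hμ hμ'
  choose t ht using tot
  have : Finite (𝓞 (E k) ⧸ P ^ 1) := (absNorm_ne_zero_iff _).1 hN
  have hu : ∀ x : 𝓞 (E k) ⧸ P ^ 1, ¬ IsUnit x → x = 0 := fun x hx => by
    obtain ⟨x, rfl⟩ := Ideal.Quotient.mk_surjective x
    exact Ideal.Quotient.eq_zero_iff_mem.2 (by
      rw [pow_one]; exact by_contra fun h => hx (lj_unit hP 1 h))
  have hw : ∀ h : GL (Fin 2) R, ∃ i, IsUnit (rw2 ψ μ h⁻¹ i) := fun h => by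
    obtain ⟨i, hi⟩ := hμ
    have e : μ i = rw2 ψ (rw2 ψ μ h⁻¹) h i := by rw [← rw2_mul, inv_mul_cancel, rw2_one]
    rw [e, rw2, vecMul, dotProduct, Fin.sum_univ_two] at hi
    rcases lj_local hP one_ne_zero hi with h3 | h3
    · exact ⟨0, isUnit_of_mul_isUnit_left h3⟩
    · exact ⟨1, isUnit_of_mul_isUnit_left h3⟩
  let φ : (Fin 2 → 𝓞 (E k) ⧸ P ^ 1) → (𝓞 (E k) ⧸ P ^ 1) ⊕ (𝓞 (E k) ⧸ P ^ 1) := fun w =>
    if IsUnit (w 0) then .inl (w 1 * Ring.inverse (w 0)) else .inr 0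
  have hφ : ∀ w w' : Fin 2 → 𝓞 (E k) ⧸ P ^ 1, (∃ i, IsUnit (w' i)) → φ w = φ w' →
      ∃ c : 𝓞 (E k) ⧸ P ^ 1, w = c • w' := by
    intro w w' h' e
    by_cases h3 : IsUnit (w 0) <;> by_cases h4 : IsUnit (w' 0) <;>
      simp only [φ, h3, h4, if_true, if_false, Sum.inl.injEq, reduceCtorEq] at e
    · have i1 := Ring.mul_inverse_cancel _ h3
      have i2 := Ring.mul_inverse_cancel _ h4
      refine ⟨w 0 * Ring.inverse (w' 0), funext fun i => ?_⟩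
      fin_cases i
      · change w 0 = _ * w' 0
        linear_combination (-w 0) * i2
      · change w 1 = _ * w' 1
        linear_combination w 0 * e - w 1 * i1
    · have h5 : IsUnit (w' 1) := by
        obtain ⟨i, hi⟩ := h'
        fin_cases i
        · exact (h4 hi).elim
        · exact hi
      have i2 := Ring.mul_inverse_cancel _ h5
      refine ⟨w 1 * Ring.inverse (w' 1), funext fun i => ?_⟩
      fin_cases i
      · change w 0 = _ * w' 0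
        rw [hu _ h3, hu _ h4, mul_zero]
      · change w 1 = _ * w' 1
        linear_combination (-w 1) * i2
  obtain ⟨b1, b2⟩ := lj_index H (fun σ => φ (rw2 ψ μ (t σ)⁻¹)) fun a b e => by
    obtain ⟨c, hc⟩ := hφ _ _ (hw _) e
    exact a1 a b _ _ c (ht a) (ht b) hc
  refine ⟨H, g₀, b1, b2.trans (le_of_eq ?_), fun τ => ?_, fun σ hσ => (a2 σ hσ).imp fun h hh =>
    ⟨hh.1, by simpa using hv' _ hh.2⟩⟩
  · rw [Nat.card_sum, ← two_mul, ← Submodule.cardQuot_apply, ← absNorm_apply, pow_one]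
  · obtain ⟨s, hs1, hs2⟩ := lj_trans ψ hs hμ (hw (t τ))
    let s' : GL (Fin 2) R := GeneralLinearGroup.mk'' s (hs1 ▸ isUnit_one)
    refine ⟨s'⁻¹, ?_, fun σ hσ => a1 τ σ _ _ 1 (ht τ) hσ ?_⟩
    · have := congrArg (fun x : GL (Fin 2) R => x.val.det) (mul_inv_cancel s')
      simp only [Units.val_mul, det_mul, Units.val_one, det_one] at this
      rwa [show s'.val.det = 1 from hs1, one_mul] at this
    · rw [one_smul, inv_inv]
      exact hs2.symm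

end LJ

end Pool.Agent.MT
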