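import Pool.Agent.Lib.MP_d61fbb_ag.MW.LJ3
import Pool.Agent.Lib.MP_d61fbb_ag.MW.IW
import Pool.Agent.Lib.MP_d61fbb_ag.MT.EIdl

/-! The local theory from an optimal embedding. -/

set_option autoImplicit false

noncomputable section

namespace Pool.Agent.MT

open NumberField Matrix Ideal

theorem lt_not_dvd {E : Type} [Field E] [NumberField E] {l : ℕ} {P D : Ideal (𝓞 E)}
    (hP : P.IsMaximal) (hl : (l : 𝓞 E) ∈ P) (h : (absNorm D).Coprime l) : ¬ P ∣ D := fun e => by
  obtain ⟨a, b, e'⟩ := Nat.Coprime.cast (R := 𝓞 E) h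
  exact (ne_top_iff_one P).1 hP.ne_top (e' ▸ add_mem
    (mul_mem_left _ _ (le_of_dvd e (absNorm_mem D))) (mul_mem_left _ _ hl))

theorem lt_map {E : Type} [Field E] {cj : 𝓞 E ≃+* 𝓞 E} {A B : Ideal (𝓞 E)} {a β : 𝓞 E}
    (e : span {β} * A = span {a} * B) :
    span {β * cj β} * (A * A.map cj) = span {a * cj a} * (B * B.map cj) := by
  have h := congrArg (Ideal.map cj) e
  rw [Ideal.map_mul, Ideal.map_mul, Ideal.map_span, Ideal.map_span, Set.image_singleton,
    Set.image_singleton] at h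
  rw [← span_singleton_mul_span_singleton, ← span_singleton_mul_span_singleton, mul_mul_mul_comm, e,
    h, mul_mul_mul_comm]

theorem lt_map_ne {E : Type} [Field E] (cj : 𝓞 E ≃+* 𝓞 E) {A : Ideal (𝓞 E)} (h : A ≠ 0) :
    A * A.map cj ≠ 0 :=
  mul_ne_zero h fun e => h ((Ideal.map_eq_bot_iff_of_injective cj.injective).1 e)

variable {κ : Type} [Fintype κ] [DecidableEq κ] {E : κ → Type} [∀ k, Field (E k)]
  [∀ k, NumberField (E k)] {cj : ∀ k, 𝓞 (E k) ≃+* 𝓞 (E k)} {l : ℕ} [hl : Fact l.Prime] {R : Type}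
  [CommRing R]

/-- the local theory of an optimal embedding -/
def LJ.toLT (L : LJ E cj l R) {n : ℕ} (hd : ∀ k, Module.finrank ℚ (E k) ≤ 2 * n) :
    LT cj l n L.j where
  Lv D g := L.Lev g.det D ∧ L.Inv g D
  Al k A g := g ∈ L.In k A
  lv_mul D g h hg hh := ⟨by rw [det_mul]; exact hg.1.mul hh, by simpa using hg.2.mul h 1⟩
  lv_dvd D g _ hg := hg.1.dvd fun k => by
    obtain ⟨m, hm⟩ := Finset.dvd_prod_of_mem (fun k => absNorm (D k)) (Finset.mem_univ k)
    rw [nLev, hm, Nat.cast_mul]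
    exact mul_mem_right _ _ (absNorm_mem _)
  lv_one D hD := by
    refine ⟨?_, fun k P r hP hlP _ hr => ?_⟩
    · have := L.lev_pow 0
      simp only [pow_zero] at this
      rw [det_one]
      refine this.congr fun k P m hP hlP => ?_
      rcases Nat.eq_zero_or_pos m with rfl | hm
      · simp
      · refine iff_of_false (fun h => lt_not_dvd hP hlP (hD k) ((dvd_pow_self P hm.ne').trans h))
          fun h => (ne_top_iff_one P).1 hP.ne_top
            (dvd_span_singleton.1 ((dvd_pow_self P hm.ne').trans h))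
    · rcases Nat.eq_zero_or_pos r with rfl | r0
      · rw [pow_zero, one_eq_top]; exact L.in_top _
      · exact (lt_not_dvd hP hlP (hD k) ((dvd_pow_self P (by omega)).trans hr)).elim
  lv_top hs m g w hw e := ⟨by rw [e, mul_comm]; exact (L.lev_pow m).mul hw,
    fun k P _ hP hlP hc _ => (hs k P hP hlP hc).elim⟩
  al_of k A g h := L.in_nat (hl.out.coprime_iff_not_dvd.2 h).symm (absNorm_mem A) g
  al_mul k A C g h hg := by
    rw [mul_comm]
    exact LJ.in_cop hg (hl.out.coprime_iff_not_dvd.2 h).symm (absNorm_mem C)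
  al_dvd D g k A _ hg hA hal P m hP hlP hm := by
    obtain ⟨c, a, c0, hc, hn⟩ := idl_coprime_rep (E k) l hl.out.ne_zero A hA
    obtain ⟨B, hB⟩ := dvd_span_singleton.2 (absNorm_mem c)
    have e : span {((absNorm c : ℕ) : 𝓞 (E k))} * A = span {a} * B := by rw [hB, ← hc]; ring
    obtain ⟨g', hg'⟩ := LJ.move e hal
    have n0 : ((absNorm c : ℕ) : 𝓞 (E k)) ≠ 0 := Nat.cast_ne_zero.2 (idl_norm_ne _ c0)
    have h1 := hg.1.dvd_move (mul_ne_zero n0 (by rwa [map_natCast])) (LJ.move_det hg') hP hlP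
      (hm.trans ⟨c * c.map (cj k), by
        have := lt_map (cj := cj k) (a := a) (β := 1) (A := A * c) (B := 1) (by simp [hc])
        simp only [Ideal.map_mul, map_one, mul_one, span_singleton_one, top_mul, one_eq_top,
          Ideal.map_top, mul_top] at this
        rw [← this]; ring⟩)
    refine IsCoprime.dvd_of_dvd_mul_right (IsCoprime.pow_left ?_) h1
    refine isCoprime_iff_sup_eq.2 (by_contra fun h => ?_)
    have h2 := (span_singleton_le_iff_mem P).1 ((hP.eq_of_le h le_sup_left).symm ▸ le_sup_right)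
    rw [map_natCast] at h2
    obtain ⟨u, v, e'⟩ := Nat.Coprime.cast (R := 𝓞 (E k)) hn
    exact (ne_top_iff_one P).1 hP.ne_top (e' ▸ add_mem
      (mul_mem_left _ _ ((hP.isPrime.mem_or_mem h2).elim id id)) (mul_mem_left _ _ hlP))
  move D D' g k A B a β _ hD' hg hA hal ha e e' h' := by
    obtain ⟨g', hg'⟩ := LJ.move e hal
    have hB : B ≠ 0 := by
      rintro rfl
      rw [zero_mul, mul_zero] at e'
      exact mul_ne_zero (hD' k).1 (lt_map_ne _ hA) e'
    have hβ : β ≠ 0 := by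
      rintro rfl
      rw [Ideal.span_singleton_zero, bot_mul] at e
      exact mul_ne_zero (by simpa [span_singleton_eq_bot] using ha) hB e.symm
    have h1 : D' k * span {a * cj k a} = D k * span {β * cj k β} := by
      refine mul_right_cancel₀ (lt_map_ne (cj k) hA) ?_
      rw [mul_assoc (D k), lt_map e, mul_right_comm, e']; ring
    have hc : ∀ {x : 𝓞 (E k)}, x ≠ 0 → x * cj k x ≠ 0 := fun h => mul_ne_zero h (by simpa using h)
    exact ⟨g', hg', hg.1.move (hc ha) (hc hβ) (LJ.move_det hg') h1 h', hg.2.move ha hβ hg' h1 h'⟩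
  dA Γ _ G tot big D g k P r _ hg hP hlP hr hD := by
    obtain ⟨H, g₀, h1, h2, h3⟩ := LJ.dA tot big hg.1 hg.2 hP hlP hr hD
    refine ⟨H, g₀, h1, h2.trans ?_, h3⟩
    have h4 := Nat.le_of_dvd (Nat.pos_of_ne_zero (lj_norm_ne (Nat.cast_ne_zero.2 hl.out.ne_zero)))
      (absNorm_dvd_absNorm_of_le ((span_singleton_le_iff_mem P).2 hlP))
    rw [absNorm_span_natCast, RingOfIntegers.rank] at h4
    calc _ ≤ (l ^ (2 * n)) ^ (2 * r) :=
          Nat.pow_le_pow_left (h4.trans (Nat.pow_le_pow_right hl.out.pos (hd k))) _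
      _ = _ := by rw [← pow_mul]; congr 1; ring
  dB Γ _ G tot big D g k P _ hg hN hD := by
    have hP : P.IsPrime := isPrime_of_irreducible_absNorm (hN ▸ hl.out)
    have h0 : P ≠ 0 := fun e => hl.out.ne_zero (by rw [← hN, e, map_zero])
    have := LJ.dB tot big hg.1 hg.2 (hP.isMaximal h0) (hN ▸ absNorm_mem P) hD
    rwa [hN] at this

end Pool.Agent.MT
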