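import Pool.Agent.Lib.MP_d61fbb_ag.MW.Et

/-! The size of an ideal under an embedding. -/

set_option autoImplicit false

noncomputable section

namespace Pool.Agent.MT

open NumberField Ideal

variable {l : ℕ} [Fact l.Prime] {E : Type} [Field E] [NumberField E]
  {φ ψ : 𝓞 E →+* PadicAlgCl l} {I J P : Ideal (𝓞 E)} {x : 𝓞 E}

theorem ni_l0 : (0 : ℝ) < (l : ℝ)⁻¹ := inv_pos.2 (Nat.cast_pos.2 (Fact.out : l.Prime).pos)

theorem ni_l1 : (l : ℝ)⁻¹ < 1 :=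
  inv_lt_one_of_one_lt₀ (by exact_mod_cast (Fact.out : l.Prime).one_lt)

omit [NumberField E] in
theorem ni_le (φ : 𝓞 E →+* PadicAlgCl l) (x : 𝓞 E) : ‖φ x‖ ≤ 1 :=
  MW.dl_int ((Algebra.IsIntegral.isIntegral (R := ℤ) x).map φ.toIntAlgHom).tower_top

theorem ni_ne (φ : 𝓞 E →+* PadicAlgCl l) (h : x ≠ 0) : φ x ≠ 0 := fun e => by
  obtain ⟨y, hy⟩ := mem_span_singleton.1 (absNorm_mem (span {x}))
  have := congrArg φ hy
  rw [map_natCast, map_mul, e, zero_mul, Nat.cast_eq_zero, absNorm_eq_zero_iff,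
    span_singleton_eq_bot] at this
  exact h this

/-- the size of an ideal -/
def nI (φ : 𝓞 E →+* PadicAlgCl l) (I : Ideal (𝓞 E)) : ℝ := sSup ((fun x => ‖φ x‖) '' I)

omit [NumberField E] in
theorem le_nI (h : x ∈ I) : ‖φ x‖ ≤ nI φ I :=
  le_csSup ⟨1, by rintro _ ⟨y, -, rfl⟩; exact ni_le φ y⟩ ⟨x, h, rfl⟩

omit [NumberField E] in
theorem nI_le {r : ℝ} (h : ∀ x ∈ I, ‖φ x‖ ≤ r) : nI φ I ≤ r :=
  csSup_le ⟨_, 0, I.zero_mem, rfl⟩ (by rintro _ ⟨y, hy, rfl⟩; exact h y hy)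

omit [NumberField E] in
theorem nI_nonneg : 0 ≤ nI φ I := (norm_nonneg _).trans (le_nI I.zero_mem)

omit [NumberField E] in
theorem nI_le_one : nI φ I ≤ 1 := nI_le fun x _ => ni_le φ x

omit [NumberField E] in
theorem nI_mono (h : I ≤ J) : nI φ I ≤ nI φ J := nI_le fun _ hx => le_nI (h hx)

omit [NumberField E] in
theorem nI_span : nI φ (span {x}) = ‖φ x‖ :=
  le_antisymm (nI_le fun y hy => by
    obtain ⟨z, rfl⟩ := mem_span_singleton.1 hy
    rw [map_mul, norm_mul]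
    exact mul_le_of_le_one_right (norm_nonneg _) (ni_le φ z)) (le_nI (mem_span_singleton_self x))

omit [NumberField E] in
theorem nI_one : nI φ 1 = 1 := by rw [one_eq_top, ← span_singleton_one, nI_span, map_one, norm_one]

omit [NumberField E] in
theorem nI_sup : nI φ (I ⊔ J) = max (nI φ I) (nI φ J) :=
  le_antisymm (nI_le fun x hx => by
    obtain ⟨y, hy, z, hz, rfl⟩ := Submodule.mem_sup.1 hx
    rw [map_add]
    exact (IsUltrametricDist.norm_add_le_max _ _).trans (max_le_max (le_nI hy) (le_nI hz)))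
    (max_le (nI_mono le_sup_left) (nI_mono le_sup_right))

omit [NumberField E] in
theorem nI_mul_le : nI φ (I * J) ≤ nI φ I * nI φ J := nI_le fun x hx =>
  Submodule.mul_induction_on hx (fun y hy z hz => by
    rw [map_mul, norm_mul]
    exact mul_le_mul (le_nI hy) (le_nI hz) (norm_nonneg _) nI_nonneg) fun y z hy hz => by
    rw [map_add]
    exact (IsUltrametricDist.norm_add_le_max _ _).trans (max_le hy hz)

omit [NumberField E] in
theorem nI_map (c : 𝓞 E ≃+* 𝓞 E) (h : ∀ x, ψ x = φ (c x)) : nI φ (I.map c) = nI ψ I := by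
  refine le_antisymm (nI_le fun x hx => ?_) (nI_le fun x hx => h x ▸ le_nI (mem_map_of_mem c hx))
  obtain ⟨y, hy, rfl⟩ := (mem_map_iff_of_surjective c c.surjective).1 hx
  exact h y ▸ le_nI hy

theorem nI_pos (h : I ≠ 0) : 0 < nI φ I := by
  obtain ⟨x, hx, h0⟩ := Submodule.exists_mem_ne_zero_of_ne_bot h
  exact (norm_pos_iff.2 (ni_ne φ h0)).trans_le (le_nI hx)

theorem nI_cop (h : ¬ l ∣ absNorm I) : nI φ I = 1 :=
  le_antisymm nI_le_one (by simpa [et_nat h] using le_nI (φ := φ) (absNorm_mem I))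

theorem ni_cop (h : span {(l : 𝓞 E)} ⊔ J = ⊤) : ¬ l ∣ absNorm J := fun e => by
  have hl : l.Prime := Fact.out
  obtain ⟨P, hP, h3, h4⟩ := exists_isMaximal_dvd_of_dvd_absNorm
    (Nat.prime_iff_prime_int.1 hl) _ (Int.natCast_dvd_natCast.2 e)
  have h5 : ((l : ℤ) : 𝓞 E) ∈ P := by
    change (l : ℤ) ∈ P.under ℤ
    rw [h3]
    exact mem_span_singleton_self _
  exact hP.ne_top (top_le_iff.1 (h ▸ sup_le ((span_singleton_le_iff_mem _).2 (by simpa using h5))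
    (le_of_dvd h4)))

/-- a generator at `l` -/
theorem exists_gen (l : ℕ) [Fact l.Prime] (h : I ≠ 0) :
    ∃ a J, span {a} = I * J ∧ ¬ l ∣ absNorm J := by
  have hl : (span {(l : 𝓞 E)} : Ideal (𝓞 E)) ≠ 0 := by
    simpa [span_singleton_eq_bot] using (Fact.out : l.Prime).ne_zero
  obtain ⟨a, ha⟩ := IsDedekindDomain.exists_sup_span_eq (I := I * span {(l : 𝓞 E)}) (J := I)
    Ideal.mul_le_left (mul_ne_zero h hl)
  obtain ⟨J, hJ⟩ : I ∣ span {a} := dvd_iff_le.2 (ha ▸ le_sup_right)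
  refine ⟨a, J, hJ, ni_cop (mul_left_cancel₀ h ?_)⟩
  rw [Ideal.mul_sup, ← hJ, ha, Ideal.mul_top]

omit [NumberField E] in
theorem ni_mem {a : 𝓞 E} (h : span {a} = I * J) : a ∈ I :=
  (h.le.trans Ideal.mul_le_left) (mem_span_singleton_self a)

theorem ni_gen {a : 𝓞 E} (h : span {a} = I * J) (hJ : ¬ l ∣ absNorm J) : ‖φ a‖ = nI φ I :=
  le_antisymm (le_nI (ni_mem h)) (nI_le fun x hx => by
    have := le_nI (φ := φ) (h.ge (mul_mem_mul hx (absNorm_mem J)))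
    rwa [nI_span, map_mul, norm_mul, map_natCast, et_nat hJ, mul_one] at this)

theorem exists_nI (φ : 𝓞 E →+* PadicAlgCl l) (I : Ideal (𝓞 E)) : ∃ a ∈ I, ‖φ a‖ = nI φ I := by
  by_cases h : I = 0
  · exact ⟨0, I.zero_mem, by rw [h, zero_eq_bot, ← span_singleton_zero, nI_span]⟩
  · obtain ⟨a, J, h1, h2⟩ := exists_gen l h
    exact ⟨a, ni_mem h1, ni_gen h1 h2⟩

theorem nI_mul : nI φ (I * J) = nI φ I * nI φ J := by
  obtain ⟨a, ha, e⟩ := exists_nI φ I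
  obtain ⟨b, hb, e'⟩ := exists_nI φ J
  refine le_antisymm nI_mul_le ?_
  rw [← e, ← e', ← norm_mul, ← map_mul]
  exact le_nI (mul_mem_mul ha hb)

/-- the size as a homomorphism -/
def nH (φ : 𝓞 E →+* PadicAlgCl l) : Ideal (𝓞 E) →* ℝ := ⟨⟨nI φ, nI_one⟩, fun _ _ => nI_mul⟩

theorem nI_pow (m : ℕ) : nI φ (I ^ m) = nI φ I ^ m := map_pow (nH φ) I m

theorem nI_prod {ι : Type} (s : Finset ι) (f : ι → Ideal (𝓞 E)) :
    nI φ (∏ i ∈ s, f i) = ∏ i ∈ s, nI φ (f i) := map_prod (nH φ) f s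

/-- the prime of an embedding -/
def pP (φ : 𝓞 E →+* PadicAlgCl l) : Ideal (𝓞 E) where
  carrier := {x | ‖φ x‖ < 1}
  zero_mem' := by simp
  add_mem' := fun {a b} ha hb => by
    simp only [Set.mem_ofPred_eq, map_add] at *
    exact (IsUltrametricDist.norm_add_le_max _ _).trans_lt (max_lt ha hb)
  smul_mem' := fun c x hx => by
    simp only [Set.mem_ofPred_eq, smul_eq_mul, map_mul, norm_mul] at *
    exact (mul_le_of_le_one_left (norm_nonneg _) (ni_le φ c)).trans_lt hx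

omit [NumberField E] in
theorem mem_pP : x ∈ pP φ ↔ ‖φ x‖ < 1 := Iff.rfl

omit [NumberField E] in
theorem notMem_pP : x ∉ pP φ ↔ ‖φ x‖ = 1 :=
  ⟨fun h => le_antisymm (ni_le φ x) (not_lt.1 h), fun h e => (mem_pP.1 e).ne h⟩

omit [NumberField E] in
theorem l_mem_pP : (l : 𝓞 E) ∈ pP φ := by
  rw [mem_pP, map_natCast, et_l]
  exact ni_l1

theorem pP_ne : pP φ ≠ ⊥ := fun h =>
  Nat.cast_ne_zero.2 (Fact.out : l.Prime).ne_zero (mem_bot.1 (h ▸ l_mem_pP (φ := φ)))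

theorem pP_max (φ : 𝓞 E →+* PadicAlgCl l) : (pP φ).IsMaximal := by
  refine IsPrime.isMaximal ⟨(ne_top_iff_one _).2 (notMem_pP.2 (by simp)), fun {x y} h => ?_⟩ pP_ne
  by_contra hc
  rw [not_or, notMem_pP, notMem_pP] at hc
  rw [mem_pP, map_mul, norm_mul, hc.1, hc.2, mul_one] at h
  exact h.ne rfl

theorem nI_lt_iff : nI φ I < 1 ↔ I ≤ pP φ := by
  obtain ⟨a, ha, e⟩ := exists_nI φ I
  exact ⟨fun h x hx => (le_nI hx).trans_lt h, fun h => e ▸ h ha⟩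

theorem nI_max (hP : P.IsMaximal) (h : P ≠ pP φ) : nI φ P = 1 :=
  le_antisymm nI_le_one (not_lt.1 fun e => h (hP.eq_of_le (pP_max φ).ne_top (nI_lt_iff.1 e)))

omit [NumberField E] in
theorem pP_map (c : 𝓞 E ≃+* 𝓞 E) (h : ∀ x, ψ x = φ (c x)) : (pP ψ).map c = pP φ := by
  ext x
  obtain ⟨y, rfl⟩ := c.surjective x
  rw [apply_mem_of_equiv_iff, mem_pP, mem_pP, h]

/-- the embedding is unramified -/
def Unr (φ : 𝓞 E →+* PadicAlgCl l) : Prop := ∀ x, ‖φ x‖ < 1 → ‖φ x‖ ≤ (l : ℝ)⁻¹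

omit [NumberField E] in
theorem Unr.pP (h : Unr φ) : nI φ (pP φ) = (l : ℝ)⁻¹ :=
  le_antisymm (nI_le h) (by simpa [et_l] using le_nI (φ := φ) (l_mem_pP (φ := φ)))

theorem Unr.dvd_iff (h : Unr φ) (m : ℕ) : MT.pP φ ^ m ∣ I ↔ nI φ I ≤ (l : ℝ)⁻¹ ^ m := by
  refine ⟨fun e => by rw [← h.pP, ← nI_pow]; exact nI_mono (le_of_dvd e), fun e => ?_⟩
  induction m generalizing I with
  | zero => simp
  | succ m ih =>
    obtain ⟨J, rfl⟩ : MT.pP φ ∣ I := Ideal.dvd_iff_le.2 (nI_lt_iff.1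
      (e.trans_lt (pow_lt_one₀ ni_l0.le ni_l1 m.succ_ne_zero)))
    rw [nI_mul, h.pP, pow_succ'] at e
    rw [pow_succ']
    exact mul_dvd_mul_left _ (ih (le_of_mul_le_mul_left e ni_l0))

theorem Unr.eq (h : Unr φ) (h' : Unr ψ) (e : MT.pP φ = MT.pP ψ) (I : Ideal (𝓞 E)) :
    nI φ I = nI ψ I := by
  induction I using UniqueFactorizationMonoid.induction_on_prime with
  | h₁ => rw [zero_eq_bot, ← span_singleton_zero, nI_span, nI_span, map_zero, map_zero]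
  | h₂ I hu => rw [isUnit_iff.1 hu, ← one_eq_top, nI_one, nI_one]
  | h₃ I P h0 hP ih =>
    have hm : P.IsMaximal := (isPrime_of_prime hP).isMaximal hP.ne_zero
    rw [nI_mul, nI_mul, ih]
    by_cases e' : P = MT.pP φ
    · rw [e', h.pP, e, h'.pP]
    · rw [nI_max hm e', nI_max hm (e ▸ e')]

theorem ni_norm {a : 𝓞 E} (h : span {a} = I * J) (hJ : ¬ l ∣ absNorm J) :
    ‖((Algebra.norm ℤ a : ℤ) : PadicAlgCl l)‖ = ‖(absNorm I : PadicAlgCl l)‖ := by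
  have h1 := congrArg absNorm h
  rw [map_mul, absNorm_span_singleton] at h1
  have h2 : ∀ z : ℤ, ‖(z : PadicAlgCl l)‖ = ‖(z.natAbs : PadicAlgCl l)‖ := fun z => by
    rcases Int.natAbs_eq z with e | e
    · nth_rw 1 [e]
      rw [Int.cast_natCast]
    · nth_rw 1 [e]
      rw [Int.cast_neg, Int.cast_natCast, norm_neg]
  rw [h2, h1, Nat.cast_mul, norm_mul, et_nat hJ, mul_one]

theorem ni_dvd (hP : P.IsMaximal) (h : (l : 𝓞 E) ∈ P) : ∃ m, 0 < m ∧ absNorm P = l ^ m := by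
  obtain ⟨q, m, h0, h1, hq, h2⟩ := exists_prime_and_absNorm_eq_pow P
  refine ⟨m, h0, ?_⟩
  by_contra hc
  have h3 : q.Coprime l := (Nat.coprime_primes hq Fact.out).2 fun e => hc (e ▸ h2)
  obtain ⟨u, v, e⟩ := Nat.isCoprime_iff_coprime.2 h3
  have h4 := congrArg (Int.cast : ℤ → 𝓞 E) e
  push_cast at h4
  exact hP.ne_top ((eq_top_iff_one _).2 (h4 ▸ P.add_mem (P.mul_mem_left _ h1) (P.mul_mem_left _ h)))

/-- the restriction of an embedding to the integers -/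
def rI (χ : E →+* PadicAlgCl l) : 𝓞 E →+* PadicAlgCl l := χ.comp (algebraMap _ _)

omit [NumberField E] in
theorem rI_apply (χ : E →+* PadicAlgCl l) (x : 𝓞 E) : rI χ x = χ x := rfl

theorem ni_all (h : ∀ χ : E →+* PadicAlgCl l, nI (rI χ) I = 1) : ¬ l ∣ absNorm I := fun e => by
  have h0 : I ≠ 0 := by
    rintro rfl
    obtain ⟨χ⟩ : Nonempty (E →ₐ[ℚ] PadicAlgCl l) := ⟨IsAlgClosed.lift⟩
    have := h (χ : E →+* PadicAlgCl l)
    rw [zero_eq_bot, ← span_singleton_zero, nI_span, map_zero, norm_zero] at this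
    exact zero_ne_one this
  obtain ⟨a, J, h1, h2⟩ := exists_gen l h0
  have h3 := ni_norm h1 h2
  have h4 := Algebra.norm_eq_prod_embeddings ℚ (PadicAlgCl l) (a : E)
  rw [← Algebra.coe_norm_int, map_intCast] at h4
  have h5 : ∀ χ : E →ₐ[ℚ] PadicAlgCl l, ‖χ a‖ = 1 := fun χ => by
    have := ni_gen (φ := rI (χ : E →+* PadicAlgCl l)) h1 h2
    rwa [h, rI_apply, RingHom.coe_coe] at this
  rw [h4, norm_prod, Finset.prod_eq_one fun χ _ => h5 χ] at h3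
  obtain ⟨m, hm⟩ := e
  rw [hm, Nat.cast_mul, norm_mul, et_l] at h3
  exact (mul_lt_one_of_nonneg_of_lt_one_left ni_l0.le ni_l1
    (by simpa using et_int (l := l) m)).ne h3.symm

theorem exists_pP (hP : P.IsMaximal) (h : (l : 𝓞 E) ∈ P) :
    ∃ χ : E →+* PadicAlgCl l, P = pP (rI χ) := by
  obtain ⟨m, h0, h1⟩ := ni_dvd hP h
  by_contra! hc
  exact ni_all (fun χ => nI_max hP (hc χ)) (h1 ▸ dvd_pow_self l h0.ne')

theorem ni_div (h : ∀ χ : E →+* PadicAlgCl l, ‖χ x‖ ≤ (l : ℝ)⁻¹) : (l : 𝓞 E) ∣ x := by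
  obtain ⟨J, hJ⟩ : span {(l : 𝓞 E)} ⊔ span {x} ∣ span {(l : 𝓞 E)} := dvd_iff_le.2 le_sup_left
  have h1 : ¬ l ∣ absNorm J := ni_all fun χ => by
    have := congrArg (nI (rI χ)) hJ
    rw [nI_mul, nI_sup, nI_span, nI_span, map_natCast, et_l, rI_apply, max_eq_left (h χ)] at this
    exact (mul_left_cancel₀ ni_l0.ne' ((mul_one _).trans this)).symm
  have h2 : absNorm J ∣ l ^ Module.finrank ℤ (𝓞 E) := by
    rw [← absNorm_span_natCast, hJ, map_mul]
    exact dvd_mul_left _ _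
  have h3 : J = ⊤ := absNorm_eq_one_iff.1 (Nat.Coprime.eq_one_of_dvd
    (((Nat.Prime.coprime_iff_not_dvd Fact.out).2 h1).symm.pow_right _) h2)
  rw [h3, Ideal.mul_top] at hJ
  exact mem_span_singleton.1 (hJ.ge (mem_sup_right (mem_span_singleton_self x)))

end Pool.Agent.MT
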