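import Pool.Agent.Lib.MP_d61fbb_ag.MW.BLat
import Pool.Agent.Lib.MP_d61fbb_ag.MW.BV2

/-! Theta systems over a local ring: definitions and formal properties. -/

set_option autoImplicit false

noncomputable section

namespace Pool.Agent.MT

open Matrix IsLocalRing

variable [dm : Dim]

section ring
variable {R : Type} [CommRing R]

/-- the Heisenberg translation over a ring -/
def Rr (ψ : AddChar AF R) (m : ℕ) (t : W) : (W → R) →ₗ[R] W → R where
  toFun f x := ψ (((m : ℚ) / 2) • Ef t x) * f (x + t)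
  map_add' _ _ := funext fun _ => mul_add _ _ _
  map_smul' _ _ := funext fun _ => mul_left_comm _ _ _

/-- products of dilated translates -/
def gr (ψ : AddChar AF R) (T : W → R) (L : Multiset (ℤ × W)) : W → R :=
  fun x => (L.map fun c => Rr ψ 1 c.2 T (c.1 • x)).prod

/-- theta functions of weight `n` over a ring -/
def PP (ψ : AddChar AF R) (T : W → R) (n : ℕ) : Submodule R (W → R) :=
  Submodule.span R {f | ∃ L, wt L = n ∧ f = gr ψ T L}

/-- the span of the products of `n` translates -/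
def P1 (ψ : AddChar AF R) (T : W → R) (n : ℕ) : Submodule R (W → R) :=
  Submodule.span R {f | ∃ y : Fin n → W, f = ∏ i, Rr ψ 1 (y i) T}

/-- functions with values in an ideal -/
def Val (J : Ideal R) : Submodule R (W → R) := Submodule.pi Set.univ fun _ => J

end ring

/-- a self dual lattice `h Λ` of weight `n` that is integral at `p` -/
structure Fr (p : Pr) (n : ℕ) where
  h : W ≃ₗ[AF] W
  sim : ∀ x y, (n : ℚ) • Ef (h x) (h y) = Ef x y
  int : ∀ t ∈ L0, h t ∈ Wi p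

/-- the action of the lattice of a frame -/
def Fr.op {R : Type} [CommRing R] {p : Pr} {n : ℕ} (φ : Fr p n) (ψ : AddChar AF R) (t : L0) :
    (W → R) →ₗ[R] W → R := ψ ((1 / 2 : ℚ) • Qf t.1) • Rr ψ n (φ.h t)

/-- eigenvectors of the lattice of a frame -/
def Fr.Eg {R : Type} [CommRing R] {p : Pr} {n : ℕ} (φ : Fr p n) (ψ : AddChar AF R) (y : W)
    (u : W → R) : Prop := ∀ t : L0, ψ (Ef y t.1) • φ.op ψ t u = u

/-- A theta system on the prime to `p` part with values in a local ring with residue field `k`. -/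
structure RSys (R k : Type) [CommRing R] [IsLocalRing R] [Field k] (p : Pr) where
  S : FSys k p
  rd : R →+* k
  surj : Function.Surjective rd
  ker : ∀ a, rd a = 0 ↔ a ∈ maximalIdeal R
  ψ : AddChar AF R
  T : W → R
  ψ_rd : ∀ a, rd (ψ a) = S.e a
  T_rd : ∀ x, rd (T x) = S.Θ x
  ψ_one : ∀ a ∈ Zq p, ψ a = 1
  fac : ∀ x, T (iq p • x) = T x
  per : ∀ t ∈ L0, ψ ((1 / 2 : ℚ) • Qf t) • Rr ψ 1 t T = T
  ev : ∀ x, T (-x) = T x
  ri : ∀ a b c d : W, 2 ^ gg * (T a * T b * T c * T d) = ∑ η, ψ ((2 : ℚ) • Qf (hw η)) *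
    (Rr ψ 1 (hw η) T ((1 / 2 : ℚ) • (a + b + c + d)) * Rr ψ 1 (hw η) T ((1 / 2 : ℚ) • (a + b - c - d)) *
      Rr ψ 1 (hw η) T ((1 / 2 : ℚ) • (a - b + c - d)) * Rr ψ 1 (hw η) T ((1 / 2 : ℚ) • (a - b - c + d)))
  uniq : ∀ (n : ℕ), ¬ (p : ℕ) ∣ n → ∀ (φ : Fr p n) (y : W), ∀ u ∈ PP ψ T n, ∀ v ∈ PP ψ T n,
    φ.Eg ψ y u → φ.Eg ψ y v → ∀ x x', u x * v x' = u x' * v x

/-- functions that factor through the prime to `q` part -/
def Fac {k : Type} (q : ℕ) (f : W → k) : Prop := ∀ x, f (iq q • x) = f x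

section ring
variable {R : Type} [CommRing R] {ψ : AddChar AF R} {T : W → R}

lemma Rr_apply (m : ℕ) (t : W) (f : W → R) (x : W) :
    Rr ψ m t f x = ψ (((m : ℚ) / 2) • Ef t x) * f (x + t) := rfl

lemma Rr_eq_Rt {k : Type} [Field k] (e : AddChar AF k) (m : ℕ) (t : W) (f : W → k) :
    Rr e m t f = Rt e m t f := rfl

lemma mem_Val {J : Ideal R} {f : W → R} : f ∈ Val J ↔ ∀ x, f x ∈ J :=
  ⟨fun h x => h x trivial, fun h x _ => h x⟩

lemma Rr_zero (m : ℕ) (f : W → R) : Rr ψ m 0 f = f := funext fun x => by simp [Rr_apply]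

lemma Rr_Rr (m : ℕ) (s t : W) (f : W → R) :
    Rr ψ m s (Rr ψ m t f) = ψ (((m : ℚ) / 2) • Ef t s) • Rr ψ m (s + t) f := by
  funext x
  simp only [Rr_apply, Pi.smul_apply, smul_eq_mul, ← mul_assoc, ← AddChar.map_add_eq_mul, add_assoc,
    Ef_add_left, Ef_add_right]
  congr 2
  module

lemma Rr_neg_Rr (m : ℕ) (t : W) (f : W → R) : Rr ψ m (-t) (Rr ψ m t f) = f := by
  rw [Rr_Rr, Ef_neg_right, Ef_self, neg_add_cancel, Rr_zero]; simp

lemma Rr_comm (m : ℕ) (s t : W) (f : W → R) :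
    Rr ψ m s (Rr ψ m t f) = ψ ((m : ℚ) • Ef t s) • Rr ψ m t (Rr ψ m s f) := by
  rw [Rr_Rr, Rr_Rr, smul_smul, ← AddChar.map_add_eq_mul, add_comm s, Ef_swap t s]
  congr 2
  module

lemma Rr_mul (m n : ℕ) (t : W) (f g : W → R) :
    Rr ψ (m + n) t (f * g) = Rr ψ m t f * Rr ψ n t g := by
  funext x
  simp only [Rr_apply, Pi.mul_apply, Nat.cast_add, add_div, add_smul, AddChar.map_add_eq_mul]
  ring

lemma Rr_dil (m : ℕ) (c : ℤ) (t : W) (f : W → R) :
    Rr ψ (c.natAbs ^ 2 * m) t (fun x => f (c • x)) = fun x => Rr ψ m (c • t) f (c • x) := by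
  funext x
  simp only [Rr_apply, zs_add, Ef_z_left, Ef_z_right, smul_smul]
  congr 3
  rw [Nat.cast_mul, Nat.cast_pow, Nat.cast_natAbs, Int.cast_abs, sq_abs]
  ring

lemma Val_Rr {J : Ideal R} (m : ℕ) (t : W) {f : W → R} (hf : f ∈ Val J) : Rr ψ m t f ∈ Val J :=
  mem_Val.2 fun _ => J.mul_mem_left _ (mem_Val.1 hf _)

lemma gr_add (L L' : Multiset (ℤ × W)) : gr ψ T (L + L') = gr ψ T L * gr ψ T L' := by
  funext x; simp [gr]

lemma gr_shf (t x : W) (L : Multiset (ℤ × W)) :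
    ψ (((wt L : ℚ) / 2) • Ef t x) * gr ψ T L (x + t) =
      ψ ((1 / 2 : ℚ) • Ef (cl L) t) * gr ψ T (shf t L) x := by
  induction L using Multiset.induction_on with
  | empty => simp [gr, wt, cl, shf]
  | cons c L ih =>
    simp only [gr, wt, cl, shf, Multiset.map_cons, Multiset.prod_cons, Multiset.sum_cons,
      Rr_apply] at ih ⊢
    have h : ψ (((c.1 ^ 2 : ℤ) / 2 : ℚ) • Ef t x) * ψ ((((1 : ℕ) : ℚ) / 2) • Ef c.2 (c.1 • (x + t))) =
        ψ ((1 / 2 : ℚ) • Ef (c.1 • c.2) t) *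
          ψ ((((1 : ℕ) : ℚ) / 2) • Ef (c.2 + c.1 • t) (c.1 • x)) := by
      rw [← AddChar.map_add_eq_mul, ← AddChar.map_add_eq_mul]
      congr 1
      simp only [zs_add, Ef_add_left, Ef_add_right, Ef_z_left, Ef_z_right]
      push_cast
      module
    rw [Int.cast_add, add_div, add_smul, AddChar.map_add_eq_mul, Ef_add_left, smul_add,
      AddChar.map_add_eq_mul, show c.1 • x + (c.2 + c.1 • t) = c.1 • (x + t) + c.2 by rw [zs_add]; abel]
    linear_combination (T (c.1 • (x + t) + c.2) * ψ (((Multiset.map (fun c : ℤ × W => c.1 ^ 2) L).sum / 2 : ℚ) • Ef t x) *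
      (Multiset.map (fun c : ℤ × W => ψ ((((1 : ℕ) : ℚ) / 2) • Ef c.2 (c.1 • (x + t))) *
        T (c.1 • (x + t) + c.2)) L).prod) * h +
      (ψ ((1 / 2 : ℚ) • Ef (c.1 • c.2) t) * ψ ((((1 : ℕ) : ℚ) / 2) • Ef (c.2 + c.1 • t) (c.1 • x)) *
        T (c.1 • (x + t) + c.2)) * ih

lemma Rr_gr {m : ℕ} {L : Multiset (ℤ × W)} (h : wt L = m) (t : W) :
    Rr ψ m t (gr ψ T L) = ψ ((1 / 2 : ℚ) • Ef (cl L) t) • gr ψ T (shf t L) := by
  funext x
  have := gr_shf (ψ := ψ) (T := T) t x L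
  rw [h, Int.cast_natCast] at this
  exact this

lemma span_mul_memR {A B : Set (W → R)} {C : Submodule R (W → R)}
    (h : ∀ f ∈ A, ∀ g ∈ B, f * g ∈ C) {f g : W → R} (hf : f ∈ Submodule.span R A)
    (hg : g ∈ Submodule.span R B) : f * g ∈ C := by
  have := Submodule.mul_mem_mul hf hg
  rw [Submodule.span_mul_span] at this
  refine Submodule.span_le.2 ?_ this
  rintro _ ⟨a, ha, b, hb, rfl⟩
  exact h a ha b hb

lemma PP_mul {m n : ℕ} {f g : W → R} (hf : f ∈ PP ψ T m) (hg : g ∈ PP ψ T n) :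
    f * g ∈ PP ψ T (m + n) := by
  refine span_mul_memR ?_ hf hg
  rintro _ ⟨L, a, rfl⟩ _ ⟨L', a', rfl⟩
  exact Submodule.subset_span ⟨L + L', by rw [wt_add, a, a', Nat.cast_add], (gr_add _ _).symm⟩

lemma PP_one : (1 : W → R) ∈ PP ψ T 0 :=
  Submodule.subset_span ⟨0, by simp [wt], by funext x; simp [gr]⟩

lemma PP_pow {m : ℕ} {f : W → R} (hf : f ∈ PP ψ T m) (n : ℕ) : f ^ n ∈ PP ψ T (n * m) := by
  induction n with
  | zero => simpa using PP_one
  | succ n ih => rw [pow_succ, add_mul, one_mul]; exact PP_mul ih hf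

lemma PP_Rr {m : ℕ} (t : W) {f : W → R} (hf : f ∈ PP ψ T m) : Rr ψ m t f ∈ PP ψ T m := by
  refine (Submodule.span_le (p := (PP ψ T m).comap (Rr ψ m t))).2 ?_ hf
  rintro _ ⟨L, a, rfl⟩
  change Rr ψ m t _ ∈ PP ψ T m
  rw [Rr_gr a]
  exact Submodule.smul_mem _ _ (Submodule.subset_span ⟨_, (wt_shf _ _).trans a, rfl⟩)

lemma PP_dil {m : ℕ} (c : ℤ) {f : W → R} (hf : f ∈ PP ψ T m) :
    (fun x => f (c • x)) ∈ PP ψ T (c.natAbs ^ 2 * m) := by
  refine (Submodule.span_le (p := (PP ψ T _).comap (LinearMap.funLeft R R (c • ·)))).2 ?_ hf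
  rintro _ ⟨L, a, rfl⟩
  refine Submodule.subset_span ⟨L.map fun d => (d.1 * c, d.2), ?_, funext fun x => ?_⟩
  · rw [Nat.cast_mul, ← a, Nat.cast_pow, Int.natAbs_sq]
    simp [wt, mul_pow, mul_comm, Multiset.sum_map_mul_left]
  · simp only [gr, Multiset.map_map, Function.comp_def, mul_smul, LinearMap.funLeft_apply]

lemma PP_tr (y : W) : Rr ψ 1 y T ∈ PP ψ T 1 :=
  Submodule.subset_span ⟨{(1, y)}, by simp [wt], by funext x; simp [gr]⟩

lemma P1_le (n : ℕ) : P1 ψ T n ≤ PP ψ T n := by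
  refine Submodule.span_le.2 ?_
  rintro _ ⟨y, rfl⟩
  induction n with
  | zero => simpa using PP_one
  | succ n ih => rw [Fin.prod_univ_castSucc]; exact PP_mul (ih _) (PP_tr _)

lemma P1_Rr {m : ℕ} (t : W) {f : W → R} (hf : f ∈ P1 ψ T m) : Rr ψ m t f ∈ P1 ψ T m := by
  refine (Submodule.span_le (p := (P1 ψ T m).comap (Rr ψ m t))).2 ?_ hf
  rintro _ ⟨y, rfl⟩
  have h : ∀ (m : ℕ) (y : Fin m → W), Rr ψ m t (∏ i, Rr ψ 1 (y i) T) =
      ∏ i, Rr ψ 1 t (Rr ψ 1 (y i) T) := fun m y => by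
    induction m with
    | zero => funext x; simp [Rr_apply]
    | succ m ih => rw [Fin.prod_univ_castSucc, Fin.prod_univ_castSucc, Rr_mul, ih]
  change Rr ψ m t _ ∈ P1 ψ T m
  rw [h]
  simp only [Rr_Rr, Finset.prod_smul]
  exact Submodule.smul_mem _ _ (Submodule.subset_span ⟨fun i => t + y i, rfl⟩)

lemma P1_pow (y : W) (n : ℕ) : Rr ψ 1 y T ^ n ∈ P1 ψ T n :=
  Submodule.subset_span ⟨fun _ => y, by simp⟩

variable {R' : Type} [CommRing R'] (φ : R →+* R') {ψ' : AddChar AF R'} (hψ : ∀ a, φ (ψ a) = ψ' a)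
include hψ

lemma map_Rr (m : ℕ) (t : W) (f : W → R) :
    (fun x => φ (Rr ψ m t f x)) = Rr ψ' m t fun x => φ (f x) := by
  funext x; simp only [Rr_apply, map_mul, hψ]

lemma map_gr (L : Multiset (ℤ × W)) :
    (fun x => φ (gr ψ T L x)) = gr ψ' (fun x => φ (T x)) L := by
  funext x
  simp only [gr, map_multiset_prod, Multiset.map_map, Function.comp_def, Rr_apply, map_mul, hψ]

lemma map_PP {m : ℕ} {f : W → R} (hf : f ∈ PP ψ T m) :
    (fun x => φ (f x)) ∈ PP ψ' (fun x => φ (T x)) m := by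
  induction hf using Submodule.span_induction with
  | mem _ h =>
    obtain ⟨L, a, rfl⟩ := h
    exact Submodule.subset_span ⟨L, a, map_gr φ hψ L⟩
  | zero => simp only [Pi.zero_apply, map_zero]; exact zero_mem _
  | add f g _ _ hf hg => simp only [Pi.add_apply, map_add]; exact add_mem hf hg
  | smul c f _ hf =>
    simp only [Pi.smul_apply, smul_eq_mul, map_mul]; exact Submodule.smul_mem _ (φ c) hf

lemma Fr.Eg.map {p : Pr} {n : ℕ} {F : Fr p n} {y : W} {u : W → R} (h : F.Eg ψ y u) :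
    F.Eg ψ' y fun x => φ (u x) := fun t => funext fun x => by
  have := congrArg φ (congrFun (h t) x)
  simpa only [Fr.op, LinearMap.smul_apply, Pi.smul_apply, smul_eq_mul, Rr_apply, map_mul, hψ] using this

end ring

section field
variable {k : Type} [Field k] {q : ℕ} (S : TSys k q)

lemma TSys.e_iq (a : AF) : S.e (iq q * a) = S.e a := by
  conv_rhs => rw [show a = iq q * a + (1 - iq q) * a * 1 by ring, AddChar.map_add_eq_mul,
    S.e_one (iq_sub_mem q a 1), mul_one]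

lemma iq_iq (q : ℕ) (x : W) : iq q • iq q • x = iq q • x := iq_smul (iq_mem q x)

variable {S}

lemma Fac.Rt_iq {f : W → k} (h : Fac q f) (m : ℕ) (t : W) :
    Rt S.e m (iq q • t) f = Rt S.e m t f := by
  funext x
  simp only [Rt]
  rw [← h (x + _), ← h (x + t), smul_add, smul_add, iq_iq, Ef_smul_left, ← mul_smul_comm, S.e_iq]

lemma Fac.Rt {f : W → k} (h : Fac q f) (m : ℕ) (t : W) : Fac q (Rt S.e m t f) := fun x => by
  simp only [MT.Rt]
  rw [← h (_ + t), ← h (x + t), smul_add, smul_add, iq_iq, Ef_smul_right, ← mul_smul_comm, S.e_iq]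

lemma Fac.gen (h : Fac q S.Θ) (L : Multiset (ℤ × W)) :
    gen S.e S.Θ (L.map fun c => (c.1, iq q • c.2)) = gen S.e S.Θ L := by
  funext x
  simp only [MT.gen, Multiset.map_map, Function.comp_def, h.Rt_iq]

lemma Fac.PP_eq (h : Fac q S.Θ) (m : ℕ) : PP S.e S.Θ m = S.G m := by
  refine le_antisymm (Submodule.span_le.2 ?_) (Submodule.span_mono ?_)
  · rintro _ ⟨L, a, rfl⟩
    refine Submodule.subset_span ⟨L.map fun c => (c.1, iq q • c.2), by simpa [wt] using a, ?_,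
      show MT.gen S.e S.Θ L = _ from (h.gen L).symm⟩
    refine Wp_Wi (multiset_sum_mem _ fun x hx => ?_)
    simp only [Multiset.map_map, Multiset.mem_map] at hx
    obtain ⟨c, -, rfl⟩ := hx
    exact zsmul_mem (iq_mem q _) _
  · rintro _ ⟨L, a, -, rfl⟩
    exact ⟨L, a, rfl⟩

lemma Fac.G_Rt (h : Fac q S.Θ) {m : ℕ} (t : W) {f : W → k} (hf : f ∈ S.G m) :
    MT.Rt S.e m t f ∈ S.G m := by
  rw [← h.PP_eq] at hf ⊢
  exact PP_Rr t hf

lemma Fac.G_dil (h : Fac q S.Θ) {m : ℕ} (c : ℤ) {f : W → k} (hf : f ∈ S.G m) :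
    (fun x => f (c • x)) ∈ S.G (c.natAbs ^ 2 * m) := by
  rw [← h.PP_eq] at hf ⊢
  exact PP_dil c hf

lemma Fac.G_fac (h : Fac q S.Θ) {m : ℕ} {f : W → k} (hf : f ∈ S.G m) : Fac q f := by
  induction hf using Submodule.span_induction with
  | mem _ h' =>
    obtain ⟨L, -, -, rfl⟩ := h'
    intro x
    simp only [MT.gen, smul_comm _ (iq q), h.Rt 1 _ _]
  | zero => exact fun _ => rfl
  | add f g _ _ hf hg => exact fun x => congrArg₂ (· + ·) (hf x) (hg x)
  | smul c f _ hf => exact fun x => congrArg (c * ·) (hf x)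

end field

namespace RSys
variable {R k : Type} [CommRing R] [IsLocalRing R] [Field k] {p : Pr} (A : RSys R k p)

/-- theta functions of weight `n` -/
abbrev P (n : ℕ) : Submodule R (W → R) := PP A.ψ A.T n

/-- the translate of the theta function -/
abbrev tr (y : W) : W → R := Rr A.ψ 1 y A.T

/-- the reduction of a function -/
abbrev red (f : W → R) : W → k := fun x => A.rd (f x)

lemma unit_iff {a : R} : IsUnit a ↔ A.rd a ≠ 0 := by
  rw [Ne, A.ker, mem_maximalIdeal, mem_nonunits_iff, not_not]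

include A in
lemma p_mem : ((p : ℕ) : R) ∈ maximalIdeal R := by
  have := A.S.char
  rw [← A.ker, map_natCast, CharP.cast_eq_zero]

include A in
lemma nat_unit {n : ℕ} (hn : ¬ (p : ℕ) ∣ n) : IsUnit (n : R) := by
  have := A.S.char
  rwa [A.unit_iff, map_natCast, Ne, CharP.cast_eq_zero_iff k p]

include A in
lemma nat_ne {n : ℕ} (hn : ¬ (p : ℕ) ∣ n) : (n : k) ≠ 0 := by
  have := A.S.char
  rwa [Ne, CharP.cast_eq_zero_iff k p]

include A in
lemma two_unit : IsUnit (2 : R) := by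
  rw [A.unit_iff, map_ofNat]; exact A.S.two

lemma red_T : A.red A.T = A.S.Θ := funext A.T_rd

lemma facS : Fac p A.S.Θ := fun x => by rw [← A.T_rd, A.fac, A.T_rd]

lemma red_Rr (m : ℕ) (t : W) (f : W → R) : A.red (Rr A.ψ m t f) = Rt A.S.e m t (A.red f) :=
  map_Rr A.rd A.ψ_rd m t f

lemma rd_tr (y x : W) : A.rd (A.tr y x) = Rt A.S.e 1 y A.S.Θ x := by
  rw [← A.red_T, ← A.red_Rr]

lemma red_mem {m : ℕ} {f : W → R} (hf : f ∈ A.P m) : A.red f ∈ A.S.G m := by
  rw [← A.facS.PP_eq, ← A.red_T]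
  exact map_PP A.rd A.ψ_rd hf

lemma lift {m : ℕ} {h : W → k} (hh : h ∈ A.S.G m) : ∃ f ∈ A.P m, A.red f = h := by
  induction hh using Submodule.span_induction with
  | mem _ h =>
    obtain ⟨L, a, -, rfl⟩ := h
    exact ⟨_, Submodule.subset_span ⟨L, a, rfl⟩, (map_gr A.rd A.ψ_rd L).trans (by
      rw [show (fun x => A.rd (A.T x)) = A.S.Θ from A.red_T]; rfl)⟩
  | zero => exact ⟨0, zero_mem _, funext fun _ => map_zero _⟩
  | add f g _ _ hf hg =>
    obtain ⟨f, a, rfl⟩ := hf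
    obtain ⟨g, b, rfl⟩ := hg
    exact ⟨_, add_mem a b, funext fun _ => map_add _ _ _⟩
  | smul c f _ hf =>
    obtain ⟨f, a, rfl⟩ := hf
    obtain ⟨c, rfl⟩ := A.surj c
    exact ⟨_, Submodule.smul_mem _ c a, funext fun _ => map_mul _ _ _⟩

lemma ψ_iq (a : AF) : A.ψ (iq p * a) = A.ψ a := by
  conv_rhs => rw [show a = iq p * a + (1 - iq p) * a * 1 by ring, AddChar.map_add_eq_mul,
    A.ψ_one _ (iq_sub_mem p a 1), mul_one]

lemma Rr_iq {f : W → R} (h : Fac p f) (m : ℕ) (t : W) :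
    Rr A.ψ m (iq p • t) f = Rr A.ψ m t f := by
  funext x
  simp only [Rr_apply]
  rw [← h (x + _), ← h (x + t), smul_add, smul_add, iq_iq, Ef_smul_left, ← mul_smul_comm, A.ψ_iq]

lemma fac_Rr {f : W → R} (h : Fac p f) (m : ℕ) (t : W) : Fac p (Rr A.ψ m t f) := fun x => by
  simp only [Rr_apply]
  rw [← h (_ + t), ← h (x + t), smul_add, smul_add, iq_iq, Ef_smul_right, ← mul_smul_comm, A.ψ_iq]

lemma fac_P {m : ℕ} {f : W → R} (hf : f ∈ A.P m) : Fac p f := by
  induction hf using Submodule.span_induction with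
  | mem _ h' =>
    obtain ⟨L, -, rfl⟩ := h'
    intro x
    simp only [gr, smul_comm _ (iq p), A.fac_Rr A.fac 1 _ _]
  | zero => exact fun _ => rfl
  | add f g _ _ hf hg => exact fun x => congrArg₂ (· + ·) (hf x) (hg x)
  | smul c f _ hf => exact fun x => congrArg (c * ·) (hf x)

lemma exists_tr (x : W) : ∃ η, IsUnit (A.tr (hw η) x) := by
  obtain ⟨η, h⟩ := A.S.exists_th x
  exact ⟨η, A.unit_iff.2 (by rw [A.rd_tr]; exact h)⟩

end RSys

end Pool.Agent.MT
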