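import Pool.Agent.Lib.MP_d61fbb_ag.MW.Q0
import Pool.Agent.Lib.MP_d61fbb_ag.MW.T3
import Pool.Agent.Lib.MP_d61fbb_ag.MW.CM3a
import Pool.Agent.Lib.MP_d61fbb_ag.MT.BAl1

/-! Stable spaces of functions with a complement. -/

set_option autoImplicit false

noncomputable section

namespace Pool.Agent.MT

open Matrix IsLocalRing

variable [dm : Dim]

namespace TSys
variable {k : Type} [Field k] {q : ℕ} (S : TSys k q)

/-- functions of weight `m` and level `d` -/
def Lev (m d : ℕ) : Submodule k (W → k) where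
  carrier := {f | ∀ t ∈ L0, t ∈ Wp q → Rt S.e m (d • t) f = f}
  zero_mem' := fun t _ _ => map_zero (RtL S.e m _)
  add_mem' := fun {f g} hf hg t a b =>
    (map_add (RtL S.e m _) f g).trans (congrArg₂ (· + ·) (hf t a b) (hg t a b))
  smul_mem' := fun c f hf t a b => by rw [Rt_smul, hf t a b]

variable {S} {m : ℕ}

theorem G_dilz (c : ℤ) {f : W → k} (hf : f ∈ S.G m) :
    (fun x => f (c • x)) ∈ S.G (c.natAbs ^ 2 * m) := by
  rw [G, ← cmG_eq (zero_mem _)] at hf ⊢
  simpa using cmG_dil c hf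

theorem descale (hm : (m : k) ≠ 0) {c : ℤ} (hc : (c : k) ≠ 0) {f : W → k}
    (hf : (fun x => f (c • x)) ∈ S.G (c.natAbs ^ 2 * m)) : f ∈ S.G m := by
  have c0 : c ≠ 0 := fun h => hc (by simp [h])
  have inj : ∀ u v : W → k, (fun x => u (c • x)) = (fun x => v (c • x)) → u = v := fun u v h =>
    funext fun y => by simpa only [cm_unsmul c0] using congrFun h ((c : ℚ)⁻¹ • y)
  have := irr_of k q S (c.natAbs ^ 2 * m) (by
      rw [Nat.cast_mul, Nat.cast_pow, ← Int.cast_natCast c.natAbs, Int.natCast_natAbs,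
        ← Int.cast_pow, sq_abs, Int.cast_pow]
      exact mul_ne_zero (pow_ne_zero _ hc) hm)
    ((S.G m).map (LinearMap.funLeft k k fun x : W => c • x))
    (by rintro _ ⟨u, hu, rfl⟩; exact G_dilz c hu) (fun h => by
      obtain ⟨η, h0⟩ := S.exists_th 0
      have := (Submodule.eq_bot_iff _).1 h _ ⟨_, S.Sp_le m (S.th_pow η m), rfl⟩
      exact pow_ne_zero m h0 (by simpa using congrFun this 0))
    (by
      rintro t ht _ ⟨u, hu, rfl⟩
      refine ⟨_, Gs_Rt (t := c • t) (zsmul_mem ht c) hu, ?_⟩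
      exact (Rr_dil (ψ := S.e) m c t u).symm)
  obtain ⟨u, hu, e⟩ := this.ge hf
  exact inj u f e ▸ hu

theorem G_mul_span {n : ℕ} (hm : ((m + n : ℕ) : k) ≠ 0) {f : W → k} (hf : f ∈ S.G m) (f0 : f ≠ 0) :
    S.G (m + n) = Submodule.span k {u | ∃ y ∈ Wp q, ∃ h ∈ S.G n, u = Rt S.e m y f * h} := by
  refine (irr_of k q S _ hm _ (Submodule.span_le.2 ?_) (fun h => ?_) fun t ht u hu =>
    span_Rt_mem ?_ hu).symm
  · rintro _ ⟨y, hy, h, hh, rfl⟩
    exact Gs_mul (Gs_Rt hy hf) hh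
  · obtain ⟨x, hx⟩ := Function.ne_iff.1 f0
    obtain ⟨η, h0⟩ := S.exists_th x
    have := (Submodule.eq_bot_iff _).1 h _ (Submodule.subset_span
      ⟨0, zero_mem _, _, S.Sp_le n (S.th_pow η n), rfl⟩)
    refine mul_ne_zero hx (pow_ne_zero n h0) ?_
    simpa [Rt] using congrFun this x
  · rintro _ ⟨y, hy, h, hh, rfl⟩
    rw [Rt_mul, Rt_Rt, smul_mul_assoc]
    exact Submodule.smul_mem _ _ (Submodule.subset_span
      ⟨_, add_mem ht hy, _, Gs_Rt ht hh, rfl⟩)

end TSys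

end Pool.Agent.MT
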