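import Pool.Agent.Lib.MP_d61fbb_ag.MW.QF
import Pool.Agent.Lib.MP_d61fbb_ag.MW.T3

/-! Complements modulo powers of the maximal ideal. -/

set_option autoImplicit false

noncomputable section

namespace Pool.Agent.MT

open Matrix IsLocalRing

variable [dm : Dim]

namespace RSys
variable {R k : Type} [CommRing R] [IsLocalRing R] [Field k] {p : Pr} (A : RSys R k p)

/-- theta functions modulo the `r`-th power of the maximal ideal -/
def Q (r n : ℕ) : Submodule R (W → R) := A.P n ⊔ Val (maximalIdeal R ^ r)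

/-- the pullback of a translate -/
def br (a : M8 AF) (y : W) : W → R := fun x => A.tr y (a *ᵥ x)

/-- `g` is a complement of `a` modulo the `r`-th power -/
def Cq (r : ℕ) (a : M8 AF) (N : ℕ) (g : W → R) : Prop := ∀ y, A.br a y * g ∈ A.Q r N

/-- `a` has a complement with a unit value -/
def CMP (r : ℕ) (a : M8 AF) (N : ℕ) : Prop := ∃ g, A.Cq r a N g ∧ ∃ x, IsUnit (g x)

variable {A} {r m n N M : ℕ} {a b : M8 AF} {f g : W → R}

theorem mem_Q : f ∈ A.Q r n ↔ ∃ u ∈ A.P n, ∀ x, f x - u x ∈ maximalIdeal R ^ r := by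
  refine Submodule.mem_sup.trans ⟨?_, fun ⟨u, hu, h⟩ => ⟨u, hu, f - u, mem_Val.2 h, add_sub_cancel _ _⟩⟩
  rintro ⟨u, hu, v, hv, rfl⟩
  exact ⟨u, hu, fun x => by simpa using mem_Val.1 hv x⟩

theorem Q_mul (hf : f ∈ A.Q r m) (hg : g ∈ A.Q r n) : f * g ∈ A.Q r (m + n) := by
  obtain ⟨u, hu, h⟩ := mem_Q.1 hf
  obtain ⟨v, hv, h'⟩ := mem_Q.1 hg
  refine mem_Q.2 ⟨_, PP_mul hu hv, fun x => ?_⟩
  rw [Pi.mul_apply, Pi.mul_apply, show f x * g x - u x * v x =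
    (f x - u x) * g x + u x * (g x - v x) by ring]
  exact add_mem (Ideal.mul_mem_right _ _ (h x)) (Ideal.mul_mem_left _ _ (h' x))

theorem Q_Rr (t : W) (hf : f ∈ A.Q r n) : Rr A.ψ n t f ∈ A.Q r n := by
  obtain ⟨u, hu, h⟩ := mem_Q.1 hf
  refine mem_Q.2 ⟨_, PP_Rr t hu, fun x => ?_⟩
  rw [Rr_apply, Rr_apply, ← mul_sub]
  exact Ideal.mul_mem_left _ _ (h _)

theorem Q_anti {r' : ℕ} (h : r' ≤ r) : A.Q r n ≤ A.Q r' n := by
  intro f hf
  obtain ⟨u, hu, h'⟩ := mem_Q.1 hf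
  exact mem_Q.2 ⟨u, hu, fun x => Ideal.pow_le_pow_right h (h' x)⟩

theorem Q_pow_p (hr : 1 ≤ r) (hf : f ∈ A.Q r n) : f ^ (p : ℕ) ∈ A.Q (r + 1) (p * n) := by
  obtain ⟨u, hu, h⟩ := mem_Q.1 hf
  refine mem_Q.2 ⟨_, PP_pow hu p, fun x => ?_⟩
  obtain ⟨c, e⟩ := exists_add_pow_prime_eq p.2 (u x) (f x - u x)
  rw [add_sub_cancel] at e
  rw [Pi.pow_apply, Pi.pow_apply, e, add_assoc, add_sub_cancel_left]
  refine add_mem (Ideal.pow_le_pow_right ?_ (pow_mul (maximalIdeal R) r p ▸ Ideal.pow_mem_pow (h x) p))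
    (Ideal.mul_mem_right _ _ ?_)
  · nlinarith [p.2.two_le]
  · rw [pow_succ']
    exact Ideal.mul_mem_mul (Ideal.mul_mem_right _ _ A.p_mem) (h x)

theorem Q_red (hr : 1 ≤ r) (hf : f ∈ A.Q r n) : A.red f ∈ A.S.G n := by
  obtain ⟨u, hu, h⟩ := mem_Q.1 (Q_anti hr hf)
  rw [show A.red f = A.red u from funext fun x => sub_eq_zero.1 (by
    rw [← map_sub, A.ker]; simpa using h x)]
  exact A.red_mem hu

theorem Q_eq (e : f = g) (hg : g ∈ A.Q r n) : f ∈ A.Q r n := e ▸ hg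

theorem P_Q (hf : f ∈ A.P n) : f ∈ A.Q r n := Submodule.mem_sup_left hf

theorem Q_prod (u : Fin n → W → R) (h : ∀ i, u i ∈ A.Q r N) : ∏ i, u i ∈ A.Q r (n * N) := by
  induction n with
  | zero => simpa using P_Q PP_one
  | succ n ih => rw [Fin.prod_univ_castSucc, add_mul, one_mul]; exact Q_mul (ih _ fun _ => h _) (h _)

theorem Q_pow (hf : f ∈ A.Q r N) (n : ℕ) : f ^ n ∈ A.Q r (n * N) := by
  simpa using Q_prod (fun _ : Fin n => f) fun _ => hf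

theorem Q_smul {c : R} (hc : c ∈ maximalIdeal R) (hf : f ∈ A.Q r n) : c • f ∈ A.Q (r + 1) n := by
  obtain ⟨u, hu, h⟩ := mem_Q.1 hf
  refine mem_Q.2 ⟨_, Submodule.smul_mem _ c hu, fun x => ?_⟩
  rw [Pi.smul_apply, Pi.smul_apply, smul_eq_mul, smul_eq_mul, ← mul_sub, pow_succ']
  exact Ideal.mul_mem_mul hc (h x)

theorem Q_mul' (hf : f ∈ A.Q (r + 1) m) (h0 : f ∈ Val (maximalIdeal R)) (hg : g ∈ A.Q r n) :
    f * g ∈ A.Q (r + 1) (m + n) := by
  obtain ⟨v, hv, h'⟩ := mem_Q.1 hg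
  rw [show f * g = f * v + f * (g - v) by ring]
  refine add_mem (Q_mul hf (P_Q hv)) (Submodule.mem_sup_right (mem_Val.2 fun x => ?_))
  rw [pow_succ']
  exact Ideal.mul_mem_mul (mem_Val.1 h0 x) (h' x)

theorem Q_unit {c : R} (hc : IsUnit c) (hf : c • f ∈ A.Q r n) : f ∈ A.Q r n := by
  obtain ⟨d, e⟩ := hc.exists_left_inv
  simpa [smul_smul, e] using Submodule.smul_mem _ d hf

variable (A) in
theorem ψ_unit (x : AF) : IsUnit (A.ψ x) :=
  .of_mul_eq_one (A.ψ (-x)) (by rw [← AddChar.map_add_eq_mul, add_neg_cancel, AddChar.map_zero_eq_one])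

theorem Cq.comp (h : A.Cq r a N g) (hf : f ∈ P1 A.ψ A.T n) :
    (fun x => f (a *ᵥ x)) * g ^ n ∈ A.Q r (n * N) := by
  induction hf using Submodule.span_induction with
  | mem _ h' =>
    obtain ⟨y, rfl⟩ := h'
    rw [show (fun x => (∏ i, Rr A.ψ 1 (y i) A.T) (a *ᵥ x)) * g ^ n = ∏ i, A.br a (y i) * g by
      funext x; simp [br, Finset.prod_mul_distrib]]
    exact Q_prod _ fun i => h _
  | zero => exact Q_eq (funext fun x => zero_mul _) (zero_mem _)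
  | add f f' _ _ hf hf' => exact Q_eq (funext fun x => add_mul _ _ _) (add_mem hf hf')
  | smul c f _ hf =>
    exact Q_eq (funext fun x => mul_assoc _ _ _) (Submodule.smul_mem _ c hf)

theorem Cq.comp' (h : A.Cq r a N g) (hf : f ∈ maximalIdeal R • P1 A.ψ A.T n) :
    (fun x => f (a *ᵥ x)) * g ^ n ∈ A.Q (r + 1) (n * N) := by
  refine Submodule.smul_induction_on (p := fun f : W → R =>
    (fun x => f (a *ᵥ x)) * g ^ n ∈ A.Q (r + 1) (n * N)) hf (fun c hc f hf => ?_) fun f f' hf hf' => ?_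
  · exact Q_eq (funext fun x => mul_assoc _ _ _) (Q_smul hc (h.comp hf))
  · exact Q_eq (funext fun x => add_mul _ _ _) (add_mem hf hf')

theorem CMP.congr (h : A.CMP r a N) (e : ∀ x : W, iq p • a *ᵥ x = iq p • b *ᵥ x) :
    A.CMP r b N := by
  refine h.imp fun g h => ⟨fun y => Q_eq ?_ (h.1 y), h.2⟩
  congr 1
  funext x
  exact (A.fac_Rr A.fac 1 y _).symm.trans (by rw [← e]; exact A.fac_Rr A.fac 1 y _)

theorem CMP.anti {r' : ℕ} (h : A.CMP r a N) (hr : r' ≤ r) : A.CMP r' a N :=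
  h.imp fun _ h => ⟨fun y => Q_anti hr (h.1 y), h.2⟩

theorem Cq.tau (h : A.Cq r a N g) (t : W) : A.Cq r a N fun x =>
    A.ψ (((N : ℚ) / 2) • Ef t x - (1 / 2 : ℚ) • Ef (a *ᵥ t) (a *ᵥ x)) * g (x + t) := fun y => by
  refine Q_unit (A.ψ_unit ((1 / 2 : ℚ) • Ef (y - a *ᵥ t) (a *ᵥ t)))
    (Q_eq (funext fun x => ?_) (Q_Rr t (h (y - a *ᵥ t))))
  simp only [Rr_apply, br, Pi.mul_apply, Pi.smul_apply, smul_eq_mul, mulVec_add]
  rw [show a *ᵥ x + a *ᵥ t + (y - a *ᵥ t) = a *ᵥ x + y by abel]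
  have h2 : ∀ B C D E F : AF, B + C = D + E + F → ∀ a b : R,
      A.ψ D * (A.ψ E * a * (A.ψ F * b)) = A.ψ B * (A.ψ C * a * b) := by
    intro B C D E F h a b
    have := congrArg A.ψ h
    simp only [AddChar.map_add_eq_mul] at this
    linear_combination -a * b * this
  refine h2 _ _ _ _ _ ?_ _ _
  simp only [Ef_add_left, Ef_add_right, Ef_sub_left, Ef_self]
  push_cast
  module

/-- as `TSys.Cmp.nz` -/
theorem CMP.nz (hr : 1 ≤ r) (h : A.CMP r a N) {ι : Type} [Finite ι] (z : ι → W) :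
    ∃ g, A.Cq r a N g ∧ ∀ i, IsUnit (g (z i)) := by
  obtain ⟨g, hg, x₀, h0⟩ := h
  obtain ⟨η, hη⟩ := A.exists_tr (a *ᵥ x₀)
  obtain ⟨x, -, h⟩ := GENP.fin genp_of A.S.toTSys (fun _ : ι => N)
    (fun _ => A.red (A.br a (hw η) * g)) z (fun _ => Q_red hr (hg _))
    fun _ => Function.ne_iff.2 ⟨x₀, A.unit_iff.1 (hη.mul h0)⟩
  refine ⟨_, hg.tau x, fun i => (A.ψ_unit _).mul ?_⟩
  rw [add_comm]
  exact isUnit_of_mul_isUnit_right (A.unit_iff.2 (h i))

theorem CMP.mono (h : A.CMP r a N) (hle : N ≤ M) : A.CMP r a M := by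
  induction hle with
  | refl => exact h
  | @step m _ ih =>
    obtain ⟨g, hg, x, h0⟩ := ih
    obtain ⟨η, hη⟩ := A.exists_tr x
    refine ⟨g * A.tr (hw η), fun y => ?_, x, h0.mul hη⟩
    rw [← mul_assoc]
    exact Q_mul (m := m) (n := 1) (hg y) (P_Q (PP_tr _))

theorem cmp_int (c : ℤ) : A.CMP r (c : M8 AF) (c.natAbs ^ 2) := by
  refine ⟨1, fun y => Q_eq (funext fun x => ?_)
    (P_Q (mul_one (c.natAbs ^ 2) ▸ PP_dil c (PP_tr y))), 0, isUnit_one⟩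
  simp only [br, intCast_mulVec, Pi.mul_apply, Pi.one_apply, mul_one]
  rw [Int.cast_smul_eq_zsmul AF c x]

variable (A) in
/-- `TSys.riem` over `R` -/
theorem riem (u v r s z : W) : 2 ^ gg * A.T z * A.T z *
      (A.tr (r + s) (u + v) * A.tr (r - s) (u - v)) =
    ∑ η, A.ψ ((2 : ℚ) • Qf (hw η) + Ef (hw η) (r + s)) *
      (A.tr (r + z + hw η) u * A.tr (r - z + hw η) u *
        (A.tr (s + hw η) v * A.tr (s + hw η) v)) := by
  have h := A.ri (u + v + (r + s)) (u - v + (r - s)) z z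
  rw [show (1 / 2 : ℚ) • (u + v + (r + s) + (u - v + (r - s)) + z + z) = u + (r + z) by module,
    show (1 / 2 : ℚ) • (u + v + (r + s) + (u - v + (r - s)) - z - z) = u + (r - z) by module,
    show (1 / 2 : ℚ) • (u + v + (r + s) - (u - v + (r - s)) + z - z) = v + s by module,
    show (1 / 2 : ℚ) • (u + v + (r + s) - (u - v + (r - s)) - z + z) = v + s by module] at h
  have h1 : A.ψ ((((1 : ℕ) : ℚ) / 2) • Ef (r + s) (u + v)) *
      A.ψ ((((1 : ℕ) : ℚ) / 2) • Ef (r - s) (u - v)) = A.ψ (Ef r u + Ef s v) := by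
    rw [← AddChar.map_add_eq_mul]
    congr 1
    simp only [Ef_add_left, Ef_add_right, Ef_sub_left, Ef_sub_right]
    push_cast
    module
  calc _ = A.ψ (Ef r u + Ef s v) *
        (2 ^ gg * (A.T (u + v + (r + s)) * A.T (u - v + (r - s)) * A.T z * A.T z)) := by
        rw [← h1]; simp only [Rr_apply]; ring
    _ = _ := by
        rw [h, Finset.mul_sum]
        refine Finset.sum_congr rfl fun η _ => ?_
        simp only [Rr_apply, add_assoc]
        have h2 : ∀ B B' C D E G H I J : AF, B + B' + C + D + E + E = G + H + I + J + J →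
            ∀ a b c : R, A.ψ B * (A.ψ B' * (A.ψ C * a * (A.ψ D * b) * (A.ψ E * c) * (A.ψ E * c))) =
              A.ψ G * (A.ψ H * a * (A.ψ I * b) * (A.ψ J * c * (A.ψ J * c))) := by
          intro B B' C D E G H I J h a b c
          have := congrArg A.ψ h
          simp only [AddChar.map_add_eq_mul] at this
          linear_combination a * b * c * c * this
        refine h2 _ _ _ _ _ _ _ _ _ ?_ _ _ _
        simp only [Ef_add_left, Ef_add_right, Ef_sub_left, Ef_sub_right]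
        push_cast
        module

/-- as `TSys.Cmp.add`, with `TSys.riem` over `R` -/
theorem CMP.add (hr : 1 ≤ r) (h : A.CMP r a N) (h' : A.CMP r b M) :
    A.CMP r (a + b) (2 * N + 2 * M) := by
  obtain ⟨f, hf, f0⟩ := h.nz hr fun _ : Unit => 0
  obtain ⟨g, hg, g0⟩ := h'.nz hr fun _ : Unit => 0
  obtain ⟨η, hη⟩ := A.exists_tr 0
  obtain ⟨ζ, hζ⟩ := A.S.bpf 0
  rw [zero_add, ← A.T_rd, ← A.unit_iff] at hζ
  refine ⟨A.br (a - b) (hw η) * (f * f * (g * g)), fun y => ?_, 0, ?_⟩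
  · obtain ⟨r, s, e1, e2⟩ : ∃ r s : W, y = r + s ∧ hw η = r - s :=
      ⟨(1 / 2 : ℚ) • (y + hw η), (1 / 2 : ℚ) • (y - hw η), by module, by module⟩
    refine Q_unit (((A.two_unit.pow gg).mul hζ).mul hζ) ?_
    have : ((2 ^ gg : R) * A.T (hw ζ) * A.T (hw ζ)) •
        (A.br (a + b) y * (A.br (a - b) (hw η) * (f * f * (g * g)))) =
        ∑ η, A.ψ ((2 : ℚ) • Qf (hw η) + Ef (hw η) (r + s)) •
          (A.br a (r + hw ζ + hw η) * f * (A.br a (r - hw ζ + hw η) * f) *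
            (A.br b (s + hw η) * g * (A.br b (s + hw η) * g))) := by
      funext x
      have := A.riem (a *ᵥ x) (b *ᵥ x) r s (hw ζ)
      simp only [Finset.sum_apply, Pi.smul_apply, Pi.mul_apply, br, add_mulVec, sub_mulVec, smul_eq_mul]
      rw [← e2, ← e1] at this
      rw [← e1, ← mul_assoc (A.tr _ _), ← mul_assoc, this, Finset.sum_mul]
      exact Finset.sum_congr rfl fun η _ => by ring
    rw [this, two_mul, two_mul]
    exact sum_mem fun η _ => Submodule.smul_mem _ _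
      (Q_mul (Q_mul (hf _) (hf _)) (Q_mul (hg _) (hg _)))
  · refine IsUnit.mul ?_ (((f0 ()).mul (f0 ())).mul ((g0 ()).mul (g0 ())))
    simpa [br] using hη

variable (A) in
theorem Cs_all {g : W → k} (hg : g ∈ A.S.Cs a N) (y : W) : A.S.br a y * g ∈ A.S.G N := by
  rw [show A.S.br a y = A.S.br a (iq p • y) from
    funext fun x => (congrFun (A.facS.Rt_iq 1 y) _).symm]
  exact hg _ (iq_mem p y)

theorem cmp_one (h : A.S.Cmp a N) : A.CMP 1 a N := by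
  obtain ⟨g, hg, h0⟩ := h
  obtain ⟨x, hx⟩ := Function.ne_iff.1 h0
  choose g' e using fun x => A.surj (g x)
  refine ⟨g', fun y => ?_, x, A.unit_iff.2 (e x ▸ hx)⟩
  obtain ⟨u, hu, e'⟩ := A.lift (A.Cs_all hg y)
  refine mem_Q.2 ⟨u, hu, fun x => ?_⟩
  rw [pow_one, ← A.ker, map_sub, sub_eq_zero, Pi.mul_apply, map_mul, e]
  exact (congrArg (· * _) (A.rd_tr _ _)).trans (congrFun e' x).symm

/-- the main step -/
theorem CMP.step {q : ℤ} (hq : ∀ x : W, iq p • mA A.S.π *ᵥ b *ᵥ x = iq p • q • x)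
    (hb : A.S.Cmp b M) (hr : 1 ≤ r) (h : A.CMP r a N) : ∃ N', A.CMP (r + 1) (q • a) N' := by
  obtain ⟨g, hg, x₀, g0⟩ := h
  obtain ⟨p', hp⟩ : ∃ p', (p : ℕ) = p' + 1 := ⟨_, (Nat.succ_pred_eq_of_pos p.2.pos).symm⟩
  have nd : ∀ n : ℕ, ¬ (p : ℕ) ∣ p * n + 1 := fun n h =>
    p.2.one_lt.ne' (Nat.dvd_one.1 ((Nat.dvd_add_right (dvd_mul_right _ _)).1 h))
  obtain ⟨γ, hγ, γ0⟩ := (hb.mono genp_of (M := p * M + 1) (by rw [hp]; nlinarith)).nz genp_of
    fun _ : Unit => a *ᵥ x₀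
  obtain ⟨η, hη⟩ := A.S.exists_th (b *ᵥ a *ᵥ x₀)
  obtain ⟨ζ, hζ⟩ := A.exists_tr (a *ᵥ x₀)
  choose H H1 H2 using fun y => A.lift (A.Cs_all hγ (mA A.S.π⁻¹ *ᵥ y))
  set Z : W → R := A.tr (hw ζ) ^ (p' * q.natAbs ^ 2 + 1)
  set D : W → W → R := fun y => (fun u => A.tr y (q • u)) * Z
  set y₀ := mA A.S.π *ᵥ hw η
  have D1 : ∀ y, D y ∈ A.P (p * q.natAbs ^ 2 + 1) := fun y => by
    have := PP_mul (PP_dil q (PP_tr (ψ := A.ψ) (T := A.T) y))
      (PP_pow (PP_tr (hw ζ)) (p' * q.natAbs ^ 2 + 1))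
    rwa [show q.natAbs ^ 2 * 1 + (p' * q.natAbs ^ 2 + 1) * 1 = p * q.natAbs ^ 2 + 1 by
      rw [hp]; ring] at this
  have D2 : ∀ y u, A.rd (D y u) = A.S.br b (mA A.S.π⁻¹ *ᵥ y) u ^ (p : ℕ) * A.rd (Z u) :=
    fun y u => by
      rw [show D y u = A.tr y (q • u) * Z u from rfl, map_mul, A.rd_tr, ← A.facS.Rt 1 y, ← hq, A.facS.Rt 1 y, TSys.br,
        ← A.S.Rt_pi, mA_inv]
  have H3 : ∀ y u, A.rd (H y u) = A.S.br b (mA A.S.π⁻¹ *ᵥ y) u * γ u := fun y => congrFun (H2 y)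
  have e0 : A.S.br b (mA A.S.π⁻¹ *ᵥ y₀) (a *ᵥ x₀) ≠ 0 := by
    have := mA_inv A.S.π⁻¹ (hw η)
    rw [inv_inv] at this
    rw [this]
    exact hη
  have E0 : ∀ y, D y * H y₀ ^ (p : ℕ) - D y₀ * H y ^ (p : ℕ) ∈ Val (maximalIdeal R) := fun y =>
    mem_Val.2 fun u => by
      simp only [← A.ker, Pi.sub_apply, Pi.mul_apply, Pi.pow_apply, map_sub, map_mul, map_pow, D2, H3]
      ring
  have E1 := fun y => hg.comp' (A.flat (n := p * q.natAbs ^ 2 + 1 + p * (p * M + 1))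
    (by rw [add_right_comm, ← mul_add]; exact nd _) _
    (sub_mem (PP_mul (D1 y) (PP_pow (H1 y₀) p)) (PP_mul (D1 y₀) (PP_pow (H1 y) p))) (E0 y))
  have D3 := hg.comp (A.P_eq (nd _) ▸ D1 y₀)
  have H4 := fun y => hg.comp (A.P_eq (nd _) ▸ H1 y)
  refine ⟨p * ((p * q.natAbs ^ 2 + 1) * N) + p * ((p * M + 1) * N),
    fun x => Z (a *ᵥ x) * H y₀ (a *ᵥ x) ^ (p : ℕ) * D y₀ (a *ᵥ x) ^ p' *
      g x ^ ((p : ℕ) * (p * q.natAbs ^ 2 + 1) + p * (p * M + 1)), fun y => ?_, x₀, ?_⟩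
  · have k1 := Q_mul' (E1 y) (mem_Val.2 fun x => Ideal.mul_mem_right _ _ (mem_Val.1 (E0 y) _))
      (Q_pow D3 p')
    rw [show (p * q.natAbs ^ 2 + 1 + p * (p * M + 1)) * N + p' * ((p * q.natAbs ^ 2 + 1) * N) =
      p * ((p * q.natAbs ^ 2 + 1) * N) + p * ((p * M + 1) * N) by rw [hp]; ring] at k1
    refine Q_eq (funext fun x => ?_)
      (add_mem k1 (Q_mul (Q_pow_p hr D3) (Q_pow_p hr (H4 y))))
    have e : A.br (q • a) y x * Z (a *ᵥ x) = D y (a *ᵥ x) :=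
      congrArg (fun u => A.tr y u * Z (a *ᵥ x)) (smul_mulVec q a x)
    simp only [Pi.mul_apply, Pi.add_apply, Pi.sub_apply, Pi.pow_apply, ← mul_assoc, e]
    generalize (p : ℕ) * q.natAbs ^ 2 + 1 = w
    generalize (p : ℕ) * M + 1 = w'
    rw [hp]
    ring
  · have z0 : IsUnit (Z (a *ᵥ x₀)) := hζ.pow _
    refine ((z0.mul ((A.unit_iff.2 ?_).pow _)).mul ((A.unit_iff.2 ?_).pow _)).mul (g0.pow _)
    · rw [H3]; exact mul_ne_zero e0 (γ0 ())
    · rw [D2]; exact mul_ne_zero (pow_ne_zero _ e0) (A.unit_iff.1 z0)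

theorem cmp_pow {q : ℤ} (hq : ∀ x : W, iq p • mA A.S.π *ᵥ b *ᵥ x = iq p • q • x)
    (hb : A.S.Cmp b M) (h : A.S.Cmp a N) (c : ℤ) (j : ℕ) :
    ∃ N', A.CMP (j + 1) ((c : M8 AF) + q ^ j • a) N' := by
  have : ∃ N', A.CMP (j + 1) (q ^ j • a) N' := by
    induction j with
    | zero => exact ⟨N, by simpa using cmp_one h⟩
    | succ j ih =>
      obtain ⟨N', ih⟩ := ih
      rw [pow_succ', mul_smul]
      exact ih.step hq hb (by omega)
  exact this.elim fun _ h => ⟨_, (cmp_int c).add (by omega) h⟩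

end RSys

end Pool.Agent.MT
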