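import Pool.Agent.Lib.MP_d61fbb_ag.MW.Q0
import Pool.Agent.Lib.MP_d61fbb_ag.MW.T2

/-! Flatness. -/

set_option autoImplicit false

noncomputable section

namespace Pool.Agent.MT

open Matrix IsLocalRing

variable [dm : Dim]

/-- multiplicity one over the residue field (`uniq_of` for the lattice `iq p • φ.h Λ`) -/
theorem Fr.uniq_k {k : Type} [Field k] {p : Pr} {S : TSys k p} (hS : Fac p S.Θ) {n : ℕ}
    (hn : (n : k) ≠ 0) (φ : Fr p n) (y : W) {u v : W → k} (hu : u ∈ S.G n) (hv : v ∈ S.G n)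
    (eu : φ.Eg S.e y u) (ev : φ.Eg S.e y v) (x x' : W) : u x * v x' = u x' * v x := by
  let F : W →+ W := (φ.h.toLinearMap.comp (iq p • LinearMap.id)).toAddMonoidHom
  have hF : ∀ t, F t = iq p • φ.h t := fun t => map_smul φ.h _ _
  have key : ∀ w ∈ S.G n, φ.Eg S.e y w → ∀ t : L0, Rt S.e n (F t) w =
      (S.e (Ef y t.1) * S.e ((1 / 2 : ℚ) • Qf t.1))⁻¹ • w := fun w hw ew t => by
    have := ew t
    rw [Fr.op, LinearMap.smul_apply, smul_smul] at this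
    rw [hF, (hS.G_fac hw).Rt_iq, eq_inv_smul_iff₀ (mul_ne_zero (e_ne _ _) (e_ne _ _))]
    exact this
  have hx : ∀ t : W, ∃ c : k, t ∈ L0.map F → Rt S.e n t u = c • u ∧ Rt S.e n t v = c • v :=
    fun t => by
      by_cases h : t ∈ L0.map F
      · obtain ⟨t, ht, rfl⟩ := h
        exact ⟨_, fun _ => ⟨key u hu eu ⟨t, ht⟩, key v hv ev ⟨t, ht⟩⟩⟩
      · exact ⟨0, fun h' => absurd h' h⟩
  choose ξ hξ using hx
  by_cases h0 : u = 0
  · simp [h0]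
  obtain ⟨c, rfl⟩ := uniq_of k p S n hn (L0.map F)
    (by rintro _ ⟨t, -, rfl⟩; rw [hF]; exact iq_mem _ _)
    (fun x hx h => by
      obtain ⟨z, rfl⟩ := φ.h.surjective x
      have h1 : iq p • z = z := φ.h.injective (by rw [map_smul, iq_smul hx])
      refine ⟨z, Wp_L0 (h1 ▸ iq_mem p z) (mem_of_Ef fun t ht _ => (S.ker _).1 ?_), by
        rw [hF, iq_smul hx]⟩
      have := h _ ⟨t, ht, rfl⟩
      rwa [hF, Ef_smul_left, ← mul_smul_comm, S.e_iq, φ.sim] at this)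
    ξ u v hu hv h0 (fun t ht => (hξ t ht).1) fun t ht => (hξ t ht).2
  simp only [Pi.smul_apply, smul_eq_mul]
  ring

/-- the standard frame `Dm n⁻¹` -/
theorem exists_fr {p : Pr} {n : ℕ} (hn : ¬ (p : ℕ) ∣ n) : Nonempty (Fr p n) := by
  have h0 : (n : ℚ) ≠ 0 := Nat.cast_ne_zero.2 fun h => hn (h ▸ dvd_zero _)
  refine ⟨⟨{ toFun := Dm (n : ℚ)⁻¹
             invFun := Dm n
             map_add' := map_add _
             map_smul' := fun c x => funext fun i => by cases i <;> simp [Dm]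
             left_inv := fun x => by rw [Dm_Dm, mul_inv_cancel₀ h0, Dm_one]
             right_inv := fun x => by rw [Dm_Dm, inv_mul_cancel₀ h0, Dm_one] },
    fun x y => ?_, fun t ht => Dm_Wi hn (L0_Wi ht)⟩⟩
  change _ • Ef (Dm _ x) (Dm _ y) = _
  rw [Ef_Dm, smul_inv_smul₀ h0]

theorem Fr.op_Rr {R : Type} [CommRing R] {p : Pr} {n : ℕ} (φ : Fr p n) (ψ : AddChar AF R) (g : L0)
    (y : W) (f : W → R) :
    φ.op ψ g (Rr ψ n (φ.h y) f) = ψ (Ef y g.1) • Rr ψ n (φ.h y) (φ.op ψ g f) := by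
  rw [Fr.op, LinearMap.smul_apply, LinearMap.smul_apply, Rr_comm, φ.sim,
    (Rr ψ n (φ.h y)).map_smul, smul_comm]

theorem Fr.Eg.tr {R : Type} [CommRing R] {p : Pr} {n : ℕ} {φ : Fr p n} {ψ : AddChar AF R} {y : W}
    {u : W → R} (h : φ.Eg ψ y u) (z : W) : φ.Eg ψ (y - z) (Rr ψ n (φ.h z) u) := by
  intro t
  rw [φ.op_Rr, smul_smul, ← AddChar.map_add_eq_mul, ← Ef_add_left, sub_add_cancel, ← map_smul, h t]

/-- a denominator prime to `p` -/
lemma qf_den (p : Pr) (x : W) : ∃ N : ℕ, ¬ (p : ℕ) ∣ N ∧ ∀ i, (N • x) i ∈ Zq p := by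
  obtain ⟨N, hN, h⟩ := exists_den_W x
  obtain ⟨a, n, hn, rfl⟩ := Nat.exists_eq_pow_mul_and_not_dvd hN p p.2.ne_one
  refine ⟨n, hn, fun i l e => ?_⟩
  have h0 : (((p : ℕ) ^ a : ℕ) : ℚ) ≠ 0 := Nat.cast_ne_zero.2 (pow_ne_zero _ p.2.ne_zero)
  have := inv_smul_Wi (p := l) (n := (p : ℕ) ^ a) (fun h => e ((Nat.prime_dvd_prime_iff_eq l.2 p.2).1
    (l.2.dvd_of_dvd_pow h))) (L0_Wi h) i l rfl
  rwa [mul_smul, ← Nat.cast_smul_eq_nsmul ℚ (_ ^ a), inv_smul_smul₀ h0] at this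

namespace RSys
variable {R k : Type} [CommRing R] [IsLocalRing R] [Field k] {p : Pr} (A : RSys R k p) {n : ℕ}

include A in
lemma two_mul_nd {N : ℕ} (hN : ¬ (p : ℕ) ∣ N) : ¬ (p : ℕ) ∣ 2 * N := by
  have := A.S.char
  exact p.2.not_dvd_mul (fun h => A.S.two (by
    exact_mod_cast (CharP.cast_eq_zero_iff k p 2).2 h)) hN

lemma gr_per {t : W} (ht : t ∈ L0) (L : Multiset (ℤ × W)) :
    gr A.ψ A.T (shf ((2 : ℤ) • t) L) = A.ψ (Ef (cl L) t) • gr A.ψ A.T L := by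
  induction L using Multiset.induction_on with
  | empty => funext x; simp [cl, shf, gr]
  | cons c L ih =>
    have h : Rr A.ψ 1 (c.2 + c.1 • (2 : ℤ) • t) A.T =
        A.ψ (Ef (c.1 • c.2) t) • Rr A.ψ 1 c.2 A.T := by
      have h1 := Rr_Rr (ψ := A.ψ) 1 c.2 (c.1 • (2 : ℤ) • t) A.T
      have h2 : c.1 • (2 : ℤ) • t = (2 : ℤ) • c.1 • t := by module
      have h3 := A.per _ (zsmul_mem (zsmul_mem ht c.1) 2)
      rw [A.ψ_one, one_smul] at h3
      · rw [h2, h3] at h1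
        rw [h2, h1, smul_smul (A.ψ _), ← AddChar.map_add_eq_mul]
        simp only [Ef_z_left, Ef_swap t c.2]
        rw [show (c.1 : ℚ) • Ef c.2 t +
          (((1 : ℕ) : ℚ) / 2) • ((2 : ℤ) : ℚ) • (c.1 : ℚ) • -Ef c.2 t = 0 by
            push_cast; module, AddChar.map_zero_eq_one, one_smul]
      · have h4 := Zq_zero (q := p) (Qf_memR (mem_L0q.1 (zsmul_mem ht c.1)))
        rw [← Int.cast_smul_eq_zsmul ℚ 2 (c.1 • t), Qf_q, smul_smul,
          show (1 / 2 : ℚ) * ((2 : ℤ) * (2 : ℤ)) = 2 by norm_num, two_smul]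
        exact add_mem h4 h4
    funext x
    have ih' := congrFun ih x
    simp only [cl, shf, gr, Multiset.map_cons, Multiset.sum_cons, Multiset.prod_cons,
      Pi.smul_apply, smul_eq_mul] at ih' ⊢
    rw [h, ih', Ef_add_left, AddChar.map_add_eq_mul, Pi.smul_apply, smul_eq_mul, mul_mul_mul_comm]

/-- as `TSys.Tm_add` -/
theorem op_add (φ : Fr p n) (a b : L0) (f : W → R) :
    φ.op A.ψ (a + b) f = φ.op A.ψ a (φ.op A.ψ b f) := by
  simp only [Fr.op, LinearMap.smul_apply, map_smul, Rr_Rr, smul_smul, ← AddChar.map_add_eq_mul,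
    AddSubgroup.coe_add, map_add]
  refine congrArg (· • _) ?_
  rw [show (n : ℚ) / 2 = 1 / 2 * n by ring, mul_smul, φ.sim,
    ← mul_one (A.ψ ((1 / 2 : ℚ) • Qf b.1 + _)), ← A.ψ_one (Ef a.1 b.1 +
    (a.1 ∘ Sum.inr) ⬝ᵥ (b.1 ∘ Sum.inl)) (Zq_zero (add_mem (Ef_memR (mem_L0q.1 a.2) (mem_L0q.1 b.2))
      (sum_mem fun i _ => mul_mem (mem_L0q.1 a.2 _) (mem_L0q.1 b.2 _)))), ← AddChar.map_add_eq_mul,
    Qf_add, Ef_swap b.1, two_mul]
  refine congrArg _ ?_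
  module

/-- as `TSys.smooth`, `smooth'`; everything kills the part at `p` -/
theorem smooth {u : W → R} (hu : u ∈ A.P n) :
    ∃ N : ℕ, ¬ (p : ℕ) ∣ N ∧ ∀ t ∈ L0, Rr A.ψ n (N • t) u = u := by
  induction hu using Submodule.span_induction with
  | mem f hf =>
    obtain ⟨L, a, rfl⟩ := hf
    obtain ⟨N, hN, h⟩ := qf_den p (cl L)
    refine ⟨2 * N, A.two_mul_nd hN, fun t ht => ?_⟩
    rw [show (2 * N) • t = (2 : ℤ) • N • t by module, Rr_gr a, A.gr_per (nsmul_mem ht N),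
      smul_smul, ← AddChar.map_add_eq_mul, A.ψ_one, one_smul]
    rw [show (1 / 2 : ℚ) • Ef (cl L) ((2 : ℤ) • N • t) + Ef (cl L) (N • t) =
      Ef (N • cl L) t + Ef (N • cl L) t by
        simp only [Ef_z_right, Ef_n_left, Ef_n_right]; push_cast; module]
    have := Ef_memR h fun i => Zq_zero (q := p) (mem_L0q.1 ht i)
    exact add_mem this this
  | zero => exact ⟨1, p.2.not_dvd_one, fun t _ => map_zero _⟩
  | add f g _ _ hf hg =>
    obtain ⟨M, hM, a⟩ := hf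
    obtain ⟨N, hN, b⟩ := hg
    refine ⟨M * N, p.2.not_dvd_mul hM hN, fun t ht => (map_add _ f g).trans ?_⟩
    have h1 := a _ (nsmul_mem ht N)
    have h2 := b _ (nsmul_mem ht M)
    rw [smul_smul] at h1 h2
    rw [mul_comm N] at h2
    exact congrArg₂ _ h1 h2
  | smul c f _ hf =>
    obtain ⟨M, hM, a⟩ := hf
    exact ⟨M, hM, fun t ht => by rw [map_smul, a t ht]⟩

theorem lev (φ : Fr p n) {u : W → R} (hu : u ∈ A.P n) :
    ∃ N : ℕ, ¬ (p : ℕ) ∣ N ∧ ∀ a ∈ KN N, φ.op A.ψ a u = u := by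
  classical
  obtain ⟨N, hN, h⟩ := A.smooth hu
  choose M hM h1 using fun i : I2 gg => qf_den p (φ.h (Pi.single i 1))
  have h2 : ∀ g ∈ L0, ∀ j, ((∏ i, M i) • φ.h g) j ∈ Zq p := fun g hg j => by
    rw [pi_eq_sum_univ' g, map_sum, Finset.smul_sum, Finset.sum_apply]
    refine sum_mem fun i _ => ?_
    rw [map_smul, smul_comm, ← Finset.prod_erase_mul _ _ (Finset.mem_univ i), mul_smul]
    exact mul_mem (Zq_zero (mem_L0q.1 hg i)) (nsmul_mem (h1 i j) _)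
  refine ⟨2 * (N * ∏ i, M i), A.two_mul_nd (p.2.not_dvd_mul hN
    (p.2.prime.not_dvd_finsetProd fun i _ => hM i)), ?_⟩
  set D := ∏ i, M i
  rintro _ ⟨g, rfl⟩
  change A.ψ ((1 / 2 : ℚ) • Qf ((2 * (N * D)) • g.1)) • Rr A.ψ n (φ.h ((2 * (N * D)) • g.1)) u = u
  rw [map_nsmul, ← A.Rr_iq (A.fac_P hu), show iq p • (2 * (N * D)) • φ.h g.1 =
    N • 2 • iq p • D • φ.h g.1 by module, h _ (nsmul_mem (Wp_L0 (iq_mem p _) fun i =>
      mul_mem (Zq_zero (zA_mem _)) (h2 _ g.2 i)) 2), A.ψ_one, one_smul]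
  rw [← Nat.cast_smul_eq_nsmul ℚ, Qf_q, smul_smul, show (1 / 2 : ℚ) * ((2 * (N * D) : ℕ) *
    (2 * (N * D) : ℕ)) = (2 * (N * D) ^ 2 : ℕ) by push_cast; ring, Nat.cast_smul_eq_nsmul]
  exact nsmul_mem (Zq_zero (Qf_memR (mem_L0q.1 g.2))) _

/-- as `MTB.exists_dec`; a nontrivial character takes a value `c` with `c - 1` a unit -/
theorem dec (φ : Fr p n) (H : Submodule R (W → R)) (hH : ∀ t, ∀ f ∈ H, Rr A.ψ n t f ∈ H) {N : ℕ}
    (hN : ¬ (p : ℕ) ∣ N) {u : W → R} (hu : u ∈ H) (hK : ∀ a ∈ KN N, φ.op A.ψ a u = u) :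
    ∃ (ι : Type) (s : Finset ι) (y : ι → W) (Φ : ι → W → R), ∑ i ∈ s, Φ i = u ∧
      ∀ i, Φ i ∈ H ∧ φ.Eg A.ψ (y i) (Φ i) := by
  classical
  have hN0 : N ≠ 0 := fun h => hN (h ▸ dvd_zero _)
  have h0 : (N : ℚ) ≠ 0 := Nat.cast_ne_zero.2 hN0
  have := KN_fin hN0
  have := Fintype.ofFinite (L0 ⧸ KN N)
  obtain ⟨c, hc⟩ : ∃ c : R, c * ((KN N).index : R) = 1 := IsUnit.exists_left_inv
    (A.unit_iff.2 (by
      rw [map_natCast]; exact MTB.index_ne _ (A.nat_ne hN) fun g => ⟨g, rfl⟩))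
  let ω : L0 → L0 → R := fun y g => A.ψ (Ef ((N : ℚ)⁻¹ • y.1) g.1)
  have hl : ∀ y z g, ω (y + z) g = ω y g * ω z g := fun y z g => by
    simp only [ω, AddSubgroup.coe_add, smul_add, Ef_add_left, AddChar.map_add_eq_mul]
  have hr : ∀ y a b, ω y (a + b) = ω y a * ω y b := fun y a b => by
    simp only [ω, AddSubgroup.coe_add, Ef_add_right, AddChar.map_add_eq_mul]
  have h1 : ∀ y, ∀ a ∈ KN N, ω y a = 1 := by
    rintro y _ ⟨a, rfl⟩
    change A.ψ (Ef _ (N • a.1)) = 1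
    rw [Ef_n_right, Ef_q_left, smul_inv_smul₀ h0]
    exact A.ψ_one _ (Zq_zero (Ef_memR (mem_L0q.1 y.2) (mem_L0q.1 a.2)))
  have h2 : ∀ y ∈ KN N, ∀ a, ω y a = 1 := by
    rintro _ ⟨a, rfl⟩ y
    change A.ψ (Ef (_ • N • a.1) _) = 1
    rw [Ef_q_left, Ef_n_left, inv_smul_smul₀ h0]
    exact A.ψ_one _ (Zq_zero (Ef_memR (mem_L0q.1 a.2) (mem_L0q.1 y.2)))
  have hn : ∀ g, g ∉ KN N → ∃ y, IsUnit (ω y g - 1) := fun g hg => by
    by_contra! h
    refine hg ⟨⟨(N : ℚ)⁻¹ • g.1, mem_L0.2 fun i l => ?_⟩, Subtype.ext ?_⟩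
    · by_cases e : (l : ℕ) = p
      · exact inv_smul_Wi hN (L0_Wi g.2) i l e
      · refine mem_of_Ef (q := p) (fun t ht _ => (A.S.ker _).1 ?_) i l e
        have := h ⟨t, ht⟩
        rw [A.unit_iff, not_not, map_sub, map_one, sub_eq_zero, A.ψ_rd, Ef_q_left] at this
        rwa [Ef_q_right]
    · change N • (N : ℚ)⁻¹ • g.1 = g.1
      rw [← Nat.cast_smul_eq_nsmul ℚ, smul_inv_smul₀ h0]
  have h5 : (0 : L0 ⧸ KN N).out ∈ KN N := (QuotientAddGroup.eq_zero_iff _).1 (by simp)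
  refine ⟨L0 ⧸ KN N, Finset.univ, fun y => (N : ℚ)⁻¹ • y.out.1,
    fun y => c • ∑ q : L0 ⧸ KN N, ω y.out q.out • φ.op A.ψ q.out u, ?_, fun y =>
    ⟨H.smul_mem _ (sum_mem fun q _ => H.smul_mem _ (H.smul_mem _ (hH _ _ hu))), fun g => ?_⟩⟩
  · rw [← Finset.smul_sum, Finset.sum_comm, Finset.sum_eq_single (0 : L0 ⧸ KN N)]
    · simp only [h1 _ _ h5, hK _ h5, one_smul, Finset.sum_const, Finset.card_univ]
      rw [← Nat.card_eq_fintype_card, ← AddSubgroup.index_eq_card, ← Nat.cast_smul_eq_nsmul R,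
        smul_smul, hc, one_smul]
    · intro q _ hq
      obtain ⟨z, hz⟩ := hn q.out fun h => hq (by
        rw [← (QuotientAddGroup.eq_zero_iff _).2 h]; simp)
      have h6 : ∀ y z : L0, (y : L0 ⧸ KN N) = z → ω y q.out = ω z q.out := fun y z e => by
        rw [← add_neg_cancel_left y z, hl, h2 _ (QuotientAddGroup.eq.1 e), mul_one]
      have h7 : ω z q.out * ∑ y : L0 ⧸ KN N, ω y.out q.out = ∑ y : L0 ⧸ KN N, ω y.out q.out := by
        rw [Finset.mul_sum]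
        refine Fintype.sum_equiv (Equiv.addLeft (z : L0 ⧸ KN N)) _ _ fun y => ?_
        rw [← hl]
        exact h6 _ _ (by simp)
      rw [← Finset.sum_smul]
      exact smul_eq_zero_of_left (hz.mul_right_eq_zero.1 (by rw [sub_mul, h7, one_mul, sub_self])) _
    · simp
  · rw [map_smul, smul_comm]
    exact congrArg _ (MTB.sum_inv (fun g => (ω y.out g • φ.op A.ψ g).toAddMonoidHom)
      (fun a b f => by simp [hr, A.op_add, smul_smul, mul_comm]) (KN N)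
      (fun a ha => by simp [h1 _ a ha, hK a ha]) g)

theorem eig (φ : Fr p n) (y : W) :
    ∃ e ∈ P1 A.ψ A.T n, φ.Eg A.ψ y e ∧ ∃ x, IsUnit (e x) := by
  obtain ⟨η, hη⟩ := A.exists_tr 0
  have hf := P1_pow (ψ := A.ψ) (T := A.T) (hw η) n
  obtain ⟨N, hN, hK⟩ := A.lev φ (P1_le n hf)
  obtain ⟨ι, s, z, Φ, h1, h2⟩ := A.dec φ _ (fun t _ h => P1_Rr t h) hN hf hK
  obtain ⟨i, -, hi⟩ := IsLocalRing.exists_of_isUnit_sum (s := s) (f := fun i => Φ i 0) (by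
    rw [← Finset.sum_apply, h1]; exact hη.pow n)
  refine ⟨_, P1_Rr (φ.h (z i - y)) (h2 i).1, by simpa using (h2 i).2.tr (z i - y),
    -φ.h (z i - y), ?_⟩
  rw [Rr_apply, neg_add_cancel]
  exact (A.ψ.val_isUnit _).mul hi

theorem flat (hn : ¬ (p : ℕ) ∣ n) (J : Ideal R) {u : W → R} (hu : u ∈ A.P n) (hJ : u ∈ Val J) :
    u ∈ J • P1 A.ψ A.T n := by
  obtain ⟨φ⟩ := exists_fr (p := p) hn
  obtain ⟨N, hN, hK⟩ := A.lev φ hu
  obtain ⟨ι, s, z, Φ, rfl, h2⟩ := A.dec φ (A.P n ⊓ Val J)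
    (fun t _ h => ⟨PP_Rr t h.1, Val_Rr n t h.2⟩) hN ⟨hu, hJ⟩ hK
  refine sum_mem fun i _ => ?_
  obtain ⟨e, e1, e2, x', e3⟩ := A.eig φ (z i)
  obtain ⟨c, hc⟩ := e3.exists_right_inv
  have h3 : Φ i = (Φ i x' * c) • e := funext fun x => by
    have := A.uniq n hn φ (z i) _ (h2 i).1.1 _ (P1_le n e1) (h2 i).2 e2 x x'
    rw [Pi.smul_apply, smul_eq_mul]
    linear_combination c * this - Φ i x * hc
  rw [h3]
  exact Submodule.smul_mem_smul (J.mul_mem_right _ (mem_Val.1 (h2 i).1.2 x')) e1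

theorem P_eq (hn : ¬ (p : ℕ) ∣ n) : A.P n = P1 A.ψ A.T n :=
  le_antisymm (fun _ hu => Submodule.smul_le_right (A.flat hn ⊤ hu (mem_Val.2 fun _ => trivial)))
    (P1_le n)

end RSys

end Pool.Agent.MT
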