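import Pool.Agent.Lib.MP_d61fbb_ag.MW.QI4

/-! The interpolation estimate. -/

set_option autoImplicit false

noncomputable section

namespace Pool.Agent.MT

open Matrix IsLocalRing
open Pool.Agent.Lib.MP_696deb_nt.B2 (Qbar Gam Plc Dec Ine IsFrob Op jC)

theorem qi_hom {J : Type} {Q : MvPolynomial J ℤ} {n : ℕ} (h : Q.IsHomogeneous n)
    (c : Qbar) (y : J → Qbar) :
    MvPolynomial.aeval (fun j => c * y j) Q = c ^ n * MvPolynomial.aeval y Q := by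
  rw [MvPolynomial.aeval_def, MvPolynomial.aeval_def, MvPolynomial.eval₂_eq, MvPolynomial.eval₂_eq,
    Finset.mul_sum]
  refine Finset.sum_congr rfl fun m hm => ?_
  have h1 : ∑ i ∈ m.support, m i = n := by
    simpa [Finsupp.weight_apply, Finsupp.sum] using h (MvPolynomial.mem_support_iff.1 hm)
  simp only [mul_pow, Finset.prod_mul_distrib, Finset.prod_pow_eq_pow_sum, h1]
  ring

theorem qi_coe {J : Type} (Q : MvPolynomial J ℤ) {O : Subring Qbar} (y : J → O) :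
    ((MvPolynomial.aeval y Q : O) : Qbar) = MvPolynomial.aeval (fun j => (y j : Qbar)) Q :=
  MvPolynomial.comp_aeval_apply y O.subtype.toIntAlgHom Q

variable [dm : Dim]

theorem sy_one (p : Pr) : Sy p 1 :=
  ⟨Matrix.map_one _ (map_zero _) (map_one _), gs_one, fun i j => by simp⟩

theorem EqOff.Wp {p : Pr} {a b : M8 AF} (h : EqOff p a b) {y : W} (hy : y ∈ Wp p) :
    a *ᵥ y = b *ᵥ y := by
  rw [← iq_smul (v2_Wp a hy), ← iq_smul (v2_Wp b hy)]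
  exact iq_congr h y

theorem offM_Wp {p : Pr} (g : M8 AF) {y : W} (hy : y ∈ Wp p) : offM p g *ᵥ y = g *ᵥ y :=
  EqOff.Wp (fun _ hl => cp_offM_ne hl g) hy

theorem TSys.IsVec.smul {k : Type} [Field k] {q N : ℕ} {S : TSys k q} {h : M8 AF} {F : W → k}
    (hF : S.IsVec N h F) (c : k) : S.IsVec N h (c • F) :=
  ⟨Submodule.smul_mem _ c hF.mem, fun t a b => by rw [Rt_smul, hF.inv t a b, smul_comm]⟩

/-- the frame of an isometry away from `p` -/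
theorem exists_frO {p : Pr} {α O δ : M8 AF} (hα : GS 1 α) (hO : GS 1 O) (e : EqOff p α (O * δ)) :
    ∃ d : Fr p 1, ∀ x, d.h x = offM p δ *ᵥ x := by
  refine exists_frM (gs_of_cp fun l => ?_) (cp_offM_self δ)
  rw [map_one]
  by_cases hl : l = p
  · rw [hl, cp_offM_self]; exact gs_one
  · intro x y
    have h1 := hO.map (cp l).toRingHom (δ.map (cp l) *ᵥ x) (δ.map (cp l) *ᵥ y)
    have h2 := hα.map (cp l).toRingHom x y
    have h3 : α.map (cp l).toRingHom = O.map (cp l).toRingHom * δ.map (cp l) :=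
      (e l hl).trans (Matrix.map_mul (f := (cp l).toRingHom))
    rw [map_one] at h1 h2
    rw [cp_offM_ne hl, ← h2, h3, ← mulVec_mulVec, ← mulVec_mulVec, h1, one_mul]

theorem EqOff.fr {p : Pr} {θ δ : M8 AF} {n : ℕ} (e : EqOff p (θ * δ) n) {d : Fr p 1}
    (hd : ∀ x, d.h x = offM p δ *ᵥ x) (x : W) : iq p • θ *ᵥ d.h x = iq p • (n : ℤ) • x := by
  rw [← mulVec_smul, ← map_smul, hd, offM_Wp _ (iq_mem _ _), mulVec_mulVec, mulVec_smul,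
    iq_congr e, natCast_mulVec, natCast_zsmul, Nat.cast_smul_eq_nsmul]

variable {τ : Matrix (Fin gg) (Fin gg) ℂ} {K : IntermediateField ℚ ℂ} {M : TRep τ K} {A : AR M}
  {v : Frb A} {R : FSys (kk v.w) v.p} {B : RSys (OI v.w) (kk v.w) v.p}

theorem Frb.qi_two (v : Frb A) : (v.p : ℕ) ≠ 2 := by have := v.big; omega

theorem lift_ev (hτ : Sieg τ) (hψ : ∀ a, (B.ψ a : Qbar) = A.S.e (iq v.p * a)) {a : M8 AF}
    (ha : Sy v.p a) {F : W → Qbar} (hF : A.S.IsVec 1 a F) {T u : W → OI v.w}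
    (hT : ∀ x, (T x : Qbar) = F (a *ᵥ iq v.p • x)) (hu : u ∈ PP B.ψ T 1) (φ : Fr v.p 1)
    (eg : φ.Eg B.ψ 0 u) : ∃ (φ' : Fr v.p 1) (U : W → Qbar), (∀ x, φ'.h x = a *ᵥ φ.h x) ∧
      U ∈ A.S.GI v.p 1 ∧ A.S.Ev v.p 1 φ'.h 0 U ∧ ∀ x, (u x : Qbar) = U (a *ᵥ iq v.p • x) := by
  obtain ⟨δ, hδ⟩ := ha.exists_fr
  obtain ⟨U, hU, e⟩ := TSys.lift0 hψ δ ((ha.isVec_iff v.qi_two).1 hF).1
    (fun x => (hT x).trans (by rw [hδ])) hu
  exact ⟨δ.comp φ, U, fun x => hδ _, hU, TSys.ev_of_eg hψ (v.dens0 hτ 1) δ φ hU.1 e eg,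
    fun x => by rw [e, hδ]⟩

theorem lift_vec (hτ : Sieg τ) (hψ : ∀ a, (B.ψ a : Qbar) = A.S.e (iq v.p * a)) {a c : M8 AF}
    (ha : Sy v.p a) (hc : Sy v.p c) {F : W → Qbar} (hF : A.S.IsVec 1 a F) {T u : W → OI v.w}
    (hT : ∀ x, (T x : Qbar) = F (a *ᵥ iq v.p • x)) (hu : u ∈ PP B.ψ T 1) {φ : Fr v.p 1}
    (hφ : ∀ x, φ.h x = c *ᵥ x) (eg : φ.Eg B.ψ 0 u) :
    ∃ U, A.S.IsVec 1 (a * c) U ∧ ∀ x, (u x : Qbar) = U (a *ᵥ iq v.p • x) := by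
  obtain ⟨φ', U, e, hU, ev, eU⟩ := lift_ev hτ hψ ha hF hT hu φ eg
  rw [show ⇑φ'.h = ((a * c) *ᵥ ·) from funext fun x => by rw [e, hφ, mulVec_mulVec]] at ev
  exact ⟨U, ((ha.mul hc).isVec_iff v.qi_two).2 ⟨hU, ev⟩, eU⟩

theorem point (hτ : Sieg τ) (hψ : ∀ a, (B.ψ a : Qbar) = A.S.e (iq v.p * a))
    (hT : ∀ x, (B.T x : Qbar) = A.S.Θ (iq v.p • x)) {α O δ θ : M8 AF} {n N : ℕ}
    (hα : Sy v.p α) (hO : Aut A v.p O) (e1 : EqOff v.p α (O * δ)) (hn : ¬ (v.p : ℕ) ∣ n)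
    (hθ : B.S.Cmp θ N) (e2 : EqOff v.p (θ * δ) n) :
    ∃ (F : W → Qbar) (T : W → OI v.w), A.S.IsVec 1 α F ∧
      (∀ x, (T x : Qbar) = F (α *ᵥ iq v.p • x)) ∧ T (hw A.η0) = 1 ∧ B.Alt T := by
  have hΘ : A.S.IsVec 1 1 A.S.Θ := ⟨A.S.Θ_mem, fun t ht _ => by rw [one_mulVec, A.S.per t ht]⟩
  have hT' : ∀ x, (B.T x : Qbar) = A.S.Θ ((1 : M8 AF) *ᵥ iq v.p • x) := fun x => by
    rw [hT, one_mulVec]
  obtain ⟨a, ha⟩ := hα.exists_fr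
  obtain ⟨f, f2, fg, x₀, f0⟩ := B.eig a 0
  obtain ⟨F, hF, eF⟩ := lift_vec hτ hψ (sy_one _) hα hΘ hT' (P1_le 1 f2) ha fg
  rw [one_mul] at hF
  obtain ⟨d, hd⟩ := exists_frO hα.gs hO.sp e1
  obtain ⟨e, e3, eg, e0⟩ := B.eig d 0
  obtain ⟨d', U, hd', hU, ev, eU⟩ := lift_ev hτ hψ (sy_one _) hΘ hT' (P1_le 1 e3) d eg
  simp only [one_mulVec] at eU eF hd'
  have e4 : ∀ t ∈ Wp v.p, α *ᵥ t = O *ᵥ d.h t := fun t ht => by
    rw [hd, offM_Wp _ ht, mulVec_mulVec, e1.Wp ht]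
  have hF' := (hα.isVec_iff v.qi_two).1 hF
  obtain ⟨g1, g2⟩ := hO.ev hF'.1 (H := d'.h) (fun t ht => by rw [hd', e4 t ht]) hF'.2
  obtain ⟨s, hs⟩ : ∃ s : Qbar, ∀ x, (e (d.h x) : Qbar) = (s • F) (α *ᵥ iq v.p • x) := by
    have h1 := TSys.uniq0 v.p.2.not_dvd_one d' 0 hU g1 ev g2
    have h2 : F (O *ᵥ d.h (iq v.p • a.h.symm x₀)) ≠ 0 := by
      rw [← e4 _ (iq_mem _ _), ← ha, map_smul, LinearEquiv.apply_symm_apply, ← eF]
      exact fun h => f0.ne_zero (Subtype.ext h)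
    refine ⟨U (d.h (iq v.p • a.h.symm x₀)) / F (O *ᵥ d.h (iq v.p • a.h.symm x₀)), fun x => ?_⟩
    rw [eU, Pi.smul_apply, smul_eq_mul, div_mul_eq_mul_div, eq_div_iff h2, h1, e4 _ (iq_mem _ _),
      map_smul d.h _ x]
  replace hF := hF.smul s
  obtain ⟨κ, hκ, ri⟩ := hα.ri hτ hF
  have i1 : InvP v.p A.S.e 1 fun x => (s • F) (α *ᵥ x) := fun t ht => by
    simp only [← ha]
    rw [a.Rr_comp, ha, gn_mulVec_sgv, hα.one, one_mulVec, ((hα.isVec_iff v.qi_two).1 hF).1.2 t ht]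
  have r1 : Ri B.ψ (fun x => e (d.h x)) (κ : OI v.w) := by
    refine Ri.of_map (OI v.w).subtype Subtype.val_injective (ψ' := chP v.p A.S.e) hψ ?_
    simpa only [Subring.coe_subtype, hs, map_intCast] using
      ri.pr v.qi_two (fun a ha => A.S.e_one ha) i1
  obtain ⟨c, c1, alt⟩ := B.alt d (P1_le 1 e3) eg e0 hn hθ (e2.fr hd) (η := A.η0)
    (Subtype.ext (by rw [hT, (A.S.invP v.qi_two).iq (hw_Wi v.qi_two _), A.one]; rfl))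
    (by exact_mod_cast congrArg (Int.cast : ℤ → OI v.w) hκ) r1
  exact ⟨_, _, hF.smul c, fun x => by rw [Subring.coe_mul, hs]; rfl, c1, alt⟩

theorem Rg.rig (hτ : Sieg τ) (he : B.S.e = R.e)
    (hΘ : B.S.Θ = fun x => R.Θ (iq v.p • x)) (hψ : ∀ a, (B.ψ a : Qbar) = A.S.e (iq v.p * a))
    {G : Type} [CommGroup G] {α : G → M8 AF} (a1 : α 1 = 1) (hα : ∀ γ, Sy v.p (α γ))
    {F : G → W → Qbar} {T : G → W → OI v.w} (hF : ∀ γ, A.S.IsVec 1 (α γ) (F γ))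
    (hT : ∀ γ x, (T γ x : Qbar) = F γ (α γ *ᵥ iq v.p • x)) {q : ℤ} {j : ℕ} {c : G}
    (h : Rg v R q α j c) : B.Rig T q j c := by
  obtain ⟨δ, β, n, N, c₀, hn, hβ, e1, h⟩ := h
  obtain ⟨O₁, hO₁, e2⟩ := h 1
  rw [a1, mul_one O₁] at e2
  obtain ⟨d, hd⟩ := exists_frO (hα _).gs hO₁.sp e2
  obtain ⟨N', hN'⟩ := FSys.pr_cmp he hΘ hβ
  refine ⟨d, n, c₀, β, N', hn, hN', fun x => by
    rw [← e1.fr hd, LinearEquiv.apply_symm_apply], fun γ u hu eg x y => ?_⟩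
  obtain ⟨O, hO, e3⟩ := h γ
  obtain ⟨φ, U, hφ, hU, ev, eU⟩ := lift_ev hτ hψ (hα γ) (hF γ) (hT γ) hu d eg
  have e4 : ∀ t ∈ Wp v.p, α (c * γ) *ᵥ t = O *ᵥ α γ *ᵥ d.h t := fun t ht => by
    rw [hd, offM_Wp _ ht, mulVec_mulVec, mulVec_mulVec, e3.Wp ht]
  have hF' := ((hα (c * γ)).isVec_iff v.qi_two).1 (hF _)
  obtain ⟨g1, g2⟩ := hO.ev hF'.1 (H := φ.h) (fun t ht => by rw [hφ, e4 t ht]) hF'.2
  refine Subtype.ext ?_
  simp only [Subring.coe_mul, eU, hT, e4 _ (iq_mem _ _), map_smul, LinearEquiv.apply_symm_apply]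
  exact TSys.uniq0 v.p.2.not_dvd_one φ 0 g1 hU g2 ev _ _

theorem cw : CW := by
  intro τ K M A hτ v R hR G _ D h F P h1 hF hV J Q d r z hQ hz hG h0
  obtain ⟨B, he, hΘ, hπ, hψ, hT⟩ := hR.exists_base hτ
  have hα : ∀ γ, Sy v.p (D.α γ) := fun γ => ⟨D.atp γ, D.sp γ, (D.two γ).two⟩
  have key : ∀ γ, ∃ (F : W → Qbar) (T : W → OI v.w), A.S.IsVec 1 (D.α γ) F ∧
      (∀ x, (T x : Qbar) = F (D.α γ *ᵥ iq v.p • x)) ∧ T (hw A.η0) = 1 ∧ B.Alt T := fun γ => by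
    obtain ⟨δ, β, n, N, c₀, hn, hβ, e1, h⟩ := D.rig1 γ
    obtain ⟨O, hO, e2⟩ := h 1
    rw [mul_one, D.one, mul_one] at e2
    obtain ⟨N', hN'⟩ := FSys.pr_cmp he hΘ hβ
    obtain ⟨N'', hθ⟩ := TSys.mem_CR.1 (add_mem (intCast_mem (B.S.CR p_irr p_genp) c₀)
      (zsmul_mem (TSys.mem_CR.2 ⟨N', hN'⟩) (D.q ^ 1)))
    exact point hτ hψ hT (hα γ) hO e2 hn hθ e1
  choose Fg T hFg hTg t1 alt using key
  obtain ⟨N, hb⟩ := FSys.pr_cmp he hΘ D.cmp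
  obtain ⟨k, k0, hk⟩ := P.exists_sy h1
  obtain ⟨φ, hφ⟩ := hk.exists_fr
  obtain ⟨E, x₁, hE, main⟩ := B.w1_ring (v.hp ▸ OI.p_ne v.w)
    (fun a ha => v.hp ▸ OI.red_eq_zero'.1 (OI.mem_max.1 ha)) T alt t1 (q := D.q)
    (fun x => by
      rw [hπ, mulVec_mulVec, iq_congr D.hq, intCast_mulVec]
      exact congrArg _ (funext fun i => (zsmul_eq_mul _ _).symm))
    hb D.Gs D.anti (fun c => (D.rig1 c).rig hτ he hΘ hψ D.one hα hFg hTg)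
    (fun j => (D.rig j).imp fun _ h c hc => (h c hc).rig hτ he hΘ hψ D.one hα hFg hTg) φ
  have lift := fun γ => lift_vec hτ hψ (hα γ) hk (hFg γ) (hTg γ) (hE γ).1 hφ (hE γ).2.1
  have h2 := main J Q z r hG (fun γ => by
    obtain ⟨c, hc, F', f0, hF', e⟩ := h0 γ
    obtain ⟨U, hU, eU⟩ := lift (c * γ)
    obtain ⟨a, rfl⟩ := ((hα _).mul hk).pt.uniq p_uniq A.S hU (mul_assoc _ h k ▸ hF'.mul_right k0) f0
    refine ⟨c, hc, Subtype.ext ?_⟩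
    simp only [qi_coe, eU, iq_smul (hz _), Pi.smul_apply, smul_eq_mul, qi_hom hQ, e, mul_zero]
    rfl) 1
  obtain ⟨U, hU, eU⟩ := lift 1
  simp only [D.one, one_mul, one_mulVec] at hU eU
  have u1 := OI.isUnit_iff.1 (hE 1).2.2
  rw [eU] at u1
  obtain ⟨a, rfl⟩ := hk.pt.uniq p_uniq A.S (hF.mul_right k0) hU fun e => by simp [e] at u1
  have a1 : v.w.V a ≤ 1 := by simpa [u1] using hV (iq v.p • x₁)
  rw [← v.hp, OI.pow_dvd_iff, qi_coe] at h2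
  simp only [eU, iq_smul (hz _)] at h2
  simp only [Pi.smul_apply, smul_eq_mul, qi_hom hQ, map_mul, map_pow]
  rw [← v.hp]
  exact (mul_le_of_le_one_left' (pow_le_one' a1 _)).trans h2

end Pool.Agent.MT
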