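import Pool.Agent.Lib.MP_d61fbb_ag.MW.QA
import Pool.Agent.Lib.MP_d61fbb_ag.MW.T5

/-! Restriction of a theta system to the prime to `p` part. -/

set_option autoImplicit false

noncomputable section

namespace Pool.Agent.MT

open Matrix IsLocalRing

variable [dm : Dim]

section ring
variable {R : Type} [CommRing R]

/-- the relation of Riemann up to a factor -/
def Ri (ψ : AddChar AF R) (T : W → R) (κ : R) : Prop :=
  ∀ a b c d : W, 2 ^ gg * (T a * T b * T c * T d) = κ * ∑ η, ψ ((2 : ℚ) • Qf (hw η)) *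
    (Rr ψ 1 (hw η) T ((1 / 2 : ℚ) • (a + b + c + d)) * Rr ψ 1 (hw η) T ((1 / 2 : ℚ) • (a + b - c - d)) *
      Rr ψ 1 (hw η) T ((1 / 2 : ℚ) • (a - b + c - d)) * Rr ψ 1 (hw η) T ((1 / 2 : ℚ) • (a - b - c + d)))

/-- the prime to `p` part of a character -/
def chP (p : ℕ) (ψ : AddChar AF R) : AddChar AF R :=
  ψ.compAddMonoidHom (AddMonoidHom.mulLeft (iq p))

omit dm in
lemma chP_apply (p : ℕ) (ψ : AddChar AF R) (a : AF) : chP p ψ a = ψ (iq p * a) := rfl

/-- invariance under the integral translations at `p` -/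
def InvP (p : Pr) (ψ : AddChar AF R) (n : ℕ) (f : W → R) : Prop :=
  ∀ t : Vl p, (∀ i, ‖t i‖ ≤ 1) → Rr ψ n (sgv p t) f = f

variable {p : Pr} {ψ : AddChar AF R} {T f : W → R} {n : ℕ} {κ : R}

theorem InvP.iq (h : InvP p ψ n f) {x : W} (hx : x ∈ Wi p) : f (iq p • x) = f x := by
  have := congrFun (h (cpv p x) fun i => hx i p rfl) (MT.iq p • x)
  rw [Rr_apply, Ef_sgv (iq_mem p x), smul_zero, AddChar.map_zero_eq_one, one_mul, ← split_p] at this
  exact this.symm

theorem hw_Wi (hp : (p : ℕ) ≠ 2) (η : I2 gg → ZMod 2) : hw η ∈ Wi p := by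
  rw [show hw η = ((2 : ℕ) : ℚ)⁻¹ • (2 : ℤ) • hw η by module]
  exact inv_smul_Wi (fun h => hp ((Nat.prime_dvd_prime_iff_eq p.2 Nat.prime_two).1 h))
    (L0_Wi (hw_two η))

lemma chP_int (hψ : ∀ a ∈ Zq 0, ψ a = 1) {a : AF} (ha : ‖cp p a‖ ≤ 1) : chP p ψ a = ψ a := by
  conv_rhs => rw [show a = iq p * a + (1 - iq p) * a by ring, AddChar.map_add_eq_mul]
  rw [hψ ((1 - iq p) * a) fun l _ => ?_, mul_one, chP_apply]
  by_cases h : l = p
  · subst h; simpa [cp_iq] using ha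
  · have : (l : ℕ) ≠ p := fun e => h (Subtype.ext e)
    simp [cp_iq, this]

lemma InvP.Rr_pr (hi : InvP p ψ n T) {t : W} (ht : t ∈ Wi p) (m : ℕ) (x : W) :
    Rr (chP p ψ) m t (fun x => T (MT.iq p • x)) x = Rr ψ m t T (MT.iq p • x) := by
  rw [Rr_apply, Rr_apply, chP_apply, Ef_smul_right, mul_smul_comm,
    ← hi.iq (add_mem (Wp_Wi (iq_mem p x)) ht), smul_add, smul_add, iq_iq]

theorem Ri.pr (hp : (p : ℕ) ≠ 2) (hψ : ∀ a ∈ Zq 0, ψ a = 1) (h : Ri ψ T κ) (hi : InvP p ψ 1 T) :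
    Ri (chP p ψ) (fun x => T (iq p • x)) κ := by
  intro a b c d
  have h2 : ∀ η, chP p ψ ((2 : ℚ) • Qf (hw η)) = ψ ((2 : ℚ) • Qf (hw η)) := fun η => by
    refine chP_int hψ ?_
    rw [two_smul]
    exact (add_mem (Qf_memR (R := (PadicInt.subring p).comap (cp p).toRingHom) fun i => hw_Wi hp η i p rfl)
      (Qf_memR fun i => hw_Wi hp η i p rfl) : _ ∈ (PadicInt.subring p).comap (cp p).toRingHom)
  simp only [h2, hi.Rr_pr (hw_Wi hp _), smul_comm (iq p) (1 / 2 : ℚ), smul_add (iq p), smul_sub (iq p)]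
  exact h _ _ _ _

theorem Ri.smul (h : Ri ψ T κ) (c : R) : Ri ψ (fun x => c * T x) κ := by
  intro a b c' d
  have := h a b c' d
  simp only [Rr_apply, Finset.mul_sum] at this ⊢
  rw [show 2 ^ gg * (c * T a * (c * T b) * (c * T c') * (c * T d)) =
    c ^ 4 * (2 ^ gg * (T a * T b * T c' * T d)) by ring, this, Finset.mul_sum]
  exact Finset.sum_congr rfl fun η _ => by ring

theorem Ri.of_map {R' : Type} [CommRing R'] (φ : R →+* R') (hφ : Function.Injective φ)
    {ψ' : AddChar AF R'} (hψ : ∀ a, φ (ψ a) = ψ' a) (h : Ri ψ' (fun x => φ (T x)) (φ κ)) :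
    Ri ψ T κ := by
  intro a b c d
  refine hφ ?_
  simpa only [map_mul, map_pow, map_ofNat, map_sum, Rr_apply, hψ] using h a b c d

theorem Ri.map {R' : Type} [CommRing R'] (φ : R →+* R') {ψ' : AddChar AF R'}
    (hψ : ∀ a, φ (ψ a) = ψ' a) (h : Ri ψ T κ) : Ri ψ' (fun x => φ (T x)) (φ κ) := by
  intro a b c d
  simpa only [map_mul, map_pow, map_ofNat, map_sum, Rr_apply, hψ] using congrArg φ (h a b c d)

end ring

theorem TSys.invP {k : Type} [Field k] {q : ℕ} (S : TSys k q) {p : Pr} (hp : (p : ℕ) ≠ 2) :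
    InvP p S.e 1 S.Θ := fun t ht => by
  have := S.th_sgv hp 0 ht
  rwa [TSys.th, hw_zero, Rt_zero] at this

namespace FSys
variable {k : Type} [Field k] {p : Pr} (S : FSys k p)

lemma pr_Rt (m : ℕ) (y : W) (f : W → k) :
    Rt S.e m y (fun x => f (iq p • x)) = fun x => Rt S.e m (iq p • y) f (iq p • x) := by
  funext x
  simp only [Rt]
  rw [smul_add, Ef_smul_left, Ef_smul_right, ← mul_smul_comm, S.e_iq, ← mul_smul_comm, S.e_iq]

lemma pr_int {y : W} (h : y ∈ IntAt p) :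
    Rt S.e 1 y (fun x => S.Θ (iq p • x)) = fun x => Rt S.e 1 y S.Θ (iq p • x) := by
  rw [pr_Rt, ← S.Rt_iq h]

lemma pr_Sp (m : ℕ) : Sp S.e (fun x => S.Θ (iq p • x)) m ≤
    (Sp S.e S.Θ m).map (LinearMap.funLeft k k fun x : W => iq p • x) := by
  refine Submodule.span_le.2 ?_
  rintro _ ⟨L, a, b, rfl⟩
  have hc : cl (L.map fun c => (c.1, iq p • c.2)) = iq p • cl L := by
    simp only [cl, Multiset.map_map, Function.comp_def, Multiset.smul_sum, smul_comm (iq p)]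
  refine ⟨_, Submodule.subset_span ⟨L.map fun c => (c.1, iq p • c.2), by simpa [wt] using a,
    by rw [hc, smul_comm]; exact iq_L0 _ b, rfl⟩, funext fun x => ?_⟩
  simp only [gen, Multiset.map_map, Function.comp_def, pr_Rt, LinearMap.funLeft_apply,
    smul_comm _ (iq p)]

theorem exists_pr : ∃ S' : FSys k p, S'.e = S.e ∧ (S'.Θ = fun x => S.Θ (iq p • x)) ∧ S'.π = S.π := by
  refine ⟨{ e := S.e, Θ := fun x => S.Θ (iq p • x), char := S.char, two := S.two, ker := S.ker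
            per := fun t ht => ?_, ev := fun x => ?_, ri := fun a b c d => ?_, bpf := fun a => ?_
            dim := fun m hm n f hf hi => ?_, closed := S.closed, π := S.π, frob := fun η x => ?_
            frobe := S.frobe }, rfl, rfl, rfl⟩
  · rw [S.pr_int (IntAt_L0 ht), S.per t ht]
    rfl
  · rw [smul_neg, S.ev]
  · simp only [S.pr_int (S.IntAt_hw _), smul_comm (iq p), smul_add (iq p), smul_sub (iq p)]
    exact S.ri _ _ _ _
  · simpa only [smul_add] using S.v2_bpf (iq p • a)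
  · choose g hg e using fun i => S.pr_Sp m (hf i)
    refine S.dim m hm n g hg (LinearIndependent.of_comp
      (LinearMap.funLeft k k fun x : W => iq p • x) ?_)
    rwa [show _ ∘ g = f from funext e]
  · simp only [TSys.th, S.pr_int (S.IntAt_hw _), ← mulVec_smul]
    exact S.frob η _

variable {S} {S' : FSys k p} (he : S'.e = S.e) (hΘ : S'.Θ = fun x => S.Θ (iq p • x))
include he hΘ

/-- `G m` is spanned by the translates of `Θ ^ m` (`G_span`) -/
theorem pr_G {m : ℕ} (hm : (m : k) ≠ 0) {f : W → k} (hf : f ∈ S.G m) :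
    (fun x => f (iq p • x)) ∈ S'.G m := by
  obtain ⟨η, h0⟩ := S.exists_th 0
  rw [← S.G_span hm (S.Sp_le m (S.th_pow η m))
    (Function.ne_iff.2 ⟨0, pow_ne_zero m h0⟩)] at hf
  refine (Submodule.span_le (p := (S'.G m).comap
    (LinearMap.funLeft k k fun x : W => iq p • x))).2 ?_ hf
  rintro _ ⟨t, ht, rfl⟩
  have h1 := Gs_Rt ht (S'.Sp_le m (S'.th_pow η m))
  have h2 : S'.th η ^ m = fun x => (S.th η ^ m) (iq p • x) := by
    rw [TSys.th, he, hΘ, S.pr_int (S.IntAt_hw _)]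
    rfl
  rw [h2] at h1
  nth_rewrite 2 [he] at h1
  rw [pr_Rt, iq_smul ht] at h1
  exact h1

/-- `Cmp.mono` to a weight prime to `p`, `Cmp.nz` at zero -/
theorem pr_cmp {a : M8 AF} {N : ℕ} (h : S.Cmp a N) : ∃ N', S'.Cmp a N' := by
  obtain ⟨M, hM, h⟩ : ∃ M : ℕ, (M : k) ≠ 0 ∧ S.Cmp a M := by
    by_cases e : (N : k) = 0
    · exact ⟨N + 1, by simp [e], h.mono genp_of (Nat.le_succ N)⟩
    · exact ⟨N, e, h⟩
  obtain ⟨g, hg, g0⟩ := h.nz genp_of fun _ : Unit => 0
  refine ⟨M, fun x => g (iq p • x), fun y hy => ?_,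
    Function.ne_iff.2 ⟨0, by simpa using g0 ()⟩⟩
  have h1 := pr_G he hΘ hM (hg y hy)
  refine (congrArg (· ∈ S'.G M) (funext fun x => ?_)).mpr h1
  simp only [TSys.br, Pi.mul_apply, he, hΘ, pr_Rt, iq_smul hy, mulVec_smul]

end FSys

end Pool.Agent.MT
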