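import Pool.Agent.Lib.MP_696deb_nt.B2.B3a

/-! The integers of the fixed field of inertia form a discrete valuation ring with uniformiser p
and full residue field. -/

set_option autoImplicit false

noncomputable section

namespace Pool.Agent.MT

open Pool.Agent.Lib.MP_696deb_nt.B2
open scoped NNReal Classical
open Finset

theorem wo_teich (w : Plc) {x : Qbar} (hx : w.V x ≤ 1) :
    ∃ t, Fx (Ine w) t ∧ w.V t ≤ 1 ∧ w.V (x - t) < 1 := by
  obtain ⟨n, n0, hn⟩ := w.exists_pow hx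
  have h1 : 1 < w.p ^ n := Nat.one_lt_pow n0.ne' w.prime.one_lt
  have hN : ¬ w.p ∣ w.p ^ n - 1 := fun h =>
    w.prime.one_lt.ne' (Nat.dvd_one.1 (by
      simpa [Nat.sub_sub_self h1.le] using Nat.dvd_sub (dvd_pow_self w.p n0.ne') h))
  have hM : 0 < w.p ^ n - 1 := by omega
  by_cases h0 : w.V x < 1
  · exact ⟨0, fun g _ => map_zero g, by simp, by simpa using h0⟩
  have hx1 : w.V x = 1 := hx.antisymm (not_lt.1 h0)
  have h2 : w.V (x ^ (w.p ^ n - 1) - 1) < 1 := by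
    have e : x ^ w.p ^ n - x = x * (x ^ (w.p ^ n - 1) - 1) := by
      rw [mul_sub, mul_one, ← pow_succ', Nat.sub_add_cancel h1.le]
    rwa [e, map_mul, hx1, one_mul] at hn
  have : NeZero ((w.p ^ n - 1 : ℕ) : Qbar) := ⟨Nat.cast_ne_zero.2 hM.ne'⟩
  obtain ⟨ζ, hζ⟩ := HasEnoughRootsOfUnity.exists_primitiveRoot Qbar (w.p ^ n - 1)
  have e := congrArg (Polynomial.eval x) (Polynomial.X_pow_sub_one_eq_prod hM hζ)
  simp only [Polynomial.eval_sub, Polynomial.eval_pow, Polynomial.eval_X, Polynomial.eval_one,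
    Polynomial.eval_prod, Polynomial.eval_C] at e
  rw [e, map_prod] at h2
  obtain ⟨t, ht, kt⟩ : ∃ t ∈ Polynomial.nthRootsFinset (w.p ^ n - 1) (1 : Qbar),
      w.V (x - t) < 1 := by
    by_contra hc
    push Not at hc
    exact h2.not_ge (one_le_prod' hc)
  rw [Polynomial.mem_nthRootsFinset hM] at ht
  exact ⟨t, fun g hg => by simpa using b3a_frob (isFrob_one.2 hg) hN ht,
    (w.V_root_of_unity hM.ne' ht).le, kt⟩

/-- the integral numbers fixed by inertia -/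
def OI (w : Plc) : Subring Qbar where
  carrier := {x | Fx (Ine w) x ∧ w.V x ≤ 1}
  zero_mem' := ⟨fun g _ => map_zero g, by simp⟩
  one_mem' := ⟨fun g _ => map_one g, by simp⟩
  add_mem' := fun {x y} hx hy => ⟨fun g hg => by rw [map_add, hx.1 g hg, hy.1 g hg],
    w.V.map_add_le hx.2 hy.2⟩
  neg_mem' := fun {x} hx => ⟨fun g hg => by rw [map_neg, hx.1 g hg], by
    rw [Valuation.map_neg]; exact hx.2⟩
  mul_mem' := fun {x y} hx hy => ⟨fun g hg => by rw [map_mul, hx.1 g hg, hy.1 g hg], by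
    rw [map_mul]; exact mul_le_one' hx.2 hy.2⟩

namespace OI

variable {w : Plc}

theorem mem_iff {x : Qbar} : x ∈ OI w ↔ Fx (Ine w) x ∧ w.V x ≤ 1 := Iff.rfl

theorem dvd_iff {a x : OI w} (ha : a ≠ 0) : a ∣ x ↔ w.V x ≤ w.V a := by
  have ha' : (a : Qbar) ≠ 0 := fun h => ha (Subtype.ext h)
  constructor
  · rintro ⟨c, rfl⟩
    rw [Subring.coe_mul, map_mul]
    exact mul_le_of_le_one_right' c.2.2
  · intro h
    refine ⟨⟨x / a, fun g hg => ?_, ?_⟩, Subtype.ext ?_⟩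
    · rw [map_div₀, x.2.1 g hg, a.2.1 g hg]
    · rw [map_div₀]
      exact div_le_one_of_le₀ h zero_le
    · rw [Subring.coe_mul]
      exact (mul_div_cancel₀ _ ha').symm

theorem p_ne (w : Plc) : ((w.p : ℕ) : OI w) ≠ 0 := Nat.cast_ne_zero.2 w.prime.ne_zero

theorem pow_dvd_iff (k : ℕ) {x : OI w} :
    ((w.p : ℕ) : OI w) ^ k ∣ x ↔ w.V x ≤ w.V w.p ^ k := by
  rw [dvd_iff (pow_ne_zero k (p_ne w)), Subring.coe_pow, map_pow, Subring.coe_natCast]

theorem V_p_lt (w : Plc) : w.V w.p < 1 := by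
  rw [w.hV]
  exact inv_lt_one_of_one_lt₀ (b3a_p w)

/-- discreteness -/
theorem le_of_lt {x : Qbar} (hx : Fx (Ine w) x) (h : w.V x < 1) : w.V x ≤ w.V w.p := by
  by_cases h0 : x = 0
  · rw [h0, map_zero]; exact zero_le
  obtain ⟨k, hk⟩ := V_of_fx_ine hx h0
  rw [hk] at h ⊢
  have hp := b3a_p w
  have h1 : 1 < (w.p : ℝ≥0) ^ k := (inv_lt_one₀ (zpow_pos (one_pos.trans hp) k)).1 h
  have h2 : 0 < k := (one_lt_zpow_iff_right₀ hp).1 h1
  rw [w.hV]
  refine inv_anti₀ (one_pos.trans hp) ?_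
  have := zpow_le_zpow_right₀ hp.le (show (1 : ℤ) ≤ k by omega)
  rwa [zpow_one] at this

theorem p_dvd_iff {x : OI w} : ((w.p : ℕ) : OI w) ∣ x ↔ w.V x < 1 := by
  rw [dvd_iff (p_ne w), Subring.coe_natCast]
  exact ⟨fun h => h.trans_lt (V_p_lt w), le_of_lt x.2.1⟩

theorem isUnit_iff {x : OI w} : IsUnit x ↔ w.V x = 1 := by
  constructor
  · intro h
    have := (dvd_iff h.ne_zero).1 (h.dvd (a := 1))
    rw [Subring.coe_one, map_one] at this
    exact le_antisymm x.2.2 this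
  · intro h
    have h0 : x ≠ 0 := by
      rintro rfl
      simp at h
    exact isUnit_of_dvd_one ((dvd_iff h0).2 (by rw [Subring.coe_one, map_one, h]))

theorem isUnit_or (x : OI w) : IsUnit x ∨ ((w.p : ℕ) : OI w) ∣ x :=
  x.2.2.eq_or_lt.imp isUnit_iff.2 p_dvd_iff.2

/-- the reduction -/
def red (w : Plc) : OI w →+* IsLocalRing.ResidueField w.V.valuationSubring :=
  (IsLocalRing.residue _).comp
    { toFun := fun x => (⟨x.1, x.2.2⟩ : w.V.valuationSubring)
      map_one' := rfl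
      map_mul' := fun _ _ => rfl
      map_zero' := rfl
      map_add' := fun _ _ => rfl }

theorem red_apply (x : OI w) :
    red w x = IsLocalRing.residue _ (⟨x.1, x.2.2⟩ : w.V.valuationSubring) := rfl

theorem res_eq_zero {x : Qbar} (h : w.V x ≤ 1) :
    IsLocalRing.residue _ (⟨x, h⟩ : w.V.valuationSubring) = 0 ↔ w.V x < 1 := by
  rw [IsLocalRing.residue_eq_zero_iff, Valuation.mem_maximalIdeal_iff]

theorem red_eq_zero {x : OI w} : red w x = 0 ↔ w.V x < 1 := res_eq_zero x.2.2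

theorem red_eq_zero' {x : OI w} : red w x = 0 ↔ ((w.p : ℕ) : OI w) ∣ x :=
  red_eq_zero.trans p_dvd_iff.symm

theorem red_surj (w : Plc) : Function.Surjective (red w) := by
  intro c
  obtain ⟨y, rfl⟩ := IsLocalRing.residue_surjective c
  obtain ⟨t, h1, h2, h3⟩ := wo_teich w (x := y.1) y.2
  refine ⟨⟨t, h1, h2⟩, ?_⟩
  rw [red_apply, eq_comm, ← sub_eq_zero, ← map_sub]
  exact (res_eq_zero (w.V.map_sub_le y.2 h2)).2 h3

theorem isUnit_iff_red {x : OI w} : IsUnit x ↔ red w x ≠ 0 := by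
  rw [isUnit_iff, Ne, red_eq_zero]
  exact ⟨fun h => by rw [h]; exact lt_irrefl _, fun h => x.2.2.antisymm (not_lt.1 h)⟩

end OI

end Pool.Agent.MT
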