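import Pool.Agent.Lib.MP_d61fbb_ag.MW.QI3
import Pool.Agent.Lib.MP_d61fbb_ag.MW.P0
import Pool.Agent.Lib.MP_d61fbb_ag.MW.WO
import Pool.Agent.Lib.MP_d61fbb_ag.MW.GN1
import Pool.Agent.Lib.MP_d61fbb_ag.MW.CM2a

/-! The theta system over the integers of the inertia field. -/

set_option autoImplicit false

noncomputable section

namespace Pool.Agent.MT

open Matrix IsLocalRing
open Pool.Agent.Lib.MP_696deb_nt.B2 (Qbar Gam Plc Dec Ine IsFrob Op jC)

instance OI.isLocalRing (w : Plc) : IsLocalRing (OI w) :=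
  .of_nonunits_add fun a b ha hb => by
    simp only [mem_nonunits_iff, OI.isUnit_iff_red, not_not] at ha hb ⊢
    rw [map_add, ha, hb, add_zero]

theorem OI.mem_max {w : Plc} {x : OI w} : x ∈ maximalIdeal (OI w) ↔ OI.red w x = 0 := by
  rw [mem_maximalIdeal, mem_nonunits_iff, OI.isUnit_iff_red, not_not]

variable [dm : Dim]

namespace TSys
variable (S : TSys Qbar 0) (p : Pr)

/-- theta functions of level prime to `p` -/
def GI (n : ℕ) : Submodule Qbar (W → Qbar) where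
  carrier := {f | f ∈ S.G n ∧ InvP p S.e n f}
  zero_mem' := ⟨zero_mem _, fun _ _ => map_zero _⟩
  add_mem' := fun hf hg => ⟨add_mem hf.1 hg.1, fun t ht => by rw [map_add, hf.2 t ht, hg.2 t ht]⟩
  smul_mem' := fun c _ hf => ⟨Submodule.smul_mem _ c hf.1, fun t ht => by rw [map_smul, hf.2 t ht]⟩

/-- eigenvectors of the prime to `p` part of the lattice `H Λ` -/
def Ev (n : ℕ) (H : W → W) (y : W) (f : W → Qbar) : Prop :=
  ∀ t ∈ L0, t ∈ Wp p → S.e (Ef y t + (1 / 2 : ℚ) • Qf t) • Rt S.e n (H t) f = f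

variable {S p} {n : ℕ}

lemma qi2_Wp (h : W ≃ₗ[AF] W) {x : W} (hx : x ∈ Wp p) : h x ∈ Wp p := by
  rw [← iq_smul hx, map_smul]; exact iq_mem p _

lemma qi2_fac (f : W → Qbar) : Fac 0 f := fun x => by
  rw [iq_smul fun _ l h => absurd h l.2.ne_zero]

lemma GI_mul {m : ℕ} {f g : W → Qbar} (hf : f ∈ S.GI p m) (hg : g ∈ S.GI p n) :
    f * g ∈ S.GI p (m + n) :=
  ⟨Gs_mul hf.1 hg.1, fun t ht => by rw [Rr_mul, hf.2 t ht, hg.2 t ht]⟩

lemma GI_one : (1 : W → Qbar) ∈ S.GI p 0 :=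
  ⟨by rw [← (qi2_fac _).PP_eq]; exact PP_one, fun t _ => funext fun x => by simp [Rr_apply]⟩

lemma GI_Rt {t : W} (ht : t ∈ Wp p) {f : W → Qbar} (hf : f ∈ S.GI p n) :
    Rr S.e n t f ∈ S.GI p n :=
  ⟨(qi2_fac _).G_Rt t hf.1, fun s hs => by
    rw [Rr_comm, hf.2 s hs, Ef_swap, Ef_sgv ht, neg_zero, smul_zero, AddChar.map_zero_eq_one,
      one_smul]⟩

lemma GI_dil (c : ℤ) {f : W → Qbar} (hf : f ∈ S.GI p n) :
    (fun x => f (c • x)) ∈ S.GI p (c.natAbs ^ 2 * n) :=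
  ⟨(qi2_fac _).G_dil c hf.1, fun s hs => by
    rw [Rr_dil, show c • sgv p s = sgv p (c • s) from funext fun i => (map_zsmul (sg p) c _).symm,
      hf.2 (c • s) fun i => (IsUltrametricDist.norm_zsmul_le _ _).trans (hs i)]⟩

/-- `p_uniq` for the lattice of the `x ∈ Wi p` with `iq p • φ.h.symm x ∈ L0` -/
theorem uniq0 (hn : ¬ (p : ℕ) ∣ n) (φ : Fr p n) (y : W) {u v : W → Qbar} (hu : u ∈ S.GI p n)
    (hv : v ∈ S.GI p n) (eu : S.Ev p n φ.h y u) (ev : S.Ev p n φ.h y v) (x x' : W) :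
    u x * v x' = u x' * v x := by
  by_cases h0 : u = 0
  · simp [h0]
  have := S.char
  have := CharP.charP_to_charZero Qbar
  have hn0 : n ≠ 0 := fun h => hn (h ▸ dvd_zero _)
  let g : W →ₗ[AF] W := (LinearMap.lsmul AF W (iq p)).comp φ.h.symm.toLinearMap
  have hg : ∀ x, g x = iq p • φ.h.symm x := fun _ => rfl
  let L : AddSubgroup W := Wi p ⊓ L0.comap g.toAddMonoidHom
  have key : ∀ f ∈ S.GI p n, S.Ev p n φ.h y f → ∀ t ∈ L, Rt S.e n t f =
      (S.e (Ef y (g t) + (1 / 2 : ℚ) • Qf (g t)))⁻¹ • f := fun f hf ef t ht => by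
    have h1 := ef (g t) ht.2 (iq_mem p _)
    have h2 := Rt_Rt (e := S.e) n (iq p • t) (sgv p (cpv p t)) f
    rw [← split_p, Ef_sgv (iq_mem p _), smul_zero, AddChar.map_zero_eq_one, one_smul,
      show Rt S.e n (sgv p (cpv p t)) f = f from hf.2 _ fun i => ht.1 i p rfl] at h2
    rw [eq_inv_smul_iff₀ (e_ne _ _), ← h2]
    rwa [show φ.h (g t) = iq p • t by rw [hg, map_smul, φ.h.apply_symm_apply]] at h1
  suffices hP : ∀ z : W, (∀ t ∈ L, S.e ((n : ℚ) • Ef t z) = 1) → z ∈ L by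
    obtain ⟨c, rfl⟩ := p_uniq Qbar 0 S n (Nat.cast_ne_zero.2 hn0) L
      (fun t _ _ l h => absurd h l.2.ne_zero) (fun z _ => hP z) _ u v hu.1 hv.1 h0
      (key u hu eu) (key v hv ev)
    simp only [Pi.smul_apply, smul_eq_mul]; ring
  refine fun z h => ⟨?_, ?_⟩
  · have e : ∀ w : W, (1 - iq p) • w = w - iq p • w := fun w => funext fun i => one_sub_mul _ _
    have h1 : (n : ℚ) • (1 - iq p) • z ∈ L0 := S.dual fun t ht => by
      rw [Ef_q_right, Ef_smul_right, ← Ef_smul_left]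
      refine h _ ⟨L0_Wi (by rw [e]; exact sub_iq (L0_Wi ht)), ?_⟩
      change g ((1 - iq p) • t) ∈ L0
      rw [e, map_sub, map_smul, hg, iq_iq, sub_self]
      exact zero_mem _
    have h2 := inv_smul_Wi hn (L0_Wi h1)
    rw [inv_smul_smul₀ (Nat.cast_ne_zero.2 hn0), e] at h2
    simpa using add_mem h2 (Wp_Wi (iq_mem p z))
  · refine Wp_L0 (iq_mem p _) fun i => mul_mem (Zq_zero (zA_mem _))
      (mem_of_Ef (x := φ.h.symm z) (fun t a _ => Zq_zero ((S.ker _).1 ?_)) i)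
    rw [← φ.sim, φ.h.apply_symm_apply]
    refine h _ ⟨φ.int t a, ?_⟩
    change iq p • φ.h.symm (φ.h t) ∈ L0
    rw [φ.h.symm_apply_apply]
    exact iq_L0 p a

variable {O : Subring Qbar} {ψ : AddChar AF O} (hψ : ∀ a, (ψ a : Qbar) = S.e (iq p * a))
include hψ

theorem lift0 (δ : Fr p 1) {F : W → Qbar} (hF : F ∈ S.GI p 1) {T u : W → O}
    (hT : ∀ x, (T x : Qbar) = F (δ.h (iq p • x))) (hu : u ∈ PP ψ T n) :
    ∃ U ∈ S.GI p n, ∀ x, (u x : Qbar) = U (δ.h (iq p • x)) := by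
  induction hu using Submodule.span_induction with
  | mem f hf =>
    obtain ⟨L, a, rfl⟩ := hf
    induction L using Multiset.induction_on generalizing n with
    | empty =>
      obtain rfl : n = 0 := by simpa [wt, eq_comm] using a
      exact ⟨1, GI_one, fun x => by simp [gr]⟩
    | cons c L ih =>
      obtain ⟨m, hm⟩ := Int.eq_ofNat_of_zero_le (show 0 ≤ wt L from Multiset.sum_nonneg fun _ h => by
        obtain ⟨c, -, rfl⟩ := Multiset.mem_map.1 h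
        exact sq_nonneg _)
      obtain ⟨U, hU, h⟩ := ih hm
      obtain rfl : n = c.1.natAbs ^ 2 * 1 + m := by
        have h1 : wt (c ::ₘ L) = c.1 ^ 2 + wt L := by simp [wt]
        rw [h1, hm] at a
        have h2 : ((c.1.natAbs ^ 2 : ℕ) : ℤ) = c.1 ^ 2 := by push_cast; exact sq_abs _
        omega
      refine ⟨_, GI_mul (GI_dil c.1 (GI_Rt (qi2_Wp δ.h (iq_mem p c.2)) hF)) hU, fun x => ?_⟩
      have h1 := δ.sim (iq p • c.2) (c.1 • iq p • x)
      have h2 : c.1 • iq p • x = iq p • c.1 • x :=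
        (map_zsmul (LinearMap.lsmul AF W (iq p)) _ _).symm
      rw [Nat.cast_one, one_smul, h2, Ef_smul_right, ← Ef_smul_left, iq_iq, Ef_smul_left] at h1
      rw [Pi.mul_apply, ← h, show gr ψ T (c ::ₘ L) x = Rr ψ 1 c.2 T (c.1 • x) * gr ψ T L x by
        simp [gr], Subring.coe_mul, Rr_apply, Rr_apply, Subring.coe_mul, hψ, hT, ← map_zsmul,
        h2, h1, smul_add, map_add, mul_smul_comm]
  | zero => exact ⟨0, zero_mem _, fun _ => rfl⟩
  | add f g _ _ hf hg =>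
    obtain ⟨U, hU, a⟩ := hf
    obtain ⟨U', hU', b⟩ := hg
    exact ⟨_, add_mem hU hU', fun x => congrArg₂ (· + ·) (a x) (b x)⟩
  | smul c f _ hf =>
    obtain ⟨U, hU, a⟩ := hf
    exact ⟨_, Submodule.smul_mem _ (c : Qbar) hU, fun x => congrArg ((c : Qbar) * ·) (a x)⟩

/-- `hd` is `AR.dens0` -/
theorem ev_of_eg (hd : ∀ f ∈ S.G n, (∀ x ∈ Wp p, f x = 0) → f = 0) (δ : Fr p 1) (φ : Fr p n)
    {y : W} {U : W → Qbar} (hU : U ∈ S.G n) {u : W → O}
    (h : ∀ x, (u x : Qbar) = U (δ.h (iq p • x))) (eg : φ.Eg ψ y u) :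
    S.Ev p n (δ.comp φ).h y U := by
  intro t ht hp
  refine sub_eq_zero.1 (hd _ (sub_mem (Submodule.smul_mem _ _ ((qi2_fac _).G_Rt _ hU)) hU)
    fun x hx => ?_)
  obtain ⟨x, rfl⟩ := δ.h.surjective x
  have hx' : x ∈ Wp p := by simpa using qi2_Wp δ.h.symm hx
  have h1 := congrArg Subtype.val (congrFun (eg ⟨t, ht⟩) x)
  have h2 := δ.sim (φ.h t) x
  have h3 : iq p * Qf t = Qf t := by
    rw [Qf, ← smul_eq_mul, ← smul_dotProduct, ← Pi.smul_comp, iq_smul hp]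
  rw [Nat.cast_one, one_smul] at h2
  simp only [Fr.op, LinearMap.smul_apply, Pi.smul_apply, smul_eq_mul, Rr_apply, Subring.coe_mul,
    hψ, h, mul_smul_comm, h3, ← Ef_smul_right, iq_smul hp, iq_smul hx',
    iq_smul (add_mem hx' (qi2_Wp φ.h hp)), map_add] at h1
  rw [Pi.sub_apply, sub_eq_zero, ← h1, Pi.smul_apply, smul_eq_mul, AddChar.map_add_eq_mul,
    mul_assoc, ← h2]
  rfl

end TSys

variable {τ : Matrix (Fin gg) (Fin gg) ℂ} {K : IntermediateField ℚ ℂ} {M : TRep τ K} {A : AR M}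
  {v : Frb A} {R : FSys (kk v.w) v.p}

theorem Frb.dens0 (hτ : Sieg τ) (v : Frb A) (n : ℕ) :
    ∀ f ∈ A.S.G n, (∀ x ∈ Wp v.p, f x = 0) → f = 0 := fun f hf h => funext fun x => by
  obtain ⟨x₀, h0, h1⟩ := p_lat τ K M A hτ v n f hf
  simpa [h x₀ h0] using h1 x

theorem RedOf.red_th (h : RedOf v R) (η : I2 gg → ZMod 2) (x : W) :
    R.th η x = rd v.w (A.S.th η x) := by
  rw [TSys.th, TSys.th, v.rd_rt 1 _ h.int, show R.e = v.eb from AddChar.ext _ _ h.e,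
    show R.Θ = _ from funext h.Θ]

theorem RedOf.red_ine (h : RedOf v R) {σ : ℂ ≃ₐ[K] ℂ} (hσ : A.res σ ∈ Ine v.w)
    (η : I2 gg → ZMod 2) (x : W) : R.th η (mA (M.ρ σ) *ᵥ x) = 1 * R.th η x := by
  have h1 : v.w.V (A.S.th η x) ≤ 1 := v.rt_int 1 _ h.int x
  rw [one_mul, h.red_th, h.red_th, ← A.gal,
    rd_eq_rd _ (by rwa [Pool.Agent.Lib.MP_696deb_nt.B2.mem_Dec.1 hσ.1]) h1]
  exact hσ.2 _ h1

/-- port of `BO.unr` of `MT/BO1` -/
theorem RedOf.unr (h : RedOf v R) {σ : ℂ ≃ₐ[K] ℂ} (hσ : A.res σ ∈ Ine v.w) {l : Pr}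
    (hl : l ≠ v.p) : M.ρ σ l = 1 := by
  have h1 : ∀ x : Vl l, (mA (M.ρ σ)).map (cp l) *ᵥ x = x := fun x => funext fun i => by
    refine sub_eq_zero.1 (gn_eq_zero fun t => ?_)
    have h2 := (p_inj _ _ R.toTSys _ _ 1 fun η => h.red_ine hσ η (sgv l ((2 * t) • x))).1 i l
      fun e => hl (Subtype.ext e)
    have h3 := congrFun (c2_cmul l (mA (M.ρ σ)) (sgv l ((2 * t) • x))) i
    have h4 := congrFun (c2_cs l ((2 * t) • x)) i
    rw [c2_cs, mulVec_smul] at h3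
    rw [map_smul, Pi.sub_apply, map_sub, show cp l _ = _ from h3, show cp l _ = _ from h4] at h2
    refine le_of_eq_of_le (congrArg _ ?_) h2
    simp only [Pi.smul_apply, smul_eq_mul, Rat.smul_def]
    push_cast
    ring
  refine Units.ext (Matrix.ext fun i j => Subtype.ext ?_)
  have := congrFun (h1 (Pi.single j 1)) i
  rw [mulVec_single_one] at this
  refine this.trans ?_
  rw [Units.val_one, one_apply, Pi.single_apply]
  split_ifs <;> rfl

theorem RedOf.fix (h : RedOf v R) {σ : ℂ ≃ₐ[K] ℂ} (hσ : A.res σ ∈ Ine v.w) (x : W) :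
    mA (M.ρ σ) *ᵥ (iq v.p • x) = iq v.p • x := c2_ext fun l => by
  rw [c2_cmul]
  by_cases e : l = v.p
  · rw [e, c2_Wp.1 (iq_mem _ _), mulVec_zero]
  · rw [gn_cp_mA, h.unr hσ e, Units.val_one, Matrix.map_one _ rfl rfl, one_mulVec]

theorem RedOf.Θ_mem (h : RedOf v R) (x : W) : A.S.Θ (iq v.p • x) ∈ OI v.w := by
  refine ⟨fun g hg => ?_, h.int _⟩
  obtain ⟨σ, rfl⟩ := v.ine hg
  rw [A.c2_Θ, h.fix hg]

theorem qi2_idem (q : ℕ) (a : AF) : iq q * (iq q * a) = iq q * a := ad_ext fun l => by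
  by_cases e : (l : ℕ) = q <;> simp [cp_iq, e]

theorem RedOf.e_mem (h : RedOf v R) (a : AF) : A.S.e (iq v.p * a) ∈ OI v.w := by
  refine ⟨fun g hg => ?_, (v.e_val _).le⟩
  obtain ⟨σ, rfl⟩ := v.ine hg
  have := A.gale σ (iq v.p • a • Pi.single (.inl 0) 1) (iq v.p • Pi.single (.inr 0) 1)
  rwa [h.fix hg, h.fix hg, Ef_smul_right, Ef_smul_left, Ef_smul_left, gn_Ef_base, mul_one,
    qi2_idem] at this

theorem TSys.qi2_per {k : Type} [Field k] {q : ℕ} (S : TSys k q) {t : W} (ht : t ∈ L0) :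
    S.e ((1 / 2 : ℚ) • Qf t) * sgn S.e t = 1 := by
  rw [sgn, ← AddChar.map_add_eq_mul]
  refine S.e_one fun l _ => ?_
  have h := Qf_memR (mem_L0q.1 ht) l l.2.ne_zero
  rw [map_add, map_mul, map_smul]
  by_cases e : l = p2
  · subst e
    rwa [cp_sg, one_mul, ← add_smul, add_halves, one_smul]
  · rw [cp_sg_ne e, zero_mul, add_zero, Rat.smul_def, norm_mul]
    push_cast
    rwa [norm_div, norm_one, show ‖(2 : ℚ_[l])‖ = 1 by exact_mod_cast padic_norm_prime_ne e, div_one,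
      one_mul]

theorem RedOf.exists_base (hτ : Sieg τ) (h : RedOf v R) : ∃ B : RSys (OI v.w) (kk v.w) v.p,
    B.S.e = R.e ∧ (B.S.Θ = fun x => R.Θ (iq v.p • x)) ∧ B.S.π = R.π ∧
    (∀ a, (B.ψ a : Qbar) = A.S.e (iq v.p * a)) ∧ ∀ x, (B.T x : Qbar) = A.S.Θ (iq v.p • x) := by
  obtain ⟨S, he, hΘ, hπ⟩ := R.exists_pr
  have hp : (v.p : ℕ) ≠ 2 := fun e => v.not_dvd_two e.dvd
  have hr : ∀ x : OI v.w, OI.red v.w x = rd v.w x := fun x => by
    rw [rd, dif_pos (show x.1 ∈ v.w.V.valuationSubring from x.2.2)]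
    rfl
  let ψ : AddChar AF (OI v.w) :=
    { toFun := fun a => ⟨_, h.e_mem a⟩
      map_zero_eq_one' := Subtype.ext (by simp)
      map_add_eq_mul' := fun a b => Subtype.ext (by simp [mul_add, AddChar.map_add_eq_mul]) }
  let T : W → OI v.w := fun x => ⟨_, h.Θ_mem x⟩
  have hψ : ∀ a, (ψ a : Qbar) = A.S.e (iq v.p * a) := fun _ => rfl
  have hG : A.S.Θ ∈ A.S.GI v.p 1 := ⟨A.S.Θ_mem, A.S.invP hp⟩
  refine ⟨{
    S := S
    rd := OI.red v.w
    surj := OI.red_surj v.w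
    ker := fun _ => OI.mem_max.symm
    ψ := ψ
    T := T
    ψ_rd := fun a => by rw [hr, hψ, ← h.e, he, R.e_iq]
    T_rd := fun x => by rw [hr, hΘ]; exact (h.Θ _).symm
    ψ_one := fun a ha => Subtype.ext (A.S.e_one fun l _ => ?_)
    fac := fun x => Subtype.ext (congrArg A.S.Θ (iq_iq _ x))
    per := fun t ht => funext fun x => Subtype.ext ?_
    ev := fun x => Subtype.ext (by
      change A.S.Θ (_ • -x) = A.S.Θ _
      rw [smul_neg, A.S.ev])
    ri := fun a b c d => ?_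
    uniq := fun n hn φ y u hu u' hu' e e' x x' => ?_ }, he, hΘ, hπ, hψ, fun _ => rfl⟩
  · by_cases e : (l : ℕ) = v.p
    · simp [cp_iq, e]
    · simpa [cp_iq, e] using ha l e
  · have h1 := congrFun (A.S.per _ (iq_L0 v.p ht)) (iq v.p • x)
    have h2 := A.S.qi2_per (iq_L0 v.p ht)
    rw [Rt, Ef_smul_left, Ef_smul_right, qi2_idem, ← mul_smul_comm, ← smul_add] at h1
    rw [show Qf (iq v.p • t) = iq v.p * (iq v.p * Qf t) by
      simp only [Qf, Pi.smul_comp, smul_dotProduct, dotProduct_smul, smul_eq_mul],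
      qi2_idem, ← mul_smul_comm] at h2
    change A.S.e _ * (A.S.e _ * A.S.Θ _) = A.S.Θ _
    rw [h1, Pi.smul_apply, smul_eq_mul, ← mul_assoc, h2, one_mul]
  · have h1 : Ri A.S.e A.S.Θ 1 := fun a b c d => (A.S.ri a b c d).trans (one_mul _).symm
    have h2 := Ri.of_map (ψ := ψ) (T := T) (κ := 1) (OI v.w).subtype Subtype.val_injective
      (ψ' := chP v.p A.S.e) hψ (h1.pr hp (fun _ => A.S.e_one) hG.2) a b c d
    rwa [one_mul] at h2
  · obtain ⟨U, hU, eU⟩ := TSys.lift0 hψ (Fr.one v.p) hG (T := T) (fun _ => rfl) hu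
    obtain ⟨U', hU', eU'⟩ := TSys.lift0 hψ (Fr.one v.p) hG (T := T) (fun _ => rfl) hu'
    refine Subtype.ext ?_
    rw [Subring.coe_mul, Subring.coe_mul, eU, eU, eU', eU']
    exact TSys.uniq0 hn _ y hU hU' (TSys.ev_of_eg hψ (v.dens0 hτ n) _ φ hU.1 eU e)
      (TSys.ev_of_eg hψ (v.dens0 hτ n) _ φ hU'.1 eU' e') _ _

end Pool.Agent.MT
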