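import Pool.Agent.Lib.MP_d61fbb_ag.MW.QA
import Pool.Agent.Lib.MP_d61fbb_ag.MW.BAl5
import Pool.Agent.Lib.MP_d61fbb_ag.MW.VC1

/-! Similitudes with a complement preserve the theta functions. -/

set_option autoImplicit false

noncomputable section

namespace Pool.Agent.MT

open Matrix IsLocalRing

section
open Finset Module

theorem BSys.Sim.alpha' {k W A B : Type*} [Field k] [AddCommGroup W] [Module ℚ W] [AddCommGroup A]
    [Module ℚ A] [AddCommGroup B] {T : BSys k W A B} {a : Module.End ℚ W} {a' : Module.End ℤ B}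
    {N N' : ℕ} [Infinite k] (h : T.Sim a a' N) (ha : ∀ l ∈ T.L, a l ∈ T.L)
    (hG : ∀ x, ∃ g ∈ T.G a a' N', g x ≠ 0) (y : W) : T.th a y ∈ T.H N (a' (T.pr y)) := by
  obtain ⟨η, hη, e0⟩ := T.nv 0
  have n0 : ∀ (b : Module.End ℚ W), ∀ ζ, T.Θ ζ ≠ 0 → T.th b ζ 0 ≠ 0 := fun b ζ e =>
    T.th_ne (by simpa using e)
  rw [zero_add] at e0
  have h2 := h.two fun ζ hζ _ => (Submodule.smul_mem_iff _ (pow_ne_zero N (n0 1 η e0))).1
    (h.diag hG ha hζ (T.th_pow hη N)).1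
  suffices T.th a η ∈ T.H N 0 by
    obtain ⟨c, w, e1, e2⟩ := h.all η y
    rw [e1, e2, T.eta_pr _ hη, map_zero]
    exact Submodule.smul_mem _ _ (T.H_U w this)
  obtain ⟨j, hj⟩ := bal_growth T.g (2 * N') N h.pos
  obtain ⟨t, et, lt, hd⟩ := dil_pow h2 j
  have t0 := h.pos.trans_le lt
  have hb := h.bound hG 2 t0
  have : Module.Finite k (T.R a a' 2 t 0 ⊓ T.Iv (2 * N + t) :) :=
    Module.rank_lt_aleph0_iff.1 (hb.trans_lt Cardinal.natCast_lt_aleph0)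
  have m0 : 2 ^ (j + 1) ≠ 0 := by positivity
  have sq : (2 ^ (j + 1)) ^ 2 * N = 2 * N + t := by
    rw [et, ← pow_mul, mul_comm (j + 1), pow_mul]; rfl
  have dU : ∀ y (f : W → k), dil (2 ^ (j + 1)) (T.U N y f) =
      T.U (2 * N + t) (((2 ^ (j + 1) : ℕ) : ℚ)⁻¹ • y) (dil (2 ^ (j + 1)) f) := fun y f => by
    rw [← sq, ← dil_U, ← Nat.cast_smul_eq_nsmul ℚ, smul_inv_smul₀ (Nat.cast_ne_zero.2 m0)]
  have dR : ∀ y, T.pr y = 0 → ∀ f : W → k, dil (2 ^ (j + 1)) f ∈ T.R a a' 2 t 0 →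
      dil (2 ^ (j + 1)) (T.U N y f) ∈ T.R a a' 2 t 0 := fun y hy f hf => by
    rw [dU]
    refine R_cast (h.R_U _ 2 _ hf) rfl ?_
    rw [← sq, pow_two, mul_right_comm, mul_smul, ← map_nsmul, ← Nat.cast_smul_eq_nsmul ℚ (2 ^ (j + 1)),
      smul_inv_smul₀ (Nat.cast_ne_zero.2 m0), hy, smul_zero, add_zero]
  obtain ⟨s₂, c2, y2, n2⟩ := h.nd2 (j + 1)
  obtain ⟨s₁, c1, y1, n1⟩ := h.nd1
  obtain ⟨fZ, hZ⟩ := mult ((T.R a a' 2 t 0).comap (dil (2 ^ (j + 1))).toLinearMap ⊓ T.Iv N)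
    (T.R a a' 2 t 0 ⊓ T.Iv (2 * N + t)) s₂ (dil (2 ^ (j + 1))).toLinearMap (dil_inj m0) inf_le_right
    (card_pos.1 (lt_of_lt_of_le (by positivity) c2)) (fun y hy f hf =>
      ⟨dR y (y2 y hy).1 f hf.1, fun l hl => by
        have := T.dil_U N (2 ^ (j + 1)) l (T.U N y f)
        rw [sq, T.U_comm, (y2 y hy).2 l hl, one_smul,
          show T.U N _ f = f from hf.2 _ (T.L.nsmul_mem hl _)] at this
        exact this.symm⟩) n2
  have le : T.H N 0 ⊓ T.Iv N ≤ (T.R a a' 2 t 0).comap (dil (2 ^ (j + 1))).toLinearMap ⊓ T.Iv N :=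
    fun f hf => ⟨R_cast (hd f 0 (R_cast ((Submodule.smul_mem_iff _ (n0 a η e0)).1
      (h.diag hG ha hη hf).2) rfl (smul_zero _).symm)) rfl (smul_zero _), hf.2⟩
  have := Submodule.finiteDimensional_of_le le
  have heis := bal_heis2 (fun z : T.Y N 1 => T.U N z) (fun z => T.U_neg N z)
    (fun i : s₁ => ⟨i, y1 _ i.2⟩)
    (fun i => T.ψ.compAddMonoidHom (((2 * N) • T.E i).toAddMonoidHom.comp (T.Y N 1).subtype))
    (fun i i' e => Subtype.ext (n1 _ i.2 _ i'.2 fun l hl => DFunLike.congr_fun e ⟨l, hl⟩))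
    (fun i z => T.U_comm N i z) (c1.trans_eq (Fintype.card_coe _).symm)
  have sH : ∀ z : T.Y N 1, ∀ v ∈ T.H N 0 ⊓ T.Iv N, T.U N z v ∈ T.H N 0 ⊓ T.Iv N := fun z v hv =>
    ⟨T.H_cast (T.H_U z hv.1) rfl (by rw [z.2.1, smul_zero, add_zero]), T.Iv_U z.2 hv.2⟩
  have b1 := heis ⊥ _ (fun z v hv => by rw [(Submodule.mem_bot k).1 hv, map_zero]; rfl) sH
    (bot_lt_iff_ne_bot.2 ((Submodule.ne_bot_iff _).2 ⟨_, T.th_pow hη N, fun e =>
      pow_ne_zero N (n0 1 η e0) (congrFun e 0)⟩))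
  by_contra hn
  have b2 := heis _ ((T.R a a' 2 t 0).comap (dil (2 ^ (j + 1))).toLinearMap ⊓ T.Iv N) sH
    (fun z v hv => ⟨dR z z.2.1 v hv.1, T.Iv_U z.2 hv.2⟩)
    (lt_of_le_of_ne le fun e => hn (e.ge ⟨R_cast (hd _ _ (h2 η)) rfl (by
      rw [T.eta_pr _ hη, map_zero, smul_zero]), h.th_Iv ha hη⟩).1)
  have b3 := (Nat.mul_le_mul c2 (show 2 * (T.c * N) ^ T.g ≤ _ by omega)).trans
    (hZ.trans (finrank_le_of_rank_le hb))
  have b4 := mul_lt_mul_of_pos_left hj (pow_pos T.c_pos T.g)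
  have b5 : (T.c * (2 * N' + t)) ^ T.g ≤ (T.c * (2 * N' + 4 ^ (j + 1) * N)) ^ T.g := by
    gcongr
    omega
  simp only [mul_pow] at b3 b4 b5
  linarith

end

variable [dm : Dim]

/-- twice the part of the standard lattice that is prime to `q` -/
def qsL (q : ℕ) : AddSubgroup W := (L0 ⊓ (Wp q).toAddSubgroup).map (zsmulAddGroupHom 2)

namespace TSys
variable {k : Type} [Field k] {q : ℕ} (S : TSys k q)

include S in
lemma qs_inf : Infinite k := by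
  by_contra h
  rw [not_infinite_iff_finite] at h
  have := Fintype.ofFinite k
  have n0 : ((Fintype.card k - 1 : ℕ) : ℚ) ≠ 0 :=
    Nat.cast_ne_zero.2 (Nat.sub_ne_zero_of_lt Fintype.one_lt_card)
  have h1 := FiniteField.pow_card_sub_one_eq_one
    (S.e (((Fintype.card k - 1 : ℕ) : ℚ)⁻¹ • qa (1 / 2))) (e_ne _ _)
  rw [← AddChar.map_nsmul_eq_pow, ← Nat.cast_smul_eq_nsmul ℚ, smul_inv_smul₀ n0] at h1
  have h2 := (S.ker _).1 h1 ⟨2, Nat.prime_two⟩ fun e => S.two (by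
    have := S.char
    have h0 := CharP.cast_eq_zero k q
    rw [← show 2 = q from e] at h0
    exact_mod_cast h0)
  rw [AlgHom.commutes, map_div₀, map_one, map_ofNat, norm_div, norm_one] at h2
  have h3 : ‖(2 : ℚ_[2])‖ = 2⁻¹ := by exact_mod_cast Padic.norm_p (p := 2)
  have h4 : 1 / ‖(2 : ℚ_[2])‖ ≤ 1 := h2
  rw [h3] at h4
  norm_num at h4

include S in
lemma qs_den (x : AF) : ∃ d : ℕ, (d : k) ≠ 0 ∧ (d : AF) * x ∈ Zq q := by
  obtain ⟨N, hN, h⟩ := x.2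
  replace h : (N : AF) * x ∈ Zq q := fun l _ => by
    rw [map_mul, map_natCast]
    exact h l
  have := S.char
  induction N using Nat.strong_induction_on with
  | _ N ih =>
  by_cases e : (N : k) = 0
  · obtain ⟨n, rfl⟩ := (CharP.cast_eq_zero_iff k q N).1 e
    have hq := (CharP.char_is_prime_or_zero k q).resolve_right (left_ne_zero_of_mul hN)
    refine ih n (lt_mul_left (Nat.pos_of_ne_zero (right_ne_zero_of_mul hN)) hq.one_lt)
      (right_ne_zero_of_mul hN) fun l hl => ?_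
    have h1 := h l hl
    rwa [Nat.cast_mul, mul_assoc, map_mul, map_natCast, norm_mul,
      Padic.norm_natCast_eq_one_iff.2 ((Nat.coprime_primes l.2 hq).2 hl), one_mul] at h1
  · exact ⟨N, e, h⟩

lemma qs_fam {M c : ℕ} (hM : (M : k) ≠ 0) (hc : c ≠ 0) (Y Z : AddSubgroup W)
    (χ : W → W → k) (mem : ∀ a : I2 gg → ℕ, qv' (fun i => (a i : ℚ) / c) ∈ Y)
    (test : ∀ t ∈ L0, t ∈ Wp q → ∃ z ∈ Z, ∀ y, χ y z = S.e (((c : ℚ) / M) • Ef y t)) :
    ∃ s : Finset W, M ^ (2 * gg) ≤ s.card ∧ (∀ y ∈ s, y ∈ Y) ∧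
      ∀ y ∈ s, ∀ y' ∈ s, (∀ z ∈ Z, χ y z = χ y' z) → y = y' := by
  classical
  have M0 : (M : ℚ) ≠ 0 := Nat.cast_ne_zero.2 fun e => hM (by simp [e])
  have sc : ∀ a : I2 gg → ℕ, ((c : ℚ) / M) • qv' (fun i => (a i : ℚ) / c) =
      qv' fun i => (a i : ℚ) / M := fun a => funext fun i => by
    rw [Pi.smul_apply, Algebra.smul_def, ← map_mul]
    congr 1
    field_simp
  have bq : ∀ (n : ℕ) (l : Pr), (l : ℕ) = q → ‖cp l (qa ((n : ℚ) / M))‖ ≤ 1 := fun n l e => by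
    rw [AlgHom.commutes, map_div₀, map_natCast, map_natCast, norm_div, S.norm_cast hM l e, div_one]
    exact padic_nat_le _ _
  have sep : ∀ a a' : I2 gg → Fin M, (∀ z ∈ Z, χ (qv' fun i => ((a i : ℕ) : ℚ) / c) z =
      χ (qv' fun i => ((a' i : ℕ) : ℚ) / c) z) → a = a' := fun a a' h => funext fun i => by
    have h1 := mem_of_Ef (q := q) (x := qv' (fun i => ((a i : ℕ) : ℚ) / M) -
      qv' fun i => ((a' i : ℕ) : ℚ) / M) (fun t ht ht' => (S.ker _).1 (by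
        obtain ⟨z, hz, e⟩ := test t ht ht'
        have := h z hz
        rw [e, e, ← Ef_q_left, ← Ef_q_left, sc, sc] at this
        rw [Ef_swap, Ef_sub_left, neg_sub, AddChar.map_sub_eq_div, this, div_self (e_ne _ _)])) i
    obtain ⟨n, hn⟩ := (qa_mem_Zh (q := ((a i : ℕ) : ℚ) / M - ((a' i : ℕ) : ℚ) / M)).1 fun l => by
      by_cases hl : (l : ℕ) = q
      · rw [qa, map_sub, sub_eq_add_neg]
        exact padic_add_le (bq _ l hl) ((norm_neg _).trans_le (bq _ l hl))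
      · rw [qa, map_sub]
        exact h1 l hl
    rw [← sub_div, div_eq_iff M0] at hn
    have h2 : ((a i : ℕ) : ℤ) - (a' i : ℕ) = n * M := by exact_mod_cast hn
    have h3 := (a i).2
    have h4 := (a' i).2
    have : n = 0 := by
      by_contra h0
      rcases lt_or_gt_of_ne h0 with h0 | h0 <;> nlinarith
    exact Fin.ext (by subst this; omega)
  refine ⟨Finset.univ.image fun a : I2 gg → Fin M => qv' fun i => ((a i : ℕ) : ℚ) / c, ?_, ?_, ?_⟩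
  · rw [Finset.card_image_of_injective _ fun a a' e => sep a a' fun z _ => congrArg (χ · z) e]
    simp [two_mul]
  · simp only [Finset.forall_mem_image]
    exact fun a _ => mem _
  · simp only [Finset.forall_mem_image]
    exact fun a _ a' _ h => by rw [sep a a' h]

lemma qs_int {c : ℕ} (hc : c ≠ 0) (a : I2 gg → ℕ) {t : W} (ht : t ∈ L0) :
    S.e ((c : ℚ) • Ef (qv' fun i => (a i : ℚ) / c) t) = 1 := by
  rw [← Ef_q_left]
  refine S.e_one (Zq_zero (Ef_memR (fun i => ?_) (mem_L0q.1 ht)))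
  rw [Pi.smul_apply, Algebra.smul_def, ← map_mul, mul_div_cancel₀ _ (Nat.cast_ne_zero.2 hc),
    map_natCast]
  exact natCast_mem _ _

variable {S}

open scoped Classical in
/-- the graded system of a theta function that factors through the prime to `q` part -/
def bsys (hS : Fac q S.Θ) : BSys k W AF Unit where
  E := balF
  ψ := S.e
  pr := 0
  Θ := S.Θ
  L := qsL q
  Eta := Finset.univ.image hw
  cf w := (Finset.univ.filter fun η => hw η = w).card * S.e ((2 : ℚ) • Qf w) / 2 ^ gg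
  H r _ := S.G r
  c := 4
  g := gg
  q := 1
  fr := 1
  fr' := 1
  alt x := by simp [balF]
  even := S.ev
  nv x := let ⟨η, e⟩ := S.bpf x; ⟨_, Finset.mem_image_of_mem _ (Finset.mem_univ η), e⟩
  eta_pr _ _ := rfl
  eta_inv η hη := by
    obtain ⟨η, -, rfl⟩ := Finset.mem_image.1 hη
    rintro _ ⟨t, ht, rfl⟩
    rw [Uo_Rt, Uo_Rt]
    exact S.Sp_per ht.1 (S.th_Sp η)
  riem a b c d := by
    have h16 : (2 ^ gg : k) ≠ 0 := pow_ne_zero _ S.two
    refine mul_left_cancel₀ h16 ((S.ri a b c d).trans ?_)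
    rw [Finset.sum_comp (fun w => S.e ((2 : ℚ) • Qf w) *
      (Rt S.e 1 w S.Θ ((1 / 2 : ℚ) • (a + b + c + d)) * Rt S.e 1 w S.Θ ((1 / 2 : ℚ) • (a + b - c - d)) *
      Rt S.e 1 w S.Θ ((1 / 2 : ℚ) • (a - b + c - d)) * Rt S.e 1 w S.Θ ((1 / 2 : ℚ) • (a - b - c + d))))
      hw, Finset.mul_sum]
    refine Finset.sum_congr rfl fun w _ => ?_
    have r : ∀ x, Rt S.e 1 w S.Θ x = S.e (balF w x) * S.Θ (x + w) := fun x => by
      rw [← one_nsmul (balF w x), balF_nsmul]; rfl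
    rw [r, r, r, r, bal_four (balF w) S.e a b c d, nsmul_eq_mul]
    exact bal_ring h16 _ _ _ _ _ _ _ _ _ _
  c_pos := by norm_num
  H_one := by simpa using Gs_pow S.Θ_mem 0
  H_th := S.Θ_mem
  H_mul := Gs_mul
  H_U y hf := by
    rw [Uo_Rt]
    exact hS.G_Rt y hf
  H_sc m hf := G_dilz m hf
  H_fr hf := by rw [one_mul]; exact hf
  fr_L _ h := h
  fr_E x y := by rw [one_smul]; rfl
  dim r hr := by
    refine (Submodule.rank_mono fun f hf => ?_).trans (S.rank_Sp hr.ne')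
    refine bal_eig _ (fun t : {t : W // t ∈ L0 ∧ t ∈ Wp q} => RtL S.e r ((2 : ℤ) • (t : W)))
      (fun t v hv => S.Sp_per t.2.1 hv)
      ?_ ?_ hf.1 fun t => (Uo_Rt _ _ _ _).symm.trans (hf.2 _ ⟨t, t.2, rfl⟩)
    · rintro _ ⟨L, a, -, rfl⟩ t
      exact ⟨_, (Rt_gen a _).trans (by rw [S.gen_per t.2.1, smul_smul])⟩
    · rintro _ ⟨L, a, b, rfl⟩
      by_cases e : ∀ t ∈ L0, t ∈ Wp q → S.e (Ef t ((2 : ℤ) • cl L)) = 1
      · refine .inl (Submodule.subset_span ⟨L, a, mem_L0.2 fun i l => ?_, rfl⟩)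
        by_cases hl : (l : ℕ) = q
        · rw [two_zsmul, Pi.add_apply, map_add]
          exact padic_add_le (b i l hl) (b i l hl)
        · exact mem_of_Ef (fun t ht ht' => (S.ker _).1 (e t ht ht')) i l hl
      · push Not at e
        obtain ⟨t, ht, ht', e⟩ := e
        refine .inr ⟨⟨-t, neg_mem ht, neg_mem ht'⟩, _, e, (Rt_gen a _).trans ?_⟩
        rw [S.gen_per (neg_mem ht), smul_smul, ← AddChar.map_add_eq_mul]
        congr 2
        simp only [Ef_z_right, Ef_neg_right]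
        rw [Ef_swap t]
        push_cast
        module

variable (hS : Fac q S.Θ) {m : ℕ}

lemma qs_nd1 (hm : (m : k) ≠ 0) : ∃ s : Finset W, ((4 * m) ^ gg) ^ 2 ≤ s.card ∧
    (∀ y ∈ s, y ∈ (bsys hS).Y m 1) ∧ ∀ y ∈ s, ∀ y' ∈ s, (∀ z ∈ (bsys hS).Y m 1,
      S.e ((2 * m) • balF y z) = S.e ((2 * m) • balF y' z)) → y = y' := by
  have m0 : m ≠ 0 := fun e => hm (by simp [e])
  have mq : (m : ℚ) ≠ 0 := Nat.cast_ne_zero.2 m0
  have two : ∀ j, ((2 ^ j : ℕ) : k) ≠ 0 := fun j => by exact_mod_cast pow_ne_zero j S.two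
  obtain ⟨s, h1, h2⟩ := S.qs_fam (M := 2 ^ 2 * m) (c := 2 * m)
    (by exact_mod_cast mul_ne_zero (two 2) hm) (by omega) ((bsys hS).Y m 1) ((bsys hS).Y m 1)
    (fun y z => S.e ((2 * m) • balF y z))
    (fun a => ⟨rfl, by
      rintro _ ⟨t, ht, rfl⟩
      refine Eq.trans (congrArg S.e ?_) (S.qs_int (c := 2 * m) (by omega) a ht.1)
      change (2 * m) • balF _ (1 • (2 : ℤ) • t) = _
      rw [balF_nsmul, one_nsmul, Ef_z_right, smul_smul]
      congr 1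
      push_cast
      ring⟩) fun t ht _ => ⟨((2 * m : ℕ) : ℚ)⁻¹ • t, ⟨rfl, by
      rintro _ ⟨t', ht', rfl⟩
      refine Eq.trans (congrArg S.e ?_) (S.e_one (Zq_zero (Ef_memR (mem_L0q.1 ht) (mem_L0q.1 ht'.1))))
      change (2 * m) • balF _ (1 • (2 : ℤ) • t') = _
      rw [balF_nsmul, one_nsmul, Ef_z_right, Ef_q_left, smul_smul, smul_smul]
      refine (congrArg (· • _) ?_).trans (one_smul ℚ _)
      push_cast
      field_simp⟩, fun y => by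
      rw [balF_nsmul, Ef_q_right, smul_smul]
      congr 2
      push_cast
      field_simp
      norm_num⟩
  exact ⟨s, (by rw [← pow_mul, mul_comm gg]; rfl : _ = _).trans_le h1, h2⟩

lemma qs_nd2 (hm : (m : k) ≠ 0) (j : ℕ) : ∃ s : Finset W, (4 ^ j) ^ gg ≤ s.card ∧
    (∀ y ∈ s, y ∈ (bsys hS).Y m (2 ^ j)) ∧ ∀ y ∈ s, ∀ y' ∈ s,
      (∀ l ∈ qsL q, S.e ((2 * m) • balF y l) = S.e ((2 * m) • balF y' l)) → y = y' := by
  have m0 : m ≠ 0 := fun e => hm (by simp [e])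
  have mq : (m : ℚ) ≠ 0 := Nat.cast_ne_zero.2 m0
  have two : ∀ j, ((2 ^ j : ℕ) : k) ≠ 0 := fun j => by exact_mod_cast pow_ne_zero j S.two
  obtain ⟨s, h1, h2⟩ := S.qs_fam (M := 2 ^ j) (c := 2 * m * 2 ^ j) (two j) (by positivity)
    ((bsys hS).Y m (2 ^ j)) (qsL q) (fun y z => S.e ((2 * m) • balF y z))
    (fun a => ⟨rfl, by
      rintro _ ⟨t, ht, rfl⟩
      refine Eq.trans (congrArg S.e ?_) (S.qs_int (c := 2 * m * 2 ^ j) (by positivity) a ht.1)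
      change (2 * m) • balF _ (2 ^ j • (2 : ℤ) • t) = _
      rw [balF_nsmul, Ef_n_right, Ef_z_right, smul_smul, smul_smul]
      congr 1
      push_cast
      ring⟩) fun t ht ht' => ⟨(2 : ℤ) • t, ⟨t, ⟨ht, ht'⟩, rfl⟩, fun y => by
      rw [balF_nsmul, Ef_z_right, smul_smul]
      congr 2
      push_cast
      field_simp⟩
  refine ⟨s, (?_ : _ = _).trans_le h1, h2⟩
  rw [show 4 ^ j = (2 ^ j) ^ 2 by rw [← pow_mul, mul_comm, pow_mul]; rfl, ← pow_mul]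

variable {a : M8 AF} {M : ℕ}

open scoped Classical in
/-- a complement that does not vanish at a point has an eigencomponent that does not vanish there -/
lemma qs_eig (hint : ∀ i j (l : Pr), (l : ℕ) ≠ q → ‖cp l (a i j)‖ ≤ 1) {g : W → k}
    (hg : g ∈ S.Cs a M) {x : W} (gx : g x ≠ 0) : ∃ g' ∈ S.Cs a M, g' x ≠ 0 ∧ ∃ w : W,
      ∀ t : {t : W // t ∈ L0 ∧ t ∈ Wp q}, S.tau a M ((2 : ℤ) • t.1) g' = S.chr w t • g' := by
  obtain ⟨η, hη⟩ := S.exists_th (a *ᵥ x)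
  have hs : ∀ (t : {t : W // t ∈ L0 ∧ t ∈ Wp q}) (g : W → k),
      Rt S.e M ((2 : ℤ) • t.1) (S.br a (hw η) * g) =
        S.br a (hw η) * S.tau a M ((2 : ℤ) • t.1) g := fun t g => by
    have ht := v2_L0 hint t.2.1 t.2.2
    have e : a *ᵥ (2 : ℤ) • t.1 = (2 : ℤ) • a *ᵥ t.1 := map_zsmul a.mulVecLin _ _
    have h1 := (S.Sp_per ht (S.th_Sp η)).symm.trans (Rt_Rt 1 _ _ S.Θ)
    rw [Rt_br, e, ← smul_mul_assoc]
    refine congrArg (· * _) (funext fun y => ?_)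
    have h2 := congrFun h1 (a *ᵥ y)
    rw [add_comm, Nat.cast_one] at h2
    exact h2.symm
  obtain ⟨Y, hY⟩ := exists_GX (Cs_int hg (S.IntAt_hw η))
  induction Y using Finset.eraseInduction generalizing g with
  | H Y ih =>
  have f0 : S.br a (hw η) * g ≠ 0 := Function.ne_iff.2 ⟨x, mul_ne_zero hη gx⟩
  have er : ∀ ξ (t : {t : W // t ∈ L0 ∧ t ∈ Wp q}), S.br a (hw η) *
      (S.tau a M ((2 : ℤ) • t.1) g - ξ t • g) ∈ S.GX M (Y.erase ξ) := fun ξ t => by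
    rw [mul_sub, mul_smul_comm, ← hs]
    exact GX_erase ξ t hY
  have cs : ∀ (c : k) (t : {t : W // t ∈ L0 ∧ t ∈ Wp q}),
      S.tau a M ((2 : ℤ) • t.1) g - c • g ∈ S.Cs a M := fun c t =>
    sub_mem (Cs_tau hg (zsmul_mem t.2.2 _)) (Submodule.smul_mem _ _ hg)
  have ne : ∀ {Z : Finset _} {F : W → k}, F ∈ S.GX M Z → F ≠ 0 → ∃ w, S.chr w ∈ Z :=
    fun {Z F} hF F0 => by
      by_contra! hn
      refine F0 ((Submodule.span_le (p := ⊥)).2 ?_ hF)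
      rintro _ ⟨L, -, -, h3, -⟩
      exact (hn _ h3).elim
  by_cases hu : ∀ ξ ∈ Y, ∀ ξ' ∈ Y, ξ = ξ'
  · obtain ⟨w, hw⟩ := ne hY f0
    refine ⟨g, hg, gx, w, fun t => sub_eq_zero.1 ?_⟩
    by_contra h0
    obtain ⟨z, -, z1, z2⟩ := v2_dom genp_of (cs _ t) h0 (fun _ : Unit => S.br a (iq q • MT.hw η))
      (fun _ => Submodule.subset_span ⟨_, iq_mem _ _, rfl⟩) fun _ => by
        refine Function.ne_iff.2 ⟨x, ?_⟩
        rw [br, ← S.Rt_iq (S.IntAt_hw η)]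
        exact hη
    obtain ⟨w', hw'⟩ := ne (er (S.chr w) t) (Function.ne_iff.2 ⟨z, mul_ne_zero (by
      have := z2 ()
      rwa [br, ← S.Rt_iq (S.IntAt_hw η)] at this) z1⟩)
    exact (Finset.mem_erase.1 hw').1 (hu _ (Finset.mem_erase.1 hw').2 _ hw)
  · push Not at hu
    obtain ⟨ξ, hξ, ξ', hξ', hne⟩ := hu
    obtain ⟨t, ht⟩ := Function.ne_iff.1 hne
    by_cases h0 : (S.tau a M ((2 : ℤ) • t.1) g - ξ t • g) x = 0
    · refine ih ξ' hξ' (cs _ t) (fun h1 => mul_ne_zero (sub_ne_zero.2 ht) gx ?_) (er ξ' t)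
      simp only [Pi.sub_apply, Pi.smul_apply, smul_eq_mul] at h0 h1
      linear_combination h1 - h0
    · exact ih ξ hξ (cs _ t) h0 (er ξ t)

lemma qs_th (y : W) : (bsys hS).th (balE a) y = S.br a y := funext fun x => by
  change S.e (balF y (a *ᵥ x)) * _ = S.e _ * _
  rw [← one_nsmul (balF y _), balF_nsmul]
  rfl

lemma qs_hG (hint : ∀ i j (l : Pr), (l : ℕ) ≠ q → ‖cp l (a i j)‖ ≤ 1) (h : S.Cmp a M) (x : W) :
    ∃ g ∈ (bsys hS).G (balE a) 1 (M + 1), g x ≠ 0 := by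
  obtain ⟨g, hg, gx⟩ := h.nz genp_of fun _ : Unit => x
  obtain ⟨g, hg, gx, w, hw⟩ := qs_eig hint hg (gx ())
  obtain ⟨η, hη⟩ := S.bpf (x - w)
  refine ⟨g * Rt S.e 1 (MT.hw η - w) S.Θ, ⟨fun y => ?_, ?_⟩,
    mul_ne_zero gx (mul_ne_zero (e_ne _ _) (by rwa [← add_sub_assoc, add_sub_right_comm]))⟩
  · rw [qs_th, ← mul_assoc, show S.br a y = S.br a (iq q • y) from
      funext fun x => congrFun (hS.Rt_iq 1 y).symm _]
    exact Gs_mul (hg _ (iq_mem _ _)) (hS.G_Rt _ S.Θ_mem)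
  · rintro _ ⟨t, ht, rfl⟩ z
    have h1 := congrFun (hw ⟨t, ht⟩) z
    have h2 := congrFun (Rt_comm (e := S.e) 1 ((2 : ℤ) • t) (MT.hw η - w) S.Θ) z
    rw [S.Sp_per ht.1 S.Θ_Sp] at h2
    have h3 : S.e (Ef ((2 : ℤ) • MT.hw η) t) = 1 :=
      S.e_one (Zq_zero (Ef_memR (mem_L0q.1 (hw_two η)) (mem_L0q.1 ht.1)))
    generalize Rt S.e 1 (MT.hw η - w) S.Θ = u at h2 ⊢
    change S.e ((M + 1) • balF ((2 : ℤ) • t) z) * (g (z + (2 : ℤ) • t) * u (z + (2 : ℤ) • t)) =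
      S.e (balF (a *ᵥ (2 : ℤ) • t) (a *ᵥ z)) * (g z * u z)
    simp only [tau, chr, Rt, Pi.smul_apply, smul_eq_mul] at h1 h2
    have h4 : S.e ((M + 1) • balF ((2 : ℤ) • t) z) = S.e (balF (a *ᵥ (2 : ℤ) • t) (a *ᵥ z)) *
        (S.e (((M : ℚ) / 2) • Ef ((2 : ℤ) • t) z -
          (1 / 2 : ℚ) • Ef (a *ᵥ (2 : ℤ) • t) (a *ᵥ z)) *
        S.e ((((1 : ℕ) : ℚ) / 2) • Ef ((2 : ℤ) • t) z)) := by
      rw [← AddChar.map_add_eq_mul, ← AddChar.map_add_eq_mul, balF_nsmul]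
      congr 1
      change _ = (1 / 2 : ℚ) • Ef (a *ᵥ (2 : ℤ) • t) (a *ᵥ z) + _
      push_cast
      module
    have h5 : S.e ((2 : ℚ) • Ef w t) * S.e (((1 : ℕ) : ℚ) • Ef (MT.hw η - w) ((2 : ℤ) • t)) = 1 := by
      rw [← h3, ← AddChar.map_add_eq_mul]
      congr 1
      simp only [Ef_sub_left, Ef_z_left, Ef_z_right]
      push_cast
      module
    rw [h4, mul_assoc, mul_mul_mul_comm, h1, h2, mul_mul_mul_comm, h5, one_mul]

include hS in
theorem qs_alpha {N : ℕ} (hN : (N : k) ≠ 0) (hs : S.Cmp a M)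
    (hint : ∀ i j (l : Pr), (l : ℕ) ≠ q → ‖cp l (a i j)‖ ≤ 1)
    (sim : ∀ x y, iq q * Ef (a *ᵥ x) (a *ᵥ y) = iq q * (N : ℚ) • Ef x y)
    (surj : ∀ w : W, ∃ z, iq q • a *ᵥ z = iq q • w) : (fun x => S.Θ (a *ᵥ x)) ∈ S.G N := by
  have := S.qs_inf
  have h : (bsys hS).Sim (balE a) 1 N := by
    refine ⟨Nat.pos_of_ne_zero fun e => hN (by simp [e]), fun x y => ?_, fun _ => rfl, fun w => ?_,
      qs_nd1 hS hN, qs_nd2 hS hN⟩
    · change S.e ((1 / 2 : ℚ) • Ef (a *ᵥ x) (a *ᵥ y)) = S.e (N • balF x y)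
      rw [← S.e_iq, mul_smul_comm, sim, ← mul_smul_comm, S.e_iq, balF_nsmul, smul_smul]
      congr 2
      ring
    · obtain ⟨z, hz⟩ := surj w
      refine ⟨z, rfl, fun x => ?_, fun x => ?_⟩
      · change S.e ((1 / 2 : ℚ) • Ef w x) = S.e ((1 / 2 : ℚ) • Ef (a *ᵥ z) x)
        rw [← S.e_iq, mul_smul_comm, ← Ef_smul_left, ← hz, Ef_smul_left, ← mul_smul_comm, S.e_iq]
      · change S.Θ (x + w) = S.Θ (x + a *ᵥ z)
        rw [← hS, smul_add, ← hz, ← smul_add, hS]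
  have h1 := h.alpha' (by
    rintro _ ⟨t, ht, rfl⟩
    exact ⟨a *ᵥ t, ⟨v2_L0 hint ht.1 ht.2, v2_Wp a ht.2⟩, mv_z _ 2 t⟩) (qs_hG hS hint hs) 0
  rw [qs_th, show S.br a 0 = fun x => S.Θ (a *ᵥ x) from funext fun x => by rw [br, Rt_zero]] at h1
  exact h1

end TSys

theorem TSys.cmp_alpha {k : Type} [Field k] {q : ℕ} {S : TSys k q} (hS : Fac q S.Θ) {s : M8 AF}
    {N M : ℕ} (hN : (N : k) ≠ 0) (hs : S.Cmp s M)
    (sim : ∀ x y, iq q * Ef (s *ᵥ x) (s *ᵥ y) = iq q * (N : ℚ) • Ef x y)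
    (surj : ∀ w : W, ∃ z, iq q • s *ᵥ z = iq q • w) : (fun x => S.Θ (s *ᵥ x)) ∈ S.G N := by
  choose d d0 hd using fun u : I2 gg × I2 gg => S.qs_den (s u.1 u.2)
  obtain ⟨D, D0, hD⟩ : ∃ D : ℕ, (D : k) ≠ 0 ∧ ∀ i j, (D : AF) * s i j ∈ Zq q :=
    ⟨∏ u, d u, by rw [Nat.cast_prod]; exact Finset.prod_ne_zero_iff.2 fun u _ => d0 u, fun i j => by
      rw [← Finset.prod_erase_mul _ _ (Finset.mem_univ (i, j)), Nat.cast_mul, mul_assoc]
      exact mul_mem (natCast_mem _ _) (hd (i, j))⟩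
  have D1 : D ≠ 0 := fun e => D0 (by simp [e])
  have mv : ∀ x, (D • s) *ᵥ x = s *ᵥ ((D : ℤ) • x) := fun x => by
    rw [smul_mulVec, ← mv_z, natCast_zsmul]
  refine TSys.descale hN (c := D) (by exact_mod_cast D0) ?_
  have := TSys.qs_alpha hS (N := D ^ 2 * N) (by push_cast; exact mul_ne_zero (pow_ne_zero _ D0) hN)
    (hs.nsmul D1) (fun i j l hl => by
      rw [Matrix.smul_apply, nsmul_eq_mul]
      exact hD i j l hl) (fun x y => by
      rw [mv, mv, sim, Ef_z_left, Ef_z_right, smul_smul, smul_smul]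
      congr 2
      push_cast
      ring) fun w => by
      obtain ⟨z, hz⟩ := surj w
      refine ⟨(D : ℚ)⁻¹ • z, ?_⟩
      rw [mv, natCast_zsmul, ← Nat.cast_smul_eq_nsmul ℚ, smul_inv_smul₀ (Nat.cast_ne_zero.2 D1), hz]
  simpa only [mv, Int.natAbs_natCast] using this

end Pool.Agent.MT
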