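import Pool.Agent.Lib.MP_d61fbb_ag.MW.QR
import Pool.Agent.Lib.MP_d61fbb_ag.MW.QS
import Pool.Agent.Lib.MP_d61fbb_ag.MW.QI1

/-! The theta function of another lattice. -/

set_option autoImplicit false

noncomputable section

namespace Pool.Agent.MT

open Matrix IsLocalRing

variable [dm : Dim]

/-- the composition of frames -/
def Fr.comp {p : Pr} {n : ℕ} (δ : Fr p 1) (φ : Fr p n) : Fr p n where
  h := φ.h.trans δ.h
  sim x y := by
    have := δ.sim (φ.h x) (φ.h y)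
    rw [Nat.cast_one, one_smul] at this
    rw [LinearEquiv.trans_apply, LinearEquiv.trans_apply, this, φ.sim]
  int t ht := by
    have h := φ.int t ht
    rw [LinearEquiv.trans_apply, ← sub_add_cancel (φ.h t) (iq p • φ.h t), map_add, map_smul]
    exact add_mem (δ.int _ (sub_iq h)) (Wp_Wi (iq_mem _ _))

/-- the standard frame -/
def Fr.one (p : Pr) : Fr p 1 where
  h := LinearEquiv.refl _ _
  sim x y := by simp
  int _ ht := L0_Wi ht

section
variable {R : Type} [CommRing R] {ψ : AddChar AF R} {p : Pr} {n : ℕ} (δ : Fr p 1)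

theorem Fr.Rr_comp (t : W) (f : W → R) :
    Rr ψ n t (fun x => f (δ.h x)) = fun x => Rr ψ n (δ.h t) f (δ.h x) := by
  funext x
  have e := δ.sim t x
  rw [Nat.cast_one, one_smul] at e
  simp only [Rr_apply, map_add, e]

theorem Fr.eg_comp (φ : Fr p n) (y : W) (f : W → R) :
    φ.Eg ψ y (fun x => f (δ.h x)) ↔ (δ.comp φ).Eg ψ y f := by
  refine forall_congr' fun t => ?_
  rw [Fr.op, Fr.op, LinearMap.smul_apply, LinearMap.smul_apply, δ.Rr_comp]
  refine ⟨fun h => funext fun x => ?_, fun h => funext fun x => congrFun h (δ.h x)⟩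
  obtain ⟨z, rfl⟩ := δ.h.surjective x
  exact congrFun h z

theorem Fr.PP_comp {T e u : W → R} (he : e ∈ PP ψ T 1) (hu : u ∈ PP ψ (fun x => e (δ.h x)) n) :
    ∃ u' ∈ PP ψ T n, u = fun x => u' (δ.h x) := by
  induction hu using Submodule.span_induction with
  | mem _ h =>
    obtain ⟨L, a, rfl⟩ := h
    induction L using Multiset.induction_on generalizing n with
    | empty =>
      obtain rfl : n = 0 := by simpa [wt] using a.symm
      exact ⟨1, PP_one, funext fun x => by simp [gr]⟩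
    | cons c L ih =>
      obtain ⟨m, hm⟩ := Int.eq_ofNat_of_zero_le (show 0 ≤ wt L from
        Multiset.sum_nonneg fun x hx => by
          obtain ⟨d, -, rfl⟩ := Multiset.mem_map.1 hx
          exact sq_nonneg _)
      obtain ⟨v, hv, e'⟩ := ih hm
      obtain rfl : n = c.1.natAbs ^ 2 * 1 + m := by
        rw [← Nat.cast_inj (R := ℤ), ← a, Nat.cast_add, ← hm, mul_one, Nat.cast_pow, Int.natAbs_sq]
        simp [wt]
      refine ⟨_, PP_mul (PP_dil c.1 (PP_Rr (δ.h c.2) he)) hv, funext fun x => ?_⟩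
      have e2 := congrFun e' x
      simp only [gr, Multiset.map_cons, Multiset.prod_cons, Pi.mul_apply] at e2 ⊢
      rw [e2, δ.Rr_comp, ← map_zsmul]
  | zero => exact ⟨0, zero_mem _, rfl⟩
  | add f g _ _ hf hg =>
    obtain ⟨f, a, rfl⟩ := hf
    obtain ⟨g, b, rfl⟩ := hg
    exact ⟨_, add_mem a b, rfl⟩
  | smul c f _ hf =>
    obtain ⟨f, a, rfl⟩ := hf
    exact ⟨_, Submodule.smul_mem _ c a, rfl⟩

end

namespace RSys
variable {O k : Type} [CommRing O] [IsLocalRing O] [Field k] {p : Pr} (A : RSys O k p)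

/-- The reduction does not change: `Θ ∘ θ` (by `cmp_alpha`) and `red e (n ·)` are eigenvectors
of weight `n ^ 2` of the frame `n⁻¹ δ`; apply `Fr.uniq_k`. -/
theorem red_alt (δ : Fr p 1) {e : W → O} (he : e ∈ A.P 1) (eg : δ.Eg A.ψ 0 e) {θ : M8 AF}
    {N n : ℕ} (hn : ¬ (p : ℕ) ∣ n) (hθ : A.S.Cmp θ N)
    (hδ : ∀ x, iq p • θ *ᵥ δ.h x = iq p • (n : ℤ) • x) (x y : W) :
    A.S.Θ x * A.rd (e (δ.h y)) = A.S.Θ y * A.rd (e (δ.h x)) := by
  have c0 : (n : ℤ) ≠ 0 := fun e => hn (by rw [Int.natCast_eq_zero.1 e]; exact dvd_zero _)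
  have hs : ∀ x, iq p • θ *ᵥ x = iq p • (n : ℤ) • δ.h.symm x := fun x => by
    rw [← hδ, LinearEquiv.apply_symm_apply]
  have hN : ¬ (p : ℕ) ∣ (n : ℤ).natAbs ^ 2 * 1 := fun e =>
    hn (p.2.dvd_of_dvd_pow (by simpa using e))
  have h1 := TSys.cmp_alpha A.facS (A.nat_ne hN) hθ (fun x y => by
    have e := δ.sim (δ.h.symm x) (δ.h.symm y)
    rw [LinearEquiv.apply_symm_apply, LinearEquiv.apply_symm_apply, Nat.cast_one, one_smul] at e
    rw [← Ef_smul_left, hs, Ef_smul_left, ← Ef_smul_right, hs, Ef_smul_right, Ef_z_left, Ef_z_right,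
      ← e, smul_smul]
    congr 2
    simp [sq]) fun w => ⟨δ.h (((n : ℤ) : ℚ)⁻¹ • w), by rw [hδ, cm_unsmul c0]⟩
  have h2 : (fun x => A.S.Θ (δ.h.symm x)) ∈ A.S.G 1 := by
    refine TSys.descale (by simp) (c := n) (by simpa using A.nat_ne hn) ?_
    rwa [show (fun x => A.S.Θ (θ *ᵥ x)) = fun x => A.S.Θ (δ.h.symm ((n : ℤ) • x)) from
      funext fun x => by rw [← A.facS, hs, A.facS, map_zsmul]] at h1
  have h3 := (rigid_eg δ A.ψ A.per 0).map A.rd A.ψ_rd
  simp only [sub_zero, Rr_zero, A.T_rd] at h3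
  simpa only [LinearEquiv.symm_apply_apply] using δ.uniq_k A.facS (by simp) 0 h2 (A.red_mem he) h3
    (eg.map A.rd A.ψ_rd) (δ.h x) (δ.h y)

omit [IsLocalRing O] in
theorem alt_sign (ψ : AddChar AF O) {f : W → O} {z : W} (hz : (2 : ℤ) • z ∈ L0)
    (hf : ∀ t ∈ L0, ψ ((1 / 2 : ℚ) • Qf t) • Rr ψ 1 t f = f) :
    f (-z) = ψ ((1 / 2 : ℚ) • Qf ((2 : ℤ) • z)) * f z := by
  have e := congrFun (hf _ hz) (-z)
  simp only [Pi.smul_apply, smul_eq_mul, Rr_apply, Ef_neg_right, Ef_z_left, Ef_self, smul_zero,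
    neg_zero, AddChar.map_zero_eq_one, one_mul] at e
  rw [← e, show -z + (2 : ℤ) • z = z by module]

omit [IsLocalRing O] in
theorem alt_neg (δ : Fr p 1) (ψ : AddChar AF O) {e : W → O} (eg : δ.Eg ψ 0 e) :
    δ.Eg ψ 0 fun x => e ((-1 : ℤ) • x) := fun t => funext fun x => by
  have h := congrFun (eg (-t)) ((-1 : ℤ) • x)
  have hq : Qf ((-t : L0) : W) = Qf (t : W) := by
    rw [NegMemClass.coe_neg, ← neg_one_smul ℚ (t : W), Qf_q, neg_mul_neg, mul_one, one_smul]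
  simp only [Fr.op, LinearMap.smul_apply, Pi.smul_apply, smul_eq_mul, Rr_apply, Ef_zero_left, hq,
    neg_one_zsmul] at h ⊢
  rw [← h, NegMemClass.coe_neg, map_neg, Ef_neg_left, Ef_neg_right, neg_neg, neg_add]

theorem alt (δ : Fr p 1) {e : W → O} (he : e ∈ A.P 1) (eg : δ.Eg A.ψ 0 e) (e0 : ∃ x, IsUnit (e x))
    {θ : M8 AF} {N n : ℕ} (hn : ¬ (p : ℕ) ∣ n) (hθ : A.S.Cmp θ N)
    (hδ : ∀ x, iq p • θ *ᵥ δ.h x = iq p • (n : ℤ) • x) {η : I2 gg → ZMod 2} (h0 : A.T (hw η) = 1)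
    {κ : O} (hκ : κ ^ 2 = 1) (ri : Ri A.ψ (fun x => e (δ.h x)) κ) :
    ∃ c : O, c * e (δ.h (hw η)) = 1 ∧ A.Alt fun x => c * e (δ.h x) := by
  have hp1 : ¬ (p : ℕ) ∣ 1 := p.2.not_dvd_one
  have hΘ : A.S.Θ (hw η) = 1 := by rw [← A.T_rd, h0, map_one]
  have hred : ∀ y, A.rd (e (δ.h y)) = A.S.Θ y * A.rd (e (δ.h (hw η))) := fun y => by
    rw [← A.red_alt δ he eg hn hθ hδ (hw η) y, hΘ, one_mul]
  have hu : IsUnit (e (δ.h (hw η))) := by
    obtain ⟨x, hx⟩ := e0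
    have h1 := hred (δ.h.symm x)
    rw [LinearEquiv.apply_symm_apply] at h1
    exact A.unit_iff.2 (right_ne_zero_of_mul (h1 ▸ A.unit_iff.1 hx))
  obtain ⟨c, hc⟩ := hu.exists_left_inv
  have hrd : ∀ x, A.rd (c * e (δ.h x)) = A.S.Θ x := fun x => by
    rw [map_mul, hred, mul_left_comm, ← map_mul, hc, map_one, mul_one]
  have per : ∀ t ∈ L0, A.ψ ((1 / 2 : ℚ) • Qf t) • Rr A.ψ 1 t (fun x => e (δ.h x)) =
      fun x => e (δ.h x) := fun t ht => funext fun x => by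
    have h := congrFun (eg ⟨t, ht⟩) (δ.h x)
    rw [δ.Rr_comp]
    simpa only [Fr.op, LinearMap.smul_apply, Pi.smul_apply, smul_eq_mul, Ef_zero_left,
      AddChar.map_zero_eq_one, one_mul] using h
  have hs : e (δ.h (-hw η)) = e (δ.h (hw η)) := by
    have h1 := alt_sign A.ψ (hw_two η) A.per
    rw [A.ev, h0, mul_one] at h1
    have h2 := alt_sign A.ψ (hw_two η) per
    rwa [← h1, one_mul] at h2
  have ev : ∀ x, e (δ.h (-x)) = e (δ.h x) := fun x => by
    have h1 : (fun x => e ((-1 : ℤ) • x)) ∈ PP A.ψ A.T 1 := by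
      have h2 := PP_dil (-1) he
      rwa [show (-1 : ℤ).natAbs ^ 2 * 1 = 1 from rfl] at h2
    have h := A.uniq 1 hp1 δ 0 e he (fun x => e ((-1 : ℤ) • x)) h1 eg (alt_neg δ A.ψ eg) (δ.h x)
      (δ.h (hw η))
    simp only [neg_one_zsmul, ← map_neg, hs] at h
    exact hu.mul_left_cancel (h.symm.trans (mul_comm _ _))
  have ri' := ri.smul c
  have hκ1 : κ = 1 := by
    have h1 := ri'.map A.rd A.ψ_rd (hw η) (hw η) (hw η) (hw η)
    simp only [hrd, Rr_eq_Rt] at h1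
    rw [← A.S.ri, hΘ] at h1
    have h2 : A.rd κ = 1 := by
      refine mul_right_cancel₀ (pow_ne_zero gg A.S.two) ?_
      linear_combination -h1
    have h3 : IsUnit (κ + 1) := by
      rw [A.unit_iff, map_add, h2, map_one, one_add_one_eq_two]
      exact A.S.two
    exact h3.mul_left_cancel (by linear_combination hκ)
  refine ⟨c, hc, ⟨A.S, A.rd, A.surj, A.ker, A.ψ, fun x => c * e (δ.h x), A.ψ_rd, hrd, A.ψ_one,
    fun x => ?_, fun t ht => funext fun x => ?_, fun x => ?_, fun a b c' d => ?_,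
    fun m hm φ y u hu v hv eu ev' x x' => ?_⟩, rfl, rfl, rfl, rfl⟩
  · rw [map_smul, A.fac_P he]
  · have h := congrFun (per t ht) x
    simp only [Pi.smul_apply, smul_eq_mul, Rr_apply] at h ⊢
    linear_combination c * h
  · rw [ev]
  · have h := ri' a b c' d
    rwa [hκ1, one_mul] at h
  · have he' : c • e ∈ PP A.ψ A.T 1 := Submodule.smul_mem _ c he
    obtain ⟨u', hu', rfl⟩ := δ.PP_comp he' hu
    obtain ⟨v', hv', rfl⟩ := δ.PP_comp he' hv
    exact A.uniq m hm (δ.comp φ) y u' hu' v' hv' ((δ.eg_comp φ y u').1 eu)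
      ((δ.eg_comp φ y v').1 ev') _ _

end RSys

end Pool.Agent.MT
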