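import Pool.Agent.Lib.MP_d61fbb_ag.MW.QI1
import Pool.Agent.Lib.MP_d61fbb_ag.MW.P0
import Pool.Agent.Lib.MP_d61fbb_ag.MW.Inv
import Pool.Agent.Lib.MP_d61fbb_ag.MW.CM2r

/-! The relation of Riemann for a frame, and the dual of the Frobenius operator. -/

set_option autoImplicit false

noncomputable section

namespace Pool.Agent.MT

open Matrix Polynomial
open Pool.Agent.Lib.MP_696deb_nt.B2 (Qbar jC)

variable [dm : Dim]

theorem FSys.exists_dual {k : Type} [Field k] {p : Pr} (S : FSys k p) : ∃ (b : M8 AF) (N : ℕ),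
    S.Cmp b N ∧ ∀ l ≠ p, (mA S.π * b).map (cp l) =
      ((((p : ℕ) : ℤ) ^ gg : ℤ) : M8 AF).map (cp l) := by
  obtain ⟨P, hP, -⟩ := bv3_gl p gg card_sum S.π (fun _ hl => S.det_sq hl)
    (fun m => ⟨_, S.ineq_a p_genp m⟩) ⟨_, S.ineq_b p_genp⟩
  obtain ⟨l, hl⟩ := exists_ne p
  have h1 : P.coeff 0 ^ 2 = (((p : ℕ) : ℤ) ^ gg) ^ 2 := by
    have := S.det_sq hl
    rw [det_eq_sign_charpoly_coeff, hP l hl, coeff_map, mul_pow, ← pow_mul, mul_comm _ 2, pow_mul,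
      neg_one_sq, one_pow, one_mul, pow_mul', eq_intCast] at this
    exact_mod_cast this
  obtain ⟨ε, hε⟩ : ∃ ε : ℤ, ε * -P.coeff 0 = ((p : ℕ) : ℤ) ^ gg := by
    rcases sq_eq_sq_iff_eq_or_eq_neg.1 h1 with h | h
    exacts [⟨-1, by rw [h]; ring⟩, ⟨1, by rw [h]; ring⟩]
  obtain ⟨N, -, hN⟩ := S.cmp_ex p_genp (C ε * P.divX)
  refine ⟨_, N, hN, fun l hl => ?_⟩
  have h2 : aeval (S.π l).val P = 0 := by
    rw [← aeval_map_algebraMap ℤ_[l], algebraMap_int_eq, ← hP l hl, aeval_self_charpoly]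
  have h3 : X * (C ε * P.divX) = C ε * P + C (((p : ℕ) : ℤ) ^ gg) := by
    rw [← hε, C_mul, C_neg]
    linear_combination C ε * X_mul_divX_add P
  have h4 := S.cp_aeval l (X * (C ε * P.divX))
  have h5 := S.cp_aeval l (C (((p : ℕ) : ℤ) ^ gg))
  rw [map_mul, aeval_X, h3, map_add, map_mul (aeval (S.π l).val), h2, mul_zero, zero_add, ← h5,
    aeval_C] at h4
  exact h4

theorem TSys.sgn_mod {k : Type} [Field k] {q : ℕ} (S : TSys k q) {a : M8 AF}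
    (two : ∀ i j, ‖cp p2 ((a - 1) i j) / 2‖ ≤ 1) {s : W} (hs : ∀ i, s i ∈ Z2) :
    sgn S.e (a *ᵥ s) = sgn S.e s := by
  have hw : ∀ i, (((1 / 2 : ℚ) • (a - 1)) *ᵥ s) i ∈ Z2 := fun i =>
    Z2.sum_mem fun j _ => Z2.mul_mem (mem_Z2.2 ((two i j).trans_eq' (by
      simp only [Matrix.smul_apply, map_smul, Rat.smul_def]; congr 1; push_cast; ring))) (hs j)
  have e : a *ᵥ s = s + (((1 / 2 : ℚ) • (a - 1)) *ᵥ s + ((1 / 2 : ℚ) • (a - 1)) *ᵥ s) := by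
    rw [← add_mulVec, ← add_smul, add_halves, one_smul, sub_mulVec, one_mulVec, add_sub_cancel]
  generalize ((1 / 2 : ℚ) • (a - 1)) *ᵥ s = w at hw e
  rw [e, S.gx_sgn_add hs (t := w + w) fun i => Z2.add_mem (hw i) (hw i), S.gx_sgn_two hw, mul_one,
    Ef_add_right, ← two_mul, half_two, S.gx_one (gx_sg_mul (gx_Ef_mem Z2 hs hw)), mul_one]

variable {τ : Matrix (Fin gg) (Fin gg) ℂ} {K : IntermediateField ℚ ℂ} {M : TRep τ K} {A : AR M}

theorem tv_mod (hτ : Sieg τ) {a : M8 AF} (two : ∀ i j, ‖cp p2 ((a - 1) i j) / 2‖ ≤ 1)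
    {F : W → Qbar} (hF : A.S.IsVec 1 a F) : TV τ a fun x => jC (F x) := by
  refine ⟨by simpa using (p_gh τ hτ K M A 1 one_pos F).1 hF.mem, fun t ht => funext fun x => ?_⟩
  have := congrArg jC (congrFun (hF.inv t ht fun i l hl => absurd hl l.2.ne_zero) x)
  rw [A.S.sgn_mod two fun i => mem_Z2.2 (mem_L0.1 ht i p2), Rt, Pi.smul_apply, smul_eq_mul, map_mul,
    map_mul, sgn, A.cxe, A.cxe, Nat.cast_one, psi_sgn (gz_Qf ht)] at this
  exact this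

theorem ri_mod (hτ : Sieg τ) {a : M8 AF} (gs : GS 1 a)
    (two : ∀ i j, ‖cp p2 ((a - 1) i j) / 2‖ ≤ 1) {F : W → Qbar} (hF : A.S.IsVec 1 a F) :
    ∃ κ : ℤ, κ ^ 2 = 1 ∧ Ri A.S.e (fun x => F (a *ᵥ x)) κ := by
  by_cases h0 : F = 0
  · exact ⟨1, one_pow _, fun _ _ _ _ => by simp [h0, Rr_apply]⟩
  have tv := tv_mod hτ two hF
  obtain ⟨k, hk, hr⟩ := Frame.IsTh.riemann (φ := frm gs) (siegI_iff.2 hτ) one_pos ⟨tv.mem,
    fun e => h0 (funext fun x => jC.injective ((congrFun e x).trans (map_zero _).symm)),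
    (frm_eig gs).2 tv.eig⟩
  obtain ⟨κ, hκ, rfl⟩ : ∃ κ : ℤ, κ ^ 2 = 1 ∧ (κ : ℂ) = k := by
    rcases sq_eq_one_iff.1 hk with rfl | rfl
    exacts [⟨1, by simp⟩, ⟨-1, by simp⟩]
  refine ⟨κ, hκ, fun x y z u => jC.injective ?_⟩
  have e5 : ∀ η, (frm gs).hp η = a *ᵥ hw η := fun _ => rfl
  have e1 : ∀ η, (frm gs).chi (2 • (frm gs).hp η) = psi ((2 : ℚ) • Qf (hw η)) := fun η => by
    rw [Frame.hp, ← map_nsmul, Frame.chi, (frm gs).γ.symm_apply_apply, two_nsmul]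
    exact congrArg psi ((congrArg ((1 / 2 : ℚ) • ·) (one_mul _)).trans
      ((gz_Qf_two _).trans (two_smul _ _).symm))
  have h6 := hr (a *ᵥ x) (a *ᵥ y) (a *ᵥ z) (a *ᵥ u)
  simp only [e1] at h6
  simp only [e5, ← mulVec_add, ← mulVec_sub, ← mulVec_smul, Fintype.card_fin] at h6
  simp only [map_mul, map_sum, map_pow, map_ofNat, map_intCast, A.cxe, Rr_apply, h6, Nat.cast_one]
  refine congrArg _ (Finset.sum_congr rfl fun η _ => ?_)
  have h1 : eps 1 (a *ᵥ 2 • hw η) (a *ᵥ x) = eps 1 (hw η) ((1 / 2 : ℚ) • (x + y + z + u)) *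
      eps 1 (hw η) ((1 / 2 : ℚ) • (x + y - z - u)) * eps 1 (hw η) ((1 / 2 : ℚ) • (x - y + z - u)) *
      eps 1 (hw η) ((1 / 2 : ℚ) • (x - y - z + u)) := by
    rw [← eps_add_right, ← eps_add_right, ← eps_add_right, eps, eps, gs, one_mul, two_nsmul,
      Ef_add_left, ← Ef_add_right]
    congr 3; module
  rw [h1]
  simp only [eps]
  ring

end Pool.Agent.MT
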