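import Pool.Agent.Lib.MP_d61fbb_ag.MW.QI2
import Pool.Agent.Lib.MP_d61fbb_ag.MW.QW
import Pool.Agent.Lib.MP_d61fbb_ag.MW.QI4b
import Pool.Agent.Lib.MP_d61fbb_ag.MW.VC1
import Pool.Agent.Lib.MP_d61fbb_ag.MW.CM2r
import Pool.Agent.Lib.MP_d61fbb_ag.MW.GN2
import Pool.Agent.Lib.MP_d61fbb_ag.MW.ZT3

/-! Frames given by matrices. -/

set_option autoImplicit false

noncomputable section

namespace Pool.Agent.MT

open Matrix IsLocalRing
open Pool.Agent.Lib.MP_696deb_nt.B2 (Qbar Gam Plc Dec Ine IsFrob Op jC)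

variable [dm : Dim]

/-- symplectic adelic matrices that are one at `p` and one modulo two -/
structure Sy (p : Pr) (α : M8 AF) : Prop where
  one : α.map (cp p) = 1
  gs : GS 1 α
  two : ∀ i j, ‖cp p2 ((α - 1) i j) / 2‖ ≤ 1

variable {p : Pr} {a b h : M8 AF}

theorem q4_int {l : Pr} {γ : M8 ℚ_[l]} (h : ∀ i j, ‖γ i j‖ ≤ 1) {x : Vl l} (hx : ∀ i, ‖x i‖ ≤ 1)
    (i : I2 gg) : ‖(γ *ᵥ x) i‖ ≤ 1 :=
  show ∑ j, γ i j * x j ∈ PadicInt.subring l from
    (PadicInt.subring l).sum_mem fun j _ => (PadicInt.subring l).mul_mem (h i j) (hx j)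

theorem q4_inv (sp : GS 1 a) : (dl a)ᵀ * a = 1 := by
  have := congrArg transpose sp.transpose_mul_dl
  rwa [transpose_mul, transpose_transpose, one_smul, transpose_one] at this

theorem q4_cpv (e : a.map (cp p) = 1) (x : W) : cpv p (a *ᵥ x) = cpv p x := by
  rw [gn_cpv, e, one_mulVec]

theorem One2.two (h : One2 a) (i j : I2 gg) : ‖cp p2 ((a - 1) i j) / 2‖ ≤ 1 := by
  have := (Padic.norm_le_pow_iff_norm_lt_pow_add_one (cp p2 ((a - 1) i j)) (-1)).2
    (by simpa using h i j)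
  rw [norm_div, show (2 : ℚ_[p2]) = ((p2 : ℕ) : ℚ_[p2]) from by simp, Padic.norm_p,
    div_le_one (by simp)]
  simpa using this

theorem exists_frM (sp : GS 1 a) (atp : a.map (cp p) = 1) : ∃ φ : Fr p 1, ∀ x, φ.h x = a *ᵥ x := by
  exact ⟨⟨toLin'OfInv (q4_inv sp) (mul_eq_one_comm.1 (q4_inv sp)), fun x y => by
    rw [Nat.cast_one, one_smul, ← one_mul (Ef x y)]; exact sp x y, fun t ht i l e => by
    obtain rfl : l = p := Subtype.ext e
    exact (congrArg (‖· i‖) (q4_cpv atp t)).trans_le (mem_L0.1 ht i l)⟩, fun _ => rfl⟩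

theorem Sy.mul (ha : Sy p a) (hb : Sy p b) : Sy p (a * b) := by
  refine ⟨by rw [Matrix.map_mul, ha.one, hb.one, mul_one], one_mul (1 : AF) ▸ ha.gs.mul hb.gs,
    fun i j => ?_⟩
  have : cp p2 ((a * b - 1) i j) / 2 = ∑ k, 2 * (cp p2 ((a - 1) i k) / 2 * (cp p2 ((b - 1) k j) / 2))
      + cp p2 ((a - 1) i j) / 2 + cp p2 ((b - 1) i j) / 2 := by
    rw [show a * b - 1 = (a - 1) * (b - 1) + (a - 1) + (b - 1) by
      simp only [sub_mul, mul_sub, mul_one, one_mul]; abel, Matrix.add_apply,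
      Matrix.add_apply, map_add, map_add, mul_apply, map_sum, add_div, add_div, Finset.sum_div]
    congr 2
    exact Finset.sum_congr rfl fun k _ => by rw [map_mul]; ring
  rw [this]
  exact add_mem (add_mem ((PadicInt.subring p2).sum_mem fun k _ => mul_mem (ofNat_mem _ 2)
    (mul_mem (ha.two i k) (hb.two k j))) (ha.two i j)) (hb.two i j)

theorem Sy.pt (ha : Sy p a) : Pt 1 a := by
  have h1 : ∀ i j, cp p2 (a i j) ∈ PadicInt.subring p2 := fun i j => by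
    have : cp p2 (a i j) = 2 * (cp p2 ((a - 1) i j) / 2) + if i = j then 1 else 0 := by
      rw [Matrix.sub_apply, map_sub, one_apply]
      split_ifs <;> simp <;> ring
    rw [this]
    exact add_mem (mul_mem (ofNat_mem _ 2) (ha.two i j)) (by split_ifs <;> simp)
  refine ⟨odd_one, (isUnit_iff_exists_inv'.2 ⟨_, q4_inv ha.gs⟩), ⟨1, fun x y => by
    rw [ha.gs, Units.val_one, map_one, Nat.cast_one, one_mul]⟩,
    fun x => ⟨fun hx i => ?_, q4_int h1⟩⟩
  have := q4_int (γ := (dl a)ᵀ.map (cp p2)) (fun i j => by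
    rcases i with i | i <;> rcases j with j | j <;>
      simpa [dl, toBlocks₁₁, toBlocks₁₂, toBlocks₂₁, toBlocks₂₂] using h1 _ _) hx i
  rwa [mulVec_mulVec, ← Matrix.map_mul, q4_inv ha.gs, Matrix.map_one _ (map_zero _) (map_one _),
    one_mulVec] at this

theorem Sy.exists_fr (ha : Sy p a) : ∃ φ : Fr p 1, ∀ x, φ.h x = a *ᵥ x := exists_frM ha.gs ha.one

theorem iq_congr (h : ∀ l ≠ p, a.map (cp l) = b.map (cp l)) (x : W) :
    iq p • a *ᵥ x = iq p • b *ᵥ x := by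
  refine gn_vec_ext fun l => funext fun i => ?_
  simp only [cpv, Pi.smul_apply, smul_eq_mul, map_mul, cp_iq]
  split_ifs with e
  · rw [zero_mul, zero_mul]
  · have : cpv l (a *ᵥ x) = cpv l (b *ᵥ x) := by
      rw [gn_cpv, gn_cpv, h l fun e' => e (congrArg _ e')]
    exact congrArg _ (congrFun this i)

/-- a better basis of the lattice: `h k` is one at two and at `p`, and `h` times the inverse of
`diag (1, u)` elsewhere -/
theorem Pt.exists_sy (P : Pt 1 h) (hs : StdAt p h) :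
    ∃ k : M8 AF, (∀ t ∈ L0, k *ᵥ t ∈ L0) ∧ Sy p (h * k) := by
  obtain ⟨u, hu⟩ := P.sim
  obtain ⟨H, rfl⟩ := P.unit
  obtain ⟨D, hD⟩ : ∃ D : M8 AF, D = fromBlocks 1 0 0 (zA (u⁻¹ : (∀ l : Pr, ℤ_[l])ˣ) • 1) := ⟨_, rfl⟩
  have d1 : ∀ x : W, D *ᵥ x = Sum.elim (x ∘ Sum.inl)
      (zA (u⁻¹ : (∀ l : Pr, ℤ_[l])ˣ) • x ∘ Sum.inr) := fun x => by
    simp [hD, fromBlocks_mulVec, smul_mulVec]
  have d2 : GS 1 (H.val * D) := fun x y => by
    have := hu (D *ᵥ x) (D *ᵥ y)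
    rw [Nat.cast_one, one_mul] at this
    rw [← mulVec_mulVec, ← mulVec_mulVec, this, d1, d1]
    simp only [Ef, Sum.elim_comp_inl, Sum.elim_comp_inr, dotProduct_smul, smul_dotProduct,
      smul_eq_mul, ← mul_sub, ← mul_assoc, ← map_mul, u.mul_inv, map_one]
  have c2 : (offM p (offM p2 (H.val * D))).map (cp p2) = 1 := by
    by_cases e : p2 = p
    · subst e; exact cp_offM_self _
    · rw [cp_offM_ne e, cp_offM_self]
  have e0 : H.val * ((H⁻¹).val * offM p (offM p2 (H.val * D))) = offM p (offM p2 (H.val * D)) := by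
    rw [← mul_assoc, H.mul_inv, one_mul]
  refine ⟨(H⁻¹).val * offM p (offM p2 (H.val * D)), fun t ht => mem_L0.2 fun i l => ?_,
    e0.symm ▸ ⟨cp_offM_self _, gs_of_cp fun l => ?_, fun i j => ?_⟩⟩
  · have k : StdAt l H.val → (offM p (offM p2 (H.val * D))).map (cp l) = 1 →
        ‖cp l ((((H⁻¹).val * offM p (offM p2 (H.val * D))) *ᵥ t) i)‖ ≤ 1 := fun s e =>
      (s (cpv l _)).1 (fun j => by
        rw [← gn_cpv, mulVec_mulVec, e0, q4_cpv e]; exact mem_L0.1 ht j l) i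
    by_cases e : l = p
    · subst e; exact k hs (cp_offM_self _)
    by_cases e' : l = p2
    · subst e'; exact k P.two c2
    have : cpv l (((H⁻¹).val * offM p (offM p2 (H.val * D))) *ᵥ t) = cpv l (D *ᵥ t) := by
      rw [gn_cpv, gn_cpv, Matrix.map_mul, cp_offM_ne e, cp_offM_ne e', ← Matrix.map_mul,
        ← mul_assoc, H.inv_mul, one_mul]
    refine (congrArg (‖· i‖) this).trans_le ?_
    rw [d1]
    rcases i with i | i
    · exact mem_L0.1 ht _ l
    · exact mul_mem (gx_zA_mem _) (gx_L0.1 ht _) l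
  · rw [map_one]
    by_cases e : l = p
    · subst e; rw [cp_offM_self]; exact gs_one
    by_cases e' : l = p2
    · subst e'; rw [c2]; exact gs_one
    rw [cp_offM_ne e, cp_offM_ne e']
    exact map_one (cp l).toRingHom ▸ d2.map (cp l).toRingHom
  · have := congrFun (congrFun c2 i) j
    rw [map_apply] at this
    rw [Matrix.sub_apply, map_sub, this, one_apply, one_apply]
    split_ifs <;> simp

theorem Sy.sgn_eq (ha : Sy p a) {k : Type} [Field k] {q : ℕ} (S : TSys k q) {t : W} (ht : t ∈ L0) :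
    S.e ((1 / 2 : ℚ) • Qf t) * sgn S.e (a *ᵥ t) = 1 := by
  rw [sgn, ← AddChar.map_add_eq_mul]
  refine S.e_one fun l _ => ?_
  have hx : ∀ (l : Pr) i, cpv l t i ∈ PadicInt.subring l := fun l i => mem_L0.1 ht i l
  simp only [map_add, map_mul, map_smul, gn_cp_Qf, Rat.smul_def]
  by_cases e : l = p2
  · subst e
    obtain ⟨w, hw⟩ : ∃ w : Vl p2, w = (of fun i j => cp p2 ((a - 1) i j) / 2) *ᵥ cpv p2 t := ⟨_, rfl⟩
    have h1 : ∀ i, w i ∈ PadicInt.subring p2 := hw ▸ q4_int ha.two (hx p2)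
    have h2 : cpv p2 (a *ᵥ t) = cpv p2 t + (2 : ℚ_[p2]) • w := by
      rw [hw, ← smul_mulVec, show (2 : ℚ_[p2]) • (of fun i j => cp p2 ((a - 1) i j) / 2) =
        (a - 1).map (cp p2) from ext fun i j => mul_div_cancel₀ _ two_ne_zero, ← gn_cpv, sub_mulVec,
        one_mulVec]
      funext i
      simp [cpv]
    have h3 : ((1 / 2 : ℚ) : ℚ_[p2]) * Qf (cpv p2 t) + 1 * (((1 / 2 : ℚ) : ℚ_[p2]) *
        Qf (cpv p2 t + (2 : ℚ_[p2]) • w)) = Qf (cpv p2 t) + Ef (cpv p2 t) w +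
          (Qf (cpv p2 t + w) - Qf (cpv p2 t) + Qf w - Ef (cpv p2 t) w) := by
      simp only [Qf, Pi.add_comp, Pi.smul_comp, add_dotProduct, dotProduct_add, smul_dotProduct,
        dotProduct_smul, smul_eq_mul]
      push_cast
      ring
    rw [gn_cp_sg, h2, h3, add_add_sub_cancel]
    exact add_mem (gx_Qf_mem _ (hx p2)) (add_mem (sub_mem (gx_Qf_mem _ fun i =>
      add_mem (hx p2 i) (h1 i)) (gx_Qf_mem _ (hx p2))) (gx_Qf_mem _ h1))
  · rw [gn_cp_sg_ne e, zero_mul, add_zero, norm_mul, one_div, Rat.cast_inv, Rat.cast_ofNat,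
      gx_half_norm e, one_mul]
    exact gx_Qf_mem _ (hx l)

theorem Sy.isVec_iff (hp : (p : ℕ) ≠ 2) (ha : Sy p a) {S : TSys Qbar 0} {F : W → Qbar} :
    S.IsVec 1 a F ↔ F ∈ S.GI p 1 ∧ S.Ev p 1 (a *ᵥ ·) 0 F := by
  have hp' : p2 ≠ p := fun e => hp (e ▸ rfl)
  have e1 : ∀ t : Vl p, a *ᵥ sgv p t = sgv p t := fun t => by
    rw [gn_mulVec_sgv, ha.one, one_mulVec]
  refine ⟨fun h => ⟨⟨h.mem, fun t ht => ?_⟩, fun t ht _ => ?_⟩, fun h => ⟨h.1.1, fun t ht _ => ?_⟩⟩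
  · have := h.inv _ (sgv_L0 ht) (gn_Wp0 _)
    rwa [e1, gn_sgn_congr S.e (t := 0) (gn_cpv_sgv_ne hp' t), gn_sgn_zero, one_smul] at this
  · rw [h.inv t ht (gn_Wp0 _), smul_smul, Ef_zero_left, zero_add, ha.sgn_eq S ht, one_smul]
  · have h1 := h.2 _ (iq_L0 p ht) (iq_mem _ _)
    have h2 := Rt_Rt (e := S.e) 1 (a *ᵥ iq p • t) (sgv p (cpv p t)) F
    rw [show Rt S.e 1 (sgv p (cpv p t)) F = F from h.1.2 _ fun i => mem_L0.1 ht i p,
      Ef_sgv (Wp_mulVec a (iq_mem _ _)), smul_zero, AddChar.map_zero_eq_one, one_smul, ← e1,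
      ← mulVec_add, ← split_p] at h2
    have h3 : sgn S.e (a *ᵥ t) = sgn S.e (a *ᵥ iq p • t) := gn_sgn_congr _ (by
      rw [gn_cpv, gn_cpv]
      congr 1
      funext i
      simp only [cpv, Pi.smul_apply, smul_eq_mul, map_mul]
      rw [cp_iq, if_neg fun e => hp' (Subtype.ext e), one_mul])
    beta_reduce at h1
    rw [Ef_zero_left, zero_add, h2] at h1
    conv_rhs => rw [← h1]
    rw [smul_smul, h3, mul_comm, ha.sgn_eq S (iq_L0 p ht), one_smul]

/-- `bv3_gl` (no separability is needed, see `weil_of`), `det_sq`, Cayley and Hamilton, `cmp_ex` -/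
theorem FSys.exists_q {k : Type} [Field k] (S : FSys k p) : ∃ (b : M8 AF) (N : ℕ), S.Cmp b N ∧
    ∀ x : W, iq p • mA S.π *ᵥ b *ᵥ x = iq p • (((p : ℕ) : ℤ) ^ gg) • x := by
  obtain ⟨b, N, h, e⟩ := S.exists_dual
  refine ⟨b, N, h, fun x => ?_⟩
  rw [mulVec_mulVec, iq_congr e, intCast_mulVec]
  exact congrArg _ (Int.cast_smul_eq_zsmul AF _ x)

variable {τ : Matrix (Fin gg) (Fin gg) ℂ} {K : IntermediateField ℚ ℂ} {M : TRep τ K} {A : AR M}

theorem Aut.ev {O : M8 AF} (hO : Aut A p O) {F : W → Qbar} (hF : F ∈ A.S.GI p 1) {H H' : W → W}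
    (e : ∀ t ∈ Wp p, H' t = O *ᵥ H t) (ev : A.S.Ev p 1 H' 0 F) :
    (fun x => F (O *ᵥ x)) ∈ A.S.GI p 1 ∧ A.S.Ev p 1 H 0 fun x => F (O *ᵥ x) := by
  have k : ∀ t, Rt A.S.e 1 t (fun x => F (O *ᵥ x)) = fun x => Rt A.S.e 1 (O *ᵥ t) F (O *ᵥ x) :=
    fun t => funext fun x => by simp only [Rt, hO.sp t x, one_mul, mulVec_add]
  refine ⟨⟨hO.mem F hF.1, fun t ht => (k _).trans (funext fun x => ?_)⟩, fun t ht ht' => ?_⟩
  · rw [gn_mulVec_sgv]
    exact congrFun (hF.2 _ ((hO.std t).2 ht)) _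
  · rw [k, ← e t ht']
    exact funext fun x => congrFun (ev t ht ht') _

/-- `Frame.IsTh.riemann` for the frame `a` with `u = 1`, as `Theta_riemann` and the field `ri`
in `ASys` -/
theorem Sy.ri (hτ : Sieg τ) (ha : Sy p a) {F : W → Qbar} (hF : A.S.IsVec 1 a F) :
    ∃ κ : ℤ, κ ^ 2 = 1 ∧ Ri A.S.e (fun x => F (a *ᵥ x)) κ := ri_mod hτ ha.gs ha.two hF

end Pool.Agent.MT
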