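import Pool.Agent.Lib.MP_d61fbb_ag.MW.WRig
import Pool.Agent.Lib.MP_d61fbb_ag.MW.BAl4
import Pool.Agent.Lib.MP_d61fbb_ag.MW.Q0
import Pool.Agent.Lib.MP_d61fbb_ag.MW.T3

/-! The Heisenberg system of a theta system that ignores the part at the characteristic. -/

set_option autoImplicit false

noncomputable section

namespace Pool.Agent.MT

open Matrix

variable [dm : Dim]

/-- twice the standard lattice away from `q` -/
def rigL (q : ℕ) : AddSubgroup W := (L0 ⊓ (Wp q).toAddSubgroup).map (zsmulAddGroupHom 2)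

lemma mem_rigL {q : ℕ} {l : W} : l ∈ rigL q ↔ ∃ t ∈ L0, t ∈ Wp q ∧ (2 : ℤ) • t = l :=
  ⟨fun ⟨t, h, e⟩ => ⟨t, h.1, h.2, e⟩, fun ⟨t, a, b, e⟩ => ⟨t, ⟨a, b⟩, e⟩⟩

namespace TSys
variable {k : Type} [Field k] {q : ℕ} (S : TSys k q)

lemma rig_Iv {r : ℕ} {f : W → k} : f ∈ InvU balF S.e (rigL q) r ↔
    ∀ t ∈ L0, t ∈ Wp q → Rt S.e r ((2 : ℤ) • t) f = f :=
  ⟨fun h t a b => (Uo_Rt _ _ _ _).symm.trans (h _ (mem_rigL.2 ⟨t, a, b, rfl⟩)), fun h l hl => by
    obtain ⟨t, a, b, rfl⟩ := mem_rigL.1 hl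
    exact (Uo_Rt _ _ _ _).trans (h t a b)⟩

lemma rig_Sp {r : ℕ} {f : W → k} (hf : f ∈ S.G r)
    (h : ∀ t ∈ L0, t ∈ Wp q → Rt S.e r ((2 : ℤ) • t) f = f) : f ∈ Sp S.e S.Θ r := by
  refine bal_eig _ (fun t : {t : W // t ∈ L0 ∧ t ∈ Wp q} => RtL S.e r ((2 : ℤ) • (t : W)))
    (fun t v hv => S.Sp_per t.2.1 hv) ?_ ?_ hf fun t => h t t.2.1 t.2.2
  · rintro _ ⟨L, a, -, rfl⟩ t
    exact ⟨_, (Rt_gen a _).trans (by rw [S.gen_per t.2.1, smul_smul])⟩
  · rintro _ ⟨L, a, b, rfl⟩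
    by_cases e : ∀ t ∈ L0, t ∈ Wp q → S.e (Ef t ((2 : ℤ) • cl L)) = 1
    · refine .inl (Submodule.subset_span ⟨L, a, mem_L0.2 fun i l => ?_, rfl⟩)
      by_cases hl : (l : ℕ) = q
      · rw [two_zsmul, Pi.add_apply, map_add]
        exact padic_add_le (b i l hl) (b i l hl)
      · exact mem_of_Ef (fun t ht ht' => (S.ker _).1 (e t ht ht')) i l hl
    · push Not at e
      obtain ⟨t, ht, ht', e⟩ := e
      refine .inr ⟨⟨-t, neg_mem ht, neg_mem ht'⟩, _, e, (Rt_gen a _).trans ?_⟩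
      rw [S.gen_per (neg_mem ht), smul_smul, ← AddChar.map_add_eq_mul]
      congr 2
      simp only [Ef_z_right, Ef_neg_right]
      rw [Ef_swap t]
      push_cast
      module

lemma rig_Y {r : ℕ} (r0 : (r : ℚ) ≠ 0) {t : W} (ht : t ∈ L0) :
    ∀ l ∈ rigL q, S.e ((2 * r) • balF ((2 * r : ℚ)⁻¹ • t) l) = 1 := fun l hl => by
  obtain ⟨s, a, -, rfl⟩ := mem_rigL.1 hl
  refine Eq.trans (congrArg S.e ?_) (S.e_one (Zq_zero (Ef_memR (mem_L0q.1 ht) (mem_L0q.1 a))))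
  rw [balF_nsmul, Ef_z_right, Ef_q_left, smul_smul, smul_smul]
  refine (congrArg (· • _) ?_).trans (one_smul ℚ _)
  push_cast
  field_simp

lemma rig_nd {m : ℕ} (hm : (m : k) ≠ 0) : ∃ s : Finset W, ((4 * m) ^ gg) ^ 2 ≤ s.card ∧
    (∀ y ∈ s, ∀ l ∈ rigL q, S.e ((2 * m) • balF y l) = 1) ∧ ∀ y ∈ s, ∀ y' ∈ s,
      (∀ z, (∀ l ∈ rigL q, S.e ((2 * m) • balF z l) = 1) →
        S.e ((2 * m) • balF y z) = S.e ((2 * m) • balF y' z)) → y = y' := by
  classical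
  have m0 : (m : ℚ) ≠ 0 := by rintro h; rw [Nat.cast_eq_zero.1 h] at hm; simp at hm
  let z : (I2 gg → Fin (4 * m)) → W := fun a => iq q • fun i => ((a i : ℕ) : AF)
  have hz : ∀ a, z a ∈ L0 := fun a => iq_L0 q (mem_L0q.2 fun i => natCast_mem _ _)
  have sep : ∀ a b, (∀ w, (∀ l ∈ rigL q, S.e ((2 * m) • balF w l) = 1) →
      S.e ((2 * m) • balF ((2 * m : ℚ)⁻¹ • z a) w) = S.e ((2 * m) • balF ((2 * m : ℚ)⁻¹ • z b) w)) →
      a = b := fun a b h => by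
    funext i
    have h1 := S.perp_L0 (x := (4 * m : ℚ)⁻¹ • (z b - z a)) (fun t a' b' => ?_) i
    · obtain ⟨n, hn⟩ := int_of_padic_norm ((4 * m : ℚ)⁻¹ * ((b i : ℕ) - (a i : ℕ))) fun l => by
        by_cases e : (l : ℕ) = q
        · have h4 := S.norm_cast (m := 4 * m) (by
            rw [Nat.cast_mul, show ((4 : ℕ) : k) = 2 * 2 by norm_num]
            exact mul_ne_zero (mul_ne_zero S.two S.two) hm) l e
          push_cast at h4 ⊢
          rw [norm_mul, norm_inv, h4, inv_one, one_mul]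
          exact_mod_cast Padic.norm_int_le_one (p := l) (((b i : ℕ) : ℤ) - (a i : ℕ))
        · have h5 := h1 l e
          simp only [z, Pi.smul_apply, Pi.sub_apply, map_smul, smul_eq_mul, map_sub, map_mul,
            cp_iq, e, if_false, one_mul, map_natCast, Rat.smul_def] at h5
          push_cast at h5 ⊢
          exact h5
      rw [inv_mul_eq_iff_eq_mul₀ (mul_ne_zero four_ne_zero m0)] at hn
      have h6 : ((b i : ℕ) : ℤ) - (a i : ℕ) = (4 * m : ℕ) * n := by exact_mod_cast hn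
      have h7 := Int.eq_zero_of_abs_lt_dvd ⟨n, h6⟩ (by
        have := (a i).2; have := (b i).2; rw [abs_lt]; omega)
      exact Fin.ext (by omega)
    · rw [← S.e_sub (h _ (S.rig_Y m0 a'))]
      congr 1
      rw [Ef_q_right, Ef_sub_right, Ef_swap t, Ef_swap t, balF_nsmul, balF_nsmul]
      simp only [Ef_q_left, Ef_q_right]
      push_cast
      match_scalars <;> field_simp <;> ring
  refine ⟨Finset.univ.image fun a => (2 * m : ℚ)⁻¹ • z a, ?_, ?_, ?_⟩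
  · rw [Finset.card_image_of_injective _ fun a a' e => sep a a' fun w _ => by
      rw [show (2 * m : ℚ)⁻¹ • z a = (2 * m : ℚ)⁻¹ • z a' from e]]
    rw [Finset.card_univ, Fintype.card_fun, Fintype.card_fin, Fintype.card_sum, Fintype.card_fin,
      ← mul_two, pow_mul]
  · simp only [Finset.forall_mem_image]
    exact fun a _ => S.rig_Y m0 (hz a)
  · simp only [Finset.forall_mem_image]
    exact fun a _ a' _ h => by rw [sep a a' h]

variable {S}

/-- the Heisenberg system -/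
def hsys (hS : Fac q S.Θ) : HSys k W AF where
  E := balF
  ψ := S.e
  L := rigL q
  H := S.G
  c := 4
  g := gg
  alt x := by simp [balF]
  c_pos := by norm_num
  two := S.two
  H_one := Submodule.subset_span ⟨0, rfl, by simp [cl], by funext x; simp [gen]⟩
  H_mul := Gs_mul
  H_U y hf := by rw [Uo_Rt]; exact hS.G_Rt y hf
  H_neg hf := by simpa using hS.G_dil (-1) hf
  H_dil hf := Gs_nsmul 2 hf
  dim r hr := by
    refine (Submodule.rank_mono fun f hf => ?_).trans (S.rank_Sp hr.ne')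
    exact S.rig_Sp hf.1 (S.rig_Iv.1 hf.2)
  bpf r x := by
    obtain ⟨η, h⟩ := S.exists_th x
    exact ⟨S.th η ^ r, ⟨S.Sp_le _ (S.th_pow η r), S.rig_Iv.2 fun t a _ => S.Sp_per a (S.th_pow η r)⟩,
      pow_ne_zero _ h⟩
  irr r hr X h1 h2 h3 := irr_of k q S r hr X h1 h2 fun t _ f hf => Uo_Rt S.e r t f ▸ h3 t f hf
  gen r hr := by
    rw [S.G_eq hr.ne']
    refine Submodule.span_mono ?_
    rintro _ ⟨t, -, g, hg, rfl⟩
    exact ⟨t, g, ⟨S.G_eq hr.ne' ▸ S.Sp_le _ hg, S.rig_Iv.2 fun t a _ => S.Sp_per a hg⟩,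
      (Uo_Rt _ _ _ _).symm⟩
  nd r hr := S.rig_nd hr

lemma hsys_U (hS : Fac q S.Θ) (r : ℕ) (y : W) (f : W → k) :
    (hsys hS).U r y f = Rt S.e r y f := Uo_Rt _ _ _ _

variable (S) in
include S in
lemma rig_inf : Infinite k := by
  have q2 : ((⟨2, Nat.prime_two⟩ : Pr) : ℕ) ≠ q := fun e => S.two (by
    have := S.char
    exact_mod_cast e.symm ▸ CharP.cast_eq_zero k q)
  have key : ∀ a b : ℕ, a < b → S.e (sg ⟨2, Nat.prime_two⟩ ((2 : ℚ_[2]) ^ a)⁻¹) ≠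
      S.e (sg ⟨2, Nat.prime_two⟩ ((2 : ℚ_[2]) ^ b)⁻¹) := fun a b hab e => by
    have h1 := (S.ker _).1 (S.e_sub e) _ q2
    rw [← map_sub, cp_sg] at h1
    have n2 : ‖(2 : ℚ_[2])‖ = 2⁻¹ := by exact_mod_cast Padic.norm_p (p := 2)
    have na : ∀ a : ℕ, ‖((2 : ℚ_[2]) ^ a)⁻¹‖ = 2 ^ a := fun a => by
      rw [norm_inv, norm_pow, n2, inv_pow, inv_inv]
    have lt : (2 : ℝ) ^ a < 2 ^ b := pow_lt_pow_right₀ one_lt_two hab
    have h2 : ‖((2 : ℚ_[2]) ^ a)⁻¹ - ((2 : ℚ_[2]) ^ b)⁻¹‖ = 2 ^ b := by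
      rw [sub_eq_add_neg, Padic.add_eq_max_of_ne (by rw [norm_neg, na, na]; exact lt.ne), norm_neg,
        na, na, max_eq_right lt.le]
    have h3 : (1 : ℝ) ≤ 2 ^ a := one_le_pow₀ one_le_two
    exact absurd (h2.symm.trans_le h1) (by linarith)
  refine Infinite.of_injective
    (fun a : ℕ => S.e (sg ⟨2, Nat.prime_two⟩ ((2 : ℚ_[2]) ^ a)⁻¹)) fun a b e => ?_
  rcases lt_trichotomy a b with h | h | h
  · exact absurd e (key a b h)
  · exact h
  · exact absurd e.symm (key b a h)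

omit S in
lemma rig_dil (e : AddChar AF k) (n m : ℕ) (t : W) (f : W → k) :
    Rt e (n ^ 2 * m) t (BSys.dil n f) = BSys.dil n (Rt e m (n • t) f) := by
  have := Rr_dil (ψ := e) m (n : ℤ) t f
  simp only [Int.natAbs_natCast, natCast_zsmul] at this
  exact this

end TSys

end Pool.Agent.MT
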