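import Pool.Agent.Lib.MP_d61fbb_ag.MW.QA
import Pool.Agent.Lib.MP_d61fbb_ag.MW.WRig2

/-! First order deformations of even theta functions. -/

set_option autoImplicit false

noncomputable section

namespace Pool.Agent.MT

open Matrix IsLocalRing

variable [dm : Dim]

namespace TSys
variable {k : Type} [Field k] {q : ℕ} {S : TSys k q} {N c : ℕ} {F D g : W → k}

theorem Lev_mul {d : ℕ} (h : D ∈ S.Lev N d) (e : ℕ) : D ∈ S.Lev N (d * e) := fun t a b => by
  rw [mul_smul]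
  exact h _ (nsmul_mem a e) (nsmul_mem b e)

theorem Lev_red {d : ℕ} (d0 : d ≠ 0) (h : D ∈ S.Lev N d) :
    ∃ d : ℕ, (d : k) ≠ 0 ∧ D ∈ S.Lev N d := by
  have := S.char
  induction d using Nat.strong_induction_on with
  | _ d ih =>
    by_cases e : (d : k) = 0
    · obtain ⟨d₁, rfl⟩ := (CharP.cast_eq_zero_iff k q d).1 e
      have q0 : q ≠ 0 := left_ne_zero_of_mul d0
      have hq : q.Prime := (CharP.char_is_prime_or_zero k q).resolve_right q0
      have d1 : d₁ ≠ 0 := right_ne_zero_of_mul d0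
      refine ih d₁ (by have := hq.two_le; have := Nat.pos_of_ne_zero d1; nlinarith) d1
        fun t a b => ?_
      have e1 : d₁ • t = (q * d₁) • (q : ℚ)⁻¹ • t := by
        rw [mul_comm, mul_smul, ← Nat.cast_smul_eq_nsmul ℚ q,
          smul_inv_smul₀ (Nat.cast_ne_zero.2 q0)]
      rw [e1]
      refine h _ (Wp_L0 (Wp_qsmul _ b) fun i l hl => ?_) (Wp_qsmul _ b)
      have h1 : ‖(q : ℚ_[l])‖ = 1 := Padic.norm_natCast_eq_one_iff.2
        ((Nat.coprime_primes l.2 hq).2 hl)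
      rw [Pi.smul_apply, map_smul, Algebra.smul_def, norm_mul, map_inv₀, map_natCast, norm_inv, h1,
        inv_one, one_mul]
      exact mem_L0.1 a i l
    · exact ⟨d, e, h⟩

/-- steps (ii) to (v) -/
theorem kill (hS : Fac q S.Θ) (hN : (N : k) ≠ 0) (hF : F ∈ S.G N) (F0 : F 0 ≠ 0)
    (Fe : ∀ x, F (-x) = F x) (De : ∀ x, D (-x) = D x) (D0 : D 0 = 0)
    (lev : ∃ d ≠ 0, D ∈ S.Lev N d) (g0 : g ≠ 0) (h1 : ∀ y, Rt S.e N y F * g ∈ S.G (N + c))
    (h2 : ∀ y z, (Rt S.e N y D * Rt S.e N z F - Rt S.e N z D * Rt S.e N y F) * g ∈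
      S.G (N + N + c))
    (h3 : (fun x => D ((2 : ℤ) • x)) ∈ S.G (4 * N) ⊔
      Submodule.span k {f | ∃ y, ∃ h ∈ S.G (3 * N), f = Rt S.e N y D * h}) : D ∈ S.G N := by
  have := S.rig_inf
  obtain ⟨d, d0, hd⟩ := lev
  obtain ⟨d₁, a1, b1⟩ := Lev_red d0 hd
  obtain ⟨d', d0', hd'⟩ := S.smooth hF
  obtain ⟨d₂, a2, b2⟩ := Lev_red (S := S) (N := N) (D := F) d0' fun t a _ => hd' t a
  have lD := Lev_mul b1 d₂
  have lF := Lev_mul b2 d₁
  rw [mul_comm] at lF
  have n0 : ((d₁ * d₂ : ℕ) : k) ≠ 0 := by rw [Nat.cast_mul]; exact mul_ne_zero a1 a2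
  generalize d₁ * d₂ = n at lD lF n0
  have n1 : n ≠ 0 := fun e => n0 (by simp [e])
  have iv : ∀ {f : W → k}, f ∈ S.Lev N n → BSys.dil n f ∈ (hsys hS).Iv (n ^ 2 * N) := fun hf =>
    S.rig_Iv.2 fun t a b => by rw [rig_dil, hf _ (zsmul_mem a 2) (zsmul_mem b 2)]
  have gd : ∀ {m m' : ℕ} {f : W → k}, f ∈ S.G m → n ^ 2 * m = m' →
      BSys.dil n f ∈ (hsys hS).H m' := fun hf e => e ▸ Gs_nsmul n hf
  obtain ⟨i, hi⟩ := HSys.rigid (T := hsys hS) (N := n ^ 2 * N) (M := n ^ 2 * c)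
    (F := BSys.dil n F) (D := BSys.dil n D)
    (by rw [Nat.cast_mul, Nat.cast_pow]; exact mul_ne_zero (pow_ne_zero _ n0) hN)
    ⟨gd hF rfl, iv lF⟩ (iv lD)
    (fun x => by rw [BSys.dil_apply, BSys.dil_apply, smul_neg, Fe])
    (fun x => by rw [BSys.dil_apply, BSys.dil_apply, smul_neg, De])
    (by rw [BSys.dil_apply, smul_zero]; exact F0) (g := BSys.dil n g)
    (fun e => g0 (BSys.dil_inj n1 (e.trans (map_zero _).symm)))
    (fun y => by
      rw [hsys_U, rig_dil, ← map_mul]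
      exact gd (h1 _) (by ring))
    (fun y z => by
      rw [HSys.br, hsys_U, hsys_U, hsys_U, hsys_U, rig_dil, rig_dil, rig_dil, rig_dil, ← map_mul,
        ← map_mul, ← map_sub, ← map_mul]
      exact gd (h2 _ _) (by ring))
    (by
      have e : BSys.dil 2 (BSys.dil n D) = BSys.dil n fun x => D ((2 : ℤ) • x) := funext fun x => by
        rw [BSys.dil_apply, BSys.dil_apply, BSys.dil_apply, smul_comm, two_zsmul, two_nsmul]
      rw [e]
      refine (sup_le (fun f hf => ?_) (Submodule.span_le.2 ?_) :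
        _ ≤ Submodule.comap (BSys.dil n).toLinearMap ((hsys hS).K
          ((hsys hS).tr (n ^ 2 * N) (BSys.dil n D)) (n ^ 2 * N) (3 * (n ^ 2 * N)))) h3
      · exact HSys.K_H (gd hf (by ring))
      rintro _ ⟨y, h, hh, rfl⟩
      have e1 : y = n • (n : ℚ)⁻¹ • y := by
        rw [← Nat.cast_smul_eq_nsmul ℚ n, smul_inv_smul₀ (Nat.cast_ne_zero.2 n1)]
      rw [SetLike.mem_coe, Submodule.mem_comap, AlgHom.toLinearMap_apply, map_mul, e1,
        ← rig_dil, ← hsys_U hS]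
      exact HSys.K_mem (HSys.tr_mem _) (gd hh (by ring)))
  refine descale hN (c := ((n * 2 ^ i : ℕ) : ℤ)) ?_ ?_
  · rw [Int.cast_natCast, Nat.cast_mul, Nat.cast_pow, Nat.cast_ofNat]
    exact mul_ne_zero n0 (pow_ne_zero _ S.two)
  · have e : (fun x => D (((n * 2 ^ i : ℕ) : ℤ) • x)) = BSys.dil (2 ^ i) (BSys.dil n D) :=
      funext fun x => by rw [BSys.dil_apply, BSys.dil_apply, natCast_zsmul, mul_smul]
    have e2 : ((n * 2 ^ i : ℕ) : ℤ).natAbs ^ 2 * N = 4 ^ i * (n ^ 2 * N) := by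
      rw [Int.natAbs_natCast, mul_pow, ← pow_mul, mul_comm i, pow_mul]
      ring
    rw [e, e2]
    exact hi

end TSys

end Pool.Agent.MT
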