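import Pool.Agent.Lib.MP_d61fbb_ag.MW.QC
import Pool.Agent.Lib.MP_d61fbb_ag.MW.QK
import Pool.Agent.Lib.MP_d61fbb_ag.MW.GX3

/-! Rigidity modulo powers of the maximal ideal. -/

set_option autoImplicit false

noncomputable section

namespace Pool.Agent.MT

open Matrix IsLocalRing

variable [dm : Dim]

namespace RSys
variable {R k : Type} [CommRing R] [IsLocalRing R] [Field k] {p : Pr} (A : RSys R k p)

/-- a linear form on the ideal `J` with values in the residue field -/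
structure Lam (J : Ideal R) where
  f : R → k
  add : ∀ a ∈ J, ∀ b ∈ J, f (a + b) = f a + f b
  smul : ∀ c, ∀ a ∈ J, f (c * a) = A.rd c * f a

theorem exists_lam {J : Ideal R} {a : R} (ha : a ∈ J) (h : a ∉ maximalIdeal R * J) :
    ∃ l : A.Lam J, l.f a ≠ 0 := by
  classical
  let _ := Ideal.Quotient.field (maximalIdeal R)
  let π := (maximalIdeal R • ⊤ : Submodule R J).mkQ
  let i := Ideal.Quotient.lift (maximalIdeal R) A.rd fun a h => (A.ker a).2 h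
  obtain ⟨φ, hφ⟩ := Module.Projective.exists_dual_ne_zero (R ⧸ maximalIdeal R) (x := π ⟨a, ha⟩)
    fun e => h ((Submodule.mem_smul_top_iff _ _ _).1 ((Submodule.Quotient.mk_eq_zero _).1 e))
  refine ⟨⟨fun b => if h : b ∈ J then i (φ (π ⟨b, h⟩)) else 0, fun b hb c hc => ?_,
    fun c b hb => ?_⟩, ?_⟩
  · rw [dif_pos hb, dif_pos hc, dif_pos (add_mem hb hc), ← map_add, ← map_add, ← map_add]
    rfl
  · rw [dif_pos hb, dif_pos (J.mul_mem_left c hb), ← Ideal.Quotient.lift_mk (maximalIdeal R) A.rd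
      fun a h => (A.ker a).2 h, ← map_mul, ← smul_eq_mul (Ideal.Quotient.mk _ c), ← map_smul]
    rfl
  · exact (dif_pos ha).trans_ne ((map_ne_zero i).2 hφ)

variable {A} {J : Ideal R} (l : A.Lam J)

theorem Lam.zero {a : R} (ha : a ∈ maximalIdeal R * J) : l.f a = 0 :=
  (Submodule.mul_induction_on (C := fun a => a ∈ J ∧ l.f a = 0) ha
    (fun r hr b hb => ⟨J.mul_mem_left r hb, by rw [l.smul r b hb, (A.ker r).2 hr, zero_mul]⟩)
    fun x y hx hy => ⟨add_mem hx.1 hy.1, by rw [l.add x hx.1 y hy.1, hx.2, hy.2, add_zero]⟩).2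

theorem Lam.mem {n : ℕ} (hn : ¬ (p : ℕ) ∣ n) {u : W → R} (hu : u ∈ A.P n) (hJ : u ∈ Val J) :
    (fun x => l.f (u x)) ∈ A.S.G n := by
  refine (Submodule.smul_induction_on (p := fun u => u ∈ Val J ∧ (fun x => l.f (u x)) ∈ A.S.G n)
    (A.flat hn J hu hJ) (fun c hc e he => ⟨mem_Val.2 fun x => J.mul_mem_right _ hc, ?_⟩)
    fun u v hu hv => ⟨add_mem hu.1 hv.1, ?_⟩).2
  · rw [show (fun x => l.f ((c • e) x)) = l.f c • A.red e from funext fun x =>
      ((congrArg l.f (mul_comm _ _)).trans (l.smul _ c hc)).trans (mul_comm _ _)]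
    exact Submodule.smul_mem _ _ (A.red_mem (P1_le n he))
  · rw [show (fun x => l.f ((u + v) x)) = (fun x => l.f (u x)) + fun x => l.f (v x) from
      funext fun x => l.add _ (mem_Val.1 hu.1 x) _ (mem_Val.1 hv.1 x)]
    exact add_mem hu.2 hv.2

theorem Lam.sub {a b : R} (ha : a ∈ J) (hb : b ∈ J) : l.f (a - b) = l.f a - l.f b := by
  rw [sub_eq_add_neg, l.add a ha _ (neg_mem hb), ← neg_one_mul, l.smul _ _ hb, map_neg, map_one]
  ring

theorem Lam.sum {ι : Type} (s : Finset ι) {a : ι → R} (ha : ∀ i, a i ∈ J) :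
    l.f (∑ i ∈ s, a i) = ∑ i ∈ s, l.f (a i) := by
  classical
  induction s using Finset.induction_on with
  | empty => exact l.zero (zero_mem _)
  | insert i s hi ih =>
    rw [Finset.sum_insert hi, Finset.sum_insert hi, l.add _ (ha i) _ (J.sum_mem fun i _ => ha i), ih]

theorem Lam.Rt {u : W → R} (hu : u ∈ Val J) (n : ℕ) (y : W) :
    Rt A.S.e n y (fun x => l.f (u x)) = fun x => l.f (Rr A.ψ n y u x) := funext fun x => by
  rw [Rr_apply, l.smul _ _ (mem_Val.1 hu _), A.ψ_rd]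
  rfl

omit l in
theorem Lam.memQ {n j : ℕ} (l : A.Lam (maximalIdeal R ^ j)) (hn : ¬ (p : ℕ) ∣ n) {u : W → R}
    (hu : u ∈ A.Q (j + 1) n) (hJ : u ∈ Val (maximalIdeal R ^ j)) :
    (fun x => l.f (u x)) ∈ A.S.G n := by
  obtain ⟨v, hv, e⟩ := mem_Q.1 hu
  have e' : ∀ x, u x - v x ∈ maximalIdeal R ^ j := fun x =>
    Ideal.pow_le_pow_right (Nat.le_succ j) (e x)
  have hv' : ∀ x, v x ∈ maximalIdeal R ^ j := fun x => by
    have := sub_mem (mem_Val.1 hJ x) (e' x)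
    rwa [sub_sub_cancel] at this
  have : (fun x => l.f (u x)) = fun x => l.f (v x) := funext fun x => by
    rw [← sub_eq_zero, ← l.sub (mem_Val.1 hJ x) (hv' x)]
    exact l.zero (pow_succ' (maximalIdeal R) j ▸ e x)
  rw [this]
  exact l.mem hn hv (mem_Val.2 hv')

omit l in
theorem as_sim {s : M8 AF} {N : ℕ}
    (sim : ∀ x y, iq p * Ef (s *ᵥ x) (s *ᵥ y) = iq p * (N : ℚ) • Ef x y) (f : W → R) (y : W) :
    Rr A.ψ N y (fun x => f (s *ᵥ x)) = fun x => Rr A.ψ 1 (s *ᵥ y) f (s *ᵥ x) := funext fun x => by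
  rw [Rr_apply, Rr_apply, mulVec_add, ← A.ψ_iq, ← A.ψ_iq (_ • Ef (s *ᵥ y) _), mul_smul_comm,
    mul_smul_comm, sim, mul_smul_comm, smul_smul]
  congr 3
  push_cast
  ring

omit l in
theorem as_br {s : M8 AF} {N : ℕ}
    (sim : ∀ x y, iq p * Ef (s *ᵥ x) (s *ᵥ y) = iq p * (N : ℚ) • Ef x y) (w y : W) :
    Rr A.ψ N y (A.br s w) =
      A.ψ ((((1 : ℕ) : ℚ) / 2) • Ef w (s *ᵥ y)) • A.br s (s *ᵥ y + w) :=
  (as_sim sim (A.tr w) y).trans (by rw [Rr_Rr]; rfl)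

omit l in
theorem as_even (s : M8 AF) {η : I2 gg → ZMod 2} (h0 : A.T (hw η) = 1) (x : W) :
    A.br s (hw η) (-x) = A.br s (hw η) x := by
  have key : ∀ z, A.tr (hw η) (-z) =
      A.ψ ((1 / 2 : ℚ) • Qf ((2 : ℤ) • hw η)) * A.tr (hw η) z := fun z => by
    have := congrFun (A.per _ (hw_two η)) (z - hw η)
    rw [Pi.smul_apply, smul_eq_mul, Rr_apply,
      show z - hw η + (2 : ℤ) • hw η = z + hw η by rw [two_zsmul]; abel] at this
    rw [tr, Rr_apply, Rr_apply, ← A.ev, neg_add, neg_neg, ← sub_eq_add_neg, ← this, mul_left_comm,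
      ← mul_assoc (A.ψ _) (A.ψ _) (A.T _), ← AddChar.map_add_eq_mul]
    congr 3
    rw [Ef_neg_right, Ef_z_left, Ef_sub_right, Ef_self]
    push_cast
    module
  have h1 := key 0
  rw [neg_zero, tr, Rr_apply, zero_add, h0, Ef_zero_right, smul_zero, AddChar.map_zero_eq_one,
    mul_one, mul_one] at h1
  rw [br, br, mulVec_neg, key, ← h1, one_mul]

omit l in
theorem as_zero (s : M8 AF) {η : I2 gg → ZMod 2} (h0 : A.T (hw η) = 1) :
    A.br s (hw η) 0 = 1 := by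
  rw [br, mulVec_zero, tr, Rr_apply, zero_add, h0, Ef_zero_right, smul_zero,
    AddChar.map_zero_eq_one, mul_one]

omit l in
theorem as_all {s : M8 AF} {N : ℕ}
    (sim : ∀ x y, iq p * Ef (s *ᵥ x) (s *ᵥ y) = iq p * (N : ℚ) • Ef x y)
    (surj : ∀ w : W, ∃ z, iq p • s *ᵥ z = iq p • w) (w w' : W) :
    ∃ (c : R) (y : W), A.br s w' = c • Rr A.ψ N y (A.br s w) := by
  obtain ⟨y, hy⟩ := surj (w' - w)
  refine ⟨A.ψ (-((((1 : ℕ) : ℚ) / 2) • Ef w (s *ᵥ y))), y, ?_⟩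
  rw [as_br sim, smul_smul, ← AddChar.map_add_eq_mul, neg_add_cancel, AddChar.map_zero_eq_one,
    one_smul]
  funext x
  rw [br, br, tr, tr, ← A.Rr_iq A.fac, ← A.Rr_iq A.fac 1 (_ + w), smul_add, hy, ← smul_add,
    sub_add_cancel]

omit l in
/-- The inductive step for `Ψ = θ ∘ s`, `θ = A.tr z`. -/
theorem alpha_step {s : M8 AF} {N M j : ℕ} (hN : ¬ (p : ℕ) ∣ N) (hj : 1 ≤ j)
    (hc : A.CMP (j + 1) s M)
    (sim : ∀ x y, iq p * Ef (s *ᵥ x) (s *ᵥ y) = iq p * (N : ℚ) • Ef x y)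
    (surj : ∀ w : W, ∃ z, iq p • s *ᵥ z = iq p • w) {η : I2 gg → ZMod 2}
    (h0 : A.T (hw η) = 1) {F : W → R} (hF : F ∈ A.P N) (F0 : F 0 = 1) (Fe : ∀ x, F (-x) = F x)
    (ih : ∀ x, A.br s (hw η) x - F x ∈ maximalIdeal R ^ j) (l : A.Lam (maximalIdeal R ^ j)) :
    (fun x => l.f (A.br s (hw η) x - F x)) ∈ A.S.G N := by
  have p2 : ¬ (p : ℕ) ∣ 2 := fun h => A.S.two (by
    have := A.S.char
    exact_mod_cast (CharP.cast_eq_zero_iff k p 2).2 h)
  obtain ⟨c, c1, c2⟩ : ∃ c, M ≤ N + c ∧ ¬ (p : ℕ) ∣ N + c + N := by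
    by_cases e : (p : ℕ) ∣ N + M + N
    · refine ⟨M + 1, by omega, fun e' => p.2.one_lt.ne' (Nat.dvd_one.1 ?_)⟩
      exact (Nat.dvd_add_right e).1 (by rwa [show N + M + N + 1 = N + (M + 1) + N by ring])
    · exact ⟨M, by omega, e⟩
  obtain ⟨g, hg, x₀, g0⟩ := hc.mono c1
  set Ψ := A.br s (hw η) with hΨ
  have φJ : Ψ - F ∈ Val (maximalIdeal R ^ j) := mem_Val.2 ih
  have tJ : ∀ y x, Rr A.ψ N y Ψ x - Rr A.ψ N y F x ∈ maximalIdeal R ^ j := fun y x => by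
    have := mem_Val.1 (Val_Rr (ψ := A.ψ) N y φJ) x
    rwa [map_sub] at this
  have rdΨ : ∀ y x, A.rd (Rr A.ψ N y Ψ x) = Rt A.S.e N y (A.red F) x := fun y x => by
    rw [← A.red_Rr, ← sub_eq_zero, ← map_sub, A.ker]
    exact Ideal.pow_le_self (by omega) (tJ y x)
  have rdF : ∀ y x, A.rd (Rr A.ψ N y F x) = Rt A.S.e N y (A.red F) x := fun y x => by
    rw [← A.red_Rr]
  have tD : ∀ y x, l.f (Rr A.ψ N y Ψ x - Rr A.ψ N y F x) =
      Rt A.S.e N y (fun x => l.f (Ψ x - F x)) x := fun y x => by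
    have := congrFun (l.Rt φJ N y) x
    rw [map_sub] at this
    exact this.symm
  have Qg : ∀ y, Rr A.ψ N y Ψ * g ∈ A.Q (j + 1) (N + c) := fun y => by
    rw [hΨ, as_br sim, smul_mul_assoc]
    exact Submodule.smul_mem _ _ (hg _)
  have GF : ∀ y, Rt A.S.e N y (A.red F) ∈ A.S.G N := fun y => A.facS.G_Rt y (A.red_mem hF)
  refine TSys.kill (c := c) (g := A.red g) A.facS (A.nat_ne hN) (A.red_mem hF)
    (by rw [red, F0, map_one]; exact one_ne_zero) (fun x => congrArg A.rd (Fe x))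
    (fun x => by rw [Fe, hΨ, as_even s h0])
    (by rw [F0, hΨ, as_zero s h0, sub_self]; exact l.zero (zero_mem _)) ?_
    (Function.ne_iff.2 ⟨x₀, A.unit_iff.1 g0⟩) (fun y => ?_) (fun y z => ?_) ?_
  · obtain ⟨n₁, a1, b1⟩ := A.smooth hF
    obtain ⟨n₂, a2, b2⟩ := A.smooth (PP_tr (hw η) : A.tr (hw η) ∈ A.P 1)
    obtain ⟨n₃, a3, b3⟩ := gx_den s
    refine ⟨n₁ * (n₂ * n₃), mul_ne_zero (fun e => a1 (e ▸ dvd_zero _))
      (mul_ne_zero (fun e => a2 (e ▸ dvd_zero _)) a3), fun t ht _ => funext fun x => ?_⟩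
    have e1 : Rr A.ψ N ((n₁ * (n₂ * n₃)) • t) F = F := by
      rw [mul_smul]
      exact b1 _ (nsmul_mem ht _)
    have e2 : Rr A.ψ N ((n₁ * (n₂ * n₃)) • t) Ψ = Ψ := by
      refine (as_sim sim (A.tr (hw η)) _).trans ?_
      rw [mul_comm, mul_smul, mul_smul, mulVec_smul, mulVec_smul, b2 _ (b3 _ (nsmul_mem ht _))]
      rfl
    rw [← tD, e1, e2]
  · have := Q_red (by omega) (Qg y)
    rwa [show A.red (Rr A.ψ N y Ψ * g) = Rt A.S.e N y (A.red F) * A.red g from funext fun x => by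
      rw [red, Pi.mul_apply, map_mul, rdΨ]; rfl] at this
  · have e : ∀ x, (Rr A.ψ N y Ψ * g * Rr A.ψ N z F - Rr A.ψ N z Ψ * g * Rr A.ψ N y F) x =
        Rr A.ψ N z F x * g x * (Rr A.ψ N y Ψ x - Rr A.ψ N y F x) -
          Rr A.ψ N y F x * g x * (Rr A.ψ N z Ψ x - Rr A.ψ N z F x) := fun x => by
      simp only [Pi.sub_apply, Pi.mul_apply]
      ring
    have := l.memQ c2 (sub_mem (Q_mul (Qg y) (P_Q (PP_Rr z hF))) (Q_mul (Qg z) (P_Q (PP_Rr y hF))))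
      (mem_Val.2 fun x => by
        rw [e]
        exact sub_mem (Ideal.mul_mem_left _ _ (tJ y x)) (Ideal.mul_mem_left _ _ (tJ z x)))
    rw [show N + N + c = N + c + N by ring]
    refine (congrArg (· ∈ A.S.G (N + c + N)) (funext fun x => ?_)).mp this
    rw [e, l.sub (Ideal.mul_mem_left _ _ (tJ y x)) (Ideal.mul_mem_left _ _ (tJ z x)),
      l.smul _ _ (tJ y x), l.smul _ _ (tJ z x), map_mul, map_mul, rdF, rdF, tD, tD]
    simp only [Pi.sub_apply, Pi.mul_apply]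
    ring
  · choose c₁ y₁ h₁ using fun ζ => as_all (A := A) sim surj (hw η) (hw η + hw η + hw ζ)
    choose c₂ y₂ h₂ using fun ζ => as_all (A := A) sim surj (hw η) (hw ζ)
    let C : (I2 gg → ZMod 2) → R := fun ζ =>
      A.ψ ((2 : ℚ) • Qf (hw ζ) + Ef (hw ζ) (hw η)) * (c₁ ζ * c₂ ζ ^ 3)
    have ri : ∀ x, 2 ^ gg * Ψ ((2 : ℤ) • x) =
        ∑ ζ, C ζ * (Rr A.ψ N (y₁ ζ) Ψ x * Rr A.ψ N (y₂ ζ) Ψ x ^ 3) := fun x => by
      have := A.riem (s *ᵥ x) (s *ᵥ x) (hw η) 0 (hw η)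
      rw [h0, mul_one, mul_one, add_zero, sub_zero, sub_self, sub_self,
        show A.tr (hw η) 0 = 1 from (congrArg _ (mulVec_zero s).symm).trans (as_zero s h0), mul_one,
        ← mulVec_add, ← two_zsmul] at this
      refine this.trans (Finset.sum_congr rfl fun ζ _ => ?_)
      have a1 := congrFun (h₁ ζ) x
      have a2 := congrFun (h₂ ζ) x
      rw [br, Pi.smul_apply, smul_eq_mul] at a1 a2
      rw [zero_add, a1, a2]
      ring
    let u : W → R := (∑ ζ, C ζ • (Rr A.ψ N (y₁ ζ) F * Rr A.ψ N (y₂ ζ) F ^ 3)) -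
      (2 ^ gg : R) • fun x => F ((2 : ℤ) • x)
    have uP : u ∈ A.P (4 * N) := sub_mem (Submodule.sum_mem _ fun ζ _ => Submodule.smul_mem _ _ (by
      rw [show 4 * N = N + 3 * N by ring]
      exact PP_mul (PP_Rr _ hF) (PP_pow (PP_Rr _ hF) 3))) (Submodule.smul_mem _ _ (PP_dil 2 hF))
    let v : (I2 gg → ZMod 2) → W → R := fun ζ x =>
      C ζ * Rr A.ψ N (y₂ ζ) Ψ x ^ 3 * (Rr A.ψ N (y₁ ζ) Ψ x - Rr A.ψ N (y₁ ζ) F x) +
      C ζ * (Rr A.ψ N (y₁ ζ) F x * (Rr A.ψ N (y₂ ζ) Ψ x ^ 2 +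
        Rr A.ψ N (y₂ ζ) Ψ x * Rr A.ψ N (y₂ ζ) F x + Rr A.ψ N (y₂ ζ) F x ^ 2)) *
        (Rr A.ψ N (y₂ ζ) Ψ x - Rr A.ψ N (y₂ ζ) F x)
    have vJ : ∀ x ζ, v ζ x ∈ maximalIdeal R ^ j := fun x ζ =>
      add_mem (Ideal.mul_mem_left _ _ (tJ _ x)) (Ideal.mul_mem_left _ _ (tJ _ x))
    have e : ∀ x, u x = 2 ^ gg * (Ψ ((2 : ℤ) • x) - F ((2 : ℤ) • x)) - ∑ ζ, v ζ x := fun x => by
      rw [mul_sub, ri, sub_right_comm, ← Finset.sum_sub_distrib]
      simp only [u, Pi.sub_apply, Finset.sum_apply, Pi.smul_apply, Pi.mul_apply, Pi.pow_apply,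
        smul_eq_mul]
      refine congrArg (· - _) (Finset.sum_congr rfl fun ζ _ => ?_)
      simp only [v]
      ring
    have uG := l.mem (n := 4 * N) (fun h => (p.2.dvd_mul.1 h).elim
      (fun h => p2 (p.2.dvd_of_dvd_pow (n := 2) h)) hN) uP (mem_Val.2 fun x => by
        rw [e]
        exact sub_mem (Ideal.mul_mem_left _ _ (ih _)) (Ideal.sum_mem _ fun ζ _ => vJ x ζ))
    rw [← Submodule.smul_mem_iff _ (pow_ne_zero gg A.S.two)]
    have e2 : ((2 : k) ^ gg • fun x => l.f (Ψ ((2 : ℤ) • x) - F ((2 : ℤ) • x))) =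
        (fun x => l.f (u x)) + ∑ ζ, (Rt A.S.e N (y₁ ζ) (fun x => l.f (Ψ x - F x)) *
          (A.rd (C ζ) • Rt A.S.e N (y₂ ζ) (A.red F) ^ 3) +
          Rt A.S.e N (y₂ ζ) (fun x => l.f (Ψ x - F x)) * ((3 * A.rd (C ζ)) •
            (Rt A.S.e N (y₁ ζ) (A.red F) * Rt A.S.e N (y₂ ζ) (A.red F) ^ 2))) := funext fun x => by
      rw [Pi.add_apply, e, l.sub (Ideal.mul_mem_left _ _ (ih _)) (Ideal.sum_mem _ fun ζ _ => vJ x ζ),
        l.smul _ _ (ih _), l.sum _ (vJ x), Finset.sum_apply, map_pow, map_ofNat, Pi.smul_apply,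
        smul_eq_mul, sub_add, ← Finset.sum_sub_distrib, Finset.sum_eq_zero, sub_zero]
      intro ζ _
      simp only [v]
      rw [l.add _ (Ideal.mul_mem_left _ _ (tJ _ x)) _ (Ideal.mul_mem_left _ _ (tJ _ x)),
        l.smul _ _ (tJ _ x), l.smul _ _ (tJ _ x), tD, tD]
      simp only [map_mul, map_add, map_pow, rdΨ, rdF, Pi.add_apply, Pi.mul_apply, Pi.smul_apply,
        Pi.pow_apply, smul_eq_mul]
      ring
    rw [e2]
    refine add_mem (Submodule.mem_sup_left uG) (Submodule.mem_sup_right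
      (Submodule.sum_mem _ fun ζ _ => add_mem (Submodule.subset_span ⟨_, _, ?_, rfl⟩)
        (Submodule.subset_span ⟨_, _, ?_, rfl⟩)))
    · refine Submodule.smul_mem _ _ ?_
      rw [show 3 * N = N + N + N by ring, pow_succ, pow_two]
      exact Gs_mul (Gs_mul (GF _) (GF _)) (GF _)
    · refine Submodule.smul_mem _ _ ?_
      rw [show 3 * N = N + (N + N) by ring, pow_two]
      exact Gs_mul (GF _) (Gs_mul (GF _) (GF _))

omit [IsLocalRing R] in
theorem rigid_pull (δ : Fr p 1) (ψ : AddChar AF R) (f : W → R) (t y : W) :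
    Rr ψ 1 (δ.h t) (fun x => f (δ.h.symm x)) y = Rr ψ 1 t f (δ.h.symm y) := by
  have e := δ.sim t (δ.h.symm y)
  rw [LinearEquiv.apply_symm_apply, Nat.cast_one, one_smul] at e
  simp only [Rr_apply, map_add, LinearEquiv.symm_apply_apply, e]

omit [IsLocalRing R] in
theorem rigid_eg (δ : Fr p 1) (ψ : AddChar AF R) {f : W → R}
    (hf : ∀ t ∈ L0, ψ ((1 / 2 : ℚ) • Qf t) • Rr ψ 1 t f = f) (z : W) :
    δ.Eg ψ (0 - z) fun y => Rr ψ 1 z f (δ.h.symm y) := by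
  have e0 : δ.Eg ψ 0 fun x => f (δ.h.symm x) := fun t => funext fun y => by
    have := congrFun (hf t.1 t.2) (δ.h.symm y)
    simp only [Fr.op, LinearMap.smul_apply, Pi.smul_apply, smul_eq_mul, Ef_zero_left,
      AddChar.map_zero_eq_one, one_mul, rigid_pull] at this ⊢
    exact this
  have e1 := e0.tr z
  rwa [funext (rigid_pull δ ψ f z)] at e1

omit [IsLocalRing R] in
theorem rigid_even (ψ : AddChar AF R) {f : W → R} {z : W} (hz : (2 : ℤ) • z ∈ L0)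
    (hf : ∀ t ∈ L0, ψ ((1 / 2 : ℚ) • Qf t) • Rr ψ 1 t f = f) (ev : ∀ x, f (-x) = f x)
    (h0 : f z = 1) (y : W) : Rr ψ 1 z f (-y) = Rr ψ 1 z f y := by
  have key : ∀ y, Rr ψ 1 z f (-y) = ψ ((1 / 2 : ℚ) • Qf ((2 : ℤ) • z)) * Rr ψ 1 z f y := fun y => by
    have e := congrFun (hf _ hz) (y - z)
    simp only [Pi.smul_apply, smul_eq_mul, Rr_apply] at e ⊢
    rw [show -y + z = -(y - z) by abel, ev, ← e, show y - z + (2 : ℤ) • z = y + z by module]
    have e2 : ψ ((((1 : ℕ) : ℚ) / 2) • Ef z (-y)) *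
        ψ ((((1 : ℕ) : ℚ) / 2) • Ef ((2 : ℤ) • z) (y - z)) = ψ ((((1 : ℕ) : ℚ) / 2) • Ef z y) := by
      rw [← AddChar.map_add_eq_mul]
      congr 1
      simp only [Ef_neg_right, Ef_z_left, Ef_sub_right, Ef_self]
      push_cast
      module
    linear_combination (ψ ((1 / 2 : ℚ) • Qf ((2 : ℤ) • z)) * f (y + z)) * e2
  have h1 := key 0
  simp only [neg_zero, Rr_apply, Ef_zero_right, smul_zero, AddChar.map_zero_eq_one, zero_add, h0,
    mul_one] at h1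
  rw [key, ← h1, one_mul]

theorem rigid_eg_lam (δ : Fr p 1) {y : W} {u v : W → R} (hu : δ.Eg A.ψ y u) (hv : δ.Eg A.ψ y v)
    (h : ∀ x, u x - v x ∈ J) : δ.Eg A.S.e y fun x => l.f (u x - v x) := fun t => funext fun x => by
  have e1 := congrFun (hu t) x
  have e2 := congrFun (hv t) x
  simp only [Fr.op, LinearMap.smul_apply, Pi.smul_apply, smul_eq_mul, Rr_apply] at e1 e2 ⊢
  rw [← e1, ← e2, ← A.ψ_rd, ← A.ψ_rd, ← A.ψ_rd, ← l.smul _ _ (h _),
    ← l.smul _ _ (J.mul_mem_left _ (h _)),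
    ← l.smul _ _ (J.mul_mem_left _ (J.mul_mem_left _ (h _)))]
  congr 1
  ring

/-- Rigidity: a second theta function `T'` whose pullback by `δ⁻¹` is a theta function of `T`. -/
theorem rigid (δ : Fr p 1) {n : ℕ} (hn : ¬ (p : ℕ) ∣ n) {s : M8 AF}
    (hs : ∀ x, iq p • s *ᵥ x = iq p • (n : ℤ) • δ.h.symm x) {r M : ℕ} (hc : A.CMP r s M)
    {η : I2 gg → ZMod 2} (h0 : A.T (hw η) = 1) {T' : W → R} (h0' : T' (hw η) = 1)
    (per : ∀ t ∈ L0, A.ψ ((1 / 2 : ℚ) • Qf t) • Rr A.ψ 1 t T' = T') (ev : ∀ x, T' (-x) = T' x)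
    (hr : ∀ x, A.rd (T' x) = A.S.Θ x) (hT : (fun x => T' (δ.h.symm x)) ∈ A.P 1) (x : W) :
    T' x - A.T x ∈ maximalIdeal R ^ r := by
  have hp : (p : ℕ).Prime := p.2
  have c0 : (n : ℤ) ≠ 0 := fun e => hn (by rw [Int.natCast_eq_zero.1 e]; exact dvd_zero _)
  obtain ⟨U, hU⟩ : ∃ U : W → R, U = fun y => Rr A.ψ 1 (hw η) A.T (δ.h.symm y) := ⟨_, rfl⟩
  obtain ⟨U', hU'⟩ : ∃ U' : W → R, U' = fun y => Rr A.ψ 1 (hw η) T' (δ.h.symm y) := ⟨_, rfl⟩
  have eU : δ.Eg A.ψ (0 - hw η) U := hU ▸ rigid_eg δ A.ψ A.per _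
  have eU' : δ.Eg A.ψ (0 - hw η) U' := hU' ▸ rigid_eg δ A.ψ per _
  have mU' : U' ∈ A.P 1 := by
    rw [hU', ← funext (rigid_pull δ A.ψ T' (hw η))]
    exact PP_Rr _ hT
  have U0 : U 0 = 1 := by simp [hU, Rr_apply, h0]
  have U0' : U' 0 = 1 := by simp [hU', Rr_apply, h0']
  have hbr : ∀ x, A.br s (hw η) x = U ((n : ℤ) • x) := fun x => by
    rw [hU]
    simp only [map_zsmul]
    exact (A.fac_Rr A.fac 1 _ _).symm.trans (by rw [hs]; exact A.fac_Rr A.fac 1 _ _)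
  have hN : ¬ (p : ℕ) ∣ (n : ℤ).natAbs ^ 2 * 1 := fun e =>
    hn (hp.dvd_of_dvd_pow (by simpa using e))
  have sim : ∀ x y, iq p * Ef (s *ᵥ x) (s *ᵥ y) =
      iq p * (((n : ℤ).natAbs ^ 2 * 1 : ℕ) : ℚ) • Ef x y := fun x y => by
    have e := δ.sim (δ.h.symm x) (δ.h.symm y)
    rw [LinearEquiv.apply_symm_apply, LinearEquiv.apply_symm_apply, Nat.cast_one, one_smul] at e
    rw [← Ef_smul_left, hs, Ef_smul_left, ← Ef_smul_right, hs, Ef_smul_right, Ef_z_left, Ef_z_right,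
      ← e, smul_smul]
    congr 2
    simp [sq]
  have surj : ∀ w : W, ∃ z, iq p • s *ᵥ z = iq p • w := fun w =>
    ⟨δ.h (((n : ℤ) : ℚ)⁻¹ • w), by rw [hs, LinearEquiv.symm_apply_apply, cm_unsmul c0]⟩
  have key : ∀ j, j ≤ r → ∀ y, U y - U' y ∈ maximalIdeal R ^ j := by
    intro j
    induction j with
    | zero => intro _ y; simp
    | succ j ih =>
      intro hj y
      rcases Nat.eq_zero_or_pos j with rfl | hj0
      · rw [zero_add, pow_one, ← A.ker, map_sub, hU, hU']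
        simp only [Rr_apply, map_mul, A.T_rd, hr, sub_self]
      have ih' := ih (by omega)
      rw [pow_succ']
      by_contra hy
      obtain ⟨l, hl⟩ := A.exists_lam (ih' y) hy
      have h1 := alpha_step hN hj0 (hc.anti hj) sim surj h0 (F := fun x => U' ((n : ℤ) • x))
        (PP_dil _ mU') ((congrArg U' (zsmul_zero _)).trans U0')
        (fun x => by
          rw [hU']
          simp only [zs_neg, map_neg]
          exact rigid_even A.ψ (hw_two η) per ev h0' _)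
        (fun x => by rw [hbr]; exact ih' _) l
      simp only [hbr] at h1
      have h2 : (fun x => l.f (U x - U' x)) ∈ A.S.G 1 :=
        TSys.descale (by simp) (by simpa using A.nat_ne hn) h1
      have h3 := δ.uniq_k A.facS (by simp) _ h2 (A.red_mem mU') (rigid_eg_lam l δ eU eU' ih')
        (eU'.map A.rd A.ψ_rd) y 0
      have h4 : l.f 0 = 0 := by simpa using l.smul 0 0 (zero_mem _)
      simp only [RSys.red, U0, U0', sub_self, h4, zero_mul, map_one, mul_one] at h3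
      exact hl h3
  have h5 := key r le_rfl (δ.h (x - hw η))
  rw [hU, hU'] at h5
  simp only [Rr_apply, LinearEquiv.symm_apply_apply, sub_add_cancel, ← mul_sub] at h5
  rw [← neg_sub]
  exact neg_mem ((Ideal.unit_mul_mem_iff_mem _ (A.ψ_unit _)).1 h5)

end RSys

end Pool.Agent.MT
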