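import Mathlib

/-! Abstract interpolation: a function in a translation stable ring on which the group acts
trivially to second order, with a zero in every coset of the r-th congruence subgroup, is divisible
by a high power of p. -/

namespace Pool.Agent.MT.WInt

variable {R : Type*} [CommRing R]

/-- A ring endomorphism that is the identity modulo m^2 moves m^i only inside m^(i+1). -/
theorem step_pow (m : Ideal R) (t : R →+* R) (h2 : ∀ f, t f - f ∈ m ^ 2) :
    ∀ i : ℕ, ∀ f ∈ m ^ (i + 1), t f - f ∈ m ^ (i + 2) := by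
  intro i
  induction i with
  | zero => intro f _; exact h2 f
  | succ i ih =>
    intro f hf
    rw [pow_succ] at hf
    refine Submodule.mul_induction_on hf ?_ ?_
    · intro x hx y hy
      have e : t (x * y) - x * y = (t x - x) * t y + x * (t y - y) := by
        rw [map_mul]; ring
      have hty : t y ∈ m := by
        have h1 : t y - y ∈ m := Ideal.pow_le_self (by norm_num) (h2 y)
        have := m.add_mem h1 hy
        simpa using this
      rw [e]
      refine Ideal.add_mem _ ?_ ?_
      · have := Ideal.mul_mem_mul (ih x hx) hty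
        rwa [← pow_succ] at this
      · have := Ideal.mul_mem_mul hx (h2 y)
        rw [← pow_add] at this
        exact this
    · intro x y hx hy
      have e : t (x + y) - (x + y) = (t x - x) + (t y - y) := by
        rw [map_add]; ring
      rw [e]
      exact Ideal.add_mem _ hx hy

/-- The difference operator of a ring endomorphism, as an additive endomorphism. -/
def dl (t : R →+* R) : Module.End ℤ R := t.toAddMonoidHom.toIntLinearMap - 1

theorem dl_apply (t : R →+* R) (f : R) : dl t f = t f - f := rfl

theorem dl_pow_mem (m : Ideal R) (t : R →+* R) (h2 : ∀ f, t f - f ∈ m ^ 2) (f : R) :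
    ∀ k : ℕ, (dl t ^ (k + 1)) f ∈ m ^ (k + 2) := by
  intro k
  induction k with
  | zero => simpa [dl_apply] using h2 f
  | succ k ih =>
    rw [pow_succ' (dl t), Module.End.mul_apply, dl_apply]
    exact step_pow m t h2 (k + 1) _ ih

theorem dl_pow_sub (t : R →+* R) (N : AddSubgroup R) (hN : ∀ f ∈ N, t f ∈ N) (f : R) (hf : f ∈ N) :
    ∀ k : ℕ, (dl t ^ k) f ∈ N := by
  intro k
  induction k with
  | zero => simpa using hf
  | succ k ih =>
    rw [pow_succ', Module.End.mul_apply, dl_apply]
    exact N.sub_mem (hN _ ih) ih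

theorem iter_eq (t : R →+* R) (n : ℕ) (f : R) :
    (t : R → R)^[n] f = ∑ k ∈ Finset.range (n + 1), (n.choose k : ℤ) • (dl t ^ k) f := by
  have h1 : (t.toAddMonoidHom.toIntLinearMap : Module.End ℤ R) = dl t + 1 := by
    simp [dl]
  have h2 : (t : R → R)^[n] f = ((dl t + 1) ^ n) f := by
    rw [← h1, Module.End.pow_apply]
    rfl
  rw [h2, (Commute.one_right (dl t)).add_pow, LinearMap.sum_apply]
  refine Finset.sum_congr rfl fun k _ => ?_
  rw [one_pow, mul_one, Module.End.mul_apply]
  have : ((n.choose k : ℕ) : Module.End ℤ R) f = (n.choose k : ℤ) • f := by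
    rw [Module.End.natCast_apply, natCast_zsmul]
  rw [this, map_zsmul]

variable {O : Type*} [CommRing O] {G : Type*} [CommGroup G]

omit [CommGroup G] in
theorem dvd_of_mem_pow (a : O) (S : Subring (G → O)) (m : Ideal S)
    (hm : ∀ f ∈ m, ∀ ga, a ∣ f.1 ga) :
    ∀ i : ℕ, ∀ f ∈ m ^ i, ∀ ga, a ^ i ∣ f.1 ga := by
  intro i
  induction i with
  | zero => intro f _ ga; simp
  | succ i ih =>
    intro f hf
    rw [pow_succ] at hf
    refine Submodule.mul_induction_on hf ?_ ?_
    · intro x hx y hy ga
      rw [pow_succ]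
      exact mul_dvd_mul (ih x hx ga) (hm y hy ga)
    · intro x y hx hy ga
      exact dvd_add (hx ga) (hy ga)

/-- The elements of the ring of functions all of whose values are divisible by a. -/
def dv (S : Subring (G → O)) (a : O) : AddSubgroup S where
  carrier := {f | ∀ ga, a ∣ f.1 ga}
  zero_mem' := fun _ => dvd_zero _
  add_mem' := fun hx hy ga => dvd_add (hx ga) (hy ga)
  neg_mem' := fun hx ga => (dvd_neg).2 (hx ga)

theorem interp (p : ℕ) (hp : p.Prime) (S : Subring (G → O)) (m : Ideal S)
    (hm : ∀ f ∈ m, ∀ ga, (p : O) ∣ f.1 ga)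
    (tau : G → S →+* S) (htau : ∀ b f ga, (tau b f).1 ga = f.1 (b * ga))
    (h2 : ∀ b f, tau b f - f ∈ m ^ 2)
    (Gs : ℕ → Subgroup G) (hanti : Antitone Gs)
    (hj : ∀ j : ℕ, ∃ i, ∀ b ∈ Gs i, ∀ f, tau b f - f ∈ m ^ j)
    (r : ℕ) (hr : ∀ i, r ≤ i → ∀ b ∈ Gs i, ∃ d : G, b / d ^ (p ^ r) ∈ Gs (i + 1))
    (f : S) (hz : ∀ ga, ∃ b ∈ Gs r, f.1 (b * ga) = 0) :
    ∀ ga, (p : O) ^ (p ^ r + 1) ∣ f.1 ga := by
  have key : ∀ mu : ℕ, mu ≤ p ^ r → (∀ ga, (p : O) ^ mu ∣ f.1 ga) →
      ∀ ga, (p : O) ^ (mu + 1) ∣ f.1 ga := by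
    intro mu hmu hf
    -- the subgroup fixing f modulo p^(mu+1)
    let H : Subgroup G :=
      { carrier := {b | ∀ ga, (p : O) ^ (mu + 1) ∣ f.1 (b * ga) - f.1 ga}
        one_mem' := fun ga => by simp
        mul_mem' := fun {a b} ha hb ga => by
          have := dvd_add (ha (b * ga)) (hb ga)
          rwa [sub_add_sub_cancel, ← mul_assoc] at this
        inv_mem' := fun {a} ha ga => by
          have := (dvd_neg).2 (ha (a⁻¹ * ga))
          rwa [neg_sub, mul_inv_cancel_left] at this }
    have hit : ∀ (d : G) (n : ℕ) (g : S) (ga : G),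
        ((tau d : S → S)^[n] g).1 ga = g.1 (d ^ n * ga) := by
      intro d n
      induction n with
      | zero => intro g ga; simp
      | succ n ih =>
        intro g ga
        rw [Function.iterate_succ_apply', htau, ih, pow_succ, mul_assoc]
    have hpow : ∀ d : G, d ^ (p ^ r) ∈ H := by
      intro d ga
      show (p : O) ^ (mu + 1) ∣ f.1 (d ^ (p ^ r) * ga) - f.1 ga
      rw [← hit, iter_eq]
      have hpos : 0 < p ^ r := pow_pos hp.pos r
      have hmem : (∑ k ∈ Finset.range (p ^ r + 1), ((p ^ r).choose k : ℤ) • (dl (tau d) ^ k) f) - f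
          ∈ dv S ((p : O) ^ (mu + 1)) := by
        rw [Finset.sum_range_succ']
        simp only [Nat.choose_zero_right, Nat.cast_one, pow_zero, Module.End.one_apply, one_smul,
          add_sub_cancel_right]
        refine AddSubgroup.sum_mem _ fun k hk => ?_
        have hk' : k + 1 ≤ p ^ r := Finset.mem_range.1 hk
        rcases hk'.lt_or_eq with hlt | heq
        · obtain ⟨c, hc⟩ := hp.dvd_choose_pow (n := r) (k := k + 1) (by omega) (by omega)
          have hv : (dl (tau d) ^ (k + 1)) f ∈ dv S ((p : O) ^ mu) := by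
            refine dl_pow_sub (tau d) (dv S ((p : O) ^ mu)) ?_ f hf _
            intro g hg ga'
            rw [htau]
            exact hg _
          intro ga'
          have e : ((((p ^ r).choose (k + 1) : ℕ) : ℤ) • (dl (tau d) ^ (k + 1)) f).1 ga'
              = ((p : O) * c) * ((dl (tau d) ^ (k + 1)) f).1 ga' := by
            rw [hc, natCast_zsmul]
            simp
          rw [e, pow_succ']
          exact mul_dvd_mul (Dvd.intro _ rfl) (hv ga')
        · refine AddSubgroup.zsmul_mem _ ?_ _
          intro ga'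
          have := dvd_of_mem_pow (p : O) S m hm _ _ (dl_pow_mem m (tau d) (h2 d) f k) ga'
          exact (pow_dvd_pow _ (by omega)).trans this
      exact hmem ga
    obtain ⟨i0, hi0⟩ := hj (mu + 1)
    have htop : Gs (r + i0) ≤ H := by
      intro b hb ga
      have hb' : b ∈ Gs i0 := hanti (by omega) hb
      have := dvd_of_mem_pow (p : O) S m hm _ _ (hi0 b hb' f) ga
      rw [← htau]
      exact this
    have hdesc : ∀ k : ℕ, Gs (r + k) ≤ H → Gs r ≤ H := by
      intro k
      induction k with
      | zero => exact id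
      | succ k ih =>
        intro h
        refine ih fun b hb => ?_
        obtain ⟨d, hd⟩ := hr (r + k) (by omega) b hb
        have := H.mul_mem (h hd) (hpow d)
        rwa [div_mul_cancel] at this
    intro ga
    obtain ⟨b, hb, h0⟩ := hz ga
    have := hdesc i0 htop hb ga
    rw [h0, zero_sub] at this
    exact (dvd_neg).1 this
  have all : ∀ mu : ℕ, mu ≤ p ^ r + 1 → ∀ ga, (p : O) ^ mu ∣ f.1 ga := by
    intro mu
    induction mu with
    | zero => intro _ ga; simp
    | succ mu ih => intro h; exact key mu (by omega) (ih (by omega))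
  exact all _ le_rfl

end Pool.Agent.MT.WInt
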