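import Pool.Agent.Lib.MP_d61fbb_ag.MW.QL
import Pool.Agent.Lib.MP_d61fbb_ag.MW.WInt

/-! The ring of theta values on a group of partners. -/

set_option autoImplicit false

noncomputable section

namespace Pool.Agent.MT

open Matrix IsLocalRing

variable [dm : Dim]

namespace RSys
variable {O k : Type} [CommRing O] [IsLocalRing O] [Field k] {p : Pr} (A : RSys O k p)

/-- `T` is another theta function with the same reduction -/
def Alt (T : W → O) : Prop := ∃ B : RSys O k p, B.S = A.S ∧ B.rd = A.rd ∧ B.ψ = A.ψ ∧ B.T = T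

/-- `F` is proportional to every eigenvector of the frame among the theta functions of `T` -/
def Prp (T : W → O) (φ : Fr p 1) (F : W → O) : Prop :=
  ∀ e ∈ PP A.ψ T 1, φ.Eg A.ψ 0 e → ∀ x y, F x * e y = F y * e x

/-- the translation by `b` is given by an isogeny that is a scalar modulo `q ^ j` -/
def Rig {G : Type} [CommGroup G] (T : G → W → O) (q : ℤ) (j : ℕ) (b : G) : Prop :=
  ∃ (δ : Fr p 1) (n : ℕ) (c : ℤ) (β : M8 AF) (N : ℕ), ¬ (p : ℕ) ∣ n ∧ A.S.Cmp β N ∧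
    (∀ x, iq p • ((c : M8 AF) + q ^ j • β) *ᵥ x = iq p • (n : ℤ) • δ.h.symm x) ∧
    ∀ γ, A.Prp (T γ) δ fun x => T (b * γ) (δ.h.symm x)

section gen
variable {G : Type} (T : G → W → O)

/-- subrings that contain the constants and the theta values and are closed under inverses -/
def Cl (S : Subring (G → O)) : Prop :=
  (∀ a, (fun _ => a) ∈ S) ∧ (∀ x, (fun γ => T γ x) ∈ S) ∧
    ∀ f ∈ S, (∀ γ, IsUnit (f γ)) → (fun γ => Ring.inverse (f γ)) ∈ S

/-- the smallest such subring -/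
def Gn : Subring (G → O) := sInf {S | Cl T S}

omit [IsLocalRing O] in
lemma Gn_cl : Cl T (Gn T) :=
  ⟨fun a => Subring.mem_sInf.2 fun _ h => h.1 a, fun x => Subring.mem_sInf.2 fun _ h => h.2.1 x,
    fun f hf hu => Subring.mem_sInf.2 fun S h => h.2.2 f (Subring.mem_sInf.1 hf S h) hu⟩

/-- evaluation at a point -/
def evG (γ : G) : Gn T →+* O := (Pi.evalRingHom _ γ).comp (Gn T).subtype

/-- the constants -/
def cst : O →+* Gn T := (Pi.constRingHom G O).codRestrict (Gn T) (Gn_cl T).1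

/-- the theta function with values in the ring -/
def thG (x : W) : Gn T := ⟨_, (Gn_cl T).2.1 x⟩

/-- the character with values in the ring -/
def psG : AddChar AF (Gn T) := (cst T).toMonoidHom.compAddChar A.ψ

variable {T}

lemma ev_PP (γ : G) {n : ℕ} {u : W → Gn T} (hu : u ∈ PP (A.psG T) (thG T) n) :
    (fun x => evG T γ (u x)) ∈ PP A.ψ (T γ) n := by
  have := map_PP (ψ' := A.ψ) (evG T γ) (fun _ => rfl) hu
  rwa [show (fun x => evG T γ (thG T x)) = T γ from rfl] at this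

lemma ev_Eg (γ : G) {n : ℕ} {u : W → Gn T} {φ : Fr p n} {y : W} (hu : φ.Eg (A.psG T) y u) :
    φ.Eg A.ψ y fun x => evG T γ (u x) :=
  Fr.Eg.map (ψ' := A.ψ) (evG T γ) (fun _ => rfl) hu

omit [IsLocalRing O] in
lemma Gn_le {S : Subring (G → O)} (h : Cl T S) : Gn T ≤ S := sInf_le h

omit [IsLocalRing O] in
lemma Gn_ext {f g : Gn T} (h : ∀ γ, evG T γ f = evG T γ g) : f = g := Subtype.ext (funext h)

omit [IsLocalRing O] in
lemma Gn_unit {f : Gn T} (hu : ∀ γ, IsUnit (f.1 γ)) : IsUnit f :=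
  IsUnit.of_mul_eq_one ⟨_, (Gn_cl T).2.2 f.1 f.2 hu⟩
    (Subtype.ext (funext fun γ => Ring.mul_inverse_cancel _ (hu γ)))

omit [IsLocalRing O] in
lemma Gn_ind {R' : Type} [CommRing R'] {u v : Gn T →+* R'} (h1 : ∀ a, u (cst T a) = v (cst T a))
    (h2 : ∀ x, u (thG T x) = v (thG T x)) (f : Gn T) : u f = v f := by
  have : Gn T ≤ (RingHom.eqLocus u v).map (Gn T).subtype := by
    refine Gn_le ⟨fun a => ⟨_, h1 a, rfl⟩, fun x => ⟨_, h2 x, rfl⟩, ?_⟩
    rintro _ ⟨g, hg, rfl⟩ hu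
    refine ⟨⟨_, (Gn_cl T).2.2 g.1 g.2 hu⟩, ?_, rfl⟩
    have e : g * ⟨_, (Gn_cl T).2.2 g.1 g.2 hu⟩ = 1 :=
      Subtype.ext (funext fun γ => Ring.mul_inverse_cancel _ (hu γ))
    have e1 := congrArg u e
    have e2 := congrArg v e
    rw [map_mul, map_one] at e1 e2
    rw [show u g = v g from hg, mul_comm] at e1
    exact left_inv_eq_right_inv e1 e2
  obtain ⟨g, hg, e⟩ := this f.2
  rw [← show g = f from Subtype.ext e]
  exact hg

variable {A} (hT : ∀ γ, A.Alt (T γ))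
include hT

lemma Gn_rd (f : Gn T) (γ γ' : G) : A.rd (f.1 γ) = A.rd (f.1 γ') := by
  have h : ∀ γ x, A.rd (T γ x) = A.S.Θ x := fun γ x => by
    obtain ⟨B, a, b, -, c⟩ := hT γ
    rw [← a, ← b, ← c, B.T_rd]
  exact Gn_ind (u := A.rd.comp (evG T γ)) (v := A.rd.comp (evG T γ')) (fun _ => rfl)
    (fun x => (h γ x).trans (h γ' x).symm) f

lemma Gn_unit_iff (f : Gn T) (γ : G) : IsUnit f ↔ A.rd (f.1 γ) ≠ 0 :=
  ⟨fun h => A.unit_iff.1 (h.map (evG T γ)),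
    fun h => Gn_unit fun γ' => A.unit_iff.2 (by rwa [Gn_rd hT f γ' γ])⟩

lemma Gn_local (γ : G) : IsLocalRing (Gn T) := by
  have : Nontrivial (Gn T) := (evG T γ).domain_nontrivial
  refine IsLocalRing.of_isUnit_or_isUnit_one_sub_self fun f => ?_
  rw [Gn_unit_iff hT _ γ, Gn_unit_iff hT _ γ]
  by_cases h : A.rd (f.1 γ) = 0
  · right
    change A.rd (1 - f.1 γ) ≠ 0
    rw [map_sub, h, map_one, sub_zero]
    exact one_ne_zero
  · exact .inl h

/-- the theta system over the ring of functions -/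
def sys [IsLocalRing (Gn T)] (o : G) : RSys (Gn T) k p where
  S := A.S
  rd := A.rd.comp (evG T o)
  surj c := (A.surj c).imp' (cst T) fun _ h => h
  ker f := by
    rw [mem_maximalIdeal, mem_nonunits_iff, Gn_unit_iff hT f o, not_not]; rfl
  ψ := A.psG T
  T := thG T
  ψ_rd := A.ψ_rd
  T_rd x := by
    obtain ⟨B, a, b, -, c⟩ := hT o
    change A.rd (T o x) = _
    rw [← a, ← b, ← c, B.T_rd]
  ψ_one a ha := Gn_ext fun _ => A.ψ_one a ha
  fac x := Gn_ext fun γ => by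
    obtain ⟨B, -, -, -, c⟩ := hT γ
    have := B.fac x
    rwa [c] at this
  per t ht := funext fun x => Gn_ext fun γ => by
    obtain ⟨B, -, -, b, c⟩ := hT γ
    have := congrFun (B.per t ht) x
    rwa [b, c] at this
  ev x := Gn_ext fun γ => by
    obtain ⟨B, -, -, -, c⟩ := hT γ
    have := B.ev x
    rwa [c] at this
  ri x y z w := Gn_ext fun γ => by
    obtain ⟨B, -, -, b, c⟩ := hT γ
    have := B.ri x y z w
    rw [b, c] at this
    rw [map_sum, map_mul, map_pow, map_ofNat]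
    exact this
  uniq n hn φ y u hu v hv eu ev x x' := Gn_ext fun γ => by
    obtain ⟨B, -, -, b, c⟩ := hT γ
    have := B.uniq n hn φ y
    rw [b, c] at this
    rw [map_mul, map_mul]
    exact this _ (A.ev_PP γ hu) _ (A.ev_PP γ hv) (A.ev_Eg γ eu) (A.ev_Eg γ ev) x x'

lemma sys_prp [IsLocalRing (Gn T)] (o : G) (δ : Fr p 1) {F : G → W → O} {y : W}
    (h0 : ∀ γ, F γ y = 1) (h : ∀ γ, A.Prp (T γ) δ (F γ)) :
    ∃ u ∈ (sys hT o).P 1, ∀ x γ, (u x).1 γ = F γ x := by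
  obtain ⟨e, he, eg, x₁, hx⟩ := (sys hT o).eig δ 0
  have he := P1_le 1 he
  have key : ∀ γ x, F γ x * (e y).1 γ = (e x).1 γ := fun γ x => by
    have := h γ _ (A.ev_PP γ he) (A.ev_Eg γ eg) x y
    rwa [h0, one_mul] at this
  obtain ⟨c, hc⟩ : IsUnit (e y) := Gn_unit fun γ =>
    isUnit_of_mul_isUnit_right (x := F γ x₁) (by rw [key]; exact hx.map (evG T γ))
  refine ⟨(c⁻¹ : (Gn T)ˣ).1 • e, Submodule.smul_mem _ _ he, fun x γ => ?_⟩
  change evG T γ (c⁻¹ : (Gn T)ˣ).1 * (e x).1 γ = _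
  rw [← key, ← hc, mul_left_comm]
  change F γ x * evG T γ ((c⁻¹ : (Gn T)ˣ).1 * c.1) = _
  rw [Units.inv_mul, map_one, mul_one]

end gen

/-- The ring: a theta system over a subring of the functions on `G`, stable under translations. -/
theorem exists_ring {G : Type} [CommGroup G] (T : G → W → O) (hT : ∀ γ, A.Alt (T γ))
    {η : I2 gg → ZMod 2} (h0 : ∀ γ, T γ (hw η) = 1)
    (h1 : ∀ b, ∃ δ : Fr p 1, ∀ γ, A.Prp (T γ) δ fun x => T (b * γ) (δ.h.symm x)) :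
    ∃ (R : Subring (G → O)) (_ : IsLocalRing R) (B : RSys R k p) (τ : G → R →+* R),
      B.S = A.S ∧ (∀ a γ, (B.ψ a).1 γ = A.ψ a) ∧ (∀ x γ, (B.T x).1 γ = T γ x) ∧
      (∀ (f : R) γ, A.rd (f.1 γ) = B.rd f) ∧ (∀ b f γ, (τ b f).1 γ = f.1 (b * γ)) ∧
      (∀ b (δ : Fr p 1), (∀ γ, A.Prp (T γ) δ fun x => T (b * γ) (δ.h.symm x)) →
        (fun x => τ b (B.T (δ.h.symm x))) ∈ B.P 1) ∧
      ∀ b (J : Ideal R), (∀ x, τ b (B.T x) - B.T x ∈ J) → ∀ f, τ b f - f ∈ J := by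
  have := Gn_local hT 1
  have h2 : ∀ b (δ : Fr p 1), (∀ γ, A.Prp (T γ) δ fun x => T (b * γ) (δ.h.symm x)) →
      ∃ u ∈ (sys hT 1).P 1, ∀ x γ, (u x).1 γ = T (b * γ) (δ.h.symm x) := fun b δ h =>
    sys_prp hT 1 δ (y := δ.h (hw η)) (fun γ => by rw [LinearEquiv.symm_apply_apply, h0]) h
  let L : G → (G → O) →+* (G → O) := fun b => RingHom.pi fun γ => Pi.evalRingHom _ (b * γ)
  have h3 : ∀ b, Gn T ≤ (Gn T).comap (L b) := fun b => by
    refine Gn_le ⟨(Gn_cl T).1, fun x => ?_, fun f hf hu => (Gn_cl T).2.2 _ hf fun γ => hu _⟩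
    obtain ⟨δ, h⟩ := h1 b
    obtain ⟨u, -, hu⟩ := h2 b δ h
    have e : (u (δ.h x)).1 = L b fun γ => T γ x := funext fun γ => by
      rw [hu, LinearEquiv.symm_apply_apply]; rfl
    rw [Subring.mem_comap, ← e]
    exact (u _).2
  refine ⟨Gn T, this, sys hT 1, fun b => (L b).restrict _ _ (h3 b), rfl, fun _ _ => rfl,
    fun _ _ => rfl, fun f γ => Gn_rd hT f γ 1, fun _ _ _ => rfl, fun b δ h => ?_,
    fun b J h f => ?_⟩
  · obtain ⟨u, hu, e⟩ := h2 b δ h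
    have e' : (fun x => (L b).restrict _ _ (h3 b) ((sys hT 1).T (δ.h.symm x))) = u :=
      funext fun x => Subtype.ext (funext fun γ => (e x γ).symm)
    rwa [← e'] at hu
  · exact Ideal.Quotient.eq.1 (Gn_ind (u := (Ideal.Quotient.mk J).comp ((L b).restrict _ _ (h3 b)))
      (v := Ideal.Quotient.mk J) (fun _ => rfl) (fun x => Ideal.Quotient.eq.2 (h x)) f)

theorem w1_ring [IsDomain O] (hp : ((p : ℕ) : O) ≠ 0)
    (hO : ∀ a ∈ maximalIdeal O, ((p : ℕ) : O) ∣ a) {G : Type} [CommGroup G] (T : G → W → O)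
    (hT : ∀ γ, A.Alt (T γ)) {η : I2 gg → ZMod 2} (h0 : ∀ γ, T γ (hw η) = 1) {q : ℤ} {b : M8 AF}
    {M : ℕ} (hq : ∀ x : W, iq p • mA A.S.π *ᵥ b *ᵥ x = iq p • q • x) (hb : A.S.Cmp b M)
    (Gs : ℕ → Subgroup G) (hanti : Antitone Gs) (rig1 : ∀ c, A.Rig T q 1 c)
    (rig : ∀ j, ∃ i, ∀ c ∈ Gs i, A.Rig T q j c) (φ : Fr p 1) :
    ∃ (E : G → W → O) (x₁ : W),
      (∀ γ, E γ ∈ PP A.ψ (T γ) 1 ∧ φ.Eg A.ψ 0 (E γ) ∧ IsUnit (E γ x₁)) ∧
      ∀ (J : Type) (P : MvPolynomial J ℤ) (z : J → W) (r : ℕ),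
        (∀ i, r ≤ i → ∀ c ∈ Gs i, ∃ d : G, c / d ^ ((p : ℕ) ^ r) ∈ Gs (i + 1)) →
        (∀ γ, ∃ c ∈ Gs r, MvPolynomial.aeval (fun j => E (c * γ) (z j)) P = 0) →
        ∀ γ, ((p : ℕ) : O) ^ ((p : ℕ) ^ r + 1) ∣ MvPolynomial.aeval (fun j => E γ (z j)) P := by
  have _ := hp
  obtain ⟨R, _, B, τ, hS, hψ, hBT, hrd, hτ, hP, hJ⟩ := A.exists_ring T hT h0 fun c =>
    let ⟨δ, _, _, _, _, _, _, _, h⟩ := rig1 c; ⟨δ, h⟩
  have hτψ : ∀ c a, τ c (B.ψ a) = B.ψ a := fun c a =>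
    Subtype.ext (funext fun γ => by rw [hτ, hψ, hψ])
  have h1 : B.T (hw η) = 1 := Subtype.ext (funext fun γ => (hBT _ γ).trans (h0 γ))
  have key : ∀ j c, A.Rig T q j c → ∀ f, τ c f - f ∈ maximalIdeal R ^ (j + 1) := by
    rintro j c ⟨δ, n, c0, β, N, hn, hβ, hs, h⟩
    rw [← hS] at hq hb hβ
    obtain ⟨N', hc⟩ := cmp_pow hq hb hβ c0 j
    refine hJ c _ (rigid δ hn hs hc h1 (T' := fun x => τ c (B.T x)) (by rw [h1, map_one])
      (fun t ht => ?_) (fun x => by rw [B.ev]) (fun x => ?_) (hP c δ h))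
    · rw [← map_Rr (τ c) (hτψ c)]
      funext x
      have := congrArg (τ c) (congrFun (B.per t ht) x)
      rwa [Pi.smul_apply, smul_eq_mul, map_mul, hτψ] at this
    · rw [← hrd _ 1, hτ, hrd, B.T_rd]
  obtain ⟨e, he, h2, x₁, h3⟩ := B.eig φ 0
  let ev : G → R →+* O := fun γ => (Pi.evalRingHom (fun _ => O) γ).comp R.subtype
  refine ⟨fun γ x => ev γ (e x), x₁, fun γ => ⟨?_, h2.map (ev γ) fun a => hψ a γ, h3.map (ev γ)⟩,
    fun J P z r hr hz => ?_⟩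
  · rw [show T γ = fun x => ev γ (B.T x) from funext fun x => (hBT x γ).symm]
    exact map_PP (ev γ) (fun a => hψ a γ) (P1_le 1 he)
  have h4 : ∀ γ, MvPolynomial.aeval (fun j => ev γ (e (z j))) P =
      (MvPolynomial.aeval (fun j => e (z j)) P : R).1 γ := fun γ =>
    (MvPolynomial.comp_aeval_apply (fun j => e (z j)) (ev γ).toIntAlgHom P).symm
  simp only [h4] at hz ⊢
  refine WInt.interp p p.2 R (maximalIdeal R) (fun f hf γ => hO _ ?_) τ hτ
    (fun c => key 1 c (rig1 c)) Gs hanti (fun j => (rig j).imp fun i h c hc f =>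
      Ideal.pow_le_pow_right (Nat.le_succ j) (key j c (h c hc) f)) r hr _ hz
  rwa [← A.ker, hrd, B.ker]

end RSys

end Pool.Agent.MT
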