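import Pool.Agent.Lib.MP_d61fbb_ag.MT.GT1

/-! Powers of a matrix that is congruent to the identity, and a fixed tensor. -/

set_option autoImplicit false

open Matrix IsUltrametricDist

namespace Pool.Agent.MT.RW

section

variable {K : Type*} [NormedField K] [IsUltrametricDist K] {l : ℕ}

theorem norm_nat (hl : l.Prime) (h1 : ‖(l : K)‖ < 1) {k : ℕ} (hk : k ≠ 0) :
    ∃ v, l ^ v ∣ k ∧ ‖(k : K)‖ = ‖(l : K)‖ ^ v := by
  obtain ⟨v, m, hm, rfl⟩ := Nat.exists_eq_pow_mul_and_not_dvd hk l hl.ne_one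
  refine ⟨v, dvd_mul_right _ _, ?_⟩
  have h2 : ‖(m : K)‖ = 1 := by
    refine le_antisymm (norm_natCast_le_one K m) (not_lt.1 fun h => ?_)
    obtain ⟨a, b, e⟩ := Nat.isCoprime_iff_coprime.2 (hl.coprime_iff_not_dvd.2 hm)
    have e' : (a : K) * l + b * m = 1 := by exact_mod_cast congrArg (Int.cast : ℤ → K) e
    have k : ∀ (z : ℤ) (x : K), ‖x‖ < 1 → ‖z * x‖ < 1 := fun z x hx => by
      rw [norm_mul]
      exact mul_lt_one_of_nonneg_of_lt_one_right (norm_intCast_le_one K z) (norm_nonneg _) hx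
    have := norm_add_le_max ((a : K) * l) (b * m)
    rw [e', norm_one] at this
    exact absurd (max_lt (k _ _ h1) (k _ _ h)) (not_lt.2 this)
  rw [Nat.cast_mul, norm_mul, h2, mul_one, Nat.cast_pow, norm_pow]

theorem norm_choose (hl : l.Prime) (h2 : l ≠ 2) (h1 : ‖(l : K)‖ < 1) (u k : ℕ) :
    ‖(u.choose (k + 2) : K)‖ * ‖(l : K)‖ ^ k ≤ ‖(u : K)‖ := by
  obtain ⟨v, hv, e⟩ := norm_nat hl h1 (k := k + 2) (by omega)
  have hk : v ≤ k := by
    by_contra h
    have h3 : 3 ≤ l := by have := hl.two_le; omega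
    have a1 := Nat.le_of_dvd (by omega) hv
    have a2 : 3 ^ (k + 1) ≤ l ^ v :=
      (Nat.pow_le_pow_left h3 _).trans (Nat.pow_le_pow_right hl.pos (by omega))
    have a3 : k < 3 ^ k := Nat.lt_pow_self (by norm_num)
    rw [pow_succ] at a2
    omega
  rcases u with _ | u
  · simp
  have e2 := congrArg (fun n : ℕ => ‖(n : K)‖) (Nat.add_one_mul_choose_eq u (k + 1))
  simp only [Nat.cast_mul, norm_mul] at e2
  calc _ ≤ ‖((u + 1).choose (k + 2) : K)‖ * ‖((k + 2 : ℕ) : K)‖ := by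
        rw [e]
        exact mul_le_mul_of_nonneg_left (pow_le_pow_of_le_one (norm_nonneg _) h1.le hk)
          (norm_nonneg _)
    _ = ‖((u + 1 : ℕ) : K)‖ * ‖(u.choose (k + 1) : K)‖ := e2.symm
    _ ≤ _ := mul_le_of_le_one_right (norm_nonneg _) (norm_natCast_le_one K _)

theorem le_of_max {a b t : ℝ} (ht : t < 1) (hb : 0 ≤ b) (h : a ≤ max b (t * a)) : a ≤ b := by
  rcases le_max_iff.1 h with h | h
  · exact h
  · by_contra k
    nlinarith

theorem sub_le_max {E : Type*} [NormedAddCommGroup E] [IsUltrametricDist E] (x y : E) :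
    ‖x - y‖ ≤ max ‖x‖ ‖y‖ := by
  simpa only [sub_eq_add_neg, norm_neg] using norm_add_le_max x (-y)

theorem tw_abs {E : Type*} [NormedAddCommGroup E] [NormedSpace K E] [IsUltrametricDist E]
    (hl : l.Prime) (h2 : l ≠ 2) (h1 : ‖(l : K)‖ < 1) {S : Module.End K E}
    (hS : ∀ x, ‖S x‖ ≤ ‖x‖) (w : E) (u : ℕ) :
    ‖(u : K)‖ * ‖(l : K)‖ * ‖S w‖ ≤ ‖((1 + (l : K) • S) ^ u) w - w‖ := by
  have key : ∀ k, ‖(S ^ (k + 1)) w‖ ≤ ‖S w‖ := fun k => by
    induction k with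
    | zero => simp
    | succ k ih => rw [pow_succ', Module.End.mul_apply]; exact (hS _).trans ih
  rcases u with _ | u
  · simp
  have e : ((1 + (l : K) • S) ^ (u + 1)) w - w = (((u + 1 : ℕ) : K) * l) • S w +
      ∑ k ∈ Finset.range u, (((u + 1).choose (k + 2) : K) * (l : K) ^ (k + 2)) •
        (S ^ (k + 2)) w := by
    rw [add_comm 1, (Commute.one_right _).add_pow, Finset.sum_range_succ', Finset.sum_range_succ']
    simp only [one_pow, mul_one, smul_pow, LinearMap.add_apply, LinearMap.sum_apply,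
      Module.End.mul_apply, Module.End.natCast_apply, LinearMap.smul_apply, map_smul,
      ← Nat.cast_smul_eq_nsmul K, smul_smul, pow_zero, Module.End.one_apply, zero_add, pow_one,
      Nat.choose_one_right, add_assoc, Nat.reduceAdd, Nat.choose_zero_right, Nat.cast_one]
    abel
  refine le_of_max h1 (norm_nonneg _) ?_
  have e2 := congrArg norm (eq_sub_of_add_eq e.symm)
  rw [norm_smul, norm_mul] at e2
  refine e2.le.trans ((sub_le_max _ _).trans (max_le_max le_rfl ?_))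
  refine norm_sum_le_of_forall_le_of_nonneg (by positivity) fun k _ => ?_
  rw [norm_smul, norm_mul, norm_pow, pow_add, ← mul_assoc]
  calc _ ≤ ‖((u + 1 : ℕ) : K)‖ * ‖(l : K)‖ ^ 2 * ‖S w‖ := by
        gcongr
        · exact norm_choose hl h2 h1 _ _
        · exact key _
    _ = _ := by ring

variable {n : Type*} [Fintype n] [DecidableEq n]

omit [DecidableEq n] in
theorem mulVec_le {S : Matrix n n K} (h : ∀ i j, ‖S i j‖ ≤ 1) (v : n → K) : ‖S *ᵥ v‖ ≤ ‖v‖ := by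
  refine (pi_norm_le_iff_of_nonneg (norm_nonneg _)).2 fun i => ?_
  refine norm_sum_le_of_forall_le_of_nonneg (norm_nonneg _) fun j _ => ?_
  rw [norm_mul]
  exact (mul_le_of_le_one_left (norm_nonneg _) (h i j)).trans (norm_le_pi_norm v j)

theorem tw_vec (hl : l.Prime) (h2 : l ≠ 2) (h0 : (l : K) ≠ 0) (h1 : ‖(l : K)‖ < 1)
    {S : Matrix n n K} (n1 : ∀ i j, ‖S i j‖ ≤ 1) (v : n → K) :
    (1 + (l : K) • S) *ᵥ v = v ∨ ∃ d : ℕ, ∀ (u e : ℕ) (G Y : Matrix n n K),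
      (1 + (l : K) • S) ^ u = G + (l : K) ^ e • Y → (∀ i j, ‖Y i j‖ ≤ 1) → G *ᵥ v = v →
        l ^ (e - d) ∣ u := by
  refine or_iff_not_imp_left.2 fun hn => ?_
  have l0 : 0 < ‖(l : K)‖ := norm_pos_iff.2 h0
  have d0 : 0 < ‖S *ᵥ v‖ := norm_pos_iff.2 fun k => hn (by
    rw [add_mulVec, smul_mulVec, k, smul_zero, add_zero, one_mulVec])
  have v0 : 0 < ‖v‖ := d0.trans_le (mulVec_le n1 v)
  obtain ⟨d, hd⟩ := exists_pow_lt_of_lt_one (div_pos (mul_pos l0 d0) v0) h1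
  rw [lt_div_iff₀ v0] at hd
  refine ⟨d, fun u e G Y hG nY hv => ?_⟩
  rcases eq_or_ne u 0 with rfl | u0
  · simp
  have main := tw_abs hl h2 h1 (S := toLin' S) (mulVec_le n1) v u
  rw [Module.End.one_eq_id, ← toLin'_one, ← map_smul, ← map_add, ← toLin'_pow, hG, toLin'_apply, toLin'_apply, add_mulVec,
    hv, add_sub_cancel_left, smul_mulVec, norm_smul, norm_pow] at main
  obtain ⟨t, ht, et⟩ := norm_nat hl h1 u0
  have fin : ‖(l : K)‖ ^ (t + d) ≤ ‖(l : K)‖ ^ e := by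
    refine le_of_mul_le_mul_right ?_ v0
    rw [pow_add, ← et, mul_assoc]
    refine (mul_le_mul_of_nonneg_left hd.le (norm_nonneg _)).trans ?_
    rw [← mul_assoc]
    exact main.trans (mul_le_mul_of_nonneg_left (mulVec_le nY v) (by positivity))
  rw [pow_le_pow_iff_right_of_lt_one₀ l0 h1] at fin
  exact (pow_dvd_pow l (by omega)).trans ht

end

variable {n κ : Type*} [Fintype n] [DecidableEq n] [Fintype κ] [DecidableEq κ]

omit [Fintype n] [DecidableEq n] [DecidableEq κ] in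
theorem tk_dvd {R : Type*} [CommRing R] {m : R} {A B : Matrix n n R} (h : ∀ i j, m ∣ (A - B) i j) :
    ∃ Y, tk κ A = tk κ B + m • Y := by
  have k : ∀ a b, m ∣ tk κ A a b - tk κ B a b := fun a b => by
    rw [← Ideal.mem_span_singleton, ← Ideal.Quotient.eq, tk_apply, tk_apply, map_prod, map_prod]
    exact Finset.prod_congr rfl fun i _ =>
      Ideal.Quotient.eq.2 (Ideal.mem_span_singleton.2 (h _ _))
  choose Y hY using k
  exact ⟨of Y, eq_add_of_sub_eq' (Matrix.ext hY)⟩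

theorem tk_pow {R : Type*} [CommRing R] (A : Matrix n n R) (u : ℕ) : tk κ (A ^ u) = tk κ A ^ u :=
  kp_pow (fun _ => A) u

/-- a matrix congruent to one fixes a tensor, or its powers stay away from the stabiliser -/
theorem tw_tk {l : ℕ} [Fact l.Prime] (h2 : l ≠ 2) {A : Matrix n n ℤ_[l]}
    (hA : ∀ i j, (l : ℤ_[l]) ∣ (A - 1) i j) (v : (κ → n) → PadicAlgCl l) :
    tk κ (A.map (algebraMap _ _)) *ᵥ v = v ∨ ∃ d : ℕ, ∀ (u e : ℕ) (k : Matrix n n ℤ_[l]),
      (∀ i j, (l : ℤ_[l]) ^ e ∣ (A ^ u - k) i j) → tk κ (k.map (algebraMap _ _)) *ᵥ v = v →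
        l ^ (e - d) ∣ u := by
  have na : ∀ x : ℤ_[l], ‖algebraMap ℤ_[l] (PadicAlgCl l) x‖ = ‖x‖ := fun x =>
    PadicAlgCl.norm_extends l x
  have nl : ‖(l : PadicAlgCl l)‖ < 1 := by
    rw [← map_natCast (algebraMap ℤ_[l] _), na, PadicInt.norm_p]
    exact inv_lt_one_of_one_lt₀ (by exact_mod_cast (Fact.out : l.Prime).one_lt)
  let ψ := (algebraMap ℤ_[l] (PadicAlgCl l)).mapMatrix (m := κ → n)
  have ψt : ∀ X : Matrix n n ℤ_[l], tk κ (X.map (algebraMap _ (PadicAlgCl l))) = ψ (tk κ X) :=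
    fun X => (tk_map _ X).symm
  have ψn : ∀ X i j, ‖ψ X i j‖ ≤ 1 := fun X i j => (na _).trans_le (PadicInt.norm_le_one _)
  have ψs : ∀ (e : ℕ) X, ψ ((l : ℤ_[l]) ^ e • X) = (l : PadicAlgCl l) ^ e • ψ X := fun e X => by
    ext a b
    simp [ψ]
  obtain ⟨S, hS⟩ := tk_dvd (κ := κ) hA
  have e1 : ψ (tk κ A) = 1 + (l : PadicAlgCl l) • ψ S := by
    rw [hS, tk_one, map_add, map_one, ← pow_one (l : ℤ_[l]), ψs, pow_one]
  rw [ψt, e1]
  refine (tw_vec Fact.out h2 (Nat.cast_ne_zero.2 (Fact.out : l.Prime).ne_zero) nl (ψn S) v).imp_right ?_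
  rintro ⟨d, hd⟩
  refine ⟨d, fun u e k h hv => ?_⟩
  obtain ⟨Y, hY⟩ := tk_dvd (κ := κ) h
  exact hd u e _ (ψ Y) (by rw [← e1, ← map_pow, ← tk_pow, hY, map_add, ψs, ψt]) (ψn Y) hv

end Pool.Agent.MT.RW
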