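import Pool.Agent.Lib.MP_d61fbb_ag.MW.R4a
import Pool.Agent.Lib.MP_d61fbb_ag.MW.RT
import Pool.Agent.Lib.MP_d61fbb_ag.MW.FK
import Pool.Agent.Lib.MP_d61fbb_ag.MW.G8
import Pool.Agent.Lib.MP_d61fbb_ag.MW.UW

/-! The monodromy group of the limit set fixes the translates of the invariant tensors. -/

set_option autoImplicit false

noncomputable section

namespace Pool.Agent.MT.R

variable [dm : Dim]

open Matrix Filter G Topology

section

variable {l : ℕ} [hl : Fact l.Prime]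

/-- integral symplectic matrices as `l`-adic matrices -/
def zl (l : ℕ) [Fact l.Prime] : G.Sp gg ℤ →* G.Sp gg ℤ_[l] where
  toFun γ := ⟨γ.1.map (↑), SymplecticGroup.map_mem γ.2 (Int.castRingHom ℤ_[l])⟩
  map_one' := Subtype.ext (map_one (Int.castRingHom ℤ_[l]).mapMatrix)
  map_mul' γ δ := Subtype.ext (map_mul (Int.castRingHom ℤ_[l]).mapMatrix γ.1 δ.1)

/-- reduction of symplectic matrices -/
def rs (l : ℕ) [Fact l.Prime] (e : ℕ) : G.Sp gg ℤ_[l] →* M8 (ZMod (l ^ e)) :=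
  (redM l e).toMonoidHom.comp (symplecticGroup (Fin gg) ℤ_[l]).subtype

theorem red_iff {e : ℕ} {A B : M8 ℤ_[l]} :
    redM l e A = redM l e B ↔ ∀ i j, (l : ℤ_[l]) ^ e ∣ (A - B) i j := by
  rw [← sub_eq_zero, ← map_sub, ← Matrix.ext_iff]
  refine forall₂_congr fun i j => ?_
  rw [← Ideal.mem_span_singleton, ← PadicInt.ker_toZModPow, RingHom.mem_ker]
  rfl

theorem red_cong {e : ℕ} {γ δ : G.Sp gg ℤ} (h : Cong ((l ^ e) ^ 2) γ.1 δ.1) :
    rs l (2 * e) (zl l γ) = rs l (2 * e) (zl l δ) := red_iff.2 fun i j => by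
  have := _root_.map_dvd (Int.castRingHom ℤ_[l]) (h i j)
  simpa [zl, ← pow_mul, mul_comm] using this

theorem exists_limit (𝒰 : Ultrafilter ℕ) (a : ℕ → G.Sp gg ℤ_[l]) : ∃ s : G.Sp gg ℤ_[l],
    Tendsto (fun j => (a j).1) 𝒰 (𝓝 s.1) ∧ ∀ e, ∀ᶠ j in 𝒰, rs l e (a j) = rs l e s := by
  have : CompactSpace (M8 ℤ_[l]) := inferInstanceAs (CompactSpace (I2 gg → I2 gg → ℤ_[l]))
  obtain ⟨s, -, hs⟩ := isCompact_univ.ultrafilter_le_nhds (𝒰.map fun j => (a j).1) (by simp)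
  have hs : Tendsto (fun j => (a j).1) 𝒰 (𝓝 s) := hs
  refine ⟨⟨s, SymplecticGroup.mem_iff.2 ((isClosed_eq
    (f := fun X : M8 ℤ_[l] => X * J (Fin gg) ℤ_[l] * Xᵀ) (by fun_prop) continuous_const).mem_of_tendsto
      hs (.of_forall fun j => SymplecticGroup.mem_iff.1 (a j).2))⟩, hs, fun e => ?_⟩
  refine (eventually_all.2 fun i => eventually_all.2 fun j => ?_).mono fun _ => red_iff.2
  have l0 : (0 : ℝ) < l := by exact_mod_cast hl.out.pos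
  filter_upwards [(tendsto_iff_norm_sub_tendsto_zero.1 (tendsto_pi_nhds.1
    (tendsto_pi_nhds.1 hs i) j)).eventually_le_const (zpow_pos l0 (-e : ℤ))] with n hn
  rwa [← Ideal.mem_span_singleton, ← PadicInt.norm_le_pow_iff_mem_span_pow]

theorem exists_order (γ : G.Sp gg ℤ) : ∃ N ≠ 0, rs l 1 (zl l (γ ^ N)) = 1 := by
  have : NeZero (l ^ 1) := ⟨pow_ne_zero _ hl.out.ne_zero⟩
  let f := ((rs l 1).comp (zl l)).toHomUnits
  obtain ⟨N, h1, h2⟩ := isOfFinOrder_iff_pow_eq_one.1 (isOfFinOrder_of_finite (f γ))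
  exact ⟨N, h1.ne', congrArg Units.val ((map_pow f γ N).trans h2)⟩

theorem card_le {e : ℕ} {X : Type} [Fintype X] (γ : X → G.Sp gg ℤ)
    (h : ∀ x y, rs l e (zl l (γ x)) = rs l e (zl l (γ y)) → x = y) :
    Fintype.card X ≤ l ^ (e * (2 * gg * (2 * gg))) := by
  have : NeZero (l ^ e) := ⟨pow_ne_zero _ hl.out.ne_zero⟩
  refine (Fintype.card_le_of_injective _ h).trans_eq ?_
  rw [show Fintype.card (M8 (ZMod (l ^ e))) = Fintype.card (I2 gg → I2 gg → ZMod (l ^ e)) from rfl]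
  simp only [Fintype.card_fun, ZMod.card, card_sum, ← pow_mul, mul_assoc]

/-- the powers of `A` stay away from the group `KK` -/
def Far (KK : Subgroup (G.Sp gg ℤ_[l])) (A : G.Sp gg ℤ_[l]) : Prop :=
  ∃ d : ℕ, ∀ (u e : ℕ), ∀ k ∈ KK, rs l e (A ^ u) = rs l e k → l ^ (e - d) ∣ u

/-- many level structures -/
theorem levels (h2 : l ≠ 2) {KK : Subgroup (G.Sp gg ℤ_[l])} {s : G.Sp gg ℤ_[l]} {γ : G.Sp gg ℤ}
    (hf : Far KK (s⁻¹ * zl l γ * s)) : ∃ c : ℕ, ∀ e, ∃ (X : Type) (_ : Fintype X) (t : X → ℕ)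
      (k : X → KK) (σ : X → G.Sp gg ℤ), l ^ e * (l ^ e * cnt KK e) ≤ c * Fintype.card X ∧
      (∀ x, σ x ∈ G.Gam gg 32 ∧ rs l (2 * e) (zl l (σ x)) = rs l (2 * e) (s * k x)) ∧
      ∀ x y, rs l (2 * e) (zl l (γ ^ t x * σ x)) = rs l (2 * e) (zl l (γ ^ t y * σ y)) → x = y := by
  obtain ⟨d, hd⟩ := hf
  refine ⟨l ^ d, fun e => ?_⟩
  have : NeZero (l ^ (2 * e)) := ⟨pow_ne_zero _ hl.out.ne_zero⟩
  let X := Set.range fun k : KK => redM l (2 * e) k.1.1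
  let _ := Fintype.ofFinite X
  choose k hk using fun x : X => x.2
  have co : (32 : ℕ).Coprime l := ((Nat.coprime_primes Nat.prime_two hl.out).2 h2.symm).pow_left 5
  choose σ' s1 s2 s3 using fun x => sp_dense_int co (gs_one_iff.2 (s * k x).2) (2 * e)
  let σ : X → G.Sp gg ℤ := fun x => ⟨σ' x, gs_one_iff.1 (s1 x)⟩
  have s4 : ∀ x, rs l (2 * e) (zl l (σ x)) = rs l (2 * e) (s * k x) := fun x => red_iff.2 (s3 x)
  refine ⟨Fin (l ^ (2 * e - d)) × X, inferInstance, fun x => x.1, fun x => k x.2,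
    fun x => σ x.2, ?_, fun x => ⟨s2 x.2, s4 x.2⟩, ?_⟩
  · rw [Fintype.card_prod, Fintype.card_fin, ← mul_assoc, ← mul_assoc, ← pow_add, ← pow_add,
      ← Nat.card_eq_fintype_card]
    exact Nat.mul_le_mul_right _ (Nat.pow_le_pow_right hl.out.pos (by omega))
  have k2 : ∀ x y : Fin (l ^ (2 * e - d)) × X, y.1 ≤ x.1 →
      rs l (2 * e) (zl l (γ ^ (x.1 : ℕ) * σ x.2)) = rs l (2 * e) (zl l (γ ^ (y.1 : ℕ) * σ y.2)) →
        x = y := by
    rintro ⟨t, x⟩ ⟨t', y⟩ h0 h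
    obtain ⟨u, hu⟩ := Nat.exists_eq_add_of_le (show (t' : ℕ) ≤ t from h0)
    have k3 : rs l (2 * e) ((s⁻¹ * zl l γ * s) ^ u) = rs l (2 * e) (k y * (k x)⁻¹ : KK) := by
      have := congrArg (fun Y => rs l (2 * e) (s⁻¹ * (zl l γ ^ (t' : ℕ))⁻¹) * Y *
        rs l (2 * e) (k x : G.Sp gg ℤ_[l])⁻¹) h
      simp only [hu, map_mul (zl l), map_mul _ (zl l _), s4] at this
      simp only [← map_mul, map_pow (zl l)] at this
      rw [show (s⁻¹ * zl l γ * s) ^ u = s⁻¹ * zl l γ ^ u * s by simpa using conj_pow (a := s⁻¹)]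
      refine (congrArg _ ?_).trans (this.trans (congrArg _ ?_))
      · group
      · push_cast; group
    obtain rfl : u = 0 := Nat.eq_zero_of_dvd_of_lt (hd u _ _ (Subtype.prop _) k3)
      (by have := t.2; omega)
    refine Prod.ext (Fin.ext hu) (Subtype.ext ?_)
    have := congrArg (· * rs l (2 * e) (k x)) k3
    simp only [pow_zero, ← map_mul, one_mul, Subgroup.coe_mul, Subgroup.coe_inv,
      inv_mul_cancel_right] at this
    exact (hk x).symm.trans (this.trans (hk y))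
  exact fun x y h => (le_total y.1 x.1).elim (k2 x y · h) fun h0 => (k2 y x h0 h.symm).symm

end

variable {τ : Matrix (Fin gg) (Fin gg) ℂ}

/-- a form that kills the orbit vanishes at the translates with the right level structure -/
theorem kill_pt (hτ : Sieg τ) {l : Pr} (h2 : (l : ℕ) ≠ 2) {P : Set (M8 ℚ_[l])} {e r D : ℕ}
    {c : Fin r → ℤ} {ch : Fin r → Fin D → I2 gg → ℤ} (h : Kill τ l P e c ch) {β : G.Sp gg ℚ}
    (hβ : ∀ p : Pr, (p : ℕ) ≠ l → ∀ a b, ‖(((β.1 - 1) a b / 2 : ℚ) : ℚ_[p])‖ ≤ 1) {H : M8 ℚ_[l]}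
    {κ k : G.Sp gg ℤ_[l]} (hκ : β.1.map (↑) * H = κ.1.map (↑)) {δ : G.Sp gg ℤ}
    (hδ : δ ∈ G.Gam gg 32) (hP : H * k.1.map (↑) ∈ P) (hk : rs l (2 * e) (zl l δ * κ * k) = 1) :
    qv c ch (Thm ((l : ℕ) ^ e) (G.mk (az δ (ac (qm β.1) (un τ))))) = 0 := by
  have m1 : un τ ∈ G.HH gg := by rwa [← mk_un hτ.symm] at hτ
  obtain ⟨H', F, f1, f2, f3, f4, f5⟩ := g8_transfer hτ h2 e (gs_one_iff.2 (zqsp δ * β).2)
    (H * k.1.map (↑)) (fun p hp => by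
      let A := (PadicInt.subring p).comap (Rat.castHom ℚ_[p])
      exact (g8_two A).mul_mem (g8_two_int A fun i j => Dvd.dvd.trans (by norm_num) (hδ i j))
        (hβ p fun h => hp (Subtype.ext h))) fun a b => by
      have e1 : (zqsp δ * β).1.map (Rat.cast : ℚ → ℚ_[l]) * (H * k.1.map (↑)) =
          (zl l δ * κ * k).1.map PadicInt.Coe.ringHom := by
        rw [Submonoid.coe_mul, show ((zqsp δ).1 * β.1).map (Rat.cast : ℚ → ℚ_[l]) = _ from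
          Matrix.map_mul (f := Rat.castHom ℚ_[l]), Matrix.mul_assoc, ← Matrix.mul_assoc (β.1.map _)]
        erw [hκ]
        rw [Submonoid.coe_mul, Submonoid.coe_mul, Matrix.map_mul, Matrix.map_mul, Matrix.mul_assoc]
        congr 1
      have := red_iff.1 (hk.trans (map_one _).symm) a b
      rw [← Ideal.mem_span_singleton, ← PadicInt.norm_le_pow_iff_mem_span_pow,
        _root_.zpow_neg, _root_.zpow_natCast, ← inv_pow] at this
      rw [e1]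
      refine le_of_eq_of_le (congrArg norm ?_) (show ‖((_ : ℤ_[l]) : ℚ_[l])‖ ≤ _ from this)
      change _ = ((((zl l δ * κ * k).1 - 1) a b : ℤ_[l]) : ℚ_[l])
      generalize (zl l δ * κ * k).1 = Y
      by_cases h : a = b <;> simp [one_apply, h]
  have := h H' F f1 (f2 ▸ hP) f3 f4
  simp only [f5] at this
  have e2 : az δ (ac (qm β.1) (un τ)) = ac (qsp (zqsp δ * β)).1 (un τ) := by
    refine (ac_mul (zsp δ) (qsp β) m1).symm.trans (congrArg (ac · _) ?_)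
    refine Eq.trans ?_ (Matrix.map_mul (f := Rat.castHom ℝ)).symm
    congr 1
  rw [e2, mk_ac, mk_un hτ.symm, ← this]
  congr 4

theorem normal_core (hτ : Sieg τ) {l : Pr} (h2 : (l : ℕ) ≠ 2) {KK : Subgroup (G.Sp gg ℤ_[l])}
    {P : Set (M8 ℚ_[l])} (hP : ∀ H ∈ P, ∀ k ∈ KK, H * k.1.map (↑) ∈ P) {m : ℕ} (hm : m ≠ 0)
    (hz : HasRel τ l KK P m) {β : ℕ → G.Sp gg ℚ}
    (hβ : ∀ j, ∀ p : Pr, (p : ℕ) ≠ l → ∀ a b, ‖((((β j).1 - 1) a b / 2 : ℚ) : ℚ_[p])‖ ≤ 1)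
    {H : ℕ → M8 ℚ_[l]} (hH : ∀ j, H j ∈ P) {κ : ℕ → G.Sp gg ℤ_[l]}
    (hκ : ∀ j, (β j).1.map (↑) * H j = (κ j).1.map (↑))
    {𝒰 : Ultrafilter ℕ} {c : ℕ → G.Sp gg ℤ} (hc : ∀ j, c j ∈ G.Gam gg 32) {G₀ : Subgroup (G.Sp gg ℤ)}
    (hG : G₀ ≤ G.Gam gg 32) {z₁ : EE gg} (hz₁ : z₁ ∈ G.HH gg)
    (acc : Acc (fun j => az (c j) (ac (qm (β j).1) (un τ))) 𝒰 G₀ z₁) {s : G.Sp gg ℤ_[l]}
    (lim : ∀ e, ∀ᶠ j in 𝒰, rs l e (zl l (c j) * κ j) = rs l e s) {γ : G.Sp gg ℤ} (hγ : γ ∈ G₀) :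
    ¬ Far KK (s⁻¹ * zl l γ * s) := by
  have m1 : un τ ∈ G.HH gg := by rwa [← mk_un hτ.symm] at hτ
  intro hf
  obtain ⟨c1, h1⟩ := levels h2 hf
  obtain ⟨C, m₀, h3⟩ := gram_th hz₁
  have l2 := l.2.two_le
  set q := 2 * (2 * gg * (2 * gg)) with hq
  have key : ∀ e, ∃ (r : ℕ) (ch : Fin r → Fin (m * (512 * (l * q + 1) * e)) → I2 gg → ℤ),
      m₀ + 1 ≤ e → (l : ℕ) ^ e * ((l : ℕ) ^ e * cnt KK e) ≤ c1 * C * r ∧
        r ≤ ((l : ℕ) ^ e) ^ q ∧ ∀ z, Kill τ l P e z ch → z = 0 := fun e => by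
    by_cases he : m₀ + 1 ≤ e
    swap
    · exact ⟨0, fun i => i.elim0, fun h => (he h).elim⟩
    obtain ⟨X, _, t, k, σ, a1, a2, a3⟩ := h1 e
    have a4 := card_le _ a3
    have a5 : ∀ x, γ ^ t x * σ x ∈ G.Gam gg 32 := fun x => mul_mem (pow_mem (hG hγ) _) (a2 x).1
    obtain ⟨r, ch, b1, b2, b3⟩ := h3 ((l : ℕ) ^ e)
      (by have := Nat.lt_pow_self (n := e) (show 1 < (l : ℕ) from l2); omega) X
      (fun x => γ ^ t x * σ x) (fun x => Gam_mono (by norm_num) (a5 x))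
      (fun x y h => a3 x y (red_cong h)) (m * (512 * (l * q + 1) * e)) (by
        have : Nat.log 2 (Fintype.card X) ≤ l * q * e := by
          refine (Nat.log_mono_right (a4.trans ((Nat.pow_le_pow_left
            (Nat.lt_two_pow_self (n := l)).le _).trans_eq (pow_mul _ _ _).symm))).trans_eq ?_
          rw [Nat.log_pow one_lt_two, hq]; ring
        refine le_trans ?_ (Nat.le_mul_of_pos_left _ (Nat.pos_of_ne_zero hm))
        rw [mul_assoc 512, add_mul]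
        omega)
    refine ⟨r, ch, fun _ => ⟨a1.trans (by rw [mul_assoc c1]; exact Nat.mul_le_mul_left _ b1),
      b2.trans (a4.trans_eq (by rw [hq]; ring)), fun z hk => b3 z fun x => ?_⟩⟩
    rw [_root_.mul_inv_rev, az_mul _ _ hz₁]
    refine acc _ _ _ z ch (by positivity) _ (inv_mem (a2 x).1) ?_ _ (inv_mem (pow_mem hγ _))
    filter_upwards [lim (2 * e)] with j hj
    rw [← az_mul _ _ (show ac (qm (β j).1) _ ∈ _ from ac_mem (qsp (β j)) m1)]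
    refine kill_pt hτ h2 hk (hβ j) (hκ j) (mul_mem (inv_mem (a2 x).1) (hc j))
      (hP _ (hH j) _ (k x).2) ?_
    rw [map_mul (zl l), mul_assoc (zl l _), mul_assoc, map_mul, map_mul, hj,
      ← map_mul _ s, ← (a2 x).2, ← map_mul, ← map_mul, inv_mul_cancel, map_one, map_one]
  choose r ch key using key
  obtain ⟨e, z, e1, e2, e3⟩ := hz ⟨m * (512 * (l * q + 1)) + c1 * C + q, m₀ + 1, _, r, ch,
    fun e _ => (mul_assoc _ _ _).ge.trans (Nat.mul_le_mul_right _ (by omega)),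
    fun e he => (key e he).1.trans (Nat.mul_le_mul_right _ (by omega)),
    fun e he => (key e he).2.1.trans (Nat.pow_le_pow_right (by positivity) (by omega))⟩
    fun e => dvd_mul_right _ _
  exact e2 ((key e e1).2.2 z e3)

end Pool.Agent.MT.R

namespace Pool.Agent.MT.U

variable [dm : Dim]

open Matrix Filter G Topology

/-- ROOM -/
theorem Cmp.room {τ : Matrix (Fin gg) (Fin gg) ℂ} (hτ : Sieg τ) {l : Pr} (h2 : (l : ℕ) ≠ 2)
    {KK : Subgroup (G.Sp gg ℤ_[l])} {P : Set (M8 ℚ_[l])}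
    (hP : ∀ H ∈ P, ∀ k ∈ KK, H * k.1.map (↑) ∈ P) {m : ℕ} (hm : m ≠ 0) (hz : HasRel τ l KK P m)
    {β : ℕ → G.Sp gg ℚ}
    (hβ : ∀ j, ∀ p : Pr, (p : ℕ) ≠ l → ∀ a b, ‖((((β j).1 - 1) a b / 2 : ℚ) : ℚ_[p])‖ ≤ 1)
    {H : ℕ → M8 ℚ_[l]} (hH : ∀ j, H j ∈ P) {κ : ℕ → G.Sp gg ℤ_[l]}
    (hκ : ∀ j, (β j).1.map (↑) * H j = (κ j).1.map (↑))
    {𝒰 : Ultrafilter ℕ} (C : Cmp (fun j => ac (qm (β j).1) (un τ)) 𝒰) :
    ∃ s : G.Sp gg ℤ_[l], Tendsto (fun j => (C.c j).1.map (↑) * (κ j).1) 𝒰 (𝓝 s.1) ∧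
      ∀ (ι : Type) [Fintype ι] [DecidableEq ι] (v : (ι → I2 gg) → PadicAlgCl l),
        (∀ k ∈ KK, tk ι (k.1.map (algebraMap _ _)) *ᵥ v = v) →
          tk ι (s.1.map (algebraMap _ _)) *ᵥ v ∈ Inv C.G₀ ι (PadicAlgCl l) := by
  obtain ⟨s, hs, lim⟩ := R.exists_limit 𝒰 fun j => R.zl l (C.c j) * κ j
  refine ⟨s, hs, fun ι _ _ v hv => inv_neat ι C.le fun γ hγ => ?_⟩
  obtain ⟨N, hN, h⟩ := R.exists_order (l := l) γ
  refine ⟨N, hN, ?_⟩
  have nf := R.normal_core hτ h2 hP hm hz hβ hH hκ C.c_mem C.le (C.sub _ C.mem₁).1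
    (R.acc_of C.y₀ C.Y C.mem₁ C.sub C.stab C.dense) lim (pow_mem hγ N)
  have e := (RW.tw_tk h2 (A := (s⁻¹ * R.zl l (γ ^ N) * s).1) (fun a b => by
    simpa using R.red_iff.1 (show R.rs l 1 (s⁻¹ * R.zl l (γ ^ N) * s) = R.rs l 1 1 by
      rw [map_mul, map_mul, h, mul_one, ← map_mul, inv_mul_cancel]) a b) v).resolve_right
        fun ⟨d, hd⟩ => nf ⟨d, fun u e k hk h' => hd u e k.1 (R.red_iff.1 h') (hv k hk)⟩
  conv_rhs => rw [← e]
  rw [mulVec_mulVec, mulVec_mulVec, ← tk_mul, ← tk_mul, ← Matrix.map_mul, ← Submonoid.coe_mul,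
    ← mul_assoc, mul_inv_cancel_left, Submonoid.coe_mul, Matrix.map_mul]
  congr 3

end Pool.Agent.MT.U
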