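import Pool.Agent.Lib.MP_d61fbb_ag.MT.EIdl

/-! Bounded representatives of ray classes, for ideals and for families of local elements. -/

set_option autoImplicit false

open NumberField Ideal

namespace Pool.Agent.MT

variable (F : Type) [Field F] [NumberField F]

theorem ray_cop {F : Type} [Field F] [NumberField F] {x : 𝓞 F} {f : ℕ}
    (h : IsCoprime x (f : 𝓞 F)) : (absNorm (span {x})).Coprime f := by
  refine Nat.coprime_of_dvd fun l hl l1 l2 => ?_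
  obtain ⟨P, p1, p2, p3⟩ := idl_exists_prime F hl l1
  obtain ⟨k, rfl⟩ := l2
  obtain ⟨u, v, e⟩ := h
  refine p1.ne_top ((eq_top_iff_one P).2 (e ▸ P.add_mem (P.mul_mem_left _
    (dvd_iff_le.1 p3 (mem_span_singleton_self x))) (P.mul_mem_left _ ?_)))
  rw [Nat.cast_mul]
  exact P.mul_mem_right _ p2

theorem ray_cop' {F : Type} [Field F] [NumberField F] {x : 𝓞 F} {f : ℕ}
    (h : (absNorm (span {x})).Coprime f) : IsCoprime x (f : 𝓞 F) := by
  obtain ⟨y, hy⟩ := mem_span_singleton.1 (absNorm_mem (span {x}))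
  have h1 := (Nat.isCoprime_iff_coprime.2 h).map (Int.castRingHom (𝓞 F))
  simp only [eq_intCast, Int.cast_natCast] at h1
  rw [hy] at h1
  exact h1.of_mul_left_left

theorem ray_inv {f : ℕ} (hf : f ≠ 0) : ∃ B : ℕ, B ≠ 0 ∧ B.Coprime f ∧ ∀ a : 𝓞 F,
    IsCoprime a (f : 𝓞 F) → ∃ b : 𝓞 F, b ∣ B ∧ (f : 𝓞 F) ∣ a * b - 1 := by
  have h0 : span {(f : 𝓞 F)} ≠ ⊥ := by
    rw [Ne, span_singleton_eq_bot]; exact Nat.cast_ne_zero.2 hf
  have : Finite (𝓞 F ⧸ span {(f : 𝓞 F)}) := finiteQuotientOfFreeOfNeBot _ h0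
  have := Fintype.ofFinite (𝓞 F ⧸ span {(f : 𝓞 F)})
  have h1 : ∀ u : 𝓞 F ⧸ span {(f : 𝓞 F)}, ∃ b : 𝓞 F, b ≠ 0 ∧ IsCoprime b (f : 𝓞 F) ∧
      ∀ a, Ideal.Quotient.mk _ a = u → IsCoprime a (f : 𝓞 F) → (f : 𝓞 F) ∣ a * b - 1 := by
    intro u
    by_cases h : ∃ a, Ideal.Quotient.mk _ a = u ∧ IsCoprime a (f : 𝓞 F)
    · obtain ⟨a₀, e₀, s, t, hst⟩ := h
      by_cases e : s = 0
      · refine ⟨1, one_ne_zero, isCoprime_one_left, fun a _ _ => ⟨t * (a - 1), ?_⟩⟩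
        rw [e] at hst
        linear_combination (1 - a) * hst
      · refine ⟨s, e, ⟨a₀, t, by linear_combination hst⟩, fun a ha _ => ?_⟩
        obtain ⟨k, hk⟩ := mem_span_singleton.1 (Ideal.Quotient.eq.1 (ha.trans e₀.symm))
        exact ⟨k * s - t, by linear_combination s * hk + hst⟩
    · exact ⟨1, one_ne_zero, isCoprime_one_left, fun a ha ha' => absurd ⟨a, ha, ha'⟩ h⟩
  choose b b0 b1 hb using h1
  refine ⟨∏ u, absNorm (span {b u}), Finset.prod_ne_zero_iff.2 fun u _ =>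
    idl_norm_ne F fun e => b0 u (span_singleton_eq_bot.1 e),
    Nat.Coprime.prod_left fun u _ => ray_cop (b1 u), fun a ha => ⟨_, ?_, hb _ a rfl ha⟩⟩
  exact (mem_span_singleton.1 (absNorm_mem (span {b _}))).trans (Nat.cast_dvd_cast
    (Finset.dvd_prod_of_mem (fun u => absNorm (span {b u})) (Finset.mem_univ _)))

/-- one integer `C` prime to `f` with `C I ≤ (x) ≤ I` and `x = 1` modulo `f` -/
theorem ray_mult {f : ℕ} (hf : f ≠ 0) : ∃ C : ℕ, C ≠ 0 ∧ C.Coprime f ∧ ∀ I : Ideal (𝓞 F), I ≠ 0 →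
    (absNorm I).Coprime f → ∃ x ∈ I, (f : 𝓞 F) ∣ x - 1 ∧ ∀ y ∈ I, x ∣ C * y := by
  obtain ⟨n, n0, nf, hn⟩ := exists_multipliers F f hf
  obtain ⟨B, B0, Bf, hB⟩ := ray_inv F hf
  refine ⟨n * B, mul_ne_zero n0 B0, nf.mul_left Bf, fun I I0 hI => ?_⟩
  obtain ⟨c, a, e, k, hk⟩ := hn I I0
  obtain ⟨b, h1, h2⟩ := hB a (ray_cop' (by
    rw [← e, map_mul]; exact hI.mul_left (nf.coprime_dvd_left ⟨k, hk⟩)))
  have h3 : a ∈ I * c := by rw [e]; exact mem_span_singleton_self a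
  refine ⟨a * b, I.mul_mem_right _ (Ideal.mul_le_left h3), h2, fun y hy => ?_⟩
  have h4 : y * absNorm c ∈ span {a} := by rw [← e]; exact mul_mem_mul hy (absNorm_mem c)
  rw [Nat.cast_mul, hk, Nat.cast_mul, mul_right_comm]
  exact mul_dvd_mul ((mem_span_singleton.1 h4).trans ⟨k, by ring⟩) h1

/-- A family `v` of local divisors of `m` is generated up to the bounded factor `C` by one global
element that is one modulo `f`. -/
theorem ray_loc {f : ℕ} (hf : f ≠ 0) : ∃ C : ℕ, C ≠ 0 ∧ C.Coprime f ∧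
    ∀ (ι : Type) (l : ι → ℕ) (A : ι → Type) [∀ i, CommRing (A i)] (j : ∀ i, 𝓞 F →+* A i),
      (∀ i, (l i).Prime) → Function.Injective l →
      (∀ i (n : ℕ), n.Coprime (l i) → IsUnit (n : A i)) → (∀ i (r : A i), IsUnit (1 + l i * r)) →
      (∀ i (r : A i) (k : ℕ), ∃ y, (l i : A i) ^ k ∣ j i y - r) →
      ∀ (m : ℕ) (v : ∀ i, A i), m ≠ 0 → m.Coprime f → (∀ i, v i ∣ m) →
        ∃ x : 𝓞 F, (f : 𝓞 F) ∣ x - 1 ∧ ∀ i, v i ∣ j i x ∧ j i x ∣ C * v i := by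
  obtain ⟨C, C0, Cf, hC⟩ := ray_mult F hf
  refine ⟨C, C0, Cf, fun ι l A _ j hp hi hu hl hd m v m0 mf hv => ?_⟩
  let I : Ideal (𝓞 F) := ⨅ i, (span {v i}).comap (j i)
  have hI : ∀ y, y ∈ I ↔ ∀ i, v i ∣ j i y := fun y => by
    simp only [I, mem_iInf, mem_comap, mem_span_singleton]
  have hm : (m : 𝓞 F) ∈ I := (hI _).2 fun i => by rw [map_natCast]; exact hv i
  obtain ⟨x, hx, h1, h2⟩ := hC I (fun e => m0 (by simpa [e] using hm)) (by
    have h3 := absNorm_dvd_absNorm_of_le ((span_singleton_le_iff_mem I).2 hm)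
    rw [absNorm_span_natCast] at h3
    exact (mf.pow_left _).coprime_dvd_left h3)
  refine ⟨x, h1, fun i => ⟨(hI x).1 hx i, ?_⟩⟩
  obtain ⟨k, m', hm', e⟩ := Nat.exists_eq_pow_mul_and_not_dvd m0 (l i) (hp i).ne_one
  obtain ⟨w, hw⟩ := (hu i m' ((hp i).coprime_iff_not_dvd.2 hm').symm).exists_right_inv
  obtain ⟨y, r, hr⟩ := hd i (w * v i) (k + 1)
  obtain ⟨t, ht⟩ := hv i
  have e1 : j i (m' * y) = v i * (1 + l i * (t * r)) := by
    rw [e, Nat.cast_mul, Nat.cast_pow] at ht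
    rw [map_mul, map_natCast, sub_eq_iff_eq_add.1 hr]
    linear_combination (l i * r : A i) * ht + v i * hw
  have hy : (m' : 𝓞 F) * y ∈ I := (hI _).2 fun i' => by
    by_cases e' : i' = i
    · subst e'; exact ⟨_, e1⟩
    · have h4 : IsUnit ((l i ^ k : ℕ) : A i') := hu i' _
        (((Nat.coprime_primes (hp i) (hp i')).2 fun e2 => e' (hi e2).symm).pow_left k)
      have h5 := hv i'
      rw [e, Nat.cast_mul, h4.dvd_mul_left] at h5
      rw [map_mul, map_natCast]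
      exact h5.mul_right _
  have h6 := map_dvd (j i) (h2 _ hy)
  rwa [map_mul, map_natCast, e1, ← mul_assoc, (hl i _).dvd_mul_right] at h6

end Pool.Agent.MT
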