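import Mathlib

/-! Independence of the local images: statements. -/

set_option autoImplicit false

namespace Pool.Agent.MT

open Matrix

/-- A ring with at most `n` maximal ideals, whose residue fields are finite of characteristic
`l`, and in which the integers prime to `l` are units. -/
structure SL3 (n l : ℕ) (R : Type) [CommRing R] where
  P : Fin n → Ideal R
  prime : ∀ i, (P i).IsPrime
  mem : ∀ i, (l : R) ∈ P i
  fin : ∀ i, Finite (R ⧸ P i)
  unit : ∀ x : R, (∀ i, x ∉ P i) → IsUnit x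

/-- upper unipotent matrices -/
def uu {R : Type} [CommRing R] (x : R) : SpecialLinearGroup (Fin 2) R :=
  ⟨!![1, x; 0, 1], by simp [det_fin_two_of]⟩

/-- lower unipotent matrices -/
def ll {R : Type} [CommRing R] (x : R) : SpecialLinearGroup (Fin 2) R :=
  ⟨!![1, 0; x, 1], by simp [det_fin_two_of]⟩

/-- generation, perfectness and normal subgroups -/
def SI_B : Prop := ∀ (n l : ℕ), l.Prime → 6 * n + 7 ≤ l → ∀ (R : Type) [CommRing R] (H : SL3 n l R),
  (∀ N : Subgroup (SpecialLinearGroup (Fin 2) R), (∀ x, uu x ∈ N) → (∀ x, ll x ∈ N) → N = ⊤) ∧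
  commutator (SpecialLinearGroup (Fin 2) R) = ⊤ ∧
  ∀ N : Subgroup (SpecialLinearGroup (Fin 2) R), N.Normal → N ≠ ⊤ →
    ∃ i, ∀ g ∈ N, g.val 1 0 ∈ H.P i ∧ g.val 0 1 ∈ H.P i ∧ g.val 0 0 - g.val 1 1 ∈ H.P i

/-- no common quotient -/
def SI_C : Prop := ∀ (n l l' : ℕ), l.Prime → l'.Prime → 6 * n + 7 ≤ l → 6 * n + 7 ≤ l' → l ≠ l' →
  ∀ (R R' : Type) [CommRing R] [CommRing R'], SL3 n l R → SL3 n l' R' →
  ∀ (Q : Type) [Group Q] (f : SpecialLinearGroup (Fin 2) R →* Q)
    (f' : SpecialLinearGroup (Fin 2) R' →* Q), f.range = f'.range → ∀ g, f g = 1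

end Pool.Agent.MT
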