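import Pool.Agent.Lib.MP_d61fbb_ag.MW.SI0
import Pool.Agent.Lib.MP_d61fbb_ag.MW.S2
import Pool.Agent.Lib.MP_d61fbb_ag.MW.DLem

/-! The étale algebras have at most `n` maximal ideals. -/

set_option autoImplicit false

noncomputable section

namespace Pool.Agent.MT

open Matrix Polynomial Module

section sig

variable {A R Ω ι : Type*} [CommRing A] [CommRing R] [Algebra A R] [Field Ω] [Algebra A Ω]
  [Fintype ι] [DecidableEq ι] (b : Basis ι A R) {σ : ι → R →ₐ[A] Ω} (hσ : Function.Injective σ)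
include hσ

theorem sia_det : (Matrix.of fun i j => σ i (b j)).det ≠ 0 := by
  intro h
  obtain ⟨v, hv, e⟩ := Matrix.exists_vecMul_eq_zero_iff.2 h
  have h1 := (linearIndependent_monoidHom R Ω).comp (fun i => (σ i : R →* Ω))
    fun _ _ hfg => hσ (AlgHom.coe_monoidHom_injective hfg)
  refine hv (funext (Fintype.linearIndependent_iff.1 h1 v (funext fun x => ?_)))
  have h2 : ∀ j, ∑ i, v i * σ i (b j) = 0 := fun j => congrFun e j
  rw [← b.sum_repr x]
  simp only [Function.comp_apply, Finset.sum_apply, Pi.smul_apply, smul_eq_mul, Pi.zero_apply,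
    MonoidHom.coe_coe, map_sum, map_smul, Finset.mul_sum, mul_smul_comm]
  rw [Finset.sum_comm]
  simp only [← Finset.smul_sum, h2, smul_zero, Finset.sum_const_zero]

include b in
theorem sia_inj (hA : Function.Injective (algebraMap A Ω)) {x : R} (hx : ∀ i, σ i x = 0) :
    x = 0 := by
  have h1 := Matrix.eq_zero_of_mulVec_eq_zero (sia_det b hσ)
    (v := fun j => algebraMap A Ω (b.repr x j)) (funext fun i => by
      rw [Pi.zero_apply, ← hx i]
      conv_rhs => rw [← b.sum_repr x]
      simp [mulVec, dotProduct, Algebra.smul_def, mul_comm])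
  refine b.ext_elem fun j => hA ?_
  simpa using congrFun h1 j

include b in
theorem sia_norm (x : R) : algebraMap A Ω (Algebra.norm A x) = ∏ i, σ i x := by
  have h1 : (Matrix.of fun i j => σ i (b j)) * (Algebra.leftMulMatrix b x).map (algebraMap A Ω) =
      diagonal (fun i => σ i x) * Matrix.of fun i j => σ i (b j) := by
    ext i j
    rw [diagonal_mul, of_apply, ← map_mul, ← b.sum_repr (x * b j)]
    simp [mul_apply, Algebra.leftMulMatrix_eq_repr_mul, Algebra.smul_def, mul_comm]
  have h2 := congrArg det h1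
  rw [det_mul, det_mul, det_diagonal, mul_comm] at h2
  rw [Algebra.norm_eq_matrix_det b, RingHom.map_det, ← mul_right_cancel₀ (sia_det b hσ) h2]
  rfl

end sig

variable [dm : Dim] {e k n l : ℕ} [Fact l.Prime] {a : M8 ℤ} (D : Blk e k n l a)

namespace Blk

/-- The tensor induction as a homomorphism. -/
def NmH : M2 D.R →* M8 ℤ_[l] where
  toFun := D.Nm
  map_one' := D.Nm_one
  map_mul' := D.Nm_mul

@[simp] theorem NmH_apply (g : M2 D.R) : D.NmH g = D.Nm g := rfl

/-- A basis of the étale algebra. -/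
def bas : Basis (Fin n) ℤ_[l] D.R :=
  (AdjoinRoot.powerBasis' D.monic).basis.reindex (finCongr D.deg)

theorem alg_norm (x : D.R) :
    algebraMap ℤ_[l] (PadicAlgCl l) (Algebra.norm ℤ_[l] x) = ∏ i, D.s i x :=
  sia_norm D.bas D.inj x

theorem eq_zero {x : D.R} (h : ∀ i, D.s i x = 0) : x = 0 := sia_inj D.bas D.inj (s2_inj l) h

theorem isUnit_of_norm {x : D.R} (h : IsUnit (Algebra.norm ℤ_[l] x)) : IsUnit x := by
  rw [Algebra.norm_eq_matrix_det D.bas, ← isUnit_iff_isUnit_det] at h
  obtain ⟨y, hy⟩ := (mulVec_surjective_iff_isUnit.2 h) (D.bas.repr 1)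
  refine IsUnit.of_mul_eq_one (D.bas.equivFun.symm y) (D.bas.repr.injective (DFunLike.coe_injective ?_))
  rw [← hy, ← Algebra.leftMulMatrix_mulVec_repr]
  congr 1
  exact D.bas.equivFun.apply_symm_apply y

end Blk

theorem sia_fin : Module.Finite ℤ_[l] (D.R) := Module.Finite.of_basis D.bas

theorem sia_le (i : Fin n) (x : D.R) : ‖D.s i x‖ ≤ 1 := by
  have := sia_fin D
  exact MW.dl_int ((Algebra.IsIntegral.isIntegral (R := ℤ_[l]) x).map (D.s i))

/-- the elements of norm less than one -/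
def siaP (i : Fin n) : Ideal (D.R) where
  carrier := {x | ‖D.s i x‖ < 1}
  zero_mem' := by simp
  add_mem' := fun {a b} ha hb => by
    simp only [Set.mem_ofPred_eq, map_add] at *
    exact (IsUltrametricDist.norm_add_le_max _ _).trans_lt (max_lt ha hb)
  smul_mem' := fun c x hx => by
    simp only [Set.mem_ofPred_eq, smul_eq_mul, map_mul, norm_mul] at *
    exact (mul_le_of_le_one_left (norm_nonneg _) (sia_le D i c)).trans_lt hx

theorem mem_siaP {i : Fin n} {x : D.R} : x ∈ siaP D i ↔ ‖D.s i x‖ < 1 := Iff.rfl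

theorem sia_one {i : Fin n} {x : D.R} (h : x ∉ siaP D i) : ‖D.s i x‖ = 1 :=
  le_antisymm (sia_le D i x) (not_lt.1 h)

theorem sia_alg (i : Fin n) {x : ℤ_[l]} (h : ‖x‖ < 1) :
    algebraMap ℤ_[l] (D.R) x ∈ siaP D i := by
  rw [mem_siaP, AlgHom.commutes, MW.dl_norm]
  exact h

theorem sia_quot (i : Fin n) : Finite (D.R ⧸ siaP D i) := by
  refine Finite.of_surjective (fun n : Fin n → ZMod l =>
    Ideal.Quotient.mk (siaP D i) (∑ j, ((n j).val : ℤ_[l]) • D.bas j)) fun y => ?_
  obtain ⟨x, rfl⟩ := Ideal.Quotient.mk_surjective y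
  refine ⟨fun j => PadicInt.toZMod (D.bas.repr x j), ?_⟩
  rw [Ideal.Quotient.eq]
  suffices h : ∑ j, (((PadicInt.toZMod (D.bas.repr x j)).val : ℤ_[l]) • D.bas j -
      D.bas.repr x j • D.bas j) ∈ siaP D i by
    rwa [Finset.sum_sub_distrib, D.bas.sum_repr x] at h
  refine Ideal.sum_mem _ fun j _ => ?_
  rw [← sub_smul, Algebra.smul_def]
  refine Ideal.mul_mem_right _ _ (sia_alg D i ?_)
  rw [← PadicInt.mem_nonunits, ← IsLocalRing.mem_maximalIdeal, ← PadicInt.ker_toZMod, RingHom.mem_ker,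
    map_sub, map_natCast, ZMod.natCast_zmod_val, sub_self]

theorem si_a : Nonempty (SL3 n l D.R) := ⟨{
  P := siaP D
  prime := fun i => ⟨fun h => by
      have : (1 : D.R) ∈ siaP D i := h ▸ Submodule.mem_top
      simp [mem_siaP] at this, fun {a b} h => by
      by_contra hn
      rw [not_or] at hn
      rw [mem_siaP, map_mul, norm_mul, sia_one D hn.1, sia_one D hn.2] at h
      simp at h⟩
  mem := fun i => by
    have := sia_alg D i (x := (l : ℤ_[l])) (by
      rw [PadicInt.norm_p]; exact inv_lt_one_of_one_lt₀ (by exact_mod_cast (Fact.out : l.Prime).one_lt))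
    rwa [map_natCast] at this
  fin := sia_quot D
  unit := fun x h => by
    refine D.isUnit_of_norm (PadicInt.isUnit_iff.2 ?_)
    rw [← MW.dl_norm, D.alg_norm, norm_prod]
    exact Finset.prod_eq_one fun i _ => sia_one D (h i) }⟩

end Pool.Agent.MT
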