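import Pool.Agent.Lib.MP_d61fbb_ag.MW.SIA
import Pool.Agent.Lib.MP_d61fbb_ag.MW.SIC

/-! Independence of the local images: the argument of Goursat and Ribet. -/

set_option autoImplicit false

noncomputable section

namespace Pool.Agent.MT

open Matrix Polynomial Subgroup
open scoped commutatorElement

theorem si_lift {C H G Q : Type} [Group C] [Group H] [Group G] [Group Q] (r : C →* G) (n : H →* G)
    (h : r.range = n.range) (π : C →* Q) (hπ : r.ker ≤ π.ker) :
    ∃ f : H →* Q, f.range = π.range := by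
  let φ : r.range →* Q := r.rangeRestrict.liftOfSurjective r.rangeRestrict_surjective
    ⟨π, by rwa [MonoidHom.ker_rangeRestrict]⟩
  have e : ∀ s, φ (r.rangeRestrict s) = π s := fun s =>
    MonoidHom.liftOfRightInverse_comp_apply _ _ _ _ s
  refine ⟨φ.comp (n.codRestrict r.range fun x => h ▸ ⟨x, rfl⟩), le_antisymm ?_ ?_⟩
  · rintro _ ⟨x, rfl⟩
    obtain ⟨s, hs⟩ := r.rangeRestrict_surjective (n.codRestrict r.range (fun x => h ▸ ⟨x, rfl⟩) x)
    exact ⟨s, by rw [← e, hs]; rfl⟩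
  · rintro _ ⟨s, rfl⟩
    obtain ⟨x, hx⟩ : r s ∈ n.range := h ▸ ⟨s, rfl⟩
    exact ⟨x, by rw [← e]; exact congrArg φ (Subtype.ext hx)⟩

theorem si_pair {C H H' G G' : Type} [Group C] [Group H] [Group H'] [Group G] [Group G']
    (r : C →* G) (r' : C →* G') (n : H →* G) (n' : H' →* G') (h : r.range = n.range)
    (h' : r'.range = n'.range) (hq : ∀ (Q : Type) [Group Q] (f : H →* Q) (f' : H' →* Q),
      f.range = f'.range → ∀ g, f g = 1) : r'.ker.map r = r.range := by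
  let π := QuotientGroup.mk' (r.ker ⊔ r'.ker)
  obtain ⟨f, hf⟩ := si_lift r n h π (by rw [QuotientGroup.ker_mk']; exact le_sup_left)
  obtain ⟨f', hf'⟩ := si_lift r' n' h' π (by rw [QuotientGroup.ker_mk']; exact le_sup_right)
  have h1 : r.ker ⊔ r'.ker = ⊤ := eq_top_iff.2 fun s _ => by
    obtain ⟨x, hx⟩ : π s ∈ f.range := hf ▸ ⟨s, rfl⟩
    exact (QuotientGroup.eq_one_iff s).1 (hx.symm.trans (hq _ f f' (hf.trans hf'.symm) x))
  rw [MonoidHom.range_eq_map, ← h1, Subgroup.map_sup, (Subgroup.map_eq_bot_iff _).2 le_rfl,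
    bot_sup_eq]

theorem si_many {C ι : Type} [Group C] {G : ι → Type} [∀ i, Group (G i)] (r : ∀ i, C →* G i)
    (T : Finset ι) (h1 : ∀ i ∈ T, ⁅(r i).range, (r i).range⁆ = (r i).range)
    (h2 : ∀ i ∈ T, ∀ j ∈ T, i ≠ j → (r j).ker.map (r i) = (r i).range) (g : ∀ i, G i)
    (hg : ∀ i ∈ T, g i ∈ (r i).range) : ∃ s, ∀ i ∈ T, r i s = g i := by
  classical
  have h3 : ∀ i ∈ T, ∀ U : Finset ι, U ⊆ T → i ∉ U → ∃ N : Subgroup C, N.Normal ∧
      N.map (r i) = (r i).range ∧ ∀ j ∈ U, N ≤ (r j).ker := fun i hi U => by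
    induction U using Finset.induction_on with
    | empty => exact fun _ _ => ⟨⊤, inferInstance, (MonoidHom.range_eq_map _).symm, by simp⟩
    | insert j U hj ih =>
      intro hU hiU
      rw [Finset.insert_subset_iff] at hU
      rw [Finset.mem_insert, not_or] at hiU
      obtain ⟨N, _, k1, k2⟩ := ih hU.2 hiU.2
      refine ⟨⁅N, (r j).ker⁆, inferInstance, by
        rw [map_commutator, k1, h2 i hi j hU.1 hiU.1, h1 i hi], fun k hk => ?_⟩
      rcases Finset.mem_insert.1 hk with rfl | hk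
      · exact commutator_le_right _ _
      · exact (commutator_le_left _ _).trans (k2 k hk)
  suffices ∀ U : Finset ι, U ⊆ T → ∃ s, ∀ i ∈ U, r i s = g i from this T le_rfl
  intro U
  induction U using Finset.induction_on with
  | empty => exact fun _ => ⟨1, by simp⟩
  | insert i U hi ih =>
    intro hU
    rw [Finset.insert_subset_iff] at hU
    obtain ⟨s, hs⟩ := ih hU.2
    obtain ⟨N, -, k1, k2⟩ := h3 i hU.1 U hU.2 hi
    obtain ⟨t, ht, e⟩ : (r i s)⁻¹ * g i ∈ N.map (r i) :=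
      k1 ▸ mul_mem (inv_mem ⟨s, rfl⟩) (hg i hU.1)
    refine ⟨s * t, fun k hk => ?_⟩
    rcases Finset.mem_insert.1 hk with rfl | hk
    · rw [map_mul, e, mul_inv_cancel_left]
    · rw [map_mul, hs k hk, k2 k hk ht, mul_one]

theorem si_cm {G : Type} [Group G] {z z' x y : G} (h : Commute z z') (h1 : Commute z x)
    (h2 : Commute z y) (h3 : Commute z' x) (h4 : Commute z' y) : ⁅z * x, z' * y⁆ = ⁅x, y⁆ := by
  have e1 : z * x * (z' * y) = x * y * (z * z') := by
    rw [h3.symm.mul_mul_mul_comm, ((h1.mul_left h3).mul_right (h2.mul_left h4)).eq]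
  have e2 : z' * y * (z * x) = y * x * (z * z') := by
    rw [h2.symm.mul_mul_mul_comm, ← h.eq, ((h2.mul_left h4).mul_right (h1.mul_left h3)).eq]
  rw [commutatorElement_def, commutatorElement_def, mul_assoc (z * x * (z' * y)), ← _root_.mul_inv_rev,
    e1, e2, _root_.mul_inv_rev, mul_assoc, mul_inv_cancel_left, _root_.mul_inv_rev, mul_assoc (x * y)]

variable [dm : Dim] {e k n : ℕ} {a : M8 ℤ}

/-- the tensor induction on the general linear group -/
def Blk.nG {l : ℕ} [Fact l.Prime] (D : Blk e k n l a) :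
    GL (Fin 2) D.R →* GL (I2 gg) ℤ_[l] := Units.map D.NmH

theorem si_comm {l : ℕ} [Fact l.Prime] (D : Blk e k n l a) {Γ : Type} [Group Γ]
    (r : Γ →* GL (I2 gg) ℤ_[l]) (h : D.Between r)
    (hp : _root_.commutator (SpecialLinearGroup (Fin 2) D.R) = ⊤) :
    (r.comp (_root_.commutator Γ).subtype).range = (D.nG.comp SpecialLinearGroup.toGL).range ∧
      ⁅(D.nG.comp SpecialLinearGroup.toGL).range, (D.nG.comp SpecialLinearGroup.toGL).range⁆ =
        (D.nG.comp SpecialLinearGroup.toGL).range := by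
  have h1 : ⁅(D.nG.comp SpecialLinearGroup.toGL).range,
      (D.nG.comp SpecialLinearGroup.toGL).range⁆ = (D.nG.comp SpecialLinearGroup.toGL).range := by
    rw [MonoidHom.range_eq_map, ← map_commutator, ← commutator_def, hp]
  refine ⟨?_, h1⟩
  rw [MonoidHom.range_comp, range_subtype, commutator_def, map_commutator, ← MonoidHom.range_eq_map]
  refine le_antisymm (commutator_le.2 ?_) (h1 ▸ commutator_mono ?_ ?_)
  · have h2 : ∀ σ, ∃ (z : GL (I2 gg) ℤ_[l]) (u : ℤ_[l][X]) (g : GL (Fin 2) D.R),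
        z.val = aeval (zM ℤ_[l] a) u ∧ r σ = z * D.nG g := fun σ => by
      obtain ⟨u, g, k1, k2, e⟩ := h.2 σ
      exact ⟨k1.unit, u, ((isUnit_iff_isUnit_det g).2 k2).unit, rfl, Units.ext e⟩
    rintro _ ⟨σ, rfl⟩ _ ⟨σ', rfl⟩
    obtain ⟨z, u, g, k1, e⟩ := h2 σ
    obtain ⟨z', u', g', k2, e'⟩ := h2 σ'
    have c1 : ∀ x, Commute z (D.nG x) := fun x => Units.ext (by
      rw [Units.val_mul, Units.val_mul, k1]; exact D.Nm_comm' u x.val)
    have c2 : ∀ x, Commute z' (D.nG x) := fun x => Units.ext (by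
      rw [Units.val_mul, Units.val_mul, k2]; exact D.Nm_comm' u' x.val)
    have c3 : Commute z z' := Units.ext (by
      rw [Units.val_mul, Units.val_mul, k1, k2, ← map_mul, ← map_mul, mul_comm])
    refine ⟨⟨(⁅g, g'⁆ : GL (Fin 2) D.R).val, ?_⟩, ?_⟩
    · rw [← GeneralLinearGroup.val_det_apply, map_commutatorElement,
        commutatorElement_eq_one_iff_mul_comm.2 (mul_comm _ _), Units.val_one]
    · refine Eq.trans (b := D.nG ⁅g, g'⁆) (congrArg D.nG (Units.ext rfl))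
        ((map_commutatorElement D.nG g g').trans ?_)
      rw [e, e']
      exact (si_cm c3 (c1 _) (c1 _) (c2 _) (c2 _)).symm
  all_goals
    rintro _ ⟨g, rfl⟩
    obtain ⟨σ, e⟩ := h.1 g
    exact ⟨σ, Units.ext e⟩

theorem si_d {Γ : Type} [Group Γ] (ρ : Γ →* ∀ l : Pr, GL (I2 gg) ℤ_[l]) (S T : Finset Pr)
    (D : ∀ l : Pr, l ∉ S → Blk e k n l a)
    (hT : ∀ l (h : l ∉ S), 6 * n + 7 ≤ (l : ℕ) ∧ (D l h).Between fun σ => ρ σ l)
    (g : ∀ l (h : l ∉ S), SpecialLinearGroup (Fin 2) (D l h).R) :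
    ∃ σ ∈ _root_.commutator Γ, ∀ l ∈ T, ∀ h : l ∉ S, (ρ σ l).val = (D l h).Nm (g l h).val := by
  classical
  let r : ∀ l : {l : Pr // l ∉ S}, Γ →* GL (I2 gg) ℤ_[l.1] := fun l =>
    (Pi.evalMonoidHom _ l.1).comp ρ
  have h1 := fun l : {l : Pr // l ∉ S} => si_comm (D l.1 l.2) (r l) (hT l.1 l.2).2
    (si_b n l.1 l.1.2 (hT l.1 l.2).1 _ (si_a (D l.1 l.2)).some).2.1
  obtain ⟨s, hs⟩ := si_many (fun l => (r l).comp (_root_.commutator Γ).subtype)
    (T.subtype (· ∉ S)) (fun l _ => by rw [(h1 l).1, (h1 l).2])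
    (fun l _ l' _ h => si_pair _ _ _ _ (h1 l).1 (h1 l').1
      (si_c si_b n l.1 l'.1 l.1.2 l'.1.2 (hT l.1 l.2).1 (hT l'.1 l'.2).1
        (fun e => h (Subtype.ext (Subtype.ext e))) _ _
        (si_a (D l.1 l.2)).some (si_a (D l'.1 l'.2)).some))
    (fun l => (D l.1 l.2).nG (SpecialLinearGroup.toGL (g l.1 l.2)))
    fun l _ => (h1 l).1 ▸ ⟨g l.1 l.2, rfl⟩
  exact ⟨s, s.2, fun l hl h => congrArg Units.val (hs ⟨l, h⟩ (Finset.mem_subtype.2 hl))⟩

end Pool.Agent.MT
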