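import Pool.Agent.Lib.MP_d61fbb_ag.MW.S1

/-! From the hypotheses prime by prime to the adelic hypotheses. -/

set_option autoImplicit false

noncomputable section

namespace Pool.Agent.MT

variable [dm : Dim]

open Matrix IntermediateField

/-- restriction of the ground field -/
def sifRes {K K' : IntermediateField ℚ ℂ} (h : K ≤ K') : (ℂ ≃ₐ[K'] ℂ) →* (ℂ ≃ₐ[K] ℂ) where
  toFun σ := { σ.toRingEquiv with commutes' := fun x => σ.commutes ⟨x, h x.2⟩ }
  map_one' := rfl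
  map_mul' _ _ := rfl

theorem sif_ee8 : ee (1 / 8) ^ 8 = 1 := by
  have : ∀ n : ℕ, ee (1 / 8) ^ n = ee (n * (1 / 8)) := fun n => by
    induction n with
    | zero => simp
    | succ n ih => rw [pow_succ, ih, ← ee_add]; congr 1; push_cast; ring
  rw [this]
  simpa using ee_int 1

theorem sif_prim : IsPrimitiveRoot (ee (1 / 8)) 8 := by
  have := Complex.isPrimitiveRoot_exp 8 (by norm_num)
  convert this using 1
  rw [ee]; congr 1; push_cast; ring

/-- commutators fix the eighth root of unity -/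
theorem sif_comm {K : IntermediateField ℚ ℂ} {σ : ℂ ≃ₐ[K] ℂ} (h : σ ∈ commutator (ℂ ≃ₐ[K] ℂ)) :
    σ (ee (1 / 8)) = ee (1 / 8) := by
  have h1 : commutator (ℂ ≃ₐ[K] ℂ) ≤ (sif_prim.autToPow K).ker :=
    Abelianization.commutator_subset_ker _
  have h2 := sif_prim.autToPow_spec K σ
  rw [MonoidHom.mem_ker.1 (h1 h)] at h2
  rw [← h2]
  exact pow_one _

theorem sif_lift {K : IntermediateField ℚ ℂ} {σ : ℂ ≃ₐ[K] ℂ} {z : ℂ} (h : σ z = z) :
    ∃ s : ℂ ≃ₐ[(K ⊔ ℚ⟮z⟯ : IntermediateField ℚ ℂ)] ℂ, sifRes le_sup_left s = σ := by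
  have h1 : ∀ x ∈ (K ⊔ ℚ⟮z⟯ : IntermediateField ℚ ℂ), σ x = x := by
    let F : IntermediateField ℚ ℂ :=
      (RingHom.eqLocusField (σ : ℂ →+* ℂ) (RingHom.id ℂ)).toIntermediateField fun q => by
        simp
    have : K ⊔ ℚ⟮z⟯ ≤ F := sup_le (fun x hx => σ.commutes ⟨x, hx⟩) (adjoin_simple_le_iff.2 h)
    exact fun x hx => this hx
  exact ⟨{ σ.toRingEquiv with commutes' := fun x => h1 x x.2 }, rfl⟩

theorem sif_fin {K : IntermediateField ℚ ℂ} (hK : FiniteDimensional ℚ K) :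
    FiniteDimensional ℚ (K ⊔ ℚ⟮ee (1 / 8)⟯ : IntermediateField ℚ ℂ) := by
  have : FiniteDimensional ℚ ℚ⟮ee (1 / 8)⟯ :=
    adjoin.finiteDimensional (sif_prim.isIntegral (by norm_num)).tower_top
  infer_instance

end Pool.Agent.MT
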