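import Mathlib

/-! Balanced, large elements of an order with real places: 4 mu is a sum of a fixed number of squares. -/

namespace Pool.Agent.MT.MW

theorem sq_core {o ι J : Type*} [CommRing o] [Fintype ι] [Nonempty ι] [Fintype J]
    (σ : ι → o →+* ℝ) (w : J → o) (c : ℝ) (hc : 0 ≤ c)
    (hcov : ∀ v : ι → ℝ, ∃ y : o, ∀ i, |σ i y - v i| ≤ c)
    (hco : ∀ (z : o) (B : ℝ), (∀ i, |σ i z| ≤ B) →
      ∃ n : J → ℤ, z = ∑ j, n j • w j ∧ ∀ j, |(n j : ℝ)| ≤ c * B) (C : ℝ) :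
    ∃ K : ℝ, ∀ μ : o, (∀ i, K ≤ σ i μ) → (∀ i j, σ i μ ≤ C * σ j μ) →
      ∃ b : Unit ⊕ J ⊕ J ⊕ Fin 4 → o, 4 * μ = ∑ i, b i ^ 2 := by
  classical
  obtain ⟨k, hk⟩ := exists_nat_ge (16 * Fintype.card J * c ^ 4 * |C| + 1)
  have hA : 0 ≤ 16 * (Fintype.card J : ℝ) * c ^ 4 * |C| := by positivity
  have hk1 : (1 : ℝ) ≤ k := by linarith
  have hk0 : (0 : ℤ) < k := by exact_mod_cast (show (0 : ℝ) < k by linarith)
  set W : o := ((k : o) ^ 2 + 1) * ∑ j, w j ^ 2 with hW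
  set S : ℝ := ∑ i, |σ i W| with hS
  have hSi : ∀ i, |σ i W| ≤ S := fun i =>
    Finset.single_le_sum (f := fun i => |σ i W|) (fun _ _ => abs_nonneg _) (Finset.mem_univ i)
  have hS0 : 0 ≤ S := Finset.sum_nonneg fun _ _ => abs_nonneg _
  have hWi : ∀ i, 0 ≤ σ i W := fun i => by
    simp only [hW, map_mul, map_add, map_pow, map_sum, map_one]; positivity
  set E : ℝ := Fintype.card J * (4 * c ^ 6 + 2 + (k : ℝ) ^ 2) with hE
  have hE0 : 0 ≤ E := by positivity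
  refine ⟨2 * S + E + 4, fun μ hK hC => ?_⟩
  obtain ⟨i0, -, hi0⟩ := Finset.exists_min_image Finset.univ (fun i => σ i μ) Finset.univ_nonempty
  set T : ℝ := σ i0 μ with hT
  have hTK : 2 * S + E + 4 ≤ T := hK i0
  have hT0 : 0 ≤ T := by linarith
  set m : ℕ := ⌊T / 2⌋₊ with hm
  have hm1 : (m : ℝ) ≤ T / 2 := Nat.floor_le (by linarith)
  have hm2 : T / 2 < m + 1 := Nat.lt_floor_add_one _
  have hm0 : (0 : ℝ) ≤ m := Nat.cast_nonneg _
  have hr0 : ∀ i, 0 ≤ σ i μ - σ i W - m := fun i => by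
    have h1 := hi0 i (Finset.mem_univ i)
    have h2 := (abs_le.1 (hSi i)).2
    linarith
  have hr1 : ∀ i, σ i μ - σ i W - m ≤ |C| * T := fun i => by
    have h1 := hC i i0
    have h2 := hWi i
    have h3 : C * T ≤ |C| * T := mul_le_mul_of_nonneg_right (le_abs_self C) hT0
    linarith
  obtain ⟨y, hy⟩ := hcov fun i => √(σ i μ - σ i W - m)
  set R : ℝ := √(|C| * T) with hR
  have hR0 : 0 ≤ R := Real.sqrt_nonneg _
  have hR2 : R ^ 2 = |C| * T := Real.sq_sqrt (by positivity)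
  obtain ⟨z, hz, hzb⟩ := hco (μ - W - m - y ^ 2) (c * (2 * R + c)) fun i => by
    have h1 := hy i
    have h2 : √(σ i μ - σ i W - m) ≤ R := Real.sqrt_le_sqrt (hr1 i)
    have h3 := Real.sqrt_nonneg (σ i μ - σ i W - m)
    have h4 := Real.sq_sqrt (hr0 i)
    generalize √(σ i μ - σ i W - m) = v at h1 h2 h3 h4
    have h5 : σ i (μ - W - m - y ^ 2) = -((σ i y - v) * ((σ i y - v) + 2 * v)) := by
      simp only [map_sub, map_pow, map_natCast]; linarith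
    rw [h5, abs_neg, abs_mul]
    refine mul_le_mul h1 ((abs_add_le _ _).trans ?_) (abs_nonneg _) hc
    rw [abs_of_nonneg (by linarith : 0 ≤ 2 * v)]
    linarith
  have hn : ∀ j, (k : ℝ) ^ 2 * ((z j / k : ℤ) : ℝ) ^ 2 ≤
      16 * c ^ 4 * (|C| * T) + 4 * c ^ 6 + 2 * (k : ℝ) ^ 2 ∧ ((z j % k : ℤ) : ℝ) ^ 2 ≤ (k : ℝ) ^ 2 := by
    intro j
    have h1 : (k : ℝ) * ((z j / k : ℤ) : ℝ) + ((z j % k : ℤ) : ℝ) = z j := by
      exact_mod_cast Int.mul_ediv_add_emod (z j) k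
    have h2 : (0 : ℝ) ≤ ((z j % k : ℤ) : ℝ) := by exact_mod_cast Int.emod_nonneg _ hk0.ne'
    have h3 : ((z j % k : ℤ) : ℝ) ≤ k := by exact_mod_cast (Int.emod_lt_of_pos _ hk0).le
    have h4 : (z j : ℝ) ^ 2 ≤ (c * (c * (2 * R + c))) ^ 2 := by
      rw [← sq_abs]; exact pow_le_pow_left₀ (abs_nonneg _) (hzb j) 2
    have h5 : ((z j % k : ℤ) : ℝ) ^ 2 ≤ (k : ℝ) ^ 2 := pow_le_pow_left₀ h2 h3 2
    refine ⟨?_, h5⟩
    generalize ((z j / k : ℤ) : ℝ) = a at *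
    generalize ((z j % k : ℤ) : ℝ) = r at *
    have h6 : (c * (c * (2 * R + c))) ^ 2 ≤ c ^ 4 * (8 * R ^ 2 + 2 * c ^ 2) := by
      have : (2 * R + c) ^ 2 ≤ 8 * R ^ 2 + 2 * c ^ 2 := by nlinarith [sq_nonneg (2 * R - c)]
      calc (c * (c * (2 * R + c))) ^ 2 = c ^ 4 * (2 * R + c) ^ 2 := by ring
        _ ≤ _ := by gcongr
    have h7 : (k : ℝ) ^ 2 * a ^ 2 = ((z j : ℝ) - r) ^ 2 := by rw [← h1]; ring
    rw [h7, ← hR2]
    nlinarith [sq_nonneg ((z j : ℝ) + r)]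
  have hk2 : (1 : ℝ) ≤ (k : ℝ) ^ 2 := one_le_pow₀ hk1
  have hn2 : ∀ j, (Fintype.card J : ℝ) * (((z j / k : ℤ) : ℝ) ^ 2 + ((z j % k : ℤ) : ℝ) ^ 2) ≤
      T + E := by
    intro j
    obtain ⟨h1, h2⟩ := hn j
    have hJ : (0 : ℝ) ≤ Fintype.card J := Nat.cast_nonneg _
    generalize ((z j / k : ℤ) : ℝ) = a at *
    generalize ((z j % k : ℤ) : ℝ) = r at *
    have h3 : (k : ℝ) ^ 2 * (Fintype.card J * a ^ 2) ≤
        (k : ℝ) ^ 2 * (T + Fintype.card J * (4 * c ^ 6 + 2)) := by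
      have h4 : 16 * (Fintype.card J : ℝ) * c ^ 4 * |C| ≤ (k : ℝ) ^ 2 := by nlinarith
      have h5 := mul_le_mul_of_nonneg_left h1 hJ
      have h6 := mul_le_mul_of_nonneg_right h4 hT0
      have h7 : (Fintype.card J : ℝ) * (4 * c ^ 6) ≤ (k : ℝ) ^ 2 * (Fintype.card J * (4 * c ^ 6)) :=
        le_mul_of_one_le_left (by positivity) hk2
      linarith
    have h8 := le_of_mul_le_mul_left h3 (by linarith)
    have h9 := mul_le_mul_of_nonneg_left h2 hJ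
    rw [hE]
    linarith
  have hsum : ∑ j, (((z j / k : ℤ) : ℝ) ^ 2 + ((z j % k : ℤ) : ℝ) ^ 2) ≤ T + E := by
    rcases isEmpty_or_nonempty J with hJ | hJ
    · simp only [Finset.univ_eq_empty, Finset.sum_empty]; linarith
    · have hJ0 : (0 : ℝ) < Fintype.card J := by exact_mod_cast Fintype.card_pos
      refine le_of_mul_le_mul_left ?_ hJ0
      rw [Finset.mul_sum]
      refine (Finset.sum_le_sum fun j _ => hn2 j).trans ?_
      rw [Finset.sum_const, nsmul_eq_mul, Finset.card_univ]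
  have hM : (0 : ℤ) ≤ 4 * m - ∑ j, ((z j / k) ^ 2 + (z j % k) ^ 2) := by
    have : (0 : ℝ) ≤ 4 * m - ∑ j, (((z j / k : ℤ) : ℝ) ^ 2 + ((z j % k : ℤ) : ℝ) ^ 2) := by
      linarith
    exact_mod_cast this
  obtain ⟨M, hM'⟩ := Int.eq_ofNat_of_zero_le hM
  obtain ⟨a1, a2, a3, a4, ha⟩ := Nat.sum_four_squares M
  refine ⟨Sum.elim (fun _ => 2 * y) (Sum.elim (fun j => 2 * k * w j + (z j / k : ℤ))
    (Sum.elim (fun j => 2 * w j + (z j % k : ℤ)) ![a1, a2, a3, a4])), ?_⟩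
  have e1 : (4 * m : o) - ∑ j, (((z j / k : ℤ) : o) ^ 2 + ((z j % k : ℤ) : o) ^ 2) =
      (a1 : o) ^ 2 + (a2 : o) ^ 2 + (a3 : o) ^ 2 + (a4 : o) ^ 2 := by
    have h1 := congrArg (Int.cast : ℤ → o) hM'
    have h2 := congrArg (Nat.cast : ℕ → o) ha
    simp only [Int.cast_sub, Int.cast_mul, Int.cast_sum, Int.cast_add, Int.cast_pow,
      Int.cast_natCast, Int.cast_ofNat] at h1
    simp only [Nat.cast_add, Nat.cast_pow] at h2
    rw [h1, h2]
  have e2 : ∑ j, (2 * k * w j + (z j / k : ℤ) : o) ^ 2 + ∑ j, (2 * w j + (z j % k : ℤ) : o) ^ 2 =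
      4 * W + 4 * ∑ j, z j • w j +
        ∑ j, (((z j / k : ℤ) : o) ^ 2 + ((z j % k : ℤ) : o) ^ 2) := by
    rw [hW, Finset.mul_sum, Finset.mul_sum, Finset.mul_sum, ← Finset.sum_add_distrib,
      ← Finset.sum_add_distrib, ← Finset.sum_add_distrib]
    refine Finset.sum_congr rfl fun j _ => ?_
    have h1 : (k : o) * ((z j / k : ℤ) : o) + ((z j % k : ℤ) : o) = z j := by
      exact_mod_cast congrArg (Int.cast : ℤ → o) (Int.mul_ediv_add_emod (z j) k)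
    rw [zsmul_eq_mul, ← h1]; ring
  simp only [Fintype.sum_sum_type, Sum.elim_inl, Sum.elim_inr, Fin.sum_univ_four,
    Finset.univ_unique, Finset.sum_singleton, Matrix.cons_val_zero, Matrix.cons_val_one,
    Matrix.cons_val]
  linear_combination -e2 + 4 * hz + e1

end Pool.Agent.MT.MW
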