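import Pool.Agent.Lib.MP_d61fbb_ag.MW.SQ0

/-! Orders of totally real fields: basis, covering constant, sums of squares. -/

open NumberField Module

namespace Pool.Agent.MT.MW

variable {F : Type*} [Field F] [NumberField F]

/-- a subring of integral elements that has full rank -/
structure IsOrd (o : Subring F) : Prop where
  int : ∀ x ∈ o, IsIntegral ℤ x
  full : ∀ x : F, ∃ N : ℕ, N ≠ 0 ∧ (N : F) * x ∈ o

theorem fin_of_int {o : Subring F} (h : ∀ x ∈ o, IsIntegral ℤ x) : Module.Finite ℤ o := by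
  let f : o →ₗ[ℤ] 𝓞 F :=
    { toFun := fun x => ⟨x, h x x.2⟩
      map_add' := fun _ _ => rfl
      map_smul' := fun _ _ => rfl }
  exact Module.Finite.of_injective f fun x y e => Subtype.ext (congrArg (fun t : 𝓞 F => (t : F)) e)

theorem IsOrd.basis {o : Subring F} (h : IsOrd o) :
    ∃ (n : ℕ) (b : Basis (Fin n) ℤ o) (B : Basis (Fin n) ℚ F), ∀ j, B j = b j := by
  have := fin_of_int h.int
  have : Module.Free ℤ o := Module.free_of_finite_type_torsion_free'
  let b := Module.finBasis ℤ o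
  have li : LinearIndependent ℤ fun j => (b j : F) :=
    b.linearIndependent.map' (o.subtype.toIntAlgHom.toLinearMap)
      (LinearMap.ker_eq_bot.2 Subtype.val_injective)
  have lq : LinearIndependent ℚ fun j => (b j : F) :=
    (LinearIndependent.iff_fractionRing ℤ ℚ).1 li
  have sp : ⊤ ≤ Submodule.span ℚ (Set.range fun j => (b j : F)) := by
    intro x _
    obtain ⟨N, hN, hx⟩ := h.full x
    have e := congrArg Subtype.val (b.sum_repr ⟨_, hx⟩)
    have e2 : x = (N : ℚ)⁻¹ • ((N : F) * x) := by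
      have : (N : F) ≠ 0 := Nat.cast_ne_zero.2 hN
      rw [Rat.smul_def]; push_cast; field_simp
    rw [e2]
    refine Submodule.smul_mem _ _ ?_
    simp only [AddSubmonoidClass.coe_finsetSum] at e
    rw [← e]
    exact Submodule.sum_mem _ fun j _ =>
      zsmul_mem (Submodule.subset_span (Set.mem_range_self j)) _
  exact ⟨_, b, Basis.mk lq sp, fun j => Basis.mk_apply lq sp j⟩

theorem IsOrd.exists_mul {o : Subring F} (h : IsOrd o) :
    ∃ N : ℕ, N ≠ 0 ∧ ∀ x : F, IsIntegral ℤ x → (N : F) * x ∈ o := by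
  classical
  choose N hN hx using h.full
  refine ⟨∏ i, N (integralBasis F i), Finset.prod_ne_zero_iff.2 fun i _ => hN _, fun x hx' => ?_⟩
  have h1 : x ∈ Submodule.span ℤ (Set.range (integralBasis F)) :=
    (mem_span_integralBasis F).2 ⟨⟨x, hx'⟩, rfl⟩
  induction h1 using Submodule.span_induction with
  | mem x hx'' =>
    obtain ⟨i, rfl⟩ := hx''
    rw [← Finset.mul_prod_erase _ _ (Finset.mem_univ i), Nat.cast_mul, mul_comm (N _ : F), mul_assoc]
    exact o.mul_mem (natCast_mem o _) (hx _)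
  | zero => simp
  | add x y hx1 hy1 ihx ihy =>
    rw [mul_add]
    obtain ⟨a, rfl⟩ := (mem_span_integralBasis F).1 hx1
    obtain ⟨b, rfl⟩ := (mem_span_integralBasis F).1 hy1
    exact o.add_mem (ihx a.isIntegral_coe) (ihy b.isIntegral_coe)
  | smul a x hx1 ih =>
    obtain ⟨b, rfl⟩ := (mem_span_integralBasis F).1 hx1
    rw [mul_smul_comm]
    exact zsmul_mem (ih b.isIntegral_coe) a

theorem card_real [IsTotallyReal F] : Fintype.card (F →+* ℝ) = finrank ℚ F := by
  rw [← Embeddings.card F ℂ]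
  refine Fintype.card_congr (Equiv.ofBijective (fun σ => Complex.ofRealHom.comp σ) ⟨?_, ?_⟩)
  · intro σ τ e
    ext x
    exact Complex.ofReal_injective (DFunLike.congr_fun e x)
  · intro φ
    refine ⟨(IsTotallyReal.complexEmbedding_isReal φ).embedding, ?_⟩
    ext x
    exact (IsTotallyReal.complexEmbedding_isReal φ).coe_embedding_apply x

theorem real_frame [IsTotallyReal F] {n : ℕ} (B : Basis (Fin n) ℚ F) :
    ∃ L : Fin n → (F →+* ℝ) → ℝ, (∀ j j', ∑ σ, L j σ * σ (B j') = if j = j' then 1 else 0) ∧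
      ∀ v : (F →+* ℝ) → ℝ, ∀ σ : F →+* ℝ, ∑ j, (∑ τ, L j τ * v τ) * σ (B j) = v σ := by
  classical
  have hc : Fintype.card (F →+* ℝ) = Fintype.card (Fin n) := by
    rw [card_real, finrank_eq_card_basis B]
  let e : Fin n ≃ (F →+* ℝ) := (Fintype.equivOfCardEq hc).symm
  let M : Matrix (Fin n) (Fin n) ℝ := Matrix.of fun i j => e i (B j)
  have li : LinearIndependent ℝ M.row := by
    rw [Fintype.linearIndependent_iff]
    intro g hg
    have h1 := (linearIndependent_monoidHom F ℝ).comp (fun i => ((e i : F →+* ℝ) : F →* ℝ))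
      fun i j hij => e.injective (RingHom.coe_monoidHom_injective hij)
    refine Fintype.linearIndependent_iff.1 h1 g ?_
    funext x
    have h2 : ∀ j, ∑ i, g i * e i (B j) = 0 := fun j => by
      simpa [M, Matrix.row] using congrFun hg j
    simp only [Finset.sum_apply, Pi.smul_apply, smul_eq_mul, Function.comp, Pi.zero_apply,
      MonoidHom.coe_coe]
    rw [← B.sum_repr x]
    simp only [map_sum, Rat.smul_def, map_mul, map_ratCast, Finset.mul_sum]
    rw [Finset.sum_comm]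
    refine Finset.sum_eq_zero fun j _ => ?_
    simp only [mul_left_comm (g _), ← Finset.mul_sum, h2, mul_zero]
  have hU : IsUnit M.det := (Matrix.isUnit_iff_isUnit_det M).1
    (Matrix.linearIndependent_rows_iff_isUnit.1 li)
  refine ⟨fun j σ => M⁻¹ j (e.symm σ), fun j j' => ?_, fun v σ => ?_⟩
  · have h1 := congrFun (congrFun (Matrix.nonsing_inv_mul M hU) j) j'
    rw [Matrix.mul_apply, Matrix.one_apply] at h1
    rw [← h1, ← e.sum_comp]
    simp [M]
  · obtain ⟨i, rfl⟩ := e.surjective σ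
    have h1 : M.mulVec (M⁻¹.mulVec fun i => v (e i)) = fun i => v (e i) := by
      rw [Matrix.mulVec_mulVec, Matrix.mul_nonsing_inv M hU, Matrix.one_mulVec]
    rw [← congrFun h1 i]
    simp only [Matrix.mulVec, dotProduct, ← e.sum_comp, Equiv.symm_apply_apply, M,
      Matrix.of_apply]
    exact Finset.sum_congr rfl fun j _ => mul_comm _ _

/-- covering constant and coordinate bound of an order in a totally real field -/
theorem IsOrd.frame [IsTotallyReal F] {o : Subring F} (h : IsOrd o) :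
    ∃ (n : ℕ) (w : Fin n → o) (c : ℝ), finrank ℚ F = n ∧ 0 ≤ c ∧
      (∀ v : (F →+* ℝ) → ℝ, ∃ y : o, ∀ σ : F →+* ℝ, |σ y - v σ| ≤ c) ∧
      ∀ (z : o) (B : ℝ), (∀ σ : F →+* ℝ, |σ z| ≤ B) →
        ∃ m : Fin n → ℤ, z = ∑ j, m j • w j ∧ ∀ j, |(m j : ℝ)| ≤ c * B := by
  obtain ⟨n, b, B, hB⟩ := h.basis
  obtain ⟨L, hL1, hL2⟩ := real_frame B
  have hmap : ∀ (σ : F →+* ℝ) (m : Fin n → ℤ),
      σ ((∑ j, m j • b j : o) : F) = ∑ j, (m j : ℝ) * σ (B j) := fun σ m => by
    simp [hB]
  set c1 : ℝ := ∑ σ : F →+* ℝ, ∑ j, |σ (B j)|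
  set c2 : ℝ := ∑ j, ∑ σ, |L j σ|
  have h1 : 0 ≤ c1 := by positivity
  have h2 : 0 ≤ c2 := by positivity
  refine ⟨n, b, c1 + c2, by rw [finrank_eq_card_basis B, Fintype.card_fin], by positivity, fun v => ?_, fun z R hz => ?_⟩
  · refine ⟨∑ j, round (∑ τ, L j τ * v τ) • b j, fun σ => ?_⟩
    rw [hmap, ← hL2 v σ, ← Finset.sum_sub_distrib]
    refine (Finset.abs_sum_le_sum_abs _ _).trans (le_trans ?_ (le_add_of_nonneg_right h2))
    refine le_trans (Finset.sum_le_sum fun j _ => ?_)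
      (Finset.single_le_sum (f := fun σ : F →+* ℝ => ∑ j, |σ (B j)|) (fun _ _ => by positivity)
        (Finset.mem_univ σ))
    rw [← sub_mul, abs_mul, abs_sub_comm]
    exact mul_le_of_le_one_left (abs_nonneg _) ((abs_sub_round _).trans (by norm_num))
  · refine ⟨b.repr z, (b.sum_repr z).symm, fun j => ?_⟩
    have h3 : ((b.repr z j : ℤ) : ℝ) = ∑ σ, L j σ * σ z := by
      conv_rhs => rw [← b.sum_repr z]
      simp only [hmap, Finset.mul_sum]
      rw [Finset.sum_comm]
      simp only [mul_left_comm (L j _), ← Finset.mul_sum, hL1]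
      simp
    obtain ⟨σ0⟩ : Nonempty (F →+* ℝ) :=
      Fintype.card_pos_iff.1 (by rw [card_real]; exact finrank_pos)
    have hR : 0 ≤ R := (abs_nonneg _).trans (hz σ0)
    rw [h3]
    refine (Finset.abs_sum_le_sum_abs _ _).trans ?_
    calc ∑ σ, |L j σ * σ z| ≤ ∑ σ, |L j σ| * R := Finset.sum_le_sum fun σ _ => by
          rw [abs_mul]; exact mul_le_mul_of_nonneg_left (hz σ) (abs_nonneg _)
      _ = (∑ σ, |L j σ|) * R := (Finset.sum_mul _ _ _).symm
      _ ≤ (c1 + c2) * R := mul_le_mul_of_nonneg_right (le_trans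
          (Finset.single_le_sum (f := fun j => ∑ σ, |L j σ|) (fun _ _ => by positivity)
            (Finset.mem_univ j)) (le_add_of_nonneg_left h1)) hR

/-- SQ: one number N of squares serves for every balance constant C -/
theorem IsOrd.sq [IsTotallyReal F] {o : Subring F} (h : IsOrd o) {N : ℕ}
    (hN : 2 * finrank ℚ F + 5 ≤ N) (C : ℝ) : ∃ K : ℝ, ∀ μ ∈ o, (∀ σ : F →+* ℝ, K ≤ σ μ) →
      (∀ σ τ : F →+* ℝ, σ μ ≤ C * τ μ) →
      ∃ b : Fin N → F, (∀ i, b i ∈ o) ∧ 4 * μ = ∑ i, b i ^ 2 := by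
  obtain ⟨n, w, c, hn, hc, h1, h2⟩ := h.frame
  have : Nonempty (F →+* ℝ) := Fintype.card_pos_iff.1 (by rw [card_real]; exact finrank_pos)
  obtain ⟨r, rfl⟩ := Nat.exists_eq_add_of_le hN
  obtain ⟨K, hK⟩ := sq_core (fun σ : F →+* ℝ => σ.comp o.subtype) w c hc h1 h2 C
  refine ⟨K, fun μ hμ h3 h4 => ?_⟩
  obtain ⟨b, hb⟩ := hK ⟨μ, hμ⟩ h3 h4
  let e : (Unit ⊕ Fin n ⊕ Fin n ⊕ Fin 4) ≃ Fin (2 * finrank ℚ F + 5) :=
    Fintype.equivFinOfCardEq (by simp [hn]; omega)
  refine ⟨Fin.append (fun i => b (e.symm i)) fun _ => 0, fun i => ?_, ?_⟩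
  · refine Fin.addCases (fun i => ?_) (fun i => ?_) i
    · rw [Fin.append_left]; exact (b _).2
    · rw [Fin.append_right]; exact o.zero_mem
  · rw [Fin.sum_univ_add]
    simp only [Fin.append_left, Fin.append_right]
    rw [e.symm.sum_comp fun i => (b i : F) ^ 2]
    have h5 := congrArg o.subtype hb
    rw [map_mul, map_ofNat, map_sum] at h5
    simpa only [map_pow, Subring.subtype_apply, ne_eq, OfNat.ofNat_ne_zero, not_false_eq_true,
      zero_pow, Finset.sum_const_zero, add_zero] using h5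

end Pool.Agent.MT.MW
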