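import Pool.Agent.Lib.MP_d61fbb_ag.MN.Sn
import Pool.Agent.Lib.MP_d61fbb_ag.MW.S1

/-! The bridge from the definitions of the final statement to those of the proof. -/

set_option autoImplicit false

noncomputable section

namespace Pool.Agent.MT

variable [dm : Dim]

open Matrix Sum

theorem stc_sieg {τ : Matrix (Fin gg) (Fin gg) ℂ} (h : Sn.Siegel τ) : Sieg τ :=
  ⟨h.1, fun y hy => by
    have := h.2.dotProduct_mulVec_pos hy
    refine this.trans_eq ?_
    simp [dotProduct, mulVec, Complex.im_sum, Finset.mul_sum]⟩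

theorem stc_Ef {R : Type} [CommRing R] (x y : I2 gg → R) :
    Ef x y = -(x ⬝ᵥ J (Fin gg) R *ᵥ y) := by
  simp [Ef, J, dotProduct, mulVec, Fintype.sum_sum_type, one_apply, sub_eq_add_neg, add_comm]

theorem stc_coord (τ : Matrix (Fin gg) (Fin gg) ℂ) (a : I2 gg → ℚ) (η : I2 gg → ZMod 2) :
    Sn.coord τ (Sn.point τ fun i => a i) η = Xc τ (qc a) η := by
  have e : ∀ i, hv η i = ((Fin.val (n := 2) (η i) : ℕ) : ℂ) / 2 := fun i => by
    simp only [hv, vz, zc, Pi.smul_apply, smul_eq_mul, Int.cast_natCast]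
    rw [one_div, mul_comm]
    rfl
  have e1 : hv η ∘ inl = fun i => ((Fin.val (n := 2) (η (inl i)) : ℕ) : ℂ) / 2 :=
    funext fun i => e _
  have e2 : (2 : ℂ) • (τ *ᵥ (qc a ∘ inl) + qc a ∘ inr) + hv η ∘ inr = fun i =>
      2 * Sn.point τ (fun i => a i) i + ((Fin.val (n := 2) (η (inr i)) : ℕ) : ℂ) / 2 :=
    funext fun i => by
      rw [← e]
      simp only [Sn.point, Complex.ofReal_ratCast]
      rfl
  rw [Xc, e1, e2]
  rfl

/-- the family of representations as one homomorphism -/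
def stcRho {Γ : Type} [Group Γ] (ρ : ∀ (l : ℕ) [Fact l.Prime], Γ →* GL (I2 gg) ℤ_[l]) :
    Γ →* ∀ l : Pr, GL (I2 gg) ℤ_[l] := MonoidHom.pi fun l : Pr => ρ l

theorem stc_rep {τ : Matrix (Fin gg) (Fin gg) ℂ} {K : IntermediateField ℚ ℂ}
    {ρ : ∀ (l : ℕ) [Fact l.Prime], (ℂ ≃ₐ[K] ℂ) →* GL (I2 gg) ℤ_[l]} (h : Sn.TorsionRep τ K ρ) :
    TorsionRep τ K (stcRho ρ) := fun σ a b hab => by
  obtain ⟨c, hc⟩ := h σ a b fun l hl i => hab ⟨l, hl.out⟩ i
  exact ⟨c, fun η => by simpa only [stc_coord] using hc η⟩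

theorem stc_cx {τ : Matrix (Fin gg) (Fin gg) ℂ} {J : M8 ℝ} (h : Sn.IsCx τ J) : IsCx τ J := h

end Pool.Agent.MT
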