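import Pool.Agent.Lib.MP_d61fbb_ag.MW.Sw
import Pool.Agent.Lib.MP_d61fbb_ag.MW.StC
import Pool.Agent.Lib.MP_d61fbb_ag.MW.SID
import Pool.Agent.Lib.MP_d61fbb_ag.MW.SIF0
import Pool.Agent.Lib.MP_d61fbb_ag.MW.SZ
import Pool.Agent.Lib.MP_d61fbb_ag.MT.StZ

/-! The bridge from the definitions of the final statement to those of the proof. -/

set_option autoImplicit false

noncomputable section

namespace Pool.Agent.MT

open Matrix Sum IntermediateField
open scoped commutatorElement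

variable [dm : Dim] {e k n : ℕ}

/-- the local data -/
def Sw.Etale.toBlk {l : ℕ} [Fact l.Prime] {a : M8 ℤ} (D : Sw.Etale e k n l a) : Blk e k n l a where
  c := D.c
  monic := D.monic
  deg := D.deg
  sep := D.sep
  s := D.s
  inj := D.inj
  io := D.io
  io_inj := D.io_inj
  cover := D.cover
  U := D.U
  U' := D.U'
  mul_inv := D.mul_inv
  inv_mul := D.inv_mul
  int := D.int
  int' := D.int'
  ev := D.ev
  ev_inj := D.ev_inj
  diag := D.diag
  Nm := D.Nm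
  nm := D.nm
  adj := D.adj

theorem stw_between {Γ : Type} {l : ℕ} [Fact l.Prime] {a : M8 ℤ} {r : Γ → GL (I2 gg) ℤ_[l]}
    {D : Sw.Etale e k n l a} (h : D.Between (Set.range r)) : D.toBlk.Between r :=
  ⟨fun g => by
    obtain ⟨_, ⟨σ, rfl⟩, e⟩ := h.1 g.val g.2
    exact ⟨σ, e⟩, fun σ => by
    obtain ⟨u, g, hg, e⟩ := h.2 _ ⟨σ, rfl⟩
    refine ⟨u, g, ?_, hg, e⟩
    have := (isUnit_iff_isUnit_det _).1 (r σ).isUnit
    rw [e, det_mul] at this
    exact (isUnit_iff_isUnit_det _).2 (isUnit_of_mul_isUnit_left this)⟩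

theorem stw_inj {τ : Matrix (Fin gg) (Fin gg) ℂ} (hτ : Sieg τ) {x : I2 gg → ℝ}
    (h : zz τ (rc x) = 0) : x = 0 := by
  have h1 : τ *ᵥ rc (x ∘ inl) = -rc (x ∘ inr) := eq_neg_of_add_eq_zero_left h
  have h2 : x ∘ inl = 0 := by
    by_contra h0
    have := hτ.pos _ h0
    rw [h1] at this
    simp [dotProduct, Complex.im_sum] at this
  rw [h2, show rc (0 : Fin gg → ℝ) = 0 from funext fun _ => by simp, mulVec_zero] at h1
  funext i
  rcases i with i | i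
  · exact congrFun h2 i
  · simpa using congrFun h1 i

theorem stw_hom {τ : Matrix (Fin gg) (Fin gg) ℂ} (hτ : Sieg τ) {J₀ : M8 ℝ} (hJ : IsCx τ J₀)
    {a : M8 ℤ} (h : Commute (a.map Int.cast) J₀) : Hom τ (zM ℚ a) := by
  have e1 : ∀ x y : I2 gg → ℝ, zz τ (rc x + Complex.I • rc y) = zz τ (rc (x + J₀ *ᵥ y)) :=
    fun x y => by
    have := hJ y
    rw [show rc (x + J₀ *ᵥ y) = rc x + rc (J₀ *ᵥ y) from funext fun i => by simp [rc]]
    simp only [zz, Pi.add_comp, Pi.smul_comp, mulVec_add, mulVec_smul]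
    rw [add_add_add_comm, add_add_add_comm (τ *ᵥ _) (τ *ᵥ _), this, smul_add]
  have e2 : ∀ x : I2 gg → ℝ, (zM ℚ a).map ((↑) : ℚ → ℂ) *ᵥ rc x = rc (a.map Int.cast *ᵥ x) :=
    fun x => funext fun i => by simp [rc, mulVec, dotProduct]
  intro u hu
  obtain ⟨x, y, rfl⟩ : ∃ x y : I2 gg → ℝ, u = rc x + Complex.I • rc y :=
    ⟨fun i => (u i).re, fun i => (u i).im, funext fun i => by simp [mul_comm Complex.I]⟩
  rw [e1] at hu
  rw [mulVec_add, mulVec_smul, e2, e2, e1, mulVec_mulVec, ← h.eq, ← mulVec_mulVec, ← mulVec_add,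
    stw_inj hτ hu, mulVec_zero]
  funext i
  simp [zz, rc, mulVec, dotProduct]

theorem stw_comm {l : ℕ} [Fact l.Prime] {a : M8 ℤ} (D : Blk e k n l a) (i : PadicAlgCl l →+* ℂ)
    {H : Subgroup (GL (I2 gg) ℂ)} (h : ∀ x ∈ H, ∃ (c : Fin e → ℂ) (g : Fin n → M2 ℂ),
      (∀ j, (g j).det = 1) ∧ x.val =
        D.U.map i * (diagonal (fun y : Bx e k => c y.2) * bkp D.io g) * D.U'.map i)
    {x : GL (I2 gg) ℂ} (hx : x ∈ ⁅H, H⁆) :
    ∃ g : Fin n → M2 ℂ, (∀ j, (g j).det = 1) ∧ x.val = SZ.rep D i g := by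
  let φ : (Fin n → SpecialLinearGroup (Fin 2) ℂ) →* GL (I2 gg) ℂ :=
    ((SZ.rep D i).comp (MonoidHom.pi fun j => (SpecialLinearGroup.coeMonoidHom).comp
      (Pi.evalMonoidHom _ j))).toHomUnits
  have hφ : ∀ g, (φ g).val = SZ.rep D i fun j => (g j).val := fun g => rfl
  have e0 : D.U'.map i * D.U.map i = 1 := by
    rw [← Matrix.map_mul, D.inv_mul, Matrix.map_one _ i.map_zero i.map_one]
  have h1 : ∀ x ∈ H, ∃ (c : Fin e → ℂ) (z : GL (I2 gg) ℂ), ∃ g,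
      z.val = D.U.map i * diagonal (fun y : Bx e k => c y.2) * D.U'.map i ∧ x = z * φ g := by
    intro x hx
    obtain ⟨c, g, k1, k2⟩ := h x hx
    refine ⟨c, x * (φ fun j => ⟨g j, k1 j⟩)⁻¹, fun j => ⟨g j, k1 j⟩, ?_, by simp⟩
    rw [Units.val_mul, Units.mul_inv_eq_iff_eq_mul, k2, hφ, SZ.rep_apply]
    simp only [Matrix.mul_assoc]
    rw [← Matrix.mul_assoc (D.U'.map i), e0, Matrix.one_mul]
  have c1 : ∀ (c : Fin e → ℂ) (z : GL (I2 gg) ℂ),
      z.val = D.U.map i * diagonal (fun y : Bx e k => c y.2) * D.U'.map i →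
        ∀ g, Commute z (φ g) := fun c z hz g => Units.ext (by
    rw [Units.val_mul, Units.val_mul, hz, hφ, SZ.rep_apply]
    simp only [Matrix.mul_assoc]
    rw [← Matrix.mul_assoc (D.U'.map i), ← Matrix.mul_assoc (D.U'.map i), e0, Matrix.one_mul,
      Matrix.one_mul, ← Matrix.mul_assoc (diagonal _), blk_comm, Matrix.mul_assoc])
  obtain ⟨g, rfl⟩ : x ∈ φ.range := by
    refine Subgroup.commutator_le.2 (fun x hx y hy => ?_) hx
    obtain ⟨c, z, g, k1, rfl⟩ := h1 x hx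
    obtain ⟨c', z', g', k2, rfl⟩ := h1 y hy
    have c3 : Commute z z' := Units.ext (by
      rw [Units.val_mul, Units.val_mul, k1, k2]
      simp only [Matrix.mul_assoc]
      rw [← Matrix.mul_assoc (D.U'.map i), ← Matrix.mul_assoc (D.U'.map i), e0, Matrix.one_mul,
        Matrix.one_mul, ← Matrix.mul_assoc (diagonal _), ← Matrix.mul_assoc (diagonal _),
        (commute_diagonal _ _).eq])
    rw [si_cm c3 (c1 c z k1 _) (c1 c z k1 _) (c1 c' z' k2 _) (c1 c' z' k2 _),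
      ← map_commutatorElement]
    exact ⟨_, rfl⟩
  exact ⟨_, fun j => (g j).2, rfl⟩

theorem stw_final (hW : StageW) (e k n : ℕ) (τ : Matrix (Fin gg) (Fin gg) ℂ) (hτ : Sw.Siegel τ)
    (K : IntermediateField ℚ ℂ) (hK : FiniteDimensional ℚ K)
    (ρ : ∀ (l : ℕ) [Fact l.Prime], (ℂ ≃ₐ[K] ℂ) →* GL (Sw.Ix gg) ℤ_[l]) (hρ : Sw.TorsionRep τ K ρ)
    (J₀ : Matrix (Sw.Ix gg) (Sw.Ix gg) ℝ) (hJ : Sw.IsCx τ J₀)
    (a : Matrix (Sw.Ix gg) (Sw.Ix gg) ℤ) (ha : Sw.StableField (a.map Int.cast))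
    (haJ : Commute (a.map Int.cast) J₀)
    (haρ : ∀ (l : ℕ) [Fact l.Prime] σ, Commute (a.map Int.cast) (ρ l σ).val) (B : ℕ)
    (hM : ∀ (l : ℕ) [Fact l.Prime], B < l →
      ∃ D : Sw.Etale e k n l a, D.Between (Set.range (ρ l))) :
    ∃ B' : ℕ, ∀ (l : ℕ) [Fact l.Prime], B' < l → ∀ (i : ℚ_[l] →+* ℂ),
      ∀ x ∈ ⁅Sw.Hodge J₀, Sw.Hodge J₀⁆, x ∈ Sw.Closure i (Set.range (ρ l)) := by
  classical
  have hs : Sieg τ := stc_sieg hτ
  have hf : {l : Pr | (l : ℕ) ≤ B + 6 * n + 7}.Finite :=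
    (Set.finite_le_nat _).preimage Subtype.val_injective.injOn
  have hS : ∀ l : Pr, l ∉ hf.toFinset → B + 6 * n + 7 < (l : ℕ) := fun l hl => by simpa using hl
  choose D hD using fun (l : Pr) (h : l ∉ hf.toFinset) => hM l (by have := hS l h; omega)
  have hb : ∀ l h, (D l h).toBlk.Between fun σ => stcRho ρ σ l := fun l h => stw_between (hD l h)
  let M : AType τ (K ⊔ ℚ⟮ee (1 / 8)⟯) e k n :=
    { ρ := (stcRho ρ).comp (sifRes le_sup_left)
      alg := fun σ => stc_rep (τ := τ) hρ (sifRes le_sup_left σ)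
      a := a
      hom := stw_hom hs hJ haJ
      comm := fun σ l => haρ l _
      irr := ha.1
      adj := ha.2
      S := hf.toFinset
      D := fun l h => (D l h).toBlk
      sub := fun σ l h => (hb l h).2 _
      big := fun T g => by
        obtain ⟨σ, h4, h5⟩ := si_d (stcRho ρ) _ T _
          (fun l h => ⟨by have := hS l h; omega, hb l h⟩) g
        obtain ⟨s, rfl⟩ := sif_lift (sif_comm h4)
        exact ⟨s, h5⟩ }
  obtain ⟨B₁, h1⟩ := hW τ hs _ (sif_fin hK) (le_sup_right (a := K) (mem_adjoin_simple_self ℚ _))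
    e k n M
  refine ⟨B₁ + (B + 6 * n + 7), fun l hl hB i x hx => ?_⟩
  have hlS : (⟨l, hl.out⟩ : Pr) ∉ hf.toFinset := fun h => by
    have : l ≤ B + 6 * n + 7 := hf.mem_toFinset.1 h
    omega
  let := i.toAlgebra
  let i' : PadicAlgCl l →ₐ[ℚ_[l]] ℂ := IsAlgClosed.lift
  obtain ⟨g, k1, k2⟩ := stw_comm (D ⟨l, hl.out⟩ hlS).toBlk i'.toRingHom
    (h1 ⟨l, hl.out⟩ (show B₁ < l by omega) hlS J₀ hJ i'.toRingHom) hx
  have h2 := SZ.zar_rep _ (ρ l) (stw_between (hD ⟨l, hl.out⟩ hlS)) i'.toRingHom k1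
  rw [← k2] at h2
  have := stz_base i (Set.range fun σ (ij : Sw.Ix gg × Sw.Ix gg) =>
    ((ρ l σ).val ij.1 ij.2 : ℚ_[l])) fun ij => x.val ij.1 ij.2
  simp only [Set.forall_mem_range] at this
  simp only [U.Zar, Sw.Closure, Set.mem_ofPred_eq, Set.forall_mem_range] at h2 ⊢
  rw [this]
  have e : ∀ y : ℤ_[l], SZ.zi i'.toRingHom y = i y := fun y => i'.commutes (y : ℚ_[l])
  simpa only [map_apply, e] using h2

end Pool.Agent.MT
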