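import Mathlib

/-! The definitions used in the final statement; they rest on Mathlib only. -/

set_option autoImplicit false

noncomputable section

namespace Pool.Agent.MT.Sw

open Matrix Polynomial Sum

variable {g e k n : ℕ}

/-- the index set of a symplectic basis -/
abbrev Ix (g : ℕ) := Fin g ⊕ Fin g

/-- the Siegel upper half space of degree `g` -/
def Siegel (τ : Matrix (Fin g) (Fin g) ℂ) : Prop := τᵀ = τ ∧ (τ.map Complex.im).PosDef

/-- the point `τ a₁ + a₂` of `ℂ ^ g` -/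
def point (τ : Matrix (Fin g) (Fin g) ℂ) (a : Ix g → ℝ) : Fin g → ℂ :=
  τ *ᵥ (fun i => (a (inl i) : ℂ)) + fun i => (a (inr i) : ℂ)

/-- the theta series `∑ exp (2 π i ((m + a) τ (m + a) / 2 + (m + a) w))` -/
def theta (τ : Matrix (Fin g) (Fin g) ℂ) (a w : Fin g → ℂ) : ℂ :=
  ∑' m : Fin g → ℤ, Complex.exp (2 * Real.pi * Complex.I *
    ((fun i => m i + a i) ⬝ᵥ τ *ᵥ (fun i => m i + a i) / 2 + (fun i => m i + a i) ⬝ᵥ w))

/-- the projective coordinates `θ[η / 2](2 z, τ)` on the abelian variety -/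
def coord (τ : Matrix (Fin g) (Fin g) ℂ) (z : Fin g → ℂ) (η : Ix g → Fin 2) : ℂ :=
  theta τ (fun i => (η (inl i) : ℕ) / 2) fun i => 2 * z i + (η (inr i) : ℕ) / 2

/-- `ρ` is the action of the automorphisms of `ℂ` over `K` on the torsion points -/
def TorsionRep (τ : Matrix (Fin g) (Fin g) ℂ) (K : IntermediateField ℚ ℂ)
    (ρ : ∀ (l : ℕ) [Fact l.Prime], (ℂ ≃ₐ[K] ℂ) →* GL (Ix g) ℤ_[l]) : Prop :=
  ∀ (σ : ℂ ≃ₐ[K] ℂ) (a b : Ix g → ℚ),
    (∀ (l : ℕ) [Fact l.Prime] (i : Ix g), ‖∑ j, ((ρ l σ).val i j : ℚ_[l]) * a j - b i‖ ≤ 1) →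
      ∃ c : ℂ, ∀ η, σ (coord τ (point τ fun i => a i) η) = c * coord τ (point τ fun i => b i) η

/-- the tensor product of `k` matrices of size two -/
def tens {R : Type} [CommRing R] (h : Fin k → Matrix (Fin 2) (Fin 2) R) :
    Matrix (Fin k → Fin 2) (Fin k → Fin 2) R := of fun x y => ∏ i, h i (x i) (y i)

/-- An étale algebra `R = ℤ_l [X] / c` of degree `n` with its `n` embeddings `s`, and a frame `U`
in which `a` is a scalar on each of `e` blocks and `GL₂ R` acts on each block through a tensor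
product of `k` of its `n` conjugates. -/
structure Etale (e k n l : ℕ) [Fact l.Prime] (a : Matrix (Ix g) (Ix g) ℤ) where
  c : ℤ_[l][X]
  monic : c.Monic
  deg : c.natDegree = n
  sep : (c.map PadicInt.toZMod).Separable
  s : Fin n → AdjoinRoot c →ₐ[ℤ_[l]] PadicAlgCl l
  inj : Function.Injective s
  io : Fin e → Fin k → Fin n
  io_inj : ∀ σ, Function.Injective (io σ)
  cover : ∀ i, ∃ σ j, io σ j = i
  U : Matrix (Ix g) ((Fin k → Fin 2) × Fin e) (PadicAlgCl l)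
  U' : Matrix ((Fin k → Fin 2) × Fin e) (Ix g) (PadicAlgCl l)
  mul_inv : U * U' = 1
  inv_mul : U' * U = 1
  int : ∀ i j, ‖U i j‖ ≤ 1
  int' : ∀ i j, ‖U' i j‖ ≤ 1
  ev : Fin e → PadicAlgCl l
  ev_inj : Function.Injective ev
  diag : a.map (Int.cast : ℤ → PadicAlgCl l) =
    U * diagonal (fun x : (Fin k → Fin 2) × Fin e => ev x.2) * U'
  Nm : Matrix (Fin 2) (Fin 2) (AdjoinRoot c) → Matrix (Ix g) (Ix g) ℤ_[l]
  nm : ∀ h, (Nm h).map (algebraMap _ _) =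
    U * blockDiagonal (fun σ => tens fun j => h.map (s (io σ j))) * U'
  adj : ∀ h, (Nm h)ᵀ * J (Fin g) ℤ_[l] = J (Fin g) ℤ_[l] * Nm h.adjugate

/-- The set `G` lies between `Nm (SL₂ R)` and `ℤ_l [a] ˣ Nm (GL₂ R)`. -/
def Etale.Between {l : ℕ} [Fact l.Prime] {a : Matrix (Ix g) (Ix g) ℤ} (D : Etale e k n l a)
    (G : Set (GL (Ix g) ℤ_[l])) : Prop :=
  (∀ h : Matrix (Fin 2) (Fin 2) (AdjoinRoot D.c), h.det = 1 → ∃ x ∈ G, x.val = D.Nm h) ∧
    ∀ x ∈ G, ∃ (u : ℤ_[l][X]) (h : Matrix (Fin 2) (Fin 2) (AdjoinRoot D.c)),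
      IsUnit h.det ∧ x.val = aeval (a.map (Int.cast : ℤ → ℤ_[l])) u * D.Nm h

/-- `a` generates a field that is stable under the adjoint for the symplectic form -/
def StableField (a : Matrix (Ix g) (Ix g) ℚ) : Prop :=
  Irreducible (minpoly ℚ a) ∧ ∃ b : ℚ[X], aᵀ * J (Fin g) ℚ = J (Fin g) ℚ * aeval a b

/-- `J` is multiplication by `i` on `ℝ ^ (2 g) = ℂ ^ g` -/
def IsCx (τ : Matrix (Fin g) (Fin g) ℂ) (J : Matrix (Ix g) (Ix g) ℝ) : Prop :=
  ∀ a, point τ (J *ᵥ a) = Complex.I • point τ a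

/-- subgroups of `GL (2 g, ℂ)` defined by polynomials with rational coefficients -/
def OverQ (H : Subgroup (GL (Ix g) ℂ)) : Prop :=
  ∃ s : Set (MvPolynomial (Ix g × Ix g) ℚ), ∀ x : GL (Ix g) ℂ,
    x ∈ H ↔ ∀ f ∈ s, MvPolynomial.aeval (fun ij : Ix g × Ix g => x.val ij.1 ij.2) f = 0

/-- The complex points of the Hodge group: the smallest group defined over `ℚ` that contains the
circle `cos t + sin t J`. -/
def Hodge (J : Matrix (Ix g) (Ix g) ℝ) : Subgroup (GL (Ix g) ℂ) :=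
  sInf {H | OverQ H ∧ ∀ t : ℝ, ∃ x ∈ H, x.val =
    (Real.cos t • (1 : Matrix (Ix g) (Ix g) ℝ) + Real.sin t • J).map (↑)}

/-- The complex points, through `i`, of the Zariski closure over `ℚ_l` of the set `G`. -/
def Closure {l : ℕ} [Fact l.Prime] (i : ℚ_[l] →+* ℂ) (G : Set (GL (Ix g) ℤ_[l])) :
    Set (GL (Ix g) ℂ) :=
  {y | ∀ f : MvPolynomial (Ix g × Ix g) ℚ_[l],
    (∀ x ∈ G, MvPolynomial.eval (fun ij : Ix g × Ix g => (x.val ij.1 ij.2 : ℚ_[l])) f = 0) →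
      MvPolynomial.eval₂ i (fun ij : Ix g × Ix g => y.val ij.1 ij.2) f = 0}

end Pool.Agent.MT.Sw
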