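import Pool.Agent.Lib.MP_d61fbb_ag.MW.US
import Pool.Agent.Lib.MP_d61fbb_ag.MW.AFin
import Pool.Agent.Lib.MP_d61fbb_ag.MW.GX3

/-! Stage three: the Galois action on the rational translates of the point. -/

set_option autoImplicit false

noncomputable section

namespace Pool.Agent.MT.U

variable [dm : Dim]

open Matrix G

variable {τ : Matrix (Fin gg) (Fin gg) ℂ} {K : IntermediateField ℚ ℂ}

/-- the rational translate of the point -/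
def tr (τ : Matrix (Fin gg) (Fin gg) ℂ) (γ : G.Sp gg ℚ) : EE gg := ac (qm γ.1) (un τ)

theorem tr_mem (hτ : Sieg τ) (γ : G.Sp gg ℚ) : tr τ γ ∈ G.HH gg :=
  ac_mem (qsp γ) (by rwa [← mk_un hτ.symm] at hτ)

theorem gal_sp (γ : G.Sp gg ℚ) (x y : W) : Ef (γ.1.map qa *ᵥ x) (γ.1.map qa *ᵥ y) = Ef x y := by
  simpa using (gs_one_iff.2 γ.2).map (algebraMap ℚ AF) x y

theorem gal_inv (γ : G.Sp gg ℚ) (x : W) : γ.1.map qa *ᵥ (γ⁻¹).1.map qa *ᵥ x = x := by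
  rw [mulVec_mulVec, ← Matrix.map_mul (f := algebraMap ℚ AF),
    show γ.1 * (γ⁻¹).1 = 1 from congrArg Subtype.val (mul_inv_cancel γ),
    Matrix.map_one _ (map_zero _) (map_one _), one_mulVec]

theorem gal_inv' (γ : G.Sp gg ℚ) (x : W) : (γ⁻¹).1.map qa *ᵥ γ.1.map qa *ᵥ x = x := by
  simpa using gal_inv γ⁻¹ x

theorem gal_pull (γ : G.Sp gg ℚ) {z : EE gg} (hz : z ∈ G.HH gg) {f : W → ℂ}
    (hf : f ∈ MT.HH (G.mk (ac (qm γ.1) z)) 1) : (fun x => f (γ.1.map qa *ᵥ x)) ∈ MT.HH (G.mk z) 1 := by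
  refine HH_pull hf γ.1 (fun x y => by rw [gs_one_iff.2 γ.2, one_mul]) fun u hu => ?_
  obtain ⟨C, -, hC⟩ := ac_spec (qsp γ) hz
  have e : ∀ (w : EE gg) v, zz (G.mk w) v = Om w *ᵥ v := fun w v => by
    rw [Om, fromCols_mulVec, one_mulVec, zz]
  have e' : γ.1.map ((↑) : ℚ → ℂ) = cm (qsp γ).1 := by ext i j; simp [qsp]
  rw [e] at hu
  rw [e, e', mulVec_mulVec]
  exact (congrArg (· *ᵥ u) hC).trans (by rw [← mulVec_mulVec, hu, mulVec_zero])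

theorem gal_back (γ : G.Sp gg ℚ) {z : EE gg} (hz : z ∈ G.HH gg) :
    ac (qm (γ⁻¹).1) (ac (qm γ.1) z) = z := by
  have := ac_mul (qsp γ⁻¹) (qsp γ) hz
  rw [show (qsp γ⁻¹).1 * (qsp γ).1 = 1 from (Matrix.map_mul (f := Rat.castHom ℝ)).symm.trans (by
    rw [show (γ⁻¹).1 * γ.1 = 1 from congrArg Subtype.val (inv_mul_cancel γ),
      Matrix.map_one _ (map_zero _) (map_one _)]), ac_one] at this
  exact this.symm

theorem gal_base (hτ : Sieg τ) (h8 : ee (1 / 8) ∈ K) (M : TRep τ K) (σ : ℂ ≃ₐ[K] ℂ) :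
    (∃ c ≠ 0, ∀ x, σ (Theta τ x) = c * Theta τ (mA (M.ρ σ) *ᵥ x)) ∧
      ∀ x y : W, σ (psi (Ef x y)) = psi (Ef (mA (M.ρ σ) *ᵥ x) (mA (M.ρ σ) *ᵥ y)) := by
  obtain ⟨⟨c, hc, h1⟩, h2⟩ := hτ.galoisA (σ : ℂ →+* ℂ) (σ.commutes ⟨_, h8⟩) (mA_mem (M.ρ σ))
    fun a b hab => M.alg σ a b fun l i => by
      have := mem_L0.1 hab i l
      rw [Pi.sub_apply, map_sub, cp_mA] at this
      rwa [show cpv l (qv' a) = _ from funext fun j => qa_apply _ l,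
        show cp l (qv' b i) = _ from qa_apply _ l] at this
  refine ⟨⟨c, hc, fun x => ?_⟩, h2⟩
  have := h1 0 x
  rwa [show qv' (hq (0 : I2 gg → ZMod 2)) = 0 from funext fun i => by simp [qv', hq], UU_zero'] at this

theorem gal_eps {σ : ℂ ≃ₐ[K] ℂ} {r : M8 AF}
    (h : ∀ x y : W, σ (psi (Ef x y)) = psi (Ef (r *ᵥ x) (r *ᵥ y))) (x y : W) :
    σ (eps 1 x y) = eps 1 (r *ᵥ x) (r *ᵥ y) := by
  rw [eps, eps, gx_qsmul, gx_qsmul, ← Ef_smul_right, h, mulVec_smul, Ef_smul_right]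

theorem gal_mem (hτ : Sieg τ) (h8 : ee (1 / 8) ∈ K) (M : TRep τ K) (σ : ℂ ≃ₐ[K] ℂ)
    {F : W → ℂ} (hF : F ∈ MT.HH τ 1) : (fun x => σ (F (mA (M.ρ σ⁻¹) *ᵥ x))) ∈ MT.HH τ 1 := by
  obtain ⟨⟨c, -, h1⟩, h2⟩ := gal_base hτ h8 M σ
  have := HH_irr (siegI_iff.2 hτ) one_pos hF (Theta_mem hτ) (Theta_ne hτ)
  clear hF
  induction this using Submodule.span_induction with
  | mem f hf =>
    obtain ⟨y, rfl⟩ := hf
    convert Submodule.smul_mem _ c (HH_UU (Theta_mem hτ) (mA (M.ρ σ) *ᵥ y)) using 1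
    funext x
    simp only [UU_apply, map_mul, gal_eps h2, h1, mulVec_add, gx_rho_inv', Pi.smul_apply, smul_eq_mul]
    ring
  | zero => convert (MT.HH τ 1).zero_mem using 1; funext x; simp
  | add f h _ _ a b => convert (MT.HH τ 1).add_mem a b using 1; funext x; simp
  | smul a f _ b => convert (MT.HH τ 1).smul_mem (σ a) b using 1; funext x; simp

theorem gal_chi (σ : ℂ ≃ₐ[K] ℂ) {s : W} (hs : s ∈ L0) : σ (chi0 s) = chi0 s := by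
  have : chi0 s * chi0 s = 1 := by
    rw [chi0, ← AddChar.map_add_eq_mul, ← add_smul, add_halves, one_smul]
    exact psi_eq_one_iff.2 (Qf_mem_Zh hs)
  rcases mul_self_eq_one_iff.1 this with h | h <;> simp [h]

theorem gal_ad (hτ : Sieg τ) (h8 : ee (1 / 8) ∈ K) (M : TRep τ K) (σ : ℂ ≃ₐ[K] ℂ)
    (γ : G.Sp gg ℚ) {r : M8 AF} (hr : r * γ.1.map qa = γ.1.map qa * mA (M.ρ σ))
    (h1 : ∀ t ∈ L0, ∃ s ∈ L0, r *ᵥ t = t + (2 : ℕ) • s) (h2 : ∀ t ∈ L0, ∃ s ∈ L0, r *ᵥ s = t) :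
    (∃ b : ℂ, b ≠ 0 ∧ ∀ y, σ (Theta (G.mk (tr τ γ)) y) = b * Theta (G.mk (tr τ γ)) (r *ᵥ y)) ∧
      ∀ x y : W, σ (psi (Ef x y)) = psi (Ef (r *ᵥ x) (r *ᵥ y)) := by
  have hz : un τ ∈ G.HH gg := by rwa [← mk_un hτ.symm] at hτ
  have hτ' : Sieg (G.mk (tr τ γ)) := tr_mem hτ γ
  have k : ∀ x, r *ᵥ x = γ.1.map qa *ᵥ mA (M.ρ σ) *ᵥ (γ⁻¹).1.map qa *ᵥ x := fun x => by
    rw [mulVec_mulVec _ _ (mA _), ← hr, ← mulVec_mulVec, gal_inv]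
  have e2 : ∀ x y : W, σ (psi (Ef x y)) = psi (Ef (r *ᵥ x) (r *ᵥ y)) := fun x y => by
    rw [k, k, gal_sp, ← (gal_base hτ h8 M σ).2, gal_sp]
  refine ⟨?_, e2⟩
  have m1 := gal_pull γ hz (Theta_mem hτ')
  rw [mk_un hτ.symm] at m1
  have m2 := gal_mem hτ h8 M σ m1
  have m3 := gal_pull γ⁻¹ (tr_mem hτ γ) (by rw [tr, gal_back γ hz, mk_un hτ.symm]; exact m2)
  set F : W → ℂ := fun x => σ (Theta (G.mk (tr τ γ))
    (γ.1.map qa *ᵥ mA (M.ρ σ⁻¹) *ᵥ (γ⁻¹).1.map qa *ᵥ x)) with hF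
  have e3 : ∀ y, F (r *ᵥ y) = σ (Theta (G.mk (tr τ γ)) y) := fun y => by
    simp only [hF, k, gal_inv', gx_rho_inv, gal_inv]
  have e4 : ∀ x, ∃ y, r *ᵥ y = x := fun x =>
    ⟨γ.1.map qa *ᵥ mA (M.ρ σ⁻¹) *ᵥ (γ⁻¹).1.map qa *ᵥ x, by rw [k, gal_inv', gx_rho_inv', gal_inv]⟩
  obtain ⟨b, hb⟩ := (std_isTh hτ').uniq (siegI_iff.2 hτ') one_pos (f := F) m3 fun t ht => by
    obtain ⟨s, hs, rfl⟩ := h2 t ht
    obtain ⟨s', hs', e⟩ := h1 s hs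
    funext x
    obtain ⟨y, rfl⟩ := e4 x
    have := congrArg σ (congrFun (Theta_eig (G.mk (tr τ γ)) s hs) y)
    rw [UU_apply, Pi.smul_apply, smul_eq_mul, map_mul, map_mul, gal_eps e2, gal_chi σ hs] at this
    rw [UU_apply, ← mulVec_add, e3, this, Pi.smul_apply, e3, std_chi, e, two_smul, ← two_smul AF s',
      g8_chi0 hs hs', smul_eq_mul]
  refine ⟨b, fun h0 => Theta_ne hτ' (funext fun y => σ.injective ?_), fun y => ?_⟩
  · rw [← e3, hb, h0, zero_smul, Pi.zero_apply, Pi.zero_apply, map_zero]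
  · rw [← e3, hb, Pi.smul_apply, smul_eq_mul]

/-- the conjugate of a local matrix by a rational matrix -/
def cjp (p : Pr) (γ : G.Sp gg ℚ) (u : GL (I2 gg) ℤ_[p]) : M8 ℚ_[p] :=
  γ.1.map (Rat.cast : ℚ → ℚ_[p]) * u.val.map (↑) * (γ⁻¹).1.map (Rat.cast : ℚ → ℚ_[p])

theorem gal_cp (p : Pr) (γ : G.Sp gg ℚ) (u : ∀ l : Pr, GL (I2 gg) ℤ_[l]) (a b : I2 gg) :
    cp p ((γ.1.map qa * mA u * (γ⁻¹).1.map qa) a b) = cjp p γ (u p) a b := by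
  have e : ∀ A : M8 ℚ, (A.map qa).map (cp p) = A.map (Rat.cast : ℚ → ℚ_[p]) := fun A => by
    ext i j; exact g8_cp_qa _ _
  rw [cjp, ← e, ← e, show (u p).val.map ((↑) : ℤ_[p] → ℚ_[p]) = (mA u).map (cp p) from rfl,
    ← Matrix.map_mul (f := cp p), ← Matrix.map_mul (f := cp p), map_apply]

theorem gal_pt (hτ : Sieg τ) (h8 : ee (1 / 8) ∈ K) (M : TRep τ K) (σ : ℂ ≃ₐ[K] ℂ)
    (γ : G.Sp gg ℚ) {N : ℕ} (hN : 0 < N) {r : G.Sp gg ℤ} (hr : r ∈ G.Gam gg 32)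
    (h1 : ∀ (p : Pr) a b, ‖cjp p γ (M.ρ σ⁻¹ p) a b‖ ≤ 1)
    (h2 : ∀ (p : Pr) a b, ‖cjp p γ (M.ρ σ p) a b - r.1 a b‖ ≤ ‖((32 * N ^ 2 : ℕ) : ℚ_[p])‖)
    (y₀ : LL gg 1) (x : ChL gg N) : σ (pM y₀ N (tr τ γ) x) = pM y₀ N (az r⁻¹ (tr τ γ)) x := by
  set R : M8 AF := γ.1.map qa * mA (M.ρ σ) * (γ⁻¹).1.map qa with hR
  have N0 : (N : ℚ) ≠ 0 := by exact_mod_cast hN.ne'
  obtain ⟨S, hS, e⟩ : ∃ S : M8 AF, (∀ a b, S a b ∈ Zh) ∧
      R = r.1.map (↑) + (32 * N ^ 2 : ℚ) • S := by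
    refine ⟨(32 * N ^ 2 : ℚ)⁻¹ • (R - r.1.map (↑)), fun a b => gx_Zh.2 fun p => ?_, by
      rw [smul_inv_smul₀ (by positivity), add_sub_cancel]⟩
    have h3 : ((32 * N ^ 2 : ℕ) : ℚ_[p]) ≠ 0 := by exact_mod_cast (by positivity : 32 * N ^ 2 ≠ 0)
    rw [Matrix.smul_apply, map_smul, Matrix.sub_apply, map_sub, hR, gal_cp, map_apply, map_intCast,
      Rat.smul_def, norm_mul, show (((32 * N ^ 2 : ℚ)⁻¹ : ℚ) : ℚ_[p]) = ((32 * N ^ 2 : ℕ) : ℚ_[p])⁻¹ by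
        push_cast; rfl, norm_inv, inv_mul_le_iff₀ (norm_pos_iff.2 h3), mul_one]
    exact h2 p a b
  choose r₀ h0 using hr
  obtain ⟨⟨b, hb, h4⟩, -⟩ := gal_ad hτ h8 M σ γ (r := R)
    (by rw [hR, Matrix.mul_assoc, ← Matrix.map_mul (f := algebraMap ℚ AF),
      show (γ⁻¹).1 * γ.1 = 1 from congrArg Subtype.val (inv_mul_cancel γ),
      Matrix.map_one _ (map_zero _) (map_one _), Matrix.mul_one])
    (fun t ht => ⟨(16 : ℕ) • (of r₀).map (↑) *ᵥ t + (16 * N ^ 2 : ℕ) • S *ᵥ t, L0.add_mem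
      (nsmul_mem (lam_mulVec (fun _ _ => intCast_mem Zh _) ht) _) (nsmul_mem (lam_mulVec hS ht) _), by
      have : r.1.map ((↑) : ℤ → AF) = 1 + (32 : ℕ) • (of r₀).map (↑) := by
        ext1 i j
        have := congrArg ((↑) : ℤ → AF) (h0 i j)
        rw [Int.cast_sub, sub_eq_iff_eq_add'] at this
        rw [map_apply, this, Matrix.add_apply, Matrix.smul_apply]
        by_cases h : i = j <;> simp [one_apply, h]
      rw [e, this, add_mulVec, add_mulVec, one_mulVec, smul_mulVec, smul_mulVec, smul_add, smul_smul,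
        smul_smul, ← Nat.cast_smul_eq_nsmul ℚ (2 * (16 * N ^ 2)), add_assoc]
      congr 3
      push_cast
      ring⟩)
    fun t ht => ⟨(γ.1.map qa * mA (M.ρ σ⁻¹) * (γ⁻¹).1.map qa) *ᵥ t,
      lam_mulVec (fun a b => gx_Zh.2 fun p => by rw [gal_cp]; exact h1 p a b) ht, by
      simp only [hR, ← mulVec_mulVec, gal_inv', gx_rho_inv', gal_inv]⟩
  obtain ⟨j, hj⟩ := th_az (Gam_mono (by norm_num) (show r ∈ G.Gam gg 32 from fun a b => ⟨_, h0 a b⟩))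
  obtain ⟨j0, hj⟩ := hj _ (az_mem r⁻¹ (tr_mem hτ γ))
  rw [← az_mul _ _ (tr_mem hτ γ), mul_inv_cancel, az_one] at hj
  have k : ∀ x ∈ ChL gg N, σ (th x (tr τ γ)) =
      b * j (az r⁻¹ (tr τ γ)) * th x (az r⁻¹ (tr τ γ)) := fun x hx => by
    choose n hn using hx
    have hn' : (fun i => (n i : AF)) ∈ L0 := gx_L0.2 fun i => intCast_mem Zh _
    have e1 : (fun i => (n i : AF)) = (4 * N : ℚ) • qv' x := funext fun i => by
      rw [Pi.smul_apply, gx_qsmul, ← map_mul, hn, map_intCast]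
    set m := S *ᵥ fun i => (n i : AF) with hm
    have hm' : m ∈ L0 := lam_mulVec hS hn'
    have e2 : R *ᵥ qv' x = qv' (G.zq r.1 *ᵥ x) + ((8 * N : ℕ) : AF) • m := by
      rw [e, add_mulVec, qv'_mulVec, hm, e1, mulVec_smul, smul_mulVec, Nat.cast_smul_eq_nsmul,
        ← Nat.cast_smul_eq_nsmul ℚ, smul_smul]
      congr 2
      push_cast
      ring
    rw [mul_assoc, ← hj, th, ← Theta_qv, h4, e2, Theta_eq _ _ (m := ((8 * N : ℕ) : AF) • m) fun i =>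
      Zh.mul_mem (natCast_mem Zh _) (gx_L0.1 hm' i), psi_eq_one_iff.2, one_mul, th]
    have e3 : Ef (qv' (G.zq r.1 *ᵥ x)) (((8 * N : ℕ) : AF) • m) =
        2 * Ef (r.1.map (↑) *ᵥ fun i => (n i : AF)) m := by
      rw [e1, mulVec_smul, gx_qsmul', Ef_smul_left, Ef_smul_right, qv'_mulVec, ← mul_assoc]
      simp only [qa, map_mul, map_natCast, map_ofNat]
      push_cast
      ring
    rw [e3, Qf_smul, show ∀ a : AF, ((8 * N : ℕ) : AF) ^ 2 * Qf m + 2 * a =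
      2 * (32 * N ^ 2 * Qf m + a) from fun a => by push_cast; ring, half_two]
    exact Zh.add_mem (Zh.mul_mem (Zh.mul_mem (ofNat_mem Zh 32) (Zh.pow_mem (natCast_mem Zh _) _))
      (Qf_mem_Zh hm')) (Ef_mem (lam_mulVec (fun _ _ => intCast_mem Zh _) hn') hm')
  have hy : ch 1 y₀ ∈ ChL gg N := fun i => by
    obtain ⟨n, hn⟩ := ch_mem y₀ i
    exact ⟨N * n, by push_cast at hn ⊢; rw [← hn]; ring⟩
  rw [pM, pM, map_div₀, k _ x.2, k _ hy, mul_div_mul_left _ _ (mul_ne_zero hb j0)]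

end Pool.Agent.MT.U
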