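import Pool.Agent.Lib.MP_d61fbb_ag.MW.W2D

/-! Block W2: the share of the aligned points of an orbit. -/

set_option autoImplicit false

namespace Pool.Agent.MW

open Finset

/-- the fibres of an equivariant map onto an orbit have the same size -/
theorem w2g_fib {Γ W Y : Type} [Group Γ] [MulAction Γ W] [MulAction Γ Y] [DecidableEq Y]
    (Ω : Finset W) (hΩ : ∀ σ : Γ, ∀ w ∈ Ω, σ • w ∈ Ω) (π : W → Y)
    (hπ : ∀ (σ : Γ) w, π (σ • w) = σ • π w) (y₀ : Y) :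
    ∃ c : ℕ, ∀ S : Finset Y, (∀ y ∈ S, ∃ σ : Γ, σ • y₀ = y) →
      (Ω.filter fun w => π w ∈ S).card = c * S.card := by
  refine ⟨(Ω.filter fun w => π w = y₀).card, fun S hS => ?_⟩
  rw [card_eq_sum_card_fiberwise (f := π) (s := Ω.filter fun w => π w ∈ S) (t := S)
    fun w hw => (mem_filter.1 hw).2, mul_comm]
  refine sum_const_nat fun y hy => ?_
  obtain ⟨σ, rfl⟩ := hS y hy
  refine card_bij' (fun w _ => σ⁻¹ • w) (fun w _ => σ • w) ?_ ?_ ?_ ?_
  · intro w hw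
    simp only [mem_filter] at hw ⊢
    exact ⟨hΩ _ _ hw.1.1, by rw [hπ, hw.2, inv_smul_smul]⟩
  · intro w hw
    simp only [mem_filter] at hw ⊢
    have h1 : π (σ • w) = σ • y₀ := by rw [hπ, hw.2]
    exact ⟨⟨hΩ _ _ hw.1, h1 ▸ hy⟩, h1⟩
  · intro w _
    exact smul_inv_smul _ _
  · intro w _
    exact inv_smul_smul _ _

theorem w2g_exp {ι : Type} [Fintype ι] (lab : ι → ℕ) (U : Finset ℕ) (c : ι → ℝ) :
    ∏ j ∈ U, (1 - ∏ i with lab i = j, c i) =
      ∑ T ∈ U.powerset, (-1) ^ T.card * ∏ i, (if lab i ∈ T then c i else 1) := by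
  simp only [sub_eq_add_neg]
  rw [prod_one_add]
  refine sum_congr rfl fun T _ => ?_
  rw [prod_neg, prod_fiberwise_eq_prod_filter, prod_filter]

/-- independence -/
theorem w2g_avg {ι : Type} [Fintype ι] [DecidableEq ι] {Y : ι → Type} [∀ i, Fintype (Y i)]
    (b : ∀ i, Y i → ℝ) (m : ι → ℝ) (hm : ∀ i, ∑ y, b i y = m i * Fintype.card (Y i))
    (lab : ι → ℕ) (U : Finset ℕ) :
    ∑ y : ∀ i, Y i, ∏ j ∈ U, (1 - ∏ i with lab i = j, b i (y i)) =
      (∏ j ∈ U, (1 - ∏ i with lab i = j, m i)) * Fintype.card (∀ i, Y i) := by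
  simp only [w2g_exp]
  rw [sum_comm, sum_mul]
  refine sum_congr rfl fun T _ => ?_
  rw [← mul_sum, mul_assoc, Fintype.card_pi, Nat.cast_prod, ← prod_mul_distrib,
    ← Fintype.prod_sum fun i (z : Y i) => if lab i ∈ T then b i z else 1]
  refine congrArg _ (prod_congr rfl fun i _ => ?_)
  by_cases h : lab i ∈ T
  · simp only [if_pos h, hm]
  · simp only [if_neg h, sum_const, card_univ, nsmul_eq_mul, mul_one, one_mul]

/-- the count in the product -/
theorem w2g_cnt {ι : Type} [Fintype ι] [DecidableEq ι] {Y : ι → Type} [∀ i, Fintype (Y i)]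
    [∀ i, DecidableEq (Y i)] (g : ∀ i, Y i) (q : ι → ℝ)
    (hq : ∀ i, 0 ≤ q i ∧ q i * Fintype.card (Y i) ≤ 1) (lab : ι → ℕ) (u : ℕ) :
    (∏ j ∈ range u, (1 - ∏ i with lab i = j, (1 - q i))) * Fintype.card (∀ i, Y i) ≤
      (univ.filter fun y : ∀ i, Y i => ∀ j ∈ range u, ∃ i, lab i = j ∧ y i = g i).card := by
  have hp : ∀ i, (1 : ℝ) ≤ Fintype.card (Y i) := fun i => by
    exact_mod_cast Fintype.card_pos_iff.2 ⟨g i⟩
  have h1 := w2g_avg (fun i z => if z = g i then (0 : ℝ) else 1)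
    (fun i => 1 - 1 / (Fintype.card (Y i) : ℝ)) (fun i => by
      have h0 : (Fintype.card (Y i) : ℝ) ≠ 0 := by linarith [hp i]
      have h2 : ∀ z : Y i, (if z = g i then (0 : ℝ) else 1) = 1 - if z = g i then 1 else 0 :=
        fun z => by split_ifs <;> simp
      simp only [h2, sum_sub_distrib, sum_const, card_univ, nsmul_eq_mul, mul_one, sum_ite_eq',
        mem_univ, if_true]
      field_simp) lab (range u)
  have h3 : ∀ i, 1 / (Fintype.card (Y i) : ℝ) ≤ 1 := fun i =>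
    (div_le_one (by linarith [hp i])).2 (hp i)
  have h4 : ∀ i, q i ≤ 1 / (Fintype.card (Y i) : ℝ) := fun i =>
    (le_div_iff₀ (by linarith [hp i])).2 (hq i).2
  refine le_trans (mul_le_mul_of_nonneg_right (prod_le_prod (fun j _ => ?_) fun j _ => ?_)
    (Nat.cast_nonneg _)) (h1.symm.le.trans ?_)
  · exact sub_nonneg.2 (prod_le_one (fun i _ => by linarith [h3 i, h4 i])
      fun i _ => by linarith [(hq i).1])
  · exact sub_le_sub_left (prod_le_prod (fun i _ => by linarith [h3 i])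
      fun i _ => by linarith [h4 i]) _
  · rw [card_filter, Nat.cast_sum]
    refine sum_le_sum fun y _ => ?_
    have h5 : ∀ j, (0 : ℝ) ≤ ∏ i with lab i = j, (if y i = g i then (0 : ℝ) else 1) := fun j =>
      prod_nonneg fun i _ => by split_ifs <;> simp
    have h6 : ∀ j, (∏ i with lab i = j, (if y i = g i then (0 : ℝ) else 1)) ≤ 1 := fun j =>
      prod_le_one (fun i _ => by split_ifs <;> simp) fun i _ => by split_ifs <;> simp
    split_ifs with h
    · rw [Nat.cast_one]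
      exact prod_le_one (fun j _ => by linarith [h6 j]) fun j _ => by linarith [h5 j]
    · push Not at h
      obtain ⟨j, hj, h7⟩ := h
      rw [Nat.cast_zero]
      refine (prod_eq_zero hj ?_).le
      rw [prod_eq_one fun i hi => if_neg (h7 i (mem_filter.1 hi).2), sub_self]

theorem wDens : WDens := by
  classical
  intro Γ X ι _ _ x O B G u lab H g q hO hH hind hB
  have hfin : ∀ i : G, Finite (Γ ⧸ H i) := fun i =>
    Nat.finite_of_card_ne_zero (hH i i.2).1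
  let _ : ∀ i : G, Fintype (Γ ⧸ H i) := fun i => Fintype.ofFinite _
  let y₀ : ∀ i : G, Γ ⧸ H i := fun i => ((1 : Γ) : Γ ⧸ H i)
  have hy : ∀ (σ : Γ) (i : G), (σ • y₀) i = (σ : Γ ⧸ H i) := fun σ i => by
    change ((σ * 1 : Γ) : Γ ⧸ H i) = _
    rw [mul_one]
  have htr : ∀ y : ∀ i : G, Γ ⧸ H i, ∃ σ : Γ, σ • y₀ = y := fun y => by
    obtain ⟨σ, hσ⟩ := hind fun i => if h : i ∈ G then (y ⟨i, h⟩).out else 1
    refine ⟨σ, funext fun i => ?_⟩
    have h1 := hσ i i.2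
    rw [dif_pos i.2] at h1
    rw [hy, ← (y i).out_eq]
    exact (QuotientGroup.eq.2 h1).symm
  let Ω : Finset (X × ∀ i : G, Γ ⧸ H i) := (O ×ˢ univ).filter fun w => ∃ σ : Γ, σ • (x, y₀) = w
  have hm : ∀ w, w ∈ Ω ↔ ∃ σ : Γ, σ • (x, y₀) = w := fun w => by
    refine ⟨fun h => (mem_filter.1 h).2, fun h => mem_filter.2 ⟨?_, h⟩⟩
    obtain ⟨σ, rfl⟩ := h
    exact mem_product.2 ⟨(hO _).2 ⟨σ, rfl⟩, mem_univ _⟩
  have hΩ : ∀ σ : Γ, ∀ w ∈ Ω, σ • w ∈ Ω := fun σ w hw => by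
    obtain ⟨τ, rfl⟩ := (hm w).1 hw
    exact (hm _).2 ⟨σ * τ, mul_smul _ _ _⟩
  obtain ⟨c₁, h₁⟩ := w2g_fib Ω hΩ Prod.fst (fun _ _ => rfl) x
  obtain ⟨c₂, h₂⟩ := w2g_fib Ω hΩ Prod.snd (fun _ _ => rfl) y₀
  have e₁ : Ω.card = c₁ * O.card := by
    rw [← h₁ O fun y hy => (hO y).1 hy, filter_true_of_mem]
    intro w hw
    exact (mem_product.1 (mem_filter.1 hw).1).1
  have e₂ : Ω.card = c₂ * Fintype.card (∀ i : G, Γ ⧸ H i) := by
    rw [← card_univ, ← h₂ univ fun y _ => htr y, filter_true_of_mem]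
    intro w _
    exact mem_univ _
  have hc : 0 < c₁ := Nat.pos_of_ne_zero fun h => by
    rw [h, zero_mul, card_eq_zero] at e₁
    have := (hm _).2 ⟨1, rfl⟩
    rw [e₁] at this
    exact notMem_empty _ this
  have k := w2g_cnt (ι := G) (fun i => (g i : Γ ⧸ H i)) (fun i => q i) (fun i => ⟨(hH i i.2).2.1, by
    rw [← Nat.card_eq_fintype_card]; exact (hH i i.2).2.2⟩) (fun i => lab i) u
  set Ev := univ.filter fun y : ∀ i : G, Γ ⧸ H i =>
    ∀ j ∈ range u, ∃ i : G, lab i = j ∧ y i = (g i : Γ ⧸ H i) with hEv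
  have e₃ : c₂ * Ev.card ≤ c₁ * B.card := by
    rw [← h₂ Ev fun y _ => htr y]
    refine le_trans ?_ (Nat.mul_le_mul_left c₁ (card_le_card (inter_subset_left (s₂ := O))))
    rw [← h₁ (B ∩ O) fun y hy => (hO y).1 (mem_inter.1 hy).2]
    refine card_le_card fun w hw => ?_
    obtain ⟨hw1, hw2⟩ := mem_filter.1 hw
    refine mem_filter.2 ⟨hw1, ?_⟩
    obtain ⟨σ, rfl⟩ := (hm w).1 hw1
    refine mem_inter.2 ⟨hB σ fun j hj => ?_, (hO _).2 ⟨σ, rfl⟩⟩
    obtain ⟨i, hi, h3⟩ := (mem_filter.1 hw2).2 j (mem_range.2 hj)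
    exact ⟨i, i.2, hi, QuotientGroup.eq.1 (h3.symm.trans (hy σ i))⟩
  have e₄ : ∀ j, ∏ i ∈ univ.filter (fun i : G => lab i = j), (1 - q (i : ι)) =
      ∏ i ∈ G with lab i = j, (1 - q i) := fun j => by
    rw [prod_filter, prod_filter, ← prod_coe_sort G]
  simp only [e₄] at k
  set P := ∏ j ∈ range u, (1 - ∏ i ∈ G with lab i = j, (1 - q i))
  have hN : (0 : ℝ) < Fintype.card (∀ i : G, Γ ⧸ H i) := by
    exact_mod_cast Fintype.card_pos_iff.2 ⟨y₀⟩
  have hc' : (0 : ℝ) < c₁ := by exact_mod_cast hc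
  have f₁ : (c₁ : ℝ) * O.card = c₂ * Fintype.card (∀ i : G, Γ ⧸ H i) := by
    exact_mod_cast e₁.symm.trans e₂
  have f₃ : (c₂ : ℝ) * Ev.card ≤ c₁ * B.card := by exact_mod_cast e₃
  refine le_of_mul_le_mul_left ?_ hc'
  calc (c₁ : ℝ) * (O.card * P) = c₂ * (P * Fintype.card (∀ i : G, Γ ⧸ H i)) := by
        rw [← mul_assoc, f₁]; ring
    _ ≤ c₂ * Ev.card := mul_le_mul_of_nonneg_left k (Nat.cast_nonneg _)
    _ ≤ _ := f₃

end Pool.Agent.MW
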