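import Pool.Agent.Lib.MP_d61fbb_ag.MW.W2T
import Pool.Agent.Lib.MP_d61fbb_ag.MW.W2G

/-! Block W2: the induction on the potential. -/

open NumberField Ideal Finset

namespace Pool.Agent.MT.W2

theorem lev_bound (E : Type) [Field E] [NumberField E] : ∃ C : ℝ, 0 ≤ C ∧
    ∀ (D : Ideal (𝓞 E)) (M : ℝ), D ≠ 0 → 0 ≤ M → (∀ P, cm D P ≤ M) →
      Real.log (absNorm D) ≤ C * Real.exp (2 * M) := by
  obtain ⟨C, hC, h⟩ := card_ideals_le E
  refine ⟨C, hC, fun D M hD hM0 hM => ?_⟩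
  have h1 := h (Real.exp M) (supp D) (Real.exp_pos M).le fun P hP => by
    obtain ⟨v, a1, -, a2⟩ := cm_spec hD hP
    have a3 := ((mem_supp hD).1 hP).1.ne_zero
    refine ⟨a3, (Real.log_le_iff_le_exp
      (Nat.cast_pos.2 (Nat.pos_of_ne_zero (idl_norm_ne E a3)))).1 ?_⟩
    have a4 : (1 : ℝ) ≤ v := Nat.one_le_cast.2 a1
    nlinarith [hM P, Real.log_natCast_nonneg (absNorm P)]
  have h2 := sum_le_card_nsmul (supp D) (cm D) M fun P _ => hM P
  rw [sum_cm hD, nsmul_eq_mul] at h2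
  rw [two_mul, Real.exp_add, ← mul_assoc]
  exact h2.trans (mul_le_mul h1 (by linarith [Real.add_one_le_exp M]) hM0
    (mul_nonneg hC (Real.exp_pos M).le))

theorem fin_est {X : Type} (O B : Finset X) (sz : X → ℝ) (hBO : B ⊆ O) (h0 : ∀ y, 0 ≤ sz y)
    (h1 : ∀ y, sz y ≤ 1) {t a N : ℝ} {n : ℕ} (t0 : 0 < t) (hB : ∀ y ∈ B, sz y ≤ t ^ n)
    (hN : 0 < N) (h : 1 ≤ (N ^ a) ^ O.card * ∏ y ∈ O, sz y) :
    B.card * (n * -Real.log t) ≤ O.card * (a * Real.log N) := by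
  have h2 : ∏ y ∈ O, sz y ≤ (t ^ n) ^ B.card :=
    (prod_le_prod_of_subset_of_le_one hBO (fun y _ => h0 y) fun y _ _ => h1 y).trans
      ((prod_le_prod (fun y _ => h0 y) hB).trans (prod_const _).le)
  have h3 := Real.log_nonneg (h.trans (mul_le_mul_of_nonneg_left h2 (by positivity)))
  rw [Real.log_mul (by positivity) (by positivity), Real.log_pow, Real.log_pow, Real.log_pow,
    Real.log_rpow hN] at h3
  linarith

theorem log_two_le {N : ℕ} (hN : N ≠ 0) : (Nat.log 2 N : ℝ) ≤ 2 * Real.log N := by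
  have h1 : ((2 : ℝ) ^ Nat.log 2 N) ≤ N := by exact_mod_cast Nat.pow_log_le_self 2 hN
  have h2 := Real.log_le_log (by positivity) h1
  rw [Real.log_pow] at h2
  nlinarith [Real.log_two_gt_d9, Nat.cast_nonneg (α := ℝ) (Nat.log 2 N)]

theorem w_ind_of (hS : WStep2) : WInd := by
  classical
  intro c₀ d
  obtain ⟨J, hJ⟩ := hS c₀ d
  refine ⟨J, fun κ _ E _ _ cj f p t c hd hcj hp hJp hpf hf t0 t1 => ?_⟩
  choose s η M₀ hs hη H using fun k => hJ (E k) (cj k) f p (hd k) (hcj k) hp hJp hpf hf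
  choose C hC hlev using fun k => lev_bound (E k)
  have hτ : 0 < -Real.log t := neg_pos.2 (Real.log_neg t0 t1)
  obtain ⟨C₁, hC₁⟩ : ∃ C₁, C₁ = ∑ k, C k := ⟨_, rfl⟩
  obtain ⟨M₁, m0, hM₁⟩ : ∃ M₁ : ℝ, 0 ≤ M₁ ∧ ∀ k, M₀ k ≤ M₁ ∧
      2 * |c| * C₁ ^ 2 / (min (η k) 1 * -Real.log t) ≤ M₁ := by
    refine ⟨∑ k, (|M₀ k| + |2 * |c| * C₁ ^ 2 / (min (η k) 1 * -Real.log t)|),
      sum_nonneg fun k _ => by positivity, fun k => ?_⟩
    have := single_le_sum (f := fun k => |M₀ k| +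
      |2 * |c| * C₁ ^ 2 / (min (η k) 1 * -Real.log t)|) (fun k _ => by positivity) (mem_univ k)
    constructor
    · linarith [le_abs_self (M₀ k), abs_nonneg (2 * |c| * C₁ ^ 2 / (min (η k) 1 * -Real.log t))]
    · linarith [abs_nonneg (M₀ k), le_abs_self (2 * |c| * C₁ ^ 2 / (min (η k) 1 * -Real.log t))]
  refine ⟨⌈Real.exp (C₁ * Real.exp (2 * M₁))⌉₊, fun X₀ hX Γ X _ _ S hbase => ?_⟩
  have hne : ∀ x k, S.lev x k ≠ 0 := fun x k e => by
    have h := S.lev_cop x k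
    rw [e, map_zero, Nat.coprime_zero_left] at h
    exact hp.not_dvd_one (h ▸ hpf)
  have hN : ∀ x, nLev (S.lev x) ≠ 0 := fun x =>
    prod_ne_zero_iff.2 fun k _ => idl_norm_ne (E k) (hne x k)
  have hT : ∀ x (M : ℝ), 0 ≤ M → (∀ k P, cm (S.lev x k) P ≤ M) →
      Real.log (nLev (S.lev x)) ≤ C₁ * Real.exp (2 * M) := fun x M h0 h => by
    rw [nLev, Nat.cast_prod, Real.log_prod fun k _ =>
      Nat.cast_ne_zero.2 (idl_norm_ne (E k) (hne x k)), hC₁, sum_mul]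
    exact sum_le_sum fun k _ => hlev k _ M (hne x k) h0 (h k)
  suffices h : ∀ n : ℕ, ∀ x, ∑ k, phi (s k) (S.lev x k) < n → S.Z x from
    fun x => (exists_nat_gt _).elim fun n hn => h n x hn
  intro n
  induction n with
  | zero =>
    intro x hx
    exact absurd (sum_nonneg fun k _ => phi_nonneg _ _) (not_le.2 (by simpa using hx))
  | succ n ih =>
  intro x hx
  by_contra hZ
  have hX₀ : X₀ < nLev (S.lev x) := not_le.1 fun h => hZ (hbase x h)
  have hpos : (0 : ℝ) < nLev (S.lev x) := Nat.cast_pos.2 (Nat.pos_of_ne_zero (hN x))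
  obtain ⟨k₁, P₁, h₁⟩ : ∃ k P, M₁ < cm (S.lev x k) P := by
    by_contra h
    have h1 := (Real.log_le_iff_le_exp hpos).1
      (hT x M₁ m0 fun k P => not_lt.1 fun e => h ⟨k, P, e⟩)
    exact absurd (Nat.cast_le.1 (h1.trans (Nat.le_ceil _))) (not_le.2 (hX.trans_lt hX₀))
  have hs₁ : P₁ ∈ supp (S.lev x k₁) := by
    by_contra h
    rw [cm_zero h] at h₁
    exact absurd m0 (not_le.2 h₁)
  obtain ⟨⟨k, P₀⟩, hP₀, hmax⟩ := exists_max_image (univ.sigma fun k => supp (S.lev x k))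
    (fun z => cm (S.lev x z.1) z.2) ⟨⟨k₁, P₁⟩, mem_sigma.2 ⟨mem_univ _, hs₁⟩⟩
  replace hP₀ : P₀ ∈ supp (S.lev x k) := (mem_sigma.1 hP₀).2
  have hM : ∀ k' P, cm (S.lev x k') P ≤ cm (S.lev x k) P₀ := fun k' P => by
    by_cases h : P ∈ supp (S.lev x k')
    · exact hmax ⟨k', P⟩ (mem_sigma.2 ⟨mem_univ _, h⟩)
    · rw [cm_zero h]; exact cm_nonneg _ _
  have hM1 := h₁.trans_le (hM k₁ P₁)
  obtain ⟨R, hR, hcase⟩ := H k (S.lev x k) P₀ (S.lev_cop x k) (S.lev_cj x k) hP₀ (hM k)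
    ((hM₁ k).1.trans hM1.le)
  have hT' := hT x _ (cm_nonneg _ _) hM
  have hpr := ((mem_supp (hne x k)).1 hP₀).1
  generalize cm (S.lev x k) P₀ = M at hM1 hR hcase hT'
  have key : ∀ (σ : Γ) A, S.Al (σ • x) k A → Good (cj k) f p R (s k) (S.lev x k) A →
      σ • x ∈ (S.orb x).filter fun y => S.sz y ≤ t ^ p ^ R := fun σ A hA hG => by
    refine mem_filter.2 ⟨(S.mem_orb _ _).2 ⟨σ, rfl⟩, S.interp _ k R fun w hw => ?_⟩
    obtain ⟨a, β, B, b1, b2, b3⟩ := hG w hw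
    obtain ⟨y, c1, c2, c3⟩ := S.move _ k A B a β hA b1
    rw [S.lev_smul] at c2 c3
    refine ⟨a, β, y, c1, ih y ?_, b2⟩
    have c4 := b3 _ c2
    rw [← add_sum_erase univ _ (mem_univ k), Nat.cast_succ] at hx
    rw [← add_sum_erase univ _ (mem_univ k),
      sum_congr rfl fun k' hk => by rw [c3 k' (ne_of_mem_erase hk)]]
    linarith
  have e0 : 0 < min (η k) 1 := lt_min (hη k) one_pos
  have hc0 : 0 ≤ c₀ * M := mul_nonneg (Nat.cast_nonneg _) (m0.trans hM1.le)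
  have share : ((S.orb x).card : ℝ) * (min (η k) 1 * Real.exp (-(c₀ * M))) ≤
      ((S.orb x).filter fun y => S.sz y ≤ t ^ p ^ R).card := by
    rcases hcase with ⟨r, r1, r2, r3, hG⟩ | ⟨G, lab, u, g1, g2, g3, hG⟩
    · obtain ⟨K, g, k1, k2, k3⟩ := S.densA x k P₀ r
        ((Ideal.isPrime_of_prime hpr).isMaximal hpr.ne_zero) r1 r2
      have n0 : (0 : ℝ) < absNorm P₀ :=
        Nat.cast_pos.2 (Nat.pos_of_ne_zero (idl_norm_ne _ hpr.ne_zero))
      have k4 : (K.index : ℝ) ≤ Real.exp (c₀ * M) := by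
        refine (Nat.cast_le.2 k2).trans ?_
        rw [map_pow, Nat.cast_pow, Nat.cast_pow, Real.exp_nat_mul]
        refine pow_le_pow_left₀ (by positivity) ?_ _
        rw [← Real.log_le_iff_le_exp (by positivity), Real.log_pow]
        exact r3
      have k5 := MW.wDens Γ X Unit x (S.orb x) _ univ 1 (fun _ => 0) (fun _ => K) (fun _ => g)
        (fun _ => Real.exp (-(c₀ * M))) (S.mem_orb x)
        (fun _ _ => ⟨k1, (Real.exp_pos _).le, by
          rw [Real.exp_neg, inv_mul_le_iff₀ (Real.exp_pos _), mul_one]; exact k4⟩)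
        (fun τ => ⟨τ (), fun _ _ => by rw [inv_mul_cancel]; exact K.one_mem⟩)
        fun σ hσ => key σ _ (k3 σ (hσ 0 one_pos).choose_spec.2.2) hG
      refine le_trans (mul_le_mul_of_nonneg_left ?_ (Nat.cast_nonneg _)) k5
      simpa using mul_le_of_le_one_left (Real.exp_pos (-(c₀ * M))).le (min_le_right (η k) 1)
    · obtain ⟨K, g, k1, k2, k3⟩ := S.densB x k G g1 g2
      have k5 := MW.wDens Γ X _ x (S.orb x) _ G u lab K g
        (fun Q => 1 / (2 * (absNorm Q : ℝ))) (S.mem_orb x)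
        (fun Q hQ => ⟨(k1 Q hQ).1, by positivity, by
          have n0 : (0 : ℝ) < absNorm Q := Nat.cast_pos.2 (g1 Q hQ).1.pos
          rw [one_div, inv_mul_le_iff₀ (by positivity), mul_one]
          exact_mod_cast (k1 Q hQ).2⟩) k2
        fun σ hσ => key σ _ (k3 (G.filter fun Q => (g Q)⁻¹ * σ ∈ K Q) (filter_subset _ _) σ
          fun Q hQ => (mem_filter.1 hQ).2) (hG _ (filter_subset _ _) fun j hj => by
            obtain ⟨Q, q1, q2, q3⟩ := hσ j hj
            exact ⟨Q, mem_filter.2 ⟨q1, q3⟩, q2⟩)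
      refine le_trans (mul_le_mul_of_nonneg_left ?_ (Nat.cast_nonneg _)) k5
      exact (mul_le_of_le_one_right e0.le (Real.exp_le_one_iff.2 (neg_nonpos.2 hc0))).trans
        ((min_le_left _ _).trans g3)
  have est := fin_est (n := p ^ R) (S.orb x) ((S.orb x).filter fun y => S.sz y ≤ t ^ p ^ R) S.sz
    (filter_subset _ _) S.sz_nonneg S.sz_le t0
    (fun y hy => (mem_filter.1 hy).2) hpos (S.liou x hX₀.le hZ)
  have o0 : (0 : ℝ) < (S.orb x).card :=
    Nat.cast_pos.2 (card_pos.2 ⟨x, (S.mem_orb _ _).2 ⟨1, one_smul _ _⟩⟩)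
  have l0 := Real.log_natCast_nonneg (nLev (S.lev x))
  have l1 := log_two_le (hN x)
  have l2 : c * Nat.log 2 (nLev (S.lev x)) * Real.log (nLev (S.lev x)) ≤
      2 * |c| * C₁ ^ 2 * Real.exp (4 * M) := by
    have a1 : c * Nat.log 2 (nLev (S.lev x)) ≤ |c| * (2 * Real.log (nLev (S.lev x))) :=
      (mul_le_mul_of_nonneg_right (le_abs_self c) (Nat.cast_nonneg _)).trans
        (mul_le_mul_of_nonneg_left l1 (abs_nonneg c))
    have a2 := mul_le_mul_of_nonneg_left (mul_self_le_mul_self l0 hT') (abs_nonneg c)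
    rw [show 4 * M = 2 * M + 2 * M by ring, Real.exp_add]
    nlinarith [mul_le_mul_of_nonneg_right a1 l0]
  have l3 : min (η k) 1 * -Real.log t * (Real.exp M * Real.exp (4 * M)) ≤
      2 * |c| * C₁ ^ 2 * Real.exp (4 * M) := by
    refine le_of_mul_le_mul_left (le_trans ?_ (est.trans
      (mul_le_mul_of_nonneg_left l2 o0.le))) o0
    rw [Nat.cast_pow]
    refine le_trans (le_of_eq ?_) (mul_le_mul share (mul_le_mul_of_nonneg_right hR hτ.le)
      (by positivity) (Nat.cast_nonneg _))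
    rw [show ((c₀ : ℝ) + 5) * M = c₀ * M + (M + 4 * M) by ring, Real.exp_add, Real.exp_add,
      Real.exp_neg]
    field_simp
  have l4 := (div_le_iff₀ (mul_pos e0 hτ)).1 (hM₁ k).2
  rw [← mul_assoc] at l3
  have l5 := le_of_mul_le_mul_right l3 (Real.exp_pos _)
  have l6 := mul_lt_mul_of_pos_left (show M₁ < Real.exp M by linarith [Real.add_one_le_exp M])
    (mul_pos e0 hτ)
  linarith

end Pool.Agent.MT.W2
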