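import Mathlib

/-! Block W2: splitting a family of small weights into groups of comparable mass. -/

set_option autoImplicit false

open Finset

namespace Pool.Agent.MW

theorem group_ex {ι : Type} {θ : ℝ} (hθ : 0 < θ) (x : ι → ℝ) (u : ℕ) :
    ∀ G : Finset ι, (∀ i ∈ G, 0 ≤ x i ∧ x i ≤ θ) → 2 * u * θ ≤ ∑ i ∈ G, x i →
      ∃ lab : ι → ℕ, ∀ j < u, θ ≤ ∑ i ∈ G with lab i = j, x i := by
  classical
  induction u with
  | zero => exact fun G _ _ => ⟨fun _ => 0, fun j hj => absurd hj (Nat.not_lt_zero j)⟩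
  | succ u ih =>
    intro G hx hs
    push_cast at hs
    have hu : (0 : ℝ) ≤ u * θ := by positivity
    obtain ⟨T, hT, hmin⟩ := exists_min_image (G.powerset.filter fun T => θ ≤ ∑ i ∈ T, x i) card
      ⟨G, mem_filter.2 ⟨mem_powerset_self G, by linarith⟩⟩
    obtain ⟨h1, h2⟩ := mem_filter.1 hT
    rw [mem_powerset] at h1
    obtain ⟨a, ha⟩ : T.Nonempty := by
      rw [nonempty_iff_ne_empty]
      rintro rfl
      exact absurd h2 (by simpa using hθ)
    have h3 : ∑ i ∈ T.erase a, x i < θ := by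
      by_contra h
      have := hmin _ (mem_filter.2 ⟨mem_powerset.2 ((erase_subset a T).trans h1), not_lt.1 h⟩)
      exact absurd this (not_le.2 (card_erase_lt_of_mem ha))
    have h4 := add_sum_erase T x ha
    have h5 := sum_sdiff (f := x) h1
    obtain ⟨lab, hl⟩ := ih (G \ T) (fun i hi => hx i (mem_sdiff.1 hi).1)
      (by linarith [(hx a (h1 ha)).2])
    refine ⟨fun i => if i ∈ T then u else lab i, fun j hj => ?_⟩
    rcases Nat.lt_succ_iff_lt_or_eq.1 hj with hj | rfl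
    · refine (hl j hj).trans (sum_le_sum_of_subset_of_nonneg (fun i hi => ?_)
        fun i hi _ => (hx i (mem_filter.1 hi).1).1)
      obtain ⟨e1, e2⟩ := mem_filter.1 hi
      exact mem_filter.2 ⟨(mem_sdiff.1 e1).1, by simp only [if_neg (mem_sdiff.1 e1).2, e2]⟩
    · exact h2.trans (sum_le_sum_of_subset_of_nonneg
        (fun i hi => mem_filter.2 ⟨h1 hi, by simp only [if_pos hi]⟩)
        fun i hi _ => (hx i (mem_filter.1 hi).1).1)

/-- every group is hit with probability at least `1 - exp (-θ)` -/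
theorem group_prob {ι : Type} {θ : ℝ} (hθ : 0 < θ) (hθ1 : θ ≤ 1) (x : ι → ℝ) (u : ℕ)
    (G : Finset ι) (hx : ∀ i ∈ G, 0 ≤ x i ∧ x i ≤ θ) (hs : 2 * u * θ ≤ ∑ i ∈ G, x i) :
    ∃ lab : ι → ℕ, (1 - Real.exp (-θ)) ^ u ≤
      ∏ j ∈ range u, (1 - ∏ i ∈ G with lab i = j, (1 - x i)) := by
  obtain ⟨lab, hl⟩ := group_ex hθ x u G hx hs
  refine ⟨lab, ?_⟩
  have h0 : 0 ≤ 1 - Real.exp (-θ) := sub_nonneg.2 (Real.exp_le_one_iff.2 (by linarith))
  rw [← card_range u, ← prod_const, card_range]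
  refine prod_le_prod (fun _ _ => h0) fun j hj => sub_le_sub_left ?_ 1
  refine le_trans (prod_le_prod (g := fun i => Real.exp (-x i))
    (fun i hi => by linarith [(hx i (mem_filter.1 hi).1).2])
    fun i _ => by linarith [Real.add_one_le_exp (-x i)]) ?_
  rw [← Real.exp_sum, sum_neg_distrib]
  exact Real.exp_le_exp.2 (neg_le_neg (hl j (mem_range.1 hj)))

end Pool.Agent.MW
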