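import Pool.Agent.Lib.MP_d61fbb_ag.MW.WPhi
import Pool.Agent.Lib.MP_d61fbb_ag.MW.WDefs

/-! Block W2: the statements of the covering lemma and of one step. -/

open NumberField Ideal

namespace Pool.Agent.MT.W2

/-- After removing `A` every class modulo `f p ^ R` holds a move that lowers the potential. -/
def Good {E : Type} [Field E] [NumberField E] (cj : 𝓞 E ≃+* 𝓞 E) (f p R s : ℕ)
    (D A : Ideal (𝓞 E)) : Prop :=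
  ∀ w : 𝓞 E, (f : 𝓞 E) ∣ w - 1 → ∃ (a β : 𝓞 E) (B : Ideal (𝓞 E)), Mv f A B a β ∧
    Near cj f (f * p ^ R) w a β ∧
    ∀ D', D' * (A * A.map cj) = D * (B * B.map cj) → phi s D' + 1 ≤ phi s D

/-- Every class modulo `f p ^ (J t)` holds a move by a product of small elements. -/
def WCov2 : Prop :=
  ∀ (E : Type) [Field E] [NumberField E] (cj : 𝓞 E ≃+* 𝓞 E), (∀ x, cj (cj x) = x) →
    ∀ p f J : ℕ, p.Prime → J < p → p ∣ f → f ≠ 0 → ∃ C : ℝ, 1 ≤ C ∧ ∀ ε : ℝ, 0 < ε →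
      ∃ t₀ : ℕ, ∀ t, t₀ ≤ t → ∀ A : Ideal (𝓞 E), (absNorm A).Coprime f →
      ∀ Hv : Finset (Ideal (𝓞 E)), (∀ Q ∈ Hv, Prime Q) → ∀ w : 𝓞 E, (f : 𝓞 E) ∣ w - 1 →
      ∃ (a β : 𝓞 E) (B Bb Bg : Ideal (𝓞 E)), Mv f A B a β ∧ Near cj f (f * p ^ (J * t)) w a β ∧
        B * B.map cj = Bb * Bg * (Bb * Bg).map cj ∧ Bb ≠ 0 ∧ Bg ≠ 0 ∧
        Real.log (absNorm Bb) ≤ C * (∑ Q ∈ Hv, Real.log (absNorm Q) / absNorm Q) + ε * t ∧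
        Real.log (absNorm Bg) ≤ 2 ^ (J + 2) * (C + 4 * Module.finrank ℚ E * t * Real.log p) ∧
        ∀ Q, Prime Q → ∀ v : ℕ, 0 < v → Q ^ v ∣ Bg →
          Q ∉ Hv ∧ v * Real.log (absNorm Q) ≤ C + 4 * Module.finrank ℚ E * t * Real.log p

/-- One step: an aligned power of the heaviest prime, or groups of heavy primes. -/
def WStep2 : Prop :=
  ∀ c₀ d : ℕ, ∃ J : ℕ, ∀ (E : Type) [Field E] [NumberField E] (cj : 𝓞 E ≃+* 𝓞 E) (f p : ℕ),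
    Module.finrank ℚ E ≤ d → (∀ x, cj (cj x) = x) → p.Prime → J < p → p ∣ f → f ≠ 0 →
    ∃ (s : ℕ) (η M₀ : ℝ), s ≠ 0 ∧ 0 < η ∧ ∀ D P₀ : Ideal (𝓞 E), (absNorm D).Coprime f →
      D.map cj = D → P₀ ∈ supp D → (∀ P, cm D P ≤ cm D P₀) → M₀ ≤ cm D P₀ →
      ∃ R : ℕ, Real.exp ((c₀ + 5) * cm D P₀) ≤ (p : ℝ) ^ R ∧
        ((∃ r : ℕ, 1 ≤ r ∧ P₀ ^ (2 * r - 1) ∣ D ∧ r * Real.log (absNorm P₀) ≤ cm D P₀ ∧
            Good cj f p R s D (P₀ ^ r)) ∨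
          ∃ (G : Finset (Ideal (𝓞 E))) (lab : Ideal (𝓞 E) → ℕ) (u : ℕ),
            (∀ P ∈ G, (absNorm P).Prime ∧ P ∣ D) ∧
            (∀ P ∈ G, ∀ Q ∈ G, absNorm P = absNorm Q → P = Q) ∧
            η ≤ ∏ j ∈ Finset.range u,
              (1 - ∏ Q ∈ G with lab Q = j, (1 - 1 / (2 * (absNorm Q : ℝ)))) ∧
            ∀ S ⊆ G, (∀ j < u, ∃ Q ∈ S, lab Q = j) → Good cj f p R s D (∏ P ∈ S, P))

end Pool.Agent.MT.W2
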