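import Pool.Agent.Lib.MP_d61fbb_ag.MT.BAl3

/-! First order deformations of a theta function that have a complement are theta functions. -/

set_option autoImplicit false

namespace Pool.Agent.MT

open Finset Module

theorem wal_growth (g M : ℕ) : ∃ r₀, ∀ r, r₀ ≤ r → (r + M) ^ g < 2 * r ^ g := by
  obtain ⟨j, hj⟩ := bal_growth g M 1 one_pos
  refine ⟨4 ^ (j + 1) * 1, fun r hr => ?_⟩
  have h0 : 0 < 4 ^ (j + 1) * 1 := by positivity
  generalize 4 ^ (j + 1) * 1 = s at *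
  refine lt_of_mul_lt_mul_left (a := s ^ g) ?_ (Nat.zero_le _)
  calc s ^ g * (r + M) ^ g ≤ (M + s) ^ g * r ^ g := by
        rw [← mul_pow, ← mul_pow]
        exact Nat.pow_le_pow_left (by nlinarith) g
    _ < 2 * s ^ g * r ^ g := mul_lt_mul_of_pos_right hj (pow_pos (h0.trans_le hr) g)
    _ = _ := by ring

namespace BSys

variable {k W A B : Type*} [Field k] [AddCommGroup W] [Module ℚ W] [AddCommGroup A]
  [Module ℚ A] [AddCommGroup B] (T : BSys k W A B)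

/-- the commutator pairing in weight `N` is large -/
def Nd (N : ℕ) : Prop :=
  ∃ s : Finset W, ((T.c * N) ^ T.g) ^ 2 ≤ s.card ∧ (∀ y ∈ s, y ∈ T.Y N 1) ∧
    ∀ y ∈ s, ∀ y' ∈ s, (∀ z ∈ T.Y N 1, T.ψ ((2 * N) • T.E y z) = T.ψ ((2 * N) • T.E y' z)) → y = y'

/-- the dilated lattices have many characters -/
def Nd2 (N : ℕ) : Prop :=
  ∀ j, ∃ s : Finset W, (4 ^ j) ^ T.g ≤ s.card ∧ (∀ y ∈ s, y ∈ T.Y N (2 ^ j)) ∧
    ∀ y ∈ s, ∀ y' ∈ s, (∀ l ∈ T.L, T.ψ ((2 * N) • T.E y l) = T.ψ ((2 * N) • T.E y' l)) → y = y'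

/-- the space of weight `d + t` generated by a family of weight `d` -/
noncomputable def K {ι : Type*} (X : ι → W → k) (d t : ℕ) : Submodule k (W → k) :=
  T.H (d + t) 0 ⊔ ⨆ i, (T.H t 0).map (LinearMap.mulLeft k (X i))

lemma U_U (r : ℕ) (y w : W) (f : W → k) :
    T.U r w (T.U r y f) = T.ψ (r • T.E y w) • T.U r (y + w) f := funext fun x => by
  simp only [U_apply, Pi.smul_apply, smul_eq_mul, map_add, LinearMap.add_apply, smul_add, ψ_add,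
    add_assoc, add_comm y]
  ring

lemma U_zero (r : ℕ) (f : W → k) : T.U r 0 f = f := funext fun x => by simp [U_apply]

lemma U_mix (r : ℕ) (y : W) (φ f : W → k) (x : W) :
    (T.U r y φ * T.U r (-y) f) x = φ (x + y) * f (x - y) := by
  rw [Pi.mul_apply, U_apply, U_apply, mul_mul_mul_comm, ← ψ_add, sub_eq_add_neg]
  simp

lemma Iv_mix {r : ℕ} {φ f : W → k} (hφ : φ ∈ T.Iv r) (hf : f ∈ T.Iv r) (y : W) :
    T.U r y φ * T.U r (-y) f ∈ T.Iv (r + r) := T.mem_Iv.2 fun l hl x => by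
  rw [U_mix, U_mix, ← T.mem_Iv.1 hφ l hl (x + y), ← T.mem_Iv.1 hf l hl (x - y),
    mul_mul_mul_comm, ← ψ_add, add_right_comm x l y, add_sub_right_comm x l y]
  congr 2
  rw [map_add, map_sub]
  module

lemma Iv_neg {r : ℕ} {f : W → k} (hf : f ∈ T.Iv r) : (fun x => f (-x)) ∈ T.Iv r :=
  T.mem_Iv.2 fun l hl x => by simpa [add_comm] using T.mem_Iv.1 hf _ (neg_mem hl) (-x)

lemma Iv_dil {r : ℕ} {f : W → k} (m : ℕ) (hf : f ∈ T.Iv r) : dil m f ∈ T.Iv (m ^ 2 * r) :=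
  fun l hl => (T.dil_U r m l f).symm.trans (congrArg _ (hf _ (T.L.nsmul_mem hl m)))

lemma Y_mul {N : ℕ} {y : W} (hy : y ∈ T.Y N 1) (n : ℕ) : y ∈ T.Y (n * N) 1 :=
  ⟨hy.1, fun l hl => by
    rw [mul_left_comm, mul_smul, AddChar.map_nsmul_eq_pow, hy.2 l hl, one_pow]⟩

lemma heis {N : ℕ} (h : T.Nd N) (P Q : Submodule k (W → k)) [Module.Finite k Q]
    (hP : ∀ z ∈ T.Y N 1, ∀ v ∈ P, T.U N z v ∈ P) (hQ : ∀ z ∈ T.Y N 1, ∀ v ∈ Q, T.U N z v ∈ Q)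
    (lt : P < Q) : finrank k P + (T.c * N) ^ T.g ≤ finrank k Q := by
  obtain ⟨s₁, c1, y1, n1⟩ := h
  exact bal_heis2 (fun z : T.Y N 1 => T.U N z) (fun z => T.U_neg N z)
    (fun i : s₁ => ⟨i, y1 _ i.2⟩)
    (fun i => T.ψ.compAddMonoidHom (((2 * N) • T.E i).toAddMonoidHom.comp (T.Y N 1).subtype))
    (fun i i' e => Subtype.ext (n1 _ i.2 _ i'.2 fun l hl => DFunLike.congr_fun e ⟨l, hl⟩))
    (fun i z => T.U_comm N i z) (c1.trans_eq (Fintype.card_coe _).symm) P Q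
    (fun z => hP z z.2) (fun z => hQ z z.2) lt

lemma nz (r : ℕ) (x : W) : ∃ h ∈ T.H r 0 ⊓ T.Iv r, h x ≠ 0 := by
  obtain ⟨η, hη, e⟩ := T.nv x
  exact ⟨_, T.th_pow hη r, pow_ne_zero r (T.th_ne (a := 1) e)⟩

/-- a stable space of small dimension consists of theta functions -/
lemma small {N : ℕ} (h : T.Nd N) (Q : Submodule k (W → k)) [Module.Finite k Q]
    (hQ : ∀ z ∈ T.Y N 1, ∀ v ∈ Q, T.U N z v ∈ Q) (le : T.H N 0 ⊓ T.Iv N ≤ Q)
    (hd : finrank k Q < 2 * (T.c * N) ^ T.g) : Q ≤ T.H N 0 := by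
  have := Submodule.finiteDimensional_of_le le
  have sH : ∀ z ∈ T.Y N 1, ∀ v ∈ T.H N 0 ⊓ T.Iv N, T.U N z v ∈ T.H N 0 ⊓ T.Iv N := fun z hz v hv =>
    ⟨T.H_cast (T.H_U z hv.1) rfl (by rw [hz.1, smul_zero, add_zero]), T.Iv_U hz hv.2⟩
  obtain ⟨u, hu, u0⟩ := T.nz N 0
  have b1 := T.heis h ⊥ _ (fun z _ v hv => by rw [(Submodule.mem_bot k).1 hv, map_zero]; rfl) sH
    (bot_lt_iff_ne_bot.2 ((Submodule.ne_bot_iff _).2 ⟨u, hu, fun e => u0 (congrFun e 0)⟩))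
  by_contra hn
  have b2 := T.heis h _ Q sH hQ (lt_of_le_of_ne le fun e => hn (e.ge.trans inf_le_left))
  omega

variable {T} {r s : ℕ} {f h : W → k}

lemma H0_mul (hf : f ∈ T.H r 0) (hh : h ∈ T.H s 0) : f * h ∈ T.H (r + s) 0 :=
  T.H_cast (T.H_mul hf hh) rfl (add_zero _)

lemma H0_U [Subsingleton B] (y : W) (hf : f ∈ T.H r 0) : T.U r y f ∈ T.H r 0 :=
  T.H_cast (T.H_U y hf) rfl (Subsingleton.elim _ _)

lemma H0_dil (m : ℕ) (hf : f ∈ T.H r 0) : dil m f ∈ T.H (m ^ 2 * r) 0 :=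
  T.H_cast (T.dil_H m hf) rfl (smul_zero _)

lemma H0_neg (hf : f ∈ T.H r 0) : (fun x => f (-x)) ∈ T.H r 0 := by
  simpa using T.H_sc (-1) hf

variable {ι : Type*} {X : ι → W → k} {d t : ℕ}

lemma K_H (hf : f ∈ T.H r 0) (e : r = d + t) : f ∈ T.K X d t := Submodule.mem_sup_left (e ▸ hf)

lemma K_X (i : ι) (hf : f ∈ T.H r 0) (e : r = t) : X i * f ∈ T.K X d t :=
  Submodule.mem_sup_right (Submodule.mem_iSup_of_mem i ⟨f, e ▸ hf, rfl⟩)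

lemma K_ind (P : Submodule k (W → k)) (Φ : (W → k) →ₗ[k] W → k)
    (h1 : ∀ f ∈ T.H (d + t) 0, Φ f ∈ P) (h2 : ∀ i, ∀ f ∈ T.H t 0, Φ (X i * f) ∈ P) :
    ∀ f ∈ T.K X d t, Φ f ∈ P :=
  show T.K X d t ≤ P.comap Φ from sup_le h1 (iSup_le fun i =>
    Submodule.map_le_iff_le_comap.2 (h2 i))

lemma K_mul (hh : h ∈ T.H s 0) : ∀ f ∈ T.K X d t, f * h ∈ T.K X d (t + s) :=
  K_ind _ (LinearMap.mulRight k h) (fun _ hf => K_H (H0_mul hf hh) (add_assoc _ _ _))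
    fun i f hf => by
      rw [LinearMap.mulRight_apply, mul_assoc]
      exact K_X i (H0_mul hf hh) rfl

lemma K_U [Subsingleton B] (hX : ∀ i w, ∃ (c : k) (i' : ι), T.U d w (X i) = c • X i') (w : W) :
    ∀ f ∈ T.K X d t, T.U (d + t) w f ∈ T.K X d t :=
  K_ind _ (T.U _ w) (fun _ hf => K_H (H0_U w hf) rfl) fun i f hf => by
    obtain ⟨c, i', e⟩ := hX i w
    rw [U_mul, e, smul_mul_assoc]
    exact Submodule.smul_mem _ _ (K_X i' (H0_U w hf) rfl)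

lemma K_rank [Infinite k] {M : ℕ} (hG : ∀ x, ∃ u ∈ T.H M 0 ⊓ T.Iv M, u x ≠ 0 ∧
    ∀ i, X i * u ∈ T.H (d + M) 0) (ht : 0 < d + t) :
    Module.rank k (T.K X d t ⊓ T.Iv (d + t) :) ≤ ((T.c * (d + t + M)) ^ T.g : ℕ) := by
  refine bal_rank _ _ (T.H M 0 ⊓ T.Iv M ⊓ ⨅ i, (T.H (d + M) 0).comap (LinearMap.mulLeft k (X i)))
    1 _ (fun x => ?_) (fun u hu f hf => ?_) (T.dim (d + t + M) (by omega))
  · obtain ⟨u, h1, h2, h3⟩ := hG x
    exact ⟨u, ⟨h1, (Submodule.mem_iInf _).2 h3⟩, h2⟩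
  · rw [pow_one]
    refine ⟨K_ind _ (LinearMap.mulRight k u) (fun _ hf => H0_mul hf hu.1.1) (fun i f hf => ?_) f hf.1,
      T.Iv_mul hf.2 hu.1.2⟩
    rw [LinearMap.mulRight_apply, mul_right_comm]
    exact T.H_cast (H0_mul ((Submodule.mem_iInf _).1 hu.2 i) hf) (by ring) rfl

variable [Subsingleton B] {N : ℕ} {F D : W → k}

/-- the restriction to the antidiagonal -/
lemma diag_one [Infinite k] (h2 : (2 : k) ≠ 0) (hN : 0 < N)
    (nd : ∀ M, ∃ n, M ≤ n ∧ T.Nd ((2 * n + 3) * N)) (hF : F ∈ T.H N 0 ⊓ T.Iv N) (hD : D ∈ T.Iv N)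
    (F0 : F 0 ≠ 0) (Fe : ∀ x, F (-x) = F x) (De : ∀ x, D (-x) = D x) {M : ℕ}
    (hA : ∀ x, ∃ u ∈ T.H M 0 ⊓ T.Iv M, u x ≠ 0 ∧ ∀ y z,
      (T.U N y D * T.U N z F - T.U N z D * T.U N y F) * u ∈ T.H (N + N + M) 0) :
    ∃ n, ∀ h ∈ T.H (n * N) 0 ⊓ T.Iv (n * N), D * F * dil 2 h ∈ T.H (N + N + 2 ^ 2 * (n * N)) 0 := by
  obtain ⟨r₀, hr⟩ := wal_growth T.g M
  obtain ⟨n, hn, nd⟩ := nd r₀
  have e0 : (2 * n + 3) * N = N + N + (n * N + (N + n * N)) := by ring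
  rw [e0] at nd
  let X : W × W → W → k := fun p => T.U N p.1 D * T.U N p.2 F - T.U N p.2 D * T.U N p.1 F
  have hb := K_rank (X := X) (t := n * N + (N + n * N)) (fun x => (hA x).imp fun u hu =>
    ⟨hu.1, hu.2.1, fun p => hu.2.2 p.1 p.2⟩) (by omega)
  have := Module.rank_lt_aleph0_iff.1 (hb.trans_lt Cardinal.natCast_lt_aleph0)
  have hK := T.small nd (T.K X (N + N) _ ⊓ T.Iv _) (fun z hz v hv => ⟨K_U (fun p w =>
    ⟨T.ψ (N • T.E p.1 w) * T.ψ (N • T.E p.2 w), (p.1 + w, p.2 + w), by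
      simp only [X, map_sub, U_mul, U_U, smul_mul_smul_comm, smul_sub,
        mul_comm (T.ψ (N • T.E p.2 w))]⟩) z v hv.1, T.Iv_U hz hv.2⟩)
    (fun f hf => ⟨K_H hf.1 rfl, hf.2⟩) ((finrank_le_of_rank_le hb).trans_lt (by
      rw [mul_pow, mul_pow, mul_left_comm]
      exact mul_lt_mul_of_pos_left (hr _ (by nlinarith)) (pow_pos T.c_pos _)))
  obtain ⟨s, hs, s0⟩ := T.nz (n * N) 0
  let Φ : (W → k) → W → W → k := fun h x y => s (x + y) * h (x - y) *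
    (D (x + y) * F x * F y - F (x + y) * (D x * F y + F x * D y))
  have hΦ : ∀ h ∈ T.H (N + n * N) 0 ⊓ T.Iv (N + n * N), ∀ y, (fun x => Φ h x y) ∈
      T.H (N + N + (n * N + (N + n * N))) 0 ⊓ T.Iv (N + N + (n * N + (N + n * N))) := by
    intro h hh y
    have e1 : (fun x => Φ h x y) = F y • (T.U (N + n * N) y (D * s) * T.U (N + n * N) (-y) h * F -
        T.U (N + n * N) y (F * s) * T.U (N + n * N) (-y) h * D) -
        D y • (T.U (N + n * N) y (F * s) * T.U (N + n * N) (-y) h * F) := funext fun x => by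
      simp only [Pi.sub_apply, Pi.smul_apply, Pi.mul_apply (_ * _), U_mix, smul_eq_mul, Φ]
      simp only [Pi.mul_apply]
      ring
    have e2 : N + n * N + (N + n * N) + N = N + N + (n * N + (N + n * N)) := by ring
    have i1 := e2 ▸ T.Iv_mul (T.Iv_mix (T.Iv_mul hD hs.2) hh.2 y) hF.2
    have i2 := e2 ▸ T.Iv_mul (T.Iv_mix (T.Iv_mul hF.2 hs.2) hh.2 y) hD
    have i3 := e2 ▸ T.Iv_mul (T.Iv_mix (T.Iv_mul hF.2 hs.2) hh.2 y) hF.2
    rw [e1]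
    refine ⟨sub_mem (Submodule.smul_mem _ _ (hK ⟨?_, sub_mem i1 i2⟩)) (Submodule.smul_mem _ _
      (e2 ▸ H0_mul (H0_mul (H0_U y (H0_mul hF.1 hs.1)) (H0_U _ hh.1)) hF.1)),
      sub_mem (Submodule.smul_mem _ _ (sub_mem i1 i2)) (Submodule.smul_mem _ _ i3)⟩
    have := K_X (X := X) (d := N + N) (y, 0) (H0_mul (H0_U y hs.1) (H0_U (-y) hh.1)) rfl
    simp only [X, U_zero] at this
    rw [U_mul, U_mul]
    exact (congrArg (· ∈ _) (by ring)).mp this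
  refine ⟨n + 1, fun h hh => ?_⟩
  rw [show (n + 1) * N = N + n * N by ring] at hh ⊢
  have : Module.Finite k (T.H (N + N + (n * N + (N + n * N))) 0 ⊓
      T.Iv (N + N + (n * N + (N + n * N))) :) := Module.rank_lt_aleph0_iff.1
    ((T.dim _ (by omega)).trans_lt Cardinal.natCast_lt_aleph0)
  have h3 := bal_diag _ (T.H (N + N + 2 ^ 2 * (N + n * N)) 0) (Φ h) Neg.neg (hΦ h hh)
    fun x₀ a ha => T.H_cast (H0_mul ((congrArg (· ∈ _) (funext fun x => by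
      simp only [Φ, neg_sub, add_comm x₀]
      ring)).mp (H0_neg (hΦ _ ⟨H0_neg hh.1, T.Iv_neg hh.2⟩ x₀).1)) ha.1) (by ring) rfl
  have h4 := sub_mem (Submodule.smul_mem _ (s 0 * D 0)
    (H0_mul (H0_mul hF.1 hF.1) (H0_dil 2 hh.1))) h3
  refine (Submodule.smul_mem_iff _ (mul_ne_zero (mul_ne_zero h2 s0) F0)).1
    ((congrArg (· ∈ _) (funext fun x => ?_)).mp h4)
  simp only [Pi.sub_apply, Pi.smul_apply, Pi.mul_apply, dil_apply, smul_eq_mul, Φ, add_neg_cancel,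
    sub_neg_eq_add, Fe, De, two_smul]
  ring

lemma dil_pow_one
    (hR : dil 2 D ∈ T.K (fun y => T.U N y D) N (3 * N)) (j : ℕ) : ∃ t, N + t = (2 ^ (j + 1)) ^ 2 * N ∧
      ∀ y, dil (2 ^ (j + 1)) (T.U N y D) ∈ T.K (fun y => T.U N y D) N t := by
  have h1 : ∀ y, dil 2 (T.U N y D) ∈ T.K (fun y => T.U N y D) N (3 * N) := fun y => by
    rw [show y = 2 • (1 / 2 : ℚ) • y by module, dil_U, show 2 ^ 2 * N = N + 3 * N by ring]
    exact K_U (fun i w => ⟨_, _, T.U_U N i w D⟩) _ _ hR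
  induction j with
  | zero => exact ⟨3 * N, by ring, h1⟩
  | succ j ih =>
    obtain ⟨t, e, ih⟩ := ih
    refine ⟨t + (2 ^ (j + 1)) ^ 2 * (3 * N), by rw [← add_assoc, e]; ring, fun y => ?_⟩
    rw [show dil (2 ^ (j + 1 + 1)) (T.U N y D) = dil (2 ^ (j + 1)) (dil 2 (T.U N y D)) from
      funext fun x => by simp only [dil_apply, smul_smul, pow_succ' 2 (j + 1)]]
    refine K_ind _ (dil _).toLinearMap (fun f hf => K_H (H0_dil _ hf) ?_) (fun i f hf => ?_) _ (h1 y)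
    · rw [← add_assoc, e]
      ring
    · rw [AlgHom.toLinearMap_apply, map_mul]
      exact K_mul (H0_dil _ hf) _ (ih i)

/-- A first order deformation `D` of the theta function `F` is a theta function. -/
theorem first [Infinite k] (h2 : (2 : k) ≠ 0) (hN : 0 < N) (nd1 : T.Nd N) (nd2 : T.Nd2 N)
    (nd : ∀ M, ∃ n, M ≤ n ∧ T.Nd ((2 * n + 3) * N)) (hF : F ∈ T.H N 0 ⊓ T.Iv N) (hD : D ∈ T.Iv N)
    (F0 : F 0 ≠ 0) (Fe : ∀ x, F (-x) = F x) (De : ∀ x, D (-x) = D x)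
    (nv : ∀ x, ∃ z ∈ T.Y N 1, F (x + z) ≠ 0) {M : ℕ}
    (hA : ∀ x, ∃ u ∈ T.H M 0 ⊓ T.Iv M, u x ≠ 0 ∧ ∀ y z,
      (T.U N y D * T.U N z F - T.U N z D * T.U N y F) * u ∈ T.H (N + N + M) 0)
    (hR : dil 2 D ∈ T.K (fun y => T.U N y D) N (3 * N)) : D ∈ T.H N 0 := by
  obtain ⟨n, hn⟩ := diag_one h2 hN nd hF hD F0 Fe De hA
  have hG : ∀ x, ∃ v ∈ T.H (N + N + 2 ^ 2 * (n * N) + M) 0 ⊓ T.Iv (N + N + 2 ^ 2 * (n * N) + M),
      v x ≠ 0 ∧ ∀ y, T.U N y D * v ∈ T.H (N + (N + N + 2 ^ 2 * (n * N) + M)) 0 := fun x => by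
    obtain ⟨z, hz, z0⟩ := nv x
    obtain ⟨h, hh, h0⟩ := T.nz (n * N) (2 • (x + z))
    obtain ⟨u, hu, u0, hA⟩ := hA x
    have a1 := H0_U z hF.1
    have a2 := H0_U z (H0_dil 2 hh.1)
    have a3 := T.Iv_U hz hF.2
    have a4 := H0_U z (hn h hh)
    rw [U_mul, U_mul] at a4
    have n1 : T.U N z F x ≠ 0 := mul_ne_zero (T.ψ_ne _) z0
    refine ⟨T.U N z F * T.U N z F * T.U _ z (dil 2 h) * u, ⟨H0_mul (H0_mul (H0_mul a1 a1) a2) hu.1,
      T.Iv_mul (T.Iv_mul (T.Iv_mul a3 a3) (T.Iv_U (mul_assoc _ n N ▸ T.Y_mul hz (2 ^ 2 * n))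
        (T.Iv_dil 2 hh.2))) hu.2⟩, mul_ne_zero (mul_ne_zero (mul_ne_zero n1 n1)
          (mul_ne_zero (T.ψ_ne _) h0)) u0, fun y => ?_⟩
    refine (congrArg (· ∈ _) (by ring)).mp (add_mem
      (T.H_cast (H0_mul (hA y z) (H0_mul a1 a2)) (by ring) rfl)
      (T.H_cast (H0_mul (H0_mul a4 hu.1) (H0_mul (H0_U y hF.1) T.H_one)) (by ring) rfl))
  generalize N + N + 2 ^ 2 * (n * N) + M = M' at hG
  obtain ⟨j, hj⟩ := bal_growth T.g M' N hN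
  obtain ⟨t, sq, hd⟩ := dil_pow_one hR j
  have hb := K_rank (t := t) hG (by omega)
  have := Module.rank_lt_aleph0_iff.1 (hb.trans_lt Cardinal.natCast_lt_aleph0)
  have m0 : 2 ^ (j + 1) ≠ 0 := by positivity
  have dR : ∀ y (f : W → k), dil (2 ^ (j + 1)) f ∈ T.K (fun y => T.U N y D) N t →
      dil (2 ^ (j + 1)) (T.U N y f) ∈ T.K (fun y => T.U N y D) N t := fun y f hf => by
    have := K_U (fun i w => ⟨_, _, T.U_U N i w D⟩) (((2 ^ (j + 1) : ℕ) : ℚ)⁻¹ • y) _ hf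
    rwa [sq, ← dil_U, ← Nat.cast_smul_eq_nsmul ℚ, smul_inv_smul₀ (Nat.cast_ne_zero.2 m0)] at this
  obtain ⟨s₂, c2, y2, n2⟩ := nd2 (j + 1)
  obtain ⟨fZ, hZ⟩ := mult ((T.K (fun y => T.U N y D) N t).comap (dil (2 ^ (j + 1))).toLinearMap ⊓
    T.Iv N) (T.K (fun y => T.U N y D) N t ⊓ T.Iv (N + t)) s₂ (dil (2 ^ (j + 1))).toLinearMap
    (dil_inj m0) inf_le_right (card_pos.1 (lt_of_lt_of_le (by positivity) c2)) (fun y hy f hf =>
      ⟨dR y f hf.1, fun l hl => by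
        have := T.dil_U N (2 ^ (j + 1)) l (T.U N y f)
        rw [← sq, T.U_comm, (y2 y hy).2 l hl, one_smul,
          show T.U N _ f = f from hf.2 _ (T.L.nsmul_mem hl _)] at this
        exact this.symm⟩) n2
  refine T.small nd1 ((T.K (fun y => T.U N y D) N t).comap (dil (2 ^ (j + 1))).toLinearMap ⊓
    T.Iv N) (fun z hz v hv => ⟨dR z v hv.1, T.Iv_U hz hv.2⟩)
    (fun f hf => ⟨K_H (H0_dil _ hf.1) sq.symm, hf.2⟩) ?_
    ⟨(congrArg (fun f => dil _ f ∈ _) (T.U_zero N D)).mp (hd 0), hD⟩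
  have b3 := (Nat.mul_le_mul_right _ c2).trans (hZ.trans (finrank_le_of_rank_le hb))
  have b4 := mul_lt_mul_of_pos_left hj (pow_pos T.c_pos T.g)
  rw [sq, ← pow_mul 2, mul_comm (j + 1), pow_mul 2, add_comm _ M', mul_pow] at b3
  refine lt_of_mul_lt_mul_left (a := (4 ^ (j + 1)) ^ T.g) (b3.trans_lt (b4.trans_eq ?_))
    (Nat.zero_le _)
  simp only [mul_pow]
  ring

end BSys

end Pool.Agent.MT
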