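import Pool.Agent.Lib.MP_d61fbb_ag.MT.EPack

/-! COVER, part 1: sizes, residue systems, the mass of an ideal at a finite set of primes. -/

namespace Pool.Agent.MT

open Finset NumberField Module UniqueFactorizationMonoid

section defs
variable {E : Type*} [Field E] [NumberField E]

/-- logarithm of the norm -/
noncomputable def lN (I : Ideal (𝓞 E)) : ℝ := Real.log (Ideal.absNorm I)

/-- the Mertens weight of a finite set of ideals -/
noncomputable def wlam (S : Finset (Ideal (𝓞 E))) : ℝ := ∑ Q ∈ S, lN Q / Ideal.absNorm Q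

open Classical in
/-- the part of an ideal supported on `S` -/
noncomputable def wbad (S : Finset (Ideal (𝓞 E))) (I : Ideal (𝓞 E)) : Ideal (𝓞 E) :=
  ((normalizedFactors I).filter (· ∈ S)).prod

open Classical in
/-- the part of an ideal supported off `S` -/
noncomputable def wgood (S : Finset (Ideal (𝓞 E))) (I : Ideal (𝓞 E)) : Ideal (𝓞 E) :=
  ((normalizedFactors I).filter (fun Q => ¬ Q ∈ S)).prod

theorem lN_nonneg (I : Ideal (𝓞 E)) : 0 ≤ lN I := Real.log_natCast_nonneg _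

theorem wc_norm_ne {I : Ideal (𝓞 E)} (h : I ≠ 0) : Ideal.absNorm I ≠ 0 :=
  fun e => h (Ideal.absNorm_eq_zero_iff.1 e)

theorem wc_norm_pos {I : Ideal (𝓞 E)} (h : I ≠ 0) : (0 : ℝ) < Ideal.absNorm I := by
  exact_mod_cast Nat.pos_of_ne_zero (wc_norm_ne h)

theorem lN_mul {I J : Ideal (𝓞 E)} (hI : I ≠ 0) (hJ : J ≠ 0) : lN (I * J) = lN I + lN J := by
  unfold lN
  rw [map_mul, Nat.cast_mul, Real.log_mul (wc_norm_pos hI).ne' (wc_norm_pos hJ).ne']

theorem lN_one : lN (1 : Ideal (𝓞 E)) = 0 := by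
  unfold lN
  rw [map_one, Nat.cast_one, Real.log_one]

theorem lN_pow (I : Ideal (𝓞 E)) (v : ℕ) : lN (I ^ v) = v * lN I := by
  unfold lN
  rw [map_pow, Nat.cast_pow, Real.log_pow]

theorem lN_prod {κ : Type*} (s : Finset κ) (I : κ → Ideal (𝓞 E)) (h : ∀ i ∈ s, I i ≠ 0) :
    lN (∏ i ∈ s, I i) = ∑ i ∈ s, lN (I i) := by
  unfold lN
  rw [map_prod, Nat.cast_prod, Real.log_prod fun i hi => (wc_norm_pos (h i hi)).ne']

theorem lN_le_of_dvd {I J : Ideal (𝓞 E)} (hJ : J ≠ 0) (h : I ∣ J) : lN I ≤ lN J := by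
  obtain ⟨K, rfl⟩ := h
  rw [lN_mul (left_ne_zero_of_mul hJ) (right_ne_zero_of_mul hJ)]
  linarith [lN_nonneg K]

theorem wc_two_le {Q : Ideal (𝓞 E)} (hQ : Prime Q) : (2 : ℝ) ≤ Ideal.absNorm Q := by
  have h0 := wc_norm_ne hQ.ne_zero
  have h1 : Ideal.absNorm Q ≠ 1 := fun e => hQ.ne_one (by
    rw [Ideal.one_eq_top]; exact Ideal.absNorm_eq_one_iff.1 e)
  have : 2 ≤ Ideal.absNorm Q := by omega
  exact_mod_cast this

theorem wlam_nonneg (S : Finset (Ideal (𝓞 E))) : 0 ≤ wlam S :=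
  Finset.sum_nonneg fun Q _ => div_nonneg (lN_nonneg Q) (Nat.cast_nonneg _)

open Classical in
theorem wlam_union (S T : Finset (Ideal (𝓞 E))) : wlam (S ∪ T) ≤ wlam S + wlam T := by
  unfold wlam
  rw [← Finset.sum_union_inter]
  linarith [wlam_nonneg (S ∩ T), show wlam (S ∩ T) = ∑ Q ∈ S ∩ T, lN Q / Ideal.absNorm Q from rfl]

theorem wbad_mul_wgood (S : Finset (Ideal (𝓞 E))) {I : Ideal (𝓞 E)} (hI : I ≠ 0) :
    wbad S I * wgood S I = I := by
  classical
  unfold wbad wgood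
  rw [Multiset.prod_filter_mul_prod_filter_not, Ideal.prod_normalizedFactors_eq_self hI]

theorem wbad_ne (S : Finset (Ideal (𝓞 E))) {I : Ideal (𝓞 E)} (hI : I ≠ 0) : wbad S I ≠ 0 :=
  left_ne_zero_of_mul ((wbad_mul_wgood S hI).symm ▸ hI)

theorem wgood_ne (S : Finset (Ideal (𝓞 E))) {I : Ideal (𝓞 E)} (hI : I ≠ 0) : wgood S I ≠ 0 :=
  right_ne_zero_of_mul ((wbad_mul_wgood S hI).symm ▸ hI)

theorem wbad_mul (S : Finset (Ideal (𝓞 E))) {I J : Ideal (𝓞 E)} (hI : I ≠ 0) (hJ : J ≠ 0) :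
    wbad S (I * J) = wbad S I * wbad S J := by
  unfold wbad
  rw [normalizedFactors_mul hI hJ, Multiset.filter_add, Multiset.prod_add]

theorem wbad_one (S : Finset (Ideal (𝓞 E))) : wbad S 1 = 1 := by
  unfold wbad
  rw [normalizedFactors_one, Multiset.filter_zero, Multiset.prod_zero]

theorem wbad_prod {κ : Type*} (S : Finset (Ideal (𝓞 E))) (s : Finset κ) (I : κ → Ideal (𝓞 E))
    (h : ∀ i ∈ s, I i ≠ 0) : wbad S (∏ i ∈ s, I i) = ∏ i ∈ s, wbad S (I i) := by
  classical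
  induction s using Finset.induction_on with
  | empty => simpa using wbad_one S
  | insert a s ha ih =>
    rw [Finset.prod_insert ha, Finset.prod_insert ha,
      wbad_mul S (h a (mem_insert_self _ _))
        (Finset.prod_ne_zero_iff.2 fun i hi => h i (mem_insert_of_mem hi)),
      ih fun i hi => h i (mem_insert_of_mem hi)]

theorem not_mem_of_dvd_wgood {S : Finset (Ideal (𝓞 E))} {I Q : Ideal (𝓞 E)} (hQ : Prime Q)
    (h : Q ∣ wgood S I) : Q ∉ S := by
  classical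
  unfold wgood at h
  obtain ⟨P, hP, hQP⟩ := hQ.exists_mem_multiset_dvd h
  obtain ⟨h1, h2⟩ := Multiset.mem_filter.1 hP
  have h3 := (hQ.irreducible.dvd_irreducible_iff_associated
    (prime_of_normalized_factor P h1).irreducible).1 hQP
  rwa [associated_iff_eq.1 h3]

open Classical in
theorem lN_wbad (S : Finset (Ideal (𝓞 E))) (hS : ∀ Q ∈ S, Prime Q) (I : Ideal (𝓞 E)) :
    lN (wbad S I) = ∑ Q ∈ S, ((normalizedFactors I).count Q : ℝ) * lN Q := by
  have h : wbad S I = ∏ Q ∈ S, Q ^ (normalizedFactors I).count Q := by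
    unfold wbad
    rw [Finset.prod_multiset_count_of_subset _ S (fun Q hQ =>
      (Multiset.mem_filter.1 (Multiset.mem_toFinset.1 hQ)).2)]
    exact Finset.prod_congr rfl fun Q hQ => by rw [Multiset.count_filter_of_pos hQ]
  rw [h, lN_prod _ _ fun Q hQ => pow_ne_zero _ (hS Q hQ).ne_zero]
  exact Finset.sum_congr rfl fun Q _ => lN_pow _ _

open Classical in
theorem wc_pow_dvd {I Q : Ideal (𝓞 E)} (hI : I ≠ 0) {v : ℕ}
    (h : v ≤ (normalizedFactors I).count Q) : Q ^ v ∣ I := by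
  rw [← Ideal.prod_normalizedFactors_eq_self hI, ← Multiset.prod_replicate]
  exact Multiset.prod_dvd_prod_of_le (Multiset.le_count_iff_replicate_le.1 h)

open Classical in
/-- the primes of an ideal have small Mertens weight -/
theorem wlam_primes (Z : ℝ) (hZ : 0 < Z) : ∃ F : ℝ, 0 ≤ F ∧ ∀ I : Ideal (𝓞 E), I ≠ 0 →
    wlam (normalizedFactors I).toFinset ≤ F + lN I / Z := by
  have hf := Ideal.finite_setOfPred_absNorm_le (S := 𝓞 E) ⌈Z⌉₊
  refine ⟨wlam hf.toFinset, wlam_nonneg _, fun I hI => ?_⟩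
  set S := (normalizedFactors I).toFinset with hS
  have hp : ∀ Q ∈ S, Prime Q := fun Q hQ =>
    prime_of_normalized_factor Q (Multiset.mem_toFinset.1 hQ)
  have h1 : ∑ Q ∈ S, lN Q ≤ lN I := by
    refine le_trans ?_ (lN_le_of_dvd hI ⟨_, (wbad_mul_wgood S hI).symm⟩)
    rw [lN_wbad S hp]
    refine Finset.sum_le_sum fun Q hQ => le_mul_of_one_le_left (lN_nonneg Q) ?_
    exact_mod_cast Multiset.one_le_count_iff_mem.2 (Multiset.mem_toFinset.1 hQ)
  unfold wlam
  rw [← Finset.sum_filter_add_sum_filter_not S (fun Q => Ideal.absNorm Q ≤ ⌈Z⌉₊)]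
  refine add_le_add (Finset.sum_le_sum_of_subset_of_nonneg (fun Q hQ => ?_)
    fun Q _ _ => div_nonneg (lN_nonneg Q) (Nat.cast_nonneg _)) ?_
  · exact hf.mem_toFinset.2 (Finset.mem_filter.1 hQ).2
  · calc _ ≤ ∑ Q ∈ S.filter (fun Q => ¬ Ideal.absNorm Q ≤ ⌈Z⌉₊), lN Q / Z := by
          refine Finset.sum_le_sum fun Q hQ => div_le_div_of_nonneg_left (lN_nonneg Q) hZ ?_
          have := (Finset.mem_filter.1 hQ).2
          exact (Nat.le_ceil Z).trans (Nat.cast_le.2 (by omega))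
      _ ≤ ∑ Q ∈ S, lN Q / Z := Finset.sum_le_sum_of_subset_of_nonneg (Finset.filter_subset _ _)
          fun Q _ _ => div_nonneg (lN_nonneg Q) hZ.le
      _ ≤ _ := by rw [← Finset.sum_div]; gcongr

end defs

section size
variable {E : Type*} [Field E] [NumberField E] {ι : Type*} [Fintype ι] [DecidableEq ι]
  (b : Basis ι ℤ (𝓞 E))

/-- all coordinates are at most `R` -/
def WSz (z : 𝓞 E) (R : ℕ) : Prop := ∀ i, |b.equivFun z i| ≤ (R : ℤ)

variable {b}

omit [DecidableEq ι] [NumberField E] in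
theorem WSz.add {z w : 𝓞 E} {R S : ℕ} (h : WSz b z R) (k : WSz b w S) : WSz b (z + w) (R + S) :=
  fun i => by
    rw [map_add, Pi.add_apply]
    push_cast
    exact (abs_add_le _ _).trans (add_le_add (h i) (k i))

omit [DecidableEq ι] [NumberField E] in
theorem WSz.mul {z : 𝓞 E} {R : ℕ} (h : WSz b z R) (n : ℕ) : WSz b ((n : 𝓞 E) * z) (n * R) :=
  fun i => by
    rw [← nsmul_eq_mul, map_nsmul, Pi.smul_apply, nsmul_eq_mul, abs_mul, Nat.abs_cast]
    push_cast
    exact mul_le_mul_of_nonneg_left (h i) (Nat.cast_nonneg _)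

omit [DecidableEq ι] [NumberField E] in
theorem WSz.mono {z : 𝓞 E} {R S : ℕ} (h : WSz b z R) (k : R ≤ S) : WSz b z S :=
  fun i => (h i).trans (by exact_mod_cast k)

variable (b)

omit [DecidableEq ι] [NumberField E] in
theorem exists_wsz (z : 𝓞 E) : ∃ R, WSz b z R :=
  ⟨∑ i, (b.equivFun z i).natAbs, fun i => by
    rw [← Int.natCast_natAbs]
    exact_mod_cast Finset.single_le_sum (f := fun i => (b.equivFun z i).natAbs)
      (fun _ _ => Nat.zero_le _) (Finset.mem_univ i)⟩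

/-- a residue system modulo `n` -/
noncomputable def wres (n : ℕ) : Finset (𝓞 E) :=
  (Fintype.piFinset fun _ : ι => Finset.Ico (0 : ℤ) n).map b.equivFun.symm.toEquiv.toEmbedding

omit [NumberField E] in
theorem mem_wres {n : ℕ} {z : 𝓞 E} :
    z ∈ wres b n ↔ ∀ i, 0 ≤ b.equivFun z i ∧ b.equivFun z i < n := by
  unfold wres
  rw [Finset.mem_map_equiv, Fintype.mem_piFinset]
  exact forall_congr' fun i => Finset.mem_Ico

theorem card_wres (n : ℕ) : (wres b n).card = n ^ finrank ℚ E := by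
  unfold wres
  rw [Finset.card_map, Fintype.card_piFinset, ← card_basis b]
  simp

omit [NumberField E] in
theorem wsz_wres {n : ℕ} {z : 𝓞 E} (h : z ∈ wres b n) : WSz b z n := fun i => by
  have := (mem_wres b).1 h i
  rw [abs_le]; constructor <;> omega

omit [NumberField E] in
theorem wres_inj {n : ℕ} {z w : 𝓞 E} (hz : z ∈ wres b n) (hw : w ∈ wres b n)
    (h : (n : 𝓞 E) ∣ z - w) : z = w := by
  obtain ⟨u, hu⟩ := h
  refine b.equivFun.injective (funext fun i => ?_)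
  have h1 := (mem_wres b).1 hz i
  have h2 := (mem_wres b).1 hw i
  have h3 : b.equivFun z i - b.equivFun w i = n * b.equivFun u i := by
    rw [← Pi.sub_apply, ← map_sub, hu, ← nsmul_eq_mul, map_nsmul, Pi.smul_apply, nsmul_eq_mul]
  have h4 := Int.eq_zero_of_abs_lt_dvd ⟨_, h3⟩ (by rw [abs_lt]; constructor <;> omega)
  omega

omit [NumberField E] in
theorem wres_cover {n : ℕ} (hn : n ≠ 0) (z : 𝓞 E) : ∃ r ∈ wres b n, (n : 𝓞 E) ∣ z - r := by
  have h0 : (0 : ℤ) < n := by exact_mod_cast Nat.pos_of_ne_zero hn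
  refine ⟨b.equivFun.symm fun i => b.equivFun z i % n, (mem_wres b).2 fun i => ?_,
    b.equivFun.symm fun i => b.equivFun z i / n, b.equivFun.injective (funext fun i => ?_)⟩
  · rw [LinearEquiv.apply_symm_apply]
    exact ⟨Int.emod_nonneg _ h0.ne', Int.emod_lt_of_pos _ h0⟩
  · rw [map_sub, ← nsmul_eq_mul, map_nsmul, LinearEquiv.apply_symm_apply,
      LinearEquiv.apply_symm_apply, Pi.sub_apply, Pi.smul_apply, nsmul_eq_mul]
    linarith [Int.emod_add_mul_ediv (b.equivFun z i) n]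

omit [DecidableEq ι] in
theorem exists_norm_le : ∃ c : ℕ, 1 ≤ c ∧ ∀ (z : 𝓞 E) (R : ℕ), WSz b z R →
    (Ideal.absNorm (Ideal.span {z}) : ℝ) ≤ ((c : ℝ) * R) ^ finrank ℚ E := by
  obtain ⟨c, hc1, hc⟩ := exists_conj_bound b
  refine ⟨c, hc1, fun z R h => ?_⟩
  have e : (Ideal.absNorm (Ideal.span {z}) : ℝ) = |((Algebra.norm ℤ z : ℤ) : ℝ)| := by
    rw [Ideal.absNorm_span_singleton, Nat.cast_natAbs]; push_cast; rfl
  rw [e]
  refine abs_norm_le _ fun σ => ?_
  have := hc (b.equivFun z) R (fun i => by exact_mod_cast h i) (Nat.cast_nonneg _) σ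
  rwa [LinearEquiv.symm_apply_apply] at this

open Classical in
/-- nonzero points of a box in an ideal -/
theorem exists_cnt : ∃ C : ℝ, 1 ≤ C ∧ ∀ (Ω : Type) (T : Finset Ω) (g : Ω → 𝓞 E) (R : ℕ),
    Set.InjOn g T → (∀ ω ∈ T, g ω ≠ 0 ∧ WSz b (g ω) R) → ∀ D : Ideal (𝓞 E), D ≠ 0 →
      ((T.filter fun ω => D ∣ Ideal.span {g ω}).card : ℝ) ≤
        C * (R : ℝ) ^ finrank ℚ E / Ideal.absNorm D := by
  obtain ⟨c, hc1, hc⟩ := exists_norm_le b
  obtain ⟨C, hC1, hC⟩ := exists_pack b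
  have c0 : (1 : ℝ) ≤ (c : ℝ) ^ finrank ℚ E := one_le_pow₀ (by exact_mod_cast hc1)
  refine ⟨C * (1 + (c : ℝ) ^ finrank ℚ E), by nlinarith, fun Ω T g R hg hT D hD => ?_⟩
  have hN := wc_norm_pos hD
  rcases (T.filter fun ω => D ∣ Ideal.span {g ω}).eq_empty_or_nonempty with h | ⟨ω0, h0⟩
  · rw [h, Finset.card_empty, Nat.cast_zero]; positivity
  obtain ⟨h1, h2⟩ := Finset.mem_filter.1 h0
  have h3 : (Ideal.absNorm D : ℝ) ≤ (c : ℝ) ^ finrank ℚ E * (R : ℝ) ^ finrank ℚ E := by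
    rw [← mul_pow]
    refine le_trans ?_ (hc _ R (hT ω0 h1).2)
    exact_mod_cast Nat.le_of_dvd (Nat.pos_of_ne_zero (wc_norm_ne (by
      simpa [Ideal.span_singleton_eq_bot] using (hT ω0 h1).1))) (map_dvd Ideal.absNorm h2)
  refine le_trans ?_ ((hC D hD 0 0 R).trans ?_)
  · refine Nat.cast_le.2 (Finset.card_le_card_of_injOn (fun ω => b.equivFun (g ω))
      (fun ω hω => ?_) fun ω hω ω' hω' e => ?_)
    · obtain ⟨k1, k2⟩ := Finset.mem_filter.1 (Finset.mem_coe.1 hω)
      refine Finset.mem_coe.2 (Finset.mem_filter.2 ⟨mem_ebox.2 fun i => ?_, ?_⟩)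
      · simpa using (hT ω k1).2 i
      · rw [LinearEquiv.symm_apply_apply, sub_zero]
        exact Ideal.dvd_span_singleton.1 k2
    · exact hg (Finset.mem_filter.1 (Finset.mem_coe.1 hω)).1
        (Finset.mem_filter.1 (Finset.mem_coe.1 hω')).1 (b.equivFun.injective e)
  · have h4 : (1 : ℝ) ≤ (c : ℝ) ^ finrank ℚ E * (R : ℝ) ^ finrank ℚ E / Ideal.absNorm D :=
      (one_le_div hN).2 h3
    calc _ ≤ C * ((R : ℝ) ^ finrank ℚ E / Ideal.absNorm D +
          (c : ℝ) ^ finrank ℚ E * (R : ℝ) ^ finrank ℚ E / Ideal.absNorm D) := by gcongr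
      _ = _ := by ring

/-- the total mass at `S` of an injective family of small integers -/
theorem exists_mass : ∃ C : ℝ, 1 ≤ C ∧ ∀ (Ω : Type) (T : Finset Ω) (g : Ω → 𝓞 E) (R : ℕ),
    Set.InjOn g T → (∀ ω ∈ T, g ω ≠ 0 ∧ WSz b (g ω) R) →
    ∀ S : Finset (Ideal (𝓞 E)), (∀ Q ∈ S, Prime Q) →
      ∑ ω ∈ T, lN (wbad S (Ideal.span {g ω})) ≤ C * (R : ℝ) ^ finrank ℚ E * wlam S := by
  classical
  obtain ⟨C, hC1, hC⟩ := exists_cnt b
  refine ⟨2 * C, by linarith, fun Ω T g R hg hT S hS => ?_⟩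
  simp only [lN_wbad S hS]
  rw [Finset.sum_comm, wlam, Finset.mul_sum]
  refine Finset.sum_le_sum fun Q hQ => ?_
  rw [← Finset.sum_mul]
  have h2 := wc_two_le (hS Q hQ)
  set V := T.sup fun ω => (normalizedFactors (Ideal.span {g ω})).count Q with hV
  have key : ∑ ω ∈ T, ((normalizedFactors (Ideal.span {g ω})).count Q : ℝ) ≤
      2 * C * (R : ℝ) ^ finrank ℚ E / Ideal.absNorm Q := by
    calc _ ≤ ∑ ω ∈ T, ∑ v ∈ range V, (if Q ^ (v + 1) ∣ Ideal.span {g ω} then (1 : ℝ) else 0) := by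
          refine Finset.sum_le_sum fun ω hω => ?_
          have h0 : Ideal.span {g ω} ≠ 0 := by
            simpa [Ideal.span_singleton_eq_bot] using (hT ω hω).1
          have h1 : (normalizedFactors (Ideal.span {g ω})).count Q ≤ V :=
            Finset.le_sup (f := fun ω => (normalizedFactors (Ideal.span {g ω})).count Q) hω
          rw [Finset.sum_boole, Nat.cast_le]
          refine le_trans (Finset.card_range _).ge (Finset.card_le_card fun v hv => ?_)
          have := Finset.mem_range.1 hv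
          exact Finset.mem_filter.2 ⟨Finset.mem_range.2 (by omega), wc_pow_dvd h0 (by omega)⟩
      _ = ∑ v ∈ range V, ((T.filter fun ω => Q ^ (v + 1) ∣ Ideal.span {g ω}).card : ℝ) := by
          rw [Finset.sum_comm]
          exact Finset.sum_congr rfl fun v _ => Finset.sum_boole _ _
      _ ≤ ∑ v ∈ range V, C * (R : ℝ) ^ finrank ℚ E / Ideal.absNorm Q * (1 / 2) ^ v := by
          refine Finset.sum_le_sum fun v _ => ?_
          refine (hC Ω T g R hg hT _ (pow_ne_zero _ (hS Q hQ).ne_zero)).trans ?_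
          rw [map_pow, Nat.cast_pow, pow_succ', ← div_div, div_eq_mul_one_div _ (_ ^ v),
            one_div_pow]
          gcongr
      _ ≤ _ := by
          rw [← Finset.mul_sum]
          calc _ ≤ C * (R : ℝ) ^ finrank ℚ E / Ideal.absNorm Q * 2 := by
                gcongr; exact sum_geometric_two_le V
            _ = _ := by ring
  calc _ ≤ 2 * C * (R : ℝ) ^ finrank ℚ E / Ideal.absNorm Q * lN Q :=
        mul_le_mul_of_nonneg_right key (lN_nonneg Q)
    _ = _ := by ring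

end size

end Pool.Agent.MT
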