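import Pool.Agent.Lib.MP_d61fbb_ag.MW.WCov1

/-! COVER, part 2: one random step. -/

namespace Pool.Agent.MT

open Finset NumberField Module UniqueFactorizationMonoid

variable {E : Type} [Field E] [NumberField E]

omit [NumberField E] in
theorem wc_span_ne {z : 𝓞 E} (h : z ≠ 0) : (Ideal.span {z} : Ideal (𝓞 E)) ≠ 0 := by
  simpa [Ideal.span_singleton_eq_bot] using h

theorem wc_ne_of_cop {f : ℕ} (hf : 2 ≤ f) {z : 𝓞 E} (h : IsCoprime z (f : 𝓞 E)) : z ≠ 0 := by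
  rintro rfl
  have h1 := isCoprime_zero_left.1 h
  have h2 : Ideal.absNorm (Ideal.span {(f : 𝓞 E)}) = 1 :=
    Ideal.absNorm_eq_one_iff.2 (Ideal.span_singleton_eq_top.2 h1)
  rw [Ideal.absNorm_span_natCast] at h2
  rcases Nat.pow_eq_one.1 h2 with h | h
  · omega
  · rw [RingOfIntegers.rank] at h
    exact finrank_pos.ne' h

/-- a prime power dividing a product splits -/
theorem wc_bd_mul {Q I J : Ideal (𝓞 E)} (hQ : Prime Q) {L M : ℝ}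
    (hI : ∀ v : ℕ, Q ^ v ∣ I → v * lN Q ≤ L) (hJ : ∀ v : ℕ, Q ^ v ∣ J → v * lN Q ≤ M)
    (v : ℕ) (h : Q ^ v ∣ I * J) : v * lN Q ≤ L + M := by
  obtain ⟨A, B, hA, hB, e⟩ := exists_dvd_and_dvd_of_dvd_mul h
  obtain ⟨i, -, hi⟩ := (dvd_prime_pow hQ v).1 ⟨B, e⟩
  obtain ⟨j, -, hj⟩ := (dvd_prime_pow hQ v).1 ⟨A, e.trans (mul_comm _ _)⟩
  rw [associated_iff_eq] at hi hj
  subst hi hj
  have h1 : (v : ℝ) * lN Q = i * lN Q + j * lN Q := by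
    rw [← lN_pow, e, lN_mul (pow_ne_zero _ hQ.ne_zero) (pow_ne_zero _ hQ.ne_zero), lN_pow, lN_pow]
  linarith [hI i hA, hJ j hB]

/-- a large prime divides at most one term of a short arithmetic progression -/
theorem wc_bd_ap {Q : Ideal (𝓞 E)} (hQ : Prime Q) {m m₀ : ℕ} (hm : m ≤ m₀)
    (h0 : ((m₀.factorial : ℕ) : 𝓞 E) ∉ Q) {V y : 𝓞 E} {L : ℝ} (hL : 0 ≤ L)
    (hV : ∀ s < m, IsCoprime (V + y * s) y ∧ V + y * s ≠ 0 ∧ lN (Ideal.span {V + y * s}) ≤ L)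
    (v : ℕ) (h : Q ^ v ∣ ∏ s ∈ range m, Ideal.span {V + y * s}) : v * lN Q ≤ L := by
  have hP : Q.IsPrime := Ideal.isPrime_of_prime hQ
  rcases Nat.eq_zero_or_pos v with rfl | hv
  · simpa using hL
  obtain ⟨s, hs, h1⟩ := hQ.exists_mem_finset_dvd ((dvd_pow_self Q hv.ne').trans h)
  have key : ∀ a b : ℕ, a < b → b < m → V + y * a ∈ Q → V + y * b ∈ Q → False := by
    intro a b hab hb ha' hb'
    have h2 : y * ((b - a : ℕ) : 𝓞 E) ∈ Q := by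
      have := Q.sub_mem hb' ha'
      rw [Nat.cast_sub hab.le]
      convert this using 1; ring
    rcases hP.mem_or_mem h2 with h3 | h3
    · obtain ⟨u, w, e⟩ := (hV b hb).1
      exact hP.ne_top ((Ideal.eq_top_iff_one _).2 (e ▸ Q.add_mem (Q.mul_mem_left _ hb')
        (Q.mul_mem_left _ h3)))
    · obtain ⟨k, hk⟩ := Nat.dvd_factorial (m := b - a) (n := m₀) (by omega) (by omega)
      exact h0 (by rw [hk, Nat.cast_mul]; exact Q.mul_mem_right _ h3)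
  rw [← Finset.mul_prod_erase _ _ hs] at h
  have h2 := hQ.pow_dvd_of_dvd_mul_right v (fun h3 => by
    obtain ⟨s', hs', h4⟩ := hQ.exists_mem_finset_dvd h3
    obtain ⟨h5, h6⟩ := Finset.mem_erase.1 hs'
    rcases lt_or_gt_of_ne h5 with h7 | h7
    · exact key s' s h7 (mem_range.1 hs) (Ideal.dvd_span_singleton.1 h4)
        (Ideal.dvd_span_singleton.1 h1)
    · exact key s s' h7 (mem_range.1 h6) (Ideal.dvd_span_singleton.1 h1)
        (Ideal.dvd_span_singleton.1 h4)) h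
  rw [← lN_pow]
  exact (lN_le_of_dvd (wc_span_ne (hV s (mem_range.1 hs)).2.1) h2).trans (hV s (mem_range.1 hs)).2.2

variable {ι : Type*} [Fintype ι] [DecidableEq ι] (b : Basis ι ℤ (𝓞 E))

/-- admissible base points -/
def WAdm (f n K : ℕ) (ρ : 𝓞 E → 𝓞 E) : Prop :=
  (∀ c ∈ wres b n, WSz b (ρ c) (K * n ^ 2) ∧ IsCoprime (ρ c) (f : 𝓞 E)) ∧
    ∀ c ∈ wres b n, ∀ c' ∈ wres b n, ((f * n : ℕ) : 𝓞 E) ∣ ρ c - ρ c' → c = c'

theorem wc_fam (f K : ℕ) (hf : 2 ≤ f) : ∃ C : ℝ, 1 ≤ C ∧ ∀ n : ℕ, n ≠ 0 → ∀ ρ, WAdm b f n K ρ →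
    (∀ c ∈ wres b n, ∀ x ∈ wres b n, IsCoprime (ρ c + ((f * n : ℕ) : 𝓞 E) * x) (f : 𝓞 E) ∧
      lN (Ideal.span {ρ c + ((f * n : ℕ) : 𝓞 E) * x}) ≤ C + 2 * finrank ℚ E * Real.log n) ∧
    ∀ S : Finset (Ideal (𝓞 E)), (∀ Q ∈ S, Prime Q) →
      ∑ ω ∈ wres b n ×ˢ wres b n, lN (wbad S (Ideal.span {ρ ω.1 + ((f * n : ℕ) : 𝓞 E) * ω.2})) ≤
        ∑ _ω ∈ wres b n ×ˢ wres b n, C * wlam S := by
  obtain ⟨c, hc1, hc⟩ := exists_norm_le b
  obtain ⟨C, hC1, hC⟩ := exists_mass b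
  set d := finrank ℚ E with hd
  have k1 : (1 : ℝ) ≤ ((K + f : ℕ) : ℝ) := by exact_mod_cast (by omega : 1 ≤ K + f)
  have c1 : (1 : ℝ) ≤ c := by exact_mod_cast hc1
  have k2 : (1 : ℝ) ≤ ((K + f : ℕ) : ℝ) ^ d := one_le_pow₀ k1
  have k3 : 0 ≤ d * Real.log (c * ((K + f : ℕ) : ℝ)) :=
    mul_nonneg (Nat.cast_nonneg _) (Real.log_nonneg (by nlinarith))
  refine ⟨C * ((K + f : ℕ) : ℝ) ^ d + d * Real.log (c * ((K + f : ℕ) : ℝ)), by nlinarith,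
    fun n hn ρ hρ => ?_⟩
  have n0 : (0 : ℝ) < n := by exact_mod_cast Nat.pos_of_ne_zero hn
  have h1 : ∀ c ∈ wres b n, ∀ x ∈ wres b n,
      IsCoprime (ρ c + ((f * n : ℕ) : 𝓞 E) * x) (f : 𝓞 E) ∧
        WSz b (ρ c + ((f * n : ℕ) : 𝓞 E) * x) ((K + f) * n ^ 2) := by
    intro c hc x hx
    refine ⟨?_, ((hρ.1 c hc).1.add ((wsz_wres b hx).mul (f * n))).mono (le_of_eq (by ring))⟩
    rw [Nat.cast_mul, mul_assoc]
    exact (hρ.1 c hc).2.add_mul_left_left _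
  refine ⟨fun c' hc' x hx => ⟨(h1 c' hc' x hx).1, ?_⟩, fun S hS => ?_⟩
  · have h2 := hc _ _ (h1 c' hc' x hx).2
    have h3 := Real.log_le_log (wc_norm_pos (wc_span_ne (wc_ne_of_cop hf (h1 c' hc' x hx).1))) h2
    rw [Real.log_pow, Nat.cast_mul (K + f), ← mul_assoc, Real.log_mul (by positivity)
      (by positivity), Nat.cast_pow, Real.log_pow] at h3
    unfold lN
    push_cast at h3 k2 ⊢
    nlinarith
  · have h2 := hC _ (wres b n ×ˢ wres b n) (fun ω => ρ ω.1 + ((f * n : ℕ) : 𝓞 E) * ω.2)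
      ((K + f) * n ^ 2) (fun ω hω ω' hω' e => by
        obtain ⟨a1, a2⟩ := Finset.mem_product.1 (Finset.mem_coe.1 hω)
        obtain ⟨a3, a4⟩ := Finset.mem_product.1 (Finset.mem_coe.1 hω')
        have e' : ρ ω.1 + ((f * n : ℕ) : 𝓞 E) * ω.2 = ρ ω'.1 + ((f * n : ℕ) : 𝓞 E) * ω'.2 := e
        have e1 := hρ.2 _ a1 _ a3 ⟨ω'.2 - ω.2, by linear_combination e'⟩
        rw [e1, add_right_inj] at e'
        exact Prod.ext e1 (mul_left_cancel₀ (Nat.cast_ne_zero.2 (by positivity)) e'))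
      (fun ω hω => by
        obtain ⟨a1, a2⟩ := Finset.mem_product.1 hω
        exact ⟨wc_ne_of_cop hf (h1 _ a1 _ a2).1, (h1 _ a1 _ a2).2⟩) S hS
    refine h2.trans ?_
    rw [Finset.sum_const, Finset.card_product, card_wres, nsmul_eq_mul, ← hd]
    have h4 := wlam_nonneg S
    calc _ = ((n ^ d * n ^ d : ℕ) : ℝ) * ((C * ((K + f : ℕ) : ℝ) ^ d) * wlam S) := by
          rw [Nat.cast_mul (K + f), mul_pow, Nat.cast_pow, Nat.cast_mul, Nat.cast_pow]; ring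
      _ ≤ _ := by gcongr; linarith

omit [NumberField E] in
theorem WAdm.shift {f n K K₁ m₀ : ℕ} {ρ : 𝓞 E → 𝓞 E} (h : WAdm b f n K ρ) (h1 : WSz b 1 K₁)
    {s : ℕ} (hs : s ≤ m₀) :
    WAdm b f n (K + f * m₀ * K₁) fun c => ρ c + ((f * n : ℕ) : 𝓞 E) * s := by
  refine ⟨fun c hc => ⟨?_, ?_⟩, fun c hc c' hc' e => h.2 c hc c' hc' (by simpa using e)⟩
  · have h2 := (h1.mul s).mul (f * n)
    rw [mul_one] at h2
    refine ((h.1 c hc).1.add h2).mono ?_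
    have : n ≤ n ^ 2 := Nat.le_self_pow two_ne_zero n
    calc _ = K * n ^ 2 + f * s * K₁ * n := by ring
      _ ≤ K * n ^ 2 + f * m₀ * K₁ * n ^ 2 := by gcongr
      _ = _ := by ring
  · rw [Nat.cast_mul, mul_assoc]
    exact (h.1 c hc).2.add_mul_left_left _

/-- the two progressions of one step -/
noncomputable def wI (y : 𝓞 E) (m : ℕ) (U V : 𝓞 E) : Ideal (𝓞 E) :=
  (∏ s ∈ range m, Ideal.span {U + y * s}) * ∏ s ∈ range m, Ideal.span {V + y * s}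

theorem wc_step (f K m₀ : ℕ) (hf : 2 ≤ f) : ∃ C : ℝ, 1 ≤ C ∧ ∀ n t : ℕ, n ≠ 0 → n ∣ f ^ t →
    ∀ m ≤ m₀, ∀ ρ ρ', WAdm b f n K ρ → WAdm b f n K ρ' →
    ∀ S : Finset (Ideal (𝓞 E)), (∀ Q ∈ S, Prime Q) → ∃ c ∈ wres b n, ∃ x : 𝓞 E, ∀ I : Ideal (𝓞 E),
      I = wI ((f * n : ℕ) : 𝓞 E) m (ρ c + ((f * n : ℕ) : 𝓞 E) * x)
        (ρ' c + ((f * n : ℕ) : 𝓞 E) * x) →
      I ≠ 0 ∧ lN (wbad S I) ≤ C * wlam S ∧ lN I ≤ 2 * m * (C + 2 * finrank ℚ E * Real.log n) ∧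
      ∀ Q, Prime Q → ((m₀.factorial : ℕ) : 𝓞 E) ∉ Q → ∀ v : ℕ, Q ^ v ∣ I →
        v * lN Q ≤ 2 * (C + 2 * finrank ℚ E * Real.log n) := by
  obtain ⟨K₁, hK₁⟩ := exists_wsz b (1 : 𝓞 E)
  obtain ⟨C, hC1, hC⟩ := wc_fam b f (K + f * m₀ * K₁) hf
  have m0 : (0 : ℝ) ≤ m₀ := Nat.cast_nonneg _
  refine ⟨(2 * m₀ + 1) * C, by nlinarith, fun n t hn hnt m hm ρ ρ' hρ hρ' S hS => ?_⟩
  set y : 𝓞 E := ((f * n : ℕ) : 𝓞 E) with hy
  set T := wres b n ×ˢ wres b n with hT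
  have hne : T.Nonempty := by
    rw [← Finset.card_pos, hT, Finset.card_product, card_wres]; positivity
  have e : ∀ (u x : 𝓞 E) (s : ℕ), u + y * s + y * x = u + y * x + y * s := fun u x s => by ring
  have hl := wlam_nonneg S
  have hsum : ∀ r, WAdm b f n K r →
      ∑ ω ∈ T, ∑ s ∈ range m, lN (wbad S (Ideal.span {r ω.1 + y * ω.2 + y * s})) ≤
        ∑ _ω ∈ T, m₀ * (C * wlam S) := by
    intro r hr
    rw [Finset.sum_comm, ← Finset.mul_sum]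
    calc _ ≤ ∑ _s ∈ range m, ∑ _ω ∈ T, C * wlam S := Finset.sum_le_sum fun s hs => by
          have := (hC n hn _ (hr.shift b hK₁ ((mem_range.1 hs).le.trans hm))).2 S hS
          simpa only [← hy, e] using this
      _ ≤ _ := by
          rw [Finset.sum_const (s := range m), card_range, nsmul_eq_mul]
          exact mul_le_mul_of_nonneg_right (by exact_mod_cast hm)
            (Finset.sum_nonneg fun _ _ => by positivity)
  have hadd := add_le_add (hsum ρ hρ) (hsum ρ' hρ')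
  rw [← Finset.sum_add_distrib, ← Finset.sum_add_distrib] at hadd
  obtain ⟨ω, hω, hb⟩ := Finset.exists_le_of_sum_le hne hadd
  obtain ⟨a1, a2⟩ := Finset.mem_product.1 hω
  have hlog : 0 ≤ 2 * finrank ℚ E * Real.log n := by
    have := Real.log_natCast_nonneg n
    positivity
  have hel : ∀ r, WAdm b f n K r → ∀ s < m, IsCoprime (r ω.1 + y * ω.2 + y * s) y ∧
      r ω.1 + y * ω.2 + y * s ≠ 0 ∧ lN (Ideal.span {r ω.1 + y * ω.2 + y * s}) ≤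
        (2 * m₀ + 1) * C + 2 * finrank ℚ E * Real.log n := by
    intro r hr s hs
    have := (hC n hn _ (hr.shift b hK₁ (hs.le.trans hm))).1 _ a1 _ a2
    simp only [← hy, e] at this
    refine ⟨?_, wc_ne_of_cop hf this.1, this.2.trans (by nlinarith)⟩
    refine IsCoprime.of_isCoprime_of_dvd_right (this.1.pow_right (n := t + 1)) ?_
    rw [hy, pow_succ']
    exact_mod_cast Nat.cast_dvd_cast (α := 𝓞 E) (Nat.mul_dvd_mul_left f hnt)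
  have hne' : ∀ r, WAdm b f n K r → ∀ s ∈ range m,
      (Ideal.span {r ω.1 + y * ω.2 + y * s} : Ideal (𝓞 E)) ≠ 0 :=
    fun r hr s hs => wc_span_ne (hel r hr s (mem_range.1 hs)).2.1
  have hp := fun r hr => Finset.prod_ne_zero_iff.2 (hne' r hr)
  have hs : ∀ r, WAdm b f n K r → ∑ s ∈ range m, lN (Ideal.span {r ω.1 + y * ω.2 + y * s}) ≤
      m * ((2 * m₀ + 1) * C + 2 * finrank ℚ E * Real.log n) := by
    intro r hr
    refine (Finset.sum_le_sum fun s hs => (hel r hr s (mem_range.1 hs)).2.2).trans ?_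
    rw [Finset.sum_const, card_range, nsmul_eq_mul]
  refine ⟨ω.1, a1, ω.2, ?_⟩
  rintro I rfl
  unfold wI
  refine ⟨mul_ne_zero (hp ρ hρ) (hp ρ' hρ'), ?_, ?_, fun Q hQ h0 v hv => ?_⟩
  · rw [wbad_mul S (hp ρ hρ) (hp ρ' hρ'), lN_mul (wbad_ne S (hp ρ hρ)) (wbad_ne S (hp ρ' hρ')),
      wbad_prod S _ _ (hne' ρ hρ), wbad_prod S _ _ (hne' ρ' hρ'),
      lN_prod _ _ fun s hs => wbad_ne S (hne' ρ hρ s hs),
      lN_prod _ _ fun s hs => wbad_ne S (hne' ρ' hρ' s hs)]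
    refine hb.trans ?_
    have : 0 ≤ C * wlam S := by positivity
    nlinarith
  · rw [lN_mul (hp ρ hρ) (hp ρ' hρ'), lN_prod _ _ (hne' ρ hρ), lN_prod _ _ (hne' ρ' hρ')]
    linarith [hs ρ hρ, hs ρ' hρ']
  · have hL : 0 ≤ (2 * m₀ + 1) * C + 2 * finrank ℚ E * Real.log n := by positivity
    rw [two_mul ((2 * m₀ + 1) * C + 2 * finrank ℚ E * Real.log n)]
    exact wc_bd_mul hQ (wc_bd_ap hQ hm h0 hL (hel ρ hρ)) (wc_bd_ap hQ hm h0 hL (hel ρ' hρ')) v hv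

/-- the good part: no prime of `Hv`, small mass at every prime -/
def WGood (Hv : Finset (Ideal (𝓞 E))) (L : ℝ) (B : Ideal (𝓞 E)) : Prop :=
  B ≠ 0 ∧ ∀ Q, Prime Q → ∀ v : ℕ, 0 < v → Q ^ v ∣ B → Q ∉ Hv ∧ v * lN Q ≤ L

theorem wc_step2 (f K m₀ : ℕ) (hf : 2 ≤ f) : ∃ C : ℝ, 1 ≤ C ∧ ∀ Z : ℝ, 0 < Z → ∃ F : ℝ, 0 ≤ F ∧
    ∀ n t : ℕ, n ≠ 0 → n ∣ f ^ t → ∀ m ≤ m₀, ∀ ρ ρ', WAdm b f n K ρ → WAdm b f n K ρ' →
    ∀ Hv : Finset (Ideal (𝓞 E)), (∀ Q ∈ Hv, Prime Q) →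
    ∀ Bg, WGood Hv (2 * (C + 2 * finrank ℚ E * Real.log n)) Bg →
    ∃ c ∈ wres b n, ∃ x : 𝓞 E, ∃ Ib Ig : Ideal (𝓞 E),
      wI ((f * n : ℕ) : 𝓞 E) m (ρ c + ((f * n : ℕ) : 𝓞 E) * x)
        (ρ' c + ((f * n : ℕ) : 𝓞 E) * x) = Ib * Ig ∧ Ib ≠ 0 ∧
      WGood Hv (2 * (C + 2 * finrank ℚ E * Real.log n)) (Bg * Ig) ∧
      lN Ib ≤ C * (wlam Hv + F + lN Bg / Z) ∧
      lN Ig ≤ 2 * m * (C + 2 * finrank ℚ E * Real.log n) := by
  classical
  obtain ⟨C, hC1, hC⟩ := wc_step b f K m₀ hf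
  refine ⟨C, hC1, fun Z hZ => ?_⟩
  obtain ⟨F, hF0, hF⟩ := wlam_primes (E := E) Z hZ
  have hfa : (Ideal.span {((m₀.factorial : ℕ) : 𝓞 E)} : Ideal (𝓞 E)) ≠ 0 :=
    wc_span_ne (Nat.cast_ne_zero.2 m₀.factorial_ne_zero)
  set S₀ := (normalizedFactors (Ideal.span {((m₀.factorial : ℕ) : 𝓞 E)} : Ideal (𝓞 E))).toFinset
  have hmem : ∀ {I Q : Ideal (𝓞 E)}, I ≠ 0 → Prime Q → Q ∣ I →
      Q ∈ (normalizedFactors I).toFinset := fun hI hQ h =>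
    Multiset.mem_toFinset.2 ((Ideal.mem_normalizedFactors_iff hI).2
      ⟨Ideal.isPrime_of_prime hQ, Ideal.le_of_dvd h⟩)
  refine ⟨F + wlam S₀, add_nonneg hF0 (wlam_nonneg _),
    fun n t hn hnt m hm ρ ρ' hρ hρ' Hv hHv Bg hBg => ?_⟩
  set S := Hv ∪ ((normalizedFactors Bg).toFinset ∪ S₀) with hS
  obtain ⟨c, hc, x, hx⟩ := hC n t hn hnt m hm ρ ρ' hρ hρ' S (fun Q hQ => by
    rcases Finset.mem_union.1 hQ with h | h
    · exact hHv Q h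
    · rcases Finset.mem_union.1 h with h | h <;>
        exact prime_of_normalized_factor Q (Multiset.mem_toFinset.1 h))
  obtain ⟨h1, h2, h3, h4⟩ := hx _ rfl
  set I := wI ((f * n : ℕ) : 𝓞 E) m (ρ c + ((f * n : ℕ) : 𝓞 E) * x)
    (ρ' c + ((f * n : ℕ) : 𝓞 E) * x)
  have hd : wgood S I ∣ I := ⟨wbad S I, by rw [mul_comm, wbad_mul_wgood S h1]⟩
  refine ⟨c, hc, x, wbad S I, wgood S I, (wbad_mul_wgood S h1).symm, wbad_ne S h1,
    ⟨mul_ne_zero hBg.1 (wgood_ne S h1), fun Q hQ v hv h => ?_⟩, h2.trans ?_,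
    (lN_le_of_dvd h1 hd).trans h3⟩
  · by_cases hB : Q ∣ Bg
    · exact hBg.2 Q hQ v hv (hQ.pow_dvd_of_dvd_mul_right v (fun h5 => not_mem_of_dvd_wgood hQ h5
        (Finset.mem_union_right _ (Finset.mem_union_left _ (hmem hBg.1 hQ hB)))) h)
    · have h5 := hQ.pow_dvd_of_dvd_mul_left v hB h
      have h6 := not_mem_of_dvd_wgood hQ ((dvd_pow_self Q hv.ne').trans h5)
      exact ⟨fun h7 => h6 (Finset.mem_union_left _ h7), h4 Q hQ (fun h7 => h6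
        (Finset.mem_union_right _ (Finset.mem_union_right _
          (hmem hfa hQ (Ideal.dvd_span_singleton.2 h7))))) v (h5.trans hd)⟩
  · have h5 := wlam_union Hv ((normalizedFactors Bg).toFinset ∪ S₀)
    have h6 := wlam_union (normalizedFactors Bg).toFinset S₀
    have h7 := hF Bg hBg.1
    refine mul_le_mul_of_nonneg_left ?_ (by linarith)
    have h8 : wlam S ≤ wlam Hv + (wlam (normalizedFactors Bg).toFinset + wlam S₀) := by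
      refine le_trans ?_ (add_le_add le_rfl h6)
      exact h5
    linarith

end Pool.Agent.MT
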