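import Pool.Agent.Lib.MP_d61fbb_ag.MT.EIdl

/-! Block W2: the potential of a level and its behaviour under moves. -/

open NumberField Ideal UniqueFactorizationMonoid Finset

namespace Pool.Agent.MT.W2

variable {E : Type} [Field E] [NumberField E]

open Classical in
/-- The mass of `D` at `P`. -/
noncomputable def cm (D P : Ideal (𝓞 E)) : ℝ :=
  (normalizedFactors D).count P * Real.log (absNorm P)

open Classical in
/-- The primes of `D`. -/
noncomputable def supp (D : Ideal (𝓞 E)) : Finset (Ideal (𝓞 E)) := (normalizedFactors D).toFinset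

/-- The potential. -/
noncomputable def phi (s : ℕ) (D : Ideal (𝓞 E)) : ℝ := ∑ P ∈ supp D, cm D P ^ s

theorem cm_nonneg (D P : Ideal (𝓞 E)) : 0 ≤ cm D P :=
  mul_nonneg (Nat.cast_nonneg _) (Real.log_natCast_nonneg _)

theorem phi_nonneg (s : ℕ) (D : Ideal (𝓞 E)) : 0 ≤ phi s D :=
  sum_nonneg fun P _ => pow_nonneg (cm_nonneg D P) s

theorem cm_mul {D I : Ideal (𝓞 E)} (hD : D ≠ 0) (hI : I ≠ 0) (P : Ideal (𝓞 E)) :
    cm (D * I) P = cm D P + cm I P := by
  classical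
  unfold cm
  rw [normalizedFactors_mul hD hI, ← add_mul, ← Nat.cast_add]
  congr 2
  exact Multiset.count_add _ _ _

theorem mem_supp {D P : Ideal (𝓞 E)} (hD : D ≠ 0) : P ∈ supp D ↔ Prime P ∧ P ∣ D := by
  classical
  unfold supp
  rw [Multiset.mem_toFinset, UniqueFactorizationMonoid.mem_normalizedFactors_iff hD]

theorem cm_zero {D P : Ideal (𝓞 E)} (h : P ∉ supp D) : cm D P = 0 := by
  classical
  unfold supp at h
  rw [Multiset.mem_toFinset] at h
  unfold cm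
  rw [Multiset.count_eq_zero.2 h, Nat.cast_zero, zero_mul]

theorem supp_mono {D I : Ideal (𝓞 E)} (hI : I ≠ 0) (h : D ∣ I) : supp D ⊆ supp I := fun _ hP =>
  have h1 := (mem_supp (ne_zero_of_dvd_ne_zero hI h)).1 hP
  (mem_supp hI).2 ⟨h1.1, h1.2.trans h⟩

theorem cm_mono {D I : Ideal (𝓞 E)} (hI : I ≠ 0) (h : D ∣ I) (P : Ideal (𝓞 E)) :
    cm D P ≤ cm I P := by
  obtain ⟨K, rfl⟩ := h
  rw [cm_mul (left_ne_zero_of_mul hI) (right_ne_zero_of_mul hI)]
  linarith [cm_nonneg K P]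

theorem sum_cm {D : Ideal (𝓞 E)} (hD : D ≠ 0) :
    ∑ P ∈ supp D, cm D P = Real.log (absNorm D) := by
  classical
  have h1 : (absNorm D : ℝ) = ((normalizedFactors D).map fun P => (absNorm P : ℝ)).prod := by
    conv_lhs => rw [← Ideal.prod_normalizedFactors_eq_self hD, map_multiset_prod,
      Nat.cast_multiset_prod,
      Multiset.map_map]
    rfl
  rw [h1, prod_multiset_map_count, Real.log_prod]
  · refine sum_congr rfl fun P _ => ?_
    rw [Real.log_pow]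
    rfl
  · intro P hP
    exact pow_ne_zero _ (Nat.cast_ne_zero.2 (idl_norm_ne E
      (prime_of_normalized_factor P (Multiset.mem_toFinset.1 hP)).ne_zero))

theorem cm_le_log {D : Ideal (𝓞 E)} (hD : D ≠ 0) (P : Ideal (𝓞 E)) :
    cm D P ≤ Real.log (absNorm D) := by
  by_cases h : P ∈ supp D
  · rw [← sum_cm hD]
    exact single_le_sum (f := cm D) (fun Q _ => cm_nonneg D Q) h
  · rw [cm_zero h]
    exact Real.log_natCast_nonneg _

theorem phi_eq {s : ℕ} (hs : s ≠ 0) {D : Ideal (𝓞 E)} {S : Finset (Ideal (𝓞 E))}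
    (h : supp D ⊆ S) : phi s D = ∑ P ∈ S, cm D P ^ s :=
  sum_subset h fun P _ hP => by rw [cm_zero hP, zero_pow hs]

/-- The mass is read off from divisibility by powers. -/
theorem cm_spec {D P : Ideal (𝓞 E)} (hD : D ≠ 0) (h : P ∈ supp D) :
    ∃ v : ℕ, 0 < v ∧ P ^ v ∣ D ∧ cm D P = v * Real.log (absNorm P) := by
  classical
  refine ⟨(normalizedFactors D).count P, Multiset.count_pos.2 (Multiset.mem_toFinset.1 h), ?_, rfl⟩
  have h1 := Multiset.prod_dvd_prod_of_le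
    (Multiset.le_count_iff_replicate_le.1 (le_refl ((normalizedFactors D).count P)))
  rwa [Multiset.prod_replicate, Ideal.prod_normalizedFactors_eq_self hD] at h1

theorem cm_pow {P : Ideal (𝓞 E)} (hP : Prime P) (r : ℕ) :
    cm (P ^ r) P = r * Real.log (absNorm P) := by
  classical
  unfold cm
  rw [normalizedFactors_pow, normalizedFactors_irreducible hP.irreducible, normalize_eq,
    Multiset.count_nsmul, Multiset.count_singleton_self, mul_one]

theorem pow_add_le {a b m : ℝ} (s : ℕ) (ha : 0 ≤ a) (hb : 0 ≤ b) (h : b = 0 ∨ a + b ≤ m) :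
    (a + b) ^ s ≤ a ^ s + s * m ^ (s - 1) * b := by
  rcases h with rfl | h
  · simp
  have h1 := abs_pow_sub_pow_le (a + b) a s
  rw [add_sub_cancel_left, abs_of_nonneg hb, abs_of_nonneg ha, abs_of_nonneg (add_nonneg ha hb),
    max_eq_left (le_add_of_nonneg_right hb)] at h1
  have h2 := mul_le_mul_of_nonneg_left (pow_le_pow_left₀ (add_nonneg ha hb) h (s - 1))
    (mul_nonneg hb (Nat.cast_nonneg (α := ℝ) s))
  linarith [le_abs_self ((a + b) ^ s - a ^ s)]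

theorem pow_drop {a b c : ℝ} {s : ℕ} (hs : s ≠ 0) (ha : 0 ≤ a) (hb : 0 ≤ b) (hc : 0 ≤ c)
    (h : c ≤ a + b) : a ^ s + b * c ^ (s - 1) ≤ (a + b) ^ s := by
  obtain ⟨s, rfl⟩ := Nat.exists_eq_succ_of_ne_zero hs
  rw [Nat.succ_sub_one, pow_succ, pow_succ, mul_add]
  have h1 := mul_le_mul_of_nonneg_right (pow_le_pow_left₀ ha (le_add_of_nonneg_right hb) s) ha
  have h2 := mul_le_mul_of_nonneg_right (pow_le_pow_left₀ hc h s) hb
  linarith

theorem phi_add {s : ℕ} (hs : s ≠ 0) {D I : Ideal (𝓞 E)} (hD : D ≠ 0) (hI : I ≠ 0) {m : ℝ}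
    (h : ∀ P ∈ supp I, cm D P + cm I P ≤ m) :
    phi s (D * I) ≤ phi s D + s * m ^ (s - 1) * Real.log (absNorm I) := by
  have h0 := mul_ne_zero hD hI
  rw [phi_eq hs (supp_mono h0 (dvd_mul_right D I)), ← sum_cm hI,
    sum_subset (supp_mono h0 (dvd_mul_left I D)) fun P _ hP => cm_zero hP, mul_sum,
    ← sum_add_distrib]
  refine sum_le_sum fun P _ => ?_
  rw [cm_mul hD hI]
  refine pow_add_le s (cm_nonneg _ _) (cm_nonneg _ _) ?_
  by_cases hP : P ∈ supp I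
  · exact Or.inr (h P hP)
  · exact Or.inl (cm_zero hP)

theorem phi_drop {s : ℕ} (hs : s ≠ 0) {D D' A A' I : Ideal (𝓞 E)} (h0 : D * I ≠ 0)
    (h : D' * (A * A') ∣ D * I) (S : Finset (Ideal (𝓞 E))) :
    phi s D' + ∑ P ∈ S, cm A P * cm D P ^ (s - 1) ≤ phi s (D * I) := by
  classical
  obtain ⟨K, hK⟩ := h
  have e : D * I = D' * (A * (A' * K)) := by rw [hK]; ring
  have h1 := e ▸ h0
  have h2 := right_ne_zero_of_mul h1
  rw [phi_eq hs (subset_union_left (s₂ := S) (s₁ := supp (D * I))), phi_eq hs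
    ((supp_mono h0 (e ▸ dvd_mul_right _ _)).trans (subset_union_left (s₂ := S)))]
  refine le_trans (add_le_add_right (sum_le_sum_of_subset_of_nonneg
    (subset_union_right (s₁ := supp (D * I))) fun P _ _ =>
      mul_nonneg (cm_nonneg _ _) (pow_nonneg (cm_nonneg _ _) _)) _) ?_
  rw [← sum_add_distrib]
  refine sum_le_sum fun P _ => ?_
  have h3 := cm_mono h0 (dvd_mul_right D I) P
  rw [e, cm_mul (left_ne_zero_of_mul h1) h2] at h3 ⊢
  refine le_trans (add_le_add_right (mul_le_mul_of_nonneg_right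
    (cm_mono h2 (dvd_mul_right _ _) P) (pow_nonneg (cm_nonneg _ _) _)) _) ?_
  exact pow_drop hs (cm_nonneg _ _) (cm_nonneg _ _) (cm_nonneg _ _) h3

theorem map_ne (cj : 𝓞 E ≃+* 𝓞 E) {I : Ideal (𝓞 E)} (h : I ≠ 0) : I.map cj ≠ 0 := fun e =>
  idl_norm_ne E h (by rw [← eidl_norm_map cj I, e, map_zero])

theorem pow_dvd_map (cj : 𝓞 E ≃+* 𝓞 E) {I P : Ideal (𝓞 E)} {v : ℕ} (h : P ^ v ∣ I.map cj) :
    (P.map cj.symm) ^ v ∣ I := by
  have h1 := Ideal.map_mono (f := cj.symm) (Ideal.le_of_dvd h)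
  rw [Ideal.map_pow, show (I.map cj).map cj.symm = I from Ideal.map_of_equiv cj] at h1
  exact Ideal.dvd_iff_le.2 h1

theorem prime_map (cj : 𝓞 E ≃+* 𝓞 E) {P : Ideal (𝓞 E)} (h : Prime P) : Prime (P.map cj) :=
  have := Ideal.isPrime_of_prime h
  Ideal.prime_of_isPrime (map_ne cj h.ne_zero) (Ideal.map_isPrime_of_equiv cj)

theorem log_norm_mul {D I : Ideal (𝓞 E)} (hD : D ≠ 0) (hI : I ≠ 0) :
    Real.log (absNorm (D * I)) = Real.log (absNorm D) + Real.log (absNorm I) := by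
  rw [map_mul, Nat.cast_mul, Real.log_mul (Nat.cast_ne_zero.2 (idl_norm_ne E hD))
    (Nat.cast_ne_zero.2 (idl_norm_ne E hI))]

theorem log_norm_cj (cj : 𝓞 E ≃+* 𝓞 E) {I : Ideal (𝓞 E)} (hI : I ≠ 0) :
    Real.log (absNorm (I * I.map cj)) = 2 * Real.log (absNorm I) := by
  rw [log_norm_mul hI (map_ne cj hI), eidl_norm_map, two_mul]

theorem one_add_pow_le {s : ℕ} (hs : s ≠ 0) : (1 + 1 / (16 * s) : ℝ) ^ (s - 1) ≤ 2 := by
  have h0 : (0 : ℝ) < s := Nat.cast_pos.2 (Nat.pos_of_ne_zero hs)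
  have h1 : (1 + 1 / (16 * s) : ℝ) ≤ Real.exp (1 / (16 * s)) := by
    linarith [Real.add_one_le_exp (1 / (16 * s) : ℝ)]
  refine (pow_le_pow_right₀ (le_add_of_nonneg_right (by positivity)) (Nat.sub_le s 1)).trans
    ((pow_le_pow_left₀ (by positivity) h1 s).trans ?_)
  rw [← Real.exp_nat_mul, show (s : ℝ) * (1 / (16 * s)) = 1 / 16 by field_simp]
  have := Real.exp_bound_div_one_sub_of_interval' (x := 1 / 16) (by norm_num) (by norm_num)
  linarith

/-- Case A: half of the heaviest prime is removed, little mass falls on heavy primes. -/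
theorem phi_caseA (cj : 𝓞 E ≃+* 𝓞 E) {s : ℕ} (hs : s ≠ 0) {D D' A Bb Bg P₀ : Ideal (𝓞 E)}
    {M L W : ℝ} (Hv : Finset (Ideal (𝓞 E))) (hD : D ≠ 0) (hb : Bb ≠ 0) (hg : Bg ≠ 0)
    (hdvd : D' * (A * A.map cj) ∣ D * (Bb * Bg * (Bb * Bg).map cj))
    (hM : ∀ P, cm D P ≤ M) (h0 : cm D P₀ = M) (hA : M / 2 ≤ cm A P₀)
    (hH : ∀ P ∈ supp D, M / 4 ≤ cm D P → Real.log (absNorm P) ≤ L → P ∈ Hv ∧ P.map cj.symm ∈ Hv)
    (hgood : ∀ Q, Prime Q → ∀ v : ℕ, 0 < v → Q ^ v ∣ Bg → Q ∉ Hv ∧ v * Real.log (absNorm Q) ≤ L)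
    (hL0 : 0 ≤ L) (hL : 8 * L ≤ M) (hbb : 32 * s * Real.log (absNorm Bb) ≤ M)
    (hW0 : 0 ≤ W) (hgg : Real.log (absNorm Bg) ≤ W * L) (hW : 4 * s * W ≤ 2 ^ s) :
    phi s D' + M ^ s / 4 ≤ phi s D := by
  have hM0 : 0 ≤ M := h0 ▸ cm_nonneg _ _
  have s0 : (0 : ℝ) < s := Nat.cast_pos.2 (Nat.pos_of_ne_zero hs)
  have hg' := map_ne cj hg
  have hIg := mul_ne_zero hg hg'
  have hIb := mul_ne_zero hb (map_ne cj hb)
  have e : D * (Bb * Bg * (Bb * Bg).map cj) = D * (Bg * Bg.map cj) * (Bb * Bb.map cj) := by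
    rw [Ideal.map_mul]; ring
  have k1 : ∀ P ∈ supp Bg, cm Bg P ≤ L ∧ Real.log (absNorm P) ≤ L ∧ P ∉ Hv := fun P hP => by
    obtain ⟨v, h1, h2, h3⟩ := cm_spec hg hP
    have h4 := hgood P ((mem_supp hg).1 hP).1
    have h5 := (h4 1 one_pos ((pow_one P).symm ▸ ((mem_supp hg).1 hP).2)).2
    exact ⟨h3 ▸ (h4 v h1 h2).2, by simpa using h5, (h4 v h1 h2).1⟩
  have k2 : ∀ P ∈ supp (Bg.map cj), cm (Bg.map cj) P ≤ L ∧ Real.log (absNorm P) ≤ L ∧
      P.map cj.symm ∉ Hv := fun P hP => by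
    obtain ⟨v, h1, h2, h3⟩ := cm_spec hg' hP
    have h4 := hgood _ (prime_map cj.symm ((mem_supp hg').1 hP).1)
    rw [eidl_norm_map] at h4
    have h5 := (h4 1 one_pos (pow_dvd_map cj ((pow_one P).symm ▸ ((mem_supp hg').1 hP).2))).2
    exact ⟨h3 ▸ (h4 v h1 (pow_dvd_map cj h2)).2, by simpa using h5,
      (h4 v h1 (pow_dvd_map cj h2)).1⟩
  have k3 : ∀ P ∈ supp (Bg * Bg.map cj), cm D P + cm (Bg * Bg.map cj) P ≤ M / 2 := fun P hP => by
    have a1 : cm Bg P ≤ L := by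
      by_cases h : P ∈ supp Bg
      · exact (k1 P h).1
      · rwa [cm_zero h]
    have a2 : cm (Bg.map cj) P ≤ L := by
      by_cases h : P ∈ supp (Bg.map cj)
      · exact (k2 P h).1
      · rwa [cm_zero h]
    have a3 : cm D P ≤ M / 4 := by
      by_cases h : P ∈ supp D
      · by_contra h'
        have h'' := hH P h (not_le.1 h').le
        obtain ⟨b1, b2⟩ := (mem_supp hIg).1 hP
        rcases b1.dvd_or_dvd b2 with b | b
        · have := k1 P ((mem_supp hg).2 ⟨b1, b⟩)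
          exact this.2.2 (h'' this.2.1).1
        · have := k2 P ((mem_supp hg').2 ⟨b1, b⟩)
          exact this.2.2 (h'' this.2.1).2
      · rw [cm_zero h]; positivity
    rw [cm_mul hg hg']
    linarith
  have p1 := phi_add hs hD hIg k3
  have p2 := phi_add hs (mul_ne_zero hD hIg) hIb (m := M * (1 + 1 / (16 * s))) fun P _ => by
    have a1 : cm (D * (Bg * Bg.map cj)) P ≤ M := by
      rw [cm_mul hD hIg]
      by_cases h : P ∈ supp (Bg * Bg.map cj)
      · linarith [k3 P h]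
      · rw [cm_zero h, add_zero]; exact hM P
    have a2 := cm_le_log hIb P
    rw [log_norm_cj cj hb] at a2
    have a3 : 2 * Real.log (absNorm Bb) ≤ M * (1 / (16 * s)) := by
      rw [mul_one_div, le_div_iff₀ (by positivity)]; linarith
    linarith
  have p3 := phi_drop hs (e ▸ mul_ne_zero (mul_ne_zero hD hIg) hIb) hdvd {P₀}
  rw [sum_singleton, h0, e] at p3
  rw [log_norm_cj cj hg] at p1
  rw [log_norm_cj cj hb, mul_pow] at p2
  have q0 : M ^ s = M * M ^ (s - 1) := (mul_pow_sub_one hs M).symm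
  have q1 : 0 ≤ M ^ (s - 1) := pow_nonneg hM0 _
  have q2 := mul_le_mul_of_nonneg_right hA q1
  have q3 : s * (M ^ (s - 1) * (1 + 1 / (16 * s)) ^ (s - 1)) * (2 * Real.log (absNorm Bb)) ≤
      M * M ^ (s - 1) / 8 := by
    have a1 := mul_le_mul (one_add_pow_le hs) hbb
      (mul_nonneg (by positivity) (Real.log_natCast_nonneg _)) zero_le_two
    nlinarith [mul_le_mul_of_nonneg_left a1 q1]
  have q4 : s * (M / 2) ^ (s - 1) * (2 * Real.log (absNorm Bg)) ≤ M * M ^ (s - 1) / 8 := by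
    have a1 : (2 : ℝ) ^ s = 2 * 2 ^ (s - 1) := (mul_pow_sub_one hs 2).symm
    have a2 : (0 : ℝ) < 2 ^ (s - 1) := by positivity
    have a3 : 8 * Real.log (absNorm Bg) ≤ W * M := by nlinarith
    have a4 : 16 * s * Real.log (absNorm Bg) ≤ 2 ^ (s - 1) * M := by
      nlinarith [mul_le_mul_of_nonneg_left a3 s0.le, mul_le_mul_of_nonneg_right hW hM0]
    rw [div_pow, ← mul_div_assoc, div_mul_eq_mul_div, div_le_iff₀ a2]
    nlinarith [mul_le_mul_of_nonneg_left a4 q1]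
  linarith

/-- Case B: one step is removed at many heavy primes of large norm. -/
theorem phi_caseB (cj : 𝓞 E ≃+* 𝓞 E) {s : ℕ} (hs : s ≠ 0) {D D' A B : Ideal (𝓞 E)}
    {M W η : ℝ} (S : Finset (Ideal (𝓞 E))) (hD : D ≠ 0) (hB : B ≠ 0)
    (hdvd : D' * (A * A.map cj) ∣ D * (B * B.map cj)) (hM0 : 0 ≤ M) (hM : ∀ P, cm D P ≤ M)
    (hS : ∀ P ∈ S, Prime P ∧ P ∣ A ∧ M / 4 ≤ cm D P ∧ η * M ≤ Real.log (absNorm P))
    (hW0 : 0 ≤ W) (hW : 2 * Real.log (absNorm B) ≤ W * M)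
    (hu : s * W * (1 + W) ^ (s - 1) + 1 ≤ S.card * (η / 4 ^ (s - 1))) :
    phi s D' + M ^ s ≤ phi s D := by
  have hI := mul_ne_zero hB (map_ne cj hB)
  have h0 := mul_ne_zero hD hI
  have hA : A ≠ 0 := left_ne_zero_of_mul (right_ne_zero_of_mul (ne_zero_of_dvd_ne_zero h0 hdvd))
  have p1 := phi_add hs hD hI (m := M * (1 + W)) fun P _ => by
    have a2 := cm_le_log hI P
    rw [log_norm_cj cj hB] at a2
    linarith [hM P]
  have p3 := phi_drop hs h0 hdvd S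
  have p4 := card_nsmul_le_sum S (fun P => cm A P * cm D P ^ (s - 1))
    (η * M * (M / 4) ^ (s - 1)) fun P hP => by
      obtain ⟨a1, a2, a3, a4⟩ := hS P hP
      have a5 := cm_mono hA ((pow_one P).symm ▸ a2 : P ^ 1 ∣ A) P
      rw [cm_pow a1, Nat.cast_one, one_mul] at a5
      exact mul_le_mul (a4.trans a5) (pow_le_pow_left₀ (by positivity) a3 _) (by positivity)
        (cm_nonneg _ _)
  rw [log_norm_cj cj hB, mul_pow] at p1
  rw [nsmul_eq_mul, div_pow] at p4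
  have q0 : M ^ s = M * M ^ (s - 1) := (mul_pow_sub_one hs M).symm
  have q1 : 0 ≤ M ^ (s - 1) := pow_nonneg hM0 _
  have q2 := mul_le_mul_of_nonneg_left hW
    (show 0 ≤ s * (M ^ (s - 1) * (1 + W) ^ (s - 1)) by positivity)
  have q3 := mul_le_mul_of_nonneg_right hu (mul_nonneg hM0 q1)
  have q4 : S.card * (η * M * (M ^ (s - 1) / 4 ^ (s - 1))) =
      S.card * (η / 4 ^ (s - 1)) * (M * M ^ (s - 1)) := by ring
  nlinarith

end Pool.Agent.MT.W2
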