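import Pool.Agent.Lib.MP_d61fbb_ag.MT.BAl3

/-! First order rigidity of theta functions over a field. -/

set_option autoImplicit false

namespace Pool.Agent.MT

open Finset Module BSys

/-- Graded spaces of functions with a Heisenberg action. -/
structure HSys (k V A : Type*) [Field k] [AddCommGroup V] [Module ℚ V] [AddCommGroup A]
    [Module ℚ A] where
  E : V →ₗ[ℚ] V →ₗ[ℚ] A
  ψ : AddChar A k
  L : AddSubgroup V
  H : ℕ → Submodule k (V → k)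
  c : ℕ
  g : ℕ
  alt : ∀ x, E x x = 0
  c_pos : 0 < c
  two : (2 : k) ≠ 0
  H_one : 1 ∈ H 0
  H_mul : ∀ {r s f h}, f ∈ H r → h ∈ H s → f * h ∈ H (r + s)
  H_U : ∀ {r f} y, f ∈ H r → Uo E ψ r y f ∈ H r
  H_neg : ∀ {r f}, f ∈ H r → (fun x => f (-x)) ∈ H r
  H_dil : ∀ {r f}, f ∈ H r → dil 2 f ∈ H (4 * r)
  dim : ∀ r, 0 < r → Module.rank k (H r ⊓ InvU E ψ L r :) ≤ ((c * r) ^ g : ℕ)
  bpf : ∀ r x, ∃ h ∈ H r ⊓ InvU E ψ L r, h x ≠ 0
  irr : ∀ r : ℕ, (r : k) ≠ 0 → ∀ X : Submodule k (V → k), X ≤ H r → X ≠ ⊥ →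
    (∀ y, ∀ f ∈ X, Uo E ψ r y f ∈ X) → X = H r
  gen : ∀ r, 0 < r → H r ≤ Submodule.span k
    {f | ∃ y, ∃ h ∈ H r ⊓ InvU E ψ L r, f = Uo E ψ r y h}
  nd : ∀ r : ℕ, (r : k) ≠ 0 → ∃ s : Finset V, ((c * r) ^ g) ^ 2 ≤ s.card ∧
    (∀ y ∈ s, ∀ l ∈ L, ψ ((2 * r) • E y l) = 1) ∧ ∀ y ∈ s, ∀ y' ∈ s,
      (∀ z, (∀ l ∈ L, ψ ((2 * r) • E z l) = 1) → ψ ((2 * r) • E y z) = ψ ((2 * r) • E y' z)) → y = y'

theorem rig_growth (g M : ℕ) : ∃ t₀, ∀ m, t₀ ≤ m → (m + M) ^ g < 2 * m ^ g := by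
  have h1 : Filter.Tendsto (fun m : ℕ => (1 + (M : ℝ) / m) ^ g) Filter.atTop (nhds ((1 + 0) ^ g)) :=
    ((tendsto_const_div_atTop_nhds_zero_nat (M : ℝ)).const_add 1).pow g
  obtain ⟨t, ht⟩ := Filter.eventually_atTop.1 (h1.eventually (gt_mem_nhds (show _ < (2 : ℝ) by simp)))
  refine ⟨t + 1, fun m hm => ?_⟩
  have m0 : (0 : ℝ) < m := Nat.cast_pos.2 (by omega)
  have := mul_lt_mul_of_pos_right (ht m (by omega)) (pow_pos m0 g)
  rw [← mul_pow, show (1 + (M : ℝ) / m) * m = m + M by field_simp] at this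
  exact_mod_cast this

namespace HSys

variable {k V A : Type*} [Field k] [AddCommGroup V] [Module ℚ V] [AddCommGroup A] [Module ℚ A]
  (T : HSys k V A)

/-- the Heisenberg operators of the system -/
abbrev U (r : ℕ) (y : V) : (V → k) →ₗ[k] V → k := Uo T.E T.ψ r y

/-- invariant functions -/
abbrev Iv (r : ℕ) : Submodule k (V → k) := InvU T.E T.ψ T.L r

lemma U_apply (r : ℕ) (y : V) (f : V → k) (x : V) : T.U r y f x = T.ψ (r • T.E y x) * f (x + y) :=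
  rfl

lemma ψ_add (a b : A) : T.ψ (a + b) = T.ψ a * T.ψ b := AddChar.map_add_eq_mul _ _ _

lemma swap (x y : V) : T.E x y = -T.E y x := by
  have := T.alt (x + y)
  simp only [map_add, LinearMap.add_apply, T.alt, zero_add, add_zero] at this
  exact eq_neg_of_add_eq_zero_right this

lemma U_mul (r s : ℕ) (y : V) (f h : V → k) : T.U (r + s) y (f * h) = T.U r y f * T.U s y h :=
  funext fun x => by
    simp only [U_apply, Pi.mul_apply, add_smul, ψ_add]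
    ring

lemma U_pow (r : ℕ) (y : V) (f : V → k) (j : ℕ) : T.U (j * r) y (f ^ j) = T.U r y f ^ j := by
  induction j with
  | zero => funext x; simp [U_apply]
  | succ j ih => rw [pow_succ, pow_succ, add_mul, one_mul, U_mul, ih]

lemma U_zero (r : ℕ) (f : V → k) : T.U r 0 f = f := funext fun x => by simp [U_apply]

lemma U_U (r : ℕ) (y z : V) (f : V → k) :
    T.U r z (T.U r y f) = T.ψ (r • T.E y z) • T.U r (z + y) f := funext fun x => by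
  simp only [U_apply, Pi.smul_apply, smul_eq_mul, ← mul_assoc, ← ψ_add, add_assoc]
  congr 2
  simp only [map_add, LinearMap.add_apply]
  module

lemma U_comm (r : ℕ) (y z : V) (f : V → k) :
    T.U r z (T.U r y f) = T.ψ ((2 * r) • T.E y z) • T.U r y (T.U r z f) := funext fun x => by
  simp only [U_apply, Pi.smul_apply, smul_eq_mul, ← mul_assoc, ← ψ_add, add_right_comm x z y]
  congr 2
  simp only [map_add, T.swap z y]
  module

lemma U_neg (r : ℕ) (y : V) (f : V → k) : T.U r y (T.U r (-y) f) = f := funext fun x => by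
  simp [U_apply, ← mul_assoc, ← ψ_add, T.alt]

lemma dil_U (r : ℕ) (y : V) (f : V → k) :
    dil 2 (T.U r (2 • y) f) = T.U (4 * r) y (dil 2 f) := funext fun x => by
  simp only [dil_apply, U_apply, smul_add, map_nsmul, LinearMap.smul_apply, smul_smul]
  congr 3
  ring

lemma H_cast {r r' : ℕ} {f : V → k} (h : f ∈ T.H r) (e : r = r') : f ∈ T.H r' := e ▸ h

lemma H_pow {r : ℕ} {f : V → k} (h : f ∈ T.H r) (j : ℕ) : f ^ j ∈ T.H (j * r) := by
  induction j with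
  | zero => rw [pow_zero, zero_mul]; exact T.H_one
  | succ j ih => rw [pow_succ, add_mul, one_mul]; exact T.H_mul ih h

/-- eigenfunctions of the lattice with the character of `b` -/
def Eg (r : ℕ) (b : V) : Submodule k (V → k) where
  carrier := {f | ∀ l ∈ T.L, T.U r l f = T.ψ (2 • T.E b l) • f}
  add_mem' hf hg l hl := by rw [map_add, hf l hl, hg l hl, smul_add]
  zero_mem' l _ := by rw [map_zero, smul_zero]
  smul_mem' c f hf l hl := by rw [map_smul, hf l hl, smul_comm]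

variable {T}

lemma Eg_zero {r : ℕ} {f : V → k} : f ∈ T.Eg r 0 ↔ f ∈ T.Iv r :=
  forall₂_congr fun l _ => by
    rw [map_zero, LinearMap.zero_apply, smul_zero, AddChar.map_zero_eq_one, one_smul]

lemma Eg_cast {r r' : ℕ} {b b' : V} {f : V → k} (h : f ∈ T.Eg r b) (e : r = r') (e' : b = b') :
    f ∈ T.Eg r' b' := e ▸ e' ▸ h

lemma Eg_mul {r s : ℕ} {b b' : V} {f h : V → k} (hf : f ∈ T.Eg r b) (hh : h ∈ T.Eg s b') :
    f * h ∈ T.Eg (r + s) (b + b') := fun l hl => by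
  rw [U_mul, hf l hl, hh l hl, smul_mul_smul_comm, map_add, LinearMap.add_apply, smul_add, ψ_add]

lemma Eg_U {r : ℕ} {b : V} {f : V → k} (hf : f ∈ T.Eg r b) (y : V) :
    T.U r y f ∈ T.Eg r (b + r • y) := fun l hl => by
  rw [U_comm, hf l hl, map_smul (T.U r y), smul_smul, ← ψ_add]
  congr 2
  simp only [map_add, map_nsmul, LinearMap.add_apply, LinearMap.smul_apply]
  module

lemma Eg_pow {r : ℕ} {b : V} {f : V → k} (hf : f ∈ T.Eg r b) (j : ℕ) :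
    f ^ j ∈ T.Eg (j * r) (j • b) := by
  induction j with
  | zero => intro l _; funext x; simp [U_apply]
  | succ j ih =>
    rw [pow_succ]
    exact Eg_cast (Eg_mul ih hf) (by ring) (succ_nsmul _ _).symm

lemma Iv_mul {r s : ℕ} {f h : V → k} (hf : f ∈ T.Iv r) (hh : h ∈ T.Iv s) : f * h ∈ T.Iv (r + s) :=
  Eg_zero.1 (Eg_cast (Eg_mul (Eg_zero.2 hf) (Eg_zero.2 hh)) rfl (add_zero _))

lemma Iv_pow {r : ℕ} {f : V → k} (hf : f ∈ T.Iv r) (j : ℕ) : f ^ j ∈ T.Iv (j * r) :=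
  Eg_zero.1 (Eg_cast (Eg_pow (Eg_zero.2 hf) j) rfl (smul_zero _))

lemma Iv_dil {r : ℕ} {f : V → k} (hf : f ∈ T.Iv r) : dil 2 f ∈ T.Iv (4 * r) := fun l hl =>
  (T.dil_U r l f).symm.trans (congrArg _ (hf _ (T.L.nsmul_mem hl 2)))

variable (T) in
/-- the vectors that commute with the lattice in weight `r` -/
def Y (r : ℕ) : AddSubgroup V where
  carrier := {y | ∀ l ∈ T.L, T.ψ ((2 * r) • T.E y l) = 1}
  zero_mem' l _ := by simp
  add_mem' ha hb l hl := by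
    rw [map_add, LinearMap.add_apply, smul_add, ψ_add, ha l hl, hb l hl, one_mul]
  neg_mem' {y} ha l hl := by
    rw [map_neg, LinearMap.neg_apply, smul_neg, AddChar.map_neg_eq_inv, ha l hl, inv_one]

lemma Iv_U {r : ℕ} {y : V} (hy : y ∈ T.Y r) {f : V → k} (hf : f ∈ T.Iv r) : T.U r y f ∈ T.Iv r :=
  fun l hl => (T.U_comm r y l f).trans (by
    rw [hy l hl, one_smul]
    exact congrArg _ (hf l hl))

variable (T) in
/-- the space generated by `Φ` over the theta functions -/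
def K (Φ : Set (V → k)) (n t : ℕ) : Submodule k (V → k) :=
  T.H (n + t) ⊔ Submodule.span k {f | ∃ φ ∈ Φ, ∃ h ∈ T.H t, f = φ * h}

lemma K_H {Φ : Set (V → k)} {n t : ℕ} {f : V → k} (h : f ∈ T.H (n + t)) : f ∈ T.K Φ n t :=
  Submodule.mem_sup_left h

lemma K_mem {Φ : Set (V → k)} {n t : ℕ} {φ h : V → k} (hφ : φ ∈ Φ) (hh : h ∈ T.H t) :
    φ * h ∈ T.K Φ n t := Submodule.mem_sup_right (Submodule.subset_span ⟨φ, hφ, h, hh, rfl⟩)

lemma K_ind {Φ : Set (V → k)} {n t : ℕ} (X : Submodule k (V → k)) (P : (V → k) →ₗ[k] V → k)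
    (h1 : ∀ f ∈ T.H (n + t), P f ∈ X) (h2 : ∀ φ ∈ Φ, ∀ h ∈ T.H t, P (φ * h) ∈ X) :
    ∀ f ∈ T.K Φ n t, P f ∈ X :=
  show T.K Φ n t ≤ X.comap P from sup_le h1 (Submodule.span_le.2 (by
    rintro _ ⟨φ, hφ, h, hh, rfl⟩
    exact h2 φ hφ h hh))

lemma K_U {Φ : Set (V → k)} {n t : ℕ} (hU : ∀ u, ∀ φ ∈ Φ, T.U n u φ ∈ Φ) (u : V) :
    ∀ f ∈ T.K Φ n t, T.U (n + t) u f ∈ T.K Φ n t :=
  K_ind _ _ (fun _ hf => K_H (T.H_U u hf)) fun φ hφ h hh => by
    rw [U_mul]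
    exact K_mem (hU u φ hφ) (T.H_U u hh)

lemma K_mul {Φ : Set (V → k)} {n t s : ℕ} {h : V → k} (hh : h ∈ T.H s) :
    ∀ f ∈ T.K Φ n t, f * h ∈ T.K Φ n (t + s) :=
  K_ind _ (LinearMap.mulRight k h) (fun _ hf => K_H (T.H_cast (T.H_mul hf hh) (add_assoc _ _ _)))
    fun φ hφ h' hh' => by
      rw [LinearMap.mulRight_apply, mul_assoc]
      exact K_mem hφ (T.H_mul hh' hh)

/-- functions with a complement of bounded weight generate nothing new in large weight -/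
theorem count₀ [Infinite k] {n M : ℕ} (Φ : Set (V → k)) (hU : ∀ u, ∀ φ ∈ Φ, T.U n u φ ∈ Φ)
    (hE : ∀ φ ∈ Φ, ∃ b, φ ∈ T.Eg n b)
    (hG : ∀ x, ∃ g ∈ T.H M ⊓ T.Iv M, g x ≠ 0 ∧ ∀ φ ∈ Φ, φ * g ∈ T.H (n + M)) :
    ∃ t₀, ∀ t, t₀ ≤ t → ((n + t : ℕ) : k) ≠ 0 → T.K Φ n t ≤ T.H (n + t) := by
  let G : Submodule k (V → k) := (T.H M ⊓ T.Iv M) ⊓
    ⨅ φ ∈ Φ, (T.H (n + M)).comap (LinearMap.mulLeft k φ)
  have mG : ∀ g, g ∈ G ↔ g ∈ T.H M ⊓ T.Iv M ∧ ∀ φ ∈ Φ, φ * g ∈ T.H (n + M) := fun g => by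
    simp only [G, Submodule.mem_inf, Submodule.mem_iInf, Submodule.mem_comap,
      LinearMap.mulLeft_apply]
  obtain ⟨t₀, h₀⟩ := rig_growth T.g M
  refine ⟨t₀ + 1, fun t ht hk => ?_⟩
  have hb : Module.rank k (T.K Φ n t ⊓ T.Iv (n + t) :) ≤ ((T.c * (n + t + M)) ^ T.g : ℕ) := by
    refine bal_rank _ _ G 1 _ (fun x => ?_) (fun g hg f hf => ?_) (T.dim (n + t + M) (by omega))
    · obtain ⟨g, h1, h2, h3⟩ := hG x
      exact ⟨g, (mG g).2 ⟨h1, h3⟩, h2⟩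
    obtain ⟨h1, h2⟩ := (mG g).1 hg
    rw [pow_one]
    refine ⟨K_ind _ (LinearMap.mulRight k g) (fun f hf => T.H_mul hf h1.1)
      (fun φ hφ h hh => ?_) f hf.1, Iv_mul hf.2 h1.2⟩
    rw [LinearMap.mulRight_apply, mul_right_comm]
    exact T.H_cast (T.H_mul (h2 φ hφ) hh) (by ring)
  have : Module.Finite k (T.K Φ n t ⊓ T.Iv (n + t) :) :=
    Module.rank_lt_aleph0_iff.1 (hb.trans_lt Cardinal.natCast_lt_aleph0)
  have le : T.H (n + t) ⊓ T.Iv (n + t) ≤ T.K Φ n t ⊓ T.Iv (n + t) :=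
    fun f hf => ⟨K_H hf.1, hf.2⟩
  have := Submodule.finiteDimensional_of_le le
  obtain ⟨s, c1, y1, n1⟩ := T.nd (n + t) hk
  have heis := bal_heis2 (fun z : T.Y (n + t) => T.U (n + t) z) (fun z => T.U_neg (n + t) z)
    (fun i : s => ⟨i, y1 _ i.2⟩)
    (fun i => T.ψ.compAddMonoidHom
      (((2 * (n + t)) • T.E i).toAddMonoidHom.comp (T.Y (n + t)).subtype))
    (fun i i' e => Subtype.ext (n1 _ i.2 _ i'.2 fun l hl => DFunLike.congr_fun e ⟨l, hl⟩))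
    (fun i z => T.U_comm (n + t) i z) (c1.trans_eq (Fintype.card_coe _).symm)
  have sH : ∀ z : T.Y (n + t), ∀ v ∈ T.H (n + t) ⊓ T.Iv (n + t),
      T.U (n + t) z v ∈ T.H (n + t) ⊓ T.Iv (n + t) := fun z v hv =>
    ⟨T.H_U z hv.1, Iv_U z.2 hv.2⟩
  have b1 := heis ⊥ _ (fun z v hv => by rw [(Submodule.mem_bot k).1 hv, map_zero]; rfl) sH
    (bot_lt_iff_ne_bot.2 ((Submodule.ne_bot_iff _).2 (by
      obtain ⟨h, h1, h2⟩ := T.bpf (n + t) 0
      exact ⟨h, h1, fun e => h2 (congrFun e 0)⟩)))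
  have eq : T.H (n + t) ⊓ T.Iv (n + t) = T.K Φ n t ⊓ T.Iv (n + t) := by
    by_contra hn
    have b2 := heis _ (T.K Φ n t ⊓ T.Iv (n + t)) sH
      (fun z v hv => ⟨K_U hU z v hv.1, Iv_U z.2 hv.2⟩) (lt_of_le_of_ne le hn)
    have b3 := finrank_le_of_rank_le hb
    have b4 := mul_lt_mul_of_pos_left (h₀ (n + t) (by omega)) (pow_pos T.c_pos T.g)
    simp only [mul_pow] at b1 b2 b3
    rw [mul_left_comm] at b4
    omega
  refine K_ind _ LinearMap.id (fun f hf => hf) fun φ hφ h hh => ?_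
  obtain ⟨b, hb⟩ := hE φ hφ
  refine (Submodule.span_le (p := (T.H (n + t)).comap (LinearMap.mulLeft k φ))).2 ?_
    (T.gen t (by omega) hh)
  rintro _ ⟨w, h, hh, rfl⟩
  have m0 : ((n + t : ℕ) : ℚ) ≠ 0 := Nat.cast_ne_zero.2 (by omega)
  have e1 := Eg_U (Eg_mul hb (Eg_U (Eg_zero.2 hh.2) w)) (-(((n + t : ℕ) : ℚ)⁻¹ • (b + t • w)))
  have e2 : T.U (n + t) (-(((n + t : ℕ) : ℚ)⁻¹ • (b + t • w))) (φ * T.U t w h) ∈
      T.K Φ n t ⊓ T.Iv (n + t) :=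
    ⟨K_U hU _ _ (K_mem hφ (T.H_U w hh.1)), Eg_zero.1 (Eg_cast e1 rfl (by
      rw [smul_neg, ← Nat.cast_smul_eq_nsmul ℚ (n + t), smul_inv_smul₀ m0, zero_add,
        add_neg_cancel]))⟩
  have e3 := T.H_U (((n + t : ℕ) : ℚ)⁻¹ • (b + t • w)) (eq.ge e2).1
  rw [T.U_neg] at e3
  exact e3

/-- one complement is enough -/
theorem count [Infinite k] {n M : ℕ} (Φ : Set (V → k)) (hU : ∀ u, ∀ φ ∈ Φ, T.U n u φ ∈ Φ)
    (hE : ∀ φ ∈ Φ, ∃ b, φ ∈ T.Eg n b) {g : V → k} (hg : g ∈ T.H M) (g0 : g ≠ 0)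
    (hc : ∀ φ ∈ Φ, φ * g ∈ T.H (n + M)) :
    ∃ t₀, ∀ t, t₀ ≤ t → ((n + t : ℕ) : k) ≠ 0 → T.K Φ n t ≤ T.H (n + t) := by
  have key : ∀ (M : ℕ) (g : V → k), (M : k) ≠ 0 → g ∈ T.H M → g ≠ 0 →
      (∀ φ ∈ Φ, φ * g ∈ T.H (n + M)) →
      ∃ t₀, ∀ t, t₀ ≤ t → ((n + t : ℕ) : k) ≠ 0 → T.K Φ n t ≤ T.H (n + t) := by
    intro M g hM hg g0 hc
    let G : Submodule k (V → k) := T.H M ⊓ ⨅ φ ∈ Φ, (T.H (n + M)).comap (LinearMap.mulLeft k φ)
    have mG : ∀ g, g ∈ G ↔ g ∈ T.H M ∧ ∀ φ ∈ Φ, φ * g ∈ T.H (n + M) := fun g => by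
      simp only [G, Submodule.mem_inf, Submodule.mem_iInf, Submodule.mem_comap,
        LinearMap.mulLeft_apply]
    have e := T.irr M hM G inf_le_left ((Submodule.ne_bot_iff _).2 ⟨g, (mG g).2 ⟨hg, hc⟩, g0⟩)
      fun y f hf => (mG _).2 ⟨T.H_U y ((mG f).1 hf).1, fun φ hφ => by
        have := T.H_U y (((mG f).1 hf).2 _ (hU (-y) φ hφ))
        rwa [show Uo T.E T.ψ = T.U from rfl, U_mul, U_neg] at this⟩
    refine count₀ (M := M) Φ hU hE fun x => ?_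
    obtain ⟨h, h1, h2⟩ := T.bpf M x
    exact ⟨h, h1, h2, ((mG h).1 (e.ge h1.1)).2⟩
  by_cases hM : (M : k) = 0
  · obtain ⟨x, hx⟩ := Function.ne_iff.1 g0
    obtain ⟨h, h1, h2⟩ := T.bpf 1 x
    refine key (M + 1) (g * h) (by rw [Nat.cast_succ, hM, zero_add]; exact one_ne_zero)
      (T.H_mul hg h1.1) (Function.ne_iff.2 ⟨x, mul_ne_zero hx h2⟩) fun φ hφ => ?_
    rw [← mul_assoc]
    exact T.H_cast (T.H_mul (hc φ hφ) h1.1) (add_assoc _ _ _)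
  · exact key M g hM hg g0 hc

variable (T) in
/-- the brackets of two functions -/
def br (N : ℕ) (F D : V → k) (y z : V) : V → k :=
  T.U N y D * T.U N z F - T.U N z D * T.U N y F

section
variable [Infinite k] {N M : ℕ} {F D : V → k}

theorem br_mul (hN : (N : k) ≠ 0) (hF : F ∈ T.Iv N) (hD : D ∈ T.Iv N) {g : V → k}
    (hg : g ∈ T.H M) (g0 : g ≠ 0) (hc : ∀ y z, T.br N F D y z * g ∈ T.H (N + N + M)) :
    ∃ j, ∀ y z, ∀ h ∈ T.H ((2 * j + 1) * N), T.br N F D y z * h ∈ T.H ((2 * j + 3) * N) := by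
  obtain ⟨t₀, h₀⟩ := count (T := T) (n := N + N) (M := M) {φ | ∃ (c : k) (y z : V), φ = c • T.br N F D y z}
    (by
      rintro u _ ⟨c, y, z, rfl⟩
      refine ⟨c * (T.ψ (N • T.E y u) * T.ψ (N • T.E z u)), u + y, u + z, ?_⟩
      rw [map_smul, br, map_sub, U_mul, U_mul, U_U, U_U, U_U, U_U, smul_mul_smul_comm,
        smul_mul_smul_comm, mul_comm (T.ψ (N • T.E z u)), ← smul_sub, smul_smul, br])
    (by
      rintro _ ⟨c, y, z, rfl⟩
      exact ⟨N • y + N • z, Submodule.smul_mem _ _ (Submodule.sub_mem _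
        (Eg_cast (Eg_mul (Eg_U (Eg_zero.2 hD) y) (Eg_U (Eg_zero.2 hF) z)) rfl (by abel))
        (Eg_cast (Eg_mul (Eg_U (Eg_zero.2 hD) z) (Eg_U (Eg_zero.2 hF) y)) rfl (by abel)))⟩)
    hg g0 (by
      rintro _ ⟨c, y, z, rfl⟩
      rw [smul_mul_assoc]
      exact Submodule.smul_mem _ _ (hc y z))
  have N0 : 0 < N := Nat.pos_of_ne_zero fun e => hN (by simp [e])
  obtain ⟨j, j1, j2⟩ : ∃ j, t₀ ≤ j ∧ ((2 * j + 3 : ℕ) : k) ≠ 0 := by
    by_cases e : ((2 * t₀ + 3 : ℕ) : k) = 0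
    · refine ⟨t₀ + 1, by omega, fun e' => T.two ?_⟩
      push_cast at e e'
      linear_combination e' - e
    · exact ⟨t₀, le_rfl, e⟩
  have e : N + N + (2 * j + 1) * N = (2 * j + 3) * N := by ring
  refine ⟨j, fun y z h hh => T.H_cast (h₀ _ (by nlinarith) ?_
    (K_mem ⟨1, y, z, (one_smul _ _).symm⟩ hh)) e⟩
  rw [e, Nat.cast_mul]
  exact mul_ne_zero j2 hN

omit [Infinite k] in
theorem diag (hN : 0 < N) (hF : F ∈ T.H N ⊓ T.Iv N) (hD : D ∈ T.Iv N) (eF : ∀ x, F (-x) = F x)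
    (eD : ∀ x, D (-x) = D x) (F0 : F 0 ≠ 0) {j : ℕ}
    (hj : ∀ y z, ∀ h ∈ T.H ((2 * j + 1) * N), T.br N F D y z * h ∈ T.H ((2 * j + 3) * N))
    {h : V → k} (hh : h ∈ T.H ((j + 1) * N) ⊓ T.Iv ((j + 1) * N)) :
    D * F * dil 2 h ∈ T.H ((4 * j + 6) * N) := by
  let P : (V → k) → V → V → k := fun h x y =>
    (D (x + y) * F x * F y - F (x + y) * D x * F y - F (x + y) * F x * D y) * F (x + y) ^ j * h (x - y)
  have eP : ∀ (h : V → k) (y : V), (fun x => P h x y) =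
      F y • (T.br N F D y 0 * (T.U N y F ^ j * T.U ((j + 1) * N) (-y) h)) -
        D y • (T.U N y F * F * (T.U N y F ^ j * T.U ((j + 1) * N) (-y) h)) := fun h y =>
    funext fun x => by
      have e : T.ψ (N • T.E y x) * T.ψ (N • T.E y x) ^ j * T.ψ (((j + 1) * N) • T.E (-y) x) = 1 := by
        rw [← AddChar.map_nsmul_eq_pow, ← ψ_add, ← ψ_add, ← AddChar.map_zero_eq_one T.ψ]
        congr 1
        simp only [map_neg, LinearMap.neg_apply]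
        module
      simp only [P, br, U_zero, Pi.sub_apply, Pi.smul_apply, Pi.mul_apply, Pi.pow_apply, U_apply,
        smul_eq_mul, mul_pow, sub_eq_add_neg x y]
      linear_combination (-((D (x + y) * F x * F y - F (x + y) * D x * F y -
        F (x + y) * F x * D y) * F (x + y) ^ j * h (x + -y))) * e
  have hP : ∀ h ∈ T.H ((j + 1) * N), ∀ y, (fun x => P h x y) ∈ T.H ((2 * j + 3) * N) :=
    fun h hh y => by
      have a : T.U N y F ^ j * T.U ((j + 1) * N) (-y) h ∈ T.H ((2 * j + 1) * N) :=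
        T.H_cast (T.H_mul (T.H_pow (T.H_U y hF.1) j) (T.H_U (-y) hh)) (by ring)
      rw [eP]
      exact Submodule.sub_mem _ (Submodule.smul_mem _ _ (hj y 0 _ a)) (Submodule.smul_mem _ _
        (T.H_cast (T.H_mul (T.H_mul (T.H_U y hF.1) hF.1) a) (by ring)))
  have iP : ∀ y, (fun x => P h x y) ∈ T.Iv ((2 * j + 3) * N) := fun y => by
    have f0 := Eg_zero.2 hF.2
    have d0 := Eg_zero.2 hD
    have a := Eg_mul (Eg_pow (Eg_U f0 y) j) (Eg_U (Eg_zero.2 hh.2) (-y))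
    have z : ∀ f : V → k, f ∈ T.Eg N (0 + N • y) → ∀ f' ∈ T.Eg N 0,
        f * f' * (T.U N y F ^ j * T.U ((j + 1) * N) (-y) h) ∈ T.Iv ((2 * j + 3) * N) :=
      fun f hf f' hf' => Eg_zero.1 (Eg_cast (Eg_mul (Eg_mul hf hf') a) (by ring) (by module))
    rw [eP, br, U_zero, U_zero, sub_mul, mul_comm D]
    exact Submodule.sub_mem _ (Submodule.smul_mem _ _ (Submodule.sub_mem _
      (z _ (Eg_U d0 y) _ f0) (z _ (Eg_U f0 y) _ d0))) (Submodule.smul_mem _ _ (z _ (Eg_U f0 y) _ f0))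
  have : Module.Finite k (T.H ((2 * j + 3) * N) ⊓ T.Iv ((2 * j + 3) * N) :) :=
    Module.rank_lt_aleph0_iff.1 ((T.dim _ (by positivity)).trans_lt Cardinal.natCast_lt_aleph0)
  have key := bal_diag (T.H ((2 * j + 3) * N) ⊓ T.Iv ((2 * j + 3) * N)) (T.H ((4 * j + 6) * N))
    (P h) Neg.neg (fun y => ⟨hP h hh.1 y, iP y⟩) fun x₀ a ha => by
      have h1 := T.H_neg (hP _ (T.H_neg hh.1) x₀)
      have e : (fun x => P h x₀ (-x)) = fun x => P (fun x => h (-x)) (-x) x₀ := funext fun x => by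
        simp only [P, neg_sub, add_comm x₀]
        ring
      rw [e]
      exact T.H_cast (T.H_mul h1 ha.1) (by ring)
  have e : D * F * dil 2 h = (-(2 * F 0 * F 0 ^ j))⁻¹ • ((fun x => P h x (-x)) -
      (D 0 * F 0 ^ j) • (F * F * dil 2 h)) := by
    rw [eq_inv_smul_iff₀ (neg_ne_zero.2 (mul_ne_zero (mul_ne_zero T.two F0) (pow_ne_zero _ F0)))]
    funext x
    simp only [P, Pi.sub_apply, Pi.smul_apply, Pi.mul_apply, smul_eq_mul, dil_apply, add_neg_cancel,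
      eF, eD, sub_neg_eq_add, two_smul]
    ring
  rw [e]
  exact Submodule.smul_mem _ _ (Submodule.sub_mem _ key (Submodule.smul_mem _ _
    (T.H_cast (T.H_mul (T.H_mul hF.1 hF.1) (T.H_dil hh.1)) (by ring))))

/-- the translates of a function -/
def tr (T : HSys k V A) (N : ℕ) (D : V → k) : Set (V → k) :=
  {φ | ∃ (c : k) (y : V), φ = c • T.U N y D}

omit [Infinite k] in
lemma tr_U (u : V) : ∀ φ ∈ T.tr N D, T.U N u φ ∈ T.tr N D := by
  rintro _ ⟨c, y, rfl⟩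
  exact ⟨c * T.ψ (N • T.E y u), u + y, by rw [map_smul, U_U, smul_smul]⟩

omit [Infinite k] in
lemma tr_mem (y : V) : T.U N y D ∈ T.tr N D := ⟨1, y, (one_smul _ _).symm⟩

theorem rigid₀ (hN : (N : k) ≠ 0) (hF : F ∈ T.H N ⊓ T.Iv N) (hD : D ∈ T.Iv N)
    (eF : ∀ x, F (-x) = F x) (eD : ∀ x, D (-x) = D x) (F0 : F 0 ≠ 0) {g : V → k}
    (hg : g ∈ T.H M) (g0 : g ≠ 0) (hc : ∀ y z, T.br N F D y z * g ∈ T.H (N + N + M))
    (ri : dil 2 D ∈ T.K (T.tr N D) N (3 * N)) :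
    ∃ i, dil (2 ^ i) D ∈ T.H (4 ^ i * N) := by
  have N0 : 0 < N := Nat.pos_of_ne_zero fun e => hN (by simp [e])
  obtain ⟨j, hj⟩ := br_mul hN hF.2 hD hg g0 hc
  have a2 := T.H_pow hF.1 (2 * j + 1)
  have a3 := T.H_dil (T.H_pow hF.1 (j + 1))
  have d2 := diag N0 hF hD eF eD F0 hj ⟨T.H_pow hF.1 (j + 1), Iv_pow hF.2 (j + 1)⟩
  obtain ⟨t₀, h₀⟩ := count (T := T) (n := N) (M := (6 * j + 7) * N) (T.tr N D) tr_U
    (by
      rintro _ ⟨c, y, rfl⟩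
      exact ⟨_, Submodule.smul_mem _ _ (Eg_U (Eg_zero.2 hD) y)⟩)
    (g := F * F ^ (2 * j + 1) * (F * dil 2 (F ^ (j + 1))))
    (T.H_cast (T.H_mul (T.H_mul hF.1 a2) (T.H_mul hF.1 a3)) (by ring))
    (Function.ne_iff.2 ⟨0, mul_ne_zero (mul_ne_zero F0 (pow_ne_zero _ F0))
      (mul_ne_zero F0 (pow_ne_zero _ (by rw [smul_zero]; exact F0)))⟩)
    (by
      rintro _ ⟨c, y, rfl⟩
      rw [smul_mul_assoc]
      refine Submodule.smul_mem _ _ ?_
      have e' : T.U N y D * (F * F ^ (2 * j + 1) * (F * dil 2 (F ^ (j + 1)))) =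
          T.br N F D y 0 * F ^ (2 * j + 1) * (F * dil 2 (F ^ (j + 1))) +
          D * F * dil 2 (F ^ (j + 1)) * (T.U N y F * F ^ (2 * j + 1)) := by
        rw [br, U_zero, U_zero]
        ring
      rw [e']
      exact Submodule.add_mem _
        (T.H_cast (T.H_mul (hj y 0 _ a2) (T.H_mul hF.1 a3)) (by ring))
        (T.H_cast (T.H_mul d2 (T.H_mul (T.H_U y hF.1) a2)) (by ring)))
  have st : ∀ t, ∀ f ∈ T.K (T.tr N D) N t, dil 2 f ∈ T.K (T.tr N D) N (3 * N + 4 * t) := fun t =>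
    K_ind _ (dil 2).toLinearMap (fun f hf => K_H (T.H_cast (T.H_dil hf) (by ring))) (by
      rintro _ ⟨c, y, rfl⟩ h hh
      rw [AlgHom.toLinearMap_apply, map_mul, map_smul, smul_mul_assoc]
      refine Submodule.smul_mem _ _ (K_mul (T.H_dil hh) _ ?_)
      have e3 : y = 2 • (1 / 2 : ℚ) • y := by module
      rw [e3, dil_U, show 4 * N = N + 3 * N by ring]
      exact K_U tr_U _ _ ri)
  have it : ∀ i, ∃ t, i ≤ t ∧ N + t = 4 ^ i * N ∧ dil (2 ^ i) D ∈ T.K (T.tr N D) N t := fun i => by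
    induction i with
    | zero =>
      refine ⟨0, le_rfl, by simp, ?_⟩
      have := K_mem (T := T) (n := N) (tr_mem (T := T) (N := N) (D := D) 0) T.H_one
      rw [mul_one, U_zero] at this
      rwa [show dil (2 ^ 0) D = D from funext fun x => by simp [dil_apply]]
    | succ i ih =>
      obtain ⟨t, h1, h2, h3⟩ := ih
      refine ⟨3 * N + 4 * t, by omega, by rw [pow_succ]; linarith, ?_⟩
      have := st t _ h3
      rwa [show dil 2 (dil (2 ^ i) D) = dil (2 ^ (i + 1)) D from funext fun x => by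
        simp only [dil_apply, smul_smul, pow_succ]] at this
  obtain ⟨t, h1, h2, h3⟩ := it t₀
  refine ⟨t₀, T.H_cast (h₀ t h1 ?_ h3) h2⟩
  rw [h2, Nat.cast_mul, Nat.cast_pow, show ((4 : ℕ) : k) = 2 * 2 by norm_num]
  exact mul_ne_zero (pow_ne_zero _ (mul_ne_zero T.two T.two)) hN

/-- First order rigidity; the complement `g` is any function that is not zero. -/
theorem rigid (hN : (N : k) ≠ 0) (hF : F ∈ T.H N ⊓ T.Iv N) (hD : D ∈ T.Iv N)
    (eF : ∀ x, F (-x) = F x) (eD : ∀ x, D (-x) = D x) (F0 : F 0 ≠ 0) {g : V → k} (g0 : g ≠ 0)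
    (hg : ∀ y, T.U N y F * g ∈ T.H (N + M))
    (hc : ∀ y z, T.br N F D y z * g ∈ T.H (N + N + M))
    (ri : dil 2 D ∈ T.K (T.tr N D) N (3 * N)) :
    ∃ i, dil (2 ^ i) D ∈ T.H (4 ^ i * N) := by
  obtain ⟨x, hx⟩ := Function.ne_iff.1 g0
  refine rigid₀ hN hF hD eF eD F0 (hg (-x)) (Function.ne_iff.2 ⟨x, mul_ne_zero (mul_ne_zero
    (AddChar.val_isUnit _ _).ne_zero (by rw [add_neg_cancel]; exact F0)) hx⟩) (fun y w => ?_) ri
  rw [mul_left_comm]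
  exact T.H_cast (T.H_mul (T.H_U (-x) hF.1) (hc y w)) (by ring)

end

end HSys

end Pool.Agent.MT
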